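import Pool.Agent.QPR.Tut

/-!
# Histories: orders of the ground set with outcomes, and their weights
-/

set_option autoImplicit false

namespace Pool.Agent.QPR

open Finset

variable {α : Type} [DecidableEq α]

/-- the elements of a history -/
def els (h : List (α × Bool)) : Finset α := (h.map Prod.fst).toFinset

@[simp] theorem els_nil : els ([] : List (α × Bool)) = ∅ := rfl

@[simp] theorem els_cons (p : α × Bool) (h : List (α × Bool)) :
    els (p :: h) = insert p.1 (els h) := by
  simp [els]

/-- the histories of a set with `n` elements -/
def HistN : ℕ → Finset α → Finset (List (α × Bool))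
  | 0, _ => {[]}
  | n + 1, R => R.biUnion fun e => (HistN n (R.erase e)).image (List.cons (e, true)) ∪
      (HistN n (R.erase e)).image (List.cons (e, false))

/-- the histories: lists of pairs (element, contracted?), the elements being those of `R`, each
once -/
def Hist (R : Finset α) : Finset (List (α × Bool)) := HistN R.card R

theorem mem_HistN (n : ℕ) (R : Finset α) (hn : R.card = n) (h : List (α × Bool)) :
    h ∈ HistN n R ↔ (h.map Prod.fst).Nodup ∧ els h = R := by
  induction n generalizing R h with
  | zero =>
    have hR : R = ∅ := Finset.card_eq_zero.1 hn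
    subst hR
    simp only [HistN, Finset.mem_singleton]
    constructor
    · rintro rfl
      simp
    · rintro ⟨_, h2⟩
      cases h with
      | nil => rfl
      | cons p h =>
        exfalso
        rw [els_cons] at h2
        exact Finset.insert_ne_empty _ _ h2
  | succ n ih =>
    simp only [HistN, Finset.mem_biUnion, Finset.mem_union, Finset.mem_image]
    constructor
    · rintro ⟨e, he, h1⟩
      have hc : (R.erase e).card = n := by
        rw [Finset.card_erase_of_mem he, hn]; rfl
      have key : ∀ (o : Bool) (h' : List (α × Bool)), h' ∈ HistN n (R.erase e) →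
          (((e, o) :: h').map Prod.fst).Nodup ∧ els ((e, o) :: h') = R := by
        intro o h' hh'
        obtain ⟨h2, h3⟩ := (ih (R.erase e) hc h').1 hh'
        constructor
        · rw [List.map_cons, List.nodup_cons]
          refine ⟨?_, h2⟩
          intro hmem
          have : e ∈ els h' := by
            simp only [els, List.mem_toFinset]
            exact hmem
          rw [h3] at this
          exact (Finset.notMem_erase e R) this
        · rw [els_cons, h3, Finset.insert_erase he]
      rcases h1 with ⟨h', hh', rfl⟩ | ⟨h', hh', rfl⟩
      · exact key true h' hh'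
      · exact key false h' hh'
    · rintro ⟨h1, h2⟩
      cases h with
      | nil =>
        rw [els_nil] at h2
        rw [← h2] at hn
        simp at hn
      | cons p h =>
        obtain ⟨e, o⟩ := p
        rw [List.map_cons, List.nodup_cons] at h1
        rw [els_cons] at h2
        have he : e ∈ R := by rw [← h2]; exact Finset.mem_insert_self _ _
        have hne : e ∉ els h := by
          intro hh
          apply h1.1
          simpa [els] using hh
        have h3 : els h = R.erase e := by rw [← h2, Finset.erase_insert hne]
        have hc : (R.erase e).card = n := by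
          rw [Finset.card_erase_of_mem he, hn]; rfl
        refine ⟨e, he, ?_⟩
        have h4 := (ih (R.erase e) hc h).2 ⟨h1.2, h3⟩
        cases o with
        | true => exact Or.inl ⟨h, h4, rfl⟩
        | false => exact Or.inr ⟨h, h4, rfl⟩

theorem mem_Hist {R : Finset α} {h : List (α × Bool)} :
    h ∈ Hist R ↔ (h.map Prod.fst).Nodup ∧ els h = R := mem_HistN _ _ rfl _

theorem length_of_mem_Hist {R : Finset α} {h : List (α × Bool)} (hh : h ∈ Hist R) :
    h.length = R.card := by
  obtain ⟨h1, h2⟩ := mem_Hist.1 hh
  rw [← h2, els, List.toFinset_card_of_nodup h1, List.length_map]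

theorem Hist_empty : Hist (∅ : Finset α) = {[]} := rfl

/-- summation over the first element and its outcome -/
theorem sum_Hist {β : Type} [AddCommMonoid β] {R : Finset α} (hR : R.Nonempty)
    (F : List (α × Bool) → β) :
    ∑ h ∈ Hist R, F h = ∑ e ∈ R, (∑ h ∈ Hist (R.erase e), F ((e, true) :: h) +
      ∑ h ∈ Hist (R.erase e), F ((e, false) :: h)) := by
  obtain ⟨n, hn⟩ : ∃ n, R.card = n + 1 :=
    Nat.exists_eq_succ_of_ne_zero (Finset.card_ne_zero.2 hR)
  have h1 : Hist R = R.biUnion fun e => (HistN n (R.erase e)).image (List.cons (e, true)) ∪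
      (HistN n (R.erase e)).image (List.cons (e, false)) := by
    unfold Hist
    rw [hn]
    rfl
  rw [h1, Finset.sum_biUnion]
  · apply Finset.sum_congr rfl
    intro e he
    have hc : (R.erase e).card = n := by
      rw [Finset.card_erase_of_mem he, hn]; rfl
    have h2 : Hist (R.erase e) = HistN n (R.erase e) := by
      unfold Hist
      rw [hc]
    rw [h2, Finset.sum_union]
    · rw [Finset.sum_image (fun a _ b _ hab => (List.cons.inj hab).2),
        Finset.sum_image (fun a _ b _ hab => (List.cons.inj hab).2)]
    · rw [Finset.disjoint_left]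
      intro a ha hb
      simp only [Finset.mem_image] at ha hb
      obtain ⟨a1, _, rfl⟩ := ha
      obtain ⟨b1, _, hb⟩ := hb
      have := (List.cons.inj hb).1
      simp at this
  · intro e _ e' _ hne
    simp only [Function.onFun]
    rw [Finset.disjoint_left]
    intro a ha hb
    simp only [Finset.mem_union, Finset.mem_image] at ha hb
    apply hne
    rcases ha with ⟨a1, _, rfl⟩ | ⟨a1, _, rfl⟩ <;>
    · rcases hb with ⟨b1, _, hb⟩ | ⟨b1, _, hb⟩ <;>
      · have := (List.cons.inj hb).1
        simp only [Prod.mk.injEq] at this
        exact this.1.symm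

/-- the weight of a history in the minor with contracted set `C`: factor `y` for a deleted loop,
`x` for a contracted coloop, `z` for an element that is neither; contracting a loop or deleting a
coloop is forbidden -/
def hw {S : Type} [CommSemiring S] (r : Finset α → ℕ) (x y z : S) :
    Finset α → List (α × Bool) → S
  | _, [] => 1
  | C, (e, o) :: h =>
    if r (insert e C) = r C then (if o then 0 else y * hw r x y z C h)
    else if r (C ∪ els h) < r (insert e (C ∪ els h)) then
      (if o then x * hw r x y z (insert e C) h else 0)
    else z * (if o then hw r x y z (insert e C) h else hw r x y z C h)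

theorem hw_nonneg {r : Finset α → ℕ} {x y z : ℝ} (hx : 0 ≤ x) (hy : 0 ≤ y) (hz : 0 ≤ z)
    (h : List (α × Bool)) : ∀ C : Finset α, 0 ≤ hw r x y z C h := by
  induction h with
  | nil => intro C; exact zero_le_one
  | cons p h ih =>
    intro C
    obtain ⟨e, o⟩ := p
    unfold hw
    split_ifs
    · exact le_refl _
    · exact mul_nonneg hy (ih _)
    · exact mul_nonneg hx (ih _)
    · exact le_refl _
    · exact mul_nonneg hz (ih _)
    · exact mul_nonneg hz (ih _)

/-- integer weights -/
theorem hw_cast (r : Finset α → ℕ) (X1 X2 Y1 Y2 : ℕ) (hX2 : 0 < X2) (hY2 : 0 < Y2)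
    (h : List (α × Bool)) : ∀ C : Finset α,
    ((hw r (X1 * Y2) (Y1 * X2) (X2 * Y2) C h : ℕ) : ℝ) =
      ((X2 : ℝ) * Y2) ^ h.length * hw r ((X1 : ℝ) / X2) ((Y1 : ℝ) / Y2) 1 C h := by
  have h1 : (X2 : ℝ) ≠ 0 := by exact_mod_cast hX2.ne'
  have h2 : (Y2 : ℝ) ≠ 0 := by exact_mod_cast hY2.ne'
  induction h with
  | nil => intro C; simp [hw]
  | cons p h ih =>
    intro C
    obtain ⟨e, o⟩ := p
    unfold hw
    rw [List.length_cons, pow_succ]
    split_ifs
    · simp
    · push_cast
      rw [ih]
      field_simp
    · push_cast
      rw [ih]
      field_simp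
    · simp
    · push_cast
      rw [ih]
      ring
    · push_cast
      rw [ih]
      ring

/-- the sum over the outcomes of the first element -/
theorem sum_first {r : Finset α → ℕ} (hr : IsRank r) (x y : ℝ) {C R : Finset α} {e : α}
    (he : e ∈ R) (A1 A2 : ℝ)
    (h1 : ∀ C : Finset α, ∑ h ∈ Hist (R.erase e), hw r x y 1 C h =
      (R.card - 1).factorial * TT r x y C (R.erase e))
    (hA1 : A1 = ∑ h ∈ Hist (R.erase e), hw r x y 1 C ((e, true) :: h))
    (hA2 : A2 = ∑ h ∈ Hist (R.erase e), hw r x y 1 C ((e, false) :: h)) :
    A1 + A2 = (R.card - 1).factorial * TT r x y C R ∧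
    (r (insert e C) ≠ r C → ¬ r (C ∪ R.erase e) < r (insert e (C ∪ R.erase e)) →
      A1 = (R.card - 1).factorial * TT r x y (insert e C) (R.erase e) ∧
      A2 = (R.card - 1).factorial * TT r x y C (R.erase e)) := by
  have hne : e ∉ R.erase e := Finset.notMem_erase e R
  have hR : insert e (R.erase e) = R := Finset.insert_erase he
  have e1 : ∀ o : Bool, ∑ h ∈ Hist (R.erase e), hw r x y 1 C ((e, o) :: h) =
      ∑ h ∈ Hist (R.erase e), (if r (insert e C) = r C then (if o then 0 else y * hw r x y 1 C h)
        else if r (C ∪ R.erase e) < r (insert e (C ∪ R.erase e)) then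
          (if o then x * hw r x y 1 (insert e C) h else 0)
        else 1 * (if o then hw r x y 1 (insert e C) h else hw r x y 1 C h)) := by
    intro o
    apply Finset.sum_congr rfl
    intro h hh
    rw [← (mem_Hist.1 hh).2]
    rfl
  rw [e1] at hA1 hA2
  by_cases hl : r (insert e C) = r C
  · simp only [hl, if_true, Finset.sum_const_zero] at hA1
    simp only [hl, if_true, Bool.false_eq_true, if_false, ← Finset.mul_sum] at hA2
    refine ⟨?_, fun h => absurd hl h⟩
    rw [hA1, hA2, h1]
    have := TT_loop hr x y C hne hl
    rw [hR] at this
    rw [this]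
    ring
  · by_cases hc : r (C ∪ R.erase e) < r (insert e (C ∪ R.erase e))
    · simp only [hl, hc, if_true, if_false, ← Finset.mul_sum] at hA1
      simp only [hl, hc, if_true, Bool.false_eq_true, if_false, Finset.sum_const_zero] at hA2
      refine ⟨?_, fun _ h => absurd hc h⟩
      rw [hA1, hA2, h1]
      have := TT_coloop hr x y C hne hc
      rw [hR] at this
      rw [this]
      ring
    · simp only [hl, hc, if_true, if_false, one_mul] at hA1
      simp only [hl, hc, Bool.false_eq_true, if_false, one_mul] at hA2
      rw [h1] at hA1 hA2
      refine ⟨?_, fun _ _ => ⟨hA1, hA2⟩⟩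
      rw [hA1, hA2]
      have := TT_generic hr x y C hne hl hc
      rw [hR] at this
      rw [this]
      ring

/-- the sum of all weights -/
theorem sum_hw {r : Finset α → ℕ} (hr : IsRank r) (x y : ℝ) (n : ℕ) :
    ∀ C R : Finset α, R.card = n → ∑ h ∈ Hist R, hw r x y 1 C h =
      R.card.factorial * TT r x y C R := by
  induction n with
  | zero =>
    intro C R hn
    have hR : R = ∅ := Finset.card_eq_zero.1 hn
    subst hR
    rw [Hist_empty, Finset.sum_singleton, TT_empty]
    simp [hw]
  | succ n ih =>
    intro C R hn
    have hR : R.Nonempty := by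
      rw [← Finset.card_pos, hn]
      omega
    rw [sum_Hist hR]
    have h1 : ∀ e ∈ R, (∑ h ∈ Hist (R.erase e), hw r x y 1 C ((e, true) :: h) +
        ∑ h ∈ Hist (R.erase e), hw r x y 1 C ((e, false) :: h)) =
        (R.card - 1).factorial * TT r x y C R := by
      intro e he
      refine (sum_first hr x y he _ _ (fun C => ?_) rfl rfl).1
      have hc : (R.erase e).card = n := by
        rw [Finset.card_erase_of_mem he, hn]; rfl
      rw [ih C (R.erase e) hc, Finset.card_erase_of_mem he]
    rw [Finset.sum_congr rfl h1, Finset.sum_const, hn, nsmul_eq_mul, Nat.factorial_succ]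
    push_cast
    ring

/-- the weight of the histories beginning with a given generic element -/
theorem sum_hw_first {r : Finset α → ℕ} (hr : IsRank r) (x y : ℝ) {C R : Finset α} {e : α}
    (he : e ∈ R) (hl : r (insert e C) ≠ r C)
    (hc : ¬ r (C ∪ R.erase e) < r (insert e (C ∪ R.erase e))) :
    ∑ h ∈ Hist R, (if h.head? = some (e, true) then hw r x y 1 C h else 0) =
      (R.card - 1).factorial * TT r x y (insert e C) (R.erase e) ∧
    ∑ h ∈ Hist R, (if h.head? = some (e, false) then hw r x y 1 C h else 0) =
      (R.card - 1).factorial * TT r x y C (R.erase e) := by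
  have h1 := (sum_first hr x y (C := C) he _ _ (fun C => by
    rw [sum_hw hr x y _ C (R.erase e) rfl, Finset.card_erase_of_mem he]) rfl rfl).2 hl hc
  have hR : R.Nonempty := ⟨e, he⟩
  constructor
  · rw [← h1.1, sum_Hist hR, Finset.sum_eq_single e]
    · simp
    · intro b _ hb
      simp [hb]
    · intro h
      exact absurd he h
  · rw [← h1.2, sum_Hist hR, Finset.sum_eq_single e]
    · simp
    · intro b _ hb
      simp [hb]
    · intro h
      exact absurd he h

/-- the starting history of a list: an element is contracted unless it is a loop -/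
def start (r : Finset α → ℕ) : Finset α → List α → List (α × Bool)
  | _, [] => []
  | C, e :: L => if r (insert e C) = r C then (e, false) :: start r C L
      else (e, true) :: start r (insert e C) L

theorem start_map (r : Finset α → ℕ) (L : List α) : ∀ C : Finset α,
    (start r C L).map Prod.fst = L := by
  induction L with
  | nil => intro C; rfl
  | cons e L ih =>
    intro C
    unfold start
    split_ifs <;> rw [List.map_cons, ih]

theorem start_mem (r : Finset α → ℕ) (C : Finset α) {L : List α} (hL : L.Nodup) :
    start r C L ∈ Hist L.toFinset := by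
  rw [mem_Hist, els, start_map]
  exact ⟨hL, rfl⟩

theorem start_weight {r : Finset α → ℕ} {x y μ : ℝ} (hμ : 0 < μ) (hμ1 : μ ≤ 1) (hx : μ ≤ x)
    (hy : μ ≤ y) (L : List α) : ∀ C : Finset α, μ ^ L.length ≤ hw r x y 1 C (start r C L) := by
  induction L with
  | nil => intro C; simp [start, hw]
  | cons e L ih =>
    intro C
    unfold start
    rw [List.length_cons, pow_succ, mul_comm]
    by_cases hl : r (insert e C) = r C
    · rw [if_pos hl]
      unfold hw
      simp only [hl, if_true, Bool.false_eq_true, if_false]
      exact mul_le_mul hy (ih C) (by positivity) (by linarith)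
    · rw [if_neg hl]
      unfold hw
      simp only [hl, if_true, if_false]
      split_ifs
      · exact mul_le_mul hx (ih _) (by positivity) (by linarith)
      · exact mul_le_mul hμ1 (ih _) (by positivity) (by linarith)

end Pool.Agent.QPR
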