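import Pool.Agent.TutteEq.Rank
import Pool.Agent.QPR.Hist

/-!
# The rank function of a graph with labelled edges
-/

set_option autoImplicit false

namespace Pool.Agent.QPR

open Pool.Agent.PT Pool.Agent.TutteHard Pool.Agent.TutteEq Finset Relation

/-- labelled edges -/
abbrev LE : Type := List Bool × (Vx × Vx)

/-- the rank of a list of labelled edges -/
def lrk (l : List LE) : ℕ := (rank_rk (l.map Prod.snd)).val

/-- the rank of a set of labelled edges -/
noncomputable def grk (A : Finset LE) : ℕ := lrk A.toList

theorem lrk_eq {V : Finset Vx} {l : List LE} (h : EndsIn V (l.map Prod.snd)) :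
    lrk l + comps V (l.map Prod.snd) = V.card := rank_rk_eq h

theorem endsIn_verts_append (G H : MGraph) : EndsIn (verts (G ++ H)) G := by
  intro e he
  exact rank_endsIn (G ++ H) e (List.mem_append_left _ he)

theorem endsIn_verts_append' (G H : MGraph) : EndsIn (verts (G ++ H)) H := by
  intro e he
  exact rank_endsIn (G ++ H) e (List.mem_append_right _ he)

theorem lrk_congr {l l' : List LE} (h : ∀ e, e ∈ l ↔ e ∈ l') : lrk l = lrk l' := by
  have h1 := lrk_eq (endsIn_verts_append (l.map Prod.snd) (l'.map Prod.snd))
  have h2 := lrk_eq (endsIn_verts_append' (l.map Prod.snd) (l'.map Prod.snd))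
  have h3 : comps (verts (l.map Prod.snd ++ l'.map Prod.snd)) (l.map Prod.snd) =
      comps (verts (l.map Prod.snd ++ l'.map Prod.snd)) (l'.map Prod.snd) := by
    apply comps_congr
    intro e
    simp only [List.mem_map]
    constructor
    · rintro ⟨a, ha, rfl⟩
      exact ⟨a, (h a).1 ha, rfl⟩
    · rintro ⟨a, ha, rfl⟩
      exact ⟨a, (h a).2 ha, rfl⟩
  rw [h3] at h1
  omega

theorem grk_toFinset (l : List LE) : grk l.toFinset = lrk l := by
  apply lrk_congr
  intro e
  simp

theorem grk_insert (A : Finset LE) (e : LE) : grk (insert e A) = lrk (e :: A.toList) := by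
  apply lrk_congr
  intro f
  simp

/-- connected in the graph with edges `A` -/
def Cn (A : Finset LE) (e : LE) : Prop :=
  EqvGen (fun u w => (u, w) ∈ A.toList.map Prod.snd) e.2.1 e.2.2

theorem Cn.mono {A B : Finset LE} {e : LE} (h : Cn A e) (hAB : A ⊆ B) : Cn B e := by
  unfold Cn at *
  have key : ∀ u w : Vx, EqvGen (fun u w => (u, w) ∈ A.toList.map Prod.snd) u w →
      EqvGen (fun u w => (u, w) ∈ B.toList.map Prod.snd) u w := by
    intro u w huw
    induction huw with
    | rel u w huw =>
      apply EqvGen.rel
      simp only [List.mem_map, Finset.mem_toList] at huw ⊢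
      obtain ⟨a, ha, hh⟩ := huw
      exact ⟨a, hAB ha, hh⟩
    | refl u => exact EqvGen.refl _
    | symm u w _ ih => exact EqvGen.symm _ _ ih
    | trans u v w _ _ ih1 ih2 => exact EqvGen.trans _ _ _ ih1 ih2
  exact key _ _ h

theorem grk_step (A : Finset LE) (e : LE) :
    (Cn A e → grk (insert e A) = grk A) ∧ (¬ Cn A e → grk (insert e A) = grk A + 1) := by
  rw [grk_insert]
  set V := verts ((e :: A.toList).map Prod.snd) with hV
  have h0 : EndsIn V ((e :: A.toList).map Prod.snd) := rank_endsIn _
  have h1 : EndsIn V (A.toList.map Prod.snd) := fun f hf => h0 f (by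
    rw [List.map_cons]
    exact List.mem_cons_of_mem _ hf)
  have hab := h0 e.2 (by rw [List.map_cons]; exact List.mem_cons_self)
  have e1 := lrk_eq h0
  have e2 := lrk_eq h1
  rw [List.map_cons] at e1
  have e3 : grk A = lrk A.toList := rfl
  have e4 := rank_eqv_sub h1 hab.1 hab.2
  constructor
  · intro hc
    have := comps_cons_of_eqv hab.1 hab.2 (e4.2 hc)
    change comps V (e.2 :: _) = _ at this
    omega
  · intro hc
    have := comps_cons_of_not_eqv hab.1 hab.2 (fun h => hc (e4.1 h))
    change _ = comps V (e.2 :: _) + 1 at this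
    omega

theorem grk_isRank : IsRank grk := by
  refine ⟨?_, ?_, ?_, ?_⟩
  · have h := lrk_eq (V := ∅) (l := []) (fun e he => absurd he (by simp))
    have : grk ∅ = lrk [] := by
      unfold grk
      simp
    rw [this]
    have h2 : (∅ : Finset Vx).card = 0 := rfl
    omega
  · intro A e
    by_cases h : Cn A e
    · rw [(grk_step A e).1 h]
    · rw [(grk_step A e).2 h]
      omega
  · intro A e
    by_cases h : Cn A e
    · rw [(grk_step A e).1 h]
      omega
    · rw [(grk_step A e).2 h]
  · intro A e f he hf
    have h1 : Cn A e := by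
      by_contra h
      have := (grk_step A e).2 h
      omega
    rw [(grk_step (insert f A) e).1 (h1.mono (Finset.subset_insert _ _)), hf]

/-- the edges with labels -/
def lab : MGraph → List LE
  | [] => []
  | e :: G => (List.replicate G.length true, e) :: lab G

theorem length_lab (G : MGraph) : (lab G).length = G.length := by
  induction G with
  | nil => rfl
  | cons e G ih => simp [lab, ih]

theorem mem_lab_length {G : MGraph} {a : LE} (ha : a ∈ lab G) : a.1.length < G.length := by
  induction G with
  | nil => simp [lab] at ha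
  | cons e G ih =>
    rw [lab, List.mem_cons] at ha
    rcases ha with rfl | ha
    · simp
    · have := ih ha
      rw [List.length_cons]
      omega

theorem lab_nodup (G : MGraph) : (lab G).Nodup := by
  induction G with
  | nil => exact List.nodup_nil
  | cons e G ih =>
    rw [lab, List.nodup_cons]
    refine ⟨fun h => ?_, ih⟩
    have := mem_lab_length h
    simp at this

/-- the labelled edge with index `i` -/
def labAt (G : MGraph) (i : Fin G.length) : LE :=
  (List.replicate (G.length - 1 - i.val) true, G.get i)

theorem labAt_injective (G : MGraph) : Function.Injective (labAt G) := by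
  intro i j h
  have := congrArg (fun a : LE => a.1.length) h
  simp only [labAt, List.length_replicate] at this
  apply Fin.ext
  have := i.2
  have := j.2
  omega

theorem mem_lab (G : MGraph) (a : LE) : a ∈ lab G ↔ ∃ i, labAt G i = a := by
  induction G with
  | nil =>
    simp only [lab, List.not_mem_nil, false_iff, not_exists]
    intro i
    exact i.elim0
  | cons e G ih =>
    rw [lab, List.mem_cons, ih]
    constructor
    · rintro (rfl | ⟨i, rfl⟩)
      · exact ⟨⟨0, by simp⟩, by simp [labAt]⟩
      · refine ⟨⟨i.val + 1, by simp⟩, ?_⟩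
        unfold labAt
        simp only [List.length_cons, List.get_eq_getElem, List.getElem_cons_succ]
        congr 2
        omega
    · rintro ⟨⟨i, hi⟩, rfl⟩
      cases i with
      | zero => left; simp [labAt]
      | succ i =>
        right
        refine ⟨⟨i, by simpa using hi⟩, ?_⟩
        unfold labAt
        simp only [List.length_cons, List.get_eq_getElem, List.getElem_cons_succ]
        congr 2
        omega

theorem mem_subEdges_iff {G : MGraph} {A : Finset (Fin G.length)} {e : Vx × Vx} :
    e ∈ subEdges G A ↔ ∃ i ∈ A, G.get i = e := by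
  unfold subEdges
  simp only [List.mem_map, List.mem_filter, List.mem_finRange, true_and, decide_eq_true_eq]

theorem grk_map (G : MGraph) (A : Finset (Fin G.length)) :
    grk (A.map ⟨labAt G, labAt_injective G⟩) = rank G A := by
  unfold rank grk
  have h0 : ∀ e, e ∈ ((A.map ⟨labAt G, labAt_injective G⟩).toList.map Prod.snd) ↔
      e ∈ subEdges G A := by
    intro e
    rw [mem_subEdges_iff]
    simp only [List.mem_map, Finset.mem_toList, Finset.mem_map, Function.Embedding.coeFn_mk]
    constructor
    · rintro ⟨a, ⟨i, hi, rfl⟩, rfl⟩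
      exact ⟨i, hi, rfl⟩
    · rintro ⟨i, hi, rfl⟩
      exact ⟨labAt G i, ⟨i, hi, rfl⟩, rfl⟩
  have h1 : EndsIn (verts G) ((A.map ⟨labAt G, labAt_injective G⟩).toList.map Prod.snd) := by
    intro e he
    obtain ⟨i, _, rfl⟩ := mem_subEdges_iff.1 ((h0 e).1 he)
    exact rank_endsIn G _ (List.get_mem G i)
  have h2 := lrk_eq h1
  rw [comps_congr h0] at h2
  omega

theorem tutte_eq_TT (G : MGraph) (x y : ℝ) :
    tutte G x y = TT grk x y ∅ (lab G).toFinset := by
  have hlab : (lab G).toFinset = Finset.univ.map ⟨labAt G, labAt_injective G⟩ := by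
    ext a
    simp only [List.mem_toFinset, mem_lab, Finset.mem_map, Finset.mem_univ, true_and,
      Function.Embedding.coeFn_mk]
  rw [hlab]
  unfold tutte TT
  refine Finset.sum_bij (fun A _ => A.map ⟨labAt G, labAt_injective G⟩) ?_ ?_ ?_ ?_
  · intro A _
    rw [Finset.mem_powerset]
    exact Finset.map_subset_map.2 (Finset.subset_univ _)
  · intro A _ B _ h
    exact Finset.map_injective _ h
  · intro B hB
    rw [Finset.mem_powerset, Finset.subset_map_iff] at hB
    obtain ⟨A, _, rfl⟩ := hB
    exact ⟨A, Finset.mem_univ _, rfl⟩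
  · intro A _
    rw [Finset.empty_union, Finset.empty_union, grk_map, grk_map, Finset.card_map,
      grk_isRank.empty, Nat.add_zero]

end Pool.Agent.QPR
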