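import Pool.Agent.QPR.Sim
import Pool.Agent.QPR.Graph

/-!
# The rounds of the counting algorithm
-/

set_option autoImplicit false

namespace Pool.Agent.QPR

open Finset Real

/-- choice of the more frequent outcome -/
theorem choose_bound {n : ℕ} (hn : 1 ≤ n) {θ p p' S S' N : ℝ} (hN : 0 < N) (hθ : 0 < θ)
    (hθ1 : θ ≤ 1) (hsum : p + p' = 1 / n) (h1 : |S / N - p| < θ / (8 * n))
    (h2 : |S' / N - p'| < θ / (8 * n)) (hle : S' ≤ S) :
    exp (-θ) ≤ N * p / S ∧ N * p / S ≤ exp θ := by
  have hn' : (1 : ℝ) ≤ n := by exact_mod_cast hn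
  have hn0 : (0 : ℝ) < n := by linarith
  obtain ⟨z, hz⟩ : ∃ z, z = S / N := ⟨_, rfl⟩
  obtain ⟨z', hz'⟩ : ∃ z', z' = S' / N := ⟨_, rfl⟩
  have hzz : z' ≤ z := by
    rw [hz, hz']
    exact div_le_div_of_nonneg_right hle hN.le
  rw [← hz] at h1
  rw [← hz'] at h2
  rw [abs_lt] at h1 h2
  obtain ⟨ρ, hρ⟩ : ∃ ρ, ρ = θ / (8 * n) := ⟨_, rfl⟩
  rw [← hρ] at h1 h2
  have hρ0 : 0 < ρ := by rw [hρ]; positivity
  have h8 : 8 * n * ρ = θ := by
    rw [hρ]
    field_simp
  have h9 : (n : ℝ) * (1 / n) = 1 := by field_simp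
  -- `n p ≥ 1 / 4`
  have hp : 1 / 4 ≤ n * p := by
    have h3 : p' < p + 2 * ρ := by linarith
    have h4 : 1 / (n : ℝ) < 2 * p + 2 * ρ := by linarith
    have h5 : n * (1 / (n : ℝ)) < n * (2 * p + 2 * ρ) := mul_lt_mul_of_pos_left h4 hn0
    rw [h9] at h5
    nlinarith
  have hp0 : 0 < p := by
    by_contra h
    have : n * p ≤ 0 := mul_nonpos_of_nonneg_of_nonpos hn0.le (not_lt.1 h)
    linarith
  -- `ρ ≤ (θ / 2) p`
  have h3 : ρ ≤ θ / 2 * p := by
    have h4 : n * ρ ≤ n * (θ / 2 * p) := by nlinarith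
    exact le_of_mul_le_mul_left h4 hn0
  have hz1 : (1 - θ / 2) * p ≤ z := by nlinarith
  have hz2 : z ≤ (1 + θ / 2) * p := by nlinarith
  have hz0 : 0 < z := lt_of_lt_of_le (mul_pos (by linarith) hp0) hz1
  have e : N * p / S = p / z := by
    rw [hz]
    have hS : S ≠ 0 := by
      intro h
      rw [h, zero_div] at hz
      linarith
    field_simp
  rw [e]
  constructor
  · rw [le_div_iff₀ hz0]
    have h5 : exp (-θ) * (1 + θ / 2) ≤ 1 := by
      have h6 : 1 + θ / 2 ≤ exp θ := by
        have := add_one_le_exp θ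
        linarith
      calc exp (-θ) * (1 + θ / 2) ≤ exp (-θ) * exp θ :=
            mul_le_mul_of_nonneg_left h6 (exp_pos _).le
        _ = 1 := by rw [← exp_add]; simp
    calc exp (-θ) * z ≤ exp (-θ) * ((1 + θ / 2) * p) :=
          mul_le_mul_of_nonneg_left hz2 (exp_pos _).le
      _ = (exp (-θ) * (1 + θ / 2)) * p := by ring
      _ ≤ 1 * p := mul_le_mul_of_nonneg_right h5 hp0.le
      _ = p := one_mul p
  · rw [div_le_iff₀ hz0]
    have h5 : 1 ≤ exp θ * (1 - θ / 2) := by
      have h6 : 1 + θ + θ ^ 2 / 2 ≤ exp θ := quadratic_le_exp_of_nonneg hθ.le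
      have h7 : (1 + θ + θ ^ 2 / 2) * (1 - θ / 2) ≤ exp θ * (1 - θ / 2) :=
        mul_le_mul_of_nonneg_right h6 (by linarith)
      have h8 : 1 ≤ (1 + θ + θ ^ 2 / 2) * (1 - θ / 2) := by
        have : (1 + θ + θ ^ 2 / 2) * (1 - θ / 2) - 1 = θ / 2 * (1 - θ ^ 2 / 2) := by ring
        have h9 : 0 ≤ θ / 2 * (1 - θ ^ 2 / 2) := by
          apply mul_nonneg (by linarith)
          nlinarith
        linarith
      linarith
    calc p = 1 * p := (one_mul p).symm
      _ ≤ (exp θ * (1 - θ / 2)) * p := mul_le_mul_of_nonneg_right h5 hp0.le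
      _ = exp θ * ((1 - θ / 2) * p) := by ring
      _ ≤ exp θ * z := mul_le_mul_of_nonneg_left hz1 (exp_pos _).le

/-- state of the counting algorithm: remaining edges, contracted edges, numerator, denominator -/
abbrev RS : Type := (List LE × List LE) × (ℕ × ℕ)

/-- one round; `cnt C R u` are the numbers of samples that begin with the contraction and with the
deletion of the first element of `R` -/
def roundStep (cnt : List LE → List LE → List Bool → ℕ × ℕ) (n0 N X1 X2 Y1 Y2 : ℕ) (s : RS)
    (u : List Bool) : RS :=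
  match s.1.1 with
  | [] => s
  | e :: R =>
    if lrk (e :: s.1.2) = lrk s.1.2 then ((R, s.1.2), (s.2.1 * Y1, s.2.2 * Y2))
    else if lrk (s.1.2 ++ R) < lrk (e :: (s.1.2 ++ R)) then
      ((R, e :: s.1.2), (s.2.1 * X1, s.2.2 * X2))
    else if (cnt s.1.2 (e :: R) u).2 ≤ (cnt s.1.2 (e :: R) u).1 then
      ((R, e :: s.1.2), (s.2.1 * N, s.2.2 * (min (R.length + 1) n0 * (cnt s.1.2 (e :: R) u).1)))
    else ((R, s.1.2), (s.2.1 * N, s.2.2 * (min (R.length + 1) n0 * (cnt s.1.2 (e :: R) u).2)))

/-- the value of a state -/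
noncomputable def val (x y : ℝ) (s : RS) : ℝ :=
  (s.2.1 : ℝ) / s.2.2 * TT grk x y s.1.2.toFinset s.1.1.toFinset

/-- the hypothesis on the counts: with probability `≥ 1 - η` both frequencies are right up to
`θ / (8 n)` -/
def CntOK (cnt : List LE → List LE → List Bool → ℕ × ℕ) (N : ℕ) (x y θ η : ℝ) (B n0 : ℕ) : Prop :=
  ∀ (C R : List LE) (e : LE), (e :: R).Nodup → R.length + 1 ≤ n0 → List.Disjoint C (e :: R) →
    grk (insert e C.toFinset) ≠ grk C.toFinset →
    ¬ grk (C.toFinset ∪ R.toFinset) < grk (insert e (C.toFinset ∪ R.toFinset)) →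
    ∃ p p' : ℝ, p * ((R.length + 1) * TT grk x y C.toFinset (insert e R.toFinset)) =
        TT grk x y (insert e C.toFinset) R.toFinset ∧
      p' * ((R.length + 1) * TT grk x y C.toFinset (insert e R.toFinset)) =
        TT grk x y C.toFinset R.toFinset ∧
      Ex B (fun u => ind (¬ (|((cnt C (e :: R) u).1 : ℝ) / N - p| < θ / (8 * (R.length + 1 : ℕ)) ∧
        |((cnt C (e :: R) u).2 : ℝ) / N - p'| < θ / (8 * (R.length + 1 : ℕ))))) ≤ η

theorem round_good {x y θ : ℝ} (hx : 0 < x) (hx1 : x ≤ 1) (hy : 0 < y) (hy1 : y ≤ 1)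
    (hθ : 0 < θ) (hθ1 : θ ≤ 1)
    {X1 X2 Y1 Y2 N n0 : ℕ} (hN : 0 < N)
    {C R : List LE} {e : LE} (hR : (e :: R).Nodup) (hn0 : R.length + 1 ≤ n0)
    (h1 : grk (insert e C.toFinset) ≠ grk C.toFinset)
    (h2 : ¬ grk (C.toFinset ∪ R.toFinset) < grk (insert e (C.toFinset ∪ R.toFinset)))
    {p p' : ℝ} (hp : p * ((R.length + 1) * TT grk x y C.toFinset (insert e R.toFinset)) =
        TT grk x y (insert e C.toFinset) R.toFinset)
    (hp' : p' * ((R.length + 1) * TT grk x y C.toFinset (insert e R.toFinset)) =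
        TT grk x y C.toFinset R.toFinset)
    (cnt : List LE → List LE → List Bool → ℕ × ℕ) (u : List Bool) (a b : ℕ)
    (hu1 : |((cnt C (e :: R) u).1 : ℝ) / N - p| < θ / (8 * (R.length + 1 : ℕ)))
    (hu2 : |((cnt C (e :: R) u).2 : ℝ) / N - p'| < θ / (8 * (R.length + 1 : ℕ))) :
    exp (-θ) * val x y ((e :: R, C), (a, b)) ≤
        val x y (roundStep cnt n0 N X1 X2 Y1 Y2 ((e :: R, C), (a, b)) u) ∧
      val x y (roundStep cnt n0 N X1 X2 Y1 Y2 ((e :: R, C), (a, b)) u) ≤
        exp θ * val x y ((e :: R, C), (a, b)) := by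
  have heR : e ∉ R.toFinset := by
    rw [List.mem_toFinset]
    exact (List.nodup_cons.1 hR).1
  set T := TT grk x y C.toFinset (insert e R.toFinset) with hT
  have hTpos : 0 < T := by
    have hμ : 0 < min x y := lt_min hx hy
    have := (TT_bounds grk_isRank hμ ((min_le_left _ _).trans hx1) (min_le_left _ _) hx1
      (min_le_right _ _) hy1 (insert e R.toFinset) C.toFinset).1
    exact lt_of_lt_of_le (by positivity) this
  have hgen := TT_generic grk_isRank x y C.toFinset heR h1 h2
  rw [← hT] at hgen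
  have hn1 : (0 : ℝ) < (R.length : ℝ) + 1 := by positivity
  have hN' : (0 : ℝ) < N := by exact_mod_cast hN
  have hsum : p + p' = 1 / ((R.length + 1 : ℕ) : ℝ) := by
    have h3 : (p + p') * (((R.length : ℝ) + 1) * T) = T := by
      rw [add_mul, hp, hp', ← hgen]
    push_cast
    rw [eq_div_iff hn1.ne']
    have h4 : ((p + p') * ((R.length : ℝ) + 1)) * T = 1 * T := by
      rw [one_mul]
      linarith
    exact mul_right_cancel₀ hTpos.ne' h4
  have hval : val x y ((e :: R, C), (a, b)) = (a : ℝ) / b * T := by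
    unfold val
    rw [hT]
    simp only [List.toFinset_cons]
  have hab : (0 : ℝ) ≤ (a : ℝ) / b := by positivity
  have g1 : ¬ lrk (e :: C) = lrk C := by
    rw [← grk_toFinset, ← grk_toFinset, List.toFinset_cons]
    exact h1
  have g2 : ¬ lrk (C ++ R) < lrk (e :: (C ++ R)) := by
    rw [← grk_toFinset, ← grk_toFinset, List.toFinset_cons, List.toFinset_append]
    exact h2
  rw [hval]
  obtain ⟨S, hS⟩ : ∃ S, S = (cnt C (e :: R) u).1 := ⟨_, rfl⟩
  obtain ⟨S', hS'⟩ : ∃ S', S' = (cnt C (e :: R) u).2 := ⟨_, rfl⟩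
  by_cases hle : (cnt C (e :: R) u).2 ≤ (cnt C (e :: R) u).1
  · have hr : val x y (roundStep cnt n0 N X1 X2 Y1 Y2 ((e :: R, C), (a, b)) u) =
        (a : ℝ) / b * T * (N * p / S) := by
      unfold val roundStep
      simp only [g1, g2, hle, if_true, if_false]
      rw [min_eq_left hn0, List.toFinset_cons, ← hp, ← hS]
      push_cast
      by_cases hb : (b : ℝ) = 0
      · rw [hb]; simp
      · by_cases hS0 : (S : ℝ) = 0
        · rw [hS0]; simp
        · field_simp
    rw [hr]
    obtain ⟨h3, h4⟩ := choose_bound (n := R.length + 1) (by omega) hN' hθ hθ1 hsum hu1 hu2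
      (by exact_mod_cast hle)
    rw [← hS] at h3 h4
    have h5 : 0 ≤ (a : ℝ) / b * T := mul_nonneg hab hTpos.le
    constructor
    · calc exp (-θ) * ((a : ℝ) / b * T) = (a : ℝ) / b * T * exp (-θ) := by ring
        _ ≤ _ := mul_le_mul_of_nonneg_left h3 h5
    · calc (a : ℝ) / b * T * (N * p / S) ≤ (a : ℝ) / b * T * exp θ :=
            mul_le_mul_of_nonneg_left h4 h5
        _ = _ := by ring
  · have hr : val x y (roundStep cnt n0 N X1 X2 Y1 Y2 ((e :: R, C), (a, b)) u) =
        (a : ℝ) / b * T * (N * p' / S') := by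
      unfold val roundStep
      simp only [g1, g2, hle, if_false]
      rw [min_eq_left hn0, ← hp', ← hS']
      push_cast
      by_cases hb : (b : ℝ) = 0
      · rw [hb]; simp
      · by_cases hS0 : (S' : ℝ) = 0
        · rw [hS0]; simp
        · field_simp
    rw [hr]
    obtain ⟨h3, h4⟩ := choose_bound (n := R.length + 1) (by omega) hN' hθ hθ1
      (by rw [add_comm]; exact hsum) hu2 hu1
      (by exact_mod_cast (not_le.1 hle).le)
    rw [← hS'] at h3 h4
    have h5 : 0 ≤ (a : ℝ) / b * T := mul_nonneg hab hTpos.le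
    constructor
    · calc exp (-θ) * ((a : ℝ) / b * T) = (a : ℝ) / b * T * exp (-θ) := by ring
        _ ≤ _ := mul_le_mul_of_nonneg_left h3 h5
    · calc (a : ℝ) / b * T * (N * p' / S') ≤ (a : ℝ) / b * T * exp θ :=
            mul_le_mul_of_nonneg_left h4 h5
        _ = _ := by ring

/-- rounds with a loop or a coloop are exact -/
theorem round_exact {x y : ℝ} {X1 X2 Y1 Y2 N n0 : ℕ} (hX : x = (X1 : ℝ) / X2)
    (hY : y = (Y1 : ℝ) / Y2) {C R : List LE} {e : LE} (hR : (e :: R).Nodup)
    (h : grk (insert e C.toFinset) = grk C.toFinset ∨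
      grk (C.toFinset ∪ R.toFinset) < grk (insert e (C.toFinset ∪ R.toFinset)))
    (cnt : List LE → List LE → List Bool → ℕ × ℕ) (u : List Bool) (a b : ℕ) :
    val x y (roundStep cnt n0 N X1 X2 Y1 Y2 ((e :: R, C), (a, b)) u) =
      val x y ((e :: R, C), (a, b)) := by
  have heR : e ∉ R.toFinset := by
    rw [List.mem_toFinset]
    exact (List.nodup_cons.1 hR).1
  have e1 : lrk (e :: C) = grk (insert e C.toFinset) := by
    rw [← grk_toFinset, List.toFinset_cons]
  have e2 : lrk (C ++ R) = grk (C.toFinset ∪ R.toFinset) := by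
    rw [← grk_toFinset, List.toFinset_append]
  have e3 : lrk (e :: (C ++ R)) = grk (insert e (C.toFinset ∪ R.toFinset)) := by
    rw [← grk_toFinset, List.toFinset_cons, List.toFinset_append]
  have e4 : lrk C = grk C.toFinset := by rw [← grk_toFinset]
  by_cases hl : grk (insert e C.toFinset) = grk C.toFinset
  · unfold val roundStep
    simp only [e1, e4, hl, if_true]
    rw [List.toFinset_cons, TT_loop grk_isRank x y C.toFinset heR hl, hY]
    push_cast
    rw [mul_div_mul_comm]
    ring
  · have hc : grk (C.toFinset ∪ R.toFinset) < grk (insert e (C.toFinset ∪ R.toFinset)) := by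
      rcases h with h | h
      · exact absurd h hl
      · exact h
    unfold val roundStep
    simp only [e1, e4, hl, if_false, e2, e3, hc, if_true]
    rw [List.toFinset_cons, List.toFinset_cons, TT_coloop grk_isRank x y C.toFinset heR hc, hX]
    push_cast
    rw [mul_div_mul_comm]
    ring

/-- `v'` is between `exp (-t) v` and `exp t v` -/
def Within (t v v' : ℝ) : Prop := exp (-t) * v ≤ v' ∧ v' ≤ exp t * v

theorem Within.trans {t t' v v' v'' : ℝ} (h : Within t v v') (h' : Within t' v' v'') :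
    Within (t + t') v v'' := by
  constructor
  · refine le_trans ?_ h'.1
    calc exp (-(t + t')) * v = exp (-t') * (exp (-t) * v) := by
          rw [← mul_assoc, ← exp_add]
          congr 2
          ring
      _ ≤ _ := mul_le_mul_of_nonneg_left h.1 (exp_pos _).le
  · refine le_trans h'.2 ?_
    calc exp t' * v' ≤ exp t' * (exp t * v) := mul_le_mul_of_nonneg_left h.2 (exp_pos _).le
      _ = _ := by
          rw [← mul_assoc, ← exp_add]
          congr 2
          ring

theorem Within.refl {t v : ℝ} (ht : 0 ≤ t) (hv : 0 ≤ v) : Within t v v :=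
  ⟨mul_le_of_le_one_left hv (exp_le_one_iff.2 (by linarith)),
    le_mul_of_one_le_left hv (one_le_exp ht)⟩

theorem val_nonneg {x y : ℝ} (hx : 0 < x) (hx1 : x ≤ 1) (hy : 0 < y) (hy1 : y ≤ 1) (s : RS) :
    0 ≤ val x y s := by
  unfold val
  have hμ : 0 < min x y := lt_min hx hy
  have := (TT_bounds grk_isRank hμ ((min_le_left _ _).trans hx1) (min_le_left _ _) hx1
    (min_le_right _ _) hy1 s.1.1.toFinset s.1.2.toFinset).1
  exact mul_nonneg (by positivity) (le_trans (by positivity) this)

/-- all rounds -/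
theorem rounds {x y θ η : ℝ} (hx : 0 < x) (hx1 : x ≤ 1) (hy : 0 < y) (hy1 : y ≤ 1)
    (hθ : 0 < θ) (hθ1 : θ ≤ 1) (hη : 0 ≤ η)
    {X1 X2 Y1 Y2 N B n0 : ℕ} (hX : x = (X1 : ℝ) / X2) (hY : y = (Y1 : ℝ) / Y2) (hN : 0 < N)
    {cnt : List LE → List LE → List Bool → ℕ × ℕ} (hcnt : CntOK cnt N x y θ η B n0) (j : ℕ) :
    ∀ s : RS, s.1.1.Nodup → s.1.1.length ≤ n0 → List.Disjoint s.1.2 s.1.1 →
      ExB B j (fun l => ind (¬ Within (j * θ) (val x y s)
        (val x y (l.foldl (roundStep cnt n0 N X1 X2 Y1 Y2) s)))) ≤ j * η := by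
  have hv : ∀ s : RS, 0 ≤ val x y s := val_nonneg hx hx1 hy hy1
  induction j with
  | zero =>
    intro s _ _ _
    rw [ExB_zero, ind_of_not]
    · simp
    · rw [not_not, List.foldl_nil, Nat.cast_zero, zero_mul]
      exact Within.refl (le_refl _) (hv _)
  | succ j ih =>
    intro s hs hs2 hs3
    obtain ⟨⟨R, C⟩, ⟨a, b⟩⟩ := s
    -- a good first round
    have key : ∀ s s' : RS, s'.1.1.Nodup → s'.1.1.length ≤ n0 → List.Disjoint s'.1.2 s'.1.1 →
        Within θ (val x y s) (val x y s') →
        ExB B j (fun l => ind (¬ Within ((j + 1 : ℕ) * θ) (val x y s)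
          (val x y (l.foldl (roundStep cnt n0 N X1 X2 Y1 Y2) s')))) ≤ j * η := by
      intro s s' h1 h2 hd h3
      refine le_trans (ExB_mono ?_) (ih s' h1 h2 hd)
      intro l _ _
      apply ind_mono
      intro h4 h5
      apply h4
      have h6 := h3.trans h5
      have e : θ + j * θ = ((j + 1 : ℕ) : ℝ) * θ := by push_cast; ring
      rwa [e] at h6
    rw [ExB_succ]
    simp only [List.foldl_cons]
    cases R with
    | nil =>
      have h1 : ∀ u, roundStep cnt n0 N X1 X2 Y1 Y2 (([], C), (a, b)) u = (([], C), (a, b)) :=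
        fun u => rfl
      have h2 := key (([], C), (a, b)) (([], C), (a, b)) hs hs2 hs3 (Within.refl hθ.le (hv _))
      calc Ex B _ ≤ j * η := by
            apply Ex_le_const
            intro u _
            exact h2
        _ ≤ (j + 1 : ℕ) * η := by
            push_cast
            linarith
    | cons e R =>
      have hRn : R.Nodup := (List.nodup_cons.1 hs).2
      have hRl : R.length ≤ n0 := by
        simp only [List.length_cons] at hs2
        omega
      have hnext : ∀ u, (roundStep cnt n0 N X1 X2 Y1 Y2 ((e :: R, C), (a, b)) u).1.1 = R := by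
        intro u
        unfold roundStep
        simp only
        split_ifs <;> rfl
      have hd1 : List.Disjoint C R := fun a ha hb => hs3 ha (List.mem_cons_of_mem _ hb)
      have hd2 : List.Disjoint (e :: C) R := by
        intro a ha hb
        rcases List.mem_cons.1 ha with rfl | ha
        · exact (List.nodup_cons.1 hs).1 hb
        · exact hd1 ha hb
      have hdis : ∀ u, List.Disjoint
          (roundStep cnt n0 N X1 X2 Y1 Y2 ((e :: R, C), (a, b)) u).1.2
          (roundStep cnt n0 N X1 X2 Y1 Y2 ((e :: R, C), (a, b)) u).1.1 := by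
        intro u
        unfold roundStep
        simp only
        split_ifs
        · exact hd1
        · exact hd2
        · exact hd2
        · exact hd1
      by_cases h : grk (insert e C.toFinset) = grk C.toFinset ∨
          grk (C.toFinset ∪ R.toFinset) < grk (insert e (C.toFinset ∪ R.toFinset))
      · calc Ex B _ ≤ j * η := by
              apply Ex_le_const
              intro u _
              have h1 := round_exact (N := N) (n0 := n0) hX hY hs h cnt u a b
              apply key
              · rw [hnext]; exact hRn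
              · rw [hnext]; exact hRl
              · exact hdis u
              · rw [h1]
                exact Within.refl hθ.le (hv _)
          _ ≤ (j + 1 : ℕ) * η := by
              push_cast
              linarith
      · rw [not_or] at h
        obtain ⟨p, p', hp, hp', hE⟩ := hcnt C R e hs (by simpa using hs2) hs3 h.1 h.2
        refine le_trans (Ex_mono (H := fun u => j * η +
          ind (¬ (|((cnt C (e :: R) u).1 : ℝ) / N - p| < θ / (8 * (R.length + 1 : ℕ)) ∧
              |((cnt C (e :: R) u).2 : ℝ) / N - p'| < θ / (8 * (R.length + 1 : ℕ))))) ?_) ?_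
        · intro u _
          by_cases hu : |((cnt C (e :: R) u).1 : ℝ) / N - p| < θ / (8 * (R.length + 1 : ℕ)) ∧
              |((cnt C (e :: R) u).2 : ℝ) / N - p'| < θ / (8 * (R.length + 1 : ℕ))
          · rw [ind_of_not (not_not.2 hu), add_zero]
            obtain ⟨h3, h4⟩ := round_good (N := N) hx hx1 hy hy1 hθ hθ1 (X1 := X1) (X2 := X2) (Y1 := Y1) (Y2 := Y2)
              hN hs (by simpa using hs2) h.1 h.2 hp hp'
              cnt u a b hu.1 hu.2
            apply key
            · rw [hnext]; exact hRn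
            · rw [hnext]; exact hRl
            · exact hdis u
            · exact ⟨h3, h4⟩
          · rw [ind_of hu]
            have : ExB B j (fun l => ind (¬ Within ((j + 1 : ℕ) * θ)
              (val x y ((e :: R, C), (a, b))) (val x y (l.foldl (roundStep cnt n0 N X1 X2 Y1 Y2)
                (roundStep cnt n0 N X1 X2 Y1 Y2 ((e :: R, C), (a, b)) u))))) ≤ 1 := by
              apply ExB_le_const
              intro l _ _
              exact ind_le_one _
            have h5 : 0 ≤ j * η := mul_nonneg (Nat.cast_nonneg _) hη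
            linarith
        · rw [Ex_add, Ex_const]
          push_cast at hE ⊢
          linarith

end Pool.Agent.QPR
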