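import Pool.Agent.QPR.Moves
import Pool.Agent.QPR.Rounds

/-!
# The algorithm on lists
-/

set_option autoImplicit false

namespace Pool.Agent.QPR

open Finset Pool.Agent.TutteEq

/-- the integer weight of a history, lists instead of sets -/
def wl (lx ly lz : ℕ) : List LE → List (LE × Bool) → ℕ
  | _, [] => 1
  | C, (e, o) :: h =>
    if lrk (e :: C) = lrk C then (if o then 0 else ly * wl lx ly lz C h)
    else if lrk (C ++ h.map Prod.fst) < lrk (e :: (C ++ h.map Prod.fst)) then
      (if o then lx * wl lx ly lz (e :: C) h else 0)
    else lz * (if o then wl lx ly lz (e :: C) h else wl lx ly lz C h)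

theorem wl_eq (lx ly lz : ℕ) (h : List (LE × Bool)) : ∀ C : List LE,
    wl lx ly lz C h = hw grk lx ly lz C.toFinset h := by
  induction h with
  | nil => intro C; rfl
  | cons p h ih =>
    intro C
    obtain ⟨e, o⟩ := p
    have e1 : lrk (e :: C) = grk (insert e C.toFinset) := by
      rw [← grk_toFinset, List.toFinset_cons]
    have e2 : lrk C = grk C.toFinset := by rw [← grk_toFinset]
    have e3 : lrk (C ++ h.map Prod.fst) = grk (C.toFinset ∪ els h) := by
      rw [← grk_toFinset, List.toFinset_append]; rfl
    have e4 : lrk (e :: (C ++ h.map Prod.fst)) = grk (insert e (C.toFinset ∪ els h)) := by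
      rw [← grk_toFinset, List.toFinset_cons, List.toFinset_append]; rfl
    unfold wl hw
    rw [e1, e2, e3, e4, ih, ih, List.toFinset_cons]

/-- the starting history, lists instead of sets -/
def startL : List LE → List LE → List (LE × Bool)
  | _, [] => []
  | C, e :: L => if lrk (e :: C) = lrk C then (e, false) :: startL C L
      else (e, true) :: startL (e :: C) L

theorem startL_eq (L : List LE) : ∀ C : List LE, startL C L = start grk C.toFinset L := by
  induction L with
  | nil => intro C; rfl
  | cons e L ih =>
    intro C
    have e1 : lrk (e :: C) = grk (insert e C.toFinset) := by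
      rw [← grk_toFinset, List.toFinset_cons]
    have e2 : lrk C = grk C.toFinset := by rw [← grk_toFinset]
    unfold startL start
    rw [e1, e2, ih, ih, List.toFinset_cons]

/-- the move given by a string of `2 + l` bits -/
def mvL (u : List Bool) (h : List (LE × Bool)) : List (LE × Bool) :=
  actN (u.headD true, u.tail.headD true) (arithVal (u.drop 2)) h

/-- one step of the simulated chain over `C` -/
def simL (lx ly lz : ℕ) (C : List LE) (l k : ℕ) (h : List (LE × Bool)) (u : List Bool) :
    List (LE × Bool) :=
  if u.headD true then h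
  else if arithVal (u.tail.drop (2 + l)) * wl lx ly lz C h <
      2 ^ k * wl lx ly lz C (mvL (u.tail.take (2 + l)) h) then mvL (u.tail.take (2 + l)) h
  else h

/-- the number of histories in the list that begin with `(e, o)` -/
def cntFirst (e : LE) (o : Bool) (S : List (List (LE × Bool))) : ℕ :=
  S.countP (fun h => decide (h.head? = some (e, o)))

/-- the final states of `N` runs of `t` steps with `1 + (2 + l) + k` bits each -/
def samples (lx ly lz l k t N : ℕ) (C R : List LE) (u : List Bool) : List (List (LE × Bool)) :=
  (chunk (t * (1 + (2 + l) + k)) N u).map fun blk =>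
    (chunk (1 + (2 + l) + k) t blk).foldl (simL lx ly lz C l k) (startL C R)

/-- the counts of the samples that begin with the contraction or the deletion of the first
element of `R` -/
def cntL (lx ly lz l k t N : ℕ) (C R : List LE) (u : List Bool) : ℕ × ℕ :=
  match R with
  | [] => (0, 0)
  | e :: _ => (cntFirst e true (samples lx ly lz l k t N C R u),
      cntFirst e false (samples lx ly lz l k t N C R u))

/-- the decoder of moves -/
def decM (l : ℕ) (u : List Bool) : (Bool × Bool) × Fin (2 ^ l) :=
  ((u.headD true, u.tail.headD true), Fin.ofNat (2 ^ l) (arithVal (u.drop 2)))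

theorem decM_uniform (l : ℕ) (F : (Bool × Bool) × Fin (2 ^ l) → ℝ) :
    Ex (2 + l) (fun u => F (decM l u)) =
      (1 / (Fintype.card ((Bool × Bool) × Fin (2 ^ l)) : ℝ)) * ∑ g, F g := by
  have hcard : (Fintype.card ((Bool × Bool) × Fin (2 ^ l)) : ℝ) = 4 * 2 ^ l := by
    rw [Fintype.card_prod, Fintype.card_prod, Fintype.card_bool, Fintype.card_fin]
    push_cast
    ring
  have key : ∀ a b : Bool, Ex l (fun u => F (decM l (a :: b :: u))) =
      (1 / 2 ^ l) * ∑ i : Fin (2 ^ l), F ((a, b), i) := by
    intro a b
    have h1 : Ex l (fun u => F (decM l (a :: b :: u))) =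
        Ex l (fun u => (fun j : ℕ => F ((a, b), Fin.ofNat (2 ^ l) j)) (arithVal u)) := by
      apply Ex_congr
      intro u _
      rfl
    rw [h1, Ex_val l (fun j : ℕ => F ((a, b), Fin.ofNat (2 ^ l) j)), Finset.sum_range]
    congr 1
    apply Finset.sum_congr rfl
    intro i _
    congr 2
    apply Fin.ext
    simp only [Fin.ofNat]
    exact Nat.mod_eq_of_lt i.2
  rw [hcard, Nat.add_comm 2 l, show l + 2 = (l + 1) + 1 by ring, Ex_succ, Ex_succ, Ex_succ,
    key, key, key, key, Fintype.sum_prod_type, Fintype.sum_prod_type, Fintype.sum_bool,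
    Fintype.sum_bool, Fintype.sum_bool]
  field_simp
  ring

theorem mvL_eq (l : ℕ) (u : List Bool) (hu : u.length ≤ 2 + l) (h : List (LE × Bool)) :
    mvL u h = actN (decM l u).1 (decM l u).2 h := by
  unfold mvL decM
  simp only [Fin.ofNat]
  rw [Nat.mod_eq_of_lt]
  refine (arith_val_lt _).trans_le ?_
  apply Nat.pow_le_pow_right (by norm_num)
  rw [List.length_drop]
  omega

theorem simL_eq (lx ly lz : ℕ) (C : List LE) (l k : ℕ) (h : List (LE × Bool)) (u : List Bool) :
    simL lx ly lz C l k h u =
      sim (fun (g : (Bool × Bool) × Fin (2 ^ l)) (h : List (LE × Bool)) => actN g.1 g.2 h)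
        (wl lx ly lz C) (decM l) (2 + l) k h u := by
  unfold simL sim
  rw [mvL_eq l (u.tail.take (2 + l)) (by rw [List.length_take]; omega)]

theorem sum_countP (p : List (LE × Bool) → Bool) (S : List (List (LE × Bool))) :
    (S.map (fun h => if p h then (1 : ℝ) else 0)).sum = S.countP p := by
  induction S with
  | nil => simp
  | cons h S ih =>
    rw [List.map_cons, List.sum_cons, ih, List.countP_cons]
    by_cases hp : p h = true
    · simp [hp]; ring
    · simp [hp]

end Pool.Agent.QPR
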