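import Mathlib

/-!
# Lazy Metropolis chains: contraction from a Poincare inequality
-/

set_option autoImplicit false

namespace Pool.Agent.QPR

open Finset

/-- data of a Metropolis chain: a finite set `Ω` of states with weights `w ≥ 0`, moves `g : G`,
closed under inverses -/
structure MChain (σ G : Type) [Fintype G] where
  Ω : Finset σ
  w : σ → ℝ
  act : G → σ → σ
  inv : G → G
  w_nonneg : ∀ s, 0 ≤ w s
  act_mem : ∀ g s, s ∈ Ω → act g s ∈ Ω
  inv_inv : ∀ g, inv (inv g) = g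
  act_inv : ∀ g s, s ∈ Ω → act (inv g) (act g s) = s

namespace MChain

variable {σ G : Type} [Fintype G] (M : MChain σ G)

/-- total weight -/
noncomputable def W0 : ℝ := ∑ s ∈ M.Ω, M.w s

/-- acceptance probability -/
noncomputable def acc (g : G) (s : σ) : ℝ := min 1 (M.w (M.act g s) / M.w s)

/-- the smaller weight of the two ends of a move -/
noncomputable def m (g : G) (s : σ) : ℝ := min (M.w s) (M.w (M.act g s))

/-- the transition operator of the lazy chain -/
noncomputable def P (f : σ → ℝ) (s : σ) : ℝ :=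
  f s + (1 / (2 * (Fintype.card G : ℝ))) * ∑ g, M.acc g s * (f (M.act g s) - f s)

/-- the Dirichlet form `(1 / |G|) ∑ min(w, w') (f - f')²` -/
noncomputable def En (f : σ → ℝ) : ℝ :=
  (1 / (Fintype.card G : ℝ)) * ∑ g, ∑ s ∈ M.Ω, M.m g s * (f s - f (M.act g s)) ^ 2

theorem acc_nonneg (g : G) (s : σ) : 0 ≤ M.acc g s :=
  le_min zero_le_one (div_nonneg (M.w_nonneg _) (M.w_nonneg _))

theorem acc_le_one (g : G) (s : σ) : M.acc g s ≤ 1 := min_le_left _ _

theorem m_nonneg (g : G) (s : σ) : 0 ≤ M.m g s := le_min (M.w_nonneg _) (M.w_nonneg _)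

theorem w_mul_acc (g : G) (s : σ) : M.w s * M.acc g s = M.m g s := by
  unfold acc m
  rcases (M.w_nonneg s).eq_or_lt with h | h
  · rw [← h, zero_mul, min_eq_left (M.w_nonneg _)]
  · rw [mul_min_of_nonneg _ _ h.le, mul_one, mul_div_cancel₀ _ h.ne']

/-- reindexing by the inverse moves -/
theorem sum_reindex (F : G → σ → ℝ) :
    ∑ g, ∑ s ∈ M.Ω, F (M.inv g) (M.act g s) = ∑ g, ∑ s ∈ M.Ω, F g s := by
  rw [← Finset.sum_product', ← Finset.sum_product']
  refine Finset.sum_bij' (fun p _ => (M.inv p.1, M.act p.1 p.2))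
    (fun p _ => (M.inv p.1, M.act p.1 p.2)) ?_ ?_ ?_ ?_ ?_
  · rintro ⟨g, s⟩ h
    simp only [Finset.mem_product, Finset.mem_univ, true_and] at h ⊢
    exact M.act_mem _ _ h
  · rintro ⟨g, s⟩ h
    simp only [Finset.mem_product, Finset.mem_univ, true_and] at h ⊢
    exact M.act_mem _ _ h
  · rintro ⟨g, s⟩ h
    simp only [Finset.mem_product, Finset.mem_univ, true_and] at h
    simp only [M.inv_inv, M.act_inv g s h]
  · rintro ⟨g, s⟩ h
    simp only [Finset.mem_product, Finset.mem_univ, true_and] at h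
    simp only [M.inv_inv, M.act_inv g s h]
  · rintro ⟨g, s⟩ h
    rfl

theorem m_symm (g : G) {s : σ} (hs : s ∈ M.Ω) : M.m (M.inv g) (M.act g s) = M.m g s := by
  unfold m
  rw [M.act_inv g s hs, min_comm]

/-- reindexing of the symmetric weights -/
theorem sum_m (F : σ → σ → ℝ) :
    ∑ g, ∑ s ∈ M.Ω, M.m g s * F (M.act g s) s = ∑ g, ∑ s ∈ M.Ω, M.m g s * F s (M.act g s) := by
  rw [← M.sum_reindex (fun g s => M.m g s * F s (M.act g s))]
  apply Finset.sum_congr rfl
  intro g _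
  apply Finset.sum_congr rfl
  intro s hs
  rw [M.m_symm g hs, M.act_inv g s hs]

/-- the stationary measure is preserved -/
theorem sum_P (f : σ → ℝ) : ∑ s ∈ M.Ω, M.w s * M.P f s = ∑ s ∈ M.Ω, M.w s * f s := by
  have h1 : ∑ s ∈ M.Ω, M.w s * M.P f s = ∑ s ∈ M.Ω, M.w s * f s +
      (1 / (2 * (Fintype.card G : ℝ))) *
        ∑ g, ∑ s ∈ M.Ω, M.m g s * (f (M.act g s) - f s) := by
    rw [Finset.sum_comm, Finset.mul_sum, ← Finset.sum_add_distrib]
    apply Finset.sum_congr rfl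
    intro s _
    unfold P
    rw [mul_add, Finset.mul_sum, Finset.mul_sum, Finset.mul_sum]
    congr 1
    apply Finset.sum_congr rfl
    intro g _
    rw [← M.w_mul_acc]
    ring
  have h2 : ∑ g, ∑ s ∈ M.Ω, M.m g s * (f (M.act g s) - f s) = 0 := by
    have h3 := M.sum_m (fun a b => f a)
    simp only [mul_sub, Finset.sum_sub_distrib]
    rw [h3, sub_self]
  rw [h1, h2, mul_zero, add_zero]

/-- the Dirichlet form of the chain -/
theorem inner_sub_P (f : σ → ℝ) :
    ∑ s ∈ M.Ω, M.w s * f s * (f s - M.P f s) = M.En f / 4 := by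
  have h1 : ∑ s ∈ M.Ω, M.w s * f s * (f s - M.P f s) = (1 / (2 * (Fintype.card G : ℝ))) *
      ∑ g, ∑ s ∈ M.Ω, M.m g s * (f s * (f s - f (M.act g s))) := by
    rw [Finset.sum_comm, Finset.mul_sum]
    apply Finset.sum_congr rfl
    intro s _
    unfold P
    rw [sub_add_cancel_left, Finset.mul_sum, Finset.mul_sum, ← Finset.sum_neg_distrib,
      Finset.mul_sum]
    apply Finset.sum_congr rfl
    intro g _
    rw [← M.w_mul_acc]
    ring
  have h3 : ∑ g, ∑ s ∈ M.Ω, M.m g s * (f (M.act g s) * (f (M.act g s) - f s)) =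
      ∑ g, ∑ s ∈ M.Ω, M.m g s * (f s * (f s - f (M.act g s))) :=
    M.sum_m (fun a b => f a * (f a - f b))
  have h4 : ∑ g, ∑ s ∈ M.Ω, M.m g s * (f s - f (M.act g s)) ^ 2 =
      2 * ∑ g, ∑ s ∈ M.Ω, M.m g s * (f s * (f s - f (M.act g s))) := by
    rw [two_mul]
    nth_rewrite 2 [← h3]
    rw [← Finset.sum_add_distrib]
    apply Finset.sum_congr rfl
    intro g _
    rw [← Finset.sum_add_distrib]
    apply Finset.sum_congr rfl
    intro s _
    ring
  unfold En
  rw [h1, h4]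
  ring

variable [Nonempty G]

theorem card_pos : (0 : ℝ) < Fintype.card G := by
  exact_mod_cast Fintype.card_pos

theorem P_eq (f : σ → ℝ) (s : σ) : M.P f s = (1 / (2 * (Fintype.card G : ℝ))) *
    ∑ g, (M.acc g s * f (M.act g s) + (2 - M.acc g s) * f s) := by
  have hG := card_pos (G := G)
  unfold P
  have : ∑ g, (M.acc g s * f (M.act g s) + (2 - M.acc g s) * f s) =
      ∑ g, M.acc g s * (f (M.act g s) - f s) + (Fintype.card G : ℝ) * (2 * f s) := by
    rw [← nsmul_eq_mul, ← Finset.card_univ, ← Finset.sum_const, ← Finset.sum_add_distrib]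
    apply Finset.sum_congr rfl
    intro g _
    ring
  rw [this]
  field_simp
  ring

theorem P_le {f : σ → ℝ} {c : ℝ} (h : ∀ s ∈ M.Ω, f s ≤ c) {s : σ} (hs : s ∈ M.Ω) :
    M.P f s ≤ c := by
  have hG := card_pos (G := G)
  rw [M.P_eq]
  have : ∑ g, (M.acc g s * f (M.act g s) + (2 - M.acc g s) * f s) ≤
      ∑ _g : G, 2 * c := by
    apply Finset.sum_le_sum
    intro g _
    have h1 := mul_le_mul_of_nonneg_left (h _ (M.act_mem g s hs)) (M.acc_nonneg g s)
    have h2 := mul_le_mul_of_nonneg_left (h _ hs)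
      (show 0 ≤ 2 - M.acc g s by linarith [M.acc_le_one g s])
    linarith
  rw [Finset.sum_const, Finset.card_univ, nsmul_eq_mul] at this
  rw [one_div, ← div_eq_inv_mul, div_le_iff₀ (by positivity)]
  linarith

theorem le_P {f : σ → ℝ} {c : ℝ} (h : ∀ s ∈ M.Ω, c ≤ f s) {s : σ} (hs : s ∈ M.Ω) :
    c ≤ M.P f s := by
  have hG := card_pos (G := G)
  rw [M.P_eq]
  have : ∑ _g : G, 2 * c ≤ ∑ g, (M.acc g s * f (M.act g s) + (2 - M.acc g s) * f s) := by
    apply Finset.sum_le_sum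
    intro g _
    have h1 := mul_le_mul_of_nonneg_left (h _ (M.act_mem g s hs)) (M.acc_nonneg g s)
    have h2 := mul_le_mul_of_nonneg_left (h _ hs)
      (show 0 ≤ 2 - M.acc g s by linarith [M.acc_le_one g s])
    linarith
  rw [Finset.sum_const, Finset.card_univ, nsmul_eq_mul] at this
  rw [one_div, ← div_eq_inv_mul, le_div_iff₀ (by positivity)]
  linarith

theorem P_iter_mem {f : σ → ℝ} (h : ∀ s ∈ M.Ω, 0 ≤ f s ∧ f s ≤ 1) (t : ℕ) {s : σ}
    (hs : s ∈ M.Ω) : 0 ≤ (M.P^[t] f) s ∧ (M.P^[t] f) s ≤ 1 := by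
  induction t generalizing s with
  | zero => exact h s hs
  | succ t ih =>
    rw [Function.iterate_succ_apply']
    exact ⟨M.le_P (fun s hs => (ih hs).1) hs, M.P_le (fun s hs => (ih hs).2) hs⟩

/-- `2 P - 1` is a contraction -/
theorem sum_Q_sq (f : σ → ℝ) :
    ∑ s ∈ M.Ω, M.w s * (2 * M.P f s - f s) ^ 2 ≤ ∑ s ∈ M.Ω, M.w s * f s ^ 2 := by
  have hG := card_pos (G := G)
  have h1 : ∀ s ∈ M.Ω, M.w s * (2 * M.P f s - f s) ^ 2 ≤ (1 / (Fintype.card G : ℝ)) *
      ∑ g, (M.m g s * f (M.act g s) ^ 2 + (M.w s - M.m g s) * f s ^ 2) := by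
    intro s _
    have e1 : 2 * M.P f s - f s = (1 / (Fintype.card G : ℝ)) *
        ∑ g, (M.acc g s * f (M.act g s) + (1 - M.acc g s) * f s) := by
      have : ∑ g, (M.acc g s * f (M.act g s) + (1 - M.acc g s) * f s) =
          ∑ g, M.acc g s * (f (M.act g s) - f s) + (Fintype.card G : ℝ) * f s := by
        rw [← nsmul_eq_mul, ← Finset.card_univ, ← Finset.sum_const, ← Finset.sum_add_distrib]
        apply Finset.sum_congr rfl
        intro g _
        ring
      rw [this]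
      unfold P
      field_simp
      ring
    have e2 : (2 * M.P f s - f s) ^ 2 ≤ (1 / (Fintype.card G : ℝ)) *
        ∑ g, (M.acc g s * f (M.act g s) ^ 2 + (1 - M.acc g s) * f s ^ 2) := by
      rw [e1, mul_pow]
      have h2 := sq_sum_le_card_mul_sum_sq (s := (Finset.univ : Finset G))
        (f := fun g => M.acc g s * f (M.act g s) + (1 - M.acc g s) * f s)
      rw [Finset.card_univ] at h2
      have h3 : ∑ g, (M.acc g s * f (M.act g s) + (1 - M.acc g s) * f s) ^ 2 ≤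
          ∑ g, (M.acc g s * f (M.act g s) ^ 2 + (1 - M.acc g s) * f s ^ 2) := by
        apply Finset.sum_le_sum
        intro g _
        have h4 : 0 ≤ M.acc g s * (1 - M.acc g s) * (f (M.act g s) - f s) ^ 2 :=
          mul_nonneg (mul_nonneg (M.acc_nonneg g s) (by linarith [M.acc_le_one g s]))
            (sq_nonneg _)
        nlinarith [h4]
      calc (1 / (Fintype.card G : ℝ)) ^ 2 *
            (∑ g, (M.acc g s * f (M.act g s) + (1 - M.acc g s) * f s)) ^ 2
          ≤ (1 / (Fintype.card G : ℝ)) ^ 2 * ((Fintype.card G : ℝ) *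
            ∑ g, (M.acc g s * f (M.act g s) + (1 - M.acc g s) * f s) ^ 2) :=
            mul_le_mul_of_nonneg_left h2 (by positivity)
        _ = (1 / (Fintype.card G : ℝ)) *
            ∑ g, (M.acc g s * f (M.act g s) + (1 - M.acc g s) * f s) ^ 2 := by
            generalize ∑ g, (M.acc g s * f (M.act g s) + (1 - M.acc g s) * f s) ^ 2 = X
            field_simp
        _ ≤ _ := mul_le_mul_of_nonneg_left h3 (by positivity)
    calc M.w s * (2 * M.P f s - f s) ^ 2
        ≤ M.w s * ((1 / (Fintype.card G : ℝ)) *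
          ∑ g, (M.acc g s * f (M.act g s) ^ 2 + (1 - M.acc g s) * f s ^ 2)) :=
          mul_le_mul_of_nonneg_left e2 (M.w_nonneg s)
      _ = _ := by
          rw [← mul_assoc, mul_comm (M.w s), mul_assoc, Finset.mul_sum]
          congr 1
          apply Finset.sum_congr rfl
          intro g _
          rw [← M.w_mul_acc]
          ring
  refine (Finset.sum_le_sum h1).trans (le_of_eq ?_)
  rw [← Finset.mul_sum, Finset.sum_comm]
  have h2 : ∑ g, ∑ s ∈ M.Ω, (M.m g s * f (M.act g s) ^ 2 + (M.w s - M.m g s) * f s ^ 2) =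
      ∑ _g : G, ∑ s ∈ M.Ω, M.w s * f s ^ 2 := by
    have h3 := M.sum_m (fun a _ => f a ^ 2)
    have h4 : ∀ g : G, ∑ s ∈ M.Ω, (M.m g s * f (M.act g s) ^ 2 + (M.w s - M.m g s) * f s ^ 2) =
        ∑ s ∈ M.Ω, M.m g s * f (M.act g s) ^ 2 - ∑ s ∈ M.Ω, M.m g s * f s ^ 2 +
          ∑ s ∈ M.Ω, M.w s * f s ^ 2 := by
      intro g
      rw [← Finset.sum_sub_distrib, ← Finset.sum_add_distrib]
      apply Finset.sum_congr rfl
      intro s _
      ring
    rw [Finset.sum_congr rfl (fun g _ => h4 g), Finset.sum_add_distrib, Finset.sum_sub_distrib,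
      h3, sub_self, zero_add]
  rw [h2, Finset.sum_const, Finset.card_univ, nsmul_eq_mul, ← mul_assoc, one_div,
    inv_mul_cancel₀ hG.ne', one_mul]

theorem sum_P_sq (f : σ → ℝ) :
    ∑ s ∈ M.Ω, M.w s * M.P f s ^ 2 ≤ ∑ s ∈ M.Ω, M.w s * f s ^ 2 - M.En f / 4 := by
  have h1 := M.sum_Q_sq f
  have h2 := M.inner_sub_P f
  have h3 : ∑ s ∈ M.Ω, M.w s * (2 * M.P f s - f s) ^ 2 =
      4 * ∑ s ∈ M.Ω, M.w s * M.P f s ^ 2 + ∑ s ∈ M.Ω, M.w s * f s ^ 2 -
        4 * ∑ s ∈ M.Ω, M.w s * f s * M.P f s := by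
    rw [Finset.mul_sum, Finset.mul_sum, ← Finset.sum_add_distrib, ← Finset.sum_sub_distrib]
    apply Finset.sum_congr rfl
    intro s _
    ring
  have h4 : ∑ s ∈ M.Ω, M.w s * f s * (f s - M.P f s) =
      ∑ s ∈ M.Ω, M.w s * f s ^ 2 - ∑ s ∈ M.Ω, M.w s * f s * M.P f s := by
    rw [← Finset.sum_sub_distrib]
    apply Finset.sum_congr rfl
    intro s _
    ring
  linarith

/-- the Poincare inequality with constant `K` -/
def Poinc (K : ℝ) : Prop := ∀ f : σ → ℝ,
  ∑ s ∈ M.Ω, ∑ s' ∈ M.Ω, M.w s * M.w s' * (f s - f s') ^ 2 ≤ 2 * K * M.W0 * M.En f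

theorem contract {K : ℝ} (hK : 0 < K) (hP : M.Poinc K) (hW : 0 < M.W0) {f : σ → ℝ}
    (hf : ∑ s ∈ M.Ω, M.w s * f s = 0) :
    ∑ s ∈ M.Ω, M.w s * M.P f s ^ 2 ≤ (1 - 1 / (4 * K)) * ∑ s ∈ M.Ω, M.w s * f s ^ 2 := by
  have h1 : ∑ s ∈ M.Ω, ∑ s' ∈ M.Ω, M.w s * M.w s' * (f s - f s') ^ 2 =
      2 * M.W0 * ∑ s ∈ M.Ω, M.w s * f s ^ 2 := by
    have e : ∀ s ∈ M.Ω, ∑ s' ∈ M.Ω, M.w s * M.w s' * (f s - f s') ^ 2 =
        M.w s * f s ^ 2 * M.W0 - 2 * (M.w s * f s) * ∑ s' ∈ M.Ω, M.w s' * f s' +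
          M.w s * ∑ s' ∈ M.Ω, M.w s' * f s' ^ 2 := by
      intro s _
      unfold W0
      rw [Finset.mul_sum, Finset.mul_sum, Finset.mul_sum, ← Finset.sum_sub_distrib,
        ← Finset.sum_add_distrib]
      apply Finset.sum_congr rfl
      intro s' _
      ring
    rw [Finset.sum_congr rfl e, Finset.sum_add_distrib, Finset.sum_sub_distrib, hf,
      ← Finset.sum_mul, ← Finset.sum_mul (a := ∑ s' ∈ M.Ω, M.w s' * f s' ^ 2)]
    simp only [mul_zero, Finset.sum_const_zero, sub_zero]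
    change _ + M.W0 * _ = _
    ring
  have h2 := hP f
  rw [h1] at h2
  have h3 : ∑ s ∈ M.Ω, M.w s * f s ^ 2 ≤ K * M.En f := by
    have : 2 * M.W0 * ∑ s ∈ M.Ω, M.w s * f s ^ 2 ≤ 2 * M.W0 * (K * M.En f) := by
      linarith
    exact le_of_mul_le_mul_left this (by positivity)
  have h4 := M.sum_P_sq f
  have h5 : (∑ s ∈ M.Ω, M.w s * f s ^ 2) / (4 * K) ≤ M.En f / 4 := by
    rw [div_le_iff₀ (by positivity)]
    linarith
  have h6 : (1 - 1 / (4 * K)) * ∑ s ∈ M.Ω, M.w s * f s ^ 2 =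
      ∑ s ∈ M.Ω, M.w s * f s ^ 2 - (∑ s ∈ M.Ω, M.w s * f s ^ 2) / (4 * K) := by ring
  rw [h6]
  linarith

omit [Nonempty G] in
theorem P_sub_const (f : σ → ℝ) (c : ℝ) : M.P (fun s => f s - c) = fun s => M.P f s - c := by
  funext s
  unfold P
  have : ∀ g : G, M.acc g s * (f (M.act g s) - c - (f s - c)) =
      M.acc g s * (f (M.act g s) - f s) := by
    intro g
    ring
  rw [Finset.sum_congr rfl (fun g _ => this g)]
  ring

omit [Nonempty G] in
theorem P_iter_sub_const (f : σ → ℝ) (c : ℝ) (t : ℕ) :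
    M.P^[t] (fun s => f s - c) = fun s => (M.P^[t] f) s - c := by
  induction t with
  | zero => rfl
  | succ t ih =>
    rw [Function.iterate_succ_apply', Function.iterate_succ_apply', ih, P_sub_const]

/-- **mixing**: the lazy chain started at `s` -/
theorem mixing {K : ℝ} (hK : 1 ≤ K) (hP : M.Poinc K) {f : σ → ℝ}
    (hf : ∀ s ∈ M.Ω, 0 ≤ f s ∧ f s ≤ 1) {s : σ} (hs : s ∈ M.Ω) (hws : 0 < M.w s) (t : ℕ) :
    |(M.P^[t] f) s - (∑ s ∈ M.Ω, M.w s * f s) / M.W0| ≤
      Real.sqrt (M.W0 / M.w s) * Real.exp (-(t / (8 * K))) := by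
  have hW : 0 < M.W0 := lt_of_lt_of_le hws
    (Finset.single_le_sum (f := M.w) (fun s _ => M.w_nonneg s) hs)
  obtain ⟨c, hc⟩ : ∃ c, c = (∑ s ∈ M.Ω, M.w s * f s) / M.W0 := ⟨_, rfl⟩
  have hK0 : 0 < K := by linarith
  rw [← hc]
  have hc0 : 0 ≤ c := by
    rw [hc]
    exact div_nonneg (Finset.sum_nonneg fun s hs => mul_nonneg (M.w_nonneg s) (hf s hs).1) hW.le
  have hc1 : c ≤ 1 := by
    rw [hc, div_le_one hW]
    apply Finset.sum_le_sum
    intro s hs
    have := mul_le_mul_of_nonneg_left (hf s hs).2 (M.w_nonneg s)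
    linarith
  have hmean : ∀ t : ℕ, ∑ s ∈ M.Ω, M.w s * (M.P^[t] (fun s => f s - c)) s = 0 := by
    intro t
    induction t with
    | zero =>
      simp only [Function.iterate_zero, id]
      rw [Finset.sum_congr rfl (fun s _ => mul_sub (M.w s) (f s) c), Finset.sum_sub_distrib,
        ← Finset.sum_mul, hc]
      change _ - M.W0 * _ = 0
      field_simp
      ring
    | succ t ih =>
      rw [Function.iterate_succ_apply', M.sum_P]
      exact ih
  have hsq : ∀ t : ℕ, ∑ s ∈ M.Ω, M.w s * (M.P^[t] (fun s => f s - c)) s ^ 2 ≤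
      (1 - 1 / (4 * K)) ^ t * M.W0 := by
    intro t
    induction t with
    | zero =>
      simp only [Function.iterate_zero, id, pow_zero, one_mul]
      apply Finset.sum_le_sum
      intro s hs
      have h1 : (f s - c) ^ 2 ≤ 1 := by
        have := hf s hs
        rw [sq_le_one_iff_abs_le_one, abs_le]
        constructor <;> linarith
      have := mul_le_mul_of_nonneg_left h1 (M.w_nonneg s)
      linarith
    | succ t ih =>
      rw [Function.iterate_succ_apply']
      refine (M.contract hK0 hP hW (hmean t)).trans ?_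
      rw [pow_succ, mul_comm ((1 - 1 / (4 * K)) ^ t), mul_assoc]
      apply mul_le_mul_of_nonneg_left ih
      have : 1 / (4 * K) ≤ 1 := by
        rw [div_le_one (by positivity)]
        linarith
      linarith
  have h1 : M.w s * ((M.P^[t] f) s - c) ^ 2 ≤ (1 - 1 / (4 * K)) ^ t * M.W0 := by
    have h2 := hsq t
    rw [M.P_iter_sub_const] at h2
    refine le_trans ?_ h2
    exact Finset.single_le_sum (f := fun s => M.w s * ((M.P^[t] f) s - c) ^ 2)
      (fun s _ => mul_nonneg (M.w_nonneg s) (sq_nonneg _)) hs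
  have h3 : (1 - 1 / (4 * K)) ^ t ≤ Real.exp (-(t / (8 * K))) ^ 2 := by
    have h4 : 1 - 1 / (4 * K) ≤ Real.exp (-(1 / (4 * K))) := by
      have := Real.add_one_le_exp (-(1 / (4 * K)))
      linarith
    have h5 : 0 ≤ 1 - 1 / (4 * K) := by
      have : 1 / (4 * K) ≤ 1 := by
        rw [div_le_one (by positivity)]
        linarith
      linarith
    calc (1 - 1 / (4 * K)) ^ t ≤ Real.exp (-(1 / (4 * K))) ^ t := pow_le_pow_left₀ h5 h4 t
      _ = Real.exp (-(t / (8 * K))) ^ 2 := by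
        rw [← Real.exp_nat_mul, ← Real.exp_nat_mul]
        congr 1
        push_cast
        field_simp
        ring
  have h6 : ((M.P^[t] f) s - c) ^ 2 ≤
      (Real.sqrt (M.W0 / M.w s) * Real.exp (-(t / (8 * K)))) ^ 2 := by
    rw [mul_pow, Real.sq_sqrt (by positivity), div_mul_eq_mul_div, le_div_iff₀ hws]
    calc ((M.P^[t] f) s - c) ^ 2 * M.w s = M.w s * ((M.P^[t] f) s - c) ^ 2 := by ring
      _ ≤ (1 - 1 / (4 * K)) ^ t * M.W0 := h1
      _ ≤ Real.exp (-(t / (8 * K))) ^ 2 * M.W0 := mul_le_mul_of_nonneg_right h3 hW.le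
      _ = _ := by ring
  exact abs_le_of_sq_le_sq h6 (by positivity)

end MChain

end Pool.Agent.QPR
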