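import Pool.Agent.QPR.Moves

/-!
# Part (2) of the project QPR (text: PART2.md): definitions

Everything is stated for a rank function and two real numbers `x, y` in `(0, 1)`. `C` is the set of
contracted elements, `R` the set of remaining elements. No disjointness of `C` and `R` is assumed
(an element of `C ∩ R` is simply a loop).
-/

set_option autoImplicit false

namespace Pool.Agent.QPR

open Finset
open scoped Classical

/-- rank function and the two parameters -/
structure Dat (α : Type) [DecidableEq α] where
  r : Finset α → ℕ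
  hr : IsRank r
  x : ℝ
  y : ℝ
  x0 : 0 < x
  x1 : x < 1
  y0 : 0 < y
  y1 : y < 1

/-- the contracted set after the entry `(e, o)` -/
def nx {α : Type} [DecidableEq α] (C : Finset α) (e : α) (o : Bool) : Finset α :=
  if o then insert e C else C

namespace Dat

variable {α : Type} [DecidableEq α] (D : Dat α)

noncomputable def mu : ℝ := min D.x D.y

/-- Tutte polynomial of the minor `(C, R)` -/
noncomputable def T (C R : Finset α) : ℝ := TT D.r D.x D.y C R

/-- weight of a history -/
noncomputable def w (C : Finset α) (h : List (α × Bool)) : ℝ := hw D.r D.x D.y 1 C h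

/-- `e` is a loop of the minor -/
def Lp (C : Finset α) (e : α) : Prop := D.r (insert e C) = D.r C

/-- `e` is a coloop of the minor -/
def Cl (C R : Finset α) (e : α) : Prop := D.r (C ∪ R.erase e) < D.r (insert e (C ∪ R.erase e))

def Gen (C R : Finset α) (e : α) : Prop := ¬ D.Lp C e ∧ ¬ D.Cl C R e

/-- `e, f` parallel -/
def Par (C : Finset α) (e f : α) : Prop := ¬ D.Lp C e ∧ ¬ D.Lp C f ∧ D.Lp (insert f C) e

/-- `e, f` in series -/
def Ser (C R : Finset α) (e f : α) : Prop :=
  ¬ D.Cl C R e ∧ ¬ D.Cl C R f ∧ D.Cl C (R.erase f) e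

/-- local weight of the entry `(e, o)` -/
noncomputable def om (C R : Finset α) (e : α) (o : Bool) : ℝ :=
  if D.Lp C e then (if o then 0 else D.y) else if D.Cl C R e then (if o then D.x else 0) else 1

/-- probability of the first entry -/
noncomputable def P (C R : Finset α) (e : α) (o : Bool) : ℝ :=
  D.om C R e o * D.T (nx C e o) (R.erase e) / (R.card * D.T C R)

/-- contraction probability of a generic element -/
noncomputable def pe (C R : Finset α) (e : α) : ℝ := D.T (insert e C) (R.erase e) / D.T C R

/-- total weight -/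
noncomputable def W (C R : Finset α) : ℝ := ∑ h ∈ Hist R, D.w C h

/-- expectation -/
noncomputable def Ex (C R : Finset α) (F : List (α × Bool) → ℝ) : ℝ :=
  (∑ h ∈ Hist R, D.w C h * F h) / D.W C R

/-- variance -/
noncomputable def Vr (C R : Finset α) (F : List (α × Bool) → ℝ) : ℝ :=
  D.Ex C R (fun h => (F h - D.Ex C R F) ^ 2)

/-- conditional expectation given the first entry -/
noncomputable def phi (C R : Finset α) (F : List (α × Bool) → ℝ) (e : α) (o : Bool) : ℝ :=
  D.Ex (nx C e o) (R.erase e) (fun h => F ((e, o) :: h))

/-- average over the first entry -/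
noncomputable def step (Φ : Finset α → Finset α → (List (α × Bool) → ℝ) → ℝ)
    (C R : Finset α) (F : List (α × Bool) → ℝ) : ℝ :=
  ∑ e ∈ R, ∑ o : Bool, D.P C R e o * Φ (nx C e o) (R.erase e) (fun h => F ((e, o) :: h))

/-- variance of the conditional expectation given the first entry -/
noncomputable def I0 (C R : Finset α) (F : List (α × Bool) → ℝ) : ℝ :=
  ∑ e ∈ R, ∑ o : Bool, D.P C R e o * (D.phi C R F e o - D.Ex C R F) ^ 2

/-- iterated averages -/
noncomputable def stepN (Φ : Finset α → Finset α → (List (α × Bool) → ℝ) → ℝ) :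
    ℕ → Finset α → Finset α → (List (α × Bool) → ℝ) → ℝ
  | 0 => Φ
  | j + 1 => D.step (stepN Φ j)

end Dat

/-- test function of the first entry -/
noncomputable def g1 {α : Type} (al be : α → ℝ) (f : α) (o : Bool) : ℝ := if o then al f else be f

/-- `(e, o)` inserted after `i` entries -/
def ins {α : Type} (e : α) (o : Bool) (i : ℕ) (h : List (α × Bool)) : List (α × Bool) :=
  h.take i ++ (e, o) :: h.drop i

/-- exchange the entries `i` and `i + 1` -/
def mA {α : Type} (i : ℕ) (h : List (α × Bool)) : List (α × Bool) := actN (true, true) i h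

/-- exchange the elements of the entries `i` and `i + 1`, the outcomes stay in place -/
def mB {α : Type} (i : ℕ) (h : List (α × Bool)) : List (α × Bool) := actN (true, false) i h

namespace Dat

variable {α : Type} [DecidableEq α] (D : Dat α)

/-- energy of one move, not normalised -/
noncomputable def mvE (C R : Finset α) (F : List (α × Bool) → ℝ)
    (τ : List (α × Bool) → List (α × Bool)) : ℝ :=
  ∑ h ∈ Hist R, min (D.w C h) (D.w C (τ h)) * (F h - F (τ h)) ^ 2

/-- energy of all moves -/
noncomputable def En (C R : Finset α) (F : List (α × Bool) → ℝ) : ℝ :=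
  (∑ i ∈ range (R.card - 1), (D.mvE C R F (mA i) + D.mvE C R F (mB i))) / D.W C R

/-- energy of the moves at the first two positions -/
noncomputable def E1 (C R : Finset α) (F : List (α × Bool) → ℝ) : ℝ :=
  (D.mvE C R F (mA 0) + D.mvE C R F (mB 0)) / D.W C R

/-! ## Two entries -/

/-- two-step weight of the word `(e, o) (f, o')` -/
noncomputable def t (C R : Finset α) (e : α) (o : Bool) (f : α) (o' : Bool) : ℝ :=
  D.om C R e o * D.om (nx C e o) (R.erase e) f o' *
    D.T (nx (nx C e o) f o') ((R.erase e).erase f) / D.T C R

/-- conditional expectation given the first two entries -/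
noncomputable def G2 (C R : Finset α) (F : List (α × Bool) → ℝ) (e : α) (o : Bool) (f : α)
    (o' : Bool) : ℝ :=
  D.Ex (nx (nx C e o) f o') ((R.erase e).erase f) (fun h => F ((e, o) :: (f, o') :: h))

/-- sum over the outcomes for the order `f` first, `e` second -/
noncomputable def E2 (C R : Finset α) (f e : α) (X : Bool → Bool → ℝ) : ℝ :=
  ∑ o : Bool, ∑ o' : Bool, D.t C R f o e o' * X o o'

/-- expectation of a function of the first two entries -/
noncomputable def E22 (C R : Finset α) (X : α → Bool → α → Bool → ℝ) : ℝ :=
  (∑ f ∈ R, ∑ e ∈ R.erase f, D.E2 C R f e (fun o o' => X f o e o')) / (R.card * (R.card - 1))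

/-- score of `e` (second) after the entry `(f, o)`, with outcome `o'` -/
noncomputable def sc (C R : Finset α) (f : α) (o : Bool) (e : α) (o' : Bool) : ℝ :=
  if D.Lp (nx C f o) e then -((1 - D.y) / D.y)
  else if D.Cl (nx C f o) (R.erase f) e then 1 / D.x
  else if o' then 1 else 0

/-- formal two-point function -/
noncomputable def Tm (C R : Finset α) (e f : α) : ℝ :=
  if D.Par C e f then -((1 - D.y) / D.y) * D.pe C R e
  else D.T (insert f (insert e C)) ((R.erase e).erase f) / D.T C R

/-- formal covariance -/
noncomputable def Cov (C R : Finset α) (e f : α) : ℝ :=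
  if e = f then D.pe C R e * (1 - D.pe C R e) else D.Tm C R e f - D.pe C R e * D.pe C R f

/-- number of elements parallel to `e` -/
noncomputable def np (C R : Finset α) (e : α) : ℕ := ((R.erase e).filter (D.Par C e)).card

/-- number of elements in series with `e` -/
noncomputable def ns (C R : Finset α) (e : α) : ℕ := ((R.erase e).filter (D.Ser C R e)).card

/-- generic, with small parallel and series class -/
def Thin (A : ℕ) (C R : Finset α) (e : α) : Prop :=
  D.Gen C R e ∧ D.np C R e < A ∧ D.ns C R e < A

/-- mean and second moment of a test function with values `al e` (contracted), `be e` (deleted) -/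
noncomputable def me (C R : Finset α) (al be : α → ℝ) (e : α) : ℝ :=
  be e + (al e - be e) * D.pe C R e

noncomputable def ve (C R : Finset α) (al be : α → ℝ) (e : α) : ℝ :=
  D.me C R al be e ^ 2 + (al e - be e) ^ 2 * (D.pe C R e * (1 - D.pe C R e))

/-- squared norm of the test function -/
noncomputable def nn (C R : Finset α) (al be : α → ℝ) : ℝ :=
  (∑ e ∈ R, D.ve C R al be e) / R.card

/-- test function of the second entry -/
noncomputable def g2 (C R : Finset α) (al be : α → ℝ) (f : α) (o : Bool) (e : α) (o' : Bool) : ℝ :=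
  be e + (al e - be e) * D.sc C R f o e o'

/-- energy of a function `G` of two entries, words of `{e, f}` beginning with `e` -/
noncomputable def Def (C R : Finset α) (G : α → Bool → α → Bool → ℝ) (e f : α) : ℝ :=
  ∑ o : Bool, ∑ o' : Bool,
    (min (D.t C R e o f o') (D.t C R f o' e o) * (G e o f o' - G f o' e o) ^ 2 +
      if D.Par C e f ∨ D.Ser C R e f then
        min (D.t C R e o f o') (D.t C R f o e o') * (G e o f o' - G f o e o') ^ 2 else 0)

/-- energy of a function of two entries -/
noncomputable def D2 (C R : Finset α) (G : α → Bool → α → Bool → ℝ) : ℝ :=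
  (∑ e ∈ R, ∑ f ∈ R.erase e, D.Def C R G e f) / (R.card * (R.card - 1))

/-- distance of the test function from the conditional expectation -/
noncomputable def Rr (C R : Finset α) (F : List (α × Bool) → ℝ) (al be : α → ℝ) : ℝ :=
  ∑ e ∈ R, ∑ o : Bool, D.P C R e o * (D.phi C R F e o - g1 al be e o) ^ 2

/-- the test function chosen for `F`: values for `contracted` -/
noncomputable def al0 (A : ℕ) (C R : Finset α) (F : List (α × Bool) → ℝ) (e : α) : ℝ :=
  if (D.Gen C R e ∧ A ≤ D.np C R e) ∨ D.Lp C e then D.phi C R F e false else D.phi C R F e true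

/-- the test function chosen for `F`: values for `deleted` -/
noncomputable def be0 (A : ℕ) (C R : Finset α) (F : List (α × Bool) → ℝ) (e : α) : ℝ :=
  if (D.Gen C R e ∧ A ≤ D.ns C R e) ∨ D.Cl C R e then D.phi C R F e true else D.phi C R F e false

/-- the input of part (2): mixed Hodge index inequality -/
def MIX (K : ℝ) : Prop := ∀ (C R : Finset α) (a : α → ℝ), (∀ e ∈ R, ¬ D.Gen C R e → a e = 0) →
  ∑ e ∈ R, ∑ f ∈ R, D.Cov C R e f * (a e * a f) ≤
    K * ∑ e ∈ R, a e ^ 2 * (D.pe C R e * (1 - D.pe C R e))

/-- the same for loopless and coloopless minors (output of part (1)) -/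
def MIX0 (K : ℝ) : Prop := ∀ (C R : Finset α) (a : α → ℝ), (∀ e ∈ R, D.Gen C R e) →
  ∑ e ∈ R, ∑ f ∈ R, D.Cov C R e f * (a e * a f) ≤
    K * ∑ e ∈ R, a e ^ 2 * (D.pe C R e * (1 - D.pe C R e))

end Dat

end Pool.Agent.QPR
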