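import Pool.Agent.Lib_helper88.TutteHard.Defs

/-!
# Expectation over independent random bits
-/

set_option autoImplicit false

namespace Pool.Agent.QPR

open Pool.Agent.TutteHard

/-- expectation over `n` independent uniform random bits -/
noncomputable def Ex : ℕ → (List Bool → ℝ) → ℝ
  | 0, F => F []
  | n + 1, F => (Ex n (fun r => F (true :: r)) + Ex n (fun r => F (false :: r))) / 2

theorem Ex_zero (F : List Bool → ℝ) : Ex 0 F = F [] := rfl

theorem Ex_succ (n : ℕ) (F : List Bool → ℝ) :
    Ex (n + 1) F = (Ex n (fun r => F (true :: r)) + Ex n (fun r => F (false :: r))) / 2 := rfl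

theorem Ex_congr {n : ℕ} {F H : List Bool → ℝ} (h : ∀ r, r.length = n → F r = H r) :
    Ex n F = Ex n H := by
  induction n generalizing F H with
  | zero => exact h [] rfl
  | succ n ih =>
    rw [Ex_succ, Ex_succ, ih (fun r hr => h (true :: r) (by simp [hr])),
      ih (fun r hr => h (false :: r) (by simp [hr]))]

theorem Ex_mono {n : ℕ} {F H : List Bool → ℝ} (h : ∀ r, r.length = n → F r ≤ H r) :
    Ex n F ≤ Ex n H := by
  induction n generalizing F H with
  | zero => exact h [] rfl
  | succ n ih =>
    rw [Ex_succ, Ex_succ]
    have h1 := ih (F := fun r => F (true :: r)) (H := fun r => H (true :: r))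
      (fun r hr => h (true :: r) (by simp [hr]))
    have h2 := ih (F := fun r => F (false :: r)) (H := fun r => H (false :: r))
      (fun r hr => h (false :: r) (by simp [hr]))
    linarith

theorem Ex_const (n : ℕ) (c : ℝ) : Ex n (fun _ => c) = c := by
  induction n with
  | zero => rfl
  | succ n ih => rw [Ex_succ, ih]; ring

theorem Ex_add (n : ℕ) (F H : List Bool → ℝ) :
    Ex n (fun r => F r + H r) = Ex n F + Ex n H := by
  induction n generalizing F H with
  | zero => rfl
  | succ n ih => rw [Ex_succ, Ex_succ, Ex_succ, ih, ih]; ring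

theorem Ex_mul (n : ℕ) (c : ℝ) (F : List Bool → ℝ) :
    Ex n (fun r => c * F r) = c * Ex n F := by
  induction n generalizing F with
  | zero => rfl
  | succ n ih => rw [Ex_succ, Ex_succ, ih, ih]; ring

theorem Ex_sub (n : ℕ) (F H : List Bool → ℝ) :
    Ex n (fun r => F r - H r) = Ex n F - Ex n H := by
  induction n generalizing F H with
  | zero => rfl
  | succ n ih => rw [Ex_succ, Ex_succ, Ex_succ, ih, ih]; ring

theorem Ex_nonneg {n : ℕ} {F : List Bool → ℝ} (h : ∀ r, r.length = n → 0 ≤ F r) : 0 ≤ Ex n F := by
  have := Ex_mono (F := fun _ => 0) h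
  rwa [Ex_const] at this

theorem Ex_le_const {n : ℕ} {F : List Bool → ℝ} {c : ℝ} (h : ∀ r, r.length = n → F r ≤ c) :
    Ex n F ≤ c := by
  have := Ex_mono (H := fun _ => c) h
  rwa [Ex_const] at this

theorem Ex_append (a b : ℕ) (F : List Bool → ℝ) :
    Ex (a + b) F = Ex a (fun u => Ex b (fun v => F (u ++ v))) := by
  induction a generalizing F with
  | zero => rw [Nat.zero_add, Ex_zero]; rfl
  | succ a ih =>
    rw [Nat.succ_add, Ex_succ, Ex_succ, ih, ih]
    rfl

/-- the difference of two expectations -/
theorem Ex_abs_sub_le {n : ℕ} {F H : List Bool → ℝ} {c : ℝ}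
    (h : ∀ r, r.length = n → |F r - H r| ≤ c) : |Ex n F - Ex n H| ≤ c := by
  rw [← Ex_sub, abs_le]
  constructor
  · have := Ex_mono (n := n) (F := fun _ => -c) (H := fun r => F r - H r)
      (fun r hr => (abs_le.1 (h r hr)).1)
    rwa [Ex_const] at this
  · exact Ex_le_const (fun r hr => (abs_le.1 (h r hr)).2)

/-- probabilities are expectations of indicators -/
theorem prob_eq_Ex (n : ℕ) (P : List Bool → Prop) [DecidablePred P] :
    prob n P = Ex n (fun r => if P r then 1 else 0) := by
  induction n generalizing P with
  | zero =>
    rw [Ex_zero]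
    unfold prob
    by_cases h : P []
    · rw [if_pos h]
      have : Nat.card {r : Fin 0 → Bool // P (List.ofFn r)} = 1 := by
        rw [Nat.card_eq_one_iff_unique]
        refine ⟨⟨fun a b => Subtype.ext (Subsingleton.elim _ _)⟩, ⟨⟨Fin.elim0, ?_⟩⟩⟩
        simpa using h
      rw [this]
      norm_num
    · rw [if_neg h]
      have : Nat.card {r : Fin 0 → Bool // P (List.ofFn r)} = 0 := by
        rw [Nat.card_eq_zero]
        left
        refine ⟨fun a => h ?_⟩
        simpa using a.2
      rw [this]
      norm_num
  | succ n ih =>
    rw [Ex_succ, ← ih (fun r => P (true :: r)), ← ih (fun r => P (false :: r))]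
    unfold prob
    have e : {r : Fin (n + 1) → Bool // P (List.ofFn r)} ≃
        {r : Fin n → Bool // P (true :: List.ofFn r)} ⊕
          {r : Fin n → Bool // P (false :: List.ofFn r)} :=
      { toFun := fun r => if h : r.1 0 = true then
            Sum.inl ⟨fun i => r.1 i.succ, by
              have := r.2; rw [List.ofFn_succ, h] at this; exact this⟩
          else Sum.inr ⟨fun i => r.1 i.succ, by
              have := r.2
              rw [List.ofFn_succ] at this
              rw [Bool.not_eq_true] at h
              rw [h] at this
              exact this⟩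
        invFun := fun s => match s with
          | Sum.inl a => ⟨Fin.cons true a.1, by
              rw [List.ofFn_succ]; simpa using a.2⟩
          | Sum.inr a => ⟨Fin.cons false a.1, by
              rw [List.ofFn_succ]; simpa using a.2⟩
        left_inv := by
          rintro ⟨r, hr⟩
          by_cases h : r 0 = true
          · simp only [h, dite_true]
            apply Subtype.ext
            funext i
            refine Fin.cases ?_ (fun j => ?_) i
            · simp [h]
            · simp
          · have h' : r 0 = false := by simpa using h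
            simp only [h', Bool.false_eq_true, dite_false]
            apply Subtype.ext
            funext i
            refine Fin.cases ?_ (fun j => ?_) i
            · simp [h']
            · simp
        right_inv := by
          rintro (⟨a, ha⟩ | ⟨a, ha⟩)
          · simp
          · simp }
    rw [Nat.card_congr e, Nat.card_sum]
    push_cast
    rw [pow_succ]
    field_simp

open scoped Classical in
/-- the indicator of a proposition -/
noncomputable def ind (P : Prop) : ℝ := if P then 1 else 0

theorem ind_of {P : Prop} (h : P) : ind P = 1 := if_pos h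

theorem ind_of_not {P : Prop} (h : ¬ P) : ind P = 0 := if_neg h

theorem ind_nonneg (P : Prop) : 0 ≤ ind P := by
  by_cases h : P
  · rw [ind_of h]; exact zero_le_one
  · rw [ind_of_not h]

theorem ind_le_one (P : Prop) : ind P ≤ 1 := by
  by_cases h : P
  · rw [ind_of h]
  · rw [ind_of_not h]; exact zero_le_one

theorem ind_mono {P Q : Prop} (h : P → Q) : ind P ≤ ind Q := by
  by_cases hP : P
  · rw [ind_of hP, ind_of (h hP)]
  · rw [ind_of_not hP]; exact ind_nonneg Q

theorem ind_congr {P Q : Prop} (h : P ↔ Q) : ind P = ind Q := by rw [propext h]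

theorem ind_not (P : Prop) : ind (¬ P) = 1 - ind P := by
  by_cases hP : P
  · rw [ind_of hP, ind_of_not (not_not.2 hP)]; ring
  · rw [ind_of_not hP, ind_of hP]; ring

theorem ind_or_le (P Q : Prop) : ind (P ∨ Q) ≤ ind P + ind Q := by
  have hp := ind_nonneg P
  have hq := ind_nonneg Q
  by_cases hP : P
  · rw [ind_of hP]
    have := ind_le_one (P ∨ Q)
    linarith
  · have : ind (P ∨ Q) ≤ ind Q := ind_mono (fun h => h.resolve_left hP)
    linarith

theorem ind_eq (P : Prop) [Decidable P] : ind P = if P then 1 else 0 := by
  by_cases hP : P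
  · rw [ind_of hP, if_pos hP]
  · rw [ind_of_not hP, if_neg hP]

theorem prob_eq (n : ℕ) (P : List Bool → Prop) : prob n P = Ex n (fun r => ind (P r)) := by
  classical
  rw [prob_eq_Ex]
  apply Ex_congr
  intro r _
  rw [ind_eq]

end Pool.Agent.QPR
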