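import Pool.Agent.QPR.Ex

/-!
# Blocks of random bits; the inequality of Chebyshev
-/

set_option autoImplicit false

namespace Pool.Agent.QPR

/-- the first `t` blocks of length `b` -/
def chunk (b : ℕ) : ℕ → List Bool → List (List Bool)
  | 0, _ => []
  | t + 1, r => r.take b :: chunk b t (r.drop b)

/-- expectation over `t` independent blocks of `b` random bits -/
noncomputable def ExB (b : ℕ) : ℕ → (List (List Bool) → ℝ) → ℝ
  | 0, F => F []
  | t + 1, F => Ex b (fun u => ExB b t (fun l => F (u :: l)))

theorem ExB_zero (b : ℕ) (F : List (List Bool) → ℝ) : ExB b 0 F = F [] := rfl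

theorem ExB_succ (b t : ℕ) (F : List (List Bool) → ℝ) :
    ExB b (t + 1) F = Ex b (fun u => ExB b t (fun l => F (u :: l))) := rfl

theorem Ex_chunk (b t : ℕ) (F : List (List Bool) → ℝ) :
    Ex (t * b) (fun r => F (chunk b t r)) = ExB b t F := by
  induction t generalizing F with
  | zero => rw [Nat.zero_mul]; rfl
  | succ t ih =>
    rw [Nat.succ_mul, Nat.add_comm, Ex_append, ExB_succ]
    apply Ex_congr
    intro u hu
    rw [← ih]
    apply Ex_congr
    intro v _
    simp only [chunk]
    rw [List.take_left' hu, List.drop_left' hu]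

theorem ExB_congr {b t : ℕ} {F H : List (List Bool) → ℝ}
    (h : ∀ l : List (List Bool), l.length = t → (∀ u ∈ l, u.length = b) → F l = H l) :
    ExB b t F = ExB b t H := by
  induction t generalizing F H with
  | zero => exact h [] rfl (by simp)
  | succ t ih =>
    rw [ExB_succ, ExB_succ]
    apply Ex_congr
    intro u hu
    apply ih
    intro l hl hl2
    exact h (u :: l) (by simp [hl]) (by
      intro v hv
      rcases List.mem_cons.1 hv with rfl | hv
      · exact hu
      · exact hl2 v hv)

theorem ExB_mono {b t : ℕ} {F H : List (List Bool) → ℝ}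
    (h : ∀ l : List (List Bool), l.length = t → (∀ u ∈ l, u.length = b) → F l ≤ H l) :
    ExB b t F ≤ ExB b t H := by
  induction t generalizing F H with
  | zero => exact h [] rfl (by simp)
  | succ t ih =>
    rw [ExB_succ, ExB_succ]
    apply Ex_mono
    intro u hu
    apply ih
    intro l hl hl2
    exact h (u :: l) (by simp [hl]) (by
      intro v hv
      rcases List.mem_cons.1 hv with rfl | hv
      · exact hu
      · exact hl2 v hv)

theorem ExB_const (b t : ℕ) (c : ℝ) : ExB b t (fun _ => c) = c := by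
  induction t with
  | zero => rfl
  | succ t ih => rw [ExB_succ, ih, Ex_const]

theorem ExB_add (b t : ℕ) (F H : List (List Bool) → ℝ) :
    ExB b t (fun l => F l + H l) = ExB b t F + ExB b t H := by
  induction t generalizing F H with
  | zero => rfl
  | succ t ih =>
    rw [ExB_succ, ExB_succ, ExB_succ, ← Ex_add]
    apply Ex_congr
    intro u _
    rw [ih]

theorem ExB_mul (b t : ℕ) (c : ℝ) (F : List (List Bool) → ℝ) :
    ExB b t (fun l => c * F l) = c * ExB b t F := by
  induction t generalizing F with
  | zero => rfl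
  | succ t ih =>
    rw [ExB_succ, ExB_succ, ← Ex_mul]
    apply Ex_congr
    intro u _
    rw [ih]

theorem ExB_sub (b t : ℕ) (F H : List (List Bool) → ℝ) :
    ExB b t (fun l => F l - H l) = ExB b t F - ExB b t H := by
  have h := ExB_add b t F (fun l => (-1) * H l)
  rw [ExB_mul] at h
  calc ExB b t (fun l => F l - H l) = ExB b t (fun l => F l + (-1) * H l) :=
        ExB_congr (fun l _ _ => by ring)
    _ = ExB b t F + (-1) * ExB b t H := h
    _ = _ := by ring

theorem ExB_nonneg {b t : ℕ} {F : List (List Bool) → ℝ}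
    (h : ∀ l : List (List Bool), l.length = t → (∀ u ∈ l, u.length = b) → 0 ≤ F l) :
    0 ≤ ExB b t F := by
  have := ExB_mono (F := fun _ => 0) h
  rwa [ExB_const] at this

theorem ExB_le_const {b t : ℕ} {F : List (List Bool) → ℝ} {c : ℝ}
    (h : ∀ l : List (List Bool), l.length = t → (∀ u ∈ l, u.length = b) → F l ≤ c) :
    ExB b t F ≤ c := by
  have := ExB_mono (H := fun _ => c) h
  rwa [ExB_const] at this

/-- the averaging operator of a random step `f` reading `b` bits -/
noncomputable def stepOp {σ : Type} (b : ℕ) (f : σ → List Bool → σ) (H : σ → ℝ) : σ → ℝ :=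
  fun s => Ex b (fun u => H (f s u))

theorem ExB_foldl {σ : Type} (b t : ℕ) (f : σ → List Bool → σ) (H : σ → ℝ) (s : σ) :
    ExB b t (fun l => H (l.foldl f s)) = ((stepOp b f)^[t] H) s := by
  induction t generalizing s with
  | zero => rfl
  | succ t ih =>
    rw [ExB_succ, Function.iterate_succ_apply']
    unfold stepOp
    apply Ex_congr
    intro u _
    simp only [List.foldl_cons]
    exact ih _

theorem Ex_sq_dev {b : ℕ} {X : List Bool → ℝ} (hX : ∀ u, X u = 0 ∨ X u = 1) :
    Ex b (fun u => (X u - Ex b X) ^ 2) ≤ 1 / 4 := by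
  have h1 : Ex b (fun u => (X u - Ex b X) ^ 2) =
      Ex b X - 2 * Ex b X * Ex b X + (Ex b X) ^ 2 := by
    rw [← Ex_mul b (2 * Ex b X), ← Ex_sub, ← Ex_const b ((Ex b X) ^ 2), ← Ex_add]
    apply Ex_congr
    intro u _
    rcases hX u with h | h <;> rw [h] <;> ring
  rw [h1]
  nlinarith [sq_nonneg (Ex b X - 1 / 2)]

theorem ExB_sum (b : ℕ) (X : List Bool → ℝ) (N : ℕ) :
    ExB b N (fun l => (l.map X).sum) = N * Ex b X := by
  induction N with
  | zero => simp [ExB_zero]
  | succ N ih =>
    rw [ExB_succ]
    have h : ∀ u, ExB b N (fun l => ((u :: l).map X).sum) = X u + N * Ex b X := by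
      intro u
      have h2 := ExB_add b N (fun _ => X u) (fun l => (l.map X).sum)
      rw [ExB_const, ih] at h2
      rw [← h2]
      apply ExB_congr
      intro l _ _
      rw [List.map_cons, List.sum_cons]
    rw [Ex_congr (fun u _ => h u), Ex_add, Ex_const]
    push_cast
    ring

theorem ExB_sq_dev {b : ℕ} {X : List Bool → ℝ} (hX : ∀ u, X u = 0 ∨ X u = 1) (N : ℕ) :
    ExB b N (fun l => ((l.map X).sum - N * Ex b X) ^ 2) ≤ N / 4 := by
  induction N with
  | zero => simp [ExB_zero]
  | succ N ih =>
    rw [ExB_succ]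
    have h : ∀ u, ExB b N (fun l => (((u :: l).map X).sum - (N + 1 : ℕ) * Ex b X) ^ 2) =
        (X u - Ex b X) ^ 2 + ExB b N (fun l => ((l.map X).sum - N * Ex b X) ^ 2) := by
      intro u
      have h0 : ExB b N (fun l => (l.map X).sum - N * Ex b X) = 0 := by
        rw [ExB_sub, ExB_sum, ExB_const, sub_self]
      have h1 : ExB b N (fun l => 2 * (X u - Ex b X) * ((l.map X).sum - N * Ex b X)) = 0 := by
        rw [ExB_mul, h0, mul_zero]
      calc ExB b N (fun l => (((u :: l).map X).sum - (N + 1 : ℕ) * Ex b X) ^ 2)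
          = ExB b N (fun l => ((X u - Ex b X) ^ 2 +
              2 * (X u - Ex b X) * ((l.map X).sum - N * Ex b X)) +
              ((l.map X).sum - N * Ex b X) ^ 2) := by
            apply ExB_congr
            intro l _ _
            rw [List.map_cons, List.sum_cons]
            push_cast
            ring
        _ = _ := by
            rw [ExB_add, ExB_add, h1, ExB_const, add_zero]
    rw [Ex_congr (fun u _ => h u), Ex_add, Ex_const]
    have := Ex_sq_dev (b := b) hX
    push_cast
    linarith

/-- the inequality of Chebyshev -/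
theorem chebyshev {b : ℕ} {X : List Bool → ℝ} (hX : ∀ u, X u = 0 ∨ X u = 1) {N : ℕ} (hN : 0 < N)
    {ρ : ℝ} (hρ : 0 < ρ) :
    ExB b N (fun l => ind (ρ ≤ |(l.map X).sum / N - Ex b X|)) ≤ 1 / (4 * N * ρ ^ 2) := by
  have hN' : (0 : ℝ) < N := by exact_mod_cast hN
  have h1 : ExB b N (fun l => ind (ρ ≤ |(l.map X).sum / N - Ex b X|)) ≤
      ExB b N (fun l => (1 / (N * ρ) ^ 2) * ((l.map X).sum - N * Ex b X) ^ 2) := by
    apply ExB_mono
    intro l _ _
    by_cases h : ρ ≤ |(l.map X).sum / N - Ex b X|
    · rw [ind_of h]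
      have e : (l.map X).sum - N * Ex b X = N * ((l.map X).sum / N - Ex b X) := by
        field_simp
      rw [e, mul_pow, mul_pow, ← sq_abs ((l.map X).sum / N - Ex b X)]
      rw [one_div, ← div_eq_inv_mul, le_div_iff₀ (by positivity), one_mul]
      apply mul_le_mul_of_nonneg_left _ (by positivity)
      exact pow_le_pow_left₀ hρ.le h 2
    · rw [ind_of_not h]
      positivity
  refine h1.trans ?_
  rw [ExB_mul]
  have h2 := ExB_sq_dev (b := b) hX N
  calc 1 / (N * ρ) ^ 2 * ExB b N (fun l => ((l.map X).sum - N * Ex b X) ^ 2)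
      ≤ 1 / (N * ρ) ^ 2 * (N / 4) := mul_le_mul_of_nonneg_left h2 (by positivity)
    _ = 1 / (4 * N * ρ ^ 2) := by
      field_simp

end Pool.Agent.QPR
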