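import Pool.Agent.QPR.QBnd
import Pool.Agent.TutteEq.Arith
import Pool.Agent.TutteEq.Arith2
import Pool.Agent.TutteEq.Gsn
import Pool.Agent.TutteEq.Net
import Pool.Agent.TutteEq.NetW
import Pool.Agent.TutteEq.PTRed
import Pool.Agent.TutteEq.Pert
import Pool.Agent.TutteEq.Rank
import Pool.Agent.TutteEq.Red
import Pool.Agent.TutteEq.Thick

/-!
# From the interior points to all rational points of `[0, 1)²`, with `n ^ O(log n) * poly (1 / ε)`
random bits
-/

set_option autoImplicit false

namespace Pool.Agent.QPR

open Pool.Agent.PT Pool.Agent.TutteHard Pool.Agent.TutteEq Finset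

theorem TT_zero_zero {α : Type} [DecidableEq α] {r : Finset α → ℕ} (h : IsRank r)
    (R : Finset α) : ∀ C : Finset α, R.Nonempty → TT r 0 0 C R = 0 := by
  induction R using Finset.induction_on with
  | empty =>
    intro C hR
    exact absurd hR Finset.not_nonempty_empty
  | insert e R he ih =>
    intro C _
    by_cases hl : r (insert e C) = r C
    · rw [TT_loop h 0 0 C he hl, zero_mul]
    · by_cases hc : r (C ∪ R) < r (insert e (C ∪ R))
      · rw [TT_coloop h 0 0 C he hc, zero_mul]
      · rw [TT_generic h 0 0 C he hl hc]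
        rcases R.eq_empty_or_nonempty with hR | hR
        · exfalso
          subst hR
          rw [Finset.union_empty] at hc
          have := h.mono C e
          omega
        · rw [ih _ hR, ih _ hR, add_zero]

/-- the origin -/
theorem qp_zero : QP ((0 : ℚ) : ℝ) ((0 : ℚ) : ℝ) := by
  have hA : PT (fun z : (MGraph × List Bool) × List Bool =>
      if z.1.1.isEmpty then (1 : ℚ) else 0) :=
    PT.ite (PT.isEmpty.comp PT.fst.comp_fst) (PT.const 1) (PT.const 0)
  refine ⟨_, 0, hA, fun G e m _ => ?_⟩
  have h1 : ∀ r : List Bool, Approx ((0 : ℚ) : ℝ) ((0 : ℚ) : ℝ) G e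
      (if ((G, e), r).1.1.isEmpty = true then (1 : ℚ) else 0) := by
    intro r
    unfold Approx
    cases G with
    | nil =>
      have : tutte ([] : MGraph) ((0 : ℚ) : ℝ) ((0 : ℚ) : ℝ) = 1 := by
        rw [tutte_eq_TT]
        exact TT_empty _ _ _
      rw [this]
      simp only [List.isEmpty_nil, if_true, mul_one]
      rw [Set.mem_uIcc]
      left
      constructor
      · have : Real.exp (-(1 / ((e.length : ℝ) + 2))) ≤ 1 := by
          apply Real.exp_le_one_iff.2
          have : (0 : ℝ) ≤ 1 / ((e.length : ℝ) + 2) := by positivity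
          linarith
        push_cast
        exact this
      · push_cast
        apply Real.one_le_exp
        positivity
    | cons a G =>
      have : tutte (a :: G : MGraph) ((0 : ℚ) : ℝ) ((0 : ℚ) : ℝ) = 0 := by
        rw [tutte_eq_TT]
        simp only [Rat.cast_zero]
        apply TT_zero_zero grk_isRank
        exact ⟨(List.replicate G.length true, a), by simp [lab]⟩
      rw [this]
      simp
  have h2 : prob m (fun r => Approx ((0 : ℚ) : ℝ) ((0 : ℚ) : ℝ) G e
      (if ((G, e), r).1.1.isEmpty = true then (1 : ℚ) else 0)) = 1 := by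
    rw [prob_eq, Ex_congr (H := fun _ => 1) (fun r _ => ind_of (h1 r)), Ex_const]
  rw [h2]
  norm_num

/-- **reduction to the interior points** -/
theorem qfinal (hmain : ∀ x y : ℚ, 0 < x → x < 1 → 0 < y → y < 1 → QP (x : ℝ) (y : ℝ)) :
    ∀ x y : ℚ, 0 ≤ x → x < 1 → 0 ≤ y → y < 1 → QP (x : ℝ) (y : ℝ) := by
  -- the chromatic points
  have hchrom : ∀ q : ℚ, 0 < q → q < 1 → QP (1 - q : ℝ) 0 := by
    intro q hq0 hq1
    have hx : (((1 - q) / (1 + q) : ℚ) : ℝ) =
        (1 + (q : ℝ) / ((((1 - q) / 2 : ℚ) : ℝ) - 1)) := by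
      have h1 : (1 : ℝ) + q ≠ 0 := by
        have : (0 : ℝ) < (q : ℝ) := by exact_mod_cast hq0
        linarith
      have h2 : ((1 : ℝ) - q) / 2 - 1 ≠ 0 := by
        have : (0 : ℝ) < (q : ℝ) := by exact_mod_cast hq0
        linarith
      push_cast
      have h3 : ((1 : ℝ) - q) / 2 - 1 = -((1 + q) / 2) := by ring
      rw [h3]
      field_simp
      ring
    refine qp_chrom arith (arith2 arith) rank_pt tutteZt pert zero pos thick_spec q ((1 - q) / 2)
      hq0 hq1 ?_ ?_
    · rw [abs_lt]
      constructor <;> linarith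
    · rw [← hx]
      refine hmain _ _ ?_ ?_ ?_ ?_
      · apply div_pos <;> linarith
      · rw [div_lt_one (by linarith)]; linarith
      · linarith
      · linarith
  intro x y hx hx1 hy hy1
  rcases hx.eq_or_lt with hx0 | hx0
  · rcases hy.eq_or_lt with hy0 | hy0
    · rw [← hx0, ← hy0]
      exact qp_zero
    · -- the flow points
      rw [← hx0]
      have h1 := qp_flow arith (arith2 arith) rank_pt tutteZt pos pert zero netW chain_spec
        (red netW) ptRed (1 - y) (by linarith) (by linarith) (hchrom (1 - y) (by linarith)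
          (by linarith))
      have h2 : (1 : ℝ) - ((1 - y : ℚ) : ℝ) = (y : ℝ) := by
        push_cast
        ring
      rw [h2] at h1
      simpa using h1
  · rcases hy.eq_or_lt with hy0 | hy0
    · rw [← hy0]
      have h1 := hchrom (1 - x) (by linarith) (by linarith)
      have h2 : (1 : ℝ) - ((1 - x : ℚ) : ℝ) = (x : ℝ) := by
        push_cast
        ring
      rw [h2] at h1
      simpa using h1
    · exact hmain x y hx0 hx1 hy0 hy1

end Pool.Agent.QPR
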