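import Pool.Agent.QPR.Interior
import Pool.Agent.QPR.QFinal

/-!
# Conclusion of part (3)
-/

set_option autoImplicit false

namespace Pool.Agent.QPR

open Pool.Agent.PT Pool.Agent.TutteHard

/-- from the Poincaré inequality (parts (1) and (2)) to the approximation schemes -/
theorem final (hP : Stmt_P) : ∀ x y : ℚ, 0 ≤ x → x < 1 → 0 ≤ y → y < 1 →
    ∃ (A : (MGraph × List Bool) × List Bool → ℚ) (c : ℕ), N68a2faeb.IsPolyTime A ∧
      ∀ (G : MGraph) (e : List Bool) (m : ℕ),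
        2 ^ (c * (Nat.log 2 (size G) + 1) ^ 2) * (e.length + 2) ^ c ≤ m →
        3 / 4 ≤ prob m (fun r => ((A ((G, e), r) : ℚ) : ℝ) ∈ Set.uIcc
          (Real.exp (-(1 / (e.length + 2))) * tutte G (x : ℝ) (y : ℝ))
          (Real.exp (1 / (e.length + 2)) * tutte G (x : ℝ) (y : ℝ))) := by
  intro x y hx hx1 hy hy1
  obtain ⟨A, c, hA, h⟩ := qfinal (qp_interior hP) x y hx hx1 hy hy1
  exact ⟨A, c, hA.isPolyTime, h⟩

end Pool.Agent.QPR
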