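import Pool.Agent.QPR.HRLin

/-!
# Degree-one Hodge index inequality, part 2: complexes, weights, divisors (helper86)
-/

set_option autoImplicit false

open Finset

namespace Pool.Agent.QPR

/-- A simplicial complex on the finite set `V` together with a space of linear functions which
takes arbitrary values on every face. -/
structure Cx (V : Type) [Fintype V] [DecidableEq V] where
  /-- the linear functions -/
  L : Submodule ℝ (V → ℝ)
  /-- the faces -/
  F : Finset V → Prop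
  empty : F ∅
  down : ∀ σ ρ, ρ ⊆ σ → F σ → F ρ
  sep : ∀ ρ, F ρ → ∀ f : V → ℝ, ∃ l ∈ L, ∀ u ∈ ρ, l u = f u

variable {V : Type} [Fintype V] [DecidableEq V]

/-- A balanced weight (in all dimensions at once). -/
structure Wt (C : Cx V) (w : Finset V → ℝ) : Prop where
  supp : ∀ ρ, ¬ C.F ρ → w ρ = 0
  bal : ∀ ρ, ∀ l ∈ C.L, (∀ u ∈ ρ, l u = 0) → ∑ v ∈ ρᶜ, w (insert v ρ) * l v = 0

open Classical in
/-- A linear function which agrees with `f` on the face `ρ`. -/
noncomputable def lin (C : Cx V) (ρ : Finset V) (f : V → ℝ) : V → ℝ :=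
  if h : C.F ρ then (C.sep ρ h f).choose else 0

/-- The divisor `f . w`. -/
noncomputable def dv (C : Cx V) (f : V → ℝ) (w : Finset V → ℝ) (ρ : Finset V) : ℝ :=
  ∑ v ∈ ρᶜ, w (insert v ρ) * (f v - lin C ρ f v)

/-- The iterated divisor. -/
noncomputable def it (C : Cx V) (A : List (V → ℝ)) (w : Finset V → ℝ) : Finset V → ℝ :=
  A.foldr (dv C) w

/-- Ample classes: strictly convex. -/
def Amp (C : Cx V) (a : V → ℝ) : Prop := ∀ ρ, C.F ρ → ∃ l ∈ C.L, (∀ u ∈ ρ, l u = a u) ∧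
  ∀ v, v ∉ ρ → C.F (insert v ρ) → l v < a v

/-- Nef classes: convex. -/
def Nef (C : Cx V) (a : V → ℝ) : Prop := ∀ ρ, C.F ρ → ∃ l ∈ C.L, (∀ u ∈ ρ, l u = a u) ∧
  ∀ v, v ∉ ρ → C.F (insert v ρ) → l v ≤ a v

/-- The top weight: positive on the faces with `n` elements, and the complex is pure. -/
structure Top (C : Cx V) (n : ℕ) (w : Finset V → ℝ) : Prop where
  wt : Wt C w
  pos : ∀ σ, C.F σ → σ.card = n → 0 < w σ
  pure : ∀ ρ, C.F ρ → ∃ σ, C.F σ ∧ ρ ⊆ σ ∧ σ.card = n

/-- The graphs of the links of the faces with at most `n - 3` elements are connected. -/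
def LinkConn (C : Cx V) (n : ℕ) : Prop := ∀ ρ, C.F ρ → ρ.card + 3 ≤ n → ∀ z : V → ℝ,
  (∀ u v, u ∉ ρ → v ∉ ρ → u ≠ v → C.F (insert u (insert v ρ)) → z u = z v) →
  ∀ u v, u ∉ ρ → v ∉ ρ → C.F (insert u ρ) → C.F (insert v ρ) → z u = z v

/-- The quadratic forms of the links of the faces with `n - 2` elements have one positive
direction. -/
def LinkQuad (C : Cx V) (n : ℕ) (w : Finset V → ℝ) : Prop := ∀ ρ, C.F ρ → ρ.card + 2 = n →
  ∃ y, 0 < dv C y (dv C y w) ρ ∧
    ∀ x, dv C x (dv C x w) ρ * dv C y (dv C y w) ρ ≤ dv C x (dv C y w) ρ ^ 2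

/-- **HR.** The degree-one Hodge index inequality. -/
def Stmt_HR : Prop := ∀ (V : Type) [Fintype V] [DecidableEq V] (C : Cx V) (n N : ℕ)
  (w : Finset V → ℝ) (a₀ : V → ℝ), Top C n w → LinkConn C n → LinkQuad C n w → Amp C a₀ →
  n = N + 2 → ∀ c : V → ℝ, Nef C c → ∀ x : V → ℝ,
    dv C x (dv C x (it C (List.replicate N c) w)) ∅ *
      dv C c (dv C c (it C (List.replicate N c) w)) ∅ ≤
      dv C x (dv C c (it C (List.replicate N c) w)) ∅ ^ 2

end Pool.Agent.QPR
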