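import Pool.Agent.QPR.HRDefs

/-!
# Degree-one Hodge index inequality, part 3: the divisor calculus (helper86)
-/

set_option autoImplicit false

open Finset

namespace Pool.Agent.QPR

variable {V : Type} [Fintype V] [DecidableEq V] {C : Cx V} {w w' : Finset V → ℝ}

lemma lin_mem (C : Cx V) (ρ : Finset V) (f : V → ℝ) : lin C ρ f ∈ C.L := by
  unfold lin
  split_ifs with h
  · exact (C.sep ρ h f).choose_spec.1
  · exact C.L.zero_mem

lemma lin_eq {ρ : Finset V} (h : C.F ρ) (f : V → ℝ) {u : V} (hu : u ∈ ρ) :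
    lin C ρ f u = f u := by
  unfold lin
  rw [dif_pos h]
  exact (C.sep ρ h f).choose_spec.2 u hu

/-- The divisor does not depend on the linear function. -/
theorem dv_eq (hw : Wt C w) {ρ : Finset V} (h : C.F ρ) {f l : V → ℝ} (hl : l ∈ C.L)
    (hlf : ∀ u ∈ ρ, l u = f u) : dv C f w ρ = ∑ v ∈ ρᶜ, w (insert v ρ) * (f v - l v) := by
  unfold dv
  have h1 := hw.bal ρ (lin C ρ f - l) (C.L.sub_mem (lin_mem C ρ f) hl) (by
    intro u hu
    rw [Pi.sub_apply, lin_eq h f hu, hlf u hu, sub_self])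
  rw [← sub_eq_zero, ← sum_sub_distrib, ← neg_eq_zero, ← sum_neg_distrib, ← h1]
  refine sum_congr rfl fun v _ => ?_
  rw [Pi.sub_apply]
  ring

lemma not_face {ρ : Finset V} (h : ¬ C.F ρ) (v : V) : ¬ C.F (insert v ρ) :=
  fun h' => h (C.down _ _ (subset_insert v ρ) h')

lemma dv_supp (hw : Wt C w) (f : V → ℝ) {ρ : Finset V} (h : ¬ C.F ρ) : dv C f w ρ = 0 := by
  unfold dv
  refine sum_eq_zero fun v _ => ?_
  rw [hw.supp _ (not_face h v), zero_mul]

/-! ### two divisors -/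

/-- The weight of `ρ + u + v`. -/
noncomputable def K (w : Finset V → ℝ) (ρ : Finset V) (u v : V) : ℝ :=
  if u = v ∨ u ∈ ρ ∨ v ∈ ρ then 0 else w (insert u (insert v ρ))

lemma K_symm (w : Finset V → ℝ) (ρ : Finset V) (u v : V) : K w ρ u v = K w ρ v u := by
  unfold K
  by_cases h : u = v ∨ u ∈ ρ ∨ v ∈ ρ
  · rw [if_pos h, if_pos (by tauto)]
  · rw [if_neg h, if_neg (by tauto), insert_comm]

/-- A sum over the complement of `ρ + v`. -/
lemma sum_K (w : Finset V → ℝ) {ρ : Finset V} {v : V} (hv : v ∉ ρ) (g : V → ℝ) :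
    ∑ u ∈ (insert v ρ)ᶜ, w (insert u (insert v ρ)) * g u = ∑ u, K w ρ u v * g u := by
  rw [← sum_subset (subset_univ (insert v ρ)ᶜ)]
  · refine sum_congr rfl fun u hu => ?_
    rw [mem_compl, mem_insert, not_or] at hu
    unfold K
    rw [if_neg (by
      rintro (h | h | h)
      · exact hu.1 h
      · exact hu.2 h
      · exact hv h)]
  · intro u _ hu
    rw [mem_compl, not_not, mem_insert] at hu
    unfold K
    rw [if_pos (by tauto), zero_mul]

/-- Coordinates relative to the face `ρ`. -/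
lemma exists_m {ρ : Finset V} : ∃ m : V → V → ℝ, (∀ v, m v ∈ C.L) ∧
    ∀ v, v ∉ ρ → C.F (insert v ρ) → (∀ u ∈ ρ, m v u = 0) ∧ m v v = 1 := by
  have h1 : ∀ v, ∃ m ∈ C.L, v ∉ ρ → C.F (insert v ρ) → (∀ u ∈ ρ, m u = 0) ∧ m v = 1 := by
    intro v
    by_cases h : v ∉ ρ ∧ C.F (insert v ρ)
    · obtain ⟨m, hm, hmu⟩ := C.sep _ h.2 (Pi.single v 1)
      refine ⟨m, hm, fun _ _ => ⟨fun u hu => ?_, ?_⟩⟩
      · rw [hmu u (mem_insert_of_mem hu), Pi.single_eq_of_ne]
        rintro rfl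
        exact h.1 hu
      · rw [hmu v (mem_insert_self _ _), Pi.single_eq_same]
    · exact ⟨0, C.L.zero_mem, fun h1 h2 => absurd ⟨h1, h2⟩ h⟩
  choose m hm using h1
  exact ⟨m, fun v => (hm v).1, fun v => (hm v).2⟩

section two
variable {ρ : Finset V} {m : V → V → ℝ}

lemma K_zero (hw : Wt C w) {u v : V} (h : v ∈ ρ ∨ ¬ C.F (insert v ρ)) : K w ρ u v = 0 := by
  unfold K
  split_ifs with h1
  · rfl
  · rcases h with h | h
    · exact absurd (Or.inr (Or.inr h)) h1
    · exact hw.supp _ (not_face h u)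

/-- Balancing at `ρ + v`. -/
lemma bal_K (hw : Wt C w) (hm : ∀ v, m v ∈ C.L)
    (hm' : ∀ v, v ∉ ρ → C.F (insert v ρ) → (∀ u ∈ ρ, m v u = 0) ∧ m v v = 1)
    {l : V → ℝ} (hl : l ∈ C.L) (hl0 : ∀ u ∈ ρ, l u = 0) (v : V) :
    ∑ u, K w ρ u v * l u = l v * ∑ u, K w ρ u v * m v u := by
  by_cases h : v ∈ ρ ∨ ¬ C.F (insert v ρ)
  · simp only [K_zero hw h, zero_mul, sum_const_zero, mul_zero]
  · rw [not_or, not_not] at h
    obtain ⟨hm1, hm2⟩ := hm' v h.1 h.2
    have h1 := hw.bal (insert v ρ) (l - l v • m v)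
      (C.L.sub_mem hl (C.L.smul_mem _ (hm v))) (by
        intro u hu
        rw [Pi.sub_apply, Pi.smul_apply, smul_eq_mul]
        rcases mem_insert.1 hu with h2 | h2
        · rw [h2, hm2]
          ring
        · rw [hl0 u h2, hm1 u h2]
          ring)
    rw [sum_K w h.1] at h1
    rw [mul_sum, ← sub_eq_zero, ← sum_sub_distrib, ← h1]
    refine sum_congr rfl fun u _ => ?_
    rw [Pi.sub_apply, Pi.smul_apply, smul_eq_mul]
    ring

/-- The divisor at `ρ + v`. -/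
lemma dv_K (hw : Wt C w) (hm : ∀ v, m v ∈ C.L)
    (hm' : ∀ v, v ∉ ρ → C.F (insert v ρ) → (∀ u ∈ ρ, m v u = 0) ∧ m v v = 1)
    {f l : V → ℝ} (hl : l ∈ C.L) (hlf : ∀ u ∈ ρ, l u = f u) {v : V} (hv : v ∉ ρ) :
    dv C f w (insert v ρ) = ∑ u, K w ρ u v * ((f u - l u) - (f v - l v) * m v u) := by
  by_cases h : C.F (insert v ρ)
  · obtain ⟨hm1, hm2⟩ := hm' v hv h
    rw [dv_eq hw h (l := l + (f v - l v) • m v)
      (C.L.add_mem hl (C.L.smul_mem _ (hm v))), sum_K w hv]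
    · refine sum_congr rfl fun u _ => ?_
      rw [Pi.add_apply, Pi.smul_apply, smul_eq_mul]
      ring
    · intro u hu
      rw [Pi.add_apply, Pi.smul_apply, smul_eq_mul]
      rcases mem_insert.1 hu with h2 | h2
      · rw [h2, hm2]
        ring
      · rw [hlf u h2, hm1 u h2]
        ring
  · rw [dv_supp hw f h]
    simp only [K_zero hw (Or.inr h), zero_mul, sum_const_zero]

end two

/-- The divisor of a weight is a weight. -/
theorem dv_wt (hw : Wt C w) (f : V → ℝ) : Wt C (dv C f w) := by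
  refine ⟨fun ρ h => dv_supp hw f h, fun ρ l hl hl0 => ?_⟩
  by_cases h : C.F ρ
  swap
  · refine sum_eq_zero fun v _ => ?_
    rw [dv_supp hw f (not_face h v), zero_mul]
  obtain ⟨m, hm, hm'⟩ := exists_m (C := C) (ρ := ρ)
  obtain ⟨k, hk, hkf⟩ := C.sep ρ h f
  have e1 : ∑ v ∈ ρᶜ, dv C f w (insert v ρ) * l v
      = ∑ v, (∑ u, K w ρ u v * ((f u - k u) - (f v - k v) * m v u)) * l v := by
    rw [← sum_subset (subset_univ ρᶜ)]
    · refine sum_congr rfl fun v hv => ?_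
      rw [dv_K hw hm hm' hk hkf (mem_compl.1 hv)]
    · intro v _ hv
      rw [mem_compl, not_not] at hv
      rw [hl0 v hv, mul_zero]
  have e2 : ∑ v, (∑ u, K w ρ u v * ((f u - k u) - (f v - k v) * m v u)) * l v
      = ∑ u, (f u - k u) * (∑ v, K w ρ v u * l v)
        - ∑ v, (f v - k v) * (l v * ∑ u, K w ρ u v * m v u) := by
    have e3 : ∑ u, (f u - k u) * (∑ v, K w ρ v u * l v)
        = ∑ v, ∑ u, K w ρ u v * (f u - k u) * l v := by
      simp_rw [mul_sum]
      rw [sum_comm]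
      refine sum_congr rfl fun v _ => sum_congr rfl fun u _ => ?_
      rw [K_symm w ρ v u]
      ring
    rw [e3, ← sum_sub_distrib]
    refine sum_congr rfl fun v _ => ?_
    rw [mul_sum, mul_sum, ← sum_sub_distrib, sum_mul]
    refine sum_congr rfl fun u _ => ?_
    ring
  rw [e1, e2, sub_eq_zero]
  refine sum_congr rfl fun u _ => ?_
  rw [bal_K hw hm hm' hl hl0 u]

/-- Two divisors at a face. -/
lemma dv_dv (hw : Wt C w) {ρ : Finset V} (h : C.F ρ) {m : V → V → ℝ} (hm : ∀ v, m v ∈ C.L)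
    (hm' : ∀ v, v ∉ ρ → C.F (insert v ρ) → (∀ u ∈ ρ, m v u = 0) ∧ m v v = 1)
    {f g k l : V → ℝ} (hk : k ∈ C.L) (hkf : ∀ u ∈ ρ, k u = f u) (hl : l ∈ C.L)
    (hlg : ∀ u ∈ ρ, l u = g u) :
    dv C f (dv C g w) ρ = ∑ v, ∑ u, K w ρ u v * ((f v - k v) * (g u - l u))
      - ∑ v, (f v - k v) * (g v - l v) * ∑ u, K w ρ u v * m v u := by
  rw [dv_eq (dv_wt hw g) h hk hkf]
  have e1 : ∑ v ∈ ρᶜ, dv C g w (insert v ρ) * (f v - k v)
      = ∑ v, (∑ u, K w ρ u v * ((g u - l u) - (g v - l v) * m v u)) * (f v - k v) := by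
    rw [← sum_subset (subset_univ ρᶜ)]
    · refine sum_congr rfl fun v hv => ?_
      rw [dv_K hw hm hm' hl hlg (mem_compl.1 hv)]
    · intro v _ hv
      rw [mem_compl, not_not] at hv
      rw [hkf v hv, sub_self, mul_zero]
  rw [e1, ← sum_sub_distrib]
  refine sum_congr rfl fun v _ => ?_
  rw [mul_sum, ← sum_sub_distrib, sum_mul]
  refine sum_congr rfl fun u _ => ?_
  ring

/-- Divisors commute. -/
theorem dv_comm (hw : Wt C w) (f g : V → ℝ) : dv C f (dv C g w) = dv C g (dv C f w) := by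
  funext ρ
  by_cases h : C.F ρ
  swap
  · rw [dv_supp (dv_wt hw g) f h, dv_supp (dv_wt hw f) g h]
  obtain ⟨m, hm, hm'⟩ := exists_m (C := C) (ρ := ρ)
  obtain ⟨k, hk, hkf⟩ := C.sep ρ h f
  obtain ⟨l, hl, hlg⟩ := C.sep ρ h g
  rw [dv_dv hw h hm hm' hk hkf hl hlg, dv_dv hw h hm hm' hl hlg hk hkf]
  congr 1
  · rw [sum_comm]
    refine sum_congr rfl fun v _ => sum_congr rfl fun u _ => ?_
    rw [K_symm w ρ v u]
    ring
  · refine sum_congr rfl fun v _ => ?_
    ring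

theorem dv_add (hw : Wt C w) (f g : V → ℝ) : dv C (f + g) w = dv C f w + dv C g w := by
  funext ρ
  by_cases h : C.F ρ
  swap
  · rw [Pi.add_apply, dv_supp hw _ h, dv_supp hw _ h, dv_supp hw _ h, add_zero]
  obtain ⟨k, hk, hkf⟩ := C.sep ρ h f
  obtain ⟨l, hl, hlg⟩ := C.sep ρ h g
  rw [Pi.add_apply, dv_eq hw h hk hkf, dv_eq hw h hl hlg,
    dv_eq hw h (l := k + l) (C.L.add_mem hk hl)
      (fun u hu => by rw [Pi.add_apply, Pi.add_apply, hkf u hu, hlg u hu]), ← sum_add_distrib]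
  refine sum_congr rfl fun v _ => ?_
  rw [Pi.add_apply, Pi.add_apply]
  ring

theorem dv_smul (hw : Wt C w) (c : ℝ) (f : V → ℝ) : dv C (c • f) w = c • dv C f w := by
  funext ρ
  by_cases h : C.F ρ
  swap
  · rw [Pi.smul_apply, dv_supp hw _ h, dv_supp hw _ h, smul_zero]
  obtain ⟨k, hk, hkf⟩ := C.sep ρ h f
  rw [Pi.smul_apply, dv_eq hw h hk hkf,
    dv_eq hw h (l := c • k) (C.L.smul_mem c hk)
      (fun u hu => by rw [Pi.smul_apply, Pi.smul_apply, hkf u hu]), smul_eq_mul, mul_sum]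
  refine sum_congr rfl fun v _ => ?_
  rw [Pi.smul_apply, Pi.smul_apply, smul_eq_mul, smul_eq_mul]
  ring

theorem dv_lin (hw : Wt C w) {l : V → ℝ} (hl : l ∈ C.L) : dv C l w = 0 := by
  funext ρ
  by_cases h : C.F ρ
  · rw [dv_eq hw h hl (fun u _ => rfl)]
    simp
  · rw [dv_supp hw _ h]
    rfl

theorem dv_sub_lin (hw : Wt C w) {l : V → ℝ} (hl : l ∈ C.L) (f : V → ℝ) :
    dv C (f - l) w = dv C f w := by
  have h1 : f = (f - l) + l := by abel
  have h2 := dv_add hw (f - l) l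
  rw [← h1, dv_lin hw hl, add_zero] at h2
  exact h2.symm

theorem dv_add_w (f : V → ℝ) (w w' : Finset V → ℝ) :
    dv C f (w + w') = dv C f w + dv C f w' := by
  funext ρ
  unfold dv
  rw [Pi.add_apply, ← sum_add_distrib]
  refine sum_congr rfl fun v _ => ?_
  rw [Pi.add_apply]
  ring

theorem dv_smul_w (f : V → ℝ) (c : ℝ) (w : Finset V → ℝ) :
    dv C f (c • w) = c • dv C f w := by
  funext ρ
  unfold dv
  rw [Pi.smul_apply, smul_eq_mul, mul_sum]
  refine sum_congr rfl fun v _ => ?_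
  rw [Pi.smul_apply, smul_eq_mul]
  ring

theorem dv_single (hw : Wt C w) {v : V} {ρ : Finset V} (hv : v ∉ ρ) :
    dv C (Pi.single v 1) w ρ = w (insert v ρ) := by
  by_cases h : C.F ρ
  · rw [dv_eq hw h C.L.zero_mem (fun u hu => by
      rw [Pi.single_eq_of_ne]
      · rfl
      · rintro rfl
        exact hv hu), sum_eq_single v]
    · rw [Pi.single_eq_same, Pi.zero_apply, sub_zero, mul_one]
    · intro u _ hu
      rw [Pi.single_eq_of_ne hu, Pi.zero_apply, sub_zero, mul_zero]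
    · intro h1
      rw [mem_compl, not_not] at h1
      exact absurd h1 hv
  · rw [dv_supp hw _ h, hw.supp _ (not_face h v)]

/-- The divisor of a function which vanishes on the face. -/
theorem dv_vanish (hw : Wt C w) {ρ : Finset V} (h : C.F ρ) {f : V → ℝ} (hf : ∀ u ∈ ρ, f u = 0) :
    dv C f w ρ = ∑ v ∈ ρᶜ, w (insert v ρ) * f v := by
  rw [dv_eq hw h C.L.zero_mem (fun u hu => (hf u hu).symm)]
  refine sum_congr rfl fun v _ => ?_
  rw [Pi.zero_apply, sub_zero]

theorem it_wt (hw : Wt C w) (A : List (V → ℝ)) : Wt C (it C A w) := by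
  induction A with
  | nil => exact hw
  | cons a A ih => exact dv_wt ih a

/-- Positivity. -/
theorem it_pos {n : ℕ} (ht : Top C n w) (A : List (V → ℝ)) (hA : ∀ a ∈ A, Amp C a)
    {ρ : Finset V} (h : C.F ρ) (hn : ρ.card + A.length = n) : 0 < it C A w ρ := by
  induction A generalizing ρ with
  | nil => exact ht.pos ρ h (by simpa using hn)
  | cons a A ih =>
    have hwA := it_wt ht.wt A
    obtain ⟨l, hl, hla, hlt⟩ := hA a (List.mem_cons_self) ρ h
    have e : it C (a :: A) w ρ = ∑ v ∈ ρᶜ, it C A w (insert v ρ) * (a v - l v) :=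
      dv_eq hwA h hl hla
    have hlen : ρ.card + (A.length + 1) = n := by simpa using hn
    rw [e]
    have hterm : ∀ v ∈ ρᶜ, C.F (insert v ρ) → 0 < it C A w (insert v ρ) * (a v - l v) := by
      intro v hv hF
      rw [mem_compl] at hv
      refine mul_pos (ih (fun b hb => hA b (List.mem_cons_of_mem a hb)) hF ?_)
        (by linarith [hlt v hv hF])
      rw [card_insert_of_notMem hv]
      omega
    refine sum_pos' (fun v hv => ?_) ?_
    · by_cases hF : C.F (insert v ρ)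
      · exact (hterm v hv hF).le
      · rw [hwA.supp _ hF, zero_mul]
    · obtain ⟨σ, hσ, hρσ, hσn⟩ := ht.pure ρ h
      obtain ⟨v, hv, hvρ⟩ : ∃ v ∈ σ, v ∉ ρ := by
        by_contra hc
        push Not at hc
        have := card_le_card (fun v hv => hc v hv : σ ⊆ ρ)
        omega
      exact ⟨v, mem_compl.2 hvρ, hterm v (mem_compl.2 hvρ)
        (C.down σ _ (insert_subset hv hρσ) hσ)⟩

/-- The bilinear form of two divisors. -/
theorem dv_sb (hw : Wt C w) (ρ : Finset V) : SB (fun x y => dv C x (dv C y w) ρ) := by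
  refine ⟨fun x y => ?_, fun x y z => ?_, fun c x z => ?_⟩
  · show dv C x (dv C y w) ρ = dv C y (dv C x w) ρ
    rw [dv_comm hw]
  · show dv C (x + y) (dv C z w) ρ = dv C x (dv C z w) ρ + dv C y (dv C z w) ρ
    rw [dv_add (dv_wt hw z), Pi.add_apply]
  · show dv C (c • x) (dv C z w) ρ = c * dv C x (dv C z w) ρ
    rw [dv_smul (dv_wt hw z), Pi.smul_apply, smul_eq_mul]

end Pool.Agent.QPR
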