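import Mathlib

/-!
# Degree-one Hodge index inequality, part 1: linear algebra (helper86)
-/

set_option autoImplicit false

open Finset

namespace Pool.Agent.QPR

/-- A symmetric bilinear form. -/
structure SB {E : Type} [AddCommGroup E] [Module ℝ E] (Q : E → E → ℝ) : Prop where
  symm : ∀ x y, Q x y = Q y x
  add : ∀ x y z, Q (x + y) z = Q x z + Q y z
  smul : ∀ (c : ℝ) x z, Q (c • x) z = c * Q x z

namespace SB

variable {E : Type} [AddCommGroup E] [Module ℝ E] {Q : E → E → ℝ}

lemma add_r (h : SB Q) (x y z : E) : Q x (y + z) = Q x y + Q x z := by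
  rw [h.symm, h.add, h.symm y x, h.symm z x]

lemma smul_r (h : SB Q) (c : ℝ) (x z : E) : Q x (c • z) = c * Q x z := by
  rw [h.symm, h.smul, h.symm z x]

lemma sub_l (h : SB Q) (x y z : E) : Q (x - y) z = Q x z - Q y z := by
  have e : x - y = x + (-1 : ℝ) • y := by rw [neg_one_smul, sub_eq_add_neg]
  rw [e, h.add, h.smul]
  ring

lemma sub_r (h : SB Q) (x y z : E) : Q x (y - z) = Q x y - Q x z := by
  rw [h.symm, h.sub_l, h.symm y x, h.symm z x]

lemma zero_l (h : SB Q) (z : E) : Q 0 z = 0 := by
  have := h.smul 0 0 z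
  rwa [zero_smul, zero_mul] at this

/-- the square of a combination -/
lemma sq (h : SB Q) (a b : ℝ) (x y : E) :
    Q (a • x - b • y) (a • x - b • y) = a ^ 2 * Q x x - 2 * a * b * Q x y + b ^ 2 * Q y y := by
  have e1 : Q (a • x) (a • x) = a * (a * Q x x) := by rw [h.smul, h.smul_r]
  have e2 : Q (a • x) (b • y) = a * (b * Q x y) := by rw [h.smul, h.smul_r]
  have e3 : Q (b • y) (a • x) = b * (a * Q x y) := by rw [h.smul, h.smul_r, h.symm y x]
  have e4 : Q (b • y) (b • y) = b * (b * Q y y) := by rw [h.smul, h.smul_r]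
  rw [h.sub_l, h.sub_r, h.sub_r, e1, e2, e3, e4]
  ring

/-- The Cauchy-Schwarz inequality for nonnegative forms. -/
theorem cs (h : SB Q) (nn : ∀ x, 0 ≤ Q x x) (x y : E) : Q x y ^ 2 ≤ Q x x * Q y y := by
  have h1 := h.sq (Q y y) (Q x y) x y
  have h2 := nn (Q y y • x - Q x y • y)
  rw [h1] at h2
  rcases (nn y).eq_or_lt with h3 | h3
  · rw [← h3]
    by_contra hc
    rw [mul_zero, not_le] at hc
    have hne : Q x y ≠ 0 := fun h0 => by
      rw [h0] at hc
      norm_num at hc
    have h4 := nn ((1 : ℝ) • x - ((Q x x + 1) / (2 * Q x y)) • y)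
    rw [h.sq, ← h3] at h4
    have h5 : 2 * 1 * ((Q x x + 1) / (2 * Q x y)) * Q x y = Q x x + 1 := by
      field_simp
    rw [h5] at h4
    linarith
  · by_contra hc
    rw [not_le] at hc
    have : 0 < Q y y * (Q x y ^ 2 - Q x x * Q y y) := mul_pos h3 (by linarith)
    nlinarith

/-- LOR: one positive direction. -/
theorem lor (h : SB Q) {a : E} (ha : 0 < Q a a) (H : ∀ x, Q x x * Q a a ≤ Q x a ^ 2) (x y : E)
    (hy : 0 ≤ Q y y) : Q x x * Q y y ≤ Q x y ^ 2 := by
  rcases hy.eq_or_lt with h0 | hy
  · rw [← h0, mul_zero]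
    positivity
  by_contra hc
  rw [not_le] at hc
  set x' : E := Q y y • x - Q x y • y with hx'
  have e1 : Q x' y = 0 := by
    rw [hx', h.sub_l, h.smul, h.smul]
    ring
  have e2 : 0 < Q x' x' := by
    rw [hx', h.sq]
    have e3 : Q y y ^ 2 * Q x x - 2 * Q y y * Q x y * Q x y + Q x y ^ 2 * Q y y
        = Q y y * (Q x x * Q y y - Q x y ^ 2) := by ring
    rw [e3]
    exact mul_pos hy (by linarith)
  have e4 := H (Q y a • x' - Q x' a • y)
  have e5 : Q (Q y a • x' - Q x' a • y) a = 0 := by
    rw [h.sub_l, h.smul, h.smul]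
    ring
  rw [e5, h.sq, e1] at e4
  have e6 : (0 : ℝ) ^ 2 = 0 := by norm_num
  rw [e6] at e4
  have e7 : Q y a ^ 2 * Q x' x' - 2 * Q y a * Q x' a * 0 + Q x' a ^ 2 * Q y y ≤ 0 := by
    by_contra hcc
    rw [not_le] at hcc
    have := mul_pos hcc ha
    linarith
  have e8 : Q y a ^ 2 * Q x' x' ≤ 0 := by
    have : 0 ≤ Q x' a ^ 2 * Q y y := by positivity
    linarith
  have e9 : Q y a ^ 2 ≤ 0 := by
    by_contra hcc
    rw [not_le] at hcc
    have := mul_pos hcc e2
    linarith
  have e10 := H y
  have e11 := mul_pos hy ha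
  linarith

end SB

namespace PER

variable {U : Type} [Fintype U]

/-- The matrix applied to a vector. -/
def ap (H : U → U → ℝ) (x : U → ℝ) (v : U) : ℝ := ∑ u, H v u * x u

/-- The bilinear form of the matrix. -/
def bf (H : U → U → ℝ) (x y : U → ℝ) : ℝ := ∑ v, x v * ap H y v

lemma ap_add (H : U → U → ℝ) (x y : U → ℝ) (v : U) : ap H (x + y) v = ap H x v + ap H y v := by
  unfold ap
  rw [← sum_add_distrib]
  exact sum_congr rfl fun u _ => by rw [Pi.add_apply]; ring

lemma ap_smul (H : U → U → ℝ) (c : ℝ) (x : U → ℝ) (v : U) : ap H (c • x) v = c * ap H x v := by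
  unfold ap
  rw [mul_sum]
  exact sum_congr rfl fun u _ => by rw [Pi.smul_apply, smul_eq_mul]; ring

lemma bf_symm {H : U → U → ℝ} (hs : ∀ u v, H u v = H v u) (x y : U → ℝ) : bf H x y = bf H y x := by
  unfold bf ap
  simp_rw [mul_sum]
  rw [sum_comm]
  refine sum_congr rfl fun u _ => sum_congr rfl fun v _ => ?_
  rw [hs v u]
  ring

lemma bf_sb {H : U → U → ℝ} (hs : ∀ u v, H u v = H v u) : SB (bf H) := by
  refine ⟨bf_symm hs, fun x y z => ?_, fun c x z => ?_⟩
  · unfold bf
    rw [← sum_add_distrib]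
    exact sum_congr rfl fun u _ => by rw [Pi.add_apply]; ring
  · unfold bf
    rw [mul_sum]
    exact sum_congr rfl fun u _ => by rw [Pi.smul_apply, smul_eq_mul]; ring

/-- The weighted inner product. -/
def ip (D : U → ℝ) (x y : U → ℝ) : ℝ := ∑ v, D v * (x v * y v)

lemma ip_sb (D : U → ℝ) : SB (ip D) := by
  refine ⟨fun x y => ?_, fun x y z => ?_, fun c x z => ?_⟩
  · unfold ip
    exact sum_congr rfl fun u _ => by ring
  · unfold ip
    rw [← sum_add_distrib]
    exact sum_congr rfl fun u _ => by rw [Pi.add_apply]; ring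
  · unfold ip
    rw [mul_sum]
    exact sum_congr rfl fun u _ => by rw [Pi.smul_apply, smul_eq_mul]; ring

/-- The operator `E = 1 - D⁻¹ H`. -/
noncomputable def opE (H : U → U → ℝ) (D : U → ℝ) : (U → ℝ) →ₗ[ℝ] (U → ℝ) where
  toFun x := fun v => x v - ap H x v / D v
  map_add' x y := by
    funext v
    simp only [Pi.add_apply, ap_add]
    ring
  map_smul' c x := by
    funext v
    simp only [Pi.smul_apply, smul_eq_mul, ap_smul, RingHom.id_apply]
    ring

lemma opE_apply (H : U → U → ℝ) (D : U → ℝ) (x : U → ℝ) (v : U) :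
    opE H D x v = x v - ap H x v / D v := rfl

/-- The functional `<., α>_D`. -/
noncomputable def fn (D α : U → ℝ) : (U → ℝ) →ₗ[ℝ] ℝ where
  toFun x := ip D x α
  map_add' x y := (ip_sb D).add x y α
  map_smul' c x := (ip_sb D).smul c x α

section main
variable {H : U → U → ℝ} {α D : U → ℝ}

/-- `<x, E y>_D = <x,y>_D - <x, H y>`. -/
lemma ip_E (hD : ∀ v, 0 < D v) (x y : U → ℝ) :
    ip D x (opE H D y) = ip D x y - bf H x y := by
  unfold ip bf
  rw [← sum_sub_distrib]
  refine sum_congr rfl fun v _ => ?_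
  rw [opE_apply]
  have := (hD v).ne'
  field_simp

lemma E_sb (hs : ∀ u v, H u v = H v u) (hD : ∀ v, 0 < D v) :
    SB (fun x y => ip D x (opE H D y)) := by
  have h1 := ip_sb D
  have h2 := bf_sb hs
  refine ⟨fun x y => ?_, fun x y z => ?_, fun c x z => ?_⟩
  · show ip D x (opE H D y) = ip D y (opE H D x)
    rw [ip_E hD, ip_E hD, h1.symm, h2.symm]
  · exact h1.add _ _ _
  · exact h1.smul _ _ _

/-- The ground state transform. -/
lemma ground (hs : ∀ u v, H u v = H v u) (hα : ∀ v, 0 < α v) (hHα : ∀ v, 0 < ap H α v)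
    (x : U → ℝ) :
    2 * ip (fun v => ap H α v / α v) x (opE H (fun v => ap H α v / α v) x)
      = ∑ v, ∑ u, H v u * α u * α v * (x u / α u - x v / α v) ^ 2 := by
  have hD : ∀ v, 0 < ap H α v / α v := fun v => div_pos (hHα v) (hα v)
  rw [ip_E hD]
  have e1 : ip (fun v => ap H α v / α v) x x = ∑ v, ∑ u, H v u * α u / α v * x v ^ 2 := by
    unfold ip
    refine sum_congr rfl fun v _ => ?_
    have h1 : ap H α v / α v = ∑ u, H v u * α u / α v := by
      unfold ap
      rw [sum_div]
    show ap H α v / α v * (x v * x v) = _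
    rw [h1, sum_mul]
    exact sum_congr rfl fun u _ => by ring
  have e2 : ip (fun v => ap H α v / α v) x x = ∑ v, ∑ u, H v u * α v / α u * x u ^ 2 := by
    rw [e1, sum_comm]
    refine sum_congr rfl fun v _ => sum_congr rfl fun u _ => ?_
    rw [hs u v]
  have e3 : bf H x x = ∑ v, ∑ u, H v u * x u * x v := by
    unfold bf ap
    refine sum_congr rfl fun v _ => ?_
    rw [mul_sum]
    exact sum_congr rfl fun u _ => by ring
  have e4 : 2 * (ip (fun v => ap H α v / α v) x x - bf H x x)
      = (∑ v, ∑ u, H v u * α u / α v * x v ^ 2) + (∑ v, ∑ u, H v u * α v / α u * x u ^ 2)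
        - 2 * ∑ v, ∑ u, H v u * x u * x v := by
    rw [← e1, ← e2, ← e3]
    ring
  rw [e4, mul_sum, ← sum_add_distrib, ← sum_sub_distrib]
  refine sum_congr rfl fun v _ => ?_
  rw [mul_sum, ← sum_add_distrib, ← sum_sub_distrib]
  refine sum_congr rfl fun u _ => ?_
  have h1 := (hα u).ne'
  have h2 := (hα v).ne'
  field_simp
  ring

/-- **PER.** -/
theorem per [Nonempty U] (hs : ∀ u v, H u v = H v u) (h0 : ∀ u v, u ≠ v → 0 ≤ H u v)
    (hc : ∀ z : U → ℝ, (∀ u v, u ≠ v → H u v ≠ 0 → z u = z v) → ∀ u v, z u = z v)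
    (hα : ∀ v, 0 < α v) (hHα : ∀ v, 0 < ap H α v)
    (td : ∀ x, bf H x x ≤ ∑ v, α v * ap H x v ^ 2 / ap H α v) (x : U → ℝ) :
    bf H x x * bf H α α ≤ bf H x α ^ 2 := by
  obtain ⟨D, hDdef⟩ : ∃ D : U → ℝ, D = fun v => ap H α v / α v := ⟨_, rfl⟩
  have hD : ∀ v, 0 < D v := fun v => by rw [hDdef]; exact div_pos (hHα v) (hα v)
  have hDα : ∀ v, D v * α v = ap H α v := fun v => by
    rw [hDdef]
    have := (hα v).ne'
    field_simp
  have hipα : ∀ y, ip D y α = bf H y α := by
    intro y
    unfold ip bf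
    refine sum_congr rfl fun v _ => ?_
    rw [← hDα v]
    ring
  have hB := E_sb (H := H) hs hD
  have hip := ip_sb D
  -- the terms of the ground state transform
  have hterm : ∀ (y : U → ℝ) v u, 0 ≤ H v u * α u * α v * (y u / α u - y v / α v) ^ 2 := by
    intro y v u
    by_cases hvu : v = u
    · subst hvu
      simp
    · have h1 := h0 v u hvu
      have h2 := (hα u).le
      have h3 := (hα v).le
      positivity
  have hBnn : ∀ y, 0 ≤ ip D y (opE H D y) := by
    intro y
    have h1 := ground hs hα hHα y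
    rw [← hDdef] at h1
    have h2 : 0 ≤ ∑ v, ∑ u, H v u * α u * α v * (y u / α u - y v / α v) ^ 2 :=
      sum_nonneg fun v _ => sum_nonneg fun u _ => hterm y v u
    linarith
  -- the kernel
  have hker : ∀ y, opE H D y = 0 → ∃ c : ℝ, y = c • α := by
    intro y hy
    have h1 := ground hs hα hHα y
    rw [← hDdef, hy] at h1
    have h2 : ip D y 0 = 0 := by rw [hip.symm, hip.zero_l]
    rw [h2, mul_zero] at h1
    have h3 := (sum_eq_zero_iff_of_nonneg
      (fun v _ => sum_nonneg fun u _ => hterm y v u)).1 h1.symm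
    have h4 : ∀ v u, H v u * α u * α v * (y u / α u - y v / α v) ^ 2 = 0 := by
      intro v u
      exact (sum_eq_zero_iff_of_nonneg (fun u _ => hterm y v u)).1 (h3 v (mem_univ v)) u
        (mem_univ u)
    have h5 := hc (fun v => y v / α v) (by
      intro u v _ huv
      have h6 := h4 u v
      have h7 := (hα u).ne'
      have h8 := (hα v).ne'
      have h9 : (y v / α v - y u / α u) ^ 2 = 0 := by
        rcases mul_eq_zero.1 h6 with h10 | h10
        · exfalso
          rcases mul_eq_zero.1 h10 with h11 | h11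
          · rcases mul_eq_zero.1 h11 with h12 | h12
            · exact huv h12
            · exact h8 h12
          · exact h7 h11
        · exact h10
      have h10 := pow_eq_zero_iff (two_ne_zero) |>.1 h9
      show y u / α u = y v / α v
      linarith)
    obtain ⟨u₀⟩ := (inferInstance : Nonempty U)
    refine ⟨y u₀ / α u₀, ?_⟩
    funext v
    have h6 : y v / α v = y u₀ / α u₀ := h5 v u₀
    have h7 := (hα v).ne'
    rw [Pi.smul_apply, smul_eq_mul, ← h6]
    field_simp
  have hEα : opE H D α = 0 := by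
    funext v
    rw [opE_apply, ← hDα v]
    have := (hD v).ne'
    have e : D v * α v / D v = α v := by field_simp
    rw [e, sub_self]
    rfl
  have hαα : 0 < ip D α α := by
    unfold ip
    exact sum_pos (fun v _ => mul_pos (hD v) (mul_pos (hα v) (hα v))) univ_nonempty
  -- the range
  have hrange : LinearMap.range (opE H D) = LinearMap.ker (fn D α) := by
    have hle : LinearMap.range (opE H D) ≤ LinearMap.ker (fn D α) := by
      rintro _ ⟨y, rfl⟩
      rw [LinearMap.mem_ker]
      show ip D (opE H D y) α = 0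
      have h1 : ip D α (opE H D y) = ip D y (opE H D α) := hB.symm α y
      rw [hip.symm, h1, hEα, hip.symm, hip.zero_l]
    refine Submodule.eq_of_le_of_finrank_eq hle ?_
    have k1 : LinearMap.ker (opE H D) = Submodule.span ℝ {α} := by
      ext y
      rw [LinearMap.mem_ker, Submodule.mem_span_singleton]
      constructor
      · intro hy
        obtain ⟨c, hc⟩ := hker y hy
        exact ⟨c, hc.symm⟩
      · rintro ⟨c, rfl⟩
        rw [map_smul, hEα, smul_zero]
    have hα0 : α ≠ 0 := by
      intro h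
      rw [h, hip.zero_l] at hαα
      exact lt_irrefl _ hαα
    have k2 := LinearMap.finrank_range_add_finrank_ker (opE H D)
    have k3 := LinearMap.finrank_range_add_finrank_ker (fn D α)
    rw [k1, finrank_span_singleton hα0] at k2
    have k4 : LinearMap.range (fn D α) = ⊤ := by
      rw [LinearMap.range_eq_top]
      intro t
      refine ⟨(t / ip D α α) • α, ?_⟩
      show ip D ((t / ip D α α) • α) α = t
      rw [hip.smul]
      have := hαα.ne'
      field_simp
    rw [k4, finrank_top, Module.finrank_self] at k3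
    omega
  -- (TD) in terms of `E`
  have htd : ∀ y, ip D y (opE H D y) ≤ ip D (opE H D y) (opE H D y) := by
    intro y
    have h1 := td y
    have h2 : ip D (opE H D y) (opE H D y) = ip D y y - 2 * bf H y y
        + ∑ v, α v * ap H y v ^ 2 / ap H α v := by
      unfold ip bf
      rw [mul_sum, ← sum_sub_distrib, ← sum_add_distrib]
      refine sum_congr rfl fun v _ => ?_
      rw [opE_apply, ← hDα v]
      have h3 := (hD v).ne'
      have h4 := (hα v).ne'
      field_simp
      ring
    rw [h2, ip_E hD]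
    linarith
  -- negativity on the complement
  have hneg : ∀ y, ip D y α = 0 → bf H y y ≤ 0 := by
    intro y hy
    have h1 : y ∈ LinearMap.range (opE H D) := by
      rw [hrange, LinearMap.mem_ker]
      exact hy
    obtain ⟨z, hz⟩ := h1
    have hs0 : 0 ≤ ip D y y := by
      unfold ip
      exact sum_nonneg fun v _ => mul_nonneg (hD v).le (mul_self_nonneg _)
    have h2 : ip D y (opE H D z) ^ 2 ≤ ip D y (opE H D y) * ip D z (opE H D z) :=
      hB.cs hBnn y z
    rw [hz] at h2
    have h3 := htd z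
    rw [hz] at h3
    have h4 := hBnn y
    have h5 : ip D y y ^ 2 ≤ ip D y (opE H D y) * ip D y y :=
      h2.trans (mul_le_mul_of_nonneg_left h3 h4)
    rcases hs0.eq_or_lt with h6 | h6
    · have h7 : y = 0 := by
        unfold ip at h6
        have h8 := (sum_eq_zero_iff_of_nonneg
          (fun v _ => mul_nonneg (hD v).le (mul_self_nonneg (y v)))).1 h6.symm
        funext v
        have h9 := h8 v (mem_univ v)
        rcases mul_eq_zero.1 h9 with h10 | h10
        · exact absurd h10 (hD v).ne'
        · exact mul_self_eq_zero.1 h10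
      rw [h7, (bf_sb hs).zero_l]
    · have h7 : ip D y y ≤ ip D y (opE H D y) := by
        by_contra hcc
        rw [not_le] at hcc
        have := mul_lt_mul_of_pos_right hcc h6
        nlinarith
      rw [ip_E hD] at h7
      linarith
  -- the general case
  have hbf := bf_sb hs
  have hααb : 0 < bf H α α := by
    rw [← hipα]
    exact hαα
  have h1 := hneg (bf H α α • x - bf H x α • α) (by
    rw [hipα, hbf.sub_l, hbf.smul, hbf.smul]
    ring)
  rw [hbf.sq] at h1
  have h2 : bf H α α ^ 2 * bf H x x - 2 * bf H α α * bf H x α * bf H x α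
      + bf H x α ^ 2 * bf H α α = bf H α α * (bf H x x * bf H α α - bf H x α ^ 2) := by ring
  rw [h2] at h1
  by_contra hcc
  rw [not_le] at hcc
  have := mul_pos hααb (show 0 < bf H x x * bf H α α - bf H x α ^ 2 by linarith)
  linarith

end main

end PER

end Pool.Agent.QPR
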