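import Pool.Agent.QPR.HRDiv

/-!
# Degree-one Hodge index inequality, part 4: the induction (helper86)
-/

set_option autoImplicit false

open Finset Filter Topology

namespace Pool.Agent.QPR

variable {V : Type} [Fintype V] [DecidableEq V] {C : Cx V} {w : Finset V → ℝ}

/-- The vertices of the link. -/
abbrev Lk (C : Cx V) (ρ : Finset V) : Type := {v : V // v ∉ ρ ∧ C.F (insert v ρ)}

noncomputable instance (C : Cx V) (ρ : Finset V) : Fintype (Lk C ρ) := Fintype.ofFinite _

/-- A sum over the complement is a sum over the link. -/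
lemma sum_lk (C : Cx V) (ρ : Finset V) (g : V → ℝ) (hg : ∀ v, v ∉ ρ → ¬ C.F (insert v ρ) → g v = 0) :
    ∑ v ∈ ρᶜ, g v = ∑ v : Lk C ρ, g v := by
  classical
  have h1 : ∑ v ∈ ρᶜ, g v = ∑ v ∈ univ.filter (fun v => v ∉ ρ ∧ C.F (insert v ρ)), g v := by
    symm
    refine sum_subset ?_ ?_
    · intro v hv
      exact mem_compl.2 (mem_filter.1 hv).2.1
    · intro v hv hv'
      rw [mem_compl] at hv
      refine hg v hv fun hF => hv' ?_
      exact mem_filter.2 ⟨mem_univ v, hv, hF⟩
  rw [h1]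
  refine (sum_subtype _ ?_ g)
  intro v
  rw [mem_filter]
  exact ⟨fun h => h.2, fun h => ⟨mem_univ v, h⟩⟩

section
variable {ρ : Finset V}

lemma vanish_sum (hw : Wt C w) (h : C.F ρ) {f : V → ℝ} (hf : ∀ u ∈ ρ, f u = 0) :
    dv C f w ρ = ∑ v : Lk C ρ, f v * w (insert v.1 ρ) := by
  rw [dv_vanish hw h hf, sum_lk C ρ]
  · exact sum_congr rfl fun v _ => mul_comm _ _
  · intro v _ hF
    rw [hw.supp _ hF, zero_mul]

/-- The matrix of the quadratic form on the link. -/
noncomputable def HM (C : Cx V) (W : Finset V → ℝ) (ρ : Finset V) (u v : Lk C ρ) : ℝ :=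
  dv C (Pi.single u.1 1) (dv C (Pi.single v.1 1) W) ρ

lemma ap_HM {W : Finset V → ℝ} (hW : Wt C W) (h : C.F ρ) {f : V → ℝ} (hf : ∀ u ∈ ρ, f u = 0)
    (v : Lk C ρ) : PER.ap (HM C W ρ) (fun u => f u) v = dv C f W (insert v.1 ρ) := by
  rw [← dv_single (dv_wt hW f) v.2.1, dv_comm hW, vanish_sum (dv_wt hW _) h hf]
  unfold PER.ap HM
  refine sum_congr rfl fun u _ => ?_
  rw [dv_comm hW, dv_single (dv_wt hW _) u.2.1]
  ring

lemma bf_HM {W : Finset V → ℝ} (hW : Wt C W) (h : C.F ρ) {f g : V → ℝ} (hf : ∀ u ∈ ρ, f u = 0)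
    (hg : ∀ u ∈ ρ, g u = 0) : PER.bf (HM C W ρ) (fun u => f u) (fun u => g u)
      = dv C f (dv C g W) ρ := by
  rw [vanish_sum (dv_wt hW g) h hf]
  unfold PER.bf
  refine sum_congr rfl fun u _ => ?_
  rw [ap_HM hW h hg]

/-- The extension by zero. -/
noncomputable def ext0 (C : Cx V) (ρ : Finset V) (x : Lk C ρ → ℝ) : V → ℝ := fun v =>
  open Classical in if h : v ∉ ρ ∧ C.F (insert v ρ) then x ⟨v, h⟩ else 0

lemma ext0_lk (x : Lk C ρ → ℝ) (v : Lk C ρ) : ext0 C ρ x v.1 = x v := by
  unfold ext0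
  rw [dif_pos v.2]

lemma ext0_ρ (x : Lk C ρ → ℝ) : ∀ u ∈ ρ, ext0 C ρ x u = 0 := by
  intro u hu
  unfold ext0
  rw [dif_neg]
  exact fun h => h.1 hu

end

/-- The induction step (trickle down). -/
theorem step {n : ℕ} (ht : Top C n w) (hcon : LinkConn C n) {a : V → ℝ} (ha : Amp C a)
    (A : List (V → ℝ)) (hA : ∀ b ∈ A, Amp C b) {ρ : Finset V} (h : C.F ρ)
    (hn : ρ.card + 3 + A.length = n)
    (IH : ∀ v, v ∉ ρ → C.F (insert v ρ) → ∀ x : V → ℝ,
      dv C x (dv C x (it C A w)) (insert v ρ) * dv C a (dv C a (it C A w)) (insert v ρ) ≤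
        dv C x (dv C a (it C A w)) (insert v ρ) ^ 2) (x : V → ℝ) :
    dv C x (dv C x (it C (a :: A) w)) ρ * dv C a (dv C a (it C (a :: A) w)) ρ ≤
      dv C x (dv C a (it C (a :: A) w)) ρ ^ 2 := by
  obtain ⟨l, hl, hla, hlt⟩ := ha ρ h
  have hW' : Wt C (it C A w) := it_wt ht.wt A
  have hW : Wt C (it C (a :: A) w) := it_wt ht.wt (a :: A)
  have hWW : it C (a :: A) w = dv C a (it C A w) := rfl
  have haA : ∀ b ∈ a :: A, Amp C b := by
    intro b hb
    rcases List.mem_cons.1 hb with h1 | h1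
    · rw [h1]
      exact ha
    · exact hA b h1
  have haaA : ∀ b ∈ a :: a :: A, Amp C b := by
    intro b hb
    rcases List.mem_cons.1 hb with h1 | h1
    · rw [h1]
      exact ha
    · exact haA b h1
  have hα0 : ∀ u ∈ ρ, (a - l) u = 0 := fun u hu => by
    rw [Pi.sub_apply, hla u hu, sub_self]
  have hαpos : ∀ v : Lk C ρ, 0 < (a - l) v.1 := fun v => by
    rw [Pi.sub_apply]
    linarith [hlt v.1 v.2.1 v.2.2]
  have hcard : ∀ v : Lk C ρ, (insert v.1 ρ).card = ρ.card + 1 := fun v =>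
    card_insert_of_notMem v.2.1
  -- positivity of the off diagonal entries
  have hoff : ∀ u v : Lk C ρ, u ≠ v → HM C (it C (a :: A) w) ρ u v =
      it C (a :: A) w (insert v.1 (insert u.1 ρ)) := by
    intro u v huv
    unfold HM
    rw [dv_single (dv_wt hW _) u.2.1, dv_single hW]
    rw [mem_insert, not_or]
    exact ⟨fun h1 => huv (Subtype.ext h1.symm), v.2.1⟩
  have hoffpos : ∀ u v : Lk C ρ, u ≠ v → C.F (insert v.1 (insert u.1 ρ)) →
      0 < HM C (it C (a :: A) w) ρ u v := by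
    intro u v huv hF
    rw [hoff u v huv]
    refine it_pos ht (a :: A) haA hF ?_
    rw [card_insert_of_notMem, hcard u]
    · simp only [List.length_cons]
      omega
    · rw [mem_insert, not_or]
      exact ⟨fun h1 => huv (Subtype.ext h1.symm), v.2.1⟩
  have hne : Nonempty (Lk C ρ) := by
    obtain ⟨σ, hσ, hρσ, hσn⟩ := ht.pure ρ h
    obtain ⟨v, hv, hvρ⟩ : ∃ v ∈ σ, v ∉ ρ := by
      by_contra hc
      push Not at hc
      have := card_le_card (fun v hv => hc v hv : σ ⊆ ρ)
      omega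
    exact ⟨⟨v, hvρ, C.down σ _ (insert_subset hv hρσ) hσ⟩⟩
  have hHα : ∀ v : Lk C ρ, PER.ap (HM C (it C (a :: A) w) ρ) (fun u => (a - l) u) v =
      dv C a (it C (a :: A) w) (insert v.1 ρ) := by
    intro v
    rw [ap_HM hW h hα0, dv_sub_lin hW hl]
  have hHαpos : ∀ v : Lk C ρ, 0 < PER.ap (HM C (it C (a :: A) w) ρ) (fun u => (a - l) u) v := by
    intro v
    rw [hHα]
    refine it_pos ht (a :: a :: A) haaA v.2.2 ?_
    rw [hcard v]
    simp only [List.length_cons]
    omega
  have key := PER.per (H := HM C (it C (a :: A) w) ρ) (α := fun u => (a - l) u.1)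
    (fun u v => by
      unfold HM
      rw [dv_comm hW])
    (fun u v huv => by
      rw [hoff u v huv]
      by_cases hF : C.F (insert v.1 (insert u.1 ρ))
      · rw [← hoff u v huv]
        exact (hoffpos u v huv hF).le
      · rw [hW.supp _ hF])
    (fun z hz => by
      intro u v
      have h1 := hcon ρ h (by omega) (ext0 C ρ z) (by
        intro u v hu hv huv hF
        have hFv : C.F (insert v ρ) := C.down _ _ (subset_insert _ _) hF
        have hFu : C.F (insert u ρ) := by
          rw [insert_comm] at hF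
          exact C.down _ _ (subset_insert _ _) hF
        have h2 := hz ⟨u, hu, hFu⟩ ⟨v, hv, hFv⟩ (fun h3 => huv (congrArg Subtype.val h3))
          (hoffpos ⟨u, hu, hFu⟩ ⟨v, hv, hFv⟩ (fun h3 => huv (congrArg Subtype.val h3)) (by
            rw [insert_comm]
            exact hF)).ne'
        have e1 := ext0_lk z ⟨u, hu, hFu⟩
        have e2 := ext0_lk z ⟨v, hv, hFv⟩
        simp only at e1 e2
        rw [e1, e2, h2]) u.1 v.1 u.2.1 v.2.1 u.2.2 v.2.2
      rw [ext0_lk, ext0_lk] at h1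
      exact h1)
    hαpos hHαpos
    (fun y => by
      -- the trickle down inequality
      have hf0 := ext0_ρ (C := C) (ρ := ρ) y
      have hfy : (fun u : Lk C ρ => ext0 C ρ y u.1) = y := by
        funext u
        exact ext0_lk y u
      have e1 : PER.bf (HM C (it C (a :: A) w) ρ) y y
          = ∑ v : Lk C ρ, (a - l) v.1 *
            dv C (ext0 C ρ y) (dv C (ext0 C ρ y) (it C A w)) (insert v.1 ρ) := by
        have e2 := bf_HM hW h hf0 hf0
        rw [hfy] at e2
        rw [e2, hWW, dv_comm hW' (ext0 C ρ y) a, dv_comm (dv_wt hW' _) (ext0 C ρ y) a,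
          ← dv_sub_lin (dv_wt (dv_wt hW' _) _) hl a,
          vanish_sum (dv_wt (dv_wt hW' _) _) h hα0]
      rw [e1]
      refine sum_le_sum fun v _ => ?_
      have e3 := IH v.1 v.2.1 v.2.2 (ext0 C ρ y)
      have e4 : PER.ap (HM C (it C (a :: A) w) ρ) y v
          = dv C (ext0 C ρ y) (dv C a (it C A w)) (insert v.1 ρ) := by
        have e5 := ap_HM hW h hf0 v
        rw [hfy] at e5
        exact e5
      have e6 : PER.ap (HM C (it C (a :: A) w) ρ) (fun u => (a - l) u.1) v
          = dv C a (dv C a (it C A w)) (insert v.1 ρ) := hHα v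
      have e7 := hHαpos v
      rw [e6] at e7
      show (a - l) v.1 * _ ≤ (a - l) v.1 * PER.ap (HM C (it C (a :: A) w) ρ) y v ^ 2
        / PER.ap (HM C (it C (a :: A) w) ρ) (fun u => (a - l) u.1) v
      rw [e4, e6, mul_div_assoc]
      refine mul_le_mul_of_nonneg_left ?_ (hαpos v).le
      rw [le_div_iff₀ e7]
      exact e3)
  -- the conclusion for all `x`
  obtain ⟨k, hk, hkx⟩ := C.sep ρ h x
  have hx0 : ∀ u ∈ ρ, (x - k) u = 0 := fun u hu => by
    rw [Pi.sub_apply, hkx u hu, sub_self]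
  have h1 := key (fun u => (x - k) u.1)
  have e1 := bf_HM hW h hx0 hx0
  have e2 := bf_HM hW h hα0 hα0
  have e3 := bf_HM hW h hx0 hα0
  rw [e1, e2, e3, dv_sub_lin hW hk, dv_sub_lin hW hl, dv_sub_lin (dv_wt hW x) hk,
    dv_sub_lin (dv_wt hW a) hl, dv_sub_lin (dv_wt hW a) hk] at h1
  exact h1

/-- The inequality for ample classes. -/
theorem amp_hr {n : ℕ} (ht : Top C n w) (hcon : LinkConn C n) (hq : LinkQuad C n w)
    (A : List (V → ℝ)) (hA : ∀ a ∈ A, Amp C a) {ρ : Finset V} (h : C.F ρ)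
    (hn : ρ.card + 2 + A.length = n) {y : V → ℝ} (hy : Amp C y) (x : V → ℝ) :
    dv C x (dv C x (it C A w)) ρ * dv C y (dv C y (it C A w)) ρ ≤
      dv C x (dv C y (it C A w)) ρ ^ 2 := by
  induction A generalizing ρ x y with
  | nil =>
    have hl : ρ.card + 2 = n := by simpa using hn
    obtain ⟨z, hz, hz'⟩ := hq ρ h hl
    have hsb := dv_sb ht.wt ρ
    have hyy : 0 < dv C y (dv C y w) ρ :=
      it_pos ht [y, y] (by
        intro b hb
        simp only [List.mem_cons, List.not_mem_nil, or_false, or_self] at hb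
        rw [hb]
        exact hy) h (by simpa using hl)
    exact hsb.lor hz hz' x y hyy.le
  | cons a A ih =>
    have hAA : ∀ b ∈ A, Amp C b := fun b hb => hA b (List.mem_cons_of_mem a hb)
    have haa : Amp C a := hA a List.mem_cons_self
    have hlen : ρ.card + 2 + (A.length + 1) = n := by simpa using hn
    have h1 := step ht hcon haa A hAA h (by omega) (fun v hv hF x => by
      refine ih hAA hF ?_ haa x
      rw [card_insert_of_notMem hv]
      omega)
    have hW : Wt C (it C (a :: A) w) := it_wt ht.wt (a :: A)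
    have hsb := dv_sb hW ρ
    have hpos : ∀ z, Amp C z → 0 < dv C z (dv C z (it C (a :: A) w)) ρ := by
      intro z hz
      refine it_pos ht (z :: z :: a :: A) ?_ h ?_
      · intro b hb
        rcases List.mem_cons.1 hb with h2 | h2
        · rw [h2]
          exact hz
        · rcases List.mem_cons.1 h2 with h3 | h3
          · rw [h3]
            exact hz
          · exact hA b h3
      · simp only [List.length_cons]
        omega
    exact hsb.lor (hpos a haa) h1 x y (hpos y hy).le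

lemma nef_amp {c a : V → ℝ} (hc : Nef C c) (ha : Amp C a) {ε : ℝ} (hε : 0 < ε) :
    Amp C (c + ε • a) := by
  intro ρ h
  obtain ⟨l, hl, hlc, hlt⟩ := hc ρ h
  obtain ⟨k, hk, hka, hkt⟩ := ha ρ h
  refine ⟨l + ε • k, C.L.add_mem hl (C.L.smul_mem ε hk), fun u hu => ?_, fun v hv hF => ?_⟩
  · rw [Pi.add_apply, Pi.add_apply, Pi.smul_apply, Pi.smul_apply, hlc u hu, hka u hu]
  · rw [Pi.add_apply, Pi.add_apply, Pi.smul_apply, Pi.smul_apply, smul_eq_mul, smul_eq_mul]
    have h1 := hlt v hv hF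
    have h2 := mul_lt_mul_of_pos_left (hkt v hv hF) hε
    linarith

lemma cont_dv {W : ℝ → Finset V → ℝ} (f : V → ℝ) (hW : ∀ ρ, Continuous fun ε => W ε ρ)
    (ρ : Finset V) : Continuous fun ε => dv C f (W ε) ρ := by
  unfold dv
  exact continuous_finsetSum _ fun v _ => (hW _).mul continuous_const

lemma cont_dv' {W : ℝ → Finset V → ℝ} (hw : ∀ ε, Wt C (W ε)) (c a : V → ℝ)
    (hW : ∀ ρ, Continuous fun ε => W ε ρ)
    (ρ : Finset V) : Continuous fun ε => dv C (c + ε • a) (W ε) ρ := by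
  have e : (fun ε : ℝ => dv C (c + ε • a) (W ε) ρ)
      = fun ε => dv C c (W ε) ρ + ε * dv C a (W ε) ρ := by
    funext ε
    rw [dv_add (hw ε), dv_smul (hw ε), Pi.add_apply, Pi.smul_apply, smul_eq_mul]
  rw [e]
  exact (cont_dv c hW ρ).add (continuous_id.mul (cont_dv a hW ρ))

lemma cont_it (hw : Wt C w) (c a : V → ℝ) (N : ℕ) (ρ : Finset V) :
    Continuous fun ε : ℝ => it C (List.replicate N (c + ε • a)) w ρ := by
  induction N generalizing ρ with
  | zero => exact continuous_const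
  | succ N ih =>
    exact cont_dv' (W := fun ε => it C (List.replicate N (c + ε • a)) w)
      (fun ε => it_wt hw _) c a ih ρ

theorem t_HR : Stmt_HR := by
  intro V _ _ C n N w a₀ ht hcon hq ha₀ hnN c hc x
  have hwε : ∀ ε : ℝ, Wt C (it C (List.replicate N (c + ε • a₀)) w) := fun ε => it_wt ht.wt _
  have hcW := cont_it ht.wt c a₀ N
  have c1 : Continuous fun ε : ℝ =>
      dv C x (dv C x (it C (List.replicate N (c + ε • a₀)) w)) ∅ :=
    cont_dv x (cont_dv x hcW) ∅
  have c2 : Continuous fun ε : ℝ => dv C (c + ε • a₀) (dv C (c + ε • a₀)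
      (it C (List.replicate N (c + ε • a₀)) w)) ∅ :=
    cont_dv' (fun ε => dv_wt (hwε ε) _) c a₀ (cont_dv' hwε c a₀ hcW) ∅
  have c3 : Continuous fun ε : ℝ => dv C x (dv C (c + ε • a₀)
      (it C (List.replicate N (c + ε • a₀)) w)) ∅ :=
    cont_dv x (cont_dv' hwε c a₀ hcW) ∅
  have t1 : Tendsto (fun ε : ℝ =>
      dv C x (dv C x (it C (List.replicate N (c + ε • a₀)) w)) ∅ *
        dv C (c + ε • a₀) (dv C (c + ε • a₀)
          (it C (List.replicate N (c + ε • a₀)) w)) ∅) (𝓝[>] 0)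
      (𝓝 (dv C x (dv C x (it C (List.replicate N c) w)) ∅ *
        dv C c (dv C c (it C (List.replicate N c) w)) ∅)) := by
    have := ((c1.mul c2).tendsto 0).mono_left (nhdsWithin_le_nhds (s := Set.Ioi 0))
    simp only [Pi.mul_apply, zero_smul, add_zero] at this
    exact this
  have t2 : Tendsto (fun ε : ℝ => dv C x (dv C (c + ε • a₀)
      (it C (List.replicate N (c + ε • a₀)) w)) ∅ ^ 2) (𝓝[>] 0)
      (𝓝 (dv C x (dv C c (it C (List.replicate N c) w)) ∅ ^ 2)) := by
    have := ((c3.pow 2).tendsto 0).mono_left (nhdsWithin_le_nhds (s := Set.Ioi 0))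
    simp only [Pi.pow_apply, zero_smul, add_zero] at this
    exact this
  refine le_of_tendsto_of_tendsto t1 t2 ?_
  filter_upwards [self_mem_nhdsWithin] with ε hε
  have hamp := nef_amp hc ha₀ (show (0 : ℝ) < ε from hε)
  refine amp_hr ht hcon hq _ (fun b hb => ?_) C.empty ?_ hamp x
  · rw [List.eq_of_mem_replicate hb]
    exact hamp
  · rw [List.length_replicate, card_empty]
    omega

end Pool.Agent.QPR
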