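import Pool.Agent.QPR.Params

/-!
# The scheme at the interior points of `[0, 1)²`, from the Poincare inequality
-/

set_option autoImplicit false

namespace Pool.Agent.QPR

open Pool.Agent.PT Pool.Agent.TutteHard Pool.Agent.TutteEq Finset Real

theorem MChain.Poinc.mono {σ G : Type} [Fintype G] {M : MChain σ G} {K K' : ℝ}
    (h : M.Poinc K) (hK : K ≤ K') : M.Poinc K' := by
  intro f
  refine (h f).trans ?_
  have h1 : 0 ≤ M.W0 := Finset.sum_nonneg fun s _ => M.w_nonneg s
  have h2 : 0 ≤ M.En f := by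
    unfold MChain.En
    apply mul_nonneg (by positivity)
    apply Finset.sum_nonneg
    intro g _
    apply Finset.sum_nonneg
    intro s _
    exact mul_nonneg (M.m_nonneg g s) (sq_nonneg _)
  have h3 := mul_le_mul_of_nonneg_right hK (mul_nonneg h1 h2)
  nlinarith

/-- the length of the list of remaining edges -/
theorem length_rounds (lx ly lz X1 X2 Y1 Y2 : ℕ) (P : Par) (n0 : U) (L : List (List Bool)) :
    ∀ s : RS, (L.foldl (rsP lx ly lz X1 X2 Y1 Y2 P n0) s).1.1.length = s.1.1.length - L.length := by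
  induction L with
  | nil => intro s; simp
  | cons u L ih =>
    intro s
    rw [List.foldl_cons, ih, List.length_cons]
    have h : (rsP lx ly lz X1 X2 Y1 Y2 P n0 s u).1.1.length = s.1.1.length - 1 := by
      rw [rsP_eq]
      split_ifs with h1
      · rw [List.isEmpty_iff] at h1
        rw [h1]
        rfl
      · simp only [List.length_tail]
      · simp only [List.length_tail]
      · simp only [List.length_tail]
      · simp only [List.length_tail]
    rw [h]
    omega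

theorem length_chunk (b t : ℕ) (r : List Bool) : (chunk b t r).length = t := by
  induction t generalizing r with
  | zero => rfl
  | succ t ih => rw [chunk, List.length_cons, ih]

theorem rat_parts {x : ℚ} (hx : 0 < x) : (x : ℝ) = (x.num.toNat : ℝ) / (x.den : ℝ) := by
  have h1 : ((x.num.toNat : ℕ) : ℤ) = x.num := Int.toNat_of_nonneg (Rat.num_nonneg.2 hx.le)
  have h2 : ((x.num.toNat : ℕ) : ℝ) = (x.num : ℝ) := by exact_mod_cast h1
  rw [h2]
  exact Rat.cast_def x

/-- from the state of the last round to the output -/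
theorem output_ok {x y : ℝ} {G : MGraph} {e : List Bool} {s : RS} {t : ℝ}
    (hT : 0 < tutte G x y) (hR : s.1.1 = [])
    (ht : t ≤ 1 / ((e.length : ℝ) + 2) / 3) (h : Within t (tutte G x y) (val x y s)) :
    Approx x y G e (fpras_round s.2.1 s.2.2 e.length) := by
  have hval : val x y s = (s.2.1 : ℝ) / s.2.2 := by
    unfold val
    rw [hR, List.toFinset_nil, TT_empty, mul_one]
  rw [hval] at h
  obtain ⟨h1, h2⟩ := h
  have hpos : 0 < (s.2.1 : ℝ) / s.2.2 := lt_of_lt_of_le (mul_pos (exp_pos _) hT) h1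
  have hn : 0 < s.2.1 := by
    rcases Nat.eq_zero_or_pos s.2.1 with h0 | h0
    · rw [h0] at hpos
      simp at hpos
    · exact h0
  have hd : 0 < s.2.2 := by
    rcases Nat.eq_zero_or_pos s.2.2 with h0 | h0
    · rw [h0] at hpos
      simp at hpos
    · exact h0
  obtain ⟨h3, h4⟩ := fpras_round_spec hn hd e.length
  obtain ⟨ε, hε⟩ : ∃ ε : ℝ, ε = 1 / ((e.length : ℝ) + 2) := ⟨_, rfl⟩
  have hε0 : 0 < ε := by rw [hε]; positivity
  unfold Approx
  rw [← hε] at h3 h4 ht ⊢
  rw [Set.mem_uIcc]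
  left
  constructor
  · refine le_trans ?_ h3
    calc exp (-ε) * tutte G x y ≤ exp (-(ε / 3) + -t) * tutte G x y := by
          apply mul_le_mul_of_nonneg_right _ hT.le
          apply exp_le_exp.2
          linarith
      _ = exp (-(ε / 3)) * (exp (-t) * tutte G x y) := by rw [exp_add]; ring
      _ ≤ _ := mul_le_mul_of_nonneg_left h1 (exp_pos _).le
  · refine le_trans h4 ?_
    calc exp (ε / 3) * ((s.2.1 : ℝ) / s.2.2) ≤ exp (ε / 3) * (exp t * tutte G x y) :=
          mul_le_mul_of_nonneg_left h2 (exp_pos _).le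
      _ = exp (ε / 3 + t) * tutte G x y := by rw [exp_add]; ring
      _ ≤ exp ε * tutte G x y := by
          apply mul_le_mul_of_nonneg_right _ hT.le
          apply exp_le_exp.2
          linarith

theorem KOf_ge {c n l : ℕ} {R : ℕ} (hR : R ≤ n) (hl : l = Nat.size n) :
    (2 : ℝ) ^ (c * (Nat.log 2 R + 1) ^ 2) * 2 * 2 ^ l ≤ (KOf c n : ℝ) := by
  have h1 : 2 ^ (c * (Nat.log 2 R + 1) ^ 2) * 2 * 2 ^ l ≤ KOf c n := by
    unfold KOf
    rw [hl]
    apply Nat.mul_le_mul_right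
    apply Nat.mul_le_mul_right
    apply Nat.pow_le_pow_right (by norm_num)
    apply Nat.mul_le_mul_left
    apply Nat.pow_le_pow_left
    have := Nat.log_mono_right (b := 2) hR
    omega
  exact_mod_cast h1

/-- **the scheme at the interior points** -/
theorem qp_interior (hP : Stmt_P) (x y : ℚ) (hx : 0 < x) (hx1 : x < 1) (hy : 0 < y)
    (hy1 : y < 1) : QP (x : ℝ) (y : ℝ) := by
  have hxR : (0 : ℝ) < (x : ℝ) := by exact_mod_cast hx
  have hyR : (0 : ℝ) < (y : ℝ) := by exact_mod_cast hy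
  have hx1R : (x : ℝ) < 1 := by exact_mod_cast hx1
  have hy1R : (y : ℝ) < 1 := by exact_mod_cast hy1
  obtain ⟨c, hc⟩ := poinc_of_stmt hP hxR hx1R hyR hy1R
  obtain ⟨μ, hμd⟩ : ∃ μ : ℝ, μ = min (x : ℝ) (y : ℝ) := ⟨_, rfl⟩
  have hμ : 0 < μ := by rw [hμd]; exact lt_min hxR hyR
  have hμx : μ ≤ x := by rw [hμd]; exact min_le_left _ _
  have hμy : μ ≤ y := by rw [hμd]; exact min_le_right _ _
  have hμ1 : μ ≤ 1 := hμx.trans hx1R.le
  obtain ⟨M, hM⟩ : ∃ M : ℕ, 1 / μ ≤ M := ⟨_, Nat.le_ceil _⟩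
  obtain ⟨c', hc'⟩ := steps_enough c M
  obtain ⟨X1, hX1⟩ : ∃ X1, X1 = x.num.toNat := ⟨_, rfl⟩
  obtain ⟨X2, hX2⟩ : ∃ X2, X2 = x.den := ⟨_, rfl⟩
  obtain ⟨Y1, hY1⟩ : ∃ Y1, Y1 = y.num.toNat := ⟨_, rfl⟩
  obtain ⟨Y2, hY2⟩ : ∃ Y2, Y2 = y.den := ⟨_, rfl⟩
  have hX : (x : ℝ) = (X1 : ℝ) / X2 := by rw [hX1, hX2]; exact rat_parts hx
  have hY : (y : ℝ) = (Y1 : ℝ) / Y2 := by rw [hY1, hY2]; exact rat_parts hy
  have hX2p : 0 < X2 := by rw [hX2]; exact x.den_pos
  have hY2p : 0 < Y2 := by rw [hY2]; exact y.den_pos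
  refine ⟨algA X1 X2 Y1 Y2, c', pt_algA X1 X2 Y1 Y2, fun G e m hm => ?_⟩
  obtain ⟨n, hn⟩ : ∃ n, n = G.length := ⟨_, rfl⟩
  obtain ⟨a, ha⟩ : ∃ a, a = e.length + 2 := ⟨_, rfl⟩
  have ha2 : 2 ≤ a := by omega
  have haR : (2 : ℝ) ≤ a := by exact_mod_cast ha2
  have hns : n ≤ size G := by rw [hn]; exact length_le_enc G
  rw [← ha] at hm
  have ht := hc' (size G) n a m hns ha2 hm
  obtain ⟨θ, hθd⟩ : ∃ θ : ℝ, θ = 1 / (3 * (n + 1) * a) := ⟨_, rfl⟩
  obtain ⟨η, hηd⟩ : ∃ η : ℝ, η = 1 / (4 * (n + 1)) := ⟨_, rfl⟩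
  have hn0 : (0 : ℝ) ≤ n := Nat.cast_nonneg n
  have hθ : 0 < θ := by rw [hθd]; positivity
  have hη : 0 < η := by rw [hηd]; positivity
  have hθ1 : θ ≤ 1 := by
    rw [hθd, div_le_one (by positivity)]
    nlinarith
  have hNpos : 0 < NOf n a := NOf_pos n a (by omega)
  have hK1 : (1 : ℝ) ≤ KOf c n := by exact_mod_cast KOf_pos c n
  have hcard : n ≤ 2 ^ Nat.size n := (Nat.lt_size_self n).le
  have hcnt : CntOK (cntL (X1 * Y2) (Y1 * X2) (X2 * Y2) (Nat.size n) (kOf n a m) (tOf n a m)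
      (NOf n a)) (NOf n a) x y θ η (NOf n a * (tOf n a m * (1 + (2 + Nat.size n) + kOf n a m)))
      n := by
    refine cntOK (X1 := X1) (X2 := X2) (Y1 := Y1) (Y2 := Y2) hX2p hY2p hX hY hμ hμ1 hμx hμy
      hx1R.le hy1R.le (K := (KOf c n : ℝ)) hK1 hθ (Nat.size n) (kOf n a m) (tOf n a m) (NOf n a) n
      hNpos ?_ ?_ ?_
    · intro C R hCR hR
      exact (hc LE grk grk_isRank C R hCR (Nat.size n) (hR.trans hcard)).mono (KOf_ge hR rfl)
    · intro n' h1 h2
      have e1 := coin_error n a m ha2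
      have e2 := mix_error hμ hμ1 hM c n a (tOf n a m) n' ha2 h2 ht
      have hn'0 : (0 : ℝ) < n' := by exact_mod_cast (show 0 < n' by omega)
      have hn'n : (n' : ℝ) ≤ (n : ℝ) + 1 := by
        have : (n' : ℝ) ≤ n := by exact_mod_cast h2
        linarith
      have e3 : 1 / (96 * ((n : ℝ) + 1) ^ 2 * a) + 1 / (96 * ((n : ℝ) + 1) ^ 2 * a) ≤
          θ / (16 * n') := by
        have e4 : 1 / (96 * ((n : ℝ) + 1) ^ 2 * a) + 1 / (96 * ((n : ℝ) + 1) ^ 2 * a) =
            1 / (48 * ((n : ℝ) + 1) * a * (n + 1)) := by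
          field_simp
          norm_num
        have e5 : θ / (16 * n') = 1 / (48 * ((n : ℝ) + 1) * a * n') := by
          rw [hθd]
          field_simp
          norm_num
        rw [e4, e5]
        apply one_div_le_one_div_of_le (by positivity)
        exact mul_le_mul_of_nonneg_left hn'n (by positivity)
      linarith
    · intro n' h1 h2
      rw [hθd, hηd]
      exact cheb_error n a n' ha2 h1 h2
  have hrounds := rounds hxR hx1R.le hyR hy1R.le hθ hθ1 hη.le hX hY hNpos hcnt n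
    ((lab G, []), (1, 1)) (lab_nodup G) (by rw [length_lab, hn]) (fun a ha _ => by
      simp at ha)
  have hval0 : val (x : ℝ) (y : ℝ) ((lab G, []), (1, 1)) = tutte G (x : ℝ) (y : ℝ) := by
    rw [tutte_eq_TT]
    unfold val
    simp
  rw [hval0] at hrounds
  have hTpos : 0 < tutte G (x : ℝ) (y : ℝ) := by
    rw [tutte_eq_TT]
    exact lt_of_lt_of_le (by positivity) (TT_bounds grk_isRank hμ hμ1 hμx hx1R.le hμy hy1R.le
      (lab G).toFinset ∅).1
  have hnθ : (n : ℝ) * θ ≤ 1 / ((e.length : ℝ) + 2) / 3 := by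
    have ha3 : (a : ℝ) = (e.length : ℝ) + 2 := by rw [ha]; push_cast; ring
    rw [← ha3, hθd, mul_one_div, div_div, div_le_div_iff₀ (by positivity) (by positivity)]
    nlinarith
  have hbad : Ex m (fun r => ind (¬ Approx (x : ℝ) (y : ℝ) G e
      (algA X1 X2 Y1 Y2 ((G, e), r)))) ≤ n * η := by
    refine le_trans ?_ hrounds
    rw [← Ex_chunk_le _ n m (by
      have := bits_used n a m
      exact this)]
    apply Ex_mono
    intro r hr
    apply ind_mono
    intro h1 h2
    apply h1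
    unfold algA
    simp only
    have hfin : finalS X1 X2 Y1 Y2 G (e.length + 2) r =
        (chunk (NOf n a * (tOf n a m * (1 + (2 + Nat.size n) + kOf n a m))) n r).foldl
          (roundStep (cntL (X1 * Y2) (Y1 * X2) (X2 * Y2) (Nat.size n) (kOf n a m) (tOf n a m)
            (NOf n a)) n (NOf n a) X1 X2 Y1 Y2) ((lab G, []), (1, 1)) := by
      unfold finalS
      rw [hr, ← hn, ← ha]
      rfl
    apply output_ok hTpos _ hnθ
    · rw [hfin]
      exact h2
    · rw [← List.length_eq_zero_iff]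
      unfold finalS
      rw [length_rounds, length_chunk]
      simp [length_lab]
  have h14 : (n : ℝ) * η ≤ 1 / 4 := by
    rw [hηd, mul_one_div, div_le_div_iff₀ (by positivity) (by positivity)]
    linarith
  rw [prob_eq]
  have hsplit : Ex m (fun r => ind (Approx (x : ℝ) (y : ℝ) G e (algA X1 X2 Y1 Y2 ((G, e), r)))) =
      1 - Ex m (fun r => ind (¬ Approx (x : ℝ) (y : ℝ) G e
        (algA X1 X2 Y1 Y2 ((G, e), r)))) := by
    have h1 : Ex m (fun r => ind (Approx (x : ℝ) (y : ℝ) G e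
          (algA X1 X2 Y1 Y2 ((G, e), r)))) =
        Ex m (fun r => 1 - ind (¬ Approx (x : ℝ) (y : ℝ) G e
          (algA X1 X2 Y1 Y2 ((G, e), r)))) := by
      apply Ex_congr
      intro r _
      rw [ind_not]
      ring
    rw [h1, Ex_sub, Ex_const]
  rw [hsplit]
  linarith

end Pool.Agent.QPR
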