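import Pool.Agent.TutteEq.Fpras
import Pool.Agent.QPR.Ex

/-!
# Quasi-polynomial randomised approximation schemes
-/

set_option autoImplicit false

namespace Pool.Agent.QPR

open Pool.Agent.PT Pool.Agent.TutteHard Pool.Agent.TutteEq Real

/-- the number of random bits for a graph of size `n` and accuracy `1 / a`:
`n ^ O(log n) * a ^ O(1)` -/
def qbits (c n a : ℕ) : ℕ := 2 ^ (c * (Nat.log 2 n + 1) ^ 2) * a ^ c

/-- `A` approximates `T(G; x, y)` with accuracy `1 / (|e| + 2)` -/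
def Approx (x y : ℝ) (G : MGraph) (e : List Bool) (a : ℚ) : Prop :=
  (a : ℝ) ∈ Set.uIcc (exp (-(1 / (e.length + 2))) * tutte G x y)
    (exp (1 / (e.length + 2)) * tutte G x y)

/-- scheme with `n ^ O(log n) poly(1 / ε)` random bits (or more) -/
def QP (x y : ℝ) : Prop :=
  ∃ (A : (MGraph × List Bool) × List Bool → ℚ) (c : ℕ), PT A ∧
    ∀ (G : MGraph) (e : List Bool) (m : ℕ), qbits c (size G) (e.length + 2) ≤ m →
      3 / 4 ≤ prob m (fun r => Approx x y G e (A ((G, e), r)))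

theorem poly_le_pow (Q : Polynomial ℕ) :
    ∃ d : ℕ, ∀ n : ℕ, Q.eval n ≤ 2 ^ (d * (Nat.log 2 n + 1)) := by
  induction Q using Polynomial.induction_on' with
  | add p q hp hq =>
    obtain ⟨d1, h1⟩ := hp
    obtain ⟨d2, h2⟩ := hq
    refine ⟨d1 + d2 + 1, fun n => ?_⟩
    rw [Polynomial.eval_add]
    have h3 := h1 n
    have h4 := h2 n
    have h5 : 2 ^ (d1 * (Nat.log 2 n + 1)) ≤ 2 ^ ((d1 + d2) * (Nat.log 2 n + 1)) :=
      Nat.pow_le_pow_right (by norm_num) (Nat.mul_le_mul_right _ (by omega))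
    have h6 : 2 ^ (d2 * (Nat.log 2 n + 1)) ≤ 2 ^ ((d1 + d2) * (Nat.log 2 n + 1)) :=
      Nat.pow_le_pow_right (by norm_num) (Nat.mul_le_mul_right _ (by omega))
    calc p.eval n + q.eval n ≤ 2 ^ ((d1 + d2) * (Nat.log 2 n + 1)) * 2 := by omega
      _ = 2 ^ ((d1 + d2) * (Nat.log 2 n + 1) + 1) := (pow_succ _ _).symm
      _ ≤ 2 ^ ((d1 + d2 + 1) * (Nat.log 2 n + 1)) := by
        apply Nat.pow_le_pow_right (by norm_num)
        rw [Nat.succ_mul]
        omega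
  | monomial k c =>
    refine ⟨c + k, fun n => ?_⟩
    rw [Polynomial.eval_monomial]
    have h1 : c ≤ 2 ^ (c * (Nat.log 2 n + 1)) := by
      calc c ≤ 2 ^ c := Nat.lt_two_pow_self.le
        _ ≤ _ := Nat.pow_le_pow_right (by norm_num) (Nat.le_mul_of_pos_right _ (Nat.succ_pos _))
    have h2 : n ^ k ≤ 2 ^ (k * (Nat.log 2 n + 1)) := by
      have h3 : n ≤ 2 ^ (Nat.log 2 n + 1) := (Nat.lt_pow_succ_log_self (by norm_num) n).le
      calc n ^ k ≤ (2 ^ (Nat.log 2 n + 1)) ^ k := Nat.pow_le_pow_left h3 k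
        _ = _ := by rw [← pow_mul, mul_comm]
    calc c * n ^ k ≤ 2 ^ (c * (Nat.log 2 n + 1)) * 2 ^ (k * (Nat.log 2 n + 1)) :=
          Nat.mul_le_mul h1 h2
      _ = _ := by rw [← pow_add, Nat.add_mul]

/-- `log (Q n) ≤ d (log n + 1)` -/
theorem log_poly (Q : Polynomial ℕ) :
    ∃ d : ℕ, ∀ n : ℕ, Nat.log 2 (Q.eval n) ≤ d * (Nat.log 2 n + 1) := by
  obtain ⟨d, hd⟩ := poly_le_pow Q
  refine ⟨d, fun n => ?_⟩
  calc Nat.log 2 (Q.eval n) ≤ Nat.log 2 (2 ^ (d * (Nat.log 2 n + 1))) := Nat.log_mono_right (hd n)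
    _ = _ := Nat.log_pow (by norm_num) _

end Pool.Agent.QPR
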