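import Pool.Agent.QPR.Alg

/-!
# The counts of the samples are right with high probability
-/

set_option autoImplicit false

namespace Pool.Agent.QPR

open Finset Real Pool.Agent.TutteEq

/-- scaling of the weights -/
theorem MChain.poinc_scale {σ G : Type} [Fintype G] (M M' : MChain σ G) (hΩ : M'.Ω = M.Ω)
    (hact : M'.act = M.act) {c : ℝ} (hc : 0 ≤ c) (hw : ∀ s ∈ M.Ω, M'.w s = c * M.w s) {K : ℝ}
    (hP : M.Poinc K) : M'.Poinc K := by
  intro f
  have h1 : ∑ s ∈ M'.Ω, ∑ s' ∈ M'.Ω, M'.w s * M'.w s' * (f s - f s') ^ 2 =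
      c ^ 2 * ∑ s ∈ M.Ω, ∑ s' ∈ M.Ω, M.w s * M.w s' * (f s - f s') ^ 2 := by
    rw [hΩ, Finset.mul_sum]
    apply Finset.sum_congr rfl
    intro s hs
    rw [Finset.mul_sum]
    apply Finset.sum_congr rfl
    intro s' hs'
    rw [hw s hs, hw s' hs']
    ring
  have h2 : M'.W0 = c * M.W0 := by
    unfold MChain.W0
    rw [hΩ, Finset.mul_sum]
    exact Finset.sum_congr rfl hw
  have h3 : M'.En f = c * M.En f := by
    unfold MChain.En
    rw [← mul_assoc, mul_comm c, mul_assoc]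
    congr 1
    rw [Finset.mul_sum]
    apply Finset.sum_congr rfl
    intro g _
    rw [hΩ, Finset.mul_sum]
    apply Finset.sum_congr rfl
    intro s hs
    unfold MChain.m
    rw [hact, hw s hs, hw _ (M.act_mem g s hs), ← mul_min_of_nonneg _ _ hc]
    ring
  rw [h1, h2, h3]
  have := mul_le_mul_of_nonneg_left (hP f) (sq_nonneg c)
  calc c ^ 2 * ∑ s ∈ M.Ω, ∑ s' ∈ M.Ω, M.w s * M.w s' * (f s - f s') ^ 2
      ≤ c ^ 2 * (2 * K * M.W0 * M.En f) := this
    _ = _ := by ring

section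

variable {X1 X2 Y1 Y2 : ℕ}

/-- the chain with integer weights -/
noncomputable def chW (X1 X2 Y1 Y2 : ℕ) (C : List LE) (R : Finset LE) (l : ℕ) :
    MChain (List (LE × Bool)) ((Bool × Bool) × Fin (2 ^ l)) where
  Ω := Hist R
  w := fun s => (wl (X1 * Y2) (Y1 * X2) (X2 * Y2) C s : ℝ)
  act := fun g h => actN g.1 g.2 h
  inv := fun g => g
  w_nonneg := fun s => Nat.cast_nonneg _
  act_mem := fun _ _ hs => actN_mem hs
  inv_inv := fun _ => rfl
  act_inv := fun g s _ => actN_actN g.1 g.2 s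

theorem chW_w (hX2 : 0 < X2) (hY2 : 0 < Y2) {C : List LE} {R : Finset LE} {l : ℕ}
    {s : List (LE × Bool)} (hs : s ∈ Hist R) :
    (chW X1 X2 Y1 Y2 C R l).w s = ((X2 : ℝ) * Y2) ^ R.card *
      hw grk ((X1 : ℝ) / X2) ((Y1 : ℝ) / Y2) 1 C.toFinset s := by
  change (wl (X1 * Y2) (Y1 * X2) (X2 * Y2) C s : ℝ) = _
  rw [wl_eq, hw_cast grk X1 X2 Y1 Y2 hX2 hY2, length_of_mem_Hist hs]

/-- one sample: the expectation of the indicator of the first element -/
theorem one_sample (hX2 : 0 < X2) (hY2 : 0 < Y2) {x y : ℝ} (hX : x = (X1 : ℝ) / X2)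
    (hY : y = (Y1 : ℝ) / Y2) {μ : ℝ} (hμ : 0 < μ) (hμ1 : μ ≤ 1) (hμx : μ ≤ x) (hμy : μ ≤ y)
    (hx1 : x ≤ 1) (hy1 : y ≤ 1) {K : ℝ} (hK : 1 ≤ K) (C R : List LE) (l k t : ℕ)
    (hR : R.Nodup)
    (hP : (chn grk (hμ.le.trans hμx) (hμ.le.trans hμy) zero_le_one C.toFinset R.toFinset
      l).Poinc K) (e : LE) (o : Bool) :
    |Ex (t * (1 + (2 + l) + k)) (fun u => if
        decide (((chunk (1 + (2 + l) + k) t u).foldl (simL (X1 * Y2) (Y1 * X2) (X2 * Y2) C l k)
          (startL C R)).head? = some (e, o)) then 1 else 0) -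
      (∑ h ∈ Hist R.toFinset, (if h.head? = some (e, o) then hw grk x y 1 C.toFinset h else 0)) /
        (R.length.factorial * TT grk x y C.toFinset R.toFinset)| ≤
      t * (1 / 2 ^ k) + sqrt (R.length.factorial * 2 ^ R.length / μ ^ R.length) *
        exp (-(t / (8 * K))) := by
  have hx : 0 ≤ x := hμ.le.trans hμx
  have hy : 0 ≤ y := hμ.le.trans hμy
  have hcard : R.toFinset.card = R.length := List.toFinset_card_of_nodup hR
  obtain ⟨z, hz⟩ : ∃ z : ℝ, z = ((X2 : ℝ) * Y2) ^ R.length := ⟨_, rfl⟩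
  have hz0 : 0 < z := by
    have h1 : (0 : ℝ) < X2 := by exact_mod_cast hX2
    have h2 : (0 : ℝ) < Y2 := by exact_mod_cast hY2
    rw [hz]
    positivity
  have hww : ∀ s ∈ Hist R.toFinset, (chW X1 X2 Y1 Y2 C R.toFinset l).w s =
      z * hw grk x y 1 C.toFinset s := by
    intro s hs
    rw [chW_w hX2 hY2 hs, hz, hcard, hX, hY]
  have hP' : (chW X1 X2 Y1 Y2 C R.toFinset l).Poinc K :=
    MChain.poinc_scale (chn grk hx hy zero_le_one C.toFinset R.toFinset l)
      (chW X1 X2 Y1 Y2 C R.toFinset l) rfl rfl hz0.le hww hP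
  obtain ⟨f, hf⟩ : ∃ f : List (LE × Bool) → ℝ,
      f = fun h => if decide (h.head? = some (e, o)) then 1 else 0 := ⟨_, rfl⟩
  have hf1 : ∀ h, 0 ≤ f h ∧ f h ≤ 1 := by
    intro h
    rw [hf]
    simp only
    split_ifs
    · exact ⟨zero_le_one, le_refl _⟩
    · exact ⟨le_refl _, zero_le_one⟩
  have hs0 : start grk C.toFinset R ∈ Hist R.toFinset := start_mem grk C.toFinset hR
  have hw0 : μ ^ R.length ≤ hw grk x y 1 C.toFinset (start grk C.toFinset R) :=
    start_weight hμ hμ1 hμx hμy R C.toFinset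
  have hw1 : 0 < hw grk x y 1 C.toFinset (start grk C.toFinset R) :=
    lt_of_lt_of_le (by positivity) hw0
  have hwpos : 0 < (chW X1 X2 Y1 Y2 C R.toFinset l).w (start grk C.toFinset R) := by
    rw [hww _ hs0]
    exact mul_pos hz0 hw1
  have hrun := sim_run (chW X1 X2 Y1 Y2 C R.toFinset l) (wl (X1 * Y2) (Y1 * X2) (X2 * Y2) C)
    (fun _ => rfl) (decM l) (2 + l) k (decM_uniform l) hK hP' (fun s _ => hf1 s) t hs0 hwpos
  have hsim : (sim (chW X1 X2 Y1 Y2 C R.toFinset l).act (wl (X1 * Y2) (Y1 * X2) (X2 * Y2) C)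
      (decM l) (2 + l) k) = simL (X1 * Y2) (Y1 * X2) (X2 * Y2) C l k := by
    funext h u
    rw [simL_eq]
    rfl
  rw [hsim] at hrun
  have e1 : ExB (1 + (2 + l) + k) t (fun b => f (b.foldl
      (simL (X1 * Y2) (Y1 * X2) (X2 * Y2) C l k) (start grk C.toFinset R))) =
      Ex (t * (1 + (2 + l) + k)) (fun u => if
        decide (((chunk (1 + (2 + l) + k) t u).foldl (simL (X1 * Y2) (Y1 * X2) (X2 * Y2) C l k)
          (startL C R)).head? = some (e, o)) then 1 else 0) := by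
    rw [← Ex_chunk, startL_eq, hf]
  rw [e1] at hrun
  have hsum := sum_hw grk_isRank x y R.toFinset.card C.toFinset R.toFinset rfl
  rw [hcard] at hsum
  have e2 : (chW X1 X2 Y1 Y2 C R.toFinset l).W0 =
      z * (R.length.factorial * TT grk x y C.toFinset R.toFinset) := by
    rw [← hsum, Finset.mul_sum]
    exact Finset.sum_congr rfl hww
  have e3 : ∑ s ∈ (chW X1 X2 Y1 Y2 C R.toFinset l).Ω, (chW X1 X2 Y1 Y2 C R.toFinset l).w s * f s =
      z * ∑ h ∈ Hist R.toFinset,
        (if h.head? = some (e, o) then hw grk x y 1 C.toFinset h else 0) := by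
    rw [Finset.mul_sum]
    apply Finset.sum_congr rfl
    intro s hs
    rw [hww s hs, hf]
    by_cases h : s.head? = some (e, o)
    · simp [h]
    · simp [h]
  have e4 : (∑ s ∈ (chW X1 X2 Y1 Y2 C R.toFinset l).Ω, (chW X1 X2 Y1 Y2 C R.toFinset l).w s * f s) /
      (chW X1 X2 Y1 Y2 C R.toFinset l).W0 = (∑ h ∈ Hist R.toFinset,
        (if h.head? = some (e, o) then hw grk x y 1 C.toFinset h else 0)) /
        (R.length.factorial * TT grk x y C.toFinset R.toFinset) := by
    rw [e3, e2, mul_div_mul_left _ _ hz0.ne']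
  rw [e4] at hrun
  refine hrun.trans ?_
  have hT : TT grk x y C.toFinset R.toFinset ≤ 2 ^ R.length := by
    have := (TT_bounds grk_isRank hμ hμ1 hμx hx1 hμy hy1 R.toFinset C.toFinset).2
    rwa [hcard] at this
  have e5 : (chW X1 X2 Y1 Y2 C R.toFinset l).W0 /
      (chW X1 X2 Y1 Y2 C R.toFinset l).w (start grk C.toFinset R) ≤
      R.length.factorial * 2 ^ R.length / μ ^ R.length := by
    rw [e2, hww _ hs0, mul_div_mul_left _ _ hz0.ne']
    apply div_le_div₀ (by positivity) _ (by positivity) hw0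
    exact mul_le_mul_of_nonneg_left hT (by positivity)
  have h6 : sqrt ((chW X1 X2 Y1 Y2 C R.toFinset l).W0 /
      (chW X1 X2 Y1 Y2 C R.toFinset l).w (start grk C.toFinset R)) * exp (-(t / (8 * K))) ≤
      sqrt (R.length.factorial * 2 ^ R.length / μ ^ R.length) * exp (-(t / (8 * K))) :=
    mul_le_mul_of_nonneg_right (sqrt_le_sqrt e5) (exp_pos _).le
  linarith

/-- **the counts** -/
theorem cntOK (hX2 : 0 < X2) (hY2 : 0 < Y2) {x y : ℝ} (hX : x = (X1 : ℝ) / X2)
    (hY : y = (Y1 : ℝ) / Y2) {μ : ℝ} (hμ : 0 < μ) (hμ1 : μ ≤ 1) (hμx : μ ≤ x) (hμy : μ ≤ y)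
    (hx1 : x ≤ 1) (hy1 : y ≤ 1) {K : ℝ} (hK : 1 ≤ K) {θ η : ℝ} (hθ : 0 < θ)
    (l k t N n0 : ℕ) (hN : 0 < N)
    (hP : ∀ C R : Finset LE, Disjoint C R → R.card ≤ n0 →
      (chn grk (hμ.le.trans hμx) (hμ.le.trans hμy) zero_le_one C R l).Poinc K)
    (hδ : ∀ n : ℕ, 1 ≤ n → n ≤ n0 → t * (1 / 2 ^ k) + sqrt (n.factorial * 2 ^ n / μ ^ n) *
        exp (-(t / (8 * K))) ≤ θ / (16 * n))
    (hη : ∀ n : ℕ, 1 ≤ n → n ≤ n0 → 2 * (1 / (4 * N * (θ / (16 * n)) ^ 2)) ≤ η) :
    CntOK (cntL (X1 * Y2) (Y1 * X2) (X2 * Y2) l k t N) N x y θ η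
      (N * (t * (1 + (2 + l) + k))) n0 := by
  intro C R e hR hn0 hdis h1 h2
  have heR : e ∉ R := (List.nodup_cons.1 hR).1
  have hcard : (e :: R).toFinset.card = R.length + 1 := by
    rw [List.toFinset_card_of_nodup hR, List.length_cons]
  have hdisF : Disjoint C.toFinset (e :: R).toFinset := by
    rw [Finset.disjoint_left]
    intro a ha hb
    rw [List.mem_toFinset] at ha hb
    exact hdis ha hb
  have hPR := hP C.toFinset (e :: R).toFinset hdisF (by rw [hcard]; exact hn0)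
  have hμT := (TT_bounds grk_isRank hμ hμ1 hμx hx1 hμy hy1 (e :: R).toFinset C.toFinset).1
  have hTpos : 0 < TT grk x y C.toFinset (e :: R).toFinset :=
    lt_of_lt_of_le (by positivity) hμT
  have herase : (e :: R).toFinset.erase e = R.toFinset := by
    rw [List.toFinset_cons, Finset.erase_insert]
    rw [List.mem_toFinset]
    exact heR
  have hfirst := sum_hw_first grk_isRank x y (C := C.toFinset) (R := (e :: R).toFinset) (e := e)
    (by simp) h1 (by rw [herase]; exact h2)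
  rw [herase, hcard, Nat.add_sub_cancel] at hfirst
  have hfac : ((R.length + 1).factorial : ℝ) = (R.length + 1) * R.length.factorial := by
    rw [Nat.factorial_succ]
    push_cast
    ring
  have hfpos : (0 : ℝ) < R.length.factorial := by exact_mod_cast Nat.factorial_pos _
  have hn1 : (0 : ℝ) < (R.length : ℝ) + 1 := by positivity
  -- the probabilities
  have hpp : ∀ (o : Bool) (T' : ℝ), ∑ h ∈ Hist (e :: R).toFinset,
      (if h.head? = some (e, o) then hw grk x y 1 C.toFinset h else 0) =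
        R.length.factorial * T' →
      (∑ h ∈ Hist (e :: R).toFinset,
        (if h.head? = some (e, o) then hw grk x y 1 C.toFinset h else 0)) /
        ((e :: R).length.factorial * TT grk x y C.toFinset (e :: R).toFinset) *
        ((R.length + 1) * TT grk x y C.toFinset (insert e R.toFinset)) = T' := by
    intro o T' h
    rw [h, List.length_cons, hfac, ← List.toFinset_cons]
    field_simp
  refine ⟨_, _, hpp true _ hfirst.1, hpp false _ hfirst.2, ?_⟩
  obtain ⟨ρ, hρ⟩ : ∃ ρ, ρ = θ / (16 * ((R.length + 1 : ℕ) : ℝ)) := ⟨_, rfl⟩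
  have hρ0 : 0 < ρ := by rw [hρ]; positivity
  have h8 : θ / (8 * ((R.length + 1 : ℕ) : ℝ)) = ρ + ρ := by
    rw [hρ]
    push_cast
    field_simp
    norm_num
  have hone : ∀ o : Bool, _ := fun o => one_sample (X1 := X1) (X2 := X2) (Y1 := Y1) (Y2 := Y2)
    hX2 hY2 hX hY hμ hμ1 hμx hμy hx1 hy1 hK C (e :: R) l k t hR hPR e o
  have hδ' := hδ (R.length + 1) (by omega) hn0
  rw [← hρ] at hδ'
  -- Chebyshev
  obtain ⟨X, hXd⟩ : ∃ X : Bool → List Bool → ℝ, X = fun o u => if
        decide (((chunk (1 + (2 + l) + k) t u).foldl (simL (X1 * Y2) (Y1 * X2) (X2 * Y2) C l k)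
          (startL C (e :: R))).head? = some (e, o)) then 1 else 0 := ⟨_, rfl⟩
  have hX01 : ∀ o u, X o u = 0 ∨ X o u = 1 := by
    intro o u
    rw [hXd]
    simp only
    split_ifs
    · right; rfl
    · left; rfl
  have hcnt : ∀ (o : Bool) (u : List Bool),
      (cntFirst e o (samples (X1 * Y2) (Y1 * X2) (X2 * Y2) l k t N C (e :: R) u) : ℝ) =
        ((chunk (t * (1 + (2 + l) + k)) N u).map (X o)).sum := by
    intro o u
    unfold cntFirst samples
    rw [← sum_countP, List.map_map, hXd]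
    rfl
  obtain ⟨p, hp⟩ : ∃ p : Bool → ℝ, p = fun o => (∑ h ∈ Hist (e :: R).toFinset,
        (if h.head? = some (e, o) then hw grk x y 1 C.toFinset h else 0)) /
        ((e :: R).length.factorial * TT grk x y C.toFinset (e :: R).toFinset) := ⟨_, rfl⟩
  have hmean : ∀ o, |Ex (t * (1 + (2 + l) + k)) (X o) - p o| ≤ ρ := by
    intro o
    rw [hXd, hp]
    refine (hone o).trans ?_
    rw [List.length_cons]
    exact hδ'
  have hcheb : ∀ o, Ex (N * (t * (1 + (2 + l) + k))) (fun u =>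
      ind (ρ ≤ |((chunk (t * (1 + (2 + l) + k)) N u).map (X o)).sum / N -
        Ex (t * (1 + (2 + l) + k)) (X o)|)) ≤ 1 / (4 * N * ρ ^ 2) := by
    intro o
    rw [Ex_chunk (t * (1 + (2 + l) + k)) N (fun b => ind (ρ ≤ |(b.map (X o)).sum / N -
        Ex (t * (1 + (2 + l) + k)) (X o)|))]
    exact chebyshev (hX01 o) hN hρ0
  have hη' := hη (R.length + 1) (by omega) hn0
  rw [← hρ] at hη'
  refine le_trans (Ex_mono (H := fun u =>
    ind (ρ ≤ |((chunk (t * (1 + (2 + l) + k)) N u).map (X true)).sum / N -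
        Ex (t * (1 + (2 + l) + k)) (X true)|) +
    ind (ρ ≤ |((chunk (t * (1 + (2 + l) + k)) N u).map (X false)).sum / N -
        Ex (t * (1 + (2 + l) + k)) (X false)|)) ?_) ?_
  · intro u _
    refine le_trans (ind_mono ?_) (ind_or_le _ _)
    intro hbad
    by_contra hgood
    rw [not_or, not_le, not_le] at hgood
    apply hbad
    have hc : ∀ o, |((chunk (t * (1 + (2 + l) + k)) N u).map (X o)).sum / N -
        Ex (t * (1 + (2 + l) + k)) (X o)| < ρ →
        |(cntFirst e o (samples (X1 * Y2) (Y1 * X2) (X2 * Y2) l k t N C (e :: R) u) : ℝ) / N -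
          p o| < θ / (8 * ((R.length + 1 : ℕ) : ℝ)) := by
      intro o ho
      rw [h8, hcnt]
      have h9 := abs_add_le (((chunk (t * (1 + (2 + l) + k)) N u).map (X o)).sum / N -
        Ex (t * (1 + (2 + l) + k)) (X o)) (Ex (t * (1 + (2 + l) + k)) (X o) - p o)
      rw [sub_add_sub_cancel] at h9
      have := hmean o
      linarith
    have g1 := hc true hgood.1
    have g2 := hc false hgood.2
    rw [hp] at g1 g2
    exact ⟨g1, g2⟩
  · rw [Ex_add]
    have := hcheb true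
    have := hcheb false
    linarith

end

end Pool.Agent.QPR
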