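import Pool.Agent.QPR.PTc
import Pool.Agent.QPR.Samples
import Pool.Agent.QPR.QDefs

/-!
# The algorithm
-/

set_option autoImplicit false

namespace Pool.Agent.QPR

open Pool.Agent.PT Pool.Agent.TutteHard Pool.Agent.TutteEq Finset

/-! ### labels -/

theorem lab_eq (G : MGraph) : lab G =
    ((List.range G.length).map fun i => List.replicate (G.length - 1 - i) true).zip G := by
  induction G with
  | nil => rfl
  | cons e G ih =>
    rw [lab, ih, List.length_cons, List.range_succ_eq_map, List.map_cons, List.map_map,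
      List.zip_cons_cons]
    congr 1
    congr 1
    apply List.map_congr_left
    intro i _
    simp only [Function.comp_apply]
    congr 1
    omega

theorem pt_lab {δ : Type} [N487b59b3 δ] {G : δ → MGraph} (hG : PT G) :
    PT (fun d => lab (G d)) := by
  have hn : PT (fun d => U.mk (G d).length) := PT.length hG
  have hrep : PT (fun p : U × U => List.replicate (p.1.val - 1 - p.2.val) true) := by
    have h1 : PT (fun p : U × U => U.mk (p.1.val - 1 - p.2.val)) :=
      (PT.upred PT.fst).usub PT.snd
    have h2 := PT.map (δ := U × U) (ε := Bool) (α := Unit) (β := Bool) (g := fun p => p.1)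
      (e := fun _ => true) (l := fun p => List.replicate (p.1.val - 1 - p.2.val) ())
      PT.fst (PT.const true) h1.toUnits
    refine h2.congr fun p => ?_
    rw [List.map_replicate]
  have h1 := PT.map (δ := δ) (ε := U) (α := U) (β := List Bool)
    (g := fun p => List.replicate (p.1.val - 1 - p.2.val) true)
    (e := fun d => U.mk (G d).length)
    (l := fun d => (List.range (U.mk (G d).length).val).map U.mk) hrep hn (pt_idx hn)
  have h2 := PT.zip h1 hG
  refine h2.congr fun d => ?_
  rw [lab_eq, List.map_map]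
  rfl

/-! ### the parameters -/

/-- the number of samples -/
def NOf (n a : ℕ) : ℕ := 4608 * (n + 1) ^ 5 * a ^ 2

/-- the number of bits of a coin -/
def kOf (n a W : ℕ) : ℕ := Nat.size W + Nat.size (96 * (n + 1) ^ 2 * a)

/-- the number of bits of a step -/
def bbOf (n a W : ℕ) : ℕ := 1 + (2 + Nat.size n) + kOf n a W

/-- the number of steps -/
def tOf (n a W : ℕ) : ℕ := W / ((n + 1) * NOf n a * bbOf n a W)

/-- all parameters, `n` edges, accuracy `1 / a`, `W` random bits -/
def parOf (n a W : ℕ) : Par :=
  ((U.mk (Nat.size n), U.mk (kOf n a W)), (U.mk (tOf n a W), U.mk (NOf n a)))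

theorem bOf_parOf (n a W : ℕ) : (bOf (parOf n a W)).val = bbOf n a W := rfl

theorem pt_parOf {δ : Type} [N487b59b3 δ] {n a W : δ → U} (hn : PT n) (ha : PT a) (hW : PT W) :
    PT (fun d => parOf (n d).val (a d).val (W d).val) := by
  have hn1 : PT (fun d => U.mk ((n d).val + 1)) := hn.usucc
  have h5 : PT (fun d => U.mk (NOf (n d).val (a d).val)) := by
    have h1 := hn1.poly (Polynomial.C 4608 * Polynomial.X ^ 5)
    have h2 := ha.poly (Polynomial.X ^ 2)
    refine (h1.umul h2).congr fun d => ?_
    unfold NOf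
    simp
  have hl : PT (fun d => U.mk (Nat.size (n d).val)) := pt_size (pt_uval hn)
  have hk : PT (fun d => U.mk (kOf (n d).val (a d).val (W d).val)) := by
    have h1 := hn1.poly (Polynomial.C 96 * Polynomial.X ^ 2)
    have h2 := pt_size (pt_uval (h1.umul ha))
    refine ((pt_size (pt_uval hW)).uadd h2).congr fun d => ?_
    unfold kOf
    simp
  have hb : PT (fun d => U.mk (bbOf (n d).val (a d).val (W d).val)) :=
    ((PT.const (U.mk 1)).uadd ((PT.const (U.mk 2)).uadd hl)).uadd hk
  have ht : PT (fun d => U.mk (tOf (n d).val (a d).val (W d).val)) := by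
    have h1 := pt_ndiv (pt_uval hW) (pt_uval ((hn1.umul h5).umul hb))
    refine (pt_cap h1 hW).congr fun d => ?_
    unfold tOf
    simp only
    rw [min_eq_left (Nat.div_le_self _ _)]
  exact (hl.pair hk).pair (ht.pair h5)

/-- the final state of the rounds -/
def finalS (X1 X2 Y1 Y2 : ℕ) (G : MGraph) (a : ℕ) (r : List Bool) : RS :=
  (chunk (BOf (parOf G.length a r.length)).val G.length r).foldl
    (rsP (X1 * Y2) (Y1 * X2) (X2 * Y2) X1 X2 Y1 Y2 (parOf G.length a r.length)
      (U.mk G.length)) ((lab G, []), (1, 1))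

/-- **the algorithm** -/
def algA (X1 X2 Y1 Y2 : ℕ) (z : (MGraph × List Bool) × List Bool) : ℚ :=
  fpras_round (finalS X1 X2 Y1 Y2 z.1.1 (z.1.2.length + 2) z.2).2.1
    (finalS X1 X2 Y1 Y2 z.1.1 (z.1.2.length + 2) z.2).2.2 z.1.2.length

theorem pt_algA (X1 X2 Y1 Y2 : ℕ) : PT (algA X1 X2 Y1 Y2) := by
  have hG : PT (fun z : (MGraph × List Bool) × List Bool => z.1.1) := PT.fst.comp_fst
  have hn : PT (fun z : (MGraph × List Bool) × List Bool => U.mk z.1.1.length) := PT.length hG
  have he : PT (fun z : (MGraph × List Bool) × List Bool => U.mk z.1.2.length) :=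
    PT.length PT.fst.comp_snd
  have ha : PT (fun z : (MGraph × List Bool) × List Bool => U.mk (z.1.2.length + 2)) :=
    he.usucc.usucc
  have hW : PT (fun z : (MGraph × List Bool) × List Bool => U.mk z.2.length) :=
    PT.length PT.snd
  have hP := pt_parOf hn ha hW
  have hS : PT (fun z : (MGraph × List Bool) × List Bool =>
      finalS X1 X2 Y1 Y2 z.1.1 (z.1.2.length + 2) z.2) :=
    pt_rounds (X1 * Y2) (Y1 * X2) (X2 * Y2) X1 X2 Y1 Y2 hP hn
      (((pt_lab hG).pair (PT.const [])).pair (PT.const ((1 : ℕ), (1 : ℕ)))) PT.snd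
  exact fpras_PTround arith (arith2 arith) hS.comp_snd.comp_fst hS.comp_snd.comp_snd he

/-! ### only the first bits are read -/

theorem chunk_append (b : ℕ) (t : ℕ) (u v : List Bool) (hu : u.length = t * b) :
    chunk b t (u ++ v) = chunk b t u := by
  induction t generalizing u with
  | zero => rfl
  | succ t ih =>
    rw [Nat.succ_mul] at hu
    rw [chunk, chunk, List.take_append_of_le_length (by omega),
      List.drop_append_of_le_length (by omega), ih]
    rw [List.length_drop]
    omega

theorem Ex_chunk_le (b t m : ℕ) (h : t * b ≤ m) (F : List (List Bool) → ℝ) :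
    Ex m (fun r => F (chunk b t r)) = ExB b t F := by
  obtain ⟨j, rfl⟩ := Nat.exists_eq_add_of_le h
  rw [Ex_append, ← Ex_chunk]
  apply Ex_congr
  intro u hu
  rw [Ex_congr (H := fun _ => F (chunk b t u)) (fun v _ => by rw [chunk_append b t u v hu]),
    Ex_const]

end Pool.Agent.QPR
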