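import Pool.Agent.QPR.Stmts2

/-!
# QPR, part (2): basic facts on the Tutte polynomial of a minor
-/

set_option autoImplicit false

namespace Pool.Agent.QPR

open Finset
open scoped Classical

namespace M_BAS

variable {α : Type} [DecidableEq α] (D : Dat α)

theorem mu_pos : 0 < D.mu := lt_min D.x0 D.y0

theorem mu_lt : D.mu < 1 := lt_of_le_of_lt (min_le_left _ _) D.x1

theorem bounds (C R : Finset α) : D.mu ^ R.card ≤ D.T C R ∧ D.T C R ≤ 2 ^ R.card :=
  TT_bounds D.hr (mu_pos D) (mu_lt D).le (min_le_left _ _) D.x1.le (min_le_right _ _) D.y1.le R C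

theorem T_pos (C R : Finset α) : 0 < D.T C R :=
  lt_of_lt_of_le (pow_pos (mu_pos D) _) (bounds D C R).1

theorem loop {C R : Finset α} {e : α} (he : e ∈ R) (hl : D.Lp C e) :
    D.T C R = D.y * D.T C (R.erase e) ∧ D.T (insert e C) (R.erase e) = D.T C (R.erase e) := by
  have h1 := TT_loop D.hr D.x D.y C (Finset.notMem_erase e R) hl
  rw [Finset.insert_erase he] at h1
  exact ⟨h1, TT_loop_contract D.hr D.x D.y C (R.erase e) hl⟩

theorem coloop {C R : Finset α} {e : α} (he : e ∈ R) (hc : D.Cl C R e) :
    D.T C R = D.x * D.T (insert e C) (R.erase e) := by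
  have h1 := TT_coloop D.hr D.x D.y C (Finset.notMem_erase e R) hc
  rw [Finset.insert_erase he] at h1
  exact h1

theorem generic {C R : Finset α} {e : α} (he : e ∈ R) (hg : D.Gen C R e) :
    D.T C R = D.T (insert e C) (R.erase e) + D.T C (R.erase e) := by
  have h1 := TT_generic D.hr D.x D.y C (Finset.notMem_erase e R) hg.1 hg.2
  rw [Finset.insert_erase he] at h1
  exact h1

end M_BAS

open M_BAS in
theorem t_BAS : St_BAS := by
  intro α _ D C R
  refine ⟨mu_pos D, mu_lt D, T_pos D C R, (bounds D C R).1, (bounds D C R).2, fun e he => ?_⟩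
  have p1 := T_pos D (insert e C) (R.erase e)
  have p2 := T_pos D C (R.erase e)
  have p3 := T_pos D C R
  have hx := D.x1
  have hy := D.y1
  refine ⟨fun hl => loop D he hl, fun hc => coloop D he hc, fun hg => ?_, fun hl => ?_,
    fun hc => ?_⟩
  · have h1 := generic D he hg
    refine ⟨h1, div_pos p1 p3, ?_, ?_⟩
    · unfold Dat.pe
      rw [div_lt_one p3]
      linarith
    · unfold Dat.pe
      rw [eq_div_iff p3.ne', sub_mul, one_mul, div_mul_cancel₀ _ p3.ne']
      linarith
  · by_cases hc : D.Cl C R e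
    · exact (coloop D he hc).ge
    · have h1 := generic D he ⟨hl, hc⟩
      have h2 : D.x * D.T (insert e C) (R.erase e) ≤ 1 * D.T (insert e C) (R.erase e) :=
        mul_le_mul_of_nonneg_right hx.le p1.le
      linarith
  · by_cases hl : D.Lp C e
    · exact (loop D he hl).1.ge
    · have h1 := generic D he ⟨hl, hc⟩
      have h2 : D.y * D.T C (R.erase e) ≤ 1 * D.T C (R.erase e) :=
        mul_le_mul_of_nonneg_right hy.le p2.le
      linarith

end Pool.Agent.QPR
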