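import Pool.Agent.QPR.Stmts2

/-!
# Part (2) of the project QPR, module BND
-/

set_option autoImplicit false

namespace Pool.Agent.QPR

open Finset
open scoped Classical

namespace M_BND

variable {α : Type} [DecidableEq α]

/-- removing one element of the parallel class -/
theorem np_erase (D : Dat α) (C R : Finset α) (e f : α) (hf : f ∈ R) (hne : e ≠ f)
    (hp : D.Par C e f) : D.np C R e = D.np C (R.erase f) e + 1 := by
  unfold Dat.np
  have h1 : ((R.erase f).erase e).filter (D.Par C e) = ((R.erase e).filter (D.Par C e)).erase f := by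
    ext g
    simp only [Finset.mem_filter, Finset.mem_erase]
    tauto
  have h2 : f ∈ (R.erase e).filter (D.Par C e) := by
    simp only [Finset.mem_filter, Finset.mem_erase]
    exact ⟨⟨hne.symm, hf⟩, hp⟩
  rw [h1]
  exact (Finset.card_erase_add_one h2).symm

/-- contracting one element of the series class -/
theorem ns_erase (hPER : St_PER) (D : Dat α) (C R : Finset α) (e f : α) (he : e ∈ R)
    (hf : f ∈ R) (hne : e ≠ f)
    (hp : D.Ser C R e f) : D.ns C R e = D.ns (insert f C) (R.erase f) e + 1 := by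
  unfold Dat.ns
  have h1 : ((R.erase f).erase e).filter (D.Ser (insert f C) (R.erase f) e) =
      ((R.erase e).filter (D.Ser C R e)).erase f := by
    ext g
    simp only [Finset.mem_filter, Finset.mem_erase]
    constructor
    · rintro ⟨⟨hge, hgf, hg⟩, hs⟩
      have := (hPER α D C R e g f he hg hf (fun h => hge h.symm) hne.symm
        (fun h => hgf h.symm)).2.2.1
      exact ⟨hgf, ⟨hge, hg⟩, this.1 hs⟩
    · rintro ⟨hgf, ⟨hge, hg⟩, hs⟩
      have := (hPER α D C R e g f he hg hf (fun h => hge h.symm) hne.symm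
        (fun h => hgf h.symm)).2.2.1
      exact ⟨⟨hge, hgf, hg⟩, this.2 hs⟩
  have h2 : f ∈ (R.erase e).filter (D.Ser C R e) := by
    simp only [Finset.mem_filter, Finset.mem_erase]
    exact ⟨⟨hne.symm, hf⟩, hp⟩
  rw [h1]
  exact (Finset.card_erase_add_one h2).symm

/-- (1.6), parallel classes -/
theorem par_bound (hLOC : St_LOC) (hBAS : St_BAS) (D : Dat α) (C : Finset α) (e : α)
    (hl : ¬ D.Lp C e) : ∀ (n : ℕ) (R : Finset α), e ∈ R → D.np C R e = n →
    D.x * D.T (insert e C) (R.erase e) ≤ D.y ^ n * D.T C R := by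
  intro n
  induction n with
  | zero =>
    intro R he _
    have h := ((hBAS α D C R).2.2.2.2.2 e he).2.2.2.1 hl
    simpa using h
  | succ n ih =>
    intro R he hn
    have hne : ((R.erase e).filter (D.Par C e)).Nonempty := by
      rw [← Finset.card_pos]
      unfold Dat.np at hn
      omega
    obtain ⟨f, hf⟩ := hne
    simp only [Finset.mem_filter, Finset.mem_erase] at hf
    obtain ⟨⟨hfe, hfR⟩, hp⟩ := hf
    have hef : e ≠ f := fun h => hfe h.symm
    have hn' : D.np C (R.erase f) e = n := by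
      have := np_erase D C R e f hfR hef hp
      omega
    have hI := ih (R.erase f) (Finset.mem_erase.2 ⟨hef, he⟩) hn'
    obtain ⟨l1, l2, l3, l4, l5, l6, l7, l8, l9⟩ := hLOC α D C R e f he hfR hef
    have hloop : D.Lp (insert e C) f := (l3 hl).2 (Or.inr hp)
    have hfRe : f ∈ R.erase e := Finset.mem_erase.2 ⟨hfe, hfR⟩
    have hT := (((hBAS α D (insert e C) (R.erase e)).2.2.2.2.2 f hfRe).1 hloop).1
    have hfl : ¬ D.Lp C f := hp.2.1
    have hfc : ¬ D.Cl C R f := (l8 hp).2
    have hg := ((hBAS α D C R).2.2.2.2.2 f hfR).2.2.1 ⟨hfl, hfc⟩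
    have hpos := (hBAS α D (insert f C) (R.erase f)).2.2.1
    have hle : D.T C (R.erase f) ≤ D.T C R := by
      rw [hg.1]
      linarith
    have hcomm : (R.erase f).erase e = (R.erase e).erase f := Finset.erase_right_comm
    rw [hcomm] at hI
    rw [hT]
    have hy : 0 < D.y ^ n := pow_pos D.y0 n
    calc D.x * (D.y * D.T (insert e C) ((R.erase e).erase f))
        = D.y * (D.x * D.T (insert e C) ((R.erase e).erase f)) := by ring
      _ ≤ D.y * (D.y ^ n * D.T C (R.erase f)) := mul_le_mul_of_nonneg_left hI D.y0.le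
      _ ≤ D.y * (D.y ^ n * D.T C R) :=
          mul_le_mul_of_nonneg_left (mul_le_mul_of_nonneg_left hle hy.le) D.y0.le
      _ = D.y ^ (n + 1) * D.T C R := by ring

/-- (1.6), series classes -/
theorem ser_bound (hLOC : St_LOC) (hPER : St_PER) (hBAS : St_BAS) (D : Dat α) (e : α) :
    ∀ (n : ℕ) (C R : Finset α), e ∈ R → ¬ D.Cl C R e → D.ns C R e = n →
    D.y * D.T C (R.erase e) ≤ D.x ^ n * D.T C R := by
  intro n
  induction n with
  | zero =>
    intro C R he hc _
    have h := ((hBAS α D C R).2.2.2.2.2 e he).2.2.2.2 hc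
    simpa using h
  | succ n ih =>
    intro C R he hc hn
    have hne : ((R.erase e).filter (D.Ser C R e)).Nonempty := by
      rw [← Finset.card_pos]
      unfold Dat.ns at hn
      omega
    obtain ⟨f, hf⟩ := hne
    simp only [Finset.mem_filter, Finset.mem_erase] at hf
    obtain ⟨⟨hfe, hfR⟩, hp⟩ := hf
    have hef : e ≠ f := fun h => hfe h.symm
    have hn' : D.ns (insert f C) (R.erase f) e = n := by
      have := ns_erase hPER D C R e f he hfR hef hp
      omega
    obtain ⟨l1, l2, l3, l4, l5, l6, l7, l8, l9⟩ := hLOC α D C R e f he hfR hef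
    obtain ⟨m1, m2, m3, m4, m5, m6, m7, m8, m9⟩ := hLOC α D C R f e hfR he hfe
    have hcl : ¬ D.Cl (insert f C) (R.erase f) e := fun h => hc (m2.1 h)
    have hI := ih (insert f C) (R.erase f) (Finset.mem_erase.2 ⟨hef, he⟩) hcl hn'
    have hcolp : D.Cl C (R.erase e) f := (l7 hp).2.2
    have hfRe : f ∈ R.erase e := Finset.mem_erase.2 ⟨hfe, hfR⟩
    have hT := ((hBAS α D C (R.erase e)).2.2.2.2.2 f hfRe).2.1 hcolp
    have hfl : ¬ D.Lp C f := (l9 hp).2
    have hfc : ¬ D.Cl C R f := hp.2.1
    have hg := ((hBAS α D C R).2.2.2.2.2 f hfR).2.2.1 ⟨hfl, hfc⟩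
    have hpos := (hBAS α D C (R.erase f)).2.2.1
    have hle : D.T (insert f C) (R.erase f) ≤ D.T C R := by
      rw [hg.1]
      linarith
    have hcomm : (R.erase f).erase e = (R.erase e).erase f := Finset.erase_right_comm
    rw [hcomm] at hI
    rw [hT]
    have hx : 0 < D.x ^ n := pow_pos D.x0 n
    calc D.y * (D.x * D.T (insert f C) ((R.erase e).erase f))
        = D.x * (D.y * D.T (insert f C) ((R.erase e).erase f)) := by ring
      _ ≤ D.x * (D.x ^ n * D.T (insert f C) (R.erase f)) :=
          mul_le_mul_of_nonneg_left hI D.x0.le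
      _ ≤ D.x * (D.x ^ n * D.T C R) :=
          mul_le_mul_of_nonneg_left (mul_le_mul_of_nonneg_left hle hx.le) D.x0.le
      _ = D.x ^ (n + 1) * D.T C R := by ring

/-- numerical step of (1.7) -/
theorem ratio (m z p q t : ℝ) (hm : 0 < m) (hz1 : z < 1) (ht : 0 ≤ t)
    (hp : p = z * t) (hq : m * t ≤ q) : p ≤ 1 / m * q := by
  rw [one_div, inv_mul_eq_div, le_div_iff₀ hm]
  have : z * t * m ≤ 1 * t * m :=
    mul_le_mul_of_nonneg_right (mul_le_mul_of_nonneg_right hz1.le ht) hm.le
  rw [hp]
  linarith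

end M_BND

open M_BND in
theorem t_BND (hLOC : St_LOC) (hPER : St_PER) (hWEQ : St_WEQ) (hBAS : St_BAS) : St_BND := by
  intro α _ D C R e he hG
  have hB := hBAS α D C R
  have hTpos : 0 < D.T C R := hB.2.2.1
  have hBe := hB.2.2.2.2.2 e he
  have hgen := hBe.2.2.1 hG
  have hmu : 0 < D.mu := hB.1
  have hmx : D.mu ≤ D.x := min_le_left _ _
  have hmy : D.mu ≤ D.y := min_le_right _ _
  have hpe : D.pe C R e = D.T (insert e C) (R.erase e) / D.T C R := rfl
  have hqe : 1 - D.pe C R e = D.T C (R.erase e) / D.T C R := hgen.2.2.2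
  refine ⟨?_, ?_, ?_⟩
  · have h := par_bound hLOC hBAS D C e hG.1 (D.np C R e) R he rfl
    rw [hpe, div_le_div_iff₀ hTpos D.x0]
    linarith
  · have h := ser_bound hLOC hPER hBAS D e (D.ns C R e) C R he hG.2 rfl
    rw [hqe, div_le_div_iff₀ hTpos D.y0]
    linarith
  · intro f hf hef
    have hfe : f ≠ e := fun h => hef h.symm
    have hfRe : f ∈ R.erase e := Finset.mem_erase.2 ⟨hfe, hf⟩
    obtain ⟨l1, l2, l3, l4, l5, l6, l7, l8, l9⟩ := hLOC α D C R e f he hf hef
    have htpos : 0 < D.T (insert e C) ((R.erase e).erase f) :=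
      (hBAS α D (insert e C) ((R.erase e).erase f)).2.2.1
    constructor
    · intro hp
      have hloop : D.Lp (insert e C) f := (l3 hG.1).2 (Or.inr hp)
      have hT := (((hBAS α D (insert e C) (R.erase e)).2.2.2.2.2 f hfRe).1 hloop).1
      have hw := ((hWEQ α D).2.1 C ((R.erase e).erase f) e f hp).1
      have hx := ((hBAS α D C (R.erase e)).2.2.2.2.2 f hfRe).2.2.2.1 hp.2.1
      rw [← hw] at hx
      refine ratio D.mu D.y _ _ (D.T (insert e C) ((R.erase e).erase f) / D.T C R) hmu
        D.y1 (div_pos htpos hTpos).le ?_ ?_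
      · rw [hpe, hT]
        ring
      · rw [hqe, ← mul_div_assoc]
        refine div_le_div_of_nonneg_right ?_ hTpos.le
        refine le_trans ?_ hx
        exact mul_le_mul_of_nonneg_right hmx htpos.le
    · intro hs
      have hcolp : D.Cl C (R.erase e) f := (l7 hs).2.2
      have hT := ((hBAS α D C (R.erase e)).2.2.2.2.2 f hfRe).2.1 hcolp
      have hw := ((hWEQ α D).2.2 C R e f he hf hef hs).1
      have hnc : ¬ D.Cl (insert e C) (R.erase e) f := fun h => hs.2.1 (l2.1 h)
      have hy := ((hBAS α D (insert e C) (R.erase e)).2.2.2.2.2 f hfRe).2.2.2.2 hnc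
      refine ratio D.mu D.x _ _ (D.T (insert e C) ((R.erase e).erase f) / D.T C R) hmu
        D.x1 (div_pos htpos hTpos).le ?_ ?_
      · rw [hqe, hT, ← hw]
        ring
      · rw [hpe, ← mul_div_assoc]
        refine div_le_div_of_nonneg_right ?_ hTpos.le
        refine le_trans ?_ hy
        exact mul_le_mul_of_nonneg_right hmy htpos.le

end Pool.Agent.QPR
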