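import Pool.Agent.QPR.Stmts2

/-!
# Part (2) of the project QPR: the combination of the estimates of section 3
-/

set_option autoImplicit false

namespace Pool.Agent.QPR

open Finset
open scoped Classical

namespace M_COMB

/-- Cauchy-Schwarz for a positive linear functional. -/
theorem cs {β : Type} (L : (β → ℝ) → ℝ) (hadd : ∀ X Y, L (fun b => X b + Y b) = L X + L Y)
    (hsmul : ∀ (c : ℝ) X, L (fun b => c * X b) = c * L X)
    (hpos : ∀ X, (∀ b, 0 ≤ X b) → 0 ≤ L X) (X Y : β → ℝ) :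
    L (fun b => X b * Y b) ^ 2 ≤ L (fun b => X b ^ 2) * L (fun b => Y b ^ 2) := by
  have h : ∀ s : ℝ, 0 ≤ L (fun b => Y b ^ 2) * (s * s) + (2 * L (fun b => X b * Y b)) * s +
      L (fun b => X b ^ 2) := by
    intro s
    have h1 := hpos (fun b => (X b + s * Y b) ^ 2) fun b => sq_nonneg _
    have h2 : (fun b => (X b + s * Y b) ^ 2) =
        fun b => X b ^ 2 + ((2 * s) * (X b * Y b) + s ^ 2 * Y b ^ 2) := by
      funext b; ring
    rw [h2, hadd (fun b => X b ^ 2) (fun b => (2 * s) * (X b * Y b) + s ^ 2 * Y b ^ 2),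
      hadd (fun b => (2 * s) * (X b * Y b)) (fun b => s ^ 2 * Y b ^ 2),
      hsmul (2 * s) (fun b => X b * Y b), hsmul (s ^ 2) (fun b => Y b ^ 2)] at h1
    linarith
  have h3 := discrim_le_zero h
  unfold discrim at h3
  nlinarith

/-- The numerical end of the proof. -/
theorem final {m k1 N I V q R0 E mu : ℝ} (hm : 2 ≤ m) (hk : 0 ≤ k1) (hN : 0 ≤ N) (hV : 0 ≤ V)
    (hR : 0 ≤ R0) (hE : 0 ≤ E) (hmu : 0 < mu)
    (h1 : 2 * q ≤ √((2 + k1 / (m - 1)) * V) * √N + 2 / mu * (√N * √E))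
    (h2 : N - √N * √R0 ≤ q) (h3 : I ≤ (√N + √R0) ^ 2) :
    I ≤ 1 / 2 * (1 + (1 + 2 * k1) / m) * V + 2 * (m + 1) * (1 / mu ^ 2 * E + 4 * R0) := by
  have hm0 : 0 < m := by linarith
  have hm1 : 0 < m - 1 := by linarith
  have hc : 0 ≤ (2 + k1 / (m - 1)) * V :=
    mul_nonneg (add_nonneg zero_le_two (div_nonneg hk hm1.le)) hV
  have ha0 := Real.sqrt_nonneg ((2 + k1 / (m - 1)) * V)
  have ha2 := Real.mul_self_sqrt hc
  have hs0 := Real.sqrt_nonneg N
  have hs2 := Real.mul_self_sqrt hN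
  have hr0 := Real.sqrt_nonneg R0
  have hr2 := Real.mul_self_sqrt hR
  have he0 := Real.sqrt_nonneg E
  have he2 := Real.mul_self_sqrt hE
  set a := √((2 + k1 / (m - 1)) * V) with ha
  set s := √N with hs
  set ρ := √R0 with hρ
  set ε := √E with hε
  clear_value a s ρ ε
  -- bound of s
  have h4 : s ≤ a / 2 + ε / mu + ρ := by
    have hq0 : 0 ≤ a / 2 + ε / mu + ρ := by positivity
    rcases hs0.eq_or_lt with h | h
    · rw [← h]; exact hq0
    · have h5 : s * (2 * s) ≤ s * (2 * (a / 2 + ε / mu + ρ)) := by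
        have e1 : 2 / mu * (s * ε) = s * (2 * (ε / mu)) := by
          field_simp
        rw [e1] at h1
        nlinarith
      have h6 := le_of_mul_le_mul_left h5 h
      linarith
  set B := ε / mu + 2 * ρ with hB
  have hB0 : 0 ≤ B := by positivity
  have h7 : I ≤ (a / 2 + B) ^ 2 := by
    refine h3.trans ?_
    have h8 : s + ρ ≤ a / 2 + B := by rw [hB]; linarith
    exact pow_le_pow_left₀ (by positivity) h8 2
  have h9 : (a / 2 + B) ^ 2 ≤ (1 + 1 / m) * (a / 2) ^ 2 + (1 + m) * B ^ 2 := by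
    have h10 : 0 ≤ (a / 2 - m * B) ^ 2 / m := by positivity
    have h11 : (a / 2 - m * B) ^ 2 / m = (a / 2) ^ 2 / m - 2 * (a / 2) * B + m * B ^ 2 := by
      field_simp
      ring
    have h12 : 1 / m * (a / 2) ^ 2 = (a / 2) ^ 2 / m := by ring
    nlinarith
  have h13 : B ^ 2 ≤ 2 * (1 / mu ^ 2 * E + 4 * R0) := by
    have h14 : (ε / mu) ^ 2 = 1 / mu ^ 2 * E := by
      rw [div_pow, ← he2]; ring
    have h15 : B ^ 2 ≤ 2 * (ε / mu) ^ 2 + 2 * (2 * ρ) ^ 2 := by
      rw [hB]; nlinarith [sq_nonneg (ε / mu - 2 * ρ)]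
    nlinarith
  have h16 : (1 + 1 / m) * (a / 2) ^ 2 ≤ 1 / 2 * (1 + (1 + 2 * k1) / m) * V := by
    have h17 : (a / 2) ^ 2 = 1 / 2 * (1 + k1 / (2 * (m - 1))) * V := by
      have : (a / 2) ^ 2 = (a * a) / 4 := by ring
      rw [this, ha2]
      field_simp
      ring
    have h18 : k1 / (2 * (m - 1)) ≤ k1 / m :=
      div_le_div_of_nonneg_left hk hm0 (by linarith)
    have h19 : (1 + 1 / m) * (1 + k1 / (2 * (m - 1))) ≤ 1 + (1 + 2 * k1) / m := by
      have h20 : (1 + 1 / m) * (1 + k1 / (2 * (m - 1))) ≤ (1 + 1 / m) * (1 + k1 / m) :=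
        mul_le_mul_of_nonneg_left (by linarith) (by positivity)
      have h21 : 1 / m ≤ 1 := by
        rw [div_le_one hm0]; linarith
      have h22 : (1 + 1 / m) * (1 + k1 / m) = 1 + (1 + k1 + k1 * (1 / m)) / m := by
        field_simp
        ring
      have h23 : (1 + k1 + k1 * (1 / m)) / m ≤ (1 + 2 * k1) / m := by
        apply div_le_div_of_nonneg_right _ hm0.le
        nlinarith
      linarith
    rw [h17]
    have h24 : (1 + 1 / m) * (1 / 2 * (1 + k1 / (2 * (m - 1))) * V) =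
        1 / 2 * ((1 + 1 / m) * (1 + k1 / (2 * (m - 1)))) * V := by ring
    rw [h24]
    exact mul_le_mul_of_nonneg_right (mul_le_mul_of_nonneg_left h19 (by norm_num)) hV
  have h25 : (1 + m) * B ^ 2 ≤ 2 * (m + 1) * (1 / mu ^ 2 * E + 4 * R0) := by
    have := mul_le_mul_of_nonneg_left h13 (by linarith : (0 : ℝ) ≤ 1 + m)
    linarith
  linarith

variable {α : Type} [DecidableEq α] (D : Dat α)

/-- `E22` as a functional of one variable. -/
noncomputable def L22 (C R : Finset α) (X : α × Bool × α × Bool → ℝ) : ℝ :=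
  D.E22 C R fun f o e o' => X (f, o, e, o')

theorem L22_add (C R : Finset α) (X Y : α × Bool × α × Bool → ℝ) :
    L22 D C R (fun b => X b + Y b) = L22 D C R X + L22 D C R Y := by
  unfold L22 Dat.E22 Dat.E2
  simp only [mul_add, Finset.sum_add_distrib, add_div]

theorem L22_smul (C R : Finset α) (c : ℝ) (X : α × Bool × α × Bool → ℝ) :
    L22 D C R (fun b => c * X b) = c * L22 D C R X := by
  unfold L22 Dat.E22 Dat.E2
  simp only [mul_left_comm _ c, ← Finset.mul_sum, mul_div_assoc]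

theorem L22_pos {C R : Finset α} (hm : 2 ≤ R.card) (ht : ∀ e o f o', 0 ≤ D.t C R e o f o')
    (X : α × Bool × α × Bool → ℝ) (hX : ∀ b, 0 ≤ X b) : 0 ≤ L22 D C R X := by
  unfold L22 Dat.E22 Dat.E2
  have h2 : (2 : ℝ) ≤ R.card := by exact_mod_cast hm
  apply div_nonneg
  · exact Finset.sum_nonneg fun f _ => Finset.sum_nonneg fun e _ => Finset.sum_nonneg fun o _ =>
      Finset.sum_nonneg fun o' _ => mul_nonneg (ht _ _ _ _) (hX _)
  · apply mul_nonneg <;> linarith

/-- The expectation of a function of the first entry. -/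
noncomputable def LP (C R : Finset α) (X : α × Bool → ℝ) : ℝ :=
  ∑ e ∈ R, ∑ o : Bool, D.P C R e o * X (e, o)

theorem LP_add (C R : Finset α) (X Y : α × Bool → ℝ) :
    LP D C R (fun b => X b + Y b) = LP D C R X + LP D C R Y := by
  unfold LP
  simp only [mul_add, Finset.sum_add_distrib]

theorem LP_smul (C R : Finset α) (c : ℝ) (X : α × Bool → ℝ) :
    LP D C R (fun b => c * X b) = c * LP D C R X := by
  unfold LP
  simp only [mul_left_comm _ c, ← Finset.mul_sum]

theorem LP_pos {C R : Finset α} (hP : ∀ e ∈ R, ∀ o, 0 ≤ D.P C R e o)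
    (X : α × Bool → ℝ) (hX : ∀ b, 0 ≤ X b) : 0 ≤ LP D C R X := by
  unfold LP
  exact Finset.sum_nonneg fun e he => Finset.sum_nonneg fun o _ => mul_nonneg (hP e he o) (hX _)

theorem sqrt_mul_bound {x a b : ℝ} (ha : 0 ≤ a) (hb : 0 ≤ b) (h : x ^ 2 ≤ a * b) :
    |x| ≤ √a * √b := by
  rw [← Real.sqrt_mul ha]
  exact Real.abs_le_sqrt h

end M_COMB

open M_COMB in
theorem t_COMB (hBAS : St_BAS) (hFST : St_FST) (hEXP : St_EXP) (hVV : St_VV) (hJEN : St_JEN)
    (hCOV : St_COV) (hVARS : St_VARS) (hERR : St_ERR) : St_COMB := by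
  intro α _ D K hK hMIX C R A al be F hm hF hThin
  have hGen : ∀ e ∈ R, ¬ D.Gen C R e → al e = be e := by
    intro e he hg
    exact hThin e he fun ht => hg ht.1
  have hRne : R.Nonempty := Finset.card_pos.1 (by omega)
  have hmR : (2 : ℝ) ≤ R.card := by exact_mod_cast hm
  have hm0 : (0 : ℝ) < R.card := by linarith
  have hmu : 0 < D.mu := (hBAS α D C R).1
  obtain ⟨v1, v2, v3, v4, v5, v6⟩ := hVV α D C R F al be hm
  obtain ⟨_, _, f3, _, _, _, _, _, _, _, _, f12, _⟩ := hFST α D C R F hRne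
  obtain ⟨j1, _⟩ := hJEN α D C R F hm
  obtain ⟨n0, n1⟩ := hVARS α D K hK hMIX C R A al be hm hThin
  have r1 := hERR α D C R al be (D.G2 C R F) hm hGen
  rw [hF] at v4 v6
  -- the expectation of 1
  have hEx1 : ∀ C' R' : Finset α, D.Ex C' R' (fun _ => 1) = 1 := by
    intro C' R'
    have h := (hEXP α D C' R' (fun _ => 0) (fun _ => 0) 1).1
    have h0 : D.Ex C' R' (fun _ => 0) = 0 := by
      unfold Dat.Ex
      simp
    rw [h0] at h
    simpa using h
  have hone : L22 D C R (fun _ => 1) = 1 := by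
    have h := (hVV α D C R (fun _ => 1) al be hm).2.2.2.1
    rw [hEx1] at h
    have h' : (fun (e : α) (o : Bool) (f : α) (o' : Bool) => D.G2 C R (fun _ => 1) e o f o') =
        fun _ _ _ _ => 1 := by
      funext e o f o'
      unfold Dat.G2
      exact hEx1 _ _
    rw [h'] at h
    exact h
  -- abbreviations
  set G : α × Bool × α × Bool → ℝ := fun b => D.G2 C R F b.1 b.2.1 b.2.2.1 b.2.2.2 with hG
  set g1' : α × Bool × α × Bool → ℝ := fun b => g1 al be b.1 b.2.1 with hg1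
  set g2' : α × Bool × α × Bool → ℝ := fun b => D.g2 C R al be b.1 b.2.1 b.2.2.1 b.2.2.2
    with hg2
  have w4 : L22 D C R G = 0 := v4
  have w5 : L22 D C R (fun b => g1' b * G b) =
      LP D C R (fun p => g1 al be p.1 p.2 * D.phi C R F p.1 p.2) := v5
  have w6 : L22 D C R (fun b => G b ^ 2) = D.I0 C R F + D.step D.I0 C R F := by
    have : L22 D C R (fun b => G b ^ 2) - 0 ^ 2 = D.I0 C R F + D.step D.I0 C R F := v6
    rw [← this]; ring
  have wn1 : L22 D C R (fun b => (g1' b + g2' b) ^ 2) -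
      L22 D C R (fun b => g1' b + g2' b) ^ 2 ≤
      (2 + (8 * A / D.mu ^ 3 + 2 * K) / ((R.card : ℝ) - 1)) * D.nn C R al be := n1
  have wr1 : |L22 D C R (fun b => g2' b * G b) - L22 D C R (fun b => g1' b * G b)| ≤
      2 / D.mu * (√(D.nn C R al be) * √(D.D2 C R (D.G2 C R F))) := r1
  set V := D.I0 C R F + D.step D.I0 C R F with hV
  have hV0 : 0 ≤ V := by
    rw [← w6]
    exact L22_pos D hm v3 _ fun b => sq_nonneg _
  set N := D.nn C R al be with hN
  set k1 : ℝ := 8 * A / D.mu ^ 3 + 2 * K with hk1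
  have hk0 : 0 ≤ k1 := by
    rw [hk1]
    have : (0 : ℝ) ≤ A := Nat.cast_nonneg A
    positivity
  set q := LP D C R (fun p => g1 al be p.1 p.2 * D.phi C R F p.1 p.2) with hq
  have hLadd := L22_add D C R
  have hLsmul := L22_smul D C R
  have hLpos := L22_pos D hm v3
  -- Cauchy-Schwarz for the two-entry functional
  set c := L22 D C R (fun b => g1' b + g2' b) with hc
  have s1 : L22 D C R (fun b => (g1' b + g2' b - c) * G b) =
      L22 D C R (fun b => g1' b * G b) + L22 D C R (fun b => g2' b * G b) := by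
    have e1 : (fun b => (g1' b + g2' b - c) * G b) =
        fun b => (g1' b * G b + g2' b * G b) + (-c) * G b := by
      funext b; ring
    rw [e1, hLadd (fun b => g1' b * G b + g2' b * G b) (fun b => (-c) * G b),
      hLadd (fun b => g1' b * G b) (fun b => g2' b * G b), hLsmul (-c) G, w4]
    ring
  have s2 : L22 D C R (fun b => (g1' b + g2' b - c) ^ 2) =
      L22 D C R (fun b => (g1' b + g2' b) ^ 2) - c ^ 2 := by
    have e1 : (fun b => (g1' b + g2' b - c) ^ 2) =
        fun b => ((g1' b + g2' b) ^ 2 + (-(2 * c)) * (g1' b + g2' b)) + c ^ 2 * 1 := by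
      funext b; ring
    rw [e1, hLadd (fun b => (g1' b + g2' b) ^ 2 + (-(2 * c)) * (g1' b + g2' b))
        (fun _ => c ^ 2 * 1),
      hLadd (fun b => (g1' b + g2' b) ^ 2) (fun b => (-(2 * c)) * (g1' b + g2' b)),
      hLsmul (-(2 * c)) (fun b => g1' b + g2' b), hLsmul (c ^ 2) (fun _ => 1), hone, ← hc]
    ring
  have s3 : L22 D C R (fun b => (g1' b + g2' b - c) * G b) ^ 2 ≤
      ((2 + k1 / ((R.card : ℝ) - 1)) * V) * N := by
    have h := cs (L22 D C R) hLadd hLsmul hLpos (fun b => g1' b + g2' b - c) G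
    refine h.trans ?_
    show L22 D C R (fun b => (g1' b + g2' b - c) ^ 2) * L22 D C R (fun b => G b ^ 2) ≤ _
    rw [w6, s2]
    have h1 := mul_le_mul_of_nonneg_right wn1 hV0
    calc _ ≤ (2 + k1 / ((R.card : ℝ) - 1)) * N * V := h1
      _ = _ := by ring
  have hcV : 0 ≤ (2 + k1 / ((R.card : ℝ) - 1)) * V :=
    mul_nonneg (add_nonneg zero_le_two (div_nonneg hk0 (by linarith))) hV0
  have s4 : |L22 D C R (fun b => (g1' b + g2' b - c) * G b)| ≤
      √((2 + k1 / ((R.card : ℝ) - 1)) * V) * √N := sqrt_mul_bound hcV n0 s3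
  -- (1)
  have hE1 : √(D.D2 C R (D.G2 C R F)) ≤ √(D.E1 C R F) := Real.sqrt_le_sqrt j1
  have p1 : 2 * q ≤ √((2 + k1 / ((R.card : ℝ) - 1)) * V) * √N +
      2 / D.mu * (√N * √(D.E1 C R F)) := by
    have h1 : 2 * q = L22 D C R (fun b => (g1' b + g2' b - c) * G b) -
        (L22 D C R (fun b => g2' b * G b) - L22 D C R (fun b => g1' b * G b)) := by
      rw [s1, w5]; ring
    have h2 : 2 / D.mu * (√N * √(D.D2 C R (D.G2 C R F))) ≤
        2 / D.mu * (√N * √(D.E1 C R F)) :=
      mul_le_mul_of_nonneg_left (mul_le_mul_of_nonneg_left hE1 (Real.sqrt_nonneg _))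
        (by positivity)
    have h3 := (abs_le.1 s4).2
    have h4 := (abs_le.1 wr1).1
    rw [h1]
    linarith
  -- the norm of g1
  have hLPadd := LP_add D C R
  have hLPsmul := LP_smul D C R
  have hLPpos := LP_pos D f3
  have hNN : N = LP D C R (fun p => g1 al be p.1 p.2 ^ 2) := by
    rw [hN]
    unfold Dat.nn LP
    rw [Finset.sum_div]
    apply Finset.sum_congr rfl
    intro f hf
    obtain ⟨e, he, hne⟩ := Finset.exists_mem_ne (by omega : 1 < R.card) f
    have h1 := (hCOV α D C R al be hGen e he f hf hne).2.1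
    have h2 : D.E2 C R f e (fun o _ => g1 al be f o ^ 2) =
        R.card * ∑ o : Bool, D.P C R f o * g1 al be f o ^ 2 := by
      unfold Dat.E2
      rw [Finset.mul_sum]
      apply Finset.sum_congr rfl
      intro o _
      rw [← Finset.sum_mul, v1 f hf e (Finset.mem_erase.2 ⟨hne, he⟩) o, v2 f hf o]
      ring
    rw [← h1, h2]
    field_simp
  set R0 := D.Rr C R F al be with hR0
  have hRR : R0 = LP D C R (fun p => (D.phi C R F p.1 p.2 - g1 al be p.1 p.2) ^ 2) := rfl
  have hR0' : 0 ≤ R0 := by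
    rw [hRR]; exact hLPpos _ fun _ => sq_nonneg _
  have hII : D.I0 C R F = LP D C R (fun p => D.phi C R F p.1 p.2 ^ 2) := by
    unfold Dat.I0 LP
    rw [hF]
    simp only [sub_zero]
  have t1 := cs (LP D C R) hLPadd hLPsmul hLPpos (fun p => g1 al be p.1 p.2)
    (fun p => D.phi C R F p.1 p.2 - g1 al be p.1 p.2)
  rw [← hNN, ← hRR] at t1
  have t2 := sqrt_mul_bound n0 hR0' t1
  set z := LP D C R (fun p => g1 al be p.1 p.2 *
    (D.phi C R F p.1 p.2 - g1 al be p.1 p.2)) with hz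
  have t3 : q = N + z := by
    rw [hq, hNN, hz, ← hLPadd]
    congr 1
    funext p; ring
  have p2 : N - √N * √R0 ≤ q := by
    rw [t3]
    have := (abs_le.1 t2).1
    linarith
  have p3 : D.I0 C R F ≤ (√N + √R0) ^ 2 := by
    have h1 : D.I0 C R F = N + 2 * z + R0 := by
      rw [hII, hNN, hz, hRR, ← hLPsmul 2, ← hLPadd, ← hLPadd]
      congr 1
      funext p; ring
    have h2 := (abs_le.1 t2).2
    have h3 := Real.mul_self_sqrt n0
    have h4 := Real.mul_self_sqrt hR0'
    rw [h1]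
    nlinarith
  exact final hmR hk0 n0 hV0 hR0' f12 hmu p1 p2 p3

end Pool.Agent.QPR
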