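import Pool.Agent.QPR.Stmts2

/-!
# Module QPR2_CON: the histories of positive weight are connected by the moves
-/

set_option autoImplicit false

namespace Pool.Agent.QPR

open Finset
open scoped Classical

namespace M_CON

variable {α : Type} [DecidableEq α] (D : Dat α)

/-- one move between histories of positive weight -/
def Rel (C R : Finset α) (s s' : List (α × Bool)) : Prop :=
  s ∈ Hist R ∧ s' ∈ Hist R ∧ 0 < D.w C s ∧ 0 < D.w C s' ∧
    ∃ i < R.card - 1, s' = mA i s ∨ s' = mB i s

theorem erase_comm' (R : Finset α) (e f : α) : (R.erase e).erase f = (R.erase f).erase e := by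
  ext a
  simp only [mem_erase]
  tauto

theorem om_loop {C R : Finset α} {e : α} (h : D.Lp C e) (o : Bool) :
    D.om C R e o = if o then 0 else D.y := by
  unfold Dat.om
  rw [if_pos h]

theorem om_coloop {C R : Finset α} {e : α} (h : ¬ D.Lp C e) (h2 : D.Cl C R e) (o : Bool) :
    D.om C R e o = if o then D.x else 0 := by
  unfold Dat.om
  rw [if_neg h, if_pos h2]

theorem om_gen {C R : Finset α} {e : α} (h : ¬ D.Lp C e) (h2 : ¬ D.Cl C R e) (o : Bool) :
    D.om C R e o = 1 := by
  unfold Dat.om
  rw [if_neg h, if_neg h2]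

theorem om_nonneg (C R : Finset α) (e : α) (o : Bool) : 0 ≤ D.om C R e o := by
  have := D.x0
  have := D.y0
  unfold Dat.om
  split_ifs <;> linarith

theorem om_ex (C R : Finset α) (e : α) : ∃ o, 0 < D.om C R e o := by
  by_cases hL : D.Lp C e
  · exact ⟨false, by rw [om_loop D hL]; simpa using D.y0⟩
  · by_cases hC : D.Cl C R e
    · exact ⟨true, by rw [om_coloop D hL hC]; simpa using D.x0⟩
    · exact ⟨true, by rw [om_gen D hL hC]; exact one_pos⟩

/-- the weight of an entry depends only on the status of the element -/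
theorem om_congr {C C' R R' : Finset α} {e : α} (h : D.Lp C e ↔ D.Lp C' e)
    (h2 : ¬ D.Lp C e → (D.Cl C R e ↔ D.Cl C' R' e)) (o : Bool) :
    D.om C R e o = D.om C' R' e o := by
  by_cases hL : D.Lp C e
  · rw [om_loop D hL, om_loop D (h.1 hL)]
  · have hL' : ¬ D.Lp C' e := fun h' => hL (h.2 h')
    by_cases hC : D.Cl C R e
    · rw [om_coloop D hL hC, om_coloop D hL' ((h2 hL).1 hC)]
    · rw [om_gen D hL hC, om_gen D hL' (fun h' => hC ((h2 hL).2 h'))]

theorem main (hLOC : St_LOC) (C R : Finset α) (e f : α) (he : e ∈ R) (hf : f ∈ R) (hef : e ≠ f)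
    (hP : ¬ D.Par C e f) (hS : ¬ D.Ser C R e f) (o o' : Bool) :
    D.om C R e o * D.om (nx C e o) (R.erase e) f o' = D.om C R e o * D.om C R f o' := by
  obtain ⟨h1, h2, h3, h4, h5, -⟩ := hLOC α D C R e f he hf hef
  cases o with
  | true =>
    congr 1
    refine om_congr D ?_ (fun _ => ?_) o'
    · by_cases hL : D.Lp C e
      · exact h4 hL
      · have := h3 hL
        simp only [nx, if_true]
        tauto
    · simpa only [nx, if_true] using h2
  | false =>
    by_cases hC : D.Cl C R e
    · have hL : ¬ D.Lp C e := fun h => h1 h hC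
      rw [om_coloop D hL hC]
      simp
    · congr 1
      refine om_congr D ?_ (fun _ => ?_) o'
      · simp [nx]
      · have := (h5 hC).trans (or_iff_left hS)
        simpa [nx] using this

theorem mem_cons_iff {R : Finset α} {e : α} {o : Bool} {h : List (α × Bool)} :
    (e, o) :: h ∈ Hist R ↔ e ∈ R ∧ h ∈ Hist (R.erase e) := by
  rw [mem_Hist, mem_Hist, List.map_cons, List.nodup_cons, els_cons]
  constructor
  · rintro ⟨⟨h1, h2⟩, h3⟩
    have he : e ∉ els h := by
      rw [els, List.mem_toFinset]
      exact h1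
    refine ⟨?_, h2, ?_⟩
    · rw [← h3]
      exact mem_insert_self _ _
    · rw [← h3]
      exact (erase_insert he).symm
  · rintro ⟨h1, h2, h3⟩
    refine ⟨⟨?_, h2⟩, ?_⟩
    · intro hm
      have : e ∈ els h := by
        rw [els, List.mem_toFinset]
        exact hm
      rw [h3] at this
      exact (mem_erase.1 this).1 rfl
    · rw [h3]
      exact insert_erase h1

theorem w_nonneg (C : Finset α) (h : List (α × Bool)) : 0 ≤ D.w C h :=
  hw_nonneg D.x0.le D.y0.le zero_le_one h C

theorem w_cons {C R : Finset α} {e : α} {h : List (α × Bool)} (hh : h ∈ Hist (R.erase e))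
    (o : Bool) : D.w C ((e, o) :: h) = D.om C R e o * D.w (nx C e o) h := by
  have hels : els h = R.erase e := (mem_Hist.1 hh).2
  unfold Dat.w
  rw [hw, hels]
  unfold Dat.om Dat.Lp Dat.Cl nx
  cases o <;> split_ifs <;> simp

/-- a history of positive weight -/
def Pos (C R : Finset α) (s : List (α × Bool)) : Prop := s ∈ Hist R ∧ 0 < D.w C s

theorem pos_of_mul {a b : ℝ} (ha : 0 ≤ a) (hb : 0 ≤ b) (h : 0 < a * b) : 0 < a ∧ 0 < b := by
  constructor
  · rcases ha.lt_or_eq with h1 | h1
    · exact h1
    · rw [← h1, zero_mul] at h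
      exact absurd h (lt_irrefl _)
  · rcases hb.lt_or_eq with h1 | h1
    · exact h1
    · rw [← h1, mul_zero] at h
      exact absurd h (lt_irrefl _)

theorem pos_cons {C R : Finset α} {e : α} {o : Bool} {h : List (α × Bool)} :
    Pos D C R ((e, o) :: h) ↔
      e ∈ R ∧ 0 < D.om C R e o ∧ Pos D (nx C e o) (R.erase e) h := by
  unfold Pos
  rw [mem_cons_iff]
  constructor
  · rintro ⟨⟨h1, h2⟩, h3⟩
    rw [w_cons D h2] at h3
    obtain ⟨h4, h5⟩ := pos_of_mul (om_nonneg D _ _ _ _) (w_nonneg D _ _) h3
    exact ⟨h1, h4, h2, h5⟩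
  · rintro ⟨h1, h2, h3, h4⟩
    refine ⟨⟨h1, h3⟩, ?_⟩
    rw [w_cons D h3]
    exact mul_pos h2 h4

theorem rel_iff {C R : Finset α} {s s' : List (α × Bool)} :
    Rel D C R s s' ↔ Pos D C R s ∧ Pos D C R s' ∧ ∃ i < R.card - 1, s' = mA i s ∨ s' = mB i s := by
  unfold Rel Pos
  constructor
  · rintro ⟨a, b, c, d, e⟩
    exact ⟨⟨a, c⟩, ⟨b, d⟩, e⟩
  · rintro ⟨⟨a, c⟩, ⟨b, d⟩, e⟩
    exact ⟨a, b, c, d, e⟩

theorem rel_symm {C R : Finset α} {s s' : List (α × Bool)} (h : Rel D C R s s') :
    Rel D C R s' s := by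
  rw [rel_iff] at h ⊢
  obtain ⟨h1, h2, i, hi, h3⟩ := h
  refine ⟨h2, h1, i, hi, ?_⟩
  rcases h3 with h3 | h3
  · left
    rw [h3]
    exact (actN_actN _ _ _).symm
  · right
    rw [h3]
    exact (actN_actN _ _ _).symm

theorem rtg_symm {C R : Finset α} {s s' : List (α × Bool)}
    (h : Relation.ReflTransGen (Rel D C R) s s') : Relation.ReflTransGen (Rel D C R) s' s := by
  induction h with
  | refl => exact Relation.ReflTransGen.refl
  | tail _ h2 ih => exact Relation.ReflTransGen.head (rel_symm D h2) ih

theorem lift {C R : Finset α} {e : α} {o : Bool} (he : e ∈ R) (ho : 0 < D.om C R e o)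
    {s s' : List (α × Bool)}
    (h : Relation.ReflTransGen (Rel D (nx C e o) (R.erase e)) s s') :
    Relation.ReflTransGen (Rel D C R) ((e, o) :: s) ((e, o) :: s') := by
  refine Relation.ReflTransGen.lift (fun k => (e, o) :: k) ?_ _ _ h
  intro a b hab
  simp only [Function.onFun]
  rw [rel_iff] at hab ⊢
  obtain ⟨h1, h2, i, hi, h3⟩ := hab
  refine ⟨(pos_cons D).2 ⟨he, ho, h1⟩, (pos_cons D).2 ⟨he, ho, h2⟩, i + 1, ?_, ?_⟩
  · rw [card_erase_of_mem he] at hi
    omega
  · rcases h3 with h3 | h3
    · left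
      rw [h3]
      rfl
    · right
      rw [h3]
      rfl

theorem ex (hFST : St_FST) (C R : Finset α) : ∃ h, Pos D C R h := by
  rcases R.eq_empty_or_nonempty with rfl | hR
  · refine ⟨[], ?_, ?_⟩
    · rw [Hist_empty]
      exact mem_singleton_self _
    · unfold Dat.w
      rw [hw]
      exact one_pos
  · have hW : 0 < D.W C R := (hFST α D C R (fun _ => 0) hR).2.1
    by_contra hcon
    push Not at hcon
    have : D.W C R = 0 := by
      unfold Dat.W
      refine sum_eq_zero (fun h hh => ?_)
      have h1 := w_nonneg D C h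
      have h2 : ¬ (0 < D.w C h) := fun h3 => hcon h ⟨hh, h3⟩
      linarith
    linarith

/-- `e, f` parallel: the weights of the histories of the rest agree -/
theorem w_par (e f : α) (h : List (α × Bool)) : ∀ C : Finset α,
    (∀ A, C ⊆ A → D.r (insert e A) = D.r (insert f A)) →
    D.w (insert e C) h = D.w (insert f C) h := by
  unfold Dat.w
  induction h with
  | nil =>
    intro C _
    rw [hw, hw]
  | cons p h ih =>
    intro C hC
    obtain ⟨g, o⟩ := p
    rw [hw, hw]
    have e1 : D.r (insert g (insert e C)) = D.r (insert g (insert f C)) := by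
      rw [insert_comm g e, insert_comm g f]
      exact hC _ (subset_insert _ _)
    have e2 : D.r (insert e C) = D.r (insert f C) := hC _ (Subset.refl _)
    have e3 : D.r (insert e C ∪ els h) = D.r (insert f C ∪ els h) := by
      rw [insert_union, insert_union]
      exact hC _ subset_union_left
    have e4 : D.r (insert g (insert e C ∪ els h)) = D.r (insert g (insert f C ∪ els h)) := by
      rw [insert_union, insert_union, insert_comm g e, insert_comm g f]
      exact hC _ (subset_union_left.trans (subset_insert _ _))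
    have e5 : hw D.r D.x D.y 1 (insert g (insert e C)) h =
        hw D.r D.x D.y 1 (insert g (insert f C)) h := by
      rw [insert_comm g e, insert_comm g f]
      exact ih _ (fun A hA => hC A ((subset_insert _ _).trans hA))
    rw [e1, e2, e3, e4, e5, ih C hC]

/-- first entries `p`, `q`: all histories of positive weight are connected -/
def LL (C R : Finset α) (p q : α × Bool) : Prop := ∀ h h', Pos D C R (p :: h) →
  Pos D C R (q :: h') → Relation.ReflTransGen (Rel D C R) (p :: h) (q :: h')

theorem LL_symm {C R : Finset α} {p q : α × Bool} (h : LL D C R p q) : LL D C R q p :=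
  fun k k' hk hk' => rtg_symm D (h k' k hk' hk)

theorem LL_trans (hFST : St_FST) {C R : Finset α} {p q s : α × Bool} (hq : q.1 ∈ R)
    (hq' : 0 < D.om C R q.1 q.2) (h1 : LL D C R p q) (h2 : LL D C R q s) : LL D C R p s := by
  intro k k' hk hk'
  obtain ⟨l, hl⟩ := ex D hFST (nx C q.1 q.2) (R.erase q.1)
  have hpos : Pos D C R (q :: l) := (pos_cons D).2 ⟨hq, hq', hl⟩
  exact (h1 k l hk hpos).trans (h2 l k' hpos hk')

/-- one link is enough -/
theorem LL_of_link {C R : Finset α} {p q : α × Bool} (hp : LL D C R p p) (hq : LL D C R q q)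
    {k k' : List (α × Bool)} (hk : Pos D C R (p :: k)) (hk' : Pos D C R (q :: k'))
    (h : Rel D C R (p :: k) (q :: k')) : LL D C R p q := by
  intro l l' hl hl'
  exact ((hp l k hl hk).tail h).trans (hq k' l' hk' hl')

theorem t_pos {C R : Finset α} {e f : α} {o o' : Bool} (h : 0 < D.t C R e o f o')
    (hBAS : St_BAS) : 0 < D.om C R e o ∧ 0 < D.om (nx C e o) (R.erase e) f o' := by
  unfold Dat.t at h
  have hT : 0 < D.T C R := (hBAS α D C R).2.2.1
  have hT' : 0 < D.T (nx (nx C e o) f o') ((R.erase e).erase f) := (hBAS α D _ _).2.2.1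
  rw [mul_div_assoc] at h
  have h1 := pos_of_mul (mul_nonneg (om_nonneg D _ _ _ _) (om_nonneg D _ _ _ _))
    (div_nonneg hT'.le hT.le) h
  exact pos_of_mul (om_nonneg D _ _ _ _) (om_nonneg D _ _ _ _) h1.1

theorem nx_comm (C : Finset α) (e f : α) (o o' : Bool) :
    nx (nx C e o) f o' = nx (nx C f o') e o := by
  cases o <;> cases o' <;> simp [nx, insert_comm]

/-- the link by the exchange of the entries -/
theorem linkA (hFST : St_FST) {C R : Finset α} {e f : α} {o o' : Bool} (he : e ∈ R) (hf : f ∈ R)
    (hef : e ≠ f) (h1 : 0 < D.om C R e o) (h2 : 0 < D.om (nx C e o) (R.erase e) f o')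
    (h3 : 0 < D.om C R f o') (h4 : 0 < D.om (nx C f o') (R.erase f) e o)
    (hp : LL D C R (e, o) (e, o)) (hq : LL D C R (f, o') (f, o')) :
    LL D C R (e, o) (f, o') := by
  obtain ⟨h, hh⟩ := ex D hFST (nx (nx C e o) f o') ((R.erase e).erase f)
  have hh' : Pos D (nx (nx C f o') e o) ((R.erase f).erase e) h := by
    rw [nx_comm, erase_comm']
    exact hh
  have hk : Pos D C R ((e, o) :: (f, o') :: h) :=
    (pos_cons D).2 ⟨he, h1, (pos_cons D).2 ⟨mem_erase.2 ⟨Ne.symm hef, hf⟩, h2, hh⟩⟩
  have hk' : Pos D C R ((f, o') :: (e, o) :: h) :=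
    (pos_cons D).2 ⟨hf, h3, (pos_cons D).2 ⟨mem_erase.2 ⟨hef, he⟩, h4, hh'⟩⟩
  refine LL_of_link D hp hq hk hk' ((rel_iff D).2 ⟨hk, hk', 0, ?_, Or.inl rfl⟩)
  have : 1 < R.card := one_lt_card.2 ⟨e, he, f, hf, hef⟩
  omega

theorem linkT (hBAS : St_BAS) (hFST : St_FST) {C R : Finset α} {e f : α} {o o' : Bool}
    (he : e ∈ R) (hf : f ∈ R) (hef : e ≠ f) (h1 : 0 < D.t C R e o f o')
    (h2 : 0 < D.t C R f o' e o) (hp : LL D C R (e, o) (e, o)) (hq : LL D C R (f, o') (f, o')) :
    LL D C R (e, o) (f, o') := by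
  obtain ⟨h3, h4⟩ := t_pos D h1 hBAS
  obtain ⟨h5, h6⟩ := t_pos D h2 hBAS
  exact linkA D hFST he hf hef h3 h4 h5 h6 hp hq

/-- the link by the exchange of the elements, for a parallel pair -/
theorem linkB (hLOC : St_LOC) (hBAS : St_BAS) (hFST : St_FST) {C R : Finset α} {e f : α}
    (he : e ∈ R) (hf : f ∈ R) (hef : e ≠ f) (hpar : D.Par C e f)
    (h1 : 0 < D.t C R e true f false) (h2 : 0 < D.t C R f true e false)
    (hp : LL D C R (e, true) (e, true)) (hq : LL D C R (f, true) (f, true)) :
    LL D C R (e, true) (f, true) := by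
  obtain ⟨h3, h4⟩ := t_pos D h1 hBAS
  obtain ⟨h5, h6⟩ := t_pos D h2 hBAS
  obtain ⟨h, hh⟩ := ex D hFST (insert e C) ((R.erase e).erase f)
  have hpar' : D.Par C f e := (hLOC α D C R e f he hf hef).2.2.2.2.2.1 hpar
  have hw' : D.w (insert e C) h = D.w (insert f C) h := by
    refine w_par D e f h C (fun A hA => ?_)
    have q1 : D.r (insert e (insert f A)) = D.r (insert f A) :=
      D.hr.closure hpar.2.2 (insert_subset_insert _ hA)
    have q2 : D.r (insert f (insert e A)) = D.r (insert e A) :=
      D.hr.closure hpar'.2.2 (insert_subset_insert _ hA)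
    rw [insert_comm] at q2
    omega
  have hh' : Pos D (insert f C) ((R.erase f).erase e) h := by
    refine ⟨?_, ?_⟩
    · rw [erase_comm']
      exact hh.1
    · rw [← hw']
      exact hh.2
  have hk : Pos D C R ((e, true) :: (f, false) :: h) :=
    (pos_cons D).2 ⟨he, h3, (pos_cons D).2 ⟨mem_erase.2 ⟨Ne.symm hef, hf⟩, h4, hh⟩⟩
  have hk' : Pos D C R ((f, true) :: (e, false) :: h) :=
    (pos_cons D).2 ⟨hf, h5, (pos_cons D).2 ⟨mem_erase.2 ⟨hef, he⟩, h6, hh'⟩⟩
  refine LL_of_link D hp hq hk hk' ((rel_iff D).2 ⟨hk, hk', 0, ?_, Or.inr rfl⟩)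
  have : 1 < R.card := one_lt_card.2 ⟨e, he, f, hf, hef⟩
  omega

/-- different first elements -/
theorem diff (hLOC : St_LOC) (hBAS : St_BAS) (hFST : St_FST) (hTW : St_TW) {C R : Finset α}
    {e f : α} {o o' : Bool} (he : e ∈ R) (hf : f ∈ R) (hef : e ≠ f)
    (ho : 0 < D.om C R e o) (ho' : 0 < D.om C R f o')
    (hLL : ∀ g s, LL D C R (g, s) (g, s)) : LL D C R (e, o) (f, o') := by
  obtain ⟨t1, t2, t3, t4, -⟩ := hTW α D C R e f he hf hef
  obtain ⟨s1, s2, s3, s4, -⟩ := hTW α D C R f e hf he (Ne.symm hef)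
  have hl := hLOC α D C R e f he hf hef
  have hTT : ∀ A B : Finset α, 0 < D.T A B / D.T C R := fun A B =>
    div_pos (hBAS α D A B).2.2.1 (hBAS α D C R).2.2.1
  have hx := D.x0
  have hy := D.y0
  have link : ∀ a b : Bool, 0 < D.t C R e a f b → 0 < D.t C R f b e a →
      LL D C R (e, a) (f, b) := fun a b q1 q2 =>
    linkT D hBAS hFST he hf hef q1 q2 (hLL _ _) (hLL _ _)
  by_cases hP : D.Par C e f
  · have hP' : D.Par C f e := hl.2.2.2.2.2.1 hP
    obtain ⟨hCe, hCf⟩ := hl.2.2.2.2.2.2.2.1 hP
    have ge : ∀ a, 0 < D.om C R e a := fun a => by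
      rw [om_gen D hP.1 hCe]
      exact one_pos
    have gf : ∀ a, 0 < D.om C R f a := fun a => by
      rw [om_gen D hP.2.1 hCf]
      exact one_pos
    by_cases hS : D.Ser C R e f
    · have hS' : D.Ser C R f e := hl.2.2.2.2.2.2.1 hS
      obtain ⟨-, -, a3, a4⟩ := t4 hP hS
      obtain ⟨-, -, b3, b4⟩ := s4 hP' hS'
      have c3 : 0 < D.t C R e true f false := by
        rw [a3]
        exact mul_pos hy (hTT _ _)
      have c4 : 0 < D.t C R e false f true := by
        rw [a4]
        exact mul_pos hx (hTT _ _)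
      have d3 : 0 < D.t C R f true e false := by
        rw [b3]
        exact mul_pos hy (hTT _ _)
      have d4 : 0 < D.t C R f false e true := by
        rw [b4]
        exact mul_pos hx (hTT _ _)
      have tf : LL D C R (e, true) (f, false) := link _ _ c3 d4
      have ft : LL D C R (e, false) (f, true) := link _ _ c4 d3
      have tt : LL D C R (e, true) (f, true) :=
        linkB D hLOC hBAS hFST he hf hef hP c3 d3 (hLL _ _) (hLL _ _)
      have ff : LL D C R (e, false) (f, false) :=
        LL_trans D hFST (q := (e, true)) he (ge _)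
          (LL_trans D hFST (q := (f, true)) hf (gf _) ft (LL_symm D tt)) tf
      cases o <;> cases o' <;> assumption
    · have hS' : ¬ D.Ser C R f e := fun h =>
        hS ((hLOC α D C R f e hf he (Ne.symm hef)).2.2.2.2.2.2.1 h)
      obtain ⟨-, a2, a3, a4⟩ := t2 hP hS
      obtain ⟨-, b2, b3, b4⟩ := s2 hP' hS'
      have tf : LL D C R (e, true) (f, false) := by
        refine link _ _ ?_ ?_
        · rw [a2]
          exact mul_pos hy (hTT _ _)
        · rw [b3]
          exact hTT _ _
      have ft : LL D C R (e, false) (f, true) := by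
        refine link _ _ ?_ ?_
        · rw [a3]
          exact hTT _ _
        · rw [b2]
          exact mul_pos hy (hTT _ _)
      have ff : LL D C R (e, false) (f, false) := by
        refine link _ _ ?_ ?_
        · rw [a4]
          exact hTT _ _
        · rw [b4]
          exact hTT _ _
      have tt : LL D C R (e, true) (f, true) :=
        LL_trans D hFST (q := (e, false)) he (ge _)
          (LL_trans D hFST (q := (f, false)) hf (gf _) tf (LL_symm D ff)) ft
      cases o <;> cases o' <;> assumption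
  · have hP' : ¬ D.Par C f e := fun h =>
      hP ((hLOC α D C R f e hf he (Ne.symm hef)).2.2.2.2.2.1 h)
    by_cases hS : D.Ser C R e f
    · have hS' : D.Ser C R f e := hl.2.2.2.2.2.2.1 hS
      obtain ⟨hLe, hLf⟩ := hl.2.2.2.2.2.2.2.2 hS
      have ge : ∀ a, 0 < D.om C R e a := fun a => by
        rw [om_gen D hLe hS.1]
        exact one_pos
      have gf : ∀ a, 0 < D.om C R f a := fun a => by
        rw [om_gen D hLf hS.2.1]
        exact one_pos
      obtain ⟨-, a2, a3, a4⟩ := t3 hP hS
      obtain ⟨-, b2, b3, b4⟩ := s3 hP' hS'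
      have ft : LL D C R (e, false) (f, true) := by
        refine link _ _ ?_ ?_
        · rw [a2]
          exact mul_pos hx (hTT _ _)
        · rw [b3]
          exact hTT _ _
      have tf : LL D C R (e, true) (f, false) := by
        refine link _ _ ?_ ?_
        · rw [a3]
          exact hTT _ _
        · rw [b2]
          exact mul_pos hx (hTT _ _)
      have tt : LL D C R (e, true) (f, true) := by
        refine link _ _ ?_ ?_
        · rw [a4]
          exact hTT _ _
        · rw [b4]
          exact hTT _ _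
      have ff : LL D C R (e, false) (f, false) :=
        LL_trans D hFST (q := (e, true)) he (ge _)
          (LL_trans D hFST (q := (f, true)) hf (gf _) ft (LL_symm D tt)) tf
      cases o <;> cases o' <;> assumption
    · have hS' : ¬ D.Ser C R f e := fun h =>
        hS ((hLOC α D C R f e hf he (Ne.symm hef)).2.2.2.2.2.2.1 h)
      have m1 := main D hLOC C R e f he hf hef hP hS o o'
      have m2 := main D hLOC C R f e hf he (Ne.symm hef) hP' hS' o' o
      have p1 : 0 < D.om C R e o * D.om (nx C e o) (R.erase e) f o' := by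
        rw [m1]
        exact mul_pos ho ho'
      have p2 : 0 < D.om C R f o' * D.om (nx C f o') (R.erase f) e o := by
        rw [m2]
        exact mul_pos ho' ho
      exact linkA D hFST he hf hef ho
        (pos_of_mul (om_nonneg D _ _ _ _) (om_nonneg D _ _ _ _) p1).2 ho'
        (pos_of_mul (om_nonneg D _ _ _ _) (om_nonneg D _ _ _ _) p2).2 (hLL _ _) (hLL _ _)

theorem all (hLOC : St_LOC) (hBAS : St_BAS) (hFST : St_FST) (hTW : St_TW) (n : ℕ) :
    ∀ C R : Finset α, R.card = n → ∀ h h', Pos D C R h → Pos D C R h' →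
    Relation.ReflTransGen (Rel D C R) h h' := by
  induction n with
  | zero =>
    intro C R hR h h' hh hh'
    rw [card_eq_zero] at hR
    subst hR
    have h1 := hh.1
    have h2 := hh'.1
    rw [Hist_empty, mem_singleton] at h1 h2
    rw [h1, h2]
  | succ n ih =>
    intro C R hR h h' hh hh'
    have hLL : ∀ g s, LL D C R (g, s) (g, s) := by
      intro g s k k' hk hk'
      obtain ⟨h1, h2, h3⟩ := (pos_cons D).1 hk
      obtain ⟨-, -, h3'⟩ := (pos_cons D).1 hk'
      refine lift D h1 h2 (ih _ _ ?_ _ _ h3 h3')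
      rw [card_erase_of_mem h1, hR]
      rfl
    have hl : h.length = n + 1 := by
      rw [length_of_mem_Hist hh.1, hR]
    have hl' : h'.length = n + 1 := by
      rw [length_of_mem_Hist hh'.1, hR]
    cases h with
    | nil => simp at hl
    | cons p k =>
      cases h' with
      | nil => simp at hl'
      | cons q k' =>
        obtain ⟨e, o⟩ := p
        obtain ⟨f, o'⟩ := q
        obtain ⟨he, ho, hk⟩ := (pos_cons D).1 hh
        obtain ⟨hf, ho', hk'⟩ := (pos_cons D).1 hh'
        by_cases hef : e = f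
        · subst hef
          by_cases hoo : o = o'
          · subst hoo
            exact hLL e o k k' hh hh'
          · rcases Nat.eq_zero_or_pos n with hn | hn
            · exfalso
              subst hn
              have hRe : R.erase e = ∅ := by
                rw [← card_eq_zero, card_erase_of_mem he, hR]
              by_cases hL : D.Lp C e
              · rw [om_loop D hL] at ho ho'
                cases o <;> cases o' <;> simp at ho ho' hoo
              · have hC : D.Cl C R e := by
                  unfold Dat.Cl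
                  rw [hRe, union_empty]
                  exact lt_of_le_of_ne (D.hr.mono _ _) (fun h => hL h.symm)
                rw [om_coloop D hL hC] at ho ho'
                cases o <;> cases o' <;> simp at ho ho' hoo
            · have hc : 1 < R.card := by omega
              obtain ⟨g, hg, hge⟩ := exists_mem_ne hc e
              obtain ⟨s, hs⟩ := om_ex D C R g
              exact LL_trans D hFST (q := (g, s)) hg hs
                (diff D hLOC hBAS hFST hTW he hg (Ne.symm hge) ho hs hLL)
                (diff D hLOC hBAS hFST hTW hg he hge hs ho' hLL) k k' hh hh'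
        · exact diff D hLOC hBAS hFST hTW he hf hef ho ho' hLL k k' hh hh'

end M_CON

open M_CON in
theorem t_CON (hLOC : St_LOC) (hBAS : St_BAS) (hFST : St_FST) (hTW : St_TW) : St_CON := by
  intro α _ D C R h hh h' hh' hw1 hw2
  exact M_CON.all D hLOC hBAS hFST hTW R.card C R rfl h h' ⟨hh, hw1⟩ ⟨hh', hw2⟩

end Pool.Agent.QPR
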