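import Pool.Agent.QPR.Stmts2

/-!
# Project QPR, part (2): first and second moments of the test function (COV)
-/

set_option autoImplicit false

namespace Pool.Agent.QPR

open Finset
open scoped Classical

namespace M_COV

variable {α : Type} [DecidableEq α] (D : Dat α)

/-- weight of the outcome `o` of the entry `f` in the first position -/
noncomputable def q (C R : Finset α) (f : α) (o : Bool) : ℝ :=
  D.om C R f o * D.T (nx C f o) (R.erase f) / D.T C R

theorem q_sum (hBAS : St_BAS) (C R : Finset α) {f : α} (hf : f ∈ R) :
    q D C R f true + q D C R f false = 1 := by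
  obtain ⟨h1, h2, h3, -, -⟩ := (hBAS α D C R).2.2.2.2.2 f hf
  have hT : 0 < D.T C R := (hBAS α D C R).2.2.1
  have hs : D.om C R f true * D.T (nx C f true) (R.erase f) +
      D.om C R f false * D.T (nx C f false) (R.erase f) = D.T C R := by
    unfold Dat.om nx
    by_cases hl : D.Lp C f
    · simp only [hl, if_true, Bool.false_eq_true, if_false]
      rw [(h1 hl).1]
      ring
    · by_cases hc : D.Cl C R f
      · simp only [hl, hc, if_true, Bool.false_eq_true, if_false]
        rw [h2 hc]
        ring
      · simp only [hl, hc, if_true, Bool.false_eq_true, if_false]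
        rw [(h3 ⟨hl, hc⟩).1]
        ring
  unfold q
  rw [← add_div, hs, div_self hT.ne']

theorem q_gen (C R : Finset α) {f : α} (hg : D.Gen C R f) : q D C R f true = D.pe C R f := by
  unfold q Dat.om nx Dat.pe
  simp [hg.1, hg.2]

/-- a function of the outcome of the first entry -/
theorem E2_first (hVV : St_VV) (C R : Finset α) {e f : α} (he : e ∈ R) (hf : f ∈ R)
    (hef : e ≠ f) (X : Bool → ℝ) :
    D.E2 C R f e (fun o _ => X o) = q D C R f true * X true + q D C R f false * X false := by
  have hR : 2 ≤ R.card := by
    have h := Finset.one_lt_card.2 ⟨e, he, f, hf, hef⟩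
    omega
  have hm := (hVV α D C R (fun _ => 0) (fun _ => 0) (fun _ => 0) hR).1 f hf e
    (mem_erase.2 ⟨hef, he⟩)
  unfold Dat.E2
  rw [Fintype.sum_bool, ← sum_mul, ← sum_mul, hm true, hm false]
  rfl

theorem E2_add (C R : Finset α) (f e : α) (X Y : Bool → Bool → ℝ) :
    D.E2 C R f e (fun o o' => X o o' + Y o o') = D.E2 C R f e X + D.E2 C R f e Y := by
  unfold Dat.E2
  simp only [mul_add, sum_add_distrib]

theorem E2_mul (C R : Finset α) (f e : α) (c : ℝ) (X : Bool → Bool → ℝ) :
    D.E2 C R f e (fun o o' => c * X o o') = c * D.E2 C R f e X := by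
  unfold Dat.E2
  rw [mul_sum]
  refine sum_congr rfl fun o _ => ?_
  rw [mul_sum]
  refine sum_congr rfl fun o' _ => ?_
  ring

end M_COV

open M_COV

theorem t_COV (hBAS : St_BAS) (hVV : St_VV) (hSC : St_SC) : St_COV := by
  intro α _ D C R al be hgen e he f hf hef
  have hq := q_sum D hBAS C R hf
  have hone : D.E2 C R f e (fun _ _ => 1) = 1 := by
    rw [E2_first D hVV C R he hf hef (fun _ => 1), mul_one, mul_one, hq]
  -- the first entry
  have h1 : D.E2 C R f e (fun o _ => g1 al be f o) = D.me C R al be f := by
    rw [E2_first D hVV C R he hf hef (fun o => g1 al be f o)]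
    unfold g1 Dat.me
    simp only [if_true, Bool.false_eq_true, if_false]
    by_cases hg : D.Gen C R f
    · rw [← q_gen D C R hg]
      linear_combination be f * hq
    · rw [hgen f hf hg]
      linear_combination be f * hq
  have h2 : D.E2 C R f e (fun o _ => g1 al be f o ^ 2) = D.ve C R al be f := by
    rw [E2_first D hVV C R he hf hef (fun o => g1 al be f o ^ 2)]
    unfold g1 Dat.ve Dat.me
    simp only [if_true, Bool.false_eq_true, if_false]
    by_cases hg : D.Gen C R f
    · rw [← q_gen D C R hg]
      linear_combination be f ^ 2 * hq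
    · rw [hgen f hf hg]
      linear_combination be f ^ 2 * hq
  -- the second entry
  have h3 : D.E2 C R f e (fun o o' => D.g2 C R al be f o e o') = D.me C R al be e := by
    unfold Dat.g2 Dat.me
    by_cases hg : D.Gen C R e
    · have hs := (hSC α D C R e f he hf hef hg).2.1
      have ha := E2_add D C R f e (fun _ _ => be e * 1)
        (fun o o' => (al e - be e) * D.sc C R f o e o')
      rw [E2_mul D C R f e (be e) (fun _ _ => 1),
        E2_mul D C R f e (al e - be e) (fun o o' => D.sc C R f o e o'), hs, hone, mul_one] at ha
      exact ha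
    · rw [hgen e he hg]
      have ha := E2_mul D C R f e (be e) (fun _ _ => 1)
      rw [hone] at ha
      simp only [sub_self, zero_mul, add_zero]
      simpa using ha
  refine ⟨h1, h2, h3, ?_⟩
  by_cases hge : D.Gen C R e
  · by_cases hgf : D.Gen C R f
    · obtain ⟨-, hs, -, h4⟩ := hSC α D C R e f he hf hef hge
      obtain ⟨h5, h6⟩ := h4 hgf
      have hcov : D.Cov C R f e = D.Tm C R f e - D.pe C R f * D.pe C R e := by
        unfold Dat.Cov
        rw [if_neg (Ne.symm hef)]
      have hfun : (fun o o' : Bool => g1 al be f o * D.g2 C R al be f o e o') =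
          (fun o o' : Bool => (be f * be e) * 1 + ((be f * (al e - be e)) * D.sc C R f o e o' +
            (((al f - be f) * be e) * (if o then 1 else 0) +
              ((al f - be f) * (al e - be e)) *
                ((if o then 1 else 0) * D.sc C R f o e o')))) := by
        funext o o'
        unfold g1 Dat.g2
        cases o
        · simp only [Bool.false_eq_true, if_false]
          ring
        · simp only [if_true]
          ring
      rw [hfun, E2_add D C R f e (fun _ _ => (be f * be e) * 1), E2_add D C R f e
        (fun o o' => (be f * (al e - be e)) * D.sc C R f o e o'), E2_add D C R f e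
        (fun o _ => ((al f - be f) * be e) * (if o then 1 else 0)),
        E2_mul D C R f e _ (fun _ _ => 1), E2_mul D C R f e _ (fun o o' => D.sc C R f o e o'),
        E2_mul D C R f e _ (fun o _ => if o then 1 else 0), E2_mul D C R f e _
        (fun o o' => (if o then 1 else 0) * D.sc C R f o e o'), hone, hs, h5, h6, hcov]
      unfold Dat.me
      ring
    · have hfun : (fun o o' : Bool => g1 al be f o * D.g2 C R al be f o e o') =
          (fun o o' : Bool => be f * D.g2 C R al be f o e o') := by
        funext o o'
        unfold g1
        rw [hgen f hf hgf]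
        simp
      rw [hfun, E2_mul D C R f e (be f) (fun o o' => D.g2 C R al be f o e o'), h3]
      unfold Dat.me
      rw [hgen f hf hgf]
      ring
  · have hfun : (fun o o' : Bool => g1 al be f o * D.g2 C R al be f o e o') =
        (fun o _ : Bool => be e * g1 al be f o) := by
      funext o o'
      unfold Dat.g2
      rw [hgen e he hge]
      ring
    rw [hfun, E2_mul D C R f e (be e) (fun o _ => g1 al be f o), h1]
    unfold Dat.me
    rw [hgen e he hge]
    ring

end Pool.Agent.QPR
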