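import Pool.Agent.QPR.Stmts2

/-!
# The crude Poincare inequality for small minors: `St_CRU`
-/

set_option autoImplicit false

namespace Pool.Agent.QPR

open Finset
open scoped Classical

namespace M_CRU

/-- along a walk the function changes by at most `length * a` -/
theorem walk_bound {V : Type} (G : SimpleGraph V) (F : V → ℝ) (a : ℝ)
    (hG : ∀ u v, G.Adj u v → |F u - F v| ≤ a) {u v : V} (p : G.Walk u v) :
    |F u - F v| ≤ p.length * a := by
  induction p with
  | nil => simp
  | @cons u b v hub p ih =>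
    rw [SimpleGraph.Walk.length_cons]
    have h1 := hG _ _ hub
    have h2 : |F u - F v| ≤ |F u - F b| + |F b - F v| := abs_sub_le _ _ _
    push_cast
    linarith

/-- connected by steps of size at most `a` inside a finite set -/
theorem refl_bound {β : Type} (S : Finset β) (r : β → β → Prop) (F : β → ℝ) (a : ℝ) (ha : 0 ≤ a)
    (hr : ∀ s s', r s s' → s ∈ S ∧ s' ∈ S ∧ |F s - F s'| ≤ a) {s s' : β} (hs : s ∈ S)
    (h : Relation.ReflTransGen r s s') : |F s - F s'| ≤ S.card * a := by
  have key : s' ∈ S ∧ ∀ hs' : s' ∈ S, (SimpleGraph.fromRel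
      (fun u v : {b // b ∈ S} => r u.1 v.1)).Reachable ⟨s, hs⟩ ⟨s', hs'⟩ := by
    induction h with
    | refl => exact ⟨hs, fun _ => SimpleGraph.Reachable.refl _⟩
    | @tail b c _ hbc ih =>
      obtain ⟨hb, hc, _⟩ := hr _ _ hbc
      refine ⟨hc, fun hc' => ?_⟩
      have h1 := ih.2 hb
      by_cases hne : (⟨b, hb⟩ : {b // b ∈ S}) = ⟨c, hc'⟩
      · rw [← hne]
        exact h1
      · refine h1.trans (SimpleGraph.Adj.reachable ?_)
        rw [SimpleGraph.fromRel_adj]
        exact ⟨hne, Or.inl hbc⟩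
  obtain ⟨p, hp⟩ := (key.2 key.1).exists_isPath
  have h1 := walk_bound _ (fun u : {b // b ∈ S} => F u.1) a (by
    intro u v huv
    rw [SimpleGraph.fromRel_adj] at huv
    rcases huv.2 with h | h
    · exact (hr _ _ h).2.2
    · rw [abs_sub_comm]
      exact (hr _ _ h).2.2) p
  have h2 : p.length < Fintype.card {b // b ∈ S} := hp.length_lt
  rw [Fintype.card_coe] at h2
  have h3 : (p.length : ℝ) ≤ S.card := by exact_mod_cast h2.le
  exact h1.trans (mul_le_mul_of_nonneg_right h3 ha)

variable {α : Type} [DecidableEq α]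

theorem card_Hist_aux (n : ℕ) : ∀ R : Finset α, R.card = n →
    (Hist R).card = n.factorial * 2 ^ n := by
  induction n with
  | zero =>
    intro R hR
    rw [Finset.card_eq_zero.1 hR, Hist_empty]
    simp
  | succ n ih =>
    intro R hR
    have hne : R.Nonempty := by
      rw [← Finset.card_pos, hR]
      omega
    have h1 := sum_Hist hne (fun _ => (1 : ℕ))
    rw [← Finset.card_eq_sum_ones] at h1
    rw [h1]
    have h2 : ∀ e ∈ R, (∑ _h ∈ Hist (R.erase e), 1 + ∑ _h ∈ Hist (R.erase e), 1 : ℕ) =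
        n.factorial * 2 ^ n + n.factorial * 2 ^ n := by
      intro e he
      rw [← Finset.card_eq_sum_ones, ih (R.erase e) (by
        rw [Finset.card_erase_of_mem he, hR]; rfl)]
    rw [Finset.sum_congr rfl h2, Finset.sum_const, hR, smul_eq_mul, Nat.factorial_succ, pow_succ]
    ring

theorem card_Hist (R : Finset α) : (Hist R).card = R.card.factorial * 2 ^ R.card :=
  card_Hist_aux _ R rfl

theorem w_nonneg (D : Dat α) (C : Finset α) (h : List (α × Bool)) : 0 ≤ D.w C h :=
  hw_nonneg D.x0.le D.y0.le zero_le_one h C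

/-- a positive weight is at least `mu ^ length` -/
theorem w_lb (D : Dat α) (hmu0 : 0 < D.mu) (hmu1 : D.mu < 1) (h : List (α × Bool)) :
    ∀ C : Finset α, 0 < D.w C h → D.mu ^ h.length ≤ D.w C h := by
  have hx : D.mu ≤ D.x := min_le_left _ _
  have hy : D.mu ≤ D.y := min_le_right _ _
  induction h with
  | nil => intro C _; simp [Dat.w, hw]
  | cons p h ih =>
    intro C hpos
    obtain ⟨e, o⟩ := p
    have hstep : ∀ (C' : Finset α) (c : ℝ), D.mu ≤ c → 0 < c * hw D.r D.x D.y 1 C' h →
        D.mu ^ (h.length + 1) ≤ c * hw D.r D.x D.y 1 C' h := by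
      intro C' c hc hp
      have h1 : 0 < hw D.r D.x D.y 1 C' h := pos_of_mul_pos_right hp (hmu0.le.trans hc)
      have h2 := ih C' h1
      rw [pow_succ, mul_comm]
      exact mul_le_mul hc h2 (pow_nonneg hmu0.le _) (hmu0.le.trans hc)
    unfold Dat.w hw at hpos ⊢
    rw [List.length_cons]
    split_ifs at hpos ⊢
    · exact absurd hpos (lt_irrefl _)
    · exact hstep _ _ hy hpos
    · exact hstep _ _ hx hpos
    · exact absurd hpos (lt_irrefl _)
    · exact hstep _ _ hmu1.le hpos
    · exact hstep _ _ hmu1.le hpos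

theorem mvE_nonneg (D : Dat α) (C R : Finset α) (F : List (α × Bool) → ℝ)
    (τ : List (α × Bool) → List (α × Bool)) : 0 ≤ D.mvE C R F τ := by
  unfold Dat.mvE
  exact Finset.sum_nonneg fun h _ =>
    mul_nonneg (le_min (w_nonneg D C h) (w_nonneg D C (τ h))) (sq_nonneg _)

/-- one term of the energy -/
theorem term_le (D : Dat α) (C R : Finset α) (F : List (α × Bool) → ℝ)
    (τ : List (α × Bool) → List (α × Bool)) {h : List (α × Bool)} (hh : h ∈ Hist R) :
    min (D.w C h) (D.w C (τ h)) * (F h - F (τ h)) ^ 2 ≤ D.mvE C R F τ := by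
  unfold Dat.mvE
  exact Finset.single_le_sum (f := fun h => min (D.w C h) (D.w C (τ h)) * (F h - F (τ h)) ^ 2)
    (fun h _ => mul_nonneg (le_min (w_nonneg D C h) (w_nonneg D C (τ h))) (sq_nonneg _)) hh

/-- one edge -/
theorem edge (D : Dat α) (hmu0 : 0 < D.mu) (hmu1 : D.mu < 1) (C R : Finset α)
    (F : List (α × Bool) → ℝ) (hW : 0 < D.W C R) {s s' : List (α × Bool)} (hs : s ∈ Hist R)
    (hs' : s' ∈ Hist R) (hw1 : 0 < D.w C s) (hw2 : 0 < D.w C s') {i : ℕ} (hi : i < R.card - 1)
    (h : s' = mA i s ∨ s' = mB i s) :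
    D.mu ^ R.card * (F s - F s') ^ 2 ≤ D.W C R * D.En C R F := by
  have hE : D.W C R * D.En C R F =
      ∑ i ∈ range (R.card - 1), (D.mvE C R F (mA i) + D.mvE C R F (mB i)) := by
    unfold Dat.En
    field_simp
  have h1 : D.mvE C R F (mA i) + D.mvE C R F (mB i) ≤ D.W C R * D.En C R F := by
    rw [hE]
    exact Finset.single_le_sum (f := fun i => D.mvE C R F (mA i) + D.mvE C R F (mB i))
      (fun j _ => add_nonneg (mvE_nonneg D C R F _) (mvE_nonneg D C R F _)) (mem_range.2 hi)
  have h2 : min (D.w C s) (D.w C s') * (F s - F s') ^ 2 ≤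
      D.mvE C R F (mA i) + D.mvE C R F (mB i) := by
    rcases h with rfl | rfl
    · exact (term_le D C R F (mA i) hs).trans (le_add_of_nonneg_right (mvE_nonneg D C R F _))
    · exact (term_le D C R F (mB i) hs).trans (le_add_of_nonneg_left (mvE_nonneg D C R F _))
  have h3 : D.mu ^ R.card ≤ min (D.w C s) (D.w C s') := by
    refine le_min ?_ ?_
    · rw [← length_of_mem_Hist hs]
      exact w_lb D hmu0 hmu1 s C hw1
    · rw [← length_of_mem_Hist hs']
      exact w_lb D hmu0 hmu1 s' C hw2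
  exact (mul_le_mul_of_nonneg_right h3 (sq_nonneg _)).trans (h2.trans h1)

/-- a weighted average of a function which varies by at most `b` on the histories of positive
weight -/
theorem var_le (D : Dat α) (C R : Finset α) (F : List (α × Bool) → ℝ) (b : ℝ)
    (hW : 0 < D.W C R)
    (hF : ∀ h ∈ Hist R, ∀ h' ∈ Hist R, 0 < D.w C h → 0 < D.w C h' → |F h - F h'| ≤ b) :
    D.Vr C R F ≤ b ^ 2 := by
  have h1 : ∀ h ∈ Hist R, 0 < D.w C h → |F h - D.Ex C R F| ≤ b := by
    intro h hh hp
    have e1 : F h - D.Ex C R F = (∑ h' ∈ Hist R, D.w C h' * (F h - F h')) / D.W C R := by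
      unfold Dat.Ex
      rw [eq_div_iff hW.ne', sub_mul, div_mul_cancel₀ _ hW.ne']
      unfold Dat.W
      rw [Finset.mul_sum, ← Finset.sum_sub_distrib]
      exact Finset.sum_congr rfl fun h' _ => by ring
    rw [e1, abs_div, abs_of_pos hW, div_le_iff₀ hW]
    calc |∑ h' ∈ Hist R, D.w C h' * (F h - F h')|
        ≤ ∑ h' ∈ Hist R, |D.w C h' * (F h - F h')| := Finset.abs_sum_le_sum_abs _ _
      _ ≤ ∑ h' ∈ Hist R, b * D.w C h' := by
        refine Finset.sum_le_sum fun h' hh' => ?_
        rw [abs_mul, abs_of_nonneg (w_nonneg D C h'), mul_comm]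
        rcases (w_nonneg D C h').eq_or_lt with h0 | h0
        · rw [← h0]
          simp
        · exact mul_le_mul_of_nonneg_right (hF h hh h' hh' hp h0) h0.le
      _ = b * D.W C R := by
        unfold Dat.W
        rw [Finset.mul_sum]
  have h0 : D.Vr C R F =
      (∑ h ∈ Hist R, D.w C h * (F h - D.Ex C R F) ^ 2) / D.W C R := rfl
  rw [h0, div_le_iff₀ hW]
  have h2 : b ^ 2 * D.W C R = ∑ h ∈ Hist R, D.w C h * b ^ 2 := by
    unfold Dat.W
    rw [Finset.mul_sum]
    exact Finset.sum_congr rfl fun h' _ => by ring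
  rw [h2]
  refine Finset.sum_le_sum fun h hh => ?_
  rcases (w_nonneg D C h).eq_or_lt with h0 | h0
  · rw [← h0]
    simp
  · refine mul_le_mul_of_nonneg_left ?_ h0.le
    rw [← sq_abs (F h - D.Ex C R F)]
    exact pow_le_pow_left₀ (abs_nonneg _) (h1 h hh h0) 2

end M_CRU

open M_CRU in
theorem t_CRU (hBAS : St_BAS) (hFST : St_FST) (hCON : St_CON) : St_CRU := by
  intro α _ D C R F
  obtain ⟨hmu0, hmu1, hT0, -, hT2, -⟩ := hBAS α D C R
  rcases R.eq_empty_or_nonempty with rfl | hR
  · have hw0 : D.w C [] = 1 := rfl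
    have hW : D.W C ∅ = 1 := by
      unfold Dat.W
      rw [Hist_empty, Finset.sum_singleton, hw0]
    have hEx : ∀ G : List (α × Bool) → ℝ, D.Ex C ∅ G = G [] := by
      intro G
      unfold Dat.Ex
      rw [hW, Hist_empty, Finset.sum_singleton, hw0]
      simp
    have hV : D.Vr C ∅ F = 0 := by
      unfold Dat.Vr
      rw [hEx, hEx]
      simp
    have hE : D.En C ∅ F = 0 := by
      unfold Dat.En
      simp
    rw [hV, hE, mul_zero]
  · obtain ⟨hW1, hW0, -, -, -, -, -, -, -, -, -, -, hEn⟩ := hFST α D C R F hR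
    have hmum : 0 < D.mu ^ R.card := pow_pos hmu0 _
    set N : ℝ := (R.card.factorial : ℝ) * 2 ^ R.card with hN
    have hN0 : 0 ≤ N := by positivity
    have hWN : D.W C R ≤ N := by
      rw [hW1]
      exact mul_le_mul_of_nonneg_left hT2 (Nat.cast_nonneg _)
    set B : ℝ := D.W C R * D.En C R F / D.mu ^ R.card with hB
    have hB0 : 0 ≤ B := div_nonneg (mul_nonneg hW0.le hEn) hmum.le
    have hcard : ((Hist R).card : ℝ) = N := by
      rw [card_Hist, hN]
      push_cast
      rfl
    have h1 : ∀ h ∈ Hist R, ∀ h' ∈ Hist R, 0 < D.w C h → 0 < D.w C h' →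
        |F h - F h'| ≤ N * √B := by
      intro h hh h' hh' hp hp'
      rw [← hcard]
      refine refl_bound (Hist R) _ F (√B) (Real.sqrt_nonneg _) ?_ hh (hCON α D C R h hh h' hh' hp hp')
      rintro s s' ⟨hs, hs', hw1, hw2, i, hi, hss⟩
      refine ⟨hs, hs', ?_⟩
      apply Real.abs_le_sqrt
      rw [hB, le_div_iff₀ hmum, mul_comm]
      exact edge D hmu0 hmu1 C R F hW0 hs hs' hw1 hw2 hi hss
    have h2 := var_le D C R F (N * √B) hW0 h1
    rw [mul_pow, Real.sq_sqrt hB0] at h2
    refine h2.trans ?_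
    have h3 : B ≤ N * D.En C R F / D.mu ^ R.card := by
      rw [hB]
      exact div_le_div_of_nonneg_right (mul_le_mul_of_nonneg_right hWN hEn) hmum.le
    calc N ^ 2 * B ≤ N ^ 2 * (N * D.En C R F / D.mu ^ R.card) :=
          mul_le_mul_of_nonneg_left h3 (sq_nonneg _)
      _ = N ^ 3 / D.mu ^ R.card * D.En C R F := by ring

end Pool.Agent.QPR
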