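import Pool.Agent.QPR.Stmts2

/-!
# (3.5), the sum over all pairs
-/

set_option autoImplicit false

namespace Pool.Agent.QPR

open Finset
open scoped Classical

namespace M_ERR

theorem sum_swap {α : Type} [DecidableEq α] (R : Finset α) (X : α → α → ℝ) :
    ∑ f ∈ R, ∑ e ∈ R.erase f, X f e = ∑ f ∈ R, ∑ e ∈ R.erase f, X e f := by
  rw [Finset.sum_sigma', Finset.sum_sigma']
  refine Finset.sum_bij' (fun p _ => ⟨p.2, p.1⟩) (fun p _ => ⟨p.2, p.1⟩) ?_ ?_ ?_ ?_ ?_
  · rintro ⟨f, e⟩ h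
    simp only [Finset.mem_sigma, Finset.mem_erase] at h ⊢
    exact ⟨h.2.2, fun h1 => h.2.1 h1.symm, h.1⟩
  · rintro ⟨f, e⟩ h
    simp only [Finset.mem_sigma, Finset.mem_erase] at h ⊢
    exact ⟨h.2.2, fun h1 => h.2.1 h1.symm, h.1⟩
  · rintro ⟨f, e⟩ _; rfl
  · rintro ⟨f, e⟩ _; rfl
  · rintro ⟨f, e⟩ _; rfl

/-- Cauchy-Schwarz. -/
theorem cs {ι : Type} (s : Finset ι) (a b : ι → ℝ) (ha : ∀ i ∈ s, 0 ≤ a i)
    (hb : ∀ i ∈ s, 0 ≤ b i) :
    ∑ i ∈ s, √(a i * b i) ≤ √(∑ i ∈ s, a i) * √(∑ i ∈ s, b i) := by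
  have h1 : ∑ i ∈ s, √(a i * b i) = ∑ i ∈ s, √(a i) * √(b i) :=
    Finset.sum_congr rfl fun i hi => Real.sqrt_mul (ha i hi) _
  rw [h1]
  have h2 := Finset.sum_mul_sq_le_sq_mul_sq s (fun i => √(a i)) (fun i => √(b i))
  have h3 : ∑ i ∈ s, √(a i) ^ 2 = ∑ i ∈ s, a i :=
    Finset.sum_congr rfl fun i hi => Real.sq_sqrt (ha i hi)
  have h4 : ∑ i ∈ s, √(b i) ^ 2 = ∑ i ∈ s, b i :=
    Finset.sum_congr rfl fun i hi => Real.sq_sqrt (hb i hi)
  rw [h3, h4] at h2
  rw [← Real.sqrt_mul (Finset.sum_nonneg ha)]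
  exact Real.le_sqrt_of_sq_le h2

end M_ERR

open M_ERR

theorem t_ERR (hBAS : St_BAS) (hVV : St_VV) (hXA : St_XA) (hXB : St_XB) (hXC : St_XC)
    (hXD : St_XD) : St_ERR := by
  intro α _ D C R al be G hcard hgen
  obtain ⟨hmu, -, -, -, -, hbas⟩ := hBAS α D C R
  have ht : ∀ e o f o', 0 ≤ D.t C R e o f o' := (hVV α D C R (fun _ => 0) al be hcard).2.2.1
  have hve : ∀ e ∈ R, 0 ≤ D.ve C R al be e := by
    intro e he
    unfold Dat.ve
    by_cases hg : D.Gen C R e
    · obtain ⟨_, hp0, hp1, _⟩ := (hbas e he).2.2.1 hg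
      have : 0 ≤ D.pe C R e * (1 - D.pe C R e) := mul_nonneg hp0.le (by linarith)
      positivity
    · rw [hgen e he hg, sub_self]
      have := sq_nonneg (D.me C R al be e)
      nlinarith
  have hDef : ∀ e f, 0 ≤ D.Def C R G e f := by
    intro e f
    unfold Dat.Def
    refine Finset.sum_nonneg fun o _ => Finset.sum_nonneg fun o' _ => add_nonneg ?_ ?_
    · exact mul_nonneg (le_min (ht _ _ _ _) (ht _ _ _ _)) (sq_nonneg _)
    · split_ifs
      · exact mul_nonneg (le_min (ht _ _ _ _) (ht _ _ _ _)) (sq_nonneg _)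
      · exact le_rfl
  have hX : ∀ f ∈ R, ∀ e ∈ R.erase f,
      |D.E2 C R f e (fun o o' => D.g2 C R al be f o e o' * G f o e o') -
        D.E2 C R e f (fun o o' => g1 al be e o * G e o f o')| ≤
        2 / D.mu * √(D.ve C R al be e * D.Def C R G e f) := by
    intro f hf e he
    obtain ⟨hef, heR⟩ := Finset.mem_erase.1 he
    by_cases hp : D.Par C e f
    · by_cases hs : D.Ser C R e f
      · exact hXD α D C R al be G e heR f hf hef hp hs
      · exact hXB α D C R al be G e heR f hf hef hp hs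
    · by_cases hs : D.Ser C R e f
      · exact hXC α D C R al be G e heR f hf hef hp hs
      · exact hXA α D C R al be G hgen e heR f hf hef hp hs
  have hm2 : (2 : ℝ) ≤ R.card := by exact_mod_cast hcard
  have hM : (0 : ℝ) < R.card * (R.card - 1) := mul_pos (by linarith) (by linarith)
  set M : ℝ := (R.card : ℝ) * (R.card - 1) with hMdef
  have hdiff : D.E22 C R (fun f o e o' => D.g2 C R al be f o e o' * G f o e o') -
      D.E22 C R (fun f o e o' => g1 al be f o * G f o e o') =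
      (∑ f ∈ R, ∑ e ∈ R.erase f,
        (D.E2 C R f e (fun o o' => D.g2 C R al be f o e o' * G f o e o') -
          D.E2 C R e f (fun o o' => g1 al be e o * G e o f o'))) / M := by
    unfold Dat.E22
    rw [sum_swap R (fun f e => D.E2 C R f e (fun o o' => g1 al be f o * G f o e o')), ← sub_div,
      ← Finset.sum_sub_distrib]
    congr 1
    refine Finset.sum_congr rfl fun f _ => ?_
    rw [← Finset.sum_sub_distrib]
  have hS1 : ∑ p ∈ R.sigma (fun f => R.erase f), D.ve C R al be p.2 = M * D.nn C R al be := by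
    rw [Finset.sum_sigma R (fun f => R.erase f) (fun p => D.ve C R al be p.2)]
    have h1 := sum_swap R (fun _ e => D.ve C R al be e)
    rw [h1]
    have h2 : ∀ f ∈ R, ∑ e ∈ R.erase f, D.ve C R al be f = ((R.card : ℝ) - 1) * D.ve C R al be f := by
      intro f hf
      rw [Finset.sum_const, Finset.card_erase_of_mem hf, nsmul_eq_mul, Nat.cast_sub (by omega),
        Nat.cast_one]
    rw [Finset.sum_congr rfl h2, ← Finset.mul_sum]
    unfold Dat.nn
    rw [hMdef]
    have h0 : (R.card : ℝ) ≠ 0 := by linarith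
    field_simp
  have hS2 : ∑ p ∈ R.sigma (fun f => R.erase f), D.Def C R G p.2 p.1 = M * D.D2 C R G := by
    rw [Finset.sum_sigma R (fun f => R.erase f) (fun p => D.Def C R G p.2 p.1)]
    have h1 := sum_swap R (fun f e => D.Def C R G e f)
    rw [h1]
    unfold Dat.D2
    rw [← hMdef, mul_div_cancel₀ _ hM.ne']
  have hcs := cs (R.sigma (fun f => R.erase f)) (fun p => D.ve C R al be p.2)
    (fun p => D.Def C R G p.2 p.1)
    (fun p hp => hve _ (Finset.mem_of_mem_erase (Finset.mem_sigma.1 hp).2)) (fun p _ => hDef _ _)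
  rw [hS1, hS2, Real.sqrt_mul hM.le, Real.sqrt_mul hM.le] at hcs
  have hmain : |∑ f ∈ R, ∑ e ∈ R.erase f,
        (D.E2 C R f e (fun o o' => D.g2 C R al be f o e o' * G f o e o') -
          D.E2 C R e f (fun o o' => g1 al be e o * G e o f o'))| ≤
      2 / D.mu * (M * (√(D.nn C R al be) * √(D.D2 C R G))) := by
    calc _ ≤ ∑ f ∈ R, ∑ e ∈ R.erase f,
        |D.E2 C R f e (fun o o' => D.g2 C R al be f o e o' * G f o e o') -
          D.E2 C R e f (fun o o' => g1 al be e o * G e o f o')| :=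
          (Finset.abs_sum_le_sum_abs _ _).trans
            (Finset.sum_le_sum fun f _ => Finset.abs_sum_le_sum_abs _ _)
      _ ≤ ∑ f ∈ R, ∑ e ∈ R.erase f, 2 / D.mu * √(D.ve C R al be e * D.Def C R G e f) :=
          Finset.sum_le_sum fun f hf => Finset.sum_le_sum fun e he => hX f hf e he
      _ = 2 / D.mu * ∑ p ∈ R.sigma (fun f => R.erase f),
            √(D.ve C R al be p.2 * D.Def C R G p.2 p.1) := by
          rw [Finset.sum_sigma R (fun f => R.erase f)
            (fun p => √(D.ve C R al be p.2 * D.Def C R G p.2 p.1)), Finset.mul_sum]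
          exact Finset.sum_congr rfl fun f _ => (Finset.mul_sum _ _ _).symm
      _ ≤ 2 / D.mu * (M * (√(D.nn C R al be) * √(D.D2 C R G))) := by
          have h2 : 0 ≤ 2 / D.mu := by positivity
          refine mul_le_mul_of_nonneg_left (hcs.trans (le_of_eq ?_)) h2
          have h3 := Real.mul_self_sqrt hM.le
          calc √M * √(D.nn C R al be) * (√M * √(D.D2 C R G)) =
              √M * √M * (√(D.nn C R al be) * √(D.D2 C R G)) := by ring
            _ = _ := by rw [h3]
  rw [hdiff, abs_div, abs_of_pos hM, div_le_iff₀ hM]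
  calc _ ≤ _ := hmain
    _ = _ := by ring

end Pool.Agent.QPR
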