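import Pool.Agent.QPR.Stmts2

/-!
# Module EXP of part (2) of the project QPR
-/

set_option autoImplicit false

namespace Pool.Agent.QPR

open Finset
open scoped Classical

namespace M_EXP

variable {α : Type} [DecidableEq α]

theorem w_nonneg (D : Dat α) (C : Finset α) (h : List (α × Bool)) : 0 ≤ D.w C h :=
  hw_nonneg D.x0.le D.y0.le zero_le_one h C

theorem W_pos (hBAS : St_BAS) (D : Dat α) (C R : Finset α) : 0 < D.W C R := by
  obtain ⟨-, -, h3, -⟩ := hBAS α D C R
  have h : D.W C R = R.card.factorial * TT D.r D.x D.y C R := sum_hw D.hr D.x D.y R.card C R rfl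
  rw [h]
  have h1 : (0 : ℝ) < R.card.factorial := by exact_mod_cast Nat.factorial_pos _
  exact mul_pos h1 h3

section

variable (hBAS : St_BAS) (D : Dat α) (C R : Finset α) (F G : List (α × Bool) → ℝ) (c : ℝ)

include hBAS

theorem ex_shift : D.Ex C R (fun h => F h + c) = D.Ex C R F + c := by
  have hW := (W_pos hBAS D C R).ne'
  unfold Dat.Ex
  have h1 : ∑ h ∈ Hist R, D.w C h * (F h + c) = ∑ h ∈ Hist R, D.w C h * F h + D.W C R * c := by
    unfold Dat.W
    rw [Finset.sum_mul, ← Finset.sum_add_distrib]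
    exact Finset.sum_congr rfl fun h _ => by ring
  rw [h1, add_div, mul_div_cancel_left₀ _ hW]

omit hBAS in
theorem ex_mul : D.Ex C R (fun h => c * F h) = c * D.Ex C R F := by
  unfold Dat.Ex
  rw [← mul_div_assoc, Finset.mul_sum]
  congr 1
  exact Finset.sum_congr rfl fun h _ => by ring

omit hBAS in
theorem ex_add : D.Ex C R (fun h => F h + G h) = D.Ex C R F + D.Ex C R G := by
  unfold Dat.Ex
  rw [← add_div, ← Finset.sum_add_distrib]
  congr 1
  exact Finset.sum_congr rfl fun h _ => by ring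

theorem ex_mono (hFG : ∀ h ∈ Hist R, F h ≤ G h) : D.Ex C R F ≤ D.Ex C R G := by
  unfold Dat.Ex
  refine div_le_div_of_nonneg_right ?_ (W_pos hBAS D C R).le
  exact Finset.sum_le_sum fun h hh => mul_le_mul_of_nonneg_left (hFG h hh) (w_nonneg D C h)

theorem ex_nonneg (hF : ∀ h ∈ Hist R, 0 ≤ F h) : 0 ≤ D.Ex C R F := by
  unfold Dat.Ex
  refine div_nonneg ?_ (W_pos hBAS D C R).le
  exact Finset.sum_nonneg fun h hh => mul_nonneg (w_nonneg D C h) (hF h hh)

theorem ex_cs : D.Ex C R (fun h => F h * G h) ^ 2 ≤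
    D.Ex C R (fun h => F h ^ 2) * D.Ex C R (fun h => G h ^ 2) := by
  unfold Dat.Ex
  rw [div_pow, div_mul_div_comm, ← sq (D.W C R)]
  refine div_le_div_of_nonneg_right ?_ (sq_nonneg _)
  refine Finset.sum_sq_le_sum_mul_sum_of_sq_eq_mul _
    (fun h _ => mul_nonneg (w_nonneg D C h) (sq_nonneg _))
    (fun h _ => mul_nonneg (w_nonneg D C h) (sq_nonneg _)) (fun h _ => by ring)

theorem ex_one : D.Ex C R (fun _ => 1) = 1 := by
  unfold Dat.Ex
  simp only [mul_one]
  exact div_self (W_pos hBAS D C R).ne'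

theorem ex_sq : D.Ex C R F ^ 2 ≤ D.Ex C R (fun h => F h ^ 2) := by
  have h := ex_cs hBAS D C R F (fun _ => 1)
  simp only [mul_one, one_pow] at h
  rwa [ex_one hBAS, mul_one] at h

theorem vr_shift : D.Vr C R (fun h => F h + c) = D.Vr C R F := by
  unfold Dat.Vr
  rw [ex_shift hBAS]
  congr 1
  funext h
  ring

theorem phi_shift (e : α) (o : Bool) :
    D.phi C R (fun h => F h + c) e o = D.phi C R F e o + c :=
  ex_shift hBAS D (nx C e o) (R.erase e) (fun h => F ((e, o) :: h)) c

theorem i0_shift : D.I0 C R (fun h => F h + c) = D.I0 C R F := by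
  unfold Dat.I0
  refine Finset.sum_congr rfl fun e _ => Finset.sum_congr rfl fun o _ => ?_
  rw [ex_shift hBAS, phi_shift hBAS]
  ring

theorem step_shift : D.step D.I0 C R (fun h => F h + c) = D.step D.I0 C R F := by
  unfold Dat.step
  refine Finset.sum_congr rfl fun e _ => Finset.sum_congr rfl fun o _ => ?_
  rw [i0_shift hBAS D (nx C e o) (R.erase e) (fun h => F ((e, o) :: h)) c]

omit hBAS in
theorem mvE_shift (τ : List (α × Bool) → List (α × Bool)) :
    D.mvE C R (fun h => F h + c) τ = D.mvE C R F τ := by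
  unfold Dat.mvE
  exact Finset.sum_congr rfl fun h _ => by ring

omit hBAS in
theorem mvE_nonneg (τ : List (α × Bool) → List (α × Bool)) : 0 ≤ D.mvE C R F τ := by
  unfold Dat.mvE
  exact Finset.sum_nonneg fun h _ =>
    mul_nonneg (le_min (w_nonneg D C h) (w_nonneg D C _)) (sq_nonneg _)

end

end M_EXP

open M_EXP in
theorem t_EXP (hBAS : St_BAS) : St_EXP := by
  intro α _ D C R F G c
  refine ⟨ex_shift hBAS D C R F c, ex_mul D C R F c, ex_add D C R F G, ex_mono hBAS D C R F G,
    ex_cs hBAS D C R F G, ex_sq hBAS D C R F, vr_shift hBAS D C R F c, i0_shift hBAS D C R F c,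
    step_shift hBAS D C R F c, ?_, ?_, ?_, ?_⟩
  · unfold Dat.En
    simp only [mvE_shift]
  · unfold Dat.E1
    simp only [mvE_shift]
  · exact ex_nonneg hBAS D C R _ fun h _ => sq_nonneg _
  · unfold Dat.En
    refine div_nonneg ?_ (W_pos hBAS D C R).le
    exact Finset.sum_nonneg fun i _ => add_nonneg (mvE_nonneg D C R F _) (mvE_nonneg D C R F _)

end Pool.Agent.QPR
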