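import Pool.Agent.QPR.Stmts2

/-!
# QPR, part (2): the first entry
-/

set_option autoImplicit false

namespace Pool.Agent.QPR

open Finset
open scoped Classical

namespace M_FST

variable {α : Type} [DecidableEq α] (D : Dat α)

theorem W_eq (C R : Finset α) : D.W C R = (R.card.factorial : ℝ) * D.T C R :=
  sum_hw D.hr D.x D.y _ C R rfl

theorem T_pos (hBAS : St_BAS) (C R : Finset α) : 0 < D.T C R := (hBAS α D C R).2.2.1

theorem W_pos (hBAS : St_BAS) (C R : Finset α) : 0 < D.W C R := by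
  rw [W_eq]
  exact mul_pos (by positivity) (T_pos D hBAS C R)

theorem om_nonneg (C R : Finset α) (e : α) (o : Bool) : 0 ≤ D.om C R e o := by
  have hx := D.x0.le
  have hy := D.y0.le
  unfold Dat.om
  split_ifs <;> first | exact le_refl _ | assumption | exact zero_le_one

theorem w_nonneg (C : Finset α) (h : List (α × Bool)) : 0 ≤ D.w C h :=
  hw_nonneg D.x0.le D.y0.le zero_le_one h C

theorem w_cons {C R : Finset α} {e : α} {o : Bool} {h : List (α × Bool)}
    (hh : h ∈ Hist (R.erase e)) :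
    D.w C ((e, o) :: h) = D.om C R e o * D.w (nx C e o) h := by
  have h1 := (mem_Hist.1 hh).2
  unfold Dat.w Dat.om Dat.Lp Dat.Cl nx
  rw [hw, h1]
  by_cases hl : D.r (insert e C) = D.r C
  · cases o <;> simp [hl]
  · by_cases hc : D.r (C ∪ R.erase e) < D.r (insert e (C ∪ R.erase e))
    · cases o <;> simp [hl, hc]
    · cases o <;> simp [hl, hc]

/-- summation over the first entry -/
theorem sum_w {C R : Finset α} (hR : R.Nonempty) (G : List (α × Bool) → ℝ) :
    ∑ h ∈ Hist R, D.w C h * G h = ∑ e ∈ R, ∑ o : Bool, D.om C R e o *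
      ∑ h ∈ Hist (R.erase e), D.w (nx C e o) h * G ((e, o) :: h) := by
  rw [sum_Hist hR]
  refine Finset.sum_congr rfl fun e he => ?_
  rw [Fintype.sum_bool]
  have key : ∀ o : Bool, ∑ h ∈ Hist (R.erase e), D.w C ((e, o) :: h) * G ((e, o) :: h) =
      D.om C R e o * ∑ h ∈ Hist (R.erase e), D.w (nx C e o) h * G ((e, o) :: h) := by
    intro o
    rw [Finset.mul_sum]
    refine Finset.sum_congr rfl fun h hh => ?_
    rw [w_cons D hh, mul_assoc]
  rw [key, key]

theorem P_eq {C R : Finset α} (hBAS : St_BAS) {e : α} (he : e ∈ R) (o : Bool) :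
    D.P C R e o = D.om C R e o * D.W (nx C e o) (R.erase e) / D.W C R := by
  have hc : 0 < R.card := Finset.card_pos.2 ⟨e, he⟩
  obtain ⟨n, hn⟩ : ∃ n, R.card = n + 1 := ⟨R.card - 1, by omega⟩
  have h1 : (R.erase e).card = n := by rw [Finset.card_erase_of_mem he, hn]; rfl
  have h2 := T_pos D hBAS C R
  have h3 : (0 : ℝ) < n.factorial := by positivity
  unfold Dat.P
  rw [W_eq, W_eq, h1, hn, Nat.factorial_succ]
  push_cast
  field_simp

theorem sum_om {C R : Finset α} (hBAS : St_BAS) {e : α} (he : e ∈ R) :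
    ∑ o : Bool, D.om C R e o * D.T (nx C e o) (R.erase e) = D.T C R := by
  have hb := (hBAS α D C R).2.2.2.2.2 e he
  rw [Fintype.sum_bool]
  unfold nx Dat.om
  by_cases hl : D.Lp C e
  · simp only [hl, if_true, Bool.false_eq_true, if_false]
    rw [(hb.1 hl).1]
    ring
  · by_cases hc : D.Cl C R e
    · simp only [hl, hc, if_true, Bool.false_eq_true, if_false]
      rw [hb.2.1 hc]
      ring
    · simp only [hl, hc, if_true, Bool.false_eq_true, if_false]
      rw [(hb.2.2.1 ⟨hl, hc⟩).1]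
      ring

theorem P_nonneg {C R : Finset α} (hBAS : St_BAS) {e : α} (he : e ∈ R) (o : Bool) :
    0 ≤ D.P C R e o := by
  rw [P_eq D hBAS he]
  exact div_nonneg (mul_nonneg (om_nonneg D _ _ _ _) (W_pos D hBAS _ _).le) (W_pos D hBAS _ _).le

theorem sum_P {C R : Finset α} (hBAS : St_BAS) {e : α} (he : e ∈ R) :
    ∑ o : Bool, D.P C R e o = 1 / R.card := by
  have hc : (0 : ℝ) < R.card := by exact_mod_cast Finset.card_pos.2 ⟨e, he⟩
  have h2 := T_pos D hBAS C R
  unfold Dat.P
  rw [← Finset.sum_div, sum_om D hBAS he]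
  field_simp

theorem sum_sum_P {C R : Finset α} (hBAS : St_BAS) (hR : R.Nonempty) :
    ∑ e ∈ R, ∑ o : Bool, D.P C R e o = 1 := by
  have hc : (R.card : ℝ) ≠ 0 := by exact_mod_cast (Finset.card_pos.2 hR).ne'
  rw [Finset.sum_congr rfl fun e he => sum_P D hBAS he, Finset.sum_const, nsmul_eq_mul]
  field_simp

/-- averages over the first entry: a functional of the tail with denominator `W` -/
theorem avg {C R : Finset α} (hBAS : St_BAS) (Q : α → Bool → ℝ) :
    (∑ e ∈ R, ∑ o : Bool, D.om C R e o * Q e o) / D.W C R =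
      ∑ e ∈ R, ∑ o : Bool, D.P C R e o * (Q e o / D.W (nx C e o) (R.erase e)) := by
  rw [Finset.sum_div]
  refine Finset.sum_congr rfl fun e he => ?_
  rw [Finset.sum_div]
  refine Finset.sum_congr rfl fun o _ => ?_
  have h1 := W_pos D hBAS (nx C e o) (R.erase e)
  have h2 := W_pos D hBAS C R
  rw [P_eq D hBAS he]
  field_simp

theorem Ex_eq {C R : Finset α} (hBAS : St_BAS) (hR : R.Nonempty) (F : List (α × Bool) → ℝ) :
    D.Ex C R F = ∑ e ∈ R, ∑ o : Bool, D.P C R e o * D.phi C R F e o := by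
  unfold Dat.Ex Dat.phi
  rw [sum_w D hR, avg D hBAS]
  rfl

theorem Vr_eq {C R : Finset α} (hBAS : St_BAS) (F : List (α × Bool) → ℝ) :
    D.Vr C R F = D.Ex C R (fun h => F h ^ 2) - D.Ex C R F ^ 2 := by
  have hW := W_pos D hBAS C R
  have h1 : D.Vr C R F = (∑ h ∈ Hist R, D.w C h * (F h - D.Ex C R F) ^ 2) / D.W C R := rfl
  have h2 : ∑ h ∈ Hist R, D.w C h * F h = D.Ex C R F * D.W C R := by
    unfold Dat.Ex
    rw [div_mul_cancel₀ _ hW.ne']
  have h3 : ∑ h ∈ Hist R, D.w C h * F h ^ 2 = D.Ex C R (fun h => F h ^ 2) * D.W C R := by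
    unfold Dat.Ex
    rw [div_mul_cancel₀ _ hW.ne']
  have h4 : ∑ h ∈ Hist R, D.w C h * (F h - D.Ex C R F) ^ 2 =
      ∑ h ∈ Hist R, D.w C h * F h ^ 2 - 2 * D.Ex C R F * ∑ h ∈ Hist R, D.w C h * F h +
        D.Ex C R F ^ 2 * ∑ h ∈ Hist R, D.w C h := by
    rw [Finset.mul_sum, Finset.mul_sum, ← Finset.sum_sub_distrib, ← Finset.sum_add_distrib]
    exact Finset.sum_congr rfl fun h _ => by ring
  have h5 : ∑ h ∈ Hist R, D.w C h = D.W C R := rfl
  rw [h1, h4, h2, h3, h5]
  field_simp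
  ring

theorem mvE_nonneg (C R : Finset α) (F : List (α × Bool) → ℝ)
    (τ : List (α × Bool) → List (α × Bool)) : 0 ≤ D.mvE C R F τ :=
  Finset.sum_nonneg fun h _ =>
    mul_nonneg (le_min (w_nonneg D C h) (w_nonneg D C (τ h))) (sq_nonneg _)

theorem Vr_nonneg (hBAS : St_BAS) (C R : Finset α) (F : List (α × Bool) → ℝ) :
    0 ≤ D.Vr C R F := by
  have h1 : D.Vr C R F = (∑ h ∈ Hist R, D.w C h * (F h - D.Ex C R F) ^ 2) / D.W C R := rfl
  rw [h1]
  exact div_nonneg (Finset.sum_nonneg fun h _ => mul_nonneg (w_nonneg D C h) (sq_nonneg _))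
    (W_pos D hBAS C R).le

/-- a move at a later position acts on the tail -/
theorem mvE_succ {C R : Finset α} (hR : R.Nonempty) (F : List (α × Bool) → ℝ) (k : Bool × Bool)
    (i : ℕ) : D.mvE C R F (fun h => actN k (i + 1) h) =
      ∑ e ∈ R, ∑ o : Bool, D.om C R e o *
        D.mvE (nx C e o) (R.erase e) (fun h => F ((e, o) :: h)) (fun h => actN k i h) := by
  unfold Dat.mvE
  rw [sum_Hist hR]
  refine Finset.sum_congr rfl fun e he => ?_
  rw [Fintype.sum_bool]
  have key : ∀ o : Bool, ∑ h ∈ Hist (R.erase e),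
      min (D.w C ((e, o) :: h)) (D.w C (actN k (i + 1) ((e, o) :: h))) *
        (F ((e, o) :: h) - F (actN k (i + 1) ((e, o) :: h))) ^ 2 =
      D.om C R e o * ∑ h ∈ Hist (R.erase e),
        min (D.w (nx C e o) h) (D.w (nx C e o) (actN k i h)) *
          (F ((e, o) :: h) - F ((e, o) :: actN k i h)) ^ 2 := by
    intro o
    rw [Finset.mul_sum]
    refine Finset.sum_congr rfl fun h hh => ?_
    rw [actN_succ, w_cons D hh, w_cons D (actN_mem hh),
      ← mul_min_of_nonneg _ _ (om_nonneg D C R e o), mul_assoc]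
  rw [key, key]

theorem mvE_single {C R : Finset α} (hR : R.card = 1) (F : List (α × Bool) → ℝ)
    (k : Bool × Bool) : D.mvE C R F (fun h => actN k 0 h) = 0 := by
  refine Finset.sum_eq_zero fun h hh => ?_
  have h1 : actN k 0 h = h := actN_ge k 0 h (by rw [length_of_mem_Hist hh, hR])
  show min (D.w C h) (D.w C (actN k 0 h)) * (F h - F (actN k 0 h)) ^ 2 = 0
  rw [h1]
  ring

theorem En_eq {C R : Finset α} (hBAS : St_BAS) (hR : R.Nonempty) (F : List (α × Bool) → ℝ) :
    D.En C R F = D.E1 C R F + D.step D.En C R F := by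
  obtain ⟨n, hn⟩ : ∃ n, R.card = n + 1 := ⟨R.card - 1, by
    have := Finset.card_pos.2 hR; omega⟩
  have hstep : D.step D.En C R F = (∑ e ∈ R, ∑ o : Bool, D.om C R e o *
      ∑ i ∈ range (n - 1), (D.mvE (nx C e o) (R.erase e) (fun h => F ((e, o) :: h)) (mA i) +
        D.mvE (nx C e o) (R.erase e) (fun h => F ((e, o) :: h)) (mB i))) / D.W C R := by
    rw [avg D hBAS]
    unfold Dat.step Dat.En
    refine Finset.sum_congr rfl fun e he => Finset.sum_congr rfl fun o _ => ?_
    have h1 : (R.erase e).card = n := by rw [Finset.card_erase_of_mem he, hn]; rfl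
    rw [h1]
  rw [hstep]
  unfold Dat.En Dat.E1
  rw [← add_div]
  congr 1
  cases n with
  | zero =>
    have h1 : R.card = 1 := hn
    have h2 : D.mvE C R F (mA 0) = 0 := mvE_single D h1 F (true, true)
    have h3 : D.mvE C R F (mB 0) = 0 := mvE_single D h1 F (true, false)
    simp [hn, h2, h3]
  | succ n =>
    have h1 : R.card - 1 = n + 1 := by omega
    rw [h1, Finset.sum_range_succ', add_comm]
    congr 1
    have h2 : n + 1 - 1 = n := by omega
    rw [h2]
    have h3 : ∀ i, D.mvE C R F (mA (i + 1)) = ∑ e ∈ R, ∑ o : Bool, D.om C R e o *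
        D.mvE (nx C e o) (R.erase e) (fun h => F ((e, o) :: h)) (mA i) := fun i =>
      mvE_succ D hR F (true, true) i
    have h4 : ∀ i, D.mvE C R F (mB (i + 1)) = ∑ e ∈ R, ∑ o : Bool, D.om C R e o *
        D.mvE (nx C e o) (R.erase e) (fun h => F ((e, o) :: h)) (mB i) := fun i =>
      mvE_succ D hR F (true, false) i
    simp only [h3, h4, ← Finset.sum_add_distrib, ← mul_add]
    rw [Finset.sum_comm]
    refine Finset.sum_congr rfl fun e _ => ?_
    rw [Finset.sum_comm]
    refine Finset.sum_congr rfl fun o _ => ?_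
    rw [Finset.mul_sum]

end M_FST

open M_FST in
theorem t_FST (hBAS : St_BAS) : St_FST := by
  intro α _ D C R F hR
  have hP : ∀ e ∈ R, ∀ o, 0 ≤ D.P C R e o := fun e he o => P_nonneg D hBAS he o
  have hsum := sum_sum_P D hBAS (C := C) hR
  have hEx := Ex_eq D hBAS (C := C) hR F
  have hI : D.I0 C R F = ∑ e ∈ R, ∑ o : Bool, D.P C R e o * D.phi C R F e o ^ 2 -
      D.Ex C R F ^ 2 := by
    have h1 : D.I0 C R F = ∑ e ∈ R, ∑ o : Bool, D.P C R e o * D.phi C R F e o ^ 2 -
        2 * D.Ex C R F * ∑ e ∈ R, ∑ o : Bool, D.P C R e o * D.phi C R F e o +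
        D.Ex C R F ^ 2 * ∑ e ∈ R, ∑ o : Bool, D.P C R e o := by
      unfold Dat.I0
      simp only [Finset.mul_sum]
      rw [← Finset.sum_sub_distrib, ← Finset.sum_add_distrib]
      refine Finset.sum_congr rfl fun e _ => ?_
      rw [← Finset.sum_sub_distrib, ← Finset.sum_add_distrib]
      exact Finset.sum_congr rfl fun o _ => by ring
    rw [h1, hsum, ← hEx]
    ring
  refine ⟨W_eq D C R, W_pos D hBAS C R, hP, hsum, fun e he => sum_P D hBAS he, hEx,
    Vr_eq D hBAS F, ?_, En_eq D hBAS hR F, ?_, Vr_nonneg D hBAS C R F, ?_, ?_⟩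
  · have h1 : D.step D.Vr C R F = ∑ e ∈ R, ∑ o : Bool, D.P C R e o *
        D.phi C R (fun h => F h ^ 2) e o -
        ∑ e ∈ R, ∑ o : Bool, D.P C R e o * D.phi C R F e o ^ 2 := by
      unfold Dat.step
      rw [← Finset.sum_sub_distrib]
      refine Finset.sum_congr rfl fun e _ => ?_
      rw [← Finset.sum_sub_distrib]
      refine Finset.sum_congr rfl fun o _ => ?_
      rw [Vr_eq D hBAS, mul_sub]
      rfl
    rw [h1, hI, Vr_eq D hBAS, Ex_eq D hBAS hR (fun h => F h ^ 2)]
    ring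
  · exact Finset.sum_nonneg fun e he => Finset.sum_nonneg fun o _ =>
      mul_nonneg (hP e he o) (sq_nonneg _)
  · exact div_nonneg (add_nonneg (mvE_nonneg D _ _ _ _) (mvE_nonneg D _ _ _ _))
      (W_pos D hBAS C R).le
  · exact div_nonneg (Finset.sum_nonneg fun i _ =>
      add_nonneg (mvE_nonneg D _ _ _ _) (mvE_nonneg D _ _ _ _)) (W_pos D hBAS C R).le

end Pool.Agent.QPR
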