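import Pool.Agent.QPR.Stmts2

/-!
# Insertion of an entry into a history (statement `St_INC`)
-/

set_option autoImplicit false

open Finset
open scoped Classical

namespace Pool.Agent.QPR

namespace M_INC

variable {α : Type}

theorem ins_zero (e : α) (o : Bool) (h : List (α × Bool)) : ins e o 0 h = (e, o) :: h := by
  simp [ins]

theorem ins_succ_cons (e : α) (o : Bool) (i : ℕ) (p : α × Bool) (h : List (α × Bool)) :
    ins e o (i + 1) (p :: h) = p :: ins e o i h := by
  simp [ins]

theorem ins_perm (e : α) (o : Bool) (i : ℕ) (h : List (α × Bool)) :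
    List.Perm (ins e o i h) ((e, o) :: h) := by
  unfold ins
  refine (List.perm_middle).trans ?_
  rw [List.take_append_drop]

theorem mA_ins (e : α) (o : Bool) (i : ℕ) (h : List (α × Bool)) (hi : i < h.length) :
    mA i (ins e o i h) = ins e o (i + 1) h := by
  induction i generalizing h with
  | zero =>
    cases h with
    | nil => simp at hi
    | cons p t =>
      rw [ins_zero, ins_succ_cons, ins_zero]
      rfl
  | succ i ih =>
    cases h with
    | nil => simp at hi
    | cons p t =>
      rw [ins_succ_cons, ins_succ_cons]
      have h1 : i < t.length := by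
        simpa using hi
      have h2 := ih t h1
      unfold mA at h2 ⊢
      rw [actN_succ, h2]

theorem ins_inj (e : α) (o : Bool) (i : ℕ) (h h' : List (α × Bool)) (hi : i ≤ h.length)
    (hi' : i ≤ h'.length) (heq : ins e o i h = ins e o i h') : h = h' := by
  unfold ins at heq
  have hl : (h.take i).length = (h'.take i).length := by
    rw [List.length_take, List.length_take, min_eq_left hi, min_eq_left hi']
  obtain ⟨h1, h2⟩ := List.append_inj heq hl
  have h3 : h.drop i = h'.drop i := by
    simpa using h2
  rw [← List.take_append_drop i h, ← List.take_append_drop i h', h1, h3]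

theorem ins_mem [DecidableEq α] (R : Finset α) (e : α) (o : Bool) (he : e ∈ R)
    (h : List (α × Bool)) (hh : h ∈ Hist (R.erase e)) (i : ℕ) : ins e o i h ∈ Hist R := by
  obtain ⟨h1, h2⟩ := mem_Hist.1 hh
  have hp := ins_perm e o i h
  have hpm : List.Perm ((ins e o i h).map Prod.fst) (e :: h.map Prod.fst) := by
    simpa using hp.map Prod.fst
  have hmem : e ∉ h.map Prod.fst := by
    intro hm
    have : e ∈ els h := by
      simp only [els, List.mem_toFinset]
      exact hm
    rw [h2] at this
    exact Finset.notMem_erase e R this
  rw [mem_Hist]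
  constructor
  · rw [hpm.nodup_iff, List.nodup_cons]
    exact ⟨hmem, h1⟩
  · have h3 : els (ins e o i h) = insert e (els h) := by
      ext x
      simp only [els, List.mem_toFinset, Finset.mem_insert]
      rw [hpm.mem_iff, List.mem_cons]
    rw [h3, h2, Finset.insert_erase he]

end M_INC

open M_INC in
theorem t_INC : St_INC := by
  intro α _ R e o he
  refine ⟨?_, ?_, ?_⟩
  · intro h hh i _
    exact ins_mem R e o he h hh i
  · intro h _ i hi
    exact mA_ins e o i h hi
  · intro Φ hΦ i hi
    have hlen : ∀ h ∈ Hist (R.erase e), i ≤ h.length := by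
      intro h hh
      rw [length_of_mem_Hist hh, Finset.card_erase_of_mem he]
      exact hi
    have hinj : Set.InjOn (ins e o i) (Hist (R.erase e) : Set (List (α × Bool))) := by
      intro h hh h' hh' heq
      exact ins_inj e o i h h' (hlen h (Finset.mem_coe.1 hh)) (hlen h' (Finset.mem_coe.1 hh')) heq
    rw [← Finset.sum_image hinj]
    apply Finset.sum_le_sum_of_subset_of_nonneg
    · intro x hx
      obtain ⟨h, hh, rfl⟩ := Finset.mem_image.1 hx
      exact ins_mem R e o he h hh i
    · intro x hx _
      exact hΦ x hx

end Pool.Agent.QPR
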