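import Pool.Agent.QPR.Stmts2

/-!
# QPR part (2): the final induction (`St_IND`)
-/

set_option autoImplicit false

namespace Pool.Agent.QPR

open Finset
open scoped Classical

namespace M_IND

/-- the bound for minors with `m` elements -/
noncomputable def Gm (κ c G0 : ℝ) (m : ℕ) : ℝ :=
  Real.exp (2 * κ * (harmonic m : ℝ)) * (G0 + c * m)

theorem harm_nonneg (m : ℕ) : (0 : ℝ) ≤ (harmonic m : ℝ) := by
  have : (0 : ℚ) ≤ harmonic m := by
    unfold harmonic
    exact Finset.sum_nonneg fun i _ => by positivity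
  exact_mod_cast this

theorem Gm_ge {κ c G0 : ℝ} (m : ℕ) (hκ : 0 ≤ κ) (hc : 0 ≤ c) (hG : 0 ≤ G0) :
    G0 ≤ Gm κ c G0 m := by
  have hH0 := harm_nonneg m
  have hE1 : 1 ≤ Real.exp (2 * κ * (harmonic m : ℝ)) := by
    apply Real.one_le_exp
    positivity
  have h1 : G0 ≤ G0 + c * m := by
    have : 0 ≤ c * (m : ℝ) := by positivity
    linarith
  calc G0 ≤ 1 * (G0 + c * m) := by linarith
    _ ≤ Real.exp (2 * κ * (harmonic m : ℝ)) * (G0 + c * m) :=
        mul_le_mul_of_nonneg_right hE1 (by linarith)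

theorem Gm_succ {κ c G0 : ℝ} (m : ℕ) (hκ : 0 ≤ κ) (hc : 0 ≤ c) (hG : 0 ≤ G0)
    (hm : 2 * κ ≤ (m : ℝ) + 1) :
    Gm κ c G0 m + c ≤ Gm κ c G0 (m + 1) * (1 - κ / ((m : ℝ) + 1)) := by
  have hm1 : (0 : ℝ) < (m : ℝ) + 1 := by positivity
  have hH : (harmonic (m + 1) : ℝ) = (harmonic m : ℝ) + 1 / ((m : ℝ) + 1) := by
    rw [harmonic_succ]
    push_cast
    rw [one_div]
  have hexp : Real.exp (2 * κ * (harmonic (m + 1) : ℝ)) =
      Real.exp (2 * κ * (harmonic m : ℝ)) * Real.exp (2 * (κ / ((m : ℝ) + 1))) := by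
    rw [hH, ← Real.exp_add]
    congr 1
    ring
  unfold Gm
  rw [hexp]
  set t : ℝ := κ / ((m : ℝ) + 1) with ht
  have ht0 : 0 ≤ t := div_nonneg hκ hm1.le
  have ht1 : t ≤ 1 / 2 := by
    rw [ht, div_le_iff₀ hm1]
    linarith
  have hH0 := harm_nonneg m
  set E : ℝ := Real.exp (2 * κ * (harmonic m : ℝ)) with hE
  have hE1 : 1 ≤ E := by
    rw [hE]
    apply Real.one_le_exp
    positivity
  have he : 1 ≤ Real.exp (2 * t) * (1 - t) := by
    have h1 : 1 + 2 * t ≤ Real.exp (2 * t) := by
      have := Real.add_one_le_exp (2 * t)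
      linarith
    have h2 : (1 + 2 * t) * (1 - t) ≤ Real.exp (2 * t) * (1 - t) :=
      mul_le_mul_of_nonneg_right h1 (by linarith)
    nlinarith
  have hS : 0 ≤ G0 + c * ((m : ℝ) + 1) := by positivity
  push_cast
  calc E * (G0 + c * m) + c ≤ E * (G0 + c * m) + E * c := by nlinarith
    _ = (E * (G0 + c * ((m : ℝ) + 1))) * 1 := by ring
    _ ≤ (E * (G0 + c * ((m : ℝ) + 1))) * (Real.exp (2 * t) * (1 - t)) :=
        mul_le_mul_of_nonneg_left he (mul_nonneg (by linarith) hS)
    _ = E * Real.exp (2 * t) * (G0 + c * ((m : ℝ) + 1)) * (1 - t) := by ring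

theorem Gm_le {κ c G0 : ℝ} {m n : ℕ} (hmn : m ≤ n) (hκ : 0 ≤ κ) (hc : 0 ≤ c) (hG : 0 ≤ G0) :
    Gm κ c G0 m ≤ Real.exp (2 * κ * (1 + Real.log (n + 1))) * (G0 + c * n) := by
  have hH : (harmonic m : ℝ) ≤ 1 + Real.log ((n : ℝ) + 1) := by
    have h1 := harmonic_le_one_add_log m
    have h2 : Real.log (m : ℝ) ≤ Real.log ((n : ℝ) + 1) := by
      rcases Nat.eq_zero_or_pos m with h0 | hp
      · subst h0
        have : (0 : ℝ) ≤ n := Nat.cast_nonneg n
        simpa using Real.log_nonneg (by linarith : (1 : ℝ) ≤ (n : ℝ) + 1)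
      · apply Real.log_le_log
        · exact_mod_cast hp
        · have : (m : ℝ) ≤ n := by exact_mod_cast hmn
          linarith
    linarith
  have hmn' : (m : ℝ) ≤ n := by exact_mod_cast hmn
  unfold Gm
  apply mul_le_mul
  · apply Real.exp_le_exp.mpr
    apply mul_le_mul_of_nonneg_left hH
    positivity
  · have := mul_le_mul_of_nonneg_left hmn' hc
    linarith
  · positivity
  · exact (Real.exp_pos _).le

variable {α : Type} [DecidableEq α]

theorem En_nonneg (hFST : St_FST) (D : Dat α) (C R : Finset α) (F : List (α × Bool) → ℝ) :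
    0 ≤ D.En C R F := by
  rcases R.eq_empty_or_nonempty with h | h
  · subst h
    simp [Dat.En]
  · exact (hFST α D C R F h).2.2.2.2.2.2.2.2.2.2.2.2

end M_IND

open M_IND in
theorem t_IND (hFST : St_FST) (hREC : St_REC) : St_IND := by
  intro α _ D κ c G0 n m0 hκ hc hG hm0 hA hB
  obtain ⟨hV, hMono, hLin, -⟩ := hREC α D
  have key : ∀ m : ℕ, m ≤ n → ∀ (C R : Finset α) (F : List (α × Bool) → ℝ), R.card = m →
      D.Vr C R F ≤ Gm κ c G0 m * D.En C R F := by
    intro m
    induction m with
    | zero =>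
      intro _ C R F hR
      have hE := En_nonneg hFST D C R F
      refine (hB C R F (by omega)).trans ?_
      exact mul_le_mul_of_nonneg_right (Gm_ge 0 (by linarith) hc hG) hE
    | succ m ih =>
      intro hmn C R F hR
      have hE := En_nonneg hFST D C R F
      by_cases hle : m + 1 ≤ m0
      · refine (hB C R F (by omega)).trans ?_
        exact mul_le_mul_of_nonneg_right (Gm_ge (m + 1) (by linarith) hc hG) hE
      · have hlt : m0 < R.card := by omega
        have h1 := hA C R F hlt (by omega)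
        obtain ⟨e1, -, -, e4, -⟩ := hV C R F 1 (by omega)
        have e1' : D.Vr C R F = D.I0 C R F + D.stepN D.Vr 1 C R F := by
          rw [e1]
          simp [Dat.stepN]
        have hmono := hMono D.Vr (fun C R F => Gm κ c G0 m * D.En C R F + 0 * D.En C R F) 1 C R F
          (by omega) (by
            intro C' R' F' hc'
            have := ih (by omega) C' R' F' (by omega)
            simpa using this)
        rw [hLin D.En D.En (Gm κ c G0 m) 0 1 C R F] at hmono
        have hGm0 : 0 ≤ Gm κ c G0 m := hG.trans (Gm_ge m (by linarith) hc hG)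
        have h2 : D.stepN D.Vr 1 C R F ≤ Gm κ c G0 m * D.En C R F := by
          have h3 : Gm κ c G0 m * D.stepN D.En 1 C R F ≤ Gm κ c G0 m * D.En C R F :=
            mul_le_mul_of_nonneg_left e4 hGm0
          linarith
        have hcard : (R.card : ℝ) = (m : ℝ) + 1 := by
          rw [hR]
          push_cast
          ring
        rw [hcard] at h1
        have hm0' : (m0 : ℝ) ≤ (m : ℝ) + 1 := by
          have : m0 ≤ m + 1 := by omega
          exact_mod_cast this
        have hsucc := Gm_succ (κ := κ) (c := c) (G0 := G0) m (by linarith) hc hG (by linarith)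
        set t : ℝ := κ / ((m : ℝ) + 1) with ht
        have hm1 : (0 : ℝ) < (m : ℝ) + 1 := by positivity
        have ht1 : t ≤ 1 / 2 := by
          rw [ht, div_le_iff₀ hm1]
          linarith
        have h4 : D.Vr C R F * (1 - t) ≤ Gm κ c G0 (m + 1) * D.En C R F * (1 - t) := by
          have h5 : D.Vr C R F * (1 - t) ≤ (Gm κ c G0 m + c) * D.En C R F := by
            nlinarith
          have h6 : (Gm κ c G0 m + c) * D.En C R F ≤
              Gm κ c G0 (m + 1) * (1 - t) * D.En C R F :=
            mul_le_mul_of_nonneg_right hsucc hE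
          nlinarith
        exact le_of_mul_le_mul_right h4 (by linarith)
  intro C R F hR
  have hE := En_nonneg hFST D C R F
  refine (key R.card hR C R F rfl).trans ?_
  exact mul_le_mul_of_nonneg_right (Gm_le hR (by linarith) hc hG) hE

end Pool.Agent.QPR
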