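import Pool.Agent.QPR.Stmts2

/-!
QPR2_INS: the weight of a history after the insertion of an entry at the position `i`.
-/

set_option autoImplicit false

namespace Pool.Agent.QPR.M_INS

open Finset
open scoped Classical

variable {α : Type} [DecidableEq α]

theorem w_nonneg (D : Dat α) (C : Finset α) (h : List (α × Bool)) : 0 ≤ D.w C h :=
  hw_nonneg D.x0.le D.y0.le zero_le_one h C

theorem w_cons (D : Dat α) (C R : Finset α) (f : α) (o : Bool) (h : List (α × Bool))
    (hh : els h = R.erase f) : D.w C ((f, o) :: h) = D.om C R f o * D.w (nx C f o) h := by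
  unfold Dat.w Dat.om nx Dat.Lp Dat.Cl
  rw [hw, hh]
  cases o <;> by_cases h1 : D.r (insert f C) = D.r C <;>
    by_cases h2 : D.r (C ∪ R.erase f) < D.r (insert f (C ∪ R.erase f)) <;>
    simp [h1, h2]

theorem els_ins (e : α) (o : Bool) (i : ℕ) (h : List (α × Bool)) :
    els (ins e o i h) = insert e (els h) := by
  induction i generalizing h with
  | zero => simp [ins]
  | succ i ih =>
    cases h with
    | nil => simp [ins]
    | cons p h =>
      have h1 : ins e o (i + 1) (p :: h) = p :: ins e o i h := by simp [ins]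
      rw [h1, els_cons, ih, els_cons, Finset.insert_comm]

omit [DecidableEq α] in
theorem ins_succ (e : α) (o : Bool) (i : ℕ) (p : α × Bool) (h : List (α × Bool)) :
    ins e o (i + 1) (p :: h) = p :: ins e o i h := by simp [ins]

omit [DecidableEq α] in
theorem ins_zero (e : α) (o : Bool) (h : List (α × Bool)) : ins e o 0 h = (e, o) :: h := by
  simp [ins]

theorem cnt (P Q : α → Prop) (R : Finset α) (e f : α) (k : ℕ)
    (h1 : ∀ g ∈ R, g ≠ e → g ≠ f → P g → Q g) (h2 : k = 1 ∨ ¬ P f) :
    ((R.erase e).filter P).card ≤ (((R.erase f).erase e).filter Q).card + k := by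
  rcases h2 with rfl | h2
  · have h3 : (R.erase e).filter P ⊆ insert f (((R.erase f).erase e).filter Q) := by
      intro g hg
      rw [Finset.mem_filter, Finset.mem_erase] at hg
      rw [Finset.mem_insert, Finset.mem_filter, Finset.mem_erase, Finset.mem_erase]
      by_cases hgf : g = f
      · exact Or.inl hgf
      · exact Or.inr ⟨⟨hg.1.1, hgf, hg.1.2⟩, h1 g hg.1.2 hg.1.1 hgf hg.2⟩
    exact (Finset.card_le_card h3).trans (Finset.card_insert_le _ _)
  · have h3 : (R.erase e).filter P ⊆ ((R.erase f).erase e).filter Q := by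
      intro g hg
      rw [Finset.mem_filter, Finset.mem_erase] at hg
      rw [Finset.mem_filter, Finset.mem_erase, Finset.mem_erase]
      have hgf : g ≠ f := by
        rintro rfl
        exact h2 hg.2
      exact ⟨⟨hg.1.1, hgf, hg.1.2⟩, h1 g hg.1.2 hg.1.1 hgf hg.2⟩
    exact (Finset.card_le_card h3).trans (Nat.le_add_right _ _)

theorem nx_true (C : Finset α) (f : α) : nx C f true = insert f C := by simp [nx]

theorem nx_false (C : Finset α) (f : α) : nx C f false = C := by simp [nx]

theorem stepT (hLOC : St_LOC) (hPER : St_PER) (D : Dat α) (C R : Finset α) (e f : α) (o : Bool)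
    (he : e ∈ R) (hf : f ∈ R) (hef : e ≠ f) (hl : ¬ D.Lp C e) :
    D.om (insert e C) (R.erase e) f o = 0 ∨ ∃ k : ℕ, ¬ D.Lp (nx C f o) e ∧
      D.om (insert e C) (R.erase e) f o ≤ D.y ^ k * D.om C R f o ∧
      D.np C R e ≤ D.np (nx C f o) (R.erase f) e + k := by
  obtain ⟨l1, l2, l3, l4, l5, l6, l7, l8, l9⟩ := hLOC α D C R e f he hf hef
  obtain ⟨k1, k2, k3, k4, k5, k6, k7, k8, k9⟩ := hLOC α D C R f e hf he (Ne.symm hef)
  by_cases hlf : D.Lp C f
  · have h1 : D.Lp (insert e C) f := (l3 hl).2 (Or.inl hlf)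
    cases o with
    | true => exact Or.inl (by simp [Dat.om, h1])
    | false =>
      right
      refine ⟨0, ?_, ?_, ?_⟩
      · rw [nx_false]; exact hl
      · simp [Dat.om, h1, hlf]
      · rw [nx_false]
        exact cnt _ _ R e f 0 (fun g _ _ _ h => h) (Or.inr fun h => h.2.1 hlf)
  · by_cases hp : D.Par C e f
    · have h1 : D.Lp (insert e C) f := (l3 hl).2 (Or.inr hp)
      cases o with
      | true => exact Or.inl (by simp [Dat.om, h1])
      | false =>
        right
        refine ⟨1, ?_, ?_, ?_⟩
        · rw [nx_false]; exact hl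
        · simp [Dat.om, h1, hlf, (l8 hp).2]
        · rw [nx_false]
          exact cnt _ _ R e f 1 (fun g _ _ _ h => h) (Or.inl rfl)
    · have h1 : ¬ D.Lp (insert e C) f := by
        rw [l3 hl]
        rintro (h | h)
        · exact hlf h
        · exact hp h
      have h2 : ¬ D.Lp (insert f C) e := by
        rw [k3 hlf]
        rintro (h | h)
        · exact hl h
        · exact hp (k6 h)
      right
      refine ⟨0, ?_, ?_, ?_⟩
      · cases o with
        | true => rw [nx_true]; exact h2
        | false => rw [nx_false]; exact hl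
      · simp only [Dat.om, h1, hlf, l2, if_false, pow_zero, one_mul]
        exact le_refl _
      · refine cnt _ _ R e f 0 (fun g hg hge hgf h => ?_) (Or.inr hp)
        cases o with
        | true =>
          rw [nx_true]
          exact (hPER α D C R e g f he hg hf (Ne.symm hge) (Ne.symm hef) (Ne.symm hgf)).1 h h2
        | false => rw [nx_false]; exact h

theorem stepF (hLOC : St_LOC) (hPER : St_PER) (D : Dat α) (C R : Finset α) (e f : α) (o : Bool)
    (he : e ∈ R) (hf : f ∈ R) (hef : e ≠ f) (hl : ¬ D.Cl C R e) :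
    D.om C (R.erase e) f o = 0 ∨ ∃ k : ℕ, ¬ D.Cl (nx C f o) (R.erase f) e ∧
      D.om C (R.erase e) f o ≤ D.x ^ k * D.om C R f o ∧
      D.ns C R e ≤ D.ns (nx C f o) (R.erase f) e + k := by
  obtain ⟨l1, l2, l3, l4, l5, l6, l7, l8, l9⟩ := hLOC α D C R e f he hf hef
  obtain ⟨k1, k2, k3, k4, k5, k6, k7, k8, k9⟩ := hLOC α D C R f e hf he (Ne.symm hef)
  have hct : ¬ D.Cl (insert f C) (R.erase f) e := fun h => hl (k2.1 h)
  have hP : ∀ g ∈ R, g ≠ e → g ≠ f → D.Ser C R e g → D.Ser (insert f C) (R.erase f) e g := by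
    intro g hg hge hgf h
    exact (hPER α D C R e g f he hg hf (Ne.symm hge) (Ne.symm hef) (Ne.symm hgf)).2.2.1.2 h
  have hQ : ¬ D.Cl C (R.erase f) e → ∀ g ∈ R, g ≠ e → g ≠ f → D.Ser C R e g →
      D.Ser C (R.erase f) e g := by
    intro hc g hg hge hgf h
    exact (hPER α D C R e g f he hg hf (Ne.symm hge) (Ne.symm hef) (Ne.symm hgf)).2.1 h hc
  by_cases hlf : D.Lp C f
  · cases o with
    | true => exact Or.inl (by simp [Dat.om, hlf])
    | false =>
      have h1 : ¬ D.Cl C (R.erase f) e := by
        rw [k5 (k1 hlf)]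
        rintro (h | h)
        · exact hl h
        · exact (k9 h).1 hlf
      right
      refine ⟨0, ?_, ?_, ?_⟩
      · rw [nx_false]; exact h1
      · simp [Dat.om, hlf]
      · rw [nx_false]
        exact cnt _ _ R e f 0 (hQ h1) (Or.inr fun h => (l9 h).2 hlf)
  · by_cases hc : D.Cl C (R.erase e) f
    · cases o with
      | false => exact Or.inl (by simp [Dat.om, hlf, hc])
      | true =>
        right
        by_cases hcf : D.Cl C R f
        · refine ⟨0, ?_, ?_, ?_⟩
          · rw [nx_true]; exact hct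
          · simp [Dat.om, hlf, hc, hcf]
          · rw [nx_true]
            exact cnt _ _ R e f 0 hP (Or.inr fun h => h.2.1 hcf)
        · refine ⟨1, ?_, ?_, ?_⟩
          · rw [nx_true]; exact hct
          · simp [Dat.om, hlf, hc, hcf]
          · rw [nx_true]
            exact cnt _ _ R e f 1 hP (Or.inl rfl)
    · have hcf : ¬ D.Cl C R f := fun h => hc ((l5 hl).2 (Or.inl h))
      have hs : ¬ D.Ser C R e f := fun h => hc ((l5 hl).2 (Or.inr h))
      have h1 : ¬ D.Cl C (R.erase f) e := by
        rw [k5 hcf]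
        rintro (h | h)
        · exact hl h
        · exact hs (k7 h)
      right
      refine ⟨0, ?_, ?_, ?_⟩
      · cases o with
        | true => rw [nx_true]; exact hct
        | false => rw [nx_false]; exact h1
      · simp [Dat.om, hlf, hc, hcf]
      · cases o with
        | true =>
          rw [nx_true]
          exact cnt _ _ R e f 0 hP (Or.inr hs)
        | false =>
          rw [nx_false]
          exact cnt _ _ R e f 0 (hQ h1) (Or.inr hs)

theorem nx_insert (C : Finset α) (e f : α) (o : Bool) :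
    nx (insert e C) f o = insert e (nx C f o) := by
  cases o with
  | true => rw [nx_true, nx_true, Finset.insert_comm]
  | false => rw [nx_false, nx_false]

theorem om_nonneg (D : Dat α) (C R : Finset α) (f : α) (o : Bool) : 0 ≤ D.om C R f o := by
  unfold Dat.om
  have hx := D.x0.le
  have hy := D.y0.le
  split_ifs <;> first | exact le_refl _ | assumption | exact zero_le_one

/-- the arithmetic of one step -/
theorem arith {q a b u v : ℝ} {m m' k : ℕ} (hq0 : 0 < q) (hq1 : q < 1) (ha : a ≤ q ^ k * b)
    (hb : 0 ≤ b) (hu : 0 ≤ u) (hv : 0 ≤ v) {c : ℝ} (hc : 0 ≤ c) (hm : m ≤ m' + k) :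
    (c * u ≤ v → c * (a * u) ≤ b * v) ∧
    (c * u ≤ q ^ m' * v → c * (a * u) ≤ q ^ m * (b * v)) := by
  have h1 : q ^ k ≤ 1 := pow_le_one₀ hq0.le hq1.le
  have h2 : q ^ (m' + k) ≤ q ^ m := pow_le_pow_of_le_one hq0.le hq1.le hm
  have hqk : 0 ≤ q ^ k := by positivity
  have hcu : 0 ≤ c * u := mul_nonneg hc hu
  have h3 : c * (a * u) ≤ q ^ k * b * (c * u) := by
    calc c * (a * u) = a * (c * u) := by ring
      _ ≤ q ^ k * b * (c * u) := mul_le_mul_of_nonneg_right ha hcu
  constructor
  · intro h
    calc c * (a * u) ≤ q ^ k * b * (c * u) := h3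
      _ ≤ q ^ k * b * v := mul_le_mul_of_nonneg_left h (mul_nonneg hqk hb)
      _ = q ^ k * (b * v) := by ring
      _ ≤ 1 * (b * v) := mul_le_mul_of_nonneg_right h1 (mul_nonneg hb hv)
      _ = b * v := one_mul _
  · intro h
    calc c * (a * u) ≤ q ^ k * b * (c * u) := h3
      _ ≤ q ^ k * b * (q ^ m' * v) := mul_le_mul_of_nonneg_left h (mul_nonneg hqk hb)
      _ = q ^ (m' + k) * (b * v) := by rw [pow_add]; ring
      _ ≤ q ^ m * (b * v) := mul_le_mul_of_nonneg_right h2 (mul_nonneg hb hv)

theorem baseT (D : Dat α) (C R : Finset α) (e : α) (h : List (α × Bool))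
    (hh : els h = R.erase e) (hl : ¬ D.Lp C e) :
    D.x * D.w (insert e C) h ≤ D.w C ((e, true) :: h) := by
  rw [w_cons D C R e true h hh, nx_true]
  apply mul_le_mul_of_nonneg_right _ (w_nonneg D _ _)
  have hx := D.x1.le
  simp only [Dat.om, hl, if_false, if_true]
  split_ifs
  · exact le_refl _
  · exact hx

theorem baseF (D : Dat α) (C R : Finset α) (e : α) (h : List (α × Bool))
    (hh : els h = R.erase e) (hl : ¬ D.Cl C R e) :
    D.y * D.w C h ≤ D.w C ((e, false) :: h) := by
  rw [w_cons D C R e false h hh, nx_false]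
  apply mul_le_mul_of_nonneg_right _ (w_nonneg D _ _)
  have hy := D.y1.le
  simp only [Dat.om, hl, if_false, Bool.false_eq_true]
  split_ifs
  · exact le_refl _
  · exact hy

theorem hist_cons {R : Finset α} {e f : α} {o : Bool} {h : List (α × Bool)}
    (hh : (f, o) :: h ∈ Hist (R.erase e)) :
    f ∈ R ∧ e ≠ f ∧ els h = (R.erase e).erase f ∧ h ∈ Hist ((R.erase f).erase e) := by
  obtain ⟨h1, h2⟩ := mem_Hist.1 hh
  rw [List.map_cons, List.nodup_cons] at h1
  rw [els_cons] at h2
  have hf : f ∈ R.erase e := by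
    rw [← h2]
    exact Finset.mem_insert_self _ _
  have hne : f ∉ els h := by
    intro hm
    apply h1.1
    simpa [els] using hm
  have h3 : els h = (R.erase e).erase f := by
    rw [← h2]
    exact (Finset.erase_insert hne).symm
  refine ⟨Finset.mem_of_mem_erase hf, (Finset.ne_of_mem_erase hf).symm, h3, ?_⟩
  rw [mem_Hist]
  refine ⟨h1.2, ?_⟩
  rw [h3, Finset.erase_right_comm]

theorem mainT (hLOC : St_LOC) (hPER : St_PER) (D : Dat α) (e : α) (h : List (α × Bool)) :
    ∀ C R : Finset α, e ∈ R → h ∈ Hist (R.erase e) → ¬ D.Lp C e →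
      (∀ i ≤ h.length, D.x * D.w (insert e C) h ≤ D.w C (ins e true i h)) ∧
      D.x * D.w (insert e C) h ≤ D.y ^ D.np C R e * D.w C (ins e true h.length h) := by
  induction h with
  | nil =>
    intro C R he hh hl
    have h2 := (mem_Hist.1 hh).2
    have hb := baseT D C R e [] h2 hl
    have hR : R.erase e = ∅ := by
      rw [← h2]
      rfl
    have hnp : D.np C R e = 0 := by
      unfold Dat.np
      rw [hR]
      simp
    refine ⟨?_, ?_⟩
    · intro i hi
      have : i = 0 := by simpa using hi
      subst this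
      rw [ins_zero]
      exact hb
    · rw [hnp, pow_zero, one_mul, List.length_nil, ins_zero]
      exact hb
  | cons p h ih =>
    obtain ⟨f, o⟩ := p
    intro C R he hh hl
    obtain ⟨hf, hef, h3, h4⟩ := hist_cons hh
    have hfe : f ∈ R.erase e := Finset.mem_erase.2 ⟨Ne.symm hef, hf⟩
    have hef' : e ∈ R.erase f := Finset.mem_erase.2 ⟨hef, he⟩
    have e1 : D.w (insert e C) ((f, o) :: h) =
        D.om (insert e C) (R.erase e) f o * D.w (insert e (nx C f o)) h := by
      rw [w_cons D (insert e C) (R.erase e) f o h h3, nx_insert]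
    have e2 : ∀ i, D.w C ((f, o) :: ins e true i h) =
        D.om C R f o * D.w (nx C f o) (ins e true i h) := by
      intro i
      apply w_cons
      rw [els_ins, h3, Finset.erase_right_comm, Finset.insert_erase hef']
    have hw1 : ∀ i, 0 ≤ D.w (nx C f o) (ins e true i h) := fun i => w_nonneg D _ _
    have hw2 : 0 ≤ D.w (insert e (nx C f o)) h := w_nonneg D _ _
    have hom := om_nonneg D C R f o
    have hbase := baseT D C R e ((f, o) :: h) (mem_Hist.1 hh).2 hl
    rcases stepT hLOC hPER D C R e f o he hf hef hl with h0 | ⟨k, hk1, hk2, hk3⟩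
    · have hz : D.x * D.w (insert e C) ((f, o) :: h) = 0 := by rw [e1, h0]; ring
      rw [hz]
      exact ⟨fun i _ => w_nonneg D _ _,
        mul_nonneg (pow_nonneg D.y0.le _) (w_nonneg D _ _)⟩
    · obtain ⟨i1, i2⟩ := ih (nx C f o) (R.erase f) hef' h4 hk1
      refine ⟨?_, ?_⟩
      · intro i hi
        cases i with
        | zero =>
          rw [ins_zero]
          exact hbase
        | succ i =>
          rw [ins_succ, e1, e2]
          have hi' : i ≤ h.length := by
            rw [List.length_cons] at hi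
            omega
          exact (arith D.y0 D.y1 hk2 hom hw2 (hw1 i) D.x0.le hk3).1 (i1 i hi')
      · rw [List.length_cons, ins_succ, e1, e2]
        exact (arith D.y0 D.y1 hk2 hom hw2 (hw1 h.length) D.x0.le hk3).2 i2

theorem mainF (hLOC : St_LOC) (hPER : St_PER) (D : Dat α) (e : α) (h : List (α × Bool)) :
    ∀ C R : Finset α, e ∈ R → h ∈ Hist (R.erase e) → ¬ D.Cl C R e →
      (∀ i ≤ h.length, D.y * D.w C h ≤ D.w C (ins e false i h)) ∧
      D.y * D.w C h ≤ D.x ^ D.ns C R e * D.w C (ins e false h.length h) := by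
  induction h with
  | nil =>
    intro C R he hh hl
    have h2 := (mem_Hist.1 hh).2
    have hb := baseF D C R e [] h2 hl
    have hR : R.erase e = ∅ := by
      rw [← h2]
      rfl
    have hns : D.ns C R e = 0 := by
      unfold Dat.ns
      rw [hR]
      simp
    refine ⟨?_, ?_⟩
    · intro i hi
      have : i = 0 := by simpa using hi
      subst this
      rw [ins_zero]
      exact hb
    · rw [hns, pow_zero, one_mul, List.length_nil, ins_zero]
      exact hb
  | cons p h ih =>
    obtain ⟨f, o⟩ := p
    intro C R he hh hl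
    obtain ⟨hf, hef, h3, h4⟩ := hist_cons hh
    have hfe : f ∈ R.erase e := Finset.mem_erase.2 ⟨Ne.symm hef, hf⟩
    have hef' : e ∈ R.erase f := Finset.mem_erase.2 ⟨hef, he⟩
    have e1 : D.w C ((f, o) :: h) = D.om C (R.erase e) f o * D.w (nx C f o) h := by
      rw [w_cons D C (R.erase e) f o h h3]
    have e2 : ∀ i, D.w C ((f, o) :: ins e false i h) =
        D.om C R f o * D.w (nx C f o) (ins e false i h) := by
      intro i
      apply w_cons
      rw [els_ins, h3, Finset.erase_right_comm, Finset.insert_erase hef']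
    have hw1 : ∀ i, 0 ≤ D.w (nx C f o) (ins e false i h) := fun i => w_nonneg D _ _
    have hw2 : 0 ≤ D.w (nx C f o) h := w_nonneg D _ _
    have hom := om_nonneg D C R f o
    have hbase := baseF D C R e ((f, o) :: h) (mem_Hist.1 hh).2 hl
    rcases stepF hLOC hPER D C R e f o he hf hef hl with h0 | ⟨k, hk1, hk2, hk3⟩
    · have hz : D.y * D.w C ((f, o) :: h) = 0 := by rw [e1, h0]; ring
      rw [hz]
      exact ⟨fun i _ => w_nonneg D _ _,
        mul_nonneg (pow_nonneg D.x0.le _) (w_nonneg D _ _)⟩
    · obtain ⟨i1, i2⟩ := ih (nx C f o) (R.erase f) hef' h4 hk1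
      refine ⟨?_, ?_⟩
      · intro i hi
        cases i with
        | zero =>
          rw [ins_zero]
          exact hbase
        | succ i =>
          rw [ins_succ, e1, e2]
          have hi' : i ≤ h.length := by
            rw [List.length_cons] at hi
            omega
          exact (arith D.x0 D.x1 hk2 hom hw2 (hw1 i) D.y0.le hk3).1 (i1 i hi')
      · rw [List.length_cons, ins_succ, e1, e2]
        exact (arith D.x0 D.x1 hk2 hom hw2 (hw1 h.length) D.y0.le hk3).2 i2

end Pool.Agent.QPR.M_INS

namespace Pool.Agent.QPR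

open Finset
open scoped Classical

theorem t_INS (hLOC : St_LOC) (hPER : St_PER) (_hBAS : St_BAS) : St_INS := by
  intro α _ D C R e h he hh
  exact ⟨fun hl => M_INS.mainT hLOC hPER D e h C R he hh hl,
    fun hl => M_INS.mainF hLOC hPER D e h C R he hh hl⟩

end Pool.Agent.QPR
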