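import Pool.Agent.QPR.Stmts2

/-!
# Part (2) of the project QPR: Jensen for the energy of the first two entries
-/

set_option autoImplicit false

namespace Pool.Agent.QPR

open Finset
open scoped Classical

namespace M_JEN

variable {α : Type} [DecidableEq α]

theorem w_nonneg (D : Dat α) (C : Finset α) (h : List (α × Bool)) : 0 ≤ D.w C h :=
  hw_nonneg D.x0.le D.y0.le zero_le_one _ _

theorem W_eq (D : Dat α) (C R : Finset α) : D.W C R = (R.card.factorial : ℝ) * D.T C R :=
  sum_hw D.hr D.x D.y _ C R rfl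

theorem om_nonneg (D : Dat α) (C R : Finset α) (e : α) (o : Bool) : 0 ≤ D.om C R e o := by
  unfold Dat.om
  have h1 := D.x0
  have h2 := D.y0
  split_ifs <;> linarith

/-- the weight of a history in terms of the tail -/
theorem w_cons (D : Dat α) (C R : Finset α) (e : α) (o : Bool) {h : List (α × Bool)}
    (hh : h ∈ Hist (R.erase e)) :
    D.w C ((e, o) :: h) = D.om C R e o * D.w (nx C e o) h := by
  have h1 : els h = R.erase e := (mem_Hist.1 hh).2
  unfold Dat.w Dat.om Dat.Lp Dat.Cl nx
  rw [hw, h1]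
  cases o <;> split_ifs <;> simp

/-- the weight in terms of the tail after two entries -/
theorem w_cons2 (D : Dat α) (C R : Finset α) (e f : α) (o o' : Bool) {h : List (α × Bool)}
    (hf : f ∈ R.erase e) (hh : h ∈ Hist ((R.erase e).erase f)) :
    D.w C ((e, o) :: (f, o') :: h) =
      D.om C R e o * D.om (nx C e o) (R.erase e) f o' * D.w (nx (nx C e o) f o') h := by
  have h1 : ((f, o') :: h) ∈ Hist (R.erase e) := by
    obtain ⟨h2, h3⟩ := mem_Hist.1 hh
    refine mem_Hist.2 ⟨?_, ?_⟩
    · rw [List.map_cons, List.nodup_cons]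
      refine ⟨fun hmem => ?_, h2⟩
      have : f ∈ els h := by
        simp only [els, List.mem_toFinset]
        exact hmem
      rw [h3] at this
      exact (Finset.notMem_erase f _) this
    · rw [els_cons, h3, Finset.insert_erase hf]
  rw [w_cons D C R e o h1, w_cons D (nx C e o) (R.erase e) f o' hh, mul_assoc]

theorem sum_Hist' {R : Finset α} (hR : R.Nonempty) (F : List (α × Bool) → ℝ) :
    ∑ h ∈ Hist R, F h = ∑ e ∈ R, ∑ o : Bool, ∑ h ∈ Hist (R.erase e), F ((e, o) :: h) := by
  rw [sum_Hist hR]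
  refine Finset.sum_congr rfl fun e _ => ?_
  rw [Fintype.sum_bool]

theorem sum_Hist2 {R : Finset α} (hR : 2 ≤ R.card) (F : List (α × Bool) → ℝ) :
    ∑ h ∈ Hist R, F h = ∑ e ∈ R, ∑ f ∈ R.erase e, ∑ o : Bool, ∑ o' : Bool,
      ∑ h ∈ Hist ((R.erase e).erase f), F ((e, o) :: (f, o') :: h) := by
  have hne : R.Nonempty := Finset.card_pos.1 (by omega)
  rw [sum_Hist' hne]
  refine Finset.sum_congr rfl fun e he => ?_
  have hne' : (R.erase e).Nonempty := by
    rw [← Finset.card_pos, Finset.card_erase_of_mem he]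
    omega
  calc ∑ o : Bool, ∑ h ∈ Hist (R.erase e), F ((e, o) :: h)
      = ∑ o : Bool, ∑ f ∈ R.erase e, ∑ o' : Bool,
          ∑ h ∈ Hist ((R.erase e).erase f), F ((e, o) :: (f, o') :: h) :=
        Finset.sum_congr rfl fun o _ => sum_Hist' hne' (fun h => F ((e, o) :: h))
    _ = _ := Finset.sum_comm

/-- Jensen for one pair of words -/
theorem jensen (D : Dat α) (hT0 : ∀ C R : Finset α, 0 < D.T C R) (C R : Finset α)
    (F : List (α × Bool) → ℝ) (e f : α) (o o' p p' : Bool) (he : e ∈ R) (hf : f ∈ R)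
    (hne : e ≠ f)
    (hT : D.T (nx (nx C e o) f o') ((R.erase e).erase f) =
      D.T (nx (nx C f p) e p') ((R.erase e).erase f))
    (hw : ∀ h ∈ Hist ((R.erase e).erase f),
      D.w (nx (nx C e o) f o') h = D.w (nx (nx C f p) e p') h) :
    min (D.t C R e o f o') (D.t C R f p e p') *
      (D.G2 C R F e o f o' - D.G2 C R F f p e p') ^ 2 ≤
    1 / (((R.card - 2).factorial : ℝ) * D.T C R) * ∑ h ∈ Hist ((R.erase e).erase f),
      min (D.w C ((e, o) :: (f, o') :: h)) (D.w C ((f, p) :: (e, p') :: h)) *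
        (F ((e, o) :: (f, o') :: h) - F ((f, p) :: (e, p') :: h)) ^ 2 := by
  have hS : (R.erase f).erase e = (R.erase e).erase f := Finset.erase_right_comm
  have hcard : ((R.erase e).erase f).card = R.card - 2 := by
    rw [Finset.card_erase_of_mem (Finset.mem_erase.2 ⟨hne.symm, hf⟩),
      Finset.card_erase_of_mem he]
    omega
  set S := (R.erase e).erase f with hSdef
  set q := D.om C R e o * D.om (nx C e o) (R.erase e) f o' with hq
  set q' := D.om C R f p * D.om (nx C f p) (R.erase f) e p' with hq'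
  set C' := nx (nx C e o) f o' with hC'
  set C'' := nx (nx C f p) e p' with hC''
  have hq0 : 0 ≤ q := mul_nonneg (om_nonneg _ _ _ _ _) (om_nonneg _ _ _ _ _)
  have hq0' : 0 ≤ q' := mul_nonneg (om_nonneg _ _ _ _ _) (om_nonneg _ _ _ _ _)
  have hTT : 0 < D.T C R := hT0 _ _
  have hTC : 0 < D.T C' S := hT0 _ _
  have t1 : D.t C R e o f o' = q * (D.T C' S / D.T C R) := by
    unfold Dat.t
    rw [← hq, ← hC', mul_div_assoc]
  have t2 : D.t C R f p e p' = q' * (D.T C' S / D.T C R) := by
    unfold Dat.t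
    rw [← hq', ← hC'', hS, ← hT, mul_div_assoc]
  have hmin : min (D.t C R e o f o') (D.t C R f p e p') = min q q' * (D.T C' S / D.T C R) := by
    rw [t1, t2, min_mul_of_nonneg _ _ (div_nonneg hTC.le hTT.le)]
  set u : List (α × Bool) → ℝ := fun h => F ((e, o) :: (f, o') :: h) - F ((f, p) :: (e, p') :: h)
    with hu
  have hW : D.W C' S = ((R.card - 2).factorial : ℝ) * D.T C' S := by rw [W_eq, hcard]
  have hW0 : 0 < D.W C' S := by
    rw [hW]
    exact mul_pos (by exact_mod_cast Nat.factorial_pos _) hTC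
  have hG : D.G2 C R F e o f o' - D.G2 C R F f p e p' = (∑ h ∈ Hist S, D.w C' h * u h) / D.W C' S := by
    unfold Dat.G2 Dat.Ex
    rw [hS]
    have hWW : D.W C'' S = D.W C' S := by
      unfold Dat.W
      exact Finset.sum_congr rfl fun h hh => (hw h hh).symm
    rw [← hC', ← hC'', ← hSdef, hWW, ← sub_div, ← Finset.sum_sub_distrib]
    congr 1
    refine Finset.sum_congr rfl fun h hh => ?_
    rw [hu, ← hw h hh]
    ring
  have hcs : (∑ h ∈ Hist S, D.w C' h * u h) ^ 2 ≤
      D.W C' S * ∑ h ∈ Hist S, D.w C' h * u h ^ 2 := by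
    unfold Dat.W
    exact Finset.sum_sq_le_sum_mul_sum_of_sq_le_mul _ (fun h _ => w_nonneg D _ _)
      (fun h _ => mul_nonneg (w_nonneg D _ _) (sq_nonneg _)) (fun h _ => le_of_eq (by ring))
  have hsq : (D.G2 C R F e o f o' - D.G2 C R F f p e p') ^ 2 ≤
      (∑ h ∈ Hist S, D.w C' h * u h ^ 2) / D.W C' S := by
    rw [hG, div_pow, div_le_div_iff₀ (pow_pos hW0 2) hW0]
    calc (∑ h ∈ Hist S, D.w C' h * u h) ^ 2 * D.W C' S
        ≤ (D.W C' S * ∑ h ∈ Hist S, D.w C' h * u h ^ 2) * D.W C' S :=
          mul_le_mul_of_nonneg_right hcs hW0.le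
      _ = _ := by ring
  have hsum : ∑ h ∈ Hist S, min (D.w C ((e, o) :: (f, o') :: h)) (D.w C ((f, p) :: (e, p') :: h)) *
        (F ((e, o) :: (f, o') :: h) - F ((f, p) :: (e, p') :: h)) ^ 2 =
      min q q' * ∑ h ∈ Hist S, D.w C' h * u h ^ 2 := by
    rw [Finset.mul_sum]
    refine Finset.sum_congr rfl fun h hh => ?_
    have h1 : D.w C ((e, o) :: (f, o') :: h) = q * D.w C' h :=
      w_cons2 D C R e f o o' (Finset.mem_erase.2 ⟨hne.symm, hf⟩) hh
    have h2 : D.w C ((f, p) :: (e, p') :: h) = q' * D.w C' h := by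
      rw [w_cons2 D C R f e p p' (Finset.mem_erase.2 ⟨hne, he⟩) (by rw [hS]; exact hh), hw h hh]
    rw [h1, h2, ← min_mul_of_nonneg _ _ (w_nonneg D _ _), mul_assoc]
  rw [hmin, hsum]
  have hmin0 : 0 ≤ min q q' := le_min hq0 hq0'
  have hf0 : (0 : ℝ) < ((R.card - 2).factorial : ℝ) := by exact_mod_cast Nat.factorial_pos _
  calc min q q' * (D.T C' S / D.T C R) * (D.G2 C R F e o f o' - D.G2 C R F f p e p') ^ 2
      ≤ min q q' * (D.T C' S / D.T C R) * ((∑ h ∈ Hist S, D.w C' h * u h ^ 2) / D.W C' S) :=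
        mul_le_mul_of_nonneg_left hsq (mul_nonneg hmin0 (div_nonneg hTC.le hTT.le))
    _ = _ := by
        rw [hW]
        field_simp

theorem mvE_nonneg (D : Dat α) (C R : Finset α) (F : List (α × Bool) → ℝ)
    (τ : List (α × Bool) → List (α × Bool)) : 0 ≤ D.mvE C R F τ := by
  unfold Dat.mvE
  exact Finset.sum_nonneg fun h _ =>
    mul_nonneg (le_min (w_nonneg D _ _) (w_nonneg D _ _)) (sq_nonneg _)

end M_JEN

open M_JEN in
theorem t_JEN (_hLOC : St_LOC) (hWEQ : St_WEQ) (hBAS : St_BAS) (_hFST : St_FST)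
    (_hEXP : St_EXP) : St_JEN := by
  intro α _ D C R F hR
  have hTex : ∀ C R : Finset α, 0 < D.T C R := by
    intro C R
    by_cases hne : Nonempty α
    · obtain ⟨a⟩ := hne
      exact (hBAS α D C R).2.2.1
    · exact (hBAS α D C R).2.2.1
  have hT0 : 0 < D.T C R := hTex C R
  have hW0 : 0 < D.W C R := by
    rw [W_eq]
    exact mul_pos (by exact_mod_cast Nat.factorial_pos _) hT0
  constructor
  · set K : ℝ := 1 / (((R.card - 2).factorial : ℝ) * D.T C R) with hK
    have hK0 : 0 ≤ K := by
      rw [hK]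
      exact div_nonneg zero_le_one (mul_nonneg (by positivity) hT0.le)
    have hA : D.mvE C R F (mA 0) = ∑ e ∈ R, ∑ f ∈ R.erase e, ∑ o : Bool, ∑ o' : Bool,
        ∑ h ∈ Hist ((R.erase e).erase f),
          min (D.w C ((e, o) :: (f, o') :: h)) (D.w C ((f, o') :: (e, o) :: h)) *
            (F ((e, o) :: (f, o') :: h) - F ((f, o') :: (e, o) :: h)) ^ 2 := by
      unfold Dat.mvE
      rw [sum_Hist2 hR]
      rfl
    have hB : D.mvE C R F (mB 0) = ∑ e ∈ R, ∑ f ∈ R.erase e, ∑ o : Bool, ∑ o' : Bool,
        ∑ h ∈ Hist ((R.erase e).erase f),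
          min (D.w C ((e, o) :: (f, o') :: h)) (D.w C ((f, o) :: (e, o') :: h)) *
            (F ((e, o) :: (f, o') :: h) - F ((f, o) :: (e, o') :: h)) ^ 2 := by
      unfold Dat.mvE
      rw [sum_Hist2 hR]
      rfl
    have key : ∑ e ∈ R, ∑ f ∈ R.erase e, D.Def C R (D.G2 C R F) e f ≤
        K * (D.mvE C R F (mA 0) + D.mvE C R F (mB 0)) := by
      rw [mul_add, hA, hB]
      simp only [Finset.mul_sum]
      rw [← Finset.sum_add_distrib]
      refine Finset.sum_le_sum fun e he => ?_
      rw [← Finset.sum_add_distrib]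
      refine Finset.sum_le_sum fun f hf' => ?_
      obtain ⟨hne, hf⟩ := Finset.mem_erase.1 hf'
      unfold Dat.Def
      rw [← Finset.sum_add_distrib]
      refine Finset.sum_le_sum fun o _ => ?_
      rw [← Finset.sum_add_distrib]
      refine Finset.sum_le_sum fun o' _ => ?_
      refine add_le_add ?_ ?_
      · have hnx : nx (nx C e o) f o' = nx (nx C f o') e o := by
          unfold nx
          cases o <;> cases o' <;> simp [Finset.insert_comm]
        have := jensen D hTex C R F e f o o' o' o he hf hne.symm (by rw [hnx])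
          (fun h _ => by rw [hnx])
        rw [Finset.mul_sum] at this
        exact this
      · split_ifs with hps
        · have hpair : D.T (nx (nx C e o) f o') ((R.erase e).erase f) =
              D.T (nx (nx C f o) e o') ((R.erase e).erase f) ∧
              ∀ h ∈ Hist ((R.erase e).erase f),
                D.w (nx (nx C e o) f o') h = D.w (nx (nx C f o) e o') h := by
            have hEF : D.T (insert e C) ((R.erase e).erase f) =
                D.T (insert f C) ((R.erase e).erase f) ∧
                ∀ h ∈ Hist ((R.erase e).erase f), D.w (insert e C) h = D.w (insert f C) h := by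
              rcases hps with hp | hs
              · exact (hWEQ α D).2.1 C _ e f hp
              · exact (hWEQ α D).2.2 C R e f he hf hne.symm hs
            cases o <;> cases o'
            · exact ⟨rfl, fun _ _ => rfl⟩
            · exact ⟨by simpa [nx] using hEF.1.symm, fun h hh => by
                simpa [nx] using (hEF.2 h hh).symm⟩
            · exact ⟨by simpa [nx] using hEF.1, fun h hh => by simpa [nx] using hEF.2 h hh⟩
            · refine ⟨by simp only [nx, if_true, Finset.insert_comm e f], fun h hh => by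
                simp only [nx, if_true, Finset.insert_comm e f]⟩
          have := jensen D hTex C R F e f o o' o o' he hf hne.symm hpair.1 hpair.2
          rw [Finset.mul_sum] at this
          exact this
        · exact Finset.sum_nonneg fun h _ => mul_nonneg hK0
            (mul_nonneg (le_min (w_nonneg D _ _) (w_nonneg D _ _)) (sq_nonneg _))
    unfold Dat.D2 Dat.E1
    have hm : (0 : ℝ) < R.card * ((R.card : ℝ) - 1) := by
      have : (2 : ℝ) ≤ R.card := by exact_mod_cast hR
      nlinarith
    have hfac : ((R.card.factorial : ℕ) : ℝ) =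
        R.card * ((R.card : ℝ) - 1) * ((R.card - 2).factorial : ℝ) := by
      obtain ⟨n, hn⟩ : ∃ n, R.card = n + 2 := ⟨R.card - 2, by omega⟩
      rw [hn, Nat.add_sub_cancel, Nat.factorial_succ, Nat.factorial_succ]
      push_cast
      ring
    have hf0 : (0 : ℝ) < ((R.card - 2).factorial : ℝ) := by exact_mod_cast Nat.factorial_pos _
    calc (∑ e ∈ R, ∑ f ∈ R.erase e, D.Def C R (D.G2 C R F) e f) / (R.card * ((R.card : ℝ) - 1))
        ≤ K * (D.mvE C R F (mA 0) + D.mvE C R F (mB 0)) / (R.card * ((R.card : ℝ) - 1)) :=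
          div_le_div_of_nonneg_right key hm.le
      _ = (D.mvE C R F (mA 0) + D.mvE C R F (mB 0)) / D.W C R := by
          rw [W_eq, hfac, hK]
          field_simp
  · unfold Dat.E1 Dat.En
    refine div_le_div_of_nonneg_right ?_ hW0.le
    exact Finset.single_le_sum (f := fun i => D.mvE C R F (mA i) + D.mvE C R F (mB i))
      (fun i _ => add_nonneg (mvE_nonneg D C R F _) (mvE_nonneg D C R F _))
      (Finset.mem_range.2 (by omega))

end Pool.Agent.QPR
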