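import Pool.Agent.QPR.Stmts2

/-!
# Module LATE of part (2) of the project QPR
-/

set_option autoImplicit false

namespace Pool.Agent.QPR

open Finset
open scoped Classical

namespace M_LATE

variable {α : Type} [DecidableEq α]

theorem w_nonneg (D : Dat α) (C : Finset α) (h : List (α × Bool)) : 0 ≤ D.w C h :=
  hw_nonneg D.x0.le D.y0.le zero_le_one h C

theorem W_eq (D : Dat α) (C R : Finset α) : D.W C R = R.card.factorial * D.T C R :=
  sum_hw D.hr D.x D.y R.card C R rfl

/-- telescoping with Cauchy-Schwarz -/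
theorem tele (u : ℕ → ℝ) (n : ℕ) :
    (u 0 - u n) ^ 2 ≤ n * ∑ i ∈ range n, (u i - u (i + 1)) ^ 2 := by
  have h1 : u 0 - u n = ∑ i ∈ range n, (u i - u (i + 1)) := by
    rw [Finset.sum_range_sub']
  rw [h1]
  have h2 := sq_sum_le_card_mul_sum_sq (s := range n) (f := fun i => u i - u (i + 1))
  rwa [Finset.card_range] at h2

omit [DecidableEq α] in
theorem ins_zero (e : α) (o : Bool) (h : List (α × Bool)) : ins e o 0 h = (e, o) :: h := rfl

theorem sq_two (a b : ℝ) : a ^ 2 ≤ 2 * b ^ 2 + 2 * (a - b) ^ 2 := by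
  nlinarith [sq_nonneg (a - 2 * b)]

/-- the inequality for one outcome -/
theorem late (hBAS : St_BAS) (hEXP : St_EXP) (hINC : St_INC) (D : Dat α) (C C' R : Finset α)
    (F : List (α × Bool) → ℝ) (e : α) (o : Bool) (he : e ∈ R) (c0 l : ℝ) (hc0 : 0 < c0)
    (H1 : ∀ h ∈ Hist (R.erase e), ∀ i ≤ h.length, c0 * D.w C' h ≤ D.w C (ins e o i h))
    (H2 : ∀ h ∈ Hist (R.erase e), c0 * D.w C' h ≤ l * D.w C (ins e o h.length h))
    (hl : 0 ≤ l) :
    D.T C' (R.erase e) / D.T C R * D.Ex C' (R.erase e) (fun h => F ((e, o) :: h)) ^ 2 ≤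
      2 * (R.card * l / c0) * D.Ex C R (fun h => F h ^ 2) +
        2 * ((R.card : ℝ) ^ 2 / c0) * D.En C R F := by
  obtain ⟨n, hn⟩ : ∃ n, R.card = n + 1 :=
    Nat.exists_eq_succ_of_ne_zero (Finset.card_ne_zero.2 ⟨e, he⟩)
  have hcard : (R.erase e).card = n := by
    rw [Finset.card_erase_of_mem he, hn]; rfl
  have hlen : ∀ h ∈ Hist (R.erase e), h.length = n := fun h hh => by
    rw [length_of_mem_Hist hh, hcard]
  obtain ⟨-, -, hT, -⟩ := hBAS α D C R
  obtain ⟨-, -, hT', -⟩ := hBAS α D C' (R.erase e)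
  have hf : (0 : ℝ) < (n.factorial : ℝ) := by exact_mod_cast Nat.factorial_pos n
  have hW : D.W C R = (n + 1) * n.factorial * D.T C R := by
    rw [W_eq, hn, Nat.factorial_succ]
    push_cast
    ring
  have hW' : D.W C' (R.erase e) = n.factorial * D.T C' (R.erase e) := by
    rw [W_eq, hcard]
  have hWp : 0 < D.W C R := by rw [hW]; positivity
  have hW'p : 0 < D.W C' (R.erase e) := by rw [hW']; positivity
  obtain ⟨-, hINC2, hINC3⟩ := hINC α R e o he
  obtain ⟨hINC1, -, -⟩ := hINC α R e o he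
  -- step 1
  set S : ℝ := ∑ h ∈ Hist (R.erase e), D.w C' h * F ((e, o) :: h) ^ 2 with hS
  have s1 : D.T C' (R.erase e) / D.T C R * D.Ex C' (R.erase e) (fun h => F ((e, o) :: h)) ^ 2 ≤
      (n + 1) / D.W C R * S := by
    have a1 : D.Ex C' (R.erase e) (fun h => F ((e, o) :: h)) ^ 2 ≤ S / D.W C' (R.erase e) := by
      have := (hEXP α D C' (R.erase e) (fun h => F ((e, o) :: h)) (fun _ => 0) 0).2.2.2.2.2.1
      exact this
    have a2 : D.T C' (R.erase e) / D.T C R * D.Ex C' (R.erase e) (fun h => F ((e, o) :: h)) ^ 2 ≤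
        D.T C' (R.erase e) / D.T C R * (S / D.W C' (R.erase e)) :=
      mul_le_mul_of_nonneg_left a1 (by positivity)
    refine a2.trans (le_of_eq ?_)
    rw [hW, hW']
    field_simp
  -- step 2
  set A : ℝ := ∑ h ∈ Hist (R.erase e), D.w C' h * F (ins e o n h) ^ 2 with hA
  set B : ℝ := ∑ i ∈ range n, ∑ h ∈ Hist (R.erase e),
    D.w C' h * (F (ins e o i h) - F (ins e o (i + 1) h)) ^ 2 with hB
  have s2 : S ≤ 2 * A + 2 * (n * B) := by
    rw [hS, hA, hB, Finset.sum_comm, Finset.mul_sum, Finset.mul_sum, Finset.mul_sum,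
      ← Finset.sum_add_distrib]
    apply Finset.sum_le_sum
    intro h _
    have b1 := tele (fun i => F (ins e o i h)) n
    have b2 := sq_two (F (ins e o 0 h)) (F (ins e o n h))
    rw [ins_zero] at b1 b2
    have b3 : F ((e, o) :: h) ^ 2 ≤ 2 * F (ins e o n h) ^ 2 +
        2 * (n * ∑ i ∈ range n, (F (ins e o i h) - F (ins e o (i + 1) h)) ^ 2) := by
      linarith
    have b4 := mul_le_mul_of_nonneg_left b3 (w_nonneg D C' h)
    refine b4.trans (le_of_eq ?_)
    rw [← Finset.mul_sum]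
    ring
  -- step 3
  have s3 : A ≤ l / c0 * (D.W C R * D.Ex C R (fun h => F h ^ 2)) := by
    have c1 : D.W C R * D.Ex C R (fun h => F h ^ 2) = ∑ h ∈ Hist R, D.w C h * F h ^ 2 := by
      unfold Dat.Ex
      field_simp
    rw [c1]
    have c2 := hINC3 (fun h => D.w C h * F h ^ 2)
      (fun h _ => mul_nonneg (w_nonneg D C h) (sq_nonneg _)) n (by rw [hn]; simp)
    refine le_trans ?_ (mul_le_mul_of_nonneg_left c2 (by positivity))
    rw [hA, Finset.mul_sum]
    apply Finset.sum_le_sum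
    intro h hh
    have c3 := H2 h hh
    rw [hlen h hh] at c3
    have c4 : D.w C' h ≤ l / c0 * D.w C (ins e o n h) := by
      rw [div_mul_eq_mul_div, le_div_iff₀ hc0]
      linarith
    have c5 := mul_le_mul_of_nonneg_right c4 (sq_nonneg (F (ins e o n h)))
    refine c5.trans (le_of_eq ?_)
    ring
  -- step 4
  have s4 : B ≤ 1 / c0 * (D.W C R * D.En C R F) := by
    have d1 : D.W C R * D.En C R F =
        ∑ i ∈ range n, (D.mvE C R F (mA i) + D.mvE C R F (mB i)) := by
      unfold Dat.En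
      rw [hn, Nat.add_sub_cancel]
      field_simp
    rw [d1, hB, Finset.mul_sum]
    apply Finset.sum_le_sum
    intro i hi
    rw [Finset.mem_range] at hi
    have d2 : 0 ≤ D.mvE C R F (mB i) := Finset.sum_nonneg fun h _ =>
      mul_nonneg (le_min (w_nonneg D C h) (w_nonneg D C _)) (sq_nonneg _)
    have d3 := hINC3 (fun h => min (D.w C h) (D.w C (mA i h)) * (F h - F (mA i h)) ^ 2)
      (fun h _ => mul_nonneg (le_min (w_nonneg D C h) (w_nonneg D C _)) (sq_nonneg _)) i
      (by rw [hn]; simp; omega)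
    have d4 : ∑ h ∈ Hist (R.erase e),
        D.w C' h * (F (ins e o i h) - F (ins e o (i + 1) h)) ^ 2 ≤
        1 / c0 * ∑ h ∈ Hist (R.erase e),
          min (D.w C (ins e o i h)) (D.w C (mA i (ins e o i h))) *
            (F (ins e o i h) - F (mA i (ins e o i h))) ^ 2 := by
      rw [Finset.mul_sum]
      apply Finset.sum_le_sum
      intro h hh
      rw [hINC2 h hh i (by rw [hlen h hh]; exact hi)]
      have e1 := H1 h hh i (by rw [hlen h hh]; omega)
      have e2 := H1 h hh (i + 1) (by rw [hlen h hh]; omega)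
      have e3 : c0 * D.w C' h ≤ min (D.w C (ins e o i h)) (D.w C (ins e o (i + 1) h)) :=
        le_min e1 e2
      have e4 : D.w C' h ≤ 1 / c0 * min (D.w C (ins e o i h)) (D.w C (ins e o (i + 1) h)) := by
        rw [div_mul_eq_mul_div, le_div_iff₀ hc0]
        linarith
      have e5 := mul_le_mul_of_nonneg_right e4
        (sq_nonneg (F (ins e o i h) - F (ins e o (i + 1) h)))
      refine e5.trans (le_of_eq ?_)
      ring
    refine d4.trans (mul_le_mul_of_nonneg_left ?_ (by positivity))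
    refine le_trans d3 ?_
    have d5 : ∑ h ∈ Hist R, min (D.w C h) (D.w C (mA i h)) * (F h - F (mA i h)) ^ 2 =
      D.mvE C R F (mA i) := rfl
    rw [d5]
    linarith
  -- conclusion
  have hE : 0 ≤ D.En C R F := (hEXP α D C R F F 0).2.2.2.2.2.2.2.2.2.2.2.2
  have hn0 : (0 : ℝ) ≤ n := Nat.cast_nonneg n
  have f1 : S ≤ 2 * (l / c0 * (D.W C R * D.Ex C R (fun h => F h ^ 2))) +
      2 * (n * (1 / c0 * (D.W C R * D.En C R F))) := by
    have := mul_le_mul_of_nonneg_left s4 hn0
    linarith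
  have f2 : (n + 1) / D.W C R * S ≤ 2 * ((n + 1) * l / c0) * D.Ex C R (fun h => F h ^ 2) +
      2 * ((n + 1) * n / c0) * D.En C R F := by
    refine (mul_le_mul_of_nonneg_left f1 (by positivity)).trans (le_of_eq ?_)
    field_simp
  refine s1.trans (f2.trans ?_)
  rw [hn]
  push_cast
  have f3 : 2 * ((n + 1 : ℝ) * n / c0) * D.En C R F ≤
      2 * ((n + 1 : ℝ) ^ 2 / c0) * D.En C R F := by
    apply mul_le_mul_of_nonneg_right _ hE
    apply mul_le_mul_of_nonneg_left _ (by norm_num)
    apply div_le_div_of_nonneg_right _ hc0.le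
    nlinarith
  linarith

end M_LATE

open M_LATE in
theorem t_LATE (hBAS : St_BAS) (hFST : St_FST) (hEXP : St_EXP) (hINS : St_INS) (hINC : St_INC) :
    St_LATE := by
  intro α _ D C R F e he hG
  have hI := fun h hh => hINS α D C R e h he hh
  constructor
  · have := late hBAS hEXP hINC D C (insert e C) R F e true he D.x (D.y ^ D.np C R e) D.x0
      (fun h hh => ((hI h hh).1 hG.1).1) (fun h hh => ((hI h hh).1 hG.1).2)
      (pow_nonneg D.y0.le _)
    exact this
  · have h1 := (hBAS α D C R).2.2.2.2.2 e he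
    have h2 := (h1.2.2.1 hG).2.2.2
    rw [h2]
    have := late hBAS hEXP hINC D C C R F e false he D.y (D.x ^ D.ns C R e) D.y0
      (fun h hh => ((hI h hh).2 hG.2).1) (fun h hh => ((hI h hh).2 hG.2).2)
      (pow_nonneg D.x0.le _)
    exact this

end Pool.Agent.QPR
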