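import Pool.Agent.QPR.Stmts2

/-!
# Part (2) of the project QPR, module LOC
-/

set_option autoImplicit false

namespace Pool.Agent.QPR

open Finset
open scoped Classical

namespace M_LOC

variable {α : Type} [DecidableEq α]

/-- ranks of the four sets `A`, `A + e`, `A + f`, `A + e + f` -/
theorem quad {r : Finset α → ℕ} (h : IsRank r) (A : Finset α) (e f : α) :
    r A ≤ r (insert e A) ∧ r (insert e A) ≤ r A + 1 ∧ r A ≤ r (insert f A) ∧
      r (insert f A) ≤ r A + 1 ∧ r (insert e A) ≤ r (insert e (insert f A)) ∧
      r (insert f A) ≤ r (insert e (insert f A)) ∧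
      (r (insert e A) = r A → r (insert e (insert f A)) = r (insert f A)) ∧
      (r (insert f A) = r A → r (insert e (insert f A)) = r (insert e A)) := by
  refine ⟨h.mono _ _, h.le_succ _ _, h.mono _ _, h.le_succ _ _, ?_, h.mono _ _,
    fun he => h.closure_insert he f, fun hf => ?_⟩
  · rw [Finset.insert_comm]
    exact h.mono _ _
  · rw [Finset.insert_comm]
    exact h.closure_insert hf e

theorem erase_union_right {C R : Finset α} {e f : α} (hf : f ∈ R) (hne : e ≠ f) :
    C ∪ R.erase e = insert f (C ∪ (R.erase e).erase f) := by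
  rw [← Finset.union_insert, Finset.insert_erase (Finset.mem_erase.2 ⟨hne.symm, hf⟩)]

theorem erase_union_left {C R : Finset α} {e f : α} (he : e ∈ R) (hne : e ≠ f) :
    C ∪ R.erase f = insert e (C ∪ (R.erase e).erase f) := by
  rw [Finset.erase_right_comm, ← Finset.union_insert,
    Finset.insert_erase (Finset.mem_erase.2 ⟨hne, he⟩)]

end M_LOC

open M_LOC in
theorem t_LOC : St_LOC := by
  intro α _ D C R e f he hf hne
  have hS1 : C ∪ R.erase e = insert f (C ∪ (R.erase e).erase f) := erase_union_right hf hne
  have hS2 : C ∪ R.erase f = insert e (C ∪ (R.erase e).erase f) := erase_union_left he hne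
  have hcomm : (R.erase f).erase e = (R.erase e).erase f := Finset.erase_right_comm
  set S := C ∪ (R.erase e).erase f with hS
  have q1 := quad D.hr C e f
  have q2 := quad D.hr S e f
  have hclE : D.Cl C R e ↔ D.r (insert f S) < D.r (insert e (insert f S)) := by
    unfold Dat.Cl
    rw [hS1]
  have hclF : D.Cl C R f ↔ D.r (insert e S) < D.r (insert e (insert f S)) := by
    unfold Dat.Cl
    rw [hS2, Finset.insert_comm]
  have hclEF : D.Cl C (R.erase e) f ↔ D.r S < D.r (insert f S) := Iff.rfl
  have hclFE : D.Cl C (R.erase f) e ↔ D.r S < D.r (insert e S) := by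
    unfold Dat.Cl
    rw [hcomm]
  have hser : D.Ser C R e f ↔ ¬ D.r (insert f S) < D.r (insert e (insert f S)) ∧
      ¬ D.r (insert e S) < D.r (insert e (insert f S)) ∧ D.r S < D.r (insert e S) := by
    unfold Dat.Ser
    rw [hclE, hclF, hclFE]
  have hser' : D.Ser C R f e ↔ ¬ D.r (insert e S) < D.r (insert e (insert f S)) ∧
      ¬ D.r (insert f S) < D.r (insert e (insert f S)) ∧ D.r S < D.r (insert f S) := by
    unfold Dat.Ser
    rw [hclE, hclF, hclEF]
  have hpar : D.Par C e f ↔ ¬ D.r (insert e C) = D.r C ∧ ¬ D.r (insert f C) = D.r C ∧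
      D.r (insert e (insert f C)) = D.r (insert f C) := Iff.rfl
  have hpar' : D.Par C f e ↔ ¬ D.r (insert f C) = D.r C ∧ ¬ D.r (insert e C) = D.r C ∧
      D.r (insert e (insert f C)) = D.r (insert e C) := by
    unfold Dat.Par Dat.Lp
    rw [Finset.insert_comm f e C]
  have hlpEF : D.Lp (insert e C) f ↔ D.r (insert e (insert f C)) = D.r (insert e C) := by
    unfold Dat.Lp
    rw [Finset.insert_comm]
  have hlpE : D.Lp C e ↔ D.r (insert e C) = D.r C := Iff.rfl
  have hlpF : D.Lp C f ↔ D.r (insert f C) = D.r C := Iff.rfl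
  have hsymP : D.Par C e f → D.Par C f e := by
    rw [hpar, hpar']
    omega
  have hsymS : D.Ser C R e f → D.Ser C R f e := by
    rw [hser, hser']
    omega
  have hsub1 : insert f C ⊆ C ∪ R.erase e := by
    rw [hS1]
    exact Finset.insert_subset_insert _ Finset.subset_union_left
  have hsub2 : insert e C ⊆ C ∪ R.erase f := by
    rw [hS2]
    exact Finset.insert_subset_insert _ Finset.subset_union_left
  refine ⟨?_, ?_, ?_, ?_, ?_, hsymP, hsymS, ?_, ?_⟩
  · intro h1 h2
    have h3 := D.hr.closure (hlpE.1 h1) (Finset.subset_union_left (s₁ := C) (s₂ := R.erase e))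
    unfold Dat.Cl at h2
    omega
  · unfold Dat.Cl
    rw [hS2, Finset.insert_union]
  · intro h1
    rw [hlpE] at h1
    rw [hlpEF, hlpF, hpar]
    omega
  · intro h1
    rw [hlpE] at h1
    rw [hlpEF, hlpF]
    omega
  · intro h1
    rw [hclE] at h1
    rw [hclEF, hclF, hser]
    omega
  · intro h1
    have h2 := hsymP h1
    refine ⟨?_, ?_⟩
    · intro h3
      have h4 := D.hr.closure (hpar.1 h1).2.2 hsub1
      unfold Dat.Cl at h3
      omega
    · intro h3
      have h5 : D.r (insert f (insert e C)) = D.r (insert e C) := by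
        rw [Finset.insert_comm]
        exact (hpar'.1 h2).2.2
      have h4 := D.hr.closure h5 hsub2
      unfold Dat.Cl at h3
      omega
  · intro h1
    have h2 := hsymS h1
    refine ⟨?_, ?_⟩
    · intro h3
      have h4 := D.hr.closure (hlpE.1 h3) (Finset.subset_union_left (s₁ := C)
        (s₂ := (R.erase e).erase f))
      have h5 := (hser.1 h1).2.2
      rw [← hS] at h4
      omega
    · intro h3
      have h4 := D.hr.closure (hlpF.1 h3) (Finset.subset_union_left (s₁ := C)
        (s₂ := (R.erase e).erase f))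
      have h5 := (hser'.1 h2).2.2
      rw [← hS] at h4
      omega

end Pool.Agent.QPR
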