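import Pool.Agent.QPR.Stmts2

set_option autoImplicit false

namespace Pool.Agent.QPR

open Finset
open scoped Classical

namespace M_MIXR

variable {α : Type} [DecidableEq α] (D : Dat α)

theorem T_lp {C R : Finset α} {g : α} (hg : g ∈ R) (hl : D.Lp C g) :
    D.T C R = D.y * D.T C (R.erase g) := by
  unfold Dat.T
  conv_lhs => rw [← Finset.insert_erase hg]
  exact TT_loop D.hr D.x D.y C (Finset.notMem_erase g R) hl

theorem T_cl {C R : Finset α} {g : α} (hg : g ∈ R) (hc : D.Cl C R g) :
    D.T C R = D.x * D.T (insert g C) (R.erase g) := by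
  unfold Dat.T
  conv_lhs => rw [← Finset.insert_erase hg]
  exact TT_coloop D.hr D.x D.y C (Finset.notMem_erase g R) hc

/-- a loop stays a loop after contractions -/
theorem lp_insert {C : Finset α} {g : α} (hl : D.Lp C g) (e : α) : D.Lp (insert e C) g :=
  D.hr.closure hl (Finset.subset_insert e C)

/-- contraction of a coloop does not change the loops -/
theorem lp_cl {C R A : Finset α} {g e : α} (hc : D.Cl C R g) (hA : insert e A ⊆ C ∪ R.erase g) :
    D.Lp (insert g A) e ↔ D.Lp A e := by
  have h1 : D.r (insert g (insert e A)) = D.r (insert e A) + 1 := D.hr.coclosure hc hA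
  have h2 : D.r (insert g A) = D.r A + 1 :=
    D.hr.coclosure hc ((Finset.subset_insert e A).trans hA)
  unfold Dat.Lp
  rw [Finset.insert_comm, h1, h2]
  omega

theorem par_cl {C R : Finset α} {g e f : α} (hc : D.Cl C R g) (he : e ∈ R.erase g)
    (hf : f ∈ R.erase g) : D.Par (insert g C) e f ↔ D.Par C e f := by
  have hC : C ⊆ C ∪ R.erase g := Finset.subset_union_left
  have he' : e ∈ C ∪ R.erase g := Finset.mem_union_right _ he
  have hf' : f ∈ C ∪ R.erase g := Finset.mem_union_right _ hf
  have h1 := lp_cl D (A := C) (e := e) hc (Finset.insert_subset he' hC)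
  have h2 := lp_cl D (A := C) (e := f) hc (Finset.insert_subset hf' hC)
  have h3 := lp_cl D (A := insert f C) (e := e) hc
    (Finset.insert_subset he' (Finset.insert_subset hf' hC))
  unfold Dat.Par
  rw [h1, h2, Finset.insert_comm f g C, h3]

theorem cov_lp (hBAS : St_BAS) {C R : Finset α} {g e f : α} (hg : g ∈ R) (hl : D.Lp C g)
    (he : e ∈ R.erase g) (hf : f ∈ R.erase g) :
    D.pe C R e = D.pe C (R.erase g) e ∧ D.Cov C R e f = D.Cov C (R.erase g) e f := by
  have hy : D.y ≠ 0 := D.y0.ne'
  have hT : D.T C (R.erase g) ≠ 0 := (hBAS α D C (R.erase g)).2.2.1.ne'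
  have h0 := T_lp D hg hl
  have hpe : ∀ e ∈ R.erase g, D.pe C R e = D.pe C (R.erase g) e := by
    intro e he
    obtain ⟨hne, heR⟩ := Finset.mem_erase.1 he
    have h1 := T_lp D (C := insert e C) (R := R.erase e) (g := g)
      (Finset.mem_erase.2 ⟨hne.symm, hg⟩) (lp_insert D hl e)
    unfold Dat.pe
    rw [h0, h1, Finset.erase_right_comm]
    field_simp
  refine ⟨hpe e he, ?_⟩
  unfold Dat.Cov
  by_cases hef : e = f
  · rw [if_pos hef, if_pos hef, hpe e he]
  · rw [if_neg hef, if_neg hef, hpe e he, hpe f hf]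
    congr 1
    unfold Dat.Tm
    by_cases hp : D.Par C e f
    · rw [if_pos hp, if_pos hp, hpe e he]
    · rw [if_neg hp, if_neg hp]
      obtain ⟨hne, heR⟩ := Finset.mem_erase.1 he
      obtain ⟨hnf, hfR⟩ := Finset.mem_erase.1 hf
      have h1 := T_lp D (C := insert f (insert e C)) (R := (R.erase e).erase f) (g := g)
        (Finset.mem_erase.2 ⟨hnf.symm, Finset.mem_erase.2 ⟨hne.symm, hg⟩⟩)
        (lp_insert D (lp_insert D hl e) f)
      have h2 : ((R.erase e).erase f).erase g = ((R.erase g).erase e).erase f := by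
        rw [Finset.erase_right_comm (a := f) (b := g), Finset.erase_right_comm (a := e) (b := g)]
      rw [h0, h1, h2]
      field_simp

theorem cov_cl (hLOC : St_LOC) (hBAS : St_BAS) {C R : Finset α} {g e f : α} (hg : g ∈ R)
    (hc : D.Cl C R g) (he : e ∈ R.erase g) (hf : f ∈ R.erase g) :
    D.pe C R e = D.pe (insert g C) (R.erase g) e ∧
      D.Cov C R e f = D.Cov (insert g C) (R.erase g) e f := by
  have hx : D.x ≠ 0 := D.x0.ne'
  have hT : D.T (insert g C) (R.erase g) ≠ 0 := (hBAS α D (insert g C) (R.erase g)).2.2.1.ne'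
  have h0 := T_cl D hg hc
  have hpe : ∀ e ∈ R.erase g, D.pe C R e = D.pe (insert g C) (R.erase g) e := by
    intro e he
    obtain ⟨hne, heR⟩ := Finset.mem_erase.1 he
    have hc1 : D.Cl (insert e C) (R.erase e) g :=
      (hLOC α D C R e g heR hg hne).2.1.2 hc
    have h1 := T_cl D (Finset.mem_erase.2 ⟨hne.symm, hg⟩) hc1
    unfold Dat.pe
    rw [h0, h1, Finset.erase_right_comm, Finset.insert_comm g e C]
    field_simp
  refine ⟨hpe e he, ?_⟩
  unfold Dat.Cov
  by_cases hef : e = f
  · rw [if_pos hef, if_pos hef, hpe e he]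
  · rw [if_neg hef, if_neg hef, hpe e he, hpe f hf]
    congr 1
    unfold Dat.Tm
    have hpp := par_cl D hc he hf
    by_cases hp : D.Par C e f
    · rw [if_pos hp, if_pos (hpp.2 hp), hpe e he]
    · rw [if_neg hp, if_neg (fun h => hp (hpp.1 h))]
      obtain ⟨hne, heR⟩ := Finset.mem_erase.1 he
      obtain ⟨hnf, hfR⟩ := Finset.mem_erase.1 hf
      have hg1 : g ∈ R.erase e := Finset.mem_erase.2 ⟨hne.symm, hg⟩
      have hf1 : f ∈ R.erase e := Finset.mem_erase.2 ⟨fun h => hef h.symm, hfR⟩
      have hc1 : D.Cl (insert e C) (R.erase e) g :=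
        (hLOC α D C R e g heR hg hne).2.1.2 hc
      have hc2 : D.Cl (insert f (insert e C)) ((R.erase e).erase f) g :=
        (hLOC α D (insert e C) (R.erase e) f g hf1 hg1 hnf).2.1.2 hc1
      have h1 := T_cl D (Finset.mem_erase.2 ⟨hnf.symm, hg1⟩) hc2
      have h2 : ((R.erase e).erase f).erase g = ((R.erase g).erase e).erase f := by
        rw [Finset.erase_right_comm (a := f) (b := g), Finset.erase_right_comm (a := e) (b := g)]
      have h3 : insert g (insert f (insert e C)) = insert f (insert e (insert g C)) := by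
        rw [Finset.insert_comm g f, Finset.insert_comm g e]
      rw [h0, h1, h2, h3]
      field_simp

/-- one step of the induction -/
theorem step (K : ℝ) {C R C' : Finset α} (a : α → ℝ) {g : α} (hg : g ∈ R) (hag : a g = 0)
    (hpe : ∀ e ∈ R.erase g, D.pe C R e = D.pe C' (R.erase g) e)
    (hcov : ∀ e ∈ R.erase g, ∀ f ∈ R.erase g, D.Cov C R e f = D.Cov C' (R.erase g) e f)
    (ih : ∑ e ∈ R.erase g, ∑ f ∈ R.erase g, D.Cov C' (R.erase g) e f * (a e * a f) ≤
      K * ∑ e ∈ R.erase g, a e ^ 2 * (D.pe C' (R.erase g) e * (1 - D.pe C' (R.erase g) e))) :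
    ∑ e ∈ R, ∑ f ∈ R, D.Cov C R e f * (a e * a f) ≤
      K * ∑ e ∈ R, a e ^ 2 * (D.pe C R e * (1 - D.pe C R e)) := by
  have h1 : ∑ e ∈ R, ∑ f ∈ R, D.Cov C R e f * (a e * a f) =
      ∑ e ∈ R.erase g, ∑ f ∈ R.erase g, D.Cov C' (R.erase g) e f * (a e * a f) := by
    rw [← Finset.add_sum_erase R _ hg]
    have h2 : ∑ f ∈ R, D.Cov C R g f * (a g * a f) = 0 := by
      apply Finset.sum_eq_zero
      intro f _
      rw [hag]
      ring
    rw [h2, zero_add]
    apply Finset.sum_congr rfl
    intro e he
    rw [← Finset.add_sum_erase R _ hg, hag, mul_zero, mul_zero, zero_add]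
    apply Finset.sum_congr rfl
    intro f hf
    rw [hcov e he f hf]
  have h3 : ∑ e ∈ R, a e ^ 2 * (D.pe C R e * (1 - D.pe C R e)) =
      ∑ e ∈ R.erase g, a e ^ 2 * (D.pe C' (R.erase g) e * (1 - D.pe C' (R.erase g) e)) := by
    rw [← Finset.add_sum_erase R _ hg, hag]
    have h4 : (0 : ℝ) ^ 2 * (D.pe C R g * (1 - D.pe C R g)) = 0 := by ring
    rw [h4, zero_add]
    apply Finset.sum_congr rfl
    intro e he
    rw [hpe e he]
  rw [h1, h3]
  exact ih

end M_MIXR

open M_MIXR in
theorem t_MIXR (hLOC : St_LOC) (hBAS : St_BAS) : St_MIXR := by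
  intro α _ D K hM
  have key : ∀ (n : ℕ) (C R : Finset α) (a : α → ℝ), R.card = n →
      (∀ e ∈ R, ¬ D.Gen C R e → a e = 0) →
      ∑ e ∈ R, ∑ f ∈ R, D.Cov C R e f * (a e * a f) ≤
        K * ∑ e ∈ R, a e ^ 2 * (D.pe C R e * (1 - D.pe C R e)) := by
    intro n
    induction n with
    | zero =>
      intro C R a hn _
      rw [Finset.card_eq_zero] at hn
      subst hn
      simp
    | succ n ihn =>
      intro C R a hn ha
      by_cases hall : ∀ e ∈ R, D.Gen C R e
      · exact hM C R a hall
      · push Not at hall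
        obtain ⟨g, hg, hng⟩ := hall
        have hag : a g = 0 := ha g hg hng
        have hcard : (R.erase g).card = n := by
          rw [Finset.card_erase_of_mem hg, hn]
          rfl
        by_cases hl : D.Lp C g
        · apply step D K a hg hag (C' := C)
            (fun e he => (cov_lp D hBAS hg hl he he).1)
            (fun e he f hf => (cov_lp D hBAS hg hl he hf).2)
          apply ihn C (R.erase g) a hcard
          intro e he hge
          obtain ⟨hne, heR⟩ := Finset.mem_erase.1 he
          apply ha e heR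
          intro hG
          apply hge
          refine ⟨hG.1, ?_⟩
          have hL := hLOC α D C R g e hg heR hne.symm
          intro hcl
          rcases (hL.2.2.2.2.1 (hL.1 hl)).1 hcl with h1 | h1
          · exact hG.2 h1
          · exact (hL.2.2.2.2.2.2.2.2 h1).1 hl
        · have hc : D.Cl C R g := by
            by_contra hc
            exact hng ⟨hl, hc⟩
          apply step D K a hg hag (C' := insert g C)
            (fun e he => (cov_cl D hLOC hBAS hg hc he he).1)
            (fun e he f hf => (cov_cl D hLOC hBAS hg hc he hf).2)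
          apply ihn (insert g C) (R.erase g) a hcard
          intro e he hge
          obtain ⟨hne, heR⟩ := Finset.mem_erase.1 he
          apply ha e heR
          intro hG
          apply hge
          constructor
          · intro h1
            apply hG.1
            exact (lp_cl D (A := C) (e := e) hc (Finset.insert_subset
              (Finset.mem_union_right _ he) Finset.subset_union_left)).1 h1
          · intro h1
            exact hG.2 ((hLOC α D C R g e hg heR hne.symm).2.1.1 h1)
  intro C R a ha
  exact key R.card C R a rfl ha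

end Pool.Agent.QPR
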