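import Pool.Agent.QPR.Stmts2

open Finset
open scoped Classical

namespace Pool.Agent.QPR

namespace M_NUM

/-- a power of `M < 1` below a positive bound -/
lemma exA (M : ℝ) (h0 : 0 < M) (h1 : M < 1) (b : ℝ) (hb : 0 < b) : ∃ a : ℕ, 2 ≤ a ∧ M ^ a ≤ b := by
  obtain ⟨a, ha⟩ := exists_pow_lt_of_lt_one hb h1
  refine ⟨a + 2, by omega, ?_⟩
  have : M ^ (a + 2) ≤ M ^ a := pow_le_pow_of_le_one h0.le h1.le (by omega)
  linarith

lemma exB (b : ℝ) : ∃ m : ℕ, b ≤ 2 ^ m := by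
  obtain ⟨m, hm⟩ := pow_unbounded_of_one_lt b (by norm_num : (1 : ℝ) < 2)
  exact ⟨m, hm.le⟩

lemma exp_le_four (k : ℕ) : Real.exp (k : ℝ) ≤ 2 ^ (2 * k) := by
  have h1 : Real.exp (k : ℝ) = Real.exp 1 ^ k := by rw [← Real.exp_nat_mul]; simp
  have h2 : Real.exp 1 ≤ 4 := by
    have := Real.exp_one_lt_d9
    norm_num at this ⊢
    linarith
  rw [h1, pow_mul]
  calc Real.exp 1 ^ k ≤ (4 : ℝ) ^ k := pow_le_pow_left₀ (Real.exp_pos _).le h2 k
    _ = (2 ^ 2 : ℝ) ^ k := by norm_num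

end M_NUM

open M_NUM in
theorem t_NUM : St_NUM := by
  intro μ M K hμ0 hμ1 hM0 hM1 hK
  obtain ⟨a0, ha0, hM16⟩ := exA M hM0 hM1 (1 / 16) (by norm_num)
  obtain ⟨a1, ha1, hM256⟩ := exA M hM0 hM1 (μ / 256) (by positivity)
  obtain ⟨b, hb⟩ := exB (1 / μ)
  set ck : ℝ := 1 + 2 * (8 * ((a0 : ℝ) + a1) / μ ^ 3 + 2 * K) with hck
  set c2 : ℕ := ⌈34 * ck⌉₊ with hc2
  have hck2 : 34 * ck ≤ (c2 : ℝ) := Nat.le_ceil _
  set e1 : ℕ := 3 * (c2 * (c2 + 1) + c2) + b * c2 with he1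
  set e2 : ℕ := 13 + 2 * b with he2
  refine ⟨4 * c2 + e1 + e2 + 1, ?_⟩
  intro n hn
  set L : ℕ := Nat.log 2 n + 1 with hL
  have hL1 : 1 ≤ L := by omega
  have hLr : (1 : ℝ) ≤ (L : ℝ) := by exact_mod_cast hL1
  have hLL : L ≤ L ^ 2 := by nlinarith
  have hL11 : 1 ≤ L ^ 2 := by nlinarith
  have hnL : n < 2 ^ L := Nat.lt_pow_succ_log_self (by norm_num) n
  have hnLr : (n : ℝ) + 1 ≤ 2 ^ L := by exact_mod_cast hnL
  have hnr : (1 : ℝ) ≤ (n : ℝ) := by exact_mod_cast hn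
  have hnpos : (0 : ℝ) < (n : ℝ) := by linarith
  have hn2 : (n : ℝ) ≤ 2 ^ L := by linarith
  have hn4 : (n : ℝ) ^ 4 ≤ 16 ^ L := by
    calc (n : ℝ) ^ 4 ≤ (2 ^ L) ^ 4 := pow_le_pow_left₀ hnpos.le hn2 4
      _ = 16 ^ L := by rw [← pow_mul, mul_comm, pow_mul]; norm_num
  have hn41 : (1 : ℝ) ≤ (n : ℝ) ^ 4 := one_le_pow₀ hnr
  -- the choice
  set A : ℕ := a0 * L + a1 with hA
  set m0 : ℕ := c2 * L with hm0
  have hAL : (A : ℝ) ≤ ((a0 : ℝ) + a1) * L := by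
    rw [hA]; push_cast
    have : (a1 : ℝ) ≤ a1 * L := le_mul_of_one_le_right (Nat.cast_nonneg _) hLr
    linarith
  have hμ3 : 0 < μ ^ 3 := by positivity
  set k : ℝ := 1 + 2 * (8 * A / μ ^ 3 + 2 * K) with hk
  have hkL : k ≤ ck * L := by
    have h1 : 8 * (A : ℝ) / μ ^ 3 ≤ 8 * ((a0 : ℝ) + a1) / μ ^ 3 * L := by
      rw [div_mul_eq_mul_div, div_le_div_iff_of_pos_right hμ3]
      nlinarith
    have h2 : 2 * K ≤ 2 * K * L := le_mul_of_one_le_right (by linarith) hLr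
    rw [hk, hck]
    nlinarith
  have hk34 : 34 * k ≤ (m0 : ℝ) := by
    rw [hm0]; push_cast
    calc 34 * k ≤ 34 * (ck * L) := by linarith
      _ = (34 * ck) * L := by ring
      _ ≤ c2 * L := mul_le_mul_of_nonneg_right hck2 (by linarith)
  refine ⟨A, 1 / (256 * (n : ℝ) ^ 4), m0, by omega, ?_, ?_, ?_, ?_, ?_⟩
  · rw [div_le_div_iff₀ hμ0 (by positivity)]
    have h1 : M ^ A ≤ (1 / 16) ^ L * (μ / 256) := by
      rw [hA, pow_add, pow_mul]
      exact mul_le_mul (pow_le_pow_left₀ (by positivity) hM16 L) hM256 (by positivity) (by positivity)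
    have h2 : (1 / 16 : ℝ) ^ L * 16 ^ L = 1 := by rw [← mul_pow]; norm_num
    calc M ^ A * (256 * (n : ℝ) ^ 4) ≤ ((1 / 16) ^ L * (μ / 256)) * (256 * 16 ^ L) := by
          apply mul_le_mul h1 _ (by positivity) (by positivity)
          linarith
      _ = ((1 / 16 : ℝ) ^ L * 16 ^ L) * μ := by ring
      _ = 1 * μ := by rw [h2]
  · rw [div_le_div_iff₀ (by positivity) (by norm_num)]
    linarith
  · have : 128 * (n : ℝ) ^ 2 * (1 / (256 * (n : ℝ) ^ 4)) * (2 * n) = 1 / n := by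
      field_simp
      ring
    rw [this]
  · have : 2 * (17 * (1 + 2 * (8 * (A : ℝ) / μ ^ 3 + 2 * K))) = 34 * k := by rw [hk]; ring
    rw [this]; exact hk34
  · have e0 : 2 * (17 * (1 + 2 * (8 * (A : ℝ) / μ ^ 3 + 2 * K))) = 34 * k := by rw [hk]; ring
    rw [e0]
    have hlog : Real.log ((n : ℝ) + 1) ≤ L := by
      have h1 : Real.log ((n : ℝ) + 1) ≤ Real.log (2 ^ L) := Real.log_le_log (by linarith) hnLr
      rw [Real.log_pow] at h1
      have h2 : Real.log 2 ≤ 1 := by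
        have := Real.log_two_lt_d9
        linarith
      nlinarith
    have hlog0 : 0 ≤ Real.log ((n : ℝ) + 1) := Real.log_nonneg (by linarith)
    have hE : Real.exp (34 * k * (1 + Real.log ((n : ℝ) + 1))) ≤ 2 ^ (4 * c2 * L ^ 2) := by
      have h1 : 34 * k * (1 + Real.log ((n : ℝ) + 1)) ≤ ((m0 * (2 * L) : ℕ) : ℝ) := by
        push_cast
        have hm0r : (0 : ℝ) ≤ (m0 : ℝ) := Nat.cast_nonneg _
        calc 34 * k * (1 + Real.log ((n : ℝ) + 1)) ≤ m0 * (1 + Real.log ((n : ℝ) + 1)) :=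
              mul_le_mul_of_nonneg_right hk34 (by linarith)
          _ ≤ m0 * (2 * L) := mul_le_mul_of_nonneg_left (by linarith) hm0r
      calc Real.exp (34 * k * (1 + Real.log ((n : ℝ) + 1))) ≤ Real.exp ((m0 * (2 * L) : ℕ) : ℝ) :=
            Real.exp_le_exp.mpr h1
        _ ≤ 2 ^ (2 * (m0 * (2 * L))) := exp_le_four _
        _ = 2 ^ (4 * c2 * L ^ 2) := by rw [hm0]; congr 1; ring
    have hm0le : (m0 : ℝ) ≤ 2 ^ (c2 + L) := by
      rw [hm0]; push_cast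
      rw [pow_add]
      have h1 : (c2 : ℝ) ≤ 2 ^ c2 := by exact_mod_cast Nat.lt_two_pow_self.le
      have h2 : (L : ℝ) ≤ 2 ^ L := by exact_mod_cast Nat.lt_two_pow_self.le
      exact mul_le_mul h1 h2 (by positivity) (by positivity)
    have hfac : (m0.factorial : ℝ) ≤ 2 ^ (c2 * (c2 + 1) * L ^ 2) := by
      calc (m0.factorial : ℝ) ≤ (m0 : ℝ) ^ m0 := by exact_mod_cast Nat.factorial_le_pow m0
        _ ≤ (2 ^ (c2 + L)) ^ m0 := pow_le_pow_left₀ (Nat.cast_nonneg _) hm0le m0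
        _ = 2 ^ ((c2 + L) * m0) := by rw [← pow_mul]
        _ ≤ 2 ^ (c2 * (c2 + 1) * L ^ 2) := by
          apply pow_le_pow_right₀ (by norm_num)
          rw [hm0]
          have : c2 + L ≤ (c2 + 1) * L := by nlinarith
          calc (c2 + L) * (c2 * L) ≤ ((c2 + 1) * L) * (c2 * L) := Nat.mul_le_mul_right _ this
            _ = c2 * (c2 + 1) * L ^ 2 := by ring
    have h2m : (2 : ℝ) ^ m0 ≤ 2 ^ (c2 * L ^ 2) := by
      apply pow_le_pow_right₀ (by norm_num)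
      rw [hm0]
      exact Nat.mul_le_mul_left _ hLL
    have hmu : 1 / μ ^ m0 ≤ 2 ^ (b * c2 * L ^ 2) := by
      calc 1 / μ ^ m0 = (1 / μ) ^ m0 := by rw [one_div_pow]
        _ ≤ (2 ^ b) ^ m0 := pow_le_pow_left₀ (by positivity) hb m0
        _ = 2 ^ (b * m0) := by rw [← pow_mul]
        _ ≤ 2 ^ (b * c2 * L ^ 2) := by
          apply pow_le_pow_right₀ (by norm_num)
          rw [hm0, mul_assoc]
          exact Nat.mul_le_mul_left _ (Nat.mul_le_mul_left _ hLL)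
    have hT1 : ((m0.factorial : ℝ) * 2 ^ m0) ^ 3 / μ ^ m0 ≤ 2 ^ (e1 * L ^ 2) := by
      have h1 : (m0.factorial : ℝ) * 2 ^ m0 ≤ 2 ^ ((c2 * (c2 + 1) + c2) * L ^ 2) := by
        rw [add_mul, pow_add]
        exact mul_le_mul hfac h2m (by positivity) (by positivity)
      calc ((m0.factorial : ℝ) * 2 ^ m0) ^ 3 / μ ^ m0
          = ((m0.factorial : ℝ) * 2 ^ m0) ^ 3 * (1 / μ ^ m0) := by ring
        _ ≤ (2 ^ ((c2 * (c2 + 1) + c2) * L ^ 2)) ^ 3 * 2 ^ (b * c2 * L ^ 2) :=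
            mul_le_mul (pow_le_pow_left₀ (by positivity) h1 3) hmu (by positivity) (by positivity)
        _ = 2 ^ (e1 * L ^ 2) := by
            rw [← pow_mul, ← pow_add, he1]; congr 1; ring
    have hT2 : 136 * (n : ℝ) ^ 4 / μ ^ 2 * n ≤ 2 ^ (e2 * L ^ 2) := by
      have hn5 : (n : ℝ) ^ 5 ≤ 2 ^ (5 * L) := by
        calc (n : ℝ) ^ 5 ≤ (2 ^ L) ^ 5 := pow_le_pow_left₀ hnpos.le hn2 5
          _ = 2 ^ (5 * L) := by rw [← pow_mul, mul_comm]
      have hb2 : (1 / μ) ^ 2 ≤ 2 ^ (2 * b) := by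
        calc (1 / μ) ^ 2 ≤ (2 ^ b) ^ 2 := pow_le_pow_left₀ (by positivity) hb 2
          _ = 2 ^ (2 * b) := by rw [← pow_mul, mul_comm]
      calc 136 * (n : ℝ) ^ 4 / μ ^ 2 * n = 136 * ((n : ℝ) ^ 5 * (1 / μ) ^ 2) := by
            field_simp
        _ ≤ 2 ^ 8 * (2 ^ (5 * L) * 2 ^ (2 * b)) := by
            apply mul_le_mul (by norm_num) _ (by positivity) (by positivity)
            exact mul_le_mul hn5 hb2 (by positivity) (by positivity)
        _ = 2 ^ (8 + (5 * L + 2 * b)) := by rw [pow_add, pow_add]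
        _ ≤ 2 ^ (e2 * L ^ 2) := by
            apply pow_le_pow_right₀ (by norm_num)
            rw [he2]
            nlinarith
    have hS : ((m0.factorial : ℝ) * 2 ^ m0) ^ 3 / μ ^ m0 + 136 * (n : ℝ) ^ 4 / μ ^ 2 * n ≤
        2 ^ ((e1 + e2 + 1) * L ^ 2) := by
      have h1 : (2 : ℝ) ^ (e1 * L ^ 2) ≤ 2 ^ ((e1 + e2) * L ^ 2) :=
        pow_le_pow_right₀ (by norm_num) (Nat.mul_le_mul_right _ (by omega))
      have h2 : (2 : ℝ) ^ (e2 * L ^ 2) ≤ 2 ^ ((e1 + e2) * L ^ 2) :=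
        pow_le_pow_right₀ (by norm_num) (Nat.mul_le_mul_right _ (by omega))
      calc _ ≤ (2 : ℝ) ^ ((e1 + e2) * L ^ 2) + 2 ^ ((e1 + e2) * L ^ 2) := by linarith
        _ = 2 ^ ((e1 + e2) * L ^ 2 + 1) := by rw [pow_succ]; ring
        _ ≤ 2 ^ ((e1 + e2 + 1) * L ^ 2) := by
            apply pow_le_pow_right₀ (by norm_num)
            nlinarith
    calc _ ≤ (2 : ℝ) ^ (4 * c2 * L ^ 2) * 2 ^ ((e1 + e2 + 1) * L ^ 2) :=
          mul_le_mul hE hS (by positivity) (by positivity)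
      _ = 2 ^ ((4 * c2 + e1 + e2 + 1) * L ^ 2) := by
          rw [← pow_add]; congr 1; ring

end Pool.Agent.QPR
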