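import Pool.Agent.QPR.Stmts2

/-!
# Part (2) of the project QPR: the one-step inequality (module OS)
-/

set_option autoImplicit false

namespace Pool.Agent.QPR

open Finset
open scoped Classical

namespace M_OS

/-- one step, in numbers -/
theorem one_step {κ u I J B : ℝ} (hκ : 0 ≤ κ) (hu : 2 * κ ≤ u) (hI : 0 ≤ I) (hB : 0 ≤ B)
    (h : I ≤ 1 / 2 * (1 + κ) * (I + J) + B) : (1 - u) * I - 2 * B ≤ J := by
  have h1 : (1 - κ) * I - 2 * B ≤ (1 + κ) * J := by linarith
  have h2 : (1 + κ) * ((1 - u) * I - 2 * B) ≤ (1 + κ) * J := by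
    refine le_trans ?_ h1
    have h3 : 0 ≤ κ * B := mul_nonneg hκ hB
    have h4 : 0 ≤ (u - 2 * κ) * I := mul_nonneg (by linarith) hI
    have h5 : 0 ≤ κ * (u * I) := mul_nonneg hκ (mul_nonneg (by linarith) hI)
    nlinarith
  exact le_of_mul_le_mul_left h2 (by linarith)

/-- iteration, in numbers -/
theorem iterate {u B : ℝ} (hu : 0 ≤ u) (hu1 : u ≤ 1) (hB : 0 ≤ B) (I : ℕ → ℝ) (hI : 0 ≤ I 0)
    (q : ℕ) (h : ∀ j, j + 1 < q → (1 - u) * I j - 2 * B ≤ I (j + 1)) :
    ∀ j, j < q → (1 - u * j) * I 0 - 2 * j * B ≤ I j := by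
  intro j
  induction j with
  | zero => intro _; simp
  | succ j ih =>
    intro hj
    have h1 := ih (by omega)
    have h2 := h j hj
    have h3 : (1 - u) * ((1 - u * j) * I 0 - 2 * j * B) ≤ (1 - u) * I j :=
      mul_le_mul_of_nonneg_left h1 (by linarith)
    have hj0 : (0 : ℝ) ≤ j := Nat.cast_nonneg j
    have h4 : 0 ≤ u * u * j * I 0 := mul_nonneg (mul_nonneg (mul_nonneg hu hu) hj0) hI
    have h5 : 0 ≤ u * (j * B) := mul_nonneg hu (mul_nonneg hj0 hB)
    push_cast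
    nlinarith

/-- summation, in numbers -/
theorem final {u B V m k N : ℝ} (hu : u = 4 * k / m) (hk : 1 ≤ k) (hm : 0 < m) (hB : 0 ≤ B)
    (hV : 0 ≤ V) (I : ℕ → ℝ) (hI : 0 ≤ I 0) (q : ℕ) (hq : m / (8 * k) ≤ q)
    (hq' : (q : ℝ) < m / (8 * k) + 1) (hmN : m ≤ N)
    (h : ∀ j, j < q → (1 - u * j) * I 0 - 2 * j * B ≤ I j)
    (hs : ∑ i ∈ range q, I i ≤ V) : I 0 ≤ 16 * k / m * V + 2 * N * B := by
  have h8 : 0 < 8 * k := by linarith
  have hq0 : (0 : ℝ) < q := lt_of_lt_of_le (div_pos hm h8) hq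
  have h1 : ∀ j ∈ range q, 1 / 2 * I 0 - 2 * ((q : ℝ) - 1) * B ≤ I j := by
    intro j hj
    have hjq := Finset.mem_range.1 hj
    refine le_trans ?_ (h j hjq)
    have h2 : (j : ℝ) + 1 ≤ q := by exact_mod_cast hjq
    have h3 : (j : ℝ) < m / (8 * k) := by linarith
    have h4 : u * j ≤ 1 / 2 := by
      rw [hu]
      rw [lt_div_iff₀ h8] at h3
      rw [div_mul_eq_mul_div, div_le_iff₀ hm]
      linarith
    have h5 : (1 / 2 - u * j) * I 0 ≥ 0 := mul_nonneg (by linarith) hI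
    have h6 : 0 ≤ ((q : ℝ) - 1 - j) * B := mul_nonneg (by linarith) hB
    nlinarith
  have h2 : (q : ℝ) * (1 / 2 * I 0 - 2 * ((q : ℝ) - 1) * B) ≤ V := by
    refine le_trans ?_ hs
    have h3 := Finset.sum_le_sum h1
    rw [Finset.sum_const, card_range, nsmul_eq_mul] at h3
    exact h3
  have h3 : I 0 ≤ 2 * (V / q) + 4 * ((q : ℝ) - 1) * B := by
    have h4 : 1 / 2 * I 0 - 2 * ((q : ℝ) - 1) * B ≤ V / q := by
      rw [le_div_iff₀ hq0]
      linarith
    linarith
  have h4 : V / q ≤ 8 * k / m * V := by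
    rw [div_le_iff₀ hq0]
    have h5 : 1 ≤ 8 * k / m * q := by
      rw [div_mul_eq_mul_div, le_div_iff₀ hm, one_mul]
      rw [div_le_iff₀ h8] at hq
      linarith
    have h6 : V * 1 ≤ V * (8 * k / m * q) := mul_le_mul_of_nonneg_left h5 hV
    linarith
  have h5 : ((q : ℝ) - 1) ≤ N / 2 := by
    have h6 : m / (8 * k) ≤ m / 2 := by
      apply div_le_div_of_nonneg_left hm.le (by norm_num) (by linarith)
    linarith
  have h6 : 4 * ((q : ℝ) - 1) * B ≤ 2 * N * B :=
    mul_le_mul_of_nonneg_right (by linarith) hB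
  have h7 : 16 * k / m * V = 2 * (8 * k / m * V) := by ring
  rw [h7]
  linarith

end M_OS

open M_OS in
theorem t_OS (hFST : St_FST) (hREC : St_REC) : St_OS := by
  intro α _ D k a b n hk ha hb H C R F hkR hRn
  obtain ⟨hA, hM, hL, hS⟩ := hREC α D
  have hm4 : (4 : ℝ) ≤ R.card := by linarith
  have hm0 : (0 : ℝ) < R.card := by linarith
  have hne : R.Nonempty := by
    rw [← Finset.card_pos]
    exact_mod_cast hm0
  obtain ⟨-, -, -, -, -, -, -, -, -, -, hVr, -, hEn⟩ := hFST α D C R F hne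
  have hB : 0 ≤ a * D.En C R F + b * D.Vr C R F :=
    add_nonneg (mul_nonneg ha hEn) (mul_nonneg hb hVr)
  have h8 : (0 : ℝ) < 8 * k := by linarith
  set q : ℕ := ⌈(R.card : ℝ) / (8 * k)⌉₊ with hq
  have hq1 : (R.card : ℝ) / (8 * k) ≤ q := Nat.le_ceil _
  have hq2 : (q : ℝ) < (R.card : ℝ) / (8 * k) + 1 := Nat.ceil_lt_add_one (div_pos hm0 h8).le
  have hm8 : (R.card : ℝ) / (8 * k) ≤ R.card / 8 :=
    div_le_div_of_nonneg_left hm0.le (by norm_num) (by linarith)
  have hqm : q ≤ R.card := by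
    have h1 : (q : ℝ) ≤ R.card := by linarith
    exact_mod_cast h1
  set I : ℕ → ℝ := fun j => D.stepN D.I0 j C R F with hI
  have hI0 : I 0 = D.I0 C R F := rfl
  have hInn : ∀ j, j ≤ R.card → 0 ≤ I j := fun j hj => (hA C R F j hj).2.1
  have hstep : ∀ j, j + 1 < q → (1 - 4 * k / R.card) * I j -
      2 * (a * D.En C R F + b * D.Vr C R F) ≤ I (j + 1) := by
    intro j hj
    have hjm : j ≤ R.card := by omega
    have hj1 : (j : ℝ) + 1 < q := by exact_mod_cast hj
    have hjr : (R.card : ℝ) / 2 ≤ R.card - j := by linarith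
    have hmj : (((R.card - j : ℕ)) : ℝ) = R.card - j := Nat.cast_sub hjm
    have hmj2 : 2 ≤ R.card - j := by
      have h1 : (2 : ℝ) ≤ ((R.card - j : ℕ) : ℝ) := by rw [hmj]; linarith
      exact_mod_cast h1
    set κ : ℝ := k / ((R.card - j : ℕ) : ℝ) with hκ
    have hκ0 : 0 ≤ κ := div_nonneg (by linarith) (Nat.cast_nonneg _)
    have hκu : 2 * κ ≤ 4 * k / R.card := by
      have h1 : κ ≤ k / (R.card / 2) := by
        rw [hκ, hmj]
        exact div_le_div_of_nonneg_left (by linarith) (by linarith) hjr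
      have h2 : 2 * (k / ((R.card : ℝ) / 2)) = 4 * k / R.card := by
        field_simp
        ring
      linarith
    have h1 := hM D.I0 (fun C R F => 1 * (1 / 2 * (1 + κ) * D.I0 C R F +
        1 / 2 * (1 + κ) * D.step D.I0 C R F) + 1 * (a * D.En C R F + b * D.Vr C R F)) j C R F hjm (by
      intro C' R' F' hR'
      have hc : R'.card = R.card - j := by omega
      have h2 := H C' R' F' (by omega) (by omega)
      rw [hc] at h2
      rw [hκ]
      linarith)
    rw [hL (fun C R F => 1 / 2 * (1 + κ) * D.I0 C R F +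
        1 / 2 * (1 + κ) * D.step D.I0 C R F) (fun C R F => a * D.En C R F + b * D.Vr C R F) 1 1,
      hL D.I0 (D.step D.I0), hL D.En D.Vr, hS D.I0] at h1
    have h2 := (hA C R F j hjm).2.2.2
    have h3 : a * D.stepN D.En j C R F ≤ a * D.En C R F := mul_le_mul_of_nonneg_left h2.1 ha
    have h4 : b * D.stepN D.Vr j C R F ≤ b * D.Vr C R F := mul_le_mul_of_nonneg_left h2.2 hb
    refine one_step hκ0 hκu (hInn j hjm) hB ?_
    change D.stepN D.I0 j C R F ≤ 1 / 2 * (1 + κ) * (D.stepN D.I0 j C R F +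
      D.stepN D.I0 (j + 1) C R F) + (a * D.En C R F + b * D.Vr C R F)
    linarith
  have hu0 : 0 ≤ 4 * k / (R.card : ℝ) := div_nonneg (by linarith) hm0.le
  have hu1 : 4 * k / (R.card : ℝ) ≤ 1 := by rw [div_le_one hm0]; exact hkR
  have hit := iterate hu0 hu1 hB I (hInn 0 (Nat.zero_le _)) q hstep
  have hsum : ∑ i ∈ range q, I i ≤ D.Vr C R F := by
    obtain ⟨h1, -, h2, -⟩ := hA C R F q hqm
    linarith
  have hRn' : (R.card : ℝ) ≤ n := by exact_mod_cast hRn
  have hfin := final rfl hk hm0 hB hVr I (hInn 0 (Nat.zero_le _)) q hq1 hq2 hRn' hit hsum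
  rw [hI0] at hfin
  refine hfin.trans (le_of_eq ?_)
  ring

end Pool.Agent.QPR
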