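import Pool.Agent.QPR.Stmts2

/-!
# Part (2) of the project QPR: the Poincare inequality in the form of part (3)
-/

set_option autoImplicit false

namespace Pool.Agent.QPR

open Finset
open scoped Classical

namespace M_P2

theorem double_sum {ι : Type} (S : Finset ι) (w f : ι → ℝ) :
    ∑ s ∈ S, ∑ s' ∈ S, w s * w s' * (f s - f s') ^ 2 =
      2 * ((∑ s ∈ S, w s) * (∑ s ∈ S, w s * f s ^ 2) - (∑ s ∈ S, w s * f s) ^ 2) := by
  have h1 : ∀ s ∈ S, ∑ s' ∈ S, w s * w s' * (f s - f s') ^ 2 =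
      (w s * f s ^ 2) * (∑ s' ∈ S, w s') - (2 * (w s * f s)) * (∑ s' ∈ S, w s' * f s') +
        w s * ∑ s' ∈ S, w s' * f s' ^ 2 := by
    intro s _
    rw [Finset.mul_sum, Finset.mul_sum, Finset.mul_sum, ← Finset.sum_sub_distrib,
      ← Finset.sum_add_distrib]
    apply Finset.sum_congr rfl
    intro s' _
    ring
  rw [Finset.sum_congr rfl h1, Finset.sum_add_distrib, Finset.sum_sub_distrib, ← Finset.sum_mul,
    ← Finset.sum_mul, ← Finset.sum_mul, ← Finset.mul_sum]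
  ring

theorem two_pow_le (c L : ℕ) (hL : 1 ≤ L) :
    (2 : ℝ) * 2 ^ (c * L ^ 2) ≤ 2 ^ ((c + 1) * L ^ 2) := by
  have h1 : c * L ^ 2 + 1 ≤ (c + 1) * L ^ 2 := by
    have h2 : 1 ≤ L ^ 2 := Nat.one_le_pow _ _ hL
    rw [add_mul, one_mul]
    omega
  calc (2 : ℝ) * 2 ^ (c * L ^ 2) = 2 ^ (c * L ^ 2 + 1) := by rw [pow_succ]; ring
    _ ≤ 2 ^ ((c + 1) * L ^ 2) := pow_le_pow_right₀ (by norm_num) h1

theorem term_nonneg {α : Type} [DecidableEq α] (r : Finset α → ℕ) {x y : ℝ} (hx : 0 ≤ x)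
    (hy : 0 ≤ y) (C : Finset α) (H : Finset (List (α × Bool))) (f : List (α × Bool) → ℝ)
    (τ : List (α × Bool) → List (α × Bool)) :
    0 ≤ ∑ h ∈ H, min (hw r x y 1 C h) (hw r x y 1 C (τ h)) * (f h - f (τ h)) ^ 2 := by
  apply Finset.sum_nonneg
  intro h _
  exact mul_nonneg (le_min (hw_nonneg hx hy zero_le_one _ _) (hw_nonneg hx hy zero_le_one _ _))
    (sq_nonneg _)

theorem E3_nonneg {α : Type} [DecidableEq α] (r : Finset α → ℕ) {x y : ℝ} (hx : 0 ≤ x)
    (hy : 0 ≤ y) (C R : Finset α) (f : List (α × Bool) → ℝ) : 0 ≤ E3 r x y C R f := by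
  unfold E3
  apply Finset.sum_nonneg
  intro k _
  apply Finset.sum_nonneg
  intro i _
  exact term_nonneg r hx hy C _ f _

theorem sum_le_E3 {α : Type} [DecidableEq α] (D : Dat α) (C R : Finset α)
    (f : List (α × Bool) → ℝ) :
    ∑ i ∈ range (R.card - 1), (D.mvE C R f (mA i) + D.mvE C R f (mB i)) ≤
      E3 D.r D.x D.y C R f := by
  unfold E3
  rw [Fintype.sum_prod_type]
  simp only [Fintype.sum_bool]
  rw [Finset.sum_add_distrib]
  have h1 : ∀ k : Bool × Bool, 0 ≤ ∑ i ∈ range (R.card - 1), ∑ h ∈ Hist R,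
      min (hw D.r D.x D.y 1 C h) (hw D.r D.x D.y 1 C (actN k i h)) *
        (f h - f (actN k i h)) ^ 2 := by
    intro k
    apply Finset.sum_nonneg
    intro i _
    exact term_nonneg D.r D.x0.le D.y0.le C _ f _
  have h2 := h1 (false, true)
  have h3 := h1 (false, false)
  have h4 : ∑ i ∈ range (R.card - 1), D.mvE C R f (mA i) = ∑ i ∈ range (R.card - 1),
      ∑ h ∈ Hist R, min (hw D.r D.x D.y 1 C h) (hw D.r D.x D.y 1 C (actN (true, true) i h)) *
        (f h - f (actN (true, true) i h)) ^ 2 := rfl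
  have h5 : ∑ i ∈ range (R.card - 1), D.mvE C R f (mB i) = ∑ i ∈ range (R.card - 1),
      ∑ h ∈ Hist R, min (hw D.r D.x D.y 1 C h) (hw D.r D.x D.y 1 C (actN (true, false) i h)) *
        (f h - f (actN (true, false) i h)) ^ 2 := rfl
  rw [h4, h5]
  linarith

end M_P2

open M_P2 in
theorem t_P2 (hBAS : St_BAS) (hFST : St_FST) (hMIXR : St_MIXR) (hPOI : St_POI) : St_P2 := by
  intro hM x y hx hx1 hy hy1
  obtain ⟨K, hK0, hK⟩ := hM x y hx hx1 hy hy1
  obtain ⟨c, hc⟩ := hPOI x y K hx hx1 hy hy1 hK0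
  refine ⟨c + 1, ?_⟩
  intro α _ r hr C R _ f
  let D : Dat α := ⟨r, hr, x, y, hx, hx1, hy, hy1⟩
  have hE3 : 0 ≤ E3 r x y C R f := E3_nonneg r hx.le hy.le C R f
  rcases R.eq_empty_or_nonempty with hR | hR
  · subst hR
    have h1 : Hist (∅ : Finset α) = {[]} := rfl
    have h2 : ∑ s ∈ Hist (∅ : Finset α), ∑ s' ∈ Hist (∅ : Finset α),
        hw r x y 1 C s * hw r x y 1 C s' * (f s - f s') ^ 2 = 0 := by
      rw [h1]
      simp
    rw [h2]
    apply mul_nonneg (mul_nonneg (by positivity) ?_) hE3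
    apply Finset.sum_nonneg
    intro s _
    exact hw_nonneg hx.le hy.le zero_le_one _ _
  · have hV : D.Vr C R f ≤ 2 ^ (c * (Nat.log 2 R.card + 1) ^ 2) * D.En C R f :=
      hc α D rfl rfl (hMIXR α D K (hK α D rfl rfl)) C R f
    obtain ⟨_, hW, _, _, _, _, hVr, _, _, _, _, _, _⟩ := hFST α D C R f hR
    set L : ℕ := Nat.log 2 R.card + 1 with hL
    have hWd : D.W C R = ∑ s ∈ Hist R, hw r x y 1 C s := rfl
    have hEx1 : D.Ex C R (fun h => f h ^ 2) =
        (∑ s ∈ Hist R, hw r x y 1 C s * f s ^ 2) / D.W C R := rfl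
    have hEx2 : D.Ex C R f = (∑ s ∈ Hist R, hw r x y 1 C s * f s) / D.W C R := rfl
    have hid : ∑ s ∈ Hist R, ∑ s' ∈ Hist R,
        hw r x y 1 C s * hw r x y 1 C s' * (f s - f s') ^ 2 =
        2 * D.W C R ^ 2 * D.Vr C R f := by
      rw [double_sum, ← hWd, hVr, hEx1, hEx2]
      have := hW.ne'
      field_simp
    have hEn : D.W C R * D.En C R f ≤ E3 r x y C R f := by
      have h1 : D.W C R * D.En C R f =
          ∑ i ∈ range (R.card - 1), (D.mvE C R f (mA i) + D.mvE C R f (mB i)) := by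
        unfold Dat.En
        have := hW.ne'
        field_simp
      rw [h1]
      exact sum_le_E3 D C R f
    rw [hid, ← hWd]
    have hp : (0 : ℝ) ≤ 2 ^ (c * L ^ 2) := by positivity
    calc 2 * D.W C R ^ 2 * D.Vr C R f
        ≤ 2 * D.W C R ^ 2 * (2 ^ (c * L ^ 2) * D.En C R f) :=
          mul_le_mul_of_nonneg_left hV (by positivity)
      _ = (2 * 2 ^ (c * L ^ 2)) * D.W C R * (D.W C R * D.En C R f) := by ring
      _ ≤ (2 * 2 ^ (c * L ^ 2)) * D.W C R * E3 r x y C R f :=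
          mul_le_mul_of_nonneg_left hEn (by positivity)
      _ ≤ 2 ^ ((c + 1) * L ^ 2) * D.W C R * E3 r x y C R f := by
          apply mul_le_mul_of_nonneg_right _ hE3
          exact mul_le_mul_of_nonneg_right (two_pow_le c L (by omega)) hW.le

end Pool.Agent.QPR
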