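import Pool.Agent.QPR.Stmts2

/-!
# Part (2) of the project QPR: persistence of parallel and series pairs (St_PER)
-/

set_option autoImplicit false

namespace Pool.Agent.QPR

open Finset
open scoped Classical

namespace M_PER

variable {α : Type} [DecidableEq α]

theorem set1 {C R : Finset α} {e g : α} (hg : g ∈ R) (hge : g ≠ e) :
    insert g C ∪ (R.erase g).erase e = C ∪ R.erase e := by
  ext a
  simp only [mem_union, mem_insert, mem_erase]
  by_cases h1 : a = g
  · subst h1; simp [hg, hge]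
  · simp [h1]

theorem set2 {C R : Finset α} {e f g : α} (hg : g ∈ R) (hge : g ≠ e) (hgf : g ≠ f) :
    insert g C ∪ ((R.erase g).erase f).erase e = C ∪ (R.erase f).erase e := by
  ext a
  simp only [mem_union, mem_insert, mem_erase]
  by_cases h1 : a = g
  · subst h1; simp [hg, hge, hgf]
  · simp [h1]

theorem set3 {C R : Finset α} {e f : α} (he : e ∈ R) (hef : e ≠ f) :
    insert e (C ∪ (R.erase f).erase e) = C ∪ R.erase f := by
  ext a
  simp only [mem_union, mem_insert, mem_erase]
  by_cases h1 : a = e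
  · subst h1; simp [he, hef]
  · simp [h1]

theorem par (D : Dat α) {C : Finset α} {e f : α} (g : α) (h : D.Par C e f)
    (hn : ¬ D.Lp (insert g C) e) : D.Par (insert g C) e f := by
  obtain ⟨_, _, h3⟩ := h
  unfold Dat.Lp at h3
  have h4 : D.r (insert e (insert f (insert g C))) = D.r (insert f (insert g C)) :=
    D.hr.closure h3 (Finset.insert_subset_insert _ (Finset.subset_insert _ _))
  refine ⟨hn, fun h5 => hn ?_, h4⟩
  unfold Dat.Lp at h5 ⊢
  have h6 : D.r (insert e (insert g C)) ≤ D.r (insert e (insert f (insert g C))) :=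
    D.hr.mono_subset (Finset.insert_subset_insert _ (Finset.subset_insert _ _))
  have h7 := D.hr.mono (insert g C) e
  omega

theorem ser (D : Dat α) {C R : Finset α} {e f g : α} (he : e ∈ R) (hf : f ∈ R)
    (hef : e ≠ f) (hge : g ≠ e) (hgf : g ≠ f) (h : D.Ser C R e f)
    (hn : ¬ D.Cl C (R.erase g) e) : D.Ser C (R.erase g) e f := by
  obtain ⟨_, _, h3⟩ := h
  have heR : e ∈ R.erase g := Finset.mem_erase.2 ⟨hge.symm, he⟩
  have hfR : f ∈ R.erase g := Finset.mem_erase.2 ⟨hgf.symm, hf⟩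
  unfold Dat.Cl at h3
  have hsub : C ∪ ((R.erase g).erase f).erase e ⊆ C ∪ (R.erase f).erase e := by
    intro a
    simp only [mem_union, mem_erase]
    tauto
  have h4 := D.hr.coclosure h3 hsub
  refine ⟨hn, fun h5 => hn ?_, ?_⟩
  · have h6 : insert e (C ∪ ((R.erase g).erase f).erase e) = C ∪ (R.erase g).erase f :=
      set3 heR hef
    have h7 : insert f (C ∪ ((R.erase g).erase e).erase f) = C ∪ (R.erase g).erase e :=
      set3 hfR hef.symm
    have h8 : ((R.erase g).erase e).erase f = ((R.erase g).erase f).erase e :=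
      Finset.erase_right_comm
    rw [h8] at h7
    unfold Dat.Cl at h5 ⊢
    rw [← h7]
    rw [← h6] at h5
    have h9 := D.hr.le_succ (C ∪ ((R.erase g).erase f).erase e) f
    have h10 : insert e (insert f (C ∪ ((R.erase g).erase f).erase e)) =
        insert f (insert e (C ∪ ((R.erase g).erase f).erase e)) := Finset.insert_comm _ _ _
    rw [h10]
    omega
  · unfold Dat.Cl
    omega

theorem cl_iff (D : Dat α) {C R : Finset α} {e g : α} (hg : g ∈ R) (hge : g ≠ e) :
    D.Cl (insert g C) (R.erase g) e ↔ D.Cl C R e := by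
  unfold Dat.Cl
  rw [set1 hg hge]

theorem ser_iff (D : Dat α) {C R : Finset α} {e f g : α} (hg : g ∈ R) (hge : g ≠ e)
    (hgf : g ≠ f) : D.Ser (insert g C) (R.erase g) e f ↔ D.Ser C R e f := by
  unfold Dat.Ser
  rw [cl_iff D hg hge, cl_iff D hg hgf]
  have h : D.Cl (insert g C) ((R.erase g).erase f) e ↔ D.Cl C (R.erase f) e := by
    unfold Dat.Cl
    rw [set2 hg hge hgf]
  rw [h]

theorem excl1 (D : Dat α) {C R : Finset α} {e f h : α} (hf : f ∈ R) (hef : e ≠ f)
    (hfh : f ≠ h) (hp : D.Par C e f) : ¬ D.Ser C R e h := by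
  rintro ⟨_, _, h3⟩
  obtain ⟨_, _, h4⟩ := hp
  unfold Dat.Cl at h3
  unfold Dat.Lp at h4
  have hsub : insert f C ⊆ C ∪ (R.erase h).erase e := by
    intro a
    simp only [mem_union, mem_insert, mem_erase]
    rintro (h5 | h5)
    · subst h5
      exact Or.inr ⟨hef.symm, hfh, hf⟩
    · exact Or.inl h5
  have h6 := D.hr.closure h4 hsub
  omega

theorem excl (D : Dat α) {C R : Finset α} {e f g : α} (hf : f ∈ R) (hg : g ∈ R)
    (hef : e ≠ f) (hge : g ≠ e) (hgf : g ≠ f) (h1 : D.Par C e f) (h2 : D.Par C e g) :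
    ∀ h ∈ R, h ≠ e → ¬ D.Ser C R e h := by
  intro h _ _
  by_cases hfh : f = h
  · exact excl1 D hg hge.symm (fun h' => hgf (h'.trans hfh.symm)) h2
  · exact excl1 D hf hef hfh h1

end M_PER

theorem t_PER (_hLOC : St_LOC) : St_PER := by
  intro α _ D C R e f g he hf hg hef hge hgf
  refine ⟨fun h1 h2 => M_PER.par D g h1 h2,
    fun h1 h2 => M_PER.ser D he hf hef hge hgf h1 h2, M_PER.ser_iff D hg hge hgf,
    fun h1 h2 => M_PER.excl D hf hg hef hge hgf h1 h2, ?_⟩
  intro hnp
  unfold Dat.np at hnp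
  obtain ⟨a, ha, b, hb, hab⟩ := Finset.one_lt_card.1 (show 1 < _ from hnp)
  rw [Finset.mem_filter, Finset.mem_erase] at ha hb
  obtain ⟨⟨hae, haR⟩, hpa⟩ := ha
  obtain ⟨⟨hbe, hbR⟩, hpb⟩ := hb
  unfold Dat.ns
  rw [Finset.card_eq_zero, Finset.filter_eq_empty_iff]
  intro h hh
  rw [Finset.mem_erase] at hh
  exact M_PER.excl D haR hbR hae.symm hbe hab.symm hpa hpb h hh.2 hh.1

end Pool.Agent.QPR
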