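import Pool.Agent.QPR.Stmts2

/-!
# Part (2) of the project QPR, module RB: the test function chosen for thick classes
-/

set_option autoImplicit false

namespace Pool.Agent.QPR

open Finset
open scoped Classical

namespace M_RB

variable {α : Type} [DecidableEq α] (D : Dat α)

/-- a loop is not a coloop -/
theorem lp_not_cl (C R : Finset α) (e : α) (h : D.Lp C e) : ¬ D.Cl C R e := by
  unfold Dat.Lp at h
  unfold Dat.Cl
  have h1 : D.r (insert e (C ∪ R.erase e)) = D.r (C ∪ R.erase e) :=
    D.hr.closure h Finset.subset_union_left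
  omega

/-- two parallel partners exclude a series partner -/
theorem np_ns (hPER : St_PER) (C R : Finset α) (e : α) (he : e ∈ R) (h : 2 ≤ D.np C R e) :
    D.ns C R e = 0 := by
  have h1 : 1 < ((R.erase e).filter (D.Par C e)).card := h
  rw [Finset.one_lt_card] at h1
  obtain ⟨a, ha, b, hb, hab⟩ := h1
  rw [Finset.mem_filter, Finset.mem_erase] at ha hb
  obtain ⟨⟨ha1, ha2⟩, -⟩ := ha
  obtain ⟨⟨hb1, hb2⟩, -⟩ := hb
  exact (hPER α D C R e a b he ha2 hb2 (Ne.symm ha1) hb1 (Ne.symm hab)).2.2.2.2 h

/-- the first part -/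
theorem part1 (hPER : St_PER) (C R : Finset α) (A : ℕ) (F : List (α × Bool) → ℝ) (hA : 2 ≤ A)
    (e : α) (he : e ∈ R) (hth : ¬ D.Thin A C R e) : D.al0 A C R F e = D.be0 A C R F e := by
  unfold Dat.al0 Dat.be0
  by_cases hL : D.Lp C e
  · have hC := lp_not_cl D C R e hL
    have hG : ¬ D.Gen C R e := fun h => h.1 hL
    rw [if_pos (Or.inr hL), if_neg]
    rintro (h | h)
    · exact hG h.1
    · exact hC h
  · by_cases hC : D.Cl C R e
    · have hG : ¬ D.Gen C R e := fun h => h.2 hC
      rw [if_neg, if_pos (Or.inr hC)]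
      rintro (h | h)
      · exact hG h.1
      · exact hL h
    · have hG : D.Gen C R e := ⟨hL, hC⟩
      by_cases hP : A ≤ D.np C R e
      · have h0 := np_ns D hPER C R e he (hA.trans hP)
        rw [if_pos (Or.inl ⟨hG, hP⟩), if_neg]
        rintro (h | h)
        · have := h.2
          omega
        · exact hC h
      · have hS : A ≤ D.ns C R e := by
          by_contra hcon
          exact hth ⟨hG, by omega, by omega⟩
        rw [if_neg, if_pos (Or.inl ⟨hG, hS⟩)]
        rintro (h | h)
        · exact hP h.2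
        · exact hL h

/-- the elementary inequality for one thick element -/
theorem elem (m p q a b ep S : ℝ) (hm : 0 < m) (hp0 : 0 ≤ p) (hpe : p ≤ ep)
    (hq : q = 1 - p) (hep2 : ep ≤ 1 / 2) (h1 : p * a ^ 2 ≤ S) :
    p / m * (a - b) ^ 2 ≤ 1 / m * (2 * S) + 4 * ep * (q / m * b ^ 2) := by
  have h2 : p * (a - b) ^ 2 ≤ 2 * S + 4 * ep * (q * b ^ 2) := by
    have h3 : (a - b) ^ 2 ≤ 2 * a ^ 2 + 2 * b ^ 2 := by nlinarith [sq_nonneg (a + b)]
    have h4 : p * (a - b) ^ 2 ≤ p * (2 * a ^ 2 + 2 * b ^ 2) := mul_le_mul_of_nonneg_left h3 hp0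
    have h5 : p * b ^ 2 ≤ 2 * ep * (q * b ^ 2) := by
      have h6 : p ≤ 2 * ep * q := by
        rw [hq]
        nlinarith
      have h7 := mul_le_mul_of_nonneg_right h6 (sq_nonneg b)
      linarith
    linarith
  have h8 : 1 / m * (p * (a - b) ^ 2) ≤ 1 / m * (2 * S + 4 * ep * (q * b ^ 2)) :=
    mul_le_mul_of_nonneg_left h2 (by positivity)
  calc p / m * (a - b) ^ 2 = 1 / m * (p * (a - b) ^ 2) := by ring
    _ ≤ _ := h8
    _ = _ := by ring

/-- the probabilities of a generic element -/
theorem P_true (C R : Finset α) (e : α) (hG : D.Gen C R e) :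
    D.P C R e true = D.pe C R e / R.card := by
  unfold Dat.P Dat.pe Dat.om nx
  rw [if_neg hG.1, if_neg hG.2]
  simp only [if_true, one_mul]
  rw [div_div, mul_comm]

theorem P_false (hBAS : St_BAS) (C R : Finset α) (e : α) (he : e ∈ R) (hG : D.Gen C R e) :
    D.P C R e false = (1 - D.pe C R e) / R.card := by
  have h := (((hBAS α D C R).2.2.2.2.2 e he).2.2.1 hG).2.2.2
  rw [h]
  unfold Dat.P Dat.om nx
  rw [if_neg hG.1, if_neg hG.2]
  simp only [Bool.false_eq_true, if_false, one_mul]
  rw [div_div, mul_comm]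

/-- a power against the maximum -/
theorem pow_bd (z M μ ep w : ℝ) (A n : ℕ) (hz0 : 0 < z) (hz1 : z < 1) (hzM : z ≤ M)
    (hμ : 0 < μ) (hw : μ ≤ w) (hAn : A ≤ n) (h : M ^ A / μ ≤ ep) : z ^ n / w ≤ ep := by
  have h1 : z ^ n ≤ z ^ A := pow_le_pow_of_le_one hz0.le hz1.le hAn
  have h2 : z ^ A ≤ M ^ A := pow_le_pow_left₀ hz0.le hzM A
  have h3 : z ^ n / w ≤ M ^ A / μ := by
    exact div_le_div₀ (pow_nonneg (hz0.le.trans hzM) A) (h1.trans h2) hμ hw
  exact h3.trans h

/-- the contribution of one element -/
theorem term (hPER : St_PER) (hBAS : St_BAS) (hBND : St_BND) (hLATE : St_LATE)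
    (C R : Finset α) (A : ℕ) (F : List (α × Bool) → ℝ) (ep V E : ℝ) (hR : R.Nonempty)
    (hV : D.Ex C R (fun h => F h ^ 2) = V) (hE : D.En C R F = E) (hV0 : 0 ≤ V) (hE0 : 0 ≤ E)
    (hA : 2 ≤ A) (hep : (max D.x D.y) ^ A / D.mu ≤ ep) (hep2 : ep ≤ 1 / 2)
    (hP0 : ∀ e ∈ R, ∀ o, 0 ≤ D.P C R e o) (e : α) (he : e ∈ R) :
    ∑ o : Bool, D.P C R e o * (D.phi C R F e o - g1 (D.al0 A C R F) (D.be0 A C R F) e o) ^ 2 ≤
      1 / R.card * (4 * R.card * ep * V + 4 * ((R.card : ℝ) ^ 2 / D.mu) * E) +
        4 * ep * ∑ o : Bool, D.P C R e o * D.phi C R F e o ^ 2 := by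
  obtain ⟨mu0, mu1, -⟩ := hBAS α D C R
  have hm : (0 : ℝ) < R.card := by
    exact_mod_cast Finset.card_pos.2 hR
  have hM0 : 0 < max D.x D.y := lt_max_of_lt_left D.x0
  have hep0 : 0 ≤ ep := le_trans (by positivity) hep
  have hx : D.mu ≤ D.x := min_le_left _ _
  have hy : D.mu ≤ D.y := min_le_right _ _
  have hpt := hP0 e he true
  have hpf := hP0 e he false
  have hrest : 0 ≤ 1 / (R.card : ℝ) * (4 * R.card * ep * V + 4 * ((R.card : ℝ) ^ 2 / D.mu) * E) := by
    positivity
  have hst : 0 ≤ D.P C R e true * D.phi C R F e true ^ 2 := mul_nonneg hpt (sq_nonneg _)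
  have hsf : 0 ≤ D.P C R e false * D.phi C R F e false ^ 2 := mul_nonneg hpf (sq_nonneg _)
  simp only [Fintype.sum_bool]
  have hrhs : 0 ≤ 1 / (R.card : ℝ) * (4 * R.card * ep * V + 4 * ((R.card : ℝ) ^ 2 / D.mu) * E) +
      4 * ep * (D.P C R e true * D.phi C R F e true ^ 2 +
        D.P C R e false * D.phi C R F e false ^ 2) := by
    positivity
  have g1t : g1 (D.al0 A C R F) (D.be0 A C R F) e true = D.al0 A C R F e := if_pos rfl
  have g1f : g1 (D.al0 A C R F) (D.be0 A C R F) e false = D.be0 A C R F e := by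
    unfold g1
    simp
  rw [g1t, g1f]
  by_cases hL : D.Lp C e
  · -- loop
    have hC := lp_not_cl D C R e hL
    have hG : ¬ D.Gen C R e := fun h => h.1 hL
    have hb : D.be0 A C R F e = D.phi C R F e false := by
      unfold Dat.be0
      rw [if_neg]
      rintro (h | h)
      · exact hG h.1
      · exact hC h
    have hp : D.P C R e true = 0 := by
      unfold Dat.P Dat.om
      rw [if_pos hL]
      simp
    rw [hb, hp]
    rw [hp] at hrhs
    simpa using hrhs
  · by_cases hC : D.Cl C R e
    · have hG : ¬ D.Gen C R e := fun h => h.2 hC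
      have ha : D.al0 A C R F e = D.phi C R F e true := by
        unfold Dat.al0
        rw [if_neg]
        rintro (h | h)
        · exact hG h.1
        · exact hL h
      have hp : D.P C R e false = 0 := by
        unfold Dat.P Dat.om
        rw [if_neg hL, if_pos hC]
        simp
      rw [ha, hp]
      rw [hp] at hrhs
      simpa using hrhs
    · have hG : D.Gen C R e := ⟨hL, hC⟩
      obtain ⟨hbt, hbf, -⟩ := hBND α D C R e he hG
      obtain ⟨hlt, hlf⟩ := hLATE α D C R F e he hG
      obtain ⟨-, hp0, hp1, -⟩ := ((hBAS α D C R).2.2.2.2.2 e he).2.2.1 hG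
      have ePt := P_true D C R e hG
      have ePf := P_false D hBAS C R e he hG
      by_cases hP : A ≤ D.np C R e
      · -- parallel class is thick
        have h0 := np_ns D hPER C R e he (hA.trans hP)
        have ha : D.al0 A C R F e = D.phi C R F e false := by
          unfold Dat.al0
          rw [if_pos (Or.inl ⟨hG, hP⟩)]
        have hb : D.be0 A C R F e = D.phi C R F e false := by
          unfold Dat.be0
          rw [if_neg]
          rintro (h | h)
          · have := h.2
            omega
          · exact hC h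
        have hbd : D.y ^ D.np C R e / D.x ≤ ep :=
          pow_bd D.y (max D.x D.y) D.mu ep D.x A (D.np C R e) D.y0 D.y1 (le_max_right _ _) mu0 hx
            hP hep
        have hlt2 : D.pe C R e * D.phi C R F e true ^ 2 ≤
            2 * (R.card * ep) * V + 2 * ((R.card : ℝ) ^ 2 / D.mu) * E := by
          refine hlt.trans ?_
          rw [hV, hE]
          have i1 : (R.card : ℝ) * D.y ^ D.np C R e / D.x ≤ R.card * ep := by
            rw [mul_div_assoc]
            exact mul_le_mul_of_nonneg_left hbd hm.le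
          have i2 : (R.card : ℝ) ^ 2 / D.x ≤ (R.card : ℝ) ^ 2 / D.mu :=
            div_le_div_of_nonneg_left (by positivity) mu0 hx
          have i3 := mul_le_mul_of_nonneg_right i1 hV0
          have i4 := mul_le_mul_of_nonneg_right i2 hE0
          linarith
        have key := elem (R.card : ℝ) (D.pe C R e) (1 - D.pe C R e) (D.phi C R F e true)
          (D.phi C R F e false) ep _ hm hp0.le (hbt.trans hbd) rfl hep2 hlt2
        rw [ha, hb, ePt, ePf]
        rw [ePt] at hst
        have h9 : 0 ≤ 4 * ep * (D.pe C R e / R.card * D.phi C R F e true ^ 2) := by positivity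
        have h10 : (1 : ℝ) / R.card * (2 * (2 * (R.card * ep) * V +
            2 * ((R.card : ℝ) ^ 2 / D.mu) * E)) = 1 / (R.card : ℝ) *
              (4 * R.card * ep * V + 4 * ((R.card : ℝ) ^ 2 / D.mu) * E) := by ring
        rw [h10] at key
        have h11 : (D.phi C R F e false - D.phi C R F e false) ^ 2 = 0 := by ring
        rw [h11, mul_zero, add_zero, mul_add]
        linarith
      · by_cases hS : A ≤ D.ns C R e
        · -- series class is thick
          have ha : D.al0 A C R F e = D.phi C R F e true := by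
            unfold Dat.al0
            rw [if_neg]
            rintro (h | h)
            · exact hP h.2
            · exact hL h
          have hb : D.be0 A C R F e = D.phi C R F e true := by
            unfold Dat.be0
            rw [if_pos (Or.inl ⟨hG, hS⟩)]
          have hbd : D.x ^ D.ns C R e / D.y ≤ ep :=
            pow_bd D.x (max D.x D.y) D.mu ep D.y A (D.ns C R e) D.x0 D.x1 (le_max_left _ _) mu0 hy
              hS hep
          have hlf2 : (1 - D.pe C R e) * D.phi C R F e false ^ 2 ≤
              2 * (R.card * ep) * V + 2 * ((R.card : ℝ) ^ 2 / D.mu) * E := by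
            refine hlf.trans ?_
            rw [hV, hE]
            have i1 : (R.card : ℝ) * D.x ^ D.ns C R e / D.y ≤ R.card * ep := by
              rw [mul_div_assoc]
              exact mul_le_mul_of_nonneg_left hbd hm.le
            have i2 : (R.card : ℝ) ^ 2 / D.y ≤ (R.card : ℝ) ^ 2 / D.mu :=
              div_le_div_of_nonneg_left (by positivity) mu0 hy
            have i3 := mul_le_mul_of_nonneg_right i1 hV0
            have i4 := mul_le_mul_of_nonneg_right i2 hE0
            linarith
          have key := elem (R.card : ℝ) (1 - D.pe C R e) (D.pe C R e) (D.phi C R F e false)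
            (D.phi C R F e true) ep _ hm (by linarith) (hbf.trans hbd) (by ring) hep2 hlf2
          rw [ha, hb, ePt, ePf]
          rw [ePf] at hsf
          have h9 : 0 ≤ 4 * ep * ((1 - D.pe C R e) / R.card * D.phi C R F e false ^ 2) := by
            positivity
          have h10 : (1 : ℝ) / R.card * (2 * (2 * (R.card * ep) * V +
              2 * ((R.card : ℝ) ^ 2 / D.mu) * E)) = 1 / (R.card : ℝ) *
                (4 * R.card * ep * V + 4 * ((R.card : ℝ) ^ 2 / D.mu) * E) := by ring
          rw [h10] at key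
          have h11 : (D.phi C R F e true - D.phi C R F e true) ^ 2 = 0 := by ring
          rw [h11, mul_zero, zero_add, mul_add]
          linarith
        · -- thin
          have ha : D.al0 A C R F e = D.phi C R F e true := by
            unfold Dat.al0
            rw [if_neg]
            rintro (h | h)
            · exact hP h.2
            · exact hL h
          have hb : D.be0 A C R F e = D.phi C R F e false := by
            unfold Dat.be0
            rw [if_neg]
            rintro (h | h)
            · exact hS h.2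
            · exact hC h
          rw [ha, hb]
          simpa using hrhs

end M_RB

open M_RB in
theorem t_RB (_hLOC : St_LOC) (hPER : St_PER) (hBAS : St_BAS) (hBND : St_BND) (hFST : St_FST)
    (hEXP : St_EXP) (hLATE : St_LATE) : St_RB := by
  intro α _ D C R A F ep hR hEx hA hep hep2
  refine ⟨fun e he hth => part1 D hPER C R A F hA e he hth, ?_⟩
  obtain ⟨mu0, mu1, -⟩ := hBAS α D C R
  obtain ⟨-, -, hP0, -, -, -, hVr, hVs, -, hI0, hV0, -, hE0⟩ := hFST α D C R F hR
  have hm : (0 : ℝ) < R.card := by
    exact_mod_cast Finset.card_pos.2 hR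
  have hm1 : (1 : ℝ) ≤ R.card := by
    exact_mod_cast Finset.card_pos.2 hR
  have hM0 : 0 < max D.x D.y := lt_max_of_lt_left D.x0
  have hep0 : 0 ≤ ep := le_trans (by positivity) hep
  -- the second moment is the variance
  have hV : D.Ex C R (fun h => F h ^ 2) = D.Vr C R F := by
    rw [hVr, hEx]
    ring
  -- the mean of the conditional variance is nonnegative
  have hst : 0 ≤ D.step D.Vr C R F := by
    unfold Dat.step
    apply Finset.sum_nonneg
    intro e he
    apply Finset.sum_nonneg
    intro o _
    refine mul_nonneg (hP0 e he o) ?_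
    obtain ⟨-, -, -, -, -, -, -, -, -, -, -, v0, -⟩ :=
      hEXP α D (nx C e o) (R.erase e) (fun h => F ((e, o) :: h)) (fun h => F ((e, o) :: h)) 0
    exact v0
  have hI : ∑ e ∈ R, ∑ o : Bool, D.P C R e o * D.phi C R F e o ^ 2 = D.I0 C R F := by
    unfold Dat.I0
    rw [hEx]
    simp only [sub_zero]
  have hIV : D.I0 C R F ≤ D.Vr C R F := by linarith
  have hsum : D.Rr C R F (D.al0 A C R F) (D.be0 A C R F) ≤
      ∑ e ∈ R, (1 / (R.card : ℝ) * (4 * R.card * ep * D.Vr C R F +
        4 * ((R.card : ℝ) ^ 2 / D.mu) * D.En C R F) +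
        4 * ep * ∑ o : Bool, D.P C R e o * D.phi C R F e o ^ 2) := by
    unfold Dat.Rr
    apply Finset.sum_le_sum
    intro e he
    exact term D hPER hBAS hBND hLATE C R A F ep (D.Vr C R F) (D.En C R F) hR hV rfl hV0 hE0 hA
      hep hep2 hP0 e he
  refine hsum.trans ?_
  rw [Finset.sum_add_distrib, Finset.sum_const, ← Finset.mul_sum, hI, nsmul_eq_mul, ← mul_assoc,
    mul_one_div_cancel hm.ne', one_mul]
  have h1 : 4 * ep * D.I0 C R F ≤ 4 * ep * D.Vr C R F :=
    mul_le_mul_of_nonneg_left hIV (by positivity)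
  have h2 : 4 * ep * D.Vr C R F ≤ R.card * (4 * ep * D.Vr C R F) := by
    have h3 : 0 ≤ 4 * ep * D.Vr C R F := by positivity
    nlinarith
  have h4 : (R.card : ℝ) * (4 * ep * D.Vr C R F) = 4 * R.card * ep * D.Vr C R F := by ring
  have h5 : 8 * (R.card : ℝ) * ep * D.Vr C R F =
    4 * R.card * ep * D.Vr C R F + 4 * R.card * ep * D.Vr C R F := by ring
  rw [h5]
  linarith

end Pool.Agent.QPR
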