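import Pool.Agent.QPR.Stmts2

/-!
Iterated averages over the first entries.
-/

set_option autoImplicit false

namespace Pool.Agent.QPR

open Finset
open scoped Classical

namespace M_REC

variable {α : Type} [DecidableEq α] (D : Dat α)

theorem card_erase {R : Finset α} {e : α} (he : e ∈ R) {j : ℕ} (hj : j + 1 ≤ R.card) :
    j ≤ (R.erase e).card ∧ (R.erase e).card + 1 = R.card := by
  rw [Finset.card_erase_of_mem he]
  have : 0 < R.card := Finset.card_pos.2 ⟨e, he⟩
  omega

theorem mono (hFST : St_FST) (Φ Ψ : Finset α → Finset α → (List (α × Bool) → ℝ) → ℝ) (j : ℕ) :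
    ∀ (C R : Finset α) (F : List (α × Bool) → ℝ), j ≤ R.card →
    (∀ (C' R' : Finset α) (F' : List (α × Bool) → ℝ), R'.card + j = R.card →
      Φ C' R' F' ≤ Ψ C' R' F') → D.stepN Φ j C R F ≤ D.stepN Ψ j C R F := by
  induction j with
  | zero => intro C R F _ h; exact h C R F rfl
  | succ j ih =>
    intro C R F hj h
    have hne : R.Nonempty := Finset.card_pos.1 (by omega)
    have hP := (hFST α D C R F hne).2.2.1
    show D.step (D.stepN Φ j) C R F ≤ D.step (D.stepN Ψ j) C R F
    refine Finset.sum_le_sum fun e he => Finset.sum_le_sum fun o _ => ?_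
    obtain ⟨h1, h2⟩ := card_erase he hj
    exact mul_le_mul_of_nonneg_left
      (ih _ _ _ h1 fun C' R' F' hc => h C' R' F' (by omega)) (hP e he o)

theorem lin (Φ Ψ : Finset α → Finset α → (List (α × Bool) → ℝ) → ℝ) (a b : ℝ) (j : ℕ) :
    ∀ (C R : Finset α) (F : List (α × Bool) → ℝ),
    D.stepN (fun C R F => a * Φ C R F + b * Ψ C R F) j C R F =
      a * D.stepN Φ j C R F + b * D.stepN Ψ j C R F := by
  induction j with
  | zero => intro C R F; rfl
  | succ j ih =>
    intro C R F
    show D.step (D.stepN (fun C R F => a * Φ C R F + b * Ψ C R F) j) C R F =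
      a * D.step (D.stepN Φ j) C R F + b * D.step (D.stepN Ψ j) C R F
    unfold Dat.step
    simp only [ih, Finset.mul_sum, ← Finset.sum_add_distrib]
    refine Finset.sum_congr rfl fun e _ => Finset.sum_congr rfl fun o _ => ?_
    ring

theorem comm (Φ : Finset α → Finset α → (List (α × Bool) → ℝ) → ℝ) (j : ℕ) :
    D.stepN (D.step Φ) j = D.stepN Φ (j + 1) := by
  induction j with
  | zero => rfl
  | succ j ih =>
    show D.step (D.stepN (D.step Φ) j) = D.step (D.stepN Φ (j + 1))
    rw [ih]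

theorem zero (j : ℕ) : ∀ (C R : Finset α) (F : List (α × Bool) → ℝ),
    D.stepN (fun _ _ _ => 0) j C R F = 0 := by
  intro C R F
  have := lin D (fun _ _ _ => 0) (fun _ _ _ => 0) 0 0 j C R F
  simpa using this

theorem nonneg (hFST : St_FST) (Φ : Finset α → Finset α → (List (α × Bool) → ℝ) → ℝ) (j : ℕ)
    (C R : Finset α) (F : List (α × Bool) → ℝ) (hj : j ≤ R.card)
    (h : ∀ (C' R' : Finset α) (F' : List (α × Bool) → ℝ), 0 ≤ Φ C' R' F') :
    0 ≤ D.stepN Φ j C R F := by
  rw [← zero D j C R F]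
  exact mono D hFST _ _ j C R F hj fun C' R' F' _ => h C' R' F'

theorem I0_nonneg (hFST : St_FST) (C R : Finset α) (F : List (α × Bool) → ℝ) :
    0 ≤ D.I0 C R F := by
  rcases R.eq_empty_or_nonempty with h | h
  · subst h; simp [Dat.I0]
  · exact (hFST α D C R F h).2.2.2.2.2.2.2.2.2.1

theorem Vr_nonneg (C R : Finset α) (F : List (α × Bool) → ℝ) : 0 ≤ D.Vr C R F := by
  have hw0 : ∀ h, 0 ≤ D.w C h := fun h =>
    hw_nonneg D.x0.le D.y0.le zero_le_one h C
  unfold Dat.Vr Dat.Ex Dat.W
  exact div_nonneg (Finset.sum_nonneg fun h _ => mul_nonneg (hw0 h) (sq_nonneg _))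
    (Finset.sum_nonneg fun h _ => hw0 h)

theorem eq (hFST : St_FST) (Φ Ψ : Finset α → Finset α → (List (α × Bool) → ℝ) → ℝ) (j : ℕ)
    (C R : Finset α) (F : List (α × Bool) → ℝ) (hj : j ≤ R.card)
    (h : ∀ (C' R' : Finset α) (F' : List (α × Bool) → ℝ), R'.card + j = R.card →
      Φ C' R' F' = Ψ C' R' F') : D.stepN Φ j C R F = D.stepN Ψ j C R F :=
  le_antisymm (mono D hFST _ _ j C R F hj fun C' R' F' hc => (h C' R' F' hc).le)
    (mono D hFST _ _ j C R F hj fun C' R' F' hc => (h C' R' F' hc).ge)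

theorem add (Φ Ψ : Finset α → Finset α → (List (α × Bool) → ℝ) → ℝ) (j : ℕ)
    (C R : Finset α) (F : List (α × Bool) → ℝ) :
    D.stepN (fun C R F => Φ C R F + Ψ C R F) j C R F =
      D.stepN Φ j C R F + D.stepN Ψ j C R F := by
  have := lin D Φ Ψ 1 1 j C R F
  simpa only [one_mul] using this

/-- the law of total variance, iterated -/
theorem vr (hFST : St_FST) (C R : Finset α) (F : List (α × Bool) → ℝ) (j : ℕ) (hj : j ≤ R.card) :
    D.Vr C R F = ∑ i ∈ range j, D.stepN D.I0 i C R F + D.stepN D.Vr j C R F := by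
  induction j with
  | zero => simp [Dat.stepN]
  | succ j ih =>
    rw [ih (by omega), Finset.sum_range_succ, add_assoc]
    congr 1
    rw [eq D hFST D.Vr (fun C R F => D.I0 C R F + D.step D.Vr C R F) j C R F (by omega)
      (fun C' R' F' hc => (hFST α D C' R' F' (Finset.card_pos.1 (by omega))).2.2.2.2.2.2.2.1)]
    rw [add D D.I0 (D.step D.Vr) j C R F, comm D D.Vr j]

theorem en (hFST : St_FST) (C R : Finset α) (F : List (α × Bool) → ℝ) (j : ℕ) (hj : j ≤ R.card) :
    D.stepN D.En j C R F ≤ D.En C R F := by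
  induction j with
  | zero => exact le_rfl
  | succ j ih =>
    refine le_trans ?_ (ih (by omega))
    rw [← comm D D.En j]
    refine mono D hFST (D.step D.En) D.En j C R F (by omega) fun C' R' F' hc => ?_
    have h := hFST α D C' R' F' (Finset.card_pos.1 (by omega))
    have h1 := h.2.2.2.2.2.2.2.2.1
    have h2 := h.2.2.2.2.2.2.2.2.2.2.2.1
    linarith

end M_REC

open M_REC in
theorem t_REC (hBAS : St_BAS) (hFST : St_FST) : St_REC := by
  intro α _ D
  have _ := hBAS
  refine ⟨fun C R F j hj => ?_, fun Φ Ψ j C R F hj h => mono D hFST Φ Ψ j C R F hj h,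
    fun Φ Ψ a b j C R F => lin D Φ Ψ a b j C R F, fun Φ j C R F => by rw [comm D Φ j]⟩
  have h1 := vr D hFST C R F j hj
  have h2 : ∀ i, i ≤ R.card → 0 ≤ D.stepN D.I0 i C R F := fun i hi =>
    nonneg D hFST D.I0 i C R F hi fun C' R' F' => I0_nonneg D hFST C' R' F'
  have h3 : 0 ≤ D.stepN D.Vr j C R F :=
    nonneg D hFST D.Vr j C R F hj fun C' R' F' => Vr_nonneg D C' R' F'
  refine ⟨h1, h2 j hj, h3, en D hFST C R F j hj, ?_⟩
  have h4 : 0 ≤ ∑ i ∈ range j, D.stepN D.I0 i C R F :=
    Finset.sum_nonneg fun i hi => h2 i (by have := Finset.mem_range.1 hi; omega)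
  linarith

end Pool.Agent.QPR
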