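import Pool.Agent.QPR.Stmts2

/-!
# Module QPR2_SC: the scores
-/

set_option autoImplicit false

namespace Pool.Agent.QPR

open Finset
open scoped Classical

namespace M_SC

variable {α : Type} [DecidableEq α] (D : Dat α)

theorem E2_eval (C R : Finset α) (f e : α) (X : Bool → Bool → ℝ) :
    D.E2 C R f e X = D.t C R f true e true * X true true + D.t C R f true e false * X true false +
      (D.t C R f false e true * X false true + D.t C R f false e false * X false false) := by
  unfold Dat.E2
  simp only [Fintype.sum_bool]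

theorem sc_loop {C R : Finset α} {f e : α} {o : Bool} (h : D.Lp (nx C f o) e) (o' : Bool) :
    D.sc C R f o e o' = -((1 - D.y) / D.y) := by
  unfold Dat.sc
  rw [if_pos h]

theorem sc_coloop {C R : Finset α} {f e : α} {o : Bool} (h : ¬ D.Lp (nx C f o) e)
    (h2 : D.Cl (nx C f o) (R.erase f) e) (o' : Bool) :
    D.sc C R f o e o' = 1 / D.x := by
  unfold Dat.sc
  rw [if_neg h, if_pos h2]

theorem sc_gen {C R : Finset α} {f e : α} {o : Bool} (h : ¬ D.Lp (nx C f o) e)
    (h2 : ¬ D.Cl (nx C f o) (R.erase f) e) (o' : Bool) :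
    D.sc C R f o e o' = if o' then 1 else 0 := by
  unfold Dat.sc
  rw [if_neg h, if_neg h2]

theorem om_loop {C R : Finset α} {e : α} (h : D.Lp C e) (o : Bool) :
    D.om C R e o = if o then 0 else D.y := by
  unfold Dat.om
  rw [if_pos h]

theorem om_coloop {C R : Finset α} {e : α} (h : ¬ D.Lp C e) (h2 : D.Cl C R e) (o : Bool) :
    D.om C R e o = if o then D.x else 0 := by
  unfold Dat.om
  rw [if_neg h, if_pos h2]

theorem om_gen {C R : Finset α} {e : α} (h : ¬ D.Lp C e) (h2 : ¬ D.Cl C R e) (o : Bool) :
    D.om C R e o = 1 := by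
  unfold Dat.om
  rw [if_neg h, if_neg h2]

theorem card2 {R : Finset α} {e f : α} (he : e ∈ R) (hf : f ∈ R) (hef : e ≠ f) : 2 ≤ R.card := by
  have h : ({e, f} : Finset α) ⊆ R := by
    intro a ha
    rcases mem_insert.1 ha with rfl | ha
    · exact he
    · rw [mem_singleton.1 ha]; exact hf
  calc 2 = ({e, f} : Finset α).card := (card_pair hef).symm
    _ ≤ R.card := card_le_card h

/-- the marginals of the first entry sum to one -/
theorem marg_one (hBAS : St_BAS) (C R : Finset α) (g : α) (hg : g ∈ R) :
    D.om C R g true * D.T (nx C g true) (R.erase g) / D.T C R +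
      D.om C R g false * D.T (nx C g false) (R.erase g) / D.T C R = 1 := by
  obtain ⟨-, -, hT, -, -, hb⟩ := hBAS α D C R
  obtain ⟨h1, h2, h3, -, -⟩ := hb g hg
  have e1 : nx C g true = insert g C := rfl
  have e2 : nx C g false = C := rfl
  rw [e1, e2]
  by_cases hL : D.Lp C g
  · rw [om_loop D hL, om_loop D hL, (h1 hL).1]
    have : D.y * D.T C (R.erase g) ≠ 0 := by rw [← (h1 hL).1]; exact hT.ne'
    simp only [if_true, Bool.false_eq_true, if_false, zero_mul, zero_div, zero_add]
    exact div_self this
  · by_cases hC : D.Cl C R g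
    · rw [om_coloop D hL hC, om_coloop D hL hC, h2 hC]
      have : D.x * D.T (insert g C) (R.erase g) ≠ 0 := by rw [← h2 hC]; exact hT.ne'
      simp only [if_true, Bool.false_eq_true, if_false, zero_mul, zero_div, add_zero]
      exact div_self this
    · rw [om_gen D hL hC, om_gen D hL hC, one_mul, one_mul, ← add_div, ← (h3 ⟨hL, hC⟩).1]
      exact div_self hT.ne'

end M_SC

open M_SC in
theorem t_SC (hLOC : St_LOC) (_hWEQ : St_WEQ) (hBAS : St_BAS) (hTW : St_TW) (hVV : St_VV) :
    St_SC := by
  intro α _ D C R e f he hf hef hge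
  have hfe : f ≠ e := Ne.symm hef
  have hcard := card2 he hf hef
  obtain ⟨hm1, hm2, -⟩ := hVV α D C R (fun _ => 0) (fun _ => 0) (fun _ => 0) hcard
  obtain ⟨hx, hx1, hy, hy1⟩ : 0 < D.x ∧ D.x < 1 ∧ 0 < D.y ∧ D.y < 1 :=
    ⟨D.x0, D.x1, D.y0, D.y1⟩
  have hxn : D.x ≠ 0 := hx.ne'
  have hyn : D.y ≠ 0 := hy.ne'
  -- marginals, `f` first
  have hMf := hm1 f hf e (mem_erase.2 ⟨hef, he⟩)
  have hMe := hm1 e he f (mem_erase.2 ⟨hfe, hf⟩)
  simp only [Fintype.sum_bool] at hMf hMe
  have hMft := hMf true
  have hMff := hMf false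
  have hMet := hMe true
  have hone := marg_one D hBAS C R f hf
  obtain ⟨hLe, hCe⟩ := hge
  obtain ⟨-, -, hT, -, -, hb⟩ := hBAS α D C R
  -- status of `e` after `f`
  obtain ⟨-, lCl, lLp, lLpL, lCd, lP, lS, lPC, lSL⟩ := hLOC α D C R f e hf he hfe
  obtain ⟨-, -, kLp, -, kCd, kP, kS, kPC, kSL⟩ := hLOC α D C R e f he hf hef
  have hClt : ¬ D.Cl (insert f C) (R.erase f) e := fun h => hCe (lCl.1 h)
  have hpe : D.pe C R e = D.T (insert e C) (R.erase e) / D.T C R := rfl
  have hpf : D.pe C R f = D.T (insert f C) (R.erase f) / D.T C R := rfl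
  have hom_e : ∀ o, D.om C R e o = 1 := fun o => om_gen D hLe hCe o
  -- the total weight is one
  have hE1 : D.E2 C R f e (fun _ _ => 1) = 1 := by
    rw [E2_eval]
    simp only [mul_one]
    rw [hMft, hMff]
    exact hone
  have hgenf : D.Gen C R f → D.E2 C R f e (fun o _ => if o then 1 else 0) = D.pe C R f := by
    intro hgf
    rw [E2_eval]
    simp only [if_true, Bool.false_eq_true, if_false, mul_one, mul_zero, add_zero]
    rw [hMft, om_gen D hgf.1 hgf.2, one_mul, hpf]
    rfl
  by_cases hPar : D.Par C e f
  · have hPar' : D.Par C f e := kP hPar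
    have hLf : ¬ D.Lp C f := hPar.2.1
    have hCf : ¬ D.Cl C R f := (kPC hPar).2
    have hloop : D.Lp (nx C f true) e := (lLp hLf).2 (Or.inr hPar')
    have hnloopf : ¬ D.Lp (nx C f false) e := hLe
    -- `pe` in terms of the smaller minor
    have hTe : D.T (insert e C) (R.erase e) =
        D.y * D.T (insert e C) ((R.erase e).erase f) :=
      (((hBAS α D (insert e C) (R.erase e)).2.2.2.2.2 f (mem_erase.2 ⟨hfe, hf⟩)).1
        ((kLp hLe).2 (Or.inr hPar))).1
    have hTf : D.T (insert f C) (R.erase f) =
        D.y * D.T (insert f C) ((R.erase f).erase e) :=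
      (((hBAS α D (insert f C) (R.erase f)).2.2.2.2.2 e (mem_erase.2 ⟨hef, he⟩)).1
        ((lLp hLf).2 (Or.inr hPar'))).1
    have hsw := ((hTW α D C R e f he hf hef).2.2.2.2 (Or.inl hPar)).1
    have hpe' : D.pe C R e = D.y * (D.T (insert f C) ((R.erase f).erase e) / D.T C R) := by
      rw [hpe, hTe, hsw, mul_div_assoc]
    have hpf' : D.pe C R f = D.y * (D.T (insert f C) ((R.erase f).erase e) / D.T C R) := by
      rw [hpf, hTf, mul_div_assoc]
    have hTm : D.Tm C R f e = -((1 - D.y) / D.y) * D.pe C R f := by
      unfold Dat.Tm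
      rw [if_pos hPar']
    by_cases hSer : D.Ser C R e f
    · have hSer' : D.Ser C R f e := kS hSer
      obtain ⟨t1, t2, t3, t4⟩ := (hTW α D C R f e hf he hfe).2.2.2.1 hPar' hSer'
      have hcol : D.Cl (nx C f false) (R.erase f) e := (lCd hCf).2 (Or.inr hSer')
      have s1 : ∀ o', D.sc C R f true e o' = -((1 - D.y) / D.y) := sc_loop D hloop
      have s2 : ∀ o', D.sc C R f false e o' = 1 / D.x := sc_coloop D hnloopf hcol
      have h1pe : 1 - D.pe C R e = D.x * (D.T (insert f C) ((R.erase f).erase e) / D.T C R) := by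
        have h := ((hb e he).2.2.1 ⟨hLe, hCe⟩).2.2.2
        have h' := ((hBAS α D C (R.erase e)).2.2.2.2.2 f (mem_erase.2 ⟨hfe, hf⟩)).2.1
          ((kCd hCe).2 (Or.inr hSer))
        rw [h, h', erase_right_comm, mul_div_assoc]
      refine ⟨hE1, ?_, ?_, fun hgf => ⟨hgenf hgf, ?_⟩⟩
      · rw [E2_eval]
        simp only [s1, s2]
        rw [t1, t2, t3, t4, hpe']
        field_simp
        ring
      · rw [E2_eval]
        simp only [s1, s2]
        rw [t1, t2, t3, t4, if_pos hPar, if_pos hSer, h1pe, hpe']
        field_simp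
        ring
      · rw [E2_eval]
        simp only [s1, s2, if_true, Bool.false_eq_true, if_false]
        rw [t1, t2, t3, t4, hTm, hpf']
        ring
    · have hSer' : ¬ D.Ser C R f e := fun h => hSer (lS h)
      obtain ⟨t1, t2, t3, t4⟩ := (hTW α D C R f e hf he hfe).2.1 hPar' hSer'
      have hncol : ¬ D.Cl (nx C f false) (R.erase f) e := by
        intro h
        rcases (lCd hCf).1 h with h | h
        · exact hCe h
        · exact hSer' h
      have s1 : ∀ o', D.sc C R f true e o' = -((1 - D.y) / D.y) := sc_loop D hloop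
      have s2 : ∀ o', D.sc C R f false e o' = if o' then 1 else 0 := sc_gen D hnloopf hncol
      refine ⟨hE1, ?_, ?_, fun hgf => ⟨hgenf hgf, ?_⟩⟩
      · rw [E2_eval]
        simp only [s1, s2, if_true, Bool.false_eq_true, if_false]
        rw [t1, t2, t3, hpe']
        field_simp
        ring
      · rw [E2_eval]
        simp only [s1, s2, if_true, Bool.false_eq_true, if_false]
        rw [t1, t2, t3, if_pos hPar, if_neg hSer, hpe']
        field_simp
        ring
      · rw [E2_eval]
        simp only [s1, s2, if_true, Bool.false_eq_true, if_false]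
        rw [t1, t2, hTm, hpf']
        ring
  · have hPar' : ¬ D.Par C f e := fun h => hPar (lP h)
    have hTm : D.Tm C R f e =
        D.T (insert e (insert f C)) ((R.erase f).erase e) / D.T C R := by
      unfold Dat.Tm
      rw [if_neg hPar']
    have hnloopt : ¬ D.Lp (nx C f true) e := by
      intro h
      by_cases hLf : D.Lp C f
      · exact hLe ((lLpL hLf).1 h)
      · rcases (lLp hLf).1 h with h | h
        · exact hLe h
        · exact hPar' h
    have hnloopf : ¬ D.Lp (nx C f false) e := hLe
    have s1 : ∀ o', D.sc C R f true e o' = if o' then 1 else 0 := sc_gen D hnloopt hClt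
    by_cases hSer : D.Ser C R e f
    · have hSer' : D.Ser C R f e := kS hSer
      have hCf : ¬ D.Cl C R f := hSer.2.1
      have hLf : ¬ D.Lp C f := (kSL hSer).2
      obtain ⟨t1, t2, t3, t4⟩ := (hTW α D C R f e hf he hfe).2.2.1 hPar' hSer'
      have hcol : D.Cl (nx C f false) (R.erase f) e := (lCd hCf).2 (Or.inr hSer')
      have s2 : ∀ o', D.sc C R f false e o' = 1 / D.x := sc_coloop D hnloopf hcol
      have hsw := (hTW α D C R e f he hf hef).2.2.2.2 (Or.inr hSer)
      have h1pe : 1 - D.pe C R e = D.x * (D.T (insert f C) ((R.erase f).erase e) / D.T C R) := by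
        have h := ((hb e he).2.2.1 ⟨hLe, hCe⟩).2.2.2
        have h' := ((hBAS α D C (R.erase e)).2.2.2.2.2 f (mem_erase.2 ⟨hfe, hf⟩)).2.1
          ((kCd hCe).2 (Or.inr hSer))
        rw [h, h', erase_right_comm, mul_div_assoc]
      have hpe' : D.pe C R e = D.T (insert f C) ((R.erase f).erase e) / D.T C R +
          D.T (insert e (insert f C)) ((R.erase f).erase e) / D.T C R := by
        have hg : D.Gen (insert e C) (R.erase e) f := by
          refine ⟨fun h => ?_, fun h => ?_⟩
          · rcases (kLp hLe).1 h with h | h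
            · exact hLf h
            · exact hPar h
          · exact hCf (((hLOC α D C R e f he hf hef).2.1).1 h)
        have h' := (((hBAS α D (insert e C) (R.erase e)).2.2.2.2.2 f
          (mem_erase.2 ⟨hfe, hf⟩)).2.2.1 hg).1
        rw [hpe, h', hsw.1, hsw.2.2, add_div, add_comm]
      refine ⟨hE1, ?_, ?_, fun hgf => ⟨hgenf hgf, ?_⟩⟩
      · rw [E2_eval]
        simp only [s1, s2, if_true, Bool.false_eq_true, if_false]
        rw [t1, t2, t4, hpe']
        field_simp
        ring
      · rw [E2_eval]
        simp only [s1, s2, if_true, Bool.false_eq_true, if_false]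
        rw [t1, t2, t4, if_neg hPar, if_pos hSer, h1pe, hpe']
        field_simp
        ring
      · rw [E2_eval]
        simp only [s1, s2, if_true, Bool.false_eq_true, if_false]
        rw [t4, hTm]
        ring
    · have hSer' : ¬ D.Ser C R f e := fun h => hSer (lS h)
      have tt := (hTW α D C R f e hf he hfe).1 hPar' hSer'
      -- the score after `f` deleted
      have key : ∀ (o' : Bool) (φ : ℝ → ℝ), D.t C R f false e o' * φ (D.sc C R f false e o') =
          D.t C R f false e o' * φ (if o' then 1 else 0) := by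
        intro o' φ
        by_cases hCf : D.Cl C R f
        · by_cases hLf : D.Lp C f
          · exact absurd hCf ((hLOC α D C R f e hf he hfe).1 hLf)
          · have h0 : D.t C R f false e o' = 0 := by
              unfold Dat.t
              rw [om_coloop D hLf hCf]
              simp
            rw [h0]; simp
        · have hncol : ¬ D.Cl (nx C f false) (R.erase f) e := by
            intro h
            rcases (lCd hCf).1 h with h | h
            · exact hCe h
            · exact hSer' h
          rw [sc_gen D hnloopf hncol]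
      have hsum : D.t C R f true e true + D.t C R f false e true = D.pe C R e := by
        rw [tt true true, tt false true, hMet, hom_e, one_mul, hpe]
        rfl
      refine ⟨hE1, ?_, ?_, fun hgf => ⟨hgenf hgf, ?_⟩⟩
      · rw [E2_eval]
        have k1 := key true (fun z => z)
        have k2 := key false (fun z => z)
        simp only [] at k1 k2
        rw [k1, k2]
        simp only [s1, if_true, Bool.false_eq_true, if_false, mul_one, mul_zero, add_zero]
        exact hsum
      · rw [E2_eval]
        have k1 := key true (fun z => z ^ 2)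
        have k2 := key false (fun z => z ^ 2)
        simp only [] at k1 k2
        rw [k1, k2, if_neg hPar, if_neg hSer]
        simp only [s1, if_true, Bool.false_eq_true, if_false, mul_one, mul_zero, add_zero,
          one_pow, ne_eq, OfNat.ofNat_ne_zero, not_false_eq_true, zero_pow]
        exact hsum
      · rw [E2_eval]
        simp only [s1, if_true, Bool.false_eq_true, if_false, mul_one, mul_zero, add_zero,
          zero_mul]
        rw [hTm]
        unfold Dat.t
        rw [om_gen D hgf.1 hgf.2]
        have : D.om (nx C f true) (R.erase f) e true = 1 := om_gen D hnloopt hClt true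
        rw [this, one_mul, one_mul]
        rfl

end Pool.Agent.QPR
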