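import Pool.Agent.QPR.Stmts2

/-!
# QPR, module SEC: second moment of the test function of the second entry
-/

set_option autoImplicit false

namespace Pool.Agent.QPR

open Finset
open scoped Classical

namespace M_SEC

variable {α : Type} [DecidableEq α] (D : Dat α)

lemma om_sum (hBAS : St_BAS) (C R : Finset α) {f : α} (hf : f ∈ R) :
    ∑ o : Bool, D.om C R f o * D.T (nx C f o) (R.erase f) / D.T C R = 1 := by
  obtain ⟨-, -, hT, -, -, h⟩ := hBAS α D C R
  obtain ⟨h1, h2, h3, -, -⟩ := h f hf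
  rw [Fintype.sum_bool]
  by_cases hl : D.Lp C f
  · have e1 := (h1 hl).1
    have hT' : D.T C R ≠ 0 := hT.ne'
    have a1 : D.om C R f true = 0 := by simp [Dat.om, hl]
    have a2 : D.om C R f false = D.y := by simp [Dat.om, hl]
    have a3 : nx C f false = C := by simp [nx]
    rw [a1, a2, a3, ← e1, zero_mul, zero_div, zero_add, div_self hT']
  · by_cases hc : D.Cl C R f
    · have e1 := h2 hc
      have hT' : D.T C R ≠ 0 := hT.ne'
      have a1 : D.om C R f true = D.x := by simp [Dat.om, hl, hc]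
      have a2 : D.om C R f false = 0 := by simp [Dat.om, hl, hc]
      have a3 : nx C f true = insert f C := by simp [nx]
      rw [a1, a2, a3, ← e1, zero_mul, zero_div, add_zero, div_self hT']
    · have e1 := (h3 ⟨hl, hc⟩).1
      have hT' : D.T C R ≠ 0 := hT.ne'
      have a1 : D.om C R f true = 1 := by simp [Dat.om, hl, hc]
      have a2 : D.om C R f false = 1 := by simp [Dat.om, hl, hc]
      have a3 : nx C f true = insert f C := by simp [nx]
      have a4 : nx C f false = C := by simp [nx]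
      rw [a1, a2, a3, a4, one_mul, one_mul, ← add_div, ← e1, div_self hT']

lemma E2_const (hBAS : St_BAS) (hVV : St_VV) (C R : Finset α) {e f : α} (he : e ∈ R) (hf : f ∈ R)
    (hne : e ≠ f) (c : ℝ) : D.E2 C R f e (fun _ _ => c) = c := by
  have hcard : 2 ≤ R.card := by
    have : ({e, f} : Finset α) ⊆ R := by
      intro z hz
      rcases Finset.mem_insert.1 hz with rfl | hz
      · exact he
      · rw [Finset.mem_singleton.1 hz]; exact hf
    have h2 := Finset.card_le_card this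
    rwa [Finset.card_pair hne] at h2
  obtain ⟨m1, -⟩ := hVV α D C R (fun _ => 0) (fun _ => 0) (fun _ => 0) hcard
  unfold Dat.E2
  have e1 : ∀ o : Bool, ∑ o' : Bool, D.t C R f o e o' * c =
      D.om C R f o * D.T (nx C f o) (R.erase f) / D.T C R * c := by
    intro o
    rw [← Finset.sum_mul, m1 f hf e (Finset.mem_erase.2 ⟨hne, he⟩) o]
  rw [Finset.sum_congr rfl fun o _ => e1 o, ← Finset.sum_mul, om_sum D hBAS C R hf, one_mul]

lemma E2_quad (C R : Finset α) (f e : α) (b d : ℝ) (X : Bool → Bool → ℝ) :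
    D.E2 C R f e (fun o o' => (b + d * X o o') ^ 2) =
      b ^ 2 * D.E2 C R f e (fun _ _ => 1) + 2 * b * d * D.E2 C R f e (fun o o' => X o o') +
        d ^ 2 * D.E2 C R f e (fun o o' => X o o' ^ 2) := by
  unfold Dat.E2
  simp only [Finset.mul_sum, ← Finset.sum_add_distrib]
  apply Finset.sum_congr rfl
  intro o _
  apply Finset.sum_congr rfl
  intro o' _
  ring

/-- the arithmetic of the bound for one class -/
lemma arith {p a b mu q c : ℝ} {k A : ℕ} (hp0 : 0 < p) (hp1 : p < 1) (hmu0 : 0 < mu)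
    (hmu1 : mu < 1) (hq : mu ≤ q) (hq1 : q < 1) (hk : k < A) (hc : 0 ≤ c)
    (h : 0 < k → c * (a - b) ^ 2 ≤ 2 / mu * (p * a ^ 2 + (1 - p) * b ^ 2)) :
    (k : ℝ) * (c * ((1 - q) / q ^ 2)) * (a - b) ^ 2 ≤
      2 * A / mu ^ 3 * (p * a ^ 2 + (1 - p) * b ^ 2) := by
  have hv : 0 ≤ p * a ^ 2 + (1 - p) * b ^ 2 := by
    have := mul_nonneg hp0.le (sq_nonneg a)
    have := mul_nonneg (sub_nonneg.2 hp1.le) (sq_nonneg b)
    linarith
  have hA : (0 : ℝ) ≤ A := Nat.cast_nonneg A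
  rcases Nat.eq_zero_or_pos k with rfl | hk0
  · simp only [Nat.cast_zero, zero_mul]
    positivity
  · have h1 := h hk0
    have hq0 : 0 < q := lt_of_lt_of_le hmu0 hq
    have h2 : (1 - q) / q ^ 2 ≤ 1 / mu ^ 2 := by
      rw [div_le_div_iff₀ (by positivity) (by positivity)]
      have : mu ^ 2 ≤ q ^ 2 := pow_le_pow_left₀ hmu0.le hq 2
      nlinarith [sq_nonneg mu]
    have h3 : 0 ≤ (1 - q) / q ^ 2 := div_nonneg (by linarith) (by positivity)
    have h4 : (k : ℝ) ≤ A := by exact_mod_cast hk.le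
    have h5 : 0 ≤ c * (a - b) ^ 2 := mul_nonneg hc (sq_nonneg _)
    calc (k : ℝ) * (c * ((1 - q) / q ^ 2)) * (a - b) ^ 2
        = (k : ℝ) * (((1 - q) / q ^ 2) * (c * (a - b) ^ 2)) := by ring
      _ ≤ A * ((1 / mu ^ 2) * (2 / mu * (p * a ^ 2 + (1 - p) * b ^ 2))) := by
          apply mul_le_mul h4 _ (mul_nonneg h3 h5) hA
          apply mul_le_mul h2 h1 h5 (by positivity)
      _ = 2 * A / mu ^ 3 * (p * a ^ 2 + (1 - p) * b ^ 2) := by
          field_simp

lemma exc1 {p a b mu : ℝ} (hp0 : 0 < p) (hp1 : p < 1) (hmu0 : 0 < mu) (hmu1 : mu < 1)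
    (h : p ≤ 1 / mu * (1 - p)) :
    p * (a - b) ^ 2 ≤ 2 / mu * (p * a ^ 2 + (1 - p) * b ^ 2) := by
  have h1 : (a - b) ^ 2 ≤ 2 * a ^ 2 + 2 * b ^ 2 := by nlinarith [sq_nonneg (a + b)]
  have h2 : p * b ^ 2 ≤ 1 / mu * (1 - p) * b ^ 2 := mul_le_mul_of_nonneg_right h (sq_nonneg b)
  have h3 : (1 : ℝ) ≤ 1 / mu := by rw [le_div_iff₀ hmu0]; linarith
  have h4 : p * a ^ 2 ≤ 1 / mu * (p * a ^ 2) :=
    le_mul_of_one_le_left (mul_nonneg hp0.le (sq_nonneg a)) h3
  have h5 := mul_le_mul_of_nonneg_left h1 hp0.le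
  have e : 2 / mu * (p * a ^ 2 + (1 - p) * b ^ 2) =
      2 * (1 / mu * (p * a ^ 2)) + 2 * (1 / mu * (1 - p) * b ^ 2) := by ring
  rw [e]
  linarith

lemma exc2 {p a b mu : ℝ} (hp0 : 0 < p) (hp1 : p < 1) (hmu0 : 0 < mu) (hmu1 : mu < 1)
    (h : 1 - p ≤ 1 / mu * p) :
    (1 - p) * (a - b) ^ 2 ≤ 2 / mu * (p * a ^ 2 + (1 - p) * b ^ 2) := by
  have h' : (1 - p) ≤ 1 / mu * (1 - (1 - p)) := by
    have e : 1 - (1 - p) = p := by ring
    rw [e]; exact h
  have := exc1 (p := 1 - p) (a := b) (b := a) (by linarith) (by linarith) hmu0 hmu1 h'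
  have e1 : (b - a) ^ 2 = (a - b) ^ 2 := by ring
  have e2 : (1 - p) * b ^ 2 + (1 - (1 - p)) * a ^ 2 = p * a ^ 2 + (1 - p) * b ^ 2 := by ring
  rwa [e1, e2] at this

end M_SEC

open M_SEC in
theorem t_SEC (hLOC : St_LOC) (hBAS : St_BAS) (hBND : St_BND) (hVV : St_VV) (hSC : St_SC) :
    St_SEC := by
  intro α _ D C R A al be hthin e he
  obtain ⟨hmu0, hmu1, -, -, -, hB⟩ := hBAS α D C R
  have hmx : D.mu ≤ D.x := min_le_left _ _
  have hmy : D.mu ≤ D.y := min_le_right _ _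
  have hcard : (1 : ℝ) ≤ R.card := by
    have : 1 ≤ R.card := Finset.card_pos.2 ⟨e, he⟩
    exact_mod_cast this
  have hcnt : ((R.erase e).card : ℝ) = (R.card : ℝ) - 1 := by
    rw [Finset.card_erase_of_mem he]
    have : 1 ≤ R.card := Finset.card_pos.2 ⟨e, he⟩
    push_cast [Nat.cast_sub this]
    ring
  by_cases hT : D.Thin A C R e
  · obtain ⟨hG, hnp, hns⟩ := hT
    obtain ⟨-, hp0, hp1, -⟩ := (hB e he).2.2.1 hG
    have hve : D.ve C R al be e =
        D.pe C R e * al e ^ 2 + (1 - D.pe C R e) * be e ^ 2 := by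
      unfold Dat.ve Dat.me
      ring
    have hv0 : 0 ≤ D.ve C R al be e := by
      rw [hve]
      have := mul_nonneg hp0.le (sq_nonneg (al e))
      have := mul_nonneg (sub_nonneg.2 hp1.le) (sq_nonneg (be e))
      linarith
    refine ⟨hv0, ?_⟩
    have key : ∀ f ∈ R.erase e, D.E2 C R f e (fun o o' => D.g2 C R al be f o e o' ^ 2) =
        D.ve C R al be e + (al e - be e) ^ 2 *
          ((if D.Par C e f then D.pe C R e * ((1 - D.y) / D.y ^ 2) else 0) +
          (if D.Ser C R e f then (1 - D.pe C R e) * ((1 - D.x) / D.x ^ 2) else 0)) := by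
      intro f hf
      obtain ⟨hfe, hfR⟩ := Finset.mem_erase.1 hf
      obtain ⟨s1, s2, s3, -⟩ := hSC α D C R e f he hfR (Ne.symm hfe) hG
      have e1 : D.E2 C R f e (fun o o' => D.g2 C R al be f o e o' ^ 2) =
          D.E2 C R f e (fun o o' => (be e + (al e - be e) * D.sc C R f o e o') ^ 2) := rfl
      rw [e1, E2_quad, s1, s2, s3]
      unfold Dat.ve Dat.me
      ring
    rw [Finset.sum_congr rfl key, Finset.sum_add_distrib, Finset.sum_const, nsmul_eq_mul, hcnt,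
      ← Finset.mul_sum, Finset.sum_add_distrib, ← Finset.sum_filter, ← Finset.sum_filter,
      Finset.sum_const, Finset.sum_const, nsmul_eq_mul, nsmul_eq_mul]
    have b1 : (D.np C R e : ℝ) * (D.pe C R e * ((1 - D.y) / D.y ^ 2)) * (al e - be e) ^ 2 ≤
        2 * A / D.mu ^ 3 * (D.pe C R e * al e ^ 2 + (1 - D.pe C R e) * be e ^ 2) := by
      apply arith hp0 hp1 hmu0 hmu1 hmy D.y1 hnp hp0.le
      intro hk
      obtain ⟨f, hf⟩ := Finset.card_pos.1 hk
      obtain ⟨hf1, hf2⟩ := Finset.mem_filter.1 hf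
      obtain ⟨hfe, hfR⟩ := Finset.mem_erase.1 hf1
      exact exc1 hp0 hp1 hmu0 hmu1
        (((hBND α D C R e he hG).2.2 f hfR (Ne.symm hfe)).1 hf2)
    have b2 : (D.ns C R e : ℝ) * ((1 - D.pe C R e) * ((1 - D.x) / D.x ^ 2)) *
        (al e - be e) ^ 2 ≤
        2 * A / D.mu ^ 3 * (D.pe C R e * al e ^ 2 + (1 - D.pe C R e) * be e ^ 2) := by
      apply arith hp0 hp1 hmu0 hmu1 hmx D.x1 hns (sub_nonneg.2 hp1.le)
      intro hk
      obtain ⟨f, hf⟩ := Finset.card_pos.1 hk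
      obtain ⟨hf1, hf2⟩ := Finset.mem_filter.1 hf
      obtain ⟨hfe, hfR⟩ := Finset.mem_erase.1 hf1
      exact exc2 hp0 hp1 hmu0 hmu1
        (((hBND α D C R e he hG).2.2 f hfR (Ne.symm hfe)).2 hf2)
    rw [← hve] at b1 b2
    have hA : (0 : ℝ) ≤ A := Nat.cast_nonneg A
    have b3 : 0 ≤ A / D.mu ^ 3 * D.ve C R al be e := by positivity
    have e2 : ((R.card : ℝ) - 1 + 8 * A / D.mu ^ 3) * D.ve C R al be e =
        ((R.card : ℝ) - 1) * D.ve C R al be e + 2 * A / D.mu ^ 3 * D.ve C R al be e +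
          2 * A / D.mu ^ 3 * D.ve C R al be e + 4 * (A / D.mu ^ 3 * D.ve C R al be e) := by
      ring
    rw [e2]
    have e3 : (al e - be e) ^ 2 * ((((R.erase e).filter (D.Par C e)).card : ℝ) *
        (D.pe C R e * ((1 - D.y) / D.y ^ 2)) +
        (((R.erase e).filter (D.Ser C R e)).card : ℝ) *
        ((1 - D.pe C R e) * ((1 - D.x) / D.x ^ 2))) =
        (D.np C R e : ℝ) * (D.pe C R e * ((1 - D.y) / D.y ^ 2)) * (al e - be e) ^ 2 +
        (D.ns C R e : ℝ) * ((1 - D.pe C R e) * ((1 - D.x) / D.x ^ 2)) * (al e - be e) ^ 2 := by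
      unfold Dat.np Dat.ns
      ring
    have e4 := e3
    linarith [e4, b1, b2, b3]
  · have hab := hthin e he hT
    have hve : D.ve C R al be e = be e ^ 2 := by
      unfold Dat.ve Dat.me
      rw [hab]
      ring
    rw [hve]
    refine ⟨sq_nonneg _, ?_⟩
    have key : ∀ f ∈ R.erase e, D.E2 C R f e (fun o o' => D.g2 C R al be f o e o' ^ 2) =
        be e ^ 2 := by
      intro f hf
      obtain ⟨hfe, hfR⟩ := Finset.mem_erase.1 hf
      have e1 : (fun o o' => D.g2 C R al be f o e o' ^ 2) = fun (_ _ : Bool) => be e ^ 2 := by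
        funext o o'
        unfold Dat.g2
        rw [hab]
        ring
      rw [e1, E2_const D hBAS hVV C R he hfR (Ne.symm hfe)]
    rw [Finset.sum_congr rfl key, Finset.sum_const, nsmul_eq_mul, hcnt]
    have hA : (0 : ℝ) ≤ A := Nat.cast_nonneg A
    have b3 : 0 ≤ 8 * A / D.mu ^ 3 * be e ^ 2 := by positivity
    linarith [b3, add_mul ((R.card : ℝ) - 1) (8 * A / D.mu ^ 3) (be e ^ 2)]

end Pool.Agent.QPR
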