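import Pool.Agent.QPR.Stmts2

/-!
# Part (2) of the project QPR, module TS
-/

set_option autoImplicit false

namespace Pool.Agent.QPR

open Finset
open scoped Classical

namespace M_TS

/-- the numbers: coefficient of the energy -/
theorem num1 (m n mu : ℝ) (hm : 2 ≤ m) (hmn : m ≤ n) (h0 : 0 < mu) (h1 : mu < 1) :
    2 * (m + 1) * (1 / mu ^ 2 + 4 * (4 * (m ^ 2 / mu))) ≤ 68 * n ^ 3 / mu ^ 2 := by
  have h2 : m ^ 2 / mu ≤ m ^ 2 / mu ^ 2 := by
    apply div_le_div_of_nonneg_left (by positivity) (by positivity)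
    nlinarith
  have h3 : 2 * (m + 1) * (1 / mu ^ 2 + 4 * (4 * (m ^ 2 / mu))) ≤
      2 * (m + 1) * (1 / mu ^ 2 + 4 * (4 * (m ^ 2 / mu ^ 2))) := by
    apply mul_le_mul_of_nonneg_left _ (by linarith)
    linarith
  have h4 : 2 * (m + 1) * (1 / mu ^ 2 + 4 * (4 * (m ^ 2 / mu ^ 2))) =
      (2 * (m + 1) * (1 + 16 * m ^ 2)) / mu ^ 2 := by
    field_simp
    ring
  rw [h4] at h3
  refine h3.trans ?_
  apply div_le_div_of_nonneg_right _ (by positivity)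
  have h5 : m ^ 3 ≤ n ^ 3 := pow_le_pow_left₀ (by linarith) hmn 3
  have h6 : 2 * (m + 1) * (1 + 16 * m ^ 2) ≤ 68 * m ^ 3 := by
    nlinarith [mul_nonneg (by linarith : (0 : ℝ) ≤ m - 2) (by positivity : (0 : ℝ) ≤ m ^ 2),
      mul_nonneg (by linarith : (0 : ℝ) ≤ m - 2) (by linarith : (0 : ℝ) ≤ m)]
  linarith

/-- the numbers: coefficient of the variance -/
theorem num2 (m n ep : ℝ) (hm : 2 ≤ m) (hmn : m ≤ n) (h0 : 0 ≤ ep) :
    2 * (m + 1) * (4 * (8 * m * ep)) ≤ 128 * n ^ 2 * ep := by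
  have h1 : 2 * (m + 1) * (4 * (8 * m)) ≤ 128 * n ^ 2 := by
    have h2 : m ^ 2 ≤ n ^ 2 := pow_le_pow_left₀ (by linarith) hmn 2
    nlinarith
  calc 2 * (m + 1) * (4 * (8 * m * ep)) = (2 * (m + 1) * (4 * (8 * m))) * ep := by ring
    _ ≤ _ := mul_le_mul_of_nonneg_right h1 h0

end M_TS

open M_TS in
theorem t_TS (hBAS : St_BAS) (_hFST : St_FST) (hEXP : St_EXP) (hJEN : St_JEN)
    (hCOMB : St_COMB) (hRB : St_RB) : St_TS := by
  intro α _ D K hK hM A n ep hA hep hep2 C R F hR2 hRn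
  obtain ⟨mu0, mu1, -⟩ := hBAS α D C R
  have hRne : R.Nonempty := by
    rw [← Finset.card_pos]; omega
  set c : ℝ := -D.Ex C R F with hc
  set F' : List (α × Bool) → ℝ := fun h => F h + c with hF'
  obtain ⟨e1, -, -, -, -, -, e7, e8, e9, e10, e11, -, -⟩ := hEXP α D C R F F c
  obtain ⟨-, -, -, -, -, -, -, -, -, -, -, v0, en0⟩ := hEXP α D C R F F c
  have hE0 : D.Ex C R F' = 0 := by rw [hF', e1, hc]; ring
  have hep0 : 0 ≤ ep := by
    refine le_trans ?_ hep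
    have h1 : 0 ≤ max D.x D.y := le_max_of_le_left D.x0.le
    positivity
  obtain ⟨th, rb⟩ := hRB α D C R A F' ep hRne hE0 hA hep hep2
  have hcomb := hCOMB α D K hK hM C R A (D.al0 A C R F') (D.be0 A C R F') F' hR2 hE0 th
  obtain ⟨-, hj⟩ := hJEN α D C R F hR2
  rw [e7, e10] at rb
  rw [e8, e9, e11] at hcomb
  have hm2 : (2 : ℝ) ≤ (R.card : ℝ) := by exact_mod_cast hR2
  have hmn : (R.card : ℝ) ≤ (n : ℝ) := by exact_mod_cast hRn
  refine hcomb.trans ?_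
  have k1 : 1 / D.mu ^ 2 * D.E1 C R F + 4 * D.Rr C R F' (D.al0 A C R F') (D.be0 A C R F') ≤
      (1 / D.mu ^ 2 + 4 * (4 * ((R.card : ℝ) ^ 2 / D.mu))) * D.En C R F +
        4 * (8 * R.card * ep) * D.Vr C R F := by
    have h1 : 1 / D.mu ^ 2 * D.E1 C R F ≤ 1 / D.mu ^ 2 * D.En C R F :=
      mul_le_mul_of_nonneg_left hj (by positivity)
    nlinarith
  have k2 := mul_le_mul_of_nonneg_left k1 (by linarith : (0 : ℝ) ≤ 2 * ((R.card : ℝ) + 1))
  have k3 := mul_le_mul_of_nonneg_right (num1 (R.card : ℝ) n D.mu hm2 hmn mu0 mu1) en0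
  have k4 := mul_le_mul_of_nonneg_right (num2 (R.card : ℝ) n ep hm2 hmn hep0) v0
  have k5 : 2 * ((R.card : ℝ) + 1) * ((1 / D.mu ^ 2 + 4 * (4 * ((R.card : ℝ) ^ 2 / D.mu))) *
      D.En C R F + 4 * (8 * R.card * ep) * D.Vr C R F) =
      2 * ((R.card : ℝ) + 1) * (1 / D.mu ^ 2 + 4 * (4 * ((R.card : ℝ) ^ 2 / D.mu))) *
        D.En C R F + 2 * ((R.card : ℝ) + 1) * (4 * (8 * R.card * ep)) * D.Vr C R F := by ring
  linarith

end Pool.Agent.QPR
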