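import Pool.Agent.QPR.Stmts2

/-!
# Module QPR2_TW: the two-step weights
-/

set_option autoImplicit false

namespace Pool.Agent.QPR

open Finset
open scoped Classical

namespace M_TW

variable {α : Type} [DecidableEq α] (D : Dat α)

theorem erase_comm' (R : Finset α) (e f : α) : (R.erase e).erase f = (R.erase f).erase e := by
  ext a
  simp only [mem_erase]
  tauto

theorem om_loop {C R : Finset α} {e : α} (h : D.Lp C e) (o : Bool) :
    D.om C R e o = if o then 0 else D.y := by
  unfold Dat.om
  rw [if_pos h]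

theorem om_coloop {C R : Finset α} {e : α} (h : ¬ D.Lp C e) (h2 : D.Cl C R e) (o : Bool) :
    D.om C R e o = if o then D.x else 0 := by
  unfold Dat.om
  rw [if_neg h, if_pos h2]

theorem om_gen {C R : Finset α} {e : α} (h : ¬ D.Lp C e) (h2 : ¬ D.Cl C R e) (o : Bool) :
    D.om C R e o = 1 := by
  unfold Dat.om
  rw [if_neg h, if_neg h2]

/-- the weight of an entry depends only on the status of the element -/
theorem om_congr {C C' R R' : Finset α} {e : α} (h : D.Lp C e ↔ D.Lp C' e)
    (h2 : ¬ D.Lp C e → (D.Cl C R e ↔ D.Cl C' R' e)) (o : Bool) :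
    D.om C R e o = D.om C' R' e o := by
  by_cases hL : D.Lp C e
  · rw [om_loop D hL, om_loop D (h.1 hL)]
  · have hL' : ¬ D.Lp C' e := fun h' => hL (h.2 h')
    by_cases hC : D.Cl C R e
    · rw [om_coloop D hL hC, om_coloop D hL' ((h2 hL).1 hC)]
    · rw [om_gen D hL hC, om_gen D hL' (fun h' => hC ((h2 hL).2 h'))]

theorem main (hLOC : St_LOC) (C R : Finset α) (e f : α) (he : e ∈ R) (hf : f ∈ R) (hef : e ≠ f)
    (hP : ¬ D.Par C e f) (hS : ¬ D.Ser C R e f) (o o' : Bool) :
    D.om C R e o * D.om (nx C e o) (R.erase e) f o' = D.om C R e o * D.om C R f o' := by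
  obtain ⟨h1, h2, h3, h4, h5, -⟩ := hLOC α D C R e f he hf hef
  cases o with
  | true =>
    congr 1
    refine om_congr D ?_ (fun _ => ?_) o'
    · by_cases hL : D.Lp C e
      · exact h4 hL
      · have := h3 hL
        simp only [nx, if_true]
        tauto
    · simpa only [nx, if_true] using h2
  | false =>
    by_cases hC : D.Cl C R e
    · have hL : ¬ D.Lp C e := fun h => h1 h hC
      rw [om_coloop D hL hC]
      simp
    · congr 1
      refine om_congr D ?_ (fun _ => ?_) o'
      · simp [nx]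
      · have := h5 hC
        simp only [nx]
        simp only [Bool.false_eq_true, if_false]
        tauto

end M_TW

open M_TW in
theorem t_TW (hLOC : St_LOC) (hWEQ : St_WEQ) (hBAS : St_BAS) : St_TW := by
  intro α _ D C R e f he hf hef
  have hloc := hLOC α D C R e f he hf hef
  have hnt : nx C e true = insert e C := rfl
  have hnf : nx C e false = C := rfl
  have hntt : nx (insert e C) f true = insert f (insert e C) := rfl
  have hntf : nx (insert e C) f false = insert e C := rfl
  have hnft : nx C f true = insert f C := rfl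
  have hnff : nx C f false = C := rfl
  refine ⟨?_, ?_, ?_, ?_, ?_⟩
  · intro hP hS o o'
    have hP' : ¬ D.Par C f e := fun h => hP ((hLOC α D C R f e hf he (Ne.symm hef)).2.2.2.2.2.1 h)
    have hS' : ¬ D.Ser C R f e :=
      fun h => hS ((hLOC α D C R f e hf he (Ne.symm hef)).2.2.2.2.2.2.1 h)
    unfold Dat.t
    rw [main D hLOC C R e f he hf hef hP hS o o',
      main D hLOC C R f e hf he (Ne.symm hef) hP' hS' o' o, mul_comm (D.om C R e o),
      erase_comm' R e f]
    congr 3
    cases o <;> cases o' <;> simp [nx, insert_comm]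
  · intro hP hS
    obtain ⟨h1, h2, h3, h4, h5, h6, h7, h8, h9⟩ := hloc
    obtain ⟨hCe, hCf⟩ := h8 hP
    have hLe : ¬ D.Lp C e := hP.1
    have hLf : ¬ D.Lp C f := hP.2.1
    have hLf' : D.Lp (insert e C) f := (h3 hLe).2 (Or.inr hP)
    have hCf' : ¬ D.Cl C (R.erase e) f := by
      rw [h5 hCe]
      tauto
    have hw := ((hWEQ α D).2.1 C ((R.erase e).erase f) e f hP).1
    unfold Dat.t
    simp only [hnt, hnf, hntt, hntf, hnft, hnff, om_gen D hLe hCe, om_loop D hLf',
      om_gen D hLf hCf', if_true, Bool.false_eq_true, if_false]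
    refine ⟨by ring, by ring, ?_, by ring⟩
    rw [← hw]
    ring
  · intro hP hS
    obtain ⟨h1, h2, h3, h4, h5, h6, h7, h8, h9⟩ := hloc
    obtain ⟨hLe, hLf⟩ := h9 hS
    have hCe : ¬ D.Cl C R e := hS.1
    have hCf : ¬ D.Cl C R f := hS.2.1
    have hLf' : ¬ D.Lp (insert e C) f := by
      rw [h3 hLe]
      tauto
    have hCf' : D.Cl C (R.erase e) f := (h5 hCe).2 (Or.inr hS)
    have hCf'' : ¬ D.Cl (insert e C) (R.erase e) f := by
      rw [h2]
      exact hCf
    have hw := ((hWEQ α D).2.2 C R e f he hf hef hS).1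
    unfold Dat.t
    simp only [hnt, hnf, hntt, hntf, hnft, hnff, om_gen D hLe hCe, om_gen D hLf' hCf'',
      om_coloop D hLf hCf', if_true, Bool.false_eq_true, if_false]
    refine ⟨by ring, ?_, by ring, by ring⟩
    rw [← hw]
    ring
  · intro hP hS
    obtain ⟨h1, h2, h3, h4, h5, h6, h7, h8, h9⟩ := hloc
    obtain ⟨hLe, hLf⟩ := h9 hS
    obtain ⟨hCe, hCf⟩ := h8 hP
    have hLf' : D.Lp (insert e C) f := (h3 hLe).2 (Or.inr hP)
    have hCf' : D.Cl C (R.erase e) f := (h5 hCe).2 (Or.inr hS)
    have hw := ((hWEQ α D).2.1 C ((R.erase e).erase f) e f hP).1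
    unfold Dat.t
    simp only [hnt, hnf, hntt, hntf, hnft, hnff, om_gen D hLe hCe, om_loop D hLf',
      om_coloop D hLf hCf', if_true, Bool.false_eq_true, if_false]
    refine ⟨by ring, by ring, by ring, ?_⟩
    rw [← hw]
    ring
  · intro h
    rw [erase_comm' R f e]
    refine ⟨?_, rfl, by rw [insert_comm]⟩
    rcases h with hP | hS
    · exact ((hWEQ α D).2.1 C ((R.erase e).erase f) e f hP).1
    · exact ((hWEQ α D).2.2 C R e f he hf hef hS).1

end Pool.Agent.QPR
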