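import Pool.Agent.QPR.Stmts2

set_option autoImplicit false

namespace Pool.Agent.QPR

open Finset
open scoped Classical

namespace M_VARS

variable {α : Type} [DecidableEq α] (D : Dat α)

theorem E2_add (C R : Finset α) (f e : α) (X Y : Bool → Bool → ℝ) :
    D.E2 C R f e (fun o o' => X o o' + Y o o') = D.E2 C R f e X + D.E2 C R f e Y := by
  unfold Dat.E2
  simp only [mul_add, Finset.sum_add_distrib]

theorem E2_mul (C R : Finset α) (f e : α) (c : ℝ) (X : Bool → Bool → ℝ) :
    D.E2 C R f e (fun o o' => c * X o o') = c * D.E2 C R f e X := by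
  unfold Dat.E2
  rw [Finset.mul_sum]
  refine Finset.sum_congr rfl fun o _ => ?_
  rw [Finset.mul_sum]
  refine Finset.sum_congr rfl fun o' _ => ?_
  ring

theorem sum_erase_const (R : Finset α) (v : α → ℝ) :
    ∑ f ∈ R, ∑ _e ∈ R.erase f, v f = ((R.card : ℝ) - 1) * ∑ f ∈ R, v f := by
  rw [Finset.mul_sum]
  refine Finset.sum_congr rfl fun f hf => ?_
  rw [Finset.sum_const, Finset.card_erase_of_mem hf, nsmul_eq_mul,
    Nat.cast_sub (Finset.card_pos.mpr ⟨f, hf⟩)]
  simp

theorem sum_erase_swap (R : Finset α) (v : α → α → ℝ) :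
    ∑ f ∈ R, ∑ e ∈ R.erase f, v f e = ∑ e ∈ R, ∑ f ∈ R.erase e, v f e := by
  refine Finset.sum_comm' ?_
  intro f e
  simp only [Finset.mem_erase]
  constructor
  · rintro ⟨h1, h2, h3⟩
    exact ⟨⟨fun h => h2 h.symm, h1⟩, h3⟩
  · rintro ⟨⟨h1, h2⟩, h3⟩
    exact ⟨h2, fun h => h1 h.symm, h3⟩

theorem sum_erase_full (R : Finset α) (v : α → α → ℝ) :
    ∑ f ∈ R, ∑ e ∈ R.erase f, v f e = ∑ f ∈ R, ∑ e ∈ R, v f e - ∑ f ∈ R, v f f := by
  rw [← Finset.sum_sub_distrib]
  refine Finset.sum_congr rfl fun f hf => ?_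
  rw [← Finset.add_sum_erase R (fun e => v f e) hf]
  ring

end M_VARS

open M_VARS in
theorem t_VARS (hBAS : St_BAS) (_hVV : St_VV) (hSEC : St_SEC) (hCOV : St_COV) : St_VARS := by
  intro α _ D K hK hMIX C R A al be hR hthin
  have hgen : ∀ e ∈ R, ¬ D.Gen C R e → al e = be e := by
    intro e he hg
    exact hthin e he fun h => hg h.1
  have hm2 : (2 : ℝ) ≤ R.card := by exact_mod_cast hR
  set m : ℝ := (R.card : ℝ) with hm
  set k2 : ℝ := 8 * A / D.mu ^ 3 with hk2
  have hve : ∀ e ∈ R, 0 ≤ D.ve C R al be e := fun e he => (hSEC α D C R A al be hthin e he).1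
  have hnn : 0 ≤ D.nn C R al be := by
    unfold Dat.nn
    exact div_nonneg (Finset.sum_nonneg hve) (by rw [← hm]; linarith)
  refine ⟨hnn, ?_⟩
  have hmnn : ∑ e ∈ R, D.ve C R al be e = m * D.nn C R al be := by
    unfold Dat.nn
    rw [← hm]
    field_simp
  -- the diagonal terms
  have hpp : ∀ e ∈ R, 0 ≤ (al e - be e) ^ 2 * (D.pe C R e * (1 - D.pe C R e)) := by
    intro e he
    by_cases hg : D.Gen C R e
    · have h := ((hBAS α D C R).2.2.2.2.2 e he).2.2.1 hg
      exact mul_nonneg (sq_nonneg _) (mul_nonneg h.2.1.le (by linarith [h.2.2.1]))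
    · rw [hgen e he hg]; simp
  -- sums
  have hS1 : ∑ f ∈ R, ∑ e ∈ R.erase f, D.E2 C R f e (fun o _ => g1 al be f o ^ 2) =
      (m - 1) * (m * D.nn C R al be) := by
    rw [← hmnn, ← sum_erase_const]
    refine Finset.sum_congr rfl fun f hf => Finset.sum_congr rfl fun e he => ?_
    exact (hCOV α D C R al be hgen e (Finset.mem_of_mem_erase he) f hf
      (Finset.ne_of_mem_erase he)).2.1
  have hS2 : ∑ f ∈ R, ∑ e ∈ R.erase f, D.E2 C R f e (fun o o' => D.g2 C R al be f o e o' ^ 2) ≤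
      (m - 1 + k2) * (m * D.nn C R al be) := by
    rw [sum_erase_swap, ← hmnn, Finset.mul_sum]
    exact Finset.sum_le_sum fun e he => (hSEC α D C R A al be hthin e he).2
  have hS3 : ∑ f ∈ R, ∑ e ∈ R.erase f,
      D.E2 C R f e (fun o o' => g1 al be f o * D.g2 C R al be f o e o') ≤
      (∑ e ∈ R, D.me C R al be e) ^ 2 + K * (m * D.nn C R al be) := by
    have h1 : ∑ f ∈ R, ∑ e ∈ R.erase f,
        D.E2 C R f e (fun o o' => g1 al be f o * D.g2 C R al be f o e o') =
        ∑ f ∈ R, ∑ e ∈ R.erase f, (D.me C R al be f * D.me C R al be e +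
          (al f - be f) * (al e - be e) * D.Cov C R f e) := by
      refine Finset.sum_congr rfl fun f hf => Finset.sum_congr rfl fun e he => ?_
      exact (hCOV α D C R al be hgen e (Finset.mem_of_mem_erase he) f hf
        (Finset.ne_of_mem_erase he)).2.2.2
    have h2 := hMIX C R (fun e => al e - be e) (fun e he hg => by
      show al e - be e = 0
      rw [hgen e he hg]; simp)
    have h3 : ∑ f ∈ R, ∑ e ∈ R, (D.me C R al be f * D.me C R al be e +
          (al f - be f) * (al e - be e) * D.Cov C R f e) =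
        (∑ e ∈ R, D.me C R al be e) ^ 2 +
          ∑ e ∈ R, ∑ f ∈ R, D.Cov C R e f * ((al e - be e) * (al f - be f)) := by
      simp only [Finset.sum_add_distrib]
      congr 1
      · rw [sq, Finset.sum_mul_sum]
      · exact Finset.sum_congr rfl fun f _ => Finset.sum_congr rfl fun e _ => by ring
    have h4 : ∑ f ∈ R, (D.me C R al be f * D.me C R al be f +
          (al f - be f) * (al f - be f) * D.Cov C R f f) ≥ 0 := by
      refine Finset.sum_nonneg fun f hf => ?_
      have h5 : D.Cov C R f f = D.pe C R f * (1 - D.pe C R f) := by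
        unfold Dat.Cov; simp
      have h6 := hpp f hf
      rw [h5]
      nlinarith [mul_self_nonneg (D.me C R al be f)]
    have h5 : ∑ e ∈ R, (al e - be e) ^ 2 * (D.pe C R e * (1 - D.pe C R e)) ≤
        ∑ e ∈ R, D.ve C R al be e := by
      refine Finset.sum_le_sum fun e _ => ?_
      unfold Dat.ve
      nlinarith [sq_nonneg (D.me C R al be e)]
    rw [h1, sum_erase_full, h3]
    have h6 := mul_le_mul_of_nonneg_left h5 hK
    rw [hmnn] at h6
    linarith
  have hS4 : ∑ f ∈ R, ∑ e ∈ R.erase f,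
      D.E2 C R f e (fun o o' => g1 al be f o + D.g2 C R al be f o e o') =
      2 * (m - 1) * ∑ e ∈ R, D.me C R al be e := by
    have h1 : ∑ f ∈ R, ∑ e ∈ R.erase f,
        D.E2 C R f e (fun o o' => g1 al be f o + D.g2 C R al be f o e o') =
        ∑ f ∈ R, ∑ e ∈ R.erase f, (D.me C R al be f + D.me C R al be e) := by
      refine Finset.sum_congr rfl fun f hf => Finset.sum_congr rfl fun e he => ?_
      have h := hCOV α D C R al be hgen e (Finset.mem_of_mem_erase he) f hf
        (Finset.ne_of_mem_erase he)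
      rw [E2_add, h.1, h.2.2.1]
    rw [h1]
    simp only [Finset.sum_add_distrib]
    rw [sum_erase_const, sum_erase_swap R (fun _ e => D.me C R al be e), sum_erase_const]
    ring
  have hS5 : ∑ f ∈ R, ∑ e ∈ R.erase f,
      D.E2 C R f e (fun o o' => (g1 al be f o + D.g2 C R al be f o e o') ^ 2) =
      ∑ f ∈ R, ∑ e ∈ R.erase f, D.E2 C R f e (fun o _ => g1 al be f o ^ 2) +
      ∑ f ∈ R, ∑ e ∈ R.erase f, D.E2 C R f e (fun o o' => D.g2 C R al be f o e o' ^ 2) +
      2 * ∑ f ∈ R, ∑ e ∈ R.erase f,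
        D.E2 C R f e (fun o o' => g1 al be f o * D.g2 C R al be f o e o') := by
    rw [Finset.mul_sum]
    simp only [Finset.mul_sum]
    rw [← Finset.sum_add_distrib, ← Finset.sum_add_distrib]
    refine Finset.sum_congr rfl fun f _ => ?_
    rw [← Finset.sum_add_distrib, ← Finset.sum_add_distrib]
    refine Finset.sum_congr rfl fun e _ => ?_
    rw [← E2_mul, ← E2_add, ← E2_add]
    congr 1
    funext o o'
    ring
  unfold Dat.E22
  rw [hS5, hS4, ← hm]
  set S := ∑ e ∈ R, D.me C R al be e with hS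
  set N := D.nn C R al be with hN
  have hm0 : 0 < m := by linarith
  have hm1 : 0 < m - 1 := by linarith
  have h1 : (∑ f ∈ R, ∑ e ∈ R.erase f, D.E2 C R f e (fun o _ => g1 al be f o ^ 2) +
      ∑ f ∈ R, ∑ e ∈ R.erase f, D.E2 C R f e (fun o o' => D.g2 C R al be f o e o' ^ 2) +
      2 * ∑ f ∈ R, ∑ e ∈ R.erase f,
        D.E2 C R f e (fun o o' => g1 al be f o * D.g2 C R al be f o e o')) / (m * (m - 1)) ≤
      ((m - 1) * (m * N) + (m - 1 + k2) * (m * N) + 2 * (S ^ 2 + K * (m * N))) / (m * (m - 1)) := by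
    apply div_le_div_of_nonneg_right _ (by positivity)
    linarith
  have h2 : ((m - 1) * (m * N) + (m - 1 + k2) * (m * N) + 2 * (S ^ 2 + K * (m * N))) /
      (m * (m - 1)) = (2 + (k2 + 2 * K) / (m - 1)) * N + S ^ 2 * (2 / (m * (m - 1))) := by
    field_simp
    ring
  have h3 : (2 * (m - 1) * S / (m * (m - 1))) ^ 2 = S ^ 2 * (4 / m ^ 2) := by
    field_simp
    ring
  have h4 : 2 / (m * (m - 1)) ≤ 4 / m ^ 2 := by
    rw [div_le_div_iff₀ (by positivity) (by positivity)]
    nlinarith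
  have h5 := mul_le_mul_of_nonneg_left h4 (sq_nonneg S)
  rw [h3]
  linarith

end Pool.Agent.QPR
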