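import Pool.Agent.QPR.Stmts2

/-!
# Project QPR, part (2): two entries (VV)
-/

set_option autoImplicit false

namespace Pool.Agent.QPR

open Finset
open scoped Classical

namespace M_VV

variable {α : Type} [DecidableEq α] (D : Dat α)

theorem om_nonneg (C R : Finset α) (e : α) (o : Bool) : 0 ≤ D.om C R e o := by
  unfold Dat.om
  have hx := D.x0
  have hy := D.y0
  split_ifs
  · exact le_rfl
  · exact hy.le
  · exact hx.le
  · exact le_rfl
  · exact zero_le_one

theorem T_pos (hBAS : St_BAS) (C R : Finset α) : 0 < D.T C R := (hBAS α D C R).2.2.1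

/-- the sum over the outcomes of one entry -/
theorem sum_om (hBAS : St_BAS) (C R : Finset α) {e : α} (he : e ∈ R) :
    ∑ o : Bool, D.om C R e o * D.T (nx C e o) (R.erase e) = D.T C R := by
  obtain ⟨h1, h2, h3, -, -⟩ := (hBAS α D C R).2.2.2.2.2 e he
  rw [Fintype.sum_bool]
  unfold Dat.om nx
  by_cases hl : D.Lp C e
  · simp only [hl, if_true, Bool.false_eq_true, if_false]
    rw [(h1 hl).1]
    ring
  · by_cases hc : D.Cl C R e
    · simp only [hl, hc, if_true, Bool.false_eq_true, if_false]
      rw [h2 hc]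
      ring
    · simp only [hl, hc, if_true, Bool.false_eq_true, if_false]
      rw [(h3 ⟨hl, hc⟩).1]
      ring

/-- the product of the probabilities of two entries -/
theorem P_mul (hBAS : St_BAS) (C R : Finset α) {e : α} (he : e ∈ R) (f : α) (o o' : Bool)
    (h2 : 2 ≤ R.card) :
    D.P C R e o * D.P (nx C e o) (R.erase e) f o' =
      D.t C R e o f o' / (R.card * (R.card - 1)) := by
  have hT := T_pos D hBAS C R
  have hT' := T_pos D hBAS (nx C e o) (R.erase e)
  have hm : ((R.erase e).card : ℝ) = (R.card : ℝ) - 1 := by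
    rw [card_erase_of_mem he, Nat.cast_sub (by omega)]
    norm_num
  have hm2 : (2 : ℝ) ≤ R.card := by exact_mod_cast h2
  have hm0 : (R.card : ℝ) ≠ 0 := by
    intro h
    linarith
  have hm1 : (R.card : ℝ) - 1 ≠ 0 := by
    intro h
    linarith
  unfold Dat.P Dat.t
  rw [hm]
  field_simp

/-- the expectation of a function of two entries -/
theorem E22_eq (hBAS : St_BAS) (C R : Finset α) (h2 : 2 ≤ R.card)
    (Y : α → Bool → α → Bool → ℝ) :
    D.E22 C R Y = ∑ e ∈ R, ∑ o : Bool, D.P C R e o *
      ∑ f ∈ R.erase e, ∑ o' : Bool, D.P (nx C e o) (R.erase e) f o' * Y e o f o' := by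
  unfold Dat.E22 Dat.E2
  rw [sum_div]
  apply sum_congr rfl
  intro e he
  rw [sum_div]
  have h1 : ∀ f ∈ R.erase e, (∑ o : Bool, ∑ o' : Bool, D.t C R e o f o' * Y e o f o') /
      ((R.card : ℝ) * (R.card - 1)) = ∑ o : Bool, ∑ o' : Bool,
        D.P C R e o * D.P (nx C e o) (R.erase e) f o' * Y e o f o' := by
    intro f _
    rw [sum_div]
    apply sum_congr rfl
    intro o _
    rw [sum_div]
    apply sum_congr rfl
    intro o' _
    rw [P_mul D hBAS C R he f o o' h2]
    ring
  rw [sum_congr rfl h1, sum_comm]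
  apply sum_congr rfl
  intro o _
  rw [mul_sum]
  apply sum_congr rfl
  intro f _
  rw [mul_sum]
  apply sum_congr rfl
  intro o' _
  ring

/-- expectation of the square of the conditional expectation -/
theorem sum_P_sq (hFST : St_FST) (C R : Finset α) (F : List (α × Bool) → ℝ) (hR : R.Nonempty) :
    ∑ e ∈ R, ∑ o : Bool, D.P C R e o * D.phi C R F e o ^ 2 =
      D.I0 C R F + D.Ex C R F ^ 2 := by
  obtain ⟨-, -, -, h1, -, h2, -⟩ := hFST α D C R F hR
  have h3 : D.I0 C R F = ∑ e ∈ R, ∑ o : Bool, D.P C R e o * D.phi C R F e o ^ 2 -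
      2 * D.Ex C R F * ∑ e ∈ R, ∑ o : Bool, D.P C R e o * D.phi C R F e o +
      D.Ex C R F ^ 2 * ∑ e ∈ R, ∑ o : Bool, D.P C R e o := by
    unfold Dat.I0
    rw [mul_sum, mul_sum, ← sum_sub_distrib, ← sum_add_distrib]
    apply sum_congr rfl
    intro e _
    rw [mul_sum, mul_sum, ← sum_sub_distrib, ← sum_add_distrib]
    apply sum_congr rfl
    intro o _
    ring
  rw [h3, ← h2, h1]
  ring

end M_VV

open M_VV

theorem t_VV (hBAS : St_BAS) (hFST : St_FST) : St_VV := by
  intro α _ D C R F al be h2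
  have hR : R.Nonempty := card_pos.1 (by omega)
  have hRe : ∀ e ∈ R, (R.erase e).Nonempty := by
    intro e he
    apply card_pos.1
    rw [card_erase_of_mem he]
    omega
  have hm2 : (2 : ℝ) ≤ R.card := by exact_mod_cast h2
  have hm0 : (R.card : ℝ) ≠ 0 := by
    intro h
    linarith
  -- the conditional expectation given the first entry
  have hphi : ∀ e ∈ R, ∀ o : Bool, ∑ f ∈ R.erase e, ∑ o' : Bool,
      D.P (nx C e o) (R.erase e) f o' * D.G2 C R F e o f o' = D.phi C R F e o := by
    intro e he o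
    obtain ⟨-, -, -, -, -, h3, -⟩ := hFST α D (nx C e o) (R.erase e)
      (fun h => F ((e, o) :: h)) (hRe e he)
    exact h3.symm
  refine ⟨?_, ?_, ?_, ?_, ?_, ?_⟩
  · intro e he f hf o
    have h3 := sum_om D hBAS (nx C e o) (R.erase e) hf
    rw [← h3, mul_sum, sum_div]
    apply sum_congr rfl
    intro o' _
    unfold Dat.t
    ring
  · intro e he o
    have hT := T_pos D hBAS C R
    unfold Dat.P
    field_simp
  · intro e o f o'
    unfold Dat.t
    exact div_nonneg (mul_nonneg (mul_nonneg (om_nonneg D _ _ _ _) (om_nonneg D _ _ _ _))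
      (T_pos D hBAS _ _).le) (T_pos D hBAS _ _).le
  · rw [E22_eq D hBAS C R h2]
    obtain ⟨-, -, -, -, -, h3, -⟩ := hFST α D C R F hR
    rw [h3]
    apply sum_congr rfl
    intro e he
    apply sum_congr rfl
    intro o _
    rw [hphi e he o]
  · rw [E22_eq D hBAS C R h2]
    apply sum_congr rfl
    intro e he
    apply sum_congr rfl
    intro o _
    congr 1
    rw [← hphi e he o, mul_sum]
    apply sum_congr rfl
    intro f _
    rw [mul_sum]
    apply sum_congr rfl
    intro o' _
    ring
  · rw [E22_eq D hBAS C R h2]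
    have h3 : ∀ e ∈ R, ∀ o : Bool, ∑ f ∈ R.erase e, ∑ o' : Bool,
        D.P (nx C e o) (R.erase e) f o' * D.G2 C R F e o f o' ^ 2 =
          D.I0 (nx C e o) (R.erase e) (fun h => F ((e, o) :: h)) + D.phi C R F e o ^ 2 := by
      intro e he o
      exact sum_P_sq D hFST (nx C e o) (R.erase e) (fun h => F ((e, o) :: h)) (hRe e he)
    have h4 : ∑ e ∈ R, ∑ o : Bool, D.P C R e o *
        ∑ f ∈ R.erase e, ∑ o' : Bool, D.P (nx C e o) (R.erase e) f o' * D.G2 C R F e o f o' ^ 2 =
        D.step D.I0 C R F + ∑ e ∈ R, ∑ o : Bool, D.P C R e o * D.phi C R F e o ^ 2 := by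
      unfold Dat.step
      rw [← sum_add_distrib]
      apply sum_congr rfl
      intro e he
      rw [← sum_add_distrib]
      apply sum_congr rfl
      intro o _
      rw [h3 e he o]
      ring
    rw [h4, sum_P_sq D hFST C R F hR]
    ring

end Pool.Agent.QPR
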