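import Pool.Agent.QPR.Stmts2

/-!
# Module WEQ: equal weights of parallel and series partners
-/

set_option autoImplicit false

namespace Pool.Agent.QPR

open Finset
open scoped Classical

namespace M_WEQ

theorem TT_congr {α : Type} [DecidableEq α] (D : Dat α) (C1 C2 R' : Finset α)
    (hA : ∀ A ⊆ R', D.r (C1 ∪ A) + D.r C2 = D.r (C2 ∪ A) + D.r C1) :
    D.T C1 R' = D.T C2 R' := by
  unfold Dat.T TT
  apply Finset.sum_congr rfl
  intro A hAm
  have h1 := hA A (Finset.mem_powerset.1 hAm)
  have h2 := hA R' (Finset.Subset.refl _)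
  have e1 : D.r (C1 ∪ R') - D.r (C1 ∪ A) = D.r (C2 ∪ R') - D.r (C2 ∪ A) := by omega
  have e2 : A.card + D.r C1 - D.r (C1 ∪ A) = A.card + D.r C2 - D.r (C2 ∪ A) := by omega
  rw [e1, e2]

theorem hw_congr {α : Type} [DecidableEq α] (D : Dat α) (h : List (α × Bool)) :
    ∀ C1 C2 : Finset α,
    (∀ A ⊆ els h, D.r (C1 ∪ A) + D.r C2 = D.r (C2 ∪ A) + D.r C1) →
    hw D.r D.x D.y 1 C1 h = hw D.r D.x D.y 1 C2 h := by
  induction h with
  | nil => intro C1 C2 _; rfl
  | cons p h ih =>
    intro C1 C2 hA
    obtain ⟨e, o⟩ := p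
    have hsub : els h ⊆ els ((e, o) :: h) := by
      rw [els_cons]; exact Finset.subset_insert _ _
    have k1 : D.r (insert e C1) + D.r C2 = D.r (insert e C2) + D.r C1 := by
      have he1 : {e} ⊆ els ((e, o) :: h) := by
        rw [els_cons]
        exact Finset.singleton_subset_iff.2 (Finset.mem_insert_self _ _)
      have h1 := hA {e} he1
      rw [Finset.union_comm C1, Finset.union_comm C2, ← Finset.insert_eq,
        ← Finset.insert_eq] at h1
      exact h1
    have k2 := hA (els h) hsub
    have k3 : D.r (insert e (C1 ∪ els h)) + D.r C2 = D.r (insert e (C2 ∪ els h)) + D.r C1 := by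
      have he1 : insert e (els h) ⊆ els ((e, o) :: h) := by
        rw [els_cons]
      have h1 := hA (insert e (els h)) he1
      rw [Finset.union_insert, Finset.union_insert] at h1
      exact h1
    have i1 := ih C1 C2 fun A hs => hA A (hs.trans hsub)
    have i3 : ∀ A ⊆ els h, D.r (insert e C1 ∪ A) + D.r (insert e C2) =
        D.r (insert e C2 ∪ A) + D.r (insert e C1) := by
      intro A hs
      have he1 : insert e A ⊆ els ((e, o) :: h) := by
        rw [els_cons]
        exact Finset.insert_subset_insert _ hs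
      have h3 := hA (insert e A) he1
      rw [Finset.union_insert, Finset.union_insert] at h3
      rw [Finset.insert_union, Finset.insert_union]
      omega
    have i2 := ih (insert e C1) (insert e C2) i3
    have c1 : (D.r (insert e C1) = D.r C1) ↔ (D.r (insert e C2) = D.r C2) := by omega
    have c2 : (D.r (C1 ∪ els h) < D.r (insert e (C1 ∪ els h))) ↔
        (D.r (C2 ∪ els h) < D.r (insert e (C2 ∪ els h))) := by omega
    unfold hw
    rw [i1, i2]
    by_cases a : D.r (insert e C2) = D.r C2
    · rw [if_pos (c1.2 a), if_pos a]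
    · rw [if_neg (fun b => a (c1.1 b)), if_neg a]
      by_cases b : D.r (C2 ∪ els h) < D.r (insert e (C2 ∪ els h))
      · rw [if_pos (c2.2 b), if_pos b]
      · rw [if_neg (fun b' => b (c2.1 b')), if_neg b]

theorem both {α : Type} [DecidableEq α] (D : Dat α) (C1 C2 R' : Finset α)
    (hA : ∀ A ⊆ R', D.r (C1 ∪ A) + D.r C2 = D.r (C2 ∪ A) + D.r C1) :
    D.T C1 R' = D.T C2 R' ∧ ∀ h ∈ Hist R', D.w C1 h = D.w C2 h := by
  refine ⟨TT_congr D C1 C2 R' hA, ?_⟩
  intro h hh
  apply hw_congr
  rw [(mem_Hist.1 hh).2]
  exact hA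

end M_WEQ

open M_WEQ in
theorem t_WEQ : St_WEQ := by
  intro α _ D
  refine ⟨fun C1 C2 R' hA => both D C1 C2 R' hA, ?_, ?_⟩
  · intro C S e f hP
    apply both
    intro A _
    obtain ⟨h1, h2, h3⟩ := hP
    unfold Dat.Lp at h1 h2 h3
    have a1 := D.hr.mono C e
    have a2 := D.hr.le_succ C e
    have a3 := D.hr.mono C f
    have a4 := D.hr.le_succ C f
    have h4 : D.r (insert f (insert e C)) = D.r (insert e C) := by
      rw [Finset.insert_comm]; omega
    have h5 : D.r (insert e (insert f C ∪ A)) = D.r (insert f C ∪ A) :=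
      D.hr.closure h3 Finset.subset_union_left
    have h6 : D.r (insert f (insert e C ∪ A)) = D.r (insert e C ∪ A) :=
      D.hr.closure h4 Finset.subset_union_left
    have h7 : insert e (insert f C ∪ A) = insert f (insert e C ∪ A) := by
      rw [Finset.insert_union, Finset.insert_union, Finset.insert_comm]
    rw [h7] at h5
    omega
  · intro C R e f he hf hne hS
    apply both
    intro A hA
    obtain ⟨h1, h2, h3⟩ := hS
    unfold Dat.Cl at h1 h2 h3
    have hfe : f ∈ R.erase e := Finset.mem_erase.2 ⟨hne.symm, hf⟩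
    have hef : e ∈ R.erase f := Finset.mem_erase.2 ⟨hne, he⟩
    set S := (R.erase e).erase f with hSd
    have hS' : (R.erase f).erase e = S := by rw [hSd, Finset.erase_right_comm]
    have s1 : R.erase e = insert f S := (Finset.insert_erase hfe).symm
    have s2 : R.erase f = insert e S := by rw [← hS', Finset.insert_erase hef]
    have s3 : insert e (C ∪ R.erase e) = C ∪ R := by
      rw [← Finset.union_insert, Finset.insert_erase he]
    have s4 : insert f (C ∪ R.erase f) = C ∪ R := by
      rw [← Finset.union_insert, Finset.insert_erase hf]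
    have m1 := D.hr.mono (C ∪ R.erase e) e
    have m2 := D.hr.mono (C ∪ R.erase f) f
    rw [s3] at h1 m1
    rw [s4] at h2 m2
    rw [hS'] at h3
    rw [s1, Finset.union_insert] at h1 m1
    rw [s2, Finset.union_insert] at h2 m2
    have h4 : D.r (C ∪ S) < D.r (insert f (C ∪ S)) := by omega
    have hAS : C ∪ A ⊆ C ∪ S := Finset.union_subset_union_right hA
    have h5 := D.hr.coclosure h3 hAS
    have h6 := D.hr.coclosure h4 hAS
    have h7 := D.hr.coclosure h3 (Finset.subset_union_left (s₁ := C) (s₂ := S))
    have h8 := D.hr.coclosure h4 (Finset.subset_union_left (s₁ := C) (s₂ := S))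
    rw [Finset.insert_union, Finset.insert_union]
    omega

end Pool.Agent.QPR
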