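import Pool.Agent.QPR.Stmts2

/-!
# (3.5), case (c): series, not parallel
-/

set_option autoImplicit false

namespace Pool.Agent.QPR

open Finset
open scoped Classical

namespace M_XC

lemma alg (y t r m a b x1 x2 x3 x4 : ℝ) (hy0 : 0 < y) (hy1 : y < 1) (hm0 : 0 < m) (hm1 : m < 1)
    (hmy : m ≤ y) (ht : 0 ≤ t) (hr : 0 ≤ r) :
    m ^ 2 * (t * b * x1 - (1 - y) * t * a * x2 + t * a * x3 + r * b * x4) ^ 2 ≤
      4 * ((y * t * a ^ 2 + (t + r) * b ^ 2) *
        (y * t * x1 ^ 2 + y * t * x2 ^ 2 + y * t * x3 ^ 2 + r * x4 ^ 2)) := by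
  have h4 : (t * b * x1 - (1 - y) * t * a * x2 + t * a * x3 + r * b * x4) ^ 2 ≤
      4 * ((t * b * x1) ^ 2 + ((1 - y) * t * a * x2) ^ 2 + (t * a * x3) ^ 2 +
        (r * b * x4) ^ 2) := by
    nlinarith [sq_nonneg (t * b * x1 + (1 - y) * t * a * x2), sq_nonneg (t * b * x1 - t * a * x3),
      sq_nonneg (t * b * x1 - r * b * x4), sq_nonneg ((1 - y) * t * a * x2 + t * a * x3),
      sq_nonneg ((1 - y) * t * a * x2 + r * b * x4), sq_nonneg (t * a * x3 - r * b * x4)]
  have hm2 : m ^ 2 ≤ y := by nlinarith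
  have hm2' : m ^ 2 ≤ y ^ 2 := by nlinarith
  have hm3 : m ^ 2 ≤ 1 := by nlinarith
  have ha : m ^ 2 * (t * b * x1) ^ 2 ≤ (t * b ^ 2) * (y * t * x1 ^ 2) := by
    have : (t * b ^ 2) * (y * t * x1 ^ 2) = y * (t * b * x1) ^ 2 := by ring
    rw [this]
    exact mul_le_mul_of_nonneg_right hm2 (sq_nonneg _)
  have hb : m ^ 2 * ((1 - y) * t * a * x2) ^ 2 ≤ (y * t * a ^ 2) * (y * t * x2 ^ 2) := by
    have e1 : (y * t * a ^ 2) * (y * t * x2 ^ 2) = y ^ 2 * (t * a * x2) ^ 2 := by ring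
    have e2 : m ^ 2 * ((1 - y) * t * a * x2) ^ 2 = (m ^ 2 * (1 - y) ^ 2) * (t * a * x2) ^ 2 := by
      ring
    rw [e1, e2]
    refine mul_le_mul_of_nonneg_right ?_ (sq_nonneg _)
    have : (1 - y) ^ 2 ≤ 1 := by nlinarith
    nlinarith [sq_nonneg m, sq_nonneg y]
  have hc : m ^ 2 * (t * a * x3) ^ 2 ≤ (y * t * a ^ 2) * (y * t * x3 ^ 2) := by
    have e1 : (y * t * a ^ 2) * (y * t * x3 ^ 2) = y ^ 2 * (t * a * x3) ^ 2 := by ring
    rw [e1]
    exact mul_le_mul_of_nonneg_right hm2' (sq_nonneg _)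
  have hd : m ^ 2 * (r * b * x4) ^ 2 ≤ (r * b ^ 2) * (r * x4 ^ 2) := by
    have e1 : (r * b ^ 2) * (r * x4 ^ 2) = 1 * (r * b * x4) ^ 2 := by ring
    rw [e1]
    exact mul_le_mul_of_nonneg_right hm3 (sq_nonneg _)
  have hyt : 0 ≤ y * t := by positivity
  have hsum : (t * b ^ 2) * (y * t * x1 ^ 2) + (y * t * a ^ 2) * (y * t * x2 ^ 2) +
      (y * t * a ^ 2) * (y * t * x3 ^ 2) + (r * b ^ 2) * (r * x4 ^ 2) ≤
      (y * t * a ^ 2 + (t + r) * b ^ 2) *
        (y * t * x1 ^ 2 + y * t * x2 ^ 2 + y * t * x3 ^ 2 + r * x4 ^ 2) := by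
    have e : (y * t * a ^ 2 + (t + r) * b ^ 2) *
        (y * t * x1 ^ 2 + y * t * x2 ^ 2 + y * t * x3 ^ 2 + r * x4 ^ 2) =
        ((t * b ^ 2) * (y * t * x1 ^ 2) + (y * t * a ^ 2) * (y * t * x2 ^ 2) +
          (y * t * a ^ 2) * (y * t * x3 ^ 2) + (r * b ^ 2) * (r * x4 ^ 2)) +
        ((y * t * a ^ 2) * (y * t * x1 ^ 2) + (y * t * a ^ 2) * (r * x4 ^ 2) +
          (t * b ^ 2) * (y * t * x2 ^ 2) + (t * b ^ 2) * (y * t * x3 ^ 2) +
          (t * b ^ 2) * (r * x4 ^ 2) + (r * b ^ 2) * (y * t * x1 ^ 2) +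
          (r * b ^ 2) * (y * t * x2 ^ 2) + (r * b ^ 2) * (y * t * x3 ^ 2)) := by ring
    rw [e]
    have : 0 ≤ ((y * t * a ^ 2) * (y * t * x1 ^ 2) + (y * t * a ^ 2) * (r * x4 ^ 2) +
          (t * b ^ 2) * (y * t * x2 ^ 2) + (t * b ^ 2) * (y * t * x3 ^ 2) +
          (t * b ^ 2) * (r * x4 ^ 2) + (r * b ^ 2) * (y * t * x1 ^ 2) +
          (r * b ^ 2) * (y * t * x2 ^ 2) + (r * b ^ 2) * (y * t * x3 ^ 2)) := by positivity
    linarith
  nlinarith [mul_le_mul_of_nonneg_left h4 (sq_nonneg m)]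

end M_XC

theorem t_XC (hLOC : St_LOC) (hBAS : St_BAS) (hTW : St_TW) (hVV : St_VV) (hSC : St_SC) :
    St_XC := by
  have _ := hSC
  intro α _ D C R al be G e he f hf hef hP hS
  obtain ⟨-, -, -, -, -, -, p7, -, p9⟩ := hLOC α D C R e f he hf hef
  obtain ⟨-, q2, -, -, -, q6, -, -, -⟩ := hLOC α D C R f e hf he hef.symm
  have hS' : D.Ser C R f e := p7 hS
  have hP' : ¬ D.Par C f e := fun h => hP (q6 h)
  obtain ⟨hLe, hLf⟩ := p9 hS
  obtain ⟨hCe, hCf, hCfe⟩ := id hS
  have hGe : D.Gen C R e := ⟨hLe, hCe⟩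
  have hCl : ¬ D.Cl (insert f C) (R.erase f) e := fun h => hCe (q2.1 h)
  have hLp : ¬ D.Lp (insert f C) e := fun h => hP ⟨hLe, hLf, h⟩
  obtain ⟨mu0, mu1, hT0, -, -, hB⟩ := hBAS α D C R
  obtain ⟨-, -, hB3, -, -⟩ := hB e he
  obtain ⟨-, -, -, hpe⟩ := hB3 hGe
  obtain ⟨-, -, tw2, -, tw5⟩ := hTW α D C R e f he hf hef
  obtain ⟨e1, e2, e3, e4⟩ := tw2 hP hS
  obtain ⟨w1, w2, w3⟩ := tw5 (Or.inr hS)
  obtain ⟨-, -, tw2', -, -⟩ := hTW α D C R f e hf he hef.symm
  obtain ⟨f1, f2, f3, f4⟩ := tw2' hP' hS'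
  have hcard : 2 ≤ R.card := by
    have : ({e, f} : Finset α) ⊆ R := by
      intro z hz
      simp only [Finset.mem_insert, Finset.mem_singleton] at hz
      rcases hz with rfl | rfl <;> assumption
    have h2 := Finset.card_le_card this
    rwa [Finset.card_pair hef] at h2
  obtain ⟨v1, -, v3, -⟩ := hVV α D C R (fun _ => 0) al be hcard
  have hfe : f ∈ R.erase e := Finset.mem_erase.2 ⟨hef.symm, hf⟩
  have m1 := v1 e he f hfe true
  have m2 := v1 e he f hfe false
  have ot : D.om C R e true = 1 := by simp [Dat.om, hLe, hCe]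
  have of : D.om C R e false = 1 := by simp [Dat.om, hLe, hCe]
  have nt : nx C e true = insert e C := by simp [nx]
  have nf : nx C e false = C := by simp [nx]
  rw [Fintype.sum_bool, ot, nt, one_mul] at m1
  rw [Fintype.sum_bool, of, nf, one_mul] at m2
  rw [← w1] at f2 f3
  rw [← w3] at f4
  have hv3 := v3 e true f false
  have hv4 := v3 e true f true
  rw [e3] at hv3
  rw [e4] at hv4
  rw [e1, e2, add_zero, ← hpe] at m2
  rw [e3, e4] at m1
  have hpe' : D.pe C R e = D.T (insert f (insert e C)) ((R.erase e).erase f) / D.T C R +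
      D.T (insert e C) ((R.erase e).erase f) / D.T C R := by
    rw [m1]; rfl
  generalize D.T (insert e C) ((R.erase e).erase f) / D.T C R = τ at *
  generalize D.T (insert f (insert e C)) ((R.erase e).erase f) / D.T C R = ρ at *
  have hve : D.ve C R al be e = D.x * τ * be e ^ 2 + (τ + ρ) * al e ^ 2 := by
    have : D.ve C R al be e = D.pe C R e * al e ^ 2 + (1 - D.pe C R e) * be e ^ 2 := by
      unfold Dat.ve Dat.me; ring
    rw [this, ← m2, hpe']
    ring
  have sc1 : ∀ o' : Bool, D.sc C R f false e o' = 1 / D.x := by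
    intro o'
    simp [Dat.sc, nx, hLe, hCfe]
  have sc2 : ∀ o' : Bool, D.sc C R f true e o' = if o' then 1 else 0 := by
    intro o'
    simp [Dat.sc, nx, hLp, hCl]
  have hx0 := D.x0
  have hx1 := D.x1
  have hmx : D.mu ≤ D.x := min_le_left _ _
  have hxτ : D.x * τ ≤ τ := by nlinarith
  have hDef : D.x * τ * (G e true f false - G f false e true) ^ 2 +
      D.x * τ * (G e false f true - G f false e true) ^ 2 +
      D.x * τ * (G e false f true - G f true e false) ^ 2 +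
      ρ * (G e true f true - G f true e true) ^ 2 ≤ D.Def C R G e f := by
    simp only [Dat.Def, Fintype.sum_bool, if_pos (Or.inr hS : D.Par C e f ∨ D.Ser C R e f),
      e1, e2, e3, e4, f1, f2, f3, f4, min_self, min_eq_left hxτ, min_eq_right hxτ]
    have h1 : 0 ≤ τ * (G e true f false - G f true e false) ^ 2 := by positivity
    have h2 : 0 ≤ ρ * (G e true f true - G f true e true) ^ 2 := by positivity
    linarith
  have key : D.E2 C R f e (fun o o' => D.g2 C R al be f o e o' * G f o e o') -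
      D.E2 C R e f (fun o o' => g1 al be e o * G e o f o') =
      -(τ * al e * (G e true f false - G f false e true) -
        (1 - D.x) * τ * be e * (G e false f true - G f false e true) +
        τ * be e * (G e false f true - G f true e false) +
        ρ * al e * (G e true f true - G f true e true)) := by
    simp only [Dat.E2, Fintype.sum_bool, Dat.g2, g1, sc1, sc2, e1, e2, e3, e4, f1, f2, f3, f4]
    have hx : D.x ≠ 0 := hx0.ne'
    field_simp
    simp
    ring
  have hal := M_XC.alg D.x τ ρ D.mu (be e) (al e) (G e true f false - G f false e true)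
    (G e false f true - G f false e true) (G e false f true - G f true e false)
    (G e true f true - G f true e true) hx0 hx1 mu0 mu1 hmx hv3 hv4
  rw [key, abs_neg, hve]
  have hD0 : 0 ≤ D.x * τ * be e ^ 2 + (τ + ρ) * al e ^ 2 := by positivity
  have hfin : (τ * al e * (G e true f false - G f false e true) -
        (1 - D.x) * τ * be e * (G e false f true - G f false e true) +
        τ * be e * (G e false f true - G f true e false) +
        ρ * al e * (G e true f true - G f true e true)) ^ 2 ≤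
      (2 / D.mu) ^ 2 * ((D.x * τ * be e ^ 2 + (τ + ρ) * al e ^ 2) * D.Def C R G e f) := by
    rw [div_pow, div_mul_eq_mul_div, le_div_iff₀ (by positivity)]
    have := mul_le_mul_of_nonneg_left hDef hD0
    nlinarith
  calc _ ≤ √((2 / D.mu) ^ 2 * ((D.x * τ * be e ^ 2 + (τ + ρ) * al e ^ 2) * D.Def C R G e f)) :=
        Real.abs_le_sqrt hfin
    _ = _ := by rw [Real.sqrt_mul (sq_nonneg _), Real.sqrt_sq (by positivity)]

end Pool.Agent.QPR
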