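import Pool.Agent.QPR.Stmts2

/-!
# (3.5), case (d): parallel and series
-/

set_option autoImplicit false

namespace Pool.Agent.QPR

open Finset
open scoped Classical

namespace M_XD

theorem sq4 (p q r s : ℝ) : (p + q + r + s) ^ 2 ≤ 4 * (p ^ 2 + q ^ 2 + r ^ 2 + s ^ 2) := by
  nlinarith [sq_nonneg (p - q), sq_nonneg (p - r), sq_nonneg (p - s), sq_nonneg (q - r),
    sq_nonneg (q - s), sq_nonneg (r - s)]

theorem key (x y τ μ al be a b c d : ℝ) (hμ : 0 < μ) (hμx : μ ≤ x) (hμy : μ ≤ y) (hx : x < 1)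
    (hy : y < 1) :
    (μ * (-(τ * be * c) + (1 - y) * τ * al * b + -(τ * al * a) + (1 - x) * τ * be * d)) ^ 2 ≤
      4 * ((y * τ * al ^ 2 + x * τ * be ^ 2) *
        (μ * τ * a ^ 2 + y * τ * b ^ 2 + μ * τ * c ^ 2 + x * τ * d ^ 2)) := by
  have hx0 : 0 < x := lt_of_lt_of_le hμ hμx
  have hy0 : 0 < y := lt_of_lt_of_le hμ hμy
  have h1 := sq4 (-(τ * be * c)) ((1 - y) * τ * al * b) (-(τ * al * a)) ((1 - x) * τ * be * d)
  have h2 : (μ * (-(τ * be * c) + (1 - y) * τ * al * b + -(τ * al * a) +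
      (1 - x) * τ * be * d)) ^ 2 ≤ μ ^ 2 * (4 * ((-(τ * be * c)) ^ 2 +
        ((1 - y) * τ * al * b) ^ 2 + (-(τ * al * a)) ^ 2 + ((1 - x) * τ * be * d) ^ 2)) := by
    rw [mul_pow]
    exact mul_le_mul_of_nonneg_left h1 (sq_nonneg μ)
  refine h2.trans ?_
  have e1 : μ ^ 2 * (τ * be * c) ^ 2 ≤ x * μ * (τ * be * c) ^ 2 := by
    refine mul_le_mul_of_nonneg_right ?_ (sq_nonneg _)
    nlinarith
  have e2 : μ ^ 2 * ((1 - y) * τ * al * b) ^ 2 ≤ y ^ 2 * (τ * al * b) ^ 2 := by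
    have h3 : μ ^ 2 * ((1 - y) * τ * al * b) ^ 2 = (μ ^ 2 * (1 - y) ^ 2) * (τ * al * b) ^ 2 := by
      ring
    rw [h3]
    refine mul_le_mul_of_nonneg_right ?_ (sq_nonneg _)
    have h4 : (1 - y) ^ 2 ≤ 1 := by nlinarith
    have h5 : μ ^ 2 ≤ y ^ 2 := by nlinarith
    nlinarith [sq_nonneg μ, sq_nonneg (1 - y)]
  have e3 : μ ^ 2 * (τ * al * a) ^ 2 ≤ y * μ * (τ * al * a) ^ 2 := by
    refine mul_le_mul_of_nonneg_right ?_ (sq_nonneg _)
    nlinarith
  have e4 : μ ^ 2 * ((1 - x) * τ * be * d) ^ 2 ≤ x ^ 2 * (τ * be * d) ^ 2 := by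
    have h3 : μ ^ 2 * ((1 - x) * τ * be * d) ^ 2 = (μ ^ 2 * (1 - x) ^ 2) * (τ * be * d) ^ 2 := by
      ring
    rw [h3]
    refine mul_le_mul_of_nonneg_right ?_ (sq_nonneg _)
    have h4 : (1 - x) ^ 2 ≤ 1 := by nlinarith
    have h5 : μ ^ 2 ≤ x ^ 2 := by nlinarith
    nlinarith [sq_nonneg μ, sq_nonneg (1 - x)]
  have n1 : 0 ≤ (y * τ * al ^ 2) * (μ * τ * c ^ 2) := by
    have : (y * τ * al ^ 2) * (μ * τ * c ^ 2) = (y * μ) * (τ * al * c) ^ 2 := by ring
    rw [this]; positivity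
  have n2 : 0 ≤ (y * τ * al ^ 2) * (x * τ * d ^ 2) := by
    have : (y * τ * al ^ 2) * (x * τ * d ^ 2) = (y * x) * (τ * al * d) ^ 2 := by ring
    rw [this]; positivity
  have n3 : 0 ≤ (x * τ * be ^ 2) * (μ * τ * a ^ 2) := by
    have : (x * τ * be ^ 2) * (μ * τ * a ^ 2) = (x * μ) * (τ * be * a) ^ 2 := by ring
    rw [this]; positivity
  have n4 : 0 ≤ (x * τ * be ^ 2) * (y * τ * b ^ 2) := by
    have : (x * τ * be ^ 2) * (y * τ * b ^ 2) = (x * y) * (τ * be * b) ^ 2 := by ring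
    rw [this]; positivity
  have e5 : 4 * ((y * τ * al ^ 2 + x * τ * be ^ 2) *
        (μ * τ * a ^ 2 + y * τ * b ^ 2 + μ * τ * c ^ 2 + x * τ * d ^ 2)) =
      4 * (x * μ * (τ * be * c) ^ 2 + y ^ 2 * (τ * al * b) ^ 2 + y * μ * (τ * al * a) ^ 2 +
        x ^ 2 * (τ * be * d) ^ 2) + 4 * ((y * τ * al ^ 2) * (μ * τ * c ^ 2) +
        (y * τ * al ^ 2) * (x * τ * d ^ 2) + (x * τ * be ^ 2) * (μ * τ * a ^ 2) +
        (x * τ * be ^ 2) * (y * τ * b ^ 2)) := by ring
  have e6 : μ ^ 2 * (4 * ((-(τ * be * c)) ^ 2 + ((1 - y) * τ * al * b) ^ 2 +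
      (-(τ * al * a)) ^ 2 + ((1 - x) * τ * be * d) ^ 2)) =
      4 * (μ ^ 2 * (τ * be * c) ^ 2 + μ ^ 2 * ((1 - y) * τ * al * b) ^ 2 +
        μ ^ 2 * (τ * al * a) ^ 2 + μ ^ 2 * ((1 - x) * τ * be * d) ^ 2) := by ring
  rw [e5, e6]
  linarith

end M_XD

theorem t_XD (hLOC : St_LOC) (hBAS : St_BAS) (hTW : St_TW) (hVV : St_VV) (hSC : St_SC) :
    St_XD := by
  have _ := hSC
  intro α _ D C R al be G e he f hf hef hpar hser
  obtain ⟨-, -, -, -, -, hparS, hserS, -, -⟩ := hLOC α D C R e f he hf hef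
  obtain ⟨-, -, -, hT1, hT2⟩ := hTW α D C R e f he hf hef
  obtain ⟨-, -, -, hT3, -⟩ := hTW α D C R f e hf he (Ne.symm hef)
  obtain ⟨t1, t2, t3, t4⟩ := hT1 hpar hser
  obtain ⟨s1, s2, s3, s4⟩ := hT3 (hparS hpar) (hserS hser)
  obtain ⟨hτ, -, -⟩ := hT2 (Or.inl hpar)
  rw [← hτ] at s3 s4
  set τ : ℝ := D.T (insert e C) ((R.erase e).erase f) / D.T C R with hτdef
  have hLe : ¬ D.Lp C e := hpar.1
  have hCe : ¬ D.Cl C R e := hser.1
  have hcard : 2 ≤ R.card := by
    have : ({e, f} : Finset α) ⊆ R := by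
      intro a ha
      simp only [mem_insert, mem_singleton] at ha
      rcases ha with rfl | rfl
      · exact he
      · exact hf
    calc 2 = ({e, f} : Finset α).card := by rw [card_pair hef]
      _ ≤ R.card := card_le_card this
  obtain ⟨hm, -, -, -, -, -⟩ := hVV α D C R (fun _ => 0) al be hcard
  have hfe : f ∈ R.erase e := mem_erase.2 ⟨Ne.symm hef, hf⟩
  obtain ⟨hmu0, -, hTpos, -, -, hB⟩ := hBAS α D C R
  obtain ⟨-, -, hgen, -, -⟩ := hB e he
  obtain ⟨-, -, -, hpe⟩ := hgen ⟨hLe, hCe⟩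
  have hp : D.pe C R e = D.y * τ := by
    have h := hm e he f hfe true
    rw [Fintype.sum_bool, t1, t3] at h
    simp only [Dat.om, if_neg hLe, if_neg hCe, nx, one_mul, zero_add, if_true] at h
    rw [h]; rfl
  have hq : 1 - D.pe C R e = D.x * τ := by
    have h := hm e he f hfe false
    rw [Fintype.sum_bool, t2, t4] at h
    simp only [Dat.om, if_neg hLe, if_neg hCe, nx, one_mul, add_zero, Bool.false_eq_true,
      if_false] at h
    rw [hpe, h]
  have hτ0 : 0 ≤ τ := by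
    have h1 : 0 < D.T (insert e C) ((R.erase e).erase f) := (hBAS α D _ _).2.2.1
    positivity
  have hmx : D.mu ≤ D.x := min_le_left _ _
  have hmy : D.mu ≤ D.y := min_le_right _ _
  have hx0 := D.x0
  have hy0 := D.y0
  -- the second moment
  have hve : D.ve C R al be e = D.y * τ * al e ^ 2 + D.x * τ * be e ^ 2 := by
    rw [← hp, ← hq]
    simp only [Dat.ve, Dat.me]
    ring
  -- the energy
  have hmin : min (D.y * τ) (D.x * τ) = D.mu * τ := by
    rw [← min_mul_of_nonneg _ _ hτ0, Dat.mu, min_comm]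
  have hmin' : min (D.x * τ) (D.y * τ) = D.mu * τ := by
    rw [← min_mul_of_nonneg _ _ hτ0, Dat.mu]
  have hDef : D.Def C R G e f = D.mu * τ * (G e true f false - G f false e true) ^ 2 +
      D.y * τ * (G e true f false - G f true e false) ^ 2 +
      D.mu * τ * (G e false f true - G f true e false) ^ 2 +
      D.x * τ * (G e false f true - G f false e true) ^ 2 := by
    simp only [Dat.Def, Fintype.sum_bool, if_pos (Or.inl hpar : D.Par C e f ∨ D.Ser C R e f), t1,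
      t2, t3, t4, s1, s2, s3, s4, min_self, hmin, hmin']
    ring
  -- the scores
  have hscT : ∀ o' : Bool, D.sc C R f true e o' = -((1 - D.y) / D.y) := by
    intro o'
    have : D.Lp (nx C f true) e := hpar.2.2
    simp only [Dat.sc, if_pos this]
  have hscF : ∀ o' : Bool, D.sc C R f false e o' = 1 / D.x := by
    intro o'
    have h1 : ¬ D.Lp (nx C f false) e := by simpa [nx] using hLe
    have h2 : D.Cl (nx C f false) (R.erase f) e := by simpa [nx] using hser.2.2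
    simp only [Dat.sc, if_neg h1, if_pos h2]
  have hX : D.E2 C R f e (fun o o' => D.g2 C R al be f o e o' * G f o e o') -
      D.E2 C R e f (fun o o' => g1 al be e o * G e o f o') =
      -(τ * be e * (G e false f true - G f true e false)) +
      (1 - D.y) * τ * al e * (G e true f false - G f true e false) +
      -(τ * al e * (G e true f false - G f false e true)) +
      (1 - D.x) * τ * be e * (G e false f true - G f false e true) := by
    simp only [Dat.E2, Fintype.sum_bool, Dat.g2, hscT, hscF, g1, t1, t2, t3, t4, s1, s2, s3, s4,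
      if_true, Bool.false_eq_true, if_false]
    field_simp
    ring
  have hk := M_XD.key D.x D.y τ D.mu (al e) (be e) (G e true f false - G f false e true)
    (G e true f false - G f true e false) (G e false f true - G f true e false)
    (G e false f true - G f false e true) hmu0 hmx hmy D.x1 D.y1
  rw [← hX, ← hve, ← hDef] at hk
  have h1 := Real.abs_le_sqrt hk
  have h2 : √(4 * (D.ve C R al be e * D.Def C R G e f)) =
      2 * √(D.ve C R al be e * D.Def C R G e f) := by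
    rw [Real.sqrt_mul (by norm_num), show (4 : ℝ) = 2 ^ 2 by norm_num,
      Real.sqrt_sq (by norm_num)]
  rw [h2, abs_mul, abs_of_pos hmu0] at h1
  rw [div_mul_eq_mul_div, le_div_iff₀ hmu0]
  linarith

end Pool.Agent.QPR
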