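import Pool.Agent.QPR.Stmts2
import Pool.Agent.QPR.P_LOC
import Pool.Agent.QPR.P_PER
import Pool.Agent.QPR.P_WEQ
import Pool.Agent.QPR.P_BAS
import Pool.Agent.QPR.P_BND
import Pool.Agent.QPR.P_MIXR
import Pool.Agent.QPR.P_FST
import Pool.Agent.QPR.P_EXP
import Pool.Agent.QPR.P_VV
import Pool.Agent.QPR.P_TW
import Pool.Agent.QPR.P_JEN
import Pool.Agent.QPR.P_SC
import Pool.Agent.QPR.P_SEC
import Pool.Agent.QPR.P_COV
import Pool.Agent.QPR.P_VARS
import Pool.Agent.QPR.P_XA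
import Pool.Agent.QPR.P_XB
import Pool.Agent.QPR.P_XC
import Pool.Agent.QPR.P_XD
import Pool.Agent.QPR.P_ERR
import Pool.Agent.QPR.P_COMB
import Pool.Agent.QPR.P_INS
import Pool.Agent.QPR.P_INC
import Pool.Agent.QPR.P_LATE
import Pool.Agent.QPR.P_RB
import Pool.Agent.QPR.P_TS
import Pool.Agent.QPR.P_REC
import Pool.Agent.QPR.P_OS
import Pool.Agent.QPR.P_IND
import Pool.Agent.QPR.P_CON
import Pool.Agent.QPR.P_CRU
import Pool.Agent.QPR.P_NUM
import Pool.Agent.QPR.P_POI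
import Pool.Agent.QPR.P_P2

/-!
# Part (2) assembled: the Poincare inequality on histories from (MIX)
-/

set_option autoImplicit false

namespace Pool.Agent.QPR

theorem a_LOC : St_LOC := t_LOC
theorem a_PER : St_PER := t_PER a_LOC
theorem a_WEQ : St_WEQ := t_WEQ
theorem a_BAS : St_BAS := t_BAS
theorem a_BND : St_BND := t_BND a_LOC a_PER a_WEQ a_BAS
theorem a_MIXR : St_MIXR := t_MIXR a_LOC a_BAS
theorem a_FST : St_FST := t_FST a_BAS
theorem a_EXP : St_EXP := t_EXP a_BAS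
theorem a_VV : St_VV := t_VV a_BAS a_FST
theorem a_TW : St_TW := t_TW a_LOC a_WEQ a_BAS
theorem a_JEN : St_JEN := t_JEN a_LOC a_WEQ a_BAS a_FST a_EXP
theorem a_SC : St_SC := t_SC a_LOC a_WEQ a_BAS a_TW a_VV
theorem a_SEC : St_SEC := t_SEC a_LOC a_BAS a_BND a_VV a_SC
theorem a_COV : St_COV := t_COV a_BAS a_VV a_SC
theorem a_VARS : St_VARS := t_VARS a_BAS a_VV a_SEC a_COV
theorem a_XA : St_XA := t_XA a_LOC a_BAS a_TW a_VV
theorem a_XB : St_XB := t_XB a_LOC a_BAS a_TW a_VV a_SC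
theorem a_XC : St_XC := t_XC a_LOC a_BAS a_TW a_VV a_SC
theorem a_XD : St_XD := t_XD a_LOC a_BAS a_TW a_VV a_SC
theorem a_ERR : St_ERR := t_ERR a_BAS a_VV a_XA a_XB a_XC a_XD
theorem a_COMB : St_COMB := t_COMB a_BAS a_FST a_EXP a_VV a_JEN a_COV a_VARS a_ERR
theorem a_INS : St_INS := t_INS a_LOC a_PER a_BAS
theorem a_INC : St_INC := t_INC
theorem a_LATE : St_LATE := t_LATE a_BAS a_FST a_EXP a_INS a_INC
theorem a_RB : St_RB := t_RB a_LOC a_PER a_BAS a_BND a_FST a_EXP a_LATE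
theorem a_TS : St_TS := t_TS a_BAS a_FST a_EXP a_JEN a_COMB a_RB
theorem a_REC : St_REC := t_REC a_BAS a_FST
theorem a_OS : St_OS := t_OS a_FST a_REC
theorem a_IND : St_IND := t_IND a_FST a_REC
theorem a_CON : St_CON := t_CON a_LOC a_BAS a_FST a_TW
theorem a_CRU : St_CRU := t_CRU a_BAS a_FST a_CON
theorem a_NUM : St_NUM := t_NUM
theorem a_POI : St_POI := t_POI a_BAS a_FST a_TS a_OS a_IND a_CRU a_NUM
theorem a_P2 : St_P2 := t_P2 a_BAS a_FST a_MIXR a_POI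

/-- **part (2)**: the Poincare inequality on histories follows from (MIX) -/
theorem part2 : St_MIX0 → Stmt_P := a_P2

end Pool.Agent.QPR
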