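import Pool.Agent.QPR.Chain
import Pool.Agent.QPR.Hist

/-!
# The moves of the chain on histories and the target inequality
-/

set_option autoImplicit false

namespace Pool.Agent.QPR

open Finset

section moves

variable {α : Type}

/-- the three ways to exchange two neighbouring entries (and the trivial one) -/
def ex2 (k : Bool × Bool) (p q : α × Bool) : (α × Bool) × (α × Bool) :=
  match k with
  | (true, true) => (q, p)
  | (true, false) => ((q.1, p.2), (p.1, q.2))
  | (false, true) => ((p.1, q.2), (q.1, p.2))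
  | (false, false) => (p, q)

/-- exchange at the positions `i`, `i + 1` -/
def actN (k : Bool × Bool) : ℕ → List (α × Bool) → List (α × Bool)
  | 0, p :: q :: h => (ex2 k p q).1 :: (ex2 k p q).2 :: h
  | i + 1, p :: h => p :: actN k i h
  | _, h => h

theorem actN_nil (k : Bool × Bool) (i : ℕ) : actN k i ([] : List (α × Bool)) = [] := by
  cases i <;> rfl

theorem actN_zero_single (k : Bool × Bool) (p : α × Bool) : actN k 0 [p] = [p] := rfl

theorem actN_zero (k : Bool × Bool) (p q : α × Bool) (h : List (α × Bool)) :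
    actN k 0 (p :: q :: h) = (ex2 k p q).1 :: (ex2 k p q).2 :: h := rfl

theorem actN_succ (k : Bool × Bool) (i : ℕ) (p : α × Bool) (h : List (α × Bool)) :
    actN k (i + 1) (p :: h) = p :: actN k i h := rfl

theorem ex2_ex2 (k : Bool × Bool) (p q : α × Bool) :
    ex2 k (ex2 k p q).1 (ex2 k p q).2 = (p, q) := by
  obtain ⟨a, b⟩ := k
  cases a <;> cases b <;> rfl

theorem actN_actN (k : Bool × Bool) (i : ℕ) (h : List (α × Bool)) :
    actN k i (actN k i h) = h := by
  induction i generalizing h with
  | zero =>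
    cases h with
    | nil => rfl
    | cons p h =>
      cases h with
      | nil => rfl
      | cons q h =>
        rw [actN_zero, actN_zero, ex2_ex2]
  | succ i ih =>
    cases h with
    | nil => rfl
    | cons p h => rw [actN_succ, actN_succ, ih]

theorem actN_ge (k : Bool × Bool) (i : ℕ) (h : List (α × Bool)) (hi : h.length ≤ i + 1) :
    actN k i h = h := by
  induction i generalizing h with
  | zero =>
    cases h with
    | nil => rfl
    | cons p h =>
      cases h with
      | nil => rfl
      | cons q h =>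
        simp only [List.length_cons] at hi
        omega
  | succ i ih =>
    cases h with
    | nil => rfl
    | cons p h =>
      rw [actN_succ, ih]
      simp only [List.length_cons] at hi
      omega

theorem actN_trivial (i : ℕ) (h : List (α × Bool)) : actN (false, false) i h = h := by
  induction i generalizing h with
  | zero =>
    cases h with
    | nil => rfl
    | cons p h =>
      cases h with
      | nil => rfl
      | cons q h => rfl
  | succ i ih =>
    cases h with
    | nil => rfl
    | cons p h => rw [actN_succ, ih]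

theorem ex2_perm (k : Bool × Bool) (p q : α × Bool) (h : List (α × Bool)) :
    (((ex2 k p q).1 :: (ex2 k p q).2 :: h).map Prod.fst).Perm ((p :: q :: h).map Prod.fst) := by
  obtain ⟨a, b⟩ := k
  simp only [List.map_cons]
  cases a <;> cases b
  · exact List.Perm.refl _
  · exact List.Perm.refl _
  · exact List.Perm.swap _ _ _
  · exact List.Perm.swap _ _ _

theorem actN_perm (k : Bool × Bool) (i : ℕ) (h : List (α × Bool)) :
    ((actN k i h).map Prod.fst).Perm (h.map Prod.fst) := by
  induction i generalizing h with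
  | zero =>
    cases h with
    | nil => exact List.Perm.refl _
    | cons p h =>
      cases h with
      | nil => exact List.Perm.refl _
      | cons q h => exact ex2_perm k p q h
  | succ i ih =>
    cases h with
    | nil => exact List.Perm.refl _
    | cons p h =>
      rw [actN_succ, List.map_cons, List.map_cons]
      exact (ih h).cons _

end moves

variable {α : Type} [DecidableEq α]

theorem actN_mem {k : Bool × Bool} {i : ℕ} {R : Finset α} {h : List (α × Bool)}
    (hh : h ∈ Hist R) : actN k i h ∈ Hist R := by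
  obtain ⟨h1, h2⟩ := mem_Hist.1 hh
  have hp := actN_perm k i h
  refine mem_Hist.2 ⟨hp.nodup_iff.2 h1, ?_⟩
  rw [← h2]
  unfold els
  ext a
  simp only [List.mem_toFinset]
  exact hp.mem_iff

/-- the chain on the histories of `R` over `C` -/
noncomputable def chn (r : Finset α → ℕ) {x y z : ℝ} (hx : 0 ≤ x) (hy : 0 ≤ y) (hz : 0 ≤ z)
    (C R : Finset α) (l : ℕ) : MChain (List (α × Bool)) ((Bool × Bool) × Fin (2 ^ l)) where
  Ω := Hist R
  w := hw r x y z C
  act := fun g h => actN g.1 g.2 h
  inv := fun g => g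
  w_nonneg := fun s => hw_nonneg hx hy hz s C
  act_mem := fun _ _ hs => actN_mem hs
  inv_inv := fun _ => rfl
  act_inv := fun g s _ => actN_actN g.1 g.2 s

/-- the energy of the three kinds of exchanges of neighbours -/
noncomputable def E3 (r : Finset α → ℕ) (x y : ℝ) (C R : Finset α) (f : List (α × Bool) → ℝ) : ℝ :=
  ∑ k : Bool × Bool, ∑ i ∈ range (R.card - 1), ∑ h ∈ Hist R,
    min (hw r x y 1 C h) (hw r x y 1 C (actN k i h)) * (f h - f (actN k i h)) ^ 2

/-- **the target of part (2)**: the Poincare inequality on histories. For all `0 < x, y < 1` there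
is a constant `c` such that for all rank functions and all disjoint `C`, `R`, the variance is at
most `2 ^ (c (log₂ |R| + 1)²)` times the energy -/
def Stmt_P : Prop := ∀ x y : ℝ, 0 < x → x < 1 → 0 < y → y < 1 → ∃ c : ℕ,
  ∀ (α : Type) [DecidableEq α] (r : Finset α → ℕ), IsRank r → ∀ C R : Finset α, Disjoint C R →
    ∀ f : List (α × Bool) → ℝ,
      ∑ s ∈ Hist R, ∑ s' ∈ Hist R, hw r x y 1 C s * hw r x y 1 C s' * (f s - f s') ^ 2 ≤
        2 ^ (c * (Nat.log 2 R.card + 1) ^ 2) * (∑ s ∈ Hist R, hw r x y 1 C s) * E3 r x y C R f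

theorem E3_le_En (r : Finset α → ℕ) {x y : ℝ} (hx : 0 ≤ x) (hy : 0 ≤ y) (C R : Finset α) (l : ℕ)
    (hl : R.card ≤ 2 ^ l) (f : List (α × Bool) → ℝ) :
    E3 r x y C R f ≤ (4 * 2 ^ l) * (chn r hx hy zero_le_one C R l).En f := by
  have hF : ∀ (k : Bool × Bool) (i : ℕ), 0 ≤ ∑ h ∈ Hist R,
      min (hw r x y 1 C h) (hw r x y 1 C (actN k i h)) * (f h - f (actN k i h)) ^ 2 := by
    intro k i
    apply Finset.sum_nonneg
    intro h _
    exact mul_nonneg (le_min (hw_nonneg hx hy zero_le_one _ _) (hw_nonneg hx hy zero_le_one _ _))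
      (sq_nonneg _)
  have hcard : (Fintype.card ((Bool × Bool) × Fin (2 ^ l)) : ℝ) = 4 * 2 ^ l := by
    rw [Fintype.card_prod, Fintype.card_prod, Fintype.card_bool, Fintype.card_fin]
    push_cast
    ring
  unfold MChain.En
  rw [hcard, ← mul_assoc, mul_one_div_cancel (by positivity), one_mul]
  unfold E3
  rw [Fintype.sum_prod_type (fun g : (Bool × Bool) × Fin (2 ^ l) =>
    ∑ s ∈ (chn r hx hy zero_le_one C R l).Ω, (chn r hx hy zero_le_one C R l).m g s *
      (f s - f ((chn r hx hy zero_le_one C R l).act g s)) ^ 2)]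
  apply Finset.sum_le_sum
  intro k _
  have h1 : ∑ i ∈ range (R.card - 1), ∑ h ∈ Hist R,
      min (hw r x y 1 C h) (hw r x y 1 C (actN k i h)) * (f h - f (actN k i h)) ^ 2 ≤
      ∑ i ∈ range (2 ^ l), ∑ h ∈ Hist R,
      min (hw r x y 1 C h) (hw r x y 1 C (actN k i h)) * (f h - f (actN k i h)) ^ 2 := by
    apply Finset.sum_le_sum_of_subset_of_nonneg
    · intro i hi
      rw [Finset.mem_range] at hi ⊢
      omega
    · intro i _ _
      exact hF k i
  refine h1.trans (le_of_eq ?_)
  rw [← Fin.sum_univ_eq_sum_range (fun i => ∑ h ∈ Hist R,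
      min (hw r x y 1 C h) (hw r x y 1 C (actN k i h)) * (f h - f (actN k i h)) ^ 2)]
  rfl

theorem poinc_of_stmt (hP : Stmt_P) {x y : ℝ} (hx : 0 < x) (hx1 : x < 1) (hy : 0 < y)
    (hy1 : y < 1) : ∃ c : ℕ, ∀ (α : Type) [DecidableEq α] (r : Finset α → ℕ), IsRank r →
      ∀ C R : Finset α, Disjoint C R → ∀ l : ℕ, R.card ≤ 2 ^ l →
        (chn r hx.le hy.le zero_le_one C R l).Poinc
          (2 ^ (c * (Nat.log 2 R.card + 1) ^ 2) * 2 * 2 ^ l) := by
  obtain ⟨c, hc⟩ := hP x y hx hx1 hy hy1
  refine ⟨c, fun α _ r hr C R hCR l hl f => ?_⟩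
  have h1 := hc α r hr C R hCR f
  have h2 := E3_le_En r hx.le hy.le C R l hl f
  refine h1.trans ?_
  have h3 : 0 ≤ 2 ^ (c * (Nat.log 2 R.card + 1) ^ 2) * ∑ s ∈ Hist R, hw r x y 1 C s :=
    mul_nonneg (by positivity) (Finset.sum_nonneg fun s _ => hw_nonneg hx.le hy.le zero_le_one _ _)
  refine (mul_le_mul_of_nonneg_left h2 h3).trans (le_of_eq ?_)
  change _ = 2 * (2 ^ (c * (Nat.log 2 R.card + 1) ^ 2) * 2 * 2 ^ l) *
    (∑ s ∈ Hist R, hw r x y 1 C s) * _
  ring

end Pool.Agent.QPR
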