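import Pool.Agent.QPR.Nm

/-!
# Assembly of the numbers, part A: relations and sums (helper97)
-/

set_option autoImplicit false

open Finset

namespace Pool.Agent.QPR

variable {α : Type} [Fintype α] [DecidableEq α] {r : Finset α → ℕ} {al be : ℝ}

/-- `x` -/
noncomputable def xx (al be : ℝ) : ℝ := (1 - al - be) / (1 - al)

/-- `y` -/
noncomputable def yy (al be : ℝ) : ℝ := (1 - al - be) / (1 - be)

section cx
variable {hs : Sep r al be}

theorem sta_of_face {ρ : Finset (Pt α)} (h : (cx r al be hs).F ρ) {v : Pt α} (hv : v ∈ ρ) :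
    Sta r v := h.1.1 v hv

/-- the divisor depends only on the values at the states -/
theorem dv_congr {W : Finset (Pt α) → ℝ} (hW : Wt (cx r al be hs) W) {f g : Pt α → ℝ}
    (h : ∀ v, Sta r v → f v = g v) : dv (cx r al be hs) f W = dv (cx r al be hs) g W := by
  funext ρ
  by_cases hF : (cx r al be hs).F ρ
  · rw [dv_eq hW hF (lin_mem _ ρ g) (fun u hu => by
      rw [lin_eq hF g hu, h u (sta_of_face hF hu)])]
    unfold dv
    refine sum_congr rfl fun v _ => ?_
    by_cases hFv : (cx r al be hs).F (insert v ρ)
    · rw [h v (sta_of_face hFv (mem_insert_self _ _))]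
    · rw [hW.supp _ hFv, zero_mul, zero_mul]
  · rw [dv_supp hW _ hF, dv_supp hW _ hF]

/-- the divisor at the empty face -/
theorem dv_empty {W : Finset (Pt α) → ℝ} (hW : Wt (cx r al be hs) W) (f : Pt α → ℝ) :
    dv (cx r al be hs) f W ∅ = ∑ v, W {v} * f v := by
  rw [dv_vanish hW (cx r al be hs).empty (fun u hu => absurd hu (notMem_empty u)),
    compl_empty]
  rfl

/-- a flat contains the closure of its elements -/
theorem cl_sub (hr : IsRank r) {s : Pt α} (hs : Ex0 r s) {e : α} (he : e ∈ s.F) :
    cl r {e} ⊆ s.F := by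
  intro f hf
  rw [mem_cl] at hf
  by_contra h
  have h1 := hs.flat f h
  have h2 := hr.closure hf (singleton_subset_iff.2 he)
  omega

/-- a cyclic set without `e` is contained in the union of the circuits without `e` -/
theorem sub_cyc (hr : IsRank r) {s : Pt α} (hs : Ex0 r s) {e : α} (he : e ∉ s.G) :
    s.G ⊆ cyc r (univ.erase e) := by
  intro f hf
  have hfe : f ≠ e := by
    rintro rfl
    exact he hf
  rw [mem_cyc]
  have h1 : f ∈ univ.erase e := mem_erase.2 ⟨hfe, mem_univ _⟩
  refine ⟨h1, ?_⟩
  have h2 := hs.cyc f hf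
  have h3 : r (insert f (s.G.erase f)) = r (s.G.erase f) := by
    rw [insert_erase hf, h2]
  have h4 := hr.closure h3 (B := (univ.erase e).erase f) (by
    intro a ha
    rw [mem_erase] at ha ⊢
    refine ⟨ha.1, mem_erase.2 ⟨?_, mem_univ _⟩⟩
    rintro rfl
    exact he ha.2)
  rw [insert_erase h1] at h4
  exact h4.symm

theorem kc_le (hr : IsRank r) {s : Pt α} (hs : Sta r s) (hS : s.S = false) {e : α}
    (he : e ∈ s.F) (hne : s ≠ kc r e) : kc r e < s := by
  refine lt_of_le_of_ne ?_ (fun h => hne h.symm)
  rw [Pt.le_iff]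
  refine ⟨cl_sub hr hs.ex he, empty_subset _, ?_, ?_⟩
  · intro h
    exact absurd h (by simp [kc])
  · intro h
    exact absurd h (by simp [kc])

theorem le_kd (hr : IsRank r) {s : Pt α} (hs : Sta r s) (hT : s.T = true) {e : α}
    (he : e ∉ s.G) (hne : s ≠ kd r e) : s < kd r e := by
  refine lt_of_le_of_ne ?_ hne
  rw [Pt.le_iff]
  exact ⟨subset_univ _, sub_cyc hr hs.ex he, fun _ => rfl, fun _ => rfl⟩

/-- the sum over the left states which contain `e` -/
theorem sumC (hr : IsRank r) {W : Finset (Pt α) → ℝ} (hW : Wt (cx r al be hs) W) {e : α}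
    (h0 : ∀ s, Sta r s → s.S = false → kc r e < s → W {s} = 0) :
    dv (cx r al be hs) (cc e) W ∅ = W {kc r e} := by
  rw [dv_empty hW, sum_eq_single (kc r e)]
  · unfold cc
    rw [if_pos, mul_one]
    refine ⟨rfl, ?_⟩
    change e ∈ cl r {e}
    rw [mem_cl]
    simp
  · intro s _ hne
    by_cases hs' : (cx r al be hs).F {s}
    · have hst := sta_of_face hs' (mem_singleton_self s)
      unfold cc
      split_ifs with hc
      · rw [h0 s hst hc.1 (kc_le hr hst hc.1 hc.2 hne), zero_mul]
      · rw [mul_zero]
    · rw [hW.supp _ hs', zero_mul]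
  · intro h
    exact absurd (mem_univ _) h

/-- the sum over the right states which do not contain `e` -/
theorem sumD (hr : IsRank r) {W : Finset (Pt α) → ℝ} (hW : Wt (cx r al be hs) W) {e : α}
    (h0 : ∀ s, Sta r s → s.T = true → s < kd r e → W {s} = 0) :
    dv (cx r al be hs) (dd e) W ∅ = W {kd r e} := by
  rw [dv_empty hW, sum_eq_single (kd r e)]
  · unfold dd
    rw [if_pos, mul_one]
    refine ⟨rfl, ?_⟩
    change e ∉ cyc r (univ.erase e)
    rw [mem_cyc]
    rintro ⟨h, _⟩
    exact notMem_erase e _ h
  · intro s _ hne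
    by_cases hs' : (cx r al be hs).F {s}
    · have hst := sta_of_face hs' (mem_singleton_self s)
      unfold dd
      split_ifs with hc
      · rw [h0 s hst hc.1 (le_kd hr hst hc.1 hc.2 hne), zero_mul]
      · rw [mul_zero]
    · rw [hW.supp _ hs', zero_mul]
  · intro h
    exact absurd (mem_univ _) h

/-- the sum over the middle states at which `e` is open -/
theorem sumO {W : Finset (Pt α) → ℝ} (hW : Wt (cx r al be hs) W) {e : α}
    (h0 : ∀ s, Sta r s → s.S = true → s.T = false → s.F ≠ s.G → W {s} = 0) :
    dv (cx r al be hs) (oo e) W ∅ = 0 := by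
  rw [dv_empty hW]
  refine sum_eq_zero fun s _ => ?_
  by_cases hs' : (cx r al be hs).F {s}
  · have hst := sta_of_face hs' (mem_singleton_self s)
    unfold oo
    split_ifs with hc
    · rw [h0 s hst hc.1 hc.2.1 (fun h => hc.2.2.2 (h ▸ hc.2.2.1)), zero_mul]
    · rw [mul_zero]
  · rw [hW.supp _ hs', zero_mul]

theorem vv_mem {e : α} (he : ¬ Loo r e) : vv al e ∈ (cx r al be hs).L :=
  Submodule.subset_span (Or.inl ⟨e, he, rfl⟩)

theorem zz_mem {e : α} (he : ¬ Clo r e) : zz be e ∈ (cx r al be hs).L :=
  Submodule.subset_span (Or.inr ⟨e, he, rfl⟩)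

end cx

section rel

theorem xi_pos (hw : Win al be) : 0 < 1 - al - be := by linarith [hw.ab]

/-- generic element -/
theorem rel_gen {e : α} {s : Pt α} (h : Ex0 r s) :
    Xi al be s = (cc e s + dd e s + oo e s) + (vv al e s + zz be e s) := by
  obtain ⟨F, G, S, T⟩ := s
  unfold Xi cc dd oo vv zz
  have h1 := h.GF
  have h2 := h.GS
  have h3 := h.TS
  have h4 := h.TF
  simp only at h1 h2 h3 h4 ⊢
  cases S
  · have hG : G = ∅ := by
      by_contra hne
      exact absurd (h2 (nonempty_iff_ne_empty.2 hne)) (by simp)
    have hT : T = false := by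
      cases T
      · rfl
      · exact absurd (h3 rfl) (by simp)
    subst hG
    subst hT
    by_cases heF : e ∈ F <;> simp [heF]
  · cases T
    · by_cases heG : e ∈ G
      · have heF := h1 heG
        simp [heF, heG]
        ring
      · by_cases heF : e ∈ F <;> simp [heF, heG] <;> ring
    · have hF := h4 rfl
      subst hF
      by_cases heG : e ∈ G <;> simp [heG] <;> ring

/-- loops -/
theorem rel_loop (hw : Win al be) {e : α} {s : Pt α} (h : Ex0 r s) (he : Loo r e)
    (hr : IsRank r) :
    Xi al be s = yy al be * (dd e s + oo e s) + yy al be * zz be e s := by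
  have heF : e ∈ s.F := by
    by_contra hne
    have h1 := h.flat e hne
    have h2 : r (insert e ∅) = r ∅ := by
      rw [hr.empty]
      exact he
    have h3 := hr.closure h2 (empty_subset s.F)
    omega
  have hb : 1 - be ≠ 0 := by
    have := hw.ab
    have := hw.a0
    intro h
    linarith
  obtain ⟨F, G, S, T⟩ := s
  unfold Xi dd oo zz yy
  have h1 := h.GF
  have h2 := h.GS
  have h3 := h.TS
  have h4 := h.TF
  simp only at h1 h2 h3 h4 heF ⊢
  cases S
  · have hG : G = ∅ := by
      by_contra hne
      exact absurd (h2 (nonempty_iff_ne_empty.2 hne)) (by simp)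
    have hT : T = false := by
      cases T
      · rfl
      · exact absurd (h3 rfl) (by simp)
    subst hG
    subst hT
    simp
  · cases T
    · by_cases heG : e ∈ G
      · simp [heF, heG]
        field_simp
      · simp [heF, heG]
        field_simp
        ring
    · by_cases heG : e ∈ G
      · simp [heG]
      · simp [heG]
        ring

/-- coloops -/
theorem rel_coloop (hw : Win al be) {e : α} {s : Pt α} (h : Ex0 r s) (he : Clo r e)
    (hr : IsRank r) :
    Xi al be s = xx al be * (cc e s + oo e s) + xx al be * vv al e s := by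
  have heG : e ∉ s.G := by
    intro hmem
    have h1 := h.cyc e hmem
    have h2 : r (insert e (s.G.erase e)) = r (s.G.erase e) := by
      rw [insert_erase hmem, h1]
    have h3 := hr.closure h2 (B := univ.erase e) (erase_subset_erase e (subset_univ _))
    rw [insert_erase (mem_univ e)] at h3
    exact he h3.symm
  have hb : 1 - al ≠ 0 := by
    have := hw.ab
    have := hw.b0
    intro h
    linarith
  obtain ⟨F, G, S, T⟩ := s
  unfold Xi cc oo vv xx
  have h1 := h.GF
  have h2 := h.GS
  have h3 := h.TS
  have h4 := h.TF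
  simp only at h1 h2 h3 h4 heG ⊢
  cases S
  · have hT : T = false := by
      cases T
      · rfl
      · exact absurd (h3 rfl) (by simp)
    subst hT
    by_cases heF : e ∈ F <;> simp [heF]
  · cases T
    · by_cases heF : e ∈ F
      · simp [heF, heG]
        field_simp
        ring
      · simp [heF]
        field_simp
    · have hF := h4 rfl
      subst hF
      simp
      right
      ring

end rel

section star
variable {hs : Sep r al be}

/-- on the star of a left state which contains `f` the class `c_f` is `-(al/xi) Xi` -/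
theorem starC (hw : Win al be) {W : Finset (Pt α) → ℝ}
    (hW : Wt (cx r al be hs) W) {s : Pt α} (hst : Sta r s) (hS : s.S = false) {f : α}
    (hf : f ∈ s.F) (hf' : ¬ Loo r f) :
    dv (cx r al be hs) (cc f) W {s} =
      -(al / (1 - al - be)) * dv (cx r al be hs) (Xi al be) W {s} := by
  have hxi := (xi_pos hw).ne'
  have hT : s.T = false := by
    cases h : s.T
    · rfl
    · exact absurd (hst.ex.TS h) (by simp [hS])
  by_cases hF : (cx r al be hs).F {s}
  · rw [show (-(al / (1 - al - be)) : ℝ) * dv (cx r al be hs) (Xi al be) W {s} =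
      ((-(al / (1 - al - be)) : ℝ) • dv (cx r al be hs) (Xi al be) W) {s} from rfl,
      ← dv_smul hW]
    rw [dv_eq hW hF (f := cc f) (l := -vv al f) ((cx r al be hs).L.neg_mem (vv_mem hf')) (by
      intro u hu
      rw [mem_singleton.1 hu, Pi.neg_apply]
      unfold vv cc
      simp [hf, hS, hT]), dv_vanish hW hF (f := (-(al / (1 - al - be)) : ℝ) • Xi al be) (by
      intro u hu
      rw [mem_singleton.1 hu, Pi.smul_apply]
      unfold Xi
      simp [hS])]
    refine sum_congr rfl fun v _ => ?_
    by_cases hFv : (cx r al be hs).F (insert v {s})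
    · congr 1
      have hv := sta_of_face hFv (mem_insert_self v {s})
      have hcomp := hFv.1.2 v (mem_insert_self v {s}) s (mem_insert_of_mem (mem_singleton_self s))
      rw [Pi.neg_apply, Pi.smul_apply, smul_eq_mul]
      obtain ⟨F, G, S, T⟩ := v
      have h3 := hv.ex.TS
      have h4 := hv.ex.TF
      unfold cc vv Xi
      simp only at h3 h4 ⊢
      cases S
      · have hT' : T = false := by
          cases T
          · rfl
          · exact absurd (h3 rfl) (by simp)
        subst hT'
        by_cases hfF : f ∈ F <;> simp [hfF]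
      · have hfF : f ∈ F := by
          rcases hcomp with h | h
          · have := (Pt.le_iff.1 h).2.2.1 rfl
            rw [hS] at this
            cases this
          · exact (Pt.le_iff.1 h).1 hf
        cases T
        · simp [hfF]
          field_simp
        · simp [hfF]
    · rw [hW.supp _ hFv, zero_mul, zero_mul]
  · rw [dv_supp hW _ hF, dv_supp hW _ hF, mul_zero]

/-- on the star of a right state which does not contain `f` the class `d_f` is `-(be/xi) Xi` -/
theorem starD (hw : Win al be) {W : Finset (Pt α) → ℝ}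
    (hW : Wt (cx r al be hs) W) {s : Pt α} (hst : Sta r s) (hT : s.T = true) {f : α}
    (hf : f ∉ s.G) (hf' : ¬ Clo r f) :
    dv (cx r al be hs) (dd f) W {s} =
      -(be / (1 - al - be)) * dv (cx r al be hs) (Xi al be) W {s} := by
  have hxi := (xi_pos hw).ne'
  have hS : s.S = true := hst.ex.TS hT
  by_cases hF : (cx r al be hs).F {s}
  · rw [show (-(be / (1 - al - be)) : ℝ) * dv (cx r al be hs) (Xi al be) W {s} =
      ((-(be / (1 - al - be)) : ℝ) • dv (cx r al be hs) (Xi al be) W) {s} from rfl,
      ← dv_smul hW]
    rw [dv_eq hW hF (f := dd f) (l := -zz be f) ((cx r al be hs).L.neg_mem (zz_mem hf')) (by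
      intro u hu
      rw [mem_singleton.1 hu, Pi.neg_apply]
      unfold zz dd
      simp [hf, hS, hT]), dv_vanish hW hF (f := (-(be / (1 - al - be)) : ℝ) • Xi al be) (by
      intro u hu
      rw [mem_singleton.1 hu, Pi.smul_apply]
      unfold Xi
      simp [hT])]
    refine sum_congr rfl fun v _ => ?_
    by_cases hFv : (cx r al be hs).F (insert v {s})
    · congr 1
      have hv := sta_of_face hFv (mem_insert_self v {s})
      have hcomp := hFv.1.2 v (mem_insert_self v {s}) s (mem_insert_of_mem (mem_singleton_self s))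
      rw [Pi.neg_apply, Pi.smul_apply, smul_eq_mul]
      obtain ⟨F, G, S, T⟩ := v
      have h2 := hv.ex.GS
      have h3 := hv.ex.TS
      unfold dd zz Xi
      simp only at h2 h3 ⊢
      cases T
      · have hfG : f ∉ G := by
          rcases hcomp with h | h
          · intro h5
            exact hf ((Pt.le_iff.1 h).2.1 h5)
          · have := (Pt.le_iff.1 h).2.2.2 hT
            cases this
        cases S
        · simp [hfG]
        · simp [hfG]
          field_simp
      · have hS' : S = true := h3 rfl
        subst hS'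
        by_cases hfG : f ∈ G <;> simp [hfG]
    · rw [hW.supp _ hFv, zero_mul, zero_mul]
  · rw [dv_supp hW _ hF, dv_supp hW _ hF, mul_zero]

end star

end Pool.Agent.QPR
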