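import Pool.Agent.QPR.NA

/-!
# Assembly of the numbers, part B: push-forward of the top weight, first numbers (helper97)
-/

set_option autoImplicit false

open Finset

namespace Pool.Agent.QPR

/-- all block statements which are needed for the numbers -/
structure Facts : Prop where
  SEP : Stmt_SEP
  TOP : Stmt_TOP
  MIN : Stmt_MIN
  VL : Stmt_VL
  VR : Stmt_VR
  VM : Stmt_VM
  PCP : Stmt_PCP
  PCU : Stmt_PCU
  PCE : Stmt_PCE
  PCK : Stmt_PCK
  PDP : Stmt_PDP
  PDU : Stmt_PDU
  PDE : Stmt_PDE
  PDK : Stmt_PDK
  COM : Stmt_COM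

variable {α : Type} [Fintype α] [DecidableEq α] {r : Finset α → ℕ} {al be : ℝ}

theorem card_Del (e : α) : Fintype.card (Del e) + 1 = Fintype.card α := by
  have h1 : (up (univ : Finset (Del e))).card = Fintype.card (Del e) := card_up _
  rw [← h1, up_univ, card_erase_add_one (mem_univ e)]
  rfl

/-- push-forward of the top weight, contraction -/
theorem pushC (H : Facts) (hr : IsRank r) (hw : Win al be) (hs : Sep r al be) {e : α}
    (he : ¬ Loo r e) :
    push (pj e (rc r e)) (kc r e) (tw r al be) = tw (rc r e) al be := by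
  classical
  have hr' := (H.MIN α r hr e).1
  have hs' := H.SEP (Del e) (rc r e) al be hr' hw
  have hT := H.TOP α r al be hs hr hw
  have hP := H.PCP α r al be e hs hs' hr hw he
  have hcard := card_Del e
  have key : ∀ ρ ρ', Lf (pj e (rc r e)) (kc r e) ρ ρ' → tw r al be (insert (kc r e) ρ) ≠ 0 →
      ρ = ρ'.image (lamc r e) ∧ Fc (rc r e) ρ' ∧ ρ'.card = Fintype.card (Del e) := by
    intro ρ ρ' hL h0
    have h1 : Fc r (insert (kc r e) ρ) ∧ (insert (kc r e) ρ).card = Fintype.card α := by
      by_contra hne
      apply h0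
      unfold tw
      rw [if_neg hne]
    rw [card_insert_of_notMem hL.1] at h1
    refine ⟨H.PCU α r al be e hs hr hw hT he ρ ρ' hL h1.1 h1.2, ?_, ?_⟩
    · have h2 := hP.face ρ hL.1 h1.1 (fun u hu h => by
        obtain ⟨v', h3, _⟩ := hL.ex hu
        rw [h] at h3
        cases h3)
      rw [hL.2.1] at h2
      exact h2
    · have := hL.2.2
      omega
  funext ρ'
  unfold push
  by_cases h : Fc (rc r e) ρ' ∧ ρ'.card = Fintype.card (Del e)
  · obtain ⟨hL, hF⟩ := H.PCE α r e hr he ρ' h.1
    obtain ⟨hk1, hk2⟩ := H.PCK α r al be e hr he ρ' h.1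
    rw [sum_eq_single (ρ'.image (lamc r e))]
    · unfold tw
      rw [if_pos h, if_pos, hk1, hk2]
      refine ⟨hF, ?_⟩
      rw [card_insert_of_notMem hL.1, hL.2.2]
      omega
    · intro ρ hρ hne
      rw [mem_filter] at hρ
      by_contra h0
      exact hne (key ρ ρ' hρ.2 h0).1
    · intro h0
      refine absurd ?_ h0
      rw [mem_filter]
      exact ⟨mem_univ _, hL⟩
  · have h1 : tw (rc r e) al be ρ' = 0 := by
      unfold tw
      rw [if_neg h]
    rw [h1]
    refine sum_eq_zero fun ρ hρ => ?_
    rw [mem_filter] at hρ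
    by_contra h0
    exact h (key ρ ρ' hρ.2 h0).2

/-- push-forward of the top weight, deletion -/
theorem pushD (H : Facts) (hr : IsRank r) (hw : Win al be) (hs : Sep r al be) {e : α}
    (he : ¬ Clo r e) :
    push (pj e (rd r e)) (kd r e) (tw r al be) = tw (rd r e) al be := by
  classical
  have hr' := (H.MIN α r hr e).2.1
  have hs' := H.SEP (Del e) (rd r e) al be hr' hw
  have hT := H.TOP α r al be hs hr hw
  have hP := H.PDP α r al be e hs hs' hr hw he
  have hcard := card_Del e
  have key : ∀ ρ ρ', Lf (pj e (rd r e)) (kd r e) ρ ρ' → tw r al be (insert (kd r e) ρ) ≠ 0 →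
      ρ = ρ'.image (lamd r e) ∧ Fc (rd r e) ρ' ∧ ρ'.card = Fintype.card (Del e) := by
    intro ρ ρ' hL h0
    have h1 : Fc r (insert (kd r e) ρ) ∧ (insert (kd r e) ρ).card = Fintype.card α := by
      by_contra hne
      apply h0
      unfold tw
      rw [if_neg hne]
    rw [card_insert_of_notMem hL.1] at h1
    refine ⟨H.PDU α r al be e hs hr hw hT he ρ ρ' hL h1.1 h1.2, ?_, ?_⟩
    · have h2 := hP.face ρ hL.1 h1.1 (fun u hu h => by
        obtain ⟨v', h3, _⟩ := hL.ex hu
        rw [h] at h3
        cases h3)
      rw [hL.2.1] at h2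
      exact h2
    · have := hL.2.2
      omega
  funext ρ'
  unfold push
  by_cases h : Fc (rd r e) ρ' ∧ ρ'.card = Fintype.card (Del e)
  · obtain ⟨hL, hF⟩ := H.PDE α r e hr he ρ' h.1
    obtain ⟨hk1, hk2⟩ := H.PDK α r al be e hr he ρ' h.1
    rw [sum_eq_single (ρ'.image (lamd r e))]
    · unfold tw
      rw [if_pos h, if_pos, hk1, hk2]
      refine ⟨hF, ?_⟩
      rw [card_insert_of_notMem hL.1, hL.2.2]
      omega
    · intro ρ hρ hne
      rw [mem_filter] at hρ
      by_contra h0
      exact hne (key ρ ρ' hρ.2 h0).1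
    · intro h0
      refine absurd ?_ h0
      rw [mem_filter]
      exact ⟨mem_univ _, hL⟩
  · have h1 : tw (rd r e) al be ρ' = 0 := by
      unfold tw
      rw [if_neg h]
    rw [h1]
    refine sum_eq_zero fun ρ hρ => ?_
    rw [mem_filter] at hρ
    by_contra h0
    exact h (key ρ ρ' hρ.2 h0).2

/-- numbers in the star of `kc` -/
theorem numC (H : Facts) (hr : IsRank r) (hw : Win al be) (hs : Sep r al be) {e : α}
    (he : ¬ Loo r e) (hs' : Sep (rc r e) al be) {A : List (Pt α → ℝ)}
    {B : List (Pt (Del e) → ℝ)}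
    (hAB : List.Forall₂ (Comp (cx r al be hs) (pj e (rc r e)) (kc r e)) A B) :
    it (cx r al be hs) A (tw r al be) {kc r e} =
      it (cx (rc r e) al be hs') B (tw (rc r e) al be) ∅ :=
  push_num (H.PCP α r al be e hs hs' hr hw he) (H.TOP α r al be hs hr hw).wt
    (pushC H hr hw hs he) hAB

/-- numbers in the star of `kd` -/
theorem numD (H : Facts) (hr : IsRank r) (hw : Win al be) (hs : Sep r al be) {e : α}
    (he : ¬ Clo r e) (hs' : Sep (rd r e) al be) {A : List (Pt α → ℝ)}
    {B : List (Pt (Del e) → ℝ)}
    (hAB : List.Forall₂ (Comp (cx r al be hs) (pj e (rd r e)) (kd r e)) A B) :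
    it (cx r al be hs) A (tw r al be) {kd r e} =
      it (cx (rd r e) al be hs') B (tw (rd r e) al be) ∅ :=
  push_num (H.PDP α r al be e hs hs' hr hw he) (H.TOP α r al be hs hr hw).wt
    (pushD H hr hw hs he) hAB

theorem forall₂_replicate {β γ : Type} {R : β → γ → Prop} {a : β} {b : γ} (h : R a b) (n : ℕ) :
    List.Forall₂ R (List.replicate n a) (List.replicate n b) := by
  induction n with
  | zero => exact List.Forall₂.nil
  | succ n ih => exact List.Forall₂.cons h ih

theorem mem_rep {β : Type} {a b : β} {n : ℕ} (h : a ∈ List.replicate n b) : a = b :=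
  List.eq_of_mem_replicate h

/-- a loop is not a coloop -/
theorem not_clo_of_loo (hr : IsRank r) {e : α} (he : Loo r e) : ¬ Clo r e := by
  intro h
  apply h
  have h2 : r (insert e ∅) = r ∅ := by
    rw [hr.empty]
    exact he
  have h3 := hr.closure h2 (empty_subset (univ.erase e))
  rw [insert_erase (mem_univ e)] at h3
  exact h3.symm

theorem fc_empty (r : Finset α → ℕ) : Fc r ∅ :=
  ⟨⟨by simp, by simp⟩, Or.inl rfl⟩

theorem sta_kc (H : Facts) (hr : IsRank r) {e : α} (he : ¬ Loo r e) : Sta r (kc r e) :=
  (H.PCE α r e hr he ∅ (fc_empty _)).2.1.1 _ (mem_insert_self _ _)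

theorem sta_kd (H : Facts) (hr : IsRank r) {e : α} (he : ¬ Clo r e) : Sta r (kd r e) :=
  (H.PDE α r e hr he ∅ (fc_empty _)).2.1.1 _ (mem_insert_self _ _)

/-- only the vertex `kc` contributes to `c_e` (list of `Xi`, `dd` and of `cc` which are not in the
left states) -/
theorem leftC (H : Facts) (hr : IsRank r) (hw : Win al be) (hs : Sep r al be) {e : α}
    (he : ¬ Loo r e) {A : List (Pt α → ℝ)} (hA : A.length + 1 = Fintype.card α)
    (h0 : ∀ s, Sta r s → s.S = false → kc r e < s →
      ∀ f ∈ A, f = Xi al be ∨ (∃ e, e ∉ s.F ∧ f = cc e) ∨ ∃ e, f = dd e) :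
    dv (cx r al be hs) (cc e) (it (cx r al be hs) A (tw r al be)) ∅ =
      it (cx r al be hs) A (tw r al be) {kc r e} := by
  have hT := H.TOP α r al be hs hr hw
  refine sumC hr (it_wt hT.wt _) ?_
  intro s hst hS hlt
  exact H.VL α r al be hs hr hw hT s (kc r e) hst (sta_kc H hr he) hlt hS _
    (h0 s hst hS hlt) hA

/-- only the vertex `kd` contributes to `d_e` -/
theorem rightD (H : Facts) (hr : IsRank r) (hw : Win al be) (hs : Sep r al be) {e : α}
    (he : ¬ Clo r e) {A : List (Pt α → ℝ)} (hA : A.length + 1 = Fintype.card α)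
    (h0 : ∀ s, Sta r s → s.T = true → s < kd r e →
      ∀ f ∈ A, f = Xi al be ∨ (∃ e, e ∈ s.G ∧ f = dd e) ∨ ∃ e, f = cc e) :
    dv (cx r al be hs) (dd e) (it (cx r al be hs) A (tw r al be)) ∅ =
      it (cx r al be hs) A (tw r al be) {kd r e} := by
  have hT := H.TOP α r al be hs hr hw
  refine sumD hr (it_wt hT.wt _) ?_
  intro s hst hS hlt
  exact H.VR α r al be hs hr hw hT s (kd r e) hst (sta_kd H hr he) hlt hS _
    (h0 s hst hS hlt) hA

/-- the number `T(Xi^n)` -/
noncomputable def tau (H : Facts) (r : Finset α → ℕ) (al be : ℝ) (hr : IsRank r)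
    (hw : Win al be) : ℝ :=
  it (cx r al be (H.SEP α r al be hr hw)) (List.replicate (Fintype.card α) (Xi al be))
    (tw r al be) ∅

/-- `T(Xi^(n-1), c_e) = tau (M / e)` -/
theorem firstC (H : Facts) (hr : IsRank r) (hw : Win al be) {e : α}
    (he : ¬ Loo r e) {n : ℕ} (hn : n + 1 = Fintype.card α) :
    dv (cx r al be (H.SEP α r al be hr hw)) (cc e)
      (it (cx r al be (H.SEP α r al be hr hw)) (List.replicate n (Xi al be)) (tw r al be)) ∅ =
      tau H (rc r e) al be (H.MIN α r hr e).1 hw := by
  have hcard := card_Del e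
  rw [leftC H hr hw _ he (by rw [List.length_replicate]; exact hn)
    (fun s _ _ _ f hf => Or.inl (mem_rep hf)),
    numC H hr hw _ he (H.SEP _ _ al be (H.MIN α r hr e).1 hw)
      (forall₂_replicate ((H.COM α r al be e _ hr hw).1 he).1 n)]
  unfold tau
  rw [show Fintype.card (Del e) = n by omega]

/-- `T(Xi^(n-1), d_e) = tau (M \ e)` -/
theorem firstD (H : Facts) (hr : IsRank r) (hw : Win al be) {e : α}
    (he : ¬ Clo r e) {n : ℕ} (hn : n + 1 = Fintype.card α) :
    dv (cx r al be (H.SEP α r al be hr hw)) (dd e)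
      (it (cx r al be (H.SEP α r al be hr hw)) (List.replicate n (Xi al be)) (tw r al be)) ∅ =
      tau H (rd r e) al be (H.MIN α r hr e).2.1 hw := by
  have hcard := card_Del e
  rw [rightD H hr hw _ he (by rw [List.length_replicate]; exact hn)
    (fun s _ _ _ f hf => Or.inl (mem_rep hf)),
    numD H hr hw _ he (H.SEP _ _ al be (H.MIN α r hr e).2.1 hw)
      (forall₂_replicate ((H.COM α r al be e _ hr hw).2 he).1 n)]
  unfold tau
  rw [show Fintype.card (Del e) = n by omega]

/-- the open middle states do not contribute -/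
theorem firstO (H : Facts) (hr : IsRank r) (hw : Win al be) {e : α}
    {n : ℕ} (hn : n + 1 = Fintype.card α) :
    dv (cx r al be (H.SEP α r al be hr hw)) (oo e)
      (it (cx r al be (H.SEP α r al be hr hw)) (List.replicate n (Xi al be)) (tw r al be)) ∅ =
      0 := by
  have hT := H.TOP α r al be (H.SEP α r al be hr hw) hr hw
  refine sumO (it_wt hT.wt _) ?_
  intro s hst hS hTf hne
  have := H.VM α r al be (H.SEP α r al be hr hw) hr hw hT s hst hS hTf hne
  rwa [show Fintype.card α - 1 = n by omega] at this

/-- **`T(Xi^n)` is the Tutte polynomial.** -/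
theorem tau_eq (H : Facts) : ∀ (n : ℕ) (α : Type) [Fintype α] [DecidableEq α]
    (r : Finset α → ℕ) (al be : ℝ) (hr : IsRank r) (hw : Win al be), Fintype.card α = n →
    tau H r al be hr hw = TT r (xx al be) (yy al be) ∅ univ := by
  intro n
  induction n with
  | zero =>
    intro α _ _ r al be hr hw hn
    have hu : (univ : Finset α) = ∅ := by
      rw [← card_eq_zero]
      exact hn
    rw [hu, TT_empty]
    unfold tau
    rw [hn]
    change tw r al be ∅ = 1
    unfold tw kop kcl
    rw [if_pos ⟨fc_empty r, by rw [card_empty, hn]⟩, if_pos (Or.inl rfl), if_pos (Or.inl rfl)]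
    norm_num
  | succ n ih =>
    intro α _ _ r al be hr hw hn
    obtain ⟨e⟩ : Nonempty α := by
      rw [← Fintype.card_pos_iff]
      omega
    have hcard := card_Del e
    have hs := H.SEP α r al be hr hw
    have hT := H.TOP α r al be hs hr hw
    obtain ⟨hrc, hrd, hTT⟩ := H.MIN α r hr e
    have ihc := ih (Del e) (rc r e) al be hrc hw (by omega)
    have ihd := ih (Del e) (rd r e) al be hrd hw (by omega)
    have e1 := (hTT (xx al be) (yy al be) ∅ univ).1
    have e2 := (hTT (xx al be) (yy al be) ∅ univ).2
    rw [up_univ, show up (∅ : Finset (Del e)) = ∅ from rfl] at e1 e2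
    have hW := it_wt hT.wt (List.replicate n (Xi (α := α) al be))
    have hmain : tau H r al be hr hw = dv (cx r al be hs) (Xi al be)
        (it (cx r al be hs) (List.replicate n (Xi al be)) (tw r al be)) ∅ := by
      unfold tau
      rw [hn, List.replicate_succ]
      rfl
    have hu : (univ : Finset α) = insert e (univ.erase e) := (insert_erase (mem_univ e)).symm
    rw [hmain]
    by_cases hl : Loo r e
    · have hc : ¬ Clo r e := not_clo_of_loo hr hl
      have e3 : dv (cx r al be hs) (Xi al be)
          (it (cx r al be hs) (List.replicate n (Xi al be)) (tw r al be)) =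
          dv (cx r al be hs) ((yy al be) • (dd e + oo e) + (yy al be) • zz be e)
            (it (cx r al be hs) (List.replicate n (Xi al be)) (tw r al be)) := by
        refine dv_congr hW fun v hv => ?_
        rw [rel_loop hw hv.ex hl hr]
        rfl
      rw [e3, dv_add hW, dv_lin hW ((cx r al be hs).L.smul_mem _ (zz_mem hc)), add_zero,
        dv_smul hW, dv_add hW]
      have e4 := firstD H hr hw hc (n := n) (by omega)
      have e5 := firstO H hr hw (e := e) (n := n) (by omega)
      simp only [Pi.smul_apply, Pi.add_apply, smul_eq_mul]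
      rw [e4, e5, ihd, e2, add_zero]
      conv_rhs => rw [hu]
      rw [TT_loop hr _ _ ∅ (notMem_erase e univ) (by rw [hr.empty]; exact hl)]
    · by_cases hc : Clo r e
      · have e3 : dv (cx r al be hs) (Xi al be)
            (it (cx r al be hs) (List.replicate n (Xi al be)) (tw r al be)) =
            dv (cx r al be hs) ((xx al be) • (cc e + oo e) + (xx al be) • vv al e)
              (it (cx r al be hs) (List.replicate n (Xi al be)) (tw r al be)) := by
          refine dv_congr hW fun v hv => ?_
          rw [rel_coloop hw hv.ex hc hr]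
          rfl
        rw [e3, dv_add hW, dv_lin hW ((cx r al be hs).L.smul_mem _ (vv_mem hl)), add_zero,
          dv_smul hW, dv_add hW]
        have e4 := firstC H hr hw hl (n := n) (by omega)
        have e5 := firstO H hr hw (e := e) (n := n) (by omega)
        simp only [Pi.smul_apply, Pi.add_apply, smul_eq_mul]
        rw [e4, e5, ihc, e1, add_zero]
        conv_rhs => rw [hu]
        rw [TT_coloop hr _ _ ∅ (notMem_erase e univ) (by
          rw [empty_union, insert_erase (mem_univ e)]
          have h1 := hr.mono (univ.erase e) e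
          rw [insert_erase (mem_univ e)] at h1
          exact lt_of_le_of_ne h1 hc)]
      · have e3 : dv (cx r al be hs) (Xi al be)
            (it (cx r al be hs) (List.replicate n (Xi al be)) (tw r al be)) =
            dv (cx r al be hs) ((cc e + dd e + oo e) + (vv al e + zz be e))
              (it (cx r al be hs) (List.replicate n (Xi al be)) (tw r al be)) := by
          refine dv_congr hW fun v hv => ?_
          rw [rel_gen (e := e) hv.ex]
          rfl
        rw [e3, dv_add hW, dv_lin hW ((cx r al be hs).L.add_mem (vv_mem hl) (zz_mem hc)),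
          add_zero, dv_add hW, dv_add hW]
        have e4 := firstC H hr hw hl (n := n) (by omega)
        have e5 := firstO H hr hw (e := e) (n := n) (by omega)
        have e6 := firstD H hr hw hc (n := n) (by omega)
        simp only [Pi.add_apply]
        rw [e4, e5, e6, ihc, ihd, e1, e2, add_zero]
        conv_rhs => rw [hu]
        rw [TT_generic hr _ _ ∅ (notMem_erase e univ) (by rw [hr.empty]; exact hl) (by
          rw [empty_union, insert_erase (mem_univ e)]
          have h1 : r (univ.erase e) = r univ := by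
            by_contra h
            exact hc h
          rw [h1]
          exact lt_irrefl _)]

end Pool.Agent.QPR
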