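import Pool.Agent.QPR.NB

/-!
# Assembly of the numbers, part C: second order numbers (helper97)
-/

set_option autoImplicit false

open Finset

namespace Pool.Agent.QPR

variable {α : Type} [Fintype α] [DecidableEq α] {r : Finset α → ℕ} {al be : ℝ}

/-- `T(Xi^(n-1), c_e) = T(M / e)` -/
theorem oneC (H : Facts) (hr : IsRank r) (hw : Win al be) {e : α}
    (he : ¬ Loo r e) {n : ℕ} (hn : n + 1 = Fintype.card α) :
    dv (cx r al be (H.SEP α r al be hr hw)) (cc e)
      (it (cx r al be (H.SEP α r al be hr hw)) (List.replicate n (Xi al be)) (tw r al be)) ∅ =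
      TT r (xx al be) (yy al be) {e} (univ.erase e) := by
  rw [firstC H hr hw he hn, tau_eq H _ (Del e) (rc r e) al be _ hw rfl,
    ((H.MIN α r hr e).2.2 (xx al be) (yy al be) ∅ univ).1, up_univ]
  rfl

/-- `T(Xi^(n-1), d_e) = T(M \\ e)` -/
theorem oneD (H : Facts) (hr : IsRank r) (hw : Win al be) {e : α}
    (he : ¬ Clo r e) {n : ℕ} (hn : n + 1 = Fintype.card α) :
    dv (cx r al be (H.SEP α r al be hr hw)) (dd e)
      (it (cx r al be (H.SEP α r al be hr hw)) (List.replicate n (Xi al be)) (tw r al be)) ∅ =
      TT r (xx al be) (yy al be) ∅ (univ.erase e) := by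
  rw [firstD H hr hw he hn, tau_eq H _ (Del e) (rd r e) al be _ hw rfl,
    ((H.MIN α r hr e).2.2 (xx al be) (yy al be) ∅ univ).2, up_univ]
  rfl

theorem up_single {e : α} (f : Del e) : up ({f} : Finset (Del e)) = {f.1} := by
  unfold up
  rw [map_singleton]
  rfl

/-- `T(Xi^(n-2), c_e, c_f)`, `f` not parallel to `e` -/
theorem twoCC (H : Facts) (hr : IsRank r) (hw : Win al be) {e f : α}
    (he : ¬ Loo r e) (hf : ¬ Loo r f) (hfe : f ∉ cl r {e}) {n : ℕ}
    (hn : n + 2 = Fintype.card α) :
    dv (cx r al be (H.SEP α r al be hr hw)) (cc e)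
      (dv (cx r al be (H.SEP α r al be hr hw)) (cc f)
      (it (cx r al be (H.SEP α r al be hr hw)) (List.replicate n (Xi al be)) (tw r al be))) ∅ =
      TT r (xx al be) (yy al be) {f, e} ((univ.erase e).erase f) := by
  have hcard := card_Del e
  have hs := H.SEP α r al be hr hw
  have hT := H.TOP α r al be hs hr hw
  have hW := it_wt hT.wt (List.replicate n (Xi (α := α) al be))
  have hne : f ≠ e := by
    rintro rfl
    apply hfe
    rw [mem_cl]
    simp
  have hrc := (H.MIN α r hr e).1
  change dv (cx r al be hs) (cc e)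
    (it (cx r al be hs) (cc f :: List.replicate n (Xi al be)) (tw r al be)) ∅ = _
  rw [sumC hr (it_wt hT.wt _)]
  · rw [numC H hr hw hs he (H.SEP _ _ al be hrc hw)
      (List.Forall₂.cons (((H.COM α r al be e _ hr hw).1 he).2.1 ⟨f, hne⟩ hfe)
        (forall₂_replicate ((H.COM α r al be e _ hr hw).1 he).1 n))]
    have hl : ¬ Loo (rc r e) ⟨f, hne⟩ := by
      intro h
      apply hfe
      rw [mem_cl]
      unfold Loo rc at h
      rw [up_single] at h
      have h1 := hr.mono_subset (singleton_subset_iff.2 (mem_insert_self e {f}))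
      rw [Finset.pair_comm]
      change r (insert e {f}) = r {e}
      change r (insert e {f}) - r {e} = 0 at h
      omega
    have h1 := oneC H hrc hw hl (n := n) (by omega)
    rw [((H.MIN α r hr e).2.2 (xx al be) (yy al be) _ _).1, up_single, up_erase, up_univ] at h1
    rw [Finset.pair_comm]
    exact h1
  · intro s hst hS hlt
    have hk := sta_kc H hr he
    by_cases hfs : f ∈ s.F
    · have h1 : it (cx r al be hs) (cc f :: List.replicate n (Xi al be)) (tw r al be) {s} =
          -(al / (1 - al - be)) *
            it (cx r al be hs) (Xi al be :: List.replicate n (Xi al be)) (tw r al be) {s} :=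
        starC hw hW hst hS hfs hf
      rw [h1, H.VL α r al be hs hr hw hT s (kc r e) hst hk hlt hS _ ?_ ?_, mul_zero]
      · intro g hg
        rw [← List.replicate_succ] at hg
        exact Or.inl (mem_rep hg)
      · simp only [List.length_cons, List.length_replicate]
        exact hn
    · refine H.VL α r al be hs hr hw hT s (kc r e) hst hk hlt hS _ ?_ ?_
      · intro g hg
        rcases List.mem_cons.1 hg with h | h
        · exact Or.inr (Or.inl ⟨f, hfs, h⟩)
        · exact Or.inl (mem_rep h)
      · simp only [List.length_cons, List.length_replicate]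
        exact hn

/-- `T(Xi^(n-2), c_e, c_f)`, `f` parallel to `e` or `f = e` -/
theorem twoCP (H : Facts) (hr : IsRank r) (hw : Win al be) {e f : α}
    (he : ¬ Loo r e) (hf : ¬ Loo r f) (hfe : f ∈ cl r {e}) {n : ℕ}
    (hn : n + 2 = Fintype.card α) :
    dv (cx r al be (H.SEP α r al be hr hw)) (cc e)
      (dv (cx r al be (H.SEP α r al be hr hw)) (cc f)
      (it (cx r al be (H.SEP α r al be hr hw)) (List.replicate n (Xi al be)) (tw r al be))) ∅ =
      -(al / (1 - al - be)) * TT r (xx al be) (yy al be) {e} (univ.erase e) := by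
  have hs := H.SEP α r al be hr hw
  have hT := H.TOP α r al be hs hr hw
  have hW := it_wt hT.wt (List.replicate n (Xi (α := α) al be))
  have h1 := oneC H hr hw he (n := n + 1) (by omega)
  rw [← h1, List.replicate_succ]
  change dv (cx r al be hs) (cc e) (dv (cx r al be hs) (cc f)
    (it (cx r al be hs) (List.replicate n (Xi al be)) (tw r al be))) ∅ =
    -(al / (1 - al - be)) * dv (cx r al be hs) (cc e) (dv (cx r al be hs) (Xi al be)
      (it (cx r al be hs) (List.replicate n (Xi al be)) (tw r al be))) ∅
  rw [dv_empty (dv_wt hW _), dv_empty (dv_wt hW _), mul_sum]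
  refine sum_congr rfl fun v _ => ?_
  by_cases hF : (cx r al be hs).F {v}
  · have hst := sta_of_face hF (mem_singleton_self v)
    by_cases hc : v.S = false ∧ e ∈ v.F
    · rw [starC hw hW hst hc.1 (cl_sub hr hst.ex hc.2 hfe) hf]
      ring
    · have : cc e v = 0 := by
        unfold cc
        rw [if_neg hc]
      rw [this]
      ring
  · rw [(dv_wt hW _).supp _ hF, (dv_wt hW _).supp _ hF]
    ring

/-- `T(Xi^(n-2), c_e, d_f)` -/
theorem twoCD (H : Facts) (hr : IsRank r) (hw : Win al be) {e f : α}
    (he : ¬ Loo r e) (hf : ¬ Clo r f) (hne : f ≠ e) {n : ℕ}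
    (hn : n + 2 = Fintype.card α) :
    dv (cx r al be (H.SEP α r al be hr hw)) (cc e)
      (dv (cx r al be (H.SEP α r al be hr hw)) (dd f)
      (it (cx r al be (H.SEP α r al be hr hw)) (List.replicate n (Xi al be)) (tw r al be))) ∅ =
      TT r (xx al be) (yy al be) {e} ((univ.erase e).erase f) := by
  have hcard := card_Del e
  have hs := H.SEP α r al be hr hw
  have hT := H.TOP α r al be hs hr hw
  have hrc := (H.MIN α r hr e).1
  change dv (cx r al be hs) (cc e)
    (it (cx r al be hs) (dd f :: List.replicate n (Xi al be)) (tw r al be)) ∅ = _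
  rw [leftC H hr hw hs he]
  · rw [numC H hr hw hs he (H.SEP _ _ al be hrc hw)
      (List.Forall₂.cons (((H.COM α r al be e _ hr hw).1 he).2.2 ⟨f, hne⟩ hf)
        (forall₂_replicate ((H.COM α r al be e _ hr hw).1 he).1 n))]
    have hl : ¬ Clo (rc r e) ⟨f, hne⟩ := by
      intro h
      apply hf
      intro h2
      apply h
      unfold rc
      rw [up_erase, up_univ, insert_erase (mem_univ e), erase_right_comm,
        insert_erase (mem_erase.2 ⟨hne.symm, mem_univ e⟩), h2]
    have h1 := oneD H hrc hw hl (n := n) (by omega)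
    rw [((H.MIN α r hr e).2.2 (xx al be) (yy al be) _ _).1, up_erase, up_univ] at h1
    exact h1
  · simp only [List.length_cons, List.length_replicate]
    exact hn
  · intro s _ _ _ g hg
    rcases List.mem_cons.1 hg with h | h
    · exact Or.inr (Or.inr ⟨f, h⟩)
    · exact Or.inl (mem_rep h)

/-- `T(Xi^(n-2), d_e, d_f)`, `f` not in series with `e` -/
theorem twoDD (H : Facts) (hr : IsRank r) (hw : Win al be) {e f : α}
    (he : ¬ Clo r e) (hf : ¬ Clo r f) (hfe : f ∈ cyc r (univ.erase e)) {n : ℕ}
    (hn : n + 2 = Fintype.card α) :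
    dv (cx r al be (H.SEP α r al be hr hw)) (dd e)
      (dv (cx r al be (H.SEP α r al be hr hw)) (dd f)
      (it (cx r al be (H.SEP α r al be hr hw)) (List.replicate n (Xi al be)) (tw r al be))) ∅ =
      TT r (xx al be) (yy al be) ∅ ((univ.erase e).erase f) := by
  have hcard := card_Del e
  have hs := H.SEP α r al be hr hw
  have hT := H.TOP α r al be hs hr hw
  have hW := it_wt hT.wt (List.replicate n (Xi (α := α) al be))
  have hne : f ≠ e := by
    rintro rfl
    rw [mem_cyc] at hfe
    exact notMem_erase f _ hfe.1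
  have hrd := (H.MIN α r hr e).2.1
  change dv (cx r al be hs) (dd e)
    (it (cx r al be hs) (dd f :: List.replicate n (Xi al be)) (tw r al be)) ∅ = _
  rw [sumD hr (it_wt hT.wt _)]
  · rw [numD H hr hw hs he (H.SEP _ _ al be hrd hw)
      (List.Forall₂.cons (((H.COM α r al be e _ hr hw).2 he).2.1 ⟨f, hne⟩ hfe)
        (forall₂_replicate ((H.COM α r al be e _ hr hw).2 he).1 n))]
    have hl : ¬ Clo (rd r e) ⟨f, hne⟩ := by
      intro h
      apply h
      rw [mem_cyc] at hfe
      unfold rd
      rw [up_erase, up_univ]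
      exact hfe.2
    have h1 := oneD H hrd hw hl (n := n) (by omega)
    rw [((H.MIN α r hr e).2.2 (xx al be) (yy al be) _ _).2, up_erase, up_univ] at h1
    exact h1
  · intro s hst hTs hlt
    have hk := sta_kd H hr he
    by_cases hfs : f ∈ s.G
    · refine H.VR α r al be hs hr hw hT s (kd r e) hst hk hlt hTs _ ?_ ?_
      · intro g hg
        rcases List.mem_cons.1 hg with h | h
        · exact Or.inr (Or.inl ⟨f, hfs, h⟩)
        · exact Or.inl (mem_rep h)
      · simp only [List.length_cons, List.length_replicate]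
        exact hn
    · have h1 : it (cx r al be hs) (dd f :: List.replicate n (Xi al be)) (tw r al be) {s} =
          -(be / (1 - al - be)) *
            it (cx r al be hs) (Xi al be :: List.replicate n (Xi al be)) (tw r al be) {s} :=
        starD hw hW hst hTs hfs hf
      rw [h1, H.VR α r al be hs hr hw hT s (kd r e) hst hk hlt hTs _ ?_ ?_, mul_zero]
      · intro g hg
        rw [← List.replicate_succ] at hg
        exact Or.inl (mem_rep hg)
      · simp only [List.length_cons, List.length_replicate]
        exact hn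

/-- `T(Xi^(n-2), d_e, d_f)`, `f` in series with `e` or `f = e` -/
theorem twoDS (H : Facts) (hr : IsRank r) (hw : Win al be) {e f : α}
    (he : ¬ Clo r e) (hf : ¬ Clo r f) (hfe : f ∉ cyc r (univ.erase e)) {n : ℕ}
    (hn : n + 2 = Fintype.card α) :
    dv (cx r al be (H.SEP α r al be hr hw)) (dd e)
      (dv (cx r al be (H.SEP α r al be hr hw)) (dd f)
      (it (cx r al be (H.SEP α r al be hr hw)) (List.replicate n (Xi al be)) (tw r al be))) ∅ =
      -(be / (1 - al - be)) * TT r (xx al be) (yy al be) ∅ (univ.erase e) := by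
  have hs := H.SEP α r al be hr hw
  have hT := H.TOP α r al be hs hr hw
  have hW := it_wt hT.wt (List.replicate n (Xi (α := α) al be))
  have h1 := oneD H hr hw he (n := n + 1) (by omega)
  rw [← h1, List.replicate_succ]
  change dv (cx r al be hs) (dd e) (dv (cx r al be hs) (dd f)
    (it (cx r al be hs) (List.replicate n (Xi al be)) (tw r al be))) ∅ =
    -(be / (1 - al - be)) * dv (cx r al be hs) (dd e) (dv (cx r al be hs) (Xi al be)
      (it (cx r al be hs) (List.replicate n (Xi al be)) (tw r al be))) ∅
  rw [dv_empty (dv_wt hW _), dv_empty (dv_wt hW _), mul_sum]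
  refine sum_congr rfl fun v _ => ?_
  by_cases hF : (cx r al be hs).F {v}
  · have hst := sta_of_face hF (mem_singleton_self v)
    by_cases hc : v.T = true ∧ e ∉ v.G
    · rw [starD hw hW hst hc.1 (fun h => hfe (sub_cyc hr hst.ex hc.2 h)) hf]
      ring
    · have : dd e v = 0 := by
        unfold dd
        rw [if_neg hc]
      rw [this]
      ring
  · rw [(dv_wt hW _).supp _ hF, (dv_wt hW _).supp _ hF]
    ring

end Pool.Agent.QPR
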