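import Pool.Agent.QPR.NC
import Pool.Agent.QPR.HRMain

/-!
# The mixed inequality for a matroid without loops and coloops (helper97)
-/

set_option autoImplicit false

open Finset

namespace Pool.Agent.QPR

namespace SB

variable {E : Type} [AddCommGroup E] [Module ℝ E] {Q : E → E → ℝ}

theorem sum_l (h : SB Q) {ι : Type} (s : Finset ι) (g : ι → E) (z : E) :
    Q (∑ i ∈ s, g i) z = ∑ i ∈ s, Q (g i) z := by
  classical
  induction s using Finset.induction_on with
  | empty => rw [sum_empty, sum_empty, h.zero_l]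
  | insert i s hi ih => rw [sum_insert hi, sum_insert hi, h.add, ih]

theorem sum_r (h : SB Q) {ι : Type} (s : Finset ι) (g : ι → E) (z : E) :
    Q z (∑ i ∈ s, g i) = ∑ i ∈ s, Q z (g i) := by
  rw [h.symm, h.sum_l]
  exact sum_congr rfl fun i _ => h.symm _ _

theorem neg_l (h : SB Q) (x z : E) : Q (-x) z = - Q x z := by
  have := h.smul (-1) x z
  rw [neg_one_smul] at this
  rw [this]
  ring

theorem neg_r (h : SB Q) (x z : E) : Q x (-z) = - Q x z := by
  rw [h.symm, h.neg_l, h.symm]

theorem comb_sq (h : SB Q) {ι : Type} (s : Finset ι) (a : ι → ℝ) (g : ι → E) :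
    Q (∑ i ∈ s, a i • g i) (∑ i ∈ s, a i • g i) =
      ∑ i ∈ s, ∑ j ∈ s, Q (g i) (g j) * (a i * a j) := by
  rw [h.sum_l]
  refine sum_congr rfl fun i _ => ?_
  rw [h.smul, h.sum_r, mul_sum]
  refine sum_congr rfl fun j _ => ?_
  rw [h.smul_r]
  ring

theorem comb_l (h : SB Q) {ι : Type} (s : Finset ι) (a : ι → ℝ) (g : ι → E) (z : E) :
    Q (∑ i ∈ s, a i • g i) z = ∑ i ∈ s, a i * Q (g i) z := by
  rw [h.sum_l]
  exact sum_congr rfl fun i _ => h.smul _ _ _

end SB

/-- formal covariance from the two-point numbers -/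
noncomputable def cv {ι : Type} [DecidableEq ι] (p : ι → ℝ) (t : ι → ι → ℝ) (e f : ι) : ℝ :=
  if e = f then p e * (1 - p e) else t e f - p e * p f

/-- the final computation -/
theorem mix_alg {ι : Type} [Fintype ι] [DecidableEq ι] {p χ : ι → ℝ} {t q : ι → ι → ℝ}
    {x y T0 : ℝ} (hT : 0 < T0) (hx : 0 < x) (hy : 0 < y) (hp0 : ∀ e, 0 ≤ p e)
    (hp1 : ∀ e, p e ≤ 1)
    (hχ : ∀ e, (χ e = 0 ∧ p e ≤ 1 / 2) ∨ (χ e = 1 ∧ 1 / 2 < p e))
    (hne : ∀ e f, e ≠ f → q e f = T0 * (t e f - χ f * p e - χ e * p f + χ e * χ f))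
    (h0 : ∀ e, χ e = 0 → q e e = -((1 - y) / y) * (T0 * p e))
    (h1 : ∀ e, χ e = 1 → q e e = -((1 - x) / x) * (T0 * (1 - p e)))
    (a : ι → ℝ)
    (hq : (∑ e, ∑ f, q e f * (a e * a f)) * T0 ≤ (∑ e, a e * (T0 * (p e - χ e))) ^ 2) :
    ∑ e, ∑ f, cv p t e f * (a e * a f) ≤
      (2 / x + 2 / y) * ∑ e, a e ^ 2 * (p e * (1 - p e)) := by
  have hT2 : 0 < T0 ^ 2 := by positivity
  -- the inequality divided by `T0 ^ 2`
  have e1 : (∑ e, a e * (T0 * (p e - χ e))) ^ 2 =
      T0 ^ 2 * ∑ e, ∑ f, (p e - χ e) * (p f - χ f) * (a e * a f) := by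
    rw [sq, sum_mul_sum, mul_sum]
    refine sum_congr rfl fun e _ => ?_
    rw [mul_sum]
    refine sum_congr rfl fun f _ => ?_
    ring
  have e2 : (∑ e, ∑ f, q e f * (a e * a f)) * T0 =
      T0 ^ 2 * ∑ e, ∑ f, q e f / T0 * (a e * a f) := by
    rw [sum_mul, mul_sum]
    refine sum_congr rfl fun e _ => ?_
    rw [sum_mul, mul_sum]
    refine sum_congr rfl fun f _ => ?_
    field_simp
  rw [e1, e2] at hq
  have e3 : ∑ e, ∑ f, q e f / T0 * (a e * a f) ≤
      ∑ e, ∑ f, (p e - χ e) * (p f - χ f) * (a e * a f) := le_of_mul_le_mul_left hq hT2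
  have e4 : ∑ e, ∑ f, cv p t e f * (a e * a f) -
      (∑ e, ∑ f, q e f / T0 * (a e * a f) -
        ∑ e, ∑ f, (p e - χ e) * (p f - χ f) * (a e * a f)) =
      ∑ e, ∑ f, (cv p t e f - q e f / T0 + (p e - χ e) * (p f - χ f)) * (a e * a f) := by
    rw [← sum_sub_distrib, ← sum_sub_distrib]
    refine sum_congr rfl fun e _ => ?_
    rw [← sum_sub_distrib, ← sum_sub_distrib]
    refine sum_congr rfl fun f _ => ?_
    ring
  have e5 : ∀ e, ∑ f, (cv p t e f - q e f / T0 + (p e - χ e) * (p f - χ f)) * (a e * a f) =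
      (p e * (1 - p e) - q e e / T0 + (p e - χ e) ^ 2) * a e ^ 2 := by
    intro e
    rw [sum_eq_single e]
    · unfold cv
      rw [if_pos rfl]
      ring
    · intro f _ hfe
      unfold cv
      rw [if_neg (Ne.symm hfe), hne e f (Ne.symm hfe), mul_div_cancel_left₀ _ hT.ne']
      ring
    · intro h
      exact absurd (mem_univ e) h
  have e6 : ∀ e, (p e * (1 - p e) - q e e / T0 + (p e - χ e) ^ 2) * a e ^ 2 ≤
      (2 / x + 2 / y) * (a e ^ 2 * (p e * (1 - p e))) := by
    intro e
    have h2 : 0 ≤ p e := hp0 e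
    have h3 : 0 ≤ 1 - p e := by linarith [hp1 e]
    have h4 : 0 ≤ a e ^ 2 := sq_nonneg _
    have h5 : 0 ≤ 2 / x := by positivity
    have h6 : 0 ≤ 2 / y := by positivity
    rcases hχ e with ⟨hc, hp⟩ | ⟨hc, hp⟩
    · rw [h0 e hc, hc]
      have h7 : p e * (1 - p e) - -((1 - y) / y) * (T0 * p e) / T0 + (p e - 0) ^ 2 =
          p e / y := by
        field_simp
        ring
      rw [h7]
      have h8 : p e / y ≤ 2 / y * (p e * (1 - p e)) := by
        rw [div_mul_eq_mul_div, div_le_div_iff_of_pos_right hy]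
        nlinarith
      calc p e / y * a e ^ 2 ≤ 2 / y * (p e * (1 - p e)) * a e ^ 2 :=
            mul_le_mul_of_nonneg_right h8 h4
        _ ≤ (2 / x + 2 / y) * (a e ^ 2 * (p e * (1 - p e))) := by
            have : 0 ≤ 2 / x * (a e ^ 2 * (p e * (1 - p e))) := by positivity
            nlinarith
    · rw [h1 e hc, hc]
      have h7 : p e * (1 - p e) - -((1 - x) / x) * (T0 * (1 - p e)) / T0 + (p e - 1) ^ 2 =
          (1 - p e) / x := by
        field_simp
        ring
      rw [h7]
      have h8 : (1 - p e) / x ≤ 2 / x * (p e * (1 - p e)) := by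
        rw [div_mul_eq_mul_div, div_le_div_iff_of_pos_right hx]
        nlinarith
      calc (1 - p e) / x * a e ^ 2 ≤ 2 / x * (p e * (1 - p e)) * a e ^ 2 :=
            mul_le_mul_of_nonneg_right h8 h4
        _ ≤ (2 / x + 2 / y) * (a e ^ 2 * (p e * (1 - p e))) := by
            have : 0 ≤ 2 / y * (a e ^ 2 * (p e * (1 - p e))) := by positivity
            nlinarith
  have e7 : ∑ e, ∑ f, (cv p t e f - q e f / T0 + (p e - χ e) * (p f - χ f)) * (a e * a f) ≤
      (2 / x + 2 / y) * ∑ e, a e ^ 2 * (p e * (1 - p e)) := by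
    rw [mul_sum]
    refine sum_le_sum fun e _ => ?_
    rw [e5 e]
    exact e6 e
  linarith

/-- statements of helper86 which are used only here -/
structure Facts2 : Prop extends Facts where
  CONN : Stmt_CONN
  QUAD : Stmt_QUAD
  AMP : Stmt_AMP
  NEF : Stmt_NEF

variable {α : Type} [Fintype α] [DecidableEq α] {r : Finset α → ℕ} {al be : ℝ}

theorem xx_pos (hw : Win al be) : 0 < xx al be := by
  have := hw.a0
  have := hw.b0
  have := hw.ab
  unfold xx
  apply div_pos <;> linarith

theorem yy_pos (hw : Win al be) : 0 < yy al be := by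
  have := hw.a0
  have := hw.b0
  have := hw.ab
  unfold yy
  apply div_pos <;> linarith

theorem xx_lt (hw : Win al be) : xx al be < 1 := by
  have := hw.a0
  have := hw.b0
  have := hw.ab
  unfold xx
  rw [div_lt_one] <;> linarith

theorem yy_lt (hw : Win al be) : yy al be < 1 := by
  have := hw.a0
  have := hw.b0
  have := hw.ab
  unfold yy
  rw [div_lt_one] <;> linarith

theorem xx_rat (hw : Win al be) : (1 - xx al be) / xx al be = be / (1 - al - be) := by
  have := hw.a0
  have := hw.b0
  have := hw.ab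
  have h1 : 1 - al ≠ 0 := by
    intro h
    linarith
  have h2 : 1 - al - be ≠ 0 := (xi_pos hw).ne'
  unfold xx
  field_simp
  ring

theorem yy_rat (hw : Win al be) : (1 - yy al be) / yy al be = al / (1 - al - be) := by
  have := hw.a0
  have := hw.b0
  have := hw.ab
  have h1 : 1 - be ≠ 0 := by
    intro h
    linarith
  have h2 : 1 - al - be ≠ 0 := (xi_pos hw).ne'
  unfold yy
  field_simp
  ring

theorem TT_pos (hr : IsRank r) {x y : ℝ} (hx : 0 < x) (hx1 : x < 1) (hy : 0 < y) (hy1 : y < 1)
    (C R : Finset α) : 0 < TT r x y C R := by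
  have h := (TT_bounds hr (μ := min x y) (lt_min hx hy) ((min_le_left _ _).trans hx1.le)
    (min_le_left _ _) hx1.le (min_le_right _ _) hy1.le R C).1
  have : 0 < min x y ^ R.card := pow_pos (lt_min hx hy) _
  linarith

/-- the number `T(Xi^(n-2), c_e, c_f) / T(Xi^n)` -/
noncomputable def tt (r : Finset α → ℕ) (x y : ℝ) (e f : α) : ℝ :=
  if f ∈ cl r {e} then -((1 - y) / y) * (TT r x y {e} (univ.erase e) / TT r x y ∅ univ)
  else TT r x y {f, e} ((univ.erase e).erase f) / TT r x y ∅ univ

open Classical in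
/-- the class `c_e` for `p_e ≤ 1/2`, the class `- d_e` for `p_e > 1/2` -/
noncomputable def ph (χ : α → ℝ) (e : α) : Pt α → ℝ := if χ e = 0 then cc e else - dd e

/-- **The mixed inequality for a matroid without loops and coloops.** -/
theorem main_ineq (H : Facts2) (hr : IsRank r) (hw : Win al be)
    (hl : ∀ e, ¬ Loo r e) (hc : ∀ e, ¬ Clo r e) {N : ℕ} (hN : N + 2 = Fintype.card α)
    (a : α → ℝ) :
    ∑ e, ∑ f, cv (fun e => TT r (xx al be) (yy al be) {e} (univ.erase e) /
        TT r (xx al be) (yy al be) ∅ univ) (tt r (xx al be) (yy al be)) e f * (a e * a f) ≤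
      (2 / xx al be + 2 / yy al be) * ∑ e, a e ^ 2 *
        (TT r (xx al be) (yy al be) {e} (univ.erase e) / TT r (xx al be) (yy al be) ∅ univ *
          (1 - TT r (xx al be) (yy al be) {e} (univ.erase e) /
            TT r (xx al be) (yy al be) ∅ univ)) := by
  classical
  have hx := xx_pos hw
  have hy := yy_pos hw
  have hx1 := xx_lt hw
  have hy1 := yy_lt hw
  have hxr := xx_rat hw
  have hyr := yy_rat hw
  have hs := H.SEP α r al be hr hw
  have hT := H.TOP α r al be hs hr hw
  have hW := it_wt hT.wt (List.replicate N (Xi (α := α) al be))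
  have hQ := dv_sb hW ∅
  -- numbers
  have n0 : dv (cx r al be hs) (Xi al be) (dv (cx r al be hs) (Xi al be)
      (it (cx r al be hs) (List.replicate N (Xi al be)) (tw r al be))) ∅ =
      TT r (xx al be) (yy al be) ∅ univ := by
    rw [← tau_eq H.toFacts _ α r al be hr hw rfl]
    unfold tau
    rw [← hN, List.replicate_succ, List.replicate_succ]
    rfl
  have nC : ∀ e, dv (cx r al be hs) (cc e) (dv (cx r al be hs) (Xi al be)
      (it (cx r al be hs) (List.replicate N (Xi al be)) (tw r al be))) ∅ =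
      TT r (xx al be) (yy al be) {e} (univ.erase e) := by
    intro e
    have h := oneC H.toFacts hr hw (hl e) (n := N + 1) (by omega)
    rw [List.replicate_succ] at h
    exact h
  have nD : ∀ e, dv (cx r al be hs) (dd e) (dv (cx r al be hs) (Xi al be)
      (it (cx r al be hs) (List.replicate N (Xi al be)) (tw r al be))) ∅ =
      TT r (xx al be) (yy al be) ∅ (univ.erase e) := by
    intro e
    have h := oneD H.toFacts hr hw (hc e) (n := N + 1) (by omega)
    rw [List.replicate_succ] at h
    exact h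
  set x := xx al be with hxdef
  set y := yy al be with hydef
  set T0 := TT r x y ∅ univ with hT0
  have hT0p : 0 < T0 := TT_pos hr hx hx1 hy hy1 _ _
  have hTTp : ∀ C R : Finset α, 0 < TT r x y C R := TT_pos hr hx hx1 hy hy1
  set p : α → ℝ := fun e => TT r x y {e} (univ.erase e) / T0 with hp
  have hpT : ∀ e, T0 * p e = TT r x y {e} (univ.erase e) := by
    intro e
    rw [hp]
    field_simp
  -- rank facts
  have hr1 : ∀ e, r {e} = 1 := by
    intro e
    have h1 := hl e
    have h2 := hr.le_succ ∅ e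
    rw [hr.empty] at h2
    unfold Loo at h1
    change r {e} ≤ 0 + 1 at h2
    omega
  have hru : ∀ e, r (univ.erase e) = r univ := by
    intro e
    by_contra h
    exact hc e h
  have hdc : ∀ e, T0 = TT r x y {e} (univ.erase e) + TT r x y ∅ (univ.erase e) := by
    intro e
    rw [hT0]
    conv_lhs => rw [← insert_erase (mem_univ e)]
    rw [TT_generic hr _ _ ∅ (notMem_erase e univ)]
    · rfl
    · rw [hr.empty]
      exact hl e
    · rw [empty_union, insert_erase (mem_univ e), hru e]
      exact lt_irrefl _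
  have hpD : ∀ e, T0 * (1 - p e) = TT r x y ∅ (univ.erase e) := by
    intro e
    have h1 := hdc e
    have h2 := hpT e
    linarith
  have hp0 : ∀ e, 0 ≤ p e := fun e => (div_pos (hTTp _ _) hT0p).le
  have hp1 : ∀ e, p e ≤ 1 := by
    intro e
    have h1 := hpD e
    have h2 := hTTp ∅ (univ.erase e)
    by_contra h
    push Not at h
    nlinarith
  -- the sign
  set χ : α → ℝ := fun e => if p e ≤ 1 / 2 then 0 else 1 with hχ
  have hχ' : ∀ e, (χ e = 0 ∧ p e ≤ 1 / 2) ∨ (χ e = 1 ∧ 1 / 2 < p e) := by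
    intro e
    rw [hχ]
    by_cases h : p e ≤ 1 / 2
    · left
      exact ⟨if_pos h, h⟩
    · right
      exact ⟨if_neg h, not_le.1 h⟩
  -- second order numbers
  set Q : (Pt α → ℝ) → (Pt α → ℝ) → ℝ := fun φ ψ => dv (cx r al be hs) φ
    (dv (cx r al be hs) ψ
      (it (cx r al be hs) (List.replicate N (Xi al be)) (tw r al be))) ∅ with hQdef
  have ttp : ∀ e f, f ∈ cl r {e} →
      T0 * tt r x y e f = -((1 - y) / y) * TT r x y {e} (univ.erase e) := by
    intro e f h
    unfold tt
    rw [if_pos h, ← hT0, ← hpT e]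
    field_simp
  have ttn : ∀ e f, f ∉ cl r {e} →
      T0 * tt r x y e f = TT r x y {f, e} ((univ.erase e).erase f) := by
    intro e f h
    unfold tt
    rw [if_neg h, ← hT0]
    field_simp
  have qCC : ∀ e f, Q (cc e) (cc f) = T0 * tt r x y e f := by
    intro e f
    by_cases h : f ∈ cl r {e}
    · rw [ttp e f h, hyr]
      exact twoCP H.toFacts hr hw (hl e) (hl f) h hN
    · rw [ttn e f h]
      exact twoCC H.toFacts hr hw (hl e) (hl f) h hN
  have hts : ∀ e f, tt r x y e f = tt r x y f e := by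
    intro e f
    have h1 := qCC e f
    rw [hQ.symm, qCC f e] at h1
    exact (mul_left_cancel₀ hT0p.ne' h1).symm
  -- the relation in `M / e`
  have rel1 : ∀ e f, f ≠ e → TT r x y {e} ((univ.erase e).erase f) =
      TT r x y {e} (univ.erase e) - T0 * tt r x y e f := by
    intro e f hfe
    have hins : insert f ((univ.erase e).erase f) = univ.erase e :=
      insert_erase (mem_erase.2 ⟨hfe, mem_univ f⟩)
    have hu : ({e} : Finset α) ∪ (univ.erase e).erase f = univ.erase f := by
      ext g
      simp only [mem_union, mem_singleton, mem_erase, mem_univ, and_true]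
      constructor
      · rintro (h | h)
        · rw [h]
          exact hfe.symm
        · exact h.1
      · intro h
        by_cases hg : g = e
        · exact Or.inl hg
        · exact Or.inr ⟨h, hg⟩
    by_cases h : f ∈ cl r {e}
    · rw [ttp e f h]
      rw [mem_cl] at h
      have h1 := TT_loop hr x y {e} (notMem_erase f (univ.erase e)) h
      rw [hins] at h1
      rw [h1]
      field_simp
      ring
    · rw [ttn e f h]
      rw [mem_cl] at h
      have h1 := TT_generic hr x y {e} (notMem_erase f (univ.erase e)) h (by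
        rw [hu, insert_erase (mem_univ f), hru f]
        exact lt_irrefl _)
      rw [hins] at h1
      rw [h1]
      change _ = TT r x y {f, e} ((univ.erase e).erase f) + _ - _
      ring
  have qCD : ∀ e f, f ≠ e → Q (cc e) (dd f) = T0 * (p e - tt r x y e f) := by
    intro e f hfe
    have h1 : Q (cc e) (dd f) = _ := twoCD H.toFacts hr hw (hl e) (hc f) hfe hN
    rw [h1, rel1 e f hfe, mul_sub, hpT e]
  -- the relation in `M \ e`
  have qDD : ∀ e f, f ≠ e → Q (dd e) (dd f) = T0 * (1 - p e - p f + tt r x y e f) := by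
    intro e f hfe
    have hins : insert f ((univ.erase e).erase f) = univ.erase e :=
      insert_erase (mem_erase.2 ⟨hfe, mem_univ f⟩)
    have h3 := rel1 f e hfe.symm
    rw [erase_right_comm] at h3
    have h4 := hpT f
    have h5 := hts e f
    have h6 := hpD e
    by_cases h : f ∈ cyc r (univ.erase e)
    · have h1 : Q (dd e) (dd f) = _ := twoDD H.toFacts hr hw (hc e) (hc f) h hN
      rw [h1]
      rw [mem_cyc] at h
      have h2 := TT_generic hr x y ∅ (notMem_erase f (univ.erase e)) (by
        rw [hr.empty]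
        exact hl f) (by
        rw [empty_union, hins, h.2]
        exact lt_irrefl _)
      rw [hins] at h2
      have h7 : TT r x y {f} ((univ.erase e).erase f) =
        TT r x y (insert f ∅) ((univ.erase e).erase f) := rfl
      rw [h7] at h3
      have h8 : T0 * (1 - p e - p f + tt r x y e f) =
        T0 * (1 - p e) - (T0 * p f - T0 * tt r x y f e) := by
        rw [h5]
        ring
      rw [h8, h6, h4, ← h3, h2]
      ring
    · have h1 : Q (dd e) (dd f) = _ := twoDS H.toFacts hr hw (hc e) (hc f) h hN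
      rw [h1]
      rw [mem_cyc] at h
      have h9 : r ((univ.erase e).erase f) ≠ r (univ.erase e) := by
        intro h10
        exact h ⟨mem_erase.2 ⟨hfe, mem_univ f⟩, h10⟩
      have h2 := TT_coloop hr x y ∅ (notMem_erase f (univ.erase e)) (by
        rw [empty_union, hins]
        exact lt_of_le_of_ne (hr.mono_subset (erase_subset _ _)) h9)
      rw [hins] at h2
      have h7 : TT r x y {f} ((univ.erase e).erase f) =
        TT r x y (insert f ∅) ((univ.erase e).erase f) := rfl
      rw [h7] at h3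
      have h8 : T0 * (1 - p e - p f + tt r x y e f) =
        T0 * (1 - p e) - (T0 * p f - T0 * tt r x y f e) := by
        rw [h5]
        ring
      rw [h8, h6, h4, ← h3, ← hxr, h2]
      field_simp
      ring
  have qC0 : ∀ e, Q (cc e) (cc e) = -((1 - y) / y) * (T0 * p e) := by
    intro e
    rw [qCC e e, ttp e e (by rw [mem_cl]; simp), hpT e]
  have qD0 : ∀ e, Q (dd e) (dd e) = -((1 - x) / x) * (T0 * (1 - p e)) := by
    intro e
    have h : e ∉ cyc r (univ.erase e) := by
      rw [mem_cyc]
      rintro ⟨h, _⟩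
      exact notMem_erase e _ h
    have h1 : Q (dd e) (dd e) = _ := twoDS H.toFacts hr hw (hc e) (hc e) h hN
    rw [h1, hxr, hpD e]
  have hne : ∀ e f, e ≠ f → Q (ph χ e) (ph χ f) =
      T0 * (tt r x y e f - χ f * p e - χ e * p f + χ e * χ f) := by
    intro e f hef
    unfold ph
    rcases hχ' e with ⟨he, _⟩ | ⟨he, _⟩ <;> rcases hχ' f with ⟨hf, _⟩ | ⟨hf, _⟩
    · rw [if_pos he, if_pos hf, qCC e f, he, hf]
      ring
    · rw [if_pos he, if_neg (by rw [hf]; norm_num), hQ.neg_r]
      change - Q (cc e) (dd f) = _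
      rw [qCD e f hef.symm, he, hf]
      ring
    · rw [if_neg (by rw [he]; norm_num), if_pos hf, hQ.neg_l]
      change - Q (dd e) (cc f) = _
      rw [show Q (dd e) (cc f) = Q (cc f) (dd e) from hQ.symm _ _, qCD f e hef, he, hf,
        hts f e]
      ring
    · rw [if_neg (by rw [he]; norm_num), if_neg (by rw [hf]; norm_num), hQ.neg_l, hQ.neg_r]
      change - - Q (dd e) (dd f) = _
      rw [qDD e f hef.symm, he, hf]
      ring
  refine mix_alg (q := fun e f => Q (ph χ e) (ph χ f)) hT0p hx hy hp0 hp1 hχ' hne ?_ ?_ a ?_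
  · intro e he
    change Q (ph χ e) (ph χ e) = _
    unfold ph
    rw [if_pos he]
    exact qC0 e
  · intro e he
    change Q (ph χ e) (ph χ e) = _
    unfold ph
    rw [if_neg (by rw [he]; norm_num), hQ.neg_l, hQ.neg_r]
    change - - Q (dd e) (dd e) = _
    rw [neg_neg]
    exact qD0 e
  · obtain ⟨a0, ha0⟩ := H.AMP α r al be hs hr hw
    have h := t_HR (Pt α) (cx r al be hs) (Fintype.card α) N (tw r al be) a0 hT
      (H.CONN α r al be hs hr hw) (H.QUAD α r al be hs hr hw) ha0 hN.symm (Xi al be)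
      (H.NEF α r al be hs hr hw) (∑ e, a e • ph χ e)
    change Q _ _ * Q _ _ ≤ Q _ _ ^ 2 at h
    rw [hQ.comb_sq, hQ.comb_l] at h
    have h1 : Q (Xi al be) (Xi al be) = T0 := n0
    rw [h1] at h
    refine h.trans (le_of_eq ?_)
    congr 1
    refine sum_congr rfl fun e _ => ?_
    congr 1
    unfold ph
    rcases hχ' e with ⟨he, _⟩ | ⟨he, _⟩
    · rw [if_pos he, he, sub_zero, hpT e]
      exact nC e
    · rw [if_neg (by rw [he]; norm_num), hQ.neg_l, he]
      have h2 : Q (dd e) (Xi al be) = TT r x y ∅ (univ.erase e) := nD e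
      change - Q (dd e) (Xi al be) = _
      rw [h2, ← hpD e]
      ring

end Pool.Agent.QPR
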