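import Pool.Agent.QPR.Defs2

/-!
# Part (2) of the project QPR: statements with proofs (text: PART2.md)

Hypothesis style: `theorem t_XXX (h1 : St_...) ... : St_XXX`. The numbers in parentheses refer to
PART2.md. `m = R.card`. In all modules `D : Dat α`; `open scoped Classical`.
-/

set_option autoImplicit false

namespace Pool.Agent.QPR

open Finset
open scoped Classical

/-! ## Local facts -/

/-- (1.1). All statements are about ranks; use `D.hr` (`IsRank`, lemmas `mono_subset`, `closure`, `coclosure`, `closure_insert` of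
`Tut.lean`). (i) `e` loop: `closure` for `C ⊆ C ∪ R.erase e`. (ii) the two sets are equal: `insert e C ∪ (R.erase e).erase f = C ∪ R.erase f` because
`e ∈ R`, `e ≠ f`. (iii) `r (insert e C) = r C + 1`; if `f` is not a loop of `C` and `r (insert f (insert e C)) = r (insert e C) = r C + 1 = r (insert f C)` then `e` is a
loop over `insert f C`. (iv) closure. (v) `¬ Cl C R e` says `r (C ∪ R.erase e) = r (C ∪ R)`; write `S = C ∪ (R.erase e).erase f`; `Cl C (R.erase e) f` is `r S < r (insert f S)` and `insert f S = C ∪ R.erase e` as sets;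
if `¬ Cl C R f` then `r (insert e S) = r (C ∪ R.erase f) = r (C ∪ R) = r (insert f S) > r S`, which is `Cl C (R.erase f) e`; conversely if `Cl C R f` then `r (C ∪ R.erase f) < r (C ∪ R)`, and by `coclosure` `r S < r (insert f S)`.
(vi), (vii) symmetry. (viii) a parallel element `f ∈ R.erase e` spans `e`. (ix) `Cl C (R.erase f) e` excludes that `e` is a loop. -/
def St_LOC : Prop := ∀ (α : Type) [DecidableEq α] (D : Dat α) (C R : Finset α) (e f : α),
  e ∈ R → f ∈ R → e ≠ f →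
  (D.Lp C e → ¬ D.Cl C R e) ∧
  (D.Cl (insert e C) (R.erase e) f ↔ D.Cl C R f) ∧
  (¬ D.Lp C e → (D.Lp (insert e C) f ↔ D.Lp C f ∨ D.Par C e f)) ∧
  (D.Lp C e → (D.Lp (insert e C) f ↔ D.Lp C f)) ∧
  (¬ D.Cl C R e → (D.Cl C (R.erase e) f ↔ D.Cl C R f ∨ D.Ser C R e f)) ∧
  (D.Par C e f → D.Par C f e) ∧ (D.Ser C R e f → D.Ser C R f e) ∧
  (D.Par C e f → ¬ D.Cl C R e ∧ ¬ D.Cl C R f) ∧ (D.Ser C R e f → ¬ D.Lp C e ∧ ¬ D.Lp C f)

/-- (1.2), (1.4). Persistence of parallel and series pairs under the removal of a third element `g`, and: two parallel partners exclude a series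
partner. (i) `r (insert g C ∪ ..)`: `e` is a loop over `insert f C`, hence over `insert f (insert g C)` (closure); if `f` were a loop over `insert g C` then `e` would be one too. (ii) the same for
coloops: `Cl C (R.erase f) e` gives `Cl C ((R.erase g).erase f) e` by `coclosure`; if `¬ Cl C (R.erase g) e` then `¬ Cl C (R.erase g) f` (otherwise: `r (C ∪ R - g - f) < r (C ∪ R - g)`;
with `S = C ∪ (R - g - e - f)`: `r S < r (S + e)`, and `r (S + e + f) = r (C ∪ R - g) = r (C ∪ R - g - e) = r (S + f)`; so `r (S + e) < r (S + e + f) = r (S + f) ≤ r S + 1`, a contradiction).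
(iii) sets are equal (`g ∈ R`, `g ≠ e, f`). (iv) one of `f, f'` is not `g`; it lies in `R - e - g` and spans `e`, so `r (C ∪ (R - e - g)) = r (C ∪ (R - g))`, and `Ser C R e g` gives `Cl C (R.erase g) e`: contradiction. (v) from (iv). -/
def St_PER : Prop := ∀ (α : Type) [DecidableEq α] (D : Dat α) (C R : Finset α) (e f g : α),
  e ∈ R → f ∈ R → g ∈ R → e ≠ f → g ≠ e → g ≠ f →
  (D.Par C e f → ¬ D.Lp (insert g C) e → D.Par (insert g C) e f) ∧
  (D.Ser C R e f → ¬ D.Cl C (R.erase g) e → D.Ser C (R.erase g) e f) ∧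
  (D.Ser (insert g C) (R.erase g) e f ↔ D.Ser C R e f) ∧
  (D.Par C e f → D.Par C e g → ∀ h ∈ R, h ≠ e → ¬ D.Ser C R e h) ∧
  (2 ≤ D.np C R e → D.ns C R e = 0)

/-- (1.3). First part: `TT` and `hw` depend only on the differences of ranks: for `TT` by the definition (all exponents are differences; natural subtraction, use `card_le`, `mono_subset`); for `hw` by induction
on the history (`insert e C1`, `insert e C2` satisfy the hypothesis for `R'.erase e`, and so do `C1`, `C2`). Second part: `e ∥ f`: `r (insert e (C ∪ A)) = r (insert f (C ∪ A))` for all `A` (closure: `e` is a loop over `insert f C`, `f` over `insert e C`).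
Third part: `e, f` in series: for `A ⊆ R - e - f`: `r (insert e (C ∪ A)) = r (C ∪ A) + 1 = r (insert f (C ∪ A))` (`Cl C (R.erase f) e` and `coclosure`; symmetric). -/
def St_WEQ : Prop := ∀ (α : Type) [DecidableEq α] (D : Dat α),
  (∀ C1 C2 R' : Finset α, (∀ A ⊆ R', D.r (C1 ∪ A) + D.r C2 = D.r (C2 ∪ A) + D.r C1) →
    D.T C1 R' = D.T C2 R' ∧ ∀ h ∈ Hist R', D.w C1 h = D.w C2 h) ∧
  (∀ (C S : Finset α) (e f : α), D.Par C e f →
    D.T (insert e C) S = D.T (insert f C) S ∧ ∀ h ∈ Hist S, D.w (insert e C) h = D.w (insert f C) h) ∧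
  (∀ (C R : Finset α) (e f : α), e ∈ R → f ∈ R → e ≠ f → D.Ser C R e f →
    D.T (insert e C) ((R.erase e).erase f) = D.T (insert f C) ((R.erase e).erase f) ∧
    ∀ h ∈ Hist ((R.erase e).erase f), D.w (insert e C) h = D.w (insert f C) h)

/-- (1.5) and basic facts. From `TT_loop`, `TT_coloop`, `TT_generic`, `TT_loop_contract`, `TT_bounds` (`Tut.lean`) with `insert e (R.erase e) = R`. -/
def St_BAS : Prop := ∀ (α : Type) [DecidableEq α] (D : Dat α) (C R : Finset α),
  0 < D.mu ∧ D.mu < 1 ∧ 0 < D.T C R ∧ D.mu ^ R.card ≤ D.T C R ∧ D.T C R ≤ 2 ^ R.card ∧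
  ∀ e ∈ R, (D.Lp C e → D.T C R = D.y * D.T C (R.erase e) ∧
      D.T (insert e C) (R.erase e) = D.T C (R.erase e)) ∧
    (D.Cl C R e → D.T C R = D.x * D.T (insert e C) (R.erase e)) ∧
    (D.Gen C R e → D.T C R = D.T (insert e C) (R.erase e) + D.T C (R.erase e) ∧
      0 < D.pe C R e ∧ D.pe C R e < 1 ∧ 1 - D.pe C R e = D.T C (R.erase e) / D.T C R) ∧
    (¬ D.Lp C e → D.x * D.T (insert e C) (R.erase e) ≤ D.T C R) ∧
    (¬ D.Cl C R e → D.y * D.T C (R.erase e) ≤ D.T C R)

/-- (1.6), (1.7). `e` generic. (1.6) Let `L` be the set of the elements parallel to `e`. By induction on a subset `L' ⊆ L`: `T (insert e C) (R.erase e) = y ^ |L'| * T (insert e C) ((R.erase e) \ L')` (each element of `L` is a loop over `insert e C`)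
and `T C (R \ L') ≤ T C R` (an element of `L` is generic in `(C, R \ L')` because `e` is still there: it is not a loop, and it is not a coloop by `Par → ¬ Cl`; so `T C (R'.erase f) ≤ T C R'`). Then `x * T (insert e C) ((R \ L).erase e) ≤ T C (R \ L)` (`e` is not a loop).
Dual: `L` = elements in series with `e`: each `f ∈ L` is a coloop of `(C, R.erase e)`, also after the removal of other ones, so `T C (R.erase e) = x ^ |L'| * T (C ∪ L') ((R.erase e) \ L')`, and `T (C ∪ L') (R \ L') ≤ T C R` (contract the elements of `L` one after the other; they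
are generic as long as `e` is not contracted or deleted: not a coloop, and not a loop by `Ser → ¬ Lp`; series pairs persist under contraction of a third element), finally `y * T (C ∪ L) ((R \ L).erase e) ≤ T (C ∪ L) (R \ L)` (`e` is not a coloop of `(C ∪ L, R \ L)`: `Cl` does not change under contraction).
(1.7) `e ∥ f`: `T (insert e C) (R.erase e) = y * T (insert e C) ((R.erase e).erase f)` (`f` is a loop there), and `T C (R.erase e) ≥ x * T (insert f C) ((R.erase e).erase f)` (`f` is not a loop), equal to `x * T (insert e C) (..)` by `St_WEQ`. So `p = y τ`, `1 - p ≥ x τ`. Dual: `e, f` in series: `T C (R.erase e) = x * T (insert f C) (..)`,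
`T (insert e C) (R.erase e) ≥ y * T (insert e C) ((R.erase e).erase f)` (`f` is not a coloop of `(insert e C, R.erase e)`). -/
def St_BND : Prop := ∀ (α : Type) [DecidableEq α] (D : Dat α) (C R : Finset α) (e : α), e ∈ R →
  D.Gen C R e →
  D.pe C R e ≤ D.y ^ D.np C R e / D.x ∧ 1 - D.pe C R e ≤ D.x ^ D.ns C R e / D.y ∧
  ∀ f ∈ R, e ≠ f → (D.Par C e f → D.pe C R e ≤ 1 / D.mu * (1 - D.pe C R e)) ∧
    (D.Ser C R e f → 1 - D.pe C R e ≤ 1 / D.mu * D.pe C R e)

/-- reduction of `MIX` to loopless and coloopless minors. Induction on `R.card`: if all elements are generic use `MIX0`. If `g ∈ R` is a loop or a coloop (`a g = 0`) let `(C', R') = (C, R.erase g)` resp. `(insert g C, R.erase g)`. For `e, f ∈ R'`: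
`e` is generic in `(C, R)` iff in `(C', R')` (`St_LOC`), `pe` and `Tm` are the same for generic `e, f` (numerator and denominator are divided by the same factor `y` resp. `x`: `g` is a loop (coloop) in all the minors which occur; `insert` commutes), `Par` is the same. The terms with `e = g` or `f = g` vanish, and so do the terms with `e` or `f` not generic. -/
def St_MIXR : Prop := ∀ (α : Type) [DecidableEq α] (D : Dat α) (K : ℝ), D.MIX0 K → D.MIX K

/-! ## Expectations -/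

/-- First entry. `sum_Hist`, `hw` on a cons (with `els h = R.erase e` for `h ∈ Hist (R.erase e)`), and `sum_hw`: `W C R = R.card! * T C R`. The general form: for every `Φ` of the form `Ex` the average over the first entry. Then: the probabilities `P` are nonnegative with sum `1`,
law of total variance, `En = E1 + step En` (a move at position `i + 1` acts on the tail; `min (c a) (c b) = c min a b`), monotonicity of `step`. -/
def St_FST : Prop := ∀ (α : Type) [DecidableEq α] (D : Dat α) (C R : Finset α)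
  (F : List (α × Bool) → ℝ), R.Nonempty →
  D.W C R = (R.card.factorial : ℝ) * D.T C R ∧ 0 < D.W C R ∧
  (∀ e ∈ R, ∀ o, 0 ≤ D.P C R e o) ∧ (∑ e ∈ R, ∑ o : Bool, D.P C R e o = 1) ∧
  (∀ e ∈ R, ∑ o : Bool, D.P C R e o = 1 / R.card) ∧
  D.Ex C R F = ∑ e ∈ R, ∑ o : Bool, D.P C R e o * D.phi C R F e o ∧
  D.Vr C R F = D.Ex C R (fun h => F h ^ 2) - D.Ex C R F ^ 2 ∧
  D.Vr C R F = D.I0 C R F + D.step D.Vr C R F ∧
  D.En C R F = D.E1 C R F + D.step D.En C R F ∧
  0 ≤ D.I0 C R F ∧ 0 ≤ D.Vr C R F ∧ 0 ≤ D.E1 C R F ∧ 0 ≤ D.En C R F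

/-- elementary properties: expectations and the other functionals for a constant shift, positivity, Cauchy-Schwarz; everything for arbitrary `R` (for `R = ∅`: `Hist ∅ = {[]}`, `w = 1`). `En`, `E1` are sums of `min .. * (F h - F (τ h))²`. `Ex` of a nonnegative function is nonnegative (weights are
nonnegative, `hw_nonneg`). For the shift of `step Vr` etc. use the shift of `Vr`. -/
def St_EXP : Prop := ∀ (α : Type) [DecidableEq α] (D : Dat α) (C R : Finset α)
  (F G : List (α × Bool) → ℝ) (c : ℝ),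
  D.Ex C R (fun h => F h + c) = D.Ex C R F + c ∧
  D.Ex C R (fun h => c * F h) = c * D.Ex C R F ∧
  D.Ex C R (fun h => F h + G h) = D.Ex C R F + D.Ex C R G ∧
  ((∀ h ∈ Hist R, F h ≤ G h) → D.Ex C R F ≤ D.Ex C R G) ∧
  D.Ex C R (fun h => F h * G h) ^ 2 ≤ D.Ex C R (fun h => F h ^ 2) * D.Ex C R (fun h => G h ^ 2) ∧
  D.Ex C R F ^ 2 ≤ D.Ex C R (fun h => F h ^ 2) ∧
  D.Vr C R (fun h => F h + c) = D.Vr C R F ∧
  D.I0 C R (fun h => F h + c) = D.I0 C R F ∧
  D.step D.I0 C R (fun h => F h + c) = D.step D.I0 C R F ∧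
  D.En C R (fun h => F h + c) = D.En C R F ∧ D.E1 C R (fun h => F h + c) = D.E1 C R F ∧
  0 ≤ D.Vr C R F ∧ 0 ≤ D.En C R F

/-- Two entries: `E22` is the expectation of a function of the first two entries, `G2` the conditional expectation. (i) the marginals of `t`. (ii)-(vi): apply the formula for the first entry twice (`D.P C R e o * D.P (nx C e o) (R.erase e) f o' = t / (m (m - 1))`, `T (nx C e o) (R.erase e)` cancels;
if it is multiplied by `om = 0` both sides are `0`). (vi) is `Var (E(F | two entries)) = I0 + E I0(next)`. -/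
def St_VV : Prop := ∀ (α : Type) [DecidableEq α] (D : Dat α) (C R : Finset α)
  (F : List (α × Bool) → ℝ) (al be : α → ℝ), 2 ≤ R.card →
  (∀ e ∈ R, ∀ f ∈ R.erase e, ∀ o : Bool, ∑ o' : Bool, D.t C R e o f o' =
    D.om C R e o * D.T (nx C e o) (R.erase e) / D.T C R) ∧
  (∀ e ∈ R, ∀ o : Bool, D.om C R e o * D.T (nx C e o) (R.erase e) / D.T C R =
    R.card * D.P C R e o) ∧
  (∀ e o f o', 0 ≤ D.t C R e o f o') ∧
  D.E22 C R (fun e o f o' => D.G2 C R F e o f o') = D.Ex C R F ∧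
  D.E22 C R (fun e o f o' => g1 al be e o * D.G2 C R F e o f o') =
    ∑ e ∈ R, ∑ o : Bool, D.P C R e o * (g1 al be e o * D.phi C R F e o) ∧
  D.E22 C R (fun e o f o' => D.G2 C R F e o f o' ^ 2) - D.Ex C R F ^ 2 =
    D.I0 C R F + D.step D.I0 C R F

/-- Jensen for the energy of the first two entries. `min (t ..) (t ..) * (G2 - G2')²`: for the exchange of the entries the two remaining minors are the same sets (`insert` and `erase` commute); for the exchange of the elements (`e ∥ f` or in series) they have the same `T` and the same weights by `St_WEQ`. `G2 - G2'` is the expectation of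
`F (e o, f o', tail) - F (f o', e o, tail)` (same weights of the tail), so its square is at most the expectation of the square; multiply by `min (om om' ..) (om om' ..) * T(rest) / T(C, R)` and sum over `e, f, o, o'`; `W C R = m (m - 1) (m - 2)! T C R`, and the sum over the tails is a part of `mvE (mA 0)`, `mvE (mB 0)` (words with entries `e o, f o'`, tail in `Hist`). The other part of
`mvE (mB 0)` (pairs which are neither parallel nor in series) is nonnegative. `E1 ≤ En` is `St_FST`. -/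
def St_JEN : Prop := ∀ (α : Type) [DecidableEq α] (D : Dat α) (C R : Finset α)
  (F : List (α × Bool) → ℝ), 2 ≤ R.card →
  D.D2 C R (D.G2 C R F) ≤ D.E1 C R F ∧ D.E1 C R F ≤ D.En C R F

/-- Section 2: the two-step weights. Write `S = (R.erase e).erase f`. Use `St_LOC` for the status of the second element, and `St_WEQ` for `T (insert e C) S = T (insert f C) S`. -/
def St_TW : Prop := ∀ (α : Type) [DecidableEq α] (D : Dat α) (C R : Finset α) (e f : α),
  e ∈ R → f ∈ R → e ≠ f →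
  (¬ D.Par C e f → ¬ D.Ser C R e f → ∀ o o' : Bool, D.t C R e o f o' = D.t C R f o' e o) ∧
  (D.Par C e f → ¬ D.Ser C R e f →
    D.t C R e true f true = 0 ∧
    D.t C R e true f false = D.y * (D.T (insert e C) ((R.erase e).erase f) / D.T C R) ∧
    D.t C R e false f true = D.T (insert e C) ((R.erase e).erase f) / D.T C R ∧
    D.t C R e false f false = D.T C ((R.erase e).erase f) / D.T C R) ∧
  (¬ D.Par C e f → D.Ser C R e f →
    D.t C R e false f false = 0 ∧
    D.t C R e false f true = D.x * (D.T (insert e C) ((R.erase e).erase f) / D.T C R) ∧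
    D.t C R e true f false = D.T (insert e C) ((R.erase e).erase f) / D.T C R ∧
    D.t C R e true f true = D.T (insert f (insert e C)) ((R.erase e).erase f) / D.T C R) ∧
  (D.Par C e f → D.Ser C R e f →
    D.t C R e true f true = 0 ∧ D.t C R e false f false = 0 ∧
    D.t C R e true f false = D.y * (D.T (insert e C) ((R.erase e).erase f) / D.T C R) ∧
    D.t C R e false f true = D.x * (D.T (insert e C) ((R.erase e).erase f) / D.T C R)) ∧
  (D.Par C e f ∨ D.Ser C R e f →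
    D.T (insert e C) ((R.erase e).erase f) = D.T (insert f C) ((R.erase f).erase e) ∧
    D.T C ((R.erase e).erase f) = D.T C ((R.erase f).erase e) ∧
    D.T (insert f (insert e C)) ((R.erase e).erase f) =
      D.T (insert e (insert f C)) ((R.erase f).erase e))

/-- (2.1), (2.2), (2.3): the scores. `e` generic, `f` first. Case distinction: `f` loop or coloop, or neither parallel nor in series: `sc = 1` or `0` with the outcome of `e` (`St_LOC`: `e` stays generic), `t C R f o e o' = t C R e o' f o` (`St_TW`) and the marginals of `St_VV` (for (2.3): `f` generic, only `o = o' = true`,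
`t = T (insert e (insert f C)) ../T C R`). Parallel and/or series: the values of `St_TW` (with `e, f` exchanged), see PART2.md; `e ∥ f`: after `f` contracted `e` is a loop; `e, f` in series: after `f` deleted `e` is a coloop; otherwise generic. With `p = D.pe C R e`: `p = y τ` (`e ∥ f`), `1 - p = x σ` (series). -/
def St_SC : Prop := ∀ (α : Type) [DecidableEq α] (D : Dat α) (C R : Finset α) (e f : α),
  e ∈ R → f ∈ R → e ≠ f → D.Gen C R e →
  D.E2 C R f e (fun _ _ => 1) = 1 ∧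
  D.E2 C R f e (fun o o' => D.sc C R f o e o') = D.pe C R e ∧
  D.E2 C R f e (fun o o' => D.sc C R f o e o' ^ 2) = D.pe C R e +
    (if D.Par C e f then D.pe C R e * ((1 - D.y) / D.y ^ 2) else 0) +
    (if D.Ser C R e f then (1 - D.pe C R e) * ((1 - D.x) / D.x ^ 2) else 0) ∧
  (D.Gen C R f → D.E2 C R f e (fun o _ => if o then 1 else 0) = D.pe C R f ∧
    D.E2 C R f e (fun o o' => (if o then 1 else 0) * D.sc C R f o e o') = D.Tm C R f e)

/-! ## The test function -/

/-- (3.2). `g2 = be e + (al e - be e) * sc`. If `al e = be e`: `E2 (g2²) = be² = ve`. Otherwise `e` is thin: `E2 (g2²) = ve + Δ² * (excess)` by `St_SC`, `Δ = al e - be e`. If there is a parallel `f`: `Δ² pe ≤ 2 al² pe + 2 be² pe ≤ (2/mu) ve` (`St_BND` (1.7), `ve = pe al² + (1 - pe) be²`), the same for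
series; at most `A` elements `f` of each kind, `(1 - y)/y² ≤ 1/mu²`, `(1 - x)/x² ≤ 1/mu²`. Total excess `≤ 2 A (1/mu²)(2/mu) ve ≤ 8 A/mu³ ve`. -/
def St_SEC : Prop := ∀ (α : Type) [DecidableEq α] (D : Dat α) (C R : Finset α) (A : ℕ)
  (al be : α → ℝ), (∀ e ∈ R, ¬ D.Thin A C R e → al e = be e) → ∀ e ∈ R,
  0 ≤ D.ve C R al be e ∧
  ∑ f ∈ R.erase e, D.E2 C R f e (fun o o' => D.g2 C R al be f o e o' ^ 2) ≤
    ((R.card : ℝ) - 1 + 8 * A / D.mu ^ 3) * D.ve C R al be e

/-- (3.1), (3.3), first form. `al = be` for elements which are not generic. `E2 (g2) = be + Δ pe = me` (`St_SC`; for `Δ = 0` only `E2 1 = 1`: marginals). `E2 (g1 f o * g2) = me f * me e + Δ_f Δ_e (Tm f e - pe f pe e)`: expand `g1 f o = be f + Δ_f [o]`, `g2 = be e + Δ_e sc`. If `Δ_f = 0` or `Δ_e = 0` the other term is not needed. -/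
def St_COV : Prop := ∀ (α : Type) [DecidableEq α] (D : Dat α) (C R : Finset α)
  (al be : α → ℝ), (∀ e ∈ R, ¬ D.Gen C R e → al e = be e) →
  ∀ e ∈ R, ∀ f ∈ R, e ≠ f →
  D.E2 C R f e (fun o _ => g1 al be f o) = D.me C R al be f ∧
  D.E2 C R f e (fun o _ => g1 al be f o ^ 2) = D.ve C R al be f ∧
  D.E2 C R f e (fun o o' => D.g2 C R al be f o e o') = D.me C R al be e ∧
  D.E2 C R f e (fun o o' => g1 al be f o * D.g2 C R al be f o e o') =
    D.me C R al be f * D.me C R al be e +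
      (al f - be f) * (al e - be e) * D.Cov C R f e

/-- (3.4). `E (g1 + g2)² = E g1² + E g2² + 2 E g1 g2`; `E g1² = nn`, `E g2² ≤ (1 + k2/(m-1)) nn` (`St_SEC`, exchange the two sums), `E g1 g2 = (1/(m(m-1))) ((Σ me)² - Σ me² + Σ_{e ≠ f} Δ Δ Cov)`, `MIX` with `a = al - be`: `Σ_{e,f} Cov Δ Δ ≤ K Σ Δ² p (1-p)`, the diagonal `Cov e e = p (1 - p) ≥ 0` may be dropped, `Δ² p (1 - p) ≤ ve`, so
`E g1 g2 ≤ (1/(m(m-1))) ((Σ me)² + K m nn)`; `E g1 = E g2 = mean = (1/m) Σ me`, `(E(g1 + g2))² = 4 mean²`, `2 (Σ me)²/(m(m-1)) = (2m/(m-1)) mean² ≤ 4 mean²`. `k1 = 8 A/mu³ + 2 K`. -/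
def St_VARS : Prop := ∀ (α : Type) [DecidableEq α] (D : Dat α) (K : ℝ), 0 ≤ K → D.MIX K →
  ∀ (C R : Finset α) (A : ℕ) (al be : α → ℝ), 2 ≤ R.card →
  (∀ e ∈ R, ¬ D.Thin A C R e → al e = be e) →
  0 ≤ D.nn C R al be ∧
  D.E22 C R (fun f o e o' => (g1 al be f o + D.g2 C R al be f o e o') ^ 2) -
    D.E22 C R (fun f o e o' => g1 al be f o + D.g2 C R al be f o e o') ^ 2 ≤
    (2 + (8 * A / D.mu ^ 3 + 2 * K) / ((R.card : ℝ) - 1)) * D.nn C R al be

/-- (3.5), case (a): `E2 f e (g2 G) - E2 e f (g1 G) = Σ_{o,o'} t(e,o;f,o') g1(e,o) (G(f,o';e,o) - G(e,o;f,o'))`: for `e` generic `g2 f o' e o = g1 e o` (the status of `e` does not change), otherwise `g2 = be e = al e = g1`. Cauchy-Schwarz with `Σ t g1² = ve` (marginals) and `Σ t (G - G')² ≤ Def`. -/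
def St_XA : Prop := ∀ (α : Type) [DecidableEq α] (D : Dat α) (C R : Finset α)
  (al be : α → ℝ) (G : α → Bool → α → Bool → ℝ), (∀ e ∈ R, ¬ D.Gen C R e → al e = be e) →
  ∀ e ∈ R, ∀ f ∈ R, e ≠ f → ¬ D.Par C e f → ¬ D.Ser C R e f →
  |D.E2 C R f e (fun o o' => D.g2 C R al be f o e o' * G f o e o') -
    D.E2 C R e f (fun o o' => g1 al be e o * G e o f o')| ≤
    2 / D.mu * √(D.ve C R al be e * D.Def C R G e f)

/-- (3.5), case (b): parallel, not series. `t(f c,e d) = t(e c,f d) = y τ`, `t(f d,e c) = t(e d,f c) = τ`, `t(f d,e d) = t(e d,f d) = ρ`. The score of the loop gives `g2 = (be - (1-y) al)/y`. The difference is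
`τ be [G(fc,ed) - G(ed,fc)] - (1-y) τ al [G(fc,ed) - G(ec,fd)] + τ al [G(fd,ec) - G(ec,fd)] + ρ be [G(fd,ed) - G(ed,fd)]` (check: `ring` with `t` values). Each term is at most `(1/mu) √ve √(min(t,t') (difference)²)`: `ve = y τ al² + (τ + ρ) be²`, the minima are `y τ, y τ, y τ, ρ`. Four terms: `a + b + c + d ≤ 2 √(a² + b² + c² + d²)`. -/
def St_XB : Prop := ∀ (α : Type) [DecidableEq α] (D : Dat α) (C R : Finset α)
  (al be : α → ℝ) (G : α → Bool → α → Bool → ℝ),
  ∀ e ∈ R, ∀ f ∈ R, e ≠ f → D.Par C e f → ¬ D.Ser C R e f →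
  |D.E2 C R f e (fun o o' => D.g2 C R al be f o e o' * G f o e o') -
    D.E2 C R e f (fun o o' => g1 al be e o * G e o f o')| ≤
    2 / D.mu * √(D.ve C R al be e * D.Def C R G e f)

/-- (3.5), case (c): series, not parallel: `ρ al [G(fc,ec) - G(ec,fc)] + σ be [G(fc,ed) - G(ed,fc)] + σ al [G(fd,ec) - G(ec,fd)] - (1-x) σ be [G(fd,ec) - G(ed,fc)]`, `ve = (ρ + σ) al² + x σ be²`, minima `ρ, x σ, x σ, x σ`; the score of the coloop gives `g2 = (al - (1-x) be)/x`. -/
def St_XC : Prop := ∀ (α : Type) [DecidableEq α] (D : Dat α) (C R : Finset α)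
  (al be : α → ℝ) (G : α → Bool → α → Bool → ℝ),
  ∀ e ∈ R, ∀ f ∈ R, e ≠ f → ¬ D.Par C e f → D.Ser C R e f →
  |D.E2 C R f e (fun o o' => D.g2 C R al be f o e o' * G f o e o') -
    D.E2 C R e f (fun o o' => g1 al be e o * G e o f o')| ≤
    2 / D.mu * √(D.ve C R al be e * D.Def C R G e f)

/-- (3.5), case (d): parallel and series: `τ be [G(fc,ed) - G(ed,fc)] - (1-y) τ al [G(fc,ed) - G(ec,fd)] + τ al [G(fd,ec) - G(ec,fd)] - (1-x) τ be [G(fd,ec) - G(ed,fc)]`, `ve = y τ al² + x τ be²`, minima `min x y τ, y τ, min x y τ, x τ`. -/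
def St_XD : Prop := ∀ (α : Type) [DecidableEq α] (D : Dat α) (C R : Finset α)
  (al be : α → ℝ) (G : α → Bool → α → Bool → ℝ),
  ∀ e ∈ R, ∀ f ∈ R, e ≠ f → D.Par C e f → D.Ser C R e f →
  |D.E2 C R f e (fun o o' => D.g2 C R al be f o e o' * G f o e o') -
    D.E2 C R e f (fun o o' => g1 al be e o * G e o f o')| ≤
    2 / D.mu * √(D.ve C R al be e * D.Def C R G e f)

/-- (3.5), sum. `m (m-1) (E22 (g2 G) - E22 (g1 G)) = Σ_{e ≠ f} X(e,f)` (in `E22 (g1 G)` rename the pair: first `e`, second `f`), Cauchy-Schwarz for the sum of square roots: `Σ √(a_i b_i) ≤ √(Σ a_i) √(Σ b_i)`, `Σ_{e ≠ f} ve e = (m - 1) m nn`. -/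
def St_ERR : Prop := ∀ (α : Type) [DecidableEq α] (D : Dat α) (C R : Finset α)
  (al be : α → ℝ) (G : α → Bool → α → Bool → ℝ), 2 ≤ R.card →
  (∀ e ∈ R, ¬ D.Gen C R e → al e = be e) →
  |D.E22 C R (fun f o e o' => D.g2 C R al be f o e o' * G f o e o') -
    D.E22 C R (fun f o e o' => g1 al be f o * G f o e o')| ≤
    2 / D.mu * (√(D.nn C R al be) * √(D.D2 C R G))

/-- (3.6). `Ex F = 0`. With `G = G2 F`: `2 E[phi g1] = E22 (G (g1 + g2)) - err`, `|E22 (G (g1 + g2))| ≤ √V2 √Var(g1 + g2)` (`E22 G = 0`; Cauchy-Schwarz for `E22`: `t ≥ 0`, total mass `1`), `V2 = I0 + step I0` (`St_VV`), `St_VARS`, `St_ERR`, `St_JEN`. `nn = Σ P g1²`. `E[phi g1] ≥ nn - √Rr √nn`, `√I0 ≤ √nn + √Rr` (Minkowski in `L²(P)`).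
So `√I0 ≤ (1/2) √((I0 + step I0)(2 + k1/(m-1))) + (1/mu) √E1 + 2 √Rr` (also if `nn = 0`), square with `(a + b)² ≤ (1 + 1/m) a² + (1 + m) b²`, `(1+1/m)(1 + k1/(2(m-1))) ≤ 1 + (1 + 2 k1)/m` for `m ≥ 2`. -/
def St_COMB : Prop := ∀ (α : Type) [DecidableEq α] (D : Dat α) (K : ℝ), 0 ≤ K → D.MIX K →
  ∀ (C R : Finset α) (A : ℕ) (al be : α → ℝ) (F : List (α × Bool) → ℝ), 2 ≤ R.card →
  D.Ex C R F = 0 → (∀ e ∈ R, ¬ D.Thin A C R e → al e = be e) →
  D.I0 C R F ≤ 1 / 2 * (1 + (1 + 2 * (8 * A / D.mu ^ 3 + 2 * K)) / R.card) *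
      (D.I0 C R F + D.step D.I0 C R F) +
    2 * (R.card + 1) * (1 / D.mu ^ 2 * D.E1 C R F + 4 * D.Rr C R F al be)

/-! ## Thick classes -/

/-- (4.1) and its dual. Induction on the history (generalising `C`, `R`, `i`): `ins e o 0 h = (e, o) :: h`, `ins e o (i+1) (p :: h) = p :: ins e o i h`. See PART2.md; the status of the first entry `f` of `h` in `(C, R)` against its status in `(insert e C, R.erase e)` (`St_LOC`): if `f` is contracted and parallel to `e` then `w (insert e C) h = 0`.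
For the second inequality prove by induction: `x * w (insert e C) h ≤ y ^ (number of elements of R.erase e parallel to e over C) * w C (ins e true h.length h)` (`St_PER`: parallel pairs persist; the number drops by one when a parallel element is deleted; if `w (insert e C) h = 0` nothing is to prove). Dual with `Cl`, `Ser` for `ins e false`. -/
def St_INS : Prop := ∀ (α : Type) [DecidableEq α] (D : Dat α) (C R : Finset α) (e : α)
  (h : List (α × Bool)), e ∈ R → h ∈ Hist (R.erase e) →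
  (¬ D.Lp C e → (∀ i ≤ h.length, D.x * D.w (insert e C) h ≤ D.w C (ins e true i h)) ∧
    D.x * D.w (insert e C) h ≤ D.y ^ D.np C R e * D.w C (ins e true h.length h)) ∧
  (¬ D.Cl C R e → (∀ i ≤ h.length, D.y * D.w C h ≤ D.w C (ins e false i h)) ∧
    D.y * D.w C h ≤ D.x ^ D.ns C R e * D.w C (ins e false h.length h))

/-- combinatorics of the insertion: membership, `mA i` moves the inserted entry from position `i` to `i + 1`, and sums: for nonnegative `Φ` the sum over `h ∈ Hist (R.erase e)` and over positions `i < m - 1` of `Φ i (ins e o i h)` is at most `Σ_{h ∈ Hist R} Σ_{i < m-1} Φ i h` (injective for fixed `i`: remove the entry `i`). -/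
def St_INC : Prop := ∀ (α : Type) [DecidableEq α] (R : Finset α) (e : α) (o : Bool), e ∈ R →
  (∀ h ∈ Hist (R.erase e), ∀ i ≤ h.length, ins e o i h ∈ Hist R) ∧
  (∀ h ∈ Hist (R.erase e), ∀ i < h.length, mA i (ins e o i h) = ins e o (i + 1) h) ∧
  (∀ (Φ : List (α × Bool) → ℝ), (∀ h ∈ Hist R, 0 ≤ Φ h) → ∀ i ≤ R.card - 1,
    ∑ h ∈ Hist (R.erase e), Φ (ins e o i h) ≤ ∑ h ∈ Hist R, Φ h)

/-- (4.2), (4.3). With `W' = W (insert e C) (R.erase e) = (m-1)! T'`, `W = m! T`: `phi e true = (1/W') Σ w'(h) F (ins 0 h)`; `F (ins 0) = F (ins (m-1)) + (F (ins 0) - F (ins (m-1)))`; `(a+b)² ≤ 2a² + 2b²`; `(Σ w' F (ins (m-1)))² ≤ W' Σ w' F(ins (m-1))² ≤ W' (y^np/x) Σ_{h ∈ Hist R} w(h) F(h)²` (`St_INS`, `St_INC`); telescope: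
`(F (ins 0) - F (ins (m-1)))² ≤ (m-1) Σ_{i<m-1} (F (ins i) - F (ins (i+1)))²`, `w' ≤ (1/x) min (w (ins i)) (w (ins (i+1)))`, `ins (i+1) = mA i (ins i)`, `St_INC`. `pe W / W' = m`. -/
def St_LATE : Prop := ∀ (α : Type) [DecidableEq α] (D : Dat α) (C R : Finset α)
  (F : List (α × Bool) → ℝ) (e : α), e ∈ R → D.Gen C R e →
  D.pe C R e * D.phi C R F e true ^ 2 ≤
    2 * (R.card * D.y ^ D.np C R e / D.x) * D.Ex C R (fun h => F h ^ 2) +
      2 * ((R.card : ℝ) ^ 2 / D.x) * D.En C R F ∧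
  (1 - D.pe C R e) * D.phi C R F e false ^ 2 ≤
    2 * (R.card * D.x ^ D.ns C R e / D.y) * D.Ex C R (fun h => F h ^ 2) +
      2 * ((R.card : ℝ) ^ 2 / D.y) * D.En C R F

/-- (4.4). `ep = (max x y)^A / mu ≤ 1/2`, `A ≥ 2`, `Ex F = 0`. First part: `al0 = be0` unless thin (generic and `np ≥ A`: then `ns = 0` by `St_PER`, so `be0 = phi false = al0`; etc.; loops, coloops). `Rr`: the terms of thin elements, loops, coloops vanish; `P`-thick `e` (`np ≥ A`): `(1/m) pe (phi true - phi false)²`. `pe ≤ ep` (`St_BND`),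
`(phi true - phi false)² ≤ 2 phi true² + 2 phi false²`, `St_LATE`, `pe phi(false)² ≤ 2 ep (1 - pe) phi(false)²`, `Σ_e (1/m)(1 - pe) phi(false)² ≤ I0 ≤ Vr` (`Ex F = 0`; `(1/m)(1 - pe) = P e false`). Dual for `S`-thick. Each `e` is in one class only. Sum: `Rr ≤ 8 m ep Vr + 4 (m²/mu) En`. -/
def St_RB : Prop := ∀ (α : Type) [DecidableEq α] (D : Dat α) (C R : Finset α) (A : ℕ)
  (F : List (α × Bool) → ℝ) (ep : ℝ), R.Nonempty → D.Ex C R F = 0 → 2 ≤ A →
  (max D.x D.y) ^ A / D.mu ≤ ep → ep ≤ 1 / 2 →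
  (∀ e ∈ R, ¬ D.Thin A C R e → D.al0 A C R F e = D.be0 A C R F e) ∧
  D.Rr C R F (D.al0 A C R F) (D.be0 A C R F) ≤
    8 * R.card * ep * D.Vr C R F + 4 * ((R.card : ℝ) ^ 2 / D.mu) * D.En C R F

/-- (TS). `St_COMB` for `F - Ex F` with `al0`, `be0`, `St_RB`, `E1 ≤ En`, shift invariance (`St_EXP`). `2(m+1)(1/mu² + 16 m²/mu) ≤ 68 n³/mu²`, `2 (m+1) 32 m ep ≤ 128 n² ep`. -/
def St_TS : Prop := ∀ (α : Type) [DecidableEq α] (D : Dat α) (K : ℝ), 0 ≤ K → D.MIX K →
  ∀ (A n : ℕ) (ep : ℝ), 2 ≤ A → (max D.x D.y) ^ A / D.mu ≤ ep → ep ≤ 1 / 2 →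
  ∀ (C R : Finset α) (F : List (α × Bool) → ℝ), 2 ≤ R.card → R.card ≤ n →
  D.I0 C R F ≤ 1 / 2 * (1 + (1 + 2 * (8 * A / D.mu ^ 3 + 2 * K)) / R.card) *
      (D.I0 C R F + D.step D.I0 C R F) +
    68 * (n : ℝ) ^ 3 / D.mu ^ 2 * D.En C R F + 128 * (n : ℝ) ^ 2 * ep * D.Vr C R F

/-! ## Iteration -/

/-- iterated averages: monotone, linear, and the bounds. `stepN Φ (j+1) = step (stepN Φ j)`, also `= stepN (step Φ) j`. All by induction on `j` from `St_FST`: (i) `Vr = Σ_{i<j} stepN I0 i + stepN Vr j` for `j ≤ m`; (ii) `stepN En j ≤ En`; (iii) `stepN Vr j ≤ Vr`; (iv) an inequality `Φ C R F ≤ Ψ C R F` for all minors with `m - j` elements carries over to `stepN _ j`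
(`P ≥ 0`); (v) linearity. -/
def St_REC : Prop := ∀ (α : Type) [DecidableEq α] (D : Dat α),
  (∀ (C R : Finset α) (F : List (α × Bool) → ℝ) (j : ℕ), j ≤ R.card →
    D.Vr C R F = ∑ i ∈ range j, D.stepN D.I0 i C R F + D.stepN D.Vr j C R F ∧
    0 ≤ D.stepN D.I0 j C R F ∧ 0 ≤ D.stepN D.Vr j C R F ∧
    D.stepN D.En j C R F ≤ D.En C R F ∧ D.stepN D.Vr j C R F ≤ D.Vr C R F) ∧
  (∀ (Φ Ψ : Finset α → Finset α → (List (α × Bool) → ℝ) → ℝ) (j : ℕ) (C R : Finset α)
    (F : List (α × Bool) → ℝ), j ≤ R.card →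
    (∀ (C' R' : Finset α) (F' : List (α × Bool) → ℝ), R'.card + j = R.card →
      Φ C' R' F' ≤ Ψ C' R' F') → D.stepN Φ j C R F ≤ D.stepN Ψ j C R F) ∧
  (∀ (Φ Ψ : Finset α → Finset α → (List (α × Bool) → ℝ) → ℝ) (a b : ℝ) (j : ℕ)
    (C R : Finset α) (F : List (α × Bool) → ℝ),
    D.stepN (fun C R F => a * Φ C R F + b * Ψ C R F) j C R F =
      a * D.stepN Φ j C R F + b * D.stepN Ψ j C R F) ∧
  (∀ (Φ : Finset α → Finset α → (List (α × Bool) → ℝ) → ℝ) (j : ℕ) (C R : Finset α)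
    (F : List (α × Bool) → ℝ), D.stepN (D.step Φ) j C R F = D.stepN Φ (j + 1) C R F)

/-- (OS), section 5, abstract in the constants. With `I_j = stepN I0 j C R F`, `B = a En + b Vr`, `m_j = m - j ≥ m/2 ≥ 2k`: `(1 - k/m_j) I_j ≤ (1 + k/m_j) I_{j+1} + 2B` (hypothesis at all minors with `m_j` elements, `St_REC`), `I_{j+1} ≥ (1 - 4k/m) I_j - 2B`, `I_j ≥ (1 - 4kj/m) I_0 - 2jB`; for `q = ⌈m/(8k)⌉` sum over `j < q`: `Vr ≥ (q/2) I_0 - q² B`; `q ≤ m ≤ n`. -/
def St_OS : Prop := ∀ (α : Type) [DecidableEq α] (D : Dat α) (k a b : ℝ) (n : ℕ), 1 ≤ k →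
  0 ≤ a → 0 ≤ b →
  (∀ (C R : Finset α) (F : List (α × Bool) → ℝ), 2 ≤ R.card → R.card ≤ n →
    D.I0 C R F ≤ 1 / 2 * (1 + k / R.card) * (D.I0 C R F + D.step D.I0 C R F) +
      a * D.En C R F + b * D.Vr C R F) →
  ∀ (C R : Finset α) (F : List (α × Bool) → ℝ), 4 * k ≤ R.card → R.card ≤ n →
    D.I0 C R F ≤ (16 * k / R.card + 2 * n * b) * D.Vr C R F + 2 * n * a * D.En C R F

/-- section 7, abstract. Induction on `R.card`: `m ≤ m0` hypothesis; `m > m0`: `Vr = I0 + step Vr`, `step Vr ≤ G(m-1) step En ≤ G(m-1) En`, `(1 - κ/m) Vr ≤ (G(m-1) + c) En`, `1/(1 - κ/m) ≤ exp (2κ/m)` for `κ/m ≤ 1/2`. `G(m) = exp (2κ Σ_{m0 < i ≤ m} 1/i) (G0 + c (m - m0))`, `Σ_{i=2}^n 1/i ≤ log n`. -/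
def St_IND : Prop := ∀ (α : Type) [DecidableEq α] (D : Dat α) (κ c G0 : ℝ) (n m0 : ℕ), 1 ≤ κ →
  0 ≤ c → 0 ≤ G0 → 2 * κ ≤ m0 →
  (∀ (C R : Finset α) (F : List (α × Bool) → ℝ), m0 < R.card → R.card ≤ n →
    D.I0 C R F ≤ κ / R.card * D.Vr C R F + c * D.En C R F) →
  (∀ (C R : Finset α) (F : List (α × Bool) → ℝ), R.card ≤ m0 → D.Vr C R F ≤ G0 * D.En C R F) →
  ∀ (C R : Finset α) (F : List (α × Bool) → ℝ), R.card ≤ n →
    D.Vr C R F ≤ Real.exp (2 * κ * (1 + Real.log (n + 1))) * (G0 + c * n) * D.En C R F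

/-! ## Small minors -/

/-- (6.1). Connectedness. Induction on `R.card`. `R = ∅`: one history; one element: it is a loop or a coloop (`¬ Gen`), one history of positive weight. Otherwise see PART2.md (6.1): histories with the same first entry are connected by induction (`mA (i+1) (p :: h) = p :: mA i h`, positive weight is inherited by the tail over `nx C e o`);
different first entries by `mA 0` or `mB 0`, the weights of the two-entry words are positive by `St_TW` (a word with positive `t` extends to a history of positive weight: `W > 0` for the rest). -/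
def St_CON : Prop := ∀ (α : Type) [DecidableEq α] (D : Dat α) (C R : Finset α),
  ∀ h ∈ Hist R, ∀ h' ∈ Hist R, 0 < D.w C h → 0 < D.w C h' →
  Relation.ReflTransGen (fun s s' => s ∈ Hist R ∧ s' ∈ Hist R ∧ 0 < D.w C s ∧ 0 < D.w C s' ∧
    ∃ i < R.card - 1, s' = mA i s ∨ s' = mB i s) h h'

/-- (6.2). `Vr = (1/2) Σ Σ w w' (F - F')²/W²`; for one edge `{s, s'}` between histories of positive weight `(F s - F s')² ≤ W * En / mu^m =: a²` (one term of the sum `W * En`; on it `min (w, w') ≥ mu^m`, every positive local weight is `≥ mu`). For `h, h'` of positive weight take a path without repetition in the simple graph on `Hist R` (Mathlib: `SimpleGraph.Reachable`, `Walk.toPath`,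
`IsPath.length_lt`): at most `N = |Hist R| = m! 2^m` steps, so `|F h - F h'| ≤ N a`, `Vr ≤ N² a²`, `W = m! T ≤ m! 2^m`. (Any other bound of the form of the statement is fine.) -/
def St_CRU : Prop := ∀ (α : Type) [DecidableEq α] (D : Dat α) (C R : Finset α)
  (F : List (α × Bool) → ℝ),
  D.Vr C R F ≤ ((R.card.factorial : ℝ) * 2 ^ R.card) ^ 3 / D.mu ^ R.card * D.En C R F

/-! ## The end of part (2) -/

/-- numbers, section 7. For given `μ ∈ (0,1)`, `M ∈ (0,1)` (`M = max x y`), `K ≥ 0` there is `c` such that for all `n ≥ 1` there are `A ≥ 2`, `ep`, `m0` with the stated properties: `ep = 1/(256 n⁴)`, `A` least with `M^A/μ ≤ ep` and `A ≥ 2` (so `A ≤ c₁ (log₂ n + 1)`), `k = 1 + 2 (8A/μ³ + 2K)`, `κ = 17 k`, `m0 = ⌈34 k⌉`. `Nat.log 2`. `m! ≤ m^m`,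
`m0 ≤ c₂ L`, `L = Nat.log 2 n + 1`, `m0^m0 = 2^(m0 log₂ m0) ≤ 2^(c L²)`; `n ≤ 2^L`, `log (n+1) ≤ L`, `exp u ≤ 4^u`. -/
def St_NUM : Prop := ∀ μ M K : ℝ, 0 < μ → μ < 1 → 0 < M → M < 1 → 0 ≤ K → ∃ c : ℕ, ∀ n : ℕ, 1 ≤ n →
  ∃ (A : ℕ) (ep : ℝ) (m0 : ℕ), 2 ≤ A ∧ M ^ A / μ ≤ ep ∧ ep ≤ 1 / 2 ∧
    128 * (n : ℝ) ^ 2 * ep * (2 * n) ≤ 1 / n ∧
    2 * (17 * (1 + 2 * (8 * A / μ ^ 3 + 2 * K))) ≤ m0 ∧
    Real.exp (2 * (17 * (1 + 2 * (8 * A / μ ^ 3 + 2 * K))) * (1 + Real.log (n + 1))) *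
      (((m0.factorial : ℝ) * 2 ^ m0) ^ 3 / μ ^ m0 + 136 * (n : ℝ) ^ 4 / μ ^ 2 * n) ≤
      2 ^ (c * (Nat.log 2 n + 1) ^ 2)

/-- the Poincare inequality. `n = R.card` (`n = 0` trivial: `Vr = 0`). `St_TS`, `St_OS` (`a = 68 n³/mu²`, `b = 128 n² ep`, `k = 1 + 2(8A/mu³ + 2K)`, `2 n b ≤ 1/n ≤ k/m`), `St_IND` (`κ = 17 k`, `c = 136 n⁴/mu²`, `G0 = (m0! 2^m0)³/mu^m0`, monotone in `m ≤ m0`), `St_CRU`, `St_NUM` (`μ = min x y`, `M = max x y`). -/
def St_POI : Prop := ∀ x y K : ℝ, 0 < x → x < 1 → 0 < y → y < 1 → 0 ≤ K → ∃ c : ℕ,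
  ∀ (α : Type) [DecidableEq α] (D : Dat α), D.x = x → D.y = y → D.MIX K →
  ∀ (C R : Finset α) (F : List (α × Bool) → ℝ),
    D.Vr C R F ≤ 2 ^ (c * (Nat.log 2 R.card + 1) ^ 2) * D.En C R F

/-- output of part (1) -/
def St_MIX0 : Prop := ∀ x y : ℝ, 0 < x → x < 1 → 0 < y → y < 1 → ∃ K : ℝ, 0 ≤ K ∧
  ∀ (α : Type) [DecidableEq α] (D : Dat α), D.x = x → D.y = y → D.MIX0 K

/-- part (2) in helper88's form. `Σ Σ w w' (f - f')² = 2 W² Vr`, `W * En ≤ E3` (the kinds `(true, true)` and `(true, false)` are `mA`, `mB`); the factor `2` into the exponent. -/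
def St_P2 : Prop := St_MIX0 → Stmt_P

end Pool.Agent.QPR
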