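import Pool.Agent.QPR.NE
import Pool.Agent.QPR.Stmts2

/-!
# The mixed inequality: transfer to `Dat` (helper97)
-/

set_option autoImplicit false

open Finset

namespace Pool.Agent.QPR

section sub

variable {α : Type} [DecidableEq α]

/-- subsets of `R` as subsets of the ground set -/
def us {R : Finset α} (A : Finset {a // a ∈ R}) : Finset α := A.map (Function.Embedding.subtype _)

/-- rank function of `(M | (C ∪ R)) / C` on the finite type `R` -/
def rs (r : Finset α → ℕ) (C R : Finset α) (A : Finset {a // a ∈ R}) : ℕ := r (C ∪ us A) - r C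

theorem mem_us {R : Finset α} {A : Finset {a // a ∈ R}} {f : α} :
    f ∈ us A ↔ ∃ h : f ∈ R, (⟨f, h⟩ : {a // a ∈ R}) ∈ A := by
  unfold us
  simp only [mem_map, Function.Embedding.subtype_apply]
  constructor
  · rintro ⟨⟨a, ha⟩, h1, rfl⟩
    exact ⟨ha, h1⟩
  · rintro ⟨h, h1⟩
    exact ⟨⟨f, h⟩, h1, rfl⟩

theorem us_insert {R : Finset α} (f : {a // a ∈ R}) (A : Finset {a // a ∈ R}) :
    us (insert f A) = insert f.1 (us A) := by
  unfold us
  rw [map_insert]
  rfl

theorem us_single {R : Finset α} (f : {a // a ∈ R}) : us {f} = {f.1} := by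
  unfold us
  rw [map_singleton]
  rfl

theorem us_empty {R : Finset α} : us (∅ : Finset {a // a ∈ R}) = ∅ := rfl

theorem us_erase {R : Finset α} (f : {a // a ∈ R}) (A : Finset {a // a ∈ R}) :
    us (A.erase f) = (us A).erase f.1 := by
  unfold us
  rw [map_erase]
  rfl

theorem us_union {R : Finset α} (A B : Finset {a // a ∈ R}) : us (A ∪ B) = us A ∪ us B := by
  unfold us
  rw [map_union]

theorem us_univ {R : Finset α} : us (univ : Finset {a // a ∈ R}) = R := by
  ext f
  rw [mem_us]
  constructor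
  · rintro ⟨h, _⟩
    exact h
  · intro h
    exact ⟨h, mem_univ _⟩

theorem card_us {R : Finset α} (A : Finset {a // a ∈ R}) : (us A).card = A.card := by
  unfold us
  exact card_map _

theorem us_inj {R : Finset α} : Function.Injective (us (R := R)) :=
  Finset.map_injective _

theorem isRank_rs {r : Finset α → ℕ} (hr : IsRank r) (C R : Finset α) : IsRank (rs r C R) := by
  have hC : ∀ A : Finset {a // a ∈ R}, r C ≤ r (C ∪ us A) := fun A =>
    hr.mono_subset subset_union_left
  have hins : ∀ (A : Finset {a // a ∈ R}) (e), r (C ∪ us (insert e A)) =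
      r (insert e.1 (C ∪ us A)) := by
    intro A e
    rw [us_insert, union_insert]
  refine ⟨?_, ?_, ?_, ?_⟩
  · unfold rs
    rw [us_empty, union_empty, Nat.sub_self]
  · intro A e
    unfold rs
    rw [hins]
    have := hr.mono (C ∪ us A) e.1
    omega
  · intro A e
    unfold rs
    rw [hins]
    have := hr.le_succ (C ∪ us A) e.1
    have := hC A
    omega
  · intro A e f h1 h2
    unfold rs at *
    rw [hins] at h1 h2
    rw [hins, us_insert, union_insert]
    have h3 := hC A
    have h4 := hr.mono (C ∪ us A) e.1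
    have h5 := hr.mono (C ∪ us A) f.1
    rw [hr.closed (C ∪ us A) e.1 f.1 (by omega) (by omega)]

theorem TT_rs {r : Finset α → ℕ} (hr : IsRank r) (x y : ℝ) (C R : Finset α)
    (C' R' : Finset {a // a ∈ R}) :
    TT (rs r C R) x y C' R' = TT r x y (C ∪ us C') (us R') := by
  unfold TT
  have hC : ∀ A : Finset {a // a ∈ R}, r C ≤ r (C ∪ us A) := fun A =>
    hr.mono_subset subset_union_left
  refine sum_bij' (fun A _ => us A) (fun B _ => B.subtype (fun a => a ∈ R)) ?_ ?_ ?_ ?_ ?_
  · intro A hA
    rw [mem_powerset] at hA ⊢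
    exact map_subset_map.2 hA
  · intro B hB
    rw [mem_powerset] at hB ⊢
    intro f hf
    rw [mem_subtype] at hf
    obtain ⟨h, h1⟩ := mem_us.1 (hB hf)
    exact h1
  · intro A _
    ext f
    rw [mem_subtype, mem_us]
    constructor
    · rintro ⟨h, h1⟩
      exact h1
    · intro h
      exact ⟨f.2, h⟩
  · intro B hB
    rw [mem_powerset] at hB
    ext f
    rw [mem_us]
    constructor
    · rintro ⟨h, h1⟩
      rw [mem_subtype] at h1
      exact h1
    · intro h
      obtain ⟨h1, _⟩ := mem_us.1 (hB h)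
      exact ⟨h1, by rw [mem_subtype]; exact h⟩
  · intro A _
    unfold rs
    have h1 := hC (C' ∪ R')
    have h2 := hC (C' ∪ A)
    have h3 := hC C'
    have h4 : C ∪ us C' ∪ us R' = C ∪ us (C' ∪ R') := by
      rw [us_union, union_assoc]
    have h5 : C ∪ us C' ∪ us A = C ∪ us (C' ∪ A) := by
      rw [us_union, union_assoc]
    rw [h4, h5, card_us]
    congr 2 <;> omega

end sub

/-- the parameters -/
theorem win_exists {x y : ℝ} (hx : 0 < x) (hx1 : x < 1) (hy : 0 < y) (hy1 : y < 1) :
    ∃ al be : ℝ, Win al be ∧ xx al be = x ∧ yy al be = y := by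
  have h1 : 1 < 1 / x := by
    rw [lt_div_iff₀ hx]
    linarith
  have h2 : 1 < 1 / y := by
    rw [lt_div_iff₀ hy]
    linarith
  set k : ℝ := 1 / x + 1 / y - 1 with hk
  have hk0 : 0 < k := by linarith
  have e1 : 1 - (1 / y - 1) / k - (1 / x - 1) / k = 1 / k := by
    field_simp
    rw [hk]
    field_simp
    ring
  have e2 : 1 - (1 / y - 1) / k = 1 / x / k := by
    rw [eq_div_iff hk0.ne', sub_mul, div_mul_cancel₀ _ hk0.ne', hk]
    ring
  have e3 : 1 - (1 / x - 1) / k = 1 / y / k := by
    rw [eq_div_iff hk0.ne', sub_mul, div_mul_cancel₀ _ hk0.ne', hk]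
    ring
  refine ⟨(1 / y - 1) / k, (1 / x - 1) / k, ⟨?_, ?_, ?_⟩, ?_, ?_⟩
  · exact div_pos (by linarith) hk0
  · exact div_pos (by linarith) hk0
  · have : 0 < 1 / k := by positivity
    linarith
  · unfold xx
    rw [e1, e2]
    field_simp
  · unfold yy
    rw [e1, e3]
    field_simp

/-- **Output of part (1).** -/
theorem mix0_of (H : Facts2) : St_MIX0 := by
  intro x y hx hx1 hy hy1
  refine ⟨2 / x + 2 / y, by positivity, ?_⟩
  intro α _ D hDx hDy C R a hgen
  obtain ⟨al, be, hw, hxx, hyy⟩ := win_exists hx hx1 hy hy1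
  have hr := isRank_rs D.hr C R
  have hC : ∀ A : Finset {a // a ∈ R}, D.r C ≤ D.r (C ∪ us A) := fun A =>
    D.hr.mono_subset subset_union_left
  have hl : ∀ e : {a // a ∈ R}, ¬ Loo (rs D.r C R) e := by
    intro e h
    apply (hgen e.1 e.2).1
    unfold Loo rs at h
    rw [us_single] at h
    have h1 := hC {e}
    rw [us_single] at h1
    have h2 : C ∪ {e.1} = insert e.1 C := by
      rw [union_comm]
      rfl
    rw [h2] at h h1
    unfold Dat.Lp
    omega
  have hc : ∀ e : {a // a ∈ R}, ¬ Clo (rs D.r C R) e := by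
    intro e h
    apply (hgen e.1 e.2).2
    unfold Clo rs at h
    rw [us_erase, us_univ] at h
    have h1 := hC (univ.erase e)
    rw [us_erase, us_univ] at h1
    have h2 : insert e.1 (C ∪ R.erase e.1) = C ∪ R := by
      rw [← union_insert, insert_erase e.2]
    unfold Dat.Cl
    rw [h2]
    refine lt_of_le_of_ne (D.hr.mono_subset (union_subset_union_right (erase_subset _ _))) ?_
    intro h3
    apply h
    rw [h3]
  rcases R.eq_empty_or_nonempty with hR | hR
  · subst hR
    simp
  have hcard : 2 ≤ R.card := by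
    by_contra hcon
    have h1 : R.card = 1 := by
      have := card_pos.2 hR
      omega
    obtain ⟨e, he⟩ := card_eq_one.1 h1
    subst he
    obtain ⟨g1, g2⟩ := hgen e (mem_singleton_self e)
    unfold Dat.Lp at g1
    unfold Dat.Cl at g2
    rw [show ({e} : Finset α).erase e = ∅ by simp, union_empty] at g2
    have h2 := D.hr.mono C e
    omega
  have hcs : Fintype.card {a // a ∈ R} = R.card := Fintype.card_coe R
  have hmain := main_ineq H hr hw hl hc (N := R.card - 2) (by omega) (fun e => a e.1)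
  rw [hxx, hyy] at hmain
  -- translation
  have hT0 : TT (rs D.r C R) x y ∅ univ = D.T C R := by
    rw [TT_rs D.hr, us_univ, us_empty, union_empty]
    unfold Dat.T
    rw [hDx, hDy]
  have hpe : ∀ e : {a // a ∈ R}, TT (rs D.r C R) x y {e} (univ.erase e) /
      TT (rs D.r C R) x y ∅ univ = D.pe C R e.1 := by
    intro e
    rw [hT0, TT_rs D.hr, us_erase, us_univ, us_single]
    unfold Dat.pe Dat.T
    rw [hDx, hDy, show C ∪ {e.1} = insert e.1 C by rw [union_comm]; rfl]
  have hLp : ∀ e : {a // a ∈ R}, ¬ D.Lp C e.1 := fun e => (hgen e.1 e.2).1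
  have hpar : ∀ e f : {a // a ∈ R}, f ∈ cl (rs D.r C R) {e} ↔ D.Par C e.1 f.1 := by
    intro e f
    have h1 := hLp e
    have h2 := hLp f
    unfold Dat.Par
    have h3 : f ∈ cl (rs D.r C R) {e} ↔ D.Lp (insert f.1 C) e.1 := by
      rw [mem_cl]
      unfold rs
      unfold Dat.Lp at *
      rw [us_insert, us_single]
      have e1 : C ∪ insert f.1 {e.1} = insert e.1 (insert f.1 C) := by
        ext g
        simp only [mem_union, mem_insert, mem_singleton]
        tauto
      have e2 : C ∪ {e.1} = insert e.1 C := by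
        rw [union_comm]
        rfl
      rw [e1, e2]
      have k1 := D.hr.mono C e.1
      have k2 := D.hr.mono C f.1
      have k3 := D.hr.le_succ C e.1
      have k4 := D.hr.le_succ C f.1
      have k5 := D.hr.mono (insert f.1 C) e.1
      constructor <;> intro h <;> omega
    rw [h3]
    exact ⟨fun h => ⟨h1, h2, h⟩, fun h => h.2.2⟩
  have htt : ∀ e f : {a // a ∈ R}, tt (rs D.r C R) x y e f = D.Tm C R e.1 f.1 := by
    intro e f
    unfold tt Dat.Tm
    by_cases h : f ∈ cl (rs D.r C R) {e}
    · rw [if_pos h, if_pos ((hpar e f).1 h), hpe e, hDy]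
    · rw [if_neg h, if_neg (fun h' => h ((hpar e f).2 h')), hT0, TT_rs D.hr, us_erase, us_erase,
        us_univ, us_insert, us_single]
      unfold Dat.T
      rw [hDx, hDy]
      have e1 : C ∪ insert f.1 {e.1} = insert f.1 (insert e.1 C) := by
        ext g
        simp only [mem_union, mem_insert, mem_singleton]
        tauto
      rw [e1]
  have hcv : ∀ e f : {a // a ∈ R}, cv (fun e => TT (rs D.r C R) x y {e} (univ.erase e) /
      TT (rs D.r C R) x y ∅ univ) (tt (rs D.r C R) x y) e f = D.Cov C R e.1 f.1 := by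
    intro e f
    unfold cv Dat.Cov
    beta_reduce
    rw [hpe e, hpe f, htt e f]
    by_cases h : e = f
    · rw [if_pos h, if_pos (by rw [h])]
    · rw [if_neg h, if_neg (fun h' => h (Subtype.ext h'))]
  have l1 : ∑ e ∈ R, ∑ f ∈ R, D.Cov C R e f * (a e * a f) =
      ∑ e : {a // a ∈ R}, ∑ f : {a // a ∈ R}, D.Cov C R e.1 f.1 * (a e.1 * a f.1) := by
    rw [← sum_coe_sort R (fun e => ∑ f ∈ R, D.Cov C R e f * (a e * a f))]
    refine sum_congr rfl fun e _ => ?_
    rw [← sum_coe_sort R (fun f => D.Cov C R e.1 f * (a e.1 * a f))]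
  have l2 : ∑ e ∈ R, a e ^ 2 * (D.pe C R e * (1 - D.pe C R e)) =
      ∑ e : {a // a ∈ R}, a e.1 ^ 2 * (D.pe C R e.1 * (1 - D.pe C R e.1)) := by
    rw [← sum_coe_sort R (fun e => a e ^ 2 * (D.pe C R e * (1 - D.pe C R e)))]
  rw [l1, l2]
  calc ∑ e : {a // a ∈ R}, ∑ f : {a // a ∈ R}, D.Cov C R e.1 f.1 * (a e.1 * a f.1)
      = ∑ e : {a // a ∈ R}, ∑ f : {a // a ∈ R}, cv (fun e => TT (rs D.r C R) x y {e}
        (univ.erase e) / TT (rs D.r C R) x y ∅ univ) (tt (rs D.r C R) x y) e f *
          (a e.1 * a f.1) := by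
        refine sum_congr rfl fun e _ => sum_congr rfl fun f _ => ?_
        rw [hcv e f]
    _ ≤ _ := hmain
    _ = _ := by
        congr 1
        refine sum_congr rfl fun e _ => ?_
        rw [hpe e]

end Pool.Agent.QPR
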