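import Pool.Agent.QPR.Nm

/-!
# CNT: a chain which is injective modulo the part outside of a middle state is short
-/

set_option autoImplicit false

open Finset

namespace Pool.Agent.QPR

namespace NCNT

variable {α : Type} [Fintype α] [DecidableEq α] {r : Finset α → ℕ}

/-! ### loops and coloops -/

theorem r_loops (h : IsRank r) (B : Finset α) (hB : ∀ e ∈ B, r {e} = 0) : r B = 0 := by
  induction B using Finset.induction_on with
  | empty => exact h.empty
  | insert e B _ ih =>
    have h1 : r (insert e ∅) = r ∅ := by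
      rw [h.empty]
      exact hB e (mem_insert_self _ _)
    rw [h.closure h1 (empty_subset B)]
    exact ih fun f hf => hB f (mem_insert_of_mem hf)

theorem r_coloops (h : IsRank r) (B : Finset α) (hB : ∀ e ∈ B, Clo r e) :
    ∀ A : Finset α, (∀ e ∈ B, e ∉ A) → r (A ∪ B) = r A + B.card := by
  induction B using Finset.induction_on with
  | empty =>
    intro A _
    simp
  | insert e B he ih =>
    intro A hA
    have h1 := ih (fun f hf => hB f (mem_insert_of_mem hf)) A
      (fun f hf => hA f (mem_insert_of_mem hf))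
    have h2 : r (univ.erase e) < r (insert e (univ.erase e)) := by
      have h3 := hB e (mem_insert_self _ _)
      unfold Clo at h3
      have h4 : insert e (univ.erase e) = (univ : Finset α) := insert_erase (mem_univ e)
      rw [h4]
      exact lt_of_le_of_ne (h.mono_subset (subset_univ _)) h3
    have h5 : A ∪ B ⊆ univ.erase e := by
      intro f hf
      rw [mem_erase]
      refine ⟨?_, mem_univ f⟩
      rintro rfl
      rcases mem_union.1 hf with h6 | h6
      · exact hA f (mem_insert_self _ _) h6
      · exact he h6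
    rw [union_insert, h.coclosure h2 h5, h1, card_insert_of_notMem he]
    omega

theorem ex_bot (h : IsRank r) : Ex0 r (bot r) where
  flat := by
    classical
    intro e he
    unfold bot at he ⊢
    dsimp only at he ⊢
    set L := univ.filter (Loo r) with hL
    have h0 : r L = 0 := r_loops h L (fun f hf => by
      rw [hL, mem_filter] at hf
      exact hf.2)
    have h1 : r {e} ≠ 0 := by
      intro h2
      apply he
      rw [hL, mem_filter]
      exact ⟨mem_univ e, h2⟩
    have h3 : r {e} ≤ r (insert e L) := h.mono_subset (by simp)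
    have h4 := h.le_succ L e
    omega
  cyc := by
    intro e he
    exact absurd he (by simp [bot])
  GF := by
    intro e he
    exact absurd he (by simp [bot])
  GS := by
    rintro ⟨e, he⟩
    exact absurd he (by simp [bot])
  TS := by
    intro he
    exact absurd he (by simp [bot])
  TF := by
    intro he
    exact absurd he (by simp [bot])

theorem ex_top (h : IsRank r) : Ex0 r (top r) where
  flat := by
    intro e he
    exact absurd (mem_univ e) he
  cyc := by
    classical
    intro e he
    unfold top at he ⊢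
    dsimp only at he ⊢
    set N := univ.filter (fun e => ¬ Clo r e) with hN
    set B := univ.filter (fun e => Clo r e) with hB
    have hNe : ¬ Clo r e := by
      rw [hN, mem_filter] at he
      exact he.2
    have hBc : ∀ f ∈ B, Clo r f := by
      intro f hf
      rw [hB, mem_filter] at hf
      exact hf.2
    have hBN : ∀ f ∈ B, f ∉ N := by
      intro f hf hf'
      rw [hN, mem_filter] at hf'
      exact hf'.2 (hBc f hf)
    have h1 := r_coloops h B hBc N hBN
    have h2 := r_coloops h B hBc (N.erase e) (fun f hf hf' => hBN f hf (mem_of_mem_erase hf'))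
    have e1 : N ∪ B = univ := by
      ext f
      simp only [hN, hB, mem_union, mem_filter, mem_univ, true_and, iff_true]
      tauto
    have e2 : N.erase e ∪ B = univ.erase e := by
      ext f
      simp only [hN, hB, mem_union, mem_filter, mem_univ, true_and, mem_erase, and_true]
      constructor
      · rintro (⟨h3, _⟩ | h3)
        · exact h3
        · rintro rfl
          exact hNe h3
      · intro h3
        by_cases h4 : Clo r f
        · exact Or.inr h4
        · exact Or.inl ⟨h3, h4⟩
    rw [e1] at h1
    rw [e2] at h2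
    have h3 : r (univ.erase e) = r univ := by
      by_contra h4
      exact hNe h4
    omega
  GF := subset_univ _
  GS := fun _ => rfl
  TS := fun _ => rfl
  TF := fun _ => rfl

theorem bot_le {u : Pt α} (h : IsRank r) (hu : Ex0 r u) : bot r ≤ u := by
  classical
  refine ⟨?_, ?_, ?_, ?_⟩
  · intro e he
    unfold bot at he
    dsimp only at he
    rw [mem_filter] at he
    by_contra hc
    have h1 := hu.flat e hc
    have h2 : r (insert e ∅) = r ∅ := by
      rw [h.empty]
      exact he.2
    have h3 := h.closure h2 (empty_subset u.F)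
    omega
  · intro e he
    exact absurd he (by simp [bot])
  · intro he
    exact absurd he (by simp [bot])
  · intro he
    exact absurd he (by simp [bot])

theorem le_top {u : Pt α} (h : IsRank r) (hu : Ex0 r u) : u ≤ top r := by
  classical
  refine ⟨?_, ?_, ?_, ?_⟩
  · exact subset_univ _
  · intro e he
    unfold top
    dsimp only
    rw [mem_filter]
    refine ⟨mem_univ e, ?_⟩
    unfold Clo
    rw [not_not]
    have h1 := hu.cyc e he
    have h2 : r (insert e (u.G.erase e)) = r (u.G.erase e) := by
      rw [insert_erase he, h1]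
    have h3 := h.closure h2 (erase_subset_erase e (subset_univ u.G))
    rw [insert_erase (mem_univ e)] at h3
    exact h3.symm
  · intro _
    rfl
  · intro _
    rfl

/-! ### relative nullity -/

/-- relative nullity -/
def nr (r : Finset α → ℕ) (C A : Finset α) : ℕ := A.card + r C - r (C ∪ A)

theorem nr_mono (h : IsRank r) (C : Finset α) {A B : Finset α} (hAB : A ⊆ B) :
    nr r C A ≤ nr r C B := by
  unfold nr
  have h1 := h.card_le (C ∪ A) (B \ A)
  have e1 : C ∪ A ∪ B \ A = C ∪ B := by
    rw [union_assoc, union_sdiff_of_subset hAB]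
  rw [e1, card_sdiff_of_subset hAB] at h1
  have h2 := card_le_card hAB
  omega

theorem nr_lt (h : IsRank r) (C : Finset α) {A B : Finset α} {x : α} (hx : x ∈ B)
    (hB : r (C ∪ B.erase x) = r (C ∪ B)) (hA : A ⊆ B.erase x) : nr r C A < nr r C B := by
  have h1 := nr_mono h C hA
  have h2 := card_erase_add_one hx
  have h3 := h.card_le C (B.erase x)
  unfold nr at h1 ⊢
  omega

/-! ### the height -/

/-- flat part -/
def hA (r : Finset α → ℕ) (s u : Pt α) : ℕ := r (u.F ∩ s.G) + (r (u.F ∪ s.F) - r s.F)

/-- cyclic part -/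
def hB (r : Finset α → ℕ) (s u : Pt α) : ℕ := nr r ∅ (u.G ∩ s.G) + nr r s.F (u.G \ s.F)

/-- the height -/
def H (r : Finset α → ℕ) (s u : Pt α) : ℕ := hA r s u + hB r s u + (if u.S = true then 1 else 0) +
  (if u.T = true then 1 else 0)

theorem hA_mono (h : IsRank r) {s u v : Pt α} (huv : u.F ⊆ v.F) : hA r s u ≤ hA r s v := by
  unfold hA
  have h1 := h.mono_subset (inter_subset_inter_right (u := s.G) huv)
  have h2 := h.mono_subset (union_subset_union_left (t := s.F) huv)
  omega

theorem hB_mono (h : IsRank r) {s u v : Pt α} (huv : u.G ⊆ v.G) : hB r s u ≤ hB r s v := by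
  unfold hB
  have h1 := nr_mono h ∅ (inter_subset_inter_right (u := s.G) huv)
  have h2 := nr_mono h s.F (sdiff_subset_sdiff huv (Subset.refl s.F))
  omega

theorem hA_lt (h : IsRank r) {s u v : Pt α} (hs : Ex0 r s) (hu : Ex0 r u)
    (hc : u.F ⊆ s.F ∨ s.F ⊆ u.F) (huv : u.F ⊆ v.F) {x : α} (hxv : x ∈ v.F) (hxu : x ∉ u.F)
    (hx : x ∈ s.F → x ∈ s.G) : hA r s u < hA r s v := by
  unfold hA
  have h1 := h.mono_subset (inter_subset_inter_right (u := s.G) huv)
  have h2 := h.mono_subset (union_subset_union_left (t := s.F) huv)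
  have h0 : r s.F ≤ r (u.F ∪ s.F) := h.mono_subset subset_union_right
  by_cases hxF : x ∈ s.F
  · have hxG := hx hxF
    have h3 : r (insert x (u.F ∩ s.G)) = r (u.F ∩ s.G) + 1 := by
      refine h.coclosure (B := u.F) ?_ inter_subset_left
      rw [hu.flat x hxu]
      omega
    have h4 : r (insert x (u.F ∩ s.G)) ≤ r (v.F ∩ s.G) := by
      refine h.mono_subset ?_
      intro y hy
      rcases mem_insert.1 hy with rfl | hy
      · exact mem_inter.2 ⟨hxv, hxG⟩
      · exact inter_subset_inter_right huv hy
    omega
  · have h3 : r (insert x (u.F ∪ s.F)) = r (u.F ∪ s.F) + 1 := by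
      rcases hc with hc | hc
      · rw [union_eq_right.2 hc]
        exact hs.flat x hxF
      · rw [union_eq_left.2 hc]
        exact hu.flat x hxu
    have h4 : r (insert x (u.F ∪ s.F)) ≤ r (v.F ∪ s.F) := by
      refine h.mono_subset ?_
      intro y hy
      rcases mem_insert.1 hy with rfl | hy
      · exact mem_union_left _ hxv
      · exact union_subset_union_left huv hy
    omega

theorem hB_lt (h : IsRank r) {s u v : Pt α} (hs : Ex0 r s) (hv : Ex0 r v)
    (hc : v.G ⊆ s.G ∨ s.G ⊆ v.G) (huv : u.G ⊆ v.G) {x : α} (hxv : x ∈ v.G) (hxu : x ∉ u.G)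
    (hx : x ∈ s.F → x ∈ s.G) : hB r s u < hB r s v := by
  unfold hB
  have h1 := nr_mono h ∅ (inter_subset_inter_right (u := s.G) huv)
  have h2 := nr_mono h s.F (sdiff_subset_sdiff huv (Subset.refl s.F))
  by_cases hxF : x ∈ s.F
  · have hxG := hx hxF
    have h3 : nr r ∅ (u.G ∩ s.G) < nr r ∅ (v.G ∩ s.G) := by
      refine nr_lt h ∅ (x := x) (mem_inter.2 ⟨hxv, hxG⟩) ?_ ?_
      · rw [empty_union, empty_union]
        rcases hc with hc | hc
        · rw [inter_eq_left.2 hc]
          exact hv.cyc x hxv
        · rw [inter_eq_right.2 hc]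
          exact hs.cyc x hxG
      · intro y hy
        rw [mem_inter] at hy
        rw [mem_erase, mem_inter]
        refine ⟨?_, huv hy.1, hy.2⟩
        rintro rfl
        exact hxu hy.1
    omega
  · have h3 : nr r s.F (u.G \ s.F) < nr r s.F (v.G \ s.F) := by
      refine nr_lt h s.F (x := x) (mem_sdiff.2 ⟨hxv, hxF⟩) ?_ ?_
      · have h4 : r (insert x (v.G.erase x)) = r (v.G.erase x) := by
          rw [insert_erase hxv, hv.cyc x hxv]
        have h5 : v.G.erase x ⊆ s.F ∪ (v.G \ s.F).erase x := by
          intro y hy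
          rw [mem_erase] at hy
          rw [mem_union, mem_erase, mem_sdiff]
          by_cases hyF : y ∈ s.F
          · exact Or.inl hyF
          · exact Or.inr ⟨hy.1, hy.2, hyF⟩
        have h6 := h.closure h4 h5
        rw [← h6]
        congr 1
        ext y
        rw [mem_insert, mem_union, mem_union, mem_erase, mem_sdiff]
        constructor
        · rintro (rfl | h7 | h7)
          · exact Or.inr ⟨hxv, hxF⟩
          · exact Or.inl h7
          · exact Or.inr h7.2
        · rintro (h7 | h7)
          · exact Or.inr (Or.inl h7)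
          · by_cases hyx : y = x
            · exact Or.inl hyx
            · exact Or.inr (Or.inr ⟨hyx, h7⟩)
      · intro y hy
        rw [mem_sdiff] at hy
        rw [mem_erase, mem_sdiff]
        refine ⟨?_, huv hy.1, hy.2⟩
        rintro rfl
        exact hxu hy.1
    omega

theorem S_mono {u v : Pt α} (h : u ≤ v) :
    (if u.S = true then 1 else 0) ≤ (if v.S = true then 1 else 0 : ℕ) := by
  by_cases hu : u.S = true
  · rw [if_pos hu, if_pos (h.2.2.1 hu)]
  · rw [if_neg hu]
    exact Nat.zero_le _

theorem T_mono {u v : Pt α} (h : u ≤ v) :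
    (if u.T = true then 1 else 0) ≤ (if v.T = true then 1 else 0 : ℕ) := by
  by_cases hu : u.T = true
  · rw [if_pos hu, if_pos (h.2.2.2 hu)]
  · rw [if_neg hu]
    exact Nat.zero_le _

theorem H_mono (h : IsRank r) {s u v : Pt α} (huv : u ≤ v) : H r s u ≤ H r s v := by
  have h1 := hA_mono h (s := s) huv.1
  have h2 := hB_mono h (s := s) huv.2.1
  have h3 := S_mono huv
  have h4 := T_mono huv
  unfold H
  omega

/-- comparable -/
def Cp (s u : Pt α) : Prop := u ≤ s ∨ s ≤ u

theorem Cp.F {s u : Pt α} (h : Cp s u) : u.F ⊆ s.F ∨ s.F ⊆ u.F := by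
  rcases h with h | h
  · exact Or.inl h.1
  · exact Or.inr h.1

theorem Cp.G {s u : Pt α} (h : Cp s u) : u.G ⊆ s.G ∨ s.G ⊆ u.G := by
  rcases h with h | h
  · exact Or.inl h.2.1
  · exact Or.inr h.2.1

theorem H_lt (h : IsRank r) {s u v : Pt α} (hs : Ex0 r s) (hu : Ex0 r u) (hv : Ex0 r v)
    (cu : Cp s u) (cv : Cp s v) (huv : u ≤ v) (hne : rel s u ≠ rel s v) : H r s u < H r s v := by
  have h1 := hA_mono h (s := s) huv.1
  have h2 := hB_mono h (s := s) huv.2.1
  have h3 := S_mono huv
  have h4 := T_mono huv
  by_contra hcon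
  unfold H at hcon
  apply hne
  unfold rel
  rw [Prod.mk.injEq, Prod.mk.injEq, Prod.mk.injEq]
  refine ⟨?_, ?_, ?_, ?_⟩
  · ext x
    rw [mem_filter, mem_filter]
    constructor
    · rintro ⟨h5, h6⟩
      exact ⟨huv.1 h5, h6⟩
    · rintro ⟨h5, h6⟩
      refine ⟨?_, h6⟩
      by_contra hxu
      have := hA_lt h hs hu cu.F huv.1 h5 hxu (fun h7 => by
        by_contra h8
        exact h6 ⟨h7, h8⟩)
      omega
  · ext x
    rw [mem_filter, mem_filter]
    constructor
    · rintro ⟨h5, h6⟩
      exact ⟨huv.2.1 h5, h6⟩
    · rintro ⟨h5, h6⟩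
      refine ⟨?_, h6⟩
      by_contra hxu
      have := hB_lt h hs hv cv.G huv.2.1 h5 hxu (fun h7 => by
        by_contra h8
        exact h6 ⟨h7, h8⟩)
      omega
  · by_contra hS
    cases hu' : u.S with
    | true => exact hS (by rw [hu', huv.2.2.1 hu'])
    | false =>
      cases hv' : v.S with
      | false => exact hS (by rw [hu', hv'])
      | true =>
        rw [hu', hv'] at h3
        rw [hu', hv'] at hcon
        simp only [Bool.false_eq_true, if_false, if_true] at hcon
        omega
  · by_contra hT
    cases hu' : u.T with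
    | true => exact hT (by rw [hu', huv.2.2.2 hu'])
    | false =>
      cases hv' : v.T with
      | false => exact hT (by rw [hu', hv'])
      | true =>
        rw [hu', hv'] at h4
        rw [hu', hv'] at hcon
        simp only [Bool.false_eq_true, if_false, if_true] at hcon
        omega

theorem H_lt2 (h : IsRank r) {s u v : Pt α} (hs : Ex0 r s) (hu : Ex0 r u) (hv : Ex0 r v)
    (cu : Cp s u) (cv : Cp s v) (huv : u ≤ v) {i : α} (hi : i ∈ s.F → i ∈ s.G)
    (h5 : ¬ (i ∈ u.F ∧ u.S = true)) (h6 : ¬ (i ∈ u.G ∨ u.T = true))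
    (h7 : i ∈ v.F ∧ v.S = true) (h8 : i ∈ v.G ∨ v.T = true) : H r s u + 2 ≤ H r s v := by
  have h1 := hA_mono h (s := s) huv.1
  have h2 := hB_mono h (s := s) huv.2.1
  have h3 := S_mono huv
  have h4 := T_mono huv
  have k1 : hA r s u + (if u.S = true then 1 else 0) + 1 ≤
      hA r s v + (if v.S = true then 1 else 0) := by
    by_cases hiu : i ∈ u.F
    · have hS : ¬ u.S = true := fun h9 => h5 ⟨hiu, h9⟩
      rw [if_neg hS, if_pos h7.2]
      omega
    · have := hA_lt h hs hu cu.F huv.1 h7.1 hiu hi
      omega
  have k2 : hB r s u + (if u.T = true then 1 else 0) + 1 ≤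
      hB r s v + (if v.T = true then 1 else 0) := by
    rw [not_or] at h6
    rcases h8 with h8 | h8
    · have := hB_lt h hs hv cv.G huv.2.1 h8 h6.1 hi
      omega
    · rw [if_neg h6.2, if_pos h8]
      omega
  unfold H
  omega

theorem H_top (h : IsRank r) {s : Pt α} (hs : Ex0 r s) :
    H r s (top r) ≤ 2 + s.G.card + (univ \ s.F).card := by
  have hle := (le_top h hs).2.1
  have e1 : (top r).F = univ := rfl
  have e2 : (top r).S = true := rfl
  have e3 : (top r).T = true := rfl
  unfold H hA hB nr
  rw [e1, e2, e3, if_pos rfl, univ_inter, union_eq_left.2 (subset_univ s.F), inter_eq_right.2 hle, empty_union,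
    h.empty]
  set N := (top r).G with hN
  have h1 := h.card_le (s.F ∪ N \ s.F) (univ \ (s.F ∪ N))
  have e4 : s.F ∪ N \ s.F ∪ univ \ (s.F ∪ N) = univ := by
    ext x
    simp only [mem_union, mem_sdiff, mem_univ, true_and, iff_true]
    tauto
  rw [e4] at h1
  have h2 : (N \ s.F).card + (univ \ (s.F ∪ N)).card = (univ \ s.F).card := by
    rw [← card_union_of_disjoint]
    · congr 1
      ext x
      simp only [mem_union, mem_sdiff, mem_univ, true_and]
      tauto
    · rw [disjoint_left]
      intro x hx hx'
      simp only [mem_union, mem_sdiff, mem_univ, true_and] at hx hx'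
      exact hx' (Or.inr hx.1)
  have h3 : r s.G ≤ s.G.card := by
    have := h.card_le ∅ s.G
    rw [empty_union, h.empty] at this
    omega
  have h4 : r s.F ≤ r univ := h.mono_subset (subset_univ _)
  have h5 := h.card_le s.F (N \ s.F)
  omega

/-! ### counting -/

theorem count {β : Type} [DecidableEq β] (R : Finset β) (f : β → ℕ) (M : ℕ)
    (hM : ∀ u ∈ R, f u ≤ M) (inj : ∀ u ∈ R, ∀ v ∈ R, f u = f v → u = v) (op : β → Prop)
    {b t : β} (hb : b ∈ R) (ht : t ∈ R) (hbo : ¬ op b) (hto : op t)
    (h2 : ∀ u ∈ R, ∀ v ∈ R, ¬ op u → op v → f u + 2 ≤ f v) : R.card ≤ M := by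
  classical
  obtain ⟨m, hm, hmax⟩ := (R.filter (fun u => ¬ op u)).exists_max_image f
    ⟨b, mem_filter.2 ⟨hb, hbo⟩⟩
  rw [mem_filter] at hm
  have h1 : (R.image f) ⊆ (range (M + 1)).erase (f m + 1) := by
    intro y hy
    rw [mem_image] at hy
    obtain ⟨u, hu, rfl⟩ := hy
    rw [mem_erase, mem_range]
    refine ⟨?_, ?_⟩
    · intro h3
      by_cases hop : op u
      · have := h2 m hm.1 u hu hm.2 hop
        omega
      · have := hmax u (mem_filter.2 ⟨hu, hop⟩)
        omega
    · have := hM u hu
      omega
  have h3 := card_le_card h1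
  have h4 : (R.image f).card = R.card := card_image_of_injOn (fun u hu v hv h5 => inj u hu v hv h5)
  have h5 : f m + 1 ∈ range (M + 1) := by
    rw [mem_range]
    have h6 := h2 m hm.1 t ht hm.2 hto
    have h7 := hM t ht
    omega
  rw [h4, card_erase_of_mem h5, card_range] at h3
  omega

end NCNT

open NCNT in
theorem CNT_thm : Stmt_CNT := by
  intro α _ _ r hr s ρ hF hs hS hT hFG hbt hinj
  classical
  have hex : ∀ u ∈ ρ, Ex0 r u := fun u hu => (hF.1.1 u hu).ex
  have hsx := hex s hs
  obtain ⟨i, hi⟩ : ∃ i, ∀ u ∈ ρ, Nop i u := by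
    rcases hF.2 with h | h
    · rw [h] at hs
      exact absurd hs (notMem_empty _)
    · exact h
  have hiK : i ∈ s.F → i ∈ s.G := by
    intro h
    rcases hi s hs h hS with h1 | h1
    · exact h1
    · rw [hT] at h1
      exact absurd h1 (by simp)
  set R := insert (bot r) (insert (top r) ρ) with hR
  have hRx : ∀ u ∈ R, Ex0 r u := by
    intro u hu
    rw [hR, mem_insert, mem_insert] at hu
    rcases hu with rfl | rfl | hu
    · exact ex_bot hr
    · exact ex_top hr
    · exact hex u hu
  have hbR : bot r ∈ R := mem_insert_self _ _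
  have htR : top r ∈ R := mem_insert_of_mem (mem_insert_self _ _)
  have hcmp : ∀ u ∈ R, ∀ v ∈ R, u ≤ v ∨ v ≤ u := by
    intro u hu v hv
    have hxu := hRx u hu
    have hxv := hRx v hv
    rw [hR, mem_insert, mem_insert] at hu hv
    rcases hu with rfl | rfl | hu
    · exact Or.inl (bot_le hr hxv)
    · exact Or.inr (le_top hr hxv)
    · rcases hv with rfl | rfl | hv
      · exact Or.inr (bot_le hr hxu)
      · exact Or.inl (le_top hr hxu)
      · exact hF.1.2 u hu v hv
  have hsR : s ∈ R := by
    rw [hR, mem_insert, mem_insert]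
    exact Or.inr (Or.inr hs)
  have hcp : ∀ u ∈ R, Cp s u := fun u hu => hcmp u hu s hsR
  have hbtne : rel s (bot r) ≠ rel s (top r) := by
    intro h
    unfold rel at h
    rw [Prod.mk.injEq, Prod.mk.injEq, Prod.mk.injEq] at h
    have h1 : (bot r).S = false := rfl
    have h2 : (top r).S = true := rfl
    rw [h1, h2] at h
    exact absurd h.2.2.1 (by simp)
  have hrel : ∀ u ∈ R, ∀ v ∈ R, rel s u = rel s v → u = v := by
    intro u hu v hv h
    rw [hR, mem_insert, mem_insert] at hu hv
    rcases hu with rfl | rfl | hu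
    · rcases hv with rfl | rfl | hv
      · rfl
      · exact absurd h hbtne
      · exact absurd h.symm (hbt v hv).1
    · rcases hv with rfl | rfl | hv
      · exact absurd h.symm hbtne
      · rfl
      · exact absurd h.symm (hbt v hv).2
    · rcases hv with rfl | rfl | hv
      · exact absurd h (hbt u hu).1
      · exact absurd h (hbt u hu).2
      · exact hinj u hu v hv h
  have hHinj : ∀ u ∈ R, ∀ v ∈ R, H r s u = H r s v → u = v := by
    intro u hu v hv h
    by_contra hne
    have hne' : rel s u ≠ rel s v := fun h1 => hne (hrel u hu v hv h1)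
    rcases hcmp u hu v hv with h1 | h1
    · have := H_lt hr hsx (hRx u hu) (hRx v hv) (hcp u hu) (hcp v hv) h1 hne'
      omega
    · have := H_lt hr hsx (hRx v hv) (hRx u hu) (hcp v hv) (hcp u hu) h1 (Ne.symm hne')
      omega
  have hnop : ∀ u ∈ R, i ∈ u.F ∧ u.S = true → i ∈ u.G ∨ u.T = true := by
    intro u hu h
    rw [hR, mem_insert, mem_insert] at hu
    rcases hu with rfl | rfl | hu
    · have h1 : (bot r).S = false := rfl
      rw [h1] at h
      exact absurd h.2 (by simp)
    · exact Or.inr rfl
    · exact hi u hu h.1 h.2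
  have hcl : ∀ u ∈ R, i ∈ u.G ∨ u.T = true → i ∈ u.F ∧ u.S = true := by
    intro u hu h
    have hx := hRx u hu
    rcases h with h | h
    · exact ⟨hx.GF h, hx.GS ⟨i, h⟩⟩
    · refine ⟨?_, hx.TS h⟩
      rw [hx.TF h]
      exact mem_univ i
  have hcount := count R (H r s) (H r s (top r)) (fun u hu => H_mono hr (le_top hr (hRx u hu)))
    hHinj (fun u => i ∈ u.F ∧ u.S = true) hbR htR
    (by
      intro h
      have h1 : (bot r).S = false := rfl
      rw [h1] at h
      exact absurd h.2 (by simp))
    ⟨mem_univ i, rfl⟩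
    (by
      intro u hu v hv h1 h2
      have huv : u ≤ v := by
        rcases hcmp u hu v hv with h3 | h3
        · exact h3
        · exact absurd ⟨h3.1 h2.1, h3.2.2.1 h2.2⟩ h1
      exact H_lt2 hr hsx (hRx u hu) (hRx v hv) (hcp u hu) (hcp v hv) huv hiK h1
        (fun h3 => h1 (hcl u hu h3)) h2 (hnop v hv h2))
  have hntop : top r ∉ ρ := fun h => (hbt _ h).2 rfl
  have hnbot : bot r ∉ insert (top r) ρ := by
    rw [mem_insert, not_or]
    exact ⟨fun h => hbtne (by rw [h]), fun h => (hbt _ h).1 rfl⟩
  rw [hR, card_insert_of_notMem hnbot, card_insert_of_notMem hntop] at hcount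
  have h1 := H_top hr hsx
  have h2 : s.G.card < s.F.card := card_lt_card (lt_of_le_of_ne hsx.GF (Ne.symm hFG))
  have h3 : (univ \ s.F).card + s.F.card = Fintype.card α := by
    rw [card_sdiff_add_card_eq_card (subset_univ _), card_univ]
  omega

end Pool.Agent.QPR
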