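import Pool.Agent.QPR.Nm

/-!
# Compatible pairs of functions (module QPN_COM)
-/

set_option autoImplicit false

open Finset

namespace Pool.Agent.QPR

namespace NCOM

variable {α : Type} [Fintype α] [DecidableEq α] {r : Finset α → ℕ} {al be : ℝ} {e : α}

/-- The pairs `f`, `g` with `f u = g (dnP e u)`. -/
lemma comp0 (hs : Sep r al be) (r' : Finset (Del e) → ℕ) (k : Pt α) (f : Pt α → ℝ)
    (g : Pt (Del e) → ℝ) (h1 : ∀ u, f u = g (dnP e u)) (h2 : g (bot r') = 0)
    (h3 : g (top r') = 0) (hk : f k = 0) : Comp (cx r al be hs) (pj e r') k f g := by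
  refine ⟨0, (cx r al be hs).L.zero_mem, ?_, ?_⟩
  · rw [hk, Pi.zero_apply]
  · intro u _ _
    rw [Pi.zero_apply, sub_zero]
    unfold pj
    by_cases h : dnP e u = bot r' ∨ dnP e u = top r'
    · rw [if_pos h, h1]
      rcases h with h | h
      · rw [h, h2]
        rfl
      · rw [h, h3]
        rfl
    · rw [if_neg h, h1]
      rfl

lemma xi_dn (u : Pt α) : Xi al be u = Xi al be (dnP e u) := rfl

lemma xi_bot (r' : Finset α → ℕ) : Xi al be (bot r') = 0 := by
  unfold Xi bot
  simp

lemma xi_top (r' : Finset α → ℕ) : Xi al be (top r') = 0 := by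
  unfold Xi top
  simp

lemma cc_dn (f : Del e) (u : Pt α) : cc f.1 u = cc f (dnP e u) := by
  unfold cc dnP
  simp only [mem_dn]

lemma dd_dn (f : Del e) (u : Pt α) : dd f.1 u = dd f (dnP e u) := by
  unfold dd dnP
  simp only [mem_dn]

lemma cc_bot {r' : Finset α → ℕ} {f : α} (h : ¬ Loo r' f) : cc f (bot r') = 0 := by
  unfold cc bot
  simp [h]

lemma cc_top (r' : Finset α → ℕ) (f : α) : cc f (top r') = 0 := by
  unfold cc top
  simp

lemma dd_bot (r' : Finset α → ℕ) (f : α) : dd f (bot r') = 0 := by
  unfold dd bot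
  simp

lemma dd_top {r' : Finset α → ℕ} {f : α} (h : ¬ Clo r' f) : dd f (top r') = 0 := by
  unfold dd top
  simp [h]

lemma up_single (f : Del e) : up ({f} : Finset (Del e)) = {f.1} := by
  unfold up
  rfl

lemma ins_up_univ : insert e (up (univ : Finset (Del e))) = univ := by
  rw [up_univ]
  exact insert_erase (mem_univ e)

lemma ins_up_erase (f : Del e) : insert e (up ((univ : Finset (Del e)).erase f))
    = (univ : Finset α).erase f.1 := by
  rw [up_erase, up_univ]
  ext a
  simp only [mem_insert, mem_erase, mem_univ, and_true]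
  constructor
  · rintro (h | h)
    · rw [h]
      exact fun h2 => f.2 h2.symm
    · exact h.1
  · intro h
    by_cases ha : a = e
    · exact Or.inl ha
    · exact Or.inr ⟨h, ha⟩

end NCOM

open NCOM in
theorem COM_thm : Stmt_COM := by
  intro α _ _ r al be e hs hr _
  refine ⟨fun _ => ⟨?_, ?_, ?_⟩, fun _ => ⟨?_, ?_, ?_⟩⟩
  · exact comp0 hs (rc r e) _ _ _ xi_dn (xi_bot _) (xi_top _) (by unfold Xi kc; simp)
  · intro f hf
    refine comp0 hs (rc r e) _ _ _ (cc_dn f) (cc_bot ?_) (cc_top _ _) ?_
    · intro h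
      apply hf
      unfold Loo rc at h
      rw [up_single] at h
      rw [mem_cl]
      have h1 := hr.mono {e} f.1
      have h2 : insert e ({f.1} : Finset α) = insert f.1 {e} := pair_comm _ _
      rw [h2] at h
      omega
    · unfold cc kc
      simp only
      rw [if_neg]
      exact fun h => hf h.2
  · intro f hf
    refine comp0 hs (rc r e) _ _ _ (dd_dn f) (dd_bot _ _) (dd_top ?_) ?_
    · unfold Clo rc
      rw [ins_up_univ, ins_up_erase]
      unfold Clo at hf
      push Not at hf ⊢
      rw [hf]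
    · unfold dd kc
      simp
  · exact comp0 hs (rd r e) _ _ _ xi_dn (xi_bot _) (xi_top _) (by unfold Xi kd; simp)
  · intro f hf
    refine comp0 hs (rd r e) _ _ _ (dd_dn f) (dd_bot _ _) (dd_top ?_) ?_
    · unfold Clo rd
      rw [up_erase, up_univ]
      rw [mem_cyc] at hf
      push Not
      exact hf.2
    · unfold dd kd
      simp only
      rw [if_neg]
      exact fun h => h.2 hf
  · intro f hf
    refine comp0 hs (rd r e) _ _ _ (cc_dn f) (cc_bot ?_) (cc_top _ _) ?_
    · unfold Loo rd
      rw [up_single]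
      exact hf
    · unfold cc kd
      simp

end Pool.Agent.QPR
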