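import Pool.Agent.QPR.Nm

/-!
# Module MIN: minors are rank functions
-/

set_option autoImplicit false

open Finset

namespace Pool.Agent.QPR

namespace NMIN

variable {α : Type} [Fintype α] [DecidableEq α] {r : Finset α → ℕ} {e : α}

theorem up_empty : up (∅ : Finset (Del e)) = ∅ := rfl

theorem le_e (hr : IsRank r) (A : Finset α) : r {e} ≤ r (insert e A) :=
  hr.mono_subset (by
    intro a ha
    rw [mem_singleton] at ha
    rw [ha]
    exact mem_insert_self _ _)

theorem ins_up (f : Del e) (A : Finset (Del e)) :
    insert e (up (insert f A)) = insert f.1 (insert e (up A)) := by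
  rw [up_insert, Finset.insert_comm]

theorem rc_rank (hr : IsRank r) : IsRank (rc r e) := by
  refine ⟨?_, ?_, ?_, ?_⟩
  · unfold rc
    rw [up_empty]
    simp
  · intro A f
    unfold rc
    rw [ins_up]
    have := hr.mono (insert e (up A)) f.1
    omega
  · intro A f
    unfold rc
    rw [ins_up]
    have h1 := hr.le_succ (insert e (up A)) f.1
    have h2 := le_e (e := e) hr (up A)
    omega
  · intro A f g h1 h2
    unfold rc at h1 h2 ⊢
    rw [ins_up] at h1 h2
    rw [ins_up, ins_up]
    have h3 := le_e (e := e) hr (up A)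
    have m1 := hr.mono (insert e (up A)) f.1
    have m2 := hr.mono (insert e (up A)) g.1
    have h4 := hr.closed (insert e (up A)) f.1 g.1 (by omega) (by omega)
    rw [h4]

theorem rd_rank (hr : IsRank r) : IsRank (rd r e) := by
  refine ⟨?_, ?_, ?_, ?_⟩
  · unfold rd
    rw [up_empty]
    exact hr.empty
  · intro A f
    unfold rd
    rw [up_insert]
    exact hr.mono _ _
  · intro A f
    unfold rd
    rw [up_insert]
    exact hr.le_succ _ _
  · intro A f g h1 h2
    unfold rd at h1 h2 ⊢
    rw [up_insert] at h1 h2
    rw [up_insert, up_insert]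
    exact hr.closed _ _ _ h1 h2

theorem up_sub {A R : Finset (Del e)} (h : A ⊆ R) : up A ⊆ up R := by
  intro a ha
  rw [mem_up] at ha ⊢
  obtain ⟨h1, h2⟩ := ha
  exact ⟨h1, h h2⟩

theorem sum_up (R : Finset (Del e)) (F : Finset α → ℝ) :
    ∑ A ∈ R.powerset, F (up A) = ∑ B ∈ (up R).powerset, F B := by
  refine Finset.sum_nbij' (fun A => up A) (fun B => dn e B) ?_ ?_ ?_ ?_ ?_
  · intro A hA
    rw [mem_powerset] at hA ⊢
    exact up_sub hA
  · intro B hB
    rw [mem_powerset] at hB ⊢
    intro f hf
    rw [mem_dn] at hf
    have h1 := hB hf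
    rw [mem_up] at h1
    exact h1.2
  · intro A _
    exact dn_up A
  · intro B hB
    rw [mem_powerset] at hB
    have h1 : e ∉ B := fun h => notMem_up R (hB h)
    change up (dn e B) = B
    rw [up_dn, erase_eq_of_notMem h1]
  · intro A _
    rfl

end NMIN

open NMIN in
theorem MIN_thm : Stmt_MIN := by
  intro α _ _ r hr e
  refine ⟨rc_rank hr, rd_rank hr, ?_⟩
  intro x y C R
  constructor
  · unfold TT
    rw [← sum_up R (fun B => (x - 1) ^ (r (insert e (up C) ∪ up R) - r (insert e (up C) ∪ B)) *
      (y - 1) ^ (B.card + r (insert e (up C)) - r (insert e (up C) ∪ B)))]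
    apply Finset.sum_congr rfl
    intro A _
    have h1 : rc r e (C ∪ R) = r (insert e (up C) ∪ up R) - r {e} := by
      unfold rc
      rw [up_union, insert_union]
    have h2 : rc r e (C ∪ A) = r (insert e (up C) ∪ up A) - r {e} := by
      unfold rc
      rw [up_union, insert_union]
    have h3 : rc r e C = r (insert e (up C)) - r {e} := rfl
    have l1 := le_e (e := e) hr (up C)
    have l2 : r (insert e (up C)) ≤ r (insert e (up C) ∪ up A) :=
      hr.mono_subset subset_union_left
    have l3 : r (insert e (up C)) ≤ r (insert e (up C) ∪ up R) :=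
      hr.mono_subset subset_union_left
    have e1 : rc r e (C ∪ R) - rc r e (C ∪ A) =
        r (insert e (up C) ∪ up R) - r (insert e (up C) ∪ up A) := by
      rw [h1, h2]
      omega
    have e2 : A.card + rc r e C - rc r e (C ∪ A) =
        (up A).card + r (insert e (up C)) - r (insert e (up C) ∪ up A) := by
      rw [h2, h3, card_up]
      omega
    rw [e1, e2]
  · unfold TT
    rw [← sum_up R (fun B => (x - 1) ^ (r (up C ∪ up R) - r (up C ∪ B)) *
      (y - 1) ^ (B.card + r (up C) - r (up C ∪ B)))]
    apply Finset.sum_congr rfl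
    intro A _
    unfold rd
    rw [up_union, up_union, card_up]

end Pool.Agent.QPR
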