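import Pool.Agent.QPR.Nm

/-!
# NEF: the class `Xi` is nef (helper80)

MP_9c4433_lc, part (1).
-/

set_option autoImplicit false

open Finset

namespace Pool.Agent.QPR

namespace NNEF

variable {α : Type} [Fintype α] [DecidableEq α] {r : Finset α → ℕ} {al be : ℝ}

/-- the three kinds of states -/
theorem kinds {s : Pt α} (h : Ex0 r s) : (s.S = false ∧ s.T = false ∧ s.G = ∅) ∨
    (s.S = true ∧ s.T = false) ∨ (s.S = true ∧ s.T = true ∧ s.F = univ) := by
  cases hS : s.S with
  | false =>
    left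
    refine ⟨rfl, ?_, ?_⟩
    · cases hT : s.T with
      | false => rfl
      | true =>
        have := h.TS hT
        rw [hS] at this
        exact this.symm
    · by_contra hG
      have := h.GS (nonempty_iff_ne_empty.2 hG)
      rw [hS] at this
      cases this
  | true =>
    right
    cases hT : s.T with
    | false => exact Or.inl ⟨rfl, rfl⟩
    | true => exact Or.inr ⟨rfl, rfl, h.TF hT⟩

/-- `i` is not a loop if a flat does not contain it -/
theorem not_loo (hr : IsRank r) {s : Pt α} (h : Ex0 r s) {i : α} (hi : i ∉ s.F) : ¬ Loo r i := by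
  intro hl
  have h1 := h.flat i hi
  have h2 : r (insert i ∅) = r ∅ := by
    rw [hr.empty]
    exact hl
  have h3 := hr.closure h2 (empty_subset s.F)
  omega

/-- `i` is not a coloop if a cyclic set contains it -/
theorem not_clo (hr : IsRank r) {s : Pt α} (h : Ex0 r s) {i : α} (hi : i ∈ s.G) : ¬ Clo r i := by
  intro hc
  have h1 := h.cyc i hi
  have h2 : r (insert i (s.G.erase i)) = r (s.G.erase i) := by
    rw [insert_erase hi, h1]
  have h3 := hr.closure h2 (erase_subset_erase i (subset_univ s.G))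
  rw [insert_erase (mem_univ i)] at h3
  exact hc h3.symm

theorem vv_mem {i : α} (h : ¬ Loo r i) : vv al i ∈ Lin r al be :=
  Submodule.subset_span (Or.inl ⟨i, h, rfl⟩)

theorem zz_mem {i : α} (h : ¬ Clo r i) : zz be i ∈ Lin r al be :=
  Submodule.subset_span (Or.inr ⟨i, h, rfl⟩)

theorem Xi_mid {s : Pt α} (h : s.S = true ∧ s.T = false) : Xi al be s = 1 - al - be := by
  unfold Xi
  rw [if_pos h]

theorem Xi_left {s : Pt α} (h : s.S = false) : Xi al be s = 0 := by
  unfold Xi
  rw [if_neg]
  rintro ⟨h1, _⟩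
  rw [h] at h1
  cases h1

theorem Xi_right {s : Pt α} (h : s.T = true) : Xi al be s = 0 := by
  unfold Xi
  rw [if_neg]
  rintro ⟨_, h1⟩
  rw [h] at h1
  cases h1

theorem vv_val (i : α) {s : Pt α} (h : Ex0 r s) :
    (s.S = false ∧ s.T = false ∧ vv al i s = if i ∈ s.F then -1 else 0) ∨
    (s.S = true ∧ s.T = false ∧ vv al i s = if i ∈ s.F then -al else 1 - al) ∨
    (s.S = true ∧ s.T = true ∧ vv al i s = 0) := by
  rcases kinds h with ⟨h1, h2, _⟩ | ⟨h1, h2⟩ | ⟨h1, h2, h3⟩
  · refine Or.inl ⟨h1, h2, ?_⟩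
    unfold vv
    rw [h1, h2]
    split_ifs <;> simp_all
  · refine Or.inr (Or.inl ⟨h1, h2, ?_⟩)
    unfold vv
    rw [h1, h2]
    by_cases hi : i ∈ s.F
    · simp only [hi, if_true, if_false, Bool.false_eq_true]
      ring
    · simp only [hi, if_true, if_false, Bool.false_eq_true]
      ring
  · refine Or.inr (Or.inr ⟨h1, h2, ?_⟩)
    unfold vv
    rw [h1, h2, h3, if_pos (mem_univ i), if_pos rfl, if_pos rfl]
    ring

theorem zz_val (i : α) {s : Pt α} (h : Ex0 r s) :
    (s.S = false ∧ s.T = false ∧ zz be i s = 0) ∨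
    (s.S = true ∧ s.T = false ∧ zz be i s = if i ∈ s.G then 1 - be else -be) ∨
    (s.S = true ∧ s.T = true ∧ zz be i s = if i ∈ s.G then 0 else -1) := by
  rcases kinds h with ⟨h1, h2, h3⟩ | ⟨h1, h2⟩ | ⟨h1, h2, h3⟩
  · refine Or.inl ⟨h1, h2, ?_⟩
    unfold zz
    rw [h1, h2, h3]
    simp
  · refine Or.inr (Or.inl ⟨h1, h2, ?_⟩)
    unfold zz
    rw [h1, h2]
    by_cases hi : i ∈ s.G
    · simp [hi]
    · simp [hi]
  · refine Or.inr (Or.inr ⟨h1, h2, ?_⟩)
    unfold zz
    rw [h1, h2]
    by_cases hi : i ∈ s.G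
    · simp [hi]
    · simp only [hi, if_true, if_false]
      ring

omit [Fintype α] [DecidableEq α] in
/-- left states of a face are below the middle states -/
theorem left_le {s t : Pt α} (h : s ≤ t ∨ t ≤ s) (hs : s.S = false) (ht : t.S = true) :
    s.F ⊆ t.F := by
  rcases h with h | h
  · exact h.1
  · have := h.2.2.1 ht
    rw [hs] at this
    cases this

omit [Fintype α] [DecidableEq α] in
/-- right states of a face are above the middle states -/
theorem right_ge {s t : Pt α} (h : s ≤ t ∨ t ≤ s) (hs : s.T = false) (ht : t.T = true) :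
    s.G ⊆ t.G := by
  rcases h with h | h
  · exact h.2.1
  · have := h.2.2.2 ht
    rw [hs] at this
    cases this

end NNEF

open NNEF in
/-- (NEF) -/
theorem NEF_thm : Stmt_NEF := by
  intro α _ _ r al be hs hr hw ρ hρ
  have ha := hw.a0
  have hb := hw.b0
  have hab := hw.ab
  change Fc r ρ at hρ
  change ∃ l ∈ Lin r al be, (∀ u ∈ ρ, l u = Xi al be u) ∧ ∀ v, v ∉ ρ → Fc r (insert v ρ) →
    l v ≤ Xi al be v
  have hst : ∀ v, Fc r (insert v ρ) → Ex0 r v := fun v hv => (hv.1.1 v (mem_insert_self _ _)).ex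
  by_cases hmid : ∃ u ∈ ρ, u.S = true ∧ u.T = false
  · obtain ⟨u0, hu0, hm0⟩ := hmid
    obtain ⟨i, hi⟩ : ∃ i, ∀ s ∈ ρ, Nop i s := by
      rcases hρ.2 with h | h
      · rw [h] at hu0
        simp at hu0
      · exact h
    have hex : ∀ u ∈ ρ, Ex0 r u := fun u hu => (hρ.1.1 u hu).ex
    have hmi : ∀ u ∈ ρ, u.S = true → u.T = false → i ∈ u.F → i ∈ u.G := by
      intro u hu h1 h2 h3
      rcases hi u hu h3 h1 with h | h
      · exact h
      · rw [h2] at h
        cases h
    by_cases hA : ∀ u ∈ ρ, u.S = true → u.T = false → i ∈ u.G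
    · have hiG := hA u0 hu0 hm0.1 hm0.2
      have hy : 0 < (1 - al - be) / (1 - be) := div_pos (by linarith) (by linarith)
      have hy1 : (1 - al - be) / (1 - be) * (1 - be) = 1 - al - be :=
        div_mul_cancel₀ _ (by linarith)
      refine ⟨((1 - al - be) / (1 - be)) • zz be i,
        Submodule.smul_mem _ _ (zz_mem (not_clo hr (hex u0 hu0) hiG)), ?_, ?_⟩
      · intro u hu
        rw [Pi.smul_apply, smul_eq_mul]
        rcases zz_val (be := be) i (hex u hu) with ⟨h1, h2, h3⟩ | ⟨h1, h2, h3⟩ | ⟨h1, h2, h3⟩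
        · rw [h3, Xi_left h1, mul_zero]
        · rw [h3, Xi_mid ⟨h1, h2⟩, if_pos (hA u hu h1 h2), hy1]
        · rw [h3, Xi_right h2, if_pos (right_ge (hρ.1.2 u0 hu0 u hu) hm0.2 h2 hiG), mul_zero]
      · intro v _ hv
        rw [Pi.smul_apply, smul_eq_mul]
        rcases zz_val (be := be) i (hst v hv) with ⟨h1, h2, h3⟩ | ⟨h1, h2, h3⟩ | ⟨h1, h2, h3⟩
        · rw [h3, Xi_left h1, mul_zero]
        · rw [h3, Xi_mid ⟨h1, h2⟩]
          split_ifs
          · rw [hy1]
          · nlinarith [mul_pos hy hb]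
        · rw [h3, Xi_right h2]
          split_ifs
          · rw [mul_zero]
          · linarith
    · by_cases hB : ∀ u ∈ ρ, u.S = true → u.T = false → i ∉ u.F
      · have hiF := hB u0 hu0 hm0.1 hm0.2
        have hx : 0 < (1 - al - be) / (1 - al) := div_pos (by linarith) (by linarith)
        have hx1 : (1 - al - be) / (1 - al) * (1 - al) = 1 - al - be :=
          div_mul_cancel₀ _ (by linarith)
        refine ⟨((1 - al - be) / (1 - al)) • vv al i,
          Submodule.smul_mem _ _ (vv_mem (not_loo hr (hex u0 hu0) hiF)), ?_, ?_⟩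
        · intro u hu
          rw [Pi.smul_apply, smul_eq_mul]
          rcases vv_val (al := al) i (hex u hu) with ⟨h1, h2, h3⟩ | ⟨h1, h2, h3⟩ | ⟨h1, h2, h3⟩
          · rw [h3, Xi_left h1, if_neg (fun h => hiF
              (left_le (hρ.1.2 u hu u0 hu0) h1 hm0.1 h)), mul_zero]
          · rw [h3, Xi_mid ⟨h1, h2⟩, if_neg (hB u hu h1 h2), hx1]
          · rw [h3, Xi_right h2, mul_zero]
        · intro v _ hv
          rw [Pi.smul_apply, smul_eq_mul]
          rcases vv_val (al := al) i (hst v hv) with ⟨h1, h2, h3⟩ | ⟨h1, h2, h3⟩ | ⟨h1, h2, h3⟩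
          · rw [h3, Xi_left h1]
            split_ifs
            · linarith
            · rw [mul_zero]
          · rw [h3, Xi_mid ⟨h1, h2⟩]
            split_ifs
            · nlinarith [mul_pos hx ha]
            · rw [hx1]
          · rw [h3, Xi_right h2, mul_zero]
      · push Not at hA hB
        obtain ⟨u1, hu1, hs1, ht1, hi1⟩ := hA
        obtain ⟨u2, hu2, hs2, ht2, hi2⟩ := hB
        have hi1F : i ∉ u1.F := fun h => hi1 (hmi u1 hu1 hs1 ht1 h)
        have hi2G : i ∈ u2.G := hmi u2 hu2 hs2 ht2 hi2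
        refine ⟨vv al i + zz be i, Submodule.add_mem _
          (vv_mem (not_loo hr (hex u1 hu1) hi1F))
          (zz_mem (not_clo hr (hex u2 hu2) hi2G)), ?_, ?_⟩
        · intro u hu
          rw [Pi.add_apply]
          rcases vv_val (al := al) i (hex u hu) with ⟨h1, h2, h3⟩ | ⟨h1, h2, h3⟩ | ⟨h1, h2, h3⟩ <;>
          rcases zz_val (be := be) i (hex u hu) with ⟨k1, k2, k3⟩ | ⟨k1, k2, k3⟩ | ⟨k1, k2, k3⟩ <;>
          first
          | (exfalso; rw [h1] at k1; cases k1; done)
          | (exfalso; rw [h2] at k2; cases k2; done)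
          | skip
          · rw [h3, k3, Xi_left h1, if_neg (fun h => hi1F
              (left_le (hρ.1.2 u hu u1 hu1) h1 hs1 h)), add_zero]
          · rw [h3, k3, Xi_mid ⟨h1, h2⟩]
            by_cases hiF : i ∈ u.F
            · rw [if_pos hiF, if_pos (hmi u hu h1 h2 hiF)]
              ring
            · rw [if_neg hiF, if_neg (fun h => hiF ((hex u hu).GF h))]
              ring
          · rw [h3, k3, Xi_right h2, if_pos (right_ge (hρ.1.2 u2 hu2 u hu) ht2 h2 hi2G), add_zero]
        · intro v _ hv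
          rw [Pi.add_apply]
          rcases vv_val (al := al) i (hst v hv) with ⟨h1, h2, h3⟩ | ⟨h1, h2, h3⟩ | ⟨h1, h2, h3⟩ <;>
          rcases zz_val (be := be) i (hst v hv) with ⟨k1, k2, k3⟩ | ⟨k1, k2, k3⟩ | ⟨k1, k2, k3⟩ <;>
          first
          | (exfalso; rw [h1] at k1; cases k1; done)
          | (exfalso; rw [h2] at k2; cases k2; done)
          | skip
          · rw [h3, k3, Xi_left h1]
            split_ifs <;> linarith
          · rw [h3, k3, Xi_mid ⟨h1, h2⟩]
            by_cases hiF : i ∈ v.F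
            · rw [if_pos hiF]
              split_ifs <;> linarith
            · rw [if_neg hiF, if_neg (fun h => hiF ((hst v hv).GF h))]
              linarith
          · rw [h3, k3, Xi_right h2]
            split_ifs <;> linarith
  · refine ⟨0, Submodule.zero_mem _, ?_, ?_⟩
    · intro u hu
      rw [Pi.zero_apply]
      unfold Xi
      rw [if_neg (fun h => hmid ⟨u, hu, h⟩)]
    · intro v _ _
      rw [Pi.zero_apply]
      unfold Xi
      split_ifs
      · linarith
      · exact le_refl _

end Pool.Agent.QPR
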