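import Pool.Agent.QPR.Nm

/-!
# PCE: existence of the lifts for the contraction
-/

set_option autoImplicit false

open Finset

namespace Pool.Agent.QPR

namespace NPCE

variable {α : Type} [Fintype α] [DecidableEq α] {r : Finset α → ℕ} {e : α}

theorem r_single (hr : IsRank r) (he : ¬ Loo r e) : r {e} = 1 := by
  have h1 := hr.le_succ ∅ e
  rw [hr.empty] at h1
  have h2 : insert e (∅ : Finset α) = {e} := rfl
  rw [h2] at h1
  unfold Loo at he
  omega

theorem r_ge (hr : IsRank r) (he : ¬ Loo r e) (A : Finset α) : 1 ≤ r (insert e A) := by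
  rw [← r_single hr he]
  exact hr.mono_subset (by
    intro x hx
    rw [mem_singleton.1 hx]
    exact mem_insert_self _ _)

theorem rc_eq (hr : IsRank r) (he : ¬ Loo r e) (A : Finset (Del e)) :
    rc r e A + 1 = r (insert e (up A)) := by
  have h1 := r_ge hr he (up A)
  unfold rc
  rw [r_single hr he]
  omega

theorem up_mono {A B : Finset (Del e)} (h : A ⊆ B) : up A ⊆ up B := map_subset_map.2 h

theorem up_single (f : Del e) : up ({f} : Finset (Del e)) = {f.1} := by
  unfold up
  rw [map_singleton]
  rfl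

theorem loo_rc (hr : IsRank r) (he : ¬ Loo r e) (f : Del e) :
    Loo (rc r e) f ↔ r (insert f.1 {e}) = r {e} := by
  have h1 := rc_eq hr he {f}
  rw [up_single] at h1
  rw [Finset.pair_comm f.1 e, r_single hr he]
  have h2 : insert e ({f.1} : Finset α) = {e, f.1} := rfl
  rw [h2] at h1
  unfold Loo
  constructor
  · intro h
    rw [h] at h1
    exact h1.symm
  · intro h
    rw [h] at h1
    omega

theorem clo_rc (hr : IsRank r) (he : ¬ Loo r e) (f : Del e) : Clo (rc r e) f ↔ Clo r f.1 := by
  have h1 := rc_eq hr he (univ.erase f)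
  have h2 := rc_eq hr he (univ : Finset (Del e))
  rw [up_erase, up_univ] at h1
  rw [up_univ, insert_erase (mem_univ e)] at h2
  have h3 : insert e ((univ.erase e).erase f.1) = univ.erase f.1 := by
    ext x
    simp only [mem_insert, mem_erase, mem_univ, and_true]
    constructor
    · rintro (rfl | h)
      · exact fun h => f.2 h.symm
      · exact h.1
    · intro h
      by_cases hx : x = e
      · exact Or.inl hx
      · exact Or.inr ⟨h, hx⟩
  rw [h3] at h1
  unfold Clo
  rw [← h1, ← h2]
  omega

theorem e_mem_F (s : Pt (Del e)) : e ∈ (lamc r e s).F := mem_insert_self _ _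

theorem lamc_F (s : Pt (Del e)) : (lamc r e s).F = insert e (up s.F) := rfl

theorem lamc_G_pos {s : Pt (Del e)} (h : r (insert e (up s.G)) = r (up s.G)) :
    (lamc r e s).G = insert e (up s.G) := by
  unfold lamc
  simp only
  rw [if_pos h]

theorem lamc_G_neg {s : Pt (Del e)} (h : ¬ r (insert e (up s.G)) = r (up s.G)) :
    (lamc r e s).G = up s.G := by
  unfold lamc
  simp only
  rw [if_neg h]

theorem dnP_lamc (s : Pt (Del e)) : dnP e (lamc r e s) = s := by
  obtain ⟨F, G, S, T⟩ := s
  unfold dnP lamc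
  simp only [dn_insert, dn_up]
  congr 1
  split_ifs
  · rw [dn_insert, dn_up]
  · exact dn_up G

theorem mem_lamc_F {s : Pt (Del e)} {i : Del e} : i.1 ∈ (lamc r e s).F ↔ i ∈ s.F := by
  have h : dn e (lamc r e s).F = s.F := congrArg Pt.F (dnP_lamc (r := r) s)
  rw [← h, mem_dn]

theorem mem_lamc_G {s : Pt (Del e)} {i : Del e} : i.1 ∈ (lamc r e s).G ↔ i ∈ s.G := by
  have h : dn e (lamc r e s).G = s.G := congrArg Pt.G (dnP_lamc (r := r) s)
  rw [← h, mem_dn]

theorem up_sub_G (s : Pt (Del e)) : up s.G ⊆ (lamc r e s).G := by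
  by_cases hc : r (insert e (up s.G)) = r (up s.G)
  · rw [lamc_G_pos hc]
    exact subset_insert _ _
  · rw [lamc_G_neg hc]

theorem top_G (f : α) : f ∈ (top r).G ↔ ¬ Clo r f := by
  classical
  unfold top
  simp

theorem bot_F (f : α) : f ∈ (bot r).F ↔ Loo r f := by
  classical
  unfold bot
  simp

theorem kc_sta (hr : IsRank r) (he : ¬ Loo r e) : Sta r (kc r e) := by
  refine ⟨⟨?_, ?_, ?_, ?_, ?_, ?_⟩, ?_, ?_⟩
  · intro f hf
    -- `cl r {e}` is a flat
    have hsub : ({e} : Finset α) ⊆ cl r {e} := by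
      intro x hx
      rw [mem_singleton.1 hx, mem_cl]
      rw [insert_eq_of_mem (mem_singleton_self e)]
    have hcl : ∀ D : Finset α, D ⊆ cl r {e} → r (D ∪ {e}) = r {e} := by
      intro D
      induction D using Finset.induction_on with
      | empty => intro _; simp
      | insert g D hg ih =>
        intro hD
        have h1 := ih (fun a ha => hD (mem_insert_of_mem ha))
        have h2 := mem_cl.1 (hD (mem_insert_self g D))
        rw [insert_union, hr.closure h2 subset_union_right, h1]
    have h3 : r (cl r {e}) = r {e} := by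
      have := hcl (cl r {e}) (Subset.refl _)
      rwa [union_eq_left.2 hsub] at this
    show r (insert f (cl r {e})) = r (cl r {e}) + 1
    have h4 := hr.mono (cl r {e}) f
    have h5 := hr.le_succ (cl r {e}) f
    by_contra hne
    have h6 : r (insert f (cl r {e})) = r {e} := by omega
    apply hf
    show f ∈ cl r {e}
    rw [mem_cl]
    have h7 : r (insert f {e}) ≤ r (insert f (cl r {e})) :=
      hr.mono_subset (insert_subset_insert _ hsub)
    have h8 := hr.mono {e} f
    omega
  · intro f hf
    exact absurd hf (notMem_empty f)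
  · exact empty_subset _
  · intro h
    exact absurd h not_nonempty_empty
  · exact id
  · intro h
    exact Bool.noConfusion h
  · intro h
    have h1 : (kc r e).F = (bot r).F := by rw [h]
    have h2 : e ∈ (kc r e).F := by
      show e ∈ cl r {e}
      rw [mem_cl, insert_eq_of_mem (mem_singleton_self e)]
    rw [h1, bot_F] at h2
    exact he h2
  · intro h
    have h1 : (kc r e).S = (top r).S := by rw [h]
    exact Bool.noConfusion h1

theorem dn_kc (hr : IsRank r) (he : ¬ Loo r e) : dnP e (kc r e) = bot (rc r e) := by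
  classical
  unfold dnP kc bot
  congr 1
  ext f
  rw [mem_dn, mem_cl]
  simp only [mem_filter, mem_univ, true_and]
  rw [loo_rc hr he]

theorem dn_top (hr : IsRank r) (he : ¬ Loo r e) : dnP e (top r) = top (rc r e) := by
  classical
  unfold dnP top
  congr 1
  · exact dn_univ
  · ext f
    rw [mem_dn]
    simp only [mem_filter, mem_univ, true_and]
    rw [clo_rc hr he]

theorem lamc_sta (hr : IsRank r) (he : ¬ Loo r e) {s : Pt (Del e)} (hs : Sta (rc r e) s) :
    Sta r (lamc r e s) := by
  have hcyc : ∀ f, f ∈ up s.G →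
      r (insert e ((up s.G).erase f)) = r (insert e (up s.G)) := by
    intro f hf
    obtain ⟨hfe, hf'⟩ := mem_up.1 hf
    have h1 := hs.ex.cyc _ hf'
    have h2 := rc_eq hr he (s.G.erase ⟨f, hfe⟩)
    have h3 := rc_eq hr he s.G
    rw [up_erase] at h2
    simp only at h2
    omega
  refine ⟨⟨?_, ?_, ?_, ?_, ?_, ?_⟩, ?_, ?_⟩
  · intro f hf
    have hfe : f ≠ e := fun h => by
      rw [h] at hf
      exact hf (e_mem_F s)
    have h1 : (⟨f, hfe⟩ : Del e) ∉ s.F := fun h => hf (mem_lamc_F.2 h)
    have h2 := hs.ex.flat _ h1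
    have h3 := rc_eq hr he (insert ⟨f, hfe⟩ s.F)
    have h4 := rc_eq hr he s.F
    rw [up_insert, Finset.insert_comm] at h3
    simp only at h3
    rw [lamc_F]
    omega
  · intro f hf
    by_cases hc : r (insert e (up s.G)) = r (up s.G)
    · rw [lamc_G_pos hc] at hf ⊢
      rcases mem_insert.1 hf with rfl | hf'
      · rw [erase_insert (notMem_up _)]
        exact hc.symm
      · have hfe : e ≠ f := fun h => by
          rw [← h] at hf'
          exact notMem_up _ hf'
        rw [erase_insert_of_ne hfe]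
        exact hcyc f hf'
    · rw [lamc_G_neg hc] at hf ⊢
      have h1 := hcyc f hf
      have h2 := hr.mono (up s.G) e
      have h3 := hr.le_succ ((up s.G).erase f) e
      have h4 := hr.mono_subset (erase_subset f (up s.G))
      omega
  · intro f hf
    rw [lamc_F]
    by_cases hfe : f = e
    · rw [hfe]
      exact mem_insert_self _ _
    · have h1 : (⟨f, hfe⟩ : Del e) ∈ s.G := mem_lamc_G.1 hf
      exact mem_insert_of_mem (mem_up.2 ⟨hfe, hs.ex.GF h1⟩)
  · intro h
    show s.S = true
    apply hs.ex.GS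
    by_contra hne
    rw [not_nonempty_iff_eq_empty] at hne
    obtain ⟨f, hf⟩ := h
    by_cases hc : r (insert e (up s.G)) = r (up s.G)
    · rw [hne] at hc
      have h1 : up (∅ : Finset (Del e)) = ∅ := by
        unfold up
        exact map_empty _
      rw [h1, hr.empty] at hc
      exact he hc
    · rw [lamc_G_neg hc] at hf
      obtain ⟨hfe, hf'⟩ := mem_up.1 hf
      rw [hne] at hf'
      exact notMem_empty _ hf'
  · exact hs.ex.TS
  · intro hT
    have h1 : s.F = univ := hs.ex.TF hT
    rw [lamc_F, h1, up_univ, insert_erase (mem_univ e)]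
  · intro h
    have h1 : e ∈ (lamc r e s).F := e_mem_F s
    rw [h, bot_F] at h1
    exact he h1
  · intro h
    apply hs.nt
    rw [← dnP_lamc (r := r) s, h, dn_top hr he]

theorem lamc_mono (hr : IsRank r) {s t : Pt (Del e)} (h : s ≤ t) : lamc r e s ≤ lamc r e t := by
  obtain ⟨h1, h2, h3, h4⟩ := Pt.le_iff.1 h
  refine Pt.le_iff.2 ⟨insert_subset_insert _ (up_mono h1), ?_, h3, h4⟩
  by_cases hc : r (insert e (up s.G)) = r (up s.G)
  · have hc' := hr.closure hc (up_mono h2)
    rw [lamc_G_pos hc, lamc_G_pos hc']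
    exact insert_subset_insert _ (up_mono h2)
  · rw [lamc_G_neg hc]
    exact (up_mono h2).trans (up_sub_G t)

theorem kc_le_lamc (hr : IsRank r) (he : ¬ Loo r e) {s : Pt (Del e)} (hs : Sta (rc r e) s) :
    kc r e ≤ lamc r e s := by
  refine Pt.le_iff.2 ⟨?_, empty_subset _, fun h => Bool.noConfusion h, fun h => Bool.noConfusion h⟩
  intro f hf
  have hf' : r (insert f {e}) = r {e} := mem_cl.1 hf
  rw [lamc_F]
  by_cases hfe : f = e
  · rw [hfe]
    exact mem_insert_self _ _
  · by_contra hne
    have h1 : (⟨f, hfe⟩ : Del e) ∉ s.F := fun h => hne (mem_insert_of_mem (mem_up.2 ⟨hfe, h⟩))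
    have h2 := hs.ex.flat _ h1
    have h3 := rc_eq hr he (insert ⟨f, hfe⟩ s.F)
    have h4 := rc_eq hr he s.F
    rw [up_insert, Finset.insert_comm] at h3
    simp only at h3
    have h5 := hr.closure hf' (B := insert e (up s.F)) (by
      intro x hx
      rw [mem_singleton.1 hx]
      exact mem_insert_self _ _)
    omega

theorem lamc_ne_kc (hr : IsRank r) (he : ¬ Loo r e) {s : Pt (Del e)} (hs : Sta (rc r e) s) :
    lamc r e s ≠ kc r e := by
  intro h
  apply hs.nb
  rw [← dnP_lamc (r := r) s, h, dn_kc hr he]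

theorem pj_lamc {s : Pt (Del e)} (hs : Sta (rc r e) s) :
    pj e (rc r e) (lamc r e s) = some s := by
  unfold pj
  rw [dnP_lamc, if_neg]
  rintro (h | h)
  · exact hs.nb h
  · exact hs.nt h

theorem lamc_inj {s t : Pt (Del e)} (h : lamc r e s = lamc r e t) : s = t := by
  rw [← dnP_lamc (r := r) s, h, dnP_lamc]

theorem nop_lamc {s : Pt (Del e)} {i : Del e} (h : Nop i s) : Nop i.1 (lamc r e s) := by
  intro h1 h2
  rcases h (mem_lamc_F.1 h1) h2 with h3 | h3
  · exact Or.inl (mem_lamc_G.2 h3)
  · exact Or.inr h3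

end NPCE

open NPCE in
theorem PCE_thm : Stmt_PCE := by
  intro α _ _ r e hr he ρ' hρ'
  have hsta := hρ'.1.1
  refine ⟨⟨?_, ?_, ?_⟩, ⟨?_, ?_⟩, ?_⟩
  · intro h
    obtain ⟨s, hs, h1⟩ := mem_image.1 h
    exact lamc_ne_kc hr he (hsta s hs) h1
  · ext v
    rw [mem_im]
    constructor
    · rintro ⟨u, hu, h1⟩
      obtain ⟨s, hs, rfl⟩ := mem_image.1 hu
      rw [pj_lamc (hsta s hs)] at h1
      rw [← Option.some.inj h1]
      exact hs
    · intro hv
      exact ⟨lamc r e v, mem_image_of_mem _ hv, pj_lamc (hsta v hv)⟩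
  · exact card_image_of_injective _ (fun s t h => lamc_inj h)
  · intro s hs
    rcases mem_insert.1 hs with rfl | hs
    · exact kc_sta hr he
    · obtain ⟨t, ht, rfl⟩ := mem_image.1 hs
      exact lamc_sta hr he (hsta t ht)
  · intro s hs t ht
    rcases mem_insert.1 hs with rfl | hs
    · rcases mem_insert.1 ht with rfl | ht
      · exact Or.inl (le_refl _)
      · obtain ⟨t', ht', rfl⟩ := mem_image.1 ht
        exact Or.inl (kc_le_lamc hr he (hsta t' ht'))
    · obtain ⟨s', hs', rfl⟩ := mem_image.1 hs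
      rcases mem_insert.1 ht with rfl | ht
      · exact Or.inr (kc_le_lamc hr he (hsta s' hs'))
      · obtain ⟨t', ht', rfl⟩ := mem_image.1 ht
        rcases hρ'.1.2 s' hs' t' ht' with h | h
        · exact Or.inl (lamc_mono hr h)
        · exact Or.inr (lamc_mono hr h)
  · right
    have hkc : ∀ i : α, Nop i (kc r e) := fun i _ h2 => Bool.noConfusion h2
    rcases hρ'.2 with h | ⟨i, hi⟩
    · refine ⟨e, ?_⟩
      intro s hs
      rw [h, image_empty, insert_empty_eq, mem_singleton] at hs
      rw [hs]
      exact hkc e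
    · refine ⟨i.1, ?_⟩
      intro s hs
      rcases mem_insert.1 hs with rfl | hs
      · exact hkc i.1
      · obtain ⟨t, ht, rfl⟩ := mem_image.1 hs
        exact nop_lamc (hi t ht)

end Pool.Agent.QPR
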