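import Pool.Agent.QPR.Nm

/-!
# PCK: the weights of the canonical lifts for the contraction
-/

set_option autoImplicit false

open Finset

namespace Pool.Agent.QPR

namespace NPCK

variable {α : Type} [Fintype α] [DecidableEq α] {r : Finset α → ℕ} {e : α}

theorem mem_lamG {s : Pt (Del e)} {i : Del e} : i.1 ∈ (lamc r e s).G ↔ i ∈ s.G := by
  have hi : i.1 ∈ up s.G ↔ i ∈ s.G := by
    rw [mem_up]
    constructor
    · rintro ⟨_, h⟩
      exact h
    · intro h
      exact ⟨i.2, h⟩
  unfold lamc
  dsimp only
  split_ifs with h
  · rw [mem_insert, hi]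
    constructor
    · rintro (h1 | h1)
      · exact absurd h1 i.2
      · exact h1
    · exact Or.inr
  · exact hi

theorem mem_lamF {s : Pt (Del e)} {i : Del e} : i.1 ∈ (lamc r e s).F ↔ i ∈ s.F := by
  unfold lamc
  dsimp only
  rw [mem_insert, mem_up]
  constructor
  · rintro (h1 | ⟨_, h⟩)
    · exact absurd h1 i.2
    · exact h
  · intro h
    exact Or.inr ⟨i.2, h⟩

theorem e_mem_lamG {s : Pt (Del e)} (h : e ∈ (lamc r e s).G) :
    r (insert e (up s.G)) = r (up s.G) := by
  by_contra hc
  unfold lamc at h
  dsimp only at h
  rw [if_neg hc] at h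
  exact notMem_up _ h

theorem G_ne (hr : IsRank r) (he : ¬ Loo r e) {s : Pt (Del e)} (h : e ∈ (lamc r e s).G) :
    s.G.Nonempty := by
  rw [nonempty_iff_ne_empty]
  intro h0
  have h1 := e_mem_lamG h
  rw [h0] at h1
  have h2 : up (∅ : Finset (Del e)) = ∅ := by
    ext f
    simp [mem_up]
  rw [h2] at h1
  have h3 : r ∅ = 0 := hr.empty
  apply he
  unfold Loo
  rw [← h3, ← h1]
  rfl

/-- the smallest middle state -/
theorem exists_least {r' : Finset (Del e) → ℕ} {ρ' : Finset (Pt (Del e))} (hc : Chn r' ρ')
    (hm : ∃ s ∈ ρ', s.S = true ∧ s.T = false) :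
    ∃ s ∈ ρ', s.S = true ∧ s.T = false ∧ ∀ t ∈ ρ', t.S = true → t.T = false → s ≤ t := by
  classical
  obtain ⟨s1, hs1, h1, h2⟩ := hm
  obtain ⟨s, hs, hmin⟩ := (ρ'.filter (fun s => s.S = true ∧ s.T = false)).exists_minimal
    ⟨s1, by simp [hs1, h1, h2]⟩
  rw [mem_filter] at hs
  refine ⟨s, hs.1, hs.2.1, hs.2.2, ?_⟩
  intro t ht h3 h4
  rcases hc.2 s hs.1 t ht with h | h
  · exact h
  · exact hmin (mem_filter.2 ⟨ht, h3, h4⟩) h

end NPCK

open NPCK in
theorem PCK_thm : Stmt_PCK := by
  intro α _ _ r al be e hr he ρ' hF
  classical
  constructor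
  · have key : (insert (kc r e) (ρ'.image (lamc r e)) = ∅ ∨
        ∃ i, ∀ s ∈ insert (kc r e) (ρ'.image (lamc r e)), s.S = true → i ∈ s.G ∨ s.T = true) ↔
        (ρ' = ∅ ∨ ∃ i, ∀ s ∈ ρ', s.S = true → i ∈ s.G ∨ s.T = true) := by
      constructor
      · rintro (h | ⟨i, hi⟩)
        · exact absurd h (insert_ne_empty _ _)
        · rcases ρ'.eq_empty_or_nonempty with h0 | hne
          · exact Or.inl h0
          right
          have hi' : ∀ s ∈ ρ', s.S = true → i ∈ (lamc r e s).G ∨ s.T = true := by
            intro s hs h
            exact hi (lamc r e s) (mem_insert_of_mem (mem_image_of_mem _ hs)) h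
          by_cases hie : i = e
          · subst hie
            by_cases hm : ∃ s ∈ ρ', s.S = true ∧ s.T = false
            · obtain ⟨s0, hs0, h1, h2, h3⟩ := exists_least hF.1 hm
              have h4 : i ∈ (lamc r i s0).G := by
                rcases hi' s0 hs0 h1 with h | h
                · exact h
                · rw [h2] at h
                  exact absurd h (by simp)
              obtain ⟨i', hi1⟩ := G_ne hr he h4
              refine ⟨i', fun s hs hS => ?_⟩
              cases hT : s.T with
              | true => exact Or.inr rfl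
              | false => exact Or.inl ((h3 s hs hS hT).2.1 hi1)
            · push Not at hm
              rcases hF.2 with h0 | ⟨i', -⟩
              · exact absurd h0 hne.ne_empty
              · refine ⟨i', fun s hs hS => Or.inr ?_⟩
                have := hm s hs hS
                simpa using this
          · refine ⟨⟨i, hie⟩, fun s hs hS => ?_⟩
            rcases hi' s hs hS with h | h
            · exact Or.inl (mem_lamG.1 h)
            · exact Or.inr h
      · rintro (h | ⟨i, hi⟩)
        · right
          refine ⟨e, fun s hs hS => ?_⟩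
          rw [h, image_empty, mem_insert] at hs
          rcases hs with rfl | hs
          · exact absurd hS (by simp [kc])
          · exact absurd hs (notMem_empty _)
        · right
          refine ⟨i.1, fun s hs hS => ?_⟩
          rw [mem_insert] at hs
          rcases hs with rfl | hs
          · exact absurd hS (by simp [kc])
          · rw [mem_image] at hs
            obtain ⟨s', hs', rfl⟩ := hs
            rcases hi s' hs' hS with h | h
            · exact Or.inl (mem_lamG.2 h)
            · exact Or.inr h
    unfold kop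
    by_cases h : (ρ' = ∅ ∨ ∃ i, ∀ s ∈ ρ', s.S = true → i ∈ s.G ∨ s.T = true)
    · rw [if_pos h, if_pos (key.2 h)]
    · rw [if_neg h, if_neg (fun h1 => h (key.1 h1))]
  · have key : (insert (kc r e) (ρ'.image (lamc r e)) = ∅ ∨
        ∃ i, ∀ s ∈ insert (kc r e) (ρ'.image (lamc r e)), s.T = false → i ∉ s.F ∨ s.S = false) ↔
        (ρ' = ∅ ∨ ∃ i, ∀ s ∈ ρ', s.T = false → i ∉ s.F ∨ s.S = false) := by
      constructor
      · rintro (h | ⟨i, hi⟩)
        · exact absurd h (insert_ne_empty _ _)
        · rcases ρ'.eq_empty_or_nonempty with h0 | hne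
          · exact Or.inl h0
          right
          have hi' : ∀ s ∈ ρ', s.T = false → i ∉ (lamc r e s).F ∨ s.S = false := by
            intro s hs h
            exact hi (lamc r e s) (mem_insert_of_mem (mem_image_of_mem _ hs)) h
          by_cases hie : i = e
          · subst hie
            rcases hF.2 with h0 | ⟨i', -⟩
            · exact absurd h0 hne.ne_empty
            · refine ⟨i', fun s hs hT => Or.inr ?_⟩
              rcases hi' s hs hT with h | h
              · exact absurd (mem_insert_self i (up s.F)) h
              · exact h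
          · refine ⟨⟨i, hie⟩, fun s hs hT => ?_⟩
            rcases hi' s hs hT with h | h
            · exact Or.inl (fun h1 => h ((mem_lamF (i := ⟨i, hie⟩)).2 h1))
            · exact Or.inr h
      · rintro (h | ⟨i, hi⟩)
        · right
          refine ⟨e, fun s hs hT => ?_⟩
          rw [h, image_empty, mem_insert] at hs
          rcases hs with rfl | hs
          · exact Or.inr rfl
          · exact absurd hs (notMem_empty _)
        · right
          refine ⟨i.1, fun s hs hT => ?_⟩
          rw [mem_insert] at hs
          rcases hs with rfl | hs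
          · exact Or.inr rfl
          · rw [mem_image] at hs
            obtain ⟨s', hs', rfl⟩ := hs
            rcases hi s' hs' hT with h | h
            · exact Or.inl (fun h1 => h (mem_lamF.1 h1))
            · exact Or.inr h
    unfold kcl
    by_cases h : (ρ' = ∅ ∨ ∃ i, ∀ s ∈ ρ', s.T = false → i ∉ s.F ∨ s.S = false)
    · rw [if_pos h, if_pos (key.2 h)]
    · rw [if_neg h, if_neg (fun h1 => h (key.1 h1))]

end Pool.Agent.QPR
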