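import Pool.Agent.QPR.Nm

/-!
# The star of the left vertex `kc r e` and the complex of the contraction (PCP)
-/

set_option autoImplicit false

open Finset

namespace Pool.Agent.QPR

namespace NPCP

variable {α : Type} [Fintype α] [DecidableEq α] {r : Finset α → ℕ} {e : α}

theorem r_single (hr : IsRank r) (he : ¬ Loo r e) : r {e} = 1 := by
  have h1 := hr.le_succ ∅ e
  rw [hr.empty] at h1
  have h2 : insert e (∅ : Finset α) = {e} := rfl
  rw [h2] at h1
  have h3 : r {e} ≠ 0 := he
  omega

theorem r_le (hr : IsRank r) (A : Finset α) (hA : e ∈ A) : r {e} ≤ r A :=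
  hr.mono_subset (Finset.singleton_subset_iff.2 hA)

/-- a flat contains everything spanned by a subset -/
theorem flat_mem (hr : IsRank r) {F A : Finset α} {x : α}
    (hF : ∀ e, e ∉ F → r (insert e F) = r F + 1) (hx : r (insert x A) = r A) (hA : A ⊆ F) :
    x ∈ F := by
  by_contra h
  have h1 := hF x h
  have h2 := hr.closure hx hA
  omega

theorem e_mem_cl (r : Finset α → ℕ) (e : α) : e ∈ cl r {e} := by
  rw [mem_cl]
  simp

/-- a state below `kc` is `kc` -/
theorem eq_kc (hr : IsRank r) (he : ¬ Loo r e) {u : Pt α} (hu : Sta r u) (hle : u ≤ kc r e) :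
    u = kc r e := by
  obtain ⟨hF, hG, hS, hT⟩ := hle
  have hG0 : u.G = ∅ := Finset.subset_empty.1 hG
  have hS0 : u.S = false := by
    cases h : u.S with
    | false => rfl
    | true => exact absurd (hS h) (by simp [kc])
  have hT0 : u.T = false := by
    cases h : u.T with
    | false => rfl
    | true => exact absurd (hT h) (by simp [kc])
  have hF' : u.F ⊆ cl r {e} := hF
  by_cases hex : ∃ f ∈ u.F, ¬ Loo r f
  · obtain ⟨f, hf, hlf⟩ := hex
    have h1 : r {e} = 1 := r_single hr he
    have h2 : r {f} = 1 := r_single hr hlf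
    have h3 : r (insert f {e}) = r {e} := mem_cl.1 (hF' hf)
    have h4 : r (insert e {f}) = r {f} := by
      rw [h2, ← h1, ← h3]
      congr 1
      exact Finset.pair_comm e f
    have h5 : e ∈ u.F := flat_mem hr hu.ex.flat h4 (Finset.singleton_subset_iff.2 hf)
    have h6 : cl r {e} ⊆ u.F := by
      intro g hg
      exact flat_mem hr hu.ex.flat (mem_cl.1 hg) (Finset.singleton_subset_iff.2 h5)
    have h7 : u.F = cl r {e} := Finset.Subset.antisymm hF' h6
    obtain ⟨F, G, S, T⟩ := u
    simp only at h7 hG0 hS0 hT0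
    subst h7 hG0 hS0 hT0
    rfl
  · exfalso
    apply hu.nb
    have h7 : u.F = (bot r).F := by
      ext x
      simp only [bot, mem_filter, mem_univ, true_and]
      constructor
      · intro hx
        by_contra hl
        exact hex ⟨x, hx, hl⟩
      · intro hx
        refine flat_mem hr hu.ex.flat (A := ∅) ?_ (Finset.empty_subset _)
        rw [hr.empty]
        exact hx
    obtain ⟨F, G, S, T⟩ := u
    simp only at h7 hG0 hS0 hT0
    subst h7 hG0 hS0 hT0
    rfl

theorem insert_up_dn {A : Finset α} (hA : e ∈ A) : insert e (up (dn e A)) = A := by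
  rw [up_dn, insert_erase hA]

theorem insert_up_dn' (A : Finset α) : insert e (up (dn e A)) = insert e A := by
  rw [up_dn]
  ext x
  simp only [mem_insert, mem_erase]
  tauto

theorem rc_dn {A : Finset α} : rc r e (dn e A) = r (insert e A) - r {e} := by
  unfold rc
  rw [insert_up_dn']

theorem loo_rc (hr : IsRank r) (f : Del e) : Loo (rc r e) f ↔ r (insert f.1 {e}) = r {e} := by
  unfold Loo rc
  have h1 : insert e (up ({f} : Finset (Del e))) = insert f.1 {e} := by
    have h2 : up ({f} : Finset (Del e)) = {f.1} := by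
      ext x
      rw [mem_up, mem_singleton]
      constructor
      · rintro ⟨h, h3⟩
        rw [mem_singleton] at h3
        rw [← h3]
      · intro h3
        subst h3
        exact ⟨f.2, by simp⟩
    rw [h2]
    exact Finset.pair_comm e f.1
  rw [h1]
  have h2 : r {e} ≤ r (insert f.1 {e}) := hr.mono _ _
  omega

theorem clo_rc (hr : IsRank r) (f : Del e) : Clo (rc r e) f ↔ Clo r f.1 := by
  unfold Clo rc
  have h1 : insert e (up ((univ : Finset (Del e)).erase f)) = univ.erase f.1 := by
    rw [up_erase, up_univ]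
    ext x
    simp only [mem_insert, mem_erase, mem_univ, and_true]
    constructor
    · rintro (h | h)
      · rw [h]
        exact fun h' => f.2 h'.symm
      · exact h.1
    · intro h
      by_cases hx : x = e
      · exact Or.inl hx
      · exact Or.inr ⟨h, hx⟩
  have h2 : insert e (up (univ : Finset (Del e))) = univ := by
    rw [up_univ]
    exact insert_erase (mem_univ e)
  rw [h1, h2]
  have h3 : r {e} ≤ r (univ.erase f.1) :=
    r_le hr _ (mem_erase.2 ⟨fun h => f.2 h.symm, mem_univ e⟩)
  have h4 : r {e} ≤ r univ := r_le hr _ (mem_univ e)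
  omega

/-- values of a lifted generator -/
theorem ext_pj (r' : Finset (Del e) → ℕ) (g : Pt (Del e) → ℝ) (h : Pt α → ℝ)
    (hb : ∀ u : Pt α, h u = g (dnP e u)) (h1 : g (bot r') = 0) (h2 : g (top r') = 0) (u : Pt α) :
    h u = ext g (pj e r' u) := by
  unfold pj
  split_ifs with hc
  · rw [hb]
    rcases hc with hc | hc
    · rw [hc, h1]
      rfl
    · rw [hc, h2]
      rfl
  · rw [hb]
    rfl

theorem lift_aux (hr : IsRank r) (al be : ℝ) (l' : Pt (Del e) → ℝ)
    (hl' : l' ∈ Lin (rc r e) al be) : ∃ l ∈ Lin r al be, l (kc r e) = 0 ∧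
      ∀ u, l u = ext l' (pj e (rc r e) u) := by
  unfold Lin at hl'
  induction hl' using Submodule.span_induction with
  | mem l' h =>
    rcases h with ⟨i, hi, rfl⟩ | ⟨i, hi, rfl⟩
    · have hi' : i.1 ∉ cl r {e} := by
        rw [mem_cl]
        intro h
        exact hi ((loo_rc hr i).2 h)
      refine ⟨vv al i.1, Submodule.subset_span (Or.inl ⟨i.1, ?_, rfl⟩), ?_, ?_⟩
      · intro h
        apply hi'
        rw [mem_cl]
        refine hr.closure (A := ∅) ?_ (Finset.empty_subset _)
        rw [hr.empty]
        exact h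
      · unfold vv kc
        simp [hi']
      · refine ext_pj (rc r e) (vv al i) (vv al i.1) ?_ ?_ ?_
        · intro u
          unfold vv dnP
          simp only [mem_dn]
        · unfold vv bot
          simp [hi]
        · unfold vv top
          simp
          ring
    · have hi' : ¬ Clo r i.1 := fun h => hi ((clo_rc hr i).2 h)
      refine ⟨zz be i.1, Submodule.subset_span (Or.inr ⟨i.1, hi', rfl⟩), ?_, ?_⟩
      · unfold zz kc
        simp
      · refine ext_pj (rc r e) (zz be i) (zz be i.1) ?_ ?_ ?_
        · intro u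
          unfold zz dnP
          simp only [mem_dn]
        · unfold zz bot
          simp
        · unfold zz top
          simp [hi]
  | zero =>
    refine ⟨0, Submodule.zero_mem _, rfl, fun u => ?_⟩
    cases pj e (rc r e) u <;> simp [ext]
  | add a b _ _ iha ihb =>
    obtain ⟨la, ha, ha0, hau⟩ := iha
    obtain ⟨lb, hb, hb0, hbu⟩ := ihb
    refine ⟨la + lb, Submodule.add_mem _ ha hb, by rw [Pi.add_apply, ha0, hb0, add_zero],
      fun u => ?_⟩
    rw [Pi.add_apply, hau, hbu]
    cases pj e (rc r e) u <;> simp [ext]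
  | smul c a _ iha =>
    obtain ⟨la, ha, ha0, hau⟩ := iha
    refine ⟨c • la, Submodule.smul_mem _ c ha, by rw [Pi.smul_apply, ha0, smul_zero],
      fun u => ?_⟩
    rw [Pi.smul_apply, hau]
    cases pj e (rc r e) u <;> simp [ext]

theorem dnP_mono {u v : Pt α} (h : u ≤ v) : dnP e u ≤ dnP e v := by
  obtain ⟨h1, h2, h3, h4⟩ := h
  refine ⟨?_, ?_, h3, h4⟩
  · intro x hx
    have hx' : x ∈ dn e u.F := hx
    rw [mem_dn] at hx'
    change x ∈ dn e v.F
    rw [mem_dn]
    exact h1 hx'
  · intro x hx
    have hx' : x ∈ dn e u.G := hx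
    rw [mem_dn] at hx'
    change x ∈ dn e v.G
    rw [mem_dn]
    exact h2 hx'

theorem ex_dnP (hr : IsRank r) {u : Pt α} (hu : Ex0 r u) (heF : e ∈ u.F) :
    Ex0 (rc r e) (dnP e u) := by
  refine ⟨?_, ?_, ?_, ?_, hu.TS, ?_⟩
  · intro f hf
    have hf' : f ∉ dn e u.F := hf
    rw [mem_dn] at hf'
    change rc r e (insert f (dn e u.F)) = rc r e (dn e u.F) + 1
    have h1 : rc r e (insert f (dn e u.F)) = r (insert f.1 u.F) - r {e} := by
      unfold rc
      rw [up_insert, Finset.insert_comm, insert_up_dn heF]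
    have h2 : rc r e (dn e u.F) = r u.F - r {e} := by
      unfold rc
      rw [insert_up_dn heF]
    rw [h1, h2, hu.flat _ hf']
    have := r_le hr _ heF
    omega
  · intro f hf
    have hf' : f ∈ dn e u.G := hf
    rw [mem_dn] at hf'
    change rc r e ((dn e u.G).erase f) = rc r e (dn e u.G)
    have h1 : insert e (up ((dn e u.G).erase f)) = insert e (u.G.erase f.1) := by
      rw [up_erase, up_dn]
      ext x
      simp only [mem_insert, mem_erase]
      tauto
    have h3 : r (insert f.1 (insert e (u.G.erase f.1))) = r (insert e (u.G.erase f.1)) := by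
      refine hr.closure (A := u.G.erase f.1) ?_ (Finset.subset_insert _ _)
      rw [insert_erase hf', hu.cyc _ hf']
    have h4 : insert f.1 (insert e (u.G.erase f.1)) = insert e u.G := by
      rw [Finset.insert_comm, insert_erase hf']
    rw [h4] at h3
    unfold rc
    rw [h1, insert_up_dn', h3]
  · intro x hx
    have hx' : x ∈ dn e u.G := hx
    rw [mem_dn] at hx'
    change x ∈ dn e u.F
    rw [mem_dn]
    exact hu.GF hx'
  · rintro ⟨x, hx⟩
    have hx' : x ∈ dn e u.G := hx
    rw [mem_dn] at hx'
    exact hu.GS ⟨_, hx'⟩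
  · intro h
    change dn e u.F = univ
    rw [hu.TF h, dn_univ]

theorem pj_some {r' : Finset (Del e) → ℕ} {u : Pt α} (h : pj e r' u ≠ none) :
    pj e r' u = some (dnP e u) ∧ dnP e u ≠ bot r' ∧ dnP e u ≠ top r' := by
  unfold pj at h ⊢
  split_ifs at h ⊢ with hc
  · exact absurd rfl h
  · rw [not_or] at hc
    exact ⟨rfl, hc.1, hc.2⟩

/-- the least element of a nonempty chain with a property -/
theorem exists_least {ρ : Finset (Pt α)} (P : Pt α → Prop)
    (hch : ∀ s ∈ ρ, ∀ t ∈ ρ, s ≤ t ∨ t ≤ s) (hne : ∃ s ∈ ρ, P s) :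
    ∃ s ∈ ρ, P s ∧ ∀ t ∈ ρ, P t → s ≤ t := by
  classical
  have hne' : (ρ.filter P).Nonempty := by
    obtain ⟨s, hs, hP⟩ := hne
    exact ⟨s, mem_filter.2 ⟨hs, hP⟩⟩
  obtain ⟨s, hs⟩ := (ρ.filter P).exists_minimal hne'
  obtain ⟨hs1, hs2⟩ := hs
  obtain ⟨hs3, hs4⟩ := mem_filter.1 hs1
  refine ⟨s, hs3, hs4, fun t ht hPt => ?_⟩
  rcases hch s hs3 t ht with h | h
  · exact h
  · exact hs2 (mem_filter.2 ⟨ht, hPt⟩) h

theorem face_aux (hr : IsRank r) (he : ¬ Loo r e) (ρ : Finset (Pt α)) (hk : kc r e ∉ ρ)
    (hF : Fc r (insert (kc r e) ρ)) (hn : ∀ u ∈ ρ, pj e (rc r e) u ≠ none) :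
    Fc (rc r e) (im (pj e (rc r e)) ρ) := by
  obtain ⟨⟨hSta, hch⟩, hop⟩ := hF
  have hkle : ∀ u ∈ ρ, kc r e ≤ u := by
    intro u hu
    rcases hch u (mem_insert_of_mem hu) _ (mem_insert_self _ _) with h | h
    · exfalso
      apply hk
      rw [← eq_kc hr he (hSta u (mem_insert_of_mem hu)) h]
      exact hu
    · exact h
  have heF : ∀ u ∈ ρ, e ∈ u.F := fun u hu => (hkle u hu).1 (e_mem_cl r e)
  have him : ∀ s' ∈ im (pj e (rc r e)) ρ, ∃ u ∈ ρ, s' = dnP e u ∧ s' ≠ bot (rc r e) ∧
      s' ≠ top (rc r e) := by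
    intro s' hs'
    obtain ⟨u, hu, hus⟩ := mem_im.1 hs'
    obtain ⟨h1, h2, h3⟩ := pj_some (hn u hu)
    rw [h1] at hus
    have h4 : dnP e u = s' := Option.some.inj hus
    exact ⟨u, hu, h4.symm, by rw [← h4]; exact h2, by rw [← h4]; exact h3⟩
  refine ⟨⟨?_, ?_⟩, ?_⟩
  · intro s' hs'
    obtain ⟨u, hu, rfl, h2, h3⟩ := him s' hs'
    exact ⟨ex_dnP hr (hSta u (mem_insert_of_mem hu)).ex (heF u hu), h2, h3⟩
  · intro s' hs' t' ht'
    obtain ⟨u, hu, rfl, _, _⟩ := him s' hs'
    obtain ⟨v, hv, rfl, _, _⟩ := him t' ht'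
    rcases hch u (mem_insert_of_mem hu) v (mem_insert_of_mem hv) with h | h
    · exact Or.inl (dnP_mono h)
    · exact Or.inr (dnP_mono h)
  · by_cases hemp : im (pj e (rc r e)) ρ = ∅
    · exact Or.inl hemp
    right
    obtain ⟨s0, hs0⟩ := Finset.nonempty_iff_ne_empty.2 hemp
    obtain ⟨u0, hu0, hs0e, hs0b, hs0t⟩ := him s0 hs0
    rcases hop with h | ⟨i, hi⟩
    · exact absurd h (Finset.insert_ne_empty _ _)
    by_cases hie : i = e
    · rw [hie] at hi
      by_cases hmid : ∃ s ∈ ρ, s.S = true ∧ s.T = false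
      · obtain ⟨s, hs, ⟨hsS, hsT⟩, hmin⟩ := exists_least (fun s => s.S = true ∧ s.T = false)
          (fun s hs t ht => hch s (mem_insert_of_mem hs) t (mem_insert_of_mem ht)) hmid
        have heG : e ∈ s.G := by
          rcases hi s (mem_insert_of_mem hs) (heF s hs) hsS with h | h
          · exact h
          · rw [hsT] at h
            cases h
        have hrG : r (s.G.erase e) = r s.G := (hSta s (mem_insert_of_mem hs)).ex.cyc e heG
        have h1 : 1 ≤ r s.G := by
          have := r_le hr _ heG
          rw [r_single hr he] at this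
          exact this
        have hne : (s.G.erase e).Nonempty := by
          rw [Finset.nonempty_iff_ne_empty]
          intro h
          rw [h, hr.empty] at hrG
          omega
        obtain ⟨j, hj⟩ := hne
        obtain ⟨hje, hjG⟩ := mem_erase.1 hj
        refine ⟨⟨j, hje⟩, fun s' hs' => ?_⟩
        obtain ⟨u, hu, rfl, _, _⟩ := him s' hs'
        intro _ hS
        have hS' : u.S = true := hS
        by_cases hT : u.T = true
        · exact Or.inr hT
        · left
          change (⟨j, hje⟩ : Del e) ∈ dn e u.G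
          rw [mem_dn]
          exact (hmin u hu ⟨hS', by simpa using hT⟩).2.1 hjG
      · have hne : Nonempty (Del e) := by
          by_contra hE
          rw [not_nonempty_iff] at hE
          by_cases hS : u0.S = true
          · have hT : u0.T = true := by
              by_contra hT
              exact hmid ⟨u0, hu0, hS, by simpa using hT⟩
            apply hs0t
            rw [hs0e]
            unfold dnP top
            rw [hS, hT]
            congr 1
            · exact Subsingleton.elim _ _
            · exact Subsingleton.elim _ _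
          · have hS' : u0.S = false := by simpa using hS
            have hT' : u0.T = false := by
              by_contra hT
              have hT2 : u0.T = true := by simpa using hT
              exact hS ((hSta u0 (mem_insert_of_mem hu0)).ex.TS hT2)
            apply hs0b
            rw [hs0e]
            unfold dnP bot
            rw [hS', hT']
            congr 1
            · exact Subsingleton.elim _ _
            · exact Subsingleton.elim _ _
        obtain ⟨j⟩ := hne
        refine ⟨j, fun s' hs' => ?_⟩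
        obtain ⟨u, hu, rfl, _, _⟩ := him s' hs'
        intro _ hS
        have hS' : u.S = true := hS
        right
        by_contra hT
        exact hmid ⟨u, hu, hS', by simpa using (show ¬ u.T = true from hT)⟩
    · refine ⟨⟨i, hie⟩, fun s' hs' => ?_⟩
      obtain ⟨u, hu, rfl, _, _⟩ := him s' hs'
      intro hiF hS
      have hiF' : (⟨i, hie⟩ : Del e) ∈ dn e u.F := hiF
      rw [mem_dn] at hiF'
      rcases hi u (mem_insert_of_mem hu) hiF' hS with h | h
      · left
        change (⟨i, hie⟩ : Del e) ∈ dn e u.G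
        rw [mem_dn]
        exact h
      · exact Or.inr h

end NPCP

theorem PCP_thm : Stmt_PCP := by
  intro α _ _ r al be e hs hs' hr _ he
  refine ⟨?_, ?_⟩
  · intro l' hl'
    obtain ⟨l, h1, h2, h3⟩ := NPCP.lift_aux hr al be l' hl'
    exact ⟨l, h1, h2, fun u _ _ => h3 u⟩
  · intro ρ hk hF hn
    exact NPCP.face_aux hr he ρ hk hF hn

end Pool.Agent.QPR
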