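import Pool.Agent.QPR.Nm

/-!
# PCU: uniqueness of the lifts for the contraction
-/

set_option autoImplicit false

open Finset

namespace Pool.Agent.QPR

namespace NPCU

variable {α : Type} [Fintype α] [DecidableEq α] {r : Finset α → ℕ} {e : α}

theorem pt_eq {s t : Pt α} (h1 : s.F = t.F) (h2 : s.G = t.G) (h3 : s.S = t.S)
    (h4 : s.T = t.T) : s = t := by
  cases s
  cases t
  simp only at h1 h2 h3 h4
  subst h1
  subst h2
  subst h3
  subst h4
  rfl

/-- `f` is in the closure of `A - f` -/
theorem clos (hr : IsRank r) {A B : Finset α} {f : α} (hf : f ∈ A) (h : r (A.erase f) = r A)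
    (hAB : A.erase f ⊆ B) : r (insert f B) = r B := by
  refine hr.closure (A := A.erase f) ?_ hAB
  rw [insert_erase hf, h]

theorem bot_F (f : α) : f ∈ (bot r).F ↔ r {f} = 0 := by
  classical
  unfold bot
  simp [Loo]

theorem top_G (f : α) : f ∈ (top r).G ↔ ¬ Clo r f := by
  classical
  unfold top
  simp

theorem self_mem : e ∈ cl r {e} := by
  rw [mem_cl, insert_eq_of_mem (mem_singleton_self e)]

/-- a flat which contains `A` contains its closure -/
theorem flat_cl (hr : IsRank r) {u : Pt α} (hu : Sta r u) {A : Finset α} (hA : A ⊆ u.F) {f : α}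
    (hf : r (insert f A) = r A) : f ∈ u.F := by
  by_contra h
  have h1 := hu.ex.flat f h
  have h2 := hr.closure hf hA
  omega

/-- a state below `kc` is `kc` -/
theorem kc_le (hr : IsRank r) (hlo : ¬ Loo r e) {u : Pt α} (hu : Sta r u) (hne : u ≠ kc r e)
    (hc : u ≤ kc r e ∨ kc r e ≤ u) : kc r e ≤ u := by
  rcases hc with h | h
  swap
  · exact h
  exfalso
  obtain ⟨h1, h2, h3, h4⟩ := Pt.le_iff.1 h
  have hS : u.S = false := by
    by_contra hc
    have h5 := h3 (by simpa using hc)
    cases h5
  have hT : u.T = false := by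
    by_contra hc
    have h5 := h4 (by simpa using hc)
    cases h5
  have hG : u.G = ∅ := subset_empty.1 h2
  have hF : u.F ⊆ cl r {e} := h1
  by_cases heF : e ∈ u.F
  · apply hne
    refine pt_eq ?_ hG hS hT
    refine Subset.antisymm hF ?_
    intro f hf
    exact flat_cl hr hu (singleton_subset_iff.2 heF) (mem_cl.1 hf)
  · apply hu.nb
    refine pt_eq ?_ hG hS hT
    ext f
    rw [bot_F]
    constructor
    · intro hf
      by_contra h0
      have h5 : r (insert f {e}) = r {e} := mem_cl.1 (hF hf)
      have h6 : r {e} ≤ 1 := by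
        have h7 := hr.le_succ ∅ e
        rw [hr.empty, insert_empty_eq] at h7
        exact h7
      have h7 : r {f} ≤ r (insert e {f}) := hr.mono {f} e
      have h8 : insert e ({f} : Finset α) = insert f {e} := by
        ext x
        simp only [mem_insert, mem_singleton]
        tauto
      have h9 : r (insert e {f}) = r {f} := by
        rw [h8] at h7 ⊢
        omega
      exact heF (flat_cl hr hu (singleton_subset_iff.2 hf) h9)
    · intro hf
      refine flat_cl hr hu (empty_subset _) ?_
      rw [insert_empty_eq, hf, hr.empty]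

/-- canonical points -/
theorem lamc_dn {u : Pt α} (hu : Sta r u) (heF : e ∈ u.F)
    (hcan : e ∉ u.G → r (insert e u.G) ≠ r u.G) : lamc r e (dnP e u) = u := by
  refine pt_eq ?_ ?_ rfl rfl
  · show insert e (up (dn e u.F)) = u.F
    rw [up_dn, insert_erase heF]
  · show (if r (insert e (up (dn e u.G))) = r (up (dn e u.G)) then insert e (up (dn e u.G))
      else up (dn e u.G)) = u.G
    rw [up_dn]
    by_cases he : e ∈ u.G
    · rw [insert_erase he, if_pos (hu.ex.cyc e he).symm]
    · rw [erase_eq_of_notMem he, if_neg (hcan he)]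

/-- the point above a non-canonical point -/
def u1 (e : α) (u : Pt α) : Pt α := ⟨u.F, insert e u.G, u.S, u.T⟩

theorem clo_rc (hr : IsRank r) (f : Del e) : Clo (rc r e) f ↔ Clo r f.1 := by
  unfold Clo rc
  have h1 : insert e (up ((univ : Finset (Del e)).erase f)) = (univ : Finset α).erase f.1 := by
    rw [up_erase, up_univ, erase_right_comm, insert_erase]
    exact mem_erase.2 ⟨f.2.symm, mem_univ e⟩
  have h2 : insert e (up (univ : Finset (Del e))) = (univ : Finset α) := by
    rw [up_univ, insert_erase (mem_univ e)]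
  rw [h1, h2]
  have h3 : r {e} ≤ r ((univ : Finset α).erase f.1) :=
    hr.mono_subset (singleton_subset_iff.2 (mem_erase.2 ⟨f.2.symm, mem_univ e⟩))
  have h4 : r {e} ≤ r (univ : Finset α) := hr.mono_subset (subset_univ _)
  constructor
  · intro h h5
    exact h (by rw [h5])
  · intro h h5
    exact h (by omega)

theorem u1_sta (hr : IsRank r) (hlo : ¬ Loo r e) {u : Pt α} (hu : Sta r u) (heF : e ∈ u.F)
    (he : e ∉ u.G) (hn : r (insert e u.G) = r u.G) (hb : dnP e u ≠ top (rc r e)) :
    Sta r (u1 e u) := by
  refine ⟨⟨?_, ?_, ?_, ?_, ?_, ?_⟩, ?_, ?_⟩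
  · exact hu.ex.flat
  · intro f hf
    change f ∈ insert e u.G at hf
    show r ((insert e u.G).erase f) = r (insert e u.G)
    rcases mem_insert.1 hf with rfl | hfG
    · rw [erase_insert he, hn]
    · have h1 := clos hr hfG (hu.ex.cyc f hfG) (B := (insert e u.G).erase f)
        (erase_subset_erase f (subset_insert e u.G))
      rw [insert_erase hf] at h1
      exact h1.symm
  · intro f hf
    change f ∈ insert e u.G at hf
    rcases mem_insert.1 hf with rfl | hfG
    · exact heF
    · exact hu.ex.GF hfG
  · intro _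
    apply hu.ex.GS
    rw [nonempty_iff_ne_empty]
    intro h
    rw [h, insert_empty_eq, hr.empty] at hn
    exact hlo hn
  · exact hu.ex.TS
  · exact hu.ex.TF
  · intro h
    have hG : insert e u.G = ∅ := congrArg Pt.G h
    exact insert_ne_empty _ _ hG
  · intro h
    apply hb
    have hF : u.F = univ := congrArg Pt.F h
    have hG : insert e u.G = (top r).G := congrArg Pt.G h
    have hS : u.S = true := congrArg Pt.S h
    have hT : u.T = true := congrArg Pt.T h
    refine pt_eq ?_ ?_ hS hT
    · show dn e u.F = univ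
      rw [hF, dn_univ]
    · ext f
      show f ∈ dn e u.G ↔ _
      rw [mem_dn, top_G, clo_rc hr, ← top_G, ← hG, mem_insert]
      constructor
      · exact Or.inr
      · rintro (h | h)
        · exact absurd h f.2
        · exact h

end NPCU

open NPCU

theorem PCU_thm : Stmt_PCU := by
  intro α _ _ r al be e hs hr hw hTop hlo ρ ρ' hLf hF hcard
  classical
  have hsta : ∀ u ∈ ρ, Sta r u := fun u hu => hF.1.1 u (mem_insert_of_mem hu)
  have hle : ∀ u ∈ ρ, kc r e ≤ u := by
    intro u hu
    refine kc_le hr hlo (hsta u hu) (fun h => hLf.1 (h ▸ hu)) ?_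
    exact hF.1.2 u (mem_insert_of_mem hu) (kc r e) (mem_insert_self _ _)
  have heF : ∀ u ∈ ρ, e ∈ u.F := by
    intro u hu
    have h1 : cl r {e} ⊆ u.F := (hle u hu).1
    exact h1 self_mem
  have hpj : ∀ u ∈ ρ, pj e (rc r e) u = some (dnP e u) ∧ dnP e u ≠ top (rc r e) := by
    intro u hu
    obtain ⟨v', h1, -⟩ := hLf.ex hu
    unfold pj at h1 ⊢
    by_cases hc : dnP e u = bot (rc r e) ∨ dnP e u = top (rc r e)
    · rw [if_pos hc] at h1
      cases h1
    · rw [if_neg hc]
      exact ⟨rfl, fun h => hc (Or.inr h)⟩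
  -- all points are canonical
  have hcan : ∀ u ∈ ρ, e ∉ u.G → r (insert e u.G) ≠ r u.G := by
    by_contra hcon
    push Not at hcon
    have hne : (ρ.filter (fun u => e ∉ u.G ∧ r (insert e u.G) = r u.G)).Nonempty := by
      obtain ⟨u, hu, h1, h2⟩ := hcon
      exact ⟨u, mem_filter.2 ⟨hu, h1, h2⟩⟩
    obtain ⟨u, hu⟩ := Finset.exists_maximal hne
    obtain ⟨huρ, heG, hn⟩ := mem_filter.1 hu.1
    have hu1 := u1_sta hr hlo (hsta u huρ) (heF u huρ) heG hn (hpj u huρ).2
    have hu1u : u ≤ u1 e u := ⟨Subset.refl _, subset_insert _ _, id, id⟩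
    have hnotρ : u1 e u ∉ ρ := by
      intro h
      have h1 : dnP e (u1 e u) = dnP e u := by
        refine pt_eq rfl ?_ rfl rfl
        show dn e (insert e u.G) = dn e u.G
        exact dn_insert _
      have h2 := hLf.inj h huρ (by rw [(hpj _ h).1, (hpj _ huρ).1, h1])
      have h3 : insert e u.G = u.G := congrArg Pt.G h2
      exact heG (h3 ▸ mem_insert_self e u.G)
    have hnotk : u1 e u ≠ kc r e := by
      intro h
      have h1 : insert e u.G = ∅ := congrArg Pt.G h
      exact insert_ne_empty _ _ h1
    have hcmp : ∀ v ∈ insert (kc r e) ρ, u1 e u ≤ v ∨ v ≤ u1 e u := by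
      intro v hv
      rcases mem_insert.1 hv with rfl | hv
      · exact Or.inr ((hle u huρ).trans hu1u)
      · rcases hF.1.2 u (mem_insert_of_mem huρ) v (mem_insert_of_mem hv) with h | h
        · by_cases hev : e ∈ v.G
          · left
            refine ⟨h.1, ?_, h.2.2.1, h.2.2.2⟩
            intro f hf
            change f ∈ insert e u.G at hf
            rcases mem_insert.1 hf with rfl | hf
            · exact hev
            · exact h.2.1 hf
          · have h1 : v ≤ u := hu.2 (mem_filter.2 ⟨hv, hev, hr.closure hn h.2.1⟩) h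
            exact Or.inr (h1.trans hu1u)
        · exact Or.inr (h.trans hu1u)
    have hface : Fc r (insert (u1 e u) (insert (kc r e) ρ)) := by
      refine ⟨⟨?_, ?_⟩, Or.inr ?_⟩
      · intro s hs
        rcases mem_insert.1 hs with rfl | hs
        · exact hu1
        · exact hF.1.1 s hs
      · intro s hs t ht
        rcases mem_insert.1 hs with rfl | hs
        · rcases mem_insert.1 ht with rfl | ht
          · exact Or.inl (le_refl _)
          · exact hcmp t ht
        · rcases mem_insert.1 ht with rfl | ht
          · exact (hcmp s hs).symm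
          · exact hF.1.2 s hs t ht
      · rcases hF.2 with h | ⟨i, hi⟩
        · exact absurd h (insert_ne_empty _ _)
        · refine ⟨i, ?_⟩
          intro s hs
          rcases mem_insert.1 hs with rfl | hs
          · intro h1 h2
            rcases hi u (mem_insert_of_mem huρ) h1 h2 with h3 | h3
            · exact Or.inl (mem_insert_of_mem h3)
            · exact Or.inr h3
          · exact hi s hs
    obtain ⟨σ, -, h1, h2⟩ := hTop.pure _ hface
    have h3 := card_le_card h1
    rw [card_insert_of_notMem (by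
      rw [mem_insert, not_or]
      exact ⟨hnotk, hnotρ⟩), card_insert_of_notMem hLf.1] at h3
    omega
  -- the conclusion
  have hlam : ∀ u ∈ ρ, lamc r e (dnP e u) = u := fun u hu =>
    lamc_dn (hsta u hu) (heF u hu) (hcan u hu)
  ext u
  rw [mem_image]
  constructor
  · intro hu
    exact ⟨dnP e u, hLf.mem hu (hpj u hu).1, hlam u hu⟩
  · rintro ⟨v', hv', rfl⟩
    rw [← hLf.2.1, mem_im] at hv'
    obtain ⟨u, hu, h1⟩ := hv'
    rw [(hpj u hu).1] at h1
    cases h1
    rw [hlam u hu]
    exact hu

end Pool.Agent.QPR
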