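import Pool.Agent.QPR.Nm

/-!
# PDE: existence of the lifts for the deletion
-/

set_option autoImplicit false

open Finset

namespace Pool.Agent.QPR

namespace NPDE

variable {α : Type} [Fintype α] [DecidableEq α] {r : Finset α → ℕ} {e : α}

theorem clos (hr : IsRank r) {A B : Finset α} {f : α} (hf : f ∈ A) (h : r (A.erase f) = r A)
    (hAB : A.erase f ⊆ B) : r (insert f B) = r B := by
  refine hr.closure (A := A.erase f) ?_ hAB
  rw [insert_erase hf, h]

/-- the union of the circuits of `A` is cyclic -/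
theorem cyc_cyc (hr : IsRank r) (A : Finset α) {f : α} (hf : f ∈ cyc r A) :
    r ((cyc r A).erase f) = r (cyc r A) := by
  by_contra hne
  have h0 : r ((cyc r A).erase f) < r (cyc r A) :=
    lt_of_le_of_ne (hr.mono_subset (erase_subset _ _)) hne
  have hKA : cyc r A ⊆ A := fun g hg => (mem_cyc.1 hg).1
  have key : ∀ D : Finset α, D ⊆ A \ cyc r A →
      r ((cyc r A ∪ D).erase f) < r (cyc r A ∪ D) := by
    intro D
    induction D using Finset.induction_on with
    | empty =>
      intro _
      rw [union_empty]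
      exact h0
    | insert g D hg ih =>
      intro hD
      have ih' := ih (fun a ha => hD (mem_insert_of_mem ha))
      have hgA : g ∈ A ∧ g ∉ cyc r A := by
        have := hD (mem_insert_self g D)
        rwa [mem_sdiff] at this
      have hfg : g ≠ f := fun h => hgA.2 (h ▸ hf)
      have hco : r (A.erase g) < r (insert g (A.erase g)) := by
        rw [insert_erase hgA.1]
        refine lt_of_le_of_ne (hr.mono_subset (erase_subset _ _)) ?_
        intro h
        exact hgA.2 (mem_cyc.2 ⟨hgA.1, h⟩)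
      have hZ : cyc r A ∪ D ⊆ A.erase g := by
        intro a ha
        rw [mem_union] at ha
        rw [mem_erase]
        rcases ha with ha | ha
        · exact ⟨fun h => hgA.2 (h ▸ ha), hKA ha⟩
        · exact ⟨fun h => hg (h ▸ ha), (mem_sdiff.1 (hD (mem_insert_of_mem ha))).1⟩
      have h1 := hr.coclosure hco hZ
      have h2 := hr.coclosure hco ((erase_subset f _).trans hZ)
      rw [union_insert, erase_insert_of_ne hfg, h1, h2]
      omega
  have h1 := key (A \ cyc r A) (Subset.refl _)
  rw [union_sdiff_of_subset hKA] at h1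
  have h2 := (mem_cyc.1 hf).2
  omega

theorem top_G (f : α) : f ∈ (top r).G ↔ ¬ Clo r f := by
  classical
  unfold top
  simp

theorem kd_sta (hr : IsRank r) (hcl : ¬ Clo r e) : Sta r (kd r e) := by
  refine ⟨⟨?_, ?_, ?_, ?_, ?_, ?_⟩, ?_, ?_⟩
  · intro f hf
    exact absurd (mem_univ f) hf
  · intro f hf
    exact cyc_cyc hr _ hf
  · exact subset_univ _
  · intro _
    rfl
  · intro _
    rfl
  · intro _
    rfl
  · intro h
    have h1 : (kd r e).S = (bot r).S := by rw [h]
    exact Bool.noConfusion h1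
  · intro h
    have h1 : (kd r e).G = (top r).G := by rw [h]
    have h2 : e ∈ (top r).G := (top_G e).2 hcl
    rw [← h1] at h2
    exact (mem_erase.1 (mem_cyc.1 h2).1).1 rfl

theorem rd_eq (A : Finset (Del e)) : rd r e A = r (up A) := rfl

theorem dnP_lamd (s : Pt (Del e)) : dnP e (lamd r e s) = s := by
  obtain ⟨F, G, S, T⟩ := s
  unfold dnP lamd
  simp only [dn_up]
  congr 1
  split_ifs
  · rw [dn_insert, dn_up]
  · exact dn_up F

theorem mem_lamd_F {s : Pt (Del e)} {i : Del e} : i.1 ∈ (lamd r e s).F ↔ i ∈ s.F := by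
  have h : dn e (lamd r e s).F = s.F := by
    have := congrArg Pt.F (dnP_lamd (r := r) s)
    exact this
  rw [← h, mem_dn]

theorem mem_lamd_G {s : Pt (Del e)} {i : Del e} : i.1 ∈ (lamd r e s).G ↔ i ∈ s.G := by
  have h : dn e (lamd r e s).G = s.G := by
    have := congrArg Pt.G (dnP_lamd (r := r) s)
    exact this
  rw [← h, mem_dn]

theorem lamd_G (s : Pt (Del e)) : (lamd r e s).G = up s.G := rfl

theorem up_sub_F (s : Pt (Del e)) : up s.F ⊆ (lamd r e s).F := by
  unfold lamd
  simp only
  split_ifs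
  · exact subset_insert _ _
  · exact Subset.refl _

theorem up_mono {A B : Finset (Del e)} (h : A ⊆ B) : up A ⊆ up B := map_subset_map.2 h

theorem clo_iff {f : Del e} : Clo (rd r e) f ↔ r ((univ.erase e).erase f.1) ≠ r (univ.erase e) := by
  unfold Clo
  rw [rd_eq, rd_eq, up_erase, up_univ]

theorem dn_bot : dnP e (bot r) = bot (rd r e) := by
  classical
  unfold dnP bot
  congr 1
  ext f
  rw [mem_dn]
  simp only [mem_filter, mem_univ, true_and]
  unfold Loo
  rw [rd_eq]
  have h : up ({f} : Finset (Del e)) = {f.1} := by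
    unfold up
    rw [map_singleton]
    rfl
  rw [h]

theorem dn_kd : dnP e (kd r e) = top (rd r e) := by
  classical
  unfold dnP kd top
  congr 1
  · exact dn_univ
  · ext f
    rw [mem_dn, mem_cyc]
    simp only [mem_filter, mem_univ, true_and]
    rw [clo_iff, not_not]
    constructor
    · exact fun h => h.2
    · exact fun h => ⟨mem_erase.2 ⟨f.2, mem_univ _⟩, h⟩

theorem lamd_sta (hr : IsRank r) (hcl : ¬ Clo r e) {s : Pt (Del e)} (hs : Sta (rd r e) s) :
    Sta r (lamd r e s) := by
  have hflat : ∀ f, f ≠ e → f ∉ (lamd r e s).F → r (insert f (up s.F)) = r (up s.F) + 1 := by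
    intro f hfe hf
    have h1 : (⟨f, hfe⟩ : Del e) ∉ s.F := fun h => hf (mem_lamd_F.2 h)
    have h2 := hs.ex.flat _ h1
    rw [rd_eq, rd_eq, up_insert] at h2
    exact h2
  refine ⟨⟨?_, ?_, ?_, ?_, ?_, ?_⟩, ?_, ?_⟩
  · intro f hf
    by_cases hc : r (insert e (up s.F)) = r (up s.F)
    · have hF : (lamd r e s).F = insert e (up s.F) := by
        unfold lamd
        simp only
        rw [if_pos hc]
      have hfe : f ≠ e := fun h => by
        rw [hF, h] at hf
        exact hf (mem_insert_self _ _)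
      have h1 := hflat f hfe hf
      rw [hF, Finset.insert_comm, hr.closure_insert hc f, h1, hc]
    · have hF : (lamd r e s).F = up s.F := by
        unfold lamd
        simp only
        rw [if_neg hc]
      by_cases hfe : f = e
      · rw [hfe, hF]
        have h1 := hr.mono (up s.F) e
        have h2 := hr.le_succ (up s.F) e
        omega
      · rw [hF]
        exact hflat f hfe hf
  · intro f hf
    rw [lamd_G] at hf ⊢
    obtain ⟨hfe, hf'⟩ := mem_up.1 hf
    have h1 := hs.ex.cyc _ hf'
    rw [rd_eq, rd_eq, up_erase] at h1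
    exact h1
  · rw [lamd_G]
    exact (up_mono hs.ex.GF).trans (up_sub_F s)
  · intro h
    rw [lamd_G] at h
    obtain ⟨f, hf⟩ := h
    obtain ⟨hfe, hf'⟩ := mem_up.1 hf
    exact hs.ex.GS ⟨_, hf'⟩
  · exact hs.ex.TS
  · intro hT
    have h1 : s.F = univ := hs.ex.TF hT
    have h2 : r (insert e (up s.F)) = r (up s.F) := by
      rw [h1, up_univ, insert_erase (mem_univ e)]
      have h3 : r (univ.erase e) = r univ := by
        by_contra h
        exact hcl h
      exact h3.symm
    unfold lamd
    simp only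
    rw [if_pos h2, h1, up_univ, insert_erase (mem_univ e)]
  · intro h
    apply hs.nb
    rw [← dnP_lamd (r := r) s, h, dn_bot]
  · intro h
    have h1 : (lamd r e s).G = (top r).G := by rw [h]
    have h2 : e ∈ (top r).G := (top_G e).2 hcl
    rw [← h1, lamd_G] at h2
    exact notMem_up _ h2

theorem lamd_mono (hr : IsRank r) {s t : Pt (Del e)} (h : s ≤ t) : lamd r e s ≤ lamd r e t := by
  obtain ⟨h1, h2, h3, h4⟩ := Pt.le_iff.1 h
  refine Pt.le_iff.2 ⟨?_, up_mono h2, h3, h4⟩
  by_cases hc : r (insert e (up s.F)) = r (up s.F)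
  · have hc' := hr.closure hc (up_mono h1)
    unfold lamd
    simp only
    rw [if_pos hc, if_pos hc']
    exact insert_subset_insert _ (up_mono h1)
  · have hF : (lamd r e s).F = up s.F := by
      unfold lamd
      simp only
      rw [if_neg hc]
    rw [hF]
    exact (up_mono h1).trans (up_sub_F t)

theorem lamd_le_kd (hr : IsRank r) {s : Pt (Del e)} (hs : Sta (rd r e) s) :
    lamd r e s ≤ kd r e := by
  refine Pt.le_iff.2 ⟨subset_univ _, ?_, fun _ => rfl, fun _ => rfl⟩
  intro f hf
  rw [lamd_G] at hf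
  obtain ⟨hfe, hf'⟩ := mem_up.1 hf
  have h1 := hs.ex.cyc _ hf'
  rw [rd_eq, rd_eq, up_erase] at h1
  show f ∈ cyc r (univ.erase e)
  rw [mem_cyc]
  have h0 : f ∈ univ.erase e := mem_erase.2 ⟨hfe, mem_univ f⟩
  refine ⟨h0, ?_⟩
  have h2 := clos hr hf h1 (B := (univ.erase e).erase f) (by
    apply erase_subset_erase
    intro g hg
    obtain ⟨hge, _⟩ := mem_up.1 hg
    exact mem_erase.2 ⟨hge, mem_univ g⟩)
  rw [insert_erase h0] at h2
  exact h2.symm

theorem lamd_ne_kd {s : Pt (Del e)} (hs : Sta (rd r e) s) : lamd r e s ≠ kd r e := by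
  intro h
  apply hs.nt
  rw [← dnP_lamd (r := r) s, h, dn_kd]

theorem pj_lamd {s : Pt (Del e)} (hs : Sta (rd r e) s) :
    pj e (rd r e) (lamd r e s) = some s := by
  unfold pj
  rw [dnP_lamd, if_neg]
  rintro (h | h)
  · exact hs.nb h
  · exact hs.nt h

theorem lamd_inj {s t : Pt (Del e)} (h : lamd r e s = lamd r e t) : s = t := by
  rw [← dnP_lamd (r := r) s, h, dnP_lamd]

theorem nop_lamd {s : Pt (Del e)} {i : Del e} (h : Nop i s) : Nop i.1 (lamd r e s) := by
  intro h1 h2
  rcases h (mem_lamd_F.1 h1) h2 with h3 | h3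
  · exact Or.inl (mem_lamd_G.2 h3)
  · exact Or.inr h3

end NPDE

open NPDE in
theorem PDE_thm : Stmt_PDE := by
  intro α _ _ r e hr hcl ρ' hρ'
  have hsta := hρ'.1.1
  refine ⟨⟨?_, ?_, ?_⟩, ⟨?_, ?_⟩, ?_⟩
  · intro h
    obtain ⟨s, hs, h1⟩ := mem_image.1 h
    exact lamd_ne_kd (hsta s hs) h1
  · ext v
    rw [mem_im]
    constructor
    · rintro ⟨u, hu, h1⟩
      obtain ⟨s, hs, rfl⟩ := mem_image.1 hu
      rw [pj_lamd (hsta s hs)] at h1
      rw [← Option.some.inj h1]
      exact hs
    · intro hv
      exact ⟨lamd r e v, mem_image_of_mem _ hv, pj_lamd (hsta v hv)⟩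
  · exact card_image_of_injective _ (fun s t h => lamd_inj h)
  · intro s hs
    rcases mem_insert.1 hs with rfl | hs
    · exact kd_sta hr hcl
    · obtain ⟨t, ht, rfl⟩ := mem_image.1 hs
      exact lamd_sta hr hcl (hsta t ht)
  · intro s hs t ht
    rcases mem_insert.1 hs with rfl | hs
    · rcases mem_insert.1 ht with rfl | ht
      · exact Or.inl (le_refl _)
      · obtain ⟨t', ht', rfl⟩ := mem_image.1 ht
        exact Or.inr (lamd_le_kd hr (hsta t' ht'))
    · obtain ⟨s', hs', rfl⟩ := mem_image.1 hs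
      rcases mem_insert.1 ht with rfl | ht
      · exact Or.inl (lamd_le_kd hr (hsta s' hs'))
      · obtain ⟨t', ht', rfl⟩ := mem_image.1 ht
        rcases hρ'.1.2 s' hs' t' ht' with h | h
        · exact Or.inl (lamd_mono hr h)
        · exact Or.inr (lamd_mono hr h)
  · right
    rcases hρ'.2 with h | ⟨i, hi⟩
    · refine ⟨e, ?_⟩
      intro s hs
      rw [h, image_empty, insert_empty_eq, mem_singleton] at hs
      rw [hs]
      intro _ _
      exact Or.inr rfl
    · refine ⟨i.1, ?_⟩
      intro s hs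
      rcases mem_insert.1 hs with rfl | hs
      · intro _ _
        exact Or.inr rfl
      · obtain ⟨t, ht, rfl⟩ := mem_image.1 hs
        exact nop_lamd (hi t ht)

end Pool.Agent.QPR
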