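import Pool.Agent.QPR.Nm

/-!
# PDK: the weights of the canonical lifts for the deletion
-/

set_option autoImplicit false

open Finset

namespace Pool.Agent.QPR

namespace NPDK

variable {α : Type} [Fintype α] [DecidableEq α] {r : Finset α → ℕ} {e : α}

theorem mem_lamF {s : Pt (Del e)} {i : Del e} : i.1 ∈ (lamd r e s).F ↔ i ∈ s.F := by
  have hi : i.1 ∈ up s.F ↔ i ∈ s.F := by
    rw [mem_up]
    constructor
    · rintro ⟨_, h⟩
      exact h
    · intro h
      exact ⟨i.2, h⟩
  unfold lamd
  dsimp only
  split_ifs with h
  · rw [mem_insert, hi]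
    constructor
    · rintro (h1 | h1)
      · exact absurd h1 i.2
      · exact h1
    · exact Or.inr
  · exact hi

theorem mem_lamG {s : Pt (Del e)} {i : Del e} : i.1 ∈ (lamd r e s).G ↔ i ∈ s.G := by
  unfold lamd
  dsimp only
  rw [mem_up]
  constructor
  · rintro ⟨_, h⟩
    exact h
  · intro h
    exact ⟨i.2, h⟩

theorem e_notMem_lamF {s : Pt (Del e)} (h : e ∉ (lamd r e s).F) :
    r (insert e (up s.F)) ≠ r (up s.F) := by
  intro hc
  apply h
  unfold lamd
  dsimp only
  rw [if_pos hc]
  exact mem_insert_self _ _

theorem F_ne (he : ¬ Clo r e) {s : Pt (Del e)} (h : e ∉ (lamd r e s).F) :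
    ∃ i', i' ∉ s.F := by
  by_contra hc
  push Not at hc
  have h0 : s.F = univ := eq_univ_iff_forall.2 hc
  have h1 := e_notMem_lamF h
  rw [h0, up_univ, insert_erase (mem_univ e)] at h1
  apply he
  unfold Clo
  exact fun h2 => h1 h2.symm

/-- the largest middle state -/
theorem exists_greatest {r' : Finset (Del e) → ℕ} {ρ' : Finset (Pt (Del e))} (hc : Chn r' ρ')
    (hm : ∃ s ∈ ρ', s.S = true ∧ s.T = false) :
    ∃ s ∈ ρ', s.S = true ∧ s.T = false ∧ ∀ t ∈ ρ', t.S = true → t.T = false → t ≤ s := by
  classical
  obtain ⟨s1, hs1, h1, h2⟩ := hm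
  obtain ⟨s, hs, hmax⟩ := (ρ'.filter (fun s => s.S = true ∧ s.T = false)).exists_maximal
    ⟨s1, by simp [hs1, h1, h2]⟩
  rw [mem_filter] at hs
  refine ⟨s, hs.1, hs.2.1, hs.2.2, ?_⟩
  intro t ht h3 h4
  rcases hc.2 s hs.1 t ht with h | h
  · exact hmax (mem_filter.2 ⟨ht, h3, h4⟩) h
  · exact h

end NPDK

open NPDK in
theorem PDK_thm : Stmt_PDK := by
  intro α _ _ r al be e hr he ρ' hF
  classical
  constructor
  · have key : (insert (kd r e) (ρ'.image (lamd r e)) = ∅ ∨
        ∃ i, ∀ s ∈ insert (kd r e) (ρ'.image (lamd r e)), s.S = true → i ∈ s.G ∨ s.T = true) ↔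
        (ρ' = ∅ ∨ ∃ i, ∀ s ∈ ρ', s.S = true → i ∈ s.G ∨ s.T = true) := by
      constructor
      · rintro (h | ⟨i, hi⟩)
        · exact absurd h (insert_ne_empty _ _)
        · rcases ρ'.eq_empty_or_nonempty with h0 | hne
          · exact Or.inl h0
          right
          have hi' : ∀ s ∈ ρ', s.S = true → i ∈ (lamd r e s).G ∨ s.T = true := by
            intro s hs h
            exact hi (lamd r e s) (mem_insert_of_mem (mem_image_of_mem _ hs)) h
          by_cases hie : i = e
          · subst hie
            rcases hF.2 with h0 | ⟨i', -⟩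
            · exact absurd h0 hne.ne_empty
            · refine ⟨i', fun s hs hS => Or.inr ?_⟩
              rcases hi' s hs hS with h | h
              · exact absurd h (notMem_up s.G)
              · exact h
          · refine ⟨⟨i, hie⟩, fun s hs hS => ?_⟩
            rcases hi' s hs hS with h | h
            · exact Or.inl ((mem_lamG (r := r) (i := ⟨i, hie⟩)).1 h)
            · exact Or.inr h
      · rintro (h | ⟨i, hi⟩)
        · right
          refine ⟨e, fun s hs hS => ?_⟩
          rw [h, image_empty, mem_insert] at hs
          rcases hs with rfl | hs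
          · exact Or.inr rfl
          · exact absurd hs (notMem_empty _)
        · right
          refine ⟨i.1, fun s hs hS => ?_⟩
          rw [mem_insert] at hs
          rcases hs with rfl | hs
          · exact Or.inr rfl
          · rw [mem_image] at hs
            obtain ⟨s', hs', rfl⟩ := hs
            rcases hi s' hs' hS with h | h
            · exact Or.inl (mem_lamG.2 h)
            · exact Or.inr h
    unfold kop
    by_cases h : (ρ' = ∅ ∨ ∃ i, ∀ s ∈ ρ', s.S = true → i ∈ s.G ∨ s.T = true)
    · rw [if_pos h, if_pos (key.2 h)]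
    · rw [if_neg h, if_neg (fun h1 => h (key.1 h1))]
  · have key : (insert (kd r e) (ρ'.image (lamd r e)) = ∅ ∨
        ∃ i, ∀ s ∈ insert (kd r e) (ρ'.image (lamd r e)), s.T = false → i ∉ s.F ∨ s.S = false) ↔
        (ρ' = ∅ ∨ ∃ i, ∀ s ∈ ρ', s.T = false → i ∉ s.F ∨ s.S = false) := by
      constructor
      · rintro (h | ⟨i, hi⟩)
        · exact absurd h (insert_ne_empty _ _)
        · rcases ρ'.eq_empty_or_nonempty with h0 | hne
          · exact Or.inl h0
          right
          have hi' : ∀ s ∈ ρ', s.T = false → i ∉ (lamd r e s).F ∨ s.S = false := by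
            intro s hs h
            exact hi (lamd r e s) (mem_insert_of_mem (mem_image_of_mem _ hs)) h
          by_cases hie : i = e
          · subst hie
            by_cases hm : ∃ s ∈ ρ', s.S = true ∧ s.T = false
            · obtain ⟨s0, hs0, h1, h2, h3⟩ := exists_greatest hF.1 hm
              have h4 : i ∉ (lamd r i s0).F := by
                rcases hi' s0 hs0 h2 with h | h
                · exact h
                · rw [h1] at h
                  exact absurd h (by simp)
              obtain ⟨i', hi1⟩ := F_ne he h4
              refine ⟨i', fun s hs hT => ?_⟩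
              cases hS : s.S with
              | false => exact Or.inr rfl
              | true => exact Or.inl (fun h => hi1 ((h3 s hs hS hT).1 h))
            · push Not at hm
              rcases hF.2 with h0 | ⟨i', -⟩
              · exact absurd h0 hne.ne_empty
              · refine ⟨i', fun s hs hT => Or.inr ?_⟩
                cases hS : s.S with
                | false => rfl
                | true => exact absurd hT (hm s hs hS)
          · refine ⟨⟨i, hie⟩, fun s hs hT => ?_⟩
            rcases hi' s hs hT with h | h
            · exact Or.inl (fun h1 => h ((mem_lamF (i := ⟨i, hie⟩)).2 h1))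
            · exact Or.inr h
      · rintro (h | ⟨i, hi⟩)
        · right
          refine ⟨e, fun s hs hT => ?_⟩
          rw [h, image_empty, mem_insert] at hs
          rcases hs with rfl | hs
          · exact absurd hT (by simp [kd])
          · exact absurd hs (notMem_empty _)
        · right
          refine ⟨i.1, fun s hs hT => ?_⟩
          rw [mem_insert] at hs
          rcases hs with rfl | hs
          · exact absurd hT (by simp [kd])
          · rw [mem_image] at hs
            obtain ⟨s', hs', rfl⟩ := hs
            rcases hi s' hs' hT with h | h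
            · exact Or.inl (fun h1 => h (mem_lamF.1 h1))
            · exact Or.inr h
    unfold kcl
    by_cases h : (ρ' = ∅ ∨ ∃ i, ∀ s ∈ ρ', s.T = false → i ∉ s.F ∨ s.S = false)
    · rw [if_pos h, if_pos (key.2 h)]
    · rw [if_neg h, if_neg (fun h1 => h (key.1 h1))]

end Pool.Agent.QPR
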