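import Pool.Agent.QPR.Nm

/-!
# The star of the right vertex `kd r e` and the complex of the deletion (PDP)
-/

set_option autoImplicit false

open Finset

namespace Pool.Agent.QPR

namespace NPDP

variable {α : Type} [Fintype α] [DecidableEq α] {r : Finset α → ℕ} {e : α}

theorem notMem_cyc (r : Finset α → ℕ) (e : α) : e ∉ cyc r (univ.erase e) := by
  rw [mem_cyc]
  rintro ⟨h, _⟩
  exact (Finset.notMem_erase e univ) h

/-- a cyclic set contains no coloop of a larger set -/
theorem cyc_erase (hr : IsRank r) {G B : Finset α} {x : α}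
    (hG : ∀ e ∈ G, r (G.erase e) = r G) (hx : x ∈ G) (hB : G ⊆ B) : r (B.erase x) = r B := by
  have h1 : r (insert x (G.erase x)) = r (G.erase x) := by
    rw [insert_erase hx, hG x hx]
  have h2 := hr.closure h1 (B := B.erase x) (Finset.erase_subset_erase x hB)
  rw [insert_erase (hB hx)] at h2
  exact h2.symm

/-- a state above `kd` is `kd` -/
theorem eq_kd (hr : IsRank r) (he : ¬ Clo r e) {u : Pt α} (hu : Sta r u) (hle : kd r e ≤ u) :
    u = kd r e := by
  obtain ⟨hF, hG, hS, hT⟩ := hle
  have hF1 : u.F = univ := Finset.univ_subset_iff.1 hF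
  have hS1 : u.S = true := hS rfl
  have hT1 : u.T = true := hT rfl
  have hG1 : cyc r (univ.erase e) ⊆ u.G := hG
  have he' : r (univ.erase e) = r univ := not_not.1 he
  have hex : ∃ f, ¬ Clo r f ∧ f ∉ u.G := by
    by_contra hcon
    push Not at hcon
    apply hu.nt
    have h7 : u.G = (top r).G := by
      ext x
      simp only [top, mem_filter, mem_univ, true_and]
      constructor
      · intro hx hc
        exact hc (cyc_erase hr hu.ex.cyc hx (Finset.subset_univ _))
      · exact hcon x
    obtain ⟨F, G, S, T⟩ := u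
    simp only at h7 hF1 hS1 hT1
    subst h7 hF1 hS1 hT1
    rfl
  obtain ⟨f, hf, hfG⟩ := hex
  have heG : e ∉ u.G := by
    intro heG
    have hfe : f ≠ e := by
      intro h
      rw [h] at hfG
      exact hfG heG
    have hf' : r (univ.erase f) = r univ := not_not.1 hf
    have h1 : f ∉ cyc r (univ.erase e) := fun h => hfG (hG1 h)
    rw [mem_cyc, not_and] at h1
    have h2 := h1 (mem_erase.2 ⟨hfe, mem_univ f⟩)
    have h3 : u.G ⊆ univ.erase f := by
      intro x hx
      rw [mem_erase]
      refine ⟨?_, mem_univ x⟩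
      intro h
      rw [h] at hx
      exact hfG hx
    have h4 := cyc_erase hr hu.ex.cyc heG h3
    apply h2
    rw [Finset.erase_right_comm, h4, hf', he']
  have h7 : u.G = cyc r (univ.erase e) := by
    refine Finset.Subset.antisymm ?_ hG1
    intro x hx
    have h3 : u.G ⊆ univ.erase e := by
      intro y hy
      rw [mem_erase]
      refine ⟨?_, mem_univ y⟩
      intro h
      rw [h] at hy
      exact heG hy
    rw [mem_cyc]
    exact ⟨h3 hx, cyc_erase hr hu.ex.cyc hx h3⟩
  obtain ⟨F, G, S, T⟩ := u
  simp only at h7 hF1 hS1 hT1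
  subst h7 hF1 hS1 hT1
  rfl

theorem loo_rd (f : Del e) : Loo (rd r e) f ↔ Loo r f.1 := by
  unfold Loo rd
  have h2 : up ({f} : Finset (Del e)) = {f.1} := by
    ext x
    rw [mem_up, mem_singleton]
    constructor
    · rintro ⟨h, h3⟩
      rw [mem_singleton] at h3
      rw [← h3]
    · intro h3
      subst h3
      exact ⟨f.2, by simp⟩
  rw [h2]

theorem clo_rd (f : Del e) :
    Clo (rd r e) f ↔ r ((univ.erase e).erase f.1) ≠ r (univ.erase e) := by
  unfold Clo rd
  rw [up_erase, up_univ]

/-- values of a lifted generator -/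
theorem ext_pj (r' : Finset (Del e) → ℕ) (g : Pt (Del e) → ℝ) (h : Pt α → ℝ)
    (hb : ∀ u : Pt α, h u = g (dnP e u)) (h1 : g (bot r') = 0) (h2 : g (top r') = 0) (u : Pt α) :
    h u = ext g (pj e r' u) := by
  unfold pj
  split_ifs with hc
  · rw [hb]
    rcases hc with hc | hc
    · rw [hc, h1]
      rfl
    · rw [hc, h2]
      rfl
  · rw [hb]
    rfl

theorem lift_aux (hr : IsRank r) (he : ¬ Clo r e) (al be : ℝ) (l' : Pt (Del e) → ℝ)
    (hl' : l' ∈ Lin (rd r e) al be) : ∃ l ∈ Lin r al be, l (kd r e) = 0 ∧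
      ∀ u, l u = ext l' (pj e (rd r e) u) := by
  unfold Lin at hl'
  induction hl' using Submodule.span_induction with
  | mem l' h =>
    rcases h with ⟨i, hi, rfl⟩ | ⟨i, hi, rfl⟩
    · refine ⟨vv al i.1, Submodule.subset_span (Or.inl ⟨i.1, ?_, rfl⟩), ?_, ?_⟩
      · intro h
        exact hi ((loo_rd i).2 h)
      · unfold vv kd
        simp
        ring
      · refine ext_pj (rd r e) (vv al i) (vv al i.1) ?_ ?_ ?_
        · intro u
          unfold vv dnP
          simp only [mem_dn]
        · unfold vv bot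
          simp [hi]
        · unfold vv top
          simp
          ring
    · have hi1 : r ((univ.erase e).erase i.1) = r (univ.erase e) := by
        by_contra h
        exact hi ((clo_rd i).2 h)
      have hi2 : i.1 ∈ cyc r (univ.erase e) := by
        rw [mem_cyc]
        exact ⟨mem_erase.2 ⟨i.2, mem_univ _⟩, hi1⟩
      have hi' : ¬ Clo r i.1 := by
        intro h
        apply h
        have he' : r (univ.erase e) = r univ := not_not.1 he
        have h1 : r ((univ.erase e).erase i.1) ≤ r (univ.erase i.1) :=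
          hr.mono_subset (Finset.erase_subset_erase _ (Finset.subset_univ _))
        have h2 : r (univ.erase i.1) ≤ r univ := hr.mono_subset (Finset.subset_univ _)
        omega
      refine ⟨zz be i.1, Submodule.subset_span (Or.inr ⟨i.1, hi', rfl⟩), ?_, ?_⟩
      · unfold zz kd
        simp [hi2]
      · refine ext_pj (rd r e) (zz be i) (zz be i.1) ?_ ?_ ?_
        · intro u
          unfold zz dnP
          simp only [mem_dn]
        · unfold zz bot
          simp
        · unfold zz top
          simp [hi]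
  | zero =>
    refine ⟨0, Submodule.zero_mem _, rfl, fun u => ?_⟩
    cases pj e (rd r e) u <;> simp [ext]
  | add a b _ _ iha ihb =>
    obtain ⟨la, ha, ha0, hau⟩ := iha
    obtain ⟨lb, hb, hb0, hbu⟩ := ihb
    refine ⟨la + lb, Submodule.add_mem _ ha hb, by rw [Pi.add_apply, ha0, hb0, add_zero],
      fun u => ?_⟩
    rw [Pi.add_apply, hau, hbu]
    cases pj e (rd r e) u <;> simp [ext]
  | smul c a _ iha =>
    obtain ⟨la, ha, ha0, hau⟩ := iha
    refine ⟨c • la, Submodule.smul_mem _ c ha, by rw [Pi.smul_apply, ha0, smul_zero],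
      fun u => ?_⟩
    rw [Pi.smul_apply, hau]
    cases pj e (rd r e) u <;> simp [ext]

theorem dnP_mono {u v : Pt α} (h : u ≤ v) : dnP e u ≤ dnP e v := by
  obtain ⟨h1, h2, h3, h4⟩ := h
  refine ⟨?_, ?_, h3, h4⟩
  · intro x hx
    have hx' : x ∈ dn e u.F := hx
    rw [mem_dn] at hx'
    change x ∈ dn e v.F
    rw [mem_dn]
    exact h1 hx'
  · intro x hx
    have hx' : x ∈ dn e u.G := hx
    rw [mem_dn] at hx'
    change x ∈ dn e v.G
    rw [mem_dn]
    exact h2 hx'

theorem ex_dnP (hr : IsRank r) {u : Pt α} (hu : Ex0 r u) (heG : e ∉ u.G) :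
    Ex0 (rd r e) (dnP e u) := by
  refine ⟨?_, ?_, ?_, ?_, hu.TS, ?_⟩
  · intro f hf
    have hf' : f ∉ dn e u.F := hf
    rw [mem_dn] at hf'
    change rd r e (insert f (dn e u.F)) = rd r e (dn e u.F) + 1
    unfold rd
    rw [up_insert, up_dn]
    have h1 := hu.flat _ hf'
    exact hr.coclosure (B := u.F) (by omega) (Finset.erase_subset _ _)
  · intro f hf
    have hf' : f ∈ dn e u.G := hf
    rw [mem_dn] at hf'
    change rd r e ((dn e u.G).erase f) = rd r e (dn e u.G)
    unfold rd
    rw [up_erase, up_dn, Finset.erase_eq_of_notMem heG]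
    exact hu.cyc _ hf'
  · intro x hx
    have hx' : x ∈ dn e u.G := hx
    rw [mem_dn] at hx'
    change x ∈ dn e u.F
    rw [mem_dn]
    exact hu.GF hx'
  · rintro ⟨x, hx⟩
    have hx' : x ∈ dn e u.G := hx
    rw [mem_dn] at hx'
    exact hu.GS ⟨_, hx'⟩
  · intro h
    change dn e u.F = univ
    rw [hu.TF h, dn_univ]

theorem pj_some {r' : Finset (Del e) → ℕ} {u : Pt α} (h : pj e r' u ≠ none) :
    pj e r' u = some (dnP e u) ∧ dnP e u ≠ bot r' ∧ dnP e u ≠ top r' := by
  unfold pj at h ⊢
  split_ifs at h ⊢ with hc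
  · exact absurd rfl h
  · rw [not_or] at hc
    exact ⟨rfl, hc.1, hc.2⟩

/-- the greatest element of a nonempty chain with a property -/
theorem exists_greatest {ρ : Finset (Pt α)} (P : Pt α → Prop)
    (hch : ∀ s ∈ ρ, ∀ t ∈ ρ, s ≤ t ∨ t ≤ s) (hne : ∃ s ∈ ρ, P s) :
    ∃ s ∈ ρ, P s ∧ ∀ t ∈ ρ, P t → t ≤ s := by
  classical
  have hne' : (ρ.filter P).Nonempty := by
    obtain ⟨s, hs, hP⟩ := hne
    exact ⟨s, mem_filter.2 ⟨hs, hP⟩⟩
  obtain ⟨s, hs⟩ := (ρ.filter P).exists_maximal hne'
  obtain ⟨hs1, hs2⟩ := hs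
  obtain ⟨hs3, hs4⟩ := mem_filter.1 hs1
  refine ⟨s, hs3, hs4, fun t ht hPt => ?_⟩
  rcases hch s hs3 t ht with h | h
  · exact hs2 (mem_filter.2 ⟨ht, hPt⟩) h
  · exact h

theorem face_aux (hr : IsRank r) (he : ¬ Clo r e) (ρ : Finset (Pt α)) (hk : kd r e ∉ ρ)
    (hF : Fc r (insert (kd r e) ρ)) (hn : ∀ u ∈ ρ, pj e (rd r e) u ≠ none) :
    Fc (rd r e) (im (pj e (rd r e)) ρ) := by
  obtain ⟨⟨hSta, hch⟩, hop⟩ := hF
  have hkle : ∀ u ∈ ρ, u ≤ kd r e := by
    intro u hu
    rcases hch u (mem_insert_of_mem hu) _ (mem_insert_self _ _) with h | h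
    · exact h
    · exfalso
      apply hk
      rw [← eq_kd hr he (hSta u (mem_insert_of_mem hu)) h]
      exact hu
  have heG : ∀ u ∈ ρ, e ∉ u.G := fun u hu h => notMem_cyc r e ((hkle u hu).2.1 h)
  have him : ∀ s' ∈ im (pj e (rd r e)) ρ, ∃ u ∈ ρ, s' = dnP e u ∧ s' ≠ bot (rd r e) ∧
      s' ≠ top (rd r e) := by
    intro s' hs'
    obtain ⟨u, hu, hus⟩ := mem_im.1 hs'
    obtain ⟨h1, h2, h3⟩ := pj_some (hn u hu)
    rw [h1] at hus
    have h4 : dnP e u = s' := Option.some.inj hus
    exact ⟨u, hu, h4.symm, by rw [← h4]; exact h2, by rw [← h4]; exact h3⟩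
  refine ⟨⟨?_, ?_⟩, ?_⟩
  · intro s' hs'
    obtain ⟨u, hu, rfl, h2, h3⟩ := him s' hs'
    exact ⟨ex_dnP hr (hSta u (mem_insert_of_mem hu)).ex (heG u hu), h2, h3⟩
  · intro s' hs' t' ht'
    obtain ⟨u, hu, rfl, _, _⟩ := him s' hs'
    obtain ⟨v, hv, rfl, _, _⟩ := him t' ht'
    rcases hch u (mem_insert_of_mem hu) v (mem_insert_of_mem hv) with h | h
    · exact Or.inl (dnP_mono h)
    · exact Or.inr (dnP_mono h)
  · by_cases hemp : im (pj e (rd r e)) ρ = ∅
    · exact Or.inl hemp
    right
    obtain ⟨s0, hs0⟩ := Finset.nonempty_iff_ne_empty.2 hemp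
    obtain ⟨u0, hu0, hs0e, hs0b, hs0t⟩ := him s0 hs0
    rcases hop with h | ⟨i, hi⟩
    · exact absurd h (Finset.insert_ne_empty _ _)
    by_cases hie : i = e
    · rw [hie] at hi
      by_cases hmid : ∃ s ∈ ρ, s.S = true ∧ s.T = false
      · obtain ⟨s, hs, ⟨hsS, hsT⟩, hmax⟩ := exists_greatest (fun s => s.S = true ∧ s.T = false)
          (fun s hs t ht => hch s (mem_insert_of_mem hs) t (mem_insert_of_mem ht)) hmid
        have heF : e ∉ s.F := by
          intro heF
          rcases hi s (mem_insert_of_mem hs) heF hsS with h | h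
          · exact heG s hs h
          · rw [hsT] at h
            cases h
        have hj : ∃ j, j ≠ e ∧ j ∉ s.F := by
          by_contra hcon
          push Not at hcon
          have h1 : s.F = univ.erase e := by
            ext x
            rw [mem_erase]
            constructor
            · intro hx
              refine ⟨?_, mem_univ x⟩
              intro h
              rw [h] at hx
              exact heF hx
            · rintro ⟨hx, _⟩
              exact hcon x hx
          have h2 := (hSta s (mem_insert_of_mem hs)).ex.flat e heF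
          rw [h1, insert_erase (mem_univ e)] at h2
          have he' : r (univ.erase e) = r univ := not_not.1 he
          omega
        obtain ⟨j, hje, hjF⟩ := hj
        refine ⟨⟨j, hje⟩, fun s' hs' => ?_⟩
        obtain ⟨u, hu, rfl, _, _⟩ := him s' hs'
        intro hF hS
        have hS' : u.S = true := hS
        have hF' : (⟨j, hje⟩ : Del e) ∈ dn e u.F := hF
        rw [mem_dn] at hF'
        right
        by_contra hT
        have hT' : u.T = false := by simpa using (show ¬ u.T = true from hT)
        exact hjF ((hmax u hu ⟨hS', hT'⟩).1 hF')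
      · have hne : Nonempty (Del e) := by
          by_contra hE
          rw [not_nonempty_iff] at hE
          by_cases hS : u0.S = true
          · have hT : u0.T = true := by
              by_contra hT
              exact hmid ⟨u0, hu0, hS, by simpa using hT⟩
            apply hs0t
            rw [hs0e]
            unfold dnP top
            rw [hS, hT]
            congr 1
            · exact Subsingleton.elim _ _
            · exact Subsingleton.elim _ _
          · have hS' : u0.S = false := by simpa using hS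
            have hT' : u0.T = false := by
              by_contra hT
              have hT2 : u0.T = true := by simpa using hT
              exact hS ((hSta u0 (mem_insert_of_mem hu0)).ex.TS hT2)
            apply hs0b
            rw [hs0e]
            unfold dnP bot
            rw [hS', hT']
            congr 1
            · exact Subsingleton.elim _ _
            · exact Subsingleton.elim _ _
        obtain ⟨j⟩ := hne
        refine ⟨j, fun s' hs' => ?_⟩
        obtain ⟨u, hu, rfl, _, _⟩ := him s' hs'
        intro _ hS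
        have hS' : u.S = true := hS
        right
        by_contra hT
        exact hmid ⟨u, hu, hS', by simpa using (show ¬ u.T = true from hT)⟩
    · refine ⟨⟨i, hie⟩, fun s' hs' => ?_⟩
      obtain ⟨u, hu, rfl, _, _⟩ := him s' hs'
      intro hiF hS
      have hiF' : (⟨i, hie⟩ : Del e) ∈ dn e u.F := hiF
      rw [mem_dn] at hiF'
      rcases hi u (mem_insert_of_mem hu) hiF' hS with h | h
      · left
        change (⟨i, hie⟩ : Del e) ∈ dn e u.G
        rw [mem_dn]
        exact h
      · exact Or.inr h

end NPDP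

theorem PDP_thm : Stmt_PDP := by
  intro α _ _ r al be e hs hs' hr _ he
  refine ⟨?_, ?_⟩
  · intro l' hl'
    obtain ⟨l, h1, h2, h3⟩ := NPDP.lift_aux hr he al be l' hl'
    exact ⟨l, h1, h2, fun u _ _ => h3 u⟩
  · intro ρ hk hF hn
    exact NPDP.face_aux hr he ρ hk hF hn

end Pool.Agent.QPR
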