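import Pool.Agent.QPR.Nm

/-!
# PDU: uniqueness of the lifts for the deletion
-/

set_option autoImplicit false

open Finset

namespace Pool.Agent.QPR

namespace NPDU

variable {α : Type} [Fintype α] [DecidableEq α] {r : Finset α → ℕ} {e : α}

theorem pt_eq {s t : Pt α} (h1 : s.F = t.F) (h2 : s.G = t.G) (h3 : s.S = t.S)
    (h4 : s.T = t.T) : s = t := by
  cases s
  cases t
  simp only at h1 h2 h3 h4
  subst h1
  subst h2
  subst h3
  subst h4
  rfl

/-- `f` is in the closure of `A - f` -/
theorem clos (hr : IsRank r) {A B : Finset α} {f : α} (hf : f ∈ A) (h : r (A.erase f) = r A)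
    (hAB : A.erase f ⊆ B) : r (insert f B) = r B := by
  refine hr.closure (A := A.erase f) ?_ hAB
  rw [insert_erase hf, h]

/-- the elements of a cyclic set are not coloops -/
theorem not_clo (hr : IsRank r) {A : Finset α} {f : α} (hf : f ∈ A)
    (h : r (A.erase f) = r A) : ¬ Clo r f := by
  intro hc
  apply hc
  have h1 := clos hr hf h (B := univ.erase f) (erase_subset_erase f (subset_univ A))
  rw [insert_erase (mem_univ f)] at h1
  exact h1.symm

theorem bot_F (f : α) : f ∈ (bot r).F ↔ r {f} = 0 := by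
  classical
  unfold bot
  simp [Loo]

theorem top_G (f : α) : f ∈ (top r).G ↔ ¬ Clo r f := by
  classical
  unfold top
  simp

/-- a state above `kd` is `kd` -/
theorem le_kd (hr : IsRank r) {u : Pt α} (hu : Sta r u) (hne : u ≠ kd r e)
    (hc : u ≤ kd r e ∨ kd r e ≤ u) : u ≤ kd r e := by
  rcases hc with h | h
  · exact h
  exfalso
  obtain ⟨h1, h2, h3, h4⟩ := Pt.le_iff.1 h
  have hS : u.S = true := h3 rfl
  have hT : u.T = true := h4 rfl
  have hF : u.F = univ := hu.ex.TF hT
  have hK : cyc r (univ.erase e) ⊆ u.G := h2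
  have heG : e ∈ u.G := by
    by_contra heG
    apply hne
    refine pt_eq hF ?_ hS hT
    refine Subset.antisymm ?_ hK
    intro f hf
    have hfe : f ≠ e := fun hfe => heG (hfe ▸ hf)
    show f ∈ cyc r (univ.erase e)
    rw [mem_cyc]
    refine ⟨mem_erase.2 ⟨hfe, mem_univ f⟩, ?_⟩
    have h5 := clos hr hf (hu.ex.cyc f hf) (B := (univ.erase e).erase f) (by
      apply erase_subset_erase
      intro g hg
      exact mem_erase.2 ⟨fun hge => heG (hge ▸ hg), mem_univ g⟩)
    rw [insert_erase (mem_erase.2 ⟨hfe, mem_univ f⟩)] at h5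
    exact h5.symm
  apply hu.nt
  refine pt_eq hF ?_ hS hT
  ext g
  rw [top_G]
  constructor
  · intro hg
    exact not_clo hr hg (hu.ex.cyc g hg)
  · intro hg
    by_contra hgG
    have hge : g ≠ e := fun hge => hgG (hge ▸ heG)
    have hgK : g ∉ cyc r (univ.erase e) := fun h => hgG (hK h)
    have h5 : r ((univ.erase e).erase g) ≠ r (univ.erase e) := by
      intro h6
      apply hgK
      rw [mem_cyc]
      exact ⟨mem_erase.2 ⟨hge, mem_univ g⟩, h6⟩
    have h6 : r ((univ.erase e).erase g) ≤ r (univ.erase e) := hr.mono_subset (erase_subset _ _)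
    have h7 := clos hr heG (hu.ex.cyc e heG) (B := (univ.erase e).erase g) (by
      intro f hf
      rw [mem_erase] at hf
      exact mem_erase.2 ⟨fun hfg => hgG (hfg ▸ hf.2), mem_erase.2 ⟨hf.1, mem_univ f⟩⟩)
    have h8 : insert e ((univ.erase e).erase g) = univ.erase g := by
      rw [erase_right_comm, insert_erase (mem_erase.2 ⟨hge.symm, mem_univ e⟩)]
    rw [h8] at h7
    have h9 : r (univ.erase e) ≤ r univ := hr.mono_subset (erase_subset _ _)
    exact hg (fun h10 => by omega)

/-- canonical points -/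
theorem lamd_dn (hr : IsRank r) {u : Pt α} (hu : Sta r u) (heG : e ∉ u.G)
    (hcan : e ∈ u.F → r (u.F.erase e) = r u.F) : lamd r e (dnP e u) = u := by
  refine pt_eq ?_ ?_ rfl rfl
  · show (if r (insert e (up (dn e u.F))) = r (up (dn e u.F)) then insert e (up (dn e u.F))
      else up (dn e u.F)) = u.F
    rw [up_dn]
    by_cases he : e ∈ u.F
    · rw [insert_erase he, if_pos (hcan he).symm]
    · rw [erase_eq_of_notMem he, if_neg]
      intro h
      have := hu.ex.flat e he
      omega
  · show up (dn e u.G) = u.G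
    rw [up_dn, erase_eq_of_notMem heG]

/-- the point below a non-canonical point -/
def u1 (e : α) (u : Pt α) : Pt α := ⟨u.F.erase e, u.G, u.S, u.T⟩

theorem u1_sta (hr : IsRank r) (hcl : ¬ Clo r e) {u : Pt α} (hu : Sta r u) (heG : e ∉ u.G)
    (he : e ∈ u.F) (hn : r (u.F.erase e) ≠ r u.F) (hb : dnP e u ≠ bot (rd r e)) :
    Sta r (u1 e u) ∧ u.T = false := by
  have hT : u.T = false := by
    by_contra hT
    have hT' : u.T = true := by simpa using hT
    have h1 := hu.ex.TF hT'
    rw [h1] at hn
    exact hcl hn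
  refine ⟨⟨⟨?_, ?_, ?_, ?_, ?_, ?_⟩, ?_, ?_⟩, hT⟩
  · intro f hf
    change f ∉ u.F.erase e at hf
    show r (insert f (u.F.erase e)) = r (u.F.erase e) + 1
    by_cases hfe : f = e
    · rw [hfe, insert_erase he]
      have h1 := hr.mono (u.F.erase e) e
      have h2 := hr.le_succ (u.F.erase e) e
      rw [insert_erase he] at h1 h2
      omega
    · have hfF : f ∉ u.F := fun h => hf (mem_erase.2 ⟨hfe, h⟩)
      have h3 := hu.ex.flat f hfF
      exact hr.coclosure (B := u.F) (by omega) (erase_subset _ _)
  · exact hu.ex.cyc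
  · intro f hf
    exact mem_erase.2 ⟨fun hfe => heG (hfe ▸ hf), hu.ex.GF hf⟩
  · exact hu.ex.GS
  · exact hu.ex.TS
  · intro h
    change u.T = true at h
    rw [hT] at h
    cases h
  · intro h
    apply hb
    have hF : (u1 e u).F = (bot r).F := congrArg Pt.F h
    have hG : (u1 e u).G = (bot r).G := congrArg Pt.G h
    have hS : (u1 e u).S = (bot r).S := congrArg Pt.S h
    change u.F.erase e = (bot r).F at hF
    change u.G = (bot r).G at hG
    change u.S = (bot r).S at hS
    refine pt_eq ?_ ?_ hS hT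
    · ext f
      show f ∈ dn e u.F ↔ _
      rw [mem_dn, bot_F]
      have h1 : f.1 ∈ u.F.erase e ↔ f.1 ∈ u.F := by
        rw [mem_erase]
        exact ⟨fun h => h.2, fun h => ⟨f.2, h⟩⟩
      rw [← h1, hF, bot_F]
      have h2 : up ({f} : Finset (Del e)) = {f.1} := by
        unfold up
        rw [map_singleton]
        rfl
      unfold rd
      rw [h2]
    · show dn e u.G = _
      rw [hG]
      show dn e ∅ = ∅
      ext f
      simp [mem_dn]
  · intro h
    have h1 : u.T = true := congrArg Pt.T h
    rw [hT] at h1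
    cases h1

end NPDU

open NPDU

theorem PDU_thm : Stmt_PDU := by
  intro α _ _ r al be e hs hr hw hTop hcl ρ ρ' hLf hF hcard
  classical
  have hsta : ∀ u ∈ ρ, Sta r u := fun u hu => hF.1.1 u (mem_insert_of_mem hu)
  have hle : ∀ u ∈ ρ, u ≤ kd r e := by
    intro u hu
    refine le_kd hr (hsta u hu) (fun h => hLf.1 (h ▸ hu)) ?_
    exact hF.1.2 u (mem_insert_of_mem hu) (kd r e) (mem_insert_self _ _)
  have heG : ∀ u ∈ ρ, e ∉ u.G := by
    intro u hu h
    have h1 : u.G ⊆ cyc r (univ.erase e) := (hle u hu).2.1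
    have h2 := (mem_cyc.1 (h1 h)).1
    exact (notMem_erase e univ) h2
  have hpj : ∀ u ∈ ρ, pj e (rd r e) u = some (dnP e u) ∧ dnP e u ≠ bot (rd r e) := by
    intro u hu
    obtain ⟨v', h1, -⟩ := hLf.ex hu
    unfold pj at h1 ⊢
    by_cases hc : dnP e u = bot (rd r e) ∨ dnP e u = top (rd r e)
    · rw [if_pos hc] at h1
      cases h1
    · rw [if_neg hc]
      exact ⟨rfl, fun h => hc (Or.inl h)⟩
  -- all points are canonical
  have hcan : ∀ u ∈ ρ, e ∈ u.F → r (u.F.erase e) = r u.F := by
    by_contra hcon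
    push Not at hcon
    have hne : (ρ.filter (fun u => e ∈ u.F ∧ r (u.F.erase e) ≠ r u.F)).Nonempty := by
      obtain ⟨u, hu, h1, h2⟩ := hcon
      exact ⟨u, mem_filter.2 ⟨hu, h1, h2⟩⟩
    obtain ⟨u, hu⟩ := Finset.exists_minimal hne
    obtain ⟨huρ, heF, hn⟩ := mem_filter.1 hu.1
    obtain ⟨hu1, hT⟩ := u1_sta hr hcl (hsta u huρ) (heG u huρ) heF hn (hpj u huρ).2
    have hu1u : u1 e u ≤ u := ⟨erase_subset _ _, Subset.refl _, id, id⟩
    have hnotρ : u1 e u ∉ ρ := by
      intro h
      have h1 : dnP e (u1 e u) = dnP e u := by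
        refine pt_eq ?_ rfl rfl rfl
        show dn e (u.F.erase e) = dn e u.F
        ext f
        rw [mem_dn, mem_dn, mem_erase]
        exact ⟨fun h => h.2, fun h => ⟨f.2, h⟩⟩
      have h2 := hLf.inj h huρ (by rw [(hpj _ h).1, (hpj _ huρ).1, h1])
      have h3 : u.F.erase e = u.F := congrArg Pt.F h2
      have h4 : e ∈ u.F.erase e := by rw [h3]; exact heF
      exact notMem_erase e _ h4
    have hnotk : u1 e u ≠ kd r e := by
      intro h
      have h1 : u.T = true := congrArg Pt.T h
      rw [hT] at h1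
      cases h1
    have hcmp : ∀ v ∈ insert (kd r e) ρ, u1 e u ≤ v ∨ v ≤ u1 e u := by
      intro v hv
      rcases mem_insert.1 hv with rfl | hv
      · exact Or.inl (hu1u.trans (hle u huρ))
      · rcases hF.1.2 u (mem_insert_of_mem huρ) v (mem_insert_of_mem hv) with h | h
        · exact Or.inl (hu1u.trans h)
        · by_cases hev : e ∈ v.F
          · by_cases hnv : r (v.F.erase e) = r v.F
            · exfalso
              apply hn
              have h1 := clos hr hev hnv (B := u.F.erase e) (erase_subset_erase e h.1)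
              rw [insert_erase heF] at h1
              exact h1.symm
            · have h1 : u ≤ v := hu.2 (mem_filter.2 ⟨hv, hev, hnv⟩) h
              exact Or.inl (hu1u.trans h1)
          · right
            refine ⟨?_, h.2.1, h.2.2.1, h.2.2.2⟩
            intro f hf
            exact mem_erase.2 ⟨fun hfe => hev (hfe ▸ hf), h.1 hf⟩
    have hface : Fc r (insert (u1 e u) (insert (kd r e) ρ)) := by
      refine ⟨⟨?_, ?_⟩, Or.inr ?_⟩
      · intro s hs
        rcases mem_insert.1 hs with rfl | hs
        · exact hu1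
        · exact hF.1.1 s hs
      · intro s hs t ht
        rcases mem_insert.1 hs with rfl | hs
        · rcases mem_insert.1 ht with rfl | ht
          · exact Or.inl (le_refl _)
          · exact hcmp t ht
        · rcases mem_insert.1 ht with rfl | ht
          · exact (hcmp s hs).symm
          · exact hF.1.2 s hs t ht
      · rcases hF.2 with h | ⟨i, hi⟩
        · exact absurd h (insert_ne_empty _ _)
        · refine ⟨i, ?_⟩
          intro s hs
          rcases mem_insert.1 hs with rfl | hs
          · intro h1 h2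
            exact hi u (mem_insert_of_mem huρ) (mem_of_mem_erase h1) h2
          · exact hi s hs
    obtain ⟨σ, -, h1, h2⟩ := hTop.pure _ hface
    have h3 := card_le_card h1
    rw [card_insert_of_notMem (by
      rw [mem_insert, not_or]
      exact ⟨hnotk, hnotρ⟩), card_insert_of_notMem hLf.1] at h3
    omega
  -- the conclusion
  have hlam : ∀ u ∈ ρ, lamd r e (dnP e u) = u := fun u hu =>
    lamd_dn hr (hsta u hu) (heG u hu) (hcan u hu)
  ext u
  rw [mem_image]
  constructor
  · intro hu
    exact ⟨dnP e u, hLf.mem hu (hpj u hu).1, hlam u hu⟩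
  · rintro ⟨v', hv', rfl⟩
    rw [← hLf.2.1, mem_im] at hv'
    obtain ⟨u, hu, h1⟩ := hv'
    rw [(hpj u hu).1] at h1
    cases h1
    rw [hlam u hu]
    exact hu

end Pool.Agent.QPR
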