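import Pool.Agent.QPR.Nm

set_option autoImplicit false

open Finset

namespace Pool.Agent.QPR

namespace NVL

variable {α : Type} [Fintype α] [DecidableEq α]

/-- the linear function vanishing on and below `s` -/
theorem key {r : Finset α → ℕ} {al be : ℝ} {s : Pt α} (hS : s.S = false) (hT : s.T = false)
    (hG : s.G = ∅) {l1 : Pt α → ℝ} (hl1 : l1 ∈ Lin r al be) :
    ∃ l ∈ Lin r al be, ∃ c : ℝ, (∀ v, v ≤ s → l v = 0) ∧
      ∀ u, s ≤ u → l1 u = l u + c * (-1 + (if u.S = true then 1 - al else 0) +
        (if u.T = true then al else 0)) := by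
  unfold Lin at hl1
  induction hl1 using Submodule.span_induction with
  | mem x hx =>
    rcases hx with ⟨i, hi, rfl⟩ | ⟨i, hi, rfl⟩
    · by_cases his : i ∈ s.F
      · refine ⟨0, Submodule.zero_mem _, 1, fun v _ => rfl, fun u hu => ?_⟩
        have h1 : i ∈ u.F := hu.1 his
        unfold vv
        rw [if_pos h1, Pi.zero_apply]
        ring
      · refine ⟨vv al i, Submodule.subset_span (Or.inl ⟨i, hi, rfl⟩), 0, fun v hv => ?_,
          fun u _ => by ring⟩
        have h1 : i ∉ v.F := fun h => his (hv.1 h)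
        have h2 : ¬ v.S = true := fun h => by rw [hv.2.2.1 h] at hS; cases hS
        have h3 : ¬ v.T = true := fun h => by rw [hv.2.2.2 h] at hT; cases hT
        unfold vv
        rw [if_neg h1, if_neg h2, if_neg h3]
        ring
    · refine ⟨zz be i, Submodule.subset_span (Or.inr ⟨i, hi, rfl⟩), 0, fun v hv => ?_,
        fun u _ => by ring⟩
      have h1 : i ∉ v.G := fun h => by
        have := hv.2.1 h
        rw [hG] at this
        simp at this
      have h2 : ¬ v.S = true := fun h => by rw [hv.2.2.1 h] at hS; cases hS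
      have h3 : ¬ v.T = true := fun h => by rw [hv.2.2.2 h] at hT; cases hT
      unfold zz
      rw [if_neg h1, if_neg h2, if_neg h3]
      ring
  | zero => exact ⟨0, Submodule.zero_mem _, 0, fun v _ => rfl, fun u _ => by simp⟩
  | add x y _ _ hx hy =>
    obtain ⟨l, hl, c, h1, h2⟩ := hx
    obtain ⟨l', hl', c', h1', h2'⟩ := hy
    refine ⟨l + l', Submodule.add_mem _ hl hl', c + c', fun v hv => ?_, fun u hu => ?_⟩
    · rw [Pi.add_apply, h1 v hv, h1' v hv, add_zero]
    · rw [Pi.add_apply, Pi.add_apply, h2 u hu, h2' u hu]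
      ring
  | smul a x _ hx =>
    obtain ⟨l, hl, c, h1, h2⟩ := hx
    refine ⟨a • l, Submodule.smul_mem _ a hl, a * c, fun v hv => ?_, fun u hu => ?_⟩
    · rw [Pi.smul_apply, h1 v hv, smul_zero]
    · rw [Pi.smul_apply, Pi.smul_apply, h2 u hu, smul_eq_mul, smul_eq_mul]
      ring

end NVL

theorem VL_thm : Stmt_VL := by
  intro α _ _ r al be hs hr hwin hTop s u' hs1 hu' hlt hS A hA hlen
  have hT : s.T = false := by
    cases h : s.T with
    | false => rfl
    | true => rw [hs1.ex.TS h] at hS; cases hS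
  have hG : s.G = ∅ := by
    by_contra hne
    have := hs1.ex.GS (Finset.nonempty_iff_ne_empty.2 hne)
    rw [this] at hS
    cases hS
  have hfv : ∀ f : Pt α → ℝ, (f = Xi al be ∨ (∃ e, e ∉ s.F ∧ f = cc e) ∨ ∃ e, f = dd e) →
      ∀ v, v ≤ s → f v = 0 := by
    intro f hf v hv
    have h2 : ¬ v.S = true := fun h => by rw [hv.2.2.1 h] at hS; cases hS
    have h3 : ¬ v.T = true := fun h => by rw [hv.2.2.2 h] at hT; cases hT
    rcases hf with rfl | ⟨e, he, rfl⟩ | ⟨e, rfl⟩
    · unfold Xi
      rw [if_neg (fun h => h2 h.1)]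
    · unfold cc
      rw [if_neg (fun h => he (hv.1 h.2))]
    · unfold dd
      rw [if_neg (fun h => h3 h.1)]
  refine van (C := cx r al be hs) hTop.wt (n := Fintype.card α)
    (fun ρ => s ∈ ρ ∧ ∀ u ∈ ρ, s ≤ u)
    {f | f = Xi al be ∨ (∃ e, e ∉ s.F ∧ f = cc e) ∨ ∃ e, f = dd e} ?_ ?_ A hA {s}
    ⟨mem_singleton_self s, fun u hu => by rw [mem_singleton.1 hu]⟩ (by
      rw [card_singleton]; omega)
  · intro f hf ρ hρ hP
    obtain ⟨l1, hl1, hl1f⟩ := hs ρ hρ f
    obtain ⟨l, hl, c, h1, h2⟩ := NVL.key hS hT hG hl1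
    have h3 := h2 s le_rfl
    rw [hl1f s hP.1, hfv f hf s le_rfl, h1 s le_rfl, if_neg (by rw [hS]; decide),
      if_neg (by rw [hT]; decide)] at h3
    have hc : c = 0 := by linarith
    refine ⟨l, hl, fun u hu => ?_, fun v hv hF hnP => ?_⟩
    · rw [← hl1f u hu, h2 u (hP.2 u hu), hc]
      ring
    · have hvs : v ≤ s := by
        rcases hF.1.2 s (mem_insert_of_mem hP.1) v (mem_insert_self _ _) with h | h
        · exfalso
          apply hnP
          refine ⟨mem_insert_of_mem hP.1, fun u hu => ?_⟩
          rcases mem_insert.1 hu with rfl | hu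
          · exact h
          · exact hP.2 u hu
        · exact h
      rw [hfv f hf v hvs, h1 v hvs]
  · intro ρ hP hcard
    unfold tw
    rw [if_neg]
    rintro ⟨hF, _⟩
    have hnot : u' ∉ ρ := fun h => absurd (hP.2 u' h) (not_le_of_gt hlt)
    have hF' : (cx r al be hs).F (insert u' ρ) := by
      refine ⟨⟨?_, ?_⟩, Or.inr ?_⟩
      · intro t ht
        rcases mem_insert.1 ht with rfl | ht
        · exact hu'
        · exact hF.1.1 t ht
      · intro t ht t' ht'
        rcases mem_insert.1 ht with h1 | h1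
        · rcases mem_insert.1 ht' with h2 | h2
          · left
            rw [h1, h2]
          · left
            rw [h1]
            exact hlt.le.trans (hP.2 t' h2)
        · rcases mem_insert.1 ht' with h2 | h2
          · right
            rw [h2]
            exact hlt.le.trans (hP.2 t h1)
          · exact hF.1.2 t h1 t' h2
      · rcases hF.2 with h | ⟨i, hi⟩
        · rw [h] at hP
          exact absurd hP.1 (notMem_empty _)
        · refine ⟨i, fun t ht => ?_⟩
          rcases mem_insert.1 ht with rfl | ht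
          · intro _ h
            rw [hlt.le.2.2.1 h] at hS
            cases hS
          · exact hi t ht
    obtain ⟨σ, _, hσ1, hσ2⟩ := hTop.pure _ hF'
    have := card_le_card hσ1
    rw [card_insert_of_notMem hnot, hcard, hσ2] at this
    omega

end Pool.Agent.QPR
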