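import Pool.Agent.QPR.Nm

/-!
# Numbers at a middle state with `F ≠ G` (VM)
-/

set_option autoImplicit false

open Finset

namespace Pool.Agent.QPR

namespace NVM

variable {α : Type} [Fintype α] [DecidableEq α]

/-- the relative point determines the data of an index outside of `s.F - s.G` -/
theorem rel_data {s u v : Pt α} {i : α} (hi : ¬ (i ∈ s.F ∧ i ∉ s.G)) (h : rel s v = rel s u) :
    (i ∈ v.F ↔ i ∈ u.F) ∧ (i ∈ v.G ↔ i ∈ u.G) ∧ v.S = u.S ∧ v.T = u.T := by
  unfold rel at h
  simp only [Prod.mk.injEq] at h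
  obtain ⟨h1, h2, h3, h4⟩ := h
  refine ⟨?_, ?_, h3, h4⟩
  · have h5 := Finset.ext_iff.1 h1 i
    simp only [mem_filter, hi, not_false_eq_true, and_true] at h5
    exact h5
  · have h5 := Finset.ext_iff.1 h2 i
    simp only [mem_filter, hi, not_false_eq_true, and_true] at h5
    exact h5

theorem vv_congr {al : ℝ} {u v : Pt α} {i : α} (h1 : i ∈ v.F ↔ i ∈ u.F) (h3 : v.S = u.S)
    (h4 : v.T = u.T) : vv al i v = vv al i u := by
  simp only [vv, h1, h3, h4]

theorem zz_congr {be : ℝ} {u v : Pt α} {i : α} (h1 : i ∈ v.G ↔ i ∈ u.G) (h3 : v.S = u.S)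
    (h4 : v.T = u.T) : zz be i v = zz be i u := by
  simp only [zz, h1, h3, h4]

theorem Xi_congr {al be : ℝ} {u v : Pt α} (h3 : v.S = u.S)
    (h4 : v.T = u.T) : Xi al be v = Xi al be u := by
  simp only [Xi, h3, h4]

theorem not_clo {r : Finset α → ℕ} (hr : IsRank r) {G : Finset α} {i : α} (hi : i ∈ G)
    (h : r (G.erase i) = r G) : ¬ Clo r i := by
  unfold Clo
  rw [not_not]
  have h1 : r (insert i (G.erase i)) = r (G.erase i) := by rw [insert_erase hi, h]
  have h2 := hr.closure h1 (erase_subset_erase i (subset_univ G))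
  rw [insert_erase (mem_univ i)] at h2
  exact h2.symm

theorem not_loo {r : Finset α → ℕ} (hr : IsRank r) {F : Finset α} {i : α}
    (h : r (insert i F) = r F + 1) : ¬ Loo r i := by
  intro h0
  unfold Loo at h0
  have h1 : r (insert i ∅) = r ∅ := by
    rw [hr.empty]
    exact h0
  have h2 := hr.closure h1 (empty_subset F)
  omega

theorem tri {r : Finset α → ℕ} {ρ : Finset (Pt α)} (hC : Chn r ρ) {u : Pt α} (hu : u ∈ ρ) :
    (u.S = false ∧ u.T = false ∧ u.G = ∅ ∧ ∀ t ∈ ρ, t.S = true → u ≤ t) ∨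
    (u.S = true ∧ u.T = false) ∨
    (u.S = true ∧ u.T = true ∧ u.F = univ ∧ ∀ t ∈ ρ, t.T = false → t ≤ u) := by
  have hx := (hC.1 u hu).ex
  cases hS : u.S with
  | false =>
    left
    have hT : u.T = false := by
      by_contra h
      have := hx.TS (by simpa using h)
      rw [hS] at this
      exact Bool.noConfusion this
    refine ⟨rfl, hT, ?_, ?_⟩
    · by_contra h
      have := hx.GS (nonempty_iff_ne_empty.2 h)
      rw [hS] at this
      exact Bool.noConfusion this
    · intro t ht htS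
      rcases hC.2 u hu t ht with h | h
      · exact h
      · exfalso
        have := h.2.2.1 htS
        rw [hS] at this
        exact Bool.noConfusion this
  | true =>
    right
    cases hT : u.T with
    | false => exact Or.inl ⟨rfl, rfl⟩
    | true =>
      right
      refine ⟨rfl, rfl, hx.TF hT, ?_⟩
      intro t ht htT
      rcases hC.2 u hu t ht with h | h
      · exfalso
        have := h.2.2.2 hT
        rw [htT] at this
        exact Bool.noConfusion this
      · exact h

/-- the linear function which agrees with `Xi` on the face, at the bottom and at the top -/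
theorem exists_l {r : Finset α → ℕ} {al be : ℝ} (hr : IsRank r) (hw : Win al be)
    {ρ : Finset (Pt α)} {s : Pt α} (hF : Fc r ρ) (hs : s ∈ ρ) (hS : s.S = true)
    (hT : s.T = false) :
    ∃ i, ¬ (i ∈ s.F ∧ i ∉ s.G) ∧ ∃ a b : ℝ, (a • vv al i + b • zz be i) ∈ Lin r al be ∧
      ∀ u, (u ∈ ρ ∨ u = bot r ∨ u = top r) →
        (a • vv al i + b • zz be i : Pt α → ℝ) u = Xi al be u := by
  obtain ⟨hC, hN⟩ := hF
  have hN' : ∃ i, ∀ t ∈ ρ, Nop i t := by
    rcases hN with h | h
    · rw [h] at hs
      exact absurd hs (notMem_empty s)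
    · exact h
  obtain ⟨i, hi⟩ := hN'
  have hmid : ∀ u ∈ ρ, u.S = true → u.T = false → i ∈ u.F → i ∈ u.G := by
    intro u hu h1 h2 h3
    rcases hi u hu h3 h1 with h | h
    · exact h
    · rw [h2] at h
      exact Bool.noConfusion h
  refine ⟨i, fun h => h.2 (hmid s hs hS hT h.1), ?_⟩
  have hvL : ¬ Loo r i → vv al i ∈ Lin r al be := fun h =>
    Submodule.subset_span (Or.inl ⟨i, h, rfl⟩)
  have hzL : ¬ Clo r i → zz be i ∈ Lin r al be := fun h =>
    Submodule.subset_span (Or.inr ⟨i, h, rfl⟩)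
  have hal : 1 - al ≠ 0 := by
    have := hw.a0
    have := hw.b0
    have := hw.ab
    intro h
    linarith
  have hbe : 1 - be ≠ 0 := by
    have := hw.a0
    have := hw.b0
    have := hw.ab
    intro h
    linarith
  have hnl : ∀ t ∈ ρ, i ∉ t.F → ¬ Loo r i := fun t ht h =>
    not_loo hr ((hC.1 t ht).ex.flat i h)
  have hnc : ∀ t ∈ ρ, i ∈ t.G → ¬ Clo r i := fun t ht h =>
    not_clo hr h ((hC.1 t ht).ex.cyc i h)
  -- values at bottom and top
  have vbot : ¬ Loo r i → vv al i (bot r) = 0 := by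
    intro h
    simp [vv, bot, h] <;> ring
  have vtop : vv al i (top r) = 0 := by
    simp [vv, top] <;> ring
  have zbot : zz be i (bot r) = 0 := by
    simp [zz, bot] <;> ring
  have ztop : ¬ Clo r i → zz be i (top r) = 0 := by
    intro h
    simp [zz, top, h] <;> ring
  have xbot : Xi al be (bot r) = 0 := by
    simp [Xi, bot]
  have xtop : Xi al be (top r) = 0 := by
    simp [Xi, top]
  by_cases hA : ∀ u ∈ ρ, u.S = true → u.T = false → i ∈ u.G
  · have hcl := hnc s hs (hA s hs hS hT)
    refine ⟨0, (1 - al - be) / (1 - be), ?_, ?_⟩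
    · rw [zero_smul, zero_add]
      exact Submodule.smul_mem _ _ (hzL hcl)
    · intro u hu
      simp only [Pi.add_apply, Pi.smul_apply, smul_eq_mul, zero_mul, zero_add]
      rcases hu with hu | rfl | rfl
      · rcases tri hC hu with ⟨h1, h2, h3, h4⟩ | ⟨h1, h2⟩ | ⟨h1, h2, h3, h4⟩
        · simp [zz, Xi, h1, h2, h3] <;> ring
        · have h5 := hA u hu h1 h2
          have : zz be i u = 1 - be := by simp [zz, h1, h2, h5]
          rw [this, div_mul_cancel₀ _ hbe]
          simp [Xi, h1, h2]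
        · have h5 : i ∈ u.G := (h4 s hs hT).2.1 (hA s hs hS hT)
          simp [zz, Xi, h1, h2, h5] <;> ring
      · rw [zbot, xbot, mul_zero]
      · rw [ztop hcl, xtop, mul_zero]
  by_cases hB : ∀ u ∈ ρ, u.S = true → u.T = false → i ∉ u.F
  · have hlo := hnl s hs (hB s hs hS hT)
    refine ⟨(1 - al - be) / (1 - al), 0, ?_, ?_⟩
    · rw [zero_smul, add_zero]
      exact Submodule.smul_mem _ _ (hvL hlo)
    · intro u hu
      simp only [Pi.add_apply, Pi.smul_apply, smul_eq_mul, zero_mul, add_zero]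
      rcases hu with hu | rfl | rfl
      · rcases tri hC hu with ⟨h1, h2, h3, h4⟩ | ⟨h1, h2⟩ | ⟨h1, h2, h3, h4⟩
        · have h5 : i ∉ u.F := fun h => hB s hs hS hT ((h4 s hs hS).1 h)
          simp [vv, Xi, h1, h2, h5] <;> ring
        · have h5 := hB u hu h1 h2
          have : vv al i u = 1 - al := by simp [vv, h1, h2, h5]
          rw [this, div_mul_cancel₀ _ hal]
          simp [Xi, h1, h2]
        · have h6 : vv al i u = 0 := by
            simp [vv, h1, h2, h3]
            ring
          rw [h6]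
          simp [Xi, h1, h2]
      · rw [vbot hlo, xbot, mul_zero]
      · rw [vtop, xtop, mul_zero]
  · push Not at hA hB
    obtain ⟨u1, hu1, h1S, h1T, h1G⟩ := hA
    obtain ⟨u2, hu2, h2S, h2T, h2F⟩ := hB
    have h1F : i ∉ u1.F := fun h => h1G (hmid u1 hu1 h1S h1T h)
    have h2G : i ∈ u2.G := hmid u2 hu2 h2S h2T h2F
    have hlo := hnl u1 hu1 h1F
    have hcl := hnc u2 hu2 h2G
    refine ⟨1, 1, ?_, ?_⟩
    · rw [one_smul, one_smul]
      exact Submodule.add_mem _ (hvL hlo) (hzL hcl)
    · intro u hu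
      simp only [Pi.add_apply, Pi.smul_apply, smul_eq_mul, one_mul]
      rcases hu with hu | rfl | rfl
      · rcases tri hC hu with ⟨h1, h2, h3, h4⟩ | ⟨h1, h2⟩ | ⟨h1, h2, h3, h4⟩
        · have h5 : i ∉ u.F := fun h => h1F ((h4 u1 hu1 h1S).1 h)
          simp [vv, zz, Xi, h1, h2, h3, h5] <;> ring
        · by_cases h5 : i ∈ u.F
          · have h6 := hmid u hu h1 h2 h5
            simp [vv, zz, Xi, h1, h2, h5, h6]
            ring
          · have h6 : i ∉ u.G := fun h => h5 ((hC.1 u hu).ex.GF h)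
            simp [vv, zz, Xi, h1, h2, h5, h6]
            ring
        · have h5 : i ∈ u.G := (h4 u2 hu2 h2T).2.1 h2G
          simp [vv, zz, Xi, h1, h2, h3, h5] <;> ring
      · rw [vbot hlo, zbot, xbot, add_zero]
      · rw [vtop, ztop hcl, xtop, add_zero]

end NVM

open NVM in
theorem VM_thm (hCNT : Stmt_CNT) : Stmt_VM := by
  intro α _ _ r al be hs hr hw hTop s hsta hS hT hFG
  have hn : 1 ≤ Fintype.card α := by
    rw [Nat.one_le_iff_ne_zero, Ne, Fintype.card_eq_zero_iff]
    intro h
    exact hFG (Finset.ext fun a => h.elim a)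
  refine van (n := Fintype.card α) hTop.wt (fun ρ => s ∈ ρ ∧
    (∀ u ∈ ρ, rel s u ≠ rel s (bot r) ∧ rel s u ≠ rel s (top r)) ∧
    ∀ u ∈ ρ, ∀ v ∈ ρ, rel s u = rel s v → u = v) {Xi al be} ?_ ?_ _ ?_ _ ?_ ?_
  · rintro f rfl ρ hF ⟨h1, h2, h3⟩
    obtain ⟨i, hi, a, b, hl, hval⟩ := exists_l hr hw hF h1 hS hT
    refine ⟨_, hl, fun u hu => hval u (Or.inl hu), ?_⟩
    intro v hv _ hP
    have key : ∃ u, (u ∈ ρ ∨ u = bot r ∨ u = top r) ∧ rel s v = rel s u := by
      by_contra hno
      push Not at hno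
      refine hP ⟨mem_insert_of_mem h1, ?_, ?_⟩
      · intro u hu
        rcases mem_insert.1 hu with rfl | hu
        · exact ⟨hno _ (Or.inr (Or.inl rfl)), hno _ (Or.inr (Or.inr rfl))⟩
        · exact h2 u hu
      · intro u hu w hw' huw
        rcases mem_insert.1 hu with e1 | hu
        · rcases mem_insert.1 hw' with e2 | hw'
          · rw [e1, e2]
          · exact absurd (by rw [← e1]; exact huw) (hno w (Or.inl hw'))
        · rcases mem_insert.1 hw' with e2 | hw'
          · exact absurd (by rw [← e2]; exact huw.symm) (hno u (Or.inl hu))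
          · exact h3 u hu w hw' huw
    obtain ⟨u, hu, huv⟩ := key
    obtain ⟨d1, d2, d3, d4⟩ := rel_data hi huv
    have e1 := hval u hu
    simp only [Pi.add_apply, Pi.smul_apply] at e1 ⊢
    rw [vv_congr d1 d3 d4, zz_congr d2 d3 d4, Xi_congr d3 d4, e1]
  · rintro ρ ⟨h1, h2, h3⟩ hc
    unfold tw
    rw [if_neg]
    rintro ⟨hF, _⟩
    have := hCNT α r hr s ρ hF h1 hS hT hFG h2 h3
    omega
  · intro f hf
    exact List.eq_of_mem_replicate hf
  · refine ⟨mem_singleton_self s, ?_, ?_⟩
    · intro u hu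
      rw [mem_singleton] at hu
      rw [hu]
      constructor
      · intro h
        have := congrArg (fun p => p.2.2.1) h
        simp only [rel, bot, hS] at this
        exact Bool.noConfusion this
      · intro h
        have := congrArg (fun p => p.2.2.2) h
        simp only [rel, top, hT] at this
        exact Bool.noConfusion this
    · intro u hu v hv _
      rw [mem_singleton] at hu hv
      rw [hu, hv]
  · rw [card_singleton, List.length_replicate]
    omega

end Pool.Agent.QPR
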