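import Pool.Agent.QPR.StS

/-!
# `Stmt_ACC` (helper3)
-/

set_option autoImplicit false

open Finset

namespace Pool.Agent.QPR

variable {α : Type} [Fintype α] [DecidableEq α]

/-- a level which is passed but not attained lies in a gap -/
theorem ACC_gap (r : Finset α → ℕ) (ρ : Finset (Pt α)) (φ : Pt α → ℕ) (t : ℕ)
    (hex : ∀ s ∈ hat r ρ, Ex0 r s) (hch : ∀ s ∈ hat r ρ, ∀ t ∈ hat r ρ, s ≤ t ∨ t ≤ s)
    (hmono : ∀ s t, Ex0 r s → Ex0 r t → s < t → ht r s < ht r t)
    (hφ : ∀ s t : Pt α, s ≤ t → φ s ≤ φ t)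
    (h0 : φ (bot r) < t) (h1 : t ≤ φ (top r)) (hne : ∀ s ∈ hat r ρ, φ s ≠ t) :
    ∃ a b, Gp r ρ a b ∧ φ a < t ∧ t < φ b := by
  classical
  have hbot : bot r ∈ hat r ρ := by simp [hat]
  have htop : top r ∈ hat r ρ := by simp [hat]
  have hA : ((hat r ρ).filter (fun s => φ s < t)).Nonempty := ⟨bot r, by simp [hbot, h0]⟩
  have hB : ((hat r ρ).filter (fun s => t < φ s)).Nonempty := by
    refine ⟨top r, ?_⟩
    have := hne _ htop
    simp only [mem_filter]
    exact ⟨htop, by omega⟩
  obtain ⟨a, ha, hamax⟩ := Finset.exists_max_image _ (ht r) hA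
  obtain ⟨b, hb, hbmin⟩ := Finset.exists_min_image _ (ht r) hB
  rw [mem_filter] at ha hb
  refine ⟨a, b, ⟨ha.1, hb.1, ?_, ?_⟩, ha.2, hb.2⟩
  · rcases hch a ha.1 b hb.1 with h | h
    · refine lt_of_le_of_ne h ?_
      rintro rfl
      omega
    · have := hφ _ _ h
      omega
  · intro s hs
    have h3 := hne s hs
    rcases Nat.lt_or_gt_of_ne h3 with h4 | h4
    · left
      rcases hch s hs a ha.1 with h | h
      · exact h
      · by_contra hcon
        have hlt : a < s := lt_of_le_of_ne h (fun e => hcon (by rw [e]))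
        have h5 := hmono _ _ (hex a ha.1) (hex s hs) hlt
        have h6 := hamax s (by rw [mem_filter]; exact ⟨hs, h4⟩)
        omega
    · right
      rcases hch s hs b hb.1 with h | h
      · by_contra hcon
        have hlt : s < b := lt_of_le_of_ne h (fun e => hcon (by rw [e]))
        have h5 := hmono _ _ (hex s hs) (hex b hb.1) hlt
        have h6 := hbmin s (by rw [mem_filter]; exact ⟨hs, h4⟩)
        omega
      · exact h

/-- the set of the missing levels between two numbers has at most the right number of elements -/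
theorem ACC_card (m : Finset ℕ) (x y : ℕ) (h : x < y) :
    (m.filter (fun t => x < t ∧ t < y)).card + 1 ≤ y - x := by
  have h1 : m.filter (fun t => x < t ∧ t < y) ⊆ Finset.Ioo x y := by
    intro t ht
    rw [mem_filter] at ht
    rw [Finset.mem_Ioo]
    exact ht.2
  have h2 := Finset.card_le_card h1
  rw [Nat.card_Ioo] at h2
  omega

theorem t_ACC (h1 : Stmt_FLA) (h2 : Stmt_CYC) (h3 : Stmt_HT) (h4 : Stmt_GAP) : Stmt_ACC := by
  classical
  intro α _ _ r hr ρ hρ g hg
  obtain ⟨hex, hch, -, -, -, -, hsum, -, -, -⟩ := h4 α r hr ρ hρ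
  obtain ⟨hex0, -, -, -, -, -, hht, hmono, -, -, -⟩ := h3 α r hr
  have hFL := h1 α r hr
  have hCY := h2 α r hr
  obtain ⟨-, -, -, -, hfmono, -, -, -, -, -, -, hbotr, -, -⟩ := hFL
  obtain ⟨-, -, hnumono, hgmono, -, -, -, -, -, -, htopnu, -, -⟩ := hCY
  -- rank monotone on points
  have hrmono : ∀ A B : Finset α, A ⊆ B → r A ≤ r B := fun A B h => hr.mono_subset h
  set Γ : Finset (Pt α × Pt α) := Finset.univ.filter (fun p => Gp r ρ p.1 p.2) with hΓ
  have hΓmem : ∀ p, p ∈ Γ ↔ Gp r ρ p.1 p.2 := by
    intro p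
    rw [hΓ, mem_filter]
    simp
  have hS := hsum Γ (fun p hp => (hΓmem p).1 hp)
  have hgΓ : g ⊆ Γ := fun p hp => (hΓmem p).2 (hg p hp)
  -- per gap
  have hgap : ∀ p ∈ Γ, (ncc p.1 p.2 - 1) +
      ((mF r ρ).filter (fun t => r p.1.F < t ∧ t < r p.2.F)).card +
      ((mG r ρ).filter (fun t => nu r p.1.G < t ∧ t < nu r p.2.G)).card ≤
      ht r p.2 - ht r p.1 - 1 := by
    rintro ⟨a, b⟩ hp
    have hG := (hΓmem _).1 hp
    simp only at hG ⊢
    have ea := (hex0 a).1 (hex a hG.ha)
    have eb := (hex0 b).1 (hex b hG.hb)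
    obtain ⟨l1, l2, l3, l4⟩ := Pt.le_iff.1 hG.lt.le
    have hne : a ≠ b := hG.lt.ne
    rw [hht a, hht b]
    -- F part
    have kF : (if a.F = b.F then 0 else 1) +
        ((mF r ρ).filter (fun t => r a.F < t ∧ t < r b.F)).card + r a.F ≤ r b.F := by
      by_cases h : a.F = b.F
      · rw [if_pos h, h]
        have : (mF r ρ).filter (fun t => r b.F < t ∧ t < r b.F) = ∅ := by
          apply Finset.filter_eq_empty_iff.2
          intro t _ ht
          omega
        rw [this]
        simp
      · rw [if_neg h]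
        have hlt := hfmono _ _ ea.1 (Finset.ssubset_iff_subset_ne.2 ⟨l1, h⟩)
        have := ACC_card (mF r ρ) _ _ hlt
        omega
    have kG : (if a.G = b.G then 0 else 1) +
        ((mG r ρ).filter (fun t => nu r a.G < t ∧ t < nu r b.G)).card + nu r a.G ≤ nu r b.G := by
      by_cases h : a.G = b.G
      · rw [if_pos h, h]
        have : (mG r ρ).filter (fun t => nu r b.G < t ∧ t < nu r b.G) = ∅ := by
          apply Finset.filter_eq_empty_iff.2
          intro t _ ht
          omega
        rw [this]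
        simp
      · rw [if_neg h]
        have hlt := hgmono _ _ eb.2.1 (Finset.ssubset_iff_subset_ne.2 ⟨l2, h⟩)
        have := ACC_card (mG r ρ) _ _ hlt
        omega
    have kS : (if a.S = b.S then 0 else 1) + (if a.S = true then 1 else 0) =
        (if b.S = true then 1 else 0) := by
      cases h1 : a.S <;> cases h2 : b.S <;> simp_all
    have kT : (if a.T = b.T then 0 else 1) + (if a.T = true then 1 else 0) =
        (if b.T = true then 1 else 0) := by
      cases h1 : a.T <;> cases h2 : b.T <;> simp_all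
    have kc : 1 ≤ ncc a b := by
      by_contra hcon
      have h0 : ncc a b = 0 := by omega
      unfold ncc at h0
      apply hne
      obtain ⟨F, G, S, T⟩ := a
      obtain ⟨F', G', S', T'⟩ := b
      simp only at h0
      have e1 : F = F' := by
        by_contra h
        rw [if_neg h] at h0
        omega
      have e2 : G = G' := by
        by_contra h
        rw [if_neg h] at h0
        omega
      have e3 : S = S' := by
        by_contra h
        rw [if_neg h] at h0
        omega
      have e4 : T = T' := by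
        by_contra h
        rw [if_neg h] at h0
        omega
      rw [e1, e2, e3, e4]
    have kcc : ncc a b = (if a.F = b.F then 0 else 1) + (if a.G = b.G then 0 else 1) +
      (if a.S = b.S then 0 else 1) + (if a.T = b.T then 0 else 1) := rfl
    omega
  have hsum1 := Finset.sum_le_sum hgap
  rw [Finset.sum_add_distrib, Finset.sum_add_distrib] at hsum1
  have hccle : ∑ p ∈ g, (ncc p.1 p.2 - 1) ≤ ∑ p ∈ Γ, (ncc p.1 p.2 - 1) :=
    Finset.sum_le_sum_of_subset hgΓ
  have hcardF : (mF r ρ).card ≤
      ∑ p ∈ Γ, ((mF r ρ).filter (fun t => r p.1.F < t ∧ t < r p.2.F)).card := by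
    refine le_trans (Finset.card_le_card ?_) Finset.card_biUnion_le
    intro t ht
    have ht' := ht
    unfold mF at ht'
    rw [mem_filter, Finset.mem_Icc] at ht'
    obtain ⟨a, b, hG, h5, h6⟩ := ACC_gap r ρ (fun s => r s.F) t hex hch hmono
      (fun s t h => hrmono _ _ h.1) (by simp only [hbotr]; omega) (by
        show t ≤ r (univ : Finset α)
        exact ht'.1.2) ht'.2
    rw [Finset.mem_biUnion]
    exact ⟨(a, b), (hΓmem _).2 hG, by rw [mem_filter]; exact ⟨ht, h5, h6⟩⟩
  have hcardG : (mG r ρ).card ≤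
      ∑ p ∈ Γ, ((mG r ρ).filter (fun t => nu r p.1.G < t ∧ t < nu r p.2.G)).card := by
    refine le_trans (Finset.card_le_card ?_) Finset.card_biUnion_le
    intro t ht
    have ht' := ht
    unfold mG at ht'
    rw [mem_filter, Finset.mem_Icc] at ht'
    obtain ⟨a, b, hG, h5, h6⟩ := ACC_gap r ρ (fun s => nu r s.G) t hex hch hmono
      (fun s t h => hnumono _ _ h.2.1) (by
        show nu r (bot r).G < t
        have : nu r (∅ : Finset α) = 0 := by
          unfold nu
          simp
        have h7 : (bot r).G = (∅ : Finset α) := rfl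
        rw [h7, this]
        omega) (by
        show t ≤ nu r (top r).G
        rw [htopnu]
        exact ht'.1.2) ht'.2
    rw [Finset.mem_biUnion]
    exact ⟨(a, b), (hΓmem _).2 hG, by rw [mem_filter]; exact ⟨ht, h5, h6⟩⟩
  omega

end Pool.Agent.QPR
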