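import Pool.Agent.QPR.StS

/-!
# The ample function of the complex of states (helper70)

Proof of `Stmt_AMF`.
-/

set_option autoImplicit false

open Finset

namespace Pool.Agent.QPR

namespace AMF

variable {α : Type} [Fintype α] [DecidableEq α]

/-- `f` is supported at `σ` by a linear function, strictly on the set `W` -/
def Gd (r : Finset α → ℕ) (al be : ℝ) (σ : Finset (Pt α)) (f : Pt α → ℝ) (W : Pt α → Prop) :
    Prop :=
  ∃ l ∈ Lin r al be, (∀ u ∈ σ, l u = f u) ∧ (∀ v, Ex0 r v → l v ≤ f v) ∧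
    ∀ v, Ex0 r v → W v → l v < f v

variable {r : Finset α → ℕ} {al be : ℝ} {σ : Finset (Pt α)}

theorem gd_add {f g : Pt α → ℝ} {W W' : Pt α → Prop} (hf : Gd r al be σ f W)
    (hg : Gd r al be σ g W') :
    Gd r al be σ (fun v => f v + g v) (fun v => W v ∨ W' v) := by
  obtain ⟨l, hl, l1, l2, l3⟩ := hf
  obtain ⟨m, hm, m1, m2, m3⟩ := hg
  refine ⟨l + m, Submodule.add_mem _ hl hm, fun u hu => ?_, fun v hv => ?_, fun v hv hW => ?_⟩
  · simp only [Pi.add_apply, l1 u hu, m1 u hu]
  · simp only [Pi.add_apply]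
    exact add_le_add (l2 v hv) (m2 v hv)
  · simp only [Pi.add_apply]
    rcases hW with h | h
    · exact add_lt_add_of_lt_of_le (l3 v hv h) (m2 v hv)
    · exact add_lt_add_of_le_of_lt (l2 v hv) (m3 v hv h)

theorem gd_zero : Gd r al be σ (fun _ => 0) (fun _ => False) :=
  ⟨0, Submodule.zero_mem _, fun _ _ => rfl, fun _ _ => le_rfl, fun _ _ h => h.elim⟩

theorem gd_sum {ι : Type} (s : Finset ι) (f : ι → Pt α → ℝ) (W : ι → Pt α → Prop)
    (h : ∀ i ∈ s, Gd r al be σ (f i) (W i)) :
    Gd r al be σ (fun v => ∑ i ∈ s, f i v) (fun v => ∃ i ∈ s, W i v) := by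
  classical
  induction s using Finset.induction_on with
  | empty =>
    obtain ⟨l, hl, l1, l2, _⟩ := gd_zero (r := r) (al := al) (be := be) (σ := σ)
    exact ⟨l, hl, by simpa using l1, by simpa using l2, fun v _ ⟨i, hi, _⟩ => by simp at hi⟩
  | insert a s ha ih =>
    obtain ⟨l, hl, l1, l2, l3⟩ := gd_add (h a (mem_insert_self a s))
      (ih fun i hi => h i (mem_insert_of_mem hi))
    have e : ∀ v, (∑ i ∈ insert a s, f i v) = f a v + ∑ i ∈ s, f i v := fun v => sum_insert ha
    refine ⟨l, hl, fun u hu => (l1 u hu).trans (e u).symm,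
      fun v hv => (l2 v hv).trans (le_of_eq (e v).symm), fun v hv hW => ?_⟩
    refine lt_of_lt_of_eq (l3 v hv ?_) (e v).symm
    obtain ⟨i, hi, hi'⟩ := hW
    rcases mem_insert.1 hi with rfl | hi
    · exact Or.inl hi'
    · exact Or.inr ⟨i, hi, hi'⟩

/-- a maximum whose two terms do not cross on `σ` -/
theorem gd_max {p q p' q' : Pt α → ℝ} (hp : p' ∈ Lin r al be) (hq : q' ∈ Lin r al be)
    (p1 : ∀ u ∈ σ, p' u = p u) (p2 : ∀ v, Ex0 r v → p' v ≤ p v)
    (q1 : ∀ u ∈ σ, q' u = q u) (q2 : ∀ v, Ex0 r v → q' v ≤ q v)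
    (h : ∀ u ∈ σ, ∀ w ∈ σ, p u < q u → q w < p w → False) :
    Gd r al be σ (fun v => max (p v) (q v))
      (fun v => (∃ s ∈ σ, q s < p s ∧ p v < q v) ∨ ∃ s ∈ σ, p s < q s ∧ q v < p v) := by
  by_cases hc : ∃ u ∈ σ, p u < q u
  · obtain ⟨u, hu, hpq⟩ := hc
    refine ⟨q', hq, fun w hw => ?_, fun v hv => (q2 v hv).trans (le_max_right _ _),
      fun v hv hW => ?_⟩
    · rw [q1 w hw]
      exact (max_eq_right (not_lt.1 fun hlt => h u hu w hw hpq hlt)).symm
    · rcases hW with ⟨s, hs, h1, _⟩ | ⟨s, hs, _, h2⟩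
      · exact (h u hu s hs hpq h1).elim
      · exact (q2 v hv).trans_lt (h2.trans_le (le_max_left _ _))
  · push Not at hc
    refine ⟨p', hp, fun w hw => ?_, fun v hv => (p2 v hv).trans (le_max_left _ _),
      fun v hv hW => ?_⟩
    · rw [p1 w hw]
      exact (max_eq_left (hc w hw)).symm
    · rcases hW with ⟨s, hs, _, h2⟩ | ⟨s, hs, h1, _⟩
      · exact (p2 v hv).trans_lt (h2.trans_le (le_max_right _ _))
      · exact (not_le.2 h1 (hc s hs)).elim

/-! ### Values -/

theorem tri {s : Pt α} (h : Ex0 r s) : (s.S = false ∧ s.T = false ∧ s.G = ∅) ∨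
    (s.S = true ∧ s.T = false) ∨ (s.S = true ∧ s.T = true ∧ s.F = univ) := by
  cases hT : s.T with
  | false =>
    cases hS : s.S with
    | false =>
      left
      refine ⟨rfl, rfl, ?_⟩
      by_contra hG
      have := h.GS (nonempty_iff_ne_empty.2 hG)
      rw [hS] at this
      exact Bool.false_ne_true this
    | true => exact Or.inr (Or.inl ⟨rfl, rfl⟩)
  | true => exact Or.inr (Or.inr ⟨h.TS hT, rfl, h.TF hT⟩)

theorem vv_sub (al : ℝ) (i j : α) (s : Pt α) :
    vv al i s - vv al j s = (if i ∈ s.F then 0 else 1) - (if j ∈ s.F then 0 else 1) := by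
  unfold vv
  ring

theorem zz_sub (be : ℝ) (i j : α) (s : Pt α) :
    zz be i s - zz be j s = (if i ∈ s.G then 1 else 0) - (if j ∈ s.G then 1 else 0) := by
  unfold zz
  ring

theorem vv_mem {i : α} (hi : ¬ Loo r i) : vv al i ∈ Lin r al be :=
  Submodule.subset_span (Or.inl ⟨i, hi, rfl⟩)

theorem zz_mem {i : α} (hi : ¬ Clo r i) : zz be i ∈ Lin r al be :=
  Submodule.subset_span (Or.inr ⟨i, hi, rfl⟩)

/-- `v_i + z_j - Xi` -/
theorem vz_val {s : Pt α} (h : Ex0 r s) (i j : α) : vv al i s + zz be j s - Xi al be s =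
    if s.S = false then (if i ∈ s.F then -1 else 0) else
      if s.T = false then (if i ∈ s.F then (if j ∈ s.G then 0 else -1) else
        (if j ∈ s.G then 1 else 0)) else (if j ∈ s.G then 0 else -1) := by
  rcases tri h with ⟨h1, h2, h3⟩ | ⟨h1, h2⟩ | ⟨h1, h2, h3⟩
  · simp only [vv, zz, Xi, h1, h2, h3, notMem_empty, if_false, if_true, Bool.false_eq_true,
      false_and]
    split_ifs <;> ring
  · simp only [vv, zz, Xi, h1, h2, if_false, if_true, Bool.false_eq_true, Bool.true_eq_false,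
      and_self]
    split_ifs <;> ring
  · simp only [vv, zz, Xi, h1, h2, h3, mem_univ, if_false, if_true, Bool.true_eq_false,
      and_false]
    split_ifs <;> ring

/-- `v_i + (al / xi) Xi` -/
theorem vx_val {s : Pt α} (h : Ex0 r s) (hw : Win al be) (i : α) :
    vv al i s + al / (1 - al - be) * Xi al be s =
    if s.S = false then (if i ∈ s.F then -1 else 0) else
      if s.T = false then (if i ∈ s.F then 0 else 1) else 0 := by
  have hx : (1 - al - be) ≠ 0 := by
    have := hw.ab
    linarith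
  rcases tri h with ⟨h1, h2, h3⟩ | ⟨h1, h2⟩ | ⟨h1, h2, h3⟩
  · simp only [vv, Xi, h1, h2, if_false, if_true, Bool.false_eq_true, false_and]
    split_ifs <;> ring
  · simp only [vv, Xi, h1, h2, if_false, if_true, Bool.false_eq_true, Bool.true_eq_false,
      and_self]
    rw [div_mul_cancel₀ _ hx]
    split_ifs <;> ring
  · simp only [vv, Xi, h1, h2, h3, mem_univ, if_false, if_true, Bool.true_eq_false,
      and_false]
    ring

/-- `z_j + (be / xi) Xi` -/
theorem zx_val {s : Pt α} (h : Ex0 r s) (hw : Win al be) (j : α) :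
    zz be j s + be / (1 - al - be) * Xi al be s =
    if s.S = false then 0 else
      if s.T = false then (if j ∈ s.G then 1 else 0) else (if j ∈ s.G then 0 else -1) := by
  have hx : (1 - al - be) ≠ 0 := by
    have := hw.ab
    linarith
  rcases tri h with ⟨h1, h2, h3⟩ | ⟨h1, h2⟩ | ⟨h1, h2, h3⟩
  · simp only [zz, Xi, h1, h2, h3, notMem_empty, if_false, if_true, Bool.false_eq_true,
      false_and]
    ring
  · simp only [zz, Xi, h1, h2, if_false, if_true, Bool.false_eq_true, Bool.true_eq_false,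
      and_self]
    rw [div_mul_cancel₀ _ hx]
    split_ifs <;> ring
  · simp only [zz, Xi, h1, h2, if_false, if_true, Bool.true_eq_false, and_false]
    split_ifs <;> ring

theorem vv_val {s : Pt α} (h : Ex0 r s) (al : ℝ) (i : α) : vv al i s =
    if s.S = false then (if i ∈ s.F then -1 else 0) else
      if s.T = false then (if i ∈ s.F then -al else 1 - al) else 0 := by
  rcases tri h with ⟨h1, h2, h3⟩ | ⟨h1, h2⟩ | ⟨h1, h2, h3⟩
  · simp only [vv, h1, h2, if_false, if_true, Bool.false_eq_true]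
    split_ifs <;> ring
  · simp only [vv, h1, h2, if_false, if_true, Bool.false_eq_true, Bool.true_eq_false]
    split_ifs <;> ring
  · simp only [vv, h1, h2, h3, mem_univ, if_false, if_true, Bool.true_eq_false]
    ring

theorem zz_val {s : Pt α} (h : Ex0 r s) (be : ℝ) (i : α) : zz be i s =
    if s.S = false then 0 else
      if s.T = false then (if i ∈ s.G then 1 - be else -be) else
        (if i ∈ s.G then 0 else -1) := by
  rcases tri h with ⟨h1, h2, h3⟩ | ⟨h1, h2⟩ | ⟨h1, h2, h3⟩
  · simp only [zz, h1, h2, h3, notMem_empty, if_false, if_true, Bool.false_eq_true]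
    ring
  · simp only [zz, h1, h2, if_false, if_true, Bool.false_eq_true, Bool.true_eq_false]
    split_ifs <;> ring
  · simp only [zz, h1, h2, if_false, if_true, Bool.true_eq_false]
    split_ifs <;> ring

theorem xi_val {s : Pt α} (h : Ex0 r s) (al be : ℝ) : Xi al be s =
    if s.S = false then 0 else if s.T = false then 1 - al - be else 0 := by
  rcases tri h with ⟨h1, h2, h3⟩ | ⟨h1, h2⟩ | ⟨h1, h2, h3⟩ <;> simp [Xi, h1, h2]

theorem not_nop {i : α} {v : Pt α} (h : ¬ Nop i v) : i ∈ v.F ∧ v.S = true ∧ i ∉ v.G ∧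
    v.T = false := by
  unfold Nop at h
  push Not at h
  obtain ⟨h1, h2, h3, h4⟩ := h
  exact ⟨h1, h2, h3, by simpa using h4⟩

/-- the linear function which replaces `Xi` -/
theorem l0_ex (hσ : Chn r σ) (hw : Win al be)
    (hlo : ∀ s, Ex0 r s → ∀ i, i ∉ s.F → ¬ Loo r i)
    (hco : ∀ s, Ex0 r s → ∀ i ∈ s.G, ¬ Clo r i) (i : α) (hi : ∀ s ∈ σ, Nop i s) :
    Gd r al be σ (Xi al be) (fun v => ¬ Nop i v) := by
  have ha := hw.a0
  have hb := hw.b0
  have hab := hw.ab
  have hE : ∀ s ∈ σ, Ex0 r s := fun s hs => (hσ.1 s hs).ex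
  by_cases m : ∃ s ∈ σ, s.S = true ∧ s.T = false
  swap
  · push Not at m
    refine ⟨0, Submodule.zero_mem _, fun u hu => ?_, fun v hv => ?_, fun v hv hW => ?_⟩
    · rw [xi_val (hE u hu)]
      have := m u hu
      cases hS : u.S <;> simp_all
    · rw [xi_val hv, Pi.zero_apply]
      split_ifs <;> linarith
    · obtain ⟨h1, h2, h3, h4⟩ := not_nop hW
      rw [xi_val hv, Pi.zero_apply]
      simp only [h2, h4, if_true, Bool.true_eq_false, if_false]
      linarith
  obtain ⟨s0, hs0, hS0, hT0⟩ := m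
  by_cases c1 : ∀ s ∈ σ, s.S = true → s.T = false → i ∈ s.G
  · have hy : 0 < (1 - al - be) / (1 - be) := div_pos (by linarith) (by linarith)
    have hy2 : (1 - al - be) / (1 - be) * (1 - be) = 1 - al - be :=
      div_mul_cancel₀ _ (by linarith)
    refine ⟨((1 - al - be) / (1 - be)) • zz be i, Submodule.smul_mem _ _ (zz_mem (hco s0
      (hE s0 hs0) i (c1 s0 hs0 hS0 hT0))), fun u hu => ?_, fun v hv => ?_, fun v hv hW => ?_⟩
    · rw [Pi.smul_apply, smul_eq_mul, xi_val (hE u hu), zz_val (hE u hu)]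
      by_cases hS : u.S = false
      · simp [hS]
      · have hS' : u.S = true := by simpa using hS
        by_cases hT : u.T = false
        · simp only [hS', hT, c1 u hu hS' hT, if_true, if_false, Bool.true_eq_false, hy2]
        · have hT' : u.T = true := by simpa using hT
          have hG : i ∈ u.G := by
            rcases hσ.2 u hu s0 hs0 with h | h
            · have := h.2.2.2 hT'
              rw [hT0] at this
              exact (Bool.false_ne_true this).elim
            · exact h.2.1 (c1 s0 hs0 hS0 hT0)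
          simp [hS', hT', hG]
    · rw [Pi.smul_apply, smul_eq_mul, xi_val hv, zz_val hv]
      split_ifs
      · simp
      · exact le_of_eq hy2
      · nlinarith
      · simp
      · nlinarith
    · obtain ⟨h1, h2, h3, h4⟩ := not_nop hW
      rw [Pi.smul_apply, smul_eq_mul, xi_val hv, zz_val hv]
      simp only [h2, h3, h4, if_true, if_false, Bool.true_eq_false]
      nlinarith
  by_cases c2 : ∀ s ∈ σ, s.S = true → s.T = false → i ∉ s.F
  · have hy : 0 < (1 - al - be) / (1 - al) := div_pos (by linarith) (by linarith)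
    have hy2 : (1 - al - be) / (1 - al) * (1 - al) = 1 - al - be :=
      div_mul_cancel₀ _ (by linarith)
    refine ⟨((1 - al - be) / (1 - al)) • vv al i, Submodule.smul_mem _ _ (vv_mem (hlo s0
      (hE s0 hs0) i (c2 s0 hs0 hS0 hT0))), fun u hu => ?_, fun v hv => ?_, fun v hv hW => ?_⟩
    · rw [Pi.smul_apply, smul_eq_mul, xi_val (hE u hu), vv_val (hE u hu)]
      by_cases hS : u.S = false
      · have hF : i ∉ u.F := by
          rcases hσ.2 u hu s0 hs0 with h | h
          · exact fun hi' => c2 s0 hs0 hS0 hT0 (h.1 hi')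
          · have := h.2.2.1 hS0
            rw [hS] at this
            exact (Bool.false_ne_true this).elim
        simp [hS, hF]
      · have hS' : u.S = true := by simpa using hS
        by_cases hT : u.T = false
        · simp only [hS', hT, c2 u hu hS' hT, if_true, if_false, Bool.true_eq_false, hy2]
        · have hT' : u.T = true := by simpa using hT
          simp [hS', hT']
    · rw [Pi.smul_apply, smul_eq_mul, xi_val hv, vv_val hv]
      split_ifs
      · nlinarith
      · simp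
      · nlinarith
      · exact le_of_eq hy2
      · simp
    · obtain ⟨h1, h2, h3, h4⟩ := not_nop hW
      rw [Pi.smul_apply, smul_eq_mul, xi_val hv, vv_val hv]
      simp only [h1, h2, h4, if_true, if_false, Bool.true_eq_false]
      nlinarith
  push Not at c1 c2
  obtain ⟨s1, hs1, hS1, hT1, hG1⟩ := c1
  obtain ⟨s2, hs2, hS2, hT2, hF2⟩ := c2
  have hF1 : i ∉ s1.F := by
    intro h
    rcases hi s1 hs1 h hS1 with h' | h'
    · exact hG1 h'
    · rw [hT1] at h'
      exact Bool.false_ne_true h'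
  have hG2 : i ∈ s2.G := by
    rcases hi s2 hs2 hF2 hS2 with h' | h'
    · exact h'
    · rw [hT2] at h'
      exact (Bool.false_ne_true h').elim
  refine ⟨vv al i + zz be i, Submodule.add_mem _ (vv_mem (hlo s1 (hE s1 hs1) i hF1))
    (zz_mem (hco s2 (hE s2 hs2) i hG2)), fun u hu => ?_, fun v hv => ?_, fun v hv hW => ?_⟩
  · rw [Pi.add_apply, xi_val (hE u hu), vv_val (hE u hu), zz_val (hE u hu)]
    by_cases hS : u.S = false
    · have hF : i ∉ u.F := by
        rcases hσ.2 u hu s1 hs1 with h | h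
        · exact fun hi' => hF1 (h.1 hi')
        · have := h.2.2.1 hS1
          rw [hS] at this
          exact (Bool.false_ne_true this).elim
      simp [hS, hF]
    · have hS' : u.S = true := by simpa using hS
      by_cases hT : u.T = false
      · by_cases hF : i ∈ u.F
        · have hG : i ∈ u.G := by
            rcases hi u hu hF hS' with h' | h'
            · exact h'
            · rw [hT] at h'
              exact (Bool.false_ne_true h').elim
          simp only [hS', hT, hF, hG, if_true, if_false, Bool.true_eq_false]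
          ring
        · have hG : i ∉ u.G := fun h => hF ((hE u hu).GF h)
          simp only [hS', hT, hF, hG, if_true, if_false, Bool.true_eq_false]
          ring
      · have hT' : u.T = true := by simpa using hT
        have hG : i ∈ u.G := by
          rcases hσ.2 u hu s2 hs2 with h | h
          · have := h.2.2.2 hT'
            rw [hT2] at this
            exact (Bool.false_ne_true this).elim
          · exact h.2.1 hG2
        simp [hS', hT', hG]
  · rw [Pi.add_apply, xi_val hv, vv_val hv, zz_val hv]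
    by_cases hF : i ∈ v.F
    · split_ifs <;> linarith
    · have hG : i ∉ v.G := fun h => hF (hv.GF h)
      split_ifs <;> linarith
  · obtain ⟨h1, h2, h3, h4⟩ := not_nop hW
    rw [Pi.add_apply, xi_val hv, vv_val hv, zz_val hv]
    simp only [h1, h2, h3, h4, if_true, if_false, Bool.true_eq_false]
    linarith

theorem gd_mono {f : Pt α → ℝ} {W W' : Pt α → Prop} (hf : Gd r al be σ f W)
    (h : ∀ v, Ex0 r v → W' v → W v) : Gd r al be σ f W' := by
  obtain ⟨l, hl, l1, l2, l3⟩ := hf
  exact ⟨l, hl, l1, l2, fun v hv hW => l3 v hv (h v hv hW)⟩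

/-! ### The terms -/

theorem t1 (hσ : Chn r σ) {i j : α} (hi : ¬ Loo r i) (hj : ¬ Loo r j) :
    Gd r al be σ (fun v => max (vv al i v - vv al j v) (vv al j v - vv al i v))
      (fun v => ∃ s ∈ σ, i ∉ s.F ∧ j ∈ s.F ∧ i ∈ v.F ∧ j ∉ v.F) := by
  have hm := Submodule.sub_mem _ (vv_mem (al := al) (be := be) hi) (vv_mem (al := al) (be := be) hj)
  have hm' := Submodule.sub_mem _ (vv_mem (al := al) (be := be) hj) (vv_mem (al := al) (be := be) hi)
  refine gd_mono (gd_max (p := fun v => vv al i v - vv al j v)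
    (q := fun v => vv al j v - vv al i v) hm hm' (fun _ _ => rfl) (fun _ _ => le_rfl)
    (fun _ _ => rfl) (fun _ _ => le_rfl) ?_) ?_
  · intro u hu w hw h1 h2
    simp only [vv_sub] at h1 h2
    have h := hσ.2 u hu w hw
    by_cases a1 : i ∈ u.F <;> by_cases a2 : j ∈ u.F <;> by_cases a3 : i ∈ w.F <;>
      by_cases a4 : j ∈ w.F <;> simp only [a1, a2, a3, a4, if_true, if_false] at h1 h2 <;>
      first
      | (exfalso; linarith)
      | (rcases h with h | h
         · exact a3 (h.1 a1)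
         · exact a2 (h.1 a4))
  · intro v hv ⟨s, hs, b1, b2, b3, b4⟩
    left
    refine ⟨s, hs, ?_, ?_⟩ <;> simp only [vv_sub, b1, b2, b3, b4, if_true, if_false] <;> norm_num

theorem t2 (hσ : Chn r σ) {i j : α} (hi : ¬ Clo r i) (hj : ¬ Clo r j) :
    Gd r al be σ (fun v => max (zz be i v - zz be j v) (zz be j v - zz be i v))
      (fun v => ∃ s ∈ σ, i ∈ s.G ∧ j ∉ s.G ∧ i ∉ v.G ∧ j ∈ v.G) := by
  have hm := Submodule.sub_mem _ (zz_mem (al := al) (be := be) hi) (zz_mem (al := al) (be := be) hj)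
  have hm' := Submodule.sub_mem _ (zz_mem (al := al) (be := be) hj) (zz_mem (al := al) (be := be) hi)
  refine gd_mono (gd_max (p := fun v => zz be i v - zz be j v)
    (q := fun v => zz be j v - zz be i v) hm hm' (fun _ _ => rfl) (fun _ _ => le_rfl)
    (fun _ _ => rfl) (fun _ _ => le_rfl) ?_) ?_
  · intro u hu w hw h1 h2
    simp only [zz_sub] at h1 h2
    have h := hσ.2 u hu w hw
    by_cases a1 : i ∈ u.G <;> by_cases a2 : j ∈ u.G <;> by_cases a3 : i ∈ w.G <;>
      by_cases a4 : j ∈ w.G <;> simp only [a1, a2, a3, a4, if_true, if_false] at h1 h2 <;>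
      first
      | (exfalso; linarith)
      | (rcases h with h | h
         · exact a4 (h.2.1 a2)
         · exact a1 (h.2.1 a3))
  · intro v hv ⟨s, hs, b1, b2, b3, b4⟩
    left
    refine ⟨s, hs, ?_, ?_⟩ <;> simp only [zz_sub, b1, b2, b3, b4, if_true, if_false] <;> norm_num

theorem t3 (hσ : Chn r σ) (hE : ∀ s ∈ σ, Ex0 r s) {l0 : Pt α → ℝ} (m0 : l0 ∈ Lin r al be)
    (e0 : ∀ u ∈ σ, l0 u = Xi al be u) (i0 : ∀ v, Ex0 r v → l0 v ≤ Xi al be v)
    {i j : α} (hi : ¬ Loo r i) (hj : ¬ Clo r j) :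
    Gd r al be σ (fun v => max (vv al i v + zz be j v) (Xi al be v))
      (fun v => v.S = true ∧ v.T = false ∧ ∃ s ∈ σ, s.S = true ∧ s.T = false ∧
        ((i ∉ s.F ∧ j ∈ s.G ∧ i ∈ v.F ∧ j ∉ v.G) ∨ (i ∈ s.F ∧ j ∉ s.G ∧ i ∉ v.F ∧ j ∈ v.G))) := by
  have hm := Submodule.add_mem _ (vv_mem (al := al) (be := be) hi) (zz_mem (al := al) (be := be) hj)
  refine gd_mono (gd_max (p := fun v => vv al i v + zz be j v)
    (q := Xi al be) hm m0 (fun _ _ => rfl) (fun _ _ => le_rfl) e0 i0 ?_) ?_
  · intro u hu w hw h1 h2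
    have k1 := vz_val (hE u hu) (al := al) (be := be) i j
    have k2 := vz_val (hE w hw) (al := al) (be := be) i j
    have h1' := sub_neg.2 h1
    have h2' := sub_pos.2 h2
    rw [k1] at h1'
    rw [k2] at h2'
    have hwS : w.S = true := by
      by_contra hc
      have hc' : w.S = false := by simpa using hc
      rw [if_pos hc'] at h2'
      split_ifs at h2' <;> linarith
    have hwT : w.T = false := by
      by_contra hc
      rw [if_neg (by rw [hwS]; exact Bool.true_eq_false ▸ id), if_neg hc] at h2'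
      split_ifs at h2' <;> linarith
    have hwF : i ∉ w.F := by
      intro hc
      simp only [hwS, hwT, hc, if_true, if_false, Bool.true_eq_false] at h2'
      split_ifs at h2' <;> linarith
    have hwG : j ∈ w.G := by
      by_contra hc
      simp only [hwS, hwT, hwF, hc, if_true, if_false, Bool.true_eq_false] at h2'
      linarith
    rcases hσ.2 u hu w hw with h | h
    · have hF : i ∉ u.F := fun hc => hwF (h.1 hc)
      by_cases hS : u.S = false
      · simp only [hS, hF, if_true, if_false] at h1'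
        linarith
      · have hT : u.T = false := by
          by_contra hc
          have := h.2.2.2 (by simpa using hc)
          rw [hwT] at this
          exact Bool.false_ne_true this
        simp only [hS, hT, hF, if_true, if_false, Bool.true_eq_false] at h1'
        split_ifs at h1' <;> linarith
    · have hG : j ∈ u.G := h.2.1 hwG
      have hS : ¬ u.S = false := by
        rw [h.2.2.1 hwS]
        simp
      simp only [hS, hG, if_true, if_false, Bool.true_eq_false] at h1'
      split_ifs at h1' <;> linarith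
  · intro v hv ⟨hS, hT, s, hs, hS', hT', h⟩
    have k1 := vz_val (hE s hs) (al := al) (be := be) i j
    have k2 := vz_val hv (al := al) (be := be) i j
    rcases h with ⟨b1, b2, b3, b4⟩ | ⟨b1, b2, b3, b4⟩
    · left
      simp only [hS, hT, hS', hT', b1, b2, b3, b4, if_true, if_false, Bool.true_eq_false] at k1 k2
      refine ⟨s, hs, ?_, ?_⟩ <;> linarith
    · right
      simp only [hS, hT, hS', hT', b1, b2, b3, b4, if_true, if_false, Bool.true_eq_false] at k1 k2
      refine ⟨s, hs, ?_, ?_⟩ <;> linarith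

theorem t4 (hσ : Chn r σ) (hE : ∀ s ∈ σ, Ex0 r s) (hw : Win al be) {l0 : Pt α → ℝ}
    (m0 : l0 ∈ Lin r al be)
    (e0 : ∀ u ∈ σ, l0 u = Xi al be u) (i0 : ∀ v, Ex0 r v → l0 v ≤ Xi al be v)
    {i : α} (hi : ¬ Loo r i) :
    Gd r al be σ (fun v => max (vv al i v + al / (1 - al - be) * Xi al be v) 0)
      (fun v => ∃ s ∈ σ, (s.S = false ∧ i ∈ s.F ∧ v.S = true ∧ v.T = false ∧ i ∉ v.F) ∨
        (s.S = true ∧ s.T = false ∧ i ∉ s.F ∧ v.S = false ∧ i ∈ v.F)) := by
  have hc : 0 ≤ al / (1 - al - be) := div_nonneg hw.a0.le (by linarith [hw.ab])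
  have hm := Submodule.add_mem _ (vv_mem (al := al) (be := be) hi)
    (Submodule.smul_mem _ (al / (1 - al - be)) m0)
  refine gd_mono (gd_max (p := fun v => vv al i v + al / (1 - al - be) * Xi al be v)
    (q := fun _ => 0) hm (Submodule.zero_mem _) (fun u hu => ?_) (fun v hv => ?_)
    (fun _ _ => rfl) (fun _ _ => le_rfl) ?_) ?_
  · simp only [Pi.add_apply, Pi.smul_apply, smul_eq_mul, e0 u hu]
  · simp only [Pi.add_apply, Pi.smul_apply, smul_eq_mul]
    have := mul_le_mul_of_nonneg_left (i0 v hv) hc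
    linarith
  · intro u hu w hw' h1 h2
    simp only [vx_val (hE u hu) hw, vx_val (hE w hw') hw] at h1 h2
    have hwS : w.S = true := by
      by_contra hc
      have hc' : w.S = false := by simpa using hc
      rw [if_pos hc'] at h2
      split_ifs at h2 <;> linarith
    have hwT : w.T = false := by
      by_contra hc
      simp only [hwS, hc, if_true, if_false, Bool.true_eq_false] at h2
      linarith
    have hwF : i ∉ w.F := by
      intro hc
      simp only [hwS, hwT, hc, if_true, if_false, Bool.true_eq_false] at h2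
      linarith
    have huS : u.S = false := by
      by_contra hc
      simp only [hc, if_false] at h1
      split_ifs at h1 <;> linarith
    have huF : i ∈ u.F := by
      by_contra hc
      simp only [huS, hc, if_true, if_false] at h1
      linarith
    rcases hσ.2 u hu w hw' with h | h
    · exact hwF (h.1 huF)
    · have := h.2.2.1 hwS
      rw [huS] at this
      exact Bool.false_ne_true this
  · intro v hv ⟨s, hs, h⟩
    rcases h with ⟨b1, b2, b3, b4, b5⟩ | ⟨b1, b2, b3, b4, b5⟩
    · right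
      refine ⟨s, hs, ?_, ?_⟩
      · simp only [vx_val (hE s hs) hw, b1, b2, if_true]
        norm_num
      · simp only [vx_val hv hw, b3, b4, b5, if_true, if_false, Bool.true_eq_false]
        norm_num
    · left
      refine ⟨s, hs, ?_, ?_⟩
      · simp only [vx_val (hE s hs) hw, b1, b2, b3, if_true, if_false, Bool.true_eq_false]
        norm_num
      · simp only [vx_val hv hw, b4, b5, if_true]
        norm_num

theorem t5 (hσ : Chn r σ) (hE : ∀ s ∈ σ, Ex0 r s) (hw : Win al be) {l0 : Pt α → ℝ}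
    (m0 : l0 ∈ Lin r al be)
    (e0 : ∀ u ∈ σ, l0 u = Xi al be u) (i0 : ∀ v, Ex0 r v → l0 v ≤ Xi al be v)
    {j : α} (hj : ¬ Clo r j) :
    Gd r al be σ (fun v => max (zz be j v + be / (1 - al - be) * Xi al be v) 0)
      (fun v => ∃ s ∈ σ, (s.T = true ∧ j ∉ s.G ∧ v.S = true ∧ v.T = false ∧ j ∈ v.G) ∨
        (s.S = true ∧ s.T = false ∧ j ∈ s.G ∧ v.T = true ∧ j ∉ v.G)) := by
  have hc : 0 ≤ be / (1 - al - be) := div_nonneg hw.b0.le (by linarith [hw.ab])
  have hm := Submodule.add_mem _ (zz_mem (al := al) (be := be) hj)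
    (Submodule.smul_mem _ (be / (1 - al - be)) m0)
  refine gd_mono (gd_max (p := fun v => zz be j v + be / (1 - al - be) * Xi al be v)
    (q := fun _ => 0) hm (Submodule.zero_mem _) (fun u hu => ?_) (fun v hv => ?_)
    (fun _ _ => rfl) (fun _ _ => le_rfl) ?_) ?_
  · simp only [Pi.add_apply, Pi.smul_apply, smul_eq_mul, e0 u hu]
  · simp only [Pi.add_apply, Pi.smul_apply, smul_eq_mul]
    have := mul_le_mul_of_nonneg_left (i0 v hv) hc
    linarith
  · intro u hu w hw' h1 h2
    simp only [zx_val (hE u hu) hw, zx_val (hE w hw') hw] at h1 h2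
    have hwS : w.S = true := by
      by_contra hc
      have hc' : w.S = false := by simpa using hc
      rw [if_pos hc'] at h2
      linarith
    have hwT : w.T = false := by
      by_contra hc
      simp only [hwS, hc, if_false, Bool.true_eq_false] at h2
      split_ifs at h2 <;> linarith
    have hwG : j ∈ w.G := by
      by_contra hc
      simp only [hwS, hwT, hc, if_true, if_false, Bool.true_eq_false] at h2
      linarith
    have huS : ¬ u.S = false := by
      intro hc
      simp only [hc, if_true] at h1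
      linarith
    have huT : ¬ u.T = false := by
      intro hc
      simp only [huS, hc, if_true, if_false, Bool.true_eq_false] at h1
      split_ifs at h1 <;> linarith
    have huG : j ∉ u.G := by
      intro hc
      simp only [huS, huT, hc, if_true, if_false, Bool.true_eq_false] at h1
      linarith
    rcases hσ.2 u hu w hw' with h | h
    · have := h.2.2.2 (by simpa using huT)
      rw [hwT] at this
      exact Bool.false_ne_true this
    · exact huG (h.2.1 hwG)
  · intro v hv ⟨s, hs, h⟩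
    rcases h with ⟨b1, b2, b3, b4, b5⟩ | ⟨b1, b2, b3, b4, b5⟩
    · right
      refine ⟨s, hs, ?_, ?_⟩
      · simp only [zx_val (hE s hs) hw, (hE s hs).TS b1, b1, b2, if_false, Bool.true_eq_false]
        norm_num
      · simp only [zx_val hv hw, b3, b4, b5, if_true, if_false, Bool.true_eq_false]
        norm_num
    · left
      refine ⟨s, hs, ?_, ?_⟩
      · simp only [zx_val (hE s hs) hw, b1, b2, b3, if_true, if_false, Bool.true_eq_false]
        norm_num
      · simp only [zx_val hv hw, hv.TS b4, b4, b5, if_false, Bool.true_eq_false]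
        norm_num

/-- the cases of a state which is not comparable to an element of the facet -/
theorem cases_inc {s v : Pt α} (hs : Ex0 r s) (hv : Ex0 r v) (h1 : ¬ s ≤ v) (h2 : ¬ v ≤ s) :
    (∃ i j, i ∉ s.F ∧ j ∈ s.F ∧ i ∈ v.F ∧ j ∉ v.F) ∨
    (∃ i j, i ∈ s.G ∧ j ∉ s.G ∧ i ∉ v.G ∧ j ∈ v.G) ∨
    (v.S = true ∧ v.T = false ∧ s.S = true ∧ s.T = false ∧ ∃ i j,
      (i ∉ s.F ∧ j ∈ s.G ∧ i ∈ v.F ∧ j ∉ v.G) ∨ (i ∈ s.F ∧ j ∉ s.G ∧ i ∉ v.F ∧ j ∈ v.G)) ∨
    (∃ i, (s.S = false ∧ i ∈ s.F ∧ v.S = true ∧ v.T = false ∧ i ∉ v.F) ∨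
        (s.S = true ∧ s.T = false ∧ i ∉ s.F ∧ v.S = false ∧ i ∈ v.F)) ∨
    (∃ j, (s.T = true ∧ j ∉ s.G ∧ v.S = true ∧ v.T = false ∧ j ∈ v.G) ∨
        (s.S = true ∧ s.T = false ∧ j ∈ s.G ∧ v.T = true ∧ j ∉ v.G)) := by
  by_cases a1 : s.F ⊆ v.F ∨ v.F ⊆ s.F
  swap
  · push Not at a1
    obtain ⟨j, hj, hj'⟩ := not_subset.1 a1.1
    obtain ⟨i, hi, hi'⟩ := not_subset.1 a1.2
    exact Or.inl ⟨i, j, hi', hj, hi, hj'⟩
  by_cases a2 : s.G ⊆ v.G ∨ v.G ⊆ s.G
  swap
  · push Not at a2
    obtain ⟨i, hi, hi'⟩ := not_subset.1 a2.1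
    obtain ⟨j, hj, hj'⟩ := not_subset.1 a2.2
    exact Or.inr (Or.inl ⟨i, j, hi, hj', hi', hj⟩)
  right
  right
  rcases tri hs with ⟨b1, b2, b3⟩ | ⟨b1, b2⟩ | ⟨b1, b2, b3⟩ <;>
    rcases tri hv with ⟨c1, c2, c3⟩ | ⟨c1, c2⟩ | ⟨c1, c2, c3⟩
  · rcases a1 with h | h
    · exact (h1 ⟨h, by rw [b3]; exact empty_subset _, by simp [b1], by simp [b2]⟩).elim
    · exact (h2 ⟨h, by rw [c3]; exact empty_subset _, by simp [c1], by simp [c2]⟩).elim
  · by_cases h : s.F ⊆ v.F
    · exact (h1 ⟨h, by rw [b3]; exact empty_subset _, by simp [b1], by simp [b2]⟩).elim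
    · obtain ⟨i, hi, hi'⟩ := not_subset.1 h
      exact Or.inr (Or.inl ⟨i, Or.inl ⟨b1, hi, c1, c2, hi'⟩⟩)
  · exact (h1 ⟨by rw [c3]; exact subset_univ _, by rw [b3]; exact empty_subset _,
      by simp [b1], by simp [b2]⟩).elim
  · by_cases h : v.F ⊆ s.F
    · exact (h2 ⟨h, by rw [c3]; exact empty_subset _, by simp [c1], by simp [c2]⟩).elim
    · obtain ⟨i, hi, hi'⟩ := not_subset.1 h
      exact Or.inr (Or.inl ⟨i, Or.inr ⟨b1, b2, hi', c1, hi⟩⟩)
  · by_cases h : s.F ⊆ v.F
    · have g1 : ¬ s.G ⊆ v.G := fun hG => h1 ⟨h, hG, by simp [c1], by simp [b2]⟩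
      have g2 : ¬ v.F ⊆ s.F := fun hF =>
        h2 ⟨hF, a2.resolve_left g1, by simp [b1], by simp [c2]⟩
      obtain ⟨j, hj, hj'⟩ := not_subset.1 g1
      obtain ⟨i, hi, hi'⟩ := not_subset.1 g2
      exact Or.inl ⟨c1, c2, b1, b2, i, j, Or.inl ⟨hi', hj, hi, hj'⟩⟩
    · have hF := a1.resolve_left h
      have g1 : ¬ v.G ⊆ s.G := fun hG => h2 ⟨hF, hG, by simp [b1], by simp [c2]⟩
      obtain ⟨i, hi, hi'⟩ := not_subset.1 h
      obtain ⟨j, hj, hj'⟩ := not_subset.1 g1
      exact Or.inl ⟨c1, c2, b1, b2, i, j, Or.inr ⟨hi, hj', hi', hj⟩⟩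
  · by_cases h : s.G ⊆ v.G
    · exact (h1 ⟨by rw [c3]; exact subset_univ _, h, by simp [c1], by simp [b2]⟩).elim
    · obtain ⟨j, hj, hj'⟩ := not_subset.1 h
      exact Or.inr (Or.inr ⟨j, Or.inr ⟨b1, b2, hj, c2, hj'⟩⟩)
  · exact (h2 ⟨by rw [b3]; exact subset_univ _, by rw [c3]; exact empty_subset _,
      by simp [c1], by simp [c2]⟩).elim
  · by_cases h : v.G ⊆ s.G
    · exact (h2 ⟨by rw [b3]; exact subset_univ _, h, by simp [b1], by simp [c2]⟩).elim
    · obtain ⟨j, hj, hj'⟩ := not_subset.1 h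
      exact Or.inr (Or.inr ⟨j, Or.inl ⟨b2, hj', c1, c2, hj⟩⟩)
  · rcases a2 with h | h
    · exact (h1 ⟨by rw [c3]; exact subset_univ _, h, by simp [c1], by simp [c2]⟩).elim
    · exact (h2 ⟨by rw [b3]; exact subset_univ _, h, by simp [b1], by simp [b2]⟩).elim

end AMF

open AMF in
/-- **AMF.** The ample function from the facets. -/
theorem t_AMF (h1 : Stmt_FLA) (h2 : Stmt_CYC) (_h3 : Stmt_HT) (_h4 : Stmt_GAP)
    (h5 : Stmt_DIM) : Stmt_AMF := by
  classical
  intro α _ _ r al be hr hw
  have hlo : ∀ s : Pt α, Ex0 r s → ∀ i, i ∉ s.F → ¬ Loo r i := by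
    obtain ⟨_, _, _, _, _, _, _, _, _, _, _, _, k1, k2⟩ := h1 α r hr
    intro s hs i hi hl
    exact hi (k1 s.F hs.flat ((k2 i).2 hl))
  have hco : ∀ s : Pt α, Ex0 r s → ∀ i ∈ s.G, ¬ Clo r i := by
    obtain ⟨_, _, _, _, _, _, _, _, _, _, _, k1, k2⟩ := h2 α r hr
    intro s hs i hi
    exact (k2 i).1 (k1 s.G hs.cyc hi)
  have hdim := (h5 α r hr).2
  refine ⟨fun v => ((((Xi al be v +
    ∑ i ∈ univ.filter (fun i => ¬ Loo r i), ∑ j ∈ univ.filter (fun i => ¬ Loo r i),
      max (vv al i v - vv al j v) (vv al j v - vv al i v)) +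
    ∑ i ∈ univ.filter (fun i => ¬ Clo r i), ∑ j ∈ univ.filter (fun i => ¬ Clo r i),
      max (zz be i v - zz be j v) (zz be j v - zz be i v)) +
    ∑ i ∈ univ.filter (fun i => ¬ Loo r i), ∑ j ∈ univ.filter (fun i => ¬ Clo r i),
      max (vv al i v + zz be j v) (Xi al be v)) +
    ∑ i ∈ univ.filter (fun i => ¬ Loo r i),
      max (vv al i v + al / (1 - al - be) * Xi al be v) 0) +
    ∑ j ∈ univ.filter (fun i => ¬ Clo r i),
      max (zz be j v + be / (1 - al - be) * Xi al be v) 0, fun σ hσ hc => ?_⟩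
  have hE : ∀ s ∈ σ, Ex0 r s := fun s hs => (hσ.1.1 s hs).ex
  have key : ∃ W : Pt α → Prop, Gd r al be σ (Xi al be) W ∧ ∀ v, Sta r v → v ∉ σ →
      (∀ s ∈ σ, s ≤ v ∨ v ≤ s) → W v := by
    rcases hσ.2 with h | ⟨i, hi⟩
    · refine ⟨fun v => v.S = true ∧ v.T = false, ⟨0, Submodule.zero_mem _, ?_, ?_, ?_⟩, ?_⟩
      · intro u hu
        rw [h] at hu
        exact (notMem_empty u hu).elim
      · intro v hv
        rw [xi_val hv, Pi.zero_apply]
        split_ifs <;> linarith [hw.ab]
      · intro v hv hW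
        rw [xi_val hv, Pi.zero_apply]
        simp only [hW.1, hW.2, if_true, if_false, Bool.true_eq_false]
        linarith [hw.ab]
      · intro v hv _ _
        have h0 : Fintype.card α = 0 := by
          rw [← hc, h, card_empty]
        have : IsEmpty α := Fintype.card_eq_zero_iff.1 h0
        have hs : ∀ X Y : Finset α, X = Y := fun X Y => by
          ext x
          exact (IsEmpty.false x).elim
        rcases tri hv.ex with ⟨b1, b2, b3⟩ | ⟨b1, b2⟩ | ⟨b1, b2, b3⟩
        · exfalso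
          apply hv.nb
          obtain ⟨F, G, S, T⟩ := v
          simp only at b1 b2
          unfold bot
          rw [b1, b2, hs F (univ.filter (Loo r)), hs G ∅]
        · exact ⟨b1, b2⟩
        · exfalso
          apply hv.nt
          obtain ⟨F, G, S, T⟩ := v
          simp only at b1 b2
          unfold top
          rw [b1, b2, hs F univ, hs G (univ.filter (fun e => ¬ Clo r e))]
    · refine ⟨fun v => ¬ Nop i v, l0_ex hσ.1 hw hlo hco i hi, ?_⟩
      intro v hv hvσ hcomp hn
      have hF : Fc r (insert v σ) := by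
        refine ⟨⟨fun s hs => ?_, fun s hs t ht => ?_⟩, Or.inr ⟨i, fun s hs => ?_⟩⟩
        · rcases mem_insert.1 hs with rfl | hs
          · exact hv
          · exact hσ.1.1 s hs
        · rcases mem_insert.1 hs with hs1 | hs1
          · rcases mem_insert.1 ht with ht1 | ht1
            · rw [hs1, ht1]
              exact Or.inl le_rfl
            · rw [hs1]
              exact (hcomp t ht1).symm
          · rcases mem_insert.1 ht with ht1 | ht1
            · rw [ht1]
              exact hcomp s hs1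
            · exact hσ.1.2 s hs1 t ht1
        · rcases mem_insert.1 hs with rfl | hs
          · exact hn
          · exact hi s hs
      have := hdim _ hF
      rw [card_insert_of_notMem hvσ, hc] at this
      exact absurd this (by omega)
  obtain ⟨W, g0, hW⟩ := key
  obtain ⟨l0, m0, e0, i0, _⟩ := id g0
  have g1 := gd_sum (univ.filter (fun i => ¬ Loo r i)) _ _ fun i hi =>
    gd_sum (univ.filter (fun i => ¬ Loo r i)) _ _ fun j hj =>
      t1 (be := be) (al := al) hσ.1 (mem_filter.1 hi).2 (mem_filter.1 hj).2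
  have g2 := gd_sum (univ.filter (fun i => ¬ Clo r i)) _ _ fun i hi =>
    gd_sum (univ.filter (fun i => ¬ Clo r i)) _ _ fun j hj =>
      t2 (be := be) (al := al) hσ.1 (mem_filter.1 hi).2 (mem_filter.1 hj).2
  have g3 := gd_sum (univ.filter (fun i => ¬ Loo r i)) _ _ fun i hi =>
    gd_sum (univ.filter (fun i => ¬ Clo r i)) _ _ fun j hj =>
      t3 hσ.1 hE m0 e0 i0 (mem_filter.1 hi).2 (mem_filter.1 hj).2
  have g4 := gd_sum (univ.filter (fun i => ¬ Loo r i)) _ _ fun i hi =>
      t4 hσ.1 hE hw m0 e0 i0 (mem_filter.1 hi).2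
  have g5 := gd_sum (univ.filter (fun i => ¬ Clo r i)) _ _ fun j hj =>
      t5 hσ.1 hE hw m0 e0 i0 (mem_filter.1 hj).2
  obtain ⟨l, hl, l1, l2, l3⟩ := gd_add (gd_add (gd_add (gd_add (gd_add g0 g1) g2) g3) g4) g5
  refine ⟨l, hl, l1, fun v hvσ hv => l3 v hv.ex ?_⟩
  by_cases hcomp : ∀ s ∈ σ, s ≤ v ∨ v ≤ s
  · exact Or.inl (Or.inl (Or.inl (Or.inl (Or.inl (hW v hv hvσ hcomp)))))
  push Not at hcomp
  obtain ⟨s, hs, hsv, hvs⟩ := hcomp
  have nl : ∀ i, i ∉ s.F ∨ i ∉ v.F → i ∈ univ.filter (fun i => ¬ Loo r i) := by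
    intro i hi
    refine mem_filter.2 ⟨mem_univ _, ?_⟩
    rcases hi with h | h
    · exact hlo s (hE s hs) i h
    · exact hlo v hv.ex i h
  have nc : ∀ i, i ∈ s.G ∨ i ∈ v.G → i ∈ univ.filter (fun i => ¬ Clo r i) := by
    intro i hi
    refine mem_filter.2 ⟨mem_univ _, ?_⟩
    rcases hi with h | h
    · exact hco s (hE s hs) i h
    · exact hco v hv.ex i h
  rcases cases_inc (hE s hs) hv.ex hsv hvs with ⟨i, j, q1, q2, q3, q4⟩ | ⟨i, j, q1, q2, q3, q4⟩ |
    ⟨q1, q2, q3, q4, i, j, h⟩ | ⟨i, h⟩ | ⟨j, h⟩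
  · exact Or.inl (Or.inl (Or.inl (Or.inl (Or.inr ⟨i, nl i (Or.inl q1), j, nl j (Or.inr q4),
      s, hs, q1, q2, q3, q4⟩))))
  · exact Or.inl (Or.inl (Or.inl (Or.inr ⟨i, nc i (Or.inl q1), j, nc j (Or.inr q4),
      s, hs, q1, q2, q3, q4⟩)))
  · refine Or.inl (Or.inl (Or.inr ⟨i, nl i ?_, j, nc j ?_, q1, q2, s, hs, q3, q4, h⟩))
    · rcases h with ⟨w1, w2, w3, w4⟩ | ⟨w1, w2, w3, w4⟩
      · exact Or.inl w1
      · exact Or.inr w3
    · rcases h with ⟨w1, w2, w3, w4⟩ | ⟨w1, w2, w3, w4⟩
      · exact Or.inl w2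
      · exact Or.inr w4
  · refine Or.inl (Or.inr ⟨i, nl i ?_, s, hs, h⟩)
    rcases h with ⟨w1, w2, w3, w4, w5⟩ | ⟨w1, w2, w3, w4, w5⟩
    · exact Or.inr w5
    · exact Or.inl w3
  · refine Or.inr ⟨j, nc j ?_, s, hs, h⟩
    rcases h with ⟨w1, w2, w3, w4, w5⟩ | ⟨w1, w2, w3, w4, w5⟩
    · exact Or.inr w5
    · exact Or.inl w3

end Pool.Agent.QPR
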