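import Pool.Agent.QPR.StS

/-!
# Balancing (module QPR1_BAL, helper48)
-/

set_option autoImplicit false

open Finset

namespace Pool.Agent.QPR
namespace MBAL

variable {α : Type} [Fintype α] [DecidableEq α] {r : Finset α → ℕ} {al be : ℝ}

theorem mem_mid {a b p : Pt α} : p ∈ mid r a b ↔ Ex0 r p ∧ a < p ∧ p < b := by
  classical
  unfold mid
  simp

theorem cc_pos {a b : Pt α} (h : a ≠ b) : 1 ≤ ncc a b := by
  by_contra hc
  apply h
  obtain ⟨F, G, S, T⟩ := a
  obtain ⟨F', G', S', T'⟩ := b
  unfold ncc at hc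
  simp only at hc
  by_cases h1 : F = F'
  · by_cases h2 : G = G'
    · by_cases h3 : S = S'
      · by_cases h4 : T = T'
        · subst h1 h2 h3 h4
          rfl
        · exfalso
          apply hc
          rw [if_neg h4]
          omega
      · exfalso
        apply hc
        rw [if_neg h3]
        omega
    · exfalso
      apply hc
      rw [if_neg h2]
      omega
  · exfalso
    apply hc
    rw [if_neg h1]
    omega

theorem cc_one (h1 : Stmt_HT) (hr : IsRank r) {a b : Pt α} (ha : Ex0 r a) (hb : Ex0 r b)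
    (hab : a < b) (h : ht r b = ht r a + 1) : ncc a b = 1 := by
  obtain ⟨_, _, _, _, _, _, _, _, _, _, hcc⟩ := h1 α r hr
  have h2 := hcc a b ha hb hab.le
  have h3 := cc_pos (ne_of_lt hab)
  omega

theorem ht_lt (h1 : Stmt_HT) (hr : IsRank r) {a b : Pt α} (ha : Ex0 r a) (hb : Ex0 r b)
    (hab : a < b) : ht r a < ht r b := by
  obtain ⟨_, _, _, _, _, _, _, hlt, _, _, _⟩ := h1 α r hr
  exact hlt a b ha hb hab

theorem tw_zero {σ : Finset (Pt α)} (h : ¬ Fc r σ) : tw r al be σ = 0 := by
  unfold tw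
  rw [if_neg]
  exact fun hc => h hc.1

/-- the weight as a sum -/
theorem tw_sum (h6 : Stmt_DG) (h7 : Stmt_TW) [Nonempty α] (hr : IsRank r) (hw : Win al be)
    {σ : Finset (Pt α)} {a b : Pt α} (hc : Chn r σ) (hcard : σ.card = Fintype.card α)
    (hg : Gp r σ a b) (ha : Ex0 r a) (hb : Ex0 r b) (hh : ht r b = ht r a + 2) :
    tw r al be σ = ∑ p ∈ mid r a b, (kap al be a p - kap al be p b)⁻¹ := by
  obtain ⟨hF, ht⟩ := h7 α r al be hr hw σ a b hc hcard hg hh
  rcases h6 α r al be hr hw a b ha hb hg.lt hh with ⟨hn, hk, _, _⟩ | ⟨hn, p, q, hpq, hm, hk, _, _⟩ |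
    ⟨hi, p, hm, hk, _⟩
  · rw [tw_zero]
    · symm
      apply Finset.sum_eq_zero
      intro p hp
      rw [hk p hp, sub_self, inv_zero]
    · intro hf
      obtain ⟨i, hi⟩ := hF.1 hf
      exact hn i hi
  · rw [tw_zero]
    · rw [hm, Finset.sum_pair hpq, hk, inv_neg]
      ring
    · intro hf
      obtain ⟨i, hi⟩ := hF.1 hf
      exact hn i hi
  · rw [ht (hF.2 hi), hm, Finset.sum_singleton, hk, one_div]

/-- the two types of double gaps -/
theorem two_types (h1 : Stmt_HT) (h5 : Stmt_DEC) (h6 : Stmt_DG) [Nonempty α] (hr : IsRank r)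
    (hw : Win al be) {a b : Pt α} (ha : Ex0 r a) (hb : Ex0 r b) (hab : a < b)
    (hh : ht r b = ht r a + 2) {l : Pt α → ℝ} (hl : l ∈ Lin r al be) (la : l a = 0) (lb : l b = 0)
    {φ γ : α → ℝ} {σ τ : ℝ} (D : Dec r al be l φ γ σ τ) :
    (∑ p ∈ mid r a b, (kap al be a p - kap al be p b)⁻¹ = 0 ∧ ∑ p ∈ mid r a b, l p = 0) ∨
    ∃ c : ℝ, 0 < c ∧ ∑ p ∈ mid r a b, (kap al be a p - kap al be p b)⁻¹ = c⁻¹ ∧
      psi al be φ γ σ b - psi al be φ γ σ a = c * ∑ p ∈ mid r a b, l p := by
  rcases h6 α r al be hr hw a b ha hb hab hh with ⟨hn, hk, _, A, B, hs⟩ |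
    ⟨hn, p, q, hpq, hm, hk, _, hs⟩ | ⟨hi, p, hm, hk, hp⟩
  · left
    refine ⟨?_, ?_⟩
    · apply Finset.sum_eq_zero
      intro p hp
      rw [hk p hp, sub_self, inv_zero]
    · rw [hs l hl, la, lb]
      ring
  · left
    refine ⟨?_, ?_⟩
    · rw [hm, Finset.sum_pair hpq, hk, inv_neg]
      ring
    · rw [hm, Finset.sum_pair hpq, hs l hl, la, lb]
      ring
  · right
    refine ⟨kap al be a p - kap al be p b, hp, ?_, ?_⟩
    · rw [hm, Finset.sum_singleton]
    · have hpm : p ∈ mid r a b := by rw [hm]; exact Finset.mem_singleton_self p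
      obtain ⟨hpe, hap, hpb⟩ := mem_mid.1 hpm
      have e1 := ht_lt h1 hr ha hpe hap
      have e2 := ht_lt h1 hr hpe hb hpb
      have c1 := cc_one h1 hr ha hpe hap (by omega)
      have c2 := cc_one h1 hr hpe hb hpb (by omega)
      obtain ⟨_, _, _, hps⟩ := (h5 α r al be hr).2 l φ γ σ τ D
      have s1 := hps a p hap.le c1
      have s2 := hps p b hpb.le c2
      rw [hm, Finset.sum_singleton]
      rw [la] at s1
      rw [lb] at s2
      linear_combination s1 + s2

/-- Case B, the algebra of a gap with height difference three -/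
theorem triple (h1 : Stmt_HT) (h5 : Stmt_DEC) (h6 : Stmt_DG) [Nonempty α] (hr : IsRank r)
    (hw : Win al be) {a b : Pt α} (ha : Ex0 r a) (hb : Ex0 r b)
    (hh : ht r b = ht r a + 3) {l : Pt α → ℝ} (hl : l ∈ Lin r al be) (la : l a = 0) (lb : l b = 0)
    {φ γ : α → ℝ} {σ τ : ℝ} (D : Dec r al be l φ γ σ τ)
    (hrel : psi al be φ γ σ b - psi al be φ γ σ a = 0) {W : Pt α → ℝ}
    (hW1 : ∀ v ∈ mid r a b, ht r v = ht r a + 1 →
      W v = ∑ p ∈ mid r v b, (kap al be v p - kap al be p b)⁻¹)
    (hW2 : ∀ p ∈ mid r a b, ht r p = ht r a + 2 →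
      W p = ∑ v ∈ mid r a p, (kap al be a v - kap al be v p)⁻¹) :
    ∑ v ∈ mid r a b, W v * l v = 0 := by
  classical
  set X : Finset (Pt α) := (mid r a b).filter (fun v => ht r v = ht r a + 1) with hX
  set Y : Finset (Pt α) := (mid r a b).filter (fun v => ht r v = ht r a + 2) with hY
  have hXm : ∀ v ∈ X, Ex0 r v ∧ a < v ∧ v < b ∧ ht r v = ht r a + 1 := by
    intro v hv
    rw [hX, Finset.mem_filter] at hv
    obtain ⟨h, h'⟩ := hv
    obtain ⟨h2, h3, h4⟩ := mem_mid.1 h
    exact ⟨h2, h3, h4, h'⟩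
  have hYm : ∀ v ∈ Y, Ex0 r v ∧ a < v ∧ v < b ∧ ht r v = ht r a + 2 := by
    intro v hv
    rw [hY, Finset.mem_filter] at hv
    obtain ⟨h, h'⟩ := hv
    obtain ⟨h2, h3, h4⟩ := mem_mid.1 h
    exact ⟨h2, h3, h4, h'⟩
  have hmid1 : ∀ v ∈ X, mid r v b = Y.filter (fun p => v < p) := by
    intro v hv
    obtain ⟨e1, e2, e3, e4⟩ := hXm v hv
    ext p
    rw [mem_mid, Finset.mem_filter, hY, Finset.mem_filter, mem_mid]
    constructor
    · rintro ⟨k1, k2, k3⟩
      have m1 := ht_lt h1 hr e1 k1 k2
      have m2 := ht_lt h1 hr k1 hb k3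
      exact ⟨⟨⟨k1, e2.trans k2, k3⟩, by omega⟩, k2⟩
    · rintro ⟨⟨⟨k1, k2, k3⟩, k4⟩, k5⟩
      exact ⟨k1, k5, k3⟩
  have hmid2 : ∀ p ∈ Y, mid r a p = X.filter (fun v => v < p) := by
    intro p hp
    obtain ⟨e1, e2, e3, e4⟩ := hYm p hp
    ext v
    rw [mem_mid, Finset.mem_filter, hX, Finset.mem_filter, mem_mid]
    constructor
    · rintro ⟨k1, k2, k3⟩
      have m1 := ht_lt h1 hr ha k1 k2
      have m2 := ht_lt h1 hr k1 e1 k3
      exact ⟨⟨⟨k1, k2, k3.trans e3⟩, by omega⟩, k3⟩
    · rintro ⟨⟨⟨k1, k2, k3⟩, k4⟩, k5⟩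
      exact ⟨k1, k2, k5⟩
  have hsplit : mid r a b = X ∪ Y := by
    ext v
    rw [Finset.mem_union, hX, hY, Finset.mem_filter, Finset.mem_filter]
    constructor
    · intro h
      obtain ⟨h2, h3, h4⟩ := mem_mid.1 h
      have m1 := ht_lt h1 hr ha h2 h3
      have m2 := ht_lt h1 hr h2 hb h4
      have : ht r v = ht r a + 1 ∨ ht r v = ht r a + 2 := by omega
      rcases this with h5 | h5
      · exact Or.inl ⟨h, h5⟩
      · exact Or.inr ⟨h, h5⟩
    · rintro (⟨h, _⟩ | ⟨h, _⟩) <;> exact h
  have hdisj : Disjoint X Y := by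
    rw [Finset.disjoint_left]
    intro v hv hv'
    have := (hXm v hv).2.2.2
    have := (hYm v hv').2.2.2
    omega
  obtain ⟨_, _, _, hps⟩ := (h5 α r al be hr).2 l φ γ σ τ D
  -- the relation
  have hre : ∀ v ∈ X, ∀ p ∈ Y, v < p →
      (kap al be a v - kap al be v p) * l v + (kap al be v p - kap al be p b) * l p = 0 := by
    intro v hv p hp hvp
    obtain ⟨e1, e2, e3, e4⟩ := hXm v hv
    obtain ⟨f1, f2, f3, f4⟩ := hYm p hp
    have c1 := cc_one h1 hr ha e1 e2 (by omega)
    have c2 := cc_one h1 hr e1 f1 hvp (by omega)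
    have c3 := cc_one h1 hr f1 hb f3 (by omega)
    have s1 := hps a v e2.le c1
    have s2 := hps v p hvp.le c2
    have s3 := hps p b f3.le c3
    rw [la] at s1
    rw [lb] at s3
    linear_combination hrel - s1 - s2 - s3
  -- first the sums in terms of pairs
  have hA : ∑ v ∈ X, W v * l v = ∑ v ∈ X, ∑ p ∈ Y, if v < p then
      (kap al be v p - kap al be p b)⁻¹ * l v else 0 := by
    apply Finset.sum_congr rfl
    intro v hv
    have hvm : v ∈ mid r a b := by
      obtain ⟨e1, e2, e3, e4⟩ := hXm v hv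
      exact mem_mid.2 ⟨e1, e2, e3⟩
    rw [hW1 v hvm (hXm v hv).2.2.2, hmid1 v hv, Finset.sum_filter, Finset.sum_mul]
    apply Finset.sum_congr rfl
    intro p _
    split_ifs <;> ring
  have hB : ∑ p ∈ Y, W p * l p = ∑ v ∈ X, ∑ p ∈ Y, if v < p then
      (kap al be a v - kap al be v p)⁻¹ * l p else 0 := by
    rw [Finset.sum_comm]
    apply Finset.sum_congr rfl
    intro p hp
    have hpm : p ∈ mid r a b := by
      obtain ⟨e1, e2, e3, e4⟩ := hYm p hp
      exact mem_mid.2 ⟨e1, e2, e3⟩
    rw [hW2 p hpm (hYm p hp).2.2.2, hmid2 p hp, Finset.sum_filter, Finset.sum_mul]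
    apply Finset.sum_congr rfl
    intro v _
    split_ifs <;> ring
  -- the two exceptional sums
  have hE1 : ∀ v ∈ X, ∑ p ∈ Y, (if v < p then (if kap al be v p - kap al be p b = 0 then
      (kap al be a v - kap al be v p)⁻¹ * l p else 0) else 0) = 0 := by
    intro v hv
    obtain ⟨e1, e2, e3, e4⟩ := hXm v hv
    rw [← Finset.sum_filter, ← hmid1 v hv]
    rcases h6 α r al be hr hw v b e1 hb e3 (by omega) with ⟨_, hk, hkk, A, B, hs⟩ |
      ⟨_, p, q, hpq, hm, hk, hk0, _⟩ | ⟨_, p, hm, _, hp0⟩
    · by_cases hne : (mid r v b).Nonempty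
      · obtain ⟨p0, hp0⟩ := hne
        have hcon : ∀ p ∈ mid r v b, (if kap al be v p - kap al be p b = 0 then
            (kap al be a v - kap al be v p)⁻¹ * l p else 0) =
            (kap al be a v - kap al be v p0)⁻¹ * l p := by
          intro p hp
          rw [if_pos (by rw [hk p hp, sub_self]), hkk p hp p0 hp0]
        rw [Finset.sum_congr rfl hcon, ← Finset.mul_sum, hs l hl, lb]
        by_cases hz : kap al be a v - kap al be v p0 = 0
        · rw [hz, inv_zero, zero_mul]
        · have hp0' := hp0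
          rw [hmid1 v hv, Finset.mem_filter] at hp0'
          have hrr := hre v hv p0 hp0'.1 hp0'.2
          rw [hk p0 hp0, sub_self, zero_mul, add_zero] at hrr
          rw [← hk p0 hp0] at hrr
          have hlv : l v = 0 := by
            rcases mul_eq_zero.1 hrr with h | h
            · exact absurd h hz
            · exact h
          rw [hlv]
          ring
      · rw [Finset.not_nonempty_iff_eq_empty.1 hne, Finset.sum_empty]
    · apply Finset.sum_eq_zero
      intro x hx
      rw [hm, Finset.mem_insert, Finset.mem_singleton] at hx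
      rw [if_neg]
      rcases hx with rfl | rfl
      · intro h0
        exact hk0 (sub_eq_zero.1 h0)
      · intro h0
        rw [h0, neg_zero] at hk
        exact hk0 (sub_eq_zero.1 hk)
    · apply Finset.sum_eq_zero
      intro x hx
      rw [hm, Finset.mem_singleton] at hx
      rw [if_neg]
      rw [hx]
      exact ne_of_gt hp0
  have hE2 : ∀ p ∈ Y, ∑ v ∈ X, (if v < p then (if kap al be a v - kap al be v p = 0 then
      (kap al be v p - kap al be p b)⁻¹ * l v else 0) else 0) = 0 := by
    intro p hp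
    obtain ⟨e1, e2, e3, e4⟩ := hYm p hp
    rw [← Finset.sum_filter, ← hmid2 p hp]
    rcases h6 α r al be hr hw a p ha e1 e2 (by omega) with ⟨_, hk, hkk, A, B, hs⟩ |
      ⟨_, v, q, hpq, hm, hk, hk0, _⟩ | ⟨_, v, hm, _, hv0⟩
    · by_cases hne : (mid r a p).Nonempty
      · obtain ⟨v0, hv0⟩ := hne
        have hcon : ∀ v ∈ mid r a p, (if kap al be a v - kap al be v p = 0 then
            (kap al be v p - kap al be p b)⁻¹ * l v else 0) =
            (kap al be v0 p - kap al be p b)⁻¹ * l v := by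
          intro v hv
          rw [if_pos (by rw [hk v hv, sub_self]), ← hk v hv, ← hk v0 hv0, hkk v hv v0 hv0]
        rw [Finset.sum_congr rfl hcon, ← Finset.mul_sum, hs l hl, la]
        by_cases hz : kap al be v0 p - kap al be p b = 0
        · rw [hz, inv_zero, zero_mul]
        · have hv0' := hv0
          rw [hmid2 p hp, Finset.mem_filter] at hv0'
          have hrr := hre v0 hv0'.1 p hp hv0'.2
          rw [hk v0 hv0, sub_self, zero_mul, zero_add] at hrr
          have hlv : l p = 0 := by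
            rcases mul_eq_zero.1 hrr with h | h
            · exact absurd h hz
            · exact h
          rw [hlv]
          ring
      · rw [Finset.not_nonempty_iff_eq_empty.1 hne, Finset.sum_empty]
    · apply Finset.sum_eq_zero
      intro x hx
      rw [hm, Finset.mem_insert, Finset.mem_singleton] at hx
      rw [if_neg]
      rcases hx with rfl | rfl
      · intro h0
        exact hk0 (sub_eq_zero.1 h0)
      · intro h0
        rw [h0, neg_zero] at hk
        exact hk0 (sub_eq_zero.1 hk)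
    · apply Finset.sum_eq_zero
      intro x hx
      rw [hm, Finset.mem_singleton] at hx
      rw [if_neg]
      rw [hx]
      exact ne_of_gt hv0
  rw [hsplit, Finset.sum_union hdisj, hA, hB, ← Finset.sum_add_distrib]
  have hfin : ∀ v ∈ X, (∑ p ∈ Y, if v < p then (kap al be v p - kap al be p b)⁻¹ * l v else 0) +
      (∑ p ∈ Y, if v < p then (kap al be a v - kap al be v p)⁻¹ * l p else 0) =
      (∑ p ∈ Y, (if v < p then (if kap al be v p - kap al be p b = 0 then
      (kap al be a v - kap al be v p)⁻¹ * l p else 0) else 0)) +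
      ∑ p ∈ Y, (if v < p then (if kap al be a v - kap al be v p = 0 then
      (kap al be v p - kap al be p b)⁻¹ * l v else 0) else 0) := by
    intro v hv
    rw [← Finset.sum_add_distrib, ← Finset.sum_add_distrib]
    apply Finset.sum_congr rfl
    intro p hp
    by_cases hvp : v < p
    · rw [if_pos hvp, if_pos hvp, if_pos hvp, if_pos hvp]
      have hrr := hre v hv p hp hvp
      by_cases hd1 : kap al be a v - kap al be v p = 0
      · by_cases hd2 : kap al be v p - kap al be p b = 0
        · rw [if_pos hd1, if_pos hd2]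
          ring
        · rw [if_pos hd1, if_neg hd2, hd1, inv_zero, zero_mul]
          ring
      · by_cases hd2 : kap al be v p - kap al be p b = 0
        · rw [if_neg hd1, if_pos hd2, hd2, inv_zero, zero_mul]
          ring
        · rw [if_neg hd1, if_neg hd2]
          field_simp
          linear_combination hrr
    · rw [if_neg hvp, if_neg hvp, if_neg hvp, if_neg hvp]
  rw [Finset.sum_congr rfl hfin, Finset.sum_add_distrib]
  have z1 : ∑ v ∈ X, ∑ p ∈ Y, (if v < p then (if kap al be v p - kap al be p b = 0 then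
      (kap al be a v - kap al be v p)⁻¹ * l p else 0) else 0) = 0 := Finset.sum_eq_zero hE1
  have z2 : ∑ v ∈ X, ∑ p ∈ Y, (if v < p then (if kap al be a v - kap al be v p = 0 then
      (kap al be v p - kap al be p b)⁻¹ * l v else 0) else 0) = 0 := by
    rw [Finset.sum_comm]
    exact Finset.sum_eq_zero hE2
  rw [z1, z2, add_zero]

end MBAL

open MBAL in
theorem t_BAL (h1 : Stmt_HT) (_h2 : Stmt_BET) (h3 : Stmt_GAP) (_h4 : Stmt_DIM) (h5 : Stmt_DEC)
    (h6 : Stmt_DG) (h7 : Stmt_TW) (h8 : Stmt_REL) : Stmt_BAL := by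
  classical
  intro α _ _ r al be hr hw ρ l hl hlz
  by_cases hcard : ρ.card + 1 = Fintype.card α
  swap
  · apply Finset.sum_eq_zero
    intro v hv
    rw [Finset.mem_compl] at hv
    have : tw r al be (insert v ρ) = 0 := by
      unfold tw
      rw [if_neg]
      rintro ⟨_, h⟩
      rw [Finset.card_insert_of_notMem hv] at h
      exact hcard h
    rw [this, zero_mul]
  by_cases hch : Chn r ρ
  swap
  · apply Finset.sum_eq_zero
    intro v hv
    rw [tw_zero, zero_mul]
    intro hf
    apply hch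
    exact ⟨fun s hs => hf.1.1 s (Finset.mem_insert_of_mem hs), fun s hs t ht =>
      hf.1.2 s (Finset.mem_insert_of_mem hs) t (Finset.mem_insert_of_mem ht)⟩
  haveI : Nonempty α := by
    rw [← Fintype.card_pos_iff]
    omega
  obtain ⟨g1, _, g3, g4, g5, g6, g7, g8, g9, _⟩ := h3 α r hr ρ hch
  obtain ⟨φ, γ, σ, τ, D⟩ := (h5 α r al be hr).1 l |>.1 hl
  obtain ⟨lbot, ltop, _, _⟩ := (h5 α r al be hr).2 l φ γ σ τ D
  have lhat : ∀ s ∈ hat r ρ, l s = 0 := by
    intro s hs
    unfold hat at hs
    rw [Finset.mem_insert, Finset.mem_insert] at hs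
    rcases hs with rfl | rfl | hs
    · exact lbot
    · exact ltop
    · exact hlz s hs
  have hm2 : (miss r ρ).card = 2 := by omega
  obtain ⟨t1, t2, ht12, hmiss⟩ := Finset.card_eq_two.1 hm2
  have hmt : ∀ t ∈ miss r ρ, ∃ a b, Gp r ρ a b ∧ ht r a < t ∧ t < ht r b := by
    intro t ht'
    unfold miss at ht'
    rw [Finset.mem_filter, Finset.mem_Icc] at ht'
    exact g9 t ht'.1.1 ht'.1.2 ht'.2
  obtain ⟨a1, b1, G1, u1, u2⟩ := hmt t1 (by rw [hmiss]; simp)
  obtain ⟨a2, b2, G2, u3, u4⟩ := hmt t2 (by rw [hmiss]; simp)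
  have hlt : ∀ a b, Gp r ρ a b → ht r a < ht r b := fun a b hg =>
    ht_lt h1 hr (g1 a hg.ha) (g1 b hg.hb) hg.lt
  have hmd : ∀ a b v, Gp r ρ a b → v ∈ mid r a b → ht r a + 2 ≤ ht r b := by
    intro a b v hg hv
    obtain ⟨e1, e2, e3⟩ := mem_mid.1 hv
    have m1 := ht_lt h1 hr (g1 a hg.ha) e1 e2
    have m2 := ht_lt h1 hr e1 (g1 b hg.hb) e3
    omega
  by_cases heq : (a1, b1) = (a2, b2)
  · -- one gap with difference three
    obtain ⟨rfl, rfl⟩ := Prod.mk.inj heq
    have hb3 : ht r b1 = ht r a1 + 3 := by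
      have := g7 {(a1, b1)} (by intro p hp; rw [Finset.mem_singleton] at hp; rw [hp]; exact G1)
      rw [Finset.sum_singleton] at this
      simp only at this
      omega
    have hoth : ∀ a b, Gp r ρ a b → (a, b) ≠ (a1, b1) → ht r b = ht r a + 1 := by
      intro a b hg hne
      have := g7 {(a, b), (a1, b1)} (by
        intro p hp
        rw [Finset.mem_insert, Finset.mem_singleton] at hp
        rcases hp with hp | hp
        · rw [hp]; exact hg
        · rw [hp]; exact G1)
      rw [Finset.sum_pair hne] at this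
      simp only at this
      have := hlt a b hg
      omega
    have hrel : psi al be φ γ σ b1 - psi al be φ γ σ a1 = 0 := by
      have := h8 α r al be hr ρ hch l φ γ σ τ D hlz {(a1, b1)} (by
        intro p hp; rw [Finset.mem_singleton] at hp; rw [hp]; exact G1) (by
        intro a b hg hcc
        rw [Finset.mem_singleton]
        by_contra hne
        exact hcc (cc_one h1 hr (g1 a hg.ha) (g1 b hg.hb) hg.lt (hoth a b hg hne)))
      rw [Finset.sum_singleton] at this
      exact this
    have hsub : mid r a1 b1 ⊆ ρᶜ := by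
      intro v hv
      rw [Finset.mem_compl]
      exact (g3 a1 b1 v G1 hv).2.1
    rw [← Finset.sum_subset hsub]
    · apply triple h1 h5 h6 hr hw (g1 a1 G1.ha) (g1 b1 G1.hb) hb3 hl (lhat a1 G1.ha)
        (lhat b1 G1.hb) D hrel (W := fun v => tw r al be (insert v ρ))
      · intro v hv hvh
        obtain ⟨k1, k2, k3, k4, k5⟩ := g3 a1 b1 v G1 hv
        exact tw_sum h6 h7 hr hw k3 (by rw [Finset.card_insert_of_notMem k2]; exact hcard) k5
          (mem_mid.1 hv).1 (g1 b1 G1.hb) (by omega)
      · intro p hp hph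
        obtain ⟨k1, k2, k3, k4, k5⟩ := g3 a1 b1 p G1 hp
        exact tw_sum h6 h7 hr hw k3 (by rw [Finset.card_insert_of_notMem k2]; exact hcard) k4
          (g1 a1 G1.ha) (mem_mid.1 hp).1 (by omega)
    · intro v hv hv'
      rw [tw_zero, zero_mul]
      intro hf
      rw [Finset.mem_compl] at hv
      obtain ⟨a, b, hg, hvm⟩ := g5 v hv hf.1
      apply hv'
      by_contra hno
      have hne : (a, b) ≠ (a1, b1) := by
        intro h
        obtain ⟨rfl, rfl⟩ := Prod.mk.inj h
        exact hno hvm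
      have := hoth a b hg hne
      have := hmd a b v hg hvm
      omega
  · -- two gaps with difference two
    have hb22 : ht r b1 = ht r a1 + 2 ∧ ht r b2 = ht r a2 + 2 := by
      have := g7 {(a1, b1), (a2, b2)} (by
        intro p hp
        rw [Finset.mem_insert, Finset.mem_singleton] at hp
        rcases hp with hp | hp
        · rw [hp]; exact G1
        · rw [hp]; exact G2)
      rw [Finset.sum_pair heq] at this
      simp only at this
      omega
    obtain ⟨hb1, hb2⟩ := hb22
    have hoth : ∀ a b, Gp r ρ a b → (a, b) ≠ (a1, b1) → (a, b) ≠ (a2, b2) →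
        ht r b = ht r a + 1 := by
      intro a b hg hne hne2
      have := g7 {(a, b), (a1, b1), (a2, b2)} (by
        intro p hp
        rw [Finset.mem_insert, Finset.mem_insert, Finset.mem_singleton] at hp
        rcases hp with hp | hp | hp
        · rw [hp]; exact hg
        · rw [hp]; exact G1
        · rw [hp]; exact G2)
      rw [Finset.sum_insert (by
        rw [Finset.mem_insert, Finset.mem_singleton]
        push Not
        exact ⟨hne, hne2⟩), Finset.sum_pair heq] at this
      simp only at this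
      have := hlt a b hg
      omega
    have hrel : (psi al be φ γ σ b1 - psi al be φ γ σ a1) +
        (psi al be φ γ σ b2 - psi al be φ γ σ a2) = 0 := by
      have := h8 α r al be hr ρ hch l φ γ σ τ D hlz {(a1, b1), (a2, b2)} (by
        intro p hp
        rw [Finset.mem_insert, Finset.mem_singleton] at hp
        rcases hp with hp | hp
        · rw [hp]; exact G1
        · rw [hp]; exact G2) (by
        intro a b hg hcc
        rw [Finset.mem_insert, Finset.mem_singleton]
        by_contra hne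
        push Not at hne
        exact hcc (cc_one h1 hr (g1 a hg.ha) (g1 b hg.hb) hg.lt (hoth a b hg hne.1 hne.2)))
      rw [Finset.sum_pair heq] at this
      exact this
    have hsub : mid r a1 b1 ∪ mid r a2 b2 ⊆ ρᶜ := by
      intro v hv
      rw [Finset.mem_compl]
      rw [Finset.mem_union] at hv
      rcases hv with hv | hv
      · exact (g3 a1 b1 v G1 hv).2.1
      · exact (g3 a2 b2 v G2 hv).2.1
    have hdisj : Disjoint (mid r a1 b1) (mid r a2 b2) := by
      rw [Finset.disjoint_left]
      intro v hv hv'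
      obtain ⟨_, x1, x2⟩ := mem_mid.1 hv
      obtain ⟨_, y1, y2⟩ := mem_mid.1 hv'
      rcases g8 a1 b1 a2 b2 G1 G2 with h | h | h
      · exact heq (by rw [h.1, h.2])
      · exact lt_irrefl v ((x2.trans_le h).trans y1)
      · exact lt_irrefl v ((y2.trans_le h).trans x1)
    rw [← Finset.sum_subset hsub]
    · rw [Finset.sum_union hdisj]
      have hs1 : ∀ v ∈ mid r a1 b1, tw r al be (insert v ρ) * l v =
          (∑ p ∈ mid r a2 b2, (kap al be a2 p - kap al be p b2)⁻¹) * l v := by
        intro v hv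
        obtain ⟨k1, k2, k3, k4, k5⟩ := g3 a1 b1 v G1 hv
        rw [tw_sum h6 h7 hr hw k3 (by rw [Finset.card_insert_of_notMem k2]; exact hcard)
          (g4 a1 b1 v a2 b2 G1 hv G2 (fun h => heq h.symm)) (g1 a2 G2.ha) (g1 b2 G2.hb) hb2]
      have hs2 : ∀ v ∈ mid r a2 b2, tw r al be (insert v ρ) * l v =
          (∑ p ∈ mid r a1 b1, (kap al be a1 p - kap al be p b1)⁻¹) * l v := by
        intro v hv
        obtain ⟨k1, k2, k3, k4, k5⟩ := g3 a2 b2 v G2 hv
        rw [tw_sum h6 h7 hr hw k3 (by rw [Finset.card_insert_of_notMem k2]; exact hcard)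
          (g4 a2 b2 v a1 b1 G2 hv G1 heq) (g1 a1 G1.ha) (g1 b1 G1.hb) hb1]
      rw [Finset.sum_congr rfl hs1, Finset.sum_congr rfl hs2, ← Finset.mul_sum, ← Finset.mul_sum]
      rcases two_types h1 h5 h6 hr hw (g1 a1 G1.ha) (g1 b1 G1.hb) G1.lt hb1 hl (lhat a1 G1.ha)
        (lhat b1 G1.hb) D with ⟨w1, s1⟩ | ⟨c1, cp1, w1, s1⟩
      · rw [w1, s1]
        ring
      · rcases two_types h1 h5 h6 hr hw (g1 a2 G2.ha) (g1 b2 G2.hb) G2.lt hb2 hl (lhat a2 G2.ha)
          (lhat b2 G2.hb) D with ⟨w2, s2⟩ | ⟨c2, cp2, w2, s2⟩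
        · rw [w2, s2]
          ring
        · rw [w1, w2]
          rw [s1, s2] at hrel
          field_simp
          linear_combination hrel
    · intro v hv hv'
      rw [tw_zero, zero_mul]
      intro hf
      rw [Finset.mem_compl] at hv
      obtain ⟨a, b, hg, hvm⟩ := g5 v hv hf.1
      apply hv'
      rw [Finset.mem_union]
      by_contra hno
      push Not at hno
      have hne : (a, b) ≠ (a1, b1) := by
        intro h
        obtain ⟨rfl, rfl⟩ := Prod.mk.inj h
        exact hno.1 hvm
      have hne2 : (a, b) ≠ (a2, b2) := by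
        intro h
        obtain ⟨rfl, rfl⟩ := Prod.mk.inj h
        exact hno.2 hvm
      have := hoth a b hg hne hne2
      have := hmd a b v hg hvm
      omega

end Pool.Agent.QPR
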