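import Pool.Agent.QPR.StS

/-!
# The complex of states: existence of states between (module QPR1_BET)
-/

set_option autoImplicit false

open Finset

namespace Pool.Agent.QPR

theorem BET_cyc (h2 : Stmt_CYC) (α : Type) [Fintype α] [DecidableEq α] (r : Finset α → ℕ)
    (hr : IsRank r) (G : Finset α) (hG : IsCy r G) :
    ∀ (k : ℕ) (G' : Finset α), IsCy r G' → G ⊂ G' → nu r G' = nu r G + 1 + k →
      ∃ K, IsCy r K ∧ G ⊆ K ∧ K ⊆ G' ∧ nu r K = nu r G + 1 := by
  obtain ⟨-, -, -, -, -, -, hstep, -⟩ := h2 α r hr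
  intro k
  induction k with
  | zero =>
    intro G' hG' hs hk
    exact ⟨G', hG', hs.1, Subset.refl _, by omega⟩
  | succ k ih =>
    intro G' hG' hs hk
    obtain ⟨i, hi, -⟩ := Finset.exists_of_ssubset hs
    obtain ⟨K, hK, hGK, hKG, -, hn⟩ := hstep G G' i hG hG' hs.1 (by omega) hi
    obtain ⟨K', a1, a2, a3, a4⟩ := ih K hK hGK (by omega)
    exact ⟨K', a1, a2, a3.trans hKG.1, a4⟩

theorem t_BET (h1 : Stmt_FLA) (h2 : Stmt_CYC) (h3 : Stmt_HT) : Stmt_BET := by
  intro α _ _ r hr a b ha hb hab hht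
  obtain ⟨-, -, hclo, hmin, -⟩ := h1 α r hr
  obtain ⟨-, -, -, hnst, -⟩ := h2 α r hr
  obtain ⟨-, -, -, -, -, -, hht', -⟩ := h3 α r hr
  have hle : a ≤ b := hab.le
  obtain ⟨lF, lG, lS, lT⟩ := Pt.le_iff.1 hle
  suffices h : ∃ v, Ex0 r v ∧ a ≤ v ∧ v ≤ b ∧ ht r v = ht r a + 1 by
    obtain ⟨v, h1, h2, h3, h4⟩ := h
    refine ⟨v, h1, lt_of_le_of_ne h2 ?_, lt_of_le_of_ne h3 ?_, h4⟩
    · rintro rfl
      omega
    · rintro rfl
      omega
  by_cases hF : a.F = b.F
  · by_cases hS : a.S = b.S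
    · by_cases hG : a.G = b.G
      · exfalso
        have e1 := hht' a
        have e2 := hht' b
        rw [← hF, ← hG, ← hS] at e2
        have e3 : (if b.T = true then 1 else 0) ≤ 1 := by split_ifs <;> omega
        omega
      · have hss : a.G ⊂ b.G := lt_of_le_of_ne lG hG
        have hnu := hnst a.G b.G hb.cyc hss
        obtain ⟨K, k1, k2, k3, k4⟩ := BET_cyc h2 α r hr a.G ha.cyc (nu r b.G - nu r a.G - 1) b.G
          hb.cyc hss (by omega)
        refine ⟨⟨a.F, K, a.S, a.T⟩, ⟨ha.flat, k1, ?_, ?_, ha.TS, ha.TF⟩, ?_, ?_, ?_⟩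
        · show K ⊆ a.F
          rw [hF]
          exact k3.trans hb.GF
        · intro hne
          show a.S = true
          rw [hS]
          exact hb.GS (hne.mono k3)
        · exact Pt.le_iff.2 ⟨Subset.refl _, k2, id, id⟩
        · exact Pt.le_iff.2 ⟨lF, k3, lS, lT⟩
        · rw [hht', hht']
          show r a.F + nu r K + (if a.S = true then 1 else 0) + (if a.T = true then 1 else 0) = _
          rw [k4]
          omega
    · have hS1 : a.S = false := by
        cases hh : a.S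
        · rfl
        · exact absurd (by rw [hh, lS hh]) hS
      have hS2 : b.S = true := by
        cases hh : b.S
        · exact absurd (by rw [hh, hS1]) hS
        · rfl
      refine ⟨⟨a.F, a.G, true, a.T⟩, ⟨ha.flat, ha.cyc, ha.GF, fun _ => rfl, fun _ => rfl, ha.TF⟩,
        ?_, ?_, ?_⟩
      · exact Pt.le_iff.2 ⟨Subset.refl _, Subset.refl _, fun _ => rfl, id⟩
      · exact Pt.le_iff.2 ⟨lF, lG, fun _ => hS2, lT⟩
      · rw [hht', hht', hS1]
        simp only [if_true, Bool.false_eq_true, if_false]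
        omega
  · have hss : a.F ⊂ b.F := lt_of_le_of_ne lF hF
    obtain ⟨e, he, hea⟩ := Finset.exists_of_ssubset hss
    obtain ⟨c1, c2, c3⟩ := hclo (insert e a.F)
    have hsub : a.F ⊆ clo r (insert e a.F) := (Finset.subset_insert e a.F).trans c1
    refine ⟨⟨clo r (insert e a.F), a.G, a.S, a.T⟩, ⟨c3, ha.cyc, ha.GF.trans hsub, ha.GS, ha.TS, ?_⟩,
      ?_, ?_, ?_⟩
    · intro hT
      exfalso
      apply hea
      rw [ha.TF hT]
      exact Finset.mem_univ e
    · exact Pt.le_iff.2 ⟨hsub, Subset.refl _, id, id⟩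
    · refine Pt.le_iff.2 ⟨?_, lG, lS, lT⟩
      exact hmin (insert e a.F) b.F hb.flat (Finset.insert_subset he lF)
    · rw [hht', hht']
      show r (clo r (insert e a.F)) + nu r a.G + (if a.S = true then 1 else 0) +
        (if a.T = true then 1 else 0) = _
      rw [c2, ha.flat e hea]
      omega

end Pool.Agent.QPR
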