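import Pool.Agent.QPR.StS

/-!
# Module QPR1_CG: insertion into a critical gap
-/

set_option autoImplicit false

open Finset

namespace Pool.Agent.QPR

namespace M_CG

theorem lt_mk {α : Type} {a v : Pt α} (h1 : a.F ⊆ v.F) (h2 : a.G ⊆ v.G)
    (h3 : a.S = true → v.S = true) (h4 : a.T = true → v.T = true) (h5 : a ≠ v) : a < v :=
  lt_of_le_of_ne (Pt.le_iff.2 ⟨h1, h2, h3, h4⟩) h5

end M_CG

open M_CG in
theorem t_CG (h1 : Stmt_FLA) (h2 : Stmt_CYC) (h3 : Stmt_HT) : Stmt_CG := by
  intro α _ _ r hr a b i ha hb hab hcri hht
  obtain ⟨-, -, -, -, -, -, -, hfl, -, huniv, -⟩ := h1 α r hr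
  obtain ⟨-, -, -, -, -, -, hcy, -, hempty, -⟩ := h2 α r hr
  obtain ⟨hex, -, -, -, -, -, hform, -⟩ := h3 α r hr
  have hle := Pt.le_iff.1 hab.le
  obtain ⟨hF, hG, hS, hT⟩ := hle
  obtain ⟨a1, a2, a3, a4, a5, a6⟩ := (hex a).1 ha
  obtain ⟨b1, b2, b3, b4, b5, b6⟩ := (hex b).1 hb
  have hmem : ∀ v : Pt α, Ex0 r v → a < v → v < b → v ∈ mid r a b := by
    intro v q1 q2 q3
    unfold mid
    simp only [mem_filter, mem_univ, true_and]
    exact ⟨q1, q2, q3⟩
  have hnu : nu r (∅ : Finset α) = 0 := by
    unfold nu
    simp
  rw [hform a, hform b] at hht
  obtain ⟨hc1, hc2⟩ := hcri
  rcases Bool.eq_false_or_eq_true a.S with hSa | hSa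
  · -- the window has started at `a`
    have hia : i ∉ a.F := fun h => hc1 ⟨h, hSa⟩
    have hSb : b.S = true := hS hSa
    have hTa : a.T = false := by
      rcases Bool.eq_false_or_eq_true a.T with h | h
      · exact absurd (by rw [a6 h]; exact mem_univ _) hia
      · exact h
    rcases Bool.eq_false_or_eq_true b.T with hTb | hTb
    · by_cases hGG : a.G = b.G
      · have hr2 : r a.F + 2 ≤ r (univ : Finset α) := by
          rw [hSa, hSb, hTa, hTb, hGG, b6 hTb] at hht
          simp only [if_true, Bool.false_eq_true, if_false] at hht
          omega
        obtain ⟨F1, f1, f2, f3, f4, -⟩ := hfl a.F univ i a1 huniv (subset_univ _) hr2 hia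
        refine ⟨⟨F1, a.G, true, false⟩, hmem _ ?_ ?_ ?_, ?_⟩
        · refine (hex _).2 ⟨f1, a2, a3.trans f2.subset, fun _ => rfl, fun _ => rfl, ?_⟩
          intro h
          exact absurd h (by simp)
        · refine lt_mk f2.subset (Subset.refl _) (fun _ => rfl) ?_ ?_
          · intro h
            rw [hTa] at h
            exact absurd h (by simp)
          · intro h
            exact f2.ne (congrArg Pt.F h)
        · refine lt_mk ?_ hG (fun _ => hSb) ?_ ?_
          · rw [b6 hTb]
            exact subset_univ _
          · intro h
            exact absurd h (by simp)
          · intro h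
            have := congrArg Pt.T h
            rw [hTb] at this
            exact absurd this (by simp)
        · intro h
          exact absurd h f4
      · refine ⟨⟨univ, a.G, true, true⟩, hmem _ ?_ ?_ ?_, ?_⟩
        · exact (hex _).2 ⟨huniv, a2, subset_univ _, fun _ => rfl, fun _ => rfl, fun _ => rfl⟩
        · refine lt_mk (subset_univ _) (Subset.refl _) (fun _ => rfl) (fun _ => rfl) ?_
          intro h
          have := congrArg Pt.T h
          rw [hTa] at this
          exact absurd this (by simp)
        · refine lt_mk ?_ hG (fun _ => hSb) (fun _ => hTb) ?_
          · rw [b6 hTb]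
          · intro h
            have h' := congrArg Pt.G h
            exact hGG h'
        · intro _ _
          exact Or.inr rfl
    · have hib : i ∈ b.G := by
        rcases hc2 with h | h
        · exact h
        · rw [hTb] at h
          exact absurd h (by simp)
      rw [hSa, hSb, hTa, hTb] at hht
      simp only [if_true, Bool.false_eq_true, if_false] at hht
      by_cases hr2 : r a.F + 2 ≤ r b.F
      · obtain ⟨F1, f1, f2, f3, f4, -⟩ := hfl a.F b.F i a1 b1 hF hr2 hia
        refine ⟨⟨F1, a.G, true, false⟩, hmem _ ?_ ?_ ?_, ?_⟩
        · refine (hex _).2 ⟨f1, a2, a3.trans f2.subset, fun _ => rfl, fun _ => rfl, ?_⟩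
          intro h
          exact absurd h (by simp)
        · refine lt_mk f2.subset (Subset.refl _) (fun _ => rfl) ?_ ?_
          · intro h
            rw [hTa] at h
            exact absurd h (by simp)
          · intro h
            exact f2.ne (congrArg Pt.F h)
        · refine lt_mk f3.subset hG (fun _ => hSb) ?_ ?_
          · intro h
            exact absurd h (by simp)
          · intro h
            exact f3.ne (congrArg Pt.F h)
        · intro h
          exact absurd h f4
      · have hn2 : nu r a.G + 2 ≤ nu r b.G := by omega
        obtain ⟨K, k1, k2, k3, k4, -⟩ := hcy a.G b.G i a2 b2 hG hn2 hib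
        refine ⟨⟨b.F, K, true, false⟩, hmem _ ?_ ?_ ?_, ?_⟩
        · refine (hex _).2 ⟨b1, k1, k3.subset.trans b3, fun _ => rfl, fun _ => rfl, ?_⟩
          intro h
          exact absurd h (by simp)
        · refine lt_mk hF k2.subset (fun _ => rfl) ?_ ?_
          · intro h
            rw [hTa] at h
            exact absurd h (by simp)
          · intro h
            exact k2.ne (congrArg Pt.G h)
        · refine lt_mk (Subset.refl _) k3.subset (fun _ => hSb) ?_ ?_
          · intro h
            exact absurd h (by simp)
          · intro h
            exact k3.ne (congrArg Pt.G h)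
        · intro _ _
          exact Or.inl k4
  · -- the window has not started at `a`
    have hGa : a.G = ∅ := by
      by_contra h
      have := a4 (nonempty_iff_ne_empty.2 h)
      rw [hSa] at this
      exact absurd this (by simp)
    have hTa : a.T = false := by
      rcases Bool.eq_false_or_eq_true a.T with h | h
      · have := a5 h
        rw [hSa] at this
        exact absurd this (by simp)
      · exact h
    rcases Bool.eq_false_or_eq_true b.T with hTb | hTb
    · have hSb : b.S = true := b5 hTb
      have hFb : b.F = univ := b6 hTb
      by_cases hFa : a.F = univ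
      · have hGb : b.G ≠ ∅ := by
          intro h
          rw [hSa, hSb, hTa, hTb, hGa, hFa, hFb, h, hnu] at hht
          simp only [if_true, Bool.false_eq_true, if_false] at hht
          omega
        refine ⟨⟨univ, ∅, true, true⟩, hmem _ ?_ ?_ ?_, ?_⟩
        · exact (hex _).2 ⟨huniv, hempty, subset_univ _, fun _ => rfl, fun _ => rfl, fun _ => rfl⟩
        · refine lt_mk (subset_univ _) ?_ (fun _ => rfl) (fun _ => rfl) ?_
          · rw [hGa]
          · intro h
            have := congrArg Pt.S h
            rw [hSa] at this
            exact absurd this (by simp)
        · refine lt_mk ?_ (empty_subset _) (fun _ => hSb) (fun _ => hTb) ?_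
          · rw [hFb]
          · intro h
            exact hGb (congrArg Pt.G h).symm
        · intro _ _
          exact Or.inr rfl
      · refine ⟨⟨univ, ∅, false, false⟩, hmem _ ?_ ?_ ?_, ?_⟩
        · refine (hex _).2 ⟨huniv, hempty, subset_univ _, ?_, ?_, ?_⟩
          · intro h
            exact absurd h (by simp)
          · intro h
            exact absurd h (by simp)
          · intro h
            exact absurd h (by simp)
        · refine lt_mk (subset_univ _) ?_ ?_ ?_ ?_
          · rw [hGa]
          · intro h
            rw [hSa] at h
            exact absurd h (by simp)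
          · intro h
            rw [hTa] at h
            exact absurd h (by simp)
          · intro h
            exact hFa (congrArg Pt.F h)
        · refine lt_mk ?_ (empty_subset _) ?_ ?_ ?_
          · rw [hFb]
          · intro h
            exact absurd h (by simp)
          · intro h
            exact absurd h (by simp)
          · intro h
            have := congrArg Pt.S h
            rw [hSb] at this
            exact absurd this (by simp)
        · intro _ h
          exact absurd h (by simp)
    · have hib : i ∈ b.G := by
        rcases hc2 with h | h
        · exact h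
        · rw [hTb] at h
          exact absurd h (by simp)
      have hSb : b.S = true := b4 ⟨i, hib⟩
      by_cases hFF : a.F = b.F
      · rw [hSa, hSb, hTa, hTb, hGa, hFF, hnu] at hht
        simp only [if_true, Bool.false_eq_true, if_false] at hht
        have hn2 : nu r (∅ : Finset α) + 2 ≤ nu r b.G := by
          rw [hnu]
          omega
        obtain ⟨K, k1, k2, k3, k4, -⟩ := hcy ∅ b.G i hempty b2 (empty_subset _) hn2 hib
        refine ⟨⟨b.F, K, true, false⟩, hmem _ ?_ ?_ ?_, ?_⟩
        · refine (hex _).2 ⟨b1, k1, k3.subset.trans b3, fun _ => rfl, fun _ => rfl, ?_⟩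
          intro h
          exact absurd h (by simp)
        · refine lt_mk hF ?_ (fun _ => rfl) ?_ ?_
          · rw [hGa]
            exact empty_subset _
          · intro h
            rw [hTa] at h
            exact absurd h (by simp)
          · intro h
            have := congrArg Pt.S h
            rw [hSa] at this
            exact absurd this (by simp)
        · refine lt_mk (Subset.refl _) k3.subset (fun _ => hSb) ?_ ?_
          · intro h
            exact absurd h (by simp)
          · intro h
            exact k3.ne (congrArg Pt.G h)
        · intro _ _
          exact Or.inl k4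
      · refine ⟨⟨b.F, ∅, false, false⟩, hmem _ ?_ ?_ ?_, ?_⟩
        · refine (hex _).2 ⟨b1, hempty, empty_subset _, ?_, ?_, ?_⟩
          · intro h
            exact absurd h (by simp)
          · intro h
            exact absurd h (by simp)
          · intro h
            exact absurd h (by simp)
        · refine lt_mk hF ?_ ?_ ?_ ?_
          · rw [hGa]
          · intro h
            rw [hSa] at h
            exact absurd h (by simp)
          · intro h
            rw [hTa] at h
            exact absurd h (by simp)
          · intro h
            have h' := congrArg Pt.F h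
            exact hFF h'
        · refine lt_mk (Subset.refl _) (empty_subset _) ?_ ?_ ?_
          · intro h
            exact absurd h (by simp)
          · intro h
            exact absurd h (by simp)
          · intro h
            have := congrArg Pt.S h
            rw [hSb] at this
            exact absurd this (by simp)
        · intro _ h
          exact absurd h (by simp)

end Pool.Agent.QPR
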