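import Pool.Agent.QPR.StS

/-!
# Cyclic sets (helper54), statement `Stmt_CYC`

Everything by duality from the facts on flats: `cyp r A = (clo (dual r) Aᶜ)ᶜ`.
-/

set_option autoImplicit false

open Finset

namespace Pool.Agent.QPR

theorem t_CYC (h1 : Stmt_FLA) (h2 : Stmt_DU1) : Stmt_CYC := by
  intro α _ _ r hr
  obtain ⟨hd, -, dF, -, dN, -, -, -, -, -, -⟩ := h2 α r hr
  obtain ⟨-, -, f3, f4, f5, f6, -, f8, f9, -, -, -, -, -⟩ := h1 α (dual r) hd
  have hcard : ∀ A : Finset α, r A ≤ A.card := (h1 α r hr).2.1
  -- the rank of the erased set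
  have her : ∀ (A : Finset α) (e : α), e ∈ A → r (A.erase e) ≤ r A ∧ r A ≤ r (A.erase e) + 1 := by
    intro A e he
    refine ⟨hr.mono_subset (Finset.erase_subset e A), ?_⟩
    have := hr.le_succ (A.erase e) e
    rwa [Finset.insert_erase he] at this
  have hnu : ∀ (A : Finset α) (e : α), e ∈ A →
      (nu r (A.erase e) = nu r A ↔ r (A.erase e) ≠ r A) := by
    intro A e he
    obtain ⟨a1, a2⟩ := her A e he
    have c1 := hcard (A.erase e)
    have c2 := hcard A
    have c3 := Finset.card_erase_add_one he
    unfold nu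
    constructor
    · intro h
      omega
    · intro h
      omega
  have hclo : ∀ A : Finset α, clo (dual r) Aᶜ = (cyp r A)ᶜ := by
    intro A
    ext e
    simp only [clo, cyp, Finset.mem_filter, Finset.mem_univ, true_and, Finset.mem_compl]
    by_cases he : e ∈ A
    · have e1 : insert e Aᶜ = (A.erase e)ᶜ := by
        ext x
        simp only [Finset.mem_insert, Finset.mem_compl, Finset.mem_erase]
        tauto
      rw [e1]
      have d1 := dN (A.erase e)
      have d2 := dN A
      have d3 := hnu A e he
      constructor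
      · intro h
        have : nu r (A.erase e) = nu r A := by omega
        have := d3.1 this
        tauto
      · intro h
        have : r (A.erase e) ≠ r A := by tauto
        have := d3.2 this
        omega
    · have e1 : insert e Aᶜ = Aᶜ := Finset.insert_eq_of_mem (by simpa using he)
      rw [e1]
      tauto
  have fl : ∀ G : Finset α, IsCy r G → IsFl (dual r) Gᶜ := by
    intro G hG
    rw [dF, compl_compl]
    exact hG
  have cy : ∀ F : Finset α, IsFl (dual r) F → IsCy r Fᶜ := fun F hF => (dF F).1 hF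
  have p1 : ∀ A, cyp r A ⊆ A ∧ nu r (cyp r A) = nu r A ∧ IsCy r (cyp r A) := by
    intro A
    refine ⟨Finset.filter_subset _ _, ?_, ?_⟩
    · have g1 := (f3 Aᶜ).2.1
      rw [hclo A] at g1
      have g2 := dN A
      have g3 := dN (cyp r A)
      omega
    · have g1 := (f3 Aᶜ).2.2
      rw [hclo A] at g1
      have := cy _ g1
      rwa [compl_compl] at this
  have p2 : ∀ A G, IsCy r G → G ⊆ A → G ⊆ cyp r A := by
    intro A G hG hGA
    have g1 := f4 Aᶜ Gᶜ (fl G hG) (Finset.compl_subset_compl.2 hGA)
    rw [hclo A] at g1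
    exact Finset.compl_subset_compl.1 g1
  have ptop : (top r).G = cyp r (univ : Finset α) := by
    ext e
    have e1 : e ∈ (top r).G ↔ ¬ Clo r e := by simp [top]
    have e2 : e ∈ cyp r (univ : Finset α) ↔ r (univ.erase e) = r univ := by simp [cyp]
    rw [e1, e2]
    unfold Clo
    exact not_not
  refine ⟨p1, p2, ?_, ?_, ?_, ?_, ?_, ?_, ?_, ?_, ?_, ?_, ?_⟩
  · -- monotone
    intro A B hAB
    have g1 := hd.mono_subset (Finset.compl_subset_compl.2 hAB)
    have g2 := dN A
    have g3 := dN B
    omega
  · -- strict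
    intro G G' hG' hGG
    have g1 := f5 G'ᶜ Gᶜ (fl G' hG') (by
      rw [Finset.ssubset_iff_subset_ne] at hGG ⊢
      refine ⟨Finset.compl_subset_compl.2 hGG.1, fun h => hGG.2 ?_⟩
      exact (compl_injective h).symm)
    have g2 := dN G
    have g3 := dN G'
    omega
  · -- union
    intro G G' hG hG'
    have g1 := f6 Gᶜ G'ᶜ (fl G hG) (fl G' hG')
    have := cy _ g1
    rwa [Finset.compl_inter, compl_compl, compl_compl] at this
  · -- erase
    intro G e hG he
    rw [(p1 (G.erase e)).2.1]
    have g1 := hG e he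
    have g2 := hcard (G.erase e)
    have g3 := Finset.card_erase_add_one he
    unfold nu
    omega
  · -- between
    intro G G' i hG hG' hGG hn hi
    have g2 := dN G
    have g3 := dN G'
    obtain ⟨F1, a1, a2, a3, a4, a5⟩ := f8 G'ᶜ Gᶜ i (fl G' hG') (fl G hG)
      (Finset.compl_subset_compl.2 hGG) (by omega) (by simpa using hi)
    have g4 := dN F1ᶜ
    rw [compl_compl] at g4
    refine ⟨F1ᶜ, cy F1 a1, ?_, ?_, by simpa using a4, by omega⟩
    · rw [Finset.ssubset_iff_subset_ne] at a3 ⊢
      refine ⟨?_, fun h => a3.2 ?_⟩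
      · have := Finset.compl_subset_compl.2 a3.1
        rwa [compl_compl] at this
      · rw [h, compl_compl]
    · rw [Finset.ssubset_iff_subset_ne] at a2 ⊢
      refine ⟨?_, fun h => a2.2 ?_⟩
      · have := Finset.compl_subset_compl.2 a2.1
        rwa [compl_compl] at this
      · rw [← h, compl_compl]
  · -- two coatoms
    intro G' G1 G2 hG' hG1 hG2 s1 s2 n1 n2 hne
    have g0 := dN G'
    have g1 := dN G1
    have g2 := dN G2
    obtain ⟨a1, a2⟩ := f9 G'ᶜ G1ᶜ G2ᶜ (fl G' hG') (fl G1 hG1) (fl G2 hG2)
      (Finset.compl_subset_compl.2 s1) (Finset.compl_subset_compl.2 s2) (by omega) (by omega)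
      (fun h => hne (compl_injective h))
    have g3 := dN (G1 ∩ G2)
    rw [Finset.compl_inter] at g3
    refine ⟨?_, by omega⟩
    rw [← Finset.compl_union] at a1
    exact compl_injective a1
  · intro e he
    simp at he
  · rw [ptop]
    exact (p1 univ).2.2
  · rw [ptop]
    exact (p1 univ).2.1
  · intro G hG
    rw [ptop]
    exact p2 univ G hG (Finset.subset_univ _)
  · intro e
    simp [top]

end Pool.Agent.QPR
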