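import Pool.Agent.QPR.StS

/-!
# Coordinates of the linear functions (QPR1, DEC)
-/

set_option autoImplicit false

open Finset

namespace Pool.Agent.QPR

section

variable {α : Type} [Fintype α] [DecidableEq α]

theorem dec_vv (r : Finset α → ℕ) (al be : ℝ) (i : α) (hi : ¬ Loo r i) :
    Dec r al be (vv al i) (fun j => if j = i then (-1 : ℝ) else 0) (fun _ => 0) (1 - al) al where
  val := by
    intro s
    have h1 : ∑ j ∈ s.F, (if j = i then (-1 : ℝ) else 0) = if i ∈ s.F then (-1 : ℝ) else 0 := by
      rw [Finset.sum_ite_eq']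
    rw [h1, Finset.sum_const_zero]
    unfold vv
    by_cases h : i ∈ s.F
    · rw [if_pos h, if_pos h]
      ring
    · rw [if_neg h, if_neg h]
      ring
  lo := by
    intro j hj
    by_cases h : j = i
    · subst h
      exact absurd hj hi
    · simp [h]
  co := fun _ _ => rfl
  tot := by
    rw [Finset.sum_const_zero, Finset.sum_ite_eq' univ i, if_pos (Finset.mem_univ i)]
    ring
  pot := by
    rw [Finset.sum_const_zero, Finset.sum_ite_eq' univ i, if_pos (Finset.mem_univ i)]
    ring

theorem dec_zz (r : Finset α → ℕ) (al be : ℝ) (i : α) (hi : ¬ Clo r i) :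
    Dec r al be (zz be i) (fun _ => 0) (fun j => if j = i then (1 : ℝ) else 0) (-be)
      (-(1 - be)) where
  val := by
    intro s
    have h1 : ∑ j ∈ s.G, (if j = i then (1 : ℝ) else 0) = if i ∈ s.G then (1 : ℝ) else 0 := by
      rw [Finset.sum_ite_eq']
    rw [h1, Finset.sum_const_zero]
    unfold zz
    by_cases hS : s.S = true <;> by_cases hT : s.T = true
    · rw [if_pos hS, if_pos hS, if_pos hT, if_pos hT]
      ring
    · rw [if_pos hS, if_pos hS, if_neg hT, if_neg hT]
      ring
    · rw [if_neg hS, if_neg hS, if_pos hT, if_pos hT]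
      ring
    · rw [if_neg hS, if_neg hS, if_neg hT, if_neg hT]
      ring
  lo := fun _ _ => rfl
  co := by
    intro j hj
    by_cases h : j = i
    · subst h
      exact absurd hj hi
    · simp [h]
  tot := by
    rw [Finset.sum_const_zero, Finset.sum_ite_eq' univ i, if_pos (Finset.mem_univ i)]
    ring
  pot := by
    rw [Finset.sum_const_zero, Finset.sum_ite_eq' univ i, if_pos (Finset.mem_univ i)]
    ring

theorem dec_zero (r : Finset α → ℕ) (al be : ℝ) :
    Dec r al be (0 : Pt α → ℝ) (fun _ => 0) (fun _ => 0) 0 0 where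
  val := by
    intro s
    simp
  lo := fun _ _ => rfl
  co := fun _ _ => rfl
  tot := by simp
  pot := by simp

theorem dec_add {r : Finset α → ℕ} {al be : ℝ} {l l' : Pt α → ℝ} {φ γ φ' γ' : α → ℝ}
    {σ τ σ' τ' : ℝ} (h : Dec r al be l φ γ σ τ) (h' : Dec r al be l' φ' γ' σ' τ') :
    Dec r al be (l + l') (fun i => φ i + φ' i) (fun i => γ i + γ' i) (σ + σ') (τ + τ') where
  val := by
    intro s
    rw [Pi.add_apply, h.val s, h'.val s, Finset.sum_add_distrib, Finset.sum_add_distrib]
    by_cases hS : s.S = true <;> by_cases hT : s.T = true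
    · simp only [if_pos hS, if_pos hT]
      ring
    · simp only [if_pos hS, if_neg hT]
      ring
    · simp only [if_neg hS, if_pos hT]
      ring
    · simp only [if_neg hS, if_neg hT]
      ring
  lo := fun i hi => by rw [h.lo i hi, h'.lo i hi, add_zero]
  co := fun i hi => by rw [h.co i hi, h'.co i hi, add_zero]
  tot := by
    rw [Finset.sum_add_distrib, Finset.sum_add_distrib]
    linarith [h.tot, h'.tot]
  pot := by
    rw [Finset.sum_add_distrib, Finset.sum_add_distrib]
    linarith [h.pot, h'.pot]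

theorem dec_smul {r : Finset α → ℕ} {al be : ℝ} {l : Pt α → ℝ} {φ γ : α → ℝ}
    {σ τ : ℝ} (c : ℝ) (h : Dec r al be l φ γ σ τ) :
    Dec r al be (c • l) (fun i => c * φ i) (fun i => c * γ i) (c * σ) (c * τ) where
  val := by
    intro s
    rw [Pi.smul_apply, smul_eq_mul, h.val s, ← Finset.mul_sum, ← Finset.mul_sum]
    by_cases hS : s.S = true <;> by_cases hT : s.T = true
    · simp only [if_pos hS, if_pos hT]
      ring
    · simp only [if_pos hS, if_neg hT]
      ring
    · simp only [if_neg hS, if_pos hT]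
      ring
    · simp only [if_neg hS, if_neg hT]
      ring
  lo := fun i hi => by rw [h.lo i hi, mul_zero]
  co := fun i hi => by rw [h.co i hi, mul_zero]
  tot := by
    rw [← Finset.mul_sum, ← Finset.mul_sum]
    have := h.tot
    calc c * ∑ i, φ i + c * ∑ i, γ i + c * σ + c * τ
        = c * (∑ i, φ i + ∑ i, γ i + σ + τ) := by ring
      _ = 0 := by rw [this, mul_zero]
  pot := by
    rw [← Finset.mul_sum, ← Finset.mul_sum]
    have := h.pot
    calc (1 - al) * (c * ∑ i, φ i) + be * (c * ∑ i, γ i) + c * σ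
        = c * ((1 - al) * ∑ i, φ i + be * ∑ i, γ i + σ) := by ring
      _ = 0 := by rw [this, mul_zero]

theorem dec_of_mem {r : Finset α → ℕ} {al be : ℝ} {l : Pt α → ℝ} (hl : l ∈ Lin r al be) :
    ∃ φ γ σ τ, Dec r al be l φ γ σ τ := by
  unfold Lin at hl
  induction hl using Submodule.span_induction with
  | mem x hx =>
    rcases hx with ⟨i, hi, rfl⟩ | ⟨i, hi, rfl⟩
    · exact ⟨_, _, _, _, dec_vv r al be i hi⟩
    · exact ⟨_, _, _, _, dec_zz r al be i hi⟩
  | zero => exact ⟨_, _, _, _, dec_zero r al be⟩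
  | add x y _ _ hx hy =>
    obtain ⟨φ, γ, σ, τ, h⟩ := hx
    obtain ⟨φ', γ', σ', τ', h'⟩ := hy
    exact ⟨_, _, _, _, dec_add h h'⟩
  | smul c x _ hx =>
    obtain ⟨φ, γ, σ, τ, h⟩ := hx
    exact ⟨_, _, _, _, dec_smul c h⟩

theorem mem_of_dec {r : Finset α → ℕ} {al be : ℝ} {l : Pt α → ℝ} {φ γ : α → ℝ} {σ τ : ℝ}
    (h : Dec r al be l φ γ σ τ) : l ∈ Lin r al be := by
  have e : l = ∑ i, ((-φ i) • vv al i) + ∑ i, (γ i • zz be i) := by
    funext s
    rw [Pi.add_apply, Finset.sum_apply, Finset.sum_apply, h.val s]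
    have h1 : ∀ i, ((-φ i) • vv al i) s = (if i ∈ s.F then φ i else 0) +
        (if s.S = true then 1 - al else 0) * (-φ i) + (if s.T = true then al else 0) * (-φ i) := by
      intro i
      rw [Pi.smul_apply, smul_eq_mul]
      unfold vv
      by_cases hF : i ∈ s.F
      · rw [if_pos hF, if_pos hF]
        ring
      · rw [if_neg hF, if_neg hF]
        ring
    have h2 : ∀ i, (γ i • zz be i) s = (if i ∈ s.G then γ i else 0) -
        (if s.S = true then be else 0) * γ i - (if s.T = true then 1 - be else 0) * γ i := by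
      intro i
      rw [Pi.smul_apply, smul_eq_mul]
      unfold zz
      by_cases hG : i ∈ s.G
      · rw [if_pos hG, if_pos hG]
        ring
      · rw [if_neg hG, if_neg hG]
        ring
    have f1 : ∑ i, (if i ∈ s.F then φ i else 0) = ∑ i ∈ s.F, φ i := by
      rw [Finset.sum_ite_mem, Finset.univ_inter]
    have f2 : ∑ i, (if i ∈ s.G then γ i else 0) = ∑ i ∈ s.G, γ i := by
      rw [Finset.sum_ite_mem, Finset.univ_inter]
    rw [Finset.sum_congr rfl (fun i _ => h1 i), Finset.sum_congr rfl (fun i _ => h2 i),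
      Finset.sum_add_distrib, Finset.sum_add_distrib, Finset.sum_sub_distrib,
      Finset.sum_sub_distrib, f1, f2, ← Finset.mul_sum, ← Finset.mul_sum, ← Finset.mul_sum,
      ← Finset.mul_sum, Finset.sum_neg_distrib]
    have ht := h.tot
    have hp := h.pot
    have hσ : σ = -((1 - al) * ∑ i, φ i) - be * ∑ i, γ i := by linarith
    have hτ : τ = -(al * ∑ i, φ i) - (1 - be) * ∑ i, γ i := by
      rw [hσ] at ht
      linarith
    rw [hσ, hτ]
    by_cases hS : s.S = true <;> by_cases hT : s.T = true
    · simp only [if_pos hS, if_pos hT]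
      ring
    · simp only [if_pos hS, if_neg hT]
      ring
    · simp only [if_neg hS, if_pos hT]
      ring
    · simp only [if_neg hS, if_neg hT]
      ring
  rw [e]
  refine Submodule.add_mem _ (Submodule.sum_mem _ ?_) (Submodule.sum_mem _ ?_)
  · intro i _
    by_cases hi : Loo r i
    · rw [h.lo i hi, neg_zero, zero_smul]
      exact Submodule.zero_mem _
    · exact Submodule.smul_mem _ _ (Submodule.subset_span (Or.inl ⟨i, hi, rfl⟩))
  · intro i _
    by_cases hi : Clo r i
    · rw [h.co i hi, zero_smul]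
      exact Submodule.zero_mem _
    · exact Submodule.smul_mem _ _ (Submodule.subset_span (Or.inr ⟨i, hi, rfl⟩))

theorem dec_bot_F {r : Finset α → ℕ} {al be : ℝ} {l : Pt α → ℝ} {φ γ : α → ℝ} {σ τ : ℝ}
    (h : Dec r al be l φ γ σ τ) : ∑ i ∈ (bot r).F, φ i = 0 := by
  classical
  apply Finset.sum_eq_zero
  intro i hi
  unfold bot at hi
  exact h.lo i (Finset.mem_filter.1 hi).2

theorem dec_top_G {r : Finset α → ℕ} {al be : ℝ} {l : Pt α → ℝ} {φ γ : α → ℝ} {σ τ : ℝ}
    (h : Dec r al be l φ γ σ τ) : ∑ i ∈ (top r).G, γ i = ∑ i, γ i := by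
  classical
  apply Finset.sum_subset (Finset.subset_univ _)
  intro i _ hi
  unfold top at hi
  apply h.co i
  by_contra hc
  exact hi (Finset.mem_filter.2 ⟨Finset.mem_univ i, hc⟩)

theorem dec_bot {r : Finset α → ℕ} {al be : ℝ} {l : Pt α → ℝ} {φ γ : α → ℝ} {σ τ : ℝ}
    (h : Dec r al be l φ γ σ τ) : l (bot r) = 0 := by
  rw [h.val, dec_bot_F h]
  have hG : (bot r).G = ∅ := rfl
  have hS : ¬ ((bot r).S = true) := by
    show ¬ (false = true)
    decide
  have hT : ¬ ((bot r).T = true) := by
    show ¬ (false = true)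
    decide
  rw [hG, Finset.sum_empty, if_neg hS, if_neg hT]
  ring

theorem dec_top {r : Finset α → ℕ} {al be : ℝ} {l : Pt α → ℝ} {φ γ : α → ℝ} {σ τ : ℝ}
    (h : Dec r al be l φ γ σ τ) : l (top r) = 0 := by
  rw [h.val, dec_top_G h]
  have hF : (top r).F = univ := rfl
  have hS : (top r).S = true := rfl
  have hT : (top r).T = true := rfl
  rw [hF, if_pos hS, if_pos hT]
  exact h.tot

theorem psi_bot {r : Finset α → ℕ} {al be : ℝ} {l : Pt α → ℝ} {φ γ : α → ℝ} {σ τ : ℝ}
    (h : Dec r al be l φ γ σ τ) : psi al be φ γ σ (bot r) = 0 := by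
  unfold psi
  rw [dec_bot_F h]
  have hG : (bot r).G = ∅ := rfl
  have hS : ¬ ((bot r).S = true) := by
    show ¬ (false = true)
    decide
  rw [hG, Finset.sum_empty, if_neg hS]
  ring

theorem psi_top {r : Finset α → ℕ} {al be : ℝ} {l : Pt α → ℝ} {φ γ : α → ℝ} {σ τ : ℝ}
    (h : Dec r al be l φ γ σ τ) : psi al be φ γ σ (top r) = 0 := by
  unfold psi
  rw [dec_top_G h]
  have hF : (top r).F = univ := rfl
  have hS : (top r).S = true := rfl
  rw [hF, if_pos hS]
  exact h.pot

theorem psi_step {r : Finset α → ℕ} {al be : ℝ} {l : Pt α → ℝ} {φ γ : α → ℝ} {σ τ : ℝ}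
    (h : Dec r al be l φ γ σ τ) (a b : Pt α) (hn : ncc a b = 1) :
    psi al be φ γ σ b - psi al be φ γ σ a = kap al be a b * (l b - l a) := by
  unfold ncc at hn
  rw [h.val a, h.val b]
  unfold psi kap
  by_cases hS : a.S = b.S
  · rw [if_neg (not_not.2 hS), hS]
    by_cases hF : a.F = b.F
    · rw [if_neg (not_not.2 hF), hF]
      by_cases hG : a.G = b.G
      · rw [if_neg (not_not.2 hG), hG]
        ring
      · rw [if_pos hG]
        have hT : a.T = b.T := by
          by_contra hT
          rw [if_pos hF, if_neg hG, if_pos hS, if_neg hT] at hn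
          omega
        rw [hT]
        ring
    · rw [if_pos hF]
      have hG : a.G = b.G := by
        by_contra hG
        rw [if_neg hF, if_neg hG, if_pos hS] at hn
        omega
      have hT : a.T = b.T := by
        by_contra hT
        rw [if_neg hF, if_pos hG, if_pos hS, if_neg hT] at hn
        omega
      rw [hG, hT]
      ring
  · rw [if_pos hS]
    have hF : a.F = b.F := by
      by_contra hF
      rw [if_neg hF, if_neg hS] at hn
      omega
    have hG : a.G = b.G := by
      by_contra hG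
      rw [if_pos hF, if_neg hG, if_neg hS] at hn
      omega
    have hT : a.T = b.T := by
      by_contra hT
      rw [if_pos hF, if_pos hG, if_neg hS, if_neg hT] at hn
      omega
    rw [hF, hG, hT]
    ring

end

/-- the module -/
theorem t_DEC : Stmt_DEC := by
  intro α _ _ r al be _
  refine ⟨fun l => ⟨fun hl => dec_of_mem hl, ?_⟩, ?_⟩
  · rintro ⟨φ, γ, σ, τ, h⟩
    exact mem_of_dec h
  · intro l φ γ σ τ h
    refine ⟨dec_bot h, dec_top h, ?_, ?_⟩
    · rw [psi_bot h, psi_top h]
    · intro a b _ hn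
      exact psi_step h a b hn

end Pool.Agent.QPR
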