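import Pool.Agent.QPR.StS

/-!
# The complex of states, module DG (double gaps)
-/

set_option autoImplicit false

open Finset

namespace Pool.Agent.QPR

namespace M_DG

variable {α : Type} [Fintype α] [DecidableEq α] {r : Finset α → ℕ}

theorem mem_mid {a b p : Pt α} : p ∈ mid r a b ↔ Ex0 r p ∧ a < p ∧ p < b := by
  simp [mid]

omit [Fintype α] [DecidableEq α] in
theorem lt_iff {a b : Pt α} : a < b ↔ (a.F ⊆ b.F ∧ a.G ⊆ b.G ∧ (a.S = true → b.S = true) ∧
    (a.T = true → b.T = true)) ∧ a ≠ b := by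
  rw [lt_iff_le_and_ne, Pt.le_iff]

/-- the facts on flats and cyclic sets which are used -/
structure Fa (r : Finset α → ℕ) : Prop where
  fl : ∀ F F', IsFl r F → F ⊂ F' → r F < r F'
  cl : ∀ A, A ⊆ clo r A ∧ r (clo r A) = r A ∧ IsFl r (clo r A)
  clF : ∀ A F, IsFl r F → A ⊆ F → clo r A ⊆ F
  int : ∀ F F1 F2, IsFl r F → IsFl r F1 → IsFl r F2 → F ⊆ F1 → F ⊆ F2 → r F1 = r F + 1 →
    r F2 = r F + 1 → F1 ≠ F2 → F1 ∩ F2 = F
  cy : ∀ G G', IsCy r G' → G ⊂ G' → nu r G < nu r G'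
  cp : ∀ A, cyp r A ⊆ A ∧ nu r (cyp r A) = nu r A ∧ IsCy r (cyp r A)
  cpG : ∀ A G, IsCy r G → G ⊆ A → G ⊆ cyp r A
  cpe : ∀ G e, IsCy r G → e ∈ G → nu r (cyp r (G.erase e)) + 1 = nu r G
  uni : ∀ G' G1 G2, IsCy r G' → IsCy r G1 → IsCy r G2 → G1 ⊆ G' → G2 ⊆ G' →
    nu r G1 + 1 = nu r G' → nu r G2 + 1 = nu r G' → G1 ≠ G2 → G1 ∪ G2 = G'
  ht : ∀ s, ht r s = r s.F + nu r s.G + (if s.S = true then 1 else 0) +
    (if s.T = true then 1 else 0)

theorem fa (h1 : Stmt_FLA) (h2 : Stmt_CYC) (h3 : Stmt_HT) (hr : IsRank r) : Fa r := by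
  obtain ⟨-, -, a1, a2, a3, -, -, -, a4, -, -, -, -, -⟩ := h1 α r hr
  obtain ⟨b1, b2, -, b3, -, b4, -, b5, -, -, -, -, -⟩ := h2 α r hr
  obtain ⟨-, -, -, -, -, -, c1, -, -, -, -⟩ := h3 α r hr
  exact ⟨a3, a1, a2, fun F F1 F2 x1 x2 x3 x4 x5 x6 x7 x8 => (a4 F F1 F2 x1 x2 x3 x4 x5 x6 x7 x8).1,
    b3, b1, b2, b4, fun G' G1 G2 x1 x2 x3 x4 x5 x6 x7 x8 =>
      (b5 G' G1 G2 x1 x2 x3 x4 x5 x6 x7 x8).1, c1⟩

theorem fl_le (h : Fa r) {F F' : Finset α} (hF : IsFl r F) (hs : F ⊆ F') : r F ≤ r F' := by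
  rcases hs.eq_or_ssubset with e | e
  · rw [e]
  · exact (h.fl F F' hF e).le

theorem cy_le (h : Fa r) {G G' : Finset α} (hG : IsCy r G') (hs : G ⊆ G') : nu r G ≤ nu r G' := by
  rcases hs.eq_or_ssubset with e | e
  · rw [e]
  · exact (h.cy G G' hG e).le

theorem fl_btw (h : Fa r) {F F1 F' : Finset α} (hF : IsFl r F) (h1 : IsFl r F1)
    (hs : F ⊆ F1) (hs' : F1 ⊆ F') (he : r F' = r F + 1) : F1 = F ∨ F1 = F' := by
  rcases hs.eq_or_ssubset with e | e
  · exact Or.inl e.symm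
  rcases hs'.eq_or_ssubset with e' | e'
  · exact Or.inr e'
  have := h.fl F F1 hF e
  have := h.fl F1 F' h1 e'
  omega

theorem cy_btw (h : Fa r) {G G1 G' : Finset α} (h1 : IsCy r G1) (hG : IsCy r G')
    (hs : G ⊆ G1) (hs' : G1 ⊆ G') (he : nu r G' = nu r G + 1) : G1 = G ∨ G1 = G' := by
  rcases hs.eq_or_ssubset with e | e
  · exact Or.inl e.symm
  rcases hs'.eq_or_ssubset with e' | e'
  · exact Or.inr e'
  have := h.cy G G1 h1 e
  have := h.cy G1 G' hG e'
  omega

/-- partition of `F' \ F` into the differences `F1 \ F` -/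
theorem part_F (h : Fa r) {F F' : Finset α} (hF : IsFl r F) (hF' : IsFl r F')
    (hr2 : r F' = r F + 2) (M : Finset (Pt α)) (G : Finset α) (S T : Bool)
    (hM : ∀ p, p ∈ M ↔ ∃ F1, p = ⟨F1, G, S, T⟩ ∧ IsFl r F1 ∧ F ⊂ F1 ∧ F1 ⊂ F')
    (hss : F ⊆ F') (φ : α → ℝ) :
    ∑ p ∈ M, ∑ i ∈ p.F, φ i = ((M.card : ℝ) - 1) * ∑ i ∈ F, φ i + ∑ i ∈ F', φ i := by
  have hrk : ∀ F1, IsFl r F1 → F ⊂ F1 → F1 ⊂ F' → r F1 = r F + 1 := by
    intro F1 k1 k2 k3
    have := h.fl F F1 hF k2
    have := h.fl F1 F' k1 k3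
    omega
  have e1 : ∀ p ∈ M, ∑ i ∈ p.F, φ i = ∑ i ∈ F, φ i + ∑ i ∈ p.F \ F, φ i := by
    intro p hp
    obtain ⟨F1, rfl, -, k, -⟩ := (hM p).1 hp
    have := Finset.sum_sdiff k.1 (f := φ)
    simp only
    linarith
  have e2 : ∑ p ∈ M, ∑ i ∈ p.F \ F, φ i = ∑ i ∈ F' \ F, φ i := by
    rw [← Finset.sum_biUnion]
    · congr 1
      ext i
      simp only [Finset.mem_biUnion, Finset.mem_sdiff]
      constructor
      · rintro ⟨p, hp, hi, hi'⟩
        obtain ⟨F1, rfl, -, -, k⟩ := (hM p).1 hp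
        exact ⟨k.1 hi, hi'⟩
      · rintro ⟨hi, hi'⟩
        obtain ⟨k1, k2, k3⟩ := h.cl (insert i F)
        have k4 : r (insert i F) = r F + 1 := hF i hi'
        have k5 : F ⊂ clo r (insert i F) := by
          refine Finset.ssubset_iff_subset_ne.2 ⟨(Finset.subset_insert i F).trans k1, ?_⟩
          intro he
          apply hi'
          rw [he]
          exact k1 (Finset.mem_insert_self i F)
        have k6 : clo r (insert i F) ⊂ F' := by
          refine Finset.ssubset_iff_subset_ne.2 ⟨h.clF _ _ hF' (Finset.insert_subset hi hss), ?_⟩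
          intro he
          rw [he] at k2
          omega
        exact ⟨⟨clo r (insert i F), G, S, T⟩, (hM _).2 ⟨_, rfl, k3, k5, k6⟩,
          k1 (Finset.mem_insert_self i F), hi'⟩
    · intro p hp q hq hpq
      obtain ⟨F1, rfl, k1, k2, k3⟩ := (hM p).1 hp
      obtain ⟨F2, rfl, k4, k5, k6⟩ := (hM q).1 hq
      have hne : F1 ≠ F2 := by
        rintro rfl
        exact hpq rfl
      have hi := h.int F F1 F2 hF k1 k4 k2.1 k5.1 (hrk F1 k1 k2 k3) (hrk F2 k4 k5 k6) hne
      rw [Function.onFun, Finset.disjoint_left]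
      intro i hi1 hi2
      rw [Finset.mem_sdiff] at hi1 hi2
      apply hi1.2
      rw [← hi]
      exact Finset.mem_inter.2 ⟨hi1.1, hi2.1⟩
  have e3 := Finset.sum_sdiff hss (f := φ)
  rw [Finset.sum_congr rfl e1, Finset.sum_add_distrib, e2, Finset.sum_const, nsmul_eq_mul]
  linarith

/-- partition of `G' \ G` into the differences `G' \ G1` -/
theorem part_G (h : Fa r) {G G' : Finset α} (hG : IsCy r G) (hG' : IsCy r G')
    (hr2 : nu r G' = nu r G + 2) (M : Finset (Pt α)) (F : Finset α) (S T : Bool)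
    (hM : ∀ p, p ∈ M ↔ ∃ G1, p = ⟨F, G1, S, T⟩ ∧ IsCy r G1 ∧ G ⊂ G1 ∧ G1 ⊂ G')
    (hss : G ⊆ G') (φ : α → ℝ) :
    ∑ p ∈ M, ∑ i ∈ p.G, φ i = ∑ i ∈ G, φ i + ((M.card : ℝ) - 1) * ∑ i ∈ G', φ i := by
  have hrk : ∀ G1, IsCy r G1 → G ⊂ G1 → G1 ⊂ G' → nu r G1 + 1 = nu r G' := by
    intro G1 k1 k2 k3
    have := h.cy G G1 k1 k2
    have := h.cy G1 G' hG' k3
    omega
  have e1 : ∀ p ∈ M, ∑ i ∈ p.G, φ i = ∑ i ∈ G', φ i - ∑ i ∈ G' \ p.G, φ i := by
    intro p hp
    obtain ⟨G1, rfl, -, -, k⟩ := (hM p).1 hp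
    have := Finset.sum_sdiff k.1 (f := φ)
    simp only
    linarith
  have e2 : ∑ p ∈ M, ∑ i ∈ G' \ p.G, φ i = ∑ i ∈ G' \ G, φ i := by
    rw [← Finset.sum_biUnion]
    · congr 1
      ext i
      simp only [Finset.mem_biUnion, Finset.mem_sdiff]
      constructor
      · rintro ⟨p, hp, hi, hi'⟩
        obtain ⟨G1, rfl, -, k, -⟩ := (hM p).1 hp
        exact ⟨hi, fun h' => hi' (k.1 h')⟩
      · rintro ⟨hi, hi'⟩
        obtain ⟨k1, k2, k3⟩ := h.cp (G'.erase i)
        have k4 := h.cpe G' i hG' hi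
        have k0 : i ∉ cyp r (G'.erase i) := by
          intro hc
          have := k1 hc
          simp at this
        have k5 : G ⊂ cyp r (G'.erase i) := by
          refine Finset.ssubset_iff_subset_ne.2 ⟨h.cpG _ _ hG ?_, ?_⟩
          · intro j hj
            rw [Finset.mem_erase]
            refine ⟨?_, hss hj⟩
            rintro rfl
            exact hi' hj
          · intro he
            rw [← he] at k4
            omega
        have k6 : cyp r (G'.erase i) ⊂ G' := by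
          refine Finset.ssubset_iff_subset_ne.2 ⟨k1.trans (Finset.erase_subset _ _), ?_⟩
          intro he
          rw [he] at k4
          omega
        exact ⟨⟨F, cyp r (G'.erase i), S, T⟩, (hM _).2 ⟨_, rfl, k3, k5, k6⟩, hi, k0⟩
    · intro p hp q hq hpq
      obtain ⟨G1, rfl, k1, k2, k3⟩ := (hM p).1 hp
      obtain ⟨G2, rfl, k4, k5, k6⟩ := (hM q).1 hq
      have hne : G1 ≠ G2 := by
        rintro rfl
        exact hpq rfl
      have hi := h.uni G' G1 G2 hG' k1 k4 k3.1 k6.1 (hrk G1 k1 k2 k3) (hrk G2 k4 k5 k6) hne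
      rw [Function.onFun, Finset.disjoint_left]
      intro i hi1 hi2
      rw [Finset.mem_sdiff] at hi1 hi2
      have hi3 := hi1.1
      rw [← hi] at hi3
      rcases Finset.mem_union.1 hi3 with h' | h'
      · exact hi1.2 h'
      · exact hi2.2 h'
  have e3 := Finset.sum_sdiff hss (f := φ)
  rw [Finset.sum_congr rfl e1, Finset.sum_sub_distrib, e2, Finset.sum_const, nsmul_eq_mul]
  linarith

/-- first case of the statement -/
def C1 (r : Finset α → ℕ) (al be : ℝ) (a b : Pt α) : Prop :=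
  (∀ i, ¬ Cri a b i) ∧ (∀ p ∈ mid r a b, kap al be a p = kap al be p b) ∧
    (∀ p ∈ mid r a b, ∀ p' ∈ mid r a b, kap al be a p = kap al be a p') ∧
    ∃ A B : ℝ, ∀ l ∈ Lin r al be, ∑ p ∈ mid r a b, l p = A * l a + B * l b

/-- second case of the statement -/
def C2 (r : Finset α → ℕ) (al be : ℝ) (a b : Pt α) : Prop :=
  (∀ i, ¬ Cri a b i) ∧ ∃ p q, p ≠ q ∧ mid r a b = {p, q} ∧
    kap al be a p - kap al be p b = - (kap al be a q - kap al be q b) ∧
    kap al be a p ≠ kap al be p b ∧ ∀ l ∈ Lin r al be, l p + l q = l a + l b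

/-- third case of the statement -/
def C3 (r : Finset α → ℕ) (al be : ℝ) (a b : Pt α) : Prop :=
  (∃ i, Cri a b i) ∧ ∃ p, mid r a b = {p} ∧ kap al be a p - kap al be p b =
    (if a.S ≠ b.S then 1 else 1 - al) - (if a.T ≠ b.T then 0 else be) ∧
    0 < kap al be a p - kap al be p b

omit [Fintype α] [DecidableEq α] in
/-- all components of a point between two points -/
theorem btw {a b p : Pt α} (h1 : a < p) (h2 : p < b) :
    (a.F ⊆ p.F ∧ p.F ⊆ b.F) ∧ (a.G ⊆ p.G ∧ p.G ⊆ b.G) ∧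
    ((a.S = true → p.S = true) ∧ (p.S = true → b.S = true)) ∧
    ((a.T = true → p.T = true) ∧ (p.T = true → b.T = true)) ∧ a ≠ p ∧ p ≠ b := by
  obtain ⟨⟨x1, x2, x3, x4⟩, x5⟩ := lt_iff.1 h1
  obtain ⟨⟨y1, y2, y3, y4⟩, y5⟩ := lt_iff.1 h2
  exact ⟨⟨x1, y1⟩, ⟨x2, y2⟩, ⟨x3, y3⟩, ⟨x4, y4⟩, x5, y5⟩

/-- only the flat is different -/
theorem case_F (h : Fa r) (hd : ∀ al be l, l ∈ Lin r al be → ∃ φ γ σ τ, Dec r al be l φ γ σ τ)
    (al be : ℝ) {F F' G : Finset α} {S : Bool} (ha : Ex0 r ⟨F, G, S, false⟩)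
    (hb : Ex0 r ⟨F', G, S, false⟩) (hss : F ⊂ F') (hr2 : r F' = r F + 2) :
    C1 r al be ⟨F, G, S, false⟩ ⟨F', G, S, false⟩ := by
  have hM : ∀ p, p ∈ mid r ⟨F, G, S, false⟩ ⟨F', G, S, false⟩ ↔
      ∃ F1, p = ⟨F1, G, S, false⟩ ∧ IsFl r F1 ∧ F ⊂ F1 ∧ F1 ⊂ F' := by
    intro p
    rw [mem_mid]
    constructor
    · rintro ⟨e, x, y⟩
      obtain ⟨⟨k1, k2⟩, ⟨k3, k4⟩, ⟨k5, k6⟩, ⟨k7, k8⟩, k9, k10⟩ := btw x y
      obtain ⟨P, Q, s, t⟩ := p
      simp only at k1 k2 k3 k4 k5 k6 k7 k8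
      have e1 : Q = G := Finset.Subset.antisymm k4 k3
      have e2 : s = S := by
        cases s <;> cases S <;> simp_all
      have e3 : t = false := by
        cases t
        · rfl
        · exact (k8 rfl).symm
      subst e1 e2 e3
      refine ⟨P, rfl, e.flat, ?_, ?_⟩
      · refine Finset.ssubset_iff_subset_ne.2 ⟨k1, ?_⟩
        rintro rfl
        exact k9 rfl
      · refine Finset.ssubset_iff_subset_ne.2 ⟨k2, ?_⟩
        rintro rfl
        exact k10 rfl
    · rintro ⟨F1, rfl, k1, k2, k3⟩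
      refine ⟨⟨k1, ha.cyc, ha.GF.trans k2.1, ha.GS, by simp, by simp⟩, ?_, ?_⟩
      · rw [lt_iff]
        refine ⟨⟨k2.1, Finset.Subset.refl _, id, id⟩, ?_⟩
        intro e
        simp only [Pt.mk.injEq] at e
        exact k2.ne e.1
      · rw [lt_iff]
        refine ⟨⟨k3.1, Finset.Subset.refl _, id, id⟩, ?_⟩
        intro e
        simp only [Pt.mk.injEq] at e
        exact k3.ne e.1
  have k1 : ∀ p ∈ mid r ⟨F, G, S, false⟩ ⟨F', G, S, false⟩,
      kap al be ⟨F, G, S, false⟩ p = 1 - al ∧ kap al be p ⟨F', G, S, false⟩ = 1 - al := by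
    intro p hp
    obtain ⟨F1, rfl, -, x, y⟩ := (hM p).1 hp
    simp [kap, x.ne, y.ne]
  refine ⟨?_, fun p hp => by rw [(k1 p hp).1, (k1 p hp).2],
    fun p hp p' hp' => by rw [(k1 p hp).1, (k1 p' hp').1], ?_⟩
  · rintro i ⟨x, y⟩
    simp only [Bool.false_eq_true, or_false] at x y
    exact x ⟨ha.GF y, ha.GS ⟨i, y⟩⟩
  · refine ⟨((mid r ⟨F, G, S, false⟩ ⟨F', G, S, false⟩).card : ℝ) - 1, 1, ?_⟩
    intro l hl
    obtain ⟨φ, γ, σ, τ, d⟩ := hd al be l hl
    have e1 : ∀ p ∈ mid r ⟨F, G, S, false⟩ ⟨F', G, S, false⟩,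
        l p = ∑ i ∈ p.F, φ i + (∑ i ∈ G, γ i + (if S = true then σ else 0)) := by
      intro p hp
      obtain ⟨F1, rfl, -, x, y⟩ := (hM p).1 hp
      rw [d.val]
      simp
      ring
    rw [Finset.sum_congr rfl e1, Finset.sum_add_distrib,
      part_F h ha.flat hb.flat hr2 _ G S false hM hss.1 φ, Finset.sum_const, nsmul_eq_mul,
      d.val, d.val]
    simp
    ring

/-- only the cyclic set is different -/
theorem case_G (h : Fa r) (hd : ∀ al be l, l ∈ Lin r al be → ∃ φ γ σ τ, Dec r al be l φ γ σ τ)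
    (al be : ℝ) {F G G' : Finset α} {T : Bool} (ha : Ex0 r ⟨F, G, true, T⟩)
    (hb : Ex0 r ⟨F, G', true, T⟩) (hss : G ⊂ G') (hr2 : nu r G' = nu r G + 2) :
    C1 r al be ⟨F, G, true, T⟩ ⟨F, G', true, T⟩ := by
  have hM : ∀ p, p ∈ mid r ⟨F, G, true, T⟩ ⟨F, G', true, T⟩ ↔
      ∃ G1, p = ⟨F, G1, true, T⟩ ∧ IsCy r G1 ∧ G ⊂ G1 ∧ G1 ⊂ G' := by
    intro p
    rw [mem_mid]
    constructor
    · rintro ⟨e, x, y⟩
      obtain ⟨⟨k1, k2⟩, ⟨k3, k4⟩, ⟨k5, k6⟩, ⟨k7, k8⟩, k9, k10⟩ := btw x y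
      obtain ⟨P, Q, s, t⟩ := p
      simp only at k1 k2 k3 k4 k5 k6 k7 k8
      have e1 : P = F := Finset.Subset.antisymm k2 k1
      have e2 : s = true := by simpa using k5
      have e3 : t = T := by
        cases t <;> cases T <;> simp_all
      subst e1 e2 e3
      refine ⟨Q, rfl, e.cyc, ?_, ?_⟩
      · refine Finset.ssubset_iff_subset_ne.2 ⟨k3, ?_⟩
        rintro rfl
        exact k9 rfl
      · refine Finset.ssubset_iff_subset_ne.2 ⟨k4, ?_⟩
        rintro rfl
        exact k10 rfl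
    · rintro ⟨G1, rfl, k1, k2, k3⟩
      refine ⟨⟨ha.flat, k1, k3.1.trans hb.GF, fun _ => rfl, fun _ => rfl, ha.TF⟩, ?_, ?_⟩
      · rw [lt_iff]
        refine ⟨⟨Finset.Subset.refl _, k2.1, id, id⟩, ?_⟩
        intro e
        simp only [Pt.mk.injEq] at e
        exact k2.ne e.2.1
      · rw [lt_iff]
        refine ⟨⟨Finset.Subset.refl _, k3.1, id, id⟩, ?_⟩
        intro e
        simp only [Pt.mk.injEq] at e
        exact k3.ne e.2.1
  have k1 : ∀ p ∈ mid r ⟨F, G, true, T⟩ ⟨F, G', true, T⟩,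
      kap al be ⟨F, G, true, T⟩ p = be ∧ kap al be p ⟨F, G', true, T⟩ = be := by
    intro p hp
    obtain ⟨G1, rfl, -, x, y⟩ := (hM p).1 hp
    simp [kap, x.ne, y.ne]
  refine ⟨?_, fun p hp => by rw [(k1 p hp).1, (k1 p hp).2],
    fun p hp p' hp' => by rw [(k1 p hp).1, (k1 p' hp').1], ?_⟩
  · rintro i ⟨x, y⟩
    simp only [and_true] at x y
    rcases y with y | y
    · exact x (hb.GF y)
    · have := ha.TF y
      simp only at this
      rw [this] at x
      simp at x
  · refine ⟨1, ((mid r ⟨F, G, true, T⟩ ⟨F, G', true, T⟩).card : ℝ) - 1, ?_⟩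
    intro l hl
    obtain ⟨φ, γ, σ, τ, d⟩ := hd al be l hl
    have e1 : ∀ p ∈ mid r ⟨F, G, true, T⟩ ⟨F, G', true, T⟩,
        l p = ∑ i ∈ p.G, γ i + (∑ i ∈ F, φ i + σ + (if T = true then τ else 0)) := by
      intro p hp
      obtain ⟨F1, rfl, -, x, y⟩ := (hM p).1 hp
      rw [d.val]
      simp
      ring
    rw [Finset.sum_congr rfl e1, Finset.sum_add_distrib,
      part_G h ha.cyc hb.cyc hr2 _ F true T hM hss.1 γ, Finset.sum_const, nsmul_eq_mul,
      d.val, d.val]
    simp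
    ring

/-- sum of the values at the two corners -/
theorem corner (hd : ∀ al be l, l ∈ Lin r al be → ∃ φ γ σ τ, Dec r al be l φ γ σ τ)
    (al be : ℝ) (a b p q : Pt α) (hF : (p.F = a.F ∧ q.F = b.F) ∨ (p.F = b.F ∧ q.F = a.F))
    (hG : (p.G = a.G ∧ q.G = b.G) ∨ (p.G = b.G ∧ q.G = a.G))
    (hS : (p.S = a.S ∧ q.S = b.S) ∨ (p.S = b.S ∧ q.S = a.S))
    (hT : (p.T = a.T ∧ q.T = b.T) ∨ (p.T = b.T ∧ q.T = a.T)) :
    ∀ l ∈ Lin r al be, l p + l q = l a + l b := by
  intro l hl
  obtain ⟨φ, γ, σ, τ, d⟩ := hd al be l hl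
  rw [d.val p, d.val q, d.val a, d.val b]
  have e1 : ∑ i ∈ p.F, φ i + ∑ i ∈ q.F, φ i = ∑ i ∈ a.F, φ i + ∑ i ∈ b.F, φ i := by
    rcases hF with ⟨x, y⟩ | ⟨x, y⟩ <;> rw [x, y]
    ring
  have e2 : ∑ i ∈ p.G, γ i + ∑ i ∈ q.G, γ i = ∑ i ∈ a.G, γ i + ∑ i ∈ b.G, γ i := by
    rcases hG with ⟨x, y⟩ | ⟨x, y⟩ <;> rw [x, y]
    ring
  have e3 : (if p.S = true then σ else 0) + (if q.S = true then σ else 0) =
      (if a.S = true then σ else 0) + (if b.S = true then σ else 0) := by
    rcases hS with ⟨x, y⟩ | ⟨x, y⟩ <;> rw [x, y]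
    ring
  have e4 : (if p.T = true then τ else 0) + (if q.T = true then τ else 0) =
      (if a.T = true then τ else 0) + (if b.T = true then τ else 0) := by
    rcases hT with ⟨x, y⟩ | ⟨x, y⟩ <;> rw [x, y]
    ring
  linarith

/-- window start and flat -/
theorem case_SF (h : Fa r)
    (hd : ∀ al be l, l ∈ Lin r al be → ∃ φ γ σ τ, Dec r al be l φ γ σ τ)
    (al be : ℝ) (hw : Win al be) {F F' : Finset α} (ha : Ex0 r ⟨F, ∅, false, false⟩)
    (hb : Ex0 r ⟨F', ∅, true, false⟩) (hss : F ⊂ F') (hr1 : r F' = r F + 1) :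
    C2 r al be ⟨F, ∅, false, false⟩ ⟨F', ∅, true, false⟩ := by
  refine ⟨?_, ⟨F', ∅, false, false⟩, ⟨F, ∅, true, false⟩, ?_, ?_, ?_, ?_, ?_⟩
  · rintro i ⟨-, y⟩
    simp at y
  · simp
  · ext p
    rw [mem_mid, Finset.mem_insert, Finset.mem_singleton]
    constructor
    · rintro ⟨e, x, y⟩
      obtain ⟨⟨k1, k2⟩, ⟨k3, k4⟩, ⟨k5, k6⟩, ⟨k7, k8⟩, k9, k10⟩ := btw x y
      obtain ⟨P, Q, s, t⟩ := p
      simp only at k1 k2 k3 k4 k5 k6 k7 k8
      have e1 : Q = ∅ := Finset.subset_empty.1 k4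
      have e2 : t = false := by
        cases t
        · rfl
        · simp at k8
      subst e1 e2
      rcases fl_btw h ha.flat e.flat k1 k2 hr1 with rfl | rfl
      · cases s
        · exact absurd rfl k9
        · simp
      · cases s
        · simp
        · exact absurd rfl k10
    · rintro (rfl | rfl)
      · refine ⟨⟨hb.flat, ha.cyc, by simp, by simp, by simp, by simp⟩, ?_, ?_⟩
        · rw [lt_iff]
          refine ⟨⟨hss.1, by simp, by simp, by simp⟩, ?_⟩
          intro e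
          simp only [Pt.mk.injEq] at e
          exact hss.ne e.1
        · rw [lt_iff]
          refine ⟨⟨by simp, by simp, by simp, by simp⟩, by simp⟩
      · refine ⟨⟨ha.flat, ha.cyc, by simp, by simp, by simp, by simp⟩, ?_, ?_⟩
        · rw [lt_iff]
          refine ⟨⟨by simp, by simp, by simp, by simp⟩, by simp⟩
        · rw [lt_iff]
          refine ⟨⟨hss.1, by simp, by simp, by simp⟩, ?_⟩
          intro e
          simp only [Pt.mk.injEq] at e
          exact hss.ne e.1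
  · simp [kap, hss.ne]
  · have := hw.a0
    simp [kap, hss.ne]
    linarith
  · apply corner hd <;> simp

/-- cyclic set and window end -/
theorem case_GT (h : Fa r)
    (hd : ∀ al be l, l ∈ Lin r al be → ∃ φ γ σ τ, Dec r al be l φ γ σ τ)
    (al be : ℝ) (hw : Win al be) {G G' : Finset α} (ha : Ex0 r ⟨univ, G, true, false⟩)
    (hb : Ex0 r ⟨univ, G', true, true⟩) (hss : G ⊂ G') (hr1 : nu r G' = nu r G + 1) :
    C2 r al be ⟨univ, G, true, false⟩ ⟨univ, G', true, true⟩ := by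
  refine ⟨?_, ⟨univ, G', true, false⟩, ⟨univ, G, true, true⟩, ?_, ?_, ?_, ?_, ?_⟩
  · rintro i ⟨x, -⟩
    simp at x
  · simp
  · ext p
    rw [mem_mid, Finset.mem_insert, Finset.mem_singleton]
    constructor
    · rintro ⟨e, x, y⟩
      obtain ⟨⟨k1, k2⟩, ⟨k3, k4⟩, ⟨k5, k6⟩, ⟨k7, k8⟩, k9, k10⟩ := btw x y
      obtain ⟨P, Q, s, t⟩ := p
      simp only at k1 k2 k3 k4 k5 k6 k7 k8
      have e1 : P = univ := Finset.univ_subset_iff.1 k1
      have e2 : s = true := by simpa using k5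
      subst e1 e2
      rcases cy_btw h e.cyc hb.cyc k3 k4 hr1 with rfl | rfl
      · cases t
        · exact absurd rfl k9
        · simp
      · cases t
        · simp
        · exact absurd rfl k10
    · rintro (rfl | rfl)
      · refine ⟨⟨ha.flat, hb.cyc, by simp, by simp, by simp, by simp⟩, ?_, ?_⟩
        · rw [lt_iff]
          refine ⟨⟨by simp, hss.1, by simp, by simp⟩, ?_⟩
          intro e
          simp only [Pt.mk.injEq] at e
          exact hss.ne e.2.1
        · rw [lt_iff]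
          refine ⟨⟨by simp, by simp, by simp, by simp⟩, by simp⟩
      · refine ⟨⟨ha.flat, ha.cyc, by simp, by simp, by simp, by simp⟩, ?_, ?_⟩
        · rw [lt_iff]
          refine ⟨⟨by simp, by simp, by simp, by simp⟩, by simp⟩
        · rw [lt_iff]
          refine ⟨⟨by simp, hss.1, by simp, by simp⟩, ?_⟩
          intro e
          simp only [Pt.mk.injEq] at e
          exact hss.ne e.2.1
  · simp [kap, hss.ne]
  · have := hw.b0
    simp [kap, hss.ne]
    linarith
  · apply corner hd <;> simp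

/-- flat and cyclic set -/
theorem case_FG (h : Fa r)
    (hd : ∀ al be l, l ∈ Lin r al be → ∃ φ γ σ τ, Dec r al be l φ γ σ τ)
    (al be : ℝ) (hw : Win al be) {F F' G G' : Finset α} (ha : Ex0 r ⟨F, G, true, false⟩)
    (hb : Ex0 r ⟨F', G', true, false⟩) (hFF : F ⊂ F') (hGG : G ⊂ G') (hr1 : r F' = r F + 1)
    (hn1 : nu r G' = nu r G + 1) :
    C2 r al be ⟨F, G, true, false⟩ ⟨F', G', true, false⟩ ∨
    C3 r al be ⟨F, G, true, false⟩ ⟨F', G', true, false⟩ := by
  have hmid : ∀ p, p ∈ mid r ⟨F, G, true, false⟩ ⟨F', G', true, false⟩ ↔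
      p = ⟨F', G, true, false⟩ ∨ (p = ⟨F, G', true, false⟩ ∧ G' ⊆ F) := by
    intro p
    rw [mem_mid]
    constructor
    · rintro ⟨e, x, y⟩
      obtain ⟨⟨k1, k2⟩, ⟨k3, k4⟩, ⟨k5, k6⟩, ⟨k7, k8⟩, k9, k10⟩ := btw x y
      obtain ⟨P, Q, s, t⟩ := p
      simp only at k1 k2 k3 k4 k5 k6 k7 k8
      have e1 : s = true := by simpa using k5
      have e2 : t = false := by
        cases t
        · rfl
        · simp at k8
      subst e1 e2
      rcases cy_btw h e.cyc hb.cyc k3 k4 hn1 with rfl | rfl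
      · rcases fl_btw h ha.flat e.flat k1 k2 hr1 with rfl | rfl
        · exact absurd rfl k9
        · simp
      · rcases fl_btw h ha.flat e.flat k1 k2 hr1 with rfl | rfl
        · exact Or.inr ⟨rfl, e.GF⟩
        · exact absurd rfl k10
    · rintro (rfl | ⟨rfl, hGF⟩)
      · refine ⟨⟨hb.flat, ha.cyc, ha.GF.trans hFF.1, by simp, by simp, by simp⟩, ?_, ?_⟩
        · rw [lt_iff]
          refine ⟨⟨hFF.1, by simp, by simp, by simp⟩, ?_⟩
          intro e
          simp only [Pt.mk.injEq] at e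
          exact hFF.ne e.1
        · rw [lt_iff]
          refine ⟨⟨by simp, hGG.1, by simp, by simp⟩, ?_⟩
          intro e
          simp only [Pt.mk.injEq] at e
          exact hGG.ne e.2.1
      · refine ⟨⟨ha.flat, hb.cyc, hGF, by simp, by simp, by simp⟩, ?_, ?_⟩
        · rw [lt_iff]
          refine ⟨⟨by simp, hGG.1, by simp, by simp⟩, ?_⟩
          intro e
          simp only [Pt.mk.injEq] at e
          exact hGG.ne e.2.1
        · rw [lt_iff]
          refine ⟨⟨hFF.1, by simp, by simp, by simp⟩, ?_⟩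
          intro e
          simp only [Pt.mk.injEq] at e
          exact hFF.ne e.1
  have hab := hw.ab
  by_cases hGF : G' ⊆ F
  · left
    refine ⟨?_, ⟨F', G, true, false⟩, ⟨F, G', true, false⟩, ?_, ?_, ?_, ?_, ?_⟩
    · rintro i ⟨x, y⟩
      simp only [and_true, Bool.false_eq_true, or_false] at x y
      exact x (hGF y)
    · intro e
      simp only [Pt.mk.injEq] at e
      exact hFF.ne e.1.symm
    · ext p
      rw [hmid, Finset.mem_insert, Finset.mem_singleton]
      simp [hGF]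
    · simp [kap, hFF.ne, hGG.ne]
    · simp [kap, hFF.ne, hGG.ne]
      intro e
      linarith
    · apply corner hd <;> simp
  · right
    refine ⟨?_, ⟨F', G, true, false⟩, ?_, ?_, ?_⟩
    · rw [Finset.not_subset] at hGF
      obtain ⟨i, x, y⟩ := hGF
      exact ⟨i, by simp [y], Or.inl x⟩
    · ext p
      rw [hmid, Finset.mem_singleton]
      simp [hGF]
    · simp [kap, hFF.ne, hGG.ne]
    · simp [kap, hFF.ne, hGG.ne]
      linarith

/-- window start and cyclic set -/
theorem case_SG (h : Fa r)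
    (al be : ℝ) (hw : Win al be) {F G' : Finset α} (ha : Ex0 r ⟨F, ∅, false, false⟩)
    (hb : Ex0 r ⟨F, G', true, false⟩) (hss : ∅ ⊂ G') (hr1 : nu r G' = nu r ∅ + 1) :
    C3 r al be ⟨F, ∅, false, false⟩ ⟨F, G', true, false⟩ := by
  have hne : G' ≠ ∅ := hss.ne.symm
  refine ⟨?_, ⟨F, ∅, true, false⟩, ?_, ?_, ?_⟩
  · obtain ⟨i, hi⟩ := Finset.nonempty_iff_ne_empty.2 hne
    exact ⟨i, by simp, Or.inl hi⟩
  · ext p
    rw [mem_mid, Finset.mem_singleton]
    constructor
    · rintro ⟨e, x, y⟩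
      obtain ⟨⟨k1, k2⟩, ⟨k3, k4⟩, ⟨k5, k6⟩, ⟨k7, k8⟩, k9, k10⟩ := btw x y
      obtain ⟨P, Q, s, t⟩ := p
      simp only at k1 k2 k3 k4 k5 k6 k7 k8
      have e1 : P = F := Finset.Subset.antisymm k2 k1
      have e2 : t = false := by
        cases t
        · rfl
        · simp at k8
      subst e1 e2
      rcases cy_btw h e.cyc hb.cyc k3 k4 hr1 with rfl | rfl
      · cases s
        · exact absurd rfl k9
        · rfl
      · cases s
        · have := e.GS (Finset.nonempty_iff_ne_empty.2 hne)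
          simp at this
        · exact absurd rfl k10
    · rintro rfl
      refine ⟨⟨ha.flat, ha.cyc, by simp, by simp, by simp, by simp⟩, ?_, ?_⟩
      · rw [lt_iff]
        refine ⟨⟨by simp, by simp, by simp, by simp⟩, by simp⟩
      · rw [lt_iff]
        refine ⟨⟨by simp, by simp, by simp, by simp⟩, ?_⟩
        intro e
        simp only [Pt.mk.injEq] at e
        exact hne e.2.1.symm
  · simp [kap, hne.symm]
  · have := hw.a0
    have := hw.ab
    simp [kap, hne.symm]
    linarith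

/-- flat and window end -/
theorem case_FT (h : Fa r)
    (al be : ℝ) (hw : Win al be) {F G : Finset α} (ha : Ex0 r ⟨F, G, true, false⟩)
    (hb : Ex0 r ⟨univ, G, true, true⟩) (hss : F ⊂ univ) (hr1 : r univ = r F + 1) :
    C3 r al be ⟨F, G, true, false⟩ ⟨univ, G, true, true⟩ := by
  refine ⟨?_, ⟨univ, G, true, false⟩, ?_, ?_, ?_⟩
  · obtain ⟨i, -, hi⟩ := Finset.exists_of_ssubset hss
    exact ⟨i, by simp [hi], Or.inr rfl⟩
  · ext p
    rw [mem_mid, Finset.mem_singleton]
    constructor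
    · rintro ⟨e, x, y⟩
      obtain ⟨⟨k1, k2⟩, ⟨k3, k4⟩, ⟨k5, k6⟩, ⟨k7, k8⟩, k9, k10⟩ := btw x y
      obtain ⟨P, Q, s, t⟩ := p
      simp only at k1 k2 k3 k4 k5 k6 k7 k8
      have e1 : Q = G := Finset.Subset.antisymm k4 k3
      have e2 : s = true := by simpa using k5
      subst e1 e2
      rcases fl_btw h ha.flat e.flat k1 k2 hr1 with rfl | rfl
      · cases t
        · exact absurd rfl k9
        · have := e.TF rfl
          simp only at this
          exact absurd this hss.ne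
      · cases t
        · rfl
        · exact absurd rfl k10
    · rintro rfl
      refine ⟨⟨hb.flat, ha.cyc, by simp, by simp, by simp, by simp⟩, ?_, ?_⟩
      · rw [lt_iff]
        refine ⟨⟨by simp, by simp, by simp, by simp⟩, ?_⟩
        intro e
        simp only [Pt.mk.injEq] at e
        exact hss.ne e.1
      · rw [lt_iff]
        refine ⟨⟨by simp, by simp, by simp, by simp⟩, by simp⟩
  · simp [kap, hss.ne]
  · have := hw.b0
    have := hw.ab
    simp [kap, hss.ne]
    linarith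

/-- window start and window end -/
theorem case_ST [Nonempty α] (al be : ℝ) (ha : Ex0 r ⟨univ, ∅, false, false⟩) :
    C3 r al be ⟨univ, ∅, false, false⟩ ⟨univ, ∅, true, true⟩ := by
  refine ⟨⟨Classical.arbitrary α, by simp, Or.inr rfl⟩, ⟨univ, ∅, true, false⟩, ?_, ?_, ?_⟩
  · ext p
    rw [mem_mid, Finset.mem_singleton]
    constructor
    · rintro ⟨e, x, y⟩
      obtain ⟨⟨k1, k2⟩, ⟨k3, k4⟩, ⟨k5, k6⟩, ⟨k7, k8⟩, k9, k10⟩ := btw x y
      obtain ⟨P, Q, s, t⟩ := p
      simp only at k1 k2 k3 k4 k5 k6 k7 k8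
      have e1 : P = univ := Finset.univ_subset_iff.1 k1
      have e2 : Q = ∅ := Finset.subset_empty.1 k4
      subst e1 e2
      cases s
      · cases t
        · exact absurd rfl k9
        · have := e.TS rfl
          simp at this
      · cases t
        · rfl
        · exact absurd rfl k10
    · rintro rfl
      refine ⟨⟨ha.flat, ha.cyc, by simp, by simp, by simp, by simp⟩, ?_, ?_⟩
      · rw [lt_iff]
        refine ⟨⟨by simp, by simp, by simp, by simp⟩, by simp⟩
      · rw [lt_iff]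
        refine ⟨⟨by simp, by simp, by simp, by simp⟩, by simp⟩
  · simp [kap]
  · simp [kap]

/-- all cases -/
theorem all [Nonempty α] (h : Fa r)
    (hd : ∀ al be l, l ∈ Lin r al be → ∃ φ γ σ τ, Dec r al be l φ γ σ τ)
    (al be : ℝ) (hw : Win al be) (a b : Pt α) (ha : Ex0 r a) (hb : Ex0 r b) (hab : a < b)
    (hht : ht r b = ht r a + 2) : C1 r al be a b ∨ C2 r al be a b ∨ C3 r al be a b := by
  obtain ⟨⟨hF, hG, hS, hT⟩, hne⟩ := lt_iff.1 hab
  rw [h.ht, h.ht] at hht
  obtain ⟨F, G, S, T⟩ := a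
  obtain ⟨F', G', S', T'⟩ := b
  simp only at hF hG hS hT hht
  have dF : F = F' ∨ (F ⊂ F' ∧ r F < r F') := by
    rcases hF.eq_or_ssubset with e | e
    · exact Or.inl e
    · exact Or.inr ⟨e, h.fl F F' ha.flat e⟩
  have dG : G = G' ∨ (G ⊂ G' ∧ nu r G < nu r G') := by
    rcases hG.eq_or_ssubset with e | e
    · exact Or.inl e
    · exact Or.inr ⟨e, h.cy G G' hb.cyc e⟩
  have u1 : T = true → F = univ := ha.TF
  have u2 : T' = true → F' = univ := hb.TF
  have u3 : T = true → S = true := ha.TS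
  have u4 : T' = true → S' = true := hb.TS
  have u5 : S = false → G = ∅ := by
    intro e
    by_contra hc
    have := ha.GS (Finset.nonempty_iff_ne_empty.2 hc)
    simp only at this
    rw [e] at this
    exact absurd this (by simp)
  have u6 : S' = false → G' = ∅ := by
    intro e
    by_contra hc
    have := hb.GS (Finset.nonempty_iff_ne_empty.2 hc)
    simp only at this
    rw [e] at this
    exact absurd this (by simp)
  cases S
  · have e1 : G = ∅ := u5 rfl
    have e2 : T = false := by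
      cases T
      · rfl
      · have := u3 rfl
        simp at this
    subst e1 e2
    cases S'
    · have e3 : G' = ∅ := u6 rfl
      have e4 : T' = false := by
        cases T'
        · rfl
        · have := u4 rfl
          simp at this
      subst e3 e4
      left
      simp at hht
      rcases dF with rfl | ⟨x, -⟩
      · omega
      · exact case_F h hd al be ha hb x (by omega)
    · cases T'
      · simp at hht
        rcases dF with rfl | ⟨x, x'⟩
        · rcases dG with rfl | ⟨y, y'⟩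
          · omega
          · exact Or.inr (Or.inr (case_SG h al be hw ha hb y (by omega)))
        · rcases dG with rfl | ⟨y, y'⟩
          · exact Or.inr (Or.inl (case_SF h hd al be hw ha hb x (by omega)))
          · omega
      · simp at hht
        rcases dF with rfl | ⟨x, x'⟩
        · rcases dG with rfl | ⟨y, y'⟩
          · have e3 : F = univ := u2 rfl
            subst e3
            exact Or.inr (Or.inr (case_ST al be ha))
          · omega
        · rcases dG with rfl | ⟨y, y'⟩ <;> omega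
  · have e1 : S' = true := hS rfl
    subst e1
    cases T
    · cases T'
      · simp at hht
        rcases dF with rfl | ⟨x, x'⟩
        · rcases dG with rfl | ⟨y, y'⟩
          · omega
          · exact Or.inl (case_G h hd al be ha hb y (by omega))
        · rcases dG with rfl | ⟨y, y'⟩
          · exact Or.inl (case_F h hd al be ha hb x (by omega))
          · exact Or.inr (case_FG h hd al be hw ha hb x y (by omega) (by omega))
      · have e3 : F' = univ := u2 rfl
        subst e3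
        simp at hht
        rcases dF with rfl | ⟨x, x'⟩
        · rcases dG with rfl | ⟨y, y'⟩
          · omega
          · exact Or.inr (Or.inl (case_GT h hd al be hw ha hb y (by omega)))
        · rcases dG with rfl | ⟨y, y'⟩
          · exact Or.inr (Or.inr (case_FT h al be hw ha hb x (by omega)))
          · omega
    · have e2 : T' = true := hT rfl
      subst e2
      have e3 : F = univ := u1 rfl
      have e4 : F' = univ := u2 rfl
      subst e3 e4
      simp at hht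
      rcases dG with rfl | ⟨y, y'⟩
      · omega
      · exact Or.inl (case_G h hd al be ha hb y (by omega))

end M_DG

theorem t_DG (h1 : Stmt_FLA) (h2 : Stmt_CYC) (h3 : Stmt_HT) (h4 : Stmt_DEC) : Stmt_DG := by
  intro α _ _ _ r al be hr hw a b ha hb hab hht
  exact M_DG.all (M_DG.fa h1 h2 h3 hr) (fun al be l hl => ((h4 α r al be hr).1 l).1 hl) al be hw
    a b ha hb hab hht

end Pool.Agent.QPR
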