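import Pool.Agent.QPR.StS

/-!
# Critical gaps have height difference at least two (helper40)

MP_9c4433_lc, module QPR1_DIM: from the statements on heights and gaps, a gap with a critical
element changes an opener and a closer, so that a face has at most `n` elements.
-/

set_option autoImplicit false

open Finset

namespace Pool.Agent.QPR

theorem t_DIM (h1 : Stmt_HT) (h2 : Stmt_GAP) : Stmt_DIM := by
  intro α _ _ r hr
  obtain ⟨-, -, -, -, -, -, -, -, -, hcl, hcc⟩ := h1 α r hr
  have key : ∀ a b i, Ex0 r a → Ex0 r b → a < b → Cri a b i → (a.F ≠ b.F ∨ a.S ≠ b.S) ∧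
      (a.G ≠ b.G ∨ a.T ≠ b.T) ∧ 2 ≤ ncc a b ∧ ht r a + 2 ≤ ht r b := by
    intro a b i ha hb hab hc
    obtain ⟨hc1, hc2⟩ := hc
    obtain ⟨hb1, hb2⟩ := hcl b i hb hc2
    have o : a.F ≠ b.F ∨ a.S ≠ b.S := by
      by_contra hcon
      push Not at hcon
      apply hc1
      rw [hcon.1, hcon.2]
      exact ⟨hb1, hb2⟩
    have c : a.G ≠ b.G ∨ a.T ≠ b.T := by
      by_contra hcon
      push Not at hcon
      apply hc1
      apply hcl a i ha
      rw [hcon.1, hcon.2]
      exact hc2
    have n2 : 2 ≤ ncc a b := by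
      unfold ncc
      rcases o with o | o <;> rcases c with c | c <;> simp only [if_neg o, if_neg c] <;> omega
    refine ⟨o, c, n2, ?_⟩
    have := hcc a b ha hb hab.le
    omega
  refine ⟨key, ?_⟩
  intro ρ hρ
  obtain ⟨hch, he⟩ := hρ
  rcases he with he | ⟨i, hi⟩
  · rw [he]
    simp
  · obtain ⟨g1, -, -, -, -, -, g7, -, -, g10⟩ := h2 α r hr ρ hch
    obtain ⟨a, b, hg, hc, -⟩ := g10 i hi
    have hk := (key a b i (g1 a hg.ha) (g1 b hg.hb) hg.lt hc).2.2.2
    have := g7 {(a, b)} (by
      intro p hp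
      rw [Finset.mem_singleton] at hp
      subst hp
      exact hg)
    rw [Finset.sum_singleton] at this
    simp only at this
    omega

end Pool.Agent.QPR
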