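import Pool.Agent.QPR.StS

/-!
# Duality of rank functions (helper35, module QPR1_DU1)
-/

set_option autoImplicit false

open Finset

namespace Pool.Agent.QPR

section DU1

variable {α : Type} [Fintype α] [DecidableEq α] {r : Finset α → ℕ}

theorem du1_univ_le (h : IsRank r) (A : Finset α) : r univ ≤ A.card + r Aᶜ := by
  have := h.card_le Aᶜ A
  rwa [Finset.union_comm, Finset.union_compl] at this

theorem du1_dual_add (h : IsRank r) (A : Finset α) : dual r A + r univ = A.card + r Aᶜ := by
  have := du1_univ_le h A
  unfold dual
  omega

theorem du1_compl_insert (A : Finset α) (e : α) : (insert e A)ᶜ = Aᶜ.erase e := by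
  ext x
  simp [Finset.mem_erase]

theorem du1_compl_erase (A : Finset α) (e : α) : (A.erase e)ᶜ = insert e Aᶜ := by
  ext x
  simp only [mem_compl, mem_erase, mem_insert, not_and_or, not_not, ne_eq]

omit [Fintype α] in
theorem du1_erase_le (h : IsRank r) (B : Finset α) (e : α) :
    r (B.erase e) ≤ r B ∧ r B ≤ r (B.erase e) + 1 := by
  by_cases he : e ∈ B
  · have h1 := h.mono (B.erase e) e
    have h2 := h.le_succ (B.erase e) e
    rw [Finset.insert_erase he] at h1 h2
    exact ⟨h1, h2⟩
  · rw [Finset.erase_eq_of_notMem he]
    exact ⟨le_rfl, Nat.le_succ _⟩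

theorem du1_dual_insert (h : IsRank r) {A : Finset α} {e : α} (he : e ∉ A) :
    dual r (insert e A) + r univ = A.card + 1 + r (Aᶜ.erase e) := by
  rw [du1_dual_add h, Finset.card_insert_of_notMem he, du1_compl_insert]

theorem du1_isRank (h : IsRank r) : IsRank (dual r) := by
  refine ⟨?_, ?_, ?_, ?_⟩
  · have := du1_dual_add h ∅
    simp only [card_empty, compl_empty] at this
    omega
  · intro A e
    by_cases he : e ∈ A
    · rw [Finset.insert_eq_of_mem he]
    · have h1 := du1_dual_insert h he
      have h2 := du1_dual_add h A
      have h3 := du1_erase_le h Aᶜ e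
      omega
  · intro A e
    by_cases he : e ∈ A
    · rw [Finset.insert_eq_of_mem he]
      omega
    · have h1 := du1_dual_insert h he
      have h2 := du1_dual_add h A
      have h3 := du1_erase_le h Aᶜ e
      omega
  · intro A e f h1 h2
    by_cases he : e ∈ A
    · rw [Finset.insert_eq_of_mem (Finset.mem_insert_of_mem he), h2]
    by_cases hf : f ∈ A
    · rw [Finset.insert_eq_of_mem hf, h1]
    by_cases hef : e = f
    · subst hef
      rw [Finset.insert_eq_of_mem (Finset.mem_insert_self _ _), h1]
    have a1 := du1_dual_insert h he
    have a2 := du1_dual_insert h hf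
    have a3 := du1_dual_add h A
    have he' : e ∉ insert f A := by
      simp [hef, he]
    have a4 := du1_dual_insert h he'
    rw [Finset.card_insert_of_notMem hf, du1_compl_insert] at a4
    have hlt : r (Aᶜ.erase e) < r (insert e (Aᶜ.erase e)) := by
      rw [Finset.insert_erase (by simp [he] : e ∈ Aᶜ)]
      omega
    have hsub : (Aᶜ.erase f).erase e ⊆ Aᶜ.erase e :=
      Finset.erase_subset_erase _ (Finset.erase_subset _ _)
    have h5 := h.coclosure hlt hsub
    rw [Finset.insert_erase (by simp [hef, he] : e ∈ Aᶜ.erase f)] at h5
    omega

theorem du1_univ_card (h : IsRank r) : r univ ≤ Fintype.card α := by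
  have h1 := du1_univ_le h (univ : Finset α)
  simp only [compl_univ, h.empty, card_univ] at h1
  omega

theorem du1_card_compl (A : Finset α) : A.card + Aᶜ.card = Fintype.card α :=
  Finset.card_add_card_compl A

omit [Fintype α] in
theorem du1_le_card (h : IsRank r) (A : Finset α) : r A ≤ A.card := by
  have := h.card_le ∅ A
  rwa [Finset.empty_union, h.empty, add_zero] at this

theorem du1_dual_univ (h : IsRank r) : dual r univ + r univ = Fintype.card α := by
  have h1 := du1_dual_add h (univ : Finset α)
  simp only [compl_univ, h.empty, card_univ] at h1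
  omega

theorem t_DU1 : Stmt_DU1 := by
  intro α _ _ r h
  have hd := du1_isRank h
  refine ⟨hd, ?_, ?_, ?_, ?_, ?_, ?_, ?_, ?_, ?_, ?_⟩
  · funext A
    have h1 := du1_dual_add hd A
    have h2 := du1_dual_add h Aᶜ
    have h3 := du1_dual_univ h
    have h4 := du1_card_compl A
    rw [compl_compl] at h2
    omega
  · intro A
    constructor
    · intro hF e he
      have he' : e ∉ A := by simpa using he
      have h1 := hF e he'
      have h2 := du1_dual_insert h he'
      have h3 := du1_dual_add h A
      omega
    · intro hC e he
      have h1 := hC e (by simpa using he)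
      have h2 := du1_dual_insert h he
      have h3 := du1_dual_add h A
      omega
  · intro A
    constructor
    · intro hC e he
      have he' : e ∈ A := by simpa using he
      have h1 := hC e he'
      have h2 := du1_dual_add h (A.erase e)
      have h3 := du1_dual_add h A
      rw [du1_compl_erase] at h2
      have h4 := Finset.card_erase_add_one he'
      omega
    · intro hF e he
      have h1 := hF e (by simpa using he)
      have h2 := du1_dual_add h (A.erase e)
      have h3 := du1_dual_add h A
      rw [du1_compl_erase] at h2
      have h4 := Finset.card_erase_add_one he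
      omega
  · intro A
    have h1 := du1_dual_add h Aᶜ
    have h2 := du1_card_compl A
    have h3 := du1_le_card h A
    have h4 := du1_univ_card h
    rw [compl_compl] at h1
    unfold nu
    rw [Finset.card_univ]
    omega
  · intro A
    have h1 := du1_dual_add h Aᶜ
    have h2 := h.mono_subset (Finset.subset_univ A)
    have h3 := du1_le_card hd Aᶜ
    rw [compl_compl] at h1
    unfold nu
    omega
  · have h1 := du1_dual_univ h
    unfold nu
    rw [Finset.card_univ]
    omega
  · have h1 := du1_dual_univ h
    unfold nu
    rw [Finset.card_univ]
    omega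
  · have h1 := du1_univ_card h
    unfold nu
    rw [Finset.card_univ]
    omega
  · intro e
    have h1 := du1_dual_add h ({e} : Finset α)
    have h2 := du1_erase_le h (univ : Finset α) e
    have h3 : ({e} : Finset α)ᶜ = univ.erase e := by
      ext x
      simp
    rw [h3, Finset.card_singleton] at h1
    unfold Loo Clo
    omega
  · intro e
    have h1 := du1_dual_add h (univ.erase e)
    have h2 := du1_dual_univ h
    have h3 : ((univ : Finset α).erase e)ᶜ = {e} := by
      ext x
      simp
    have h4 := Finset.card_erase_add_one (Finset.mem_univ e)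
    have h5 := du1_le_card h ({e} : Finset α)
    rw [h3] at h1
    rw [Finset.card_univ] at h4
    rw [Finset.card_singleton] at h5
    unfold Loo Clo
    omega

end DU1

end Pool.Agent.QPR
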