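import Pool.Agent.QPR.StS

/-!
# Duality of the complex of states (QPR1_DU2)
-/

set_option autoImplicit false

open Finset

namespace Pool.Agent.QPR

theorem t_DU2 (h1 : Stmt_DU1) (_h2 : Stmt_FLA) (_h3 : Stmt_CYC) (_h4 : Stmt_HT) : Stmt_DU2 := by
  intro α _ _ r hr
  have hdd : ∀ s : Pt α, du (du s) = s := by
    intro s
    obtain ⟨F, G, S, T⟩ := s
    simp [du]
  have hle1 : ∀ s t : Pt α, t ≤ s → du s ≤ du t := by
    intro s t h
    obtain ⟨hF, hG, hS, hT⟩ := Pt.le_iff.1 h
    refine Pt.le_iff.2 ⟨compl_subset_compl.2 hG, compl_subset_compl.2 hF, ?_, ?_⟩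
    · intro h2
      change (!t.T) = true
      change (!s.T) = true at h2
      revert hT h2
      cases t.T <;> cases s.T <;> simp
    · intro h2
      change (!t.S) = true
      change (!s.S) = true at h2
      revert hS h2
      cases t.S <;> cases s.S <;> simp
  have hle : ∀ s t : Pt α, du s ≤ du t ↔ t ≤ s := by
    intro s t
    refine ⟨fun h => ?_, hle1 s t⟩
    have h2 := hle1 _ _ h
    rwa [hdd, hdd] at h2
  have hlt : ∀ s t : Pt α, du s < du t ↔ t < s := by
    intro s t
    rw [lt_iff_le_not_ge, lt_iff_le_not_ge, hle, hle]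
  have hinj : Function.Injective (du : Pt α → Pt α) := by
    intro s t h
    rw [← hdd s, h, hdd]
  have hbt : ∀ r : Finset α → ℕ, IsRank r → du (bot r) = top (dual r) ∧ du (top r) = bot (dual r) := by
    intro r hr
    obtain ⟨-, -, -, -, -, -, -, -, -, hLC, hCL⟩ := h1 α r hr
    constructor
    · unfold du bot top
      simp only [compl_empty, Bool.not_false, Pt.mk.injEq, true_and, and_true]
      ext e
      simp [hCL]
    · unfold du bot top
      simp only [compl_univ, Bool.not_true, Pt.mk.injEq, and_true, true_and]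
      ext e
      simp [hLC]
  have hdr : ∀ r : Finset α → ℕ, IsRank r → IsRank (dual r) ∧ dual (dual r) = r := fun r hr =>
    ⟨(h1 α r hr).1, (h1 α r hr).2.1⟩
  have hex1 : ∀ r : Finset α → ℕ, IsRank r → ∀ s, Ex0 r s → Ex0 (dual r) (du s) := by
    intro r hr s hs
    obtain ⟨-, -, hfl, hcy, -⟩ := h1 α r hr
    refine ⟨?_, ?_, ?_, ?_, ?_, ?_⟩
    · refine (hfl (du s).F).2 ?_
      intro e he
      have h2 : (du s).Fᶜ = s.G := compl_compl s.G
      rw [h2] at he ⊢
      exact hs.cyc e he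
    · refine (hcy (du s).G).2 ?_
      intro e he
      have h2 : (du s).Gᶜ = s.F := compl_compl s.F
      rw [h2] at he ⊢
      exact hs.flat e he
    · exact compl_subset_compl.2 hs.GF
    · rintro ⟨x, hx⟩
      change (!s.T) = true
      rw [Bool.not_eq_true']
      by_contra h2
      rw [Bool.not_eq_false] at h2
      have h3 := hs.TF h2
      change x ∈ s.Fᶜ at hx
      rw [h3, mem_compl] at hx
      exact hx (mem_univ x)
    · intro h2
      change (!s.S) = true at h2
      change (!s.T) = true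
      have h3 := hs.TS
      revert h2 h3
      cases s.S <;> cases s.T <;> simp
    · intro h2
      change (!s.S) = true at h2
      change s.Gᶜ = univ
      rw [compl_eq_univ_iff]
      by_contra h3
      have h4 := hs.GS (nonempty_iff_ne_empty.2 h3)
      rw [h4] at h2
      exact absurd h2 (by simp)
  have hex : ∀ r : Finset α → ℕ, IsRank r → ∀ s, Ex0 (dual r) (du s) ↔ Ex0 r s := by
    intro r hr s
    refine ⟨fun h => ?_, hex1 r hr s⟩
    have h2 := hex1 (dual r) (hdr r hr).1 _ h
    rwa [(hdr r hr).2, hdd] at h2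
  have hsta : ∀ r : Finset α → ℕ, IsRank r → ∀ s, Sta (dual r) (du s) ↔ Sta r s := by
    intro r hr s
    have e1 : du s = bot (dual r) ↔ s = top r := by
      rw [← (hbt r hr).2]
      exact hinj.eq_iff
    have e2 : du s = top (dual r) ↔ s = bot r := by
      rw [← (hbt r hr).1]
      exact hinj.eq_iff
    constructor
    · intro h
      exact ⟨(hex r hr s).1 h.ex, fun h2 => h.nt (e2.2 h2), fun h2 => h.nb (e1.2 h2)⟩
    · intro h
      exact ⟨(hex r hr s).2 h.ex, fun h2 => h.nt (e1.1 h2), fun h2 => h.nb (e2.1 h2)⟩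
  have hht : ∀ s, Ex0 r s → ht (dual r) (du s) + ht r s = Fintype.card α + 2 := by
    intro s _
    obtain ⟨-, -, -, -, h5, h6, -, -, h9, -⟩ := h1 α r hr
    have e1 := h5 s.G
    have e2 := h6 s.F
    have f1 : ht (dual r) (du s) = dual r s.Gᶜ + nu (dual r) s.Fᶜ +
        (if (!s.T) = true then 1 else 0) + (if (!s.S) = true then 1 else 0) := rfl
    have f2 : ht r s = r s.F + nu r s.G + (if s.S = true then 1 else 0) +
        (if s.T = true then 1 else 0) := rfl
    have g1 : (if (!s.T) = true then 1 else 0) + (if s.T = true then 1 else 0) = 1 := by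
      cases s.T <;> simp
    have g2 : (if (!s.S) = true then 1 else 0) + (if s.S = true then 1 else 0) = 1 := by
      cases s.S <;> simp
    rw [f1, f2]
    omega
  have hnop : ∀ (i : α) (s : Pt α), Nop i (du s) ↔ Nop i s := by
    intro i s
    unfold Nop du
    simp only [mem_compl]
    cases s.S <;> cases s.T <;> simp <;> tauto
  have hcri : ∀ (a b : Pt α) (i : α), Cri (du b) (du a) i ↔ Cri a b i := by
    intro a b i
    unfold Cri du
    simp only [mem_compl]
    cases a.S <;> cases b.T <;> simp <;> tauto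
  have hvz : ∀ (al : ℝ) (i : α) (s : Pt α), vv al i (du s) = zz al i s := by
    intro al i s
    unfold vv zz du
    simp only [mem_compl]
    by_cases hG : i ∈ s.G
    · cases s.S <;> cases s.T <;> simp [hG]
    · cases s.S <;> cases s.T <;> simp [hG] <;> ring
  have hzv : ∀ (be : ℝ) (i : α) (s : Pt α), zz be i (du s) = vv be i s := by
    intro be i s
    rw [← hvz, hdd]
  have hlin : ∀ (al be : ℝ) (l : Pt α → ℝ), l ∈ Lin r al be →
      (fun s => l (du s)) ∈ Lin (dual r) be al := by
    intro al be l hl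
    obtain ⟨-, -, -, -, -, -, -, -, -, hLC, hCL⟩ := h1 α r hr
    have h2 : Lin r al be ≤ (Lin (dual r) be al).comap (LinearMap.funLeft ℝ ℝ du) := by
      refine Submodule.span_le.2 ?_
      rintro l (⟨i, hi, rfl⟩ | ⟨i, hi, rfl⟩)
      · refine Submodule.subset_span (Or.inr ⟨i, fun h => hi ((hCL i).1 h), ?_⟩)
        funext s
        exact hvz al i s
      · refine Submodule.subset_span (Or.inl ⟨i, fun h => hi ((hLC i).1 h), ?_⟩)
        funext s
        exact hzv be i s
    exact h2 hl
  have himg : ∀ ρ : Finset (Pt α), (ρ.image du).image du = ρ := by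
    intro ρ
    rw [image_image]
    have h2 : (du ∘ du : Pt α → Pt α) = id := funext hdd
    rw [h2, image_id]
  have hchn1 : ∀ r : Finset α → ℕ, IsRank r → ∀ ρ, Chn r ρ → Chn (dual r) (ρ.image du) := by
    intro r hr ρ h
    refine ⟨?_, ?_⟩
    · intro s hs
      obtain ⟨t, ht, rfl⟩ := mem_image.1 hs
      exact (hsta r hr t).2 (h.1 t ht)
    · intro s hs t ht
      obtain ⟨s', hs', rfl⟩ := mem_image.1 hs
      obtain ⟨t', ht', rfl⟩ := mem_image.1 ht
      rw [hle, hle]
      exact (h.2 s' hs' t' ht').symm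
  have hchn : ∀ r : Finset α → ℕ, IsRank r → ∀ ρ, Chn (dual r) (ρ.image du) ↔ Chn r ρ := by
    intro r hr ρ
    refine ⟨fun h => ?_, hchn1 r hr ρ⟩
    have h2 := hchn1 (dual r) (hdr r hr).1 _ h
    rwa [(hdr r hr).2, himg] at h2
  have hfc1 : ∀ r : Finset α → ℕ, IsRank r → ∀ ρ, Fc r ρ → Fc (dual r) (ρ.image du) := by
    intro r hr ρ h
    refine ⟨hchn1 r hr ρ h.1, ?_⟩
    rcases h.2 with h2 | ⟨i, hi⟩
    · left
      rw [h2, image_empty]
    · right
      refine ⟨i, ?_⟩
      intro s hs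
      obtain ⟨t, ht, rfl⟩ := mem_image.1 hs
      exact (hnop i t).2 (hi t ht)
  have hfc : ∀ r : Finset α → ℕ, IsRank r → ∀ ρ, Fc (dual r) (ρ.image du) ↔ Fc r ρ := by
    intro r hr ρ
    refine ⟨fun h => ?_, hfc1 r hr ρ⟩
    have h2 := hfc1 (dual r) (hdr r hr).1 _ h
    rwa [(hdr r hr).2, himg] at h2
  have hkop : ∀ (be : ℝ) (ρ : Finset (Pt α)), kop be (ρ.image du) = 1 - kcl be ρ := by
    intro be ρ
    have h2 : (ρ.image du = ∅ ∨ ∃ i, ∀ s ∈ ρ.image du, s.S = true → i ∈ s.G ∨ s.T = true) ↔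
        (ρ = ∅ ∨ ∃ i, ∀ s ∈ ρ, s.T = false → i ∉ s.F ∨ s.S = false) := by
      rw [image_eq_empty]
      refine or_congr Iff.rfl (exists_congr fun i => ?_)
      simp only [mem_image, forall_exists_index, and_imp, forall_apply_eq_imp_iff₂]
      refine forall₂_congr fun s _ => ?_
      change ((!s.T) = true → i ∈ s.Fᶜ ∨ (!s.S) = true) ↔ _
      rw [mem_compl, Bool.not_eq_true', Bool.not_eq_true']
    unfold kop kcl
    by_cases h3 : ρ = ∅ ∨ ∃ i, ∀ s ∈ ρ, s.T = false → i ∉ s.F ∨ s.S = false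
    · rw [if_pos (h2.2 h3), if_pos h3, sub_zero]
    · rw [if_neg (fun h => h3 (h2.1 h)), if_neg h3]
  have hkcl : ∀ (al : ℝ) (ρ : Finset (Pt α)), kcl al (ρ.image du) = 1 - kop al ρ := by
    intro al ρ
    have h2 := hkop al (ρ.image du)
    rw [himg] at h2
    rw [h2]
    ring
  refine ⟨hdd, hle, hlt, (hbt r hr).1, (hbt r hr).2, hex r hr, hsta r hr, hht, hnop, hcri, hvz,
    hzv, hlin, hfc r hr, hchn r hr, ?_, ?_, ?_⟩
  · intro al be ρ
    have hcard : (ρ.image du).card = ρ.card := card_image_of_injective ρ hinj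
    unfold tw
    rw [hkop, hkcl, hcard]
    have e : 1 - kcl be ρ - (1 - kop al ρ) = kop al ρ - kcl be ρ := by ring
    rw [e]
    by_cases h2 : Fc r ρ ∧ ρ.card = Fintype.card α
    · rw [if_pos h2, if_pos ⟨(hfc r hr ρ).2 h2.1, h2.2⟩]
    · rw [if_neg h2, if_neg (fun h => h2 ⟨(hfc r hr ρ).1 h.1, h.2⟩)]
  · intro a b
    ext p
    unfold mid
    simp only [mem_filter, mem_univ, true_and, mem_image]
    constructor
    · rintro ⟨h2, h3, h4⟩
      refine ⟨du p, ⟨?_, ?_, ?_⟩, hdd p⟩
      · rw [← hex r hr, hdd]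
        exact h2
      · rw [← hlt, hdd]
        exact h4
      · rw [← hlt, hdd]
        exact h3
    · rintro ⟨q, ⟨h2, h3, h4⟩, rfl⟩
      exact ⟨(hex r hr q).2 h2, (hlt b q).2 h4, (hlt q a).2 h3⟩
  · intro a b
    unfold ncc du
    simp only [compl_inj_iff]
    have e1 : (b.G = a.G) = (a.G = b.G) := propext eq_comm
    have e2 : (b.F = a.F) = (a.F = b.F) := propext eq_comm
    have e3 : ((!b.T) = (!a.T)) = (a.T = b.T) := by
      cases a.T <;> cases b.T <;> simp
    have e4 : ((!b.S) = (!a.S)) = (a.S = b.S) := by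
      cases a.S <;> cases b.S <;> simp
    simp only [e1, e2, e3, e4]
    ring

end Pool.Agent.QPR
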