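import Pool.Agent.QPR.StS
import Pool.Agent.QPR.HRDiv

/-!
# FAM: ample from the facets (helper80)

MP_9c4433_lc, part (1).
-/

set_option autoImplicit false

open Finset

namespace Pool.Agent.QPR

namespace SFAM

variable {V : Type} [Fintype V] [DecidableEq V] {C : Cx V} {w : Finset V → ℝ} {n : ℕ}

/-- there is a facet which contains `ρ` and does not contain `v` -/
theorem avoid (ht : Top C n w) {ρ : Finset V} {v : V} (hv : v ∉ ρ) (hF : C.F (insert v ρ)) :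
    ∃ σ, C.F σ ∧ ρ ⊆ σ ∧ σ.card = n ∧ v ∉ σ := by
  obtain ⟨σ', hσ', hsub, hcard⟩ := ht.pure _ hF
  have hvσ : v ∈ σ' := hsub (mem_insert_self _ _)
  obtain ⟨l, hl, hlv⟩ := C.sep σ' hσ' (Pi.single v 1)
  have hbal := ht.wt.bal (σ'.erase v) l hl (by
    intro u hu
    rw [hlv u (mem_of_mem_erase hu), Pi.single_eq_of_ne (ne_of_mem_erase hu)])
  have hpos := ht.pos σ' hσ' hcard
  have hvm : v ∈ (σ'.erase v)ᶜ := by simp
  rw [← add_sum_erase _ _ hvm, insert_erase hvσ, hlv v hvσ, Pi.single_eq_same, mul_one] at hbal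
  have hne : ∑ u ∈ (σ'.erase v)ᶜ.erase v, w (insert u (σ'.erase v)) * l u ≠ 0 := by
    intro h
    rw [h, add_zero] at hbal
    exact hpos.ne' hbal
  obtain ⟨u, hu, hne'⟩ := exists_ne_zero_of_sum_ne_zero hne
  have huv : u ≠ v := ne_of_mem_erase hu
  have huτ : u ∉ σ'.erase v := mem_compl.1 (mem_of_mem_erase hu)
  have hFu : C.F (insert u (σ'.erase v)) := by
    by_contra h
    exact hne' (by rw [ht.wt.supp _ h, zero_mul])
  refine ⟨insert u (σ'.erase v), hFu, ?_, ?_, ?_⟩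
  · intro x hx
    refine mem_insert_of_mem (mem_erase.2 ⟨?_, hsub (mem_insert_of_mem hx)⟩)
    rintro rfl
    exact hv hx
  · rw [card_insert_of_notMem huτ, card_erase_add_one hvσ, hcard]
  · rw [mem_insert, not_or]
    exact ⟨huv.symm, notMem_erase v σ'⟩

end SFAM

open SFAM in
/-- (FAM) -/
theorem t_FAM : Stmt_FAM := by
  classical
  intro V _ _ C n w a ht _ _ hf ρ hρ
  have hch : ∀ σ : Finset V, ∃ l ∈ C.L, C.F σ → σ.card = n → (∀ u ∈ σ, l u = a u) ∧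
      ∀ v, v ∉ σ → C.F {v} → l v < a v := by
    intro σ
    by_cases h : C.F σ ∧ σ.card = n
    · obtain ⟨l, hl, h1⟩ := hf σ h.1 h.2
      exact ⟨l, hl, fun _ _ => h1⟩
    · exact ⟨0, C.L.zero_mem, fun h1 h2 => absurd ⟨h1, h2⟩ h⟩
  choose L hL hLp using hch
  set S : Finset (Finset V) := univ.filter (fun σ => C.F σ ∧ ρ ⊆ σ ∧ σ.card = n) with hS
  have hSne : S.Nonempty := by
    obtain ⟨σ, h1, h2, h3⟩ := ht.pure ρ hρ
    exact ⟨σ, by rw [hS, mem_filter]; exact ⟨mem_univ _, h1, h2, h3⟩⟩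
  have hSc : (0 : ℝ) < (S.card : ℝ) := by
    exact_mod_cast hSne.card_pos
  have hval : ∀ v, ((S.card : ℝ)⁻¹ • ∑ σ ∈ S, L σ) v = (S.card : ℝ)⁻¹ * ∑ σ ∈ S, L σ v := by
    intro v
    rw [Pi.smul_apply, Finset.sum_apply, smul_eq_mul]
  refine ⟨(S.card : ℝ)⁻¹ • ∑ σ ∈ S, L σ, C.L.smul_mem _ (C.L.sum_mem fun σ _ => hL σ), ?_, ?_⟩
  · intro u hu
    have h1 : ∑ σ ∈ S, L σ u = ∑ _σ ∈ S, a u := by
      refine sum_congr rfl fun σ hσ => ?_
      rw [hS, mem_filter] at hσ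
      exact (hLp σ hσ.2.1 hσ.2.2.2).1 u (hσ.2.2.1 hu)
    rw [hval, h1, sum_const, nsmul_eq_mul, inv_mul_cancel_left₀ hSc.ne']
  · intro v hv hFv
    have hFv1 : C.F {v} := C.down _ _ (by
      intro x hx
      rw [mem_singleton.1 hx]
      exact mem_insert_self _ _) hFv
    have h1 : ∑ σ ∈ S, L σ v < ∑ _σ ∈ S, a v := by
      refine sum_lt_sum (fun σ hσ => ?_) ?_
      · rw [hS, mem_filter] at hσ
        by_cases hvσ : v ∈ σ
        · exact ((hLp σ hσ.2.1 hσ.2.2.2).1 v hvσ).le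
        · exact ((hLp σ hσ.2.1 hσ.2.2.2).2 v hvσ hFv1).le
      · obtain ⟨σ, h2, h3, h4, h5⟩ := avoid ht hv hFv
        exact ⟨σ, by rw [hS, mem_filter]; exact ⟨mem_univ _, h2, h3, h4⟩,
          (hLp σ h2 h4).2 v h5 hFv1⟩
    rw [sum_const, nsmul_eq_mul] at h1
    rw [hval]
    calc (S.card : ℝ)⁻¹ * ∑ σ ∈ S, L σ v < (S.card : ℝ)⁻¹ * ((S.card : ℝ) * a v) :=
          mul_lt_mul_of_pos_left h1 (inv_pos.2 hSc)
      _ = a v := inv_mul_cancel_left₀ hSc.ne' _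

end Pool.Agent.QPR
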