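import Pool.Agent.QPR.StS
import Pool.Agent.QPR.HRMain

/-!
# The complex of states: assembly (helper86)
-/

set_option autoImplicit false

open Finset

namespace Pool.Agent.QPR

theorem kop_kcl_pos {α : Type} [Fintype α] [DecidableEq α] {al be : ℝ} (hw : Win al be)
    (ρ : Finset (Pt α)) : 0 < kop al ρ - kcl be ρ := by
  have h1 := hw.a0
  have h2 := hw.b0
  have h3 := hw.ab
  unfold kop kcl
  split_ifs <;> linarith

theorem fin_wt (hBAL : Stmt_BAL) {α : Type} [Fintype α] [DecidableEq α] (r : Finset α → ℕ)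
    (al be : ℝ) (hs : Sep r al be) (hr : IsRank r) (hw : Win al be) :
    Wt (cx r al be hs) (tw r al be) := by
  refine ⟨?_, ?_⟩
  · intro ρ hρ
    unfold tw
    rw [if_neg]
    rintro ⟨h, _⟩
    exact hρ h
  · intro ρ l hl h0
    exact hBAL α r al be hr hw ρ l hl h0

theorem fin_TOP (hPUR : Stmt_PUR) (hBAL : Stmt_BAL) : Stmt_TOP := by
  intro α _ _ r al be hs hr hw
  refine ⟨fin_wt hBAL r al be hs hr hw, ?_, ?_⟩
  · intro σ hσ hn
    unfold tw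
    rw [if_pos ⟨hσ, hn⟩]
    exact inv_pos.2 (kop_kcl_pos hw σ)
  · intro ρ hρ
    obtain ⟨σ, h1, h2, h3⟩ := hPUR α r hr ρ hρ
    exact ⟨σ, h1, h2, h3⟩

theorem fin_AMP (hPUR : Stmt_PUR) (hDIM : Stmt_DIM) (hBAL : Stmt_BAL) (hFAM : Stmt_FAM)
    (hAMF : Stmt_AMF) : Stmt_AMP := by
  intro α _ _ r al be hs hr hw
  obtain ⟨A, hA⟩ := hAMF α r al be hr hw
  refine ⟨A, hFAM (Pt α) (cx r al be hs) (Fintype.card α) (tw r al be) A
    (fin_TOP hPUR hBAL α r al be hs hr hw) (fun ρ hρ => (hDIM α r hr).2 ρ hρ) ?_ ?_⟩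
  · intro ρ hn
    unfold tw
    rw [if_neg]
    rintro ⟨_, h⟩
    exact hn h
  · intro σ hσ hn
    obtain ⟨l, hl, h1, h2⟩ := hA σ hσ hn
    refine ⟨l, hl, h1, ?_⟩
    intro v hv hv'
    exact h2 v hv (hv'.1.1 v (by simp))

theorem fin_CONN (hCON : Stmt_CON) : Stmt_CONN := by
  intro α _ _ r al be hs hr _ ρ hρ hn z hz u v hu hv hfu hfv
  refine hCON α r hr ρ hρ hn z ?_ u v ⟨hu, hfu⟩ ⟨hv, hfv⟩
  intro u' v' hu' hv' huv h
  exact hz u' v' hu'.1 hv'.1 huv h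

theorem fin_QUAD (hTOP : Stmt_TOP) (hAMP : Stmt_AMP) (hQC : Stmt_QC) (hQDA : Stmt_QDA) :
    Stmt_QUAD := by
  intro α _ _ r al be hs hr hw ρ hρ hn
  obtain ⟨a, ha⟩ := hAMP α r al be hs hr hw
  obtain ⟨Z, h, hZ, hmu, hh⟩ := hQDA α r al be hr hw ρ hρ hn
  refine hQC (Pt α) (cx r al be hs) (Fintype.card α) (tw r al be) a
    (hTOP α r al be hs hr hw) ha ρ hρ hn Z h ?_ hmu ?_
  · intro u hu
    exact ⟨(hZ u hu).1.1, (hZ u hu).1.2, (hZ u hu).2⟩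
  · intro u hu hfu huZ
    obtain ⟨h0, l, hl, h1, h2, h3⟩ := hh u ⟨hu, hfu⟩ huZ
    refine ⟨h0, l, hl, h1, h2, ?_⟩
    intro v hv hvu hf
    refine h3 v ⟨hv, ?_⟩ hvu hf
    exact (cx r al be hs).down _ _ (by
      intro x hx
      simp only [mem_insert] at hx ⊢
      rcases hx with h | h
      · exact Or.inl h
      · exact Or.inr (Or.inr h)) hf

end Pool.Agent.QPR
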