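import Pool.Agent.QPR.StS

/-!
# QPR1_GAP (helper69): gaps of chains of states
-/

set_option autoImplicit false

open Finset

namespace Pool.Agent.QPR.GAP

variable {α : Type} [Fintype α] [DecidableEq α]

theorem mem_hat {r : Finset α → ℕ} {ρ : Finset (Pt α)} {s : Pt α} :
    s ∈ hat r ρ ↔ s = bot r ∨ s = top r ∨ s ∈ ρ := by
  simp [hat]

theorem mem_mid {r : Finset α → ℕ} {a b p : Pt α} :
    p ∈ mid r a b ↔ Ex0 r p ∧ a < p ∧ p < b := by
  classical
  simp [mid]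

/-- the data used from `Stmt_HT` -/
structure HD (r : Finset α → ℕ) : Prop where
  be : Ex0 r (bot r)
  te : Ex0 r (top r)
  bt : ∀ s, Ex0 r s → bot r ≤ s ∧ s ≤ top r
  h0 : ht r (bot r) = 0
  hn : ht r (top r) = Fintype.card α + 2
  mono : ∀ s t, Ex0 r s → Ex0 r t → s < t → ht r s < ht r t
  sta : ∀ s, Sta r s → 1 ≤ ht r s ∧ ht r s ≤ Fintype.card α + 1
  clo : ∀ s i, Ex0 r s → (i ∈ s.G ∨ s.T = true) → i ∈ s.F ∧ s.S = true

theorem HD.le {r : Finset α → ℕ} (h : HD r) {s t : Pt α} (hs : Ex0 r s) (ht' : Ex0 r t)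
    (hst : s ≤ t) : ht r s ≤ ht r t := by
  rcases eq_or_lt_of_le hst with e | e
  · rw [e]
  · exact (h.mono s t hs ht' e).le

theorem hat_ex {r : Finset α → ℕ} (h : HD r) {ρ : Finset (Pt α)} (hρ : Chn r ρ) :
    ∀ s ∈ hat r ρ, Ex0 r s := by
  intro s hs
  rcases mem_hat.1 hs with e | e | e
  · rw [e]; exact h.be
  · rw [e]; exact h.te
  · exact (hρ.1 s e).ex

theorem hat_tot {r : Finset α → ℕ} (h : HD r) {ρ : Finset (Pt α)} (hρ : Chn r ρ) :
    ∀ s ∈ hat r ρ, ∀ t ∈ hat r ρ, s ≤ t ∨ t ≤ s := by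
  intro s hs t ht
  rcases mem_hat.1 hs with e | e | e
  · left; rw [e]; exact (h.bt t (hat_ex h hρ t ht)).1
  · right; rw [e]; exact (h.bt t (hat_ex h hρ t ht)).2
  · rcases mem_hat.1 ht with e' | e' | e'
    · right; rw [e']; exact (h.bt s (hat_ex h hρ s hs)).1
    · left; rw [e']; exact (h.bt s (hat_ex h hρ s hs)).2
    · exact hρ.2 s e t e'

theorem hat_le {r : Finset α → ℕ} (h : HD r) {ρ : Finset (Pt α)} (hρ : Chn r ρ) {s t : Pt α}
    (hs : s ∈ hat r ρ) (ht' : t ∈ hat r ρ) (hst : ht r s ≤ ht r t) : s ≤ t := by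
  rcases hat_tot h hρ s hs t ht' with e | e
  · exact e
  · rcases eq_or_lt_of_le e with e' | e'
    · exact e'.ge
    · exact absurd (h.mono t s (hat_ex h hρ t ht') (hat_ex h hρ s hs) e') (not_lt.2 hst)

/-- the gap where a down-closed property ends -/
theorem split {r : Finset α → ℕ} (h : HD r) {ρ : Finset (Pt α)} (hρ : Chn r ρ)
    (P : Pt α → Prop) (hb : P (bot r)) (ht' : ¬ P (top r))
    (hP : ∀ s ∈ hat r ρ, ∀ t ∈ hat r ρ, s ≤ t → P t → P s) :
    ∃ a b, Gp r ρ a b ∧ P a ∧ ¬ P b := by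
  classical
  obtain ⟨a, ha, hamax⟩ := exists_max_image ((hat r ρ).filter P) (ht r)
    ⟨bot r, mem_filter.2 ⟨mem_hat.2 (Or.inl rfl), hb⟩⟩
  obtain ⟨b, hb', hbmin⟩ := exists_min_image ((hat r ρ).filter (fun s => ¬ P s)) (ht r)
    ⟨top r, mem_filter.2 ⟨mem_hat.2 (Or.inr (Or.inl rfl)), ht'⟩⟩
  obtain ⟨ha1, ha2⟩ := mem_filter.1 ha
  obtain ⟨hb1, hb2⟩ := mem_filter.1 hb'
  refine ⟨a, b, ⟨ha1, hb1, ?_, ?_⟩, ha2, hb2⟩
  · rcases hat_tot h hρ a ha1 b hb1 with e | e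
    · refine lt_of_le_of_ne e ?_
      intro e'
      rw [e'] at ha2
      exact hb2 ha2
    · exact absurd (hP b hb1 a ha1 e ha2) hb2
  · intro s hs
    by_cases hPs : P s
    · left
      exact hat_le h hρ hs ha1 (hamax s (mem_filter.2 ⟨hs, hPs⟩))
    · right
      exact hat_le h hρ hb1 hs (hbmin s (mem_filter.2 ⟨hs, hPs⟩))

theorem gp_dis {r : Finset α → ℕ} {ρ : Finset (Pt α)} {a b a' b' : Pt α}
    (g : Gp r ρ a b) (g' : Gp r ρ a' b') : (a = a' ∧ b = b') ∨ b ≤ a' ∨ b' ≤ a := by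
  rcases g.sep a' g'.ha with h1 | h1
  · rcases g'.sep a g.ha with h2 | h2
    · have e : a = a' := le_antisymm h2 h1
      rcases g.sep b' g'.hb with h3 | h3
      · exact Or.inr (Or.inr h3)
      · rcases g'.sep b g.hb with h4 | h4
        · exact Or.inr (Or.inl h4)
        · exact Or.inl ⟨e, le_antisymm h3 h4⟩
    · exact Or.inr (Or.inr h2)
  · exact Or.inr (Or.inl h1)

theorem mid_out {r : Finset α → ℕ} {ρ : Finset (Pt α)} {a b v : Pt α}
    (g : Gp r ρ a b) (hv : v ∈ mid r a b) : v ∉ hat r ρ := by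
  intro hv'
  obtain ⟨_, h1, h2⟩ := mem_mid.1 hv
  rcases g.sep v hv' with h | h
  · exact absurd (lt_of_lt_of_le h1 h) (lt_irrefl _)
  · exact absurd (lt_of_lt_of_le h2 h) (lt_irrefl _)

theorem hat_insert {r : Finset α → ℕ} {ρ : Finset (Pt α)} {v s : Pt α}
    (hs : s ∈ hat r (insert v ρ)) : s = v ∨ s ∈ hat r ρ := by
  rcases mem_hat.1 hs with e | e | e
  · exact Or.inr (mem_hat.2 (Or.inl e))
  · exact Or.inr (mem_hat.2 (Or.inr (Or.inl e)))
  · rcases mem_insert.1 e with e' | e'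
    · exact Or.inl e'
    · exact Or.inr (mem_hat.2 (Or.inr (Or.inr e')))

theorem hat_mono {r : Finset α → ℕ} {ρ : Finset (Pt α)} {v s : Pt α}
    (hs : s ∈ hat r ρ) : s ∈ hat r (insert v ρ) := by
  rcases mem_hat.1 hs with e | e | e
  · exact mem_hat.2 (Or.inl e)
  · exact mem_hat.2 (Or.inr (Or.inl e))
  · exact mem_hat.2 (Or.inr (Or.inr (mem_insert_of_mem e)))

theorem ins {r : Finset α → ℕ} {ρ : Finset (Pt α)} (hρ : Chn r ρ)
    {a b v : Pt α} (g : Gp r ρ a b) (hv : v ∈ mid r a b) :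
    Sta r v ∧ v ∉ ρ ∧ Chn r (insert v ρ) ∧ Gp r (insert v ρ) a v ∧ Gp r (insert v ρ) v b := by
  obtain ⟨hve, h1, h2⟩ := mem_mid.1 hv
  have hvo := mid_out g hv
  have hvs : Sta r v := by
    refine ⟨hve, ?_, ?_⟩
    · intro e
      exact hvo (mem_hat.2 (Or.inl e))
    · intro e
      exact hvo (mem_hat.2 (Or.inr (Or.inl e)))
  have hvr : v ∉ ρ := fun e => hvo (mem_hat.2 (Or.inr (Or.inr e)))
  have hcomp : ∀ s ∈ hat r ρ, s ≤ v ∨ v ≤ s := by
    intro s hs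
    rcases g.sep s hs with e | e
    · exact Or.inl (e.trans h1.le)
    · exact Or.inr (h2.le.trans e)
  have hchn : Chn r (insert v ρ) := by
    refine ⟨?_, ?_⟩
    · intro s hs
      rcases mem_insert.1 hs with e | e
      · rw [e]; exact hvs
      · exact hρ.1 s e
    · intro s hs t ht
      rcases mem_insert.1 hs with e | e
      · rcases mem_insert.1 ht with e' | e'
        · left; rw [e, e']
        · rw [e]
          exact (hcomp t (mem_hat.2 (Or.inr (Or.inr e')))).symm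
      · rcases mem_insert.1 ht with e' | e'
        · rw [e']
          exact hcomp s (mem_hat.2 (Or.inr (Or.inr e)))
        · exact hρ.2 s e t e'
  refine ⟨hvs, hvr, hchn, ⟨hat_mono g.ha, ?_, h1, ?_⟩, ⟨?_, hat_mono g.hb, h2, ?_⟩⟩
  · exact mem_hat.2 (Or.inr (Or.inr (mem_insert_self v ρ)))
  · intro s hs
    rcases hat_insert hs with e | e
    · right; rw [e]
    · rcases g.sep s e with e' | e'
      · exact Or.inl e'
      · exact Or.inr (h2.le.trans e')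
  · exact mem_hat.2 (Or.inr (Or.inr (mem_insert_self v ρ)))
  · intro s hs
    rcases hat_insert hs with e | e
    · left; rw [e]
    · rcases g.sep s e with e' | e'
      · exact Or.inl (e'.trans h1.le)
      · exact Or.inr e'

theorem ins2 {r : Finset α → ℕ} {ρ : Finset (Pt α)}
    {a b v a' b' : Pt α} (g : Gp r ρ a b) (hv : v ∈ mid r a b) (g' : Gp r ρ a' b')
    (hne : (a', b') ≠ (a, b)) : Gp r (insert v ρ) a' b' := by
  obtain ⟨hve, h1, h2⟩ := mem_mid.1 hv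
  refine ⟨hat_mono g'.ha, hat_mono g'.hb, g'.lt, ?_⟩
  intro s hs
  rcases hat_insert hs with e | e
  · rw [e]
    rcases gp_dis g g' with ⟨e1, e2⟩ | e' | e'
    · exact absurd (by rw [e1, e2]) hne
    · exact Or.inl (h2.le.trans e')
    · exact Or.inr (e'.trans h1.le)
  · exact g'.sep s e

theorem ins3 {r : Finset α → ℕ} (h : HD r) {ρ : Finset (Pt α)} (hρ : Chn r ρ) {v : Pt α}
    (hv : v ∉ ρ) (hc : Chn r (insert v ρ)) : ∃ a b, Gp r ρ a b ∧ v ∈ mid r a b := by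
  have hvs : Sta r v := hc.1 v (mem_insert_self v ρ)
  have hvh : v ∉ hat r ρ := by
    intro e
    rcases mem_hat.1 e with e' | e' | e'
    · exact hvs.nb e'
    · exact hvs.nt e'
    · exact hv e'
  have hcomp : ∀ s ∈ hat r ρ, s ≤ v ∨ v ≤ s := fun s hs =>
    hat_tot h hc s (hat_mono hs) v (mem_hat.2 (Or.inr (Or.inr (mem_insert_self v ρ))))
  obtain ⟨a, b, g, ha, hb⟩ := split h hρ (fun s => s ≤ v) (h.bt v hvs.ex).1
    (fun e => hvs.nt (le_antisymm (h.bt v hvs.ex).2 e))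
    (fun s _ t _ hst htv => hst.trans htv)
  refine ⟨a, b, g, mem_mid.2 ⟨hvs.ex, ?_, ?_⟩⟩
  · refine lt_of_le_of_ne ha ?_
    intro e
    exact hvh (e ▸ g.ha)
  · rcases hcomp b g.hb with e | e
    · exact absurd e hb
    · refine lt_of_le_of_ne e ?_
      intro e'
      exact hvh (e' ▸ g.hb)

theorem ht_inj {r : Finset α → ℕ} (h : HD r) {ρ : Finset (Pt α)} (hρ : Chn r ρ) {s t : Pt α}
    (hs : s ∈ hat r ρ) (ht' : t ∈ hat r ρ) (e : ht r s = ht r t) : s = t :=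
  le_antisymm (hat_le h hρ hs ht' e.le) (hat_le h hρ ht' hs e.ge)

theorem miss_card {r : Finset α → ℕ} (h : HD r) {ρ : Finset (Pt α)} (hρ : Chn r ρ) :
    (miss r ρ).card + ρ.card = Fintype.card α + 1 := by
  classical
  have e : miss r ρ = Icc 1 (Fintype.card α + 1) \ ρ.image (ht r) := by
    ext t
    simp only [miss, mem_filter, mem_sdiff, mem_image, not_exists, not_and]
  have hsub : ρ.image (ht r) ⊆ Icc 1 (Fintype.card α + 1) := by
    intro t ht'
    obtain ⟨s, hs, rfl⟩ := mem_image.1 ht'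
    exact mem_Icc.2 (h.sta s (hρ.1 s hs))
  have hc : (ρ.image (ht r)).card = ρ.card := by
    refine card_image_of_injOn ?_
    intro s hs t ht' e'
    exact ht_inj h hρ (mem_hat.2 (Or.inr (Or.inr hs))) (mem_hat.2 (Or.inr (Or.inr ht'))) e'
  have h1 := card_sdiff_add_card_eq_card hsub
  rw [← e, hc, Nat.card_Icc] at h1
  omega

theorem gp_miss {r : Finset α → ℕ} (h : HD r) {ρ : Finset (Pt α)} (hρ : Chn r ρ) {a b : Pt α}
    (g : Gp r ρ a b) : Ioo (ht r a) (ht r b) ⊆ miss r ρ := by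
  intro t ht'
  obtain ⟨h1, h2⟩ := mem_Ioo.1 ht'
  have hb : ht r b ≤ Fintype.card α + 2 := by
    rw [← h.hn]
    exact h.le (hat_ex h hρ b g.hb) h.te (h.bt b (hat_ex h hρ b g.hb)).2
  refine mem_filter.2 ⟨mem_Icc.2 ⟨by omega, by omega⟩, ?_⟩
  intro s hs e
  have hs' : s ∈ hat r ρ := mem_hat.2 (Or.inr (Or.inr hs))
  rcases g.sep s hs' with e' | e'
  · have := h.le (hat_ex h hρ s hs') (hat_ex h hρ a g.ha) e'
    omega
  · have := h.le (hat_ex h hρ b g.hb) (hat_ex h hρ s hs') e'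
    omega

theorem sum_le {r : Finset α → ℕ} (h : HD r) {ρ : Finset (Pt α)} (hρ : Chn r ρ)
    (g : Finset (Pt α × Pt α)) (hg : ∀ p ∈ g, Gp r ρ p.1 p.2) :
    ∑ p ∈ g, (ht r p.2 - ht r p.1 - 1) + ρ.card ≤ Fintype.card α + 1 := by
  classical
  have h1 : (g.biUnion (fun p => Ioo (ht r p.1) (ht r p.2))).card =
      ∑ p ∈ g, (ht r p.2 - ht r p.1 - 1) := by
    rw [card_biUnion]
    · refine sum_congr rfl ?_
      intro p _
      exact Nat.card_Ioo _ _
    · intro p hp q hq hpq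
      have gp := hg p hp
      have gq := hg q hq
      refine Finset.disjoint_left.2 ?_
      intro t h1 h2
      obtain ⟨h3, h4⟩ := mem_Ioo.1 h1
      obtain ⟨h5, h6⟩ := mem_Ioo.1 h2
      rcases gp_dis gp gq with ⟨e1, e2⟩ | e | e
      · exact hpq (Prod.ext e1 e2)
      · have := h.le (hat_ex h hρ _ gp.hb) (hat_ex h hρ _ gq.ha) e
        omega
      · have := h.le (hat_ex h hρ _ gq.hb) (hat_ex h hρ _ gp.ha) e
        omega
  have h2 : (g.biUnion (fun p => Ioo (ht r p.1) (ht r p.2))).card ≤ (miss r ρ).card := by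
    refine card_le_card ?_
    intro t ht'
    obtain ⟨p, hp, hpt⟩ := mem_biUnion.1 ht'
    exact gp_miss h hρ (hg p hp) hpt
  have h3 := miss_card h hρ
  omega

theorem lev {r : Finset α → ℕ} (h : HD r) {ρ : Finset (Pt α)} (hρ : Chn r ρ) (t : ℕ)
    (h1 : 1 ≤ t) (h2 : t ≤ Fintype.card α + 1) (h3 : ∀ s ∈ ρ, ht r s ≠ t) :
    ∃ a b, Gp r ρ a b ∧ ht r a < t ∧ t < ht r b := by
  obtain ⟨a, b, g, ha, hb⟩ := split h hρ (fun s => ht r s < t)
    (by rw [h.h0]; omega) (by rw [h.hn]; omega)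
    (fun s hs u hu hsu hut => lt_of_le_of_lt
      (h.le (hat_ex h hρ s hs) (hat_ex h hρ u hu) hsu) hut)
  refine ⟨a, b, g, ha, ?_⟩
  have hb1 : ht r b ≠ t := by
    rcases mem_hat.1 g.hb with e | e | e
    · rw [e, h.h0]; omega
    · rw [e, h.hn]; omega
    · exact h3 b e
  omega

theorem cri {r : Finset α → ℕ} (h : HD r) {ρ : Finset (Pt α)} (hρ : Chn r ρ) (i : α)
    (hi : ∀ s ∈ ρ, Nop i s) : ∃ a b, Gp r ρ a b ∧ Cri a b i ∧
    ∀ a' b' v, Gp r ρ a' b' → (a', b') ≠ (a, b) → v ∈ mid r a' b' → Nop i v := by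
  obtain ⟨a, b, g, ha, hb⟩ := split h hρ (fun s => ¬ (i ∈ s.F ∧ s.S = true))
    (fun e => by simp [bot] at e)
    (fun e => e ⟨by simp [top], by simp [top]⟩)
    (fun s _ t _ hst hPt hPs => hPt ⟨hst.1 hPs.1, hst.2.2.1 hPs.2⟩)
  have hbo : i ∈ b.F ∧ b.S = true := not_not.1 hb
  have hbc : i ∈ b.G ∨ b.T = true := by
    rcases mem_hat.1 g.hb with e | e | e
    · exfalso
      have := hbo.2
      rw [e] at this
      simp [bot] at this
    · right
      rw [e]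
      simp [top]
    · exact hi b e hbo.1 hbo.2
  refine ⟨a, b, g, ⟨ha, hbc⟩, ?_⟩
  intro a' b' v g' hne hv
  obtain ⟨_, h1, h2⟩ := mem_mid.1 hv
  rcases gp_dis g g' with ⟨e1, e2⟩ | e | e
  · exact absurd (by rw [e1, e2]) hne
  · intro _ _
    have hbv : b ≤ v := e.trans h1.le
    rcases hbc with e' | e'
    · exact Or.inl (hbv.2.1 e')
    · exact Or.inr (hbv.2.2.2 e')
  · intro h3 h4
    have hva : v ≤ a := h2.le.trans e
    exact absurd ⟨hva.1 h3, hva.2.2.1 h4⟩ ha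

end Pool.Agent.QPR.GAP

namespace Pool.Agent.QPR

theorem t_GAP (h1 : Stmt_HT) : Stmt_GAP := by
  intro α _ _ r hr ρ hρ
  obtain ⟨_, q1, q2, q3, q4, q5, _, q7, q8, q9, _⟩ := h1 α r hr
  have h : GAP.HD r := ⟨q1, q2, q3, q4, q5, q7, q8, q9⟩
  exact ⟨GAP.hat_ex h hρ, GAP.hat_tot h hρ, fun a b v g hv => GAP.ins hρ g hv,
    fun a b v a' b' g hv g' hne => GAP.ins2 g hv g' hne,
    fun v hv hc => GAP.ins3 h hρ hv hc, GAP.miss_card h hρ, GAP.sum_le h hρ,
    fun a b a' b' g g' => GAP.gp_dis g g', GAP.lev h hρ, GAP.cri h hρ⟩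

end Pool.Agent.QPR
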