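import Pool.Agent.QPR.StS

/-!
# Heights (QPR1_HT)
-/

set_option autoImplicit false

open Finset

namespace Pool.Agent.QPR

theorem t_HT (h1 : Stmt_FLA) (h2 : Stmt_CYC) : Stmt_HT := by
  intro α _ _ r hr
  obtain ⟨-, hcard, -, -, hFs, -, -, -, -, -, hbF, hb0, hbmin, -⟩ := h1 α r hr
  obtain ⟨-, -, -, hGs, -, -, -, -, -, htG, htn, htmax, -⟩ := h2 α r hr
  have key : ∀ s t, Ex0 r s → Ex0 r t → s ≤ t →
      (r s.F + (if s.F = t.F then 0 else 1) ≤ r t.F) ∧
      (nu r s.G + (if s.G = t.G then 0 else 1) ≤ nu r t.G) ∧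
      ((if s.S = true then 1 else 0) + (if s.S = t.S then 0 else 1) ≤
        (if t.S = true then 1 else 0)) ∧
      ((if s.T = true then 1 else 0) + (if s.T = t.T then 0 else 1) ≤
        (if t.T = true then 1 else 0)) := by
    intro s t hs ht hst
    obtain ⟨hF, hG, hS, hT⟩ := Pt.le_iff.1 hst
    refine ⟨?_, ?_, ?_, ?_⟩
    · split_ifs with h
      · rw [h, add_zero]
      · exact hFs s.F t.F hs.flat (lt_of_le_of_ne hF h)
    · split_ifs with h
      · rw [h, add_zero]
      · exact hGs s.G t.G ht.cyc (lt_of_le_of_ne hG h)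
    · revert hS
      cases s.S <;> cases t.S <;> simp
    · revert hT
      cases s.T <;> cases t.T <;> simp
  have hform : ∀ s, ht r s = r s.F + nu r s.G + (if s.S = true then 1 else 0) +
      (if s.T = true then 1 else 0) := fun s => rfl
  have hcc : ∀ s t, Ex0 r s → Ex0 r t → s ≤ t → ncc s t + ht r s ≤ ht r t := by
    intro s t hs ht' hst
    obtain ⟨k1, k2, k3, k4⟩ := key s t hs ht' hst
    rw [hform s, hform t]
    unfold ncc
    omega
  have hlt : ∀ s t, Ex0 r s → Ex0 r t → s < t → ht r s < ht r t := by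
    intro s t hs ht' hst
    have h3 := hcc s t hs ht' hst.le
    have h4 : 1 ≤ ncc s t := by
      by_contra hcon
      have h5 : ncc s t = 0 := by omega
      unfold ncc at h5
      apply hst.ne
      obtain ⟨F, G, S, T⟩ := s
      obtain ⟨F', G', S', T'⟩ := t
      simp only at h5
      have e1 : F = F' := by
        by_contra h
        rw [if_neg h] at h5
        omega
      have e2 : G = G' := by
        by_contra h
        rw [if_neg h] at h5
        omega
      have e3 : S = S' := by
        by_contra h
        rw [if_neg h] at h5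
        omega
      have e4 : T = T' := by
        by_contra h
        rw [if_neg h] at h5
        omega
      rw [e1, e2, e3, e4]
    omega
  have hbot : Ex0 r (bot r) := by
    refine ⟨hbF, ?_, ?_, ?_, ?_, ?_⟩
    · intro e he
      exact absurd he (Finset.notMem_empty e)
    · exact Finset.empty_subset _
    · intro h
      exact absurd h Finset.not_nonempty_empty
    · intro h
      exact absurd h Bool.false_ne_true
    · intro h
      exact absurd h Bool.false_ne_true
  have htop : Ex0 r (top r) := by
    refine ⟨?_, htG, ?_, ?_, ?_, ?_⟩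
    · intro e he
      exact absurd (Finset.mem_univ e) he
    · exact Finset.subset_univ _
    · intro _
      rfl
    · intro _
      rfl
    · intro _
      rfl
  have hle : ∀ s, Ex0 r s → bot r ≤ s ∧ s ≤ top r := by
    intro s hs
    refine ⟨Pt.le_iff.2 ⟨hbmin s.F hs.flat, Finset.empty_subset _, ?_, ?_⟩,
      Pt.le_iff.2 ⟨Finset.subset_univ _, htmax s.G hs.cyc, fun _ => rfl, fun _ => rfl⟩⟩
    · intro h
      exact absurd h Bool.false_ne_true
    · intro h
      exact absurd h Bool.false_ne_true
  have hb : ht r (bot r) = 0 := by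
    rw [hform, hb0]
    unfold nu bot
    simp
  have ht2 : ht r (top r) = Fintype.card α + 2 := by
    rw [hform, htn]
    have h3 := hcard univ
    rw [Finset.card_univ] at h3
    have h4 : r (top r).F = r univ := rfl
    have h5 : (top r).S = true := rfl
    have h6 : (top r).T = true := rfl
    rw [h4, if_pos h5, if_pos h6]
    unfold nu
    rw [Finset.card_univ]
    omega
  refine ⟨?_, hbot, htop, hle, hb, ht2, hform, hlt, ?_, ?_, ?_⟩
  · intro s
    constructor
    · intro h
      exact ⟨h.flat, h.cyc, h.GF, h.GS, h.TS, h.TF⟩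
    · rintro ⟨a, b, c, d, e, f⟩
      exact ⟨a, b, c, d, e, f⟩
  · intro s hs
    have h3 := hlt _ _ hbot hs.ex (lt_of_le_of_ne (hle s hs.ex).1 (Ne.symm hs.nb))
    have h4 := hlt _ _ hs.ex htop (lt_of_le_of_ne (hle s hs.ex).2 hs.nt)
    omega
  · intro s i hs h
    rcases h with h | h
    · exact ⟨hs.GF h, hs.GS ⟨i, h⟩⟩
    · exact ⟨by rw [hs.TF h]; exact Finset.mem_univ i, hs.TS h⟩
  · intro s t hs ht' hst
    have h3 := hcc s t hs ht' hst
    omega

end Pool.Agent.QPR
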