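import Pool.Agent.QPR.StS

/-!
# QPR1_PUR (helper42): purity of the complex of states
-/

set_option autoImplicit false

open Finset

namespace Pool.Agent.QPR

theorem pur_aux {α : Type} [Fintype α] [DecidableEq α] (r : Finset α → ℕ) (hr : IsRank r)
    (h2 : Stmt_BET) (h3 : Stmt_GAP) (h4 : Stmt_DIM) (h5 : Stmt_CG) :
    ∀ k : ℕ, ∀ ρ, Fc r ρ → Fintype.card α - ρ.card = k →
      ∃ σ, Fc r σ ∧ ρ ⊆ σ ∧ σ.card = Fintype.card α := by
  intro k
  induction k with
  | zero =>
    intro ρ hρ hk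
    have hle := (h4 α r hr).2 ρ hρ
    exact ⟨ρ, hρ, Subset.refl _, by omega⟩
  | succ k ih =>
    intro ρ hρ hk
    have hlt : ρ.card < Fintype.card α := by omega
    -- a never open element
    obtain ⟨i, hi⟩ : ∃ i, ∀ s ∈ ρ, Nop i s := by
      rcases hρ.2 with h | h
      · have hpos : 0 < Fintype.card α := by omega
        obtain ⟨i⟩ := Fintype.card_pos_iff.1 hpos
        refine ⟨i, fun s hs => ?_⟩
        rw [h] at hs
        simp at hs
      · exact h
    obtain ⟨g1, _, g3, _, _, g6, _, _, g9, g10⟩ := h3 α r hr ρ hρ.1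
    obtain ⟨a, b, hab, hcri, hoth⟩ := g10 i hi
    -- the extension
    obtain ⟨v, hv1, hv2, hv3⟩ : ∃ v, v ∉ ρ ∧ Chn r (insert v ρ) ∧ Nop i v := by
      have ea := g1 a hab.ha
      have eb := g1 b hab.hb
      by_cases hc : ht r a + 3 ≤ ht r b
      · obtain ⟨v, hv, hn⟩ := h5 α r hr a b i ea eb hab.lt hcri hc
        have := g3 a b v hab hv
        exact ⟨v, this.2.1, this.2.2.1, hn⟩
      · have hcard : 1 < (miss r ρ).card := by omega
        obtain ⟨t, ht1, ht2⟩ := Finset.exists_mem_ne hcard (ht r a + 1)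
        unfold miss at ht1
        rw [Finset.mem_filter, Finset.mem_Icc] at ht1
        obtain ⟨a', b', hab', hta, htb⟩ := g9 t ht1.1.1 ht1.1.2 ht1.2
        have hne : (a', b') ≠ (a, b) := by
          intro h
          rw [Prod.mk.injEq] at h
          rw [h.1] at hta
          rw [h.2] at htb
          omega
        obtain ⟨v, hv, hav, hvb, _⟩ := h2 α r hr a' b' (g1 a' hab'.ha) (g1 b' hab'.hb) hab'.lt
          (by omega)
        have hm : v ∈ mid r a' b' := by
          simp only [mid, Finset.mem_filter, mem_univ, true_and]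
          exact ⟨hv, hav, hvb⟩
        have := g3 a' b' v hab' hm
        exact ⟨v, this.2.1, this.2.2.1, hoth a' b' v hab' hne hm⟩
    have hF : Fc r (insert v ρ) := by
      refine ⟨hv2, Or.inr ⟨i, fun s hs => ?_⟩⟩
      rcases Finset.mem_insert.1 hs with h | h
      · rw [h]
        exact hv3
      · exact hi s h
    have hc : (insert v ρ).card = ρ.card + 1 := Finset.card_insert_of_notMem hv1
    obtain ⟨σ, h1, h2', h3'⟩ := ih (insert v ρ) hF (by omega)
    exact ⟨σ, h1, (Finset.subset_insert v ρ).trans h2', h3'⟩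

theorem t_PUR (_h1 : Stmt_HT) (h2 : Stmt_BET) (h3 : Stmt_GAP) (h4 : Stmt_DIM) (h5 : Stmt_CG) :
    Stmt_PUR := by
  intro α _ _ r hr ρ hρ
  exact pur_aux r hr h2 h3 h4 h5 _ ρ hρ rfl

end Pool.Agent.QPR
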