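import Pool.Agent.QPR.StS

/-!
QPR1_Q0A: the sign criterion at a face without missing levels which has a gap with two different
components and without critical elements.
-/

set_option autoImplicit false

open Finset

namespace Pool.Agent.QPR.M_Q0A

variable {α : Type} [Fintype α] [DecidableEq α]

theorem lin_bot_top {r : Finset α → ℕ} {al be : ℝ} {l : Pt α → ℝ} (hl : l ∈ Lin r al be) :
    l (bot r) = 0 ∧ l (top r) = 0 := by
  unfold Lin at hl
  induction hl using Submodule.span_induction with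
  | mem x hx =>
    rcases hx with ⟨i, hi, rfl⟩ | ⟨i, hi, rfl⟩
    · constructor
      · simp [vv, bot, hi]
      · simp [vv, top]
        ring
    · constructor
      · simp [zz, bot]
      · simp [zz, top, hi]
  | zero => exact ⟨rfl, rfl⟩
  | add x y _ _ hx hy =>
    exact ⟨by simp [hx.1, hy.1], by simp [hx.2, hy.2]⟩
  | smul c x _ hx => exact ⟨by simp [hx.1], by simp [hx.2]⟩

theorem lin_hat {r : Finset α → ℕ} {al be : ℝ} {l : Pt α → ℝ} (hl : l ∈ Lin r al be)
    {ρ : Finset (Pt α)} (h0 : ∀ s ∈ ρ, l s = 0) {a : Pt α} (ha : a ∈ hat r ρ) : l a = 0 := by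
  unfold hat at ha
  rw [Finset.mem_insert, Finset.mem_insert] at ha
  rcases ha with rfl | rfl | ha
  · exact (lin_bot_top hl).1
  · exact (lin_bot_top hl).2
  · exact h0 a ha

/-- a non-critical gap can be filled -/
theorem fill (h2 : Stmt_GAP) {r : Finset α → ℕ} (hr : IsRank r) [Nonempty α] {σ : Finset (Pt α)}
    (hσ : Fc r σ) {a b p : Pt α} (hg : Gp r σ a b) (hc : ∀ i, ¬ Cri a b i) (hp : p ∈ mid r a b) :
    p ∉ σ ∧ Fc r (insert p σ) := by
  obtain ⟨g1, g2, g3, g4, g5, g6, g7, g8, g9, g10⟩ := h2 α r hr σ hσ.1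
  obtain ⟨e1, e2, e3, e4, e5⟩ := g3 a b p hg hp
  refine ⟨e2, e3, Or.inr ?_⟩
  obtain ⟨i, hi⟩ : ∃ i, ∀ s ∈ σ, Nop i s := by
    rcases hσ.2 with h | h
    · obtain ⟨i⟩ := ‹Nonempty α›
      refine ⟨i, ?_⟩
      rw [h]
      intro s hs
      exact absurd hs (Finset.notMem_empty s)
    · exact h
  refine ⟨i, ?_⟩
  obtain ⟨a', b', k1, k2, k3⟩ := g10 i hi
  intro s hs
  rw [Finset.mem_insert] at hs
  rcases hs with rfl | hs
  · refine k3 a b s hg ?_ hp
    intro h
    rw [Prod.mk.injEq] at h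
    rw [← h.1, ← h.2] at k2
    exact hc i k2
  · exact hi s hs

/-- a gap stays a gap if an element outside is inserted -/
theorem keep (h2 : Stmt_GAP) {r : Finset α → ℕ} (hr : IsRank r) {σ : Finset (Pt α)}
    (hσ : Chn r σ) {a b u : Pt α} (hg : Gp r σ a b) (hu : u ∉ σ) (hc : Chn r (insert u σ))
    (hm : u ∉ mid r a b) : Gp r (insert u σ) a b := by
  obtain ⟨g1, g2, g3, g4, g5, g6, g7, g8, g9, g10⟩ := h2 α r hr σ hσ
  obtain ⟨a', b', k1, k2⟩ := g5 u hu hc
  refine g4 a' b' u a b k1 k2 hg ?_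
  intro h
  rw [Prod.mk.injEq] at h
  rw [← h.1, ← h.2] at k2
  exact hm k2

omit [Fintype α] in
theorem nu_mono {r : Finset α → ℕ} (hr : IsRank r) {A B : Finset α} (h : A ⊆ B) :
    nu r A ≤ nu r B := by
  have h1 := hr.card_le A (B \ A)
  rw [Finset.union_sdiff_of_subset h] at h1
  have h2 := Finset.card_sdiff_add_card_eq_card h
  have h3 := hr.card_le ∅ A
  rw [Finset.empty_union, hr.empty] at h3
  unfold nu
  omega

theorem ht_eq {r : Finset α → ℕ} (hr : IsRank r) (h1 : Stmt_HT) {ρ : Finset (Pt α)}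
    (hF : mF r ρ = ∅) (hG : mG r ρ = ∅) {a b : Pt α} (hg : Gp r ρ a b) (hcc : ncc a b = 2)
    (ha : Ex0 r a) (hb : Ex0 r b) : ht r b = ht r a + 2 := by
  obtain ⟨t1, t2, t3, t4, t5, t6, t7, t8, t9, t10, t11⟩ := h1 α r hr
  have k1 := t11 a b ha hb hg.lt.le
  have k2 := t8 a b ha hb hg.lt
  rw [hcc] at k1
  obtain ⟨l1, l2, l3, l4⟩ := Pt.le_iff.1 hg.lt.le
  have m1 : r b.F ≤ r a.F + 1 := by
    by_contra hne
    have hmem : r a.F + 1 ∈ mF r ρ := by
      unfold mF
      rw [Finset.mem_filter, Finset.mem_Icc]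
      have := hr.mono_subset (Finset.subset_univ b.F)
      refine ⟨⟨by omega, by omega⟩, ?_⟩
      intro s hs
      rcases hg.sep s hs with h | h
      · have := hr.mono_subset (Pt.le_iff.1 h).1
        omega
      · have := hr.mono_subset (Pt.le_iff.1 h).1
        omega
    rw [hF] at hmem
    exact Finset.notMem_empty _ hmem
  have m2 : nu r b.G ≤ nu r a.G + 1 := by
    by_contra hne
    have hmem : nu r a.G + 1 ∈ mG r ρ := by
      unfold mG
      rw [Finset.mem_filter, Finset.mem_Icc]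
      have := nu_mono hr (Finset.subset_univ b.G)
      refine ⟨⟨by omega, by omega⟩, ?_⟩
      intro s hs
      rcases hg.sep s hs with h | h
      · have := nu_mono hr (Pt.le_iff.1 h).2.1
        omega
      · have := nu_mono hr (Pt.le_iff.1 h).2.1
        omega
    rw [hG] at hmem
    exact Finset.notMem_empty _ hmem
  have n1 : r b.F ≤ r a.F + (if a.F = b.F then 0 else 1) := by
    by_cases h : a.F = b.F
    · rw [h]
      exact Nat.le_add_right _ _
    · rw [if_neg h]
      exact m1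
  have n2 : nu r b.G ≤ nu r a.G + (if a.G = b.G then 0 else 1) := by
    by_cases h : a.G = b.G
    · rw [h]
      exact Nat.le_add_right _ _
    · rw [if_neg h]
      exact m2
  have n3 : ∀ x y : Bool, (if y = true then 1 else 0) ≤
      (if x = true then 1 else 0) + (if x = y then 0 else 1) := by decide
  have n4 := n3 a.S b.S
  have n5 := n3 a.T b.T
  rw [t7 a, t7 b] at k1 ⊢
  unfold ncc at hcc
  omega

/-- the two components of a double gap can be split -/
theorem mid_nonempty {r : Finset α → ℕ} (h1 : Stmt_HT) (hr : IsRank r) {a b : Pt α}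
    (hab : a < b) (hcc : ncc a b = 2) (ha : Ex0 r a) (hb : Ex0 r b) : (mid r a b).Nonempty := by
  obtain ⟨t1, t2⟩ := h1 α r hr
  obtain ⟨l1, l2, l3, l4⟩ := Pt.le_iff.1 hab.le
  obtain ⟨a1, a2, a3, a4, a5, a6⟩ := (t1 a).1 ha
  obtain ⟨b1, b2, b3, b4, b5, b6⟩ := (t1 b).1 hb
  have key : ∀ p : Pt α, Ex0 r p → a ≤ p → p ≤ b → p ≠ a → p ≠ b → (mid r a b).Nonempty := by
    intro p hp h3 h4 h5 h6
    refine ⟨p, ?_⟩
    simp only [mid, Finset.mem_filter]
    exact ⟨Finset.mem_univ p, hp, lt_of_le_of_ne h3 (Ne.symm h5), lt_of_le_of_ne h4 h6⟩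
  by_cases hT : a.F = b.F ∧ a.S = b.S
  · -- `G` and `T` change
    have hGT : a.G ≠ b.G ∧ a.T ≠ b.T := by
      unfold ncc at hcc
      rw [if_pos hT.1, if_pos hT.2] at hcc
      by_cases c1 : a.G = b.G <;> by_cases c2 : a.T = b.T <;> simp_all
    have hbT : b.T = true := by
      cases c : b.T
      · cases c' : a.T
        · exact absurd (c'.trans c.symm) hGT.2
        · have := l4 c'
          rw [c] at this
          exact this
      · rfl
    have haT : a.T = false := by
      cases c : a.T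
      · rfl
      · exact absurd (c.trans hbT.symm) hGT.2
    refine key ⟨a.F, b.G, a.S, a.T⟩ ?_ ?_ ?_ ?_ ?_
    · rw [t1]
      refine ⟨a1, b2, ?_, ?_, a5, a6⟩
      · change b.G ⊆ a.F
        rw [hT.1]
        exact b3
      · intro _
        change a.S = true
        rw [hT.2]
        exact b5 hbT
    · rw [Pt.le_iff]
      exact ⟨Finset.Subset.refl _, l2, id, id⟩
    · rw [Pt.le_iff]
      exact ⟨l1, Finset.Subset.refl _, l3, l4⟩
    · intro h
      have h7 : b.G = a.G := by
        have h9 := congrArg Pt.G h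
        exact h9
      exact hGT.1 h7.symm
    · intro h
      have h7 : a.T = b.T := by
        have h9 := congrArg Pt.T h
        exact h9
      exact hGT.2 h7
  · by_cases hS : a.G = b.G ∧ a.T = b.T
    · -- `F` and `S` change
      have hFS : a.F ≠ b.F ∧ a.S ≠ b.S := by
        unfold ncc at hcc
        rw [if_pos hS.1, if_pos hS.2] at hcc
        by_cases c1 : a.F = b.F <;> by_cases c2 : a.S = b.S <;> simp_all
      refine key ⟨b.F, a.G, a.S, a.T⟩ ?_ ?_ ?_ ?_ ?_
      · rw [t1]
        refine ⟨b1, a2, a3.trans l1, a4, a5, ?_⟩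
        intro h
        change b.F = univ
        have := a6 h
        rw [this] at l1
        exact Finset.univ_subset_iff.1 l1
      · rw [Pt.le_iff]
        exact ⟨l1, Finset.Subset.refl _, id, id⟩
      · rw [Pt.le_iff]
        exact ⟨Finset.Subset.refl _, l2, l3, l4⟩
      · intro h
        have h7 : b.F = a.F := by
          have h9 := congrArg Pt.F h
          exact h9
        exact hFS.1 h7.symm
      · intro h
        have h7 : a.S = b.S := by
          have h9 := congrArg Pt.S h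
          exact h9
        exact hFS.2 h7
    · refine key ⟨b.F, a.G, b.S, a.T⟩ ?_ ?_ ?_ ?_ ?_
      · rw [t1]
        refine ⟨b1, a2, a3.trans l1, fun h => l3 (a4 h), fun h => l3 (a5 h), ?_⟩
        intro h
        change b.F = univ
        have := a6 h
        rw [this] at l1
        exact Finset.univ_subset_iff.1 l1
      · rw [Pt.le_iff]
        exact ⟨l1, Finset.Subset.refl _, l3, id⟩
      · rw [Pt.le_iff]
        exact ⟨Finset.Subset.refl _, l2, id, l4⟩
      · intro h
        have h7 : b.F = a.F := by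
          have h9 := congrArg Pt.F h
          exact h9
        have h8 : b.S = a.S := by
          have h9 := congrArg Pt.S h
          exact h9
        exact hT ⟨h7.symm, h8.symm⟩
      · intro h
        have h7 : a.G = b.G := by
          have h9 := congrArg Pt.G h
          exact h9
        have h8 : a.T = b.T := by
          have h9 := congrArg Pt.T h
          exact h9
        exact hS ⟨h7, h8⟩

omit [Fintype α] in
theorem cc_one {a b : Pt α} (h : ncc a b = 1) :
    (a.F ≠ b.F ∧ a.G = b.G ∧ a.S = b.S ∧ a.T = b.T) ∨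
    (a.F = b.F ∧ a.G ≠ b.G ∧ a.S = b.S ∧ a.T = b.T) ∨
    (a.F = b.F ∧ a.G = b.G ∧ a.S ≠ b.S ∧ a.T = b.T) ∨
    (a.F = b.F ∧ a.G = b.G ∧ a.S = b.S ∧ a.T ≠ b.T) := by
  unfold ncc at h
  by_cases c1 : a.F = b.F <;> by_cases c2 : a.G = b.G <;> by_cases c3 : a.S = b.S <;>
    by_cases c4 : a.T = b.T <;> simp [c1, c2, c3, c4] at h ⊢

omit [Fintype α] in
theorem kap_F {al be : ℝ} {a b : Pt α} (h : a.F ≠ b.F) (h' : a.S = b.S) :
    kap al be a b = 1 - al := by
  unfold kap
  rw [if_neg (not_not.2 h'), if_pos h]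

omit [Fintype α] in
theorem kap_G {al be : ℝ} {a b : Pt α} (h : a.F = b.F) (h' : a.S = b.S) (h2 : a.G ≠ b.G) :
    kap al be a b = be := by
  unfold kap
  rw [if_neg (not_not.2 h'), if_neg (not_not.2 h), if_pos h2]

omit [Fintype α] in
theorem kap_S {al be : ℝ} {a b : Pt α} (h' : a.S ≠ b.S) : kap al be a b = 1 := by
  unfold kap
  rw [if_pos h']

omit [Fintype α] in
theorem kap_T {al be : ℝ} {a b : Pt α} (h : a.F = b.F) (h' : a.S = b.S) (h2 : a.G = b.G) :
    kap al be a b = 0 := by
  unfold kap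
  rw [if_neg (not_not.2 h'), if_neg (not_not.2 h), if_neg (not_not.2 h2)]

omit [Fintype α] in
/-- two steps of different kinds have different `kap` -/
theorem kap_ne {al be : ℝ} (hw : Win al be) {a u b : Pt α}
    (hcc : ncc a b = 2) (hs : ncc a u + ncc u b = ncc a b) (h1 : 1 ≤ ncc a u) (h2 : 1 ≤ ncc u b) :
    kap al be a u ≠ kap al be u b := by
  obtain ⟨w1, w2, w3⟩ := hw
  have e1 : ncc a u = 1 := by omega
  have e2 : ncc u b = 1 := by omega
  have bad : ∀ n1 n2 n3 n4 : ℕ, ncc a b = n1 + n2 + n3 + n4 → n1 + n2 + n3 + n4 ≤ 1 → False := by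
    intro n1 n2 n3 n4 h h'
    omega
  have i1 : ∀ P : Prop, ∀ _ : Decidable P, (if P then 0 else 1) ≤ 1 := by
    intro P hP
    split_ifs <;> decide
  rcases cc_one e1 with ⟨a1, a2, a3, a4⟩ | ⟨a1, a2, a3, a4⟩ | ⟨a1, a2, a3, a4⟩ | ⟨a1, a2, a3, a4⟩ <;>
    rcases cc_one e2 with ⟨b1, b2, b3, b4⟩ | ⟨b1, b2, b3, b4⟩ | ⟨b1, b2, b3, b4⟩ | ⟨b1, b2, b3, b4⟩
  · exfalso
    unfold ncc at hcc
    rw [if_pos (a2.trans b2), if_pos (a3.trans b3), if_pos (a4.trans b4)] at hcc
    have := i1 (a.F = b.F) inferInstance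
    omega
  · rw [kap_F a1 a3, kap_G b1 b3 b2]
    intro h
    linarith
  · rw [kap_F a1 a3, kap_S b3]
    intro h
    linarith
  · rw [kap_F a1 a3, kap_T b1 b3 b2]
    intro h
    linarith
  · rw [kap_G a1 a3 a2, kap_F b1 b3]
    intro h
    linarith
  · exfalso
    unfold ncc at hcc
    rw [if_pos (a1.trans b1), if_pos (a3.trans b3), if_pos (a4.trans b4)] at hcc
    have := i1 (a.G = b.G) inferInstance
    omega
  · rw [kap_G a1 a3 a2, kap_S b3]
    intro h
    linarith
  · rw [kap_G a1 a3 a2, kap_T b1 b3 b2]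
    intro h
    linarith
  · rw [kap_S a3, kap_F b1 b3]
    intro h
    linarith
  · rw [kap_S a3, kap_G b1 b3 b2]
    intro h
    linarith
  · exfalso
    unfold ncc at hcc
    rw [if_pos (a1.trans b1), if_pos (a2.trans b2), if_pos (a4.trans b4)] at hcc
    have := i1 (a.S = b.S) inferInstance
    omega
  · rw [kap_S a3, kap_T b1 b3 b2]
    intro h
    linarith
  · rw [kap_T a1 a3 a2, kap_F b1 b3]
    intro h
    linarith
  · rw [kap_T a1 a3 a2, kap_G b1 b3 b2]
    intro h
    linarith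
  · rw [kap_T a1 a3 a2, kap_S b3]
    intro h
    linarith
  · exfalso
    unfold ncc at hcc
    rw [if_pos (a1.trans b1), if_pos (a2.trans b2), if_pos (a3.trans b3)] at hcc
    have := i1 (a.T = b.T) inferInstance
    omega

end Pool.Agent.QPR.M_Q0A

namespace Pool.Agent.QPR

open M_Q0A

theorem t_Q0A (h0 : Stmt_SEP) (h1 : Stmt_HT) (h2 : Stmt_GAP) (h3 : Stmt_DIM) (_h4 : Stmt_ACC)
    (h5 : Stmt_TR0) (h6 : Stmt_DG) (h7 : Stmt_QCZ) : Stmt_Q0A := by
  intro α _ _ r al be hr hw ρ hρ hcard hF hG a b hg hcc hcr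
  have hne : Nonempty α := Fintype.card_pos_iff.1 (by omega)
  have hsep := h0 α r al be hr hw
  obtain ⟨g1, g2, g3, g4, g5, g6, g7, g8, g9, g10⟩ := h2 α r hr ρ hρ.1
  have ha := g1 a hg.ha
  have hb := g1 b hg.hb
  have hht := ht_eq hr h1 hF hG hg hcc ha hb
  obtain ⟨p0, hp0⟩ := mid_nonempty h1 hr hg.lt hcc ha hb
  -- the second case of the double gap
  obtain ⟨p, q, hpq, hmid, hlin⟩ : ∃ p q, p ≠ q ∧ mid r a b = {p, q} ∧
      ∀ l ∈ Lin r al be, l p + l q = l a + l b := by
    rcases h6 α r al be hr hw a b ha hb hg.lt hht with h | ⟨_, p, q, k1, k2, _, _, k5⟩ | ⟨⟨i, hi⟩, _⟩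
    · exfalso
      obtain ⟨_, _, t3⟩ := h5 α r hr ρ a b p0 hρ.1 hg hp0
      have n1 : r p0.F ∉ mF r ρ := by
        rw [hF]
        exact Finset.notMem_empty _
      have n2 : nu r p0.G ∉ mG r ρ := by
        rw [hG]
        exact Finset.notMem_empty _
      obtain ⟨c1, c2, c3⟩ := t3 n1 n2
      exact kap_ne hw hcc c1 c2 c3 (h.2.1 p0 hp0)
    · exact ⟨p, q, k1, k2, k5⟩
    · exact absurd hi (hcr i)
  have hp : p ∈ mid r a b := by
    rw [hmid]
    exact Finset.mem_insert_self _ _
  have hq : q ∈ mid r a b := by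
    rw [hmid]
    exact Finset.mem_insert_of_mem (Finset.mem_singleton_self _)
  obtain ⟨p1, p2⟩ := fill h2 hr hρ hg hcr hp
  obtain ⟨q1, q2⟩ := fill h2 hr hρ hg hcr hq
  have hZ : ∀ u ∈ ({p, q} : Finset (Pt α)), u = p ∨ u = q := by
    intro u hu
    rwa [Finset.mem_insert, Finset.mem_singleton] at hu
  have hmem : ∀ u : Pt α, u ∉ ({p, q} : Finset (Pt α)) → u ∉ mid r a b := by
    intro u hu
    rwa [hmid]
  refine ⟨{p, q}, fun u => if u ∈ ({p, q} : Finset (Pt α)) then 0 else 1, ?_, ?_, ?_⟩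
  · intro u hu
    refine ⟨?_, if_pos hu⟩
    rcases hZ u hu with rfl | rfl
    · exact ⟨p1, p2⟩
    · exact ⟨q1, q2⟩
  · refine h7 α r al be hsep ρ {p, q} q ?_ ?_
    · intro u hu
      rcases hZ u hu with rfl | rfl
      · exact p1
      · exact q1
    · have e1 : ({p, q} : Finset (Pt α)).erase q = {p} := by
        ext u
        rw [Finset.mem_erase, Finset.mem_insert, Finset.mem_singleton, Finset.mem_singleton]
        constructor
        · rintro ⟨h, h' | h'⟩
          · exact h'
          · exact absurd h' h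
        · rintro rfl
          exact ⟨hpq, Or.inl rfl⟩
      rw [e1, Finset.union_comm, ← Finset.insert_eq]
      exact p2
  · intro u hu huZ
    have hum := hmem u huZ
    have hgu : Gp r (insert u ρ) a b := keep h2 hr hρ.1 hg hu.1 hu.2.1 hum
    obtain ⟨s1, s2⟩ := fill h2 hr hu.2 hgu hcr hp
    have hhu : (fun u : Pt α => if u ∈ ({p, q} : Finset (Pt α)) then (0 : ℝ) else 1) u = 1 :=
      if_neg huZ
    refine ⟨by rw [hhu]; exact zero_lt_one, ?_⟩
    obtain ⟨l, hl, hl2⟩ := hsep (insert p (insert u ρ)) s2 (fun s => if s = u then 1 else 0)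
    have hlρ : ∀ s ∈ ρ, l s = 0 := by
      intro s hs
      rw [hl2 s (Finset.mem_insert_of_mem (Finset.mem_insert_of_mem hs)), if_neg]
      rintro rfl
      exact hu.1 hs
    have hlp : l p = 0 := by
      rw [hl2 p (Finset.mem_insert_self _ _), if_neg]
      rintro rfl
      exact s1 (Finset.mem_insert_self _ _)
    have hlq : l q = 0 := by
      have e1 := hlin l hl
      rw [lin_hat hl hlρ hg.ha, lin_hat hl hlρ hg.hb, hlp] at e1
      linarith
    have hlu : l u = 1 := by
      rw [hl2 u (Finset.mem_insert_of_mem (Finset.mem_insert_self _ _)), if_pos rfl]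
    refine ⟨l, hl, hlρ, ?_, ?_⟩
    · rw [hlu, hhu]
    · intro v hv hvu hf
      by_cases hvZ : v ∈ ({p, q} : Finset (Pt α))
      · have hhv : (fun u : Pt α => if u ∈ ({p, q} : Finset (Pt α)) then (0 : ℝ) else 1) v = 0 :=
          if_pos hvZ
        rw [hhv]
        rcases hZ v hvZ with h | h
        · rw [h, hlp]
        · rw [h, hlq]
      · exfalso
        have hvn : v ∉ insert u ρ := by
          rw [Finset.mem_insert]
          rintro (h | h)
          · exact hvu h
          · exact hv.1 h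
        have hgv := keep h2 hr hu.2.1 hgu hvn hf.1 (hmem v hvZ)
        obtain ⟨z1, z2⟩ := fill h2 hr hf hgv hcr hp
        have c1 := (h3 α r hr).2 _ z2
        rw [Finset.card_insert_of_notMem z1, Finset.card_insert_of_notMem hvn,
          Finset.card_insert_of_notMem hu.1] at c1
        omega

end Pool.Agent.QPR
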