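import Pool.Agent.QPR.StS

/-!
# Faces with `n - 2` elements, three critical gaps (helper90)

MP_9c4433_lc, part (1): proof of `Stmt_Q0B` from the earlier statements.
-/

set_option autoImplicit false

open Finset

namespace Pool.Agent.QPR

namespace Q0Bh

variable {α : Type} [Fintype α] [DecidableEq α]

omit [Fintype α] [DecidableEq α] in
/-- A critical element of `(a, b)` is not open at the points outside the gap. -/
theorem nop_of_cri {a b : Pt α} {i : α} (hc : Cri a b i) {s : Pt α} (hs : s ≤ a ∨ b ≤ s) :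
    Nop i s := by
  intro h1 h2
  rcases hs with h | h
  · exact absurd ⟨h.1 h1, h.2.2.1 h2⟩ hc.1
  · rcases hc.2 with h3 | h3
    · exact Or.inl (h.2.1 h3)
    · exact Or.inr (h.2.2.2 h3)

/-- membership in `mid` -/
theorem mem_mid {r : Finset α → ℕ} {a b v : Pt α} (h : v ∈ mid r a b) :
    Ex0 r v ∧ a < v ∧ v < b := by
  classical
  unfold mid at h
  exact (Finset.mem_filter.1 h).2

/-- faces are closed under subsets -/
theorem fc_down {r : Finset α → ℕ} {σ ρ : Finset (Pt α)} (hρ : ρ ⊆ σ) (hσ : Fc r σ) : Fc r ρ := by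
  refine ⟨⟨fun s hs => hσ.1.1 s (hρ hs), fun s hs t ht => hσ.1.2 s (hρ hs) t (hρ ht)⟩, ?_⟩
  rcases hσ.2 with h | ⟨i, hi⟩
  · left
    rw [h] at hρ
    exact Finset.subset_empty.1 hρ
  · exact Or.inr ⟨i, fun s hs => hi s (hρ hs)⟩

end Q0Bh

open Q0Bh in
/-- No missing levels, three different critical gaps. -/
theorem t_Q0B (h0 : Stmt_SEP) (h1 : Stmt_HT) (h2 : Stmt_GAP) (h3 : Stmt_DIM) (_h4 : Stmt_ACC)
    (_h5 : Stmt_TR0) (h6 : Stmt_DG) (h7 : Stmt_QCZ) : Stmt_Q0B := by
  intro α _ _ r al be hr hw ρ hρ hcard _ _ a b a' b' a'' b'' g1 g2 g3 n12 n13 n23 c1 c2 c3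
  obtain ⟨i1, c1⟩ := c1
  obtain ⟨i2, c2⟩ := c2
  obtain ⟨i3, c3⟩ := c3
  have hne : Nonempty α := ⟨i1⟩
  obtain ⟨H1, _, H3, H4, H5, _, H7, H8, _, _⟩ := h2 α r hr ρ hρ.1
  have HT := (h1 α r hr).2.2.2.2.2.2.2.1
  have D1 := (h3 α r hr).1
  have e1 := H1 _ g1.ha
  have e1' := H1 _ g1.hb
  have e2 := H1 _ g2.ha
  have e2' := H1 _ g2.hb
  have e3 := H1 _ g3.ha
  have e3' := H1 _ g3.hb
  have d1 := (D1 a b i1 e1 e1' g1.lt c1).2.2.2
  have d2 := (D1 a' b' i2 e2 e2' g2.lt c2).2.2.2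
  have d3 := (D1 a'' b'' i3 e3 e3' g3.lt c3).2.2.2
  have hsum := H7 {(a, b), (a', b'), (a'', b'')} (by
    intro p hp
    simp only [Finset.mem_insert, Finset.mem_singleton] at hp
    rcases hp with rfl | rfl | rfl
    · exact g1
    · exact g2
    · exact g3)
  rw [Finset.sum_insert (by simp [n12, n13]), Finset.sum_insert (by simp [n23]),
    Finset.sum_singleton] at hsum
  simp only at hsum
  have q1 : ht r b = ht r a + 2 := by omega
  have q2 : ht r b' = ht r a' + 2 := by omega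
  have q3 : ht r b'' = ht r a'' + 2 := by omega
  -- other gaps have no element between
  have hoth : ∀ c d, Gp r ρ c d → (c, d) ≠ (a, b) → (c, d) ≠ (a', b') → (c, d) ≠ (a'', b'') →
      ∀ v, v ∉ mid r c d := by
    intro c d g m1 m2 m3 v hv
    have hs := H7 {(c, d), (a, b), (a', b'), (a'', b'')} (by
      intro p hp
      simp only [Finset.mem_insert, Finset.mem_singleton] at hp
      rcases hp with rfl | rfl | rfl | rfl
      · exact g
      · exact g1
      · exact g2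
      · exact g3)
    rw [Finset.sum_insert (by simp only [Finset.mem_insert, Finset.mem_singleton]; tauto),
      Finset.sum_insert (by simp [n12, n13]), Finset.sum_insert (by simp [n23]),
      Finset.sum_singleton] at hs
    simp only at hs
    obtain ⟨x1, x2, x3⟩ := mem_mid hv
    have y1 := HT c v (H1 _ g.ha) x1 x2
    have y2 := HT v d x1 (H1 _ g.hb) x3
    omega
  -- the three middle points
  have hmid : ∀ c d i, Gp r ρ c d → Cri c d i → ht r d = ht r c + 2 → ∃ p, mid r c d = {p} := by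
    intro c d i g hc hq
    rcases h6 α r al be hr hw c d (H1 _ g.ha) (H1 _ g.hb) g.lt hq with h | h | h
    · exact absurd hc (h.1 i)
    · exact absurd hc (h.1 i)
    · obtain ⟨_, p, hp, _⟩ := h
      exact ⟨p, hp⟩
  obtain ⟨p1, m1⟩ := hmid a b i1 g1 c1 q1
  obtain ⟨p2, m2⟩ := hmid a' b' i2 g2 c2 q2
  obtain ⟨p3, m3⟩ := hmid a'' b'' i3 g3 c3 q3
  have k1 : p1 ∈ mid r a b := by rw [m1]; exact Finset.mem_singleton_self _
  have k2 : p2 ∈ mid r a' b' := by rw [m2]; exact Finset.mem_singleton_self _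
  have k3 : p3 ∈ mid r a'' b'' := by rw [m3]; exact Finset.mem_singleton_self _
  -- never open elements
  have hn0 : ∀ c d i, Gp r ρ c d → Cri c d i → ∀ s ∈ ρ, Nop i s := by
    intro c d i g hc s hs
    exact nop_of_cri hc (g.sep s (by simp [hat, hs]))
  have hn1 : ∀ c d i c' d' v, Gp r ρ c d → Cri c d i → Gp r ρ c' d' → (c', d') ≠ (c, d) →
      v ∈ mid r c' d' → Nop i v := by
    intro c d i c' d' v g hc g' hne' hv
    obtain ⟨_, x2, x3⟩ := mem_mid hv
    rcases H8 c d c' d' g g' with ⟨rfl, rfl⟩ | h | h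
    · exact absurd rfl hne'
    · exact nop_of_cri hc (Or.inr (h.trans x2.le))
    · exact nop_of_cri hc (Or.inl (x3.le.trans h))
  -- link vertices
  have hlk : ∀ c d i c' d' v, Gp r ρ c d → Cri c d i → Gp r ρ c' d' → (c', d') ≠ (c, d) →
      v ∈ mid r c' d' → Lkv r ρ v := by
    intro c d i c' d' v g hc g' hne' hv
    obtain ⟨_, y2, y3, _⟩ := H3 c' d' v g' hv
    refine ⟨y2, y3, Or.inr ⟨i, ?_⟩⟩
    intro s hs
    rcases Finset.mem_insert.1 hs with rfl | hs
    · exact hn1 c d i c' d' s g hc g' hne' hv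
    · exact hn0 c d i g hc s hs
  have l1 : Lkv r ρ p1 := hlk a' b' i2 a b p1 g2 c2 g1 n12 k1
  have l2 : Lkv r ρ p2 := hlk a b i1 a' b' p2 g1 c1 g2 n12.symm k2
  have l3 : Lkv r ρ p3 := hlk a b i1 a'' b'' p3 g1 c1 g3 n13.symm k3
  -- two of them form a face with `ρ`
  have hf : Fc r (insert p2 (insert p1 ρ)) := by
    obtain ⟨_, _, y3, _⟩ := H3 a b p1 g1 k1
    have g2' := H4 a b p1 a' b' g1 k1 g2 n12.symm
    obtain ⟨_, _, K3, _⟩ := h2 α r hr (insert p1 ρ) y3
    obtain ⟨_, _, z3, _⟩ := K3 a' b' p2 g2' k2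
    refine ⟨z3, Or.inr ⟨i3, ?_⟩⟩
    intro s hs
    rcases Finset.mem_insert.1 hs with rfl | hs
    · exact hn1 a'' b'' i3 a' b' s g3 c3 g2 n23 k2
    rcases Finset.mem_insert.1 hs with rfl | hs
    · exact hn1 a'' b'' i3 a b s g3 c3 g1 n13 k1
    · exact hn0 a'' b'' i3 g3 c3 s hs
  refine ⟨{p1, p2, p3}, fun _ => 0, ?_, ?_, ?_⟩
  · intro u hu
    simp only [Finset.mem_insert, Finset.mem_singleton] at hu
    rcases hu with rfl | rfl | rfl
    · exact ⟨l1, rfl⟩
    · exact ⟨l2, rfl⟩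
    · exact ⟨l3, rfl⟩
  · refine h7 α r al be (h0 α r al be hr hw) ρ {p1, p2, p3} p3 ?_ ?_
    · intro u hu
      simp only [Finset.mem_insert, Finset.mem_singleton] at hu
      rcases hu with rfl | rfl | rfl
      · exact l1.1
      · exact l2.1
      · exact l3.1
    · refine fc_down ?_ hf
      intro u hu
      simp only [Finset.mem_union, Finset.mem_erase, Finset.mem_insert, Finset.mem_singleton] at hu ⊢
      tauto
  · intro u hu hz
    exfalso
    apply hz
    obtain ⟨c, d, g, hv⟩ := H5 u hu.1 hu.2.1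
    simp only [Finset.mem_insert, Finset.mem_singleton]
    by_cases m1' : (c, d) = (a, b)
    · obtain ⟨rfl, rfl⟩ := Prod.mk.injEq .. ▸ m1'
      rw [m1] at hv
      exact Or.inl (Finset.mem_singleton.1 hv)
    by_cases m2' : (c, d) = (a', b')
    · obtain ⟨rfl, rfl⟩ := Prod.mk.injEq .. ▸ m2'
      rw [m2] at hv
      exact Or.inr (Or.inl (Finset.mem_singleton.1 hv))
    by_cases m3' : (c, d) = (a'', b'')
    · obtain ⟨rfl, rfl⟩ := Prod.mk.injEq .. ▸ m3'
      rw [m3] at hv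
      exact Or.inr (Or.inr (Finset.mem_singleton.1 hv))
    · exact absurd hv (hoth c d g m1' m2' m3' u)

end Pool.Agent.QPR
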