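import Pool.Agent.QPR.StS

/-!
# The complex of states: faces with `n - 2` elements, a gap with three components (helper78)

Proves `Stmt_Q0C`.
-/

set_option autoImplicit false

open Finset

namespace Pool.Agent.QPR

namespace M_Q0C

variable {α : Type} [Fintype α] [DecidableEq α]

/-- not open for some critical element -/
def NO (a b u : Pt α) : Prop := ∃ i, Cri a b i ∧ Nop i u

/-- the context: two critical gaps `(a, b)` and `(a', b')`, `mid a' b' = {p'}` -/
structure Ctx (r : Finset α → ℕ) (al be : ℝ) (ρ : Finset (Pt α)) (a b p' : Pt α) : Prop where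
  sep : Sep r al be
  qcz : ∀ (Z : Finset (Pt α)) z0, (∀ u ∈ Z, u ∉ ρ) → Fc r (ρ ∪ Z.erase z0) →
    ∃ μ : Pt α → ℝ, ∀ f : Pt α → ℝ, ∑ u ∈ Z, μ u * f u = 0 →
      ∃ l ∈ Lin r al be, (∀ s ∈ ρ, l s = 0) ∧ ∀ u ∈ Z, l u = f u
  all : ∀ u, Lkv r ρ u → u ∈ mid r a b ∨ u = p'
  lk : ∀ u ∈ mid r a b, Lkv r ρ u
  lkp : Lkv r ρ p'
  ad : ∀ u ∈ mid r a b, ∀ v ∈ mid r a b, (u ≤ v ∨ v ≤ u) → Fc r (insert u (insert v ρ))
  adp : ∀ u ∈ mid r a b, NO a b u → Fc r (insert u (insert p' ρ))
  nad : ∀ u ∈ mid r a b, ¬ NO a b u → ¬ Fc r (insert u (insert p' ρ))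
  hl : ∀ l ∈ Lin r al be, (∀ s ∈ ρ, l s = 0) → l a = 0 ∧ l b = 0

theorem fc_mono {r : Finset α → ℕ} {σ ρ : Finset (Pt α)} (hρ : Fc r ρ) (h : σ ⊆ ρ) : Fc r σ := by
  refine ⟨⟨fun s hs => hρ.1.1 s (h hs), fun s hs t ht => hρ.1.2 s (h hs) t (h ht)⟩, ?_⟩
  rcases hρ.2 with h' | ⟨i, hi⟩
  · left
    rw [h'] at h
    exact Finset.subset_empty.1 h
  · exact Or.inr ⟨i, fun s hs => hi s (h hs)⟩

theorem Ctx.typeI {r : Finset α → ℕ} {al be : ℝ} {ρ : Finset (Pt α)} {a b p' : Pt α}
    (C : Ctx r al be ρ a b p') {P A1 A2 : Pt α} (hP : P ∈ mid r a b) (hA1 : A1 ∈ mid r a b)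
    (hA2 : A2 ∈ mid r a b) (hall : ∀ u ∈ mid r a b, u = P ∨ u = A1 ∨ u = A2)
    (hc : P ≤ A2 ∨ A2 ≤ P) (n2 : NO a b A2) (nP : ¬ NO a b P)
    (hlin : ∀ l ∈ Lin r al be, l a = 0 → l b = 0 → l P = l A1 + l A2) : QD r al be ρ := by
  classical
  set Z : Finset (Pt α) := {A1, A2, p'} with hZ
  refine ⟨Z, fun u => if u ∈ Z then 0 else 1, ?_, ?_, ?_⟩
  · intro u hu
    refine ⟨?_, by simp only [if_pos hu]⟩
    simp only [hZ, mem_insert, mem_singleton] at hu
    rcases hu with rfl | rfl | rfl
    · exact C.lk _ hA1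
    · exact C.lk _ hA2
    · exact C.lkp
  · refine C.qcz Z A1 ?_ ?_
    · intro u hu
      simp only [hZ, mem_insert, mem_singleton] at hu
      rcases hu with rfl | rfl | rfl
      · exact (C.lk _ hA1).1
      · exact (C.lk _ hA2).1
      · exact C.lkp.1
    · refine fc_mono (C.adp A2 hA2 n2) ?_
      intro u hu
      simp only [hZ, mem_union, mem_erase, mem_insert, mem_singleton] at hu ⊢
      tauto
  · intro u hu huZ
    have hu' : u ≠ A1 ∧ u ≠ A2 ∧ u ≠ p' := by
      simp only [hZ, mem_insert, mem_singleton, not_or] at huZ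
      exact huZ
    have huP : u = P := by
      rcases C.all u hu with h | h
      · rcases hall u h with h | h | h
        · exact h
        · exact absurd h hu'.1
        · exact absurd h hu'.2.1
      · exact absurd h hu'.2.2
    subst huP
    obtain ⟨l, hl, hl'⟩ := C.sep _ (C.ad u hP A2 hA2 hc) (fun x => if x = u then 1 else 0)
    have l0 : ∀ s ∈ ρ, l s = 0 := by
      intro s hs
      rw [hl' s (by simp [hs])]
      rw [if_neg]
      rintro rfl
      exact hu.1 hs
    have l1 : l u = 1 := by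
      rw [hl' u (by simp)]
      simp
    have l2 : l A2 = 0 := by
      rw [hl' A2 (by simp)]
      rw [if_neg]
      exact fun h => hu'.2.1 h.symm
    have l3 : l A1 = 1 := by
      have := C.hl l hl l0
      have := hlin l hl this.1 this.2
      linarith
    refine ⟨by simp only [if_neg huZ]; norm_num, l, hl, l0, by simp only [if_neg huZ]; exact l1, ?_⟩
    intro v hv hvu hf
    rcases C.all v hv with h | h
    · rcases hall v h with h | h | h
      · exact absurd h hvu
      · subst h
        rw [l3]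
        show (if v ∈ Z then (0 : ℝ) else 1) ≤ 1
        split_ifs <;> norm_num
      · subst h
        rw [l2]
        show (if v ∈ Z then (0 : ℝ) else 1) ≤ 0
        rw [if_pos]
        simp [hZ]
    · subst h
      exfalso
      refine C.nad u hP nP ?_
      rw [insert_comm]
      exact hf

theorem Ctx.typeII {r : Finset α → ℕ} {al be : ℝ} {ρ : Finset (Pt α)} {a b p' : Pt α}
    (C : Ctx r al be ρ a b p') {P A M Q : Pt α} (hP : P ∈ mid r a b) (hA : A ∈ mid r a b)
    (hM : M ∈ mid r a b) (hQ : Q ∈ mid r a b)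
    (hall : ∀ u ∈ mid r a b, u = P ∨ u = A ∨ u = M ∨ u = Q)
    (hc : P ≤ A ∨ A ≤ P) (nA : NO a b A) (nP : ¬ NO a b P) (nM : ¬ NO a b M)
    (hlin : ∀ l ∈ Lin r al be, l a = 0 → l b = 0 → l P = l A + l M ∧ l Q = - l A) :
    QD r al be ρ := by
  classical
  have hPA : P ≠ A := by
    rintro rfl
    exact nP nA
  set Z : Finset (Pt α) := {A, Q} with hZ
  refine ⟨Z, fun u => if u ∈ Z then 0 else 1, ?_, ?_, ?_⟩
  · intro u hu
    refine ⟨?_, by simp only [if_pos hu]⟩
    simp only [hZ, mem_insert, mem_singleton] at hu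
    rcases hu with rfl | rfl
    · exact C.lk _ hA
    · exact C.lk _ hQ
  · refine C.qcz Z Q ?_ ?_
    · intro u hu
      simp only [hZ, mem_insert, mem_singleton] at hu
      rcases hu with rfl | rfl
      · exact (C.lk _ hA).1
      · exact (C.lk _ hQ).1
    · refine fc_mono (C.adp A hA nA) ?_
      intro u hu
      simp only [hZ, mem_union, mem_erase, mem_insert, mem_singleton] at hu ⊢
      tauto
  · -- the function for `P` and `M`
    have F1 : ∃ l ∈ Lin r al be, (∀ s ∈ ρ, l s = 0) ∧ l P = 1 ∧ l A = 0 ∧ l M = 1 ∧ l Q = 0 := by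
      obtain ⟨l, hl, hl'⟩ := C.sep _ (C.ad P hP A hA hc) (fun x => if x = P then 1 else 0)
      have l0 : ∀ s ∈ ρ, l s = 0 := by
        intro s hs
        rw [hl' s (by simp [hs])]
        rw [if_neg]
        rintro rfl
        exact (C.lk _ hP).1 hs
      have l1 : l P = 1 := by
        rw [hl' P (by simp)]
        simp
      have l2 : l A = 0 := by
        rw [hl' A (by simp)]
        rw [if_neg]
        exact fun h => hPA h.symm
      obtain ⟨e1, e2⟩ := hlin l hl (C.hl l hl l0).1 (C.hl l hl l0).2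
      exact ⟨l, hl, l0, l1, l2, by linarith, by linarith⟩
    -- the function for `p'`
    have F2 : p' ∉ Z → ∃ l ∈ Lin r al be, (∀ s ∈ ρ, l s = 0) ∧ l p' = 1 ∧ l A = 0 ∧ l Q = 0 := by
      intro hpZ
      have hpA : A ≠ p' := by
        rintro rfl
        exact hpZ (by simp [hZ])
      obtain ⟨l, hl, hl'⟩ := C.sep _ (C.adp A hA nA) (fun x => if x = p' then 1 else 0)
      have l0 : ∀ s ∈ ρ, l s = 0 := by
        intro s hs
        rw [hl' s (by simp [hs])]
        rw [if_neg]
        rintro rfl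
        exact C.lkp.1 hs
      have l1 : l p' = 1 := by
        rw [hl' p' (by simp)]
        simp
      have l2 : l A = 0 := by
        rw [hl' A (by simp)]
        rw [if_neg hpA]
      obtain ⟨e1, e2⟩ := hlin l hl (C.hl l hl l0).1 (C.hl l hl l0).2
      exact ⟨l, hl, l0, l1, l2, by linarith⟩
    obtain ⟨l, hl, l0, lP, lA, lM, lQ⟩ := F1
    have PM : ∀ u, (u = P ∨ u = M) → Lkv r ρ u → u ∉ Z →
        0 < (if u ∈ Z then (0 : ℝ) else 1) ∧ ∃ l ∈ Lin r al be, (∀ s ∈ ρ, l s = 0) ∧
        l u = (if u ∈ Z then (0 : ℝ) else 1) ∧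
        ∀ v, Lkv r ρ v → v ≠ u → Fc r (insert v (insert u ρ)) →
          (if v ∈ Z then (0 : ℝ) else 1) ≤ l v := by
      intro u hu huL huZ
      rw [if_neg huZ]
      refine ⟨by norm_num, l, hl, l0, ?_, ?_⟩
      · rcases hu with rfl | rfl
        · exact lP
        · exact lM
      · intro v hv hvu hf
        rcases C.all v hv with h | h
        · rcases hall v h with h | h | h | h
          · subst h
            rw [lP]
            split_ifs <;> norm_num
          · subst h
            rw [lA, if_pos]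
            simp [hZ]
          · subst h
            rw [lM]
            split_ifs <;> norm_num
          · subst h
            rw [lQ, if_pos]
            simp [hZ]
        · subst h
          exfalso
          rw [insert_comm] at hf
          rcases hu with rfl | rfl
          · exact C.nad _ hP nP hf
          · exact C.nad _ hM nM hf
    intro u hu huZ
    have hu' : u ≠ A ∧ u ≠ Q := by
      simp only [hZ, mem_insert, mem_singleton, not_or] at huZ
      exact huZ
    rcases C.all u hu with h | h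
    · rcases hall u h with h | h | h | h
      · exact PM u (Or.inl h) hu huZ
      · exact absurd h hu'.1
      · exact PM u (Or.inr h) hu huZ
      · exact absurd h hu'.2
    · subst h
      obtain ⟨l, hl, l0, l1, lA, lQ⟩ := F2 huZ
      simp only [if_neg huZ]
      refine ⟨by norm_num, l, hl, l0, l1, ?_⟩
      intro v hv hvu hf
      rcases C.all v hv with h | h
      · rcases hall v h with h | h | h | h
        · subst h
          exact absurd hf (C.nad _ hP nP)
        · subst h
          rw [lA]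
          show (if v ∈ Z then (0 : ℝ) else 1) ≤ 0
          rw [if_pos]
          simp [hZ]
        · subst h
          exact absurd hf (C.nad _ hM nM)
        · subst h
          rw [lQ]
          show (if v ∈ Z then (0 : ℝ) else 1) ≤ 0
          rw [if_pos]
          simp [hZ]
      · exact absurd h hvu

omit [Fintype α] [DecidableEq α] in
theorem nop_of_le {c d s : Pt α} {i : α} (hi : Cri c d i) (h : s ≤ c ∨ d ≤ s) : Nop i s := by
  intro h1 h2
  rcases h with h | h
  · exfalso
    exact hi.1 ⟨h.1 h1, h.2.2.1 h2⟩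
  · rcases hi.2 with h3 | h3
    · exact Or.inl (h.2.1 h3)
    · exact Or.inr (h.2.2.2 h3)

theorem mem_mid {r : Finset α → ℕ} {a b u : Pt α} : u ∈ mid r a b ↔ Ex0 r u ∧ a < u ∧ u < b := by
  simp [mid]

/-- gap with window start -/
theorem caseS {r : Finset α → ℕ} {al be : ℝ} {ρ : Finset (Pt α)} {p' : Pt α} (h11 : Stmt_DEC)
    (hr : IsRank r) {F G' F' : Finset α}
    (ha : Ex0 r ⟨F, ∅, false, false⟩) (hb : Ex0 r ⟨F', G', true, false⟩)
    (hFF : F ⊆ F') (hne : F ≠ F') (hG : G' ≠ ∅)
    (C : Ctx r al be ρ ⟨F, ∅, false, false⟩ ⟨F', G', true, false⟩ p')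
    (hmid : ∀ u ∈ mid r ⟨F, ∅, false, false⟩ ⟨F', G', true, false⟩, (u.F = F ∨ u.F = F') ∧
      (u.G = ∅ ∨ u.G = G')) : QD r al be ρ := by
  have hGF : G' ⊆ F' := hb.GF
  have hP : (⟨F', ∅, true, false⟩ : Pt α) ∈ mid r ⟨F, ∅, false, false⟩ ⟨F', G', true, false⟩ := by
    refine mem_mid.2 ⟨⟨hb.flat, by simp, by simp, by simp, by simp, by simp⟩,
      lt_of_le_of_ne ⟨hFF, by simp, by simp, by simp⟩ (by simp),
      lt_of_le_of_ne ⟨by simp, by simp, by simp, by simp⟩ ?_⟩
    intro h
    exact hG (by simpa using h.symm)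
  have hA : (⟨F', ∅, false, false⟩ : Pt α) ∈ mid r ⟨F, ∅, false, false⟩ ⟨F', G', true, false⟩ := by
    refine mem_mid.2 ⟨⟨hb.flat, by simp, by simp, by simp, by simp, by simp⟩,
      lt_of_le_of_ne ⟨hFF, by simp, by simp, by simp⟩ ?_,
      lt_of_le_of_ne ⟨by simp, by simp, by simp, by simp⟩ (by simp)⟩
    intro h
    exact hne (by simpa using h)
  have hM : (⟨F, ∅, true, false⟩ : Pt α) ∈ mid r ⟨F, ∅, false, false⟩ ⟨F', G', true, false⟩ := by
    refine mem_mid.2 ⟨⟨ha.flat, by simp, by simp, by simp, by simp, by simp⟩,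
      lt_of_le_of_ne ⟨by simp, by simp, by simp, by simp⟩ (by simp),
      lt_of_le_of_ne ⟨hFF, by simp, by simp, by simp⟩ ?_⟩
    intro h
    exact hne (by simpa using (congrArg Pt.F h))
  obtain ⟨i0, hi0⟩ : ∃ i, i ∈ G' := Finset.nonempty_iff_ne_empty.2 hG
  have cri : ∀ i, Cri (⟨F, ∅, false, false⟩ : Pt α) ⟨F', G', true, false⟩ i ↔ i ∈ G' := by
    intro i
    simp [Cri]
  have nA : NO (⟨F, ∅, false, false⟩ : Pt α) ⟨F', G', true, false⟩ ⟨F', ∅, false, false⟩ :=
    ⟨i0, (cri i0).2 hi0, fun _ h => by simp at h⟩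
  have nP : ¬ NO (⟨F, ∅, false, false⟩ : Pt α) ⟨F', G', true, false⟩ ⟨F', ∅, true, false⟩ := by
    rintro ⟨i, hi, h⟩
    have := h (hGF ((cri i).1 hi)) rfl
    simp at this
  have lin : ∀ l ∈ Lin r al be, l (⟨F, ∅, false, false⟩ : Pt α) = 0 →
      l (⟨F', G', true, false⟩ : Pt α) = 0 →
      l (⟨F', ∅, true, false⟩ : Pt α) = l ⟨F', ∅, false, false⟩ + l ⟨F, ∅, true, false⟩ ∧
      l (⟨F, G', true, false⟩ : Pt α) = - l ⟨F', ∅, false, false⟩ := by
    intro l hl e1 e2
    obtain ⟨φ, γ, σ, τ, D⟩ := ((h11 α r al be hr).1 l).1 hl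
    rw [D.val] at e1 e2
    rw [D.val, D.val, D.val, D.val]
    simp only [sum_empty, Bool.false_eq_true, if_false, if_true] at e1 e2 ⊢
    constructor <;> linarith
  -- the elements between
  have hall : ∀ u ∈ mid r ⟨F, ∅, false, false⟩ ⟨F', G', true, false⟩,
      u = ⟨F', ∅, true, false⟩ ∨ u = ⟨F', ∅, false, false⟩ ∨ u = ⟨F, ∅, true, false⟩ ∨
      (u = ⟨F, G', true, false⟩ ∧ G' ⊆ F) := by
    intro u hu
    obtain ⟨h1, h2⟩ := hmid u hu
    obtain ⟨hu0, hu1, hu2⟩ := mem_mid.1 hu
    obtain ⟨uF, uG, uS, uT⟩ := u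
    simp only at h1 h2
    have hT : uT = false := by
      cases uT with
      | false => rfl
      | true => simpa using hu2.le.2.2.2 rfl
    subst hT
    cases uS with
    | false =>
      have hG0 : uG = ∅ := by
        by_contra h
        have := hu0.GS (Finset.nonempty_iff_ne_empty.2 h)
        simp at this
      subst hG0
      rcases h1 with rfl | rfl
      · exact absurd rfl hu1.ne
      · exact Or.inr (Or.inl rfl)
    | true =>
      rcases h1 with rfl | rfl
      · rcases h2 with rfl | rfl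
        · exact Or.inr (Or.inr (Or.inl rfl))
        · exact Or.inr (Or.inr (Or.inr ⟨rfl, hu0.GF⟩))
      · rcases h2 with rfl | rfl
        · exact Or.inl rfl
        · exact absurd rfl hu2.ne
  by_cases hc : G' ⊆ F
  · have hQ : (⟨F, G', true, false⟩ : Pt α) ∈ mid r ⟨F, ∅, false, false⟩ ⟨F', G', true, false⟩ := by
      refine mem_mid.2 ⟨⟨ha.flat, hb.cyc, hc, by simp, by simp, by simp⟩,
        lt_of_le_of_ne ⟨by simp, by simp, by simp, by simp⟩ (by simp),
        lt_of_le_of_ne ⟨hFF, by simp, by simp, by simp⟩ ?_⟩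
      intro h
      exact hne (by simpa using (congrArg Pt.F h))
    have nM : ¬ NO (⟨F, ∅, false, false⟩ : Pt α) ⟨F', G', true, false⟩ ⟨F, ∅, true, false⟩ := by
      rintro ⟨i, hi, h⟩
      have := h (hc ((cri i).1 hi)) rfl
      simp at this
    refine C.typeII hP hA hM hQ ?_ (Or.inr ⟨by simp, by simp, by simp, by simp⟩) nA nP nM lin
    intro u hu
    rcases hall u hu with h | h | h | ⟨h, -⟩
    · exact Or.inl h
    · exact Or.inr (Or.inl h)
    · exact Or.inr (Or.inr (Or.inl h))
    · exact Or.inr (Or.inr (Or.inr h))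
  · refine C.typeI (A1 := ⟨F, ∅, true, false⟩) (A2 := ⟨F', ∅, false, false⟩) hP hM hA ?_
      (Or.inr ⟨by simp, by simp, by simp, by simp⟩) nA nP ?_
    · intro u hu
      rcases hall u hu with h | h | h | ⟨-, h⟩
      · exact Or.inl h
      · exact Or.inr (Or.inr h)
      · exact Or.inr (Or.inl h)
      · exact absurd h hc
    · intro l hl e1 e2
      rw [(lin l hl e1 e2).1, add_comm]

/-- gap with window end -/
theorem caseT {r : Finset α → ℕ} {al be : ℝ} {ρ : Finset (Pt α)} {p' : Pt α} (h11 : Stmt_DEC)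
    (hr : IsRank r) {F G G' : Finset α}
    (ha : Ex0 r ⟨F, G, true, false⟩) (hb : Ex0 r ⟨univ, G', true, true⟩)
    (hGG : G ⊆ G') (hne : F ≠ univ) (hG : G ≠ G')
    (C : Ctx r al be ρ ⟨F, G, true, false⟩ ⟨univ, G', true, true⟩ p')
    (hmid : ∀ u ∈ mid r ⟨F, G, true, false⟩ ⟨univ, G', true, true⟩, (u.F = F ∨ u.F = univ) ∧
      (u.G = G ∨ u.G = G')) : QD r al be ρ := by
  have hGF : G ⊆ F := ha.GF
  have hP : (⟨univ, G, true, false⟩ : Pt α) ∈ mid r ⟨F, G, true, false⟩ ⟨univ, G', true, true⟩ := by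
    refine mem_mid.2 ⟨⟨by simp, ha.cyc, by simp, by simp, by simp, by simp⟩,
      lt_of_le_of_ne ⟨by simp, by simp, by simp, by simp⟩ ?_,
      lt_of_le_of_ne ⟨by simp, hGG, by simp, by simp⟩ (by simp)⟩
    intro h
    exact hne (by simpa using (congrArg Pt.F h))
  have hA : (⟨univ, G, true, true⟩ : Pt α) ∈ mid r ⟨F, G, true, false⟩ ⟨univ, G', true, true⟩ := by
    refine mem_mid.2 ⟨⟨by simp, ha.cyc, by simp, by simp, by simp, by simp⟩,
      lt_of_le_of_ne ⟨by simp, by simp, by simp, by simp⟩ (by simp),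
      lt_of_le_of_ne ⟨by simp, hGG, by simp, by simp⟩ ?_⟩
    intro h
    exact hG (by simpa using (congrArg Pt.G h))
  have hM : (⟨univ, G', true, false⟩ : Pt α) ∈ mid r ⟨F, G, true, false⟩ ⟨univ, G', true, true⟩ := by
    refine mem_mid.2 ⟨⟨by simp, hb.cyc, by simp, by simp, by simp, by simp⟩,
      lt_of_le_of_ne ⟨by simp, hGG, by simp, by simp⟩ ?_,
      lt_of_le_of_ne ⟨by simp, by simp, by simp, by simp⟩ (by simp)⟩
    intro h
    exact hne (by simpa using (congrArg Pt.F h))
  obtain ⟨i0, hi0⟩ : ∃ i, i ∉ F := by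
    by_contra h
    push Not at h
    exact hne (Finset.eq_univ_iff_forall.2 h)
  have cri : ∀ i, Cri (⟨F, G, true, false⟩ : Pt α) ⟨univ, G', true, true⟩ i ↔ i ∉ F := by
    intro i
    simp [Cri]
  have nA : NO (⟨F, G, true, false⟩ : Pt α) ⟨univ, G', true, true⟩ ⟨univ, G, true, true⟩ :=
    ⟨i0, (cri i0).2 hi0, fun _ _ => Or.inr rfl⟩
  have nP : ¬ NO (⟨F, G, true, false⟩ : Pt α) ⟨univ, G', true, true⟩ ⟨univ, G, true, false⟩ := by
    rintro ⟨i, hi, h⟩
    rcases h (mem_univ i) rfl with h | h
    · exact (cri i).1 hi (hGF h)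
    · simp at h
  have lin : ∀ l ∈ Lin r al be, l (⟨F, G, true, false⟩ : Pt α) = 0 →
      l (⟨univ, G', true, true⟩ : Pt α) = 0 →
      l (⟨univ, G, true, false⟩ : Pt α) = l ⟨univ, G, true, true⟩ + l ⟨univ, G', true, false⟩ ∧
      l (⟨F, G', true, false⟩ : Pt α) = - l ⟨univ, G, true, true⟩ := by
    intro l hl e1 e2
    obtain ⟨φ, γ, σ, τ, D⟩ := ((h11 α r al be hr).1 l).1 hl
    rw [D.val] at e1 e2
    rw [D.val, D.val, D.val, D.val]
    simp only [Bool.false_eq_true, if_false, if_true] at e1 e2 ⊢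
    constructor <;> linarith
  -- the elements between
  have hall : ∀ u ∈ mid r ⟨F, G, true, false⟩ ⟨univ, G', true, true⟩,
      u = ⟨univ, G, true, false⟩ ∨ u = ⟨univ, G, true, true⟩ ∨ u = ⟨univ, G', true, false⟩ ∨
      (u = ⟨F, G', true, false⟩ ∧ G' ⊆ F) := by
    intro u hu
    obtain ⟨h1, h2⟩ := hmid u hu
    obtain ⟨hu0, hu1, hu2⟩ := mem_mid.1 hu
    obtain ⟨uF, uG, uS, uT⟩ := u
    simp only at h1 h2
    have hS : uS = true := hu1.le.2.2.1 rfl
    subst hS
    cases uT with
    | true =>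
      have hF0 : uF = univ := hu0.TF rfl
      subst hF0
      rcases h2 with rfl | rfl
      · exact Or.inr (Or.inl rfl)
      · exact absurd rfl hu2.ne
    | false =>
      rcases h1 with rfl | rfl
      · rcases h2 with rfl | rfl
        · exact absurd rfl hu1.ne
        · exact Or.inr (Or.inr (Or.inr ⟨rfl, hu0.GF⟩))
      · rcases h2 with rfl | rfl
        · exact Or.inl rfl
        · exact Or.inr (Or.inr (Or.inl rfl))
  by_cases hc : G' ⊆ F
  · have hQ : (⟨F, G', true, false⟩ : Pt α) ∈ mid r ⟨F, G, true, false⟩ ⟨univ, G', true, true⟩ := by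
      refine mem_mid.2 ⟨⟨ha.flat, hb.cyc, hc, by simp, by simp, by simp⟩,
        lt_of_le_of_ne ⟨by simp, hGG, by simp, by simp⟩ ?_,
        lt_of_le_of_ne ⟨by simp, by simp, by simp, by simp⟩ (by simp)⟩
      intro h
      exact hG (by simpa using (congrArg Pt.G h))
    have nM : ¬ NO (⟨F, G, true, false⟩ : Pt α) ⟨univ, G', true, true⟩ ⟨univ, G', true, false⟩ := by
      rintro ⟨i, hi, h⟩
      rcases h (mem_univ i) rfl with h | h
      · exact (cri i).1 hi (hc h)
      · simp at h
    refine C.typeII hP hA hM hQ ?_ (Or.inl ⟨by simp, by simp, by simp, by simp⟩) nA nP nM lin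
    intro u hu
    rcases hall u hu with h | h | h | ⟨h, -⟩
    · exact Or.inl h
    · exact Or.inr (Or.inl h)
    · exact Or.inr (Or.inr (Or.inl h))
    · exact Or.inr (Or.inr (Or.inr h))
  · refine C.typeI (A1 := ⟨univ, G', true, false⟩) (A2 := ⟨univ, G, true, true⟩) hP hM hA ?_
      (Or.inl ⟨by simp, by simp, by simp, by simp⟩) nA nP ?_
    · intro u hu
      rcases hall u hu with h | h | h | ⟨-, h⟩
      · exact Or.inl h
      · exact Or.inr (Or.inr h)
      · exact Or.inr (Or.inl h)
      · exact absurd h hc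
    · intro l hl e1 e2
      rw [(lin l hl e1 e2).1, add_comm]

end M_Q0C

open M_Q0C in
theorem t_Q0C (h0 : Stmt_SEP) (_h1 : Stmt_DU1) (_h2 : Stmt_FLA) (_h3 : Stmt_CYC) (h4 : Stmt_HT)
    (_h5 : Stmt_DU2) (h6 : Stmt_GAP) (h7 : Stmt_DIM) (h8 : Stmt_ACC) (h9 : Stmt_TR0)
    (h10 : Stmt_DG) (h11 : Stmt_DEC) (h12 : Stmt_QCZ) : Stmt_Q0C := by
  classical
  intro α _ _ r al be hr hw ρ hF hn hmF hmG a b a' b' g1 g2 hne hcc hcri
  have : Nonempty α := ⟨hcri.choose⟩
  have hs := h0 α r al be hr hw
  obtain ⟨k1, k2, k3, k4, k5, -, k7, k8, -, k10⟩ := h6 α r hr ρ hF.1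
  obtain ⟨d1, -⟩ := h7 α r hr
  obtain ⟨-, -, -, -, -, -, -, -, -, -, c1⟩ := h4 α r hr
  have ea := k1 a g1.ha
  have eb := k1 b g1.hb
  have ea' := k1 a' g2.ha
  have eb' := k1 b' g2.hb
  obtain ⟨i1, hi1⟩ := hcri
  obtain ⟨-, -, hcc', hht'⟩ := d1 a' b' i1 ea' eb' g2.lt hi1
  -- other gaps have at most one different component
  have hoth : ∀ c d, Gp r ρ c d → (c, d) ≠ (a, b) → (c, d) ≠ (a', b') → ncc c d ≤ 1 := by
    intro c d g3 n1 n2
    have := h8 α r hr ρ hF.1 {(a, b), (a', b'), (c, d)} (by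
      intro p hp
      simp only [mem_insert, mem_singleton] at hp
      rcases hp with rfl | rfl | rfl
      · exact g1
      · exact g2
      · exact g3)
    rw [sum_insert (by simp only [mem_insert, mem_singleton, not_or]; exact ⟨hne, fun h => n1 h.symm⟩),
      sum_insert (by simp only [mem_singleton]; exact fun h => n2 h.symm), sum_singleton] at this
    simp only at this
    omega
  have hcc2 : ncc a' b' = 2 := by
    have := h8 α r hr ρ hF.1 {(a, b), (a', b')} (by
      intro p hp
      simp only [mem_insert, mem_singleton] at hp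
      rcases hp with rfl | rfl
      · exact g1
      · exact g2)
    rw [sum_insert (by simp only [mem_singleton]; exact hne), sum_singleton] at this
    simp only at this
    omega
  have hh : ht r b' = ht r a' + 2 := by
    have := k7 {(a, b), (a', b')} (by
      intro p hp
      simp only [mem_insert, mem_singleton] at hp
      rcases hp with rfl | rfl
      · exact g1
      · exact g2)
    rw [sum_insert (by simp only [mem_singleton]; exact hne), sum_singleton] at this
    simp only at this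
    have h := c1 a b ea eb g1.lt.le
    omega
  -- the second gap
  obtain ⟨p', hp'⟩ : ∃ p, mid r a' b' = {p} := by
    rcases h10 α r al be hr hw a' b' ea' eb' g2.lt hh with h | h | h
    · exact absurd hi1 (h.1 i1)
    · exact absurd hi1 (h.1 i1)
    · obtain ⟨p, h, -⟩ := h.2
      exact ⟨p, h⟩
  have mp' : p' ∈ mid r a' b' := by
    rw [hp']
    exact mem_singleton_self _
  obtain ⟨ep', lp1, lp2⟩ := mem_mid.1 mp'
  have hord : b ≤ a' ∨ b' ≤ a := by
    rcases k8 a b a' b' g1 g2 with h | h | h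
    · exact absurd (Prod.ext h.1 h.2) hne
    · exact Or.inl h
    · exact Or.inr h
  -- elements of `mid a b` for critical elements of the second gap, and conversely
  have o1 : ∀ u ∈ mid r a b, ∀ i, Cri a' b' i → Nop i u := by
    intro u hu i hi
    obtain ⟨_, hu1, hu2⟩ := mem_mid.1 hu
    refine nop_of_le hi ?_
    rcases hord with h | h
    · exact Or.inl (hu2.le.trans h)
    · exact Or.inr (h.trans hu1.le)
  have o2 : ∀ i, Cri a b i → Nop i p' := by
    intro i hi
    refine nop_of_le hi ?_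
    rcases hord with h | h
    · exact Or.inr (h.trans lp1.le)
    · exact Or.inl (lp2.le.trans h)
  have o3 : ∀ c d i, Gp r ρ c d → Cri c d i → ∀ s ∈ ρ, Nop i s := by
    intro c d i g hi s hsρ
    exact nop_of_le hi (g.sep s (by simp [hat, hsρ]))
  have o4 : ∀ i, Cri a' b' i → ¬ Nop i p' := by
    intro i hi hno
    by_cases h : i ∈ p'.F ∧ p'.S = true
    · have hc := hno h.1 h.2
      have := (d1 a' p' i ea' ep' lp1 ⟨hi.1, hc⟩).2.2.2
      obtain ⟨-, -, -, -, -, -, -, m, -⟩ := h4 α r hr
      have := m p' b' ep' eb' lp2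
      omega
    · have := (d1 p' b' i ep' eb' lp2 ⟨h, hi.2⟩).2.2.2
      obtain ⟨-, -, -, -, -, -, -, m, -⟩ := h4 α r hr
      have := m a' p' ea' ep' lp1
      omega
  have o5 : ∀ i, (∀ s ∈ ρ, Nop i s) → Cri a b i ∨ Cri a' b' i := by
    intro i hi
    obtain ⟨c, d, g, hc, -⟩ := k10 i hi
    have h2 := (d1 c d i (k1 c g.ha) (k1 d g.hb) g.lt hc).2.2.1
    by_cases e1 : (c, d) = (a, b)
    · simp only [Prod.mk.injEq] at e1
      rw [e1.1, e1.2] at hc
      exact Or.inl hc
    · by_cases e2 : (c, d) = (a', b')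
      · simp only [Prod.mk.injEq] at e2
        rw [e2.1, e2.2] at hc
        exact Or.inr hc
      · have := hoth c d g e1 e2
        omega
  -- levels of elements between
  have tr : ∀ c d u, Gp r ρ c d → u ∈ mid r c d → (u.F = c.F ∨ u.F = d.F) ∧
      (u.G = c.G ∨ u.G = d.G) ∧ 2 ≤ ncc c d := by
    intro c d u g hu
    obtain ⟨t1, t2, t3⟩ := h9 α r hr ρ c d u hF.1 g hu
    have n1 : r u.F ∉ mF r ρ := by
      rw [hmF]
      simp
    have n2 : nu r u.G ∉ mG r ρ := by
      rw [hmG]
      simp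
    obtain ⟨s1, s2, s3⟩ := t3 n1 n2
    exact ⟨t1 n1, t2 n2, by omega⟩
  have chain2 : ∀ u ∈ mid r a b, ∀ v ∈ mid r a b, (u ≤ v ∨ v ≤ u) →
      Chn r (insert u (insert v ρ)) := by
    intro u hu v hv huv
    obtain ⟨su, -, cu, -⟩ := k3 a b u g1 hu
    obtain ⟨sv, -, cv, -⟩ := k3 a b v g1 hv
    refine ⟨?_, ?_⟩
    · intro s hs'
      rcases mem_insert.1 hs' with rfl | hs'
      · exact su
      · exact cv.1 s hs'
    · intro s hs1 t ht1
      rcases mem_insert.1 hs1 with e1 | hs2
      · rcases mem_insert.1 ht1 with e2 | ht2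
        · rw [e1, e2]
          exact Or.inl le_rfl
        · rcases mem_insert.1 ht2 with e2 | ht3
          · rw [e1, e2]
            exact huv
          · exact cu.2 s (by rw [e1]; exact mem_insert_self _ _) t (mem_insert_of_mem ht3)
      · rcases mem_insert.1 ht1 with e2 | ht2
        · rcases mem_insert.1 hs2 with e1 | hs3
          · rw [e1, e2]
            exact huv.symm
          · exact cu.2 s (mem_insert_of_mem hs3) t (by rw [e2]; exact mem_insert_self _ _)
        · exact cv.2 s hs2 t ht2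
  have chainp : ∀ u ∈ mid r a b, Chn r (insert u (insert p' ρ)) := by
    intro u hu
    obtain ⟨su, -, cu, -⟩ := k3 a b u g1 hu
    obtain ⟨sv, -, cv, -⟩ := k3 a' b' p' g2 mp'
    obtain ⟨_, hu1, hu2⟩ := mem_mid.1 hu
    have huv : u ≤ p' ∨ p' ≤ u := by
      rcases hord with h | h
      · exact Or.inl (hu2.le.trans (h.trans lp1.le))
      · exact Or.inr (lp2.le.trans (h.trans hu1.le))
    refine ⟨?_, ?_⟩
    · intro s hs'
      rcases mem_insert.1 hs' with rfl | hs'
      · exact su
      · exact cv.1 s hs'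
    · intro s hs1 t ht1
      rcases mem_insert.1 hs1 with e1 | hs2
      · rcases mem_insert.1 ht1 with e2 | ht2
        · rw [e1, e2]
          exact Or.inl le_rfl
        · rcases mem_insert.1 ht2 with e2 | ht3
          · rw [e1, e2]
            exact huv
          · exact cu.2 s (by rw [e1]; exact mem_insert_self _ _) t (mem_insert_of_mem ht3)
      · rcases mem_insert.1 ht1 with e2 | ht2
        · rcases mem_insert.1 hs2 with e1 | hs3
          · rw [e1, e2]
            exact huv.symm
          · exact cu.2 s (mem_insert_of_mem hs3) t (by rw [e2]; exact mem_insert_self _ _)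
        · exact cv.2 s hs2 t ht2
  -- the shape of the first gap
  have hTa : a.S = false → a.T = false := by
    intro h
    cases hT : a.T with
    | false => rfl
    | true =>
      have := ea.TS hT
      rw [h] at this
      exact absurd this (by simp)
  have hST : ¬ (a.S ≠ b.S ∧ a.T ≠ b.T) := by
    rintro ⟨e1, e2⟩
    have aS : a.S = false := by
      cases hS : a.S with
      | false => rfl
      | true =>
        have := g1.lt.le.2.2.1 hS
        rw [hS, this] at e1
        exact absurd rfl e1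
    have aT : a.T = false := hTa aS
    have bT : b.T = true := by
      cases hT : b.T with
      | true => rfl
      | false =>
        rw [aT, hT] at e2
        exact absurd rfl e2
    rcases hord with h | h
    · have h1 : a'.T = true := h.2.2.2 bT
      exact hi1.1 ⟨by rw [ea'.TF h1]; exact mem_univ _, ea'.TS h1⟩
    · rcases hi1.2 with h1 | h1
      · have := h.2.2.1 (eb'.GS ⟨i1, h1⟩)
        rw [aS] at this
        exact absurd this (by simp)
      · have := h.2.2.2 h1
        rw [aT] at this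
        exact absurd this (by simp)
  have hsh : a.F ≠ b.F ∧ a.G ≠ b.G ∧ ((a.S ≠ b.S ∧ a.T = b.T) ∨ (a.S = b.S ∧ a.T ≠ b.T)) := by
    unfold ncc at hcc
    by_cases e1 : a.F = b.F
    · exfalso
      rw [if_pos e1] at hcc
      by_cases e3 : a.S = b.S
      · rw [if_pos e3] at hcc
        split_ifs at hcc <;> omega
      · by_cases e4 : a.T = b.T
        · rw [if_pos e4] at hcc
          split_ifs at hcc <;> omega
        · exact hST ⟨e3, e4⟩
    · by_cases e2 : a.G = b.G
      · exfalso
        rw [if_pos e2] at hcc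
        by_cases e3 : a.S = b.S
        · rw [if_pos e3] at hcc
          split_ifs at hcc <;> omega
        · by_cases e4 : a.T = b.T
          · rw [if_pos e4] at hcc
            split_ifs at hcc
            omega
          · exact hST ⟨e3, e4⟩
      · refine ⟨e1, e2, ?_⟩
        rw [if_neg e1, if_neg e2] at hcc
        by_cases e3 : a.S = b.S
        · by_cases e4 : a.T = b.T
          · rw [if_pos e3, if_pos e4] at hcc
            omega
          · exact Or.inr ⟨e3, e4⟩
        · by_cases e4 : a.T = b.T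
          · exact Or.inl ⟨e3, e4⟩
          · exact absurd ⟨e3, e4⟩ hST
  obtain ⟨nF, nG, hsh⟩ := hsh
  -- a critical element of the first gap
  have hcri1 : ∃ i, Cri a b i := by
    rcases hsh with ⟨e3, e4⟩ | ⟨e3, e4⟩
    · have aS : a.S = false := by
        cases hS : a.S with
        | false => rfl
        | true =>
          have := g1.lt.le.2.2.1 hS
          rw [hS, this] at e3
          exact absurd rfl e3
      have aG : a.G = ∅ := by
        by_contra h
        have := ea.GS (Finset.nonempty_iff_ne_empty.2 h)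
        rw [aS] at this
        exact absurd this (by simp)
      have bG : b.G.Nonempty := by
        rw [Finset.nonempty_iff_ne_empty]
        intro h
        exact nG (by rw [aG, h])
      obtain ⟨i, hi⟩ := bG
      refine ⟨i, ?_, Or.inl hi⟩
      rintro ⟨_, h⟩
      rw [aS] at h
      exact absurd h (by simp)
    · have bT : b.T = true := by
        cases hT : b.T with
        | true => rfl
        | false =>
          cases hT' : a.T with
          | false =>
            rw [hT, hT'] at e4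
            exact absurd rfl e4
          | true =>
            have := g1.lt.le.2.2.2 hT'
            rw [hT] at this
            exact absurd this (by simp)
      have bF : b.F = univ := eb.TF bT
      obtain ⟨i, hi⟩ : ∃ i, i ∉ a.F := by
        by_contra h
        push Not at h
        exact nF (by rw [bF, Finset.eq_univ_iff_forall.2 h])
      exact ⟨i, fun h => hi h.1, Or.inr bT⟩
  obtain ⟨i2, hi2⟩ := hcri1
  -- the context
  have C : Ctx r al be ρ a b p' := by
    refine ⟨hs, fun Z z0 => h12 α r al be hs ρ Z z0, ?_, ?_, ?_, ?_, ?_, ?_, ?_⟩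
    · intro u hu
      obtain ⟨c, d, g, hm⟩ := k5 u hu.1 hu.2.1
      have h2 := (tr c d u g hm).2.2
      by_cases e1 : (c, d) = (a, b)
      · simp only [Prod.mk.injEq] at e1
        rw [e1.1, e1.2] at hm
        exact Or.inl hm
      · by_cases e2 : (c, d) = (a', b')
        · simp only [Prod.mk.injEq] at e2
          rw [e2.1, e2.2, hp'] at hm
          exact Or.inr (mem_singleton.1 hm)
        · have := hoth c d g e1 e2
          omega
    · intro u hu
      obtain ⟨su, nu', cu, -⟩ := k3 a b u g1 hu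
      refine ⟨nu', cu, Or.inr ⟨i1, ?_⟩⟩
      intro s hs'
      rcases mem_insert.1 hs' with rfl | hs'
      · exact o1 _ hu i1 hi1
      · exact o3 a' b' i1 g2 hi1 s hs'
    · obtain ⟨su, nu', cu, -⟩ := k3 a' b' p' g2 mp'
      refine ⟨nu', cu, Or.inr ⟨i2, ?_⟩⟩
      intro s hs'
      rcases mem_insert.1 hs' with rfl | hs'
      · exact o2 i2 hi2
      · exact o3 a b i2 g1 hi2 s hs'
    · intro u hu v hv huv
      refine ⟨chain2 u hu v hv huv, Or.inr ⟨i1, ?_⟩⟩
      intro s hs'
      rcases mem_insert.1 hs' with rfl | hs'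
      · exact o1 _ hu i1 hi1
      · rcases mem_insert.1 hs' with rfl | hs'
        · exact o1 _ hv i1 hi1
        · exact o3 a' b' i1 g2 hi1 s hs'
    · rintro u hu ⟨i, hi, hi'⟩
      refine ⟨chainp u hu, Or.inr ⟨i, ?_⟩⟩
      intro s hs'
      rcases mem_insert.1 hs' with rfl | hs'
      · exact hi'
      · rcases mem_insert.1 hs' with rfl | hs'
        · exact o2 i hi
        · exact o3 a b i g1 hi s hs'
    · rintro u hu hno ⟨-, h⟩
      rcases h with h | ⟨i, hi⟩
      · exact absurd h (insert_ne_empty _ _)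
      · rcases o5 i (fun s hs' => hi s (mem_insert_of_mem (mem_insert_of_mem hs'))) with h | h
        · exact hno ⟨i, h, hi u (mem_insert_self _ _)⟩
        · exact o4 i h (hi p' (mem_insert_of_mem (mem_insert_self _ _)))
    · intro l hl l0
      obtain ⟨φ, γ, σ, τ, D⟩ := ((h11 α r al be hr).1 l).1 hl
      obtain ⟨lb, lt, -⟩ := (h11 α r al be hr).2 l φ γ σ τ D
      have key : ∀ s ∈ hat r ρ, l s = 0 := by
        intro s hs'
        simp only [hat, mem_insert] at hs'
        rcases hs' with rfl | rfl | hs'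
        · exact lb
        · exact lt
        · exact l0 s hs'
      exact ⟨key a g1.ha, key b g1.hb⟩
  have hmid : ∀ u ∈ mid r a b, (u.F = a.F ∨ u.F = b.F) ∧ (u.G = a.G ∨ u.G = b.G) := by
    intro u hu
    obtain ⟨t1, t2, -⟩ := tr a b u g1 hu
    exact ⟨t1, t2⟩
  have hab := g1.lt.le
  clear hoth hcc2 hh hp' mp' ep' lp1 lp2 o1 o2 o3 o4 o5 tr chain2 chainp hord hST g1 k8 hi2
  obtain ⟨F, G, S, T⟩ := a
  obtain ⟨F', G', S', T'⟩ := b
  simp only at nF nG hsh hmid hTa
  rcases hsh with ⟨e3, e4⟩ | ⟨e3, e4⟩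
  · have hS : S = false ∧ S' = true := by
      have := hab.2.2.1
      cases S <;> cases S' <;> simp_all
    obtain ⟨rfl, rfl⟩ := hS
    have hT : T = false := hTa rfl
    subst hT
    subst e4
    have aG : G = ∅ := by
      by_contra h
      have := ea.GS (Finset.nonempty_iff_ne_empty.2 h)
      simp at this
    subst aG
    exact caseS h11 hr ea eb hab.1 nF (fun h => nG h.symm) C hmid
  · have hT : T = false ∧ T' = true := by
      have := hab.2.2.2
      cases T <;> cases T' <;> simp_all
    obtain ⟨rfl, rfl⟩ := hT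
    have hS : S' = true := eb.TS rfl
    subst hS
    subst e3
    have bF : F' = univ := eb.TF rfl
    subst bF
    exact caseT h11 hr ea eb hab.2.1 nF nG C hmid

end Pool.Agent.QPR
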