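import Pool.Agent.QPR.StS

/-!
# One gap with four different components (helper27)

MP_9c4433_lc, part (1): `Stmt_Q0D` from the earlier statements.
-/

set_option autoImplicit false

open Finset

namespace Pool.Agent.QPR

theorem Q0D_chn2 {α : Type} [Fintype α] [DecidableEq α] {r : Finset α → ℕ} {ρ : Finset (Pt α)}
    {u v : Pt α} (h : Chn r (insert u ρ)) (h' : Chn r (insert v ρ)) (huv : u ≤ v ∨ v ≤ u) :
    Chn r (insert v (insert u ρ)) := by
  refine ⟨fun s hs => ?_, fun s hs t ht => ?_⟩
  · rcases mem_insert.1 hs with rfl | hs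
    · exact h'.1 _ (mem_insert_self _ _)
    · exact h.1 _ hs
  · rcases mem_insert.1 hs with hs1 | hs1
    · rcases mem_insert.1 ht with ht1 | ht1
      · rw [hs1, ht1]
        exact Or.inl le_rfl
      · rw [hs1]
        rcases mem_insert.1 ht1 with ht2 | ht2
        · rw [ht2]
          exact huv.symm
        · exact h'.2 _ (mem_insert_self _ _) _ (mem_insert_of_mem ht2)
    · rcases mem_insert.1 ht with ht1 | ht1
      · rw [ht1]
        rcases mem_insert.1 hs1 with hs2 | hs2
        · rw [hs2]
          exact huv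
        · exact h'.2 _ (mem_insert_of_mem hs2) _ (mem_insert_self _ _)
      · exact h.2 _ hs1 _ ht1

theorem Q0D_ends {α : Type} [Fintype α] [DecidableEq α] {r : Finset α → ℕ} {a b : Pt α}
    (ha : Ex0 r a) (hb : Ex0 r b) (hab : a < b) (h4 : ncc a b = 4) :
    ∃ F G : Finset α, a = ⟨F, ∅, false, false⟩ ∧ b = ⟨univ, G, true, true⟩ ∧ F ≠ univ ∧ G ≠ ∅ := by
  obtain ⟨F, H, S, T⟩ := a
  obtain ⟨F', G, S', T'⟩ := b
  have hle := Pt.le_iff.1 hab.le
  unfold ncc at h4
  simp only at h4 hle
  have hF : F ≠ F' := by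
    intro h
    rw [if_pos h] at h4
    split_ifs at h4 <;> omega
  have hG : H ≠ G := by
    intro h
    rw [if_pos h] at h4
    split_ifs at h4 <;> omega
  have hS : S ≠ S' := by
    intro h
    rw [if_pos h] at h4
    split_ifs at h4 <;> omega
  have hT : T ≠ T' := by
    intro h
    rw [if_pos h] at h4
    split_ifs at h4 <;> omega
  have hS1 : S = false := by
    cases S
    · rfl
    · exact absurd (hle.2.2.1 rfl).symm hS
  have hT1 : T = false := by
    cases T
    · rfl
    · exact absurd (hle.2.2.2 rfl).symm hT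
  subst hS1 hT1
  have hS2 : S' = true := by
    cases S'
    · exact absurd rfl hS
    · rfl
  have hT2 : T' = true := by
    cases T'
    · exact absurd rfl hT
    · rfl
  subst hS2 hT2
  have hF' : F' = univ := hb.TF rfl
  subst hF'
  have hH : H = ∅ := by
    by_contra hne
    have := ha.GS (nonempty_iff_ne_empty.2 hne)
    simp at this
  subst hH
  exact ⟨F, G, rfl, rfl, hF, fun h => hG h.symm⟩

theorem t_Q0D (h0 : Stmt_SEP) (_h1 : Stmt_FLA) (_h2 : Stmt_CYC) (_h3 : Stmt_HT) (h4 : Stmt_GAP)
    (_h5 : Stmt_DIM) (h6 : Stmt_ACC) (h7 : Stmt_TR0) (_h8 : Stmt_DG) (h9 : Stmt_DEC)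
    (h10 : Stmt_REL) (h11 : Stmt_QCZ) : Stmt_Q0D := by
  classical
  intro α _ _ r al be hr hw ρ hρ hc hF hG a b hg hcc
  have hsep : Sep r al be := h0 α r al be hr hw
  obtain ⟨g1, g2, g3, g4, g5, g6, g7, g8, g9, g10⟩ := h4 α r hr ρ hρ.1
  have hea : Ex0 r a := g1 a hg.ha
  have heb : Ex0 r b := g1 b hg.hb
  -- the other gaps
  have hone : ∀ a' b', Gp r ρ a' b' → (a', b') ≠ (a, b) → ncc a' b' ≤ 1 := by
    intro a' b' hg' hne
    have := h6 α r hr ρ hρ.1 {(a', b'), (a, b)} (by
      intro p hp
      rcases mem_insert.1 hp with rfl | hp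
      · exact hg'
      · rw [mem_singleton.1 hp]
        exact hg)
    rw [sum_pair hne] at this
    simp only [hcc, hF, hG, card_empty] at this
    omega
  have hemp : ∀ a' b', Gp r ρ a' b' → (a', b') ≠ (a, b) → ∀ u, u ∉ mid r a' b' := by
    intro a' b' hg' hne u hu
    have hh := h7 α r hr ρ a' b' u hρ.1 hg' hu
    have := hh.2.2 (by simp [hF]) (by simp [hG])
    have := hone a' b' hg' hne
    omega
  have hcc1 : ∀ a' b', Gp r ρ a' b' → ncc a' b' ≠ 1 → (a', b') ∈ ({(a, b)} : Finset (Pt α × Pt α)) := by
    intro a' b' hg' hne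
    rw [mem_singleton]
    by_contra hne'
    have h1 := hone a' b' hg' hne'
    have h0 : ncc a' b' = 0 := by omega
    have hlt := hg'.lt
    have heq : a' = b' := by
      unfold ncc at h0
      obtain ⟨F, H, S, T⟩ := a'
      obtain ⟨F', H', S', T'⟩ := b'
      simp only at h0
      have e1 : F = F' := by
        by_contra h
        rw [if_neg h] at h0
        omega
      have e2 : H = H' := by
        by_contra h
        rw [if_neg h] at h0
        omega
      have e3 : S = S' := by
        by_contra h
        rw [if_neg h] at h0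
        omega
      have e4 : T = T' := by
        by_contra h
        rw [if_neg h] at h0
        omega
      rw [e1, e2, e3, e4]
    exact absurd heq hlt.ne
  have hlk : ∀ u, Lkv r ρ u → u ∈ mid r a b := by
    intro u hu
    obtain ⟨a', b', hg', hu'⟩ := g5 u hu.1 hu.2.1
    by_cases hne : (a', b') = (a, b)
    · simp only [Prod.mk.injEq] at hne
      rw [← hne.1, ← hne.2]
      exact hu'
    · exact absurd hu' (hemp a' b' hg' hne u)
  obtain ⟨F, G, rfl, rfl, hFu, hGe⟩ := Q0D_ends hea heb hg.lt hcc
  set E : Finset α := univ with hE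
  -- every element is never open on the face
  have hnop : ∀ i, ∀ s ∈ ρ, Nop i s := by
    intro i s hs
    rcases hg.sep s (by unfold hat; simp [hs]) with h | h
    · intro _ hS
      have := (Pt.le_iff.1 h).2.2.1 hS
      simp at this
    · intro _ _
      exact Or.inr ((Pt.le_iff.1 h).2.2.2 rfl)
  obtain ⟨i1, hi1⟩ : ∃ i1, i1 ∉ F := by
    by_contra hh
    apply hFu
    rw [hE]
    refine eq_univ_iff_forall.2 fun x => ?_
    by_contra hx
    exact hh ⟨x, hx⟩
  obtain ⟨i2, hi2⟩ : ∃ i2, i2 ∈ G := nonempty_iff_ne_empty.2 hGe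
  -- the classification
  set A : Pt α := ⟨E, ∅, false, false⟩ with hA
  set B : Pt α := ⟨F, ∅, true, false⟩ with hB
  set P : Pt α := ⟨E, ∅, true, false⟩ with hP
  set C : Pt α := ⟨E, ∅, true, true⟩ with hC
  set D : Pt α := ⟨E, G, true, false⟩ with hD
  set Q : Pt α := ⟨F, G, true, false⟩ with hQ
  have hmid : ∀ u ∈ mid r ⟨F, ∅, false, false⟩ ⟨E, G, true, true⟩,
      u = A ∨ u = B ∨ u = P ∨ u = C ∨ u = D ∨ (u = Q ∧ G ⊆ F) := by
    intro u hu
    have hh := h7 α r hr ρ _ _ u hρ.1 hg hu
    have e1 := hh.1 (by simp [hF])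
    have e2 := hh.2.1 (by simp [hG])
    unfold mid at hu
    simp only [mem_filter, mem_univ, true_and] at hu
    obtain ⟨hex, hlt1, hlt2⟩ := hu
    obtain ⟨uF, uG, uS, uT⟩ := u
    simp only at e1 e2
    have hGF := hex.GF
    have hGS := hex.GS
    have hTS := hex.TS
    have hTF := hex.TF
    simp only at hGF hGS hTS hTF
    cases uT
    · cases uS
      · -- left
        have hGe' : uG = ∅ := by
          by_contra hne
          have := hGS (nonempty_iff_ne_empty.2 hne)
          simp at this
        subst hGe'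
        rcases e1 with rfl | rfl
        · exact absurd rfl hlt1.ne
        · exact Or.inl rfl
      · rcases e1 with rfl | rfl
        · rcases e2 with rfl | rfl
          · exact Or.inr (Or.inl rfl)
          · exact Or.inr (Or.inr (Or.inr (Or.inr (Or.inr ⟨rfl, hGF⟩))))
        · rcases e2 with rfl | rfl
          · exact Or.inr (Or.inr (Or.inl rfl))
          · exact Or.inr (Or.inr (Or.inr (Or.inr (Or.inl rfl))))
    · have hS : uS = true := hTS rfl
      subst hS
      have hF' : uF = E := hTF rfl
      subst hF'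
      rcases e2 with rfl | rfl
      · exact Or.inr (Or.inr (Or.inr (Or.inl rfl)))
      · exact absurd rfl hlt2.ne
  have hne1 : F ≠ E := hFu
  have exA : Ex0 r A := ⟨fun e he => absurd (mem_univ e) he, fun e he => absurd he (notMem_empty e),
    empty_subset _, fun h => absurd h (by simp [hA]), fun h => absurd h (by simp [hA]),
    fun h => absurd h (by simp [hA])⟩
  have exB : Ex0 r B := ⟨hea.flat, fun e he => absurd he (notMem_empty e),
    empty_subset _, fun h => rfl, fun h => rfl, fun h => absurd h (by simp [hB])⟩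
  have exC : Ex0 r C := ⟨fun e he => absurd (mem_univ e) he, fun e he => absurd he (notMem_empty e),
    empty_subset _, fun h => rfl, fun h => rfl, fun h => rfl⟩
  have exD : Ex0 r D := ⟨fun e he => absurd (mem_univ e) he, heb.cyc,
    subset_univ _, fun h => rfl, fun h => rfl, fun h => rfl⟩
  have exQ : G ⊆ F → Ex0 r Q := fun hGF => ⟨hea.flat, heb.cyc,
    hGF, fun h => rfl, fun h => rfl, fun h => absurd h (by simp [hQ])⟩
  have miA : A ∈ mid r ⟨F, ∅, false, false⟩ ⟨E, G, true, true⟩ := by
    unfold mid
    simp only [mem_filter, mem_univ, true_and]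
    refine ⟨exA, lt_of_le_of_ne (Pt.le_iff.2 ⟨subset_univ _, Subset.refl _, id, id⟩) ?_,
      lt_of_le_of_ne (Pt.le_iff.2 ⟨Subset.refl _, empty_subset _, by simp [hA], by simp [hA]⟩) ?_⟩
    · simp [hA, hne1]
    · simp [hA]
  have miB : B ∈ mid r ⟨F, ∅, false, false⟩ ⟨E, G, true, true⟩ := by
    unfold mid
    simp only [mem_filter, mem_univ, true_and]
    refine ⟨exB, lt_of_le_of_ne (Pt.le_iff.2 ⟨Subset.refl _, Subset.refl _, by simp, by simp⟩) ?_,
      lt_of_le_of_ne (Pt.le_iff.2 ⟨subset_univ _, empty_subset _, by simp, by simp [hB]⟩) ?_⟩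
    · simp [hB]
    · simp [hB]
  have miC : C ∈ mid r ⟨F, ∅, false, false⟩ ⟨E, G, true, true⟩ := by
    unfold mid
    simp only [mem_filter, mem_univ, true_and]
    refine ⟨exC, lt_of_le_of_ne (Pt.le_iff.2 ⟨subset_univ _, Subset.refl _, by simp, by simp⟩) ?_,
      lt_of_le_of_ne (Pt.le_iff.2 ⟨Subset.refl _, empty_subset _, by simp, by simp⟩) ?_⟩
    · simp [hC]
    · simp [hC, hGe.symm]
  have miD : D ∈ mid r ⟨F, ∅, false, false⟩ ⟨E, G, true, true⟩ := by
    unfold mid
    simp only [mem_filter, mem_univ, true_and]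
    refine ⟨exD, lt_of_le_of_ne (Pt.le_iff.2 ⟨subset_univ _, empty_subset _, by simp, by simp⟩) ?_,
      lt_of_le_of_ne (Pt.le_iff.2 ⟨Subset.refl _, Subset.refl _, by simp, by simp⟩) ?_⟩
    · simp [hD]
    · simp [hD]
  have miQ : G ⊆ F → Q ∈ mid r ⟨F, ∅, false, false⟩ ⟨E, G, true, true⟩ := by
    intro hGF
    unfold mid
    simp only [mem_filter, mem_univ, true_and]
    refine ⟨exQ hGF, lt_of_le_of_ne (Pt.le_iff.2 ⟨Subset.refl _, empty_subset _, by simp, by simp⟩) ?_,
      lt_of_le_of_ne (Pt.le_iff.2 ⟨subset_univ _, Subset.refl _, by simp, by simp [hQ]⟩) ?_⟩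
    · simp [hQ]
    · simp [hQ]
  have hch : ∀ u, u ∈ mid r ⟨F, ∅, false, false⟩ ⟨E, G, true, true⟩ →
      Chn r (insert u ρ) ∧ u ∉ ρ := by
    intro u hu
    have := g3 _ _ u hg hu
    exact ⟨this.2.2.1, this.2.1⟩
  have hfc1 : ∀ u i, u ∈ mid r ⟨F, ∅, false, false⟩ ⟨E, G, true, true⟩ → Nop i u → Lkv r ρ u := by
    intro u i hu hi
    refine ⟨(hch u hu).2, (hch u hu).1, Or.inr ⟨i, fun s hs => ?_⟩⟩
    rcases mem_insert.1 hs with rfl | hs
    · exact hi
    · exact hnop i s hs
  have hfc2 : ∀ u v i, u ∈ mid r ⟨F, ∅, false, false⟩ ⟨E, G, true, true⟩ →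
      v ∈ mid r ⟨F, ∅, false, false⟩ ⟨E, G, true, true⟩ → u ≤ v ∨ v ≤ u → Nop i u → Nop i v →
      Fc r (insert v (insert u ρ)) := by
    intro u v i hu hv huv hiu hiv
    refine ⟨Q0D_chn2 (hch u hu).1 (hch v hv).1 huv, Or.inr ⟨i, fun s hs => ?_⟩⟩
    rcases mem_insert.1 hs with rfl | hs
    · exact hiv
    · rcases mem_insert.1 hs with rfl | hs
      · exact hiu
      · exact hnop i s hs
  have noA : ∀ i, Nop i A := fun i _ h => absurd h (by simp [hA])
  have noB : Nop i1 B := fun h _ => absurd h hi1
  have noC : ∀ i, Nop i C := fun i _ _ => Or.inr rfl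
  have noD : Nop i2 D := fun _ _ => Or.inl hi2
  have noQ : Nop i2 Q := fun _ _ => Or.inl hi2
  have noQ1 : Nop i1 Q := fun h _ => absurd h hi1
  have lkA : Lkv r ρ A := hfc1 A i1 miA (noA i1)
  have lkB : Lkv r ρ B := hfc1 B i1 miB noB
  have lkD : Lkv r ρ D := hfc1 D i2 miD noD
  -- the values of the linear functions
  have hval : ∀ l ∈ Lin r al be, (∀ s ∈ ρ, l s = 0) → be * l C = l B + (1 - al) * l A ∧
      (1 - al - be) * l Q = (1 - al) * l D + (1 - be) * l B := by
    intro l hl hl0
    obtain ⟨φ, γ, σ, τ, hd⟩ := ((h9 α r al be hr).1 l).1 hl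
    have h2' := (h9 α r al be hr).2 l φ γ σ τ hd
    have hrel := h10 α r al be hr ρ hρ.1 l φ γ σ τ hd hl0 _ (by
      intro p hp
      rw [mem_singleton.1 hp]
      exact hg) hcc1
    rw [sum_singleton] at hrel
    unfold psi at hrel
    simp only [if_true, if_false, sum_empty, mul_zero, add_zero, Bool.false_eq_true] at hrel
    have hzero : ∀ s ∈ hat r ρ, l s = 0 := by
      intro s hs
      unfold hat at hs
      rcases mem_insert.1 hs with rfl | hs
      · exact h2'.1
      · rcases mem_insert.1 hs with rfl | hs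
        · exact h2'.2.1
        · exact hl0 s hs
    have va := hzero _ hg.ha
    have vb := hzero _ hg.hb
    rw [hd.val] at va vb
    have vA := hd.val A
    have vB := hd.val B
    have vC := hd.val C
    have vD := hd.val D
    have vQ := hd.val Q
    simp only [if_true, if_false, sum_empty, add_zero, Bool.false_eq_true, hA, hB, hC, hD, hQ]
      at va vb vA vB vC vD vQ
    constructor
    · rw [vC, vB, vA]
      linear_combination be * vb - hrel - (1 - al) * va - va
    · rw [vQ, vD, vB]
      linear_combination -hrel - va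
  have noP : ¬ Lkv r ρ P := by
    intro h
    rcases h.2.2 with h | ⟨i, hi⟩
    · exact absurd h (insert_ne_empty _ _)
    · have := hi P (mem_insert_self _ _) (mem_univ i) rfl
      simp [hP] at this
  have hal : 0 < 1 - al := by linarith [hw.b0, hw.ab]
  have hbe : 0 < 1 - be := by linarith [hw.a0, hw.ab]
  have hxi : 0 < 1 - al - be := by linarith [hw.ab]
  have leAD : A ≤ D := Pt.le_iff.2 ⟨Subset.refl _, empty_subset _, by simp [hA], by simp [hA]⟩
  have leAC : A ≤ C := Pt.le_iff.2 ⟨Subset.refl _, Subset.refl _, by simp [hA], by simp [hA]⟩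
  have leBQ : B ≤ Q := Pt.le_iff.2 ⟨Subset.refl _, empty_subset _, by simp [hB, hQ], by simp [hB]⟩
  have hAC : A ≠ C := by simp [hA, hC]
  have hAD : A ≠ D := by simp [hA, hD]
  have hBC : B ≠ C := by simp [hB, hC]
  have hBQ : B ≠ Q := by simp [hB, hQ, hGe.symm]
  have hDC : D ≠ C := by simp [hD, hC]
  have hAB : A ≠ B := by simp [hA, hB]
  have hDB : D ≠ B := by simp [hD, hB, hGe]
  have hQD : Q ≠ D := by simp [hQ, hD, hne1]
  have hQA : Q ≠ A := by simp [hQ, hA]
  refine ⟨{A, B, D}, fun u => if u = A ∨ u = B ∨ u = D then 0 else 1, ?_, ?_, ?_⟩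
  · intro u hu
    simp only [mem_insert, mem_singleton] at hu
    refine ⟨?_, if_pos hu⟩
    rcases hu with h | h | h
    · rw [h]
      exact lkA
    · rw [h]
      exact lkB
    · rw [h]
      exact lkD
  · refine h11 α r al be hsep ρ {A, B, D} B ?_ ?_
    · intro u hu
      simp only [mem_insert, mem_singleton] at hu
      rcases hu with h | h | h
      · rw [h]
        exact lkA.1
      · rw [h]
        exact lkB.1
      · rw [h]
        exact lkD.1
    · have hf := hfc2 A D i2 miA miD (Or.inl leAD) (noA i2) noD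
      have he : ρ ∪ ({A, B, D} : Finset (Pt α)).erase B = insert D (insert A ρ) := by
        ext x
        simp only [mem_union, mem_erase, mem_insert, mem_singleton]
        constructor
        · rintro (h | ⟨h, h' | h' | h'⟩)
          · exact Or.inr (Or.inr h)
          · exact Or.inr (Or.inl h')
          · exact absurd h' h
          · exact Or.inl h'
        · rintro (h | h | h)
          · exact Or.inr ⟨by rw [h]; exact hDB, Or.inr (Or.inr h)⟩
          · exact Or.inr ⟨by rw [h]; exact hAB, Or.inl h⟩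
          · exact Or.inl h
      rw [he]
      exact hf
  · intro u hu huZ
    have huZ' : ¬ (u = A ∨ u = B ∨ u = D) := by
      simpa only [mem_insert, mem_singleton] using huZ
    simp only [if_neg huZ']
    refine ⟨one_pos, ?_⟩
    rcases hmid u (hlk u hu) with h | h | h | h | h | ⟨h, hGF⟩
    · exact absurd (Or.inl h) huZ'
    · exact absurd (Or.inr (Or.inl h)) huZ'
    · rw [h] at hu
      exact absurd hu noP
    · -- `C`
      subst h
      have hf := hfc2 A C i1 miA miC (Or.inl leAC) (noA i1) (noC i1)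
      obtain ⟨l, hl, hlv⟩ := hsep _ hf (fun s => if s = C then 1 else 0)
      have l0 : ∀ s ∈ ρ, l s = 0 := by
        intro s hs
        rw [hlv s (mem_insert_of_mem (mem_insert_of_mem hs)), if_neg]
        intro h
        rw [h] at hs
        exact (hch C miC).2 hs
      have lC : l C = 1 := by
        rw [hlv C (mem_insert_self _ _), if_pos rfl]
      have lA : l A = 0 := by
        rw [hlv A (mem_insert_of_mem (mem_insert_self _ _)), if_neg hAC]
      refine ⟨l, hl, l0, lC, ?_⟩
      intro v hv hvC hfv
      have hcmp := hfv.1.2 v (mem_insert_self _ _) C (mem_insert_of_mem (mem_insert_self _ _))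
      rcases hmid v (hlk v hv) with h | h | h | h | h | ⟨h, hGF⟩
      · rw [h, lA]
        simp
      · have := (hval l hl l0).1
        rw [lC, lA] at this
        have hb0 := hw.b0
        rw [h]
        simp only [true_or, or_true, if_true]
        linarith
      · rw [h] at hv
        exact absurd hv noP
      · exact absurd h hvC
      · exfalso
        rw [h] at hcmp
        rcases hcmp with hh | hh
        · have := (Pt.le_iff.1 hh).2.1
          exact hGe (subset_empty.1 this)
        · have := (Pt.le_iff.1 hh).2.2.2 rfl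
          simp [hD] at this
      · exfalso
        rw [h] at hcmp
        rcases hcmp with hh | hh
        · have := (Pt.le_iff.1 hh).2.1
          exact hGe (subset_empty.1 this)
        · have := (Pt.le_iff.1 hh).2.2.2 rfl
          simp [hQ] at this
    · exact absurd (Or.inr (Or.inr h)) huZ'
    · -- `Q`
      subst h
      have hf := hfc2 B Q i1 miB (miQ hGF) (Or.inl leBQ) noB noQ1
      obtain ⟨l, hl, hlv⟩ := hsep _ hf (fun s => if s = Q then 1 else 0)
      have l0 : ∀ s ∈ ρ, l s = 0 := by
        intro s hs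
        rw [hlv s (mem_insert_of_mem (mem_insert_of_mem hs)), if_neg]
        intro h
        rw [h] at hs
        exact (hch Q (miQ hGF)).2 hs
      have lQ : l Q = 1 := by
        rw [hlv Q (mem_insert_self _ _), if_pos rfl]
      have lB : l B = 0 := by
        rw [hlv B (mem_insert_of_mem (mem_insert_self _ _)), if_neg hBQ]
      refine ⟨l, hl, l0, lQ, ?_⟩
      intro v hv hvQ hfv
      have hcmp := hfv.1.2 v (mem_insert_self _ _) Q (mem_insert_of_mem (mem_insert_self _ _))
      rcases hmid v (hlk v hv) with h | h | h | h | h | ⟨h, hGF⟩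
      · exfalso
        rw [h] at hcmp
        rcases hcmp with hh | hh
        · have := (Pt.le_iff.1 hh).1
          exact hne1 (univ_subset_iff.1 this)
        · have := (Pt.le_iff.1 hh).2.2.1 rfl
          simp [hA] at this
      · rw [h, lB]
        simp
      · rw [h] at hv
        exact absurd hv noP
      · exfalso
        rw [h] at hcmp
        rcases hcmp with hh | hh
        · have := (Pt.le_iff.1 hh).2.2.2 rfl
          simp [hQ] at this
        · have := (Pt.le_iff.1 hh).2.1
          exact hGe (subset_empty.1 this)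
      · have := (hval l hl l0).2
        rw [lQ, lB] at this
        rw [h]
        simp only [or_true, if_true]
        have h5 : 0 < (1 - al) * l D := by linarith
        exact (pos_of_mul_pos_right h5 hal.le).le
      · exact absurd h hvQ

end Pool.Agent.QPR
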