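import Pool.Agent.QPR.StS
import Pool.Agent.QPR.HRDiv

/-!
# The sign criterion (helper45 for helper86)
-/

set_option autoImplicit false

open Finset

namespace Pool.Agent.QPR

/-- The quadratic form is nonpositive for the functions which vanish on the face and on `Z`. -/
lemma QC_aux {V : Type} [Fintype V] [DecidableEq V] (C : Cx V) (n : ℕ)
    (w : Finset V → ℝ) (ht : Top C n w) (ρ : Finset V) (hρ : C.F ρ) (hn : ρ.card + 2 = n)
    (Z : Finset V) (h : V → ℝ) (hZ : ∀ u ∈ Z, u ∉ ρ ∧ C.F (insert u ρ) ∧ h u = 0)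
    (hh : ∀ u, u ∉ ρ → C.F (insert u ρ) → u ∉ Z → 0 < h u ∧ ∃ l ∈ C.L, (∀ s ∈ ρ, l s = 0) ∧
      l u = h u ∧ ∀ v, v ∉ ρ → v ≠ u → C.F (insert v (insert u ρ)) → h v ≤ l v)
    (f : V → ℝ) (hf : ∀ u ∈ ρ, f u = 0) (hfZ : ∀ u ∈ Z, f u = 0) :
    dv C f (dv C f w) ρ ≤ 0 := by
  classical
  have hw := ht.wt
  obtain ⟨m, hm, hm'⟩ := exists_m (C := C) (ρ := ρ)
  have hK0 : ∀ u v, 0 ≤ K w ρ u v := by
    intro u v
    unfold K
    split_ifs with h1
    · exact le_refl 0
    · rw [not_or, not_or] at h1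
      by_cases hF : C.F (insert u (insert v ρ))
      · refine (ht.pos _ hF ?_).le
        rw [card_insert_of_notMem, card_insert_of_notMem h1.2.2]
        · omega
        · rw [mem_insert, not_or]
          exact ⟨h1.1, h1.2.1⟩
      · rw [hw.supp _ hF]
  have hKF : ∀ u v, K w ρ u v ≠ 0 → u ≠ v ∧ u ∉ ρ ∧ v ∉ ρ ∧ C.F (insert u (insert v ρ)) := by
    intro u v h1
    unfold K at h1
    split_ifs at h1 with h2
    · exact absurd rfl h1
    · rw [not_or, not_or] at h2
      refine ⟨h2.1, h2.2.1, h2.2.2, ?_⟩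
      by_contra hF
      exact h1 (hw.supp _ hF)
  -- the good vertices
  set N : V → Prop := fun v => v ∉ ρ ∧ C.F (insert v ρ) ∧ v ∉ Z with hN
  set g : V → ℝ := fun v => if N v then h v else 0 with hg
  set φ : V → ℝ := fun v => if N v then f v / h v else 0 with hφ
  have hgN : ∀ v, N v → g v = h v := fun v hv => if_pos hv
  have hgN' : ∀ v, ¬ N v → g v = 0 := fun v hv => if_neg hv
  have hφN : ∀ v, N v → φ v = f v / h v := fun v hv => if_pos hv
  have hg0 : ∀ v, 0 ≤ g v := by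
    intro v
    by_cases hv : N v
    · rw [hgN v hv]
      exact (hh v hv.1 hv.2.1 hv.2.2).1.le
    · rw [hgN' v hv]
  have hfN : ∀ v, N v → f v = g v * φ v := by
    intro v hv
    rw [hgN v hv, hφN v hv]
    have := (hh v hv.1 hv.2.1 hv.2.2).1
    field_simp
  have hnN : ∀ v, ¬ N v → f v = 0 ∨ (v ∈ ρ ∨ ¬ C.F (insert v ρ)) := by
    intro v hv
    by_cases h1 : v ∈ ρ
    · exact Or.inl (hf v h1)
    · by_cases h2 : C.F (insert v ρ)
      · left
        refine hfZ v ?_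
        by_contra h3
        exact hv ⟨h1, h2, h3⟩
      · exact Or.inr (Or.inr h2)
  have hKg : ∀ u v, K w ρ u v * f u = K w ρ u v * (g u * φ u) := by
    intro u v
    by_cases hu : N u
    · rw [← hfN u hu]
    · rw [hgN' u hu, zero_mul, mul_zero]
      rcases hnN u hu with h1 | h1
      · rw [h1, mul_zero]
      · rw [K_symm, K_zero hw h1, zero_mul]
  have hKh : ∀ u v, K w ρ u v * h u = K w ρ u v * g u := by
    intro u v
    by_cases hu : N u
    · rw [hgN u hu]
    · rw [hgN' u hu, mul_zero]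
      by_cases hK : K w ρ u v = 0
      · rw [hK, zero_mul]
      · obtain ⟨h1, h2, h3, h4⟩ := hKF u v hK
        have h5 : C.F (insert u ρ) := by
          refine C.down _ _ ?_ h4
          exact insert_subset_insert _ (subset_insert _ _)
        have h6 : u ∈ Z := by
          by_contra h7
          exact hu ⟨h2, h5, h7⟩
        rw [(hZ u h6).2.2, mul_zero]
  -- the diagonal
  have hS : ∀ v, φ v ^ 2 * g v * (∑ u, K w ρ u v * g u) ≤
      f v * f v * ∑ u, K w ρ u v * m v u := by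
    intro v
    by_cases hv : N v
    · obtain ⟨hpos, l, hl, hl0, hlv, hle⟩ := hh v hv.1 hv.2.1 hv.2.2
      have h1 := bal_K hw hm hm' hl hl0 v
      have h2 : ∑ u, K w ρ u v * g u ≤ ∑ u, K w ρ u v * l u := by
        refine sum_le_sum fun u _ => ?_
        rw [← hKh u v]
        by_cases hK : K w ρ u v = 0
        · rw [hK, zero_mul, zero_mul]
        · obtain ⟨h3, h4, _, h6⟩ := hKF u v hK
          exact mul_le_mul_of_nonneg_left (hle u h4 h3 h6) (hK0 u v)
      rw [h1, hlv] at h2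
      have h3 : f v * f v = φ v ^ 2 * g v * h v := by
        rw [hfN v hv, hgN v hv]
        ring
      rw [h3, mul_assoc (φ v ^ 2 * g v)]
      exact mul_le_mul_of_nonneg_left h2 (mul_nonneg (sq_nonneg _) (hg0 v))
    · rw [hgN' v hv, mul_zero, zero_mul]
      rcases hnN v hv with h1 | h1
      · rw [h1, zero_mul, zero_mul]
      · simp only [K_zero hw h1, zero_mul, sum_const_zero, mul_zero]
        exact le_refl 0
  have e0 := dv_dv hw hρ hm hm' (f := f) (g := f) C.L.zero_mem (fun u hu => (hf u hu).symm)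
    C.L.zero_mem (fun u hu => (hf u hu).symm)
  simp only [Pi.zero_apply, sub_zero] at e0
  rw [e0]
  have e1 : ∑ v, ∑ u, K w ρ u v * (f v * f u)
      = ∑ v, ∑ u, K w ρ u v * g u * g v * (φ u * φ v) := by
    refine sum_congr rfl fun v _ => sum_congr rfl fun u _ => ?_
    have h1 := hKg u v
    have h2 := hKg v u
    rw [K_symm w ρ v u] at h2
    calc K w ρ u v * (f v * f u) = (K w ρ u v * f u) * f v := by ring
      _ = (K w ρ u v * f v) * (g u * φ u) := by rw [h1]; ring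
      _ = K w ρ u v * g u * g v * (φ u * φ v) := by rw [h2]; ring
  have e2 : ∑ v, φ v ^ 2 * g v * (∑ u, K w ρ u v * g u)
      = ∑ v, ∑ u, K w ρ u v * g u * g v * φ v ^ 2 := by
    refine sum_congr rfl fun v _ => ?_
    rw [mul_sum]
    refine sum_congr rfl fun u _ => ?_
    ring
  have e3 : ∑ v, ∑ u, K w ρ u v * g u * g v * φ v ^ 2
      = ∑ v, ∑ u, K w ρ u v * g u * g v * φ u ^ 2 := by
    rw [sum_comm]
    refine sum_congr rfl fun v _ => sum_congr rfl fun u _ => ?_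
    rw [K_symm w ρ v u]
    ring
  have e4 : 0 ≤ ∑ v, ∑ u, K w ρ u v * g u * g v * (φ u - φ v) ^ 2 :=
    sum_nonneg fun v _ => sum_nonneg fun u _ =>
      mul_nonneg (mul_nonneg (mul_nonneg (hK0 u v) (hg0 u)) (hg0 v)) (sq_nonneg _)
  have e5 : ∑ v, ∑ u, K w ρ u v * g u * g v * (φ u - φ v) ^ 2
      = ∑ v, ∑ u, K w ρ u v * g u * g v * φ u ^ 2
        + ∑ v, ∑ u, K w ρ u v * g u * g v * φ v ^ 2
        - 2 * ∑ v, ∑ u, K w ρ u v * g u * g v * (φ u * φ v) := by
    rw [mul_sum, ← sum_add_distrib, ← sum_sub_distrib]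
    refine sum_congr rfl fun v _ => ?_
    rw [mul_sum, ← sum_add_distrib, ← sum_sub_distrib]
    refine sum_congr rfl fun u _ => ?_
    ring
  have e6 := sum_le_sum (fun v (_ : v ∈ (univ : Finset V)) => hS v)
  rw [e2] at e6
  rw [e1]
  rw [e5, ← e3] at e4
  linarith

/-- The sign criterion. -/
theorem t_QC : Stmt_QC := by
  intro V _ _ C n w a ht ha ρ hρ hn Z h hZ hμ hh
  have hw := ht.wt
  have hyy : 0 < dv C a (dv C a w) ρ := by
    have := it_pos ht [a, a] (by
      intro b hb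
      simp only [List.mem_cons, List.not_mem_nil, or_false, or_self] at hb
      rw [hb]
      exact ha) hρ (by simpa using hn)
    exact this
  refine ⟨a, hyy, fun x => ?_⟩
  by_contra hc
  rw [not_le] at hc
  have sb := dv_sb hw ρ
  set q : (V → ℝ) → (V → ℝ) → ℝ := fun x y => dv C x (dv C y w) ρ with hq
  have hyy' : 0 < q a a := hyy
  have hc' : q x a ^ 2 < q x x * q a a := hc
  -- subtract linear functions
  have hsub : ∀ (f k l : V → ℝ), l ∈ C.L → q (f - l) k = q f k := by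
    intro f k l hl
    show dv C (f - l) (dv C k w) ρ = dv C f (dv C k w) ρ
    rw [dv_sub_lin (dv_wt hw k) hl]
  have hsub2 : ∀ (f l : V → ℝ), l ∈ C.L → q (f - l) (f - l) = q f f := by
    intro f l hl
    rw [hsub _ _ _ hl, sb.symm, hsub _ _ _ hl]
  set x1 : V → ℝ := q a a • x - q x a • a with hx1
  have e1 : q x1 a = 0 := by
    rw [hx1, sb.sub_l, sb.smul, sb.smul]
    ring
  have e2 : 0 < q x1 x1 := by
    rw [hx1, sb.sq]
    have : 0 < q a a * (q x x * q a a - q x a ^ 2) := mul_pos hyy' (by linarith)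
    calc (0:ℝ) < q a a * (q x x * q a a - q x a ^ 2) := this
      _ = q a a ^ 2 * q x x - 2 * q a a * q x a * q x a + q x a ^ 2 * q a a := by ring
  obtain ⟨lx, hlx, hlx'⟩ := C.sep ρ hρ x1
  obtain ⟨la, hla, hla'⟩ := C.sep ρ hρ a
  obtain ⟨μ, hμ⟩ := hμ
  -- the coefficients
  obtain ⟨s, t, hst, hst0⟩ : ∃ s t : ℝ, (0 < s ^ 2 + t ^ 2) ∧
      s * (∑ u ∈ Z, μ u * (x1 - lx) u) + t * (∑ u ∈ Z, μ u * (a - la) u) = 0 := by
    by_cases h0 : (∑ u ∈ Z, μ u * (x1 - lx) u) = 0
    · refine ⟨1, 0, by norm_num, ?_⟩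
      rw [h0]
      ring
    · refine ⟨-(∑ u ∈ Z, μ u * (a - la) u), ∑ u ∈ Z, μ u * (x1 - lx) u, ?_, ?_⟩
      · have : 0 < (∑ u ∈ Z, μ u * (x1 - lx) u) ^ 2 := by positivity
        nlinarith [sq_nonneg (-(∑ u ∈ Z, μ u * (a - la) u))]
      · ring
  set f1 : V → ℝ := s • (x1 - lx) + t • (a - la) with hf1
  have hf1ρ : ∀ u ∈ ρ, f1 u = 0 := by
    intro u hu
    rw [hf1]
    simp only [Pi.add_apply, Pi.smul_apply, Pi.sub_apply, smul_eq_mul]
    rw [hlx' u hu, hla' u hu]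
    ring
  have hf1Z : ∑ u ∈ Z, μ u * f1 u = 0 := by
    rw [← hst0, mul_sum, mul_sum, ← sum_add_distrib]
    refine sum_congr rfl fun u _ => ?_
    rw [hf1]
    simp only [Pi.add_apply, Pi.smul_apply, smul_eq_mul]
    ring
  obtain ⟨l, hl, hl0, hlZ⟩ := hμ f1 hf1Z
  have e3 : q (f1 - l) (f1 - l) ≤ 0 := by
    refine QC_aux C n w ht ρ hρ hn Z h hZ hh (f1 - l) ?_ ?_
    · intro u hu
      rw [Pi.sub_apply, hf1ρ u hu, hl0 u hu, sub_zero]
    · intro u hu
      rw [Pi.sub_apply, hlZ u hu, sub_self]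
  rw [hsub2 _ _ hl] at e3
  have e4 : q f1 f1 = s ^ 2 * q x1 x1 + t ^ 2 * q a a := by
    have h1 : f1 = s • (x1 - lx) - (-t) • (a - la) := by
      rw [hf1, neg_smul, sub_neg_eq_add]
    have h2 : q (x1 - lx) (a - la) = 0 := by
      rw [hsub _ _ _ hlx, sb.symm, hsub _ _ _ hla, sb.symm, e1]
    rw [h1, sb.sq, h2, hsub2 _ _ hlx, hsub2 _ _ hla]
    ring
  rw [e4] at e3
  have h1 : 0 ≤ s ^ 2 * q x1 x1 := mul_nonneg (sq_nonneg _) e2.le
  have h2 : 0 ≤ t ^ 2 * q a a := mul_nonneg (sq_nonneg _) hyy'.le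
  have h3 : s ^ 2 * q x1 x1 = 0 := le_antisymm (by linarith) h1
  have h4 : t ^ 2 * q a a = 0 := le_antisymm (by linarith) h2
  have h5 : s ^ 2 = 0 := by
    rcases mul_eq_zero.1 h3 with h | h
    · exact h
    · exact absurd h e2.ne'
  have h6 : t ^ 2 = 0 := by
    rcases mul_eq_zero.1 h4 with h | h
    · exact h
    · exact absurd h hyy'.ne'
  rw [h5, h6] at hst
  norm_num at hst

end Pool.Agent.QPR
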