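import Pool.Agent.QPR.StS

set_option autoImplicit false

open Finset

namespace Pool.Agent.QPR

theorem t_QCZ : Stmt_QCZ := by
  classical
  intro α _ _ r al be hs ρ Z z0 hZ hF
  have hex : ∀ z : Pt α, ∃ l ∈ Lin r al be, ∀ u ∈ ρ ∪ Z.erase z0, l u = if u = z then (1 : ℝ) else 0 :=
    fun z => hs _ hF (fun u => if u = z then 1 else 0)
  choose L hL hLv using hex
  have key : ∀ f : Pt α → ℝ, (∑ z ∈ Z.erase z0, f z • L z) ∈ Lin r al be ∧
      (∀ s ∈ ρ, (∑ z ∈ Z.erase z0, f z • L z) s = 0) ∧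
      ∀ u ∈ Z.erase z0, (∑ z ∈ Z.erase z0, f z • L z) u = f u := by
    intro f
    refine ⟨Submodule.sum_mem _ fun z _ => Submodule.smul_mem _ _ (hL z), ?_, ?_⟩
    · intro s hsρ
      rw [Finset.sum_apply]
      refine Finset.sum_eq_zero fun z hz => ?_
      rw [Pi.smul_apply, hLv z s (mem_union_left _ hsρ), if_neg, smul_zero]
      rintro rfl
      exact hZ _ (mem_of_mem_erase hz) hsρ
    · intro u hu
      rw [Finset.sum_apply, Finset.sum_eq_single u]
      · rw [Pi.smul_apply, hLv u u (mem_union_right _ hu), if_pos rfl, smul_eq_mul, mul_one]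
      · intro z _ hzu
        rw [Pi.smul_apply, hLv z u (mem_union_right _ hu), if_neg (Ne.symm hzu), smul_zero]
      · intro h
        exact absurd hu h
  by_cases hz0 : z0 ∈ Z
  · refine ⟨fun z => if z = z0 then -1 else L z z0, fun f hf => ?_⟩
    obtain ⟨k1, k2, k3⟩ := key f
    refine ⟨_, k1, k2, fun u hu => ?_⟩
    by_cases h : u = z0
    · subst h
      rw [← Finset.add_sum_erase Z _ hu] at hf
      simp only [if_true] at hf
      rw [Finset.sum_apply]
      have h2 : ∑ z ∈ Z.erase u, (if z = u then (-1 : ℝ) else L z u) * f z =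
          ∑ z ∈ Z.erase u, (f z • L z) u := by
        refine Finset.sum_congr rfl fun z hz => ?_
        rw [if_neg (ne_of_mem_erase hz), Pi.smul_apply, smul_eq_mul, mul_comm]
      rw [h2] at hf
      linarith
    · exact k3 u (mem_erase.2 ⟨h, hu⟩)
  · refine ⟨fun _ => 0, fun f _ => ?_⟩
    obtain ⟨k1, k2, k3⟩ := key f
    refine ⟨_, k1, k2, fun u hu => k3 u (mem_erase.2 ⟨?_, hu⟩)⟩
    rintro rfl
    exact hz0 hu

end Pool.Agent.QPR
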