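import Pool.Agent.QPR.StS

/-!
# The sign criterion data at a face with a missing nullity (module QPR1_QLG)
-/

set_option autoImplicit false

open Finset

namespace Pool.Agent.QPR

namespace S1QLG

variable {α : Type} [Fintype α] [DecidableEq α] {r : Finset α → ℕ} {al be : ℝ}

omit [Fintype α] in
lemma vv_eq (al : ℝ) (i : α) (s : Pt α) : vv al i s = ((if s.S = true then 1 - al else 0) +
    (if s.T = true then al else 0)) - (if i ∈ s.F then 1 else 0) := by
  unfold vv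
  by_cases h : i ∈ s.F
  · rw [if_pos h, if_pos h]
    ring
  · rw [if_neg h, if_neg h]
    ring

omit [Fintype α] in
lemma zz_eq (be : ℝ) (i : α) (s : Pt α) : zz be i s = (if i ∈ s.G then 1 else 0) -
    ((if s.S = true then be else 0) + (if s.T = true then 1 - be else 0)) := by
  unfold zz
  ring

omit [Fintype α] in
lemma sum_zz (be : ℝ) (Z : Finset (Pt α)) (f : Pt α → ℝ) (j : Pt α → α)
    (hf : ∑ u ∈ Z, f u = 0) (s : Pt α) :
    (∑ u ∈ Z, (- f u) • zz be (j u)) s = - ∑ u ∈ Z, f u * (if j u ∈ s.G then 1 else 0) := by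
  rw [Finset.sum_apply]
  simp only [Pi.smul_apply, smul_eq_mul, zz_eq, mul_sub, sum_sub_distrib, neg_mul,
    sum_neg_distrib]
  rw [← sum_mul, hf]
  ring

omit [Fintype α] in
lemma sum_vv (al : ℝ) (Z : Finset (Pt α)) (f : Pt α → ℝ) (j : Pt α → α)
    (hf : ∑ u ∈ Z, f u = 0) (s : Pt α) :
    (∑ u ∈ Z, (- f u) • vv al (j u)) s = ∑ u ∈ Z, f u * (if j u ∈ s.F then 1 else 0) := by
  rw [Finset.sum_apply]
  simp only [Pi.smul_apply, smul_eq_mul, vv_eq, mul_sub, sum_sub_distrib, neg_mul,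
    sum_neg_distrib]
  rw [← sum_mul, hf]
  ring

lemma zz_mem {i : α} (h : ¬ Clo r i) : zz be i ∈ Lin r al be :=
  Submodule.subset_span (Or.inr ⟨i, h, rfl⟩)

lemma vv_mem {i : α} (h : ¬ Loo r i) : vv al i ∈ Lin r al be :=
  Submodule.subset_span (Or.inl ⟨i, h, rfl⟩)

lemma mem_mid {a b v : Pt α} : v ∈ mid r a b ↔ Ex0 r v ∧ a < v ∧ v < b := by
  unfold mid
  simp only [mem_filter, mem_univ, true_and]

lemma mem_mG {ρ : Finset (Pt α)} {t : ℕ} : t ∈ mG r ρ ↔ (1 ≤ t ∧ t ≤ nu r univ) ∧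
    ∀ s ∈ hat r ρ, nu r s.G ≠ t := by
  unfold mG
  rw [mem_filter, mem_Icc]

lemma mem_mF {ρ : Finset (Pt α)} {t : ℕ} : t ∈ mF r ρ ↔ (1 ≤ t ∧ t ≤ r univ) ∧
    ∀ s ∈ hat r ρ, r s.F ≠ t := by
  unfold mF
  rw [mem_filter, mem_Icc]

lemma sub_hat {ρ : Finset (Pt α)} {s : Pt α} (hs : s ∈ ρ) : s ∈ hat r ρ := by
  unfold hat
  exact mem_insert_of_mem (mem_insert_of_mem hs)

/-- The gap of a link vertex whose nullity is missing. -/
lemma gapG (h2 : Stmt_CYC) (h4 : Stmt_GAP) (hr : IsRank r) {ρ : Finset (Pt α)} (hρ : Fc r ρ)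
    {u : Pt α} (hu : Lkv r ρ u) (hq : nu r u.G ∈ mG r ρ) :
    ∃ a b, Gp r ρ a b ∧ Ex0 r u ∧ Ex0 r a ∧ Ex0 r b ∧ a.G ⊆ u.G ∧ u.G ⊆ b.G ∧
      nu r a.G < nu r u.G ∧ nu r u.G < nu r b.G := by
  obtain ⟨g1, _, _, _, g5, _⟩ := h4 α r hr ρ hρ.1
  obtain ⟨_, _, _, c4, _⟩ := h2 α r hr
  obtain ⟨a, b, hab, hm⟩ := g5 u hu.1 hu.2.1
  rw [mem_mid] at hm
  obtain ⟨hue, h1, h3⟩ := hm
  have hq2 := (mem_mG.1 hq).2
  have hau : a.G ⊆ u.G := (Pt.le_iff.1 h1.le).2.1
  have hub : u.G ⊆ b.G := (Pt.le_iff.1 h3.le).2.1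
  have hea := g1 a hab.ha
  have heb := g1 b hab.hb
  refine ⟨a, b, hab, hue, hea, heb, hau, hub, ?_, ?_⟩
  · refine c4 _ _ hue.cyc (hau.ssubset_of_ne fun h => ?_)
    exact hq2 a hab.ha (by rw [h])
  · refine c4 _ _ heb.cyc (hub.ssubset_of_ne fun h => ?_)
    exact hq2 b hab.hb (by rw [h])

/-- The gap of a link vertex whose rank is missing. -/
lemma gapF (h1 : Stmt_FLA) (h4 : Stmt_GAP) (hr : IsRank r) {ρ : Finset (Pt α)} (hρ : Fc r ρ)
    {u : Pt α} (hu : Lkv r ρ u) (hq : r u.F ∈ mF r ρ) :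
    ∃ a b, Gp r ρ a b ∧ Ex0 r u ∧ Ex0 r a ∧ Ex0 r b ∧ a.F ⊆ u.F ∧ u.F ⊆ b.F ∧
      r a.F < r u.F ∧ r u.F < r b.F := by
  obtain ⟨g1, _, _, _, g5, _⟩ := h4 α r hr ρ hρ.1
  obtain ⟨_, _, _, _, f5, _⟩ := h1 α r hr
  obtain ⟨a, b, hab, hm⟩ := g5 u hu.1 hu.2.1
  rw [mem_mid] at hm
  obtain ⟨hue, h1, h3⟩ := hm
  have hq2 := (mem_mF.1 hq).2
  have hau : a.F ⊆ u.F := (Pt.le_iff.1 h1.le).1
  have hub : u.F ⊆ b.F := (Pt.le_iff.1 h3.le).1
  have hea := g1 a hab.ha
  have heb := g1 b hab.hb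
  refine ⟨a, b, hab, hue, hea, heb, hau, hub, ?_, ?_⟩
  · refine f5 _ _ hea.flat (hau.ssubset_of_ne fun h => ?_)
    exact hq2 a hab.ha (by rw [h])
  · refine f5 _ _ hue.flat (hub.ssubset_of_ne fun h => ?_)
    exact hq2 b hab.hb (by rw [h])

/-- Levels between the ends of a gap are missing. -/
lemma levG (h2 : Stmt_CYC) (hr : IsRank r) {ρ : Finset (Pt α)} {a b : Pt α} (hab : Gp r ρ a b)
    {t : ℕ} (h1 : nu r a.G < t) (h3 : t < nu r b.G) : t ∈ mG r ρ := by
  obtain ⟨_, _, c3, _⟩ := h2 α r hr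
  have hb := c3 b.G univ (subset_univ _)
  refine mem_mG.2 ⟨⟨by omega, by omega⟩, fun s hs => ?_⟩
  rcases hab.sep s hs with h | h
  · have := c3 _ _ (Pt.le_iff.1 h).2.1
    omega
  · have := c3 _ _ (Pt.le_iff.1 h).2.1
    omega

lemma levF (hr : IsRank r) {ρ : Finset (Pt α)} {a b : Pt α} (hab : Gp r ρ a b)
    {t : ℕ} (h1 : r a.F < t) (h3 : t < r b.F) : t ∈ mF r ρ := by
  have hb := hr.mono_subset (subset_univ b.F)
  refine mem_mF.2 ⟨⟨by omega, by omega⟩, fun s hs => ?_⟩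
  rcases hab.sep s hs with h | h
  · have := hr.mono_subset (Pt.le_iff.1 h).1
    omega
  · have := hr.mono_subset (Pt.le_iff.1 h).1
    omega

/-- Two surplus nullities: the condition on the vertices of the upper level. -/
lemma muG (h2 : Stmt_CYC) (h4 : Stmt_GAP) (hr : IsRank r) {ρ : Finset (Pt α)} (hρ : Fc r ρ)
    (Z : Finset (Pt α)) (hZ : ∀ u ∈ Z, Lkv r ρ u) (q : ℕ) (hq : ∀ u ∈ Z, nu r u.G = q)
    (hqm : q ∈ mG r ρ) (hq1 : q + 1 ∉ mG r ρ)
    (hinj : ∀ u ∈ Z, ∀ v ∈ Z, u.G = v.G → u = v) :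
    ∃ μ : Pt α → ℝ, ∀ f : Pt α → ℝ, ∑ u ∈ Z, μ u * f u = 0 →
      ∃ l ∈ Lin r al be, (∀ s ∈ ρ, l s = 0) ∧ ∀ u ∈ Z, l u = f u := by
  refine ⟨fun _ => 1, fun f hf => ?_⟩
  simp only [one_mul] at hf
  rcases Z.eq_empty_or_nonempty with hZe | ⟨u0, hu0⟩
  · subst hZe
    exact ⟨0, Submodule.zero_mem _, fun _ _ => rfl, by simp⟩
  obtain ⟨_, _, _, _, _, _, _, g8, _⟩ := h4 α r hr ρ hρ.1
  obtain ⟨c1, c2, c3, c4, _, c6, _, _, _, _, _, c12, c13⟩ := h2 α r hr
  obtain ⟨a, b, hab, _, _, heb, _, _, hn1, hn2⟩ :=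
    gapG h2 h4 hr hρ (hZ u0 hu0) (by rw [hq u0 hu0]; exact hqm)
  rw [hq u0 hu0] at hn1 hn2
  have hbq : nu r b.G = q + 1 := by
    by_contra hne
    exact hq1 (levG h2 hr hab (by omega) (by omega))
  -- all vertices are in the same gap
  have key : ∀ u ∈ Z, Ex0 r u ∧ a.G ⊆ u.G ∧ u.G ⊆ b.G ∧ ∃ j ∈ b.G, j ∉ u.G := by
    intro u hu
    obtain ⟨a', b', hab', hue, _, _, s1, s2, m1, m2⟩ :=
      gapG h2 h4 hr hρ (hZ u hu) (by rw [hq u hu]; exact hqm)
    rw [hq u hu] at m1 m2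
    rcases g8 a b a' b' hab hab' with ⟨e1, e2⟩ | h | h
    · subst e1
      subst e2
      refine ⟨hue, s1, s2, ?_⟩
      by_contra hc
      push Not at hc
      have : nu r b.G ≤ nu r u.G := c3 _ _ hc
      rw [hq u hu] at this
      omega
    · have := c3 _ _ (Pt.le_iff.1 h).2.1
      omega
    · have := c3 _ _ (Pt.le_iff.1 h).2.1
      omega
  have hj : ∀ u : Pt α, ∃ j : α, u ∈ Z → j ∈ b.G ∧ j ∉ u.G := by
    intro u
    by_cases hu : u ∈ Z
    · obtain ⟨_, _, _, j, h5, h6⟩ := key u hu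
      exact ⟨j, fun _ => ⟨h5, h6⟩⟩
    · obtain ⟨_, _, _, j, _⟩ := key u0 hu0
      exact ⟨j, fun h => absurd h hu⟩
  choose j hj using hj
  have hjo : ∀ u ∈ Z, ∀ v ∈ Z, u ≠ v → j u ∈ v.G := by
    intro u hu v hv huv
    by_contra hc
    obtain ⟨hue, _, u2, _⟩ := key u hu
    obtain ⟨hve, _, v2, _⟩ := key v hv
    obtain ⟨k1, k2, k3⟩ := c1 (b.G.erase (j u))
    have k4 := c6 b.G (j u) heb.cyc (hj u hu).1
    have e1 : ∀ w : Pt α, Ex0 r w → nu r w.G = q → w.G ⊆ b.G → j u ∉ w.G →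
        w.G = cyp r (b.G.erase (j u)) := by
      intro w hw hwq hwb hwj
      have h7 : w.G ⊆ cyp r (b.G.erase (j u)) := c2 _ _ hw.cyc (fun x hx =>
        mem_erase.2 ⟨fun h => hwj (h ▸ hx), hwb hx⟩)
      by_contra hne
      have := c4 _ _ k3 (h7.ssubset_of_ne hne)
      omega
    exact huv (hinj u hu v hv ((e1 u hue (hq u hu) u2 (hj u hu).2).trans
      (e1 v hve (hq v hv) v2 hc).symm))
  refine ⟨∑ u ∈ Z, (- f u) • zz be (j u), ?_, ?_, ?_⟩
  · refine Submodule.sum_mem _ fun u hu => Submodule.smul_mem _ _ (zz_mem ?_)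
    exact (c13 _).1 (c12 _ heb.cyc (hj u hu).1)
  · intro s hs
    rw [sum_zz be Z f j hf s]
    rcases hab.sep s (sub_hat hs) with h | h
    · rw [sum_eq_zero, neg_zero]
      intro u hu
      rw [if_neg, mul_zero]
      intro h7
      exact (hj u hu).2 ((key u hu).2.1 ((Pt.le_iff.1 h).2.1 h7))
    · have e : ∑ u ∈ Z, f u * (if j u ∈ s.G then (1 : ℝ) else 0) = ∑ u ∈ Z, f u := by
        refine sum_congr rfl fun u hu => ?_
        rw [if_pos ((Pt.le_iff.1 h).2.1 (hj u hu).1), mul_one]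
      rw [e, hf, neg_zero]
  · intro v hv
    rw [sum_zz be Z f j hf v]
    have e : ∑ u ∈ Z, f u * (if j u ∈ v.G then (1 : ℝ) else 0) = ∑ u ∈ Z.erase v, f u := by
      rw [← add_sum_erase Z _ hv, if_neg (hj v hv).2, mul_zero, zero_add]
      refine sum_congr rfl fun u hu => ?_
      rw [mem_erase] at hu
      rw [if_pos (hjo u hu.2 v hv hu.1), mul_one]
    rw [← add_sum_erase Z f hv] at hf
    rw [e]
    linarith

/-- One surplus nullity and one surplus rank. -/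
lemma muF (h1 : Stmt_FLA) (h4 : Stmt_GAP) (hr : IsRank r) {ρ : Finset (Pt α)} (hρ : Fc r ρ)
    (Z : Finset (Pt α)) (hZ : ∀ u ∈ Z, Lkv r ρ u) (p : ℕ) (hp : ∀ u ∈ Z, r u.F = p)
    (hpm : p ∈ mF r ρ) (hp1 : ∀ t ∈ mF r ρ, t = p)
    (hinj : ∀ u ∈ Z, ∀ v ∈ Z, u.F = v.F → u = v) :
    ∃ μ : Pt α → ℝ, ∀ f : Pt α → ℝ, ∑ u ∈ Z, μ u * f u = 0 →
      ∃ l ∈ Lin r al be, (∀ s ∈ ρ, l s = 0) ∧ ∀ u ∈ Z, l u = f u := by
  refine ⟨fun _ => 1, fun f hf => ?_⟩
  simp only [one_mul] at hf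
  rcases Z.eq_empty_or_nonempty with hZe | ⟨u0, hu0⟩
  · subst hZe
    exact ⟨0, Submodule.zero_mem _, fun _ _ => rfl, by simp⟩
  obtain ⟨_, _, _, _, _, _, _, g8, _⟩ := h4 α r hr ρ hρ.1
  obtain ⟨_, _, _, _, _, _, _, _, f9, _, _, _, f13, f14⟩ := h1 α r hr
  obtain ⟨a, b, hab, _, hea, _, _, _, hn1, hn2⟩ :=
    gapF h1 h4 hr hρ (hZ u0 hu0) (by rw [hp u0 hu0]; exact hpm)
  rw [hp u0 hu0] at hn1 hn2
  have haq : r a.F + 1 = p := by
    by_contra hne
    have := hp1 (r a.F + 1) (levF hr hab (by omega) (by omega))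
    exact hne this
  have key : ∀ u ∈ Z, Ex0 r u ∧ a.F ⊆ u.F ∧ u.F ⊆ b.F ∧ ∃ j ∈ u.F, j ∉ a.F := by
    intro u hu
    obtain ⟨a', b', hab', hue, _, _, s1, s2, m1, m2⟩ :=
      gapF h1 h4 hr hρ (hZ u hu) (by rw [hp u hu]; exact hpm)
    rw [hp u hu] at m1 m2
    rcases g8 a b a' b' hab hab' with ⟨e1, e2⟩ | h | h
    · subst e1
      subst e2
      refine ⟨hue, s1, s2, ?_⟩
      by_contra hc
      push Not at hc
      have := hr.mono_subset (hc : u.F ⊆ a.F)
      rw [hp u hu] at this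
      omega
    · have := hr.mono_subset (Pt.le_iff.1 h).1
      omega
    · have := hr.mono_subset (Pt.le_iff.1 h).1
      omega
  have hj : ∀ u : Pt α, ∃ j : α, u ∈ Z → j ∈ u.F ∧ j ∉ a.F := by
    intro u
    by_cases hu : u ∈ Z
    · obtain ⟨_, _, _, j, h5, h6⟩ := key u hu
      exact ⟨j, fun _ => ⟨h5, h6⟩⟩
    · obtain ⟨_, _, _, j, _⟩ := key u0 hu0
      exact ⟨j, fun h => absurd h hu⟩
  choose j hj using hj
  have hjo : ∀ u ∈ Z, ∀ v ∈ Z, u ≠ v → j u ∉ v.F := by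
    intro u hu v hv huv hc
    obtain ⟨hue, u1, _, _⟩ := key u hu
    obtain ⟨hve, v1, _, _⟩ := key v hv
    have h7 := (f9 a.F u.F v.F hea.flat hue.flat hve.flat u1 v1
      (by rw [hp u hu, haq]) (by rw [hp v hv, haq]) (fun h => huv (hinj u hu v hv h))).1
    apply (hj u hu).2
    rw [← h7]
    exact mem_inter.2 ⟨(hj u hu).1, hc⟩
  refine ⟨∑ u ∈ Z, (- f u) • vv al (j u), ?_, ?_, ?_⟩
  · refine Submodule.sum_mem _ fun u hu => Submodule.smul_mem _ _ (vv_mem ?_)
    intro h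
    exact (hj u hu).2 (f13 _ hea.flat ((f14 _).2 h))
  · intro s hs
    rw [sum_vv al Z f j hf s]
    rcases hab.sep s (sub_hat hs) with h | h
    · rw [sum_eq_zero]
      intro u hu
      rw [if_neg, mul_zero]
      intro h7
      exact (hj u hu).2 ((Pt.le_iff.1 h).1 h7)
    · have e : ∑ u ∈ Z, f u * (if j u ∈ s.F then (1 : ℝ) else 0) = ∑ u ∈ Z, f u := by
        refine sum_congr rfl fun u hu => ?_
        rw [if_pos ((Pt.le_iff.1 h).1 ((key u hu).2.2.1 (hj u hu).1)), mul_one]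
      rw [e, hf]
  · intro v hv
    rw [sum_vv al Z f j hf v, sum_eq_single v]
    · rw [if_pos (hj v hv).1, mul_one]
    · intro u hu huv
      rw [if_neg (hjo u hu v hv huv), mul_zero]
    · intro h
      exact absurd hv h

/-- The functions at the vertices of the lowest missing nullity. -/
lemma third (h2 : Stmt_CYC) (h4 : Stmt_GAP) (hr : IsRank r) {ρ : Finset (Pt α)} (hρ : Fc r ρ)
    {q : ℕ} (hqm : q ∈ mG r ρ) {u : Pt α} (hu : Lkv r ρ u) (huq : nu r u.G = q) :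
    ∃ l ∈ Lin r al be, (∀ s ∈ ρ, l s = 0) ∧ l u = 1 ∧
      ∀ v, Lkv r ρ v → v ≠ u → Fc r (insert v (insert u ρ)) →
        (if nu r v.G = q then (1 : ℝ) else 0) ≤ l v := by
  obtain ⟨_, _, c3, c4, _, _, _, _, _, _, _, c12, c13⟩ := h2 α r hr
  obtain ⟨a, b, hab, hue, _, heb, s1, s2, m1, m2⟩ :=
    gapG h2 h4 hr hρ hu (by rw [huq]; exact hqm)
  obtain ⟨i, hi, hia⟩ : ∃ i ∈ u.G, i ∉ a.G := by
    by_contra hc
    push Not at hc
    have : nu r u.G ≤ nu r a.G := c3 _ _ hc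
    omega
  obtain ⟨j, hj, hju⟩ : ∃ j ∈ b.G, j ∉ u.G := by
    by_contra hc
    push Not at hc
    have : nu r b.G ≤ nu r u.G := c3 _ _ hc
    omega
  have hval : ∀ s : Pt α, (zz be i - zz be j) s
      = (if i ∈ s.G then 1 else 0) - (if j ∈ s.G then 1 else 0) := by
    intro s
    rw [Pi.sub_apply, zz_eq, zz_eq]
    ring
  refine ⟨zz be i - zz be j, Submodule.sub_mem _ (zz_mem ((c13 _).1 (c12 _ hue.cyc hi)))
    (zz_mem ((c13 _).1 (c12 _ heb.cyc hj))), ?_, ?_, ?_⟩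
  · intro s hs
    rw [hval]
    rcases hab.sep s (sub_hat hs) with h | h
    · have h7 := (Pt.le_iff.1 h).2.1
      rw [if_neg (fun h8 => hia (h7 h8)), if_neg (fun h8 => hju (s1 (h7 h8))), sub_self]
    · have h7 := (Pt.le_iff.1 h).2.1
      rw [if_pos (h7 (s2 hi)), if_pos (h7 hj), sub_self]
  · rw [hval, if_pos hi, if_neg hju, sub_zero]
  · intro v hv _ hF
    rw [hval]
    have hve : Ex0 r v := (hv.2.1.1 v (mem_insert_self _ _)).ex
    rcases hF.1.2 v (mem_insert_self _ _) u (mem_insert_of_mem (mem_insert_self _ _)) with h | h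
    · have h7 := (Pt.le_iff.1 h).2.1
      rw [if_neg (fun h8 => hju (h7 h8)), sub_zero]
      by_cases hq : nu r v.G = q
      · have e : v.G = u.G := by
          by_contra hne
          have := c4 _ _ hue.cyc (h7.ssubset_of_ne hne)
          omega
        rw [if_pos hq, e, if_pos hi]
      · rw [if_neg hq]
        split_ifs <;> norm_num
    · have h7 := (Pt.le_iff.1 h).2.1
      rw [if_pos (h7 hi)]
      by_cases hq : nu r v.G = q
      · have e : u.G = v.G := by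
          by_contra hne
          have := c4 _ _ hve.cyc (h7.ssubset_of_ne hne)
          omega
        rw [if_pos hq, ← e, if_neg hju, sub_zero]
      · rw [if_neg hq]
        split_ifs <;> norm_num

end S1QLG

open S1QLG in
theorem t_QLG (h0 : Stmt_SEP) (h1 : Stmt_FLA) (h2 : Stmt_CYC) (_h3 : Stmt_HT) (h4 : Stmt_GAP)
    (h5 : Stmt_DIM) (h6 : Stmt_ACC) (_h7 : Stmt_TR0) (h8 : Stmt_TR1) (h9 : Stmt_TR2)
    (h10 : Stmt_QCZ) (_h11 : Stmt_DEC) : Stmt_QLG := by
  classical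
  intro α _ _ r al be hr hw ρ hρ hcard hne
  obtain ⟨g1, _, _, _, _, _, _, _, _, g10⟩ := h4 α r hr ρ hρ.1
  -- the number of missing levels
  obtain ⟨i, hi⟩ : ∃ i : α, ∀ s ∈ ρ, Nop i s := by
    rcases hρ.2 with h | h
    · have hc : 0 < Fintype.card α := by omega
      obtain ⟨i⟩ := Fintype.card_pos_iff.1 hc
      exact ⟨i, by rw [h]; simp⟩
    · exact h
  obtain ⟨a, b, hab, hcri, _⟩ := g10 i hi
  have hcc := ((h5 α r hr).1 a b i (g1 a hab.ha) (g1 b hab.hb) hab.lt hcri).2.2.1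
  have hacc := h6 α r hr ρ hρ.1 {(a, b)} (by
    intro p hp
    rw [mem_singleton] at hp
    rw [hp]
    exact hab)
  rw [sum_singleton] at hacc
  simp only at hacc
  have hlev : (mF r ρ).card + (mG r ρ).card ≤ 2 := by omega
  have hG1 : 0 < (mG r ρ).card := card_pos.2 hne
  set q := (mG r ρ).min' hne with hqdef
  have hqm : q ∈ mG r ρ := min'_mem _ _
  have hqle : ∀ t ∈ mG r ρ, q ≤ t := fun t ht => min'_le _ t ht
  set Z : Finset (Pt α) := univ.filter (fun u => Lkv r ρ u ∧ nu r u.G ≠ q) with hZdef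
  have hZ : ∀ u, u ∈ Z ↔ Lkv r ρ u ∧ nu r u.G ≠ q := by
    intro u
    rw [hZdef]
    simp only [mem_filter, mem_univ, true_and]
  refine ⟨Z, fun u => if nu r u.G = q then 1 else 0, ?_, ?_, ?_⟩
  · intro u hu
    rw [hZ] at hu
    exact ⟨hu.1, if_neg hu.2⟩
  · -- the condition on `μ`
    by_cases h2c : (mG r ρ).card = 2
    · -- two missing nullities
      have hF0 : mF r ρ = ∅ := card_eq_zero.1 (by omega)
      obtain ⟨t1, t2, t3⟩ := h8 α r hr ρ hρ (by omega)
      obtain ⟨q', hq'⟩ : ∃ q', q' ∈ (mG r ρ).erase q := by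
        have : 0 < ((mG r ρ).erase q).card := by
          rw [card_erase_of_mem hqm]
          omega
        exact card_pos.1 this
      rw [mem_erase] at hq'
      have hall : ∀ t ∈ mG r ρ, t = q ∨ t = q' := by
        intro t ht
        by_contra hc
        push Not at hc
        have h3 : ({q, q', t} : Finset ℕ) ⊆ mG r ρ := by
          intro x hx
          rw [mem_insert, mem_insert, mem_singleton] at hx
          rcases hx with h | h | h
          · rw [h]; exact hqm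
          · rw [h]; exact hq'.2
          · rw [h]; exact ht
        have h4' := card_le_card h3
        have h5' : ({q, q', t} : Finset ℕ).card = 3 :=
          card_eq_three.2 ⟨q, q', t, fun h => hq'.1 h.symm, fun h => hc.1 h.symm,
            fun h => hc.2 h.symm, rfl⟩
        omega
      have hlt : q < q' := lt_of_le_of_ne (hqle q' hq'.2) (fun h => hq'.1 h.symm)
      have hZq : ∀ u ∈ Z, nu r u.G = q' := by
        intro u hu
        rw [hZ] at hu
        rcases t1 u hu.1 with h | h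
        · rw [hF0] at h
          exact absurd h (notMem_empty _)
        · rcases hall _ h with h | h
          · exact absurd h hu.2
          · exact h
      refine muG h2 h4 hr hρ Z (fun u hu => ((hZ u).1 hu).1) q' hZq hq'.2 ?_ ?_
      · intro h
        rcases hall _ h with h | h <;> omega
      · intro u hu v hv huv
        exact t2 u v ((hZ u).1 hu).1 ((hZ v).1 hv).1 (by rw [hF0]; exact notMem_empty _)
          (by rw [hF0]; exact notMem_empty _) huv
    · have hG : (mG r ρ).card = 1 := by omega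
      have hGq : mG r ρ = {q} := by
        obtain ⟨x, hx⟩ := card_eq_one.1 hG
        rw [hx, mem_singleton] at hqm
        rw [hx, ← hqm]
      have hZn : ∀ u ∈ Z, nu r u.G ∉ mG r ρ := by
        intro u hu
        rw [hGq, mem_singleton]
        exact ((hZ u).1 hu).2
      by_cases hF1 : (mF r ρ).card = 1
      · obtain ⟨t1, t2, t3⟩ := h8 α r hr ρ hρ (by omega)
        obtain ⟨p, hp⟩ := card_eq_one.1 hF1
        refine muF h1 h4 hr hρ Z (fun u hu => ((hZ u).1 hu).1) p ?_ (by rw [hp]; simp) ?_ ?_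
        · intro u hu
          rcases t1 u ((hZ u).1 hu).1 with h | h
          · rw [hp, mem_singleton] at h
            exact h
          · exact absurd h (hZn u hu)
        · intro t ht
          rw [hp, mem_singleton] at ht
          exact ht
        · intro u hu v hv huv
          exact t3 u v ((hZ u).1 hu).1 ((hZ v).1 hv).1 (hZn u hu) (hZn v hv) huv
      · have hF0 : mF r ρ = ∅ := card_eq_zero.1 (by omega)
        obtain ⟨z1, z2, hz⟩ := h9 α r hr ρ hρ (by omega)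
        refine h10 α r al be (h0 α r al be hr hw) ρ Z z1 (fun u hu => ((hZ u).1 hu).1.1) ?_
        have hsub : ∀ u ∈ Z.erase z1, u = z2 := by
          intro u hu
          rw [mem_erase] at hu
          rcases hz u ((hZ u).1 hu.2).1 (by rw [hF0]; exact notMem_empty _) (hZn u hu.2)
            with h | h
          · exact absurd h hu.1
          · exact h
        by_cases hz2 : z2 ∈ Z.erase z1
        · have e : ρ ∪ Z.erase z1 = insert z2 ρ := by
            ext x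
            rw [mem_union, mem_insert]
            constructor
            · rintro (h | h)
              · exact Or.inr h
              · exact Or.inl (hsub x h)
            · rintro (h | h)
              · rw [h]; exact Or.inr hz2
              · exact Or.inl h
          rw [e]
          exact ((hZ z2).1 (mem_erase.1 hz2).2).1.2
        · have e : Z.erase z1 = ∅ := by
            rw [eq_empty_iff_forall_notMem]
            intro x hx
            exact hz2 (hsub x hx ▸ hx)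
          rw [e, union_empty]
          exact hρ
  · intro u hu huZ
    have huq : nu r u.G = q := by
      by_contra h
      exact huZ ((hZ u).2 ⟨hu, h⟩)
    obtain ⟨l, hl, hl0, hl1, hlv⟩ := third (al := al) (be := be) h2 h4 hr hρ hqm hu huq
    refine ⟨?_, l, hl, hl0, ?_, ?_⟩
    · simp only [huq, if_true]
      norm_num
    · simp only [huq, if_true]
      exact hl1
    · intro v hv hvu hF
      exact hlv v hv hvu hF

end Pool.Agent.QPR
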