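import Pool.Agent.QPR.StS

/-!
# The complex of states: the relation of a chain
-/

set_option autoImplicit false

open Finset

namespace Pool.Agent.QPR

namespace S1_REL

/-- Telescoping over the consecutive pairs of a finite chain with least and largest element. -/
theorem telescope {α : Type} [DecidableEq α] (H : Finset (Pt α)) (lo hi : Pt α)
    (hlo : lo ∈ H) (hhi : hi ∈ H) (h1 : ∀ s ∈ H, lo ≤ s ∧ s ≤ hi)
    (h2 : ∀ s ∈ H, ∀ t ∈ H, s ≤ t ∨ t ≤ s) (G : Finset (Pt α × Pt α))
    (hG : ∀ p : Pt α × Pt α, p ∈ G ↔ p.1 ∈ H ∧ p.2 ∈ H ∧ p.1 < p.2 ∧ ∀ s ∈ H, s ≤ p.1 ∨ p.2 ≤ s)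
    (f : Pt α → ℝ) : ∑ p ∈ G, (f p.2 - f p.1) = f hi - f lo := by
  classical
  have hb : ∑ p ∈ G, f p.2 = ∑ b ∈ H.erase lo, f b := by
    refine Finset.sum_nbij Prod.snd ?_ ?_ ?_ (fun _ _ => rfl)
    · intro p hp
      obtain ⟨ha, hb, hlt, _⟩ := (hG p).1 hp
      rw [Finset.mem_erase]
      refine ⟨?_, hb⟩
      intro h
      have := (h1 _ ha).1
      rw [h] at hlt
      exact absurd (lt_of_le_of_lt this hlt) (lt_irrefl _)
    · intro p hp p' hp' he
      obtain ⟨ha, hb, hlt, hs⟩ := (hG p).1 hp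
      obtain ⟨ha', hb', hlt', hs'⟩ := (hG p').1 hp'
      have he' : p.2 = p'.2 := he
      refine Prod.ext ?_ he'
      rcases hs _ ha' with h | h
      · rcases hs' _ ha with h' | h'
        · exact le_antisymm h' h
        · rw [← he'] at h'
          exact absurd (lt_of_lt_of_le hlt h') (lt_irrefl _)
      · rw [he'] at h
        exact absurd (lt_of_lt_of_le hlt' h) (lt_irrefl _)
    · intro b hb
      rw [Finset.mem_coe, Finset.mem_erase] at hb
      obtain ⟨hne, hbH⟩ := hb
      have hl : lo ∈ H.filter (fun a => a < b) := by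
        rw [Finset.mem_filter]
        exact ⟨hlo, lt_of_le_of_ne (h1 b hbH).1 (Ne.symm hne)⟩
      obtain ⟨a, ha, hmax⟩ := (H.filter (fun a => a < b)).exists_maximal ⟨lo, hl⟩
      rw [Finset.mem_filter] at ha
      refine ⟨(a, b), ?_, rfl⟩
      rw [Finset.mem_coe, hG]
      refine ⟨ha.1, hbH, ha.2, fun s hs => ?_⟩
      rcases h2 s hs b hbH with h | h
      · rcases eq_or_lt_of_le h with h' | h'
        · right
          exact h'.ge
        · left
          rcases h2 s hs a ha.1 with h3 | h3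
          · exact h3
          · exact hmax (Finset.mem_filter.2 ⟨hs, h'⟩) h3
      · right
        exact h
  have ha : ∑ p ∈ G, f p.1 = ∑ a ∈ H.erase hi, f a := by
    refine Finset.sum_nbij Prod.fst ?_ ?_ ?_ (fun _ _ => rfl)
    · intro p hp
      obtain ⟨ha, hb, hlt, _⟩ := (hG p).1 hp
      rw [Finset.mem_erase]
      refine ⟨?_, ha⟩
      intro h
      have := (h1 _ hb).2
      rw [h] at hlt
      exact absurd (lt_of_lt_of_le hlt this) (lt_irrefl _)
    · intro p hp p' hp' he
      obtain ⟨ha, hb, hlt, hs⟩ := (hG p).1 hp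
      obtain ⟨ha', hb', hlt', hs'⟩ := (hG p').1 hp'
      have he' : p.1 = p'.1 := he
      refine Prod.ext he' ?_
      rcases hs _ hb' with h | h
      · rw [he'] at h
        exact absurd (lt_of_lt_of_le hlt' h) (lt_irrefl _)
      · rcases hs' _ hb with h' | h'
        · rw [← he'] at h'
          exact absurd (lt_of_lt_of_le hlt h') (lt_irrefl _)
        · exact le_antisymm h h'
    · intro a ha
      rw [Finset.mem_coe, Finset.mem_erase] at ha
      obtain ⟨hne, haH⟩ := ha
      have hl : hi ∈ H.filter (fun b => a < b) := by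
        rw [Finset.mem_filter]
        exact ⟨hhi, lt_of_le_of_ne (h1 a haH).2 hne⟩
      obtain ⟨b, hb, hmin⟩ := (H.filter (fun b => a < b)).exists_minimal ⟨hi, hl⟩
      rw [Finset.mem_filter] at hb
      refine ⟨(a, b), ?_, rfl⟩
      rw [Finset.mem_coe, hG]
      refine ⟨haH, hb.1, hb.2, fun s hs => ?_⟩
      rcases h2 a haH s hs with h | h
      · rcases eq_or_lt_of_le h with h' | h'
        · left
          exact h'.ge
        · right
          rcases h2 s hs b hb.1 with h3 | h3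
          · exact hmin (Finset.mem_filter.2 ⟨hs, h'⟩) h3
          · exact h3
      · left
        exact h
  rw [Finset.sum_sub_distrib, hb, ha]
  have e1 := Finset.add_sum_erase H f hlo
  have e2 := Finset.add_sum_erase H f hhi
  linarith

end S1_REL

open S1_REL in
theorem t_REL (h1 : Stmt_HT) (h2 : Stmt_GAP) (h3 : Stmt_DEC) : Stmt_REL := by
  classical
  intro α _ _ r al be hr ρ hρ l φ γ σ τ hdec hl g hg hcc
  obtain ⟨_, _, _, hbt, _⟩ := h1 α r hr
  obtain ⟨hex, hcomp, _⟩ := h2 α r hr ρ hρ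
  obtain ⟨_, hd⟩ := h3 α r al be hr
  obtain ⟨hlb, hlt, hpsi, hstep⟩ := hd l φ γ σ τ hdec
  have hl0 : ∀ s ∈ hat r ρ, l s = 0 := by
    intro s hs
    unfold hat at hs
    rw [Finset.mem_insert, Finset.mem_insert] at hs
    rcases hs with h | h | h
    · rw [h]; exact hlb
    · rw [h]; exact hlt
    · exact hl s h
  have hbot : bot r ∈ hat r ρ := by
    unfold hat
    exact Finset.mem_insert_self _ _
  have htop : top r ∈ hat r ρ := by
    unfold hat
    exact Finset.mem_insert_of_mem (Finset.mem_insert_self _ _)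
  obtain ⟨G, hG⟩ : ∃ G : Finset (Pt α × Pt α), ∀ p, p ∈ G ↔ Gp r ρ p.1 p.2 :=
    ⟨univ.filter (fun p => Gp r ρ p.1 p.2), fun p => by
      rw [Finset.mem_filter]
      exact ⟨fun h => h.2, fun h => ⟨Finset.mem_univ _, h⟩⟩⟩
  have htel := telescope (hat r ρ) (bot r) (top r) hbot htop (fun s hs => hbt s (hex s hs)) hcomp G
    (fun p => by
      rw [hG]
      exact ⟨fun h => ⟨h.ha, h.hb, h.lt, h.sep⟩, fun h => ⟨h.1, h.2.1, h.2.2.1, h.2.2.2⟩⟩)
    (psi al be φ γ σ)
  rw [hpsi, sub_self] at htel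
  have hsub : g ⊆ G := fun p hp => (hG p).2 (hg p hp)
  rw [← htel]
  refine Finset.sum_subset hsub ?_
  intro p hp hpg
  have hgp : Gp r ρ p.1 p.2 := (hG p).1 hp
  have hc : ncc p.1 p.2 = 1 := by
    by_contra hne
    exact hpg (hcc p.1 p.2 hgp hne)
  rw [hstep p.1 p.2 hgp.lt.le hc, hl0 _ hgp.hb, hl0 _ hgp.ha]
  ring

end Pool.Agent.QPR
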