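import Pool.Agent.QPR.StS

/-!
# (SEP): the linear functions take arbitrary values on every face (helper25)
-/

set_option autoImplicit false

open Finset

namespace Pool.Agent.QPR

namespace SEPaux

variable {α : Type} [Fintype α] [DecidableEq α]

/-- events -/
def Evt (r : Finset α → ℕ) (E : Pt α → Prop) : Prop :=
  (∃ i, ¬ Loo r i ∧ E = fun s => i ∈ s.F) ∨ (∃ i, ¬ Clo r i ∧ E = fun s => i ∈ s.G) ∨
    (E = fun s => s.S = true) ∨ (E = fun s => s.T = true)

theorem Evt.mono {r : Finset α → ℕ} {E : Pt α → Prop} (h : Evt r E) {s t : Pt α} (hst : s ≤ t)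
    (hs : E s) : E t := by
  obtain ⟨h1, h2, h3, h4⟩ := hst
  rcases h with ⟨i, -, rfl⟩ | ⟨i, -, rfl⟩ | rfl | rfl
  · exact h1 hs
  · exact h2 hs
  · exact h3 hs
  · exact h4 hs

open Classical in
/-- the sum over the elements where the event has happened -/
noncomputable def K (ρ : Finset (Pt α)) (c : Pt α → ℝ) (E : Pt α → Prop) : ℝ :=
  ∑ s ∈ ρ, if E s then c s else 0

theorem K_congr {ρ : Finset (Pt α)} {c : Pt α → ℝ} {E E' : Pt α → Prop}
    (h : ∀ s ∈ ρ, E s ↔ E' s) : K ρ c E = K ρ c E' := by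
  classical
  unfold K
  refine Finset.sum_congr rfl fun s hs => ?_
  by_cases h1 : E s
  · rw [if_pos h1, if_pos ((h s hs).1 h1)]
  · rw [if_neg h1, if_neg (fun h2 => h1 ((h s hs).2 h2))]

theorem K_zero {ρ : Finset (Pt α)} {c : Pt α → ℝ} {E : Pt α → Prop}
    (h : ∀ s ∈ ρ, ¬ E s) : K ρ c E = 0 := by
  classical
  unfold K
  exact Finset.sum_eq_zero fun s hs => if_neg (h s hs)

theorem vv_sum (al : ℝ) (i : α) (ρ : Finset (Pt α)) (c : Pt α → ℝ)
    (h : ∑ s ∈ ρ, c s * vv al i s = 0) :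
    K ρ c (fun s => i ∈ s.F) =
      (1 - al) * K ρ c (fun s => s.S = true) + al * K ρ c (fun s => s.T = true) := by
  classical
  have h1 : ∑ s ∈ ρ, c s * vv al i s = - K ρ c (fun s => i ∈ s.F) +
      (1 - al) * K ρ c (fun s => s.S = true) + al * K ρ c (fun s => s.T = true) := by
    unfold K
    rw [Finset.mul_sum, Finset.mul_sum, ← Finset.sum_neg_distrib, ← Finset.sum_add_distrib,
      ← Finset.sum_add_distrib]
    refine Finset.sum_congr rfl fun s _ => ?_
    unfold vv
    split_ifs <;> ring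
  rw [h1] at h
  linarith

theorem zz_sum (be : ℝ) (i : α) (ρ : Finset (Pt α)) (c : Pt α → ℝ)
    (h : ∑ s ∈ ρ, c s * zz be i s = 0) :
    K ρ c (fun s => i ∈ s.G) =
      be * K ρ c (fun s => s.S = true) + (1 - be) * K ρ c (fun s => s.T = true) := by
  classical
  have h1 : ∑ s ∈ ρ, c s * zz be i s = K ρ c (fun s => i ∈ s.G) -
      be * K ρ c (fun s => s.S = true) - (1 - be) * K ρ c (fun s => s.T = true) := by
    unfold K
    rw [Finset.mul_sum, Finset.mul_sum, ← Finset.sum_sub_distrib, ← Finset.sum_sub_distrib]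
    refine Finset.sum_congr rfl fun s _ => ?_
    unfold zz
    split_ifs <;> ring
  rw [h1] at h
  linarith

/-- Events separate the extended states. -/
theorem sep_event (h1 : Stmt_FLA) (h2 : Stmt_CYC) (h3 : Stmt_HT) {r : Finset α → ℕ}
    (hr : IsRank r) {a b : Pt α} (ha : Ex0 r a) (hb : Ex0 r b) (hab : ¬ b ≤ a) :
    ∃ E, Evt r E ∧ E b ∧ ¬ E a := by
  by_contra hcon
  push Not at hcon
  apply hab
  have hFL := h1 α r hr
  have hCY := h2 α r hr
  have hHT := h3 α r hr
  have eA := (hHT.1 a).1 ha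
  have eB := (hHT.1 b).1 hb
  rw [Pt.le_iff]
  refine ⟨fun i hi => ?_, fun i hi => ?_, fun hS => ?_, fun hT => ?_⟩
  · by_cases hl : Loo r i
    · obtain ⟨_, _, _, _, _, _, _, _, _, _, _, _, hbF, hbl⟩ := hFL
      exact hbF a.F eA.1 ((hbl i).2 hl)
    · exact hcon _ (Or.inl ⟨i, hl, rfl⟩) hi
  · have hc : ¬ Clo r i := by
      obtain ⟨_, _, _, _, _, _, _, _, _, _, _, htG, htl⟩ := hCY
      exact (htl i).1 (htG b.G eB.2.1 hi)
    exact hcon _ (Or.inr (Or.inl ⟨i, hc, rfl⟩)) hi
  · exact hcon _ (Or.inr (Or.inr (Or.inl rfl))) hS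
  · exact hcon _ (Or.inr (Or.inr (Or.inr rfl))) hT

/-- The main lemma. -/
theorem core (h1 : Stmt_FLA) (h2 : Stmt_CYC) (h3 : Stmt_HT) {r : Finset α → ℕ}
    (hr : IsRank r) {al be : ℝ} (hw : Win al be) {ρ : Finset (Pt α)} (hρ : Fc r ρ)
    (c : Pt α → ℝ) (hc : ∀ l ∈ Lin r al be, ∑ s ∈ ρ, c s * l s = 0) : ∀ s ∈ ρ, c s = 0 := by
  classical
  by_contra hne
  push Not at hne
  obtain ⟨s1, hs1, hcs1⟩ := hne
  obtain ⟨⟨hSta, hch⟩, hi⟩ := hρ
  have hFL := h1 α r hr
  have hCY := h2 α r hr
  have hHT := h3 α r hr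
  obtain ⟨hHex, hbot, htop, hbt, -, -, -, hstrict, -, hclop, -⟩ := hHT
  have hex : ∀ s ∈ ρ, Ex0 r s := fun s hs => (hSta s hs).ex
  -- the relations
  have hFr : ∀ i, ¬ Loo r i → K ρ c (fun s => i ∈ s.F) =
      (1 - al) * K ρ c (fun s => s.S = true) + al * K ρ c (fun s => s.T = true) := by
    intro i hl
    exact vv_sum al i ρ c (hc _ (Submodule.subset_span (Or.inl ⟨i, hl, rfl⟩)))
  have hGr : ∀ i, ¬ Clo r i → K ρ c (fun s => i ∈ s.G) =
      be * K ρ c (fun s => s.S = true) + (1 - be) * K ρ c (fun s => s.T = true) := by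
    intro i hl
    exact zz_sum be i ρ c (hc _ (Submodule.subset_span (Or.inr ⟨i, hl, rfl⟩)))
  -- an element which is never open
  obtain ⟨i, hi⟩ : ∃ i, ∀ s ∈ ρ, Nop i s := by
    rcases hi with hi | hi
    · rw [hi] at hs1
      simp at hs1
    · exact hi
  have hoc : K ρ c (fun s => i ∈ s.F ∧ s.S = true) = K ρ c (fun s => i ∈ s.G ∨ s.T = true) := by
    apply K_congr
    intro s hs
    constructor
    · rintro ⟨h4, h5⟩
      exact hi s hs h4 h5
    · intro h4
      exact hclop s i (hex s hs) h4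
  set KS := K ρ c (fun s => s.S = true) with hKS
  set KT := K ρ c (fun s => s.T = true) with hKT
  have hop : K ρ c (fun s => i ∈ s.F ∧ s.S = true) = KS ∨
      K ρ c (fun s => i ∈ s.F ∧ s.S = true) = (1 - al) * KS + al * KT := by
    by_cases hl : Loo r i
    · left
      apply K_congr
      intro s hs
      constructor
      · exact fun h => h.2
      · intro h
        obtain ⟨_, _, _, _, _, _, _, _, _, _, _, _, hbF, hbl⟩ := hFL
        exact ⟨hbF s.F ((hHex s).1 (hex s hs)).1 ((hbl i).2 hl), h⟩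
    · by_cases hA : ∀ s ∈ ρ, i ∈ s.F → s.S = true
      · right
        rw [← hFr i hl]
        apply K_congr
        intro s hs
        exact ⟨fun h => h.1, fun h => ⟨h, hA s hs h⟩⟩
      · left
        push Not at hA
        obtain ⟨s0, hs0, hF0, hS0⟩ := hA
        apply K_congr
        intro s hs
        refine ⟨fun h => h.2, fun h => ⟨?_, h⟩⟩
        rcases hch s hs s0 hs0 with h4 | h4
        · exact absurd (h4.2.2.1 h) hS0
        · exact h4.1 hF0
  have hcl : K ρ c (fun s => i ∈ s.G ∨ s.T = true) = KT ∨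
      K ρ c (fun s => i ∈ s.G ∨ s.T = true) = be * KS + (1 - be) * KT := by
    by_cases hl : Clo r i
    · left
      apply K_congr
      intro s hs
      constructor
      · rintro (h | h)
        · obtain ⟨_, _, _, _, _, _, _, _, _, _, _, htG, htl⟩ := hCY
          exact absurd hl ((htl i).1 (htG s.G ((hHex s).1 (hex s hs)).2.1 h))
        · exact h
      · exact fun h => Or.inr h
    · by_cases hA : ∀ s ∈ ρ, i ∈ s.G → s.T = true
      · left
        apply K_congr
        intro s hs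
        exact ⟨fun h => h.elim (hA s hs) id, Or.inr⟩
      · right
        push Not at hA
        obtain ⟨s0, hs0, hG0, hT0⟩ := hA
        rw [← hGr i hl]
        apply K_congr
        intro s hs
        refine ⟨fun h => h.elim id (fun h => ?_), Or.inl⟩
        rcases hch s hs s0 hs0 with h4 | h4
        · exact absurd (h4.2.2.2 h) hT0
        · exact h4.2.1 hG0
  obtain ⟨ha0, hb0, hab⟩ := hw
  have hKK : KS = KT := by
    rw [hoc] at hop
    rcases hop with h4 | h4 <;> rcases hcl with h5 | h5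
    · rw [← h4, h5]
    · have h6 : (1 - be) * (KS - KT) = 0 := by linarith
      rcases mul_eq_zero.1 h6 with h7 | h7
      · linarith
      · linarith
    · have h6 : (1 - al) * (KS - KT) = 0 := by linarith
      rcases mul_eq_zero.1 h6 with h7 | h7
      · linarith
      · linarith
    · have h6 : (1 - al - be) * (KS - KT) = 0 := by linarith
      rcases mul_eq_zero.1 h6 with h7 | h7
      · linarith
      · linarith
  have hall : ∀ E, Evt r E → K ρ c E = KT := by
    intro E hE
    rcases hE with ⟨j, hj, rfl⟩ | ⟨j, hj, rfl⟩ | rfl | rfl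
    · rw [hFr j hj, hKK]; ring
    · rw [hGr j hj, hKK]; ring
    · exact hKK
    · rfl
  -- the largest element
  have hne : ρ.Nonempty := ⟨s1, hs1⟩
  obtain ⟨m, hm, hmax⟩ := Finset.exists_max_image ρ (ht r) hne
  have hle : ∀ s ∈ ρ, s ≤ m := by
    intro s hs
    rcases hch s hs m hm with h4 | h4
    · exact h4
    · rcases eq_or_lt_of_le h4 with h5 | h5
      · exact h5.symm.le
      · have := hstrict m s (hex m hm) (hex s hs) h5
        have := hmax s hs
        omega
  have hK0 : KT = 0 := by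
    have hntm : ¬ top r ≤ m := fun h4 =>
      (hSta m hm).nt (le_antisymm (hbt m (hex m hm)).2 h4)
    obtain ⟨E, hE, _, hEm⟩ := sep_event h1 h2 h3 hr (hex m hm) htop hntm
    rw [← hall E hE]
    exact K_zero fun s hs h4 => hEm (hE.mono (hle s hs) h4)
  -- the largest element with nonzero coefficient
  have hne2 : (ρ.filter (fun s => c s ≠ 0)).Nonempty := ⟨s1, Finset.mem_filter.2 ⟨hs1, hcs1⟩⟩
  obtain ⟨s, hs, hsmax⟩ := Finset.exists_max_image _ (ht r) hne2
  rw [Finset.mem_filter] at hs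
  obtain ⟨hsρ, hcs⟩ := hs
  -- the predecessor
  obtain ⟨s', hs', hss', hpre⟩ : ∃ s', Ex0 r s' ∧ ¬ s ≤ s' ∧ ∀ t ∈ ρ, ¬ s ≤ t → t ≤ s' := by
    by_cases hD : (ρ.filter (fun t => ¬ s ≤ t)).Nonempty
    · obtain ⟨s', hs', hmax'⟩ := Finset.exists_max_image _ (ht r) hD
      rw [Finset.mem_filter] at hs'
      refine ⟨s', hex s' hs'.1, hs'.2, fun t ht' hst => ?_⟩
      rcases hch t ht' s' hs'.1 with h4 | h4
      · exact h4
      · rcases eq_or_lt_of_le h4 with h5 | h5
        · exact h5.symm.le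
        · have := hstrict s' t (hex s' hs'.1) (hex t ht') h5
          have := hmax' t (Finset.mem_filter.2 ⟨ht', hst⟩)
          omega
    · refine ⟨bot r, hbot, fun h4 => ?_, fun t ht' hst => ?_⟩
      · exact (hSta s hsρ).nb (le_antisymm h4 (hbt s (hex s hsρ)).1)
      · exact absurd ⟨t, Finset.mem_filter.2 ⟨ht', hst⟩⟩ hD
  obtain ⟨E, hE, hEs, hEs'⟩ := sep_event h1 h2 h3 hr hs' (hex s hsρ) hss'
  have hKE := hall E hE
  rw [hK0] at hKE
  have hfin : K ρ c E = c s := by
    unfold K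
    rw [Finset.sum_eq_single s]
    · rw [if_pos hEs]
    · intro t ht' hts
      split_ifs with h4
      · by_contra hct
        have hst : s ≤ t := by
          by_contra h5
          exact hEs' (hE.mono (hpre t ht' h5) h4)
        have h5 := hstrict s t (hex s hsρ) (hex t ht') (lt_of_le_of_ne hst (Ne.symm hts))
        have h6 := hsmax t (Finset.mem_filter.2 ⟨ht', hct⟩)
        omega
      · rfl
    · intro h4
      exact absurd hsρ h4
  rw [hfin] at hKE
  exact hcs hKE

end SEPaux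

open SEPaux

theorem t_SEP (h1 : Stmt_FLA) (h2 : Stmt_CYC) (h3 : Stmt_HT) : Stmt_SEP := by
  intro α _ _ r al be hr hw ρ hρ f
  classical
  let res : (Pt α → ℝ) →ₗ[ℝ] ({s // s ∈ ρ} → ℝ) :=
    { toFun := fun g s => g s.1
      map_add' := fun _ _ => rfl
      map_smul' := fun _ _ => rfl }
  have htop : (Lin r al be).map res = ⊤ := by
    by_contra hne
    obtain ⟨φ, hφ0, hφ⟩ := Submodule.exists_le_ker_of_lt_top _ (lt_top_iff_ne_top.2 hne)
    let c : Pt α → ℝ := fun s => if h : s ∈ ρ then φ (Pi.single ⟨s, h⟩ 1) else 0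
    have hφc : ∀ g : {s // s ∈ ρ} → ℝ, φ g = ∑ s : {s // s ∈ ρ}, c s.1 * g s := by
      intro g
      have e : g = ∑ s : {s // s ∈ ρ}, g s • (Pi.single s (1 : ℝ) : {s // s ∈ ρ} → ℝ) := by
        funext t
        rw [Finset.sum_apply, Finset.sum_eq_single t]
        · simp
        · intro b _ hb
          simp [Ne.symm hb]
        · intro h
          exact absurd (Finset.mem_univ _) h
      conv_lhs => rw [e]
      rw [map_sum]
      refine Finset.sum_congr rfl fun s _ => ?_
      rw [map_smul, smul_eq_mul, mul_comm]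
      congr 1
      simp only [c, s.2, dif_pos]
    have hc : ∀ l ∈ Lin r al be, ∑ s ∈ ρ, c s * l s = 0 := by
      intro l hl
      have h4 : φ (res l) = 0 := hφ (Submodule.mem_map_of_mem hl)
      rw [hφc] at h4
      rw [← Finset.sum_coe_sort ρ (fun s => c s * l s)]
      exact h4
    have h5 := core h1 h2 h3 hr hw hρ c hc
    apply hφ0
    refine LinearMap.ext fun g => ?_
    rw [hφc, LinearMap.zero_apply]
    exact Finset.sum_eq_zero fun s _ => by rw [h5 s.1 s.2, zero_mul]
  have hf : res f ∈ (Lin r al be).map res := by rw [htop]; exact Submodule.mem_top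
  obtain ⟨l, hl, hlf⟩ := hf
  refine ⟨l, hl, fun u hu => ?_⟩
  exact congrFun hlf ⟨u, hu⟩

end Pool.Agent.QPR
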