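import Pool.Agent.QPR.StS

/-!
# Components at missing levels (QPR1_TR0)
-/

set_option autoImplicit false

open Finset

namespace Pool.Agent.QPR

theorem t_TR0 (h1 : Stmt_FLA) (h2 : Stmt_CYC) (h3 : Stmt_HT) (h4 : Stmt_GAP) : Stmt_TR0 := by
  intro α _ _ r hr ρ a b u hρ hg hu
  obtain ⟨-, -, -, -, hFs, -, -, -, -, -, -, hb0, -, -⟩ := h1 α r hr
  obtain ⟨-, -, hnu, hGs, -, -, -, -, -, -, -, -, -⟩ := h2 α r hr
  obtain ⟨-, -, -, -, -, -, -, -, -, -, -⟩ := h3 α r hr
  obtain ⟨hex, -, -, -, -, -, -, -, -, -⟩ := h4 α r hr ρ hρ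
  have hmem : Ex0 r u ∧ a < u ∧ u < b := by
    simpa [mid] using hu
  obtain ⟨hue, hau, hub⟩ := hmem
  have hae : Ex0 r a := hex a hg.ha
  have hbe : Ex0 r b := hex b hg.hb
  obtain ⟨aF, aG, aS, aT⟩ := Pt.le_iff.1 hau.le
  obtain ⟨bF, bG, bS, bT⟩ := Pt.le_iff.1 hub.le
  have hbot : bot r ∈ hat r ρ := by simp [hat]
  have P1 : r u.F ∉ mF r ρ → u.F = a.F ∨ u.F = b.F := by
    intro hm
    have hs : ∃ s ∈ hat r ρ, r s.F = r u.F := by
      by_contra hcon
      push Not at hcon
      apply hm
      rw [mF, mem_filter, mem_Icc]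
      refine ⟨⟨?_, hr.mono_subset (subset_univ _)⟩, hcon⟩
      by_contra h0
      have h00 : r u.F = 0 := by omega
      exact hcon _ hbot (by rw [hb0, h00])
    obtain ⟨s, hs, hrs⟩ := hs
    have hse : Ex0 r s := hex s hs
    rcases hg.sep s hs with h | h
    · left
      obtain ⟨sF, -, -, -⟩ := Pt.le_iff.1 h
      have hsu : s.F = u.F := by
        by_contra hne
        have := hFs s.F u.F hse.flat (lt_of_le_of_ne (sF.trans aF) hne)
        omega
      exact subset_antisymm (hsu ▸ sF) aF
    · right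
      obtain ⟨sF, -, -, -⟩ := Pt.le_iff.1 h
      have hsu : u.F = s.F := by
        by_contra hne
        have := hFs u.F s.F hue.flat (lt_of_le_of_ne (bF.trans sF) hne)
        omega
      exact subset_antisymm bF (hsu ▸ sF)
  have P2 : nu r u.G ∉ mG r ρ → u.G = a.G ∨ u.G = b.G := by
    intro hm
    have hs : ∃ s ∈ hat r ρ, nu r s.G = nu r u.G := by
      by_contra hcon
      push Not at hcon
      apply hm
      rw [mG, mem_filter, mem_Icc]
      refine ⟨⟨?_, hnu _ _ (subset_univ _)⟩, hcon⟩
      by_contra h0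
      have h00 : nu r u.G = 0 := by omega
      refine hcon _ hbot ?_
      rw [h00]
      simp [bot, nu]
    obtain ⟨s, hs, hrs⟩ := hs
    have hse : Ex0 r s := hex s hs
    rcases hg.sep s hs with h | h
    · left
      obtain ⟨-, sG, -, -⟩ := Pt.le_iff.1 h
      have hsu : s.G = u.G := by
        by_contra hne
        have := hGs s.G u.G hue.cyc (lt_of_le_of_ne (sG.trans aG) hne)
        omega
      exact subset_antisymm (hsu ▸ sG) aG
    · right
      obtain ⟨-, sG, -, -⟩ := Pt.le_iff.1 h
      have hsu : u.G = s.G := by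
        by_contra hne
        have := hGs u.G s.G hse.cyc (lt_of_le_of_ne (bG.trans sG) hne)
        omega
      exact subset_antisymm bG (hsu ▸ sG)
  have pos : ∀ p q : Pt α, p ≠ q → 1 ≤ ncc p q := by
    intro p q hpq
    by_contra hcon
    apply hpq
    obtain ⟨F, G, S, T⟩ := p
    obtain ⟨F', G', S', T'⟩ := q
    simp only [ncc] at hcon
    have e1 : F = F' := by
      by_contra h
      rw [if_neg h] at hcon
      omega
    have e2 : G = G' := by
      by_contra h
      rw [if_neg h] at hcon
      omega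
    have e3 : S = S' := by
      by_contra h
      rw [if_neg h] at hcon
      omega
    have e4 : T = T' := by
      by_contra h
      rw [if_neg h] at hcon
      omega
    rw [e1, e2, e3, e4]
  refine ⟨P1, P2, ?_⟩
  intro hF hG
  refine ⟨?_, pos a u hau.ne, pos u b hub.ne⟩
  have cF : (if a.F = u.F then 0 else 1) + (if u.F = b.F then 0 else 1) =
      (if a.F = b.F then 0 else 1) := by
    rcases P1 hF with h | h
    · rw [h, if_pos rfl, zero_add]
    · rw [← h, if_pos (rfl : u.F = u.F), add_zero]
  have cG : (if a.G = u.G then 0 else 1) + (if u.G = b.G then 0 else 1) =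
      (if a.G = b.G then 0 else 1) := by
    rcases P2 hG with h | h
    · rw [h, if_pos rfl, zero_add]
    · rw [← h, if_pos (rfl : u.G = u.G), add_zero]
  have cS : (if a.S = u.S then 0 else 1) + (if u.S = b.S then 0 else 1) =
      (if a.S = b.S then 0 else 1) := by
    revert aS bS
    cases a.S <;> cases u.S <;> cases b.S <;> simp
  have cT : (if a.T = u.T then 0 else 1) + (if u.T = b.T then 0 else 1) =
      (if a.T = b.T then 0 else 1) := by
    revert aT bT
    cases a.T <;> cases u.T <;> cases b.T <;> simp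
  unfold ncc
  omega

end Pool.Agent.QPR
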