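import Pool.Agent.QPR.StS

/-!
# TR1: one surplus component (helper75)
-/

set_option autoImplicit false

open Finset

namespace Pool.Agent.QPR

namespace TR1

variable {α : Type} [Fintype α] [DecidableEq α]

/-- link vertices and the gap which contains them -/
theorem lk (h4 : Stmt_GAP) (h5 : Stmt_DIM) (h6 : Stmt_ACC) (r : Finset α → ℕ) (hr : IsRank r)
    (ρ : Finset (Pt α)) (hρ : Chn r ρ)
    (hc : Fintype.card α ≤ ρ.card + (mF r ρ).card + (mG r ρ).card) (u : Pt α)
    (hu : Lkv r ρ u) :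
    ∃ (j : α) (a b : Pt α), (∀ s ∈ insert u ρ, Nop j s) ∧ Gp r ρ a b ∧ u ∈ mid r a b ∧
      (ncc a b ≤ 1 ∨ (ncc a b = 2 ∧ Cri a b j)) := by
  obtain ⟨hu1, hu2, hu3⟩ := hu
  have hj : ∃ j, ∀ s ∈ insert u ρ, Nop j s := by
    rcases hu3 with h | h
    · exact absurd h (Finset.insert_ne_empty _ _)
    · exact h
  obtain ⟨j, hj⟩ := hj
  obtain ⟨g1, g2, g3, g4, g5, g6, g7, g8, g9, g10⟩ := h4 α r hr ρ hρ
  obtain ⟨a, b, hab, hm⟩ := g5 u hu1 hu2
  obtain ⟨c, d, hcd, hcri, _⟩ := g10 j (fun s hs => hj s (Finset.mem_insert_of_mem hs))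
  have hd := (h5 α r hr).1 c d j (g1 c hcd.ha) (g1 d hcd.hb) hcd.lt hcri
  refine ⟨j, a, b, hj, hab, hm, ?_⟩
  by_cases he : (a, b) = (c, d)
  · right
    have ha := h6 α r hr ρ hρ {(a, b)} (by
      intro p hp
      rw [Finset.mem_singleton] at hp
      rw [hp]
      exact hab)
    rw [Finset.sum_singleton] at ha
    obtain ⟨e1, e2⟩ := Prod.mk.inj he
    subst e1
    subst e2
    refine ⟨?_, hcri⟩
    have := hd.2.2.1
    simp only at ha
    omega
  · left
    have ha := h6 α r hr ρ hρ {(a, b), (c, d)} (by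
      intro p hp
      rw [Finset.mem_insert, Finset.mem_singleton] at hp
      rcases hp with hp | hp
      · rw [hp]
        exact hab
      · rw [hp]
        exact hcd)
    rw [Finset.sum_pair he] at ha
    have := hd.2.2.1
    simp only at ha
    omega

/-- both levels cannot be not missing -/
theorem part1 (h4 : Stmt_GAP) (h5 : Stmt_DIM) (h6 : Stmt_ACC) (r : Finset α → ℕ) (hr : IsRank r)
    (ρ : Finset (Pt α))
    (hc : Fintype.card α ≤ ρ.card + (mF r ρ).card + (mG r ρ).card) (u : Pt α)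
    (hu : Lkv r ρ u) : r u.F ∈ mF r ρ ∨ nu r u.G ∈ mG r ρ := by
  by_contra hn
  rw [not_or] at hn
  obtain ⟨hn1, hn2⟩ := hn
  obtain ⟨hu1, hu2, hu3⟩ := hu
  have hj : ∃ j, ∀ s ∈ insert u ρ, Nop j s := by
    rcases hu3 with h | h
    · exact absurd h (Finset.insert_ne_empty _ _)
    · exact h
  obtain ⟨j, hj⟩ := hj
  obtain ⟨g1, g2, g3, g4, g5, g6, g7, g8, g9, g10⟩ := h4 α r hr _ hu2
  obtain ⟨c, d, hcd, hcri, _⟩ := g10 j hj
  have hd := (h5 α r hr).1 c d j (g1 c hcd.ha) (g1 d hcd.hb) hcd.lt hcri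
  have ha := h6 α r hr _ hu2 {(c, d)} (by
    intro p hp
    rw [Finset.mem_singleton] at hp
    rw [hp]
    exact hcd)
  rw [Finset.sum_singleton, Finset.card_insert_of_notMem hu1] at ha
  have hF : (mF r ρ).card ≤ (mF r (insert u ρ)).card := by
    apply Finset.card_le_card
    intro t ht
    have ht' := ht
    unfold mF at ht ⊢
    rw [Finset.mem_filter] at ht ⊢
    refine ⟨ht.1, ?_⟩
    intro s hs he
    unfold hat at hs
    rw [Finset.mem_insert, Finset.mem_insert, Finset.mem_insert] at hs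
    rcases hs with hs | hs | hs | hs
    · exact ht.2 s (by unfold hat; rw [hs]; simp) he
    · exact ht.2 s (by unfold hat; rw [hs]; simp) he
    · rw [hs] at he
      rw [he] at hn1
      exact hn1 ht'
    · exact ht.2 s (by unfold hat; simp [hs]) he
  have hG : (mG r ρ).card ≤ (mG r (insert u ρ)).card := by
    apply Finset.card_le_card
    intro t ht
    have ht' := ht
    unfold mG at ht ⊢
    rw [Finset.mem_filter] at ht ⊢
    refine ⟨ht.1, ?_⟩
    intro s hs he
    unfold hat at hs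
    rw [Finset.mem_insert, Finset.mem_insert, Finset.mem_insert] at hs
    rcases hs with hs | hs | hs | hs
    · exact ht.2 s (by unfold hat; rw [hs]; simp) he
    · exact ht.2 s (by unfold hat; rw [hs]; simp) he
    · rw [hs] at he
      rw [he] at hn2
      exact hn2 ht'
    · exact ht.2 s (by unfold hat; simp [hs]) he
  have := hd.2.2.1
  simp only at ha
  omega

/-- two booleans -/
theorem bool_eq {x y : Bool} (h : x = true → y = true) (h' : y = true → x = true) : x = y := by
  cases x <;> cases y <;> simp_all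

theorem bool_eq_false {x : Bool} (h : ¬ x = true) : x = false := by
  cases x <;> simp_all

omit [Fintype α] [DecidableEq α] in
/-- equality of points -/
theorem pt_eq {u v : Pt α} (h1 : u.F = v.F) (h2 : u.G = v.G) (h3 : u.S = v.S) (h4 : u.T = v.T) :
    u = v := by
  obtain ⟨F, G, S, T⟩ := u
  obtain ⟨F', G', S', T'⟩ := v
  simp only at h1 h2 h3 h4
  rw [h1, h2, h3, h4]

theorem mid_mem {r : Finset α → ℕ} {a b u : Pt α} (h : u ∈ mid r a b) :
    Ex0 r u ∧ a < u ∧ u < b := by
  simp only [mid, Finset.mem_filter, Finset.mem_univ, true_and] at h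
  exact h

omit [Fintype α] [DecidableEq α] in
/-- the squeezed components -/
theorem sq {a b u : Pt α} (h : a ≤ u) (h' : u ≤ b) :
    (a.F = b.F → u.F = a.F) ∧ (a.G = b.G → u.G = a.G) ∧ (a.S = b.S → u.S = a.S) ∧
      (a.T = b.T → u.T = a.T) := by
  obtain ⟨p1, p2, p3, p4⟩ := Pt.le_iff.1 h
  obtain ⟨q1, q2, q3, q4⟩ := Pt.le_iff.1 h'
  refine ⟨?_, ?_, ?_, ?_⟩
  · intro e
    rw [← e] at q1
    exact Subset.antisymm q1 p1
  · intro e
    rw [← e] at q2
    exact Subset.antisymm q2 p2
  · intro e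
    rw [← e] at q3
    exact bool_eq q3 p3
  · intro e
    rw [← e] at q4
    exact bool_eq q4 p4

/-- a missing nullity is strictly between -/
theorem missG {r : Finset α → ℕ} {ρ : Finset (Pt α)} {a b u : Pt α} (hab : Gp r ρ a b)
    (hm : u ∈ mid r a b) (hu : nu r u.G ∈ mG r ρ) :
    a.G ⊆ u.G ∧ u.G ⊆ b.G ∧ a.G ≠ u.G ∧ u.G ≠ b.G := by
  obtain ⟨_, h1, h2⟩ := mid_mem hm
  obtain ⟨p1, p2, p3, p4⟩ := Pt.le_iff.1 h1.le
  obtain ⟨q1, q2, q3, q4⟩ := Pt.le_iff.1 h2.le
  unfold mG at hu
  rw [Finset.mem_filter] at hu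
  refine ⟨p2, q2, ?_, ?_⟩
  · intro e
    exact hu.2 a hab.ha (by rw [e])
  · intro e
    exact hu.2 b hab.hb (by rw [e])

/-- a missing rank is strictly between -/
theorem missF {r : Finset α → ℕ} {ρ : Finset (Pt α)} {a b u : Pt α} (hab : Gp r ρ a b)
    (hm : u ∈ mid r a b) (hu : r u.F ∈ mF r ρ) :
    a.F ⊆ u.F ∧ u.F ⊆ b.F ∧ a.F ≠ u.F ∧ u.F ≠ b.F := by
  obtain ⟨_, h1, h2⟩ := mid_mem hm
  obtain ⟨p1, p2, p3, p4⟩ := Pt.le_iff.1 h1.le
  obtain ⟨q1, q2, q3, q4⟩ := Pt.le_iff.1 h2.le
  unfold mF at hu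
  rw [Finset.mem_filter] at hu
  refine ⟨p1, q1, ?_, ?_⟩
  · intro e
    exact hu.2 a hab.ha (by rw [e])
  · intro e
    exact hu.2 b hab.hb (by rw [e])

omit [Fintype α] in
/-- the number of components as conditions: `G` changes and at most one other -/
theorem ncc_G {a b : Pt α} (hG : a.G ≠ b.G) (h : ncc a b ≤ 1) :
    a.F = b.F ∧ a.S = b.S ∧ a.T = b.T := by
  unfold ncc at h
  rw [if_neg hG] at h
  refine ⟨?_, ?_, ?_⟩
  · by_contra hn
    rw [if_neg hn] at h
    omega
  · by_contra hn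
    rw [if_neg hn] at h
    omega
  · by_contra hn
    rw [if_neg hn] at h
    omega

omit [Fintype α] in
theorem ncc_F {a b : Pt α} (hF : a.F ≠ b.F) (h : ncc a b ≤ 1) :
    a.G = b.G ∧ a.S = b.S ∧ a.T = b.T := by
  unfold ncc at h
  rw [if_neg hF] at h
  refine ⟨?_, ?_, ?_⟩
  · by_contra hn
    rw [if_neg hn] at h
    omega
  · by_contra hn
    rw [if_neg hn] at h
    omega
  · by_contra hn
    rw [if_neg hn] at h
    omega

omit [Fintype α] in
theorem ncc_GF {a b : Pt α} (hG : a.G ≠ b.G) (hF : a.F ≠ b.F) (h : ncc a b = 2) :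
    a.S = b.S ∧ a.T = b.T := by
  unfold ncc at h
  rw [if_neg hG, if_neg hF] at h
  refine ⟨?_, ?_⟩
  · by_contra hn
    rw [if_neg hn] at h
    omega
  · by_contra hn
    rw [if_neg hn] at h
    omega

omit [Fintype α] in
theorem ncc_GS {a b : Pt α} (hG : a.G ≠ b.G) (hS : a.S ≠ b.S) (h : ncc a b = 2) :
    a.F = b.F ∧ a.T = b.T := by
  unfold ncc at h
  rw [if_neg hG, if_neg hS] at h
  refine ⟨?_, ?_⟩
  · by_contra hn
    rw [if_neg hn] at h
    omega
  · by_contra hn
    rw [if_neg hn] at h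
    omega

omit [Fintype α] in
theorem ncc_FT {a b : Pt α} (hF : a.F ≠ b.F) (hT : a.T ≠ b.T) (h : ncc a b = 2) :
    a.G = b.G ∧ a.S = b.S := by
  unfold ncc at h
  rw [if_neg hF, if_neg hT] at h
  refine ⟨?_, ?_⟩
  · by_contra hn
    rw [if_neg hn] at h
    omega
  · by_contra hn
    rw [if_neg hn] at h
    omega

/-- opener `F`, closer `G`: the flat is determined by the cyclic set -/
theorem det {r : Finset α → ℕ} {a b u : Pt α} {j : α} (ha : Ex0 r a) (hb : Ex0 r b)
    (_hu : Ex0 r u) (hau : a ≤ u) (hub : u ≤ b) (hc : Cri a b j) (hj : Nop j u)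
    (hS : a.S = b.S) (hT : a.T = b.T) (hG : a.G ≠ b.G) :
    a.S = true ∧ b.T = false ∧ j ∉ a.F ∧ j ∈ b.G ∧ u.S = true ∧ u.T = false ∧
      (j ∈ u.F → j ∈ u.G) := by
  obtain ⟨p1, p2, p3, p4⟩ := Pt.le_iff.1 hau
  obtain ⟨q1, q2, q3, q4⟩ := Pt.le_iff.1 hub
  have hbG : b.G.Nonempty := by
    by_contra hn
    rw [Finset.not_nonempty_iff_eq_empty] at hn
    apply hG
    rw [hn]
    apply Finset.subset_empty.1
    rw [← hn]
    exact p2.trans q2
  have hbS : b.S = true := hb.GS hbG
  have haS : a.S = true := by rw [hS]; exact hbS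
  obtain ⟨c1, c2⟩ := hc
  have hja : j ∉ a.F := fun h => c1 ⟨h, haS⟩
  have hbT : ¬ b.T = true := by
    intro h
    apply hja
    have h2 : a.T = true := by rw [hT]; exact h
    rw [ha.TF h2]
    exact Finset.mem_univ j
  have hjb : j ∈ b.G := by
    rcases c2 with h | h
    · exact h
    · exact absurd h hbT
  have huS : u.S = true := p3 haS
  have huT : ¬ u.T = true := fun h => hbT (q4 h)
  refine ⟨haS, bool_eq_false hbT, hja, hjb, huS, bool_eq_false huT, ?_⟩
  intro h
  rcases hj h huS with h' | h'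
  · exact h'
  · exact absurd h' huT

end TR1

open TR1 in
theorem t_TR1 (_h1 : Stmt_FLA) (_h2 : Stmt_CYC) (_h3 : Stmt_HT) (h4 : Stmt_GAP) (h5 : Stmt_DIM)
    (h6 : Stmt_ACC) (h7 : Stmt_TR0) : Stmt_TR1 := by
  intro α _ _ r hr ρ hρ hc
  have hi : ∀ u, Lkv r ρ u → r u.F ∈ mF r ρ ∨ nu r u.G ∈ mG r ρ :=
    fun u hu => part1 h4 h5 h6 r hr ρ hc u hu
  obtain ⟨g1, g2, g3, g4, g5, g6, g7, g8, g9, g10⟩ := h4 α r hr ρ hρ.1
  refine ⟨hi, ?_, ?_⟩
  · intro u u' hu hu' hF hF' hGG
    have hG : nu r u.G ∈ mG r ρ := (hi u hu).resolve_left hF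
    have hG' : nu r u'.G ∈ mG r ρ := (hi u' hu').resolve_left hF'
    obtain ⟨j, a, b, hj, hab, hm, hn⟩ := lk h4 h5 h6 r hr ρ hρ.1 hc u hu
    obtain ⟨j', a', b', hj', hab', hm', hn'⟩ := lk h4 h5 h6 r hr ρ hρ.1 hc u' hu'
    obtain ⟨x1, x2, x3, x4⟩ := missG hab hm hG
    obtain ⟨y1, y2, y3, y4⟩ := missG hab' hm' hG'
    have he : a = a' ∧ b = b' := by
      rcases g8 a b a' b' hab hab' with h | h | h
      · exact h
      · exfalso
        have h5 := (Pt.le_iff.1 h).2.1
        apply y3
        apply Subset.antisymm y1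
        rw [← hGG]
        exact x2.trans h5
      · exfalso
        have h5 := (Pt.le_iff.1 h).2.1
        apply x3
        apply Subset.antisymm x1
        rw [hGG]
        exact y2.trans h5
    obtain ⟨e1, e2⟩ := he
    subst e1
    subst e2
    obtain ⟨m1, m2, m3⟩ := mid_mem hm
    obtain ⟨m1', m2', m3'⟩ := mid_mem hm'
    have hGab : a.G ≠ b.G := by
      intro h
      apply x3
      apply Subset.antisymm x1
      rw [h]
      exact x2
    obtain ⟨s1, s2, s3, s4⟩ := sq m2.le m3.le
    obtain ⟨s1', s2', s3', s4'⟩ := sq m2'.le m3'.le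
    have huG : u.G.Nonempty := by
      by_contra hne
      rw [Finset.not_nonempty_iff_eq_empty] at hne
      apply x3
      rw [hne]
      apply Finset.subset_empty.1
      rw [← hne]
      exact x1
    have huS : u.S = true := m1.GS huG
    have huS' : u'.S = true := m1'.GS (by rw [← hGG]; exact huG)
    have hSS : u.S = u'.S := by rw [huS, huS']
    rcases hn with hn | ⟨hn, hcri⟩
    · obtain ⟨k1, k2, k3⟩ := ncc_G hGab hn
      exact pt_eq (by rw [s1 k1, s1' k1]) hGG hSS (by rw [s4 k3, s4' k3])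
    · have hcri' : Cri a b j' := by
        rcases hn' with h | h
        · omega
        · exact h.2
      by_cases hFab : a.F = b.F
      · have hSab : a.S ≠ b.S := by
          have := ((h5 α r hr).1 a b j (g1 a hab.ha) (g1 b hab.hb) hab.lt hcri).1
          rcases this with h | h
          · exact absurd hFab h
          · exact h
        obtain ⟨k1, k2⟩ := ncc_GS hGab hSab hn
        exact pt_eq (by rw [s1 k1, s1' k1]) hGG hSS (by rw [s4 k2, s4' k2])
      · obtain ⟨k1, k2⟩ := ncc_GF hGab hFab hn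
        obtain ⟨d1, d2, d3, d4, d5, d6, d7⟩ := det (g1 a hab.ha) (g1 b hab.hb) m1 m2.le m3.le
          hcri (hj u (Finset.mem_insert_self _ _)) k1 k2 hGab
        obtain ⟨d1', d2', d3', d4', d5', d6', d7'⟩ := det (g1 a hab.ha) (g1 b hab.hb) m1' m2'.le
          m3'.le hcri' (hj' u' (Finset.mem_insert_self _ _)) k1 k2 hGab
        have t1 := (h7 α r hr ρ a b u hρ.1 hab hm).1 hF
        have t1' := (h7 α r hr ρ a b u' hρ.1 hab hm').1 hF'
        have hbGF : b.G ⊆ b.F := (g1 b hab.hb).GF
        refine pt_eq ?_ hGG hSS (by rw [d6, d6'])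
        rcases t1 with t1 | t1 <;> rcases t1' with t1' | t1'
        · rw [t1, t1']
        · exfalso
          apply d3'
          rw [← t1]
          apply m1.GF
          rw [hGG]
          apply d7'
          rw [t1']
          exact hbGF d4'
        · exfalso
          apply d3
          rw [← t1']
          apply m1'.GF
          rw [← hGG]
          apply d7
          rw [t1]
          exact hbGF d4
        · rw [t1, t1']
  · intro u u' hu hu' hG hG' hFF
    have hF : r u.F ∈ mF r ρ := (hi u hu).resolve_right hG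
    have hF' : r u'.F ∈ mF r ρ := (hi u' hu').resolve_right hG'
    obtain ⟨j, a, b, hj, hab, hm, hn⟩ := lk h4 h5 h6 r hr ρ hρ.1 hc u hu
    obtain ⟨j', a', b', hj', hab', hm', hn'⟩ := lk h4 h5 h6 r hr ρ hρ.1 hc u' hu'
    obtain ⟨x1, x2, x3, x4⟩ := missF hab hm hF
    obtain ⟨y1, y2, y3, y4⟩ := missF hab' hm' hF'
    have he : a = a' ∧ b = b' := by
      rcases g8 a b a' b' hab hab' with h | h | h
      · exact h
      · exfalso
        have h5 := (Pt.le_iff.1 h).1
        apply y3
        apply Subset.antisymm y1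
        rw [← hFF]
        exact x2.trans h5
      · exfalso
        have h5 := (Pt.le_iff.1 h).1
        apply x3
        apply Subset.antisymm x1
        rw [hFF]
        exact y2.trans h5
    obtain ⟨e1, e2⟩ := he
    subst e1
    subst e2
    obtain ⟨m1, m2, m3⟩ := mid_mem hm
    obtain ⟨m1', m2', m3'⟩ := mid_mem hm'
    have hFab : a.F ≠ b.F := by
      intro h
      apply x3
      apply Subset.antisymm x1
      rw [h]
      exact x2
    obtain ⟨s1, s2, s3, s4⟩ := sq m2.le m3.le
    obtain ⟨s1', s2', s3', s4'⟩ := sq m2'.le m3'.le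
    have huT : u.T = false := by
      apply bool_eq_false
      intro h
      apply x4
      apply Subset.antisymm x2
      rw [m1.TF h]
      exact Finset.subset_univ _
    have huT' : u'.T = false := by
      apply bool_eq_false
      intro h
      apply y4
      apply Subset.antisymm y2
      rw [m1'.TF h]
      exact Finset.subset_univ _
    have hTT : u.T = u'.T := by rw [huT, huT']
    rcases hn with hn | ⟨hn, hcri⟩
    · obtain ⟨k1, k2, k3⟩ := ncc_F hFab hn
      exact pt_eq hFF (by rw [s2 k1, s2' k1]) (by rw [s3 k2, s3' k2]) hTT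
    · have hcri' : Cri a b j' := by
        rcases hn' with h | h
        · omega
        · exact h.2
      by_cases hGab : a.G = b.G
      · have hTab : a.T ≠ b.T := by
          have := ((h5 α r hr).1 a b j (g1 a hab.ha) (g1 b hab.hb) hab.lt hcri).2.1
          rcases this with h | h
          · exact absurd hGab h
          · exact h
        obtain ⟨k1, k2⟩ := ncc_FT hFab hTab hn
        exact pt_eq hFF (by rw [s2 k1, s2' k1]) (by rw [s3 k2, s3' k2]) hTT
      · obtain ⟨k1, k2⟩ := ncc_GF hGab hFab hn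
        obtain ⟨d1, d2, d3, d4, d5, d6, d7⟩ := det (g1 a hab.ha) (g1 b hab.hb) m1 m2.le m3.le
          hcri (hj u (Finset.mem_insert_self _ _)) k1 k2 hGab
        obtain ⟨d1', d2', d3', d4', d5', d6', d7'⟩ := det (g1 a hab.ha) (g1 b hab.hb) m1' m2'.le
          m3'.le hcri' (hj' u' (Finset.mem_insert_self _ _)) k1 k2 hGab
        have t1 := (h7 α r hr ρ a b u hρ.1 hab hm).2.1 hG
        have t1' := (h7 α r hr ρ a b u' hρ.1 hab hm').2.1 hG'
        have haGF : a.G ⊆ a.F := (g1 a hab.ha).GF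
        refine pt_eq hFF ?_ (by rw [d5, d5']) hTT
        rcases t1 with t1 | t1 <;> rcases t1' with t1' | t1'
        · rw [t1, t1']
        · exfalso
          apply d3
          apply haGF
          rw [← t1]
          apply d7
          rw [hFF]
          apply m1'.GF
          rw [t1']
          exact d4
        · exfalso
          apply d3'
          apply haGF
          rw [← t1']
          apply d7'
          rw [← hFF]
          apply m1.GF
          rw [t1]
          exact d4'
        · rw [t1, t1']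

end Pool.Agent.QPR
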