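import Pool.Agent.QPR.StS

/-!
# At most two trivial link vertices (two surplus components)
-/

set_option autoImplicit false

open Finset

namespace Pool.Agent.QPR

namespace TR2

variable {α : Type} [Fintype α] [DecidableEq α]

omit [Fintype α] [DecidableEq α] in
theorem pt_ext {s t : Pt α} (h1 : s.F = t.F) (h2 : s.G = t.G) (h3 : s.S = t.S)
    (h4 : s.T = t.T) : s = t := by
  obtain ⟨F, G, S, T⟩ := s
  obtain ⟨F', G', S', T'⟩ := t
  simp only at h1 h2 h3 h4
  subst h1 h2 h3 h4
  rfl

/-- an extended state strictly between with the components of the ends -/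
structure Tv (r : Finset α → ℕ) (a b u : Pt α) : Prop where
  ea : Ex0 r a
  eb : Ex0 r b
  eu : Ex0 r u
  au : a < u
  ub : u < b
  uF : u.F = a.F ∨ u.F = b.F
  uG : u.G = a.G ∨ u.G = b.G

theorem Tv.uS {r : Finset α → ℕ} {a b u : Pt α} (h : Tv r a b u) : u.S = a.S ∨ u.S = b.S := by
  have h1 := h.au.le.2.2.1
  have h2 := h.ub.le.2.2.1
  cases ha : a.S <;> cases hu : u.S <;> cases hb : b.S <;> simp_all

theorem Tv.uT {r : Finset α → ℕ} {a b u : Pt α} (h : Tv r a b u) : u.T = a.T ∨ u.T = b.T := by
  have h1 := h.au.le.2.2.2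
  have h2 := h.ub.le.2.2.2
  cases ha : a.T <;> cases hu : u.T <;> cases hb : b.T <;> simp_all

theorem Tv.na {r : Finset α → ℕ} {a b u : Pt α} (h : Tv r a b u)
    (h1 : u.F = a.F) (h2 : u.G = a.G) (h3 : u.S = a.S) (h4 : u.T = a.T) : False :=
  h.au.ne (pt_ext h1 h2 h3 h4).symm

theorem Tv.nb {r : Finset α → ℕ} {a b u : Pt α} (h : Tv r a b u)
    (h1 : u.F = b.F) (h2 : u.G = b.G) (h3 : u.S = b.S) (h4 : u.T = b.T) : False :=
  h.ub.ne (pt_ext h1 h2 h3 h4)

theorem GS' {r : Finset α → ℕ} {s : Pt α} (h : Ex0 r s) (hs : s.S = false) : s.G = ∅ := by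
  by_contra hne
  have := h.GS (Finset.nonempty_iff_ne_empty.2 hne)
  rw [hs] at this
  exact Bool.false_ne_true this

theorem TS' {r : Finset α → ℕ} {s : Pt α} (h : Ex0 r s) (hs : s.S = false) : s.T = false := by
  cases hT : s.T with
  | false => rfl
  | true =>
    have := h.TS hT
    rw [hs] at this
    exact absurd this Bool.false_ne_true

/-- closed implies opened -/
theorem cl_op {r : Finset α → ℕ} {s : Pt α} {i : α} (h : Ex0 r s) (hc : i ∈ s.G ∨ s.T = true) :
    i ∈ s.F ∧ s.S = true := by
  rcases hc with hc | hc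
  · exact ⟨h.GF hc, h.GS ⟨i, hc⟩⟩
  · exact ⟨by rw [h.TF hc]; exact mem_univ _, h.TS hc⟩

/-- facts on a critical gap: `a.T = false`, `b.S = true`, `i ∈ b.F` and `i ∉ a.G` -/
theorem cri_basic {r : Finset α → ℕ} {a b : Pt α} {i : α} (ea : Ex0 r a) (eb : Ex0 r b)
    (hc : Cri a b i) : a.T = false ∧ b.S = true ∧ i ∈ b.F ∧ i ∉ a.G := by
  obtain ⟨h1, h2⟩ := hc
  have h3 := cl_op eb h2
  refine ⟨?_, h3.2, h3.1, ?_⟩
  · cases hT : a.T with
    | false => rfl
    | true => exact absurd (cl_op (i := i) ea (Or.inr hT)) h1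
  · intro h
    exact h1 (cl_op ea (Or.inl h))

/-- case A1: `G` does not change -/
theorem caseG {r : Finset α → ℕ} {a b u : Pt α} {i : α} (h : Tv r a b u) (hc : Cri a b i)
    (hn : Nop i u) (hG : a.G = b.G) :
    u = ⟨b.F, a.G, a.S, a.T⟩ ∨ u = ⟨a.F, a.G, b.S, a.T⟩ := by
  obtain ⟨aT, bS, ibF, iaG⟩ := cri_basic h.ea h.eb hc
  have bT : b.T = true := by
    rcases hc.2 with h2 | h2
    · rw [← hG] at h2
      exact absurd h2 iaG
    · exact h2
  have bF := h.eb.TF bT
  have uG : u.G = a.G := by
    rcases h.uG with h1 | h1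
    · exact h1
    · rw [h1, hG]
  have uT : u.T = false := by
    cases hT : u.T with
    | false => rfl
    | true =>
      exact (h.nb (by rw [h.eu.TF hT, bF]) (by rw [uG, hG]) (by rw [h.eu.TS hT, bS])
        (by rw [hT, bT])).elim
  cases hS : u.S with
  | true =>
    right
    refine pt_ext ?_ uG (by simp only; rw [hS, bS]) (by simp only; rw [uT, aT])
    rcases h.uF with h1 | h1
    · exact h1
    · exfalso
      rcases hn (by rw [h1]; exact ibF) hS with h2 | h2
      · rw [uG] at h2
        exact iaG h2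
      · rw [uT] at h2
        exact Bool.false_ne_true h2
  | false =>
    left
    have aS : a.S = false := by
      cases haS : a.S with
      | false => rfl
      | true =>
        have := h.au.le.2.2.1 haS
        rw [hS] at this
        exact absurd this Bool.false_ne_true
    refine pt_ext ?_ uG (by simp only; rw [hS, aS]) (by simp only; rw [uT, aT])
    rcases h.uF with h1 | h1
    · exact (h.na h1 uG (by rw [hS, aS]) (by rw [uT, aT])).elim
    · exact h1

/-- case A2: `F` does not change -/
theorem caseF {r : Finset α → ℕ} {a b u : Pt α} {i : α} (h : Tv r a b u) (hc : Cri a b i)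
    (hn : Nop i u) (hF : a.F = b.F) :
    u = ⟨b.F, b.G, b.S, a.T⟩ ∨ u = ⟨b.F, a.G, b.S, b.T⟩ := by
  obtain ⟨aT, bS, ibF, iaG⟩ := cri_basic h.ea h.eb hc
  have aS : a.S = false := by
    cases haS : a.S with
    | false => rfl
    | true => exact absurd ⟨by rw [hF]; exact ibF, haS⟩ hc.1
  have aG := GS' h.ea aS
  have uF : u.F = b.F := by
    rcases h.uF with h1 | h1
    · rw [h1, hF]
    · exact h1
  have uS : u.S = true := by
    cases hS : u.S with
    | true => rfl
    | false =>
      exact (h.na (by rw [uF, hF]) (by rw [GS' h.eu hS, aG]) (by rw [hS, aS])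
        (by rw [TS' h.eu hS, aT])).elim
  rcases h.uG with h1 | h1
  · right
    have uT : u.T = true := by
      rcases hn (by rw [uF]; exact ibF) uS with h2 | h2
      · rw [h1, aG] at h2
        exact absurd h2 (Finset.notMem_empty _)
      · exact h2
    have bT : b.T = true := h.ub.le.2.2.2 uT
    exact pt_ext uF h1 (by simp only; rw [uS, bS]) (by simp only; rw [uT, bT])
  · left
    refine pt_ext uF h1 (by simp only; rw [uS, bS]) ?_
    rcases h.uT with h2 | h2
    · exact h2
    · exact (h.nb uF h1 (by rw [uS, bS]) h2).elim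

open Classical in
/-- case A3: `T` does not change, `S` does -/
theorem caseT {r : Finset α → ℕ} {a b u : Pt α} {i : α} (h : Tv r a b u) (hc : Cri a b i)
    (hn : Nop i u) (hT : a.T = b.T) (hS : a.S ≠ b.S) :
    u = ⟨b.F, a.G, a.S, a.T⟩ ∨
      u = (if b.G ⊆ a.F then ⟨a.F, b.G, b.S, a.T⟩ else ⟨a.F, a.G, b.S, a.T⟩) := by
  obtain ⟨aT, bS, ibF, iaG⟩ := cri_basic h.ea h.eb hc
  have aS : a.S = false := by
    cases haS : a.S with
    | false => rfl
    | true => exact absurd (by rw [haS, bS]) hS
  have aG := GS' h.ea aS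
  have bT : b.T = false := by rw [← hT, aT]
  have uT : u.T = false := by
    cases h1 : u.T with
    | false => rfl
    | true =>
      have := h.ub.le.2.2.2 h1
      rw [bT] at this
      exact absurd this Bool.false_ne_true
  have ibG : i ∈ b.G := by
    rcases hc.2 with h2 | h2
    · exact h2
    · rw [bT] at h2
      exact absurd h2 Bool.false_ne_true
  cases uS : u.S with
  | false =>
    left
    have uG : u.G = a.G := by rw [GS' h.eu uS, aG]
    refine pt_ext ?_ uG (by simp only; rw [uS, aS]) (by simp only; rw [uT, aT])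
    rcases h.uF with h1 | h1
    · exact (h.na h1 uG (by rw [uS, aS]) (by rw [uT, aT])).elim
    · exact h1
  | true =>
    right
    rcases h.uF with h1 | h1
    · rcases h.uG with h2 | h2
      · have hni : i ∉ a.F := by
          intro hi
          rcases hn (by rw [h1]; exact hi) uS with h3 | h3
          · rw [h2] at h3
            exact iaG h3
          · rw [uT] at h3
            exact Bool.false_ne_true h3
        have hnG : ¬ b.G ⊆ a.F := fun hh => hni (hh ibG)
        rw [if_neg hnG]
        exact pt_ext h1 h2 (by simp only; rw [uS, bS]) (by simp only; rw [uT, aT])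
      · have hG : b.G ⊆ a.F := by
          rw [← h1, ← h2]
          exact h.eu.GF
        rw [if_pos hG]
        exact pt_ext h1 h2 (by simp only; rw [uS, bS]) (by simp only; rw [uT, aT])
    · exfalso
      rcases h.uG with h2 | h2
      · rcases hn (by rw [h1]; exact ibF) uS with h3 | h3
        · rw [h2] at h3
          exact iaG h3
        · rw [uT] at h3
          exact Bool.false_ne_true h3
      · exact h.nb h1 h2 (by rw [uS, bS]) (by rw [uT, bT])

open Classical in
/-- case A4: `S` does not change, `T` does -/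
theorem caseS {r : Finset α → ℕ} {a b u : Pt α} {i : α} (h : Tv r a b u) (hc : Cri a b i)
    (hn : Nop i u) (hS : a.S = b.S) (hT : a.T ≠ b.T) :
    u = ⟨b.F, a.G, b.S, b.T⟩ ∨
      u = (if b.G ⊆ a.F then ⟨a.F, b.G, b.S, a.T⟩ else ⟨b.F, b.G, b.S, a.T⟩) := by
  obtain ⟨aT, bS, ibF, iaG⟩ := cri_basic h.ea h.eb hc
  have aS : a.S = true := by rw [hS, bS]
  have uS : u.S = true := h.au.le.2.2.1 aS
  have bT : b.T = true := by
    cases h1 : b.T with
    | true => rfl
    | false => exact absurd (by rw [aT, h1]) hT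
  have bF := h.eb.TF bT
  have iaF : i ∉ a.F := fun hi => hc.1 ⟨hi, aS⟩
  cases uT : u.T with
  | true =>
    left
    have uF : u.F = b.F := by rw [h.eu.TF uT, bF]
    refine pt_ext uF ?_ (by simp only; rw [uS, bS]) (by simp only; rw [uT, bT])
    rcases h.uG with h2 | h2
    · exact h2
    · exact (h.nb uF h2 (by rw [uS, bS]) (by rw [uT, bT])).elim
  | false =>
    right
    rcases h.uF with h1 | h1
    · rcases h.uG with h2 | h2
      · exact (h.na h1 h2 (by rw [uS, aS]) (by rw [uT, aT])).elim
      · have hG : b.G ⊆ a.F := by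
          rw [← h1, ← h2]
          exact h.eu.GF
        rw [if_pos hG]
        exact pt_ext h1 h2 (by simp only; rw [uS, bS]) (by simp only; rw [uT, aT])
    · have hiu : i ∈ u.G := by
        rcases hn (by rw [h1]; exact ibF) uS with h3 | h3
        · exact h3
        · rw [uT] at h3
          exact absurd h3 Bool.false_ne_true
      rcases h.uG with h2 | h2
      · rw [h2] at hiu
        exact absurd hiu iaG
      · have hnG : ¬ b.G ⊆ a.F := fun hh => iaF (hh (h2 ▸ hiu))
        rw [if_neg hnG]
        exact pt_ext h1 h2 (by simp only; rw [uS, bS]) (by simp only; rw [uT, aT])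

/-- at most two trivial points in a critical gap with at most three different components -/
theorem caseA (r : Finset α → ℕ) (a b : Pt α) (h3 : ncc a b ≤ 3) :
    ∃ z1 z2, ∀ u i, Tv r a b u → Cri a b i → Nop i u → u = z1 ∨ u = z2 := by
  classical
  by_cases hG : a.G = b.G
  · exact ⟨_, _, fun u i h hc hn => caseG h hc hn hG⟩
  by_cases hF : a.F = b.F
  · exact ⟨_, _, fun u i h hc hn => caseF h hc hn hF⟩
  by_cases hT : a.T = b.T
  · by_cases hS : a.S = b.S
    · refine ⟨⟨b.F, a.G, a.S, a.T⟩, ⟨a.F, b.G, a.S, a.T⟩, fun u i h _ _ => ?_⟩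
      have uS : u.S = a.S := by
        rcases h.uS with h1 | h1
        · exact h1
        · rw [h1, hS]
      have uT : u.T = a.T := by
        rcases h.uT with h1 | h1
        · exact h1
        · rw [h1, hT]
      rcases h.uF with h1 | h1
      · rcases h.uG with h2 | h2
        · exact (h.na h1 h2 uS uT).elim
        · exact Or.inr (pt_ext h1 h2 uS uT)
      · rcases h.uG with h2 | h2
        · exact Or.inl (pt_ext h1 h2 uS uT)
        · exact (h.nb h1 h2 (uS.trans hS) (uT.trans hT)).elim
    · exact ⟨_, _, fun u i h hc hn => caseT h hc hn hT hS⟩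
  · by_cases hS : a.S = b.S
    · exact ⟨_, _, fun u i h hc hn => caseS h hc hn hS hT⟩
    · exfalso
      unfold ncc at h3
      simp only [if_neg hF, if_neg hG, if_neg hT, if_neg hS] at h3
      omega

/-- one of two components is that of `a` -/
theorem or_left {β : Type} {x y z : β} (h : x = y ∨ x = z) (e : y = z) : x = y := by
  rcases h with h | h
  · exact h
  · rw [h, e]

/-- at most two trivial points in a gap with at most two different components -/
theorem caseB (r : Finset α → ℕ) (a b : Pt α) (h2 : ncc a b ≤ 2) :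
    ∃ z1 z2, ∀ u, Tv r a b u → u = z1 ∨ u = z2 := by
  by_cases hF : a.F = b.F
  · by_cases hG : a.G = b.G
    · refine ⟨⟨a.F, a.G, b.S, a.T⟩, ⟨a.F, a.G, a.S, b.T⟩, fun u h => ?_⟩
      have e1 := or_left h.uF hF
      have e2 := or_left h.uG hG
      rcases h.uS with h3 | h3 <;> rcases h.uT with h4 | h4
      · exact (h.na e1 e2 h3 h4).elim
      · exact Or.inr (pt_ext e1 e2 h3 h4)
      · exact Or.inl (pt_ext e1 e2 h3 h4)
      · exact (h.nb (e1.trans hF) (e2.trans hG) h3 h4).elim
    · by_cases hS : a.S = b.S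
      · refine ⟨⟨a.F, b.G, a.S, a.T⟩, ⟨a.F, a.G, a.S, b.T⟩, fun u h => ?_⟩
        have e1 := or_left h.uF hF
        have e3 := or_left h.uS hS
        rcases h.uG with h2 | h2 <;> rcases h.uT with h4 | h4
        · exact (h.na e1 h2 e3 h4).elim
        · exact Or.inr (pt_ext e1 h2 e3 h4)
        · exact Or.inl (pt_ext e1 h2 e3 h4)
        · exact (h.nb (e1.trans hF) h2 (e3.trans hS) h4).elim
      · by_cases hT : a.T = b.T
        · refine ⟨⟨a.F, b.G, a.S, a.T⟩, ⟨a.F, a.G, b.S, a.T⟩, fun u h => ?_⟩
          have e1 := or_left h.uF hF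
          have e4 := or_left h.uT hT
          rcases h.uG with h2 | h2 <;> rcases h.uS with h3 | h3
          · exact (h.na e1 h2 h3 e4).elim
          · exact Or.inr (pt_ext e1 h2 h3 e4)
          · exact Or.inl (pt_ext e1 h2 h3 e4)
          · exact (h.nb (e1.trans hF) h2 h3 (e4.trans hT)).elim
        · exfalso
          unfold ncc at h2
          simp only [if_neg hG, if_neg hT, if_neg hS] at h2
          omega
  · by_cases hG : a.G = b.G
    · by_cases hS : a.S = b.S
      · refine ⟨⟨b.F, a.G, a.S, a.T⟩, ⟨a.F, a.G, a.S, b.T⟩, fun u h => ?_⟩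
        have e2 := or_left h.uG hG
        have e3 := or_left h.uS hS
        rcases h.uF with h1 | h1 <;> rcases h.uT with h4 | h4
        · exact (h.na h1 e2 e3 h4).elim
        · exact Or.inr (pt_ext h1 e2 e3 h4)
        · exact Or.inl (pt_ext h1 e2 e3 h4)
        · exact (h.nb h1 (e2.trans hG) (e3.trans hS) h4).elim
      · by_cases hT : a.T = b.T
        · refine ⟨⟨b.F, a.G, a.S, a.T⟩, ⟨a.F, a.G, b.S, a.T⟩, fun u h => ?_⟩
          have e2 := or_left h.uG hG
          have e4 := or_left h.uT hT
          rcases h.uF with h1 | h1 <;> rcases h.uS with h3 | h3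
          · exact (h.na h1 e2 h3 e4).elim
          · exact Or.inr (pt_ext h1 e2 h3 e4)
          · exact Or.inl (pt_ext h1 e2 h3 e4)
          · exact (h.nb h1 (e2.trans hG) h3 (e4.trans hT)).elim
        · exfalso
          unfold ncc at h2
          simp only [if_neg hF, if_neg hT, if_neg hS] at h2
          omega
    · by_cases hS : a.S = b.S
      · by_cases hT : a.T = b.T
        · refine ⟨⟨b.F, a.G, a.S, a.T⟩, ⟨a.F, b.G, a.S, a.T⟩, fun u h => ?_⟩
          have e3 := or_left h.uS hS
          have e4 := or_left h.uT hT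
          rcases h.uF with h1 | h1 <;> rcases h.uG with h2 | h2
          · exact (h.na h1 h2 e3 e4).elim
          · exact Or.inr (pt_ext h1 h2 e3 e4)
          · exact Or.inl (pt_ext h1 h2 e3 e4)
          · exact (h.nb h1 h2 (e3.trans hS) (e4.trans hT)).elim
        · exfalso
          unfold ncc at h2
          simp only [if_neg hF, if_neg hG, if_neg hT] at h2
          omega
      · exfalso
        unfold ncc at h2
        simp only [if_neg hF, if_neg hG, if_neg hS] at h2
        omega

/-- in a critical gap with two different components the opener comes first -/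
theorem caseC {r : Finset α → ℕ} {a b u : Pt α} {i : α} (h : Tv r a b u) (hc : Cri a b i)
    (h2 : ncc a b ≤ 2) (ho : a.F ≠ b.F ∨ a.S ≠ b.S) (hcl : a.G ≠ b.G ∨ a.T ≠ b.T) :
    u = ⟨b.F, a.G, b.S, a.T⟩ := by
  obtain ⟨aT, bS, ibF, iaG⟩ := cri_basic h.ea h.eb hc
  by_cases hF : a.F = b.F
  · have hS : a.S ≠ b.S := ho.resolve_left (fun hh => hh hF)
    have aS : a.S = false := by
      cases haS : a.S with
      | false => rfl
      | true => exact absurd (by rw [haS, bS]) hS
    have e1 : u.F = b.F := (or_left h.uF hF).trans hF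
    by_cases hG : a.G = b.G
    · have hT : a.T ≠ b.T := hcl.resolve_left (fun hh => hh hG)
      have e2 := or_left h.uG hG
      rcases h.uS with h3 | h3 <;> rcases h.uT with h4 | h4
      · exact (h.na (e1.trans hF.symm) e2 h3 h4).elim
      · exfalso
        have := TS' h.eu (h3.trans aS)
        exact hT (aT.trans (this.symm.trans h4))
      · exact pt_ext e1 e2 h3 h4
      · exact (h.nb e1 (e2.trans hG) h3 h4).elim
    · have hT : a.T = b.T := by
        by_contra hT
        unfold ncc at h2
        simp only [if_neg hG, if_neg hS, if_neg hT] at h2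
        omega
      have e4 := or_left h.uT hT
      rcases h.uG with h2 | h2 <;> rcases h.uS with h3 | h3
      · exact (h.na (e1.trans hF.symm) h2 h3 e4).elim
      · exact pt_ext e1 h2 h3 e4
      · exfalso
        have := GS' h.eu (h3.trans aS)
        exact hG ((GS' h.ea aS).trans (this.symm.trans h2))
      · exact (h.nb e1 h2 h3 (e4.trans hT)).elim
  · have hS : a.S = b.S := by
      by_contra hS
      unfold ncc at h2
      rcases hcl with hG | hT
      · simp only [if_neg hF, if_neg hS, if_neg hG] at h2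
        omega
      · simp only [if_neg hF, if_neg hS, if_neg hT] at h2
        omega
    have e3 : u.S = b.S := (or_left h.uS hS).trans hS
    by_cases hG : a.G = b.G
    · have hT : a.T ≠ b.T := hcl.resolve_left (fun hh => hh hG)
      have bT : b.T = true := by
        cases h1 : b.T with
        | true => rfl
        | false => exact absurd (by rw [aT, h1]) hT
      have e2 := or_left h.uG hG
      rcases h.uF with h1 | h1 <;> rcases h.uT with h4 | h4
      · exact (h.na h1 e2 (e3.trans hS.symm) h4).elim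
      · exfalso
        have h5 := h.eu.TF (h4.trans bT)
        have h6 := h.eb.TF bT
        exact hF (h1.symm.trans (h5.trans h6.symm))
      · exact pt_ext h1 e2 e3 h4
      · exact (h.nb h1 (e2.trans hG) e3 h4).elim
    · have hT : a.T = b.T := by
        by_contra hT
        unfold ncc at h2
        simp only [if_neg hF, if_neg hG, if_neg hT] at h2
        omega
      have e4 := or_left h.uT hT
      have bT : b.T = false := hT.symm.trans aT
      have ibG : i ∈ b.G := by
        rcases hc.2 with h2 | h2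
        · exact h2
        · rw [bT] at h2
          exact absurd h2 Bool.false_ne_true
      have iaF : i ∉ a.F := fun hi => hc.1 ⟨hi, hS.trans bS⟩
      rcases h.uF with h1 | h1 <;> rcases h.uG with h2 | h2
      · exact (h.na h1 h2 (e3.trans hS.symm) e4).elim
      · exfalso
        have h5 : i ∈ u.G := h2 ▸ ibG
        have h6 := h.eu.GF h5
        rw [h1] at h6
        exact iaF h6
      · exact pt_ext h1 h2 e3 e4
      · exact (h.nb h1 h2 e3 (e4.trans hT)).elim

/-- a never open element of `ρ + u` is critical in the gap of `u` only if the gap has three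
different components -/
theorem three {r : Finset α → ℕ} (h5 : Stmt_DIM) (hr : IsRank r) {a b u : Pt α} {i : α}
    (ea : Ex0 r a) (eb : Ex0 r b) (eu : Ex0 r u) (au : a < u) (ub : u < b) (hc : Cri a b i)
    (hn : Nop i u) (hs : ncc a u + ncc u b = ncc a b) (h1 : 1 ≤ ncc a u) (h2 : 1 ≤ ncc u b) :
    3 ≤ ncc a b := by
  by_cases hop : i ∈ u.F ∧ u.S = true
  · have hcl := hn hop.1 hop.2
    have := ((h5 α r hr).1 a u i ea eu au ⟨hc.1, hcl⟩).2.2.1
    omega
  · have := ((h5 α r hr).1 u b i eu eb ub ⟨hop, hc.2⟩).2.2.1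
    omega

end TR2

open TR2 in
theorem t_TR2 (_h1 : Stmt_FLA) (_h2 : Stmt_CYC) (_h3 : Stmt_HT) (h4 : Stmt_GAP) (h5 : Stmt_DIM)
    (h6 : Stmt_ACC) (h7 : Stmt_TR0) : Stmt_TR2 := by
  intro α _ _ r hr ρ hρ hcard
  classical
  have hch : Chn r ρ := hρ.1
  have hG := h4 α r hr ρ hch
  obtain ⟨g1, g2, g3, g4, g5, g6, g7, g8, g9, g10⟩ := hG
  have hA := h6 α r hr ρ hch
  -- the data of a trivial vertex
  have key : ∀ u, Lkv r ρ u → r u.F ∉ mF r ρ → nu r u.G ∉ mG r ρ →
      ∃ a b i c d, Gp r ρ a b ∧ Tv r a b u ∧ Nop i u ∧ Gp r ρ c d ∧ Cri c d i ∧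
        2 ≤ ncc a b ∧ 2 ≤ ncc c d ∧ ((a, b) = (c, d) → 3 ≤ ncc a b) := by
    intro u hu hF hGu
    obtain ⟨a, b, hab, hum⟩ := g5 u hu.1 hu.2.1
    have hmem : Ex0 r u ∧ a < u ∧ u < b := by
      simpa [mid] using hum
    obtain ⟨t1, t2, t3⟩ := h7 α r hr ρ a b u hch hab hum
    have ea := g1 a hab.ha
    have eb := g1 b hab.hb
    have hne : insert u ρ ≠ ∅ := Finset.insert_ne_empty _ _
    obtain ⟨i, hi⟩ := hu.2.2.resolve_left hne
    obtain ⟨c, d, hcd, hcri, -⟩ := g10 i (fun s hs => hi s (Finset.mem_insert_of_mem hs))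
    have hniu := hi u (Finset.mem_insert_self _ _)
    obtain ⟨s1, s2, s3⟩ := t3 hF hGu
    refine ⟨a, b, i, c, d, hab, ⟨ea, eb, hmem.1, hmem.2.1, hmem.2.2, t1 hF, t2 hGu⟩, hniu, hcd,
      hcri, by omega, ((h5 α r hr).1 c d i (g1 c hcd.ha) (g1 d hcd.hb) hcd.lt hcri).2.2.1, ?_⟩
    intro heq
    have e1 : a = c := congrArg Prod.fst heq
    have e2 : b = d := congrArg Prod.snd heq
    subst e1 e2
    exact three h5 hr ea eb hmem.1 hmem.2.1 hmem.2.2 hcri hniu s1 s2 s3
  -- sums
  have one : ∀ a b, Gp r ρ a b → ncc a b ≤ 3 := by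
    intro a b hab
    have := hA {(a, b)} (by
      intro p hp
      rw [Finset.mem_singleton] at hp
      subst hp
      exact hab)
    rw [Finset.sum_singleton] at this
    simp only at this
    omega
  have two : ∀ a b c d, Gp r ρ a b → Gp r ρ c d → (a, b) ≠ (c, d) → 2 ≤ ncc a b →
      2 ≤ ncc c d → ncc a b = 2 ∧ ncc c d = 2 := by
    intro a b c d hab hcd hne k1 k2
    have := hA {(a, b), (c, d)} (by
      intro p hp
      rw [Finset.mem_insert, Finset.mem_singleton] at hp
      rcases hp with hp | hp
      · subst hp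
        exact hab
      · subst hp
        exact hcd)
    rw [Finset.sum_pair hne] at this
    simp only at this
    omega
  have thr : ∀ a b c d e f, Gp r ρ a b → Gp r ρ c d → Gp r ρ e f → (a, b) ≠ (c, d) →
      2 ≤ ncc a b → 2 ≤ ncc c d → 2 ≤ ncc e f → (e, f) = (a, b) ∨ (e, f) = (c, d) := by
    intro a b c d e f hab hcd hef hne k1 k2 k3
    by_contra hcon
    push Not at hcon
    have := hA {(a, b), (c, d), (e, f)} (by
      intro p hp
      rw [Finset.mem_insert, Finset.mem_insert, Finset.mem_singleton] at hp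
      rcases hp with hp | hp | hp
      · subst hp
        exact hab
      · subst hp
        exact hcd
      · subst hp
        exact hef)
    rw [Finset.sum_insert, Finset.sum_pair hcon.2.symm] at this
    · simp only at this
      omega
    · rw [Finset.mem_insert, Finset.mem_singleton]
      rintro (h | h)
      · exact hne h
      · exact hcon.1 h.symm
  by_cases hex : ∃ a b, Gp r ρ a b ∧ 3 ≤ ncc a b
  · obtain ⟨a, b, hab, h3⟩ := hex
    obtain ⟨z1, z2, hz⟩ := caseA r a b (one a b hab)
    refine ⟨z1, z2, fun u hu hF hGu => ?_⟩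
    obtain ⟨a', b', i, c, d, k1, k2, k3, k4, k5, k6, k7, -⟩ := key u hu hF hGu
    have e1 : (a, b) = (a', b') := by
      by_contra hne
      have := (two a b a' b' hab k1 hne (by omega) k6).1
      omega
    have e2 : (a, b) = (c, d) := by
      by_contra hne
      have := (two a b c d hab k4 hne (by omega) k7).1
      omega
    obtain ⟨rfl, rfl⟩ := Prod.mk.injEq .. ▸ e1
    obtain ⟨rfl, rfl⟩ := Prod.mk.injEq .. ▸ e2
    exact hz u i k2 k5 k3
  · push Not at hex
    have le2 : ∀ a b, Gp r ρ a b → ncc a b ≤ 2 := fun a b hab => by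
      have := hex a b hab
      omega
    by_cases hu0 : ∃ u, Lkv r ρ u ∧ r u.F ∉ mF r ρ ∧ nu r u.G ∉ mG r ρ
    · obtain ⟨u0, w1, w2, w3⟩ := hu0
      obtain ⟨a, b, i, c, d, k1, k2, k3, k4, k5, k6, k7, k8⟩ := key u0 w1 w2 w3
      have hne : (a, b) ≠ (c, d) := by
        intro heq
        have := k8 heq
        have := le2 a b k1
        omega
      by_cases hall : ∀ u, Lkv r ρ u → r u.F ∉ mF r ρ → nu r u.G ∉ mG r ρ → Tv r a b u
      · obtain ⟨z1, z2, hz⟩ := caseB r a b (le2 a b k1)
        exact ⟨z1, z2, fun u hu hF hGu => hz u (hall u hu hF hGu)⟩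
      · push Not at hall
        obtain ⟨u1, v1, v2, v3, v4⟩ := hall
        obtain ⟨a', b', i', c', d', l1, l2, l3, l4, l5, l6, l7, l8⟩ := key u1 v1 v2 v3
        have e1 : (a', b') = (c, d) := by
          rcases thr a b c d a' b' k1 k4 l1 hne k6 k7 l6 with h | h
          · exfalso
            have f1 : a' = a := congrArg Prod.fst h
            have f2 : b' = b := congrArg Prod.snd h
            subst f1 f2
            exact v4 l2
          · exact h
        have e2 : (c', d') = (a, b) := by
          rcases thr a b c d c' d' k1 k4 l4 hne k6 k7 l7 with h | h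
          · exact h
          · exfalso
            have := l8 (e1.trans h.symm)
            have := le2 a' b' l1
            omega
        have f1 : c' = a := congrArg Prod.fst e2
        have f2 : d' = b := congrArg Prod.snd e2
        subst f1 f2
        -- both gaps are critical
        have D1 := (h5 α r hr).1 c' d' i' (g1 _ k1.ha) (g1 _ k1.hb) k1.lt l5
        have D2 := (h5 α r hr).1 c d i (g1 _ k4.ha) (g1 _ k4.hb) k4.lt k5
        refine ⟨⟨d'.F, c'.G, d'.S, c'.T⟩, ⟨d.F, c.G, d.S, c.T⟩, fun u hu hF hGu => ?_⟩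
        obtain ⟨p, q, j, p', q', m1, m2, m3, m4, m5, m6, m7, m8⟩ := key u hu hF hGu
        rcases thr c' d' c d p q k1 k4 m1 hne k6 k7 m6 with h | h
        · have f1 : p = c' := congrArg Prod.fst h
          have f2 : q = d' := congrArg Prod.snd h
          subst f1 f2
          exact Or.inl (caseC m2 l5 (le2 _ _ k1) D1.1 D1.2.1)
        · have f1 : p = c := congrArg Prod.fst h
          have f2 : q = d := congrArg Prod.snd h
          subst f1 f2
          exact Or.inr (caseC m2 k5 (le2 _ _ k4) D2.1 D2.2.1)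
    · push Not at hu0
      exact ⟨bot r, bot r, fun u hu hF hGu => absurd hGu (fun h => h (hu0 u hu hF))⟩

end Pool.Agent.QPR
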