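import Pool.Agent.QPR.StLat

/-!
# Connectedness of the link graphs (helper20)

MP_9c4433_lc, part (1): `t_CONN : Stmt_CONN`.
-/

set_option autoImplicit false

open Finset

namespace Pool.Agent.QPR.Lat

variable {α : Type} [Fintype α] [DecidableEq α]

/-! ## Points as pairs -/

/-- opened things -/
def Xp (s : Pt α) : Finset α × Bool := (s.F, s.S)

/-- things not yet closed -/
def Yp (s : Pt α) : Finset α × Bool := (s.Gᶜ, !s.T)

/-- the point of a pair -/
def mkP (X Y : Finset α × Bool) : Pt α := ⟨X.1, Y.1ᶜ, X.2, !Y.2⟩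

theorem mkP_eq (s : Pt α) : mkP (Xp s) (Yp s) = s := by
  obtain ⟨F, G, S, T⟩ := s
  simp [mkP, Xp, Yp]

theorem Xp_mkP (X Y : Finset α × Bool) : Xp (mkP X Y) = X := rfl

theorem Yp_mkP (X Y : Finset α × Bool) : Yp (mkP X Y) = Y := by
  simp [mkP, Yp]

/-- compatibility -/
def cpt (X Y : Finset α × Bool) : Prop :=
  Y.1ᶜ ⊆ X.1 ∧ (Y.1ᶜ.Nonempty → X.2 = true) ∧ (Y.2 = false → X.2 = true) ∧
    (Y.2 = false → X.1 = univ)

variable {r : Finset α → ℕ}

theorem ex_iff (h : IsRank r) (s : Pt α) :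
    Ex0 r s ↔ Fl r (Xp s) ∧ Fl (rd r) (Yp s) ∧ cpt (Xp s) (Yp s) := by
  have e1 : Fl (rd r) (Yp s) ↔ ∀ e ∈ s.G, r (s.G.erase e) = r s.G := flat_rd_iff h s.G
  rw [e1]
  constructor
  · intro hs
    refine ⟨hs.flat, hs.cyc, ?_, ?_, ?_, ?_⟩
    · simpa [Xp, Yp] using hs.GF
    · simpa [Xp, Yp] using hs.GS
    · simpa [Xp, Yp] using hs.TS
    · simpa [Xp, Yp] using hs.TF
  · rintro ⟨h1, h2, h3, h4, h5, h6⟩
    refine ⟨h1, h2, ?_, ?_, ?_, ?_⟩
    · simpa [Xp, Yp] using h3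
    · simpa [Xp, Yp] using h4
    · simpa [Xp, Yp] using h5
    · simpa [Xp, Yp] using h6

theorem le_iff2 (s t : Pt α) : s ≤ t ↔ Xp s ≤ Xp t ∧ Yp t ≤ Yp s := by
  rw [le_iff', le_iff', Pt.le_iff]
  unfold Xp Yp
  simp only [Finset.compl_subset_compl]
  constructor
  · rintro ⟨h1, h2, h3, h4⟩
    refine ⟨⟨h1, h3⟩, h2, ?_⟩
    intro h5
    cases hs : s.T
    · rfl
    · rw [h4 hs] at h5
      exact absurd h5 (by simp)
  · rintro ⟨⟨h1, h3⟩, h2, h4⟩
    refine ⟨h1, h2, h3, ?_⟩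
    intro h5
    cases ht : t.T
    · have := h4 (by rw [ht]; rfl)
      rw [h5] at this
      exact absurd this (by simp)
    · rfl

theorem nop_iff (i : α) (s : Pt α) : Nop i s ↔ ¬ opf i (Xp s) ∨ ¬ opf i (Yp s) := by
  unfold Nop opf Xp Yp
  simp only [Finset.mem_compl, Bool.not_eq_true']
  cases s.S <;> cases s.T <;> simp <;> tauto

theorem ht_eq (h : IsRank r) (s : Pt α) :
    ht r s + rkf (rd r) (Yp s) = rkf r (Xp s) + (rd r univ + 1) := by
  have h1 := rd_add h s.Gᶜ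
  have h2 := rd_univ h
  have h3 := Finset.card_add_card_compl s.G
  have h4 := h.card_le ∅ s.G
  rw [compl_compl] at h1
  rw [Finset.empty_union, h.empty] at h4
  unfold ht rkf Xp Yp
  simp only
  cases s.S <;> cases s.T <;> simp <;> omega

theorem bi (h : IsRank r) : Bi (Fl r) (rkf r) (opf (α := α)) (Fl (rd r)) (rkf (rd r))
    (opf (α := α)) cpt where
  g := geoF h
  g' := geoF (isRank_rd h)
  cm := by
    intro X X' Y Y' hc hX hY
    obtain ⟨p1, p2⟩ := le_iff'.1 hX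
    obtain ⟨q1, q2⟩ := le_iff'.1 hY
    obtain ⟨c1, c2, c3, c4⟩ := hc
    have q3 : Y'.1ᶜ ⊆ Y.1ᶜ := Finset.compl_subset_compl.2 q1
    have q4 : Y'.2 = false → Y.2 = false := by
      intro hh
      cases hY2 : Y.2
      · rfl
      · rw [q2 hY2] at hh
        exact absurd hh (by simp)
    refine ⟨(q3.trans c1).trans p1, fun hn => p2 (c2 (hn.mono q3)), fun hn => p2 (c3 (q4 hn)),
      fun hn => ?_⟩
    have := c4 (q4 hn)
    rw [this] at p1
    exact Finset.univ_subset_iff.1 p1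

theorem cpt_box [Nonempty α] {X0 X1 Y0 Y1 : Finset α × Bool} (_h1 : cpt X1 Y1) (_h0 : cpt X0 Y0)
    (hno : ∀ i, opf i X0 ∨ opf i Y1) : cpt X0 Y1 := by
  have key : ∀ i, i ∉ Y1.1 → i ∈ X0.1 ∧ X0.2 = true := by
    intro i hi
    rcases hno i with h | h
    · exact h
    · exact absurd h.1 hi
  have key2 : Y1.2 = false → ∀ i, i ∈ X0.1 ∧ X0.2 = true := by
    intro hY i
    rcases hno i with h | h
    · exact h
    · rw [h.2] at hY
      exact absurd hY (by simp)
  refine ⟨?_, ?_, ?_, ?_⟩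
  · intro e he
    exact (key e (Finset.mem_compl.1 he)).1
  · rintro ⟨e, he⟩
    exact (key e (Finset.mem_compl.1 he)).2
  · intro hY
    obtain ⟨e⟩ := ‹Nonempty α›
    exact (key2 hY e).2
  · intro hY
    apply Finset.eq_univ_of_forall
    intro e
    exact (key2 hY e).1

/-! ## Bottom and top -/

theorem ht_mono (h : IsRank r) {s t : Pt α} (hs : Ex0 r s) (ht' : Ex0 r t) (hlt : s < t) :
    ht r s < ht r t := by
  obtain ⟨s1, s2, -⟩ := (ex_iff h s).1 hs
  obtain ⟨t1, t2, -⟩ := (ex_iff h t).1 ht'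
  obtain ⟨p, q⟩ := (le_iff2 s t).1 hlt.le
  have e1 := ht_eq h s
  have e2 := ht_eq h t
  have g := geoF h
  have g' := geoF (isRank_rd h)
  have a1 := g.mono_le s1 t1 p
  have a2 := g'.mono_le t2 s2 q
  rcases eq_or_lt_of_le p with e | e
  · rcases eq_or_lt_of_le q with e' | e'
    · exact absurd (by rw [← mkP_eq s, ← mkP_eq t, e, e'] : s = t) hlt.ne
    · have := g'.mono t2 s2 e'
      omega
  · have := g.mono s1 t1 e
    omega

theorem ht_mono_le (h : IsRank r) {s t : Pt α} (hs : Ex0 r s) (ht' : Ex0 r t) (hle : s ≤ t) :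
    ht r s ≤ ht r t := by
  rcases eq_or_lt_of_le hle with rfl | hlt
  · exact le_refl _
  · exact (ht_mono h hs ht' hlt).le

theorem r_loops (h : IsRank r) {A : Finset α} (hA : ∀ e ∈ A, r {e} = 0) : r A = 0 := by
  have := r_union_clr h (A := ∅) (B := A) (fun e he => by
    rw [LawfulSingleton.insert_empty_eq, hA e he, h.empty])
  rw [Finset.union_empty, h.empty] at this
  exact this

theorem clo_iff (h : IsRank r) (e : α) : Clo r e ↔ rd r {e} = 0 := by
  have h1 := rd_add h {e}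
  have h2 : ({e} : Finset α)ᶜ = univ.erase e := by
    ext x
    simp
  rw [h2, Finset.card_singleton] at h1
  have h3 := erase_two h univ (Finset.mem_univ e)
  unfold Clo
  omega

theorem fl_loops (h : IsRank r) (A : Finset α) (hA : ∀ e, e ∈ A ↔ r {e} = 0) (b : Bool) :
    Fl r (A, b) := by
  intro e he
  have h0 : r A = 0 := r_loops h fun e he => (hA e).1 he
  have h1 : r {e} ≠ 0 := fun hh => he ((hA e).2 hh)
  have h2 := h.mono_subset (show ({e} : Finset α) ⊆ insert e A by simp)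
  have h3 := h.le_succ A e
  simp only
  omega

theorem ex_bot (h : IsRank r) : Ex0 r (bot r) := by
  refine ⟨?_, ?_, ?_, ?_, ?_, ?_⟩
  · exact fl_loops h _ (fun e => by simp [bot, Loo]) false
  · intro e he
    simp [bot] at he
  · simp [bot]
  · simp [bot]
  · simp [bot]
  · simp [bot]

theorem ex_top (h : IsRank r) : Ex0 r (top r) := by
  rw [ex_iff h]
  refine ⟨?_, ?_, ?_, ?_, ?_, ?_⟩
  · intro e he
    exact absurd (Finset.mem_univ e) he
  · apply fl_loops (isRank_rd h) _ _ _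
    intro e
    rw [← clo_iff h]
    simp [top]
  · simp [Xp, top]
  · simp [Xp, top]
  · simp [Xp, top]
  · simp [Xp, top]

open Classical in
theorem ht_bot (h : IsRank r) : ht r (bot r) = 0 := by
  have h0 : r (univ.filter (Loo r)) = 0 := r_loops h fun e he => (Finset.mem_filter.1 he).2
  unfold ht bot
  simp [h.empty]
  convert h0

theorem ht_top (h : IsRank r) : ht r (top r) = Fintype.card α + 2 := by
  have e1 := ht_eq h (top r)
  have h0 : rd r (top r).Gᶜ = 0 := by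
    apply r_loops (isRank_rd h)
    intro e he
    rw [← clo_iff h]
    simpa [top] using he
  have e2 := rd_univ h
  have e3 : rkf r (Xp (top r)) = r univ + 1 := by
    simp [rkf, Xp, top]
  have e4 : rkf (rd r) (Yp (top r)) = 0 := by
    unfold rkf Yp
    rw [h0]
    simp [top]
  rw [e3, e4] at e1
  omega

open Classical in
theorem bot_le (h : IsRank r) {s : Pt α} (hs : Ex0 r s) : bot r ≤ s := by
  refine ⟨?_, ?_, ?_, ?_⟩
  · intro e he
    by_contra hne
    have h1 : r {e} = 0 := (Finset.mem_filter.1 he).2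
    have h2 := hs.flat e hne
    have h3 := h.closure (A := ∅) (B := s.F) (e := e) (by
      rw [LawfulSingleton.insert_empty_eq, h1, h.empty]) (Finset.empty_subset _)
    omega
  · simp [bot]
  · simp [bot]
  · simp [bot]

theorem le_top (h : IsRank r) {s : Pt α} (hs : Ex0 r s) : s ≤ top r := by
  refine ⟨?_, ?_, ?_, ?_⟩
  · simp [top]
  · intro e he
    have h1 := hs.cyc e he
    have h2 : r (univ.erase e) = r univ := by
      have h3 := h.closure (A := s.G.erase e) (B := univ.erase e) (e := e) (by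
        rw [Finset.insert_erase he, h1]) (Finset.erase_subset_erase e (Finset.subset_univ _))
      rw [Finset.insert_erase (Finset.mem_univ e)] at h3
      exact h3.symm
    simp [top, Clo, h2]
  · simp [top]
  · simp [top]

/-! ## Gaps of a chain -/

/-- a gap of the chain `ρ` -/
structure GapP (r : Finset α → ℕ) (ρ : Finset (Pt α)) (s t : Pt α) : Prop where
  es : Ex0 r s
  et : Ex0 r t
  lt : s < t
  sr : s = bot r ∨ s ∈ ρ
  tr : t = top r ∨ t ∈ ρ
  sep : ∀ u ∈ ρ, u ≤ s ∨ t ≤ u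

open Classical in
theorem cut (h : IsRank r) {ρ : Finset (Pt α)} (hρ : Chn r ρ) (Q : Pt α → Prop) (hb : Q (bot r))
    (ht' : ¬ Q (top r)) (hQ : ∀ a b, Ex0 r a → Ex0 r b → a ≤ b → Q b → Q a) :
    ∃ s t, GapP r ρ s t ∧ Q s ∧ ¬ Q t := by
  set ρ' : Finset (Pt α) := insert (bot r) (insert (top r) ρ) with hρ'
  have hex : ∀ a ∈ ρ', Ex0 r a := by
    intro a ha
    rw [hρ', Finset.mem_insert, Finset.mem_insert] at ha
    rcases ha with rfl | rfl | ha
    · exact ex_bot h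
    · exact ex_top h
    · exact (hρ.1 a ha).ex
  have hcmp : ∀ a ∈ ρ', ∀ b ∈ ρ', a ≤ b ∨ b ≤ a := by
    intro a ha b hb
    have ea := hex a ha
    have eb := hex b hb
    rw [hρ', Finset.mem_insert, Finset.mem_insert] at ha hb
    rcases ha with rfl | rfl | ha
    · exact Or.inl (bot_le h eb)
    · exact Or.inr (le_top h eb)
    · rcases hb with rfl | rfl | hb
      · exact Or.inr (bot_le h ea)
      · exact Or.inl (le_top h ea)
      · exact hρ.2 a ha b hb
  obtain ⟨s, hs, hsm⟩ := Finset.exists_max_image (ρ'.filter Q) (ht r)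
    ⟨bot r, Finset.mem_filter.2 ⟨by simp [hρ'], hb⟩⟩
  obtain ⟨t, htm, htmin⟩ := Finset.exists_min_image (ρ'.filter (fun a => ¬ Q a)) (ht r)
    ⟨top r, Finset.mem_filter.2 ⟨by simp [hρ'], ht'⟩⟩
  obtain ⟨hs1, hs2⟩ := Finset.mem_filter.1 hs
  obtain ⟨ht1, ht2⟩ := Finset.mem_filter.1 htm
  have hst : s < t := by
    rcases hcmp s hs1 t ht1 with h1 | h1
    · refine lt_of_le_of_ne h1 ?_
      rintro rfl
      exact ht2 hs2
    · exact absurd (hQ t s (hex t ht1) (hex s hs1) h1 hs2) ht2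
  refine ⟨s, t, ⟨hex s hs1, hex t ht1, hst, ?_, ?_, ?_⟩, hs2, ht2⟩
  · rw [hρ', Finset.mem_insert, Finset.mem_insert] at hs1
    rcases hs1 with h1 | h1 | h1
    · exact Or.inl h1
    · rw [h1] at hs2
      exact absurd hs2 ht'
    · exact Or.inr h1
  · rw [hρ', Finset.mem_insert, Finset.mem_insert] at ht1
    rcases ht1 with h1 | h1 | h1
    · rw [h1] at ht2
      exact absurd hb ht2
    · exact Or.inl h1
    · exact Or.inr h1
  · intro u hu
    have hu' : u ∈ ρ' := by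
      rw [hρ', Finset.mem_insert, Finset.mem_insert]
      exact Or.inr (Or.inr hu)
    by_cases hQu : Q u
    · left
      rcases hcmp u hu' s hs1 with h1 | h1
      · exact h1
      · rcases eq_or_lt_of_le h1 with h2 | h2
        · rw [h2]
        · have h3 := hsm u (Finset.mem_filter.2 ⟨hu', hQu⟩)
          have h4 := ht_mono h (hex s hs1) (hex u hu') h2
          omega
    · right
      rcases hcmp u hu' t ht1 with h1 | h1
      · rcases eq_or_lt_of_le h1 with h2 | h2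
        · rw [h2]
        · have h3 := htmin u (Finset.mem_filter.2 ⟨hu', hQu⟩)
          have h4 := ht_mono h (hex u hu') (hex t ht1) h2
          omega
      · exact h1

theorem gap_dist (h : IsRank r) {ρ : Finset (Pt α)} {s t s' t' : Pt α} (g : GapP r ρ s t)
    (g' : GapP r ρ s' t') : t ≤ s' ∨ t' ≤ s ∨ (s = s' ∧ t = t') := by
  have a1 : s' ≤ s ∨ t ≤ s' := by
    rcases g'.sr with e | e
    · left
      rw [e]
      exact bot_le h g.es
    · exact g.sep s' e
  have a2 : s ≤ s' ∨ t' ≤ s := by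
    rcases g.sr with e | e
    · left
      rw [e]
      exact bot_le h g'.es
    · exact g'.sep s e
  have a3 : t' ≤ s ∨ t ≤ t' := by
    rcases g'.tr with e | e
    · right
      rw [e]
      exact le_top h g.et
    · exact g.sep t' e
  have a4 : t ≤ s' ∨ t' ≤ t := by
    rcases g.tr with e | e
    · right
      rw [e]
      exact le_top h g'.et
    · exact g'.sep t e
  by_cases c1 : t ≤ s'
  · exact Or.inl c1
  · by_cases c2 : t' ≤ s
    · exact Or.inr (Or.inl c2)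
    · right
      right
      refine ⟨le_antisymm ?_ ?_, le_antisymm ?_ ?_⟩
      · exact a2.resolve_right c2
      · exact a1.resolve_right c1
      · exact a3.resolve_left c2
      · exact a4.resolve_left c1

/-- a state in a gap -/
structure InG (r : Finset α → ℕ) (s t u : Pt α) : Prop where
  ex : Ex0 r u
  l : s < u
  r : u < t

theorem InG.sta (h : IsRank r) {ρ : Finset (Pt α)} {s t u : Pt α} (g : GapP r ρ s t)
    (hu : InG r s t u) : Sta r u := by
  refine ⟨hu.ex, ?_, ?_⟩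
  · rintro rfl
    exact absurd (bot_le h g.es) (not_le_of_gt hu.l)
  · rintro rfl
    exact absurd (le_top h g.et) (not_le_of_gt hu.r)

theorem InG.notMem {ρ : Finset (Pt α)} {s t u : Pt α} (g : GapP r ρ s t)
    (hu : InG r s t u) : u ∉ ρ := by
  intro hm
  rcases g.sep u hm with h1 | h1
  · exact absurd h1 (not_le_of_gt hu.l)
  · exact absurd h1 (not_le_of_gt hu.r)

theorem InG.cmp {ρ : Finset (Pt α)} {s t u : Pt α} (g : GapP r ρ s t)
    (hu : InG r s t u) : ∀ v ∈ ρ, v ≤ u ∨ u ≤ v := by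
  intro v hv
  rcases g.sep v hv with h1 | h1
  · exact Or.inl (h1.trans hu.l.le)
  · exact Or.inr (hu.r.le.trans h1)

/-- every vertex lies in a gap -/
theorem exists_gap (h : IsRank r) {ρ : Finset (Pt α)} (hρ : Chn r ρ) {u : Pt α} (hu : Sta r u)
    (hm : u ∉ ρ) (hc : ∀ v ∈ ρ, v ≤ u ∨ u ≤ v) : ∃ s t, GapP r ρ s t ∧ InG r s t u := by
  obtain ⟨s, t, g, h1, h2⟩ := cut h hρ (fun a => a < u)
    (lt_of_le_of_ne (bot_le h hu.ex) (Ne.symm hu.nb))
    (fun hh => absurd (le_top h hu.ex) (not_le_of_gt hh))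
    (fun a b _ _ hab hb => lt_of_le_of_lt hab hb)
  refine ⟨s, t, g, hu.ex, h1, ?_⟩
  rcases g.tr with e | e
  · rw [e]
    exact lt_of_le_of_ne (le_top h hu.ex) hu.nt
  · rcases hc t e with h3 | h3
    · rcases eq_or_lt_of_le h3 with h4 | h4
      · rw [h4] at e
        exact absurd e hm
      · exact absurd h4 h2
    · refine lt_of_le_of_ne h3 ?_
      rintro rfl
      exact hm e

/-- the face spanned by two comparable states in gaps -/
theorem face2 (h : IsRank r) {ρ : Finset (Pt α)} (hρ : Chn r ρ) {s t s' t' u v : Pt α}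
    (g : GapP r ρ s t) (g' : GapP r ρ s' t') (hu : InG r s t u) (hv : InG r s' t' v)
    (huv : u ≤ v ∨ v ≤ u) {i : α} (hi : ∀ w ∈ ρ, Nop i w) (hiu : Nop i u) (hiv : Nop i v) :
    Fc r (insert u (insert v ρ)) := by
  have cu := hu.cmp g
  have cv := hv.cmp g'
  refine ⟨⟨?_, ?_⟩, Or.inr ⟨i, ?_⟩⟩
  · intro w hw
    rcases Finset.mem_insert.1 hw with rfl | hw
    · exact hu.sta h g
    · rcases Finset.mem_insert.1 hw with rfl | hw
      · exact hv.sta h g'
      · exact hρ.1 w hw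
  · intro a ha b hb
    rw [Finset.mem_insert, Finset.mem_insert] at ha hb
    rcases ha with ha | ha | ha
    · rcases hb with hb | hb | hb
      · rw [ha, hb]
        exact Or.inl le_rfl
      · rw [ha, hb]
        exact huv
      · rw [ha]
        exact (cu b hb).symm
    · rcases hb with hb | hb | hb
      · rw [ha, hb]
        exact huv.symm
      · rw [ha, hb]
        exact Or.inl le_rfl
      · rw [ha]
        exact (cv b hb).symm
    · rcases hb with hb | hb | hb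
      · rw [hb]
        exact cu a ha
      · rw [hb]
        exact cv a ha
      · exact hρ.2 a ha b hb
  · intro w hw
    rcases Finset.mem_insert.1 hw with rfl | hw
    · exact hiu
    · rcases Finset.mem_insert.1 hw with rfl | hw
      · exact hiv
      · exact hi w hw

/-! ## Critical elements -/

theorem ai_mono {i : α} {s t : Pt α} (hle : s ≤ t) (hi : ¬ opf i (Xp t)) : ¬ opf i (Xp s) := by
  intro hs
  obtain ⟨p1, p2⟩ := le_iff'.1 ((le_iff2 s t).1 hle).1
  exact hi ⟨p1 hs.1, p2 hs.2⟩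

theorem bi_mono {i : α} {s t : Pt α} (hle : s ≤ t) (hi : ¬ opf i (Yp s)) : ¬ opf i (Yp t) := by
  intro hs
  obtain ⟨p1, p2⟩ := le_iff'.1 ((le_iff2 s t).1 hle).2
  exact hi ⟨p1 hs.1, p2 hs.2⟩

/-- the critical elements of a gap -/
def Cr (s t : Pt α) (i : α) : Prop := ¬ opf i (Xp s) ∧ ¬ opf i (Yp t)

theorem Cr.all {ρ : Finset (Pt α)} {s t : Pt α} {i : α} (g : GapP r ρ s t) (hc : Cr s t i) :
    ∀ w ∈ ρ, Nop i w := by
  intro w hw
  rw [nop_iff]
  rcases g.sep w hw with h1 | h1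
  · exact Or.inl (ai_mono h1 hc.1)
  · exact Or.inr (bi_mono h1 hc.2)

theorem Cr.other {ρ : Finset (Pt α)} {s t s' t' u : Pt α} {i : α} (h : IsRank r)
    (g : GapP r ρ s t) (g' : GapP r ρ s' t') (hc : Cr s t i) (hne : ¬ (s = s' ∧ t = t'))
    (hu : InG r s' t' u) : Nop i u := by
  rw [nop_iff]
  rcases gap_dist h g g' with h1 | h1 | h1
  · exact Or.inr (bi_mono (h1.trans hu.l.le) hc.2)
  · exact Or.inl (ai_mono (hu.r.le.trans h1) hc.1)
  · exact absurd h1 hne

/-- every never open element jumps in a gap -/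
theorem exists_jump (h : IsRank r) {ρ : Finset (Pt α)} (hρ : Chn r ρ) {i : α}
    (hi : ∀ w ∈ ρ, Nop i w) : ∃ s t, GapP r ρ s t ∧ Cr s t i := by
  obtain ⟨s, t, g, h1, h2⟩ := cut h hρ (fun a => ¬ opf i (Xp a))
    (fun hh => absurd hh.2 (by simp [Xp, bot]))
    (fun hh => hh ⟨by simp [Xp, top], by simp [Xp, top]⟩)
    (fun a b _ _ hab hb => ai_mono hab hb)
  refine ⟨s, t, g, h1, ?_⟩
  rcases g.tr with e | e
  · rw [e]
    intro hh
    exact absurd hh.2 (by simp [Yp, top])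
  · rcases (nop_iff i t).1 (hi t e) with h3 | h3
    · exact absurd h3 h2
    · exact h3

/-! ## Translation of the gap lemmas -/

theorem gp (h : IsRank r) {s t : Pt α} (es : Ex0 r s) (et : Ex0 r t) (hlt : s ≤ t) :
    Gp (Fl r) (Fl (rd r)) cpt (Xp s) (Xp t) (Yp s) (Yp t) := by
  obtain ⟨s1, s2, s3⟩ := (ex_iff h s).1 es
  obtain ⟨t1, t2, t3⟩ := (ex_iff h t).1 et
  obtain ⟨p, q⟩ := (le_iff2 s t).1 hlt
  exact ⟨s1, t1, s2, t2, p, q, s3, t3⟩

theorem ig_of (h : IsRank r) {s t u : Pt α} (hu : InG r s t u) :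
    Ig (Fl r) (Fl (rd r)) cpt (Xp s) (Xp t) (Yp s) (Yp t) (Xp u) (Yp u) := by
  obtain ⟨u1, u2, u3⟩ := (ex_iff h u).1 hu.ex
  obtain ⟨p1, p2⟩ := (le_iff2 s u).1 hu.l.le
  obtain ⟨q1, q2⟩ := (le_iff2 u t).1 hu.r.le
  refine ⟨u1, u2, p1, q1, q2, p2, u3, ?_, ?_⟩
  · rintro ⟨e1, e2⟩
    exact hu.l.ne (by rw [← mkP_eq s, ← mkP_eq u, e1, e2])
  · rintro ⟨e1, e2⟩
    exact hu.r.ne (by rw [← mkP_eq t, ← mkP_eq u, e1, e2])

theorem of_ig (h : IsRank r) {s t : Pt α} {X Y : Finset α × Bool}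
    (k : Ig (Fl r) (Fl (rd r)) cpt (Xp s) (Xp t) (Yp s) (Yp t) X Y) : InG r s t (mkP X Y) := by
  refine ⟨?_, ?_, ?_⟩
  · rw [ex_iff h, Xp_mkP, Yp_mkP]
    exact ⟨k.f, k.f', k.c⟩
  · refine lt_of_le_of_ne ?_ ?_
    · rw [le_iff2, Xp_mkP, Yp_mkP]
      exact ⟨k.a0, k.b0⟩
    · intro e
      apply k.n0
      rw [e, Xp_mkP, Yp_mkP]
      exact ⟨rfl, rfl⟩
  · refine lt_of_le_of_ne ?_ ?_
    · rw [le_iff2, Xp_mkP, Yp_mkP]
      exact ⟨k.a1, k.b1⟩
    · intro e
      apply k.n1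
      rw [← e, Xp_mkP, Yp_mkP]
      exact ⟨rfl, rfl⟩

theorem le_mkP {X Y X' Y' : Finset α × Bool} (h1 : X ≤ X') (h2 : Y' ≤ Y) :
    mkP X Y ≤ mkP X' Y' := by
  rw [le_iff2, Xp_mkP, Yp_mkP, Xp_mkP, Yp_mkP]
  exact ⟨h1, h2⟩

theorem rk_ht (h : IsRank r) {s t : Pt α} {k : ℕ} (hk : ht r s + k ≤ ht r t) :
    rkf r (Xp s) + rkf (rd r) (Yp t) + k ≤ rkf r (Xp t) + rkf (rd r) (Yp s) := by
  have e1 := ht_eq h s
  have e2 := ht_eq h t
  omega

theorem g_ex (h : IsRank r) {ρ : Finset (Pt α)} {s t : Pt α} (g : GapP r ρ s t)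
    (hD : ht r s + 2 ≤ ht r t) : ∃ u, InG r s t u := by
  obtain ⟨X, Y, k⟩ := gap_ex (bi h) (gp h g.es g.et g.lt.le) (rk_ht h hD)
  exact ⟨mkP X Y, of_ig h k⟩

theorem g_no (h : IsRank r) {ρ : Finset (Pt α)} {s t : Pt α} (g : GapP r ρ s t)
    (hD : ht r s + 3 ≤ ht r t) {i : α} (hc : Cr s t i) {z : Pt α → ℝ}
    (hz : ∀ u v, InG r s t u → InG r s t v → u ≤ v → z u = z v) {u : Pt α} (hu : InG r s t u) :
    ∃ v, InG r s t v ∧ Nop i v ∧ z u = z v := by
  obtain ⟨X, Y, k1, k2, k3⟩ := gap_no (z := fun X Y => z (mkP X Y)) (bi h)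
    (gp h g.es g.et g.lt.le) (rk_ht h hD) hc.1 hc.2
    (fun X Y X' Y' a b c d => hz _ _ (of_ig h a) (of_ig h b) (le_mkP c d)) (ig_of h hu)
  refine ⟨mkP X Y, of_ig h k1, ?_, ?_⟩
  · rw [nop_iff, Xp_mkP, Yp_mkP]
    exact k2
  · simp only [mkP_eq] at k3
    exact k3

theorem g_conn [Nonempty α] (h : IsRank r) {ρ : Finset (Pt α)} {s t : Pt α} (g : GapP r ρ s t)
    (hD : ht r s + 3 ≤ ht r t) (hc : ∀ i, ¬ Cr s t i) {z : Pt α → ℝ}
    (hz : ∀ u v, InG r s t u → InG r s t v → u ≤ v → z u = z v) {u v : Pt α}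
    (hu : InG r s t u) (hv : InG r s t v) : z u = z v := by
  have hg := gp h g.es g.et g.lt.le
  have hbox : cpt (Xp s) (Yp t) := by
    apply cpt_box hg.c1 hg.c0
    intro i
    by_contra hcon
    rw [not_or] at hcon
    exact hc i hcon
  have := gap_conn (z := fun X Y => z (mkP X Y)) (bi h) hg hbox (rk_ht h hD)
    (fun X Y X' Y' a b c d => hz _ _ (of_ig h a) (of_ig h b) (le_mkP c d)) (ig_of h hu)
    (ig_of h hv)
  simp only [mkP_eq] at this
  exact this

theorem g_crit (h : IsRank r) {ρ : Finset (Pt α)} {s t : Pt α} (g : GapP r ρ s t)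
    (hD : ht r s + 5 ≤ ht r t) {z : Pt α → ℝ}
    (hz : ∀ u v, InG r s t u → InG r s t v → u ≤ v →
      (∃ i, Cr s t i ∧ Nop i u ∧ Nop i v) → z u = z v) {u v : Pt α}
    (hu : InG r s t u) (hv : InG r s t v) (hnu : ∃ i, Cr s t i ∧ Nop i u)
    (hnv : ∃ i, Cr s t i ∧ Nop i v) : z u = z v := by
  obtain ⟨i, i1, i2⟩ := hnu
  obtain ⟨j, j1, j2⟩ := hnv
  have := gap_crit (z := fun X Y => z (mkP X Y)) (bi h) (gp h g.es g.et g.lt.le) (rk_ht h hD)
    (fun X Y X' Y' a b c d e => by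
      obtain ⟨k, k1, k2, k3⟩ := e
      refine hz _ _ (of_ig h a) (of_ig h b) (le_mkP c d) ⟨k, k1, ?_, ?_⟩
      · rw [nop_iff, Xp_mkP, Yp_mkP]
        exact k2
      · rw [nop_iff, Xp_mkP, Yp_mkP]
        exact k3) (ig_of h hu) (ig_of h hv) ⟨i, i1, (nop_iff i u).1 i2⟩ ⟨j, j1, (nop_iff j v).1 j2⟩
  simp only [mkP_eq] at this
  exact this

/-! ## Missing heights -/

/-- the missing heights -/
noncomputable def Mis (r : Finset α → ℕ) (ρ : Finset (Pt α)) : Finset ℕ :=
  (Icc 1 (Fintype.card α + 1)) \ ρ.image (ht r)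

theorem card_Mis {ρ : Finset (Pt α)} (hc : ρ.card + 3 ≤ Fintype.card α) :
    4 ≤ (Mis r ρ).card := by
  have h1 := Finset.le_card_sdiff (ρ.image (ht r)) (Icc 1 (Fintype.card α + 1))
  have h2 : (ρ.image (ht r)).card ≤ ρ.card := Finset.card_image_le
  have h3 : (Icc 1 (Fintype.card α + 1)).card = Fintype.card α + 1 := by
    rw [Nat.card_Icc]
    omega
  unfold Mis
  omega

theorem Mis_gap (h : IsRank r) {ρ : Finset (Pt α)} (hρ : Chn r ρ) {m : ℕ} (hm : m ∈ Mis r ρ) :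
    ∃ s t, GapP r ρ s t ∧ ht r s < m ∧ m < ht r t := by
  obtain ⟨h1, h2⟩ := Finset.mem_sdiff.1 hm
  obtain ⟨h3, h4⟩ := Finset.mem_Icc.1 h1
  obtain ⟨s, t, g, g1, g2⟩ := cut h hρ (fun a => ht r a < m)
    (by rw [ht_bot h]; omega) (by rw [ht_top h]; omega)
    (fun a b ha hb hab hh => lt_of_le_of_lt (ht_mono_le h ha hb hab) hh)
  refine ⟨s, t, g, g1, lt_of_le_of_ne (not_lt.1 g2) ?_⟩
  rcases g.tr with e | e
  · rw [e, ht_top h]
    omega
  · rintro rfl
    exact h2 (Finset.mem_image_of_mem _ e)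

theorem ht_Mis (h : IsRank r) {ρ : Finset (Pt α)} (hρ : Chn r ρ) {s t u : Pt α}
    (g : GapP r ρ s t) (hu : InG r s t u) : ht r u ∈ Mis r ρ := by
  have h1 := ht_mono h g.es hu.ex hu.l
  have h2 := ht_mono h hu.ex g.et hu.r
  have h3 := ht_mono_le h g.et (ex_top h) (le_top h g.et)
  rw [ht_top h] at h3
  refine Finset.mem_sdiff.2 ⟨Finset.mem_Icc.2 ⟨by omega, by omega⟩, ?_⟩
  intro hm
  obtain ⟨x, hx, hxe⟩ := Finset.mem_image.1 hm
  rcases g.sep x hx with h4 | h4
  · have := ht_mono_le h (hρ.1 x hx).ex g.es h4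
    omega
  · have := ht_mono_le h g.et (hρ.1 x hx).ex h4
    omega

theorem Cr.two (h : IsRank r) {ρ : Finset (Pt α)} {s t : Pt α} {i : α} (g : GapP r ρ s t)
    (hc : Cr s t i) : ht r s + 2 ≤ ht r t := by
  have hg := gp h g.es g.et g.lt.le
  obtain ⟨c1, c2⟩ := hc
  have key : ∀ X Y : Finset α × Bool, cpt X Y → opf i X ∨ opf i Y := by
    intro X Y hXY
    by_cases hY : i ∈ Y.1
    · cases hY2 : Y.2
      · left
        exact ⟨by rw [hXY.2.2.2 hY2]; exact Finset.mem_univ i, hXY.2.2.1 hY2⟩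
      · exact Or.inr ⟨hY, hY2⟩
    · left
      have hiC : i ∈ Y.1ᶜ := Finset.mem_compl.2 hY
      exact ⟨hXY.1 hiC, hXY.2.1 ⟨i, hiC⟩⟩
  have o1 : opf i (Xp t) := (key _ _ hg.c1).resolve_right c2
  have o2 : opf i (Yp s) := (key _ _ hg.c0).resolve_left c1
  have g1 : Xp s < Xp t := lt_of_le_of_ne hg.hX (fun e => c1 (e ▸ o1))
  have g2 : Yp t < Yp s := lt_of_le_of_ne hg.hY (fun e => c2 (e ▸ o2))
  have m1 := (bi h).g.mono hg.f0 hg.f1 g1
  have m2 := (bi h).g'.mono hg.g1 hg.g0 g2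
  have e1 := ht_eq h s
  have e2 := ht_eq h t
  omega

/-! ## The main argument -/

section main

variable {ρ : Finset (Pt α)} {z : Pt α → ℝ}

/-- vertices in different gaps -/
theorem diff (h : IsRank r) (hρ : Chn r ρ) (hcard : ρ.card + 3 ≤ Fintype.card α)
    (hz : ∀ s t s' t' u v, GapP r ρ s t → GapP r ρ s' t' → InG r s t u → InG r s' t' v →
      (u ≤ v ∨ v ≤ u) → (∃ i, (∀ w ∈ ρ, Nop i w) ∧ Nop i u ∧ Nop i v) → z u = z v)
    {s t s' t' u v : Pt α} (g : GapP r ρ s t) (g' : GapP r ρ s' t') (hu : InG r s t u)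
    (hv : InG r s' t' v) (hle : t ≤ s') (hnu : ∃ i, (∀ w ∈ ρ, Nop i w) ∧ Nop i u)
    (hnv : ∃ i, (∀ w ∈ ρ, Nop i w) ∧ Nop i v) : z u = z v := by
  by_contra hne
  obtain ⟨i, i1, i2⟩ := hnu
  obtain ⟨j, j1, j2⟩ := hnv
  have huv : u ≤ v := (hu.r.le.trans hle).trans hv.l.le
  have hgne : ¬ (s = s' ∧ t = t') := by
    rintro ⟨rfl, rfl⟩
    exact absurd hle (not_le_of_gt g.lt)
  have hgne' : ¬ (s' = s ∧ t' = t) := fun e => hgne ⟨e.1.symm, e.2.symm⟩
  have hiv : ¬ Nop i v := fun hh => hne (hz s t s' t' u v g g' hu hv (Or.inl huv) ⟨i, i1, i2, hh⟩)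
  have hju : ¬ Nop j u := fun hh => hne (hz s t s' t' u v g g' hu hv (Or.inl huv) ⟨j, j1, hh, j2⟩)
  have ci : Cr s' t' i := by
    obtain ⟨a, b, gab, cab⟩ := exists_jump h hρ i1
    by_cases e : a = s' ∧ b = t'
    · rw [← e.1, ← e.2]
      exact cab
    · exact absurd (cab.other h gab g' e hv) hiv
  have cj : Cr s t j := by
    obtain ⟨a, b, gab, cab⟩ := exists_jump h hρ j1
    by_cases e : a = s ∧ b = t
    · rw [← e.1, ← e.2]
      exact cab
    · exact absurd (cab.other h gab g e hu) hju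
  have cmp : ∀ {a b a' b' x y : Pt α}, GapP r ρ a b → GapP r ρ a' b' → ¬ (a = a' ∧ b = b') →
      InG r a b x → InG r a' b' y → x ≤ y ∨ y ≤ x := by
    intro a b a' b' x y ga ga' hh hx hy
    rcases gap_dist h ga ga' with h1 | h1 | h1
    · exact Or.inl ((hx.r.le.trans h1).trans hy.l.le)
    · exact Or.inr ((hy.r.le.trans h1).trans hx.l.le)
    · exact absurd h1 hh
  have hsub : Mis r ρ ⊆ Ioo (ht r s) (ht r t) ∪ Ioo (ht r s') (ht r t') := by
    intro m hm
    obtain ⟨a, b, gab, m1, m2⟩ := Mis_gap h hρ hm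
    by_cases e1 : a = s ∧ b = t
    · exact Finset.mem_union_left _ (Finset.mem_Ioo.2 ⟨e1.1 ▸ m1, e1.2 ▸ m2⟩)
    by_cases e2 : a = s' ∧ b = t'
    · exact Finset.mem_union_right _ (Finset.mem_Ioo.2 ⟨e2.1 ▸ m1, e2.2 ▸ m2⟩)
    exfalso
    obtain ⟨w, hw⟩ := g_ex h gab (by omega)
    have e1' : ¬ (s = a ∧ t = b) := fun e => e1 ⟨e.1.symm, e.2.symm⟩
    have e2' : ¬ (s' = a ∧ t' = b) := fun e => e2 ⟨e.1.symm, e.2.symm⟩
    have niw : Nop i w := ci.other h g' gab e2' hw
    have njw : Nop j w := cj.other h g gab e1' hw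
    have z1 := hz a b s t w u gab g hw hu (cmp gab g e1 hw hu) ⟨i, i1, niw, i2⟩
    have z2 := hz a b s' t' w v gab g' hw hv (cmp gab g' e2 hw hv) ⟨j, j1, njw, j2⟩
    exact hne (z1.symm.trans z2)
  have hcd := card_Mis (r := r) hcard
  have hcd2 := (Finset.card_le_card hsub).trans (Finset.card_union_le _ _)
  rw [Nat.card_Ioo, Nat.card_Ioo] at hcd2
  have hor : ht r s' + 3 ≤ ht r t' ∨ ht r s + 3 ≤ ht r t := by omega
  rcases hor with hD | hD
  · obtain ⟨w, hw, hiw, hzw⟩ := g_no h g' hD ci (z := z) (fun a b ha hb hab =>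
      hz s' t' s' t' a b g' g' ha hb (Or.inl hab)
        ⟨j, j1, cj.other h g g' hgne ha, cj.other h g g' hgne hb⟩) hv
    have := hz s t s' t' u w g g' hu hw (cmp g g' hgne hu hw) ⟨i, i1, i2, hiw⟩
    exact hne (this.trans hzw.symm)
  · obtain ⟨w, hw, hjw, hzw⟩ := g_no h g hD cj (z := z) (fun a b ha hb hab =>
      hz s t s t a b g g ha hb (Or.inl hab)
        ⟨i, i1, ci.other h g' g hgne' ha, ci.other h g' g hgne' hb⟩) hu
    have := hz s t s' t' w v g g' hw hv (cmp g g' hgne hw hv) ⟨j, j1, hjw, j2⟩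
    exact hne (hzw.trans this)

/-- vertices in the same gap -/
theorem same [Nonempty α] (h : IsRank r) (hρ : Chn r ρ) (hcard : ρ.card + 3 ≤ Fintype.card α)
    (hz : ∀ s t s' t' u v, GapP r ρ s t → GapP r ρ s' t' → InG r s t u → InG r s' t' v →
      (u ≤ v ∨ v ≤ u) → (∃ i, (∀ w ∈ ρ, Nop i w) ∧ Nop i u ∧ Nop i v) → z u = z v)
    {s t u v : Pt α} (g : GapP r ρ s t) (hu : InG r s t u)
    (hv : InG r s t v) (hnu : ∃ i, (∀ w ∈ ρ, Nop i w) ∧ Nop i u)
    (hnv : ∃ i, (∀ w ∈ ρ, Nop i w) ∧ Nop i v) : z u = z v := by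
  by_contra hne
  obtain ⟨i, i1, i2⟩ := hnu
  obtain ⟨j, j1, j2⟩ := hnv
  -- no vertices in other gaps
  have hno : ∀ a b w k, GapP r ρ a b → ¬ (a = s ∧ b = t) → InG r a b w →
      (∀ x ∈ ρ, Nop k x) → ¬ Nop k w := by
    intro a b w k gab hab hw hk hkw
    apply hne
    rcases gap_dist h gab g with h1 | h1 | h1
    · have e1 := diff h hρ hcard hz gab g hw hu h1 ⟨k, hk, hkw⟩ ⟨i, i1, i2⟩
      have e2 := diff h hρ hcard hz gab g hw hv h1 ⟨k, hk, hkw⟩ ⟨j, j1, j2⟩
      exact e1.symm.trans e2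
    · have e1 := diff h hρ hcard hz g gab hu hw h1 ⟨i, i1, i2⟩ ⟨k, hk, hkw⟩
      have e2 := diff h hρ hcard hz g gab hv hw h1 ⟨j, j1, j2⟩ ⟨k, hk, hkw⟩
      exact e1.trans e2.symm
    · exact absurd h1 hab
  have hcd := card_Mis (r := r) hcard
  by_cases hall : Mis r ρ ⊆ Ioo (ht r s) (ht r t)
  · have hcd2 := Finset.card_le_card hall
    rw [Nat.card_Ioo] at hcd2
    have hcr : ∀ k, (∀ x ∈ ρ, Nop k x) → Cr s t k := by
      intro k hk
      obtain ⟨a, b, gab, cab⟩ := exists_jump h hρ hk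
      by_cases e : a = s ∧ b = t
      · rw [← e.1, ← e.2]
        exact cab
      · exfalso
        obtain ⟨w, hw⟩ := g_ex h gab (cab.two h gab)
        have h1 := Finset.mem_Ioo.1 (hall (ht_Mis h hρ gab hw))
        have h2 := ht_mono h gab.es hw.ex hw.l
        have h3 := ht_mono h hw.ex gab.et hw.r
        rcases gap_dist h gab g with h4 | h4 | h4
        · have := ht_mono_le h gab.et g.es h4
          omega
        · have := ht_mono_le h g.et gab.es h4
          omega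
        · exact e h4
    exact hne (g_crit h g (by omega) (fun a b ha hb hab hk => by
      obtain ⟨k, k1, k2, k3⟩ := hk
      exact hz s t s t a b g g ha hb (Or.inl hab) ⟨k, k1.all g, k2, k3⟩) hu hv
      ⟨i, hcr i i1, i2⟩ ⟨j, hcr j j1, j2⟩)
  · rw [Finset.not_subset] at hall
    obtain ⟨m, hm, hmn⟩ := hall
    obtain ⟨a, b, gab, m1, m2⟩ := Mis_gap h hρ hm
    have hab : ¬ (a = s ∧ b = t) := by
      rintro ⟨rfl, rfl⟩
      exact hmn (Finset.mem_Ioo.2 ⟨m1, m2⟩)
    obtain ⟨w, hw⟩ := g_ex h gab (by omega)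
    -- `i` jumps in every other gap with a state
    have hjump : ∀ a' b', GapP r ρ a' b' → ¬ (a' = s ∧ b' = t) → (∃ w', InG r a' b' w') →
        Cr a' b' i := by
      rintro a' b' gab' hab' ⟨w', hw'⟩
      obtain ⟨p, q, gpq, cpq⟩ := exists_jump h hρ i1
      by_cases e : p = a' ∧ q = b'
      · rw [← e.1, ← e.2]
        exact cpq
      · exact absurd (cpq.other h gpq gab' e hw') (hno a' b' w' i gab' hab' hw' i1)
    have ci : Cr a b i := hjump a b gab hab ⟨w, hw⟩
    have hnc : ∀ k, ¬ Cr s t k := by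
      intro k hk
      exact hno a b w k gab hab hw (hk.all g)
        (hk.other h g gab (fun e => hab ⟨e.1.symm, e.2.symm⟩) hw)
    have hD2 : ht r b ≤ ht r a + 2 := by
      by_contra hlt
      obtain ⟨w', hw', hiw', -⟩ := g_no h gab (by omega) ci (z := fun _ => 0)
        (fun _ _ _ _ _ => rfl) hw
      exact hno a b w' i gab hab hw' i1 hiw'
    have hsub : Mis r ρ ⊆ insert m (Ioo (ht r s) (ht r t)) := by
      intro m' hm'
      obtain ⟨a', b', gab', m1', m2'⟩ := Mis_gap h hρ hm'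
      by_cases e : a' = s ∧ b' = t
      · exact Finset.mem_insert_of_mem (Finset.mem_Ioo.2 ⟨e.1 ▸ m1', e.2 ▸ m2'⟩)
      · have ci' := hjump a' b' gab' e (g_ex h gab' (by omega))
        -- both gaps are the jump gap of `i`
        have hs : a' = a ∧ b' = b := by
          rcases gap_dist h gab' gab with h1 | h1 | h1
          · exfalso
            have hne' : ¬ (a = a' ∧ b = b') := by
              intro e3
              rw [e3.1] at h1
              exact absurd h1 (not_le_of_gt gab'.lt)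
            obtain ⟨w', hw'⟩ := g_ex h gab' (by omega)
            exact hno a' b' w' i gab' e hw' i1 (ci.other h gab gab' hne' hw')
          · exfalso
            have hne' : ¬ (a = a' ∧ b = b') := by
              intro e3
              rw [e3.2] at h1
              exact absurd h1 (not_le_of_gt gab'.lt)
            obtain ⟨w', hw'⟩ := g_ex h gab' (by omega)
            exact hno a' b' w' i gab' e hw' i1 (ci.other h gab gab' hne' hw')
          · exact h1
        rw [hs.1] at m1'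
        rw [hs.2] at m2'
        have : m' = m := by omega
        rw [this]
        exact Finset.mem_insert_self _ _
    have hcd2 := (Finset.card_le_card hsub).trans (Finset.card_insert_le _ _)
    rw [Nat.card_Ioo] at hcd2
    exact hne (g_conn h g (by omega) hnc (fun x y hx hy hxy =>
      hz s t s t x y g g hx hy (Or.inl hxy)
        ⟨i, i1, ci.other h gab g hab hx, ci.other h gab g hab hy⟩) hu hv)

end main

end Pool.Agent.QPR.Lat

namespace Pool.Agent.QPR

open Pool.Agent.QPR.Lat in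
theorem t_CONN : Stmt_CONN := by
  intro α _ _ r al be hs h hw ρ hρ hcard z hz u v hu hv hFu hFv
  have hFρ : Fc r ρ := hρ
  have : Nonempty α := by
    rw [← Fintype.card_pos_iff]
    omega
  have hC := hFρ.1
  have hz' : ∀ s t s' t' u v, GapP r ρ s t → GapP r ρ s' t' → InG r s t u → InG r s' t' v →
      (u ≤ v ∨ v ≤ u) → (∃ i, (∀ w ∈ ρ, Nop i w) ∧ Nop i u ∧ Nop i v) → z u = z v := by
    rintro s t s' t' u v g g' hu hv hc ⟨i, i1, i2, i3⟩
    by_cases e : u = v
    · rw [e]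
    · exact hz u v (hu.notMem g) (hv.notMem g') e (face2 h hC g g' hu hv hc i1 i2 i3)
  have vert : ∀ u, u ∉ ρ → Fc r (insert u ρ) → (∃ s t, GapP r ρ s t ∧ InG r s t u) ∧
      ∃ i, (∀ w ∈ ρ, Nop i w) ∧ Nop i u := by
    intro u hu hF
    constructor
    · apply exists_gap h hC (hF.1.1 u (Finset.mem_insert_self _ _)) hu
      intro v hv
      exact hF.1.2 v (Finset.mem_insert_of_mem hv) u (Finset.mem_insert_self _ _)
    · rcases hF.2 with h1 | ⟨i, hi⟩
      · exact absurd h1 (Finset.insert_ne_empty _ _)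
      · exact ⟨i, fun w hw => hi w (Finset.mem_insert_of_mem hw),
          hi u (Finset.mem_insert_self _ _)⟩
  obtain ⟨⟨s, t, g, gu⟩, nu⟩ := vert u hu hFu
  obtain ⟨⟨s', t', g', gv⟩, nv⟩ := vert v hv hFv
  rcases gap_dist h g g' with h1 | h1 | ⟨rfl, rfl⟩
  · exact diff h hC hcard hz' g g' gu gv h1 nu nv
  · exact (diff h hC hcard hz' g' g gv gu h1 nv nu).symm
  · exact same h hC hcard hz' g gu gv nu nv

end Pool.Agent.QPR
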