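import Pool.Agent.QPR.S1_FLA
import Pool.Agent.QPR.S1_DU1
import Pool.Agent.QPR.S1_CYC
import Pool.Agent.QPR.S1_HT
import Pool.Agent.QPR.S1_DU2
import Pool.Agent.QPR.S1_DEC
import Pool.Agent.QPR.S1_BET
import Pool.Agent.QPR.S1_GAP
import Pool.Agent.QPR.S1_DIM
import Pool.Agent.QPR.S1_CG
import Pool.Agent.QPR.S1_PUR
import Pool.Agent.QPR.S1_ACC
import Pool.Agent.QPR.S1_SEP
import Pool.Agent.QPR.S1_DG
import Pool.Agent.QPR.S1_TW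
import Pool.Agent.QPR.S1_REL
import Pool.Agent.QPR.S1_BAL
import Pool.Agent.QPR.S1_QC
import Pool.Agent.QPR.S1_QCZ
import Pool.Agent.QPR.S1_FAM
import Pool.Agent.QPR.S1_AMF
import Pool.Agent.QPR.S1_TR0
import Pool.Agent.QPR.S1_TR1
import Pool.Agent.QPR.S1_TR2
import Pool.Agent.QPR.S1_QLG
import Pool.Agent.QPR.S1_Q0A
import Pool.Agent.QPR.S1_Q0B
import Pool.Agent.QPR.S1_Q0C
import Pool.Agent.QPR.S1_Q0D
import Pool.Agent.QPR.S1_QDA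
import Pool.Agent.QPR.S1_FIN
import Pool.Agent.QPR.StConn

/-!
# The complex of states: all statements of part (1), (II), proved (helper86)

Modules by helper4, 35, 54, 83, 51, 16, 28, 69, 40, 46, 42, 3, 25, 89, 55, 41, 48, 45, 9, 80, 70, 94,
75, 26, 79, 15, 90, 78, 27, 10 and helper20 (connectivity).
-/

set_option autoImplicit false

namespace Pool.Agent.QPR

theorem s1_CYC : Stmt_CYC := t_CYC t_FLA t_DU1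

theorem s1_HT : Stmt_HT := t_HT t_FLA s1_CYC

theorem s1_DU2 : Stmt_DU2 := t_DU2 t_DU1 t_FLA s1_CYC s1_HT

theorem s1_BET : Stmt_BET := t_BET t_FLA s1_CYC s1_HT

theorem s1_GAP : Stmt_GAP := t_GAP s1_HT

theorem s1_DIM : Stmt_DIM := t_DIM s1_HT s1_GAP

theorem s1_CG : Stmt_CG := t_CG t_FLA s1_CYC s1_HT

theorem s1_PUR : Stmt_PUR := t_PUR s1_HT s1_BET s1_GAP s1_DIM s1_CG

theorem s1_ACC : Stmt_ACC := t_ACC t_FLA s1_CYC s1_HT s1_GAP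

theorem s1_SEP : Stmt_SEP := t_SEP t_FLA s1_CYC s1_HT

theorem s1_DG : Stmt_DG := t_DG t_FLA s1_CYC s1_HT t_DEC

theorem s1_TW' : Stmt_TW := s1_TW s1_HT s1_GAP s1_DIM

theorem s1_REL : Stmt_REL := t_REL s1_HT s1_GAP t_DEC

theorem s1_BAL : Stmt_BAL := t_BAL s1_HT s1_BET s1_GAP s1_DIM t_DEC s1_DG s1_TW' s1_REL

theorem s1_TOP : Stmt_TOP := fin_TOP s1_PUR s1_BAL

theorem s1_AMF : Stmt_AMF := t_AMF t_FLA s1_CYC s1_HT s1_GAP s1_DIM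

theorem s1_AMP : Stmt_AMP := fin_AMP s1_PUR s1_DIM s1_BAL t_FAM s1_AMF

theorem s1_TR0 : Stmt_TR0 := t_TR0 t_FLA s1_CYC s1_HT s1_GAP

theorem s1_TR1 : Stmt_TR1 := t_TR1 t_FLA s1_CYC s1_HT s1_GAP s1_DIM s1_ACC s1_TR0

theorem s1_TR2 : Stmt_TR2 := t_TR2 t_FLA s1_CYC s1_HT s1_GAP s1_DIM s1_ACC s1_TR0

theorem s1_QLG : Stmt_QLG :=
  t_QLG s1_SEP t_FLA s1_CYC s1_HT s1_GAP s1_DIM s1_ACC s1_TR0 s1_TR1 s1_TR2 t_QCZ t_DEC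

theorem s1_Q0A : Stmt_Q0A := t_Q0A s1_SEP s1_HT s1_GAP s1_DIM s1_ACC s1_TR0 s1_DG t_QCZ

theorem s1_Q0B : Stmt_Q0B := t_Q0B s1_SEP s1_HT s1_GAP s1_DIM s1_ACC s1_TR0 s1_DG t_QCZ

theorem s1_Q0C : Stmt_Q0C := t_Q0C s1_SEP t_DU1 t_FLA s1_CYC s1_HT s1_DU2 s1_GAP s1_DIM s1_ACC
  s1_TR0 s1_DG t_DEC t_QCZ

theorem s1_Q0D : Stmt_Q0D := t_Q0D s1_SEP t_FLA s1_CYC s1_HT s1_GAP s1_DIM s1_ACC s1_TR0 s1_DG
  t_DEC s1_REL t_QCZ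

theorem s1_QDA : Stmt_QDA := t_QDA t_DU1 t_FLA s1_CYC s1_HT s1_DU2 t_DEC s1_GAP s1_DIM s1_ACC
  s1_TR0 s1_QLG s1_Q0A s1_Q0B s1_Q0C s1_Q0D

theorem s1_QUAD : Stmt_QUAD := fin_QUAD s1_TOP s1_AMP t_QC s1_QDA

theorem s1_CONN : Stmt_CONN := t_CONN

end Pool.Agent.QPR
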