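import Pool.Agent.QPR.NF
import Pool.Agent.QPR.S1_ALL
import Pool.Agent.QPR.N_MIN
import Pool.Agent.QPR.N_VL
import Pool.Agent.QPR.N_VR
import Pool.Agent.QPR.N_CNT
import Pool.Agent.QPR.N_VM
import Pool.Agent.QPR.N_PCP
import Pool.Agent.QPR.N_PCU
import Pool.Agent.QPR.N_PCE
import Pool.Agent.QPR.N_PCK
import Pool.Agent.QPR.N_PDP
import Pool.Agent.QPR.N_PDU
import Pool.Agent.QPR.N_PDE
import Pool.Agent.QPR.N_PDK
import Pool.Agent.QPR.N_COM
import Pool.Agent.QPR.N_NEF

/-!
# Part (1) is complete (helper97)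

Modules of the numbers by helper11, 27, 67, 99, 23, 50, 49, 7, 18, 30, 58, 98, 63, 79, 80.
-/

set_option autoImplicit false

namespace Pool.Agent.QPR

theorem facts : Facts where
  SEP := s1_SEP
  TOP := s1_TOP
  MIN := MIN_thm
  VL := VL_thm
  VR := VR_thm
  VM := VM_thm CNT_thm
  PCP := PCP_thm
  PCU := PCU_thm
  PCE := PCE_thm
  PCK := PCK_thm
  PDP := PDP_thm
  PDU := PDU_thm
  PDE := PDE_thm
  PDK := PDK_thm
  COM := COM_thm

theorem facts2 : Facts2 where
  toFacts := facts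
  CONN := s1_CONN
  QUAD := s1_QUAD
  AMP := s1_AMP
  NEF := NEF_thm

/-- **Part (1).** The mixed Hodge index inequality for minors without loops and coloops. -/
theorem t_MIX0 : St_MIX0 := mix0_of facts2

end Pool.Agent.QPR
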