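import Pool.Agent.QPR.HRDiv

/-!
# Push-forward of weights and a vanishing criterion (helper97)

MP_9c4433_lc, part (1): abstract tools for the intersection numbers.
-/

set_option autoImplicit false

open Finset

namespace Pool.Agent.QPR

variable {V V' : Type} [Fintype V] [DecidableEq V] [Fintype V'] [DecidableEq V']

/-- **Vanishing criterion.** If every function of the list can be made to vanish at all vertices
which destroy the property `P`, then the number is `0` as soon as `w` vanishes on the top faces
with property `P`. -/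
theorem van {C : Cx V} {w : Finset V → ℝ} (hw : Wt C w) {n : ℕ} (P : Finset V → Prop)
    (Fs : Set (V → ℝ))
    (h : ∀ f ∈ Fs, ∀ ρ, C.F ρ → P ρ → ∃ l ∈ C.L, (∀ u ∈ ρ, l u = f u) ∧
      ∀ v, v ∉ ρ → C.F (insert v ρ) → ¬ P (insert v ρ) → f v = l v)
    (h0 : ∀ ρ, P ρ → ρ.card = n → w ρ = 0) :
    ∀ A : List (V → ℝ), (∀ f ∈ A, f ∈ Fs) → ∀ ρ, P ρ → ρ.card + A.length = n →
      it C A w ρ = 0 := by
  intro A
  induction A with
  | nil =>
    intro _ ρ hP hn
    exact h0 ρ hP (by simpa using hn)
  | cons f A ih =>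
    intro hA ρ hP hn
    have hwA := it_wt hw A
    by_cases hF : C.F ρ
    · obtain ⟨l, hl, hlf, hlv⟩ := h f (hA f List.mem_cons_self) ρ hF hP
      have e : it C (f :: A) w ρ = ∑ v ∈ ρᶜ, it C A w (insert v ρ) * (f v - l v) :=
        dv_eq hwA hF hl hlf
      rw [e]
      refine sum_eq_zero fun v hv => ?_
      rw [mem_compl] at hv
      by_cases hFv : C.F (insert v ρ)
      · by_cases hPv : P (insert v ρ)
        · rw [ih (fun g hg => hA g (List.mem_cons_of_mem f hg)) _ hPv (by
            rw [card_insert_of_notMem hv]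
            simp only [List.length_cons] at hn
            omega), zero_mul]
        · rw [hlv v hv hFv hPv, sub_self, mul_zero]
      · rw [hwA.supp _ hFv, zero_mul]
    · exact (it_wt hw (f :: A)).supp _ hF

/-- value of a function on an optional vertex, `0` for `none` -/
def ext (g : V' → ℝ) (o : Option V') : ℝ := o.elim 0 g

/-- image of a set under a partial map -/
def im (π : V → Option V') (ρ : Finset V) : Finset V' := ρ.biUnion fun u => (π u).toFinset

theorem mem_im {π : V → Option V'} {ρ : Finset V} {v' : V'} :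
    v' ∈ im π ρ ↔ ∃ u ∈ ρ, π u = some v' := by
  unfold im
  simp only [mem_biUnion, Option.mem_toFinset, Option.mem_def]

/-- `ρ` is a lift of `ρ'`: `π` maps `ρ` bijectively onto `ρ'` and `ρ` does not contain `k` -/
def Lf (π : V → Option V') (k : V) (ρ : Finset V) (ρ' : Finset V') : Prop :=
  k ∉ ρ ∧ im π ρ = ρ' ∧ ρ.card = ρ'.card

open Classical in
/-- push-forward of the link of the vertex `k` -/
noncomputable def push (π : V → Option V') (k : V) (w : Finset V → ℝ) (ρ' : Finset V') : ℝ :=
  ∑ ρ ∈ univ.filter (fun ρ => Lf π k ρ ρ'), w (insert k ρ)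

theorem im_empty (π : V → Option V') : im π ∅ = ∅ := by
  unfold im
  simp

theorem card_im_le (π : V → Option V') (ρ : Finset V) : (im π ρ).card ≤ ρ.card := by
  unfold im
  refine card_biUnion_le.trans ?_
  calc ∑ u ∈ ρ, ((π u).toFinset).card ≤ ∑ _u ∈ ρ, 1 := by
        refine sum_le_sum fun u _ => ?_
        cases π u <;> simp
    _ = ρ.card := by simp

theorem im_insert (π : V → Option V') (v : V) (ρ : Finset V) :
    im π (insert v ρ) = (π v).toFinset ∪ im π ρ := by
  unfold im
  rw [biUnion_insert]

/-- on a lift all images exist -/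
theorem Lf.ex {π : V → Option V'} {k : V} {ρ : Finset V} {ρ' : Finset V'} (h : Lf π k ρ ρ')
    {u : V} (hu : u ∈ ρ) : ∃ v', π u = some v' ∧ v' ∉ im π (ρ.erase u) := by
  obtain ⟨_, h1, h2⟩ := h
  have e : insert u (ρ.erase u) = ρ := insert_erase hu
  have h3 := card_im_le π (ρ.erase u)
  have h4 : (ρ.erase u).card + 1 = ρ.card := card_erase_add_one hu
  have h5 : im π ρ = (π u).toFinset ∪ im π (ρ.erase u) := by
    rw [← im_insert, e]
  cases hπ : π u with
  | none =>
    exfalso
    rw [hπ] at h5
    simp only [Option.toFinset_none, empty_union] at h5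
    rw [h1] at h5
    rw [h2, h5] at h4
    omega
  | some v' =>
    refine ⟨v', rfl, fun hv' => ?_⟩
    rw [hπ] at h5
    simp only [Option.toFinset_some] at h5
    rw [singleton_union, insert_eq_of_mem hv', h1] at h5
    rw [h2, h5] at h4
    omega

theorem Lf.inj {π : V → Option V'} {k : V} {ρ : Finset V} {ρ' : Finset V'} (h : Lf π k ρ ρ')
    {u v : V} (hu : u ∈ ρ) (hv : v ∈ ρ) (huv : π u = π v) : u = v := by
  by_contra hne
  obtain ⟨v', h1, h2⟩ := h.ex hu
  exact h2 (mem_im.2 ⟨v, mem_erase.2 ⟨fun h => hne h.symm, hv⟩, by rw [← huv, h1]⟩)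

theorem Lf.mem {π : V → Option V'} {k : V} {ρ : Finset V} {ρ' : Finset V'} (h : Lf π k ρ ρ')
    {u : V} (hu : u ∈ ρ) {v' : V'} (hv : π u = some v') : v' ∈ ρ' := by
  rw [← h.2.1]
  exact mem_im.2 ⟨u, hu, hv⟩

/-- adding a vertex to a lift -/
theorem Lf_insert {π : V → Option V'} {k : V} {ρ : Finset V} {ρ' : Finset V'} {v : V} {v' : V'}
    (hv : v ∉ ρ) (hv' : v' ∉ ρ') (hπ : π v = some v') :
    Lf π k (insert v ρ) (insert v' ρ') ↔ (v ≠ k ∧ Lf π k ρ ρ') := by
  constructor
  · intro h
    obtain ⟨h1, h2, h3⟩ := h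
    rw [mem_insert, not_or] at h1
    rw [card_insert_of_notMem hv, card_insert_of_notMem hv'] at h3
    rw [im_insert, hπ, Option.toFinset_some, singleton_union] at h2
    have h4 : v' ∉ im π ρ := by
      intro h5
      rw [insert_eq_of_mem h5] at h2
      have := card_im_le π ρ
      rw [h2, card_insert_of_notMem hv'] at this
      omega
    refine ⟨fun e => h1.1 e.symm, h1.2, ?_, by omega⟩
    have := congrArg (fun s => s.erase v') h2
    simp only [erase_insert h4, erase_insert hv'] at this
    exact this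
  · rintro ⟨h1, h2, h3, h4⟩
    refine ⟨?_, ?_, ?_⟩
    · rw [mem_insert, not_or]
      exact ⟨fun e => h1 e.symm, h2⟩
    · rw [im_insert, hπ, Option.toFinset_some, singleton_union, h3]
    · rw [card_insert_of_notMem hv, card_insert_of_notMem hv', h4]

/-- hypotheses of the push-forward -/
structure Push (C : Cx V) (C' : Cx V') (π : V → Option V') (k : V) : Prop where
  lift : ∀ l' ∈ C'.L, ∃ l ∈ C.L, l k = 0 ∧ ∀ u, u ≠ k → C.F (insert u {k}) → l u = ext l' (π u)
  face : ∀ ρ, k ∉ ρ → C.F (insert k ρ) → (∀ u ∈ ρ, π u ≠ none) → C'.F (im π ρ)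

/-- a pair of compatible functions -/
def Comp (C : Cx V) (π : V → Option V') (k : V) (f : V → ℝ) (g : V' → ℝ) : Prop :=
  ∃ l ∈ C.L, l k = f k ∧ ∀ u, u ≠ k → C.F (insert u {k}) → f u - l u = ext g (π u)

open Classical in
/-- **Push-forward formula** for one divisor. -/
theorem push_dv {C : Cx V} {C' : Cx V'} {π : V → Option V'} {k : V} (hP : Push C C' π k)
    {w : Finset V → ℝ} (hw : Wt C w) {f : V → ℝ} {g : V' → ℝ} (hfg : Comp C π k f g) :
    push π k (dv C f w) = dv C' g (push π k w) := by
  funext ρ'
  obtain ⟨l0, hl0, hl0k, hl0u⟩ := hfg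
  set g' : V' → ℝ := fun v' => g v' - lin C' ρ' g v' with hg'
  -- left hand side
  have hL : ∀ ρ, Lf π k ρ ρ' → dv C f w (insert k ρ) =
      ∑ v ∈ (insert k ρ)ᶜ, w (insert v (insert k ρ)) * ext g' (π v) := by
    intro ρ hρ
    by_cases hF : C.F (insert k ρ)
    · have hF' : C'.F ρ' := by
        have := hP.face ρ hρ.1 hF (fun u hu h => by
          obtain ⟨v', h1, _⟩ := hρ.ex hu
          rw [h] at h1
          cases h1)
        rwa [hρ.2.1] at this
      obtain ⟨l1, hl1, hl1k, hl1u⟩ := hP.lift _ (lin_mem C' ρ' g)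
      have hdown : ∀ u ∈ ρ, u ≠ k → C.F (insert u {k}) := by
        intro u hu _
        refine C.down _ _ ?_ hF
        intro a ha
        rcases mem_insert.1 ha with rfl | ha
        · exact mem_insert_of_mem hu
        · rw [mem_singleton.1 ha]
          exact mem_insert_self _ _
      rw [dv_eq hw hF (l := l0 + l1) (C.L.add_mem hl0 hl1)]
      · refine sum_congr rfl fun v hv => ?_
        by_cases hFv : C.F (insert v (insert k ρ))
        · rw [mem_compl, mem_insert, not_or] at hv
          have hv2 : C.F (insert v {k}) := by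
            refine C.down _ _ ?_ hFv
            intro a ha
            rcases mem_insert.1 ha with rfl | ha
            · exact mem_insert_self _ _
            · rw [mem_singleton.1 ha]
              exact mem_insert_of_mem (mem_insert_self _ _)
          have e1 := hl0u v hv.1 hv2
          have e2 := hl1u v hv.1 hv2
          congr 1
          rw [Pi.add_apply, e2]
          have e3 : ext g' (π v) = ext g (π v) - ext (lin C' ρ' g) (π v) := by
            cases π v <;> simp [ext, hg']
          rw [e3, ← e1]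
          ring
        · rw [hw.supp _ hFv, zero_mul, zero_mul]
      · intro u huu
        rcases mem_insert.1 huu with huk | hu
        · rw [huk, Pi.add_apply, hl0k, hl1k, add_zero]
        · have huk : u ≠ k := by
            intro h
            rw [h] at hu
            exact hρ.1 hu
          have e1 := hl0u u huk (hdown u hu huk)
          have e2 := hl1u u huk (hdown u hu huk)
          obtain ⟨v', h1, _⟩ := hρ.ex hu
          rw [Pi.add_apply, e2, h1]
          rw [h1] at e1
          have e3 : ext (lin C' ρ' g) (some v') = g v' := lin_eq hF' g (hρ.mem hu h1)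
          rw [e3]
          have e4 : ext g (some v') = g v' := rfl
          rw [e4] at e1
          linarith
    · rw [dv_supp hw _ hF]
      symm
      refine sum_eq_zero fun v _ => ?_
      rw [hw.supp _ (not_face hF v), zero_mul]
  -- `g'` vanishes on `ρ'` when `ρ'` is a face
  have hg0 : ∀ ρ, Lf π k ρ ρ' → ∀ v, v ∉ ρ → v ≠ k → ∀ v', π v = some v' → v' ∈ ρ' →
      w (insert v (insert k ρ)) * g' v' = 0 := by
    intro ρ hρ v hv hvk v' hπ hv'
    by_cases hF' : C'.F ρ'
    · rw [hg']
      simp only
      rw [lin_eq hF' g hv', sub_self, mul_zero]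
    · have hF : ¬ C.F (insert k ρ) := by
        intro hF
        refine hF' ?_
        have := hP.face ρ hρ.1 hF (fun u hu h => by
          obtain ⟨v', h1, _⟩ := hρ.ex hu
          rw [h] at h1
          cases h1)
        rwa [hρ.2.1] at this
      rw [hw.supp _ (not_face hF v), zero_mul]
  have e1 : push π k (dv C f w) ρ' = ∑ ρ : Finset V, ∑ v : V,
      if Lf π k ρ ρ' ∧ v ∉ ρ ∧ v ≠ k ∧ ∃ v', π v = some v' ∧ v' ∉ ρ' then
        w (insert v (insert k ρ)) * ext g' (π v) else 0 := by
    unfold push
    rw [sum_filter]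
    refine sum_congr rfl fun ρ _ => ?_
    split_ifs with hρ
    · rw [hL ρ hρ, ← sum_subset (subset_univ (insert k ρ)ᶜ)]
      · refine sum_congr rfl fun v hv => ?_
        rw [mem_compl, mem_insert, not_or] at hv
        cases hπ : π v with
        | none => simp [ext]
        | some v' =>
          by_cases hv' : v' ∈ ρ'
          · rw [if_neg]
            · exact hg0 ρ hρ v hv.2 hv.1 v' hπ hv'
            · rintro ⟨_, _, _, v'', h1, h2⟩
              cases h1
              exact h2 hv'
          · rw [if_pos ⟨hρ, hv.2, hv.1, v', rfl, hv'⟩]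
      · intro v _ hv
        rw [mem_compl, not_not, mem_insert] at hv
        rw [if_neg]
        rintro ⟨_, h1, h2, _⟩
        rcases hv with h | h
        · exact h2 h
        · exact h1 h
    · symm
      refine sum_eq_zero fun v _ => ?_
      rw [if_neg]
      rintro ⟨h, _⟩
      exact hρ h
  have e2 : dv C' g (push π k w) ρ' = ∑ τ : Finset V, ∑ v : V,
      if v ∈ τ ∧ ∃ v', π v = some v' ∧ v' ∉ ρ' ∧ Lf π k τ (insert v' ρ') then
        w (insert k τ) * ext g' (π v) else 0 := by
    have e3 : dv C' g (push π k w) ρ' = ∑ v' ∈ ρ'ᶜ, ∑ τ : Finset V, ∑ v : V,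
        if v ∈ τ ∧ π v = some v' ∧ Lf π k τ (insert v' ρ') then w (insert k τ) * g' v' else 0 := by
      unfold dv push
      refine sum_congr rfl fun v' hv' => ?_
      rw [mem_compl] at hv'
      rw [sum_filter, sum_mul]
      refine sum_congr rfl fun τ _ => ?_
      split_ifs with hτ
      · obtain ⟨v, hv, hπ⟩ : ∃ v ∈ τ, π v = some v' := by
          apply mem_im.1
          rw [hτ.2.1]
          exact mem_insert_self _ _
        rw [sum_eq_single v]
        · rw [if_pos ⟨hv, hπ, hτ⟩]
        · intro u _ hu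
          rw [if_neg]
          rintro ⟨h1, h2, _⟩
          exact hu (hτ.inj h1 hv (by rw [h2, hπ]))
        · intro h
          exact absurd (mem_univ v) h
      · rw [zero_mul]
        symm
        refine sum_eq_zero fun v _ => ?_
        rw [if_neg]
        rintro ⟨_, _, h⟩
        exact hτ h
    rw [e3, sum_comm]
    refine sum_congr rfl fun τ _ => ?_
    rw [sum_comm]
    refine sum_congr rfl fun v _ => ?_
    cases hπ : π v with
    | none =>
      rw [if_neg (by
        rintro ⟨_, v', h1, _⟩
        cases h1)]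
      refine sum_eq_zero fun v' _ => ?_
      rw [if_neg]
      rintro ⟨_, h1, _⟩
      cases h1
    | some v₀ =>
      by_cases hv₀ : v₀ ∈ ρ'
      · rw [if_neg (by
          rintro ⟨_, v', h1, h2, _⟩
          cases h1
          exact h2 hv₀)]
        refine sum_eq_zero fun v' hv' => ?_
        rw [mem_compl] at hv'
        rw [if_neg]
        rintro ⟨_, h1, _⟩
        cases h1
        exact hv' hv₀
      · rw [sum_eq_single v₀]
        · by_cases h : v ∈ τ ∧ Lf π k τ (insert v₀ ρ')
          · rw [if_pos ⟨h.1, rfl, h.2⟩, if_pos ⟨h.1, v₀, rfl, hv₀, h.2⟩]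
            rfl
          · rw [if_neg (fun h1 => h ⟨h1.1, h1.2.2⟩), if_neg]
            rintro ⟨h1, v', h2, _, h3⟩
            cases h2
            exact h ⟨h1, h3⟩
        · intro v' _ hne
          rw [if_neg]
          rintro ⟨_, h1, _⟩
          cases h1
          exact hne rfl
        · intro h
          rw [mem_compl, not_not] at h
          exact absurd h hv₀
  rw [e1, e2, ← sum_product', ← sum_product']
  refine sum_bij_ne_zero (fun p _ _ => (insert p.2 p.1, p.2)) (fun _ _ _ => by simp) ?_ ?_ ?_
  · rintro ⟨ρ, v⟩ _ h1 ⟨ρ₂, v₂⟩ _ h2 heq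
    simp only at h1 h2 heq
    have c1 : v ∉ ρ := by
      by_contra h
      apply h1
      rw [if_neg]
      rintro ⟨_, h3, _⟩
      exact h3 h
    have c2 : v₂ ∉ ρ₂ := by
      by_contra h
      apply h2
      rw [if_neg]
      rintro ⟨_, h3, _⟩
      exact h3 h
    rw [Prod.mk.injEq] at heq
    obtain ⟨h3, h4⟩ := heq
    subst h4
    have := congrArg (fun s => s.erase v) h3
    simp only [erase_insert c1, erase_insert c2] at this
    rw [this]
  · rintro ⟨τ, v⟩ _ h1
    simp only at h1
    have hc : v ∈ τ ∧ ∃ v', π v = some v' ∧ v' ∉ ρ' ∧ Lf π k τ (insert v' ρ') := by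
      by_contra h
      exact h1 (if_neg h)
    obtain ⟨hv, v', hπ, hv', hτ⟩ := hc
    have e : insert v (τ.erase v) = τ := insert_erase hv
    have hL' : v ≠ k ∧ Lf π k (τ.erase v) ρ' := by
      rw [← Lf_insert (notMem_erase v τ) hv' hπ, e]
      exact hτ
    have hvk := hL'.1
    have e5 : insert v (insert k (τ.erase v)) = insert k τ := by
      rw [insert_comm, e]
    refine ⟨(τ.erase v, v), by simp, ?_, ?_⟩
    · rw [if_pos ⟨hL'.2, notMem_erase v τ, hvk, v', hπ, hv'⟩, e5]
      rw [if_pos ⟨hv, v', hπ, hv', hτ⟩] at h1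
      exact h1
    · simp only [e]
  · rintro ⟨ρ, v⟩ _ h1
    simp only at h1 ⊢
    have hc : Lf π k ρ ρ' ∧ v ∉ ρ ∧ v ≠ k ∧ ∃ v', π v = some v' ∧ v' ∉ ρ' := by
      by_contra h
      exact h1 (if_neg h)
    rw [if_pos hc]
    obtain ⟨hρ, hv, hvk, v', hπ, hv'⟩ := hc
    rw [if_pos ⟨mem_insert_self _ _, v', hπ, hv', (Lf_insert hv hv' hπ).2 ⟨hvk, hρ⟩⟩,
      insert_comm]

/-- **Push-forward formula** for iterated divisors. -/
theorem push_it {C : Cx V} {C' : Cx V'} {π : V → Option V'} {k : V} (hP : Push C C' π k)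
    {w : Finset V → ℝ} (hw : Wt C w) {A : List (V → ℝ)} {B : List (V' → ℝ)}
    (hAB : List.Forall₂ (Comp C π k) A B) :
    push π k (it C A w) = it C' B (push π k w) := by
  induction hAB with
  | nil => rfl
  | @cons f g A B h _ ih =>
    have e : push π k (it C (f :: A) w) = dv C' g (push π k (it C A w)) :=
      push_dv hP (it_wt hw A) h
    rw [e, ih]
    rfl

/-- the push-forward at the empty set -/
theorem push_empty (π : V → Option V') (k : V) (w : Finset V → ℝ) : push π k w ∅ = w {k} := by
  classical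
  unfold push
  rw [sum_eq_single ∅]
  · rfl
  · intro ρ hρ hne
    rw [mem_filter] at hρ
    exact absurd (card_eq_zero.1 (by rw [hρ.2.2.2, card_empty])) hne
  · intro h
    exact absurd (mem_filter.2 ⟨mem_univ _, by simp, im_empty π, rfl⟩) h

/-- **Numbers in the star of a vertex.** -/
theorem push_num {C : Cx V} {C' : Cx V'} {π : V → Option V'} {k : V} (hP : Push C C' π k)
    {w : Finset V → ℝ} (hw : Wt C w) {w' : Finset V' → ℝ} (hw' : push π k w = w')
    {A : List (V → ℝ)} {B : List (V' → ℝ)} (hAB : List.Forall₂ (Comp C π k) A B) :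
    it C A w {k} = it C' B w' ∅ := by
  rw [← push_empty π k (it C A w), push_it hP hw hAB, hw']

end Pool.Agent.QPR
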