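import Pool.Agent.QPR.St
import Pool.Agent.QPR.PF

/-!
# The intersection numbers: definitions and statements (helper97)

MP_9c4433_lc, part (1), blocks (E), NEF. The complex of states is `cx r al be hs` of `St.lean`
(helper86), the divisor calculus is `HRDiv.lean`, the push-forward and the vanishing criterion are
in `PF.lean`.
-/

set_option autoImplicit false

open Finset

namespace Pool.Agent.QPR

/-! ## Definitions -/

section defs

variable {α : Type} [Fintype α] [DecidableEq α]

/-- the class `c_e`: left states with `e ∈ F` -/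
noncomputable def cc (e : α) (s : Pt α) : ℝ := if s.S = false ∧ e ∈ s.F then 1 else 0

/-- the class `d_e`: right states with `e ∉ G` -/
noncomputable def dd (e : α) (s : Pt α) : ℝ := if s.T = true ∧ e ∉ s.G then 1 else 0

/-- middle states at which `e` is open -/
noncomputable def oo (e : α) (s : Pt α) : ℝ :=
  if s.S = true ∧ s.T = false ∧ e ∈ s.F ∧ e ∉ s.G then 1 else 0

/-- closure -/
def cl (r : Finset α → ℕ) (A : Finset α) : Finset α := univ.filter (fun f => r (insert f A) = r A)

/-- the union of the circuits in `A` -/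
def cyc (r : Finset α → ℕ) (A : Finset α) : Finset α := A.filter (fun f => r (A.erase f) = r A)

/-- the ground set without `e` -/
abbrev Del (e : α) : Type := {a : α // a ≠ e}

/-- subsets of the small ground set as subsets of the large one -/
def up {e : α} (A : Finset (Del e)) : Finset α := A.map (Function.Embedding.subtype _)

/-- forget `e` -/
def dn (e : α) (A : Finset α) : Finset (Del e) := A.subtype (fun a => a ≠ e)

/-- rank function of the contraction `M / e` -/
def rc (r : Finset α → ℕ) (e : α) (A : Finset (Del e)) : ℕ := r (insert e (up A)) - r {e}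

/-- rank function of the deletion `M \ e` -/
def rd (r : Finset α → ℕ) (e : α) (A : Finset (Del e)) : ℕ := r (up A)

/-- forget `e` in a point -/
def dnP (e : α) (s : Pt α) : Pt (Del e) := ⟨dn e s.F, dn e s.G, s.S, s.T⟩

open Classical in
/-- the projection of the states to the states of a matroid `r'` on the ground set without `e` -/
noncomputable def pj (e : α) (r' : Finset (Del e) → ℕ) (s : Pt α) : Option (Pt (Del e)) :=
  if dnP e s = bot r' ∨ dnP e s = top r' then none else some (dnP e s)

/-- the left vertex `cl {e}` -/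
def kc (r : Finset α → ℕ) (e : α) : Pt α := ⟨cl r {e}, ∅, false, false⟩

/-- the right vertex `cyc (E - e)` -/
def kd (r : Finset α → ℕ) (e : α) : Pt α := ⟨univ, cyc r (univ.erase e), true, true⟩

/-- canonical lift of a point of `M / e` -/
def lamc (r : Finset α → ℕ) (e : α) (s : Pt (Del e)) : Pt α :=
  ⟨insert e (up s.F), if r (insert e (up s.G)) = r (up s.G) then insert e (up s.G) else up s.G,
    s.S, s.T⟩

/-- canonical lift of a point of `M \ e` -/
def lamd (r : Finset α → ℕ) (e : α) (s : Pt (Del e)) : Pt α :=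
  ⟨if r (insert e (up s.F)) = r (up s.F) then insert e (up s.F) else up s.F, up s.G, s.S, s.T⟩

/-- the part of a point outside of `s.F - s.G` -/
def rel (s u : Pt α) : Finset α × Finset α × Bool × Bool :=
  (u.F.filter (fun a => ¬ (a ∈ s.F ∧ a ∉ s.G)), u.G.filter (fun a => ¬ (a ∈ s.F ∧ a ∉ s.G)),
    u.S, u.T)

end defs

/-! ## Small lemmas -/

section small

variable {α : Type} [Fintype α] [DecidableEq α] {r : Finset α → ℕ} {e : α}

theorem mem_cl {A : Finset α} {f : α} : f ∈ cl r A ↔ r (insert f A) = r A := by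
  unfold cl
  simp

theorem mem_cyc {A : Finset α} {f : α} : f ∈ cyc r A ↔ f ∈ A ∧ r (A.erase f) = r A := by
  unfold cyc
  simp

theorem mem_up {A : Finset (Del e)} {f : α} : f ∈ up A ↔ ∃ h : f ≠ e, (⟨f, h⟩ : Del e) ∈ A := by
  unfold up
  simp only [mem_map, Function.Embedding.subtype_apply]
  constructor
  · rintro ⟨⟨a, ha⟩, h1, rfl⟩
    exact ⟨ha, h1⟩
  · rintro ⟨h, h1⟩
    exact ⟨⟨f, h⟩, h1, rfl⟩

theorem mem_dn {A : Finset α} {f : Del e} : f ∈ dn e A ↔ f.1 ∈ A := by
  unfold dn
  simp

theorem notMem_up (A : Finset (Del e)) : e ∉ up A := by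
  rw [mem_up]
  rintro ⟨h, _⟩
  exact h rfl

theorem card_up (A : Finset (Del e)) : (up A).card = A.card := by
  unfold up
  exact card_map _

theorem up_dn (A : Finset α) : up (dn e A) = A.erase e := by
  ext f
  rw [mem_up, mem_erase]
  constructor
  · rintro ⟨h, h1⟩
    rw [mem_dn] at h1
    exact ⟨h, h1⟩
  · rintro ⟨h, h1⟩
    exact ⟨h, by rw [mem_dn]; exact h1⟩

theorem dn_up (A : Finset (Del e)) : dn e (up A) = A := by
  ext f
  rw [mem_dn, mem_up]
  constructor
  · rintro ⟨_, h⟩
    exact h
  · intro h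
    exact ⟨f.2, h⟩

theorem dn_insert (A : Finset α) : dn e (insert e A) = dn e A := by
  ext f
  rw [mem_dn, mem_dn, mem_insert]
  constructor
  · rintro (h | h)
    · exact absurd h f.2
    · exact h
  · exact Or.inr

theorem up_insert (f : Del e) (A : Finset (Del e)) : up (insert f A) = insert f.1 (up A) := by
  unfold up
  rw [map_insert]
  rfl

theorem up_erase (f : Del e) (A : Finset (Del e)) : up (A.erase f) = (up A).erase f.1 := by
  unfold up
  rw [map_erase]
  rfl

theorem up_union (A B : Finset (Del e)) : up (A ∪ B) = up A ∪ up B := by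
  unfold up
  rw [map_union]

theorem up_univ : up (univ : Finset (Del e)) = univ.erase e := by
  ext f
  rw [mem_up, mem_erase]
  constructor
  · rintro ⟨h, _⟩
    exact ⟨h, mem_univ _⟩
  · rintro ⟨h, _⟩
    exact ⟨h, mem_univ _⟩

theorem dn_univ : dn e (univ : Finset α) = univ := by
  ext f
  simp [mem_dn]

end small

/-! ## Statements

`hT` is the hypothesis `Top` (proved by helper86 as Stmt_TOP). Every face is contained in a face
with `n = |α|` elements, so a face has at most `n` elements (`hT.pure`, `card_le_card`); this is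
used again and again: a set with `n + 1` elements is not a face. -/

/-- MIN. Minors are rank functions; their Tutte polynomials (`TT` of `Tut.lean`). For `rc`: all
values are `r (insert e (up A)) - r {e}` with `r {e} ≤ r (insert e (up A))` (`mono_subset`), the
subtractions cancel; the sum over `R.powerset` is the sum over `(up R).powerset` by `up`
(injective, `mem_up`, `card_up`, `up_union`; a subset `B ⊆ up R` is `up (dn e B)`). -/
def Stmt_MIN : Prop := ∀ (α : Type) [Fintype α] [DecidableEq α] (r : Finset α → ℕ), IsRank r →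
  ∀ e : α, IsRank (rc r e) ∧ IsRank (rd r e) ∧ ∀ (x y : ℝ) (C R : Finset (Del e)),
    TT (rc r e) x y C R = TT r x y (insert e (up C)) (up R) ∧
    TT (rd r e) x y C R = TT r x y (up C) (up R)

/-- VL. Numbers at a left state which is not minimal. PROOF: `van` (PF.lean) with
`P ρ := s ∈ ρ ∧ ∀ u ∈ ρ, s ≤ u`, `n = card`. (h0) If `tw ρ ≠ 0` then `Fc r ρ`; `insert u' ρ` is a
chain, and a face, because `u'` is left (`u' < s`, so `u'.S = false`, every `i` is not open at
`u'`; if `ρ` is not empty the never open `i` of `ρ` works), it has `n + 1` elements; contradiction.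
(h) Let `f` be in the class, `ρ` a face with `P ρ`, `l1 ∈ L` with `l1 = f` on `ρ` (`hs`). LEMMA
(span induction on `l1 ∈ Lin r al be`): for all `l1 ∈ L` there are `l ∈ L` and `c : ℝ` with
`l s = 0`, `l v = 0` for all states `v < s`, and `l1 u = l u + c * (-1 + [u.S](1-al) + [u.T]al)`
for all `u ≥ s` (generators: `vv al i`, `i ∈ s.F`: `l = 0`, `c = 1`; `vv al i`, `i ∉ s.F`, and
`zz be i`: `l = l1`, `c = 0`; on a left state `G = ∅` because of `GS`, so `zz be i = 0`, and
`vv al i v = -[i ∈ v.F]`). At `s`: `f s = 0 = l1 s = 0 - c`, so `c = 0` and `l = l1 = f` on `ρ`.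
A vertex `v` with `insert v ρ` a face and not `P` is a state with `v < s`: `f v = 0 = l v`
(`cc e v = 0` since `e ∉ s.F ⊇ v.F`). -/
def Stmt_VL : Prop := ∀ (α : Type) [Fintype α] [DecidableEq α] (r : Finset α → ℕ) (al be : ℝ)
  (hs : Sep r al be), IsRank r → Win al be → Top (cx r al be hs) (Fintype.card α) (tw r al be) →
  ∀ s u' : Pt α, Sta r s → Sta r u' → u' < s → s.S = false → ∀ A : List (Pt α → ℝ),
    (∀ f ∈ A, f = Xi al be ∨ (∃ e, e ∉ s.F ∧ f = cc e) ∨ ∃ e, f = dd e) →
    A.length + 1 = Fintype.card α → it (cx r al be hs) A (tw r al be) {s} = 0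

/-- VR. Mirror image of VL. `P ρ := s ∈ ρ ∧ ∀ u ∈ ρ, u ≤ s`. LEMMA: for all `l1 ∈ L` there are
`l ∈ L`, `c` with `l s = 0`, `l v = 0` for all states `v > s` and
`l1 u = l u + c * (-[u.S] be - [u.T] (1-be))` for all `u ≤ s` (generators: `zz be i` with
`i ∉ s.G`: `l = 0`, `c = 1`; `zz be i` with `i ∈ s.G` and `vv al i`: `l = l1`, `c = 0`; for
`v ≥ s`: `v.S = v.T = true`, `v.F = univ`, so `vv al i v = 0`, `zz be i v = [i ∈ v.G] - 1`). -/
def Stmt_VR : Prop := ∀ (α : Type) [Fintype α] [DecidableEq α] (r : Finset α → ℕ) (al be : ℝ)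
  (hs : Sep r al be), IsRank r → Win al be → Top (cx r al be hs) (Fintype.card α) (tw r al be) →
  ∀ s u' : Pt α, Sta r s → Sta r u' → s < u' → s.T = true → ∀ A : List (Pt α → ℝ),
    (∀ f ∈ A, f = Xi al be ∨ (∃ e, e ∈ s.G ∧ f = dd e) ∨ ∃ e, f = cc e) →
    A.length + 1 = Fintype.card α → it (cx r al be hs) A (tw r al be) {s} = 0

/-- CNT. Counting. Let `G = s.G ⊆ F = s.F`, `K` = complement of `F - G`. For a point `u` comparable
with `s` put `hA u = r (u.F ∩ G) + (r (u.F ∪ F) - r F)`,
`hB u = ((u.G ∩ G).card - r (u.G ∩ G)) + ((u.G \ F).card + r F - r (u.G ∪ F))`,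
`H u = hA u + hB u + [u.S] + [u.T]`. For extended states `u ≤ v` comparable with `s`: `hA u ≤ hA v`,
`hB u ≤ hB v`; `u.F ∩ K ≠ v.F ∩ K` implies `hA u < hA v` (if `v ≤ s`: some `x ∈ v.F ∩ G`, `x ∉ u.F`,
`u.F` is a flat; if `s ≤ u`: `u.F ≠ v.F`; if `u ≤ s ≤ v` compare both with `s`), `u.G ∩ K ≠ v.G ∩ K`
implies `hB u < hB v` (nullity: a cyclic set loses nullity when an element is removed; the same in
`M / F`). `H (bot) = 0`, `H (top) ≤ 2 + G.card + Fᶜ.card` (`G ⊆ top.G`,
`r univ ≤ r (top.G ∪ F) + (top.G ∪ F)ᶜ.card`). So `H` is injective on `ρ ∪ {bot, top}`. Let `i` be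
never open on `ρ` (`i ∈ K` because `s ∈ ρ`); call `u` opened if `i ∈ u.F` and `u.S`, closed if
`i ∈ u.G` or `u.T` (for extended states closed implies opened, for `u ∈ ρ ∪ {bot, top}` also opened
implies closed). `u⁻` = an element of `ρ ∪ {bot, top}` with the largest `H` among those not opened.
Every `u` of `ρ ∪ {bot, top}` which is opened has `u⁻ ≤ u` and `H u ≥ H u⁻ + 2` (opened changes:
`F ∩ K` or `S` changes; closed changes: `G ∩ K` or `T` changes). So the value `H u⁻ + 1` is not
taken, `ρ.card ≤ H (top) - 2 ≤ G.card + Fᶜ.card < card α`. -/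
def Stmt_CNT : Prop := ∀ (α : Type) [Fintype α] [DecidableEq α] (r : Finset α → ℕ), IsRank r →
  ∀ (s : Pt α) (ρ : Finset (Pt α)), Fc r ρ → s ∈ ρ → s.S = true → s.T = false → s.F ≠ s.G →
    (∀ u ∈ ρ, rel s u ≠ rel s (bot r) ∧ rel s u ≠ rel s (top r)) →
    (∀ u ∈ ρ, ∀ v ∈ ρ, rel s u = rel s v → u = v) → ρ.card < Fintype.card α

/-- VM. Numbers at a middle state with `F ≠ G`. PROOF: `van` with
`P ρ := s ∈ ρ ∧ (∀ u ∈ ρ, rel s u ≠ rel s bot ∧ rel s u ≠ rel s top) ∧ (rel s injective on ρ)`.
(h0) is CNT. (h) `f = Xi`, `ρ` a face with `s ∈ ρ`; let `i` be never open on `ρ`. Not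
(`i ∈ s.F` and `i ∉ s.G`). Choose `l`: (A) if `i ∈ u.G` for all middle `u ∈ ρ`: `l = y • zz be i`,
`y = xi / (1 - be)`; (B) if `i ∉ u.F` for all middle `u ∈ ρ`: `l = x • vv al i`, `x = xi/(1 - al)`;
(C) otherwise `l = vv al i + zz be i`. Then `l = Xi` on `ρ` (left states are `≤` and right states
`≥` every middle state: use `s`, in (C) the middle states with `i ∉ F` resp. `i ∈ G`), `l ∈ L`
(`i` is not a loop if some flat does not contain it, not a coloop if some cyclic set contains it:
`IsRank.closure`). If `v ∉ ρ`, `insert v ρ` a face and not `P`, then `rel s v = rel s u` for some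
`u ∈ ρ` or `u = bot` or `u = top`: the truth values of `i ∈ F`, `i ∈ G`, `S`, `T` at `v` and `u` are
the same, so `Xi v - l v = Xi u - l u = 0` (for `bot`: `i` not a loop in (B), (C), `G = ∅`; for
`top`: `F = univ`, `i ∈ G` in (A), (C)). -/
def Stmt_VM : Prop := ∀ (α : Type) [Fintype α] [DecidableEq α] (r : Finset α → ℕ) (al be : ℝ)
  (hs : Sep r al be), IsRank r → Win al be → Top (cx r al be hs) (Fintype.card α) (tw r al be) →
  ∀ s : Pt α, Sta r s → s.S = true → s.T = false → s.F ≠ s.G →
    it (cx r al be hs) (List.replicate (Fintype.card α - 1) (Xi al be)) (tw r al be) {s} = 0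

/-- PCL, PCF. The star of `kc r e` (`e` not a loop) is mapped to the complex of `M / e`.
LIFT: span induction on `l'`: `vv al i'` (`i'` not a loop of `rc`) comes from `vv al i'.1`,
`zz be i'` from `zz be i'.1` (`i'` a coloop of `rc` iff `i'.1` a coloop of `r`). At `kc`: `vv al i = 0`
because `i ∉ cl {e}` iff `i` is not a loop of `rc`; `zz = 0`. If `{u, kc}` is a face and `u ≠ kc` then
`kc ≤ u` (a state below `kc` would have `F` between the loops and `cl {e}`), so `e ∈ u.F`, and the
values at `u` and `dnP e u` are the same; the generators vanish at `bot` and `top` of `rc`.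
FACE: for `u > kc` the point `dnP e u` is an extended state of `rc` (flat: `e ∈ u.F`; cyclic:
`IsRank.closure`), `dnP` is monotone. Never open `i` of `insert kc ρ`: if `i ≠ e` use it. If `i = e`:
if `ρ` has middle states take the smallest one `s0` (a chain is finite), `e ∈ s0.G`, and
`r (s0.G.erase e) = r s0.G ≥ 1`, so there is another `i ∈ s0.G`; it is never open. If `ρ` has no
middle state every element is never open, and there is an element `≠ e` (if `u ∈ ρ` is left,
`u.F` is larger than `cl {e}`; if `u` is right, `u ≠ top`, and `univ = {e}` would give `u = top`). -/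
def Stmt_PCP : Prop := ∀ (α : Type) [Fintype α] [DecidableEq α] (r : Finset α → ℕ) (al be : ℝ)
  (e : α) (hs : Sep r al be) (hs' : Sep (rc r e) al be), IsRank r → Win al be → ¬ Loo r e →
    Push (cx r al be hs) (cx (rc r e) al be hs') (pj e (rc r e)) (kc r e)

/-- PCU. Uniqueness of lifts for `M / e`: if `insert kc ρ` is a face with `n` elements and the
projection is injective on `ρ` with values in the states, then every `u ∈ ρ` is `lamc` of its
image. PROOF: `kc ≤ u`, so `e ∈ u.F`, `u.F = insert e (up (dn e u.F))`. If `e ∈ u.G`: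
`r (u.G.erase e) = r u.G`, canonical. If `e ∉ u.G` and `r (insert e u.G) ≠ r u.G`: canonical. Let
`u ∈ ρ` be LARGEST with `e ∉ u.G` and `r (insert e u.G) = r u.G`, `u1 = ⟨u.F, insert e u.G, u.S, u.T⟩`.
`u1` is a state: `u.G ≠ ∅` since `e` is not a loop, so `u.S = true`; `u1 = top r` would give
`dnP e u = top (rc r e)`, but `pj u ≠ none`. `insert u1 (insert kc ρ)` is a chain: if `u < t ∈ ρ` then
`r (insert e t.G) = r t.G` (closure), so `e ∈ t.G` by the choice of `u`. The never open `i` remains
never open. `u1 ∉ ρ` because `dnP e u1 = dnP e u`. So we have a face with `n + 1` elements;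
contradiction. -/
def Stmt_PCU : Prop := ∀ (α : Type) [Fintype α] [DecidableEq α] (r : Finset α → ℕ) (al be : ℝ)
  (e : α) (hs : Sep r al be), IsRank r → Win al be →
  Top (cx r al be hs) (Fintype.card α) (tw r al be) → ¬ Loo r e →
  ∀ (ρ : Finset (Pt α)) (ρ' : Finset (Pt (Del e))), Lf (pj e (rc r e)) (kc r e) ρ ρ' →
    Fc r (insert (kc r e) ρ) → ρ.card + 1 = Fintype.card α → ρ = ρ'.image (lamc r e)

/-- PCE. Existence of lifts for `M / e`: the canonical lift of a face is a face. `lamc s` is a state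
of `r` for a state `s` of `rc r e` (flat: `rc` differences are `r` differences; cyclic, case
`r (insert e (up G)) = r (up G)`: direct; case `≠`: `r (insert e X) ≤ r X + 1`; `e` is not a loop), it
is monotone (`IsRank.closure`), `kc ≤ lamc s` (elements of `cl {e}` other than `e` are loops of
`rc`, so in every flat), `dnP e (lamc s) = s`, never open elements remain never open (for `ρ' = ∅`
take `e`), `lamc s ≠ kc` (the image of `kc` is `bot`). -/
def Stmt_PCE : Prop := ∀ (α : Type) [Fintype α] [DecidableEq α] (r : Finset α → ℕ) (e : α),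
  IsRank r → ¬ Loo r e → ∀ ρ' : Finset (Pt (Del e)), Fc (rc r e) ρ' →
    Lf (pj e (rc r e)) (kc r e) (ρ'.image (lamc r e)) ρ' ∧
      Fc r (insert (kc r e) (ρ'.image (lamc r e)))

/-- PCK. The weights agree: `kop` and `kcl` of `insert kc (ρ'.image lamc)` and of `ρ'`. For `ρ' = ∅`
both are `1` and `0` (take `i = e`, the condition is empty at the left state `kc`). For `ρ' ≠ ∅`,
`Fc` gives an element of `Del e`. `kop`: `∃ i, ∀ s, s.S → i ∈ s.G ∨ s.T`; from `i'` take `i'.1`;
from `i ≠ e` take `i`; from `i = e`: if there is a middle state in `ρ'` take the smallest one, `s0`: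
`e ∈ (lamc s0).G`, so `r (insert e (up s0.G)) = r (up s0.G)`, `s0.G ≠ ∅` since `e` is not a loop, any
`i' ∈ s0.G` works; if there is no middle state every `i'` works. `kcl`: `∃ i, ∀ s, s.T = false →
i ∉ s.F ∨ s.S = false`: `e ∈ (lamc s).F`, so `i = e` means that there is no middle state. -/
def Stmt_PCK : Prop := ∀ (α : Type) [Fintype α] [DecidableEq α] (r : Finset α → ℕ) (al be : ℝ)
  (e : α), IsRank r → ¬ Loo r e → ∀ ρ' : Finset (Pt (Del e)), Fc (rc r e) ρ' →
    kop al (insert (kc r e) (ρ'.image (lamc r e))) = kop al ρ' ∧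
    kcl be (insert (kc r e) (ρ'.image (lamc r e))) = kcl be ρ'

/-- PDP. Mirror image of PCP for the deletion: `e` not a coloop, vertex `kd r e`, the states of the
star lie below `kd`, so `e ∉ u.G`. `cyc r (univ.erase e)` contains every cyclic set which does not
contain `e`; `dn e` of it is the union of all circuits of `rd`. -/
def Stmt_PDP : Prop := ∀ (α : Type) [Fintype α] [DecidableEq α] (r : Finset α → ℕ) (al be : ℝ)
  (e : α) (hs : Sep r al be) (hs' : Sep (rd r e) al be), IsRank r → Win al be → ¬ Clo r e →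
    Push (cx r al be hs) (cx (rd r e) al be hs') (pj e (rd r e)) (kd r e)

/-- PDU. Mirror image of PCU. Here a vertex `u ∈ ρ` is not canonical if `e ∈ u.F` and
`r (insert e (u.F.erase e)) ≠ r (u.F.erase e)` (`e` is a coloop of `u.F`); then `u.F.erase e` is a flat;
take the SMALLEST such `u` and `u1 = ⟨u.F.erase e, u.G, u.S, u.T⟩` (not right: `u.F ≠ univ` since `e` is
not a coloop; `u.G ⊆ u.F.erase e` since `e ∉ u.G`). -/
def Stmt_PDU : Prop := ∀ (α : Type) [Fintype α] [DecidableEq α] (r : Finset α → ℕ) (al be : ℝ)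
  (e : α) (hs : Sep r al be), IsRank r → Win al be →
  Top (cx r al be hs) (Fintype.card α) (tw r al be) → ¬ Clo r e →
  ∀ (ρ : Finset (Pt α)) (ρ' : Finset (Pt (Del e))), Lf (pj e (rd r e)) (kd r e) ρ ρ' →
    Fc r (insert (kd r e) ρ) → ρ.card + 1 = Fintype.card α → ρ = ρ'.image (lamd r e)

/-- PDE. Mirror image of PCE. -/
def Stmt_PDE : Prop := ∀ (α : Type) [Fintype α] [DecidableEq α] (r : Finset α → ℕ) (e : α),
  IsRank r → ¬ Clo r e → ∀ ρ' : Finset (Pt (Del e)), Fc (rd r e) ρ' →
    Lf (pj e (rd r e)) (kd r e) (ρ'.image (lamd r e)) ρ' ∧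
      Fc r (insert (kd r e) (ρ'.image (lamd r e)))

/-- PDK. Mirror image of PCK. `kcl` is the condition with the case `i = e` (largest middle state
`s0`, `e ∉ (lamd s0).F`, so `(lamd s0).F ≠ univ`; the complement of `s0.F` is not empty: otherwise
`up s0.F = univ.erase e` and `e` would be a coloop); in `kop` with `i = e` there is no middle state. -/
def Stmt_PDK : Prop := ∀ (α : Type) [Fintype α] [DecidableEq α] (r : Finset α → ℕ) (al be : ℝ)
  (e : α), IsRank r → ¬ Clo r e → ∀ ρ' : Finset (Pt (Del e)), Fc (rd r e) ρ' →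
    kop al (insert (kd r e) (ρ'.image (lamd r e))) = kop al ρ' ∧
    kcl be (insert (kd r e) (ρ'.image (lamd r e))) = kcl be ρ'

/-- COM. Compatible pairs of functions (`Comp` of PF.lean, `l = 0` in all cases): `Xi` with `Xi`;
`cc f` with `cc ⟨f, _⟩` if `f ∉ cl {e}` (resp. `f ≠ e` and `f` not a loop, for the deletion),
`dd f` with `dd ⟨f, _⟩` if `f ≠ e` is not a coloop (resp. `f ∈ cyc (E - e)`). If `{u, kc}` is a face
and `u ≠ kc` then `kc ≤ u`; `dnP` does not change `S`, `T` and the membership of `f ≠ e`; the functions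
vanish at `kc` and at `bot`, `top` of `rc`. -/
def Stmt_COM : Prop := ∀ (α : Type) [Fintype α] [DecidableEq α] (r : Finset α → ℕ) (al be : ℝ)
  (e : α) (hs : Sep r al be), IsRank r → Win al be →
  (¬ Loo r e → (Comp (cx r al be hs) (pj e (rc r e)) (kc r e) (Xi al be) (Xi al be)) ∧
    (∀ f : Del e, f.1 ∉ cl r {e} →
      Comp (cx r al be hs) (pj e (rc r e)) (kc r e) (cc f.1) (cc f)) ∧
    ∀ f : Del e, ¬ Clo r f.1 → Comp (cx r al be hs) (pj e (rc r e)) (kc r e) (dd f.1) (dd f)) ∧
  (¬ Clo r e → (Comp (cx r al be hs) (pj e (rd r e)) (kd r e) (Xi al be) (Xi al be)) ∧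
    (∀ f : Del e, f.1 ∈ cyc r (univ.erase e) →
      Comp (cx r al be hs) (pj e (rd r e)) (kd r e) (dd f.1) (dd f)) ∧
    ∀ f : Del e, ¬ Loo r f.1 → Comp (cx r al be hs) (pj e (rd r e)) (kd r e) (cc f.1) (cc f))

end Pool.Agent.QPR
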