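import Pool.Agent.QPR.Alg
import Pool.Agent.TutteEq.Arith2
import Pool.Agent.TutteEq.Gsn

/-!
# Polynomial time: lists, blocks, numbers
-/

set_option autoImplicit false

namespace Pool.Agent.QPR

open Pool.Agent.PT Pool.Agent.TutteHard Pool.Agent.TutteEq

section general

variable {δ ε α β : Type} [N487b59b3 δ] [N487b59b3 ε] [N487b59b3 α] [N487b59b3 β]

theorem enc_tail_le (l : List α) : (enc l.tail).length ≤ (enc l).length := by
  cases l with
  | nil => exact le_refl _
  | cons a l =>
    rw [List.tail_cons, length_enc_cons]
    omega

theorem pt_drop {f : δ → List α} {n : δ → U} (hf : PT f) (hn : PT n) :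
    PT (fun d => (f d).drop (n d).val) := by
  refine (PT.iter (g := fun p : Bool × List α => p.2.tail) (e := fun _ => true) (s := f) (n := n)
    (PT.tail.comp PT.snd) 0 ?_ (PT.const true) hf hn).congr fun d => ?_
  · intro e s
    have := enc_tail_le s
    simpa using this
  · generalize (n d).val = m
    generalize f d = l
    induction m generalizing l with
    | zero => rfl
    | succ m ih =>
      rw [Function.iterate_succ_apply]
      exact (ih l.tail).trans (by cases l <;> simp)

/-- the value of a unary number, in binary -/
theorem pt_uval {f : δ → U} (hf : PT f) : PT (fun d => (f d).val) :=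
  (gsn_uval arith (arith2 arith)).comp hf

theorem pt_nadd {f g : δ → ℕ} (hf : PT f) (hg : PT g) : PT (fun d => f d + g d) :=
  (arith δ f g hf hg).1

theorem pt_nmul {f g : δ → ℕ} (hf : PT f) (hg : PT g) : PT (fun d => f d * g d) :=
  (arith δ f g hf hg).2.2.1

theorem pt_ndiv {f g : δ → ℕ} (hf : PT f) (hg : PT g) : PT (fun d => f d / g d) :=
  (arith δ f g hf hg).2.2.2.1

theorem pt_nle {f g : δ → ℕ} (hf : PT f) (hg : PT g) : PT (fun d => decide (f d ≤ g d)) :=
  (arith δ f g hf hg).2.2.2.2

theorem pt_nlt {f g : δ → ℕ} (hf : PT f) (hg : PT g) : PT (fun d => decide (f d < g d)) :=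
  (PT.not (pt_nle hg hf)).congr fun d => by
    by_cases h : f d < g d
    · simp [h]
    · simp [h, not_lt.1 h]

theorem pt_npow {f : δ → ℕ} {e : δ → U} (hf : PT f) (he : PT e) :
    PT (fun d => f d ^ (e d).val) := (arith2 arith).2.1 δ f e hf he

theorem length_enc_nat (n : ℕ) : (enc n).length = Nat.size n := (arith2 arith).1 n

/-- the number of binary digits, in unary -/
theorem pt_size {f : δ → ℕ} (hf : PT f) : PT (fun d => U.mk (Nat.size (f d))) :=
  (PT.encLen.comp hf).congr fun d => by rw [length_enc_nat]

/-- a number cut at a unary bound, in unary -/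
theorem pt_cap {f : δ → ℕ} {g : δ → U} (hf : PT f) (hg : PT g) :
    PT (fun d => U.mk (min (f d) (g d).val)) := by
  have hstep : PT (fun p : ℕ × U => if decide (p.2.val + 1 ≤ p.1) = true then
      U.mk (p.2.val + 1) else p.2) := by
    refine PT.ite ?_ PT.snd.usucc PT.snd
    exact pt_nle ((pt_uval PT.snd.usucc).congr fun p => rfl) PT.fst
  refine (PT.iter (g := fun p : ℕ × U => if decide (p.2.val + 1 ≤ p.1) = true then
      U.mk (p.2.val + 1) else p.2) (e := f) (s := fun _ => U.mk 0) (n := g)
    hstep 1 ?_ hf (PT.const _) hg).congr fun d => ?_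
  · intro e s
    simp only
    split_ifs
    · rw [length_enc_U, length_enc_U, Polynomial.eval_one]
    · omega
  · generalize (g d).val = m
    generalize f d = n
    have key : ∀ m : ℕ, (fun s : U => if decide (s.val + 1 ≤ n) = true then
        U.mk (s.val + 1) else s)^[m] (U.mk 0) = U.mk (min n m) := by
      intro m
      induction m with
      | zero => simp
      | succ m ih =>
        rw [Function.iterate_succ_apply', ih]
        simp only [decide_eq_true_eq]
        by_cases h : min n m + 1 ≤ n
        · rw [if_pos h]
          congr 1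
          omega
        · rw [if_neg h]
          congr 1
          omega
    exact key m

/-- the list of the numbers below a unary number -/
theorem pt_idx {n : δ → U} (hn : PT n) : PT (fun d => (List.range (n d).val).map U.mk) := by
  have hstep : PT (fun p : U × List U => U.mk (min (p.2.length) p.1.val) :: p.2) := by
    refine PT.cons ?_ PT.snd
    have h1 : PT (fun p : U × List U => U.mk p.2.length) := PT.length PT.snd
    exact (pt_cap (pt_uval h1) PT.fst).congr fun p => rfl
  refine (PT.reverse.comp (PT.iter (g := fun p : U × List U =>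
      U.mk (min (p.2.length) p.1.val) :: p.2) (e := n) (s := fun _ => ([] : List U)) (n := n)
    hstep (2 * Polynomial.X + 1) ?_ hn (PT.const _) hn)).congr fun d => ?_
  · intro e s
    rw [length_enc_cons, length_enc_U, length_enc_U]
    simp only [Polynomial.eval_add, Polynomial.eval_mul, Polynomial.eval_X, Polynomial.eval_ofNat,
      Polynomial.eval_one]
    have := min_le_right s.length e.val
    omega
  · generalize hN : (n d).val = N
    have hnd : n d = U.mk N := by rw [← hN]
    rw [hnd]
    have key : ∀ m : ℕ, m ≤ N → ((fun s : List U => U.mk (min s.length (U.mk N).val) :: s)^[m]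
        []).reverse = (List.range m).map U.mk ∧
        ((fun s : List U => U.mk (min s.length (U.mk N).val) :: s)^[m] []).length = m := by
      intro m
      induction m with
      | zero => intro _; simp
      | succ m ih =>
        intro hm
        obtain ⟨h1, h2⟩ := ih (by omega)
        rw [Function.iterate_succ_apply']
        constructor
        · rw [List.reverse_cons, h1, h2, List.range_succ, List.map_append]
          simp only [List.map_cons, List.map_nil]
          rw [min_eq_left (by omega)]
        · rw [List.length_cons, h2]
    exact (key N (le_refl _)).1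

theorem chunk_eq (b : ℕ) (t : ℕ) (r : List Bool) :
    chunk b t r = (List.range t).map fun i => (r.drop (i * b)).take b := by
  induction t generalizing r with
  | zero => rfl
  | succ t ih =>
    rw [chunk, ih, List.range_succ_eq_map, List.map_cons, List.map_map]
    congr 1
    · simp
    · apply List.map_congr_left
      intro i _
      simp only [Function.comp_apply, List.drop_drop]
      congr 2
      rw [Nat.succ_mul]
      omega

theorem pt_chunk {b t : δ → U} {r : δ → List Bool} (hb : PT b) (ht : PT t) (hr : PT r) :
    PT (fun d => chunk (b d).val (t d).val (r d)) := by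
  have h := PT.map (δ := δ) (ε := U × List Bool) (α := U) (β := List Bool)
    (g := fun p => (p.1.2.drop (p.2.val * p.1.1.val)).take p.1.1.val)
    (e := fun d => (b d, r d)) (l := fun d => (List.range (t d).val).map U.mk)
    (PT.take (pt_drop PT.fst.comp_snd (PT.snd.umul PT.fst.comp_fst)) PT.fst.comp_fst)
    (hb.pair hr) (pt_idx ht)
  refine h.congr fun d => ?_
  rw [chunk_eq, List.map_map]
  rfl

/-- counting with an environment -/
theorem pt_countP {p : ε × α → Bool} {e : δ → ε} {l : δ → List α} (hp : PT p) (he : PT e)
    (hl : PT l) : PT (fun d => (l d).countP (fun a => p (e d, a))) := by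
  have hstep : PT (fun q : ε × ℕ × α => if p (q.1, q.2.2) then q.2.1 + 1 else q.2.1) :=
    PT.ite (hp.comp (PT.fst.pair PT.snd.comp_snd)) (pt_nadd PT.snd.comp_fst (PT.const 1))
      PT.snd.comp_fst
  refine (PT.fold (g := fun q : ε × ℕ × α => if p (q.1, q.2.2) then q.2.1 + 1 else q.2.1)
    (e := e) (s := fun _ => 0) (l := l) hstep 1 ?_ he (PT.const 0) hl).congr fun d => ?_
  · intro e s a
    rw [Polynomial.eval_one]
    simp only
    split_ifs
    · rw [length_enc_nat, length_enc_nat]
      exact gsn_size_succ s
    · omega
  · generalize l d = L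
    have key : ∀ (L : List α) (s : ℕ), L.foldl (fun s a => if p (e d, a) then s + 1 else s) s =
        s + L.countP (fun a => p (e d, a)) := by
      intro L
      induction L with
      | nil => intro s; rfl
      | cons a L ih =>
        intro s
        rw [List.foldl_cons, ih, List.countP_cons]
        split_ifs <;> omega
    simpa using key L 0

end general

/-! ### labelled edges -/

section edges

variable {δ : Type} [N487b59b3 δ]

instance : Inhabited LE := ⟨([], ([], []))⟩

theorem pt_eqLE {f g : δ → LE} (hf : PT f) (hg : PT g) : PT (fun d => decide (f d = g d)) := by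
  have h := PT.and (rank_PT_eq hf.comp_fst hg.comp_fst)
    (PT.and (rank_PT_eq hf.comp_snd.comp_fst hg.comp_snd.comp_fst)
      (rank_PT_eq hf.comp_snd.comp_snd hg.comp_snd.comp_snd))
  refine h.congr fun d => ?_
  rw [Bool.eq_iff_iff]
  simp only [Bool.and_eq_true, decide_eq_true_eq]
  rw [Prod.ext_iff, Prod.ext_iff]

theorem pt_lrk {f : δ → List LE} (hf : PT f) : PT (fun d => U.mk (lrk (f d))) := by
  have h1 : PT (fun d => (f d).map Prod.snd) := by
    have := PT.map (δ := δ) (ε := Bool) (α := LE) (β := Vx × Vx) (g := fun p => p.2.2)
      (e := fun _ => true) (l := f) PT.snd.comp_snd (PT.const true) hf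
    exact this
  exact (rank_PT_rk h1).congr fun d => rfl

theorem pt_lrk_eq {f g : δ → List LE} (hf : PT f) (hg : PT g) :
    PT (fun d => decide (lrk (f d) = lrk (g d))) := by
  have h := PT.and ((pt_lrk hf).ule (pt_lrk hg)) ((pt_lrk hg).ule (pt_lrk hf))
  refine h.congr fun d => ?_
  rw [Bool.eq_iff_iff]
  simp only [Bool.and_eq_true, decide_eq_true_eq]
  omega

theorem pt_lrk_lt {f g : δ → List LE} (hf : PT f) (hg : PT g) :
    PT (fun d => decide (lrk (f d) < lrk (g d))) := by
  have h := PT.not ((pt_lrk hg).ule (pt_lrk hf))
  refine h.congr fun d => ?_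
  rw [Bool.eq_iff_iff]
  simp only [Bool.not_eq_true', decide_eq_false_iff_not, decide_eq_true_eq]
  omega

end edges

end Pool.Agent.QPR
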