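import Pool.Agent.QPR.PTa

/-!
# Polynomial time: weights, starting history, moves, one step of the chain
-/

set_option autoImplicit false

namespace Pool.Agent.QPR

open Pool.Agent.PT Pool.Agent.TutteHard Pool.Agent.TutteEq

variable {δ : Type} [N487b59b3 δ]

/-! ### the weight -/

/-- loop of `C`: the element `e` does not increase the rank -/
def isLp (C : List LE) (e : LE) : Bool := decide (lrk (e :: C) = lrk C)

/-- coloop: `e` increases the rank of `C` and `T` -/
def isCl (C T : List LE) (e : LE) : Bool := decide (lrk (C ++ T) < lrk (e :: (C ++ T)))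

theorem pt_isLp {C : δ → List LE} {e : δ → LE} (hC : PT C) (he : PT e) :
    PT (fun d => isLp (C d) (e d)) := pt_lrk_eq (PT.cons he hC) hC

theorem pt_isCl {C T : δ → List LE} {e : δ → LE} (hC : PT C) (hT : PT T) (he : PT e) :
    PT (fun d => isCl (C d) (T d) (e d)) :=
  pt_lrk_lt (PT.append hC hT) (PT.cons he (PT.append hC hT))

theorem pt_els {f : δ → List (LE × Bool)} (hf : PT f) : PT (fun d => (f d).map Prod.fst) := by
  have := PT.map (δ := δ) (ε := Bool) (α := LE × Bool) (β := LE) (g := fun p => p.2.1)
    (e := fun _ => true) (l := f) PT.snd.comp_fst (PT.const true) hf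
  exact this

/-- one step of the computation of the weight: state `((C, suffix), w)` -/
def wlStep (lx ly lz : ℕ) (p : Bool × ((List LE × List (LE × Bool)) × ℕ) × (LE × Bool)) :
    (List LE × List (LE × Bool)) × ℕ :=
  ((if isLp p.2.1.1.1 p.2.2.1 then p.2.1.1.1
    else if p.2.2.2 then p.2.2.1 :: p.2.1.1.1 else p.2.1.1.1, p.2.1.1.2.tail),
    if isLp p.2.1.1.1 p.2.2.1 then (if p.2.2.2 then 0 else p.2.1.2 * ly)
    else if isCl p.2.1.1.1 (p.2.1.1.2.tail.map Prod.fst) p.2.2.1 then
      (if p.2.2.2 then p.2.1.2 * lx else 0)
    else p.2.1.2 * lz)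

theorem pt_wlStep (lx ly lz : ℕ) : PT (wlStep lx ly lz) := by
  have hC : PT (fun p : Bool × ((List LE × List (LE × Bool)) × ℕ) × (LE × Bool) =>
      p.2.1.1.1) := PT.snd.comp_fst.comp_fst.comp_fst
  have hS : PT (fun p : Bool × ((List LE × List (LE × Bool)) × ℕ) × (LE × Bool) =>
      p.2.1.1.2.tail) := PT.tail.comp PT.snd.comp_fst.comp_fst.comp_snd
  have hw : PT (fun p : Bool × ((List LE × List (LE × Bool)) × ℕ) × (LE × Bool) =>
      p.2.1.2) := PT.snd.comp_fst.comp_snd
  have he : PT (fun p : Bool × ((List LE × List (LE × Bool)) × ℕ) × (LE × Bool) =>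
      p.2.2.1) := PT.snd.comp_snd.comp_fst
  have ho : PT (fun p : Bool × ((List LE × List (LE × Bool)) × ℕ) × (LE × Bool) =>
      p.2.2.2) := PT.snd.comp_snd.comp_snd
  exact ((PT.ite (pt_isLp hC he) hC (PT.ite ho (PT.cons he hC) hC)).pair hS).pair
    (PT.ite (pt_isLp hC he) (PT.ite ho (PT.const 0) (pt_nmul hw (PT.const ly)))
      (PT.ite (pt_isCl hC (pt_els hS) he) (PT.ite ho (pt_nmul hw (PT.const lx)) (PT.const 0))
        (pt_nmul hw (PT.const lz))))

theorem size_mul_le (a b : ℕ) : Nat.size (a * b) ≤ Nat.size a + Nat.size b := by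
  rw [Nat.size_le, pow_add]
  exact Nat.mul_lt_mul'' (Nat.lt_size_self a) (Nat.lt_size_self b)

theorem wl_cons (lx ly lz : ℕ) (C : List LE) (e : LE) (o : Bool) (h : List (LE × Bool)) :
    wl lx ly lz C ((e, o) :: h) =
      if lrk (e :: C) = lrk C then (if o then 0 else ly * wl lx ly lz C h)
      else if lrk (C ++ h.map Prod.fst) < lrk (e :: (C ++ h.map Prod.fst)) then
        (if o then lx * wl lx ly lz (e :: C) h else 0)
      else lz * (if o then wl lx ly lz (e :: C) h else wl lx ly lz C h) := rfl

theorem startL_cons (C : List LE) (e : LE) (L : List LE) :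
    startL C (e :: L) = if lrk (e :: C) = lrk C then (e, false) :: startL C L
      else (e, true) :: startL (e :: C) L := rfl

theorem wl_fold (lx ly lz : ℕ) (h : List (LE × Bool)) : ∀ (C : List LE) (w : ℕ),
    (h.foldl (fun s a => wlStep lx ly lz (true, s, a)) ((C, h), w)).2 = w * wl lx ly lz C h := by
  induction h with
  | nil => intro C w; simp [wl]
  | cons p h ih =>
    intro C w
    obtain ⟨e, o⟩ := p
    rw [List.foldl_cons]
    have hst : wlStep lx ly lz (true, ((C, (e, o) :: h), w), (e, o)) =
        ((if isLp C e then C else if o then e :: C else C, h),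
          if isLp C e then (if o then 0 else w * ly)
          else if isCl C (h.map Prod.fst) e then (if o then w * lx else 0) else w * lz) := rfl
    rw [hst, ih, wl_cons]
    by_cases h1 : isLp C e = true
    · have h1' : lrk (e :: C) = lrk C := of_decide_eq_true h1
      simp only [h1, h1', if_true]
      cases o
      · simp only [Bool.false_eq_true, if_false]; ring
      · simp
    · have h1' : ¬ lrk (e :: C) = lrk C := fun h => h1 (decide_eq_true h)
      by_cases h2 : isCl C (h.map Prod.fst) e = true
      · have h2' : lrk (C ++ h.map Prod.fst) < lrk (e :: (C ++ h.map Prod.fst)) :=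
          of_decide_eq_true h2
        simp only [h1, h1', h2, h2', if_true, if_false, Bool.false_eq_true]
        cases o
        · simp
        · simp only [if_true]; ring
      · have h2' : ¬ lrk (C ++ h.map Prod.fst) < lrk (e :: (C ++ h.map Prod.fst)) :=
          fun h => h2 (decide_eq_true h)
        simp only [h1, h1', h2, h2', if_false, Bool.false_eq_true]
        cases o
        · simp only [Bool.false_eq_true, if_false]; ring
        · simp only [if_true]; ring

theorem pt_wl (lx ly lz : ℕ) {C : δ → List LE} {h : δ → List (LE × Bool)} (hC : PT C)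
    (hh : PT h) : PT (fun d => wl lx ly lz (C d) (h d)) := by
  have hf := PT.fold (δ := δ) (ε := Bool) (σ := (List LE × List (LE × Bool)) × ℕ)
    (α := LE × Bool) (g := wlStep lx ly lz) (e := fun _ => true)
    (s := fun d => ((C d, h d), 1)) (l := h) (pt_wlStep lx ly lz)
    (8 * Polynomial.X + (8 + Polynomial.C (Nat.size lx + Nat.size ly + Nat.size lz))) (by
      intro b s a
      obtain ⟨⟨C, S⟩, w⟩ := s
      obtain ⟨e, o⟩ := a
      simp only [wlStep]
      have h1 := enc_tail_le S
      have h2 : (enc (if isLp C e then C else if o then e :: C else C)).length ≤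
          (enc C).length + (2 * (enc e).length + 1) := by
        split_ifs
        · omega
        · rw [length_enc_cons]; omega
        · omega
      have h3 : (enc (if isLp C e then (if o then 0 else w * ly)
          else if isCl C (S.tail.map Prod.fst) e then (if o then w * lx else 0)
          else w * lz : ℕ)).length ≤ (enc w).length + (Nat.size lx + Nat.size ly + Nat.size lz) := by
        have ha := size_mul_le w lx
        have hb := size_mul_le w ly
        have hc := size_mul_le w lz
        have hz : Nat.size 0 = 0 := Nat.size_zero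
        split_ifs <;> simp only [length_enc_nat] <;> omega
      rw [length_enc_pair, length_enc_pair, length_enc_pair, length_enc_pair, length_enc_pair,
        enc_bool]
      simp only [Polynomial.eval_add, Polynomial.eval_mul, Polynomial.eval_X,
        Polynomial.eval_ofNat, Polynomial.eval_C, List.length_singleton]
      omega) (PT.const true) ((hC.pair hh).pair (PT.const 1)) hh
  refine hf.comp_snd.congr fun d => ?_
  rw [wl_fold, one_mul]

/-! ### the starting history -/

/-- one step of the computation of the starting history: state `(C, reversed history)` -/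
def startStep (p : Bool × (List LE × List (LE × Bool)) × LE) : List LE × List (LE × Bool) :=
  (if isLp p.2.1.1 p.2.2 then p.2.1.1 else p.2.2 :: p.2.1.1,
    (p.2.2, !isLp p.2.1.1 p.2.2) :: p.2.1.2)

theorem pt_startStep : PT startStep := by
  have hC : PT (fun p : Bool × (List LE × List (LE × Bool)) × LE => p.2.1.1) :=
    PT.snd.comp_fst.comp_fst
  have hS : PT (fun p : Bool × (List LE × List (LE × Bool)) × LE => p.2.1.2) :=
    PT.snd.comp_fst.comp_snd
  have he : PT (fun p : Bool × (List LE × List (LE × Bool)) × LE => p.2.2) := PT.snd.comp_snd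
  exact (PT.ite (pt_isLp hC he) hC (PT.cons he hC)).pair
    (PT.cons (he.pair (PT.not (pt_isLp hC he))) hS)

theorem start_fold (L : List LE) : ∀ (C : List LE) (S : List (LE × Bool)),
    (L.foldl (fun s a => startStep (true, s, a)) (C, S)).2 = (startL C L).reverse ++ S := by
  induction L with
  | nil => intro C S; rfl
  | cons e L ih =>
    intro C S
    rw [List.foldl_cons]
    have hst : startStep (true, (C, S), e) =
        (if isLp C e then C else e :: C, (e, !isLp C e) :: S) := rfl
    rw [hst, ih, startL_cons]
    by_cases h1 : isLp C e = true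
    · have h1' : lrk (e :: C) = lrk C := of_decide_eq_true h1
      simp only [h1, h1', if_true, Bool.not_true, List.reverse_cons, List.append_assoc,
        List.singleton_append]
    · have h1' : ¬ lrk (e :: C) = lrk C := fun h => h1 (decide_eq_true h)
      have h1'' : isLp C e = false := by simpa using h1
      simp only [h1'', h1', if_false, Bool.false_eq_true, Bool.not_false, List.reverse_cons,
        List.append_assoc, List.singleton_append]

theorem pt_startL {C L : δ → List LE} (hC : PT C) (hL : PT L) :
    PT (fun d => startL (C d) (L d)) := by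
  have hf := PT.fold (δ := δ) (ε := Bool) (σ := List LE × List (LE × Bool))
    (α := LE) (g := startStep) (e := fun _ => true)
    (s := fun d => (C d, [])) (l := L) pt_startStep (8 * Polynomial.X + 10) (by
      intro b s a
      obtain ⟨C, S⟩ := s
      simp only [startStep]
      have h2 : (enc (if isLp C a then C else a :: C)).length ≤
          (enc C).length + (2 * (enc a).length + 1) := by
        split_ifs
        · omega
        · rw [length_enc_cons]; omega
      rw [length_enc_pair, length_enc_pair, length_enc_cons, length_enc_pair, enc_bool, enc_bool]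
      simp only [Polynomial.eval_add, Polynomial.eval_mul, Polynomial.eval_X,
        Polynomial.eval_ofNat, List.length_singleton]
      omega) (PT.const true) (hC.pair (PT.const [])) hL
  refine (PT.reverse.comp hf.comp_snd).congr fun d => ?_
  rw [start_fold, List.append_nil, List.reverse_reverse]

/-! ### the moves -/

theorem actN_split {α : Type} (k : Bool × Bool) (i : ℕ) (h : List (α × Bool)) :
    actN k i h = match h.drop i with
      | p :: q :: t => h.take i ++ (ex2 k p q).1 :: (ex2 k p q).2 :: t
      | _ => h := by
  induction i generalizing h with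
  | zero =>
    cases h with
    | nil => rfl
    | cons p h =>
      cases h with
      | nil => rfl
      | cons q h => rfl
  | succ i ih =>
    cases h with
    | nil => rfl
    | cons p h =>
      rw [actN_succ, ih]
      simp only [List.drop_succ_cons, List.take_succ_cons]
      rcases h.drop i with _ | ⟨a, _ | ⟨b, t⟩⟩ <;> rfl

theorem actN_min (k : Bool × Bool) (i : ℕ) (h : List (LE × Bool)) :
    actN k (min i h.length) h = actN k i h := by
  rcases le_total i h.length with h1 | h1
  · rw [min_eq_left h1]
  · rw [min_eq_right h1, actN_ge k i h (by omega), actN_ge k h.length h (by omega)]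

theorem pt_ex2 {k : δ → Bool × Bool} {p q : δ → LE × Bool} (hk : PT k) (hp : PT p) (hq : PT q) :
    PT (fun d => ex2 (k d) (p d) (q d)) := by
  have h := PT.ite hk.comp_fst
    (PT.ite hk.comp_snd (hq.pair hp)
      ((hq.comp_fst.pair hp.comp_snd).pair (hp.comp_fst.pair hq.comp_snd)))
    (PT.ite hk.comp_snd ((hp.comp_fst.pair hq.comp_snd).pair (hq.comp_fst.pair hp.comp_snd))
      (hp.pair hq))
  refine h.congr fun d => ?_
  rcases hkd : k d with ⟨a, b⟩
  cases a <;> cases b <;> rfl

/-- default entry -/
def dE : LE × Bool := (default, true)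

theorem pt_actN {k : δ → Bool × Bool} {i : δ → ℕ} {h : δ → List (LE × Bool)} (hk : PT k)
    (hi : PT i) (hh : PT h) : PT (fun d => actN (k d) (i d) (h d)) := by
  have hj : PT (fun d => U.mk (min (i d) (h d).length)) :=
    (pt_cap hi (PT.length hh)).congr fun d => rfl
  have hd := pt_drop hh hj
  have ht := PT.take hh hj (δ := δ) (α := LE × Bool)
  have hp : PT (fun d => ((h d).drop (U.mk (min (i d) (h d).length)).val).headD dE) :=
    PT.headD.comp ((PT.const dE).pair hd)
  have hd' := PT.tail.comp hd
  have hq : PT (fun d => ((h d).drop (U.mk (min (i d) (h d).length)).val).tail.headD dE) :=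
    PT.headD.comp ((PT.const dE).pair hd')
  have hd'' := PT.tail.comp hd'
  have hx := pt_ex2 hk hp hq
  have hall := PT.ite (PT.isEmpty.comp hd') hh
    (PT.append ht (PT.cons hx.comp_fst (PT.cons hx.comp_snd hd'')))
  refine hall.congr fun d => ?_
  rw [← actN_min, actN_split]
  simp only
  rcases (h d).drop (min (i d) (h d).length) with _ | ⟨a, _ | ⟨b, t⟩⟩ <;> rfl

theorem length_enc_ex2 (k : Bool × Bool) (p q : LE × Bool) (t : List (LE × Bool)) :
    (enc ((ex2 k p q).1 :: (ex2 k p q).2 :: t)).length = (enc (p :: q :: t)).length := by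
  obtain ⟨a, b⟩ := k
  obtain ⟨e, o⟩ := p
  obtain ⟨f, o'⟩ := q
  rw [length_enc_cons, length_enc_cons, length_enc_cons, length_enc_cons]
  cases a <;> cases b <;> simp only [ex2, length_enc_pair, enc_bool, List.length_singleton] <;>
    omega

theorem length_enc_actN (k : Bool × Bool) (i : ℕ) (h : List (LE × Bool)) :
    (enc (actN k i h)).length = (enc h).length := by
  induction i generalizing h with
  | zero =>
    cases h with
    | nil => rfl
    | cons p h =>
      cases h with
      | nil => rfl
      | cons q h => exact length_enc_ex2 k p q h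
  | succ i ih =>
    cases h with
    | nil => rfl
    | cons p h => rw [actN_succ, length_enc_cons, length_enc_cons, ih]

theorem pt_mvL {u : δ → List Bool} {h : δ → List (LE × Bool)} (hu : PT u) (hh : PT h) :
    PT (fun d => mvL (u d) (h d)) := by
  have h1 : PT (fun d => (u d).headD true) := PT.headD.comp ((PT.const true).pair hu)
  have h2 : PT (fun d => (u d).tail.headD true) :=
    PT.headD.comp ((PT.const true).pair (PT.tail.comp hu))
  have h3 : PT (fun d => arithVal ((u d).drop (U.mk 2).val)) :=
    arith_PT_val (pt_drop hu (PT.const (U.mk 2)))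
  exact pt_actN (h1.pair h2) h3 hh

theorem pt_simL (lx ly lz : ℕ) {C : δ → List LE} {l k : δ → U} {h : δ → List (LE × Bool)}
    {u : δ → List Bool} (hC : PT C) (hl : PT l) (hk : PT k) (hh : PT h) (hu : PT u) :
    PT (fun d => simL lx ly lz (C d) (l d).val (k d).val (h d) (u d)) := by
  have h1 : PT (fun d => (u d).headD true) := PT.headD.comp ((PT.const true).pair hu)
  have hl2 : PT (fun d => U.mk (2 + (l d).val)) := (PT.const (U.mk 2)).uadd hl
  have ht := PT.tail.comp hu
  have hm := pt_mvL (PT.take ht hl2) hh
  have hv := arith_PT_val (pt_drop ht hl2)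
  have hA := pt_nmul hv (pt_wl lx ly lz hC hh)
  have hB := pt_nmul (pt_npow (PT.const 2) hk) (pt_wl lx ly lz hC hm)
  have hall := PT.ite h1 hh (PT.ite (pt_nlt hA hB) hm hh)
  refine hall.congr fun d => ?_
  unfold simL
  simp only [decide_eq_true_eq]

theorem length_enc_simL (lx ly lz : ℕ) (C : List LE) (l k : ℕ) (h : List (LE × Bool))
    (u : List Bool) : (enc (simL lx ly lz C l k h u)).length = (enc h).length := by
  unfold simL mvL
  split_ifs
  · rfl
  · rw [length_enc_actN]
  · rfl

end Pool.Agent.QPR
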