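import Pool.Agent.QPR.PTb

/-!
# Polynomial time: samples, counts, rounds
-/

set_option autoImplicit false

namespace Pool.Agent.QPR

open Pool.Agent.PT Pool.Agent.TutteHard Pool.Agent.TutteEq

variable {δ : Type} [N487b59b3 δ]

/-- parameters: `((l, k), (t, N))` -/
abbrev Par : Type := (U × U) × (U × U)

/-- number of bits of one step -/
def bOf (P : Par) : U := U.mk (1 + (2 + P.1.1.val) + P.1.2.val)

theorem pt_bOf {P : δ → Par} (hP : PT P) : PT (fun d => bOf (P d)) :=
  ((PT.const (U.mk 1)).uadd ((PT.const (U.mk 2)).uadd hP.comp_fst.comp_fst)).uadd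
    hP.comp_fst.comp_snd

theorem pt_run (lx ly lz : ℕ) {P : δ → Par} {C : δ → List LE} {h : δ → List (LE × Bool)}
    {blk : δ → List Bool} (hP : PT P) (hC : PT C) (hh : PT h) (hb : PT blk) :
    PT (fun d => (chunk (bOf (P d)).val (P d).2.1.val (blk d)).foldl
      (simL lx ly lz (C d) (P d).1.1.val (P d).1.2.val) (h d)) := by
  have hch := pt_chunk (pt_bOf hP) hP.comp_snd.comp_fst hb
  exact PT.fold (δ := δ) (ε := Par × List LE) (σ := List (LE × Bool)) (α := List Bool)
    (g := fun p => simL lx ly lz p.1.2 p.1.1.1.1.val p.1.1.1.2.val p.2.1 p.2.2)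
    (e := fun d => (P d, C d)) (s := h)
    (l := fun d => chunk (bOf (P d)).val (P d).2.1.val (blk d))
    (pt_simL lx ly lz PT.fst.comp_snd PT.fst.comp_fst.comp_fst.comp_fst
      PT.fst.comp_fst.comp_fst.comp_snd PT.snd.comp_fst PT.snd.comp_snd) 0
    (by intro e s a; rw [length_enc_simL]; exact Nat.le_add_right _ _) (hP.pair hC) hh hch

/-- the samples, with packed parameters -/
def samplesP (lx ly lz : ℕ) (P : Par) (C R : List LE) (u : List Bool) :
    List (List (LE × Bool)) :=
  samples lx ly lz P.1.1.val P.1.2.val P.2.1.val P.2.2.val C R u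

theorem pt_samples (lx ly lz : ℕ) {P : δ → Par} {C R : δ → List LE} {u : δ → List Bool}
    (hP : PT P) (hC : PT C) (hR : PT R) (hu : PT u) :
    PT (fun d => samplesP lx ly lz (P d) (C d) (R d) (u d)) := by
  have hch := pt_chunk (hP.comp_snd.comp_fst.umul (pt_bOf hP)) hP.comp_snd.comp_snd hu
  have hg : PT (fun p : ((Par × List LE) × List (LE × Bool)) × List Bool =>
      (chunk (bOf p.1.1.1).val p.1.1.1.2.1.val p.2).foldl
        (simL lx ly lz p.1.1.2 p.1.1.1.1.1.val p.1.1.1.1.2.val) p.1.2) :=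
    pt_run lx ly lz PT.fst.comp_fst.comp_fst PT.fst.comp_fst.comp_snd PT.fst.comp_snd PT.snd
  exact PT.map (δ := δ) (ε := (Par × List LE) × List (LE × Bool)) (α := List Bool)
    (β := List (LE × Bool))
    (g := fun p => (chunk (bOf p.1.1.1).val p.1.1.1.2.1.val p.2).foldl
        (simL lx ly lz p.1.1.2 p.1.1.1.1.1.val p.1.1.1.1.2.val) p.1.2)
    (e := fun d => ((P d, C d), startL (C d) (R d)))
    (l := fun d => chunk ((P d).2.1.val * (bOf (P d)).val) (P d).2.2.val (u d))
    hg ((hP.pair hC).pair (pt_startL hC hR)) hch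

theorem head_eq (e : LE) (o : Bool) (h : List (LE × Bool)) :
    decide (h.head? = some (e, o)) =
      (!h.isEmpty && (decide ((h.headD dE).1 = e) && ((h.headD dE).2 == o))) := by
  cases h with
  | nil => rfl
  | cons p h =>
    obtain ⟨f, o'⟩ := p
    rw [Bool.eq_iff_iff]
    simp

theorem pt_cntFirst {e : δ → LE} {S : δ → List (List (LE × Bool))} (o : Bool) (he : PT e)
    (hS : PT S) : PT (fun d => cntFirst (e d) o (S d)) := by
  have hp : PT (fun p : LE × List (LE × Bool) => decide (p.2.head? = some (p.1, o))) := by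
    have hh : PT (fun p : LE × List (LE × Bool) => p.2.headD dE) :=
      PT.headD.comp ((PT.const dE).pair PT.snd)
    have h := PT.and (PT.not (PT.isEmpty.comp PT.snd)) (PT.and (pt_eqLE hh.comp_fst PT.fst)
      (PT.beq hh.comp_snd (PT.const o)))
    exact h.congr fun p => (head_eq p.1 o p.2).symm
  exact pt_countP hp he hS

/-- the counts, with packed parameters -/
def cntP (lx ly lz : ℕ) (P : Par) (C R : List LE) (u : List Bool) : ℕ × ℕ :=
  cntL lx ly lz P.1.1.val P.1.2.val P.2.1.val P.2.2.val C R u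

theorem pt_cntP (lx ly lz : ℕ) {P : δ → Par} {C R : δ → List LE} {u : δ → List Bool}
    (hP : PT P) (hC : PT C) (hR : PT R) (hu : PT u) :
    PT (fun d => cntP lx ly lz (P d) (C d) (R d) (u d)) := by
  have hS := pt_samples lx ly lz hP hC hR hu
  have he : PT (fun d => (R d).headD default) := PT.headD.comp ((PT.const default).pair hR)
  have h := PT.ite (PT.isEmpty.comp hR) (PT.const ((0 : ℕ), (0 : ℕ)))
    ((pt_cntFirst true he hS).pair (pt_cntFirst false he hS))
  refine h.congr fun d => ?_
  unfold cntP cntL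
  cases R d with
  | nil => rfl
  | cons e R => rfl

theorem length_samples (lx ly lz l k t N : ℕ) (C R : List LE) (u : List Bool) :
    (samples lx ly lz l k t N C R u).length = N := by
  unfold samples
  rw [List.length_map]
  have : ∀ (b t : ℕ) (r : List Bool), (chunk b t r).length = t := by
    intro b t
    induction t with
    | zero => intro r; rfl
    | succ t ih => intro r; rw [chunk, List.length_cons, ih]
  exact this _ _ _

theorem cntL_le (lx ly lz l k t N : ℕ) (C R : List LE) (u : List Bool) :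
    (cntL lx ly lz l k t N C R u).1 ≤ N ∧ (cntL lx ly lz l k t N C R u).2 ≤ N := by
  unfold cntL
  cases R with
  | nil => exact ⟨Nat.zero_le _, Nat.zero_le _⟩
  | cons e R =>
    have h : ∀ o, cntFirst e o (samples lx ly lz l k t N C (e :: R) u) ≤ N := by
      intro o
      unfold cntFirst
      refine List.countP_le_length.trans ?_
      rw [length_samples]
    exact ⟨h true, h false⟩

/-- one round, with packed parameters; `n0` in unary -/
def rsP (lx ly lz X1 X2 Y1 Y2 : ℕ) (P : Par) (n0 : U) (s : RS) (u : List Bool) : RS :=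
  roundStep (cntL lx ly lz P.1.1.val P.1.2.val P.2.1.val P.2.2.val) n0.val P.2.2.val X1 X2 Y1 Y2
    s u

theorem rsP_eq (lx ly lz X1 X2 Y1 Y2 : ℕ) (P : Par) (n0 : U) (s : RS) (u : List Bool) :
    rsP lx ly lz X1 X2 Y1 Y2 P n0 s u =
      if s.1.1.isEmpty then s
      else if isLp s.1.2 (s.1.1.headD default) then
        ((s.1.1.tail, s.1.2), (s.2.1 * Y1, s.2.2 * Y2))
      else if isCl s.1.2 s.1.1.tail (s.1.1.headD default) then
        ((s.1.1.tail, s.1.1.headD default :: s.1.2), (s.2.1 * X1, s.2.2 * X2))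
      else if decide ((cntP lx ly lz P s.1.2 s.1.1 u).2 ≤ (cntP lx ly lz P s.1.2 s.1.1 u).1) then
        ((s.1.1.tail, s.1.1.headD default :: s.1.2), (s.2.1 * P.2.2.val,
          s.2.2 * (min s.1.1.length n0.val * (cntP lx ly lz P s.1.2 s.1.1 u).1)))
      else ((s.1.1.tail, s.1.2), (s.2.1 * P.2.2.val,
          s.2.2 * (min s.1.1.length n0.val * (cntP lx ly lz P s.1.2 s.1.1 u).2))) := by
  obtain ⟨⟨R, C⟩, ⟨a, b⟩⟩ := s
  cases R with
  | nil => rfl
  | cons e R =>
    simp only [rsP, roundStep, cntP, isLp, isCl, List.isEmpty_cons, Bool.false_eq_true, if_false,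
      List.headD_cons, List.tail_cons, decide_eq_true_eq, List.length_cons]

theorem pt_rsP (lx ly lz X1 X2 Y1 Y2 : ℕ) {P : δ → Par} {n0 : δ → U} {s : δ → RS}
    {u : δ → List Bool} (hP : PT P) (hn : PT n0) (hs : PT s) (hu : PT u) :
    PT (fun d => rsP lx ly lz X1 X2 Y1 Y2 (P d) (n0 d) (s d) (u d)) := by
  have hR := hs.comp_fst.comp_fst
  have hC := hs.comp_fst.comp_snd
  have ha := hs.comp_snd.comp_fst
  have hb := hs.comp_snd.comp_snd
  have he : PT (fun d => (s d).1.1.headD default) :=
    PT.headD.comp ((PT.const default).pair hR)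
  have ht := PT.tail.comp hR
  have hcnt := pt_cntP lx ly lz hP hC hR hu
  have hlen : PT (fun d => min (s d).1.1.length (n0 d).val) :=
    (pt_uval (pt_cap (pt_uval (PT.length hR)) hn)).congr fun d => rfl
  have hN := pt_uval hP.comp_snd.comp_snd
  have h := PT.ite (PT.isEmpty.comp hR) hs
    (PT.ite (pt_isLp hC he) ((ht.pair hC).pair ((pt_nmul ha (PT.const Y1)).pair
      (pt_nmul hb (PT.const Y2))))
    (PT.ite (pt_isCl hC ht he) ((ht.pair (PT.cons he hC)).pair ((pt_nmul ha (PT.const X1)).pair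
      (pt_nmul hb (PT.const X2))))
    (PT.ite (pt_nle hcnt.comp_snd hcnt.comp_fst)
      ((ht.pair (PT.cons he hC)).pair ((pt_nmul ha hN).pair
        (pt_nmul hb (pt_nmul hlen hcnt.comp_fst))))
      ((ht.pair hC).pair ((pt_nmul ha hN).pair (pt_nmul hb (pt_nmul hlen hcnt.comp_snd)))))))
  exact h.congr fun d => (rsP_eq lx ly lz X1 X2 Y1 Y2 (P d) (n0 d) (s d) (u d)).symm

theorem size_le_self (n : ℕ) : Nat.size n ≤ n := by
  rw [Nat.size_le]
  exact Nat.lt_two_pow_self

/-- growth of one round -/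
theorem length_enc_rsP (lx ly lz X1 X2 Y1 Y2 : ℕ) (P : Par) (n0 : U) (s : RS) (u : List Bool) :
    (enc (rsP lx ly lz X1 X2 Y1 Y2 P n0 s u)).length ≤ (enc s).length +
      2 * (X1 + X2 + Y1 + Y2 + 2 * P.2.2.val + n0.val) := by
  obtain ⟨⟨R, C⟩, ⟨a, b⟩⟩ := s
  have hc := cntL_le lx ly lz P.1.1.val P.1.2.val P.2.1.val P.2.2.val C R u
  have hmul : ∀ a b : ℕ, Nat.size (a * b) ≤ Nat.size a + b := fun a b =>
    (size_mul_le a b).trans (Nat.add_le_add_left (size_le_self b) _)
  have hmul3 : ∀ a m c : ℕ, m ≤ n0.val → c ≤ P.2.2.val →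
      Nat.size (a * (m * c)) ≤ Nat.size a + (n0.val + P.2.2.val) := by
    intro a m c hm hc
    have h1 := size_mul_le a (m * c)
    have h2 := size_mul_le m c
    have h3 := size_le_self m
    have h4 := size_le_self c
    omega
  have key : ∀ (R' C' : List LE) (a' b' : ℕ),
      2 * (enc R').length + (enc C').length ≤ 2 * (enc R).length + (enc C).length →
      Nat.size a' ≤ Nat.size a + (X1 + Y1 + P.2.2.val) →
      Nat.size b' ≤ Nat.size b + (X2 + Y2 + (n0.val + P.2.2.val)) →
      (enc ((R', C'), (a', b'))).length ≤ (enc ((R, C), (a, b))).length +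
        2 * (X1 + X2 + Y1 + Y2 + 2 * P.2.2.val + n0.val) := by
    intro R' C' a' b' h1 h2 h3
    rw [length_enc_pair, length_enc_pair, length_enc_pair, length_enc_pair, length_enc_pair,
      length_enc_pair, length_enc_nat, length_enc_nat, length_enc_nat, length_enc_nat]
    omega
  cases R with
  | nil =>
    have : rsP lx ly lz X1 X2 Y1 Y2 P n0 (([], C), (a, b)) u = (([], C), (a, b)) := rfl
    rw [this]
    omega
  | cons e R =>
    have e1 : (enc (e :: R)).length = 2 * (enc e).length + 1 + (enc R).length :=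
      length_enc_cons e R
    have e2 : (enc (e :: C)).length = 2 * (enc e).length + 1 + (enc C).length :=
      length_enc_cons e C
    rw [rsP_eq]
    simp only [List.isEmpty_cons, Bool.false_eq_true, if_false, List.headD_cons, List.tail_cons]
    have hY1 := hmul a Y1
    have hY2 := hmul b Y2
    have hX1 := hmul a X1
    have hX2 := hmul b X2
    have hNN := hmul a P.2.2.val
    have hb1 := hmul3 b (min (e :: R).length n0.val) (cntP lx ly lz P C (e :: R) u).1
      (min_le_right _ _) hc.1
    have hb2 := hmul3 b (min (e :: R).length n0.val) (cntP lx ly lz P C (e :: R) u).2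
      (min_le_right _ _) hc.2
    split_ifs
    · exact key _ _ _ _ (by omega) (by omega) (by omega)
    · exact key _ _ _ _ (by omega) (by omega) (by omega)
    · exact key _ _ _ _ (by omega) (by omega) (by omega)
    · exact key _ _ _ _ (by omega) (by omega) (by omega)

/-- number of bits of one round -/
def BOf (P : Par) : U := U.mk (P.2.2.val * (P.2.1.val * (bOf P).val))

theorem pt_BOf {P : δ → Par} (hP : PT P) : PT (fun d => BOf (P d)) :=
  hP.comp_snd.comp_snd.umul (hP.comp_snd.comp_fst.umul (pt_bOf hP))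

/-- all rounds -/
theorem pt_rounds (lx ly lz X1 X2 Y1 Y2 : ℕ) {P : δ → Par} {n0 : δ → U} {s : δ → RS}
    {r : δ → List Bool} (hP : PT P) (hn : PT n0) (hs : PT s) (hr : PT r) :
    PT (fun d => (chunk (BOf (P d)).val (n0 d).val (r d)).foldl
      (rsP lx ly lz X1 X2 Y1 Y2 (P d) (n0 d)) (s d)) := by
  have hch := pt_chunk (pt_BOf hP) hn hr
  refine PT.fold (δ := δ) (ε := Par × U) (σ := RS) (α := List Bool)
    (g := fun p => rsP lx ly lz X1 X2 Y1 Y2 p.1.1 p.1.2 p.2.1 p.2.2)
    (e := fun d => (P d, n0 d)) (s := s)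
    (l := fun d => chunk (BOf (P d)).val (n0 d).val (r d))
    (pt_rsP lx ly lz X1 X2 Y1 Y2 PT.fst.comp_fst PT.fst.comp_snd PT.snd.comp_fst PT.snd.comp_snd)
    (6 * Polynomial.X + Polynomial.C (2 * (X1 + X2 + Y1 + Y2))) ?_ (hP.pair hn) hs hch
  intro e s a
  obtain ⟨P, n0⟩ := e
  have h := length_enc_rsP lx ly lz X1 X2 Y1 Y2 P n0 s a
  refine h.trans ?_
  have h1 : (enc (P, n0)).length = 2 * (enc P).length + 1 + (enc n0).length := length_enc_pair _ _
  have h2 : (enc P).length = 2 * (enc P.1).length + 1 + (enc P.2).length := by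
    conv_lhs => rw [← Prod.mk.eta (p := P)]
    rw [length_enc_pair]
  have h3 : (enc P.2).length = 2 * (enc P.2.1).length + 1 + (enc P.2.2).length := by
    conv_lhs => rw [← Prod.mk.eta (p := P.2)]
    rw [length_enc_pair]
  have h4 : (enc P.2.2).length = P.2.2.val := length_enc_U _
  have h5 : (enc n0).length = n0.val := length_enc_U _
  simp only [Polynomial.eval_add, Polynomial.eval_mul, Polynomial.eval_X,
    Polynomial.eval_ofNat, Polynomial.eval_C]
  omega

end Pool.Agent.QPR
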