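import Pool.Agent.QPR.Stmts2

/-!
# Part (2) of the project QPR, module POI
-/

set_option autoImplicit false

namespace Pool.Agent.QPR

open Finset
open scoped Classical

namespace M_POI

/-- no energy without elements -/
theorem en_empty {α : Type} [DecidableEq α] (D : Dat α) (C : Finset α)
    (F : List (α × Bool) → ℝ) : D.En C ∅ F = 0 := by
  simp [Dat.En]

/-- the energy and the variance are nonnegative -/
theorem en_vr (hFST : St_FST) {α : Type} [DecidableEq α] (D : Dat α) (C R : Finset α)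
    (F : List (α × Bool) → ℝ) (hR : R.Nonempty) : 0 ≤ D.En C R F ∧ 0 ≤ D.Vr C R F := by
  obtain ⟨-, -, -, -, -, -, -, -, -, -, h1, -, h2⟩ := hFST α D C R F hR
  exact ⟨h2, h1⟩

theorem en0 (hFST : St_FST) {α : Type} [DecidableEq α] (D : Dat α) (C R : Finset α)
    (F : List (α × Bool) → ℝ) : 0 ≤ D.En C R F := by
  rcases R.eq_empty_or_nonempty with h | h
  · rw [h, en_empty]
  · exact (en_vr hFST D C R F h).1

/-- the constant of the crude bound is monotone -/
theorem crude_mono (μ : ℝ) (h0 : 0 < μ) (h1 : μ < 1) (m m0 : ℕ) (h : m ≤ m0) :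
    ((m.factorial : ℝ) * 2 ^ m) ^ 3 / μ ^ m ≤ ((m0.factorial : ℝ) * 2 ^ m0) ^ 3 / μ ^ m0 := by
  have e1 : (m.factorial : ℝ) ≤ (m0.factorial : ℝ) := by
    exact_mod_cast Nat.factorial_le h
  have e2 : (2 : ℝ) ^ m ≤ 2 ^ m0 := pow_le_pow_right₀ (by norm_num) h
  have e3 : μ ^ m0 ≤ μ ^ m := pow_le_pow_of_le_one h0.le h1.le h
  have e4 : (m.factorial : ℝ) * 2 ^ m ≤ (m0.factorial : ℝ) * 2 ^ m0 :=
    mul_le_mul e1 e2 (by positivity) (by positivity)
  have e5 : ((m.factorial : ℝ) * 2 ^ m) ^ 3 ≤ ((m0.factorial : ℝ) * 2 ^ m0) ^ 3 :=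
    pow_le_pow_left₀ (by positivity) e4 3
  exact div_le_div₀ (by positivity) e5 (by positivity) e3

end M_POI

open M_POI in
theorem t_POI (_hBAS : St_BAS) (hFST : St_FST) (hTS : St_TS) (hOS : St_OS) (hIND : St_IND)
    (hCRU : St_CRU) (hNUM : St_NUM) : St_POI := by
  intro x y K x0 x1 y0 y1 hK
  have mu0 : 0 < min x y := lt_min x0 y0
  have mu1 : min x y < 1 := (min_le_left x y).trans_lt x1
  have M0 : 0 < max x y := lt_max_of_lt_left x0
  have M1 : max x y < 1 := max_lt x1 y1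
  obtain ⟨c, hc⟩ := hNUM (min x y) (max x y) K mu0 mu1 M0 M1 hK
  refine ⟨c, ?_⟩
  intro α _ D hx hy hM C R F
  have hmu : D.mu = min x y := by rw [Dat.mu, hx, hy]
  rcases R.eq_empty_or_nonempty with hR | hR
  · subst hR
    have h := hCRU α D C ∅ F
    rw [en_empty] at h ⊢
    simpa using h
  obtain ⟨A, ep, m0, hA, hep, hep2, hb, hm0, hfin⟩ := hc R.card (Finset.card_pos.mpr hR)
  have hcard1 : (1 : ℝ) ≤ (R.card : ℝ) := by exact_mod_cast Finset.card_pos.mpr hR
  have hep0 : 0 ≤ ep := by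
    refine le_trans ?_ hep
    positivity
  set μ : ℝ := min x y with hμ
  set k : ℝ := 1 + 2 * (8 * A / μ ^ 3 + 2 * K) with hk
  have hk1 : 1 ≤ k := by
    have : 0 ≤ 8 * (A : ℝ) / μ ^ 3 + 2 * K := by positivity
    rw [hk]; linarith
  set n : ℕ := R.card with hn
  have hn0 : (0 : ℝ) < n := by linarith
  -- two-step inequality
  have hts : ∀ (C R : Finset α) (F : List (α × Bool) → ℝ), 2 ≤ R.card → R.card ≤ n →
      D.I0 C R F ≤ 1 / 2 * (1 + k / R.card) * (D.I0 C R F + D.step D.I0 C R F) +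
        68 * (n : ℝ) ^ 3 / μ ^ 2 * D.En C R F + 128 * (n : ℝ) ^ 2 * ep * D.Vr C R F := by
    intro C' R' F' h1 h2
    have h := hTS α D K hK hM A n ep hA (by rw [hx, hy, hmu]; exact hep) hep2 C' R' F' h1 h2
    rw [hmu] at h
    exact h
  have hos := hOS α D k (68 * (n : ℝ) ^ 3 / μ ^ 2) (128 * (n : ℝ) ^ 2 * ep) n hk1
    (by positivity) (by positivity) hts
  have hind := hIND α D (17 * k) (136 * (n : ℝ) ^ 4 / μ ^ 2)
    (((m0.factorial : ℝ) * 2 ^ m0) ^ 3 / μ ^ m0) n m0 (by linarith) (by positivity)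
    (by positivity) hm0 ?_ ?_ C R F le_rfl
  · refine hind.trans ?_
    exact mul_le_mul_of_nonneg_right hfin (en0 hFST D C R F)
  · -- large minors
    intro C' R' F' h1 h2
    have hR' : R'.Nonempty := by
      rw [← Finset.card_pos]; omega
    have hm' : (0 : ℝ) < (R'.card : ℝ) := by exact_mod_cast Finset.card_pos.mpr hR'
    have h3 : 4 * k ≤ (R'.card : ℝ) := by
      have h4 : (m0 : ℝ) ≤ (R'.card : ℝ) := by exact_mod_cast h1.le
      linarith
    have h5 := hos C' R' F' h3 h2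
    obtain ⟨hen, hvr⟩ := en_vr hFST D C' R' F' hR'
    refine h5.trans ?_
    have h6 : 2 * (n : ℝ) * (128 * (n : ℝ) ^ 2 * ep) ≤ k / R'.card := by
      have h7 : 2 * (n : ℝ) * (128 * (n : ℝ) ^ 2 * ep) =
          128 * (n : ℝ) ^ 2 * ep * (2 * n) := by ring
      rw [h7]
      refine hb.trans ?_
      have h8 : (R'.card : ℝ) ≤ (n : ℝ) := by exact_mod_cast h2
      calc 1 / (n : ℝ) ≤ 1 / (R'.card : ℝ) := one_div_le_one_div_of_le hm' h8
        _ ≤ k / R'.card := div_le_div_of_nonneg_right hk1 hm'.le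
    have h9 : 16 * k / R'.card + 2 * n * (128 * (n : ℝ) ^ 2 * ep) ≤ 17 * k / R'.card := by
      have h10 : 17 * k / (R'.card : ℝ) = 16 * k / R'.card + k / R'.card := by ring
      rw [h10]
      linarith
    have h11 : 2 * (n : ℝ) * (68 * (n : ℝ) ^ 3 / μ ^ 2) = 136 * (n : ℝ) ^ 4 / μ ^ 2 := by
      ring
    rw [h11]
    have h12 := mul_le_mul_of_nonneg_right h9 hvr
    linarith
  · -- small minors
    intro C' R' F' h1
    have h2 := hCRU α D C' R' F'
    rw [hmu] at h2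
    refine h2.trans ?_
    exact mul_le_mul_of_nonneg_right (crude_mono μ mu0 mu1 R'.card m0 h1) (en0 hFST D C' R' F')

end Pool.Agent.QPR
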