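import Pool.Agent.QPR.Stmts2

/-!
QPR2_XA: the error of two entries, case of elements which are neither parallel nor in series.
-/

set_option autoImplicit false

namespace Pool.Agent.QPR.M_XA

open Finset
open scoped Classical

/-- weighted Cauchy-Schwarz over two outcomes -/
theorem cs (t A B : Bool → Bool → ℝ) (ht : ∀ o o', 0 ≤ t o o') :
    |∑ o : Bool, ∑ o' : Bool, t o o' * (A o o' * B o o')| ≤
      √((∑ o : Bool, ∑ o' : Bool, t o o' * A o o' ^ 2) *
        (∑ o : Bool, ∑ o' : Bool, t o o' * B o o' ^ 2)) := by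
  apply Real.abs_le_sqrt
  have h := Finset.sum_mul_sq_le_sq_mul_sq (univ : Finset (Bool × Bool))
    (fun p => √(t p.1 p.2) * A p.1 p.2) (fun p => √(t p.1 p.2) * B p.1 p.2)
  have e1 : ∀ p : Bool × Bool, √(t p.1 p.2) * A p.1 p.2 * (√(t p.1 p.2) * B p.1 p.2) =
      t p.1 p.2 * (A p.1 p.2 * B p.1 p.2) := by
    intro p
    have := Real.mul_self_sqrt (ht p.1 p.2)
    calc √(t p.1 p.2) * A p.1 p.2 * (√(t p.1 p.2) * B p.1 p.2) =
        (√(t p.1 p.2) * √(t p.1 p.2)) * (A p.1 p.2 * B p.1 p.2) := by ring
      _ = _ := by rw [this]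
  have e2 : ∀ p : Bool × Bool, (√(t p.1 p.2) * A p.1 p.2) ^ 2 = t p.1 p.2 * A p.1 p.2 ^ 2 := by
    intro p
    rw [mul_pow, Real.sq_sqrt (ht p.1 p.2)]
  have e3 : ∀ p : Bool × Bool, (√(t p.1 p.2) * B p.1 p.2) ^ 2 = t p.1 p.2 * B p.1 p.2 ^ 2 := by
    intro p
    rw [mul_pow, Real.sq_sqrt (ht p.1 p.2)]
  simp only [e1, e2, e3] at h
  simp only [Fintype.sum_prod_type] at h
  exact h

variable {α : Type} [DecidableEq α]

/-- the status of `e` does not change after the entry `f` -/
theorem status (hLOC : St_LOC) (D : Dat α) (C R : Finset α) (e f : α) (he : e ∈ R) (hf : f ∈ R)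
    (hef : e ≠ f) (hpar : ¬ D.Par C e f) (hser : ¬ D.Ser C R e f) (hg : D.Gen C R e) (o' : Bool)
    (h : ¬ (o' = false ∧ D.Cl C R f)) :
    ¬ D.Lp (nx C f o') e ∧ ¬ D.Cl (nx C f o') (R.erase f) e := by
  obtain ⟨l1, l2, l3, l4, l5, l6, l7, l8, l9⟩ := hLOC α D C R f e hf he (Ne.symm hef)
  have hpar' : ¬ D.Par C f e := fun hh => hpar (l6 hh)
  have hser' : ¬ D.Ser C R f e := fun hh => hser (l7 hh)
  cases o' with
  | true =>
    have hnx : nx C f true = insert f C := by simp [nx]
    rw [hnx]
    refine ⟨?_, ?_⟩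
    · by_cases hl : D.Lp C f
      · rw [l4 hl]
        exact hg.1
      · rw [l3 hl]
        rintro (hh | hh)
        · exact hg.1 hh
        · exact hpar' hh
    · rw [l2]
      exact hg.2
  | false =>
    have hnx : nx C f false = C := by simp [nx]
    rw [hnx]
    refine ⟨hg.1, ?_⟩
    have hc : ¬ D.Cl C R f := fun hh => h ⟨rfl, hh⟩
    rw [l5 hc]
    rintro (hh | hh)
    · exact hg.2 hh
    · exact hser' hh

/-- second moment of the test function -/
theorem second (hLOC : St_LOC) (hBAS : St_BAS) (D : Dat α) (C R : Finset α) (al be : α → ℝ)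
    (e f : α) (he : e ∈ R) (hf : f ∈ R) (hef : e ≠ f) (hab : ¬ D.Gen C R e → al e = be e) :
    ∑ o : Bool, D.om C R e o * D.T (nx C e o) (R.erase e) / D.T C R * g1 al be e o ^ 2 =
      D.ve C R al be e := by
  obtain ⟨b1, b2, b3, b4, b5, b6⟩ := hBAS α D C R
  obtain ⟨c1, c2, c3, c4, c5⟩ := b6 e he
  obtain ⟨l1, -⟩ := hLOC α D C R e f he hf hef
  have hT : D.T C R ≠ 0 := ne_of_gt b3
  have hnt : nx C e true = insert e C := by simp [nx]
  have hnf : nx C e false = C := by simp [nx]
  rw [Fintype.sum_bool, hnt, hnf]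
  have gt : g1 al be e true = al e := by simp [g1]
  have gf : g1 al be e false = be e := by simp [g1]
  rw [gt, gf]
  by_cases hg : D.Gen C R e
  · obtain ⟨d1, d2, d3, d4⟩ := c3 hg
    have ht : D.om C R e true = 1 := by
      unfold Dat.om
      rw [if_neg hg.1, if_neg hg.2]
    have hf' : D.om C R e false = 1 := by
      unfold Dat.om
      rw [if_neg hg.1, if_neg hg.2]
    rw [ht, hf', one_mul, one_mul, ← d4]
    have : D.T (insert e C) (R.erase e) / D.T C R = D.pe C R e := rfl
    rw [this]
    unfold Dat.ve Dat.me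
    ring
  · have hab' := hab hg
    have hve : D.ve C R al be e = be e ^ 2 := by
      unfold Dat.ve Dat.me
      rw [hab']
      ring
    rw [hve, hab']
    by_cases hl : D.Lp C e
    · have ht : D.om C R e true = 0 := by
        unfold Dat.om
        rw [if_pos hl]
        simp
      have hf' : D.om C R e false = D.y := by
        unfold Dat.om
        rw [if_pos hl]
        simp
      rw [ht, hf', ← (c1 hl).1]
      field_simp
      ring
    · have hc : D.Cl C R e := by
        by_contra hc
        exact hg ⟨hl, hc⟩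
      have ht : D.om C R e true = D.x := by
        unfold Dat.om
        rw [if_neg hl, if_pos hc]
        simp
      have hf' : D.om C R e false = 0 := by
        unfold Dat.om
        rw [if_neg hl, if_pos hc]
        simp
      rw [ht, hf', ← c2 hc]
      field_simp
      ring

end Pool.Agent.QPR.M_XA

namespace Pool.Agent.QPR

open Finset
open scoped Classical

theorem t_XA (hLOC : St_LOC) (hBAS : St_BAS) (hTW : St_TW) (hVV : St_VV) : St_XA := by
  intro α _ D C R al be G hab e he f hf hef hpar hser
  obtain ⟨b1, b2, b3, -⟩ := hBAS α D C R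
  obtain ⟨t1, -⟩ := hTW α D C R e f he hf hef
  have tsw := t1 hpar hser
  have hcard : 2 ≤ R.card := by
    have : ({e, f} : Finset α) ⊆ R := by
      intro a ha
      simp only [mem_insert, mem_singleton] at ha
      rcases ha with rfl | rfl
      · exact he
      · exact hf
    have h2 := card_le_card this
    rwa [card_pair hef] at h2
  obtain ⟨v1, -, v3, -⟩ := hVV α D C R (fun _ => 0) al be hcard
  have hfe : f ∈ R.erase e := mem_erase.2 ⟨Ne.symm hef, hf⟩
  -- the two sums
  have key : ∀ o o' : Bool, D.t C R e o f o' * D.g2 C R al be f o' e o =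
      D.t C R e o f o' * g1 al be e o := by
    intro o o'
    by_cases hg : D.Gen C R e
    · by_cases hz : o' = false ∧ D.Cl C R f
      · have h0 : D.t C R f o' e o = 0 := by
          obtain ⟨l1, -⟩ := hLOC α D C R f e hf he (Ne.symm hef)
          have hl : ¬ D.Lp C f := fun hh => l1 hh hz.2
          unfold Dat.t
          have : D.om C R f o' = 0 := by
            unfold Dat.om
            rw [if_neg hl, if_pos hz.2, hz.1]
            simp
          rw [this]
          simp
        rw [tsw o o', h0]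
        simp
      · obtain ⟨s1, s2⟩ := M_XA.status hLOC D C R e f he hf hef hpar hser hg o' hz
        congr 1
        unfold Dat.g2 Dat.sc g1
        rw [if_neg s1, if_neg s2]
        cases o <;> simp
    · congr 1
      unfold Dat.g2 g1
      rw [hab e he hg]
      cases o <;> simp
  have hdiff : D.E2 C R f e (fun o o' => D.g2 C R al be f o e o' * G f o e o') -
      D.E2 C R e f (fun o o' => g1 al be e o * G e o f o') =
      ∑ o : Bool, ∑ o' : Bool, D.t C R e o f o' *
        (g1 al be e o * (G f o' e o - G e o f o')) := by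
    unfold Dat.E2
    rw [Finset.sum_comm (f := fun o o' => D.t C R f o e o' * (D.g2 C R al be f o e o' * G f o e o')),
      ← Finset.sum_sub_distrib]
    refine Finset.sum_congr rfl fun o _ => ?_
    rw [← Finset.sum_sub_distrib]
    refine Finset.sum_congr rfl fun o' _ => ?_
    rw [← tsw o o']
    linear_combination G f o' e o * key o o'
  rw [hdiff]
  have hnn : ∀ o o' : Bool, 0 ≤ D.t C R e o f o' := fun o o' => v3 e o f o'
  have h1 := M_XA.cs (fun o o' => D.t C R e o f o') (fun o _ => g1 al be e o)
    (fun o o' => G f o' e o - G e o f o') hnn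
  have e1 : ∑ o : Bool, ∑ o' : Bool, D.t C R e o f o' * g1 al be e o ^ 2 =
      D.ve C R al be e := by
    rw [← M_XA.second hLOC hBAS D C R al be e f he hf hef (hab e he)]
    refine Finset.sum_congr rfl fun o _ => ?_
    rw [← Finset.sum_mul, v1 e he f hfe o]
  have e2 : ∑ o : Bool, ∑ o' : Bool, D.t C R e o f o' * (G f o' e o - G e o f o') ^ 2 =
      D.Def C R G e f := by
    unfold Dat.Def
    refine Finset.sum_congr rfl fun o _ => Finset.sum_congr rfl fun o' _ => ?_
    rw [if_neg (not_or.2 ⟨hpar, hser⟩), ← tsw o o', min_self, add_zero]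
    ring
  simp only [e1, e2] at h1
  refine h1.trans ?_
  have h3 : (1 : ℝ) ≤ 2 / D.mu := by
    rw [le_div_iff₀ b1]
    linarith
  have h4 : 0 ≤ √(D.ve C R al be e * D.Def C R G e f) := Real.sqrt_nonneg _
  calc √(D.ve C R al be e * D.Def C R G e f) = 1 * √(D.ve C R al be e * D.Def C R G e f) := by
        rw [one_mul]
    _ ≤ 2 / D.mu * √(D.ve C R al be e * D.Def C R G e f) := by
        apply mul_le_mul_of_nonneg_right h3 h4

end Pool.Agent.QPR
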