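import Pool.Agent.QPR.Main

/-!
# The parameters of the algorithm
-/

set_option autoImplicit false

namespace Pool.Agent.QPR

open Pool.Agent.PT Pool.Agent.TutteHard Pool.Agent.TutteEq

theorem size_sq_le (W : ℕ) : Nat.size W ^ 2 ≤ 4 * W := by
  rcases Nat.eq_zero_or_pos W with h | h
  · rw [h, Nat.size_zero]
    norm_num
  · obtain ⟨L, hL⟩ : ∃ L, Nat.size W = L + 1 :=
      Nat.exists_eq_succ_of_ne_zero (Nat.size_pos.2 h).ne'
    have h1 : 2 ^ L ≤ W := by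
      have := (Nat.lt_size (m := L) (n := W)).1 (by omega)
      exact this
    have h2 : ∀ L : ℕ, (L + 1) ^ 2 ≤ 4 * 2 ^ L := by
      intro L
      induction L with
      | zero => norm_num
      | succ L ih =>
        have h3 : (L + 1 + 1) ^ 2 ≤ 2 * (L + 1) ^ 2 ∨ L < 2 := by
          by_cases hL : L < 2
          · right; exact hL
          · left
            push Not at hL
            nlinarith
        rcases h3 with h3 | h3
        · calc (L + 1 + 1) ^ 2 ≤ 2 * (L + 1) ^ 2 := h3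
            _ ≤ 2 * (4 * 2 ^ L) := Nat.mul_le_mul_left _ ih
            _ = 4 * 2 ^ (L + 1) := by rw [pow_succ]; ring
        · interval_cases L <;> norm_num
    rw [hL]
    exact (h2 L).trans (Nat.mul_le_mul_left _ h1)

/-- the Poincare constant used for `n` edges -/
def KOf (c n : ℕ) : ℕ := 2 ^ (c * (Nat.log 2 n + 1) ^ 2) * 2 * 2 ^ Nat.size n

/-- the number of steps needed -/
def t0Of (c M n a : ℕ) : ℕ := 8 * KOf c n * ((n + 1) ^ 2 * a * (2 * M + 96))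

theorem KOf_pos (c n : ℕ) : 0 < KOf c n :=
  Nat.mul_pos (Nat.mul_pos (Nat.pow_pos (by norm_num)) (by norm_num)) (Nat.pow_pos (by norm_num))

theorem NOf_pos (n a : ℕ) (ha : 0 < a) : 0 < NOf n a :=
  Nat.mul_pos (Nat.mul_pos (by norm_num) (Nat.pow_pos (Nat.succ_pos n))) (Nat.pow_pos ha)

theorem t0Of_pos (c M n a : ℕ) (ha : 0 < a) : 0 < t0Of c M n a :=
  Nat.mul_pos (Nat.mul_pos (by norm_num) (KOf_pos c n))
    (Nat.mul_pos (Nat.mul_pos (Nat.pow_pos (Nat.succ_pos n)) ha) (by omega))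

theorem size_le_log (n : ℕ) : Nat.size n ≤ Nat.log 2 n + 1 := by
  rw [Nat.size_le]
  exact Nat.lt_pow_succ_log_self (by norm_num) n

theorem pow_step (X a : ℕ) : 2 ^ 4 * (2 ^ X * a ^ 4) ^ 2 = 2 ^ (4 + 2 * X) * a ^ 8 := by
  rw [pow_add, mul_comm 2 X, pow_mul]
  ring

theorem expo_le (c m L : ℕ) (h : 1 ≤ L) :
    4 + 2 * (24 + c * L ^ 2 + 11 * L + m) ≤ (74 + 2 * m + 2 * c) * L ^ 2 := by
  obtain ⟨S, hS⟩ : ∃ S, S = L ^ 2 := ⟨_, rfl⟩
  have h1 : L ≤ S := by rw [hS, sq]; exact Nat.le_mul_of_pos_left _ h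
  have h2 : 1 ≤ S := h.trans h1
  have h3 : m ≤ m * S := Nat.le_mul_of_pos_right _ h2
  rw [← hS]
  have e : (74 + 2 * m + 2 * c) * S = 74 * S + 2 * (m * S) + 2 * (c * S) := by ring
  rw [e]
  generalize c * S = cs
  generalize m * S = ms at h3
  omega

theorem sq_trick (D W z : ℕ) (h3 : z ^ 2 ≤ 4 * W) (h4 : 16 * D ^ 2 ≤ W) : 2 * (D * z) ≤ W := by
  have h5 : (2 * (D * z)) ^ 2 ≤ W ^ 2 := by
    calc (2 * (D * z)) ^ 2 = (4 * D ^ 2) * z ^ 2 := by ring
      _ ≤ (4 * D ^ 2) * (4 * W) := Nat.mul_le_mul_left _ h3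
      _ = (16 * D ^ 2) * W := by ring
      _ ≤ W * W := Nat.mul_le_mul_right _ h4
      _ = W ^ 2 := by ring
  exact (Nat.pow_le_pow_iff_left (by norm_num)).1 h5

theorem lin_trick (X W : ℕ) (h : 1 ≤ X) (h4 : 16 * X ^ 2 ≤ W) : 2 * X ≤ W := by
  have : X ≤ X ^ 2 := by rw [sq]; exact Nat.le_mul_of_pos_left _ h
  omega

theorem steps_enough (c M : ℕ) : ∃ c' : ℕ, ∀ s n a W : ℕ, n ≤ s → 2 ≤ a → qbits c' s a ≤ W →
    t0Of c M n a ≤ tOf n a W := by
  refine ⟨74 + 2 * (2 * M + 96) + 2 * c, fun s n a W hns ha hW => ?_⟩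
  obtain ⟨Lg, hLg⟩ : ∃ Lg, Lg = Nat.log 2 s + 1 := ⟨_, rfl⟩
  obtain ⟨D, hD⟩ : ∃ D, D = t0Of c M n a * ((n + 1) * NOf n a) := ⟨_, rfl⟩
  obtain ⟨E, hE⟩ : ∃ E, E = 1 + (2 + Nat.size n) + Nat.size (96 * (n + 1) ^ 2 * a) := ⟨_, rfl⟩
  have hLg1 : 1 ≤ Lg := by omega
  have hnn : n + 1 ≤ 2 ^ Lg := by
    have := Nat.lt_pow_succ_log_self (b := 2) (by norm_num) s
    rw [hLg]
    exact Nat.succ_le_of_lt (lt_of_le_of_lt hns this)
  have hlogn : Nat.log 2 n + 1 ≤ Lg := by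
    have := Nat.log_mono_right (b := 2) hns
    omega
  have hK : KOf c n ≤ 2 ^ (c * Lg ^ 2) * 2 * 2 ^ Lg := by
    unfold KOf
    apply Nat.mul_le_mul
    · apply Nat.mul_le_mul_right
      exact Nat.pow_le_pow_right (by norm_num) (Nat.mul_le_mul_left _ (Nat.pow_le_pow_left hlogn 2))
    · exact Nat.pow_le_pow_right (by norm_num) ((size_le_log n).trans hlogn)
  have hM : 2 * M + 96 ≤ 2 ^ (2 * M + 96) := Nat.lt_two_pow_self.le
  have hpow : ∀ j : ℕ, (n + 1) ^ j ≤ 2 ^ (j * Lg) := by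
    intro j
    calc (n + 1) ^ j ≤ (2 ^ Lg) ^ j := Nat.pow_le_pow_left hnn j
      _ = _ := by rw [← pow_mul, mul_comm]
  have ht0 : t0Of c M n a ≤ 2 ^ (4 + c * Lg ^ 2 + 3 * Lg + (2 * M + 96)) * a := by
    unfold t0Of
    calc 8 * KOf c n * ((n + 1) ^ 2 * a * (2 * M + 96))
        ≤ 8 * (2 ^ (c * Lg ^ 2) * 2 * 2 ^ Lg) * (2 ^ (2 * Lg) * a * 2 ^ (2 * M + 96)) := by
          apply Nat.mul_le_mul (Nat.mul_le_mul_left _ hK)
          apply Nat.mul_le_mul _ hM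
          exact Nat.mul_le_mul_right _ (hpow 2)
      _ = _ := by
          rw [show 4 + c * Lg ^ 2 + 3 * Lg + (2 * M + 96) =
            4 + (c * Lg ^ 2) + Lg + 2 * Lg + (2 * M + 96) by ring]
          rw [pow_add, pow_add, pow_add, pow_add]
          ring
  have hN : (n + 1) * NOf n a ≤ 2 ^ (13 + 6 * Lg) * a ^ 2 := by
    unfold NOf
    calc (n + 1) * (4608 * (n + 1) ^ 5 * a ^ 2) = 4608 * (n + 1) ^ 6 * a ^ 2 := by ring
      _ ≤ 2 ^ 13 * 2 ^ (6 * Lg) * a ^ 2 := by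
          apply Nat.mul_le_mul_right
          exact Nat.mul_le_mul (by norm_num) (hpow 6)
      _ = _ := by rw [pow_add]
  have hDle : D ≤ 2 ^ (17 + c * Lg ^ 2 + 9 * Lg + (2 * M + 96)) * a ^ 3 := by
    rw [hD]
    calc t0Of c M n a * ((n + 1) * NOf n a)
        ≤ (2 ^ (4 + c * Lg ^ 2 + 3 * Lg + (2 * M + 96)) * a) * (2 ^ (13 + 6 * Lg) * a ^ 2) :=
          Nat.mul_le_mul ht0 hN
      _ = _ := by
          rw [show 17 + c * Lg ^ 2 + 9 * Lg + (2 * M + 96) =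
            (4 + c * Lg ^ 2 + 3 * Lg + (2 * M + 96)) + (13 + 6 * Lg) by ring]
          rw [pow_add _ (4 + c * Lg ^ 2 + 3 * Lg + (2 * M + 96)) (13 + 6 * Lg)]
          ring
  have hEle : E ≤ 2 ^ (7 + 2 * Lg) * a := by
    have h1 := size_le_self n
    have h2 := size_le_self (96 * (n + 1) ^ 2 * a)
    have h3 : 3 + n ≤ 32 * ((n + 1) ^ 2 * a) := by
      have h4 : n + 1 ≤ (n + 1) ^ 2 * a := by
        calc n + 1 = (n + 1) * 1 := (mul_one _).symm
          _ ≤ (n + 1) * ((n + 1) * a) :=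
              Nat.mul_le_mul_left _ (Nat.succ_le_of_lt (Nat.mul_pos (Nat.succ_pos _) (by omega)))
          _ = _ := by ring
      omega
    have h5 : E ≤ 128 * ((n + 1) ^ 2 * a) := by
      have h6 : 96 * (n + 1) ^ 2 * a = 96 * ((n + 1) ^ 2 * a) := by ring
      rw [h6] at h2
      rw [hE, h6]
      omega
    calc E ≤ 128 * ((n + 1) ^ 2 * a) := h5
      _ ≤ 2 ^ 7 * (2 ^ (2 * Lg) * a) :=
          Nat.mul_le_mul (by norm_num) (Nat.mul_le_mul_right _ (hpow 2))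
      _ = _ := by rw [pow_add]; ring
  have hDE : D * E ≤ 2 ^ (24 + c * Lg ^ 2 + 11 * Lg + (2 * M + 96)) * a ^ 4 := by
    calc D * E ≤ (2 ^ (17 + c * Lg ^ 2 + 9 * Lg + (2 * M + 96)) * a ^ 3) *
          (2 ^ (7 + 2 * Lg) * a) := Nat.mul_le_mul hDle hEle
      _ = _ := by
          rw [show 24 + c * Lg ^ 2 + 11 * Lg + (2 * M + 96) =
            (17 + c * Lg ^ 2 + 9 * Lg + (2 * M + 96)) + (7 + 2 * Lg) by ring]
          rw [pow_add _ (17 + c * Lg ^ 2 + 9 * Lg + (2 * M + 96)) (7 + 2 * Lg)]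
          ring
  have hbig : 16 * (D * E) ^ 2 ≤ W := by
    refine le_trans ?_ hW
    unfold qbits
    rw [← hLg]
    calc 16 * (D * E) ^ 2
        ≤ 2 ^ 4 * (2 ^ (24 + c * Lg ^ 2 + 11 * Lg + (2 * M + 96)) * a ^ 4) ^ 2 :=
          Nat.mul_le_mul (by norm_num) (Nat.pow_le_pow_left hDE 2)
      _ = 2 ^ (4 + 2 * (24 + c * Lg ^ 2 + 11 * Lg + (2 * M + 96))) * a ^ 8 := pow_step _ _
      _ ≤ _ := Nat.mul_le_mul
            (Nat.pow_le_pow_right (by norm_num) (expo_le c (2 * M + 96) Lg hLg1))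
            (Nat.pow_le_pow_right (by omega) (by omega))
  have ha0 : 0 < a := by omega
  have hNpos : 0 < (n + 1) * NOf n a := Nat.mul_pos (Nat.succ_pos n) (NOf_pos n a ha0)
  have hD1 : 1 ≤ D := by
    rw [hD]
    exact Nat.mul_pos (t0Of_pos c M n a ha0) hNpos
  have hE1 : 1 ≤ E := by omega
  have hb : bbOf n a W = E + Nat.size W := by
    unfold bbOf kOf
    omega
  unfold tOf
  rw [Nat.le_div_iff_mul_le (Nat.mul_pos hNpos (by rw [hb]; omega))]
  have e1 : t0Of c M n a * ((n + 1) * NOf n a * bbOf n a W) = D * E + D * Nat.size W := by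
    rw [hb, hD]
    ring
  rw [e1]
  have h1 : 2 * (D * E) ≤ W := lin_trick _ _ (Nat.mul_pos hD1 hE1) hbig
  have h2 : 2 * (D * Nat.size W) ≤ W := by
    apply sq_trick _ _ _ (size_sq_le W)
    refine le_trans ?_ hbig
    apply Nat.mul_le_mul_left
    exact Nat.pow_le_pow_left (Nat.le_mul_of_pos_right _ hE1) 2
  omega

/-- the bits used by all rounds -/
theorem bits_used (n a W : ℕ) : n * (NOf n a * (tOf n a W * bbOf n a W)) ≤ W := by
  have h1 : tOf n a W * ((n + 1) * NOf n a * bbOf n a W) ≤ W := Nat.div_mul_le_self _ _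
  refine le_trans ?_ h1
  calc n * (NOf n a * (tOf n a W * bbOf n a W))
      ≤ (n + 1) * (NOf n a * (tOf n a W * bbOf n a W)) := Nat.mul_le_mul_right _ (Nat.le_succ n)
    _ = _ := by ring

/-- the error of the coins -/
theorem coin_error (n a W : ℕ) (ha : 2 ≤ a) :
    (tOf n a W : ℝ) * (1 / 2 ^ kOf n a W) ≤ 1 / (96 * (n + 1) ^ 2 * a) := by
  have h1 : tOf n a W ≤ 2 ^ Nat.size W :=
    (Nat.div_le_self _ _).trans (Nat.lt_size_self W).le
  have h2 : 96 * (n + 1) ^ 2 * a ≤ 2 ^ Nat.size (96 * (n + 1) ^ 2 * a) :=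
    (Nat.lt_size_self _).le
  have h3 : tOf n a W * (96 * (n + 1) ^ 2 * a) ≤ 2 ^ kOf n a W := by
    unfold kOf
    rw [pow_add]
    exact Nat.mul_le_mul h1 h2
  have h4 : (tOf n a W : ℝ) * (96 * (n + 1) ^ 2 * a) ≤ 2 ^ kOf n a W := by exact_mod_cast h3
  have ha' : (0 : ℝ) < a := by
    have : (2 : ℝ) ≤ a := by exact_mod_cast ha
    linarith
  rw [mul_one_div, div_le_div_iff₀ (by positivity) (by positivity), one_mul]
  exact h4

/-- the mixing time is sufficient -/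
theorem mix_error {μ : ℝ} (hμ : 0 < μ) (hμ1 : μ ≤ 1) {M : ℕ} (hM : 1 / μ ≤ M) (c n a t n' : ℕ)
    (ha : 2 ≤ a) (hn' : n' ≤ n) (ht : t0Of c M n a ≤ t) :
    Real.sqrt (n'.factorial * 2 ^ n' / μ ^ n') * Real.exp (-(t / (8 * (KOf c n : ℝ)))) ≤
      1 / (96 * (n + 1) ^ 2 * a) := by
  have ha' : (0 : ℝ) < a := by
    have : (2 : ℝ) ≤ a := by exact_mod_cast ha
    linarith
  have hK : (0 : ℝ) < KOf c n := by
    exact_mod_cast KOf_pos c n
  obtain ⟨N, hN⟩ : ∃ N : ℝ, N = n + 1 := ⟨_, rfl⟩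
  have hN1 : 1 ≤ N := by
    rw [hN]
    have : (0 : ℝ) ≤ n := Nat.cast_nonneg n
    linarith
  have hMpos : (1 : ℝ) ≤ M := by
    refine le_trans ?_ hM
    rw [le_div_iff₀ hμ]
    linarith
  -- the exponent
  have h1 : N ^ 2 * a * (2 * M + 96) ≤ t / (8 * (KOf c n : ℝ)) := by
    rw [le_div_iff₀ (by positivity)]
    have h2 : ((t0Of c M n a : ℕ) : ℝ) ≤ t := by exact_mod_cast ht
    refine le_trans (le_of_eq ?_) h2
    unfold t0Of
    push_cast
    rw [hN]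
    ring
  have h2 : Real.exp (-(t / (8 * (KOf c n : ℝ)))) ≤
      Real.exp (-(2 * N ^ 2 * M)) * Real.exp (-(96 * N ^ 2 * a)) := by
    rw [← Real.exp_add]
    apply Real.exp_le_exp.2
    have h3 : 2 * N ^ 2 * M ≤ 2 * N ^ 2 * M * a := by
      have : (1 : ℝ) ≤ a := by
        have : (2 : ℝ) ≤ a := by exact_mod_cast ha
        linarith
      exact le_mul_of_one_le_right (by positivity) this
    linarith
  have h3 : (n'.factorial : ℝ) * 2 ^ n' / μ ^ n' ≤ Real.exp (2 * N * M) ^ n' := by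
    have h4 : (n'.factorial : ℝ) ≤ N ^ n' := by
      have h5 : n'.factorial ≤ n' ^ n' := Nat.factorial_le_pow n'
      have h6 : (n'.factorial : ℝ) ≤ (n' : ℝ) ^ n' := by exact_mod_cast h5
      refine h6.trans (pow_le_pow_left₀ (Nat.cast_nonneg _) ?_ _)
      rw [hN]
      have : (n' : ℝ) ≤ n := by exact_mod_cast hn'
      linarith
    have h5 : (n'.factorial : ℝ) * 2 ^ n' / μ ^ n' ≤ (2 * N * M) ^ n' := by
      rw [div_eq_mul_one_div, ← one_div_pow, mul_pow, mul_pow]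
      calc (n'.factorial : ℝ) * 2 ^ n' * (1 / μ) ^ n' ≤ N ^ n' * 2 ^ n' * (M : ℝ) ^ n' := by
            apply mul_le_mul
            · exact mul_le_mul_of_nonneg_right h4 (by positivity)
            · exact pow_le_pow_left₀ (by positivity) hM _
            · positivity
            · positivity
        _ = _ := by ring
    refine h5.trans (pow_le_pow_left₀ (by positivity) ?_ _)
    have := Real.add_one_le_exp (2 * N * M)
    linarith
  have h4 : Real.sqrt ((n'.factorial : ℝ) * 2 ^ n' / μ ^ n') ≤ Real.exp (2 * N ^ 2 * M) := by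
    rw [Real.sqrt_le_left (Real.exp_pos _).le]
    refine h3.trans ?_
    rw [← Real.exp_nat_mul, ← Real.exp_nat_mul]
    apply Real.exp_le_exp.2
    have h5 : (n' : ℝ) ≤ N := by
      rw [hN]
      have : (n' : ℝ) ≤ n := by exact_mod_cast hn'
      linarith
    have h6 : (n' : ℝ) * (2 * N * M) ≤ N * (2 * N * M) :=
      mul_le_mul_of_nonneg_right h5 (by positivity)
    have h7 : (0 : ℝ) ≤ 2 * N ^ 2 * M := by positivity
    push_cast
    nlinarith
  have h5 : 96 * N ^ 2 * a ≤ Real.exp (96 * N ^ 2 * a) := by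
    have := Real.add_one_le_exp (96 * N ^ 2 * a)
    linarith
  calc Real.sqrt (n'.factorial * 2 ^ n' / μ ^ n') * Real.exp (-(t / (8 * (KOf c n : ℝ))))
      ≤ Real.exp (2 * N ^ 2 * M) *
        (Real.exp (-(2 * N ^ 2 * M)) * Real.exp (-(96 * N ^ 2 * a))) :=
        mul_le_mul h4 h2 (Real.exp_pos _).le (Real.exp_pos _).le
    _ = Real.exp (-(96 * N ^ 2 * a)) := by
        rw [← mul_assoc, ← Real.exp_add]
        simp
    _ ≤ 1 / (96 * N ^ 2 * a) := by
        rw [Real.exp_neg, ← one_div]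
        exact one_div_le_one_div_of_le (by positivity) h5
    _ = _ := by rw [hN]

/-- Chebyshev's inequality is sufficient -/
theorem cheb_error (n a n' : ℕ) (ha : 2 ≤ a) (hn : 1 ≤ n') (hn' : n' ≤ n) :
    2 * (1 / (4 * (NOf n a : ℝ) * (1 / (3 * (n + 1) * a) / (16 * n')) ^ 2)) ≤
      1 / (4 * (n + 1)) := by
  have ha' : (0 : ℝ) < a := by
    have : (2 : ℝ) ≤ a := by exact_mod_cast ha
    linarith
  have hn0 : (0 : ℝ) < n' := by exact_mod_cast (show 0 < n' by omega)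
  obtain ⟨N, hN⟩ : ∃ N : ℝ, N = n + 1 := ⟨_, rfl⟩
  have hN1 : 1 ≤ N := by
    rw [hN]
    have : (0 : ℝ) ≤ n := Nat.cast_nonneg n
    linarith
  have hnN : (n' : ℝ) ≤ N := by
    rw [hN]
    have : (n' : ℝ) ≤ n := by exact_mod_cast hn'
    linarith
  have e1 : (NOf n a : ℝ) = 4608 * N ^ 5 * a ^ 2 := by
    unfold NOf
    push_cast
    rw [hN]
  rw [e1, ← hN]
  have e2 : 2 * (1 / (4 * (4608 * N ^ 5 * (a : ℝ) ^ 2) * (1 / (3 * N * a) / (16 * n')) ^ 2)) =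
      (n' : ℝ) ^ 2 / (4 * N ^ 3) := by
    field_simp
    norm_num
  rw [e2, div_le_div_iff₀ (by positivity) (by positivity)]
  have h1 : (n' : ℝ) ^ 2 ≤ N ^ 2 := pow_le_pow_left₀ hn0.le hnN 2
  calc (n' : ℝ) ^ 2 * (4 * N) ≤ N ^ 2 * (4 * N) := mul_le_mul_of_nonneg_right h1 (by positivity)
    _ = 1 * (4 * N ^ 3) := by ring

end Pool.Agent.QPR
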