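import Pool.Agent.QPR.QLog

/-!
# The boundary points, with gadgets of logarithmic size
-/

set_option autoImplicit false

namespace Pool.Agent.QPR

open Pool.Agent.PT Pool.Agent.TutteHard Pool.Agent.TutteEq Real

/-- the size of the gadgets -/
def lnum (z : MGraph × List Bool) : ℕ := (z.1.length + 1) + Nat.size (z.2.length + 2)

theorem pt_lnum : PT (fun z : MGraph × List Bool => U.mk (lnum z)) := by
  have h1 : PT (fun z : MGraph × List Bool => U.mk (z.1.length + 1)) := (PT.length PT.fst).usucc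
  have h2 : PT (fun z : MGraph × List Bool => U.mk (z.2.length + 2)) :=
    (PT.length PT.snd).usucc.usucc
  exact h1.uadd (pt_size (pt_uval h2))

theorem lnum_pow (G : MGraph) (e : List Bool) :
    (G.length + 1) * (e.length + 2) ≤ 2 ^ lnum (G, e) := by
  unfold lnum
  rw [pow_add]
  exact Nat.mul_le_mul Nat.lt_two_pow_self.le (Nat.lt_size_self _).le

theorem lnum_pos (z : MGraph × List Bool) : 1 ≤ lnum z := by
  unfold lnum
  omega

theorem size_eq_log {n : ℕ} (h : n ≠ 0) : Nat.size n = Nat.log 2 n + 1 := by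
  apply le_antisymm
  · exact Nat.size_le.2 (Nat.lt_pow_succ_log_self (by norm_num) n)
  · have h1 : 2 ^ Nat.log 2 n ≤ n := Nat.pow_log_le_self 2 h
    have h2 : n < 2 ^ Nat.size n := Nat.lt_size_self n
    have h3 : 2 ^ Nat.log 2 n < 2 ^ Nat.size n := by omega
    have := (Nat.pow_lt_pow_iff_right (by norm_num : 1 < 2)).1 h3
    omega

theorem lnum_le (G : MGraph) (e : List Bool) :
    lnum (G, e) ≤ 2 * (size G + Nat.log 2 (e.length + 2) + 1) := by
  unfold lnum
  have h1 : G.length ≤ size G := length_le_enc G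
  simp only
  rw [size_eq_log (by omega : e.length + 2 ≠ 0)]
  omega

/-- the choice of the constant -/
theorem exists_c_log {a b : ℝ} (ha0 : 0 ≤ a) (ha : a < 1) (hb : 0 < b) (hb1 : b ≤ 1) :
    ∃ c : ℕ, 1 ≤ c ∧ ∀ L : ℕ, 1 ≤ L → a ^ (c * L) ≤ b / (8 * 2 ^ L) := by
  obtain ⟨n, hn⟩ := exists_pow_lt_of_lt_one (show (0 : ℝ) < b / 16 by positivity) ha
  refine ⟨n + 1, by omega, fun L hL => ?_⟩
  have h1 : a ^ (n + 1) ≤ b / 16 := by
    rw [pow_succ]
    nlinarith [pow_nonneg ha0 n]
  have h2 : a ^ ((n + 1) * L) ≤ (b / 16) ^ L := by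
    rw [pow_mul]
    exact pow_le_pow_left₀ (pow_nonneg ha0 _) h1 L
  have h3 : b ^ L ≤ b := by
    calc b ^ L ≤ b ^ 1 := pow_le_pow_of_le_one hb.le hb1 hL
      _ = b := pow_one b
  have h4 : (8 * 2 ^ L : ℝ) ≤ 16 ^ L := by
    have h5 : (8 : ℝ) ^ 1 ≤ 8 ^ L := pow_le_pow_right₀ (by norm_num) hL
    have h6 : (16 : ℝ) ^ L = 8 ^ L * 2 ^ L := by
      rw [← mul_pow]
      norm_num
    rw [h6]
    apply mul_le_mul_of_nonneg_right _ (by positivity)
    linarith
  calc a ^ ((n + 1) * L) ≤ (b / 16) ^ L := h2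
    _ = b ^ L / 16 ^ L := div_pow _ _ _
    _ ≤ b / 16 ^ L := div_le_div_of_nonneg_right h3 (by positivity)
    _ ≤ b / (8 * 2 ^ L) := div_le_div_of_nonneg_left hb.le (by positivity) h4

/-- from a point with `|y| < 1` to the chromatic point -/
theorem qp_chrom (h : S_Arith) (h2 : S_Arith2) (hr : S_Rank) (ht : S_TutteZt) (hp : S_Pert)
    (hz : S_Zero) (ho : S_Pos) (hk : S_Thick) (q y : ℚ) (hq0 : 0 < q) (hq1 : q < 1)
    (hy : |y| < 1) (hQP : QP (1 + q / (y - 1) : ℝ) (y : ℝ)) :
    QP (1 - q : ℝ) 0 := by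
  classical
  have hq0' : (0 : ℝ) < (q : ℝ) := by exact_mod_cast hq0
  have hq1' : (q : ℝ) < 1 := by exact_mod_cast hq1
  have hy2 : ((y : ℝ)) ^ 2 < 1 := by
    have : |(y : ℝ)| < 1 := by exact_mod_cast hy
    rw [sq_lt_one_iff_abs_lt_one]
    exact this
  have hy1 : (y : ℝ) < 1 := by
    have := (abs_lt.1 hy).2
    exact_mod_cast this
  have htq : (0 : ℚ) < 1 - y := by
    have := (abs_lt.1 hy).2
    linarith
  obtain ⟨c, hc1, hc⟩ := exists_c_log (a := (y : ℝ) ^ 2) (b := 1 - (q : ℝ)) (by positivity) hy2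
    (by linarith) (by linarith)
  set P : ℕ := (1 - y).num.toNat with hP
  set Q : ℕ := (1 - y).den with hQ
  have hQ0 : 0 < Q := (1 - y).den_pos
  have hPQ : (P : ℝ) / (Q : ℝ) = 1 - (y : ℝ) := by
    have e1 : ((P : ℤ) : ℚ) = ((1 - y).num : ℚ) := by
      rw [hP, Int.toNat_of_nonneg (Rat.num_nonneg.2 htq.le)]
    have e2 : (P : ℚ) / (Q : ℚ) = 1 - y := by
      have e3 : (P : ℚ) = ((1 - y).num : ℚ) := by
        rw [← e1]
        norm_cast
      rw [e3, hQ]
      exact Rat.num_div_den _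
    have e4 : (((P : ℚ) / (Q : ℚ) : ℚ) : ℝ) = ((1 - y : ℚ) : ℝ) := by rw [e2]
    push_cast at e4
    exact e4
  have hrk := hr.1
  have hlp := hr.2.1
  have hkk : PT (fun z : MGraph × List Bool => U.mk (2 * (c * lnum z))) :=
    (PT.const (U.mk 2)).umul ((PT.const (U.mk c)).umul pt_lnum)
  have hN : PT (fun z : MGraph × List Bool =>
      if decide (HasLoop z.1) = true then 0 else P ^ rank z.1 Finset.univ) :=
    PT.ite (hlp.comp PT.fst) (PT.const 0) (h2.2.1 _ (fun _ => P) _ (PT.const P) (hrk.comp PT.fst))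
  have hD : PT (fun z : MGraph × List Bool => Q ^ rank z.1 Finset.univ) :=
    h2.2.1 _ (fun _ => Q) _ (PT.const Q) (hrk.comp PT.fst)
  refine ltransfer (fun G => ?_) hk.1 hkk hN hD (4 * c) (fun G e => ?_)
    (fun G e => ⟨pow_pos hQ0 _, ?_⟩) hQP
  · have := ht G q 1 hq0'.ne' one_ne_zero
    rw [one_pow, one_mul, div_one, sub_self] at this
    rw [this]
    exact ho G q 1 hq0' hq1' hq1'.le le_rfl
  · have h5 := lnum_le G e
    change 2 * (c * lnum (G, e)) ≤ _
    calc 2 * (c * lnum (G, e)) ≤ 2 * (c * (2 * (size G + Nat.log 2 (e.length + 2) + 1))) :=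
          Nat.mul_le_mul_left _ (Nat.mul_le_mul_left _ h5)
      _ = _ := by ring
  have hF : tutte G (1 - q : ℝ) 0 = Zt q 1 G := by
    have := ht G q 1 hq0'.ne' one_ne_zero
    rw [one_pow, one_mul, div_one, sub_self] at this
    exact this
  simp only
  rw [hF]
  by_cases hL : HasLoop G
  · have h0 := (hz G q hq0'.ne').1 hL
    rw [h0]
    simp [hL]
  · have hk1 : 1 ≤ 2 * (c * lnum (G, e)) := by
      have h5 := lnum_pos (G, e)
      have : 0 < 2 * (c * lnum (G, e)) := by positivity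
      exact this
    obtain ⟨hrk', hthick⟩ := hk.2 G ((2 * (c * lnum (G, e)))) hk1
    have hT := ht (thick ((2 * (c * lnum (G, e)))) G) q (1 - (y : ℝ)) hq0'.ne' (by linarith)
    rw [hrk', hthick] at hT
    have hx : (1 : ℝ) + q / (y - 1) = 1 - q / (1 - y) := by
      rw [show (y : ℝ) - 1 = -(1 - y) by ring, div_neg]
      ring
    have hval : ((if decide (HasLoop G) = true then 0 else P ^ rank G Finset.univ : ℕ) : ℝ) /
        ((Q ^ rank G Finset.univ : ℕ) : ℝ) *
        tutte (thick ((2 * (c * lnum (G, e)))) G) (1 + q / (y - 1) : ℝ) (y : ℝ) =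
        Zt q (1 - (1 - (1 - (y : ℝ))) ^ (2 * (c * lnum (G, e)))) G := by
      rw [← hT, hx]
      simp only [hL, decide_false, Bool.false_eq_true, if_false]
      push_cast
      rw [← div_pow, hPQ, sub_sub_cancel]
    rw [hval]
    set M : ℕ := (G.length + 1) * (e.length + 2) with hM
    have hM1 : 1 ≤ M := by
      have : 0 < (G.length + 1) * (e.length + 2) := by positivity
      exact this
    have hMr : (1 : ℝ) ≤ M := by exact_mod_cast hM1
    have hpow : (1 - (1 - (y : ℝ))) ^ (2 * (c * lnum (G, e))) =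
        ((y : ℝ) ^ 2) ^ (c * lnum (G, e)) := by
      rw [sub_sub_cancel, ← pow_mul]
    rw [hpow]
    set s : ℝ := ((y : ℝ) ^ 2) ^ (c * lnum (G, e)) with hs
    have hs0 : 0 ≤ s := by positivity
    have hML : (M : ℝ) ≤ 2 ^ lnum (G, e) := by
      have := lnum_pow G e
      rw [← hM] at this
      exact_mod_cast this
    have hsM : s ≤ (1 - q) / (2 * M) := by
      refine (hc (lnum (G, e)) (lnum_pos _)).trans ?_
      apply div_le_div_of_nonneg_left (by linarith) (by linarith)
      linarith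
    set δ : ℝ := 1 / (M : ℝ) with hδ
    have hδ0 : 0 ≤ δ := by positivity
    have hδ1 : δ ≤ 1 := by
      rw [hδ, div_le_one (by linarith)]
      exact hMr
    have he := redA_exp hδ0 hδ1
    have he1 : (1 : ℝ) ≤ exp δ := one_le_exp hδ0
    have hsd : s ≤ (1 - q) * (δ / 2) := by
      refine hsM.trans (le_of_eq ?_)
      rw [hδ]
      field_simp
    have hsδ : s ≤ δ / 2 := by nlinarith
    have hmain := hp G q (1 - s) 1 δ hq0' hq1' hδ0 (by nlinarith) (by linarith) hq1'.le le_rfl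
      (by rw [mul_one]; linarith) (by linarith)
      (fun h' => absurd h' hL)
      (fun _ => ⟨by nlinarith [mul_le_mul_of_nonneg_right he (show (0 : ℝ) ≤ 1 - q by linarith)],
        by nlinarith⟩)
    have hZ0 : 0 ≤ Zt q 1 G := ho G q 1 hq0' hq1' hq1'.le le_rfl
    have hlen : (G.length : ℝ) * δ ≤ 1 / (e.length + 2) := by
      rw [hδ, hM]
      push_cast
      rw [mul_one_div, div_le_div_iff₀ (by positivity) (by positivity)]
      nlinarith [show (0 : ℝ) ≤ (e.length : ℝ) by positivity,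
        show (0 : ℝ) ≤ (G.length : ℝ) by positivity]
    constructor
    · refine le_trans ?_ hmain.1
      refine mul_le_mul_of_nonneg_right (exp_le_exp.2 ?_) hZ0
      linarith
    · refine hmain.2.trans ?_
      exact mul_le_mul_of_nonneg_right (exp_le_exp.2 hlen) hZ0


open scoped Classical in
/-- from the chromatic point to the flow point -/
theorem qp_flow (h : S_Arith) (h2 : S_Arith2) (hr : S_Rank) (ht : S_TutteZt) (ho : S_Pos)
    (hp : S_Pert) (hz : S_Zero) (hw : S_NetW) (hc : S_Chain) (hd : S_Red) (hq : S_PTRed)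
    (q : ℚ) (hq0 : 0 < q) (hq1 : q < 1) (hQP : QP (1 - q : ℝ) 0) : QP 0 (1 - q : ℝ) := by
  have hq0' : (0 : ℝ) < q := by exact_mod_cast hq0
  have hq1' : (q : ℝ) < 1 := by exact_mod_cast hq1
  obtain ⟨c, -, hc8⟩ := exists_c_log (a := 1 - (q : ℝ)) (b := 1) (by linarith) (by linarith)
    one_pos le_rfl
  obtain ⟨a, b, ha, hb, hab⟩ : ∃ a b : ℕ, 0 < a ∧ 0 < b ∧ (q : ℝ) = a / b := by
    have hn : 0 < q.num := Rat.num_pos.2 hq0
    refine ⟨q.num.toNat, q.den, by omega, q.den_pos, ?_⟩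
    have h3 : ((q.num.toNat : ℤ) : ℝ) = (q.num : ℝ) := by
      rw [Int.toNat_of_nonneg hn.le]
    rw [Rat.cast_def, ← h3]
    push_cast
    rfl
  have ha' : (0 : ℝ) < a := by exact_mod_cast ha
  have hb' : (0 : ℝ) < b := by exact_mod_cast hb
  -- polynomial-time parameters
  have pG : PT (fun z : MGraph × List Bool => z.1) := PT.fst
  have pm : PT (fun z : MGraph × List Bool => U.mk z.1.length) := PT.fst.length
  have pn : PT (fun z : MGraph × List Bool => U.mk z.2.length) := PT.snd.length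
  have pr : PT (fun z : MGraph × List Bool => U.mk (rank z.1 Finset.univ)) :=
    hr.1.comp PT.fst
  have pB : PT (fun z : MGraph × List Bool => decide (HasBridge z.1)) := hr.2.2.comp PT.fst
  have ppow : ∀ (k : ℕ) (e : MGraph × List Bool → U), PT e →
      PT (fun z : MGraph × List Bool => k ^ (e z).val) := fun k e he =>
    h2.2.1 _ (fun _ => k) e (PT.const k) he
  have pmul : ∀ f g : MGraph × List Bool → ℕ, PT f → PT g → PT (fun z => f z * g z) :=
    fun f g hf hg => (h _ f g hf hg).2.2.1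
  have p1 : PT (fun z : MGraph × List Bool => U.mk (c * lnum z)) :=
    (PT.const (U.mk c)).umul pt_lnum
  have pg : PT (fun z : MGraph × U => redN (NT.edge.chain z.2.val) z.1) :=
    hq.2.comp (PT.snd.pair PT.fst)
  have pN : PT (fun z : MGraph × List Bool => if decide (HasBridge z.1) then 0 else
      a ^ z.1.length * b ^ rank z.1 Finset.univ) :=
    PT.ite pB (PT.const 0) (pmul _ _ (ppow a _ pm) (ppow b _ pr))
  have pD : PT (fun z : MGraph × List Bool => b ^ z.1.length * a ^ rank z.1 Finset.univ) :=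
    pmul _ _ (ppow b _ pm) (ppow a _ pr)
  refine ltransfer (fun G => ?_) pg p1 pN pD (2 * c) (fun G e => ?_) ?_ hQP
  · have e1 : (q : ℝ) ^ rank G Finset.univ * tutte G 0 (1 - q : ℝ) = Zt q q G := by
      have := ht G q q hq0'.ne' hq0'.ne'
      rwa [div_self hq0'.ne', sub_self] at this
    have e2 : 0 ≤ Zt q q G := ho G q q hq0' hq1' le_rfl hq1'.le
    rw [← e1] at e2
    exact (mul_nonneg_iff_of_pos_left (by positivity)).1 e2
  · have h5 := lnum_le G e
    change c * lnum (G, e) ≤ _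
    calc c * lnum (G, e) ≤ c * (2 * (size G + Nat.log 2 (e.length + 2) + 1)) :=
          Nat.mul_le_mul_left _ h5
      _ = _ := by ring
  intro G e
  have hD : 0 < b ^ G.length * a ^ rank G Finset.univ := by positivity
  refine ⟨hD, ?_⟩
  have hqr : (0 : ℝ) < (q : ℝ) ^ rank G Finset.univ := by positivity
  -- the flow point
  have e1 : (q : ℝ) ^ rank G Finset.univ * tutte G 0 (1 - q : ℝ) = Zt q q G := by
    have := ht G q q hq0'.ne' hq0'.ne'
    rwa [div_self hq0'.ne', sub_self] at this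
  simp only
  by_cases hB : HasBridge G
  · have h0 : tutte G 0 (1 - q : ℝ) = 0 := by
      have h3 := (hz G q hq0'.ne').2 hB
      rw [h3] at e1
      exact (mul_eq_zero.1 e1).resolve_left hqr.ne'
    rw [h0]
    simp [hB]
  have hN : ((if decide (HasBridge G) = true then 0 else
      a ^ G.length * b ^ rank G Finset.univ : ℕ) : ℝ) = (a : ℝ) ^ G.length *
        (b : ℝ) ^ rank G Finset.univ := by
    simp [hB]
  rw [hN]
  set m := G.length with hm
  set r := rank G Finset.univ with hrr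
  set n := e.length with hn
  set M := (m + 1) * (n + 2) with hM
  have hM1 : 2 ≤ M := by
    rw [hM]; nlinarith
  have hM' : (2 : ℝ) ≤ M := by exact_mod_cast hM1
  set L := lnum (G, e) with hL
  have hML : (M : ℝ) ≤ 2 ^ L := by
    have := lnum_pow G e
    rw [← hM, ← hL] at this
    exact_mod_cast this
  have hok : NT.edge.ok := trivial
  obtain ⟨c1, c2, c3, c4⟩ := hc (q : ℝ) hq0' hq1' NT.edge hok (c * L)
  obtain ⟨d1, d2⟩ := hd (q : ℝ) hq0' hq1' (NT.edge.chain (c * L)) c1 G
  have e2 : tutte (redN (NT.edge.chain (c * L)) G) (1 - q : ℝ) 0 =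
      Zt q 1 (redN (NT.edge.chain (c * L)) G) := by
    have := ht (redN (NT.edge.chain (c * L)) G) q 1 hq0'.ne' one_ne_zero
    rwa [one_pow, one_mul, div_one, sub_self] at this
  set A := NT.edge.chain (c * L) with hA
  have hw1 : NT.edge.wt (q : ℝ) = -1 := rfl
  have hf1 : NT.edge.fac (q : ℝ) = 1 := rfl
  have hc1 : NT.edge.cnt = 0 := rfl
  rw [hw1] at c3 c4
  rw [hf1, hc1] at c4
  set x := (1 - (q : ℝ)) ^ (c * L) * (1 - q) with hx
  have hx3 : (1 - (q : ℝ)) ^ (c * L) * (1 + q / -1) = x := by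
    rw [hx]; congr 1; ring
  rw [hx3] at c3 c4
  have hx0 : 0 < x := by
    have : 0 < 1 - (q : ℝ) := by linarith
    positivity
  have hsm : (1 - (q : ℝ)) ^ (c * L) ≤ 1 / (8 * (M : ℝ)) := by
    refine (hc8 L (lnum_pos _)).trans ?_
    apply div_le_div_of_nonneg_left (by norm_num) (by linarith)
    linarith
  have hest := redC_est (q : ℝ) x (1 / (2 * M)) hq0' hq1' (by positivity) (by
      rw [div_le_div_iff₀ (by linarith) (by norm_num)]; linarith) hx0 (by
      rw [hx]
      have h5 : (1 - (q : ℝ)) * (1 / (2 * (M : ℝ))) / 4 = 1 / (8 * (M : ℝ)) * (1 - q) := by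
        field_simp
        ring
      rw [h5]
      exact mul_le_mul_of_nonneg_right hsm (by linarith))
  obtain ⟨f1, f2, f3, f4, f5, f6, f7⟩ := hest
  have hx1 : x < 1 := by
    have := exp_pos (-(1 / (2 * (M : ℝ))))
    linarith
  have hwt : A.wt (q : ℝ) ≠ 0 := by
    have := (hw (q : ℝ) hq0' hq1' A c1).2.1
    intro h0
    rw [h0] at this
    linarith
  have hwt2 : -(A.wt (q : ℝ)) = q / (1 - x) := by
    have h5 : 1 - x = -q / A.wt (q : ℝ) := by
      rw [← c3]; ring
    rw [h5]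
    field_simp
  have hfac : (-1) ^ A.cnt * A.fac (q : ℝ) = (1 - x) / q := by
    rw [c4]
    rw [pow_zero, one_mul, one_mul]
    congr 1
    ring
  rw [hwt2, hfac] at d2
  set t := (q : ℝ) / (1 - x) with htt
  obtain ⟨g1, g2⟩ := hp G q t q (1 / (2 * M)) hq0' hq1' (by positivity) f1 f2 le_rfl hq1'.le
    f3 f4 (fun _ => ⟨f5, f6⟩) (fun hb' => absurd hb' hB)
  rw [← hm] at g1 g2
  have hF : 0 ≤ Zt q q G := ho G q q hq0' hq1' le_rfl hq1'.le
  have hT : tutte G 0 (1 - q : ℝ) = Zt q q G / q ^ r := by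
    rw [← e1]
    field_simp
  have key : ((a : ℝ) ^ m * (b : ℝ) ^ r) / ((b ^ m * a ^ r : ℕ) : ℝ) *
      tutte (redN A G) (1 - q : ℝ) 0 = (1 - x) ^ m * (Zt q t G / q ^ r) := by
    rw [e2, d2, ← hm, div_pow, hab]
    push_cast
    rw [div_pow, div_pow]
    field_simp
  rw [key, hT]
  have hmM : (m : ℝ) * (1 / (2 * M)) + m * (1 / (2 * M)) ≤ 1 / (n + 2) := by
    have h5 : (m : ℝ) * (1 / (2 * M)) + m * (1 / (2 * M)) = m / M := by
      field_simp
      ring
    rw [h5, hM]
    push_cast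
    rw [div_le_div_iff₀ (by positivity) (by positivity)]
    nlinarith [Nat.cast_nonneg (α := ℝ) m, Nat.cast_nonneg (α := ℝ) n]
  have hm0 : 0 ≤ (m : ℝ) * (1 / (2 * M)) := by positivity
  have hF' : 0 ≤ Zt q q G / q ^ r := by positivity
  have g3 : exp (-(m * (1 / (2 * M)))) * (Zt q q G / q ^ r) ≤ Zt q t G / q ^ r := by
    rw [← mul_div_assoc]
    exact div_le_div_of_nonneg_right g1 hqr.le
  have g4 : Zt q t G / q ^ r ≤ exp (m * (1 / (2 * M))) * (Zt q q G / q ^ r) := by
    rw [← mul_div_assoc]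
    exact div_le_div_of_nonneg_right g2 hqr.le
  have g5 : exp (-(m * (1 / (2 * M)))) ≤ (1 - x) ^ m := by
    have h5 : exp (-(m * (1 / (2 * (M : ℝ))))) = exp (-(1 / (2 * (M : ℝ)))) ^ m := by
      rw [← exp_nat_mul]
      congr 1
      ring
    rw [h5]
    exact pow_le_pow_left₀ (exp_pos _).le f7 m
  have g6 : (1 - x) ^ m ≤ 1 := pow_le_one₀ (by linarith) (by linarith)
  generalize Zt q q G / q ^ r = F at *
  generalize Zt q t G / q ^ r = F' at *
  have hF2 : 0 ≤ F' := le_trans (by positivity) g3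
  constructor
  · calc exp (-(1 / ((n : ℝ) + 2))) * F
        ≤ exp (-(m * (1 / (2 * M))) + -(m * (1 / (2 * M)))) * F := by
          refine mul_le_mul_of_nonneg_right (exp_le_exp.2 ?_) hF'
          linarith
      _ = exp (-(m * (1 / (2 * M)))) * (exp (-(m * (1 / (2 * M)))) * F) := by
          rw [exp_add, mul_assoc]
      _ ≤ (1 - x) ^ m * F' := mul_le_mul g5 g3 (by positivity) (by
          have : 0 < 1 - x := by linarith
          positivity)
  · calc (1 - x) ^ m * F' ≤ 1 * F' := mul_le_mul_of_nonneg_right g6 hF2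
      _ = F' := one_mul _
      _ ≤ exp (m * (1 / (2 * M))) * F := g4
      _ ≤ exp (1 / ((n : ℝ) + 2)) * F := by
          refine mul_le_mul_of_nonneg_right (exp_le_exp.2 ?_) hF'
          linarith


end Pool.Agent.QPR
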