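import Pool.Agent.QPR.QTransfer
import Pool.Agent.QPR.PTa
import Pool.Agent.QPR.Graph
import Pool.Agent.TutteEq.Final2
import Pool.Agent.TutteEq.RedA
import Pool.Agent.TutteEq.RedC

/-!
# Transfer of the schemes with `n ^ O(log n) * poly (1 / ε)` random bits

The reductions use gadgets whose size is polynomial in the size of the graph and in the logarithm
of `1 / ε`.
-/

set_option autoImplicit false

namespace Pool.Agent.QPR

open Pool.Agent.PT Pool.Agent.TutteHard Pool.Agent.TutteEq Real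

theorem eval_mono (Q : Polynomial ℕ) {a b : ℕ} (h : a ≤ b) : Q.eval a ≤ Q.eval b := by
  induction Q using Polynomial.induction_on' with
  | add p q hp hq => rw [Polynomial.eval_add, Polynomial.eval_add]; exact Nat.add_le_add hp hq
  | monomial k c =>
    rw [Polynomial.eval_monomial, Polynomial.eval_monomial]
    exact Nat.mul_le_mul_left _ (Nat.pow_le_pow_left h k)

theorem log_add_le (n l : ℕ) : Nat.log 2 (n + l) + 1 ≤ (Nat.log 2 n + 1) + (Nat.log 2 l + 1) := by
  have h1 : n < 2 ^ (Nat.log 2 n + 1) := Nat.lt_pow_succ_log_self (by norm_num) n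
  have h2 : l < 2 ^ (Nat.log 2 l + 1) := Nat.lt_pow_succ_log_self (by norm_num) l
  have h3 : n + l < 2 ^ (Nat.log 2 n + 1 + (Nat.log 2 l + 1)) := by
    have e1 : 2 ^ (Nat.log 2 n + 1) ≤ 2 ^ (Nat.log 2 n + Nat.log 2 l + 1) :=
      Nat.pow_le_pow_right (by norm_num) (by omega)
    have e2 : 2 ^ (Nat.log 2 l + 1) ≤ 2 ^ (Nat.log 2 n + Nat.log 2 l + 1) :=
      Nat.pow_le_pow_right (by norm_num) (by omega)
    have e3 : 2 ^ (Nat.log 2 n + 1 + (Nat.log 2 l + 1)) =
        2 ^ (Nat.log 2 n + Nat.log 2 l + 1) * 2 := by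
      rw [← pow_succ]
      congr 1
      ring
    omega
  have h4 : Nat.log 2 (n + l) < Nat.log 2 n + 1 + (Nat.log 2 l + 1) := by
    apply Nat.log_lt_of_lt_pow' (by omega) h3
  omega

theorem sq_le_pow (t : ℕ) : (t + 1) ^ 2 ≤ 4 * 2 ^ t := by
  induction t with
  | zero => norm_num
  | succ t ih =>
    rcases Nat.lt_or_ge t 2 with h | h
    · interval_cases t <;> norm_num
    · rw [pow_succ 2 t]
      nlinarith

theorem log_sq_le (l : ℕ) : (Nat.log 2 l + 1) ^ 2 ≤ 4 * (l + 1) := by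
  rcases Nat.eq_zero_or_pos l with h | h
  · subst h
    simp
  · have h1 : 2 ^ Nat.log 2 l ≤ l := Nat.pow_log_le_self 2 (by omega)
    have := sq_le_pow (Nat.log 2 l)
    omega

/-- the number of bits after a reduction whose output has size polynomial in `n + log a` -/
theorem qbits_log (c : ℕ) (Q : Polynomial ℕ) (d0 : ℕ) :
    ∃ c' : ℕ, ∀ n a s : ℕ, 2 ≤ a → s ≤ Q.eval (d0 * (n + Nat.log 2 a + 1)) →
      qbits c s (3 * a) ≤ qbits c' n a := by
  obtain ⟨d, hd⟩ := log_poly (Q.comp (Polynomial.C d0 * (Polynomial.X + 1)))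
  refine ⟨16 * (c * (d + 1) ^ 2) + 3 * c, fun n a s ha hs => ?_⟩
  have h1 : Nat.log 2 s ≤ d * (Nat.log 2 (n + Nat.log 2 a) + 1) := by
    refine (Nat.log_mono_right hs).trans ?_
    have := hd (n + Nat.log 2 a)
    rw [Polynomial.eval_comp] at this
    simp only [Polynomial.eval_mul, Polynomial.eval_C, Polynomial.eval_add, Polynomial.eval_X,
      Polynomial.eval_one] at this
    exact this
  obtain ⟨l, hl⟩ : ∃ l, l = Nat.log 2 a := ⟨_, rfl⟩
  rw [← hl] at h1
  obtain ⟨u, hu⟩ : ∃ u, u = Nat.log 2 n + 1 := ⟨_, rfl⟩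
  obtain ⟨v, hv⟩ : ∃ v, v = Nat.log 2 l + 1 := ⟨_, rfl⟩
  have h2 : Nat.log 2 s + 1 ≤ (d + 1) * (u + v) := by
    have h3 := log_add_le n l
    rw [← hu, ← hv] at h3
    have h4 : d * (Nat.log 2 (n + l) + 1) ≤ d * (u + v) := Nat.mul_le_mul_left _ h3
    have h5 : (d + 1) * (u + v) = d * (u + v) + (u + v) := by ring
    omega
  have h3 : (Nat.log 2 s + 1) ^ 2 ≤ (d + 1) ^ 2 * (2 * u ^ 2 + 8 * (l + 1)) := by
    calc (Nat.log 2 s + 1) ^ 2 ≤ ((d + 1) * (u + v)) ^ 2 := Nat.pow_le_pow_left h2 2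
      _ = (d + 1) ^ 2 * (u + v) ^ 2 := by ring
      _ ≤ _ := by
        apply Nat.mul_le_mul_left
        have h4 := log_sq_le l
        rw [← hv] at h4
        have h5 : (u + v) ^ 2 ≤ 2 * u ^ 2 + 2 * v ^ 2 := by
          have : ((u + v) ^ 2 : ℤ) ≤ 2 * (u : ℤ) ^ 2 + 2 * (v : ℤ) ^ 2 := by
            nlinarith [sq_nonneg ((u : ℤ) - v)]
          exact_mod_cast this
        omega
  have h4 : 2 ^ (l + 1) ≤ a ^ 2 := by
    rw [pow_succ, hl, pow_two]
    exact Nat.mul_le_mul (Nat.pow_log_le_self 2 (by omega)) ha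
  have h5 : 3 * a ≤ a ^ 3 := by
    have : 3 * a ≤ (a * a) * a := Nat.mul_le_mul_right _ (by nlinarith)
    calc 3 * a ≤ (a * a) * a := this
      _ = a ^ 3 := by ring
  obtain ⟨K, hK⟩ : ∃ K, K = c * (d + 1) ^ 2 := ⟨_, rfl⟩
  unfold qbits
  rw [← hK, ← hu]
  calc 2 ^ (c * (Nat.log 2 s + 1) ^ 2) * (3 * a) ^ c
      ≤ 2 ^ (K * (2 * u ^ 2 + 8 * (l + 1))) * (a ^ 3) ^ c := by
        apply Nat.mul_le_mul
        · apply Nat.pow_le_pow_right (by norm_num)
          rw [hK, mul_assoc]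
          exact Nat.mul_le_mul_left _ h3
        · exact Nat.pow_le_pow_left h5 c
    _ = 2 ^ (K * 2 * u ^ 2) * (2 ^ (l + 1)) ^ (8 * K) * a ^ (3 * c) := by
        rw [← pow_mul, ← pow_mul, ← pow_add]
        congr 2
        ring
    _ ≤ 2 ^ ((16 * K + 3 * c) * u ^ 2) * (a ^ 2) ^ (8 * K) * a ^ (3 * c) := by
        apply Nat.mul_le_mul_right
        apply Nat.mul_le_mul
        · apply Nat.pow_le_pow_right (by norm_num)
          apply Nat.mul_le_mul_right
          omega
        · exact Nat.pow_le_pow_left h4 _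
    _ = 2 ^ ((16 * K + 3 * c) * u ^ 2) * a ^ (16 * K + 3 * c) := by
        rw [mul_assoc, ← pow_mul, ← pow_add]
        congr 2
        ring

/-- transfer through a reduction with small gadgets -/
theorem ltransfer {x y x' y' : ℝ} (hpos : ∀ G : MGraph, 0 ≤ tutte G x' y')
    {g : MGraph × U → MGraph} {k : MGraph × List Bool → U} {N D : MGraph × List Bool → ℕ}
    (hg : PT g) (hk : PT k) (hN : PT N) (hD : PT D) (c0 : ℕ)
    (hkb : ∀ (G : MGraph) (e : List Bool),
      (k (G, e)).val ≤ c0 * (size G + Nat.log 2 (e.length + 2) + 1))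
    (hred : ∀ (G : MGraph) (e : List Bool), 0 < D (G, e) ∧
      Real.exp (-(1 / (e.length + 2))) * tutte G x' y' ≤
        (N (G, e) : ℝ) / (D (G, e) : ℝ) * tutte (g (G, k (G, e))) x y ∧
      (N (G, e) : ℝ) / (D (G, e) : ℝ) * tutte (g (G, k (G, e))) x y ≤
        Real.exp (1 / (e.length + 2)) * tutte G x' y')
    (hQ : QP x y) : QP x' y' := by
  obtain ⟨A, c, hA, hprob⟩ := hQ
  have hf : PT (fun z : MGraph × List Bool => g (z.1, k z)) := hg.comp (PT.fst.pair hk)
  obtain ⟨Q, hQ⟩ := hg.length_bound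
  obtain ⟨A', hA', hprob'⟩ := transfer_core arith (arith2 arith) hpos hf hN hD hred hA
    (fun G e => qbits c (size G) (e.length + 2)) hprob
  obtain ⟨c', hc'⟩ := qbits_log c Q (2 + 3 * c0)
  refine ⟨A', c', hA', fun G e m hm => hprob' G e m (le_trans ?_ hm)⟩
  have h1 : (fpras_e e).length + 2 = 3 * (e.length + 2) := by
    rw [fpras_e_length]
    ring
  rw [h1]
  apply hc' _ _ _ (by omega)
  have h2 := hQ (G, k (G, fpras_e e))
  refine h2.trans (eval_mono Q ?_)
  have h3 : (enc (G, k (G, fpras_e e))).length = 2 * size G + 1 + (k (G, fpras_e e)).val := by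
    have := length_enc_pair G (k (G, fpras_e e))
    rw [length_enc_U] at this
    exact this
  have h4 := hkb G (fpras_e e)
  rw [h1] at h4
  have h5 : Nat.log 2 (3 * (e.length + 2)) ≤ Nat.log 2 (e.length + 2) + 2 := by
    calc Nat.log 2 (3 * (e.length + 2)) ≤ Nat.log 2 ((e.length + 2) * 2 ^ 2) :=
          Nat.log_mono_right (by omega)
      _ = Nat.log 2 (e.length + 2) + 2 := by
        rw [pow_two, ← mul_assoc, Nat.log_mul_base (by norm_num) (by omega),
          Nat.log_mul_base (by norm_num) (by omega)]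
  rw [h3]
  have h6 : c0 * (size G + Nat.log 2 (3 * (e.length + 2)) + 1) ≤
      c0 * (3 * (size G + Nat.log 2 (e.length + 2) + 1)) := Nat.mul_le_mul_left _ (by omega)
  have h7 : (2 + 3 * c0) * (size G + Nat.log 2 (e.length + 2) + 1) =
      2 * (size G + Nat.log 2 (e.length + 2) + 1) +
        c0 * (3 * (size G + Nat.log 2 (e.length + 2) + 1)) := by ring
  rw [h7]
  omega

end Pool.Agent.QPR
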