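import Pool.Agent.QPR.QDefs

/-!
# Approximation-preserving reductions transfer quasi-polynomial schemes
-/

set_option autoImplicit false

namespace Pool.Agent.QPR

open Pool.Agent.PT Pool.Agent.TutteHard Pool.Agent.TutteEq Real

/-- the transfer of a scheme through a reduction, with any bound for the number of random bits -/
theorem transfer_core (h : S_Arith) (h2 : S_Arith2) {x y x' y' : ℝ}
    (hpos : ∀ G : MGraph, 0 ≤ tutte G x' y')
    {f : MGraph × List Bool → MGraph} {N D : MGraph × List Bool → ℕ}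
    (hf : PT f) (hN : PT N) (hD : PT D)
    (hred : ∀ (G : MGraph) (e : List Bool), 0 < D (G, e) ∧
      Real.exp (-(1 / (e.length + 2))) * tutte G x' y' ≤
        (N (G, e) : ℝ) / (D (G, e) : ℝ) * tutte (f (G, e)) x y ∧
      (N (G, e) : ℝ) / (D (G, e) : ℝ) * tutte (f (G, e)) x y ≤
        Real.exp (1 / (e.length + 2)) * tutte G x' y')
    {A : (MGraph × List Bool) × List Bool → ℚ} (hA' : PT A)
    (B : MGraph → List Bool → ℕ)
    (hprob : ∀ (G : MGraph) (e : List Bool) (m : ℕ), B G e ≤ m →
      3 / 4 ≤ prob m (fun r => Approx x y G e (A ((G, e), r)))) :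
    ∃ A' : (MGraph × List Bool) × List Bool → ℚ, PT A' ∧
      ∀ (G : MGraph) (e : List Bool) (m : ℕ), B (f (G, fpras_e e)) (fpras_e e) ≤ m →
      3 / 4 ≤ prob m (fun r => Approx x' y' G e (A' ((G, e), r))) := by
  -- the input of the oracle
  have hin : PT (fun z : MGraph × List Bool => (f (z.1, fpras_e z.2), fpras_e z.2)) :=
    (hf.comp (PT.fst.pair (fpras_PTe PT.snd))).pair (fpras_PTe PT.snd)
  have hin' : PT (fun z : (MGraph × List Bool) × List Bool =>
      (f (z.1.1, fpras_e z.1.2), fpras_e z.1.2)) := hin.comp PT.fst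
  have ha : PT (fun z : (MGraph × List Bool) × List Bool =>
      A ((f (z.1.1, fpras_e z.1.2), fpras_e z.1.2), z.2)) :=
    hA'.comp (hin'.pair PT.snd)
  have hge : PT (fun z : (MGraph × List Bool) × List Bool => (z.1.1, fpras_e z.1.2)) :=
    PT.fst.comp_fst.pair (fpras_PTe PT.fst.comp_snd)
  have hNz := hN.comp hge
  have hDz := hD.comp hge
  have hM := (h _ _ _ hNz (fpras_PTnum ha)).2.2.1
  have hY := (h _ _ _ hDz ha.ratParts.comp_snd).2.2.1
  have hlen : PT (fun z : (MGraph × List Bool) × List Bool => U.mk z.1.2.length) :=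
    PT.length PT.fst.comp_snd
  have hB := fpras_PTround h h2 hM hY hlen
  refine ⟨_, hB, fun G e m hm => ?_⟩
  have h1 := hprob (f (G, fpras_e e)) (fpras_e e) m hm
  refine h1.trans (prob_mono fun r hr => ?_)
  unfold Approx at hr ⊢
  change ((fpras_round (N (G, fpras_e e) *
      (A ((f (G, fpras_e e), fpras_e e), r)).num.toNat)
      (D (G, fpras_e e) * (A ((f (G, fpras_e e), fpras_e e), r)).den) e.length : ℚ) : ℝ) ∈ _
  generalize A ((f (G, fpras_e e), fpras_e e), r) = a at hr ⊢
  obtain ⟨hD0, hr1, hr2⟩ := hred G (fpras_e e)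
  have hT' := hpos G
  generalize hTT : tutte G x' y' = T' at hT' hr1 hr2 ⊢
  generalize hTT2 : tutte (f (G, fpras_e e)) x y = T at hr hr1 hr2
  generalize N (G, fpras_e e) = N' at hr1 hr2 ⊢
  generalize D (G, fpras_e e) = D' at hD0 hr1 hr2 ⊢
  rw [fpras_e_eps] at hr hr1 hr2
  set ε : ℝ := 1 / ((e.length : ℝ) + 2) with hε
  have hε0 : 0 < ε := by positivity
  have hD1 : (0 : ℝ) < D' := by exact_mod_cast hD0
  have hle1 : exp (-ε) ≤ exp ε := exp_le_exp.2 (by linarith)
  rcases hT'.eq_or_lt with h0 | h0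
  · -- the value is zero
    rw [← h0, mul_zero] at hr1 hr2
    rw [← h0, mul_zero, mul_zero]
    have hz : (N' : ℝ) / D' * T = 0 := le_antisymm (by simpa using hr2) (by simpa using hr1)
    have hzero : N' * a.num.toNat = 0 := by
      rcases mul_eq_zero.1 hz with hz | hz
      · have : (N' : ℝ) = 0 := by
          rcases div_eq_zero_iff.1 hz with hz | hz
          · exact hz
          · exact absurd hz hD1.ne'
        have : N' = 0 := by exact_mod_cast this
        rw [this, zero_mul]
      · rw [hz, mul_zero, mul_zero] at hr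
        have : (a : ℝ) = 0 := by simpa using hr
        have : a = 0 := by exact_mod_cast this
        rw [this]
        simp
    rw [hzero]
    simp [fpras_round]
  · have hpos1 : 0 < (N' : ℝ) / D' * T := lt_of_lt_of_le (by positivity) hr1
    have hN0 : (0 : ℝ) < (N' : ℝ) / D' := by
      refine lt_of_le_of_ne (by positivity) fun hz => ?_
      rw [← hz, zero_mul] at hpos1
      exact lt_irrefl _ hpos1
    have hT0 : 0 < T := (mul_pos_iff_of_pos_left hN0).1 hpos1
    rw [Set.mem_uIcc] at hr
    have hmono : exp (-(ε / 3)) * T ≤ exp (ε / 3) * T :=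
      mul_le_mul_of_nonneg_right (exp_le_exp.2 (by linarith)) hT0.le
    have hr3 : exp (-(ε / 3)) * T ≤ (a : ℝ) ∧ (a : ℝ) ≤ exp (ε / 3) * T := by
      rcases hr with hr | hr
      · exact hr
      · exact ⟨by linarith [hr.1], by linarith [hr.2]⟩
    have ha0 : (0 : ℝ) < a := lt_of_lt_of_le (by positivity) hr3.1
    have ha1 : 0 < a := by exact_mod_cast ha0
    have hnum : 0 < a.num := Rat.num_pos.2 ha1
    have hN1 : 0 < N' := by
      rcases Nat.eq_zero_or_pos N' with hz | hz
      · rw [hz] at hN0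
        simp at hN0
      · exact hz
    have hM0 : 0 < N' * a.num.toNat := Nat.mul_pos hN1 (by omega)
    have hY0 : 0 < D' * a.den := Nat.mul_pos hD0 a.den_pos
    have hspec := fpras_round_spec hM0 hY0 e.length
    rw [← hε] at hspec
    have hval : (((N' * a.num.toNat : ℕ) : ℝ) / ((D' * a.den : ℕ) : ℝ)) =
        (N' : ℝ) / D' * a := by
      have h3 : ((a.num.toNat : ℕ) : ℝ) = (a.num : ℝ) := by
        have : ((a.num.toNat : ℕ) : ℤ) = a.num := Int.toNat_of_nonneg hnum.le
        exact_mod_cast this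
      push_cast
      rw [h3, mul_div_mul_comm, ← Rat.cast_def]
    rw [hval] at hspec
    have e1 : exp (-ε) * T' = exp (-(ε / 3)) * (exp (-(ε / 3)) * (exp (-(ε / 3)) * T')) := by
      rw [← mul_assoc, ← mul_assoc, ← exp_add, ← exp_add]
      congr 2
      ring
    have e2 : exp ε * T' = exp (ε / 3) * (exp (ε / 3) * (exp (ε / 3) * T')) := by
      rw [← mul_assoc, ← mul_assoc, ← exp_add, ← exp_add]
      congr 2
      ring
    rw [Set.mem_uIcc]
    left
    constructor
    · rw [e1]
      refine le_trans ?_ hspec.1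
      apply mul_le_mul_of_nonneg_left _ (exp_pos _).le
      calc exp (-(ε / 3)) * (exp (-(ε / 3)) * T') ≤ exp (-(ε / 3)) * ((N' : ℝ) / D' * T) :=
            mul_le_mul_of_nonneg_left hr1 (exp_pos _).le
        _ = (N' : ℝ) / D' * (exp (-(ε / 3)) * T) := by ring
        _ ≤ (N' : ℝ) / D' * a := mul_le_mul_of_nonneg_left hr3.1 hN0.le
    · rw [e2]
      refine le_trans hspec.2 ?_
      apply mul_le_mul_of_nonneg_left _ (exp_pos _).le
      calc (N' : ℝ) / D' * a ≤ (N' : ℝ) / D' * (exp (ε / 3) * T) :=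
            mul_le_mul_of_nonneg_left hr3.2 hN0.le
        _ = exp (ε / 3) * ((N' : ℝ) / D' * T) := by ring
        _ ≤ exp (ε / 3) * (exp (ε / 3) * T') := mul_le_mul_of_nonneg_left hr2 (exp_pos _).le

end Pool.Agent.QPR
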