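import Pool.Agent.QPR.StS

/-!
# Connectivity of the links (helper92)
-/

set_option autoImplicit false
set_option linter.unusedSectionVars false

open Finset

namespace Pool.Agent.QPR

namespace CON

variable {α : Type} [Fintype α] [DecidableEq α]

theorem nop_le {a b s : Pt α} {i : α} (hc : Cri a b i) (h : s ≤ a) : Nop i s := by
  intro h1 h2
  exact absurd ⟨h.1 h1, h.2.2.1 h2⟩ hc.1

theorem nop_ge {a b s : Pt α} {i : α} (hc : Cri a b i) (h : b ≤ s) : Nop i s := by
  intro _ _
  rcases hc.2 with h3 | h3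
  · exact Or.inl (h.2.1 h3)
  · exact Or.inr (h.2.2.2 h3)

theorem nop_gap {r : Finset α → ℕ} {ρ : Finset (Pt α)} {a b : Pt α} {i : α} (hg : Gp r ρ a b)
    (hc : Cri a b i) : ∀ s ∈ ρ, Nop i s := by
  intro s hs
  have hs' : s ∈ hat r ρ := by
    unfold hat
    exact mem_insert_of_mem (mem_insert_of_mem hs)
  rcases hg.sep s hs' with h | h
  · exact nop_le hc h
  · exact nop_ge hc h

theorem mem_mid {r : Finset α → ℕ} {a b v : Pt α} : v ∈ mid r a b ↔ Ex0 r v ∧ a < v ∧ v < b := by
  unfold mid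
  simp

theorem chn2 {r : Finset α → ℕ} {ρ : Finset (Pt α)} {u v : Pt α} (hu : Chn r (insert u ρ))
    (hv : Chn r (insert v ρ)) (h : u ≤ v ∨ v ≤ u) : Chn r (insert u (insert v ρ)) := by
  refine ⟨?_, ?_⟩
  · intro s hs
    rcases mem_insert.1 hs with h1 | h1
    · exact hu.1 s (by rw [h1]; exact mem_insert_self _ _)
    · exact hv.1 s h1
  · intro s hs t ht
    rcases mem_insert.1 hs with h1 | h1
    · subst h1
      rcases mem_insert.1 ht with h2 | h2
      · subst h2
        exact Or.inl le_rfl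
      · rcases mem_insert.1 h2 with h3 | h3
        · subst h3
          exact h
        · exact hu.2 _ (mem_insert_self _ _) _ (mem_insert_of_mem h3)
    · rcases mem_insert.1 ht with h2 | h2
      · subst h2
        rcases mem_insert.1 h1 with h3 | h3
        · subst h3
          exact h.symm
        · exact hu.2 _ (mem_insert_of_mem h3) _ (mem_insert_self _ _)
      · exact hv.2 s h1 t h2

/-- the critical gap alone -/
theorem crit5 (h1 : Stmt_DU1) (h4 : Stmt_HT) (h5 : Stmt_DU2) (h11 : Stmt_NCI) (h12 : Stmt_NCS)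
    (h13 : Stmt_NCT) {r : Finset α → ℕ} (hr : IsRank r) {a b : Pt α} (ha : Ex0 r a) (hb : Ex0 r b)
    (hab : a < b) (hh : ht r a + 5 ≤ ht r b) (hc : ∃ i, Cri a b i) {z : Pt α → ℝ}
    (hz : EdC r a b z) : CoC r a b z := by
  obtain ⟨d1, -, -, -, d5, -⟩ := h1 α r hr
  obtain ⟨-, -, -, -, -, -, t7, -⟩ := h4 α r hr
  obtain ⟨e1, e2, e3, -, -, e6, -, e8, e9, e10, -, -, -, -, -, -, e17, -⟩ := h5 α r hr
  -- the dual data
  have hda : Ex0 (dual r) (du b) := (e6 b).2 hb
  have hdb : Ex0 (dual r) (du a) := (e6 a).2 ha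
  have hdab : du b < du a := (e3 b a).2 hab
  have hdc : ∃ i, Cri (du b) (du a) i := by
    obtain ⟨i, hi⟩ := hc
    exact ⟨i, (e10 a b i).2 hi⟩
  have hdz : EdC (dual r) (du b) (du a) (fun s => z (du s)) := by
    intro u hu v hv huv hi
    rw [e17 a b] at hu hv
    obtain ⟨u', hu', rfl⟩ := mem_image.1 hu
    obtain ⟨v', hv', rfl⟩ := mem_image.1 hv
    simp only [e1]
    have hlt : v' < u' := (e3 u' v').1 huv
    obtain ⟨i, hi1, hi2, hi3⟩ := hi
    exact (hz v' hv' u' hu' hlt ⟨i, (e10 a b i).1 hi1, (e9 i v').1 hi3, (e9 i u').1 hi2⟩).symm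
  have hback : CoC (dual r) (du b) (du a) (fun s => z (du s)) → CoC r a b z := by
    intro H u hu v hv hi hj
    have hu' : du u ∈ mid (dual r) (du b) (du a) := by
      rw [e17 a b]; exact mem_image_of_mem _ hu
    have hv' : du v ∈ mid (dual r) (du b) (du a) := by
      rw [e17 a b]; exact mem_image_of_mem _ hv
    obtain ⟨i, hi1, hi2⟩ := hi
    obtain ⟨j, hj1, hj2⟩ := hj
    have := H (du u) hu' (du v) hv' ⟨i, (e10 a b i).2 hi1, (e9 i u).2 hi2⟩
      ⟨j, (e10 a b j).2 hj1, (e9 j v).2 hj2⟩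
    simpa only [e1] using this
  have hdh : ht (dual r) (du b) + 5 ≤ ht (dual r) (du a) := by
    have := e8 a ha
    have := e8 b hb
    omega
  cases hS : a.S <;> cases hT : b.T
  · exact h12 α r hr a b ha hb hab hS hT hh hc z hz
  · exact h13 α r hr a b ha hb hab hS hT hh hc z hz
  · have hbS : b.S = true := hab.le.2.2.1 hS
    have haT : a.T = false := by
      cases haT : a.T
      · rfl
      · have := hab.le.2.2.2 haT
        rw [hT] at this
        exact absurd this (by simp)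
    have ea := t7 a
    have eb := t7 b
    simp only [hS, haT, hbS, hT] at ea eb
    by_cases h3 : r a.F + 3 ≤ r b.F
    · exact h11 α r hr a b ha hb hab hS hT h3 hc z hz
    · apply hback
      refine h11 α (dual r) d1 (du b) (du a) hda hdb hdab ?_ ?_ ?_ hdc _ hdz
      · simp [du, hT]
      · simp [du, hS]
      · show dual r (b.G)ᶜ + 3 ≤ dual r (a.G)ᶜ
        have := d5 a.G
        have := d5 b.G
        simp at ea eb
        omega
  · apply hback
    refine h12 α (dual r) d1 (du b) (du a) hda hdb hdab ?_ ?_ hdh hdc _ hdz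
    · simp [du, hT]
    · simp [du, hS]

end CON

open CON in
/-- (CONN). -/
theorem t_CON (h1 : Stmt_DU1) (_h2 : Stmt_FLA) (_h3 : Stmt_CYC) (h4 : Stmt_HT) (h5 : Stmt_DU2)
    (h6 : Stmt_BET) (h7 : Stmt_GAP) (h8 : Stmt_DIM) (h9 : Stmt_CG) (h10 : Stmt_IC)
    (h11 : Stmt_NCI) (h12 : Stmt_NCS) (h13 : Stmt_NCT) : Stmt_CON := by
  intro α _ _ r hr ρ hρ hcard z hz
  obtain ⟨g1, g2, g3, g4, g5, g6, g7, g8, g9, g10⟩ := h7 α r hr ρ hρ.1
  have hne : Nonempty α := by
    rw [← Fintype.card_pos_iff]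
    omega
  -- a never open element
  have hi0 : ∃ i, ∀ s ∈ ρ, Nop i s := by
    rcases hρ.2 with h | h
    · obtain ⟨i⟩ := hne
      refine ⟨i, ?_⟩
      rw [h]
      simp
    · exact h
  -- adjacency
  have hadj : ∀ u v i, u ∉ ρ → v ∉ ρ → Chn r (insert u ρ) → Chn r (insert v ρ) →
      (u ≤ v ∨ v ≤ u) → (∀ s ∈ ρ, Nop i s) → Nop i u → Nop i v → z u = z v := by
    intro u v i hu hv cu cv huv hi hiu hiv
    by_cases e : u = v
    · rw [e]
    · refine hz u v ⟨hu, cu, Or.inr ⟨i, ?_⟩⟩ ⟨hv, cv, Or.inr ⟨i, ?_⟩⟩ e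
        ⟨chn2 cu cv huv, Or.inr ⟨i, ?_⟩⟩
      · intro s hs
        rcases mem_insert.1 hs with h | h
        · rw [h]; exact hiu
        · exact hi s h
      · intro s hs
        rcases mem_insert.1 hs with h | h
        · rw [h]; exact hiv
        · exact hi s h
      · intro s hs
        rcases mem_insert.1 hs with h | h
        · rw [h]; exact hiu
        · rcases mem_insert.1 h with h | h
          · rw [h]; exact hiv
          · exact hi s h
  -- vertices in gaps
  have hcmp : ∀ a b a' b' u v, Gp r ρ a b → Gp r ρ a' b' → (a, b) ≠ (a', b') → u ∈ mid r a b →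
      v ∈ mid r a' b' → u ≤ v ∨ v ≤ u := by
    intro a b a' b' u v hg hg' hn hu hv
    rw [mem_mid] at hu hv
    rcases g8 a b a' b' hg hg' with ⟨h, h'⟩ | h | h
    · exact absurd (by rw [h, h']) hn
    · left
      exact ((hu.2.2.le.trans h).trans hv.2.1.le)
    · right
      exact ((hv.2.2.le.trans h).trans hu.2.1.le)
  have hnopo : ∀ a b a' b' i v, Gp r ρ a b → Cri a b i → Gp r ρ a' b' → (a, b) ≠ (a', b') →
      v ∈ mid r a' b' → Nop i v := by
    intro a b a' b' i v hg hc hg' hn hv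
    rw [mem_mid] at hv
    rcases g8 a b a' b' hg hg' with ⟨h, h'⟩ | h | h
    · exact absurd (by rw [h, h']) hn
    · exact nop_ge hc (h.trans hv.2.1.le)
    · exact nop_le hc (hv.2.2.le.trans h)
  -- adjacency for vertices of gaps
  have hA : ∀ a b a' b' u v i, Gp r ρ a b → Gp r ρ a' b' → u ∈ mid r a b → v ∈ mid r a' b' →
      (u ≤ v ∨ v ≤ u) → (∀ s ∈ ρ, Nop i s) → Nop i u → Nop i v → z u = z v := by
    intro a b a' b' u v i hg hg' hu hv huv hi hiu hiv
    obtain ⟨-, nu1, cu, -⟩ := g3 a b u hg hu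
    obtain ⟨-, nv1, cv, -⟩ := g3 a' b' v hg' hv
    exact hadj u v i nu1 nv1 cu cv huv hi hiu hiv
  -- link vertices
  have hL : ∀ u, Lkv r ρ u → ∃ a b, Gp r ρ a b ∧ u ∈ mid r a b ∧
      ∃ i, (∀ s ∈ ρ, Nop i s) ∧ Nop i u := by
    rintro u ⟨hu, cu, h⟩
    obtain ⟨a, b, hg, hm⟩ := g5 u hu cu
    refine ⟨a, b, hg, hm, ?_⟩
    rcases h with h | ⟨i, hi⟩
    · exact absurd h (insert_ne_empty _ _)
    · exact ⟨i, fun s hs => hi s (mem_insert_of_mem hs), hi u (mem_insert_self _ _)⟩
  -- nonempty mids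
  have hmne : ∀ a b, Gp r ρ a b → ht r a + 2 ≤ ht r b → ∃ v, v ∈ mid r a b := by
    intro a b hg hh
    obtain ⟨v, v1, v2, v3, -⟩ := h6 α r hr a b (g1 a hg.ha) (g1 b hg.hb) hg.lt hh
    exact ⟨v, mem_mid.2 ⟨v1, v2, v3⟩⟩
  have hcrit2 : ∀ a b i, Gp r ρ a b → Cri a b i → ht r a + 2 ≤ ht r b := by
    intro a b i hg hc
    exact ((h8 α r hr).1 a b i (g1 a hg.ha) (g1 b hg.hb) hg.lt hc).2.2.2
  -- counting the missing heights
  have hcount : ∀ a b a' b', Gp r ρ a b → Gp r ρ a' b' →
      (∀ a'' b'' v, Gp r ρ a'' b'' → v ∈ mid r a'' b'' → (a'', b'') = (a, b) ∨ (a'', b'') = (a', b')) →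
      4 ≤ (ht r b - ht r a - 1) + (ht r b' - ht r a' - 1) := by
    intro a b a' b' hg hg' hall
    have hsub : miss r ρ ⊆ Ioo (ht r a) (ht r b) ∪ Ioo (ht r a') (ht r b') := by
      intro t ht
      unfold miss at ht
      rw [mem_filter, mem_Icc] at ht
      obtain ⟨a'', b'', hg'', k1, k2⟩ := g9 t ht.1.1 ht.1.2 ht.2
      obtain ⟨v, hv⟩ := hmne a'' b'' hg'' (by omega)
      rcases hall a'' b'' v hg'' hv with h | h
      · obtain ⟨e1, e2⟩ := Prod.mk.inj h
        subst e1; subst e2
        exact mem_union_left _ (mem_Ioo.2 ⟨k1, k2⟩)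
      · obtain ⟨e1, e2⟩ := Prod.mk.inj h
        subst e1; subst e2
        exact mem_union_right _ (mem_Ioo.2 ⟨k1, k2⟩)
    have h3 := card_le_card hsub
    have h4 := card_union_le (Ioo (ht r a) (ht r b)) (Ioo (ht r a') (ht r b'))
    rw [Nat.card_Ioo, Nat.card_Ioo] at h4
    omega
  have hcount1 : ∀ a b, Gp r ρ a b →
      (∀ a'' b'' v, Gp r ρ a'' b'' → v ∈ mid r a'' b'' → (a'', b'') = (a, b)) →
      4 ≤ ht r b - ht r a - 1 := by
    intro a b hg hall
    have hsub : miss r ρ ⊆ Ioo (ht r a) (ht r b) := by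
      intro t ht
      unfold miss at ht
      rw [mem_filter, mem_Icc] at ht
      obtain ⟨a'', b'', hg'', k1, k2⟩ := g9 t ht.1.1 ht.1.2 ht.2
      obtain ⟨v, hv⟩ := hmne a'' b'' hg'' (by omega)
      obtain ⟨e1, e2⟩ := Prod.mk.inj (hall a'' b'' v hg'' hv)
      subst e1; subst e2
      exact mem_Ioo.2 ⟨k1, k2⟩
    have h3 := card_le_card hsub
    rw [Nat.card_Ioo] at h3
    omega
  obtain ⟨i0, hi0⟩ := hi0
  obtain ⟨a, b, hg, hcr, -⟩ := g10 i0 hi0
  by_cases H : ∃ a' b' j, Gp r ρ a' b' ∧ Cri a' b' j ∧ (a', b') ≠ (a, b)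
  · -- two different critical gaps
    obtain ⟨a', b', j, hg', hcr', hn⟩ := H
    have key : ∃ c, ∀ k l u, Gp r ρ k l → u ∈ mid r k l → z u = c := by
      by_cases K : ∃ k l w, Gp r ρ k l ∧ w ∈ mid r k l ∧ (k, l) ≠ (a, b) ∧ (k, l) ≠ (a', b')
      · obtain ⟨k, l, w, hk, hw, n1, n2⟩ := K
        have hout : ∀ k' l' u w', Gp r ρ k' l' → u ∈ mid r k' l' → (k', l') ≠ (k, l) →
            w' ∈ mid r k l → z u = z w' := by
          intro k' l' u w' hk' hu hn' hw'
          have hc := hcmp k' l' k l u w' hk' hk hn' hu hw'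
          by_cases e : (k', l') = (a, b)
          · -- use the critical gap (a', b')
            refine hA k' l' k l u w' j hk' hk hu hw' hc (nop_gap hg' hcr') ?_ ?_
            · exact hnopo a' b' k' l' j u hg' hcr' hk' (by rw [e]; exact hn) hu
            · exact hnopo a' b' k l j w' hg' hcr' hk (Ne.symm n2) hw'
          · refine hA k' l' k l u w' i0 hk' hk hu hw' hc (nop_gap hg hcr) ?_ ?_
            · exact hnopo a b k' l' i0 u hg hcr hk' (Ne.symm e) hu
            · exact hnopo a b k l i0 w' hg hcr hk (Ne.symm n1) hw'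
        obtain ⟨x, hx⟩ := hmne a b hg (hcrit2 a b i0 hg hcr)
        refine ⟨z w, ?_⟩
        intro k' l' u hk' hu
        by_cases e : (k', l') = (k, l)
        · obtain ⟨e1, e2⟩ := Prod.mk.inj e
          subst e1; subst e2
          rw [← hout a b x u hg hx (Ne.symm n1) hu, hout a b x w hg hx (Ne.symm n1) hw]
        · exact hout k' l' u w hk' hu e hw
      · have hall : ∀ a'' b'' v, Gp r ρ a'' b'' → v ∈ mid r a'' b'' →
            (a'', b'') = (a, b) ∨ (a'', b'') = (a', b') := by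
          intro a'' b'' v h h'
          by_contra hcon
          rw [not_or] at hcon
          exact K ⟨a'', b'', v, h, h', hcon.1, hcon.2⟩
        have h4' := hcount a b a' b' hg hg' hall
        -- the main step
        have main : ∀ a b a' b' i j, Gp r ρ a b → Gp r ρ a' b' → Cri a b i → Cri a' b' j →
            (a', b') ≠ (a, b) → ht r a + 3 ≤ ht r b →
            (∀ a'' b'' v, Gp r ρ a'' b'' → v ∈ mid r a'' b'' →
              (a'', b'') = (a, b) ∨ (a'', b'') = (a', b')) →
            ∃ c, ∀ k l u, Gp r ρ k l → u ∈ mid r k l → z u = c := by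
          intro a b a' b' i j hg hg' hi hj hn hh hall
          obtain ⟨u0, hu0, hu0i⟩ := h9 α r hr a b i (g1 a hg.ha) (g1 b hg.hb) hg.lt hi hh
          refine ⟨z u0, ?_⟩
          intro k l u hk hu
          rcases hall k l u hk hu with h | h
          · obtain ⟨e1, e2⟩ := Prod.mk.inj h
            subst e1; subst e2
            refine h10 α r hr k l (g1 k hg.ha) (g1 l hg.hb) hg.lt hh z ?_ u hu u0 hu0
            intro x hx y hy hxy
            refine hA k l k l x y j hg hg hx hy (Or.inl hxy.le) (nop_gap hg' hj) ?_ ?_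
            · exact hnopo a' b' k l j x hg' hj hg hn hx
            · exact hnopo a' b' k l j y hg' hj hg hn hy
          · obtain ⟨e1, e2⟩ := Prod.mk.inj h
            subst e1; subst e2
            refine hA k l a b u u0 i hk hg hu hu0 (hcmp k l a b u u0 hk hg hn hu hu0)
              (nop_gap hg hi) ?_ hu0i
            exact hnopo a b k l i u hg hi hk (Ne.symm hn) hu
        have hD := hcrit2 a b i0 hg hcr
        have hD' := hcrit2 a' b' j hg' hcr'
        by_cases hh : ht r a + 3 ≤ ht r b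
        · exact main a b a' b' i0 j hg hg' hcr hcr' hn hh hall
        · refine main a' b' a b j i0 hg' hg hcr' hcr (Ne.symm hn) (by omega) ?_
          intro a'' b'' v h h'
          exact (hall a'' b'' v h h').symm
    obtain ⟨c, hc⟩ := key
    intro u v hu hv
    obtain ⟨k, l, hk, hmu, -⟩ := hL u hu
    obtain ⟨k', l', hk', hmv, -⟩ := hL v hv
    rw [hc k l u hk hmu, hc k' l' v hk' hmv]
  · -- exactly one critical gap
    have huniq : ∀ i, (∀ s ∈ ρ, Nop i s) → Cri a b i := by
      intro i hi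
      obtain ⟨a', b', hg', hc', -⟩ := g10 i hi
      by_cases e : (a', b') = (a, b)
      · obtain ⟨e1, e2⟩ := Prod.mk.inj e
        subst e1; subst e2
        exact hc'
      · exact absurd ⟨a', b', i, hg', hc', e⟩ H
    -- link vertices in different gaps are adjacent
    have hdiff : ∀ u v k l k' l', Gp r ρ k l → Gp r ρ k' l' → (k, l) ≠ (k', l') → u ∈ mid r k l →
        v ∈ mid r k' l' → (∃ i, (∀ s ∈ ρ, Nop i s) ∧ Nop i u) →
        (∃ i, (∀ s ∈ ρ, Nop i s) ∧ Nop i v) → z u = z v := by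
      intro u v k l k' l' hk hk' hkn hu hv hiu hiv
      have hc := hcmp k l k' l' u v hk hk' hkn hu hv
      by_cases e : (k, l) = (a, b)
      · obtain ⟨i, hi, hi'⟩ := hiu
        refine hA k l k' l' u v i hk hk' hu hv hc hi hi' ?_
        exact hnopo a b k' l' i v hg (huniq i hi) hk' (by rw [← e]; exact hkn) hv
      · obtain ⟨i, hi, hi'⟩ := hiv
        refine hA k l k' l' u v i hk hk' hu hv hc hi ?_ hi'
        exact hnopo a b k l i u hg (huniq i hi) hk (Ne.symm e) hu
    -- vertices outside the critical gap are link vertices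
    have hother : ∀ k l u, Gp r ρ k l → u ∈ mid r k l → (k, l) ≠ (a, b) →
        ∃ i, (∀ s ∈ ρ, Nop i s) ∧ Nop i u := by
      intro k l u hk hu hn
      exact ⟨i0, hi0, hnopo a b k l i0 u hg hcr hk (Ne.symm hn) hu⟩
    intro u v hu hv
    obtain ⟨k, l, hk, hmu, hiu⟩ := hL u hu
    obtain ⟨k', l', hk', hmv, hiv⟩ := hL v hv
    by_cases e : (k, l) = (k', l')
    · obtain ⟨e1, e2⟩ := Prod.mk.inj e
      subst e1; subst e2
      by_cases W : ∃ m n w, Gp r ρ m n ∧ w ∈ mid r m n ∧ (m, n) ≠ (k, l) ∧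
          ∃ i, (∀ s ∈ ρ, Nop i s) ∧ Nop i w
      · obtain ⟨m, n, w, hm, hw, hmn, hiw⟩ := W
        rw [hdiff u w k l m n hk hm (Ne.symm hmn) hmu hw hiu hiw,
          ← hdiff v w k l m n hk hm (Ne.symm hmn) hmv hw hiv hiw]
      · by_cases ek : (k, l) = (a, b)
        · obtain ⟨e1, e2⟩ := Prod.mk.inj ek
          subst e1; subst e2
          have h4' : 4 ≤ ht r l - ht r k - 1 := by
            apply hcount1 k l hk
            intro a'' b'' w h h'
            by_contra hcon
            exact W ⟨a'', b'', w, h, h', hcon, hother a'' b'' w h h' hcon⟩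
          have hco : CoC r k l z := by
            refine crit5 h1 h4 h5 h11 h12 h13 hr (g1 k hk.ha) (g1 l hk.hb) hk.lt (by omega)
              ⟨i0, hcr⟩ ?_
            intro x hx y hy hxy hi
            obtain ⟨i, hi1, hi2, hi3⟩ := hi
            exact hA k l k l x y i hk hk hx hy (Or.inl hxy.le) (nop_gap hk hi1) hi2 hi3
          obtain ⟨i, hi, hi'⟩ := hiu
          obtain ⟨j, hj, hj'⟩ := hiv
          exact hco u hmu v hmv ⟨i, huniq i hi, hi'⟩ ⟨j, huniq j hj, hj'⟩
        · -- all link vertices in a gap which is not critical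
          have hD := hcrit2 a b i0 hg hcr
          have hD2 : ¬ ht r a + 3 ≤ ht r b := by
            intro hh
            obtain ⟨w, hw, hwi⟩ := h9 α r hr a b i0 (g1 a hg.ha) (g1 b hg.hb) hg.lt hcr hh
            exact W ⟨a, b, w, hg, hw, Ne.symm ek, i0, hi0, hwi⟩
          have h4' := hcount a b k l hg hk (by
            intro a'' b'' w h h'
            by_contra hcon
            rw [not_or] at hcon
            exact W ⟨a'', b'', w, h, h', hcon.2, hother a'' b'' w h h' hcon.1⟩)
          refine h10 α r hr k l (g1 k hk.ha) (g1 l hk.hb) hk.lt (by omega) z ?_ u hmu v hmv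
          intro x hx y hy hxy
          refine hA k l k l x y i0 hk hk hx hy (Or.inl hxy.le) hi0 ?_ ?_
          · exact hnopo a b k l i0 x hg hcr hk (Ne.symm ek) hx
          · exact hnopo a b k l i0 y hg hcr hk (Ne.symm ek) hy
    · exact hdiff u v k l k' l' hk hk' e hmu hmv hiu hiv

end Pool.Agent.QPR
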