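import Pool.Agent.QPR.StS

/-!
# `Stmt_FLA` (helper4)
-/

set_option autoImplicit false

open Finset

namespace Pool.Agent.QPR

variable {α : Type} [Fintype α] [DecidableEq α] {r : Finset α → ℕ}

omit [Fintype α] in
/-- the increment of `e` decreases when the set grows -/
theorem fla_inc (h : IsRank r) {A B : Finset α} (hAB : A ⊆ B) (e : α) :
    r (insert e B) + r A ≤ r (insert e A) + r B := by
  by_cases h1 : r (insert e A) = r A
  · have := h.closure h1 hAB
    omega
  · have h2 := h.mono A e
    have h3 := h.le_succ B e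
    omega

omit [Fintype α] in
/-- submodularity -/
theorem fla_submod (h : IsRank r) (A B : Finset α) : r (A ∪ B) + r (A ∩ B) ≤ r A + r B := by
  have key : ∀ D : Finset α, r (A ∪ (A ∩ B ∪ D)) + r (A ∩ B) ≤ r A + r (A ∩ B ∪ D) := by
    intro D
    induction D using Finset.induction_on with
    | empty =>
      have : A ∪ (A ∩ B ∪ ∅) = A := by
        ext x; simp; tauto
      rw [this]; simp
    | insert e D _ ih =>
      have h1 : A ∪ (A ∩ B ∪ insert e D) = insert e (A ∪ (A ∩ B ∪ D)) := by
        rw [union_insert, union_insert]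
      have h2 : A ∩ B ∪ insert e D = insert e (A ∩ B ∪ D) := by
        rw [union_insert]
      rw [h1, h2]
      have := fla_inc h (A := A ∩ B ∪ D) (B := A ∪ (A ∩ B ∪ D)) subset_union_right e
      omega
  have h1 := key B
  have h2 : A ∩ B ∪ B = B := union_eq_right.2 inter_subset_right
  rw [h2] at h1
  exact h1

omit [Fintype α] in
theorem fla_card (h : IsRank r) (A : Finset α) : r A ≤ A.card := by
  have := h.card_le ∅ A
  rw [empty_union, h.empty] at this
  simpa using this

omit [Fintype α] in
/-- adding elements of the closure does not change the rank -/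
theorem fla_add (h : IsRank r) (A D : Finset α) (hD : ∀ e ∈ D, r (insert e A) = r A) :
    r (D ∪ A) = r A := by
  induction D using Finset.induction_on with
  | empty => simp
  | insert e D _ ih =>
    rw [insert_union]
    rw [h.closure (hD e (mem_insert_self e D)) subset_union_right]
    exact ih (fun f hf => hD f (mem_insert_of_mem hf))

theorem fla_mem_clo {A : Finset α} {e : α} : e ∈ clo r A ↔ r (insert e A) = r A := by
  simp [clo]

theorem fla_subset_clo (A : Finset α) : A ⊆ clo r A := by
  intro e he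
  rw [fla_mem_clo, insert_eq_self.2 he]

theorem fla_rank_clo (h : IsRank r) (A : Finset α) : r (clo r A) = r A := by
  have := fla_add h A (clo r A) (fun e he => fla_mem_clo.1 he)
  rwa [union_eq_left.2 (fla_subset_clo A)] at this

theorem fla_isFl_clo (h : IsRank r) (A : Finset α) : IsFl r (clo r A) := by
  intro e he
  rw [fla_mem_clo] at he
  have h1 := h.mono (clo r A) e
  have h2 := h.le_succ (clo r A) e
  have h3 : r (insert e A) ≤ r (insert e (clo r A)) :=
    h.mono_subset (insert_subset_insert e (fla_subset_clo A))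
  have h4 := h.mono A e
  have h5 := fla_rank_clo h A
  omega

theorem fla_clo_subset (h : IsRank r) {A F : Finset α} (hF : IsFl r F) (hA : A ⊆ F) :
    clo r A ⊆ F := by
  intro e he
  by_contra h1
  have h2 := hF e h1
  have h3 := h.closure (fla_mem_clo.1 he) hA
  omega

omit [Fintype α] in
theorem fla_rank_lt (h : IsRank r) {F F' : Finset α} (hF : IsFl r F) (hlt : F ⊂ F') :
    r F < r F' := by
  obtain ⟨e, he, heF⟩ := exists_of_ssubset hlt
  have h1 := hF e heF
  have h2 : r (insert e F) ≤ r F' := h.mono_subset (insert_subset he hlt.1)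
  omega

omit [Fintype α] in
theorem fla_isFl_inter (h : IsRank r) {F F' : Finset α} (hF : IsFl r F) (hF' : IsFl r F') :
    IsFl r (F ∩ F') := by
  intro e he
  have h1 := h.mono (F ∩ F') e
  have h2 := h.le_succ (F ∩ F') e
  by_contra h3
  have h4 : r (insert e (F ∩ F')) = r (F ∩ F') := by omega
  rw [mem_inter, not_and_or] at he
  rcases he with he | he
  · have := h.closure h4 (inter_subset_left : F ∩ F' ⊆ F)
    have := hF e he
    omega
  · have := h.closure h4 (inter_subset_right : F ∩ F' ⊆ F')
    have := hF' e he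
    omega

omit [Fintype α] in
/-- equal ranks of nested flats -/
theorem fla_eq (h : IsRank r) {F F' : Finset α} (hF : IsFl r F) (hs : F ⊆ F')
    (hr : r F' ≤ r F) : F = F' := by
  by_contra h1
  have := fla_rank_lt h hF (Finset.ssubset_iff_subset_ne.2 ⟨hs, h1⟩)
  omega

theorem fla_exchange (h : IsRank r) {F : Finset α} {e f : α} (hF : IsFl r F) (he : e ∉ F)
    (hf : f ∉ F) (hef : f ∈ clo r (insert e F)) : clo r (insert f F) = clo r (insert e F) := by
  have h1 : clo r (insert f F) ⊆ clo r (insert e F) := by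
    apply fla_clo_subset h (fla_isFl_clo h _)
    exact insert_subset hef ((subset_insert e F).trans (fla_subset_clo _))
  apply fla_eq h (fla_isFl_clo h _) h1
  rw [fla_rank_clo h, fla_rank_clo h, hF e he, hF f hf]

theorem fla_exists_atom (h : IsRank r) {F F' : Finset α} {i : α} (hF : IsFl r F) (hF' : IsFl r F')
    (hs : F ⊆ F') (hr : r F + 2 ≤ r F') (hi : i ∉ F) :
    ∃ F1, IsFl r F1 ∧ F ⊂ F1 ∧ F1 ⊂ F' ∧ i ∉ F1 ∧ r F1 = r F + 1 := by
  -- an element of F' outside the closure of F + i
  have h0 : ∃ e ∈ F', e ∉ clo r (insert i F) := by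
    by_contra h1
    push Not at h1
    have h2 : r F' ≤ r (clo r (insert i F)) := h.mono_subset h1
    rw [fla_rank_clo h, hF i hi] at h2
    omega
  obtain ⟨e, he, hei⟩ := h0
  have heF : e ∉ F := fun h1 => hei (fla_subset_clo _ (mem_insert_of_mem h1))
  have h3 : IsFl r (clo r (insert e F)) := fla_isFl_clo h _
  have h4 : r (clo r (insert e F)) = r F + 1 := by rw [fla_rank_clo h, hF e heF]
  have h5 : e ∈ clo r (insert e F) := fla_subset_clo _ (mem_insert_self e F)
  have h6 : F ⊆ clo r (insert e F) := (subset_insert e F).trans (fla_subset_clo _)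
  have h7 : clo r (insert e F) ⊆ F' := fla_clo_subset h hF' (insert_subset he hs)
  refine ⟨clo r (insert e F), h3, ?_, ?_, ?_, h4⟩
  · exact Finset.ssubset_iff_subset_ne.2 ⟨h6, fun h8 => heF (h8 ▸ h5)⟩
  · exact Finset.ssubset_iff_subset_ne.2 ⟨h7, fun h8 => by rw [h8] at h4; omega⟩
  · intro h8
    have h9 := fla_exchange h hF heF hi h8
    exact hei (h9 ▸ h5)

theorem fla_two_atoms (h : IsRank r) {F F1 F2 : Finset α} (hF : IsFl r F) (hF1 : IsFl r F1)
    (hF2 : IsFl r F2) (h1 : F ⊆ F1) (h2 : F ⊆ F2) (e1 : r F1 = r F + 1) (e2 : r F2 = r F + 1)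
    (hne : F1 ≠ F2) : F1 ∩ F2 = F ∧ r (F1 ∪ F2) = r F + 2 := by
  have hi := fla_isFl_inter h hF1 hF2
  have h3 : F ⊆ F1 ∩ F2 := subset_inter h1 h2
  have h4 : F1 ∩ F2 = F := by
    symm
    apply fla_eq h hF h3
    by_contra h5
    push Not at h5
    have h6 : F1 ∩ F2 = F1 := fla_eq h hi inter_subset_left (by omega)
    have h7 : F1 ∩ F2 = F2 := fla_eq h hi inter_subset_right (by omega)
    exact hne (h6.symm.trans h7)
  refine ⟨h4, ?_⟩
  have h5 := fla_submod h F1 F2
  rw [h4] at h5
  have h6 : F1 ⊂ F1 ∪ F2 := by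
    refine Finset.ssubset_iff_subset_ne.2 ⟨subset_union_left, fun h7 => ?_⟩
    have h8 : F2 ⊆ F1 := union_eq_left.1 h7.symm
    exact hne (fla_eq h hF2 h8 (by omega)).symm
  have h7 := fla_rank_lt h hF1 h6
  omega

theorem t_FLA : Stmt_FLA := by
  intro α _ _ r h
  have hb : ∀ e, e ∈ (bot r).F ↔ Loo r e := by
    intro e
    simp [bot]
  have hb0 : r (bot r).F = 0 := by
    have h1 := fla_add h ∅ (bot r).F (fun e he => by
      rw [hb e] at he
      unfold Loo at he
      rw [h.empty]
      simpa using he)
    rw [union_empty, h.empty] at h1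
    exact h1
  have hbf : IsFl r (bot r).F := by
    intro e he
    have h1 := h.mono (bot r).F e
    have h2 := h.le_succ (bot r).F e
    by_contra h3
    apply he
    rw [hb e]
    have h4 : r {e} ≤ r (insert e (bot r).F) := h.mono_subset (by simp)
    show r {e} = 0
    omega
  refine ⟨fla_submod h, fla_card h,
    fun A => ⟨fla_subset_clo A, fla_rank_clo h A, fla_isFl_clo h A⟩,
    fun A F hF hA => fla_clo_subset h hF hA,
    fun F F' hF hlt => fla_rank_lt h hF hlt,
    fun F F' hF hF' => fla_isFl_inter h hF hF',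
    fun F e f hF he hf hef => fla_exchange h hF he hf hef,
    fun F F' i hF hF' hs hr hi => fla_exists_atom h hF hF' hs hr hi,
    fun F F1 F2 hF hF1 hF2 h1 h2 e1 e2 hne => fla_two_atoms h hF hF1 hF2 h1 h2 e1 e2 hne,
    fun e he => absurd (mem_univ e) he, hbf, hb0, ?_, hb⟩
  intro F hF e he
  by_contra h1
  have h2 := hF e h1
  rw [hb e] at he
  unfold Loo at he
  have h3 : r (insert e (∅ : Finset α)) = r ∅ := by
    rw [h.empty]
    simpa using he
  have h4 := h.closure h3 (empty_subset F)
  omega

end Pool.Agent.QPR
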