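import Pool.Agent.QPR.StS

/-!
# Intervals of extended states are connected (helper65)

`Stmt_IC` of `Pool/Agent/QPR/StS.lean`.
-/

set_option autoImplicit false

open Finset

namespace Pool.Agent.QPR

namespace ICx

variable {α : Type} [Fintype α] [DecidableEq α] {r : Finset α → ℕ}

omit [Fintype α] [DecidableEq α] in
theorem pt_eq {s t : Pt α} (h1 : s.F = t.F) (h2 : s.G = t.G) (h3 : s.S = t.S) (h4 : s.T = t.T) :
    s = t := by
  obtain ⟨F, G, S, T⟩ := s
  obtain ⟨F', G', S', T'⟩ := t
  simp only at h1 h2 h3 h4
  subst h1 h2 h3 h4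
  rfl

theorem bool_eq {x y : Bool} (h1 : x = true → y = true) (h2 : y = true → x = true) : x = y := by
  cases x <;> cases y <;> simp_all

theorem mem_mid {a b u : Pt α} : u ∈ mid r a b ↔ Ex0 r u ∧ a < u ∧ u < b := by
  classical
  simp [mid]

theorem mix {x y : Pt α} (hx : Ex0 r x) (hy : Ex0 r y) (h : x ≤ y) :
    Ex0 r ⟨y.F, x.G, y.S, x.T⟩ where
  flat := hy.flat
  cyc := hx.cyc
  GF := hx.GF.trans h.1
  GS := fun hn => h.2.2.1 (hx.GS hn)
  TS := fun ht => h.2.2.1 (hx.TS ht)
  TF := fun ht => by
    have h1 := hx.TF ht
    have h2 : x.F ⊆ y.F := h.1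
    rw [h1] at h2
    exact Finset.univ_subset_iff.1 h2

/-- an atom below an element with a larger flat -/
theorem exists_new {A B : Finset α} (h : A ⊆ B) (hne : A ≠ B) : ∃ e, e ∈ B ∧ e ∉ A := by
  by_contra hcon
  push Not at hcon
  exact hne (Finset.Subset.antisymm h hcon)

/-- Case B: the components `G` and `T` do not change. -/
theorem caseB (h2 : Stmt_FLA) (hr : IsRank r) {a b : Pt α} (ha : Ex0 r a) (hb : Ex0 r b)
    (hab : a < b) (hh : ht r a + 3 ≤ ht r b) (hG : a.G = b.G) (hT : a.T = b.T) (z : Pt α → ℝ)
    (hz : ∀ u ∈ mid r a b, ∀ v ∈ mid r a b, u < v → z u = z v) :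
    ∀ u ∈ mid r a b, ∀ v ∈ mid r a b, z u = z v := by
  obtain ⟨-, -, f3, f4, -⟩ := h2 α r hr
  have he : ∀ u v, u ∈ mid r a b → v ∈ mid r a b → u ≤ v → z u = z v := by
    intro u v hu hv huv
    rcases eq_or_lt_of_le huv with h | h
    · rw [h]
    · exact hz u hu v hv h
  have hle := hab.le
  have hTF : a.T = false := by
    by_contra hcon
    have hT1 : a.T = true := by simpa using hcon
    have hS1 := ha.TS hT1
    have hS2 := hle.2.2.1 hS1
    have hF1 := ha.TF hT1
    have hF2 := hb.TF (hT ▸ hT1)
    exact hab.ne (pt_eq (hF1.trans hF2.symm) hG (hS1.trans hS2.symm) hT)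
  by_cases hS : a.S = b.S
  · have hrk : r a.F + 3 ≤ r b.F := by
      unfold ht at hh
      rw [hG, hS, hT] at hh
      omega
    -- the atoms
    have hat : ∀ u ∈ mid r a b, ∃ e, e ∈ b.F ∧ e ∉ a.F ∧
        (⟨clo r (insert e a.F), a.G, a.S, a.T⟩ : Pt α) ∈ mid r a b ∧
        z ⟨clo r (insert e a.F), a.G, a.S, a.T⟩ = z u := by
      intro u hu
      obtain ⟨hue, hau, hub⟩ := mem_mid.1 hu
      have hau' := hau.le
      have hub' := hub.le
      have huG : u.G = a.G := Finset.Subset.antisymm (by rw [hG]; exact hub'.2.1) hau'.2.1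
      have huS : u.S = a.S := bool_eq (by rw [hS]; exact hub'.2.2.1) hau'.2.2.1
      have huT : u.T = a.T := bool_eq (by rw [hT]; exact hub'.2.2.2) hau'.2.2.2
      have hFne : a.F ≠ u.F := fun h => hau.ne (pt_eq h huG.symm huS.symm huT.symm)
      obtain ⟨e, he1, he2⟩ := exists_new hau'.1 hFne
      obtain ⟨g1, g2, g3⟩ := f3 (insert e a.F)
      have hsub : clo r (insert e a.F) ⊆ u.F :=
        f4 _ _ hue.flat (Finset.insert_subset he1 hau'.1)
      have haF : a.F ⊆ clo r (insert e a.F) := (Finset.subset_insert _ _).trans g1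
      have hex : Ex0 r ⟨clo r (insert e a.F), a.G, a.S, a.T⟩ :=
        { flat := g3
          cyc := ha.cyc
          GF := ha.GF.trans haF
          GS := ha.GS
          TS := ha.TS
          TF := fun h => by simp [hTF] at h }
      have hle1 : (⟨clo r (insert e a.F), a.G, a.S, a.T⟩ : Pt α) ≤ u :=
        ⟨hsub, by rw [huG], by rw [huS]; exact id, by rw [huT]; exact id⟩
      have hlt1 : a < (⟨clo r (insert e a.F), a.G, a.S, a.T⟩ : Pt α) := by
        refine lt_of_le_of_ne ⟨haF, Finset.Subset.refl _, id, id⟩ ?_
        intro h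
        have h' : a.F = clo r (insert e a.F) := congrArg Pt.F h
        exact he2 (h' ▸ g1 (Finset.mem_insert_self _ _))
      have hmem : (⟨clo r (insert e a.F), a.G, a.S, a.T⟩ : Pt α) ∈ mid r a b :=
        mem_mid.2 ⟨hex, hlt1, lt_of_le_of_lt hle1 hub⟩
      exact ⟨e, hub'.1 he1, he2, hmem, he _ _ hmem hu hle1⟩
    intro u hu v hv
    obtain ⟨e, he1, he2, hm1, hz1⟩ := hat u hu
    obtain ⟨f, hf1, hf2, hm2, hz2⟩ := hat v hv
    obtain ⟨g1, g2, g3⟩ := f3 (insert e (insert f a.F))
    have hWb : clo r (insert e (insert f a.F)) ⊆ b.F :=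
      f4 _ _ hb.flat (Finset.insert_subset he1 (Finset.insert_subset hf1 hle.1))
    have haW : a.F ⊆ clo r (insert e (insert f a.F)) :=
      ((Finset.subset_insert _ _).trans (Finset.subset_insert _ _)).trans g1
    have hex : Ex0 r ⟨clo r (insert e (insert f a.F)), a.G, a.S, a.T⟩ :=
      { flat := g3
        cyc := ha.cyc
        GF := ha.GF.trans haW
        GS := ha.GS
        TS := ha.TS
        TF := fun h => by simp [hTF] at h }
    have hle1 : (⟨clo r (insert e a.F), a.G, a.S, a.T⟩ : Pt α) ≤
        ⟨clo r (insert e (insert f a.F)), a.G, a.S, a.T⟩ :=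
      ⟨f4 _ _ g3 ((Finset.insert_subset_insert _ (Finset.subset_insert _ _)).trans g1),
        Finset.Subset.refl _, id, id⟩
    have hle2 : (⟨clo r (insert f a.F), a.G, a.S, a.T⟩ : Pt α) ≤
        ⟨clo r (insert e (insert f a.F)), a.G, a.S, a.T⟩ :=
      ⟨f4 _ _ g3 ((Finset.subset_insert _ _).trans g1), Finset.Subset.refl _, id, id⟩
    have hlt : (⟨clo r (insert e (insert f a.F)), a.G, a.S, a.T⟩ : Pt α) < b := by
      refine lt_of_le_of_ne ⟨hWb, by rw [hG], by rw [hS]; exact id, by rw [hT]; exact id⟩ ?_
      intro h
      have h' : clo r (insert e (insert f a.F)) = b.F := congrArg Pt.F h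
      have k1 := hr.le_succ (insert f a.F) e
      have k2 := hr.le_succ a.F f
      rw [h'] at g2
      omega
    have hw : (⟨clo r (insert e (insert f a.F)), a.G, a.S, a.T⟩ : Pt α) ∈ mid r a b :=
      mem_mid.2 ⟨hex, lt_of_lt_of_le (mem_mid.1 hm1).2.1 hle1, hlt⟩
    rw [← hz1, ← hz2, he _ _ hm1 hw hle1, he _ _ hm2 hw hle2]
  · -- the window starts
    have haS : a.S = false := by
      by_contra hcon
      have h1 : a.S = true := by simpa using hcon
      exact hS (h1.trans (hle.2.2.1 h1).symm)
    have hbS : b.S = true := by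
      by_contra hcon
      have h1 : b.S = false := by simpa using hcon
      exact hS (haS.trans h1.symm)
    have hbT : b.T = false := hT ▸ hTF
    have haG : a.G = ∅ := by
      by_contra hcon
      have := ha.GS (Finset.nonempty_iff_ne_empty.2 hcon)
      rw [haS] at this
      exact Bool.noConfusion this
    have hbG : b.G = ∅ := hG ▸ haG
    have hrk : r a.F + 2 ≤ r b.F := by
      unfold ht at hh
      rw [haG, haS, hTF, hbG, hbS, hbT] at hh
      simp at hh
      omega
    have hs1 : Ex0 r ⟨a.F, ∅, true, false⟩ :=
      { flat := ha.flat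
        cyc := fun e he => by simp at he
        GF := Finset.empty_subset _
        GS := fun _ => rfl
        TS := fun _ => rfl
        TF := fun h => by simp at h }
    have hs2 : a < (⟨a.F, ∅, true, false⟩ : Pt α) := by
      refine lt_of_le_of_ne ⟨Finset.Subset.refl _, by rw [haG], fun _ => rfl, by
        rw [hTF]; exact id⟩ ?_
      intro h
      have h' : a.S = true := congrArg Pt.S h
      rw [haS] at h'
      exact Bool.noConfusion h'
    have hs3 : (⟨a.F, ∅, true, false⟩ : Pt α) < b := by
      refine lt_of_le_of_ne ⟨hle.1, Finset.empty_subset _, fun _ => hbS, fun h => by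
        simp at h⟩ ?_
      intro h
      have h' : a.F = b.F := by
        have k0 := congrArg Pt.F h
        exact k0
      rw [h'] at hrk
      omega
    have hs : (⟨a.F, ∅, true, false⟩ : Pt α) ∈ mid r a b := mem_mid.2 ⟨hs1, hs2, hs3⟩
    have key : ∀ u ∈ mid r a b, z u = z ⟨a.F, ∅, true, false⟩ := by
      intro u hu
      obtain ⟨hue, hau, hub⟩ := mem_mid.1 hu
      have hau' := hau.le
      have hub' := hub.le
      have huG : u.G = ∅ := Finset.subset_empty.1 (hbG ▸ hub'.2.1)
      have huT : u.T = false := by
        by_contra hcon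
        have h1 : u.T = true := by simpa using hcon
        have h2 := hub'.2.2.2 h1
        rw [hbT] at h2
        exact Bool.noConfusion h2
      by_cases huS : u.S = true
      · exact (he _ _ hs hu ⟨hau'.1, Finset.empty_subset _, fun _ => huS, fun h => by
          simp at h⟩).symm
      · have huS' : u.S = false := by simpa using huS
        have hFne : a.F ≠ u.F := fun h => hau.ne (pt_eq h (haG.trans huG.symm)
          (haS.trans huS'.symm) (hTF.trans huT.symm))
        obtain ⟨e, he1, he2⟩ := exists_new hau'.1 hFne
        obtain ⟨g1, g2, g3⟩ := f3 (insert e a.F)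
        have hsub : clo r (insert e a.F) ⊆ u.F :=
          f4 _ _ hue.flat (Finset.insert_subset he1 hau'.1)
        have haF : a.F ⊆ clo r (insert e a.F) := (Finset.subset_insert _ _).trans g1
        have hex1 : Ex0 r ⟨clo r (insert e a.F), ∅, false, false⟩ :=
          { flat := g3
            cyc := fun e he => by simp at he
            GF := Finset.empty_subset _
            GS := fun h => by simp at h
            TS := fun h => by simp at h
            TF := fun h => by simp at h }
        have hex2 : Ex0 r ⟨clo r (insert e a.F), ∅, true, false⟩ :=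
          { flat := g3
            cyc := fun e he => by simp at he
            GF := Finset.empty_subset _
            GS := fun _ => rfl
            TS := fun _ => rfl
            TF := fun h => by simp at h }
        have hlt1 : a < (⟨clo r (insert e a.F), ∅, false, false⟩ : Pt α) := by
          refine lt_of_le_of_ne ⟨haF, by rw [haG], by rw [haS]; exact id, by
            rw [hTF]; exact id⟩ ?_
          intro h
          have h' : a.F = clo r (insert e a.F) := congrArg Pt.F h
          exact he2 (h' ▸ g1 (Finset.mem_insert_self _ _))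
        have hle1 : (⟨clo r (insert e a.F), ∅, false, false⟩ : Pt α) ≤ u :=
          ⟨hsub, Finset.empty_subset _, fun h => by simp at h, fun h => by simp at h⟩
        have hm1 : (⟨clo r (insert e a.F), ∅, false, false⟩ : Pt α) ∈ mid r a b :=
          mem_mid.2 ⟨hex1, hlt1, lt_of_le_of_lt hle1 hub⟩
        have hle2 : (⟨clo r (insert e a.F), ∅, false, false⟩ : Pt α) ≤
            ⟨clo r (insert e a.F), ∅, true, false⟩ :=
          ⟨Finset.Subset.refl _, Finset.Subset.refl _, fun _ => rfl, id⟩
        have hle3 : (⟨a.F, ∅, true, false⟩ : Pt α) ≤ ⟨clo r (insert e a.F), ∅, true, false⟩ :=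
          ⟨haF, Finset.Subset.refl _, id, id⟩
        have hlt2 : (⟨clo r (insert e a.F), ∅, true, false⟩ : Pt α) < b := by
          refine lt_of_le_of_ne ⟨hsub.trans hub'.1, Finset.empty_subset _, fun _ => hbS, fun h => by
            simp at h⟩ ?_
          intro h
          have h' : clo r (insert e a.F) = b.F := congrArg Pt.F h
          have k1 := hr.le_succ a.F e
          rw [h'] at g2
          omega
        have hm2 : (⟨clo r (insert e a.F), ∅, true, false⟩ : Pt α) ∈ mid r a b :=
          mem_mid.2 ⟨hex2, lt_of_lt_of_le hlt1 hle2, hlt2⟩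
        rw [← he _ _ hm1 hu hle1, he _ _ hm1 hm2 hle2, he _ _ hs hm2 hle3]
    intro u hu v hv
    rw [key u hu, key v hv]

end ICx

open ICx in
/-- Intervals are connected. -/
theorem t_IC (h1 : Stmt_DU1) (h2 : Stmt_FLA) (_h3 : Stmt_CYC) (h4 : Stmt_HT) (h5 : Stmt_DU2)
    (h6 : Stmt_BET) : Stmt_IC := by
  intro α _ _ r hr a b ha hb hab hh z hz
  have hle := hab.le
  by_cases hB : a.G = b.G ∧ a.T = b.T
  · exact caseB h2 hr ha hb hab hh hB.1 hB.2 z hz
  by_cases hC : a.F = b.F ∧ a.S = b.S
  · -- the dual of case B
    obtain ⟨d1, -⟩ := h1 α r hr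
    obtain ⟨e1, e2, e3, -, -, e6, -, e8, -, -, -, -, -, -, -, -, e17, -⟩ := h5 α r hr
    have hmem : ∀ u ∈ mid r a b, du u ∈ mid (dual r) (du b) (du a) := by
      intro u hu
      rw [e17]
      exact Finset.mem_image_of_mem _ hu
    have hh' : ht (dual r) (du b) + 3 ≤ ht (dual r) (du a) := by
      have k1 := e8 a ha
      have k2 := e8 b hb
      omega
    have hG' : (du b).G = (du a).G := by
      show b.Fᶜ = a.Fᶜ
      rw [hC.1]
    have hT' : (du b).T = (du a).T := by
      show (!b.S) = (!a.S)
      rw [hC.2]
    have key := caseB h2 d1 ((e6 b).2 hb) ((e6 a).2 ha) ((e3 b a).2 hab) hh' hG' hT'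
      (fun p => z (du p)) (by
        intro p hp q hq hpq
        rw [e17] at hp hq
        obtain ⟨p0, hp0, rfl⟩ := Finset.mem_image.1 hp
        obtain ⟨q0, hq0, rfl⟩ := Finset.mem_image.1 hq
        have hlt := (e3 p0 q0).1 hpq
        show z (du (du p0)) = z (du (du q0))
        rw [e1, e1]
        exact (hz q0 hq0 p0 hp0 hlt).symm)
    intro u hu v hv
    have := key (du u) (hmem u hu) (du v) (hmem v hv)
    simpa only [e1] using this
  · -- the general case
    have he : ∀ u v, u ∈ mid r a b → v ∈ mid r a b → u ≤ v → z u = z v := by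
      intro u v hu hv huv
      rcases eq_or_lt_of_le huv with h | h
      · rw [h]
      · exact hz u hu v hv h
    obtain ⟨-, -, -, -, -, -, -, hht, -⟩ := h4 α r hr
    have hBET := h6 α r hr
    have hmE : Ex0 r ⟨b.F, a.G, b.S, a.T⟩ := mix ha hb hle
    have ham : a < (⟨b.F, a.G, b.S, a.T⟩ : Pt α) := by
      refine lt_of_le_of_ne ⟨hle.1, Finset.Subset.refl _, hle.2.2.1, id⟩ ?_
      intro h
      have k1 := congrArg Pt.F h
      have k2 := congrArg Pt.S h
      exact hC ⟨k1, k2⟩
    have hmb : (⟨b.F, a.G, b.S, a.T⟩ : Pt α) < b := by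
      refine lt_of_le_of_ne ⟨Finset.Subset.refl _, hle.2.1, id, hle.2.2.2⟩ ?_
      intro h
      have k1 := congrArg Pt.G h
      have k2 := congrArg Pt.T h
      exact hB ⟨k1, k2⟩
    have hm : (⟨b.F, a.G, b.S, a.T⟩ : Pt α) ∈ mid r a b := mem_mid.2 ⟨hmE, ham, hmb⟩
    have key : ∀ u ∈ mid r a b, z u = z ⟨b.F, a.G, b.S, a.T⟩ := by
      intro u hu
      obtain ⟨hue, hau, hub⟩ := mem_mid.1 hu
      have hau' := hau.le
      have hub' := hub.le
      by_cases hlow : a.F = u.F ∧ a.S = u.S
      · by_cases hupp : u.G = b.G ∧ u.T = b.T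
        · -- the complement
          have g1 : ht r a < ht r ⟨b.F, a.G, b.S, a.T⟩ := hht _ _ ha hmE ham
          have g2 : ht r ⟨b.F, a.G, b.S, a.T⟩ < ht r b := hht _ _ hmE hb hmb
          by_cases hca : ht r a + 2 ≤ ht r ⟨b.F, a.G, b.S, a.T⟩
          · obtain ⟨x, hxe, hax, hxm, -⟩ := hBET a _ ha hmE ham hca
            have hax' := hax.le
            have hxm' := hxm.le
            have hxG : x.G = a.G := Finset.Subset.antisymm hxm'.2.1 hax'.2.1
            have hxT : x.T = a.T := bool_eq hxm'.2.2.2 hax'.2.2.2
            have hx : x ∈ mid r a b := mem_mid.2 ⟨hxe, hax, hxm.trans hmb⟩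
            have hwE : Ex0 r ⟨x.F, b.G, x.S, b.T⟩ :=
              { flat := hxe.flat
                cyc := hb.cyc
                GF := by
                  show b.G ⊆ x.F
                  rw [← hupp.1]
                  exact (hue.GF.trans (by rw [hlow.1])).trans hax'.1
                GS := fun h => by
                  have h' : (b.G).Nonempty := h
                  rw [← hupp.1] at h'
                  have h2 := hue.GS h'
                  rw [← hlow.2] at h2
                  exact hax'.2.2.1 h2
                TS := fun h => by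
                  have h' : b.T = true := h
                  rw [← hupp.2] at h'
                  have h2 := hue.TS h'
                  rw [← hlow.2] at h2
                  exact hax'.2.2.1 h2
                TF := fun h => by
                  have h' : b.T = true := h
                  rw [← hupp.2] at h'
                  have h2 := hue.TF h'
                  rw [← hlow.1] at h2
                  have h3 : a.F ⊆ x.F := hax'.1
                  rw [h2] at h3
                  exact Finset.univ_subset_iff.1 h3 }
            have huw : u ≤ (⟨x.F, b.G, x.S, b.T⟩ : Pt α) := by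
              refine ⟨?_, ?_, ?_, ?_⟩
              · rw [← hlow.1]
                exact hax'.1
              · exact hub'.2.1
              · rw [← hlow.2]
                exact hax'.2.2.1
              · exact hub'.2.2.2
            have hxw : x ≤ (⟨x.F, b.G, x.S, b.T⟩ : Pt α) := by
              refine ⟨Finset.Subset.refl _, ?_, id, ?_⟩
              · rw [hxG]
                exact hle.2.1
              · rw [hxT]
                exact hle.2.2.2
            have hwb : (⟨x.F, b.G, x.S, b.T⟩ : Pt α) < b := by
              refine lt_of_le_of_ne ⟨hxm'.1, Finset.Subset.refl _, hxm'.2.2.1, id⟩ ?_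
              intro h
              have k1 : x.F = b.F := by
                have k0 := congrArg Pt.F h
                exact k0
              have k2 : x.S = b.S := by
                have k0 := congrArg Pt.S h
                exact k0
              exact hxm.ne (pt_eq k1 hxG k2 hxT)
            have hw : (⟨x.F, b.G, x.S, b.T⟩ : Pt α) ∈ mid r a b :=
              mem_mid.2 ⟨hwE, lt_of_lt_of_le hau huw, hwb⟩
            rw [he _ _ hu hw huw, ← he _ _ hx hw hxw, he _ _ hx hm hxm']
          · have hcb : ht r ⟨b.F, a.G, b.S, a.T⟩ + 2 ≤ ht r b := by omega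
            obtain ⟨x, hxe, hmx, hxb, -⟩ := hBET _ b hmE hb hmb hcb
            have hmx' := hmx.le
            have hxb' := hxb.le
            have hxF : x.F = b.F := Finset.Subset.antisymm hxb'.1 hmx'.1
            have hxS : x.S = b.S := bool_eq hxb'.2.2.1 hmx'.2.2.1
            have hx : x ∈ mid r a b := mem_mid.2 ⟨hxe, ham.trans hmx, hxb⟩
            have hwE : Ex0 r ⟨a.F, x.G, a.S, x.T⟩ :=
              { flat := ha.flat
                cyc := hxe.cyc
                GF := by
                  show x.G ⊆ a.F
                  rw [hlow.1]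
                  refine hxb'.2.1.trans ?_
                  rw [← hupp.1]
                  exact hue.GF
                GS := fun h => by
                  have h' : (x.G).Nonempty := h
                  have h'' : (b.G).Nonempty := h'.mono hxb'.2.1
                  rw [← hupp.1] at h''
                  have h2 := hue.GS h''
                  rw [← hlow.2] at h2
                  exact h2
                TS := fun h => by
                  have h' : b.T = true := hxb'.2.2.2 h
                  rw [← hupp.2] at h'
                  have h2 := hue.TS h'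
                  rw [← hlow.2] at h2
                  exact h2
                TF := fun h => by
                  have h' : b.T = true := hxb'.2.2.2 h
                  rw [← hupp.2] at h'
                  have h2 := hue.TF h'
                  rw [← hlow.1] at h2
                  exact h2 }
            have hwu : (⟨a.F, x.G, a.S, x.T⟩ : Pt α) ≤ u := by
              refine ⟨?_, ?_, ?_, ?_⟩
              · rw [← hlow.1]
              · rw [hupp.1]
                exact hxb'.2.1
              · rw [← hlow.2]
                exact id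
              · rw [hupp.2]
                exact hxb'.2.2.2
            have hwx : (⟨a.F, x.G, a.S, x.T⟩ : Pt α) ≤ x := by
              refine ⟨?_, Finset.Subset.refl _, ?_, id⟩
              · rw [hxF]
                exact hle.1
              · rw [hxS]
                exact hle.2.2.1
            have haw : a < (⟨a.F, x.G, a.S, x.T⟩ : Pt α) := by
              refine lt_of_le_of_ne ⟨Finset.Subset.refl _, hmx'.2.1, id, hmx'.2.2.2⟩ ?_
              intro h
              have k1 : a.G = x.G := by
                have k0 := congrArg Pt.G h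
                exact k0
              have k2 : a.T = x.T := by
                have k0 := congrArg Pt.T h
                exact k0
              exact hmx.ne (pt_eq hxF.symm k1 hxS.symm k2)
            have hw : (⟨a.F, x.G, a.S, x.T⟩ : Pt α) ∈ mid r a b :=
              mem_mid.2 ⟨hwE, haw, lt_of_le_of_lt hwu hub⟩
            rw [← he _ _ hw hu hwu, he _ _ hw hx hwx, ← he _ _ hm hx hmx']
        · -- the join
          have hwE : Ex0 r ⟨b.F, u.G, b.S, u.T⟩ := mix hue hb hub'
          have huw : u ≤ (⟨b.F, u.G, b.S, u.T⟩ : Pt α) :=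
            ⟨hub'.1, Finset.Subset.refl _, hub'.2.2.1, id⟩
          have hmw : (⟨b.F, a.G, b.S, a.T⟩ : Pt α) ≤ ⟨b.F, u.G, b.S, u.T⟩ :=
            ⟨Finset.Subset.refl _, hau'.2.1, id, hau'.2.2.2⟩
          have hwb : (⟨b.F, u.G, b.S, u.T⟩ : Pt α) < b := by
            refine lt_of_le_of_ne ⟨Finset.Subset.refl _, hub'.2.1, id, hub'.2.2.2⟩ ?_
            intro h
            have k1 : u.G = b.G := by
              have k0 := congrArg Pt.G h
              exact k0
            have k2 : u.T = b.T := by
              have k0 := congrArg Pt.T h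
              exact k0
            exact hupp ⟨k1, k2⟩
          have hw : (⟨b.F, u.G, b.S, u.T⟩ : Pt α) ∈ mid r a b :=
            mem_mid.2 ⟨hwE, lt_of_lt_of_le hau huw, hwb⟩
          rw [he _ _ hu hw huw, ← he _ _ hm hw hmw]
      · -- the meet
        have hwE : Ex0 r ⟨u.F, a.G, u.S, a.T⟩ := mix ha hue hau'
        have hwu : (⟨u.F, a.G, u.S, a.T⟩ : Pt α) ≤ u :=
          ⟨Finset.Subset.refl _, hau'.2.1, id, hau'.2.2.2⟩
        have hwm : (⟨u.F, a.G, u.S, a.T⟩ : Pt α) ≤ ⟨b.F, a.G, b.S, a.T⟩ :=
          ⟨hub'.1, Finset.Subset.refl _, hub'.2.2.1, id⟩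
        have haw : a < (⟨u.F, a.G, u.S, a.T⟩ : Pt α) := by
          refine lt_of_le_of_ne ⟨hau'.1, Finset.Subset.refl _, hau'.2.2.1, id⟩ ?_
          intro h
          have k1 : a.F = u.F := by
            have k0 := congrArg Pt.F h
            exact k0
          have k2 : a.S = u.S := by
            have k0 := congrArg Pt.S h
            exact k0
          exact hlow ⟨k1, k2⟩
        have hw : (⟨u.F, a.G, u.S, a.T⟩ : Pt α) ∈ mid r a b :=
          mem_mid.2 ⟨hwE, haw, lt_of_le_of_lt hwu hub⟩
        rw [← he _ _ hw hu hwu, he _ _ hw hm hwm]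
    intro u hu v hv
    rw [key u hu, key v hv]

end Pool.Agent.QPR
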