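import Pool.Agent.QPR.StS

/-!
# NCI: inner critical gap, three ranks
-/

set_option autoImplicit false

open Finset

namespace Pool.Agent.QPR

namespace NCI

variable {α : Type} [Fintype α] [DecidableEq α] {r : Finset α → ℕ}

theorem mem_mid {a b p : Pt α} : p ∈ mid r a b ↔ Ex0 r p ∧ a < p ∧ p < b := by
  classical
  unfold mid
  simp

/-- the atom over `F` through `x` -/
theorem atom (h1 : Stmt_FLA) (hr : IsRank r) {F X : Finset α} {x : α} (hF : IsFl r F)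
    (hX : IsFl r X) (hFX : F ⊆ X) (hx : x ∉ F) (hxX : x ∈ X) :
    ∃ F1, IsFl r F1 ∧ F ⊂ F1 ∧ F1 ⊆ X ∧ x ∈ F1 ∧ r F1 = r F + 1 := by
  obtain ⟨-, -, hclo, hsub, -⟩ := h1 α r hr
  obtain ⟨g1, g2, g3⟩ := hclo (insert x F)
  refine ⟨clo r (insert x F), g3, ?_, ?_, g1 (mem_insert_self _ _), ?_⟩
  · rw [ssubset_iff_of_subset ((subset_insert _ _).trans g1)]
    exact ⟨x, g1 (mem_insert_self _ _), hx⟩
  · exact hsub _ _ hX (insert_subset hxX hFX)
  · rw [g2]
    exact hF x hx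

/-- the data -/
structure Dt (r : Finset α → ℕ) (a b : Pt α) : Prop where
  aF : IsFl r a.F
  bF : IsFl r b.F
  aG : IsCy r a.G
  bG : IsCy r b.G
  aGF : a.G ⊆ a.F
  bGF : b.G ⊆ b.F
  FF : a.F ⊆ b.F
  GG : a.G ⊆ b.G
  aS : a.S = true
  aT : a.T = false
  bS : b.S = true
  bT : b.T = false
  rk : r a.F + 3 ≤ r b.F

theorem cri_iff {a b : Pt α} (D : Dt r a b) {i : α} : Cri a b i ↔ i ∉ a.F ∧ i ∈ b.G := by
  unfold Cri
  rw [D.aS, D.bT]
  simp

/-- a middle point -/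
theorem mem_of (h3 : Stmt_HT) (hr : IsRank r) {a b : Pt α} (D : Dt r a b) {X K : Finset α}
    (hX : IsFl r X) (hK : IsCy r K) (hKX : K ⊆ X) (h4 : a.F ⊆ X) (h5 : X ⊆ b.F)
    (h6 : a.G ⊆ K) (h7 : K ⊆ b.G) (h8 : a.F ≠ X ∨ a.G ≠ K) (h9 : X ≠ b.F ∨ K ≠ b.G) :
    (⟨X, K, true, false⟩ : Pt α) ∈ mid r a b := by
  rw [mem_mid]
  obtain ⟨hex, -⟩ := h3 α r hr
  refine ⟨?_, ?_, ?_⟩
  · rw [hex]
    exact ⟨hX, hK, hKX, fun _ => rfl, fun h => by simp at h, fun h => by simp at h⟩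
  · refine lt_of_le_of_ne ⟨h4, h6, fun _ => rfl, fun h => ?_⟩ ?_
    · rw [D.aT] at h
      exact absurd h (by simp)
    · intro h
      rcases h8 with h8 | h8
      · exact h8 (by rw [h])
      · exact h8 (by rw [h])
  · refine lt_of_le_of_ne ⟨h5, h7, fun _ => D.bS, fun h => ?_⟩ ?_
    · exact absurd h (by simp)
    · intro h
      rcases h9 with h9 | h9
      · exact h9 (by rw [← h])
      · exact h9 (by rw [← h])

/-- pure atoms -/
structure PA (r : Finset α → ℕ) (a b : Pt α) (X : Finset α) : Prop where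
  fl : IsFl r X
  lo : a.F ⊂ X
  hi : X ⊆ b.F
  rk : r X = r a.F + 1
  ex : ∃ i, i ∉ a.F ∧ i ∈ b.G ∧ i ∉ X

/-- the point of an atom -/
def pt (a : Pt α) (X : Finset α) : Pt α := ⟨X, a.G, true, false⟩

theorem pt_mem (h3 : Stmt_HT) (hr : IsRank r) {a b : Pt α} (D : Dt r a b) {X : Finset α}
    (hX : IsFl r X) (h4 : a.F ⊂ X) (h5 : X ⊆ b.F) (h6 : r X < r b.F) : pt a X ∈ mid r a b := by
  refine mem_of h3 hr D hX D.aG (D.aGF.trans h4.1) h4.1 h5 (Subset.refl _) D.GG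
    (Or.inl (ne_of_ssubset h4)) (Or.inl ?_)
  intro h
  rw [h] at h6
  exact lt_irrefl _ h6

theorem lt_of_F {X Y K L : Finset α} (h : X ⊂ Y) (h' : K ⊆ L) :
    (⟨X, K, true, false⟩ : Pt α) < ⟨Y, L, true, false⟩ := by
  refine lt_of_le_of_ne ⟨h.1, h', fun _ => rfl, fun h => h⟩ ?_
  intro h1
  have : X = Y := congrArg Pt.F h1
  exact (ne_of_ssubset h) this

theorem nop_of {i : α} {s : Pt α} (h : i ∉ s.F) : Nop i s := fun h1 _ => absurd h1 h

theorem nop_of' {i : α} {s : Pt α} (h : i ∈ s.G) : Nop i s := fun _ _ => Or.inl h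

/-- the link through the join of two atoms -/
theorem link (h1 : Stmt_FLA) (h3 : Stmt_HT) (hr : IsRank r) {a b : Pt α} (D : Dt r a b)
    {z : Pt α → ℝ} (hz : EdC r a b z) {X Y : Finset α} (hX : PA r a b X) (hY : PA r a b Y)
    {i : α} (hi : i ∉ a.F) (hi' : i ∈ b.G) (hJ : i ∉ clo r (X ∪ Y)) :
    z (pt a X) = z (pt a Y) := by
  by_cases hXY : X = Y
  · rw [hXY]
  obtain ⟨-, -, hclo, hsub, -, -, -, -, f9, -⟩ := h1 α r hr
  obtain ⟨g1, g2, g3⟩ := hclo (X ∪ Y)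
  have hrk := (f9 a.F X Y D.aF hX.fl hY.fl hX.lo.1 hY.lo.1 hX.rk hY.rk hXY).2
  have hJb : clo r (X ∪ Y) ⊆ b.F := hsub _ _ D.bF (union_subset hX.hi hY.hi)
  have hJr : r (clo r (X ∪ Y)) = r a.F + 2 := by rw [g2, hrk]
  have hXJ : X ⊂ clo r (X ∪ Y) := by
    refine ssubset_of_subset_of_ne ((subset_union_left).trans g1) ?_
    intro h
    have := hX.rk
    rw [h, hJr] at this
    omega
  have hYJ : Y ⊂ clo r (X ∪ Y) := by
    refine ssubset_of_subset_of_ne ((subset_union_right).trans g1) ?_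
    intro h
    have := hY.rk
    rw [h, hJr] at this
    omega
  have hrk := D.rk
  have mX : pt a X ∈ mid r a b := pt_mem h3 hr D hX.fl hX.lo hX.hi (by rw [hX.rk]; omega)
  have mY : pt a Y ∈ mid r a b := pt_mem h3 hr D hY.fl hY.lo hY.hi (by rw [hY.rk]; omega)
  have mJ : pt a (clo r (X ∪ Y)) ∈ mid r a b :=
    pt_mem h3 hr D g3 (hX.lo.trans hXJ) hJb (by rw [hJr]; omega)
  have e1 := hz _ mX _ mJ (lt_of_F hXJ (Subset.refl _))
    ⟨i, (cri_iff D).2 ⟨hi, hi'⟩, nop_of (fun h => hJ (hXJ.1 h)), nop_of hJ⟩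
  have e2 := hz _ mY _ mJ (lt_of_F hYJ (Subset.refl _))
    ⟨i, (cri_iff D).2 ⟨hi, hi'⟩, nop_of (fun h => hJ (hYJ.1 h)), nop_of hJ⟩
  rw [e1, e2]

/-- if all critical elements are in the join `J`, an atom `Z` outside of `J` is linked to `X` -/
theorem link' (h1 : Stmt_FLA) (h3 : Stmt_HT) (hr : IsRank r) {a b : Pt α} (D : Dt r a b)
    {z : Pt α → ℝ} (hz : EdC r a b z) {X Z J : Finset α} (hX : PA r a b X) (hZ : PA r a b Z)
    (hJ : IsFl r J) (hXJ : X ⊆ J) (hI : ∀ i, i ∉ a.F → i ∈ b.G → i ∈ J)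
    (hZJ : ¬ Z ⊆ J) : z (pt a X) = z (pt a Z) := by
  obtain ⟨-, -, hclo, hsub, hstr, hint, -, -, f9, -⟩ := h1 α r hr
  obtain ⟨i, hi, hi', hiX⟩ := hX.ex
  have hXZ : X ≠ Z := by
    intro h
    exact hZJ (h ▸ hXJ)
  obtain ⟨g1, g2, g3⟩ := hclo (X ∪ Z)
  have hrk := (f9 a.F X Z D.aF hX.fl hZ.fl hX.lo.1 hZ.lo.1 hX.rk hZ.rk hXZ).2
  have hJr : r (clo r (X ∪ Z)) = r a.F + 2 := by rw [g2, hrk]
  have hint1 : IsFl r (clo r (X ∪ Z) ∩ J) := hint _ _ g3 hJ
  have hss : clo r (X ∪ Z) ∩ J ⊂ clo r (X ∪ Z) := by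
    refine ssubset_of_subset_of_ne inter_subset_left ?_
    intro h
    apply hZJ
    have h5 : Z ⊆ clo r (X ∪ Z) := (subset_union_right).trans g1
    rw [← h] at h5
    exact h5.trans inter_subset_right
  have hlt := hstr _ _ hint1 hss
  have hXs : X ⊆ clo r (X ∪ Z) ∩ J := subset_inter ((subset_union_left).trans g1) hXJ
  have heq : X = clo r (X ∪ Z) ∩ J := by
    by_contra hne
    have := hstr _ _ hX.fl (ssubset_of_subset_of_ne hXs hne)
    have h6 := hX.rk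
    omega
  refine link h1 h3 hr D hz hX hZ hi hi' ?_
  intro h
  apply hiX
  rw [heq, mem_inter]
  exact ⟨h, hI i hi hi'⟩

theorem pure_eq (h1 : Stmt_FLA) (h3 : Stmt_HT) (hr : IsRank r) {a b : Pt α} (D : Dt r a b)
    {z : Pt α → ℝ} (hz : EdC r a b z) {X Y : Finset α} (hX : PA r a b X) (hY : PA r a b Y) :
    z (pt a X) = z (pt a Y) := by
  by_cases hXY : X = Y
  · rw [hXY]
  by_cases hI : ∃ i, i ∉ a.F ∧ i ∈ b.G ∧ i ∉ clo r (X ∪ Y)
  · obtain ⟨i, hi, hi', hJ⟩ := hI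
    exact link h1 h3 hr D hz hX hY hi hi' hJ
  · push Not at hI
    obtain ⟨-, -, hclo, hsub, hstr, hint, -, -, f9, -⟩ := h1 α r hr
    obtain ⟨g1, g2, g3⟩ := hclo (X ∪ Y)
    have hrk := (f9 a.F X Y D.aF hX.fl hY.fl hX.lo.1 hY.lo.1 hX.rk hY.rk hXY).2
    have hJr : r (clo r (X ∪ Y)) = r a.F + 2 := by rw [g2, hrk]
    have hrk' := D.rk
    have hJb : clo r (X ∪ Y) ⊆ b.F := hsub _ _ D.bF (union_subset hX.hi hY.hi)
    have hJs : clo r (X ∪ Y) ⊂ b.F := by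
      refine ssubset_of_subset_of_ne hJb ?_
      intro h
      rw [h] at hJr
      omega
    obtain ⟨x, hxb, hxJ⟩ := (ssubset_iff_of_subset hJb).1 hJs
    have hXJ : X ⊆ clo r (X ∪ Y) := (subset_union_left).trans g1
    have hYJ : Y ⊆ clo r (X ∪ Y) := (subset_union_right).trans g1
    have hxF : x ∉ a.F := fun h => hxJ (hXJ (hX.lo.1 h))
    obtain ⟨Z, z1, z2, z3, z4, z5⟩ := atom h1 hr D.aF D.bF D.FF hxF hxb
    have hZJ : ¬ Z ⊆ clo r (X ∪ Y) := fun h => hxJ (h z4)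
    have hZint : Z ∩ clo r (X ∪ Y) = a.F := by
      have i1 := hint _ _ z1 g3
      have i2 : Z ∩ clo r (X ∪ Y) ⊂ Z := by
        refine ssubset_of_subset_of_ne inter_subset_left ?_
        intro h
        exact hZJ (by rw [← h]; exact inter_subset_right)
      have i3 := hstr _ _ i1 i2
      by_contra hne
      have i4 : a.F ⊂ Z ∩ clo r (X ∪ Y) :=
        ssubset_of_subset_of_ne (subset_inter z2.1 (hX.lo.1.trans hXJ)) (Ne.symm hne)
      have i5 := hstr _ _ D.aF i4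
      omega
    obtain ⟨i, hi, hi', -⟩ := hX.ex
    have hZ : PA r a b Z := by
      refine ⟨z1, z2, z3, z5, i, hi, hi', ?_⟩
      intro h
      apply hi
      rw [← hZint, mem_inter]
      exact ⟨h, hI i hi hi'⟩
    rw [link' h1 h3 hr D hz hX hZ g3 hXJ hI hZJ, link' h1 h3 hr D hz hY hZ g3 hYJ hI hZJ]

/-- every good vertex is linked to a pure atom -/
theorem good (h1 : Stmt_FLA) (h3 : Stmt_HT) (hr : IsRank r) {a b : Pt α} (D : Dt r a b)
    {z : Pt α → ℝ} (hz : EdC r a b z) {u : Pt α} (hu : u ∈ mid r a b) {i : α}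
    (hi : i ∉ a.F) (hi' : i ∈ b.G) (hn : Nop i u) : ∃ X, PA r a b X ∧ z u = z (pt a X) := by
  obtain ⟨-, -, hclo, hsub, hstr, hint, -, f8, -⟩ := h1 α r hr
  obtain ⟨hex, -⟩ := h3 α r hr
  have hci : Cri a b i := (cri_iff D).2 ⟨hi, hi'⟩
  have hrk := D.rk
  -- case (2)
  have c2 : ∀ v ∈ mid r a b, i ∉ v.F → v.F ≠ a.F → ∃ X, PA r a b X ∧ z v = z (pt a X) := by
    intro v hv hiv hne
    have hv' := mem_mid.1 hv
    obtain ⟨v1, v2, v3⟩ := hv'
    obtain ⟨w1, w2, w3, w4, w5, w6⟩ := (hex v).1 v1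
    have hvS : v.S = true := v2.le.2.2.1 D.aS
    have hvT : v.T = false := by
      cases h : v.T with
      | false => rfl
      | true =>
        have := v3.le.2.2.2 h
        rw [D.bT] at this
        exact this.symm
    have hFv : a.F ⊂ v.F := ssubset_of_subset_of_ne v2.le.1 (Ne.symm hne)
    obtain ⟨x, hx, hx'⟩ := (ssubset_iff_of_subset hFv.1).1 hFv
    obtain ⟨X, x1, x2, x3, x4, x5⟩ := atom h1 hr D.aF w1 hFv.1 hx' hx
    have hX : PA r a b X := ⟨x1, x2, x3.trans v3.le.1, x5, i, hi, hi', fun h => hiv (x3 h)⟩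
    refine ⟨X, hX, ?_⟩
    have mX : pt a X ∈ mid r a b := pt_mem h3 hr D hX.fl hX.lo hX.hi (by rw [hX.rk]; omega)
    have hle : pt a X ≤ v := ⟨x3, v2.le.2.1, fun _ => hvS, fun h => absurd h (by simp [pt])⟩
    rcases hle.eq_or_lt with h | h
    · rw [h]
    · exact (hz _ mX _ hv h ⟨i, hci, nop_of (fun h => hiv (x3 h)), nop_of hiv⟩).symm
  -- case (4), first part
  have c4 : ∀ v ∈ mid r a b, i ∈ v.G → r a.F + 2 ≤ r v.F →
      ∃ X, PA r a b X ∧ z v = z (pt a X) := by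
    intro v hv hiv hrv
    obtain ⟨v1, v2, v3⟩ := mem_mid.1 hv
    obtain ⟨w1, w2, w3, w4, w5, w6⟩ := (hex v).1 v1
    have hvS : v.S = true := v2.le.2.2.1 D.aS
    obtain ⟨X, x1, x2, x3, x4, x5⟩ := f8 a.F v.F i D.aF w1 v2.le.1 hrv hi
    have hX : PA r a b X := ⟨x1, x2, x3.1.trans v3.le.1, x5, i, hi, hi', x4⟩
    refine ⟨X, hX, ?_⟩
    have mX : pt a X ∈ mid r a b := pt_mem h3 hr D hX.fl hX.lo hX.hi (by rw [hX.rk]; omega)
    have hle : pt a X ≤ v := ⟨x3.1, v2.le.2.1, fun _ => hvS, fun h => absurd h (by simp [pt])⟩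
    have hlt : pt a X < v := by
      refine lt_of_le_of_ne hle ?_
      intro h
      exact (ne_of_ssubset x3) (congrArg Pt.F h)
    exact (hz _ mX _ hv hlt ⟨i, hci, nop_of x4, nop_of' hiv⟩).symm
  obtain ⟨v1, v2, v3⟩ := mem_mid.1 hu
  obtain ⟨w1, w2, w3, w4, w5, w6⟩ := (hex u).1 v1
  have huS : u.S = true := v2.le.2.2.1 D.aS
  have huT : u.T = false := by
    cases h : u.T with
    | false => rfl
    | true =>
      have := v3.le.2.2.2 h
      rw [D.bT] at this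
      exact this.symm
  have hu' : u = ⟨u.F, u.G, true, false⟩ := by
    cases u
    simp only at huS huT
    rw [huS, huT]
  by_cases hiu : i ∈ u.F
  · have hiG : i ∈ u.G := by
      rcases hn hiu huS with h | h
      · exact h
      · rw [huT] at h
        exact absurd h (by simp)
    have hne : a.F ≠ u.F := fun h => hi (h ▸ hiu)
    have hlt := hstr _ _ D.aF (ssubset_of_subset_of_ne v2.le.1 hne)
    by_cases h2 : r a.F + 2 ≤ r u.F
    · exact c4 u hu hiG h2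
    · have hru : r u.F = r a.F + 1 := by omega
      have hub : u.F ⊂ b.F := by
        refine ssubset_of_subset_of_ne v3.le.1 ?_
        intro h
        rw [h] at hru
        omega
      obtain ⟨x, hx, hx'⟩ := (ssubset_iff_of_subset hub.1).1 hub
      obtain ⟨Y, y1, y2, y3, y4, y5⟩ := atom h1 hr w1 D.bF hub.1 hx' hx
      have mv : (⟨Y, u.G, true, false⟩ : Pt α) ∈ mid r a b := by
        refine mem_of h3 hr D y1 w2 (w3.trans y2.1) (v2.le.1.trans y2.1) y3 v2.le.2.1 v3.le.2.1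
          (Or.inl ?_) (Or.inl ?_)
        · intro h
          have : r a.F = r Y := by rw [h]
          omega
        · intro h
          have : r Y = r b.F := by rw [h]
          omega
      have e1 : z u = z ⟨Y, u.G, true, false⟩ := by
        refine hz _ hu _ mv ?_ ⟨i, hci, nop_of' hiG, nop_of' hiG⟩
        calc u = ⟨u.F, u.G, true, false⟩ := hu'
          _ < ⟨Y, u.G, true, false⟩ := lt_of_F y2 (Subset.refl _)
      rw [e1]
      exact c4 _ mv hiG (by simp only; omega)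
  · by_cases hF : u.F = a.F
    · obtain ⟨X, x1, x2, x3, x4, x5⟩ := f8 a.F b.F i D.aF D.bF D.FF (by omega) hi
      have mv : (⟨X, u.G, true, false⟩ : Pt α) ∈ mid r a b := by
        refine mem_of h3 hr D x1 w2 ?_ x2.1 x3.1 v2.le.2.1 v3.le.2.1
          (Or.inl (ne_of_ssubset x2)) (Or.inl (ne_of_ssubset x3))
        rw [hF] at w3
        exact w3.trans x2.1
      have e1 : z u = z ⟨X, u.G, true, false⟩ := by
        refine hz _ hu _ mv ?_ ⟨i, hci, nop_of hiu, nop_of x4⟩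
        calc u = ⟨u.F, u.G, true, false⟩ := hu'
          _ < ⟨X, u.G, true, false⟩ := lt_of_F (by rw [hF]; exact x2) (Subset.refl _)
      rw [e1]
      exact c2 _ mv x4 (Ne.symm (ne_of_ssubset x2))
    · exact c2 u hu hiu hF

end NCI

open NCI in
theorem t_NCI (h1 : Stmt_FLA) (_h2 : Stmt_CYC) (h3 : Stmt_HT) : Stmt_NCI := by
  intro α _ _ r hr a b ha hb hab hS hT hrk _hc z hz u hu v hv hun hvn
  obtain ⟨hex, -⟩ := h3 α r hr
  obtain ⟨a1, a2, a3, a4, a5, a6⟩ := (hex a).1 ha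
  obtain ⟨b1, b2, b3, b4, b5, b6⟩ := (hex b).1 hb
  have haT : a.T = false := by
    cases h : a.T with
    | false => rfl
    | true =>
      have := hab.le.2.2.2 h
      rw [hT] at this
      exact this.symm
  have D : Dt r a b := ⟨a1, b1, a2, b2, a3, b3, hab.le.1, hab.le.2.1, hS, haT,
    hab.le.2.2.1 hS, hT, hrk⟩
  obtain ⟨i, hi, hin⟩ := hun
  obtain ⟨j, hj, hjn⟩ := hvn
  obtain ⟨X, hX, e1⟩ := good h1 h3 hr D hz hu ((cri_iff D).1 hi).1 ((cri_iff D).1 hi).2 hin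
  obtain ⟨Y, hY, e2⟩ := good h1 h3 hr D hz hv ((cri_iff D).1 hj).1 ((cri_iff D).1 hj).2 hjn
  rw [e1, e2]
  exact pure_eq h1 h3 hr D hz hX hY

end Pool.Agent.QPR
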