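import Pool.Agent.QPR.StS

/-!
# The critical gap with the window start (`Stmt_NCS`)

MP_9c4433_lc, part (1). Written by helper1 for helper86. The proof is the one in the doc string of
`Stmt_NCS`: if the flat changes everything is connected to `(b.F, ∅, false, false)`; otherwise the
vertices are the cyclic sets, connected through coatoms and their intersections.
-/

set_option autoImplicit false

open Finset

namespace Pool.Agent.QPR

namespace NCSaux

set_option linter.unusedSectionVars false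

variable {α : Type} [Fintype α] [DecidableEq α]

theorem mem_mid {r : Finset α → ℕ} {a b p : Pt α} :
    p ∈ mid r a b ↔ Ex0 r p ∧ a < p ∧ p < b := by
  classical
  simp [mid]

theorem lt_of {s t : Pt α} (h : s ≤ t) (hn : s ≠ t) : s < t := lt_of_le_of_ne h hn

/-- the elements of the gap -/
theorem mk_mid {r : Finset α → ℕ} {F F' G' A K : Finset α} {S : Bool}
    (hA : IsFl r A) (hK : IsCy r K) (hKA : K ⊆ A) (hS : K.Nonempty → S = true)
    (hFA : F ⊆ A) (hAF : A ⊆ F') (hKG : K ⊆ G') (hne : A ≠ F ∨ S = true)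
    (hne' : A ≠ F' ∨ K ≠ G' ∨ S = false) :
    (⟨A, K, S, false⟩ : Pt α) ∈ mid r ⟨F, ∅, false, false⟩ ⟨F', G', true, false⟩ := by
  rw [mem_mid]
  refine ⟨⟨hA, hK, hKA, hS, ?_, ?_⟩, lt_of ?_ ?_, lt_of ?_ ?_⟩
  · intro h
    exact absurd h (by simp)
  · intro h
    exact absurd h (by simp)
  · exact Pt.le_iff.2 ⟨hFA, empty_subset _, fun h => absurd h (by simp), fun h => h⟩
  · intro h
    rw [Pt.mk.injEq] at h
    rcases hne with h0 | h0
    · exact h0 h.1.symm
    · rw [h0] at h
      exact absurd h.2.2.1 (by simp)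
  · exact Pt.le_iff.2 ⟨hAF, hKG, fun _ => rfl, fun h => h⟩
  · intro h
    rw [Pt.mk.injEq] at h
    rcases hne' with h0 | h0 | h0
    · exact h0 h.1
    · exact h0 h.2.1
    · rw [h0] at h
      exact absurd h.2.2.1 (by simp)

/-- conversely -/
theorem of_mid {r : Finset α → ℕ} {F F' G' : Finset α} {u : Pt α}
    (h : u ∈ mid r ⟨F, ∅, false, false⟩ ⟨F', G', true, false⟩) :
    ∃ A K S, u = ⟨A, K, S, false⟩ ∧ IsFl r A ∧ IsCy r K ∧ K ⊆ A ∧ (K.Nonempty → S = true) ∧
      F ⊆ A ∧ A ⊆ F' ∧ K ⊆ G' ∧ (A ≠ F ∨ S = true) ∧ (A ≠ F' ∨ K ≠ G' ∨ S = false) := by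
  rw [mem_mid] at h
  obtain ⟨hx, h1, h2⟩ := h
  obtain ⟨A, K, S, T⟩ := u
  have l1 := Pt.le_iff.1 h1.le
  have l2 := Pt.le_iff.1 h2.le
  have hT : T = false := by
    cases T
    · rfl
    · exact absurd (l2.2.2.2 rfl) (by simp)
  subst hT
  refine ⟨A, K, S, rfl, hx.flat, hx.cyc, hx.GF, hx.GS, l1.1, l2.1, l2.2.1, ?_, ?_⟩
  · by_contra hc
    push Not at hc
    obtain ⟨c1, c2⟩ := hc
    have hS : S = false := by
      cases S
      · rfl
      · exact absurd rfl c2
    subst hS
    have hK : K = ∅ := by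
      by_contra hk
      exact absurd (hx.GS (Finset.nonempty_iff_ne_empty.2 hk)) (by simp)
    subst hK
    subst c1
    exact lt_irrefl _ h1
  · by_contra hc
    push Not at hc
    obtain ⟨c1, c2, c3⟩ := hc
    have hS : S = true := by
      cases S
      · exact absurd rfl c3
      · rfl
    subst hS
    subst c1
    subst c2
    exact lt_irrefl _ h2

theorem nop_left (i : α) (A K : Finset α) : Nop i (⟨A, K, false, false⟩ : Pt α) := by
  intro _ h
  exact absurd h (by simp)

theorem nop_mem {i : α} {A K : Finset α} {S : Bool} (h : i ∈ K) :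
    Nop i (⟨A, K, S, false⟩ : Pt α) := fun _ _ => Or.inl h

theorem nop_not {i : α} {A K : Finset α} {S : Bool} (h : i ∉ A) :
    Nop i (⟨A, K, S, false⟩ : Pt α) := fun h' _ => absurd h' h

/-- the main statement -/
theorem core (h1 : Stmt_FLA) (h2 : Stmt_CYC) {r : Finset α → ℕ} (hr : IsRank r)
    {F F' G' : Finset α} (hF : IsFl r F) (hF' : IsFl r F') (hG' : IsCy r G') (hFF : F ⊆ F')
    (hGF : G' ⊆ F') (hG0 : G'.Nonempty) (hht : r F + 4 ≤ r F' + nu r G') (z : Pt α → ℝ)
    (hz : ∀ u ∈ mid r (⟨F, ∅, false, false⟩ : Pt α) ⟨F', G', true, false⟩,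
      ∀ v ∈ mid r (⟨F, ∅, false, false⟩ : Pt α) ⟨F', G', true, false⟩, u < v →
        (∃ i ∈ G', Nop i u ∧ Nop i v) → z u = z v) :
    ∃ c : ℝ, ∀ u ∈ mid r (⟨F, ∅, false, false⟩ : Pt α) ⟨F', G', true, false⟩,
      (∃ i ∈ G', Nop i u) → z u = c := by
  obtain ⟨-, -, -, -, fmono, -, -, fbet, -, -, -, -, -, -⟩ := h1 α r hr
  obtain ⟨cyp1, cyp2, -, cmono, -, cer, cbet, cint, cemp, -, -, -, -⟩ := h2 α r hr
  -- connection along `≤`
  have hle : ∀ u ∈ mid r (⟨F, ∅, false, false⟩ : Pt α) ⟨F', G', true, false⟩,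
      ∀ v ∈ mid r (⟨F, ∅, false, false⟩ : Pt α) ⟨F', G', true, false⟩, u ≤ v →
        (∃ i ∈ G', Nop i u ∧ Nop i v) → z u = z v := by
    intro u hu v hv huv hi
    rcases eq_or_ne u v with h | h
    · rw [h]
    · exact hz u hu v hv (lt_of huv h) hi
  by_cases hFeq : F = F'
  · -- the flat does not change
    subst hFeq
    have hg4 : 4 ≤ nu r G' := by omega
    -- coatoms are connected
    have hco : ∀ K1 K2 : Finset α, IsCy r K1 → IsCy r K2 → K1 ⊆ G' → K2 ⊆ G' →
        nu r K1 + 1 = nu r G' → nu r K2 + 1 = nu r G' →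
        z ⟨F, K1, true, false⟩ = z ⟨F, K2, true, false⟩ := by
      intro K1 K2 c1 c2 s1 s2 n1 n2
      rcases eq_or_ne K1 K2 with h | h
      · rw [h]
      obtain ⟨-, hi⟩ := cint G' K1 K2 hG' c1 c2 s1 s2 n1 n2 h
      obtain ⟨t1, t2, t3⟩ := cyp1 (K1 ∩ K2)
      have hne : (cyp r (K1 ∩ K2)).Nonempty := by
        rw [Finset.nonempty_iff_ne_empty]
        intro h0
        rw [h0] at t2
        have : nu r (∅ : Finset α) = 0 := by simp [nu]
        omega
      obtain ⟨i, hi'⟩ := hne
      have q1 : cyp r (K1 ∩ K2) ⊆ K1 := t1.trans inter_subset_left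
      have q2 : cyp r (K1 ∩ K2) ⊆ K2 := t1.trans inter_subset_right
      have k1 : K1 ≠ G' := by
        intro h0
        rw [h0] at n1
        omega
      have k2 : K2 ≠ G' := by
        intro h0
        rw [h0] at n2
        omega
      have k3 : cyp r (K1 ∩ K2) ≠ G' := by
        intro h0
        rw [h0] at t2
        omega
      have m3 : (⟨F, cyp r (K1 ∩ K2), true, false⟩ : Pt α) ∈
          mid r ⟨F, ∅, false, false⟩ ⟨F, G', true, false⟩ :=
        mk_mid hF t3 ((q1.trans s1).trans hGF) (fun _ => rfl) (Subset.refl _) (Subset.refl _)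
          (q1.trans s1) (Or.inr rfl) (Or.inr (Or.inl k3))
      have m1 : (⟨F, K1, true, false⟩ : Pt α) ∈
          mid r ⟨F, ∅, false, false⟩ ⟨F, G', true, false⟩ :=
        mk_mid hF c1 (s1.trans hGF) (fun _ => rfl) (Subset.refl _) (Subset.refl _)
          s1 (Or.inr rfl) (Or.inr (Or.inl k1))
      have m2 : (⟨F, K2, true, false⟩ : Pt α) ∈
          mid r ⟨F, ∅, false, false⟩ ⟨F, G', true, false⟩ :=
        mk_mid hF c2 (s2.trans hGF) (fun _ => rfl) (Subset.refl _) (Subset.refl _)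
          s2 (Or.inr rfl) (Or.inr (Or.inl k2))
      rw [← hle _ m3 _ m1 (Pt.le_iff.2 ⟨Subset.refl _, q1, fun h => h, fun h => h⟩)
        ⟨i, s1 (q1 hi'), nop_mem hi', nop_mem (q1 hi')⟩,
        hle _ m3 _ m2 (Pt.le_iff.2 ⟨Subset.refl _, q2, fun h => h, fun h => h⟩)
        ⟨i, s1 (q1 hi'), nop_mem hi', nop_mem (q2 hi')⟩]
    obtain ⟨e0, he0⟩ := hG0
    have b0 := cyp1 (G'.erase e0)
    have b0' := cer G' e0 hG' he0
    refine ⟨z ⟨F, cyp r (G'.erase e0), true, false⟩, ?_⟩
    intro u hu ⟨i, hi, hn⟩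
    obtain ⟨A, K, S, rfl, hA, hK, hKA, hS, hFA, hAF, hKG, hne, hne'⟩ := of_mid hu
    have hAF' : A = F := Subset.antisymm hAF hFA
    subst hAF'
    have hSt : S = true := by
      rcases hne with h | h
      · exact absurd rfl h
      · exact h
    subst hSt
    have hiK : i ∈ K := by
      rcases hn (hGF hi) rfl with h | h
      · exact h
      · exact absurd h (by simp)
    have hKne : K ≠ G' := by
      rcases hne' with h | h | h
      · exact absurd rfl h
      · exact h
      · exact absurd h (by simp)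
    obtain ⟨e, heG, heK⟩ : ∃ e ∈ G', e ∉ K := by
      by_contra hc
      push Not at hc
      exact hKne (Subset.antisymm hKG hc)
    have b1 := cyp1 (G'.erase e)
    have b1' := cer G' e hG' heG
    have b2 : K ⊆ cyp r (G'.erase e) := by
      apply cyp2 _ _ hK
      intro x hx
      rw [mem_erase]
      exact ⟨fun h => heK (h ▸ hx), hKG hx⟩
    have b3 : cyp r (G'.erase e) ⊆ G' := b1.1.trans (erase_subset _ _)
    have b4 : cyp r (G'.erase e) ≠ G' := by
      intro h0
      rw [h0] at b1'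
      omega
    have m1 : (⟨A, cyp r (G'.erase e), true, false⟩ : Pt α) ∈
        mid r ⟨A, ∅, false, false⟩ ⟨A, G', true, false⟩ :=
      mk_mid hF b1.2.2 (b3.trans hGF) (fun _ => rfl) (Subset.refl _) (Subset.refl _)
        b3 (Or.inr rfl) (Or.inr (Or.inl b4))
    rw [hle _ hu _ m1 (Pt.le_iff.2 ⟨Subset.refl _, b2, fun h => h, fun h => h⟩)
      ⟨i, hi, nop_mem hiK, nop_mem (b2 hiK)⟩]
    exact hco _ _ b1.2.2 b0.2.2 b3 (b0.1.trans (erase_subset _ _)) b1' b0'
  · -- the flat changes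
    have hrF : r F < r F' := fmono F F' hF (lt_of_le_of_ne hFF hFeq)
    have mm : (⟨F', ∅, false, false⟩ : Pt α) ∈
        mid r ⟨F, ∅, false, false⟩ ⟨F', G', true, false⟩ :=
      mk_mid hF' cemp (empty_subset _) (fun h => absurd h (by simp)) hFF (Subset.refl _)
        (empty_subset _) (Or.inl (fun h => hFeq h.symm)) (Or.inr (Or.inr rfl))
    -- left points
    have left : ∀ A : Finset α, IsFl r A → F ⊆ A → A ⊆ F' → A ≠ F →
        z ⟨A, ∅, false, false⟩ = z ⟨F', ∅, false, false⟩ := by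
      intro A hA hFA hAF hne
      obtain ⟨e0, he0⟩ := hG0
      have m1 : (⟨A, ∅, false, false⟩ : Pt α) ∈
          mid r ⟨F, ∅, false, false⟩ ⟨F', G', true, false⟩ :=
        mk_mid hA cemp (empty_subset _) (fun h => absurd h (by simp)) hFA hAF
          (empty_subset _) (Or.inl hne) (Or.inr (Or.inr rfl))
      exact hle _ m1 _ mm (Pt.le_iff.2 ⟨hAF, Subset.refl _, fun h => h, fun h => h⟩)
        ⟨e0, he0, nop_left _ _ _, nop_left _ _ _⟩
    -- middle points with a larger flat
    have mid1 : ∀ A K : Finset α, IsFl r A → IsCy r K → K ⊆ A → F ⊆ A → A ⊆ F' → K ⊆ G' →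
        (A ≠ F' ∨ K ≠ G') → A ≠ F → (∃ i ∈ G', Nop i (⟨A, K, true, false⟩ : Pt α)) →
        z ⟨A, K, true, false⟩ = z ⟨F', ∅, false, false⟩ := by
      intro A K hA hK hKA hFA hAF hKG hne' hne ⟨i, hi, hn⟩
      have m0 : (⟨A, K, true, false⟩ : Pt α) ∈
          mid r ⟨F, ∅, false, false⟩ ⟨F', G', true, false⟩ :=
        mk_mid hA hK hKA (fun _ => rfl) hFA hAF hKG (Or.inr rfl)
          (by rcases hne' with h | h
              · exact Or.inl h
              · exact Or.inr (Or.inl h))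
      have m1 : (⟨A, ∅, false, false⟩ : Pt α) ∈
          mid r ⟨F, ∅, false, false⟩ ⟨F', G', true, false⟩ :=
        mk_mid hA cemp (empty_subset _) (fun h => absurd h (by simp)) hFA hAF
          (empty_subset _) (Or.inl hne) (Or.inr (Or.inr rfl))
      rw [← left A hA hFA hAF hne]
      exact (hle _ m1 _ m0 (Pt.le_iff.2 ⟨Subset.refl _, empty_subset _,
        fun h => absurd h (by simp), fun h => h⟩) ⟨i, hi, nop_left _ _ _, hn⟩).symm
    -- middle points with the flat `F` and a proper nonempty cyclic set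
    have mid2 : ∀ K : Finset α, IsCy r K → K ⊆ F → K ⊆ G' → K ≠ G' → K.Nonempty →
        z ⟨F, K, true, false⟩ = z ⟨F', ∅, false, false⟩ := by
      intro K hK hKF hKG hKne ⟨i, hi⟩
      have m0 : (⟨F, K, true, false⟩ : Pt α) ∈
          mid r ⟨F, ∅, false, false⟩ ⟨F', G', true, false⟩ :=
        mk_mid hF hK hKF (fun _ => rfl) (Subset.refl _) hFF hKG (Or.inr rfl)
          (Or.inr (Or.inl hKne))
      have m1 : (⟨F', K, true, false⟩ : Pt α) ∈
          mid r ⟨F, ∅, false, false⟩ ⟨F', G', true, false⟩ :=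
        mk_mid hF' hK (hKF.trans hFF) (fun _ => rfl) hFF (Subset.refl _) hKG (Or.inr rfl)
          (Or.inr (Or.inl hKne))
      rw [hle _ m0 _ m1 (Pt.le_iff.2 ⟨hFF, Subset.refl _, fun h => h, fun h => h⟩)
        ⟨i, hKG hi, nop_mem hi, nop_mem hi⟩]
      exact mid1 F' K hF' hK (hKF.trans hFF) hFF (Subset.refl _) hKG (Or.inr hKne)
        (fun h => hFeq h.symm) ⟨i, hKG hi, nop_mem hi⟩
    obtain ⟨x, hxF', hxF⟩ : ∃ x ∈ F', x ∉ F := by
      by_contra hc
      push Not at hc
      exact hFeq (Subset.antisymm hFF hc)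
    refine ⟨z ⟨F', ∅, false, false⟩, ?_⟩
    intro u hu ⟨i, hi, hn⟩
    obtain ⟨A, K, S, rfl, hA, hK, hKA, hS, hFA, hAF, hKG, hne, hne'⟩ := of_mid hu
    cases S with
    | false =>
      have hK0 : K = ∅ := by
        by_contra hk
        exact absurd (hS (Finset.nonempty_iff_ne_empty.2 hk)) (by simp)
      subst hK0
      rcases hne with h | h
      · exact left A hA hFA hAF h
      · exact absurd h (by simp)
    | true =>
      have hne2 : A ≠ F' ∨ K ≠ G' := by
        rcases hne' with h | h | h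
        · exact Or.inl h
        · exact Or.inr h
        · exact absurd h (by simp)
      by_cases hAe : A = F
      · subst hAe
        by_cases hK0 : K = ∅
        · subst hK0
          have hiF : i ∉ A := by
            intro h
            rcases hn h rfl with h' | h'
            · exact absurd h' (by simp)
            · exact absurd h' (by simp)
          by_cases hg : 2 ≤ nu r G'
          · have hnu0 : nu r (∅ : Finset α) = 0 := by simp [nu]
            obtain ⟨K1, c1, c2, c3, c4, c5⟩ := cbet ∅ G' i cemp hG' (empty_subset _)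
              (by omega) hi
            have m1 : (⟨F', K1, true, false⟩ : Pt α) ∈
                mid r ⟨A, ∅, false, false⟩ ⟨F', G', true, false⟩ :=
              mk_mid hF' c1 (c3.1.trans hGF) (fun _ => rfl) hFF (Subset.refl _) c3.1
                (Or.inr rfl) (Or.inr (Or.inl c3.ne))
            rw [hle _ hu _ m1 (Pt.le_iff.2 ⟨hFF, empty_subset _, fun h => h, fun h => h⟩)
              ⟨i, hi, hn, nop_mem c4⟩]
            exact mid1 F' K1 hF' c1 (c3.1.trans hGF) hFF (Subset.refl _) c3.1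
              (Or.inr c3.ne) (fun h => hFeq h.symm) ⟨i, hi, nop_mem c4⟩
          · obtain ⟨F1, f1, f2, f3, f4, f5⟩ := fbet A F' i hF hF' hFF (by omega) hiF
            have m1 : (⟨F1, ∅, true, false⟩ : Pt α) ∈
                mid r ⟨A, ∅, false, false⟩ ⟨F', G', true, false⟩ :=
              mk_mid f1 cemp (empty_subset _) (fun _ => rfl) f2.1 f3.1 (empty_subset _)
                (Or.inr rfl) (Or.inl f3.ne)
            rw [hle _ hu _ m1 (Pt.le_iff.2 ⟨f2.1, empty_subset _, fun h => h, fun h => h⟩)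
              ⟨i, hi, hn, nop_not f4⟩]
            exact mid1 F1 ∅ f1 cemp (empty_subset _) f2.1 f3.1 (empty_subset _)
              (Or.inl f3.ne) (fun h => f2.ne h.symm) ⟨i, hi, nop_not f4⟩
        · have hKn : K.Nonempty := Finset.nonempty_iff_ne_empty.2 hK0
          by_cases hKG' : K = G'
          · subst hKG'
            by_cases hf : r A + 2 ≤ r F'
            · obtain ⟨F1, f1, f2, f3, f4, f5⟩ := fbet A F' x hF hF' hFF hf hxF
              have m1 : (⟨F1, K, true, false⟩ : Pt α) ∈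
                  mid r ⟨A, ∅, false, false⟩ ⟨F', K, true, false⟩ :=
                mk_mid f1 hK (hKA.trans f2.1) (fun _ => rfl) f2.1 f3.1 (Subset.refl _)
                  (Or.inr rfl) (Or.inl f3.ne)
              rw [hle _ hu _ m1 (Pt.le_iff.2 ⟨f2.1, Subset.refl _, fun h => h, fun h => h⟩)
                ⟨i, hi, hn, nop_mem hi⟩]
              exact mid1 F1 K f1 hK (hKA.trans f2.1) f2.1 f3.1 (Subset.refl _)
                (Or.inl f3.ne) (fun h => f2.ne h.symm) ⟨i, hi, nop_mem hi⟩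
            · have hnu0 : nu r (∅ : Finset α) = 0 := by simp [nu]
              obtain ⟨K1, c1, c2, c3, c4, c5⟩ := cbet ∅ K i cemp hG' (empty_subset _)
                (by omega) hi
              have m1 : (⟨A, K1, true, false⟩ : Pt α) ∈
                  mid r ⟨A, ∅, false, false⟩ ⟨F', K, true, false⟩ :=
                mk_mid hF c1 (c3.1.trans hKA) (fun _ => rfl) (Subset.refl _) hFF c3.1
                  (Or.inr rfl) (Or.inr (Or.inl c3.ne))
              rw [← hle _ m1 _ hu (Pt.le_iff.2 ⟨Subset.refl _, c3.1, fun h => h, fun h => h⟩)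
                ⟨i, hi, nop_mem c4, hn⟩]
              exact mid2 K1 c1 (c3.1.trans hKA) c3.1 c3.ne ⟨i, c4⟩
          · exact mid2 K hK hKA hKG hKG' hKn
      · exact mid1 A K hA hK hKA hFA hAF hKG hne2 hAe ⟨i, hi, hn⟩

end NCSaux

open NCSaux in
/-- the critical gap with the window start -/
theorem t_NCS (h1 : Stmt_FLA) (h2 : Stmt_CYC) (h3 : Stmt_HT) : Stmt_NCS := by
  intro α _ _ r hr a b ha hb hab haS hbT hht hcri z hz
  obtain ⟨hex, -, -, -, -, -, hhte, -⟩ := h3 α r hr
  obtain ⟨fa1, -, -, fa4, fa5, -⟩ := (hex a).1 ha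
  obtain ⟨fb1, fb2, fb3, fb4, -, -⟩ := (hex b).1 hb
  have lab := Pt.le_iff.1 hab.le
  have e1 := hhte a
  have e2 := hhte b
  obtain ⟨F, G, S, T⟩ := a
  obtain ⟨F', G', S', T'⟩ := b
  simp only at haS hbT fa1 fa4 fa5 fb1 fb2 fb3 fb4 lab e1 e2
  subst haS
  subst hbT
  have hT : T = false := by
    cases T
    · rfl
    · exact absurd (fa5 rfl) (by simp)
  subst hT
  have hG : G = ∅ := by
    by_contra hk
    exact absurd (fa4 (Finset.nonempty_iff_ne_empty.2 hk)) (by simp)
  subst hG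
  have hcr : ∀ i, Cri (⟨F, ∅, false, false⟩ : Pt α) ⟨F', G', S', false⟩ i ↔ i ∈ G' := by
    intro i
    constructor
    · rintro ⟨-, h | h⟩
      · exact h
      · exact absurd h (by simp)
    · intro h
      exact ⟨fun h' => absurd h'.2 (by simp), Or.inl h⟩
  obtain ⟨i0, hi0⟩ := hcri
  have hG0 : G'.Nonempty := ⟨i0, (hcr i0).1 hi0⟩
  have hS' := fb4 hG0
  subst hS'
  have hnu0 : nu r (∅ : Finset α) = 0 := by simp [nu]
  rw [e1, e2, hnu0] at hht
  simp only [Bool.false_eq_true, if_false, if_true] at hht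
  have key := core h1 h2 hr fa1 fb1 fb2 lab.1 fb3 hG0 (by omega) z (by
    intro u hu v hv huv ⟨i, hi, h⟩
    exact hz u hu v hv huv ⟨i, (hcr i).2 hi, h⟩)
  obtain ⟨c, hc⟩ := key
  intro u hu v hv ⟨i, hi, hn⟩ ⟨j, hj, hm⟩
  rw [hc u hu ⟨i, (hcr i).1 hi, hn⟩, hc v hv ⟨j, (hcr j).1 hj, hm⟩]

end Pool.Agent.QPR
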