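import Pool.Agent.QPR.StS

/-!
# Module QPR1_NCT
-/

set_option autoImplicit false

open Finset

namespace Pool.Agent.QPR

namespace M_NCT

variable {α : Type} [Fintype α] [DecidableEq α]

theorem lt_of {p q : Pt α} (hF : p.F ⊆ q.F) (hG : p.G ⊆ q.G) (hS : p.S = true → q.S = true)
    (hT : p.T = true → q.T = true) (hne : p ≠ q) : p < q :=
  lt_of_le_of_ne ⟨hF, hG, hS, hT⟩ hne

theorem main (h1 : Stmt_FLA) (h2 : Stmt_CYC) (r : Finset α → ℕ) (hr : IsRank r)
    (F G' : Finset α) (hF : IsFl r F) (hG' : IsCy r G')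
    (hh : r F + 3 ≤ r univ + (G'.card - r G')) (i0 : α) (z : Pt α → ℝ)
    (hz : ∀ u ∈ mid r ⟨F, ∅, false, false⟩ ⟨univ, G', true, true⟩,
      ∀ v ∈ mid r ⟨F, ∅, false, false⟩ ⟨univ, G', true, true⟩, u < v →
      ∀ i, Nop i u → Nop i v → z u = z v) :
    ∃ c : ℝ, ∀ u ∈ mid r ⟨F, ∅, false, false⟩ ⟨univ, G', true, true⟩, ∀ i, Nop i u → z u = c := by
  classical
  obtain ⟨-, -, -, -, -, -, -, hfl, -, hfuniv, -, -, -, -⟩ := h1 α r hr
  obtain ⟨-, -, -, -, -, -, hcy, -, hcemp, -, -, -, -⟩ := h2 α r hr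
  have hGF : G' ⊆ univ := subset_univ _
  -- membership
  have mL : ∀ F1, IsFl r F1 → F ⊂ F1 →
      (⟨F1, ∅, false, false⟩ : Pt α) ∈ mid r ⟨F, ∅, false, false⟩ ⟨univ, G', true, true⟩ := by
    intro F1 hF1 hlt
    refine mem_filter.2 ⟨mem_univ _, ⟨hF1, by simp, by simp, by simp, by simp, by simp⟩, ?_, ?_⟩
    · refine lt_of hlt.1 (Subset.refl _) id id fun h => ?_
      exact hlt.ne (Pt.mk.inj h).1
    · refine lt_of (subset_univ _) (empty_subset _) (by simp) (by simp) fun h => ?_
      simpa using (Pt.mk.inj h).2.2.1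
  have mR : ∀ K, IsCy r K → K ⊂ G' →
      (⟨univ, K, true, true⟩ : Pt α) ∈ mid r ⟨F, ∅, false, false⟩ ⟨univ, G', true, true⟩ := by
    intro K hK hlt
    refine mem_filter.2 ⟨mem_univ _, ⟨hfuniv, hK, subset_univ _, by simp, by simp, by simp⟩,
      ?_, ?_⟩
    · refine lt_of (subset_univ _) (empty_subset _) (by simp) (by simp) fun h => ?_
      simpa using (Pt.mk.inj h).2.2.1
    · refine lt_of (Subset.refl _) hlt.1 id id fun h => ?_
      exact hlt.ne (Pt.mk.inj h).2.1
  have mM : ∀ F1 K, IsFl r F1 → IsCy r K → F ⊆ F1 → K ⊆ F1 → K ⊆ G' →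
      (⟨F1, K, true, false⟩ : Pt α) ∈ mid r ⟨F, ∅, false, false⟩ ⟨univ, G', true, true⟩ := by
    intro F1 K hF1 hK hFF hKF hKG
    refine mem_filter.2 ⟨mem_univ _, ⟨hF1, hK, hKF, by simp, by simp, by simp⟩, ?_, ?_⟩
    · refine lt_of hFF (empty_subset _) (by simp) (by simp) fun h => ?_
      simpa using (Pt.mk.inj h).2.2.1
    · refine lt_of (subset_univ _) hKG (by simp) (by simp) fun h => ?_
      simpa using (Pt.mk.inj h).2.2.2
  -- never open
  have nL : ∀ (F1 : Finset α) (i : α), Nop i (⟨F1, ∅, false, false⟩ : Pt α) := by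
    intro F1 i _ h
    simp at h
  have nR : ∀ (K : Finset α) (i : α), Nop i (⟨univ, K, true, true⟩ : Pt α) :=
    fun K i _ _ => Or.inr rfl
  -- the three kinds of points
  have cas : ∀ u ∈ mid r ⟨F, ∅, false, false⟩ ⟨univ, G', true, true⟩,
      (∃ F1, IsFl r F1 ∧ F ⊂ F1 ∧ u = ⟨F1, ∅, false, false⟩) ∨
      (∃ F1 K, IsFl r F1 ∧ IsCy r K ∧ F ⊆ F1 ∧ K ⊆ F1 ∧ K ⊆ G' ∧ u = ⟨F1, K, true, false⟩) ∨
      (∃ K, IsCy r K ∧ K ⊂ G' ∧ u = ⟨univ, K, true, true⟩) := by
    intro u hu
    obtain ⟨-, hex, hau, hub⟩ := mem_filter.1 hu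
    obtain ⟨F1, K, S, T⟩ := u
    obtain ⟨q1, -, -, -⟩ := hau.le
    obtain ⟨-, q2, -, -⟩ := hub.le
    simp only at q1 q2
    cases S with
    | false =>
      have hT : T = false := by
        cases T with
        | false => rfl
        | true => simpa using hex.TS rfl
      have hK : K = ∅ := by
        rcases K.eq_empty_or_nonempty with h | h
        · exact h
        · simpa using hex.GS h
      subst hT
      subst hK
      left
      refine ⟨F1, hex.flat, ?_, rfl⟩
      refine q1.ssubset_of_ne fun h => ?_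
      subst h
      exact hau.ne rfl
    | true =>
      cases T with
      | false => exact Or.inr (Or.inl ⟨F1, K, hex.flat, hex.cyc, q1, hex.GF, q2, rfl⟩)
      | true =>
        have hF1 : F1 = univ := hex.TF rfl
        subst hF1
        refine Or.inr (Or.inr ⟨K, hex.cyc, ?_, rfl⟩)
        refine q2.ssubset_of_ne fun h => ?_
        subst h
        exact hub.ne rfl
  have ssu : ∀ F1 : Finset α, F1 ≠ univ → F1 ⊂ univ := fun F1 h =>
    (subset_univ F1).ssubset_of_ne h
  by_cases hFE : F = univ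
  · -- no left points
    subst hFE
    have hg : 3 ≤ G'.card - r G' := by omega
    have hGne : G'.Nonempty := by
      rcases G'.eq_empty_or_nonempty with h | h
      · rw [h] at hg
        simp at hg
      · exact h
    have m2 := mR ∅ hcemp (hGne.empty_ssubset)
    have right : ∀ K, IsCy r K → K ⊂ G' → z ⟨univ, K, true, true⟩ = z ⟨univ, ∅, true, true⟩ := by
      intro K hK hlt
      by_cases h : K = ∅
      · rw [h]
      · refine (hz _ m2 _ (mR K hK hlt) ?_ i0 (nR _ _) (nR _ _)).symm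
        exact lt_of (Subset.refl _) (empty_subset _) id id fun h' =>
          h (Pt.mk.inj h').2.1.symm
    have midd : ∀ K, IsCy r K → K ⊂ G' → K.Nonempty →
        z ⟨univ, K, true, false⟩ = z ⟨univ, ∅, true, true⟩ := by
      intro K hK hlt hne
      obtain ⟨i, hi⟩ := hne
      rw [← right K hK hlt]
      refine hz _ (mM univ K hfuniv hK (Subset.refl _) (subset_univ _) hlt.1) _ (mR K hK hlt) ?_ i
        (fun _ _ => Or.inl hi) (nR _ _)
      exact lt_of (Subset.refl _) (Subset.refl _) id (by simp) fun h' => by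
        simpa using (Pt.mk.inj h').2.2.2
    refine ⟨z ⟨univ, ∅, true, true⟩, fun u hu i hi => ?_⟩
    rcases cas u hu with ⟨F1, -, hlt, -⟩ | ⟨F1, K, hF1, hK, hFF, hKF, hKG, rfl⟩ | ⟨K, hK, hlt, rfl⟩
    · exact absurd (subset_univ F1) hlt.2
    · have e : F1 = univ := Subset.antisymm (subset_univ _) hFF
      subst e
      have hiK : i ∈ K := by
        rcases hi (mem_univ i) rfl with h | h
        · exact h
        · simp at h
      by_cases hKG' : K = G'
      · subst hKG'
        obtain ⟨K1, hK1, hl, hlt, hi1, -⟩ := hcy ∅ K i hcemp hK (empty_subset _)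
          (by unfold nu; simp only [card_empty]; omega) hiK
        rw [← midd K1 hK1 hlt ⟨i, hi1⟩]
        refine (hz _ (mM univ K1 hfuniv hK1 (Subset.refl _) (subset_univ _) hlt.1) _ hu ?_ i
          (fun _ _ => Or.inl hi1) hi).symm
        exact lt_of (Subset.refl _) hlt.1 id id fun h' => hlt.ne (Pt.mk.inj h').2.1
      · exact midd K hK (hKG.ssubset_of_ne hKG') ⟨i, hiK⟩
    · exact right K hK hlt
  · have m1 := mL univ hfuniv (ssu F hFE)
    have left : ∀ F1, IsFl r F1 → F ⊂ F1 →
        z ⟨F1, ∅, false, false⟩ = z ⟨univ, ∅, false, false⟩ := by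
      intro F1 hF1 hlt
      by_cases h : F1 = univ
      · rw [h]
      · refine hz _ (mL F1 hF1 hlt) _ m1 ?_ i0 (nL _ _) (nL _ _)
        exact lt_of (subset_univ _) (Subset.refl _) id id fun h' => h (Pt.mk.inj h').1
    have midl : ∀ F1 K, IsFl r F1 → IsCy r K → F ⊂ F1 → K ⊆ F1 → K ⊆ G' → ∀ i,
        Nop i (⟨F1, K, true, false⟩ : Pt α) →
        z ⟨F1, K, true, false⟩ = z ⟨univ, ∅, false, false⟩ := by
      intro F1 K hF1 hK hlt hKF hKG i hi
      rw [← left F1 hF1 hlt]
      refine (hz _ (mL F1 hF1 hlt) _ (mM F1 K hF1 hK hlt.1 hKF hKG) ?_ i (nL _ _) hi).symm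
      exact lt_of (Subset.refl _) (empty_subset _) (by simp) id fun h' => by
        simpa using (Pt.mk.inj h').2.2.1
    by_cases hGE : G' = ∅
    · subst hGE
      have hf : r F + 3 ≤ r univ := by
        simp only [card_empty] at hh
        omega
      refine ⟨z ⟨univ, ∅, false, false⟩, fun u hu i hi => ?_⟩
      rcases cas u hu with ⟨F1, hF1, hlt, rfl⟩ | ⟨F1, K, hF1, hK, hFF, hKF, hKG, rfl⟩ |
        ⟨K, hK, hlt, rfl⟩
      · exact left F1 hF1 hlt
      · have e : K = ∅ := subset_empty.1 hKG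
        subst e
        by_cases hF1F : F1 = F
        · subst hF1F
          have hiF : i ∉ F1 := by
            intro h
            rcases hi h rfl with h' | h'
            · simp at h'
            · simp at h'
          obtain ⟨F2, hF2, hl, hlt, hi2, -⟩ := hfl F1 univ i hF hfuniv (subset_univ _)
            (by omega) hiF
          have hi2' : Nop i (⟨F2, ∅, true, false⟩ : Pt α) := fun h _ => absurd h hi2
          rw [← midl F2 ∅ hF2 hcemp hl (empty_subset _) (Subset.refl _) i hi2']
          refine hz _ hu _ (mM F2 ∅ hF2 hcemp hl.1 (empty_subset _) (Subset.refl _)) ?_ i hi hi2'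
          exact lt_of hl.1 (Subset.refl _) id id fun h' => hl.ne (Pt.mk.inj h').1
        · exact midl F1 ∅ hF1 hcemp (hFF.ssubset_of_ne (Ne.symm hF1F)) hKF hKG i hi
      · exact absurd hlt (not_ssubset_empty K)
    · have hGne : G'.Nonempty := nonempty_iff_ne_empty.2 hGE
      have m2 := mR ∅ hcemp (hGne.empty_ssubset)
      have e12 : z ⟨univ, ∅, true, true⟩ = z ⟨univ, ∅, false, false⟩ := by
        refine (hz _ m1 _ m2 ?_ i0 (nL _ _) (nR _ _)).symm
        exact lt_of (Subset.refl _) (Subset.refl _) (by simp) (by simp) fun h' => by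
          simpa using (Pt.mk.inj h').2.2.1
      have right : ∀ K, IsCy r K → K ⊂ G' →
          z ⟨univ, K, true, true⟩ = z ⟨univ, ∅, false, false⟩ := by
        intro K hK hlt
        by_cases h : K = ∅
        · rw [h]
          exact e12
        · rw [← e12]
          refine (hz _ m2 _ (mR K hK hlt) ?_ i0 (nR _ _) (nR _ _)).symm
          exact lt_of (Subset.refl _) (empty_subset _) id id fun h' =>
            h (Pt.mk.inj h').2.1.symm
      refine ⟨z ⟨univ, ∅, false, false⟩, fun u hu i hi => ?_⟩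
      rcases cas u hu with ⟨F1, hF1, hlt, rfl⟩ | ⟨F1, K, hF1, hK, hFF, hKF, hKG, rfl⟩ |
        ⟨K, hK, hlt, rfl⟩
      · exact left F1 hF1 hlt
      · by_cases hF1F : F1 = F
        · subst hF1F
          by_cases hKG' : K = G'
          · subst hKG'
            obtain ⟨j, hj⟩ := hGne
            have hj' : Nop j (⟨univ, K, true, false⟩ : Pt α) := fun _ _ => Or.inl hj
            rw [← midl univ K hfuniv hK (ssu F1 hFE) (subset_univ _) (Subset.refl _) j hj']
            refine hz _ hu _ (mM univ K hfuniv hK (subset_univ _) (subset_univ _)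
              (Subset.refl _)) ?_ j (fun _ _ => Or.inl hj) hj'
            exact lt_of (subset_univ _) (Subset.refl _) id id fun h' => hFE (Pt.mk.inj h').1
          · have hlt := hKG.ssubset_of_ne hKG'
            rw [← right K hK hlt]
            refine hz _ hu _ (mR K hK hlt) ?_ i hi (nR _ _)
            exact lt_of (subset_univ _) (Subset.refl _) id (by simp) fun h' => by
              simpa using (Pt.mk.inj h').2.2.2
        · exact midl F1 K hF1 hK (hFF.ssubset_of_ne (Ne.symm hF1F)) hKF hKG i hi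
      · exact right K hK hlt

end M_NCT

open M_NCT in
theorem t_NCT (h1 : Stmt_FLA) (h2 : Stmt_CYC) (_h3 : Stmt_HT) : Stmt_NCT := by
  intro α _ _ r hr a b ha hb hab hS hT hh hcri z hz
  obtain ⟨F, Ga, Sa, Ta⟩ := a
  obtain ⟨E', G', Sb, Tb⟩ := b
  simp only at hS hT
  subst hS
  subst hT
  have hSb : Sb = true := hb.TS rfl
  have hE : E' = univ := hb.TF rfl
  have hTa : Ta = false := by
    cases Ta with
    | false => rfl
    | true => simpa using ha.TS rfl
  have hGa : Ga = ∅ := by
    rcases Ga.eq_empty_or_nonempty with h | h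
    · exact h
    · simpa using ha.GS h
  subst hSb
  subst hE
  subst hTa
  subst hGa
  obtain ⟨i0, -⟩ := hcri
  have cri : ∀ i : α, Cri (⟨F, ∅, false, false⟩ : Pt α) ⟨univ, G', true, true⟩ i := by
    intro i
    exact ⟨fun h => by simpa using h.2, Or.inr rfl⟩
  have hh' : r F + 3 ≤ r univ + (G'.card - r G') := by
    simp [ht] at hh
    omega
  obtain ⟨c, hc⟩ := main h1 h2 r hr F G' ha.flat hb.cyc hh' i0 z
    (fun u hu v hv huv i hi hi' => hz u hu v hv huv ⟨i, cri i, hi, hi'⟩)
  intro u hu v hv hui hvj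
  obtain ⟨i, -, hi⟩ := hui
  obtain ⟨j, -, hj⟩ := hvj
  rw [hc u hu i hi, hc v hv j hj]

end Pool.Agent.QPR
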