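import Pool.Agent.QPR.StS

/-!
# Module QDA (helper10): all faces with `n - 2` elements
-/

set_option autoImplicit false

open Finset

namespace Pool.Agent.QPR

namespace QDAaux

variable {α : Type} [Fintype α] [DecidableEq α]

/-- transport of `QD` by duality -/
theorem transport (h1 : Stmt_DU1) (h5 : Stmt_DU2) (r : Finset α → ℕ) (al be : ℝ) (hr : IsRank r)
    (ρ : Finset (Pt α)) (H : QD (dual r) be al (ρ.image du)) : QD r al be ρ := by
  classical
  have hr' : IsRank (dual r) := (h1 α r hr).1
  have hdd : dual (dual r) = r := (h1 α r hr).2.1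
  obtain ⟨d1, -, -, -, -, -, -, -, -, -, -, -, -, d14, -⟩ := h5 α r hr
  obtain ⟨-, -, -, -, -, -, -, -, -, -, -, -, d13, -⟩ := h5 α (dual r) hr'
  rw [hdd] at d13
  have hinj : Function.Injective (du : Pt α → Pt α) := fun s t h => by
    rw [← d1 s, ← d1 t, h]
  have hmem : ∀ (A : Finset (Pt α)) (u : Pt α), du u ∈ A.image du ↔ u ∈ A := by
    intro A u
    rw [Finset.mem_image]
    constructor
    · rintro ⟨v, hv, e⟩
      rwa [← hinj e]
    · intro h
      exact ⟨u, h, rfl⟩
  have hFc : ∀ u, Fc (dual r) (insert (du u) (ρ.image du)) ↔ Fc r (insert u ρ) := by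
    intro u
    rw [← Finset.image_insert]
    exact d14 _
  have hFc2 : ∀ u v, Fc (dual r) (insert (du v) (insert (du u) (ρ.image du))) ↔
      Fc r (insert v (insert u ρ)) := by
    intro u v
    rw [← Finset.image_insert, ← Finset.image_insert]
    exact d14 _
  have hLk : ∀ u, Lkv (dual r) (ρ.image du) (du u) ↔ Lkv r ρ u := by
    intro u
    unfold Lkv
    rw [hmem, hFc]
  obtain ⟨Z, h, hZ, ⟨μ, hμ⟩, hU⟩ := H
  have hZm : ∀ u, u ∈ Z.image du ↔ du u ∈ Z := by
    intro u
    constructor
    · intro hu
      obtain ⟨v, hv, e⟩ := Finset.mem_image.1 hu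
      rw [← e, d1]
      exact hv
    · intro hu
      have := Finset.mem_image_of_mem du hu
      rwa [d1] at this
  refine ⟨Z.image du, fun u => h (du u), ?_, ⟨fun u => μ (du u), ?_⟩, ?_⟩
  · intro u hu
    have := hZ (du u) ((hZm u).1 hu)
    exact ⟨(hLk u).1 this.1, this.2⟩
  · intro f hf
    have hf' : ∑ u ∈ Z, μ u * (fun u => f (du u)) u = 0 := by
      rw [Finset.sum_image (fun x _ y _ e => hinj e)] at hf
      simpa [d1] using hf
    obtain ⟨l, hl, hl0, hlf⟩ := hμ _ hf'
    refine ⟨fun s => l (du s), d13 be al l hl, ?_, ?_⟩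
    · intro s hs
      exact hl0 (du s) ((hmem ρ s).2 hs)
    · intro u hu
      have := hlf (du u) ((hZm u).1 hu)
      simpa [d1] using this
  · intro u hu huZ
    have hu' := (hLk u).2 hu
    have huZ' : du u ∉ Z := fun hh => huZ ((hZm u).2 hh)
    obtain ⟨hpos, l, hl, hl0, hlu, hlv⟩ := hU (du u) hu' huZ'
    refine ⟨hpos, fun s => l (du s), d13 be al l hl, ?_, hlu, ?_⟩
    · intro s hs
      exact hl0 (du s) ((hmem ρ s).2 hs)
    · intro v hv hvu hF
      exact hlv (du v) ((hLk v).2 hv) (fun e => hvu (hinj e)) ((hFc2 u v).2 hF)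

/-- no missing levels: the height difference of a gap is at most the number of its different
components -/
theorem ht_le (h3 : Stmt_CYC) (h4 : Stmt_HT) (r : Finset α → ℕ) (hr : IsRank r)
    (ρ : Finset (Pt α)) (hF : mF r ρ = ∅) (hG : mG r ρ = ∅) (a b : Pt α) (hg : Gp r ρ a b) :
    ht r b ≤ ht r a + ncc a b := by
  classical
  have hab : a ≤ b := hg.lt.le
  obtain ⟨e1, e2, e3, e4⟩ := Pt.le_iff.1 hab
  have hht := (h4 α r hr).2.2.2.2.2.2.1
  have hnu := (h3 α r hr).2.2.1
  have hFl : r b.F ≤ r a.F + (if a.F = b.F then 0 else 1) := by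
    by_cases hc : a.F = b.F
    · simp [hc]
    · rw [if_neg hc]
      by_contra hlt
      have hm : r a.F + 1 ∈ mF r ρ := by
        unfold mF
        rw [Finset.mem_filter, Finset.mem_Icc]
        refine ⟨⟨by omega, ?_⟩, ?_⟩
        · have := hr.mono_subset (Finset.subset_univ b.F)
          omega
        · intro s hs he
          rcases hg.sep s hs with h | h
          · have := hr.mono_subset (Pt.le_iff.1 h).1
            omega
          · have := hr.mono_subset (Pt.le_iff.1 h).1
            omega
      rw [hF] at hm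
      exact absurd hm (Finset.notMem_empty _)
  have hGl : nu r b.G ≤ nu r a.G + (if a.G = b.G then 0 else 1) := by
    by_cases hc : a.G = b.G
    · simp [hc]
    · rw [if_neg hc]
      by_contra hlt
      have hm : nu r a.G + 1 ∈ mG r ρ := by
        unfold mG
        rw [Finset.mem_filter, Finset.mem_Icc]
        refine ⟨⟨by omega, ?_⟩, ?_⟩
        · have := hnu _ _ (Finset.subset_univ b.G)
          omega
        · intro s hs he
          rcases hg.sep s hs with h | h
          · have := hnu _ _ (Pt.le_iff.1 h).2.1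
            omega
          · have := hnu _ _ (Pt.le_iff.1 h).2.1
            omega
      rw [hG] at hm
      exact absurd hm (Finset.notMem_empty _)
  have hSl : (if b.S = true then 1 else 0) ≤ (if a.S = true then 1 else 0) +
      (if a.S = b.S then 0 else 1) := by
    cases a.S <;> cases b.S <;> simp
  have hTl : (if b.T = true then 1 else 0) ≤ (if a.T = true then 1 else 0) +
      (if a.T = b.T then 0 else 1) := by
    cases a.T <;> cases b.T <;> simp
  rw [hht a, hht b]
  unfold ncc
  omega

end QDAaux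

open QDAaux in
theorem t_QDA (h1 : Stmt_DU1) (_h2 : Stmt_FLA) (h3 : Stmt_CYC) (h4 : Stmt_HT) (h5 : Stmt_DU2)
    (_h6 : Stmt_DEC) (h7 : Stmt_GAP) (_h8 : Stmt_DIM) (h9 : Stmt_ACC) (_h10 : Stmt_TR0)
    (h11 : Stmt_QLG) (h12 : Stmt_Q0A) (h13 : Stmt_Q0B) (h14 : Stmt_Q0C) (h15 : Stmt_Q0D) :
    Stmt_QDA := by
  intro α _ _ r al be hr hw ρ hρ hcard
  classical
  by_cases hG : (mG r ρ).Nonempty
  · exact h11 α r al be hr hw ρ hρ hcard hG
  rw [Finset.not_nonempty_iff_eq_empty] at hG
  by_cases hF : (mF r ρ).Nonempty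
  · -- the dual
    apply transport h1 h5 r al be hr ρ
    have hr' : IsRank (dual r) := (h1 α r hr).1
    obtain ⟨d1, -, -, d4, d5, -, -, -, -, -, -, -, -, d14, -⟩ := h5 α r hr
    have hinj : Function.Injective (du : Pt α → Pt α) := fun s t h => by
      rw [← d1 s, ← d1 t, h]
    have hw' : Win be al := ⟨hw.b0, hw.a0, by have := hw.ab; linarith⟩
    refine h11 α (dual r) be al hr' hw' (ρ.image du) ((d14 ρ).2 hρ) ?_ ?_
    · rw [Finset.card_image_of_injective _ hinj]
      exact hcard
    · obtain ⟨t, ht⟩ := hF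
      unfold mF at ht
      rw [Finset.mem_filter, Finset.mem_Icc] at ht
      obtain ⟨⟨t1, t2⟩, t3⟩ := ht
      have hnu' := (h1 α r hr).2.2.2.2.2.1
      have hnuu := (h1 α r hr).2.2.2.2.2.2.2.1
      have htop : r (univ : Finset α) ≠ t := by
        have := t3 (top r) (by unfold hat; simp)
        exact this
      refine ⟨r univ - t, ?_⟩
      unfold mG
      rw [Finset.mem_filter, Finset.mem_Icc]
      refine ⟨⟨by omega, by rw [hnuu]; omega⟩, ?_⟩
      intro s hs he
      -- `s = du s0` with `s0 ∈ hat r ρ`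
      have hs0 : du s ∈ hat r ρ := by
        unfold hat at hs ⊢
        rw [Finset.mem_insert, Finset.mem_insert] at hs ⊢
        rcases hs with h | h | h
        · right; left
          rw [h, ← d5, d1]
        · left
          rw [h, ← d4, d1]
        · right; right
          obtain ⟨v, hv, e⟩ := Finset.mem_image.1 h
          rw [← e, d1]
          exact hv
      have h0 := t3 (du s) hs0
      have h00 := hnu' (du s).F
      have e1 : ((du s).F)ᶜ = s.G := by
        unfold du
        simp
      rw [e1] at h00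
      omega
  rw [Finset.not_nonempty_iff_eq_empty] at hF
  -- no missing levels
  obtain ⟨-, -, -, -, -, g6, -, -, g9, -⟩ := h7 α r hr ρ hρ.1
  have hm3 : (miss r ρ).card = 3 := by omega
  have hacc := h9 α r hr ρ hρ.1
  have hgap : ∀ t ∈ miss r ρ, ∃ a b, Gp r ρ a b ∧ ht r a < t ∧ t < ht r b := by
    intro t ht
    unfold miss at ht
    rw [Finset.mem_filter, Finset.mem_Icc] at ht
    exact g9 t ht.1.1 ht.1.2 ht.2
  obtain ⟨t1, t2, t3, n12, n13, n23, hmm⟩ := Finset.card_eq_three.1 hm3
  obtain ⟨a1, b1, G1, l1, u1⟩ := hgap t1 (by rw [hmm]; simp)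
  obtain ⟨a2, b2, G2, l2, u2⟩ := hgap t2 (by rw [hmm]; simp)
  obtain ⟨a3, b3, G3, l3, u3⟩ := hgap t3 (by rw [hmm]; simp)
  have c1 := ht_le h3 h4 r hr ρ hF hG a1 b1 G1
  have c2 := ht_le h3 h4 r hr ρ hF hG a2 b2 G2
  have c3 := ht_le h3 h4 r hr ρ hF hG a3 b3 G3
  have hcc4 : ∀ a b : Pt α, ncc a b ≤ 4 := by
    intro a b
    unfold ncc
    split_ifs <;> omega
  -- two gaps, one with two missing heights
  have two : ∀ a b a' b' : Pt α, Gp r ρ a b → Gp r ρ a' b' → (a, b) ≠ (a', b') → 3 ≤ ncc a b →
      2 ≤ ncc a' b' → QD r al be ρ := by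
    intro a b a' b' hg hg' hne hc hc'
    have := hacc {(a, b), (a', b')} (by
      intro p hp
      rw [Finset.mem_insert, Finset.mem_singleton] at hp
      rcases hp with h | h
      · rw [h]; exact hg
      · rw [h]; exact hg')
    rw [Finset.sum_pair hne, hF, hG] at this
    simp only [Finset.card_empty] at this
    have e1 : ncc a b = 3 := by omega
    have e2 : ncc a' b' = 2 := by omega
    by_cases hcr : ∃ i, Cri a' b' i
    · exact h14 α r al be hr hw ρ hρ hcard hF hG a b a' b' hg hg' hne e1 hcr
    · push Not at hcr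
      exact h12 α r al be hr hw ρ hρ hcard hF hG a' b' hg' e2 hcr
  by_cases e12 : (a1, b1) = (a2, b2)
  · rw [Prod.mk.injEq] at e12
    obtain ⟨ea, eb⟩ := e12
    subst ea
    subst eb
    by_cases e13 : (a1, b1) = (a3, b3)
    · rw [Prod.mk.injEq] at e13
      obtain ⟨ea, eb⟩ := e13
      subst ea
      subst eb
      have := hcc4 a1 b1
      exact h15 α r al be hr hw ρ hρ hcard hF hG a1 b1 G1 (by omega)
    · exact two a1 b1 a3 b3 G1 G3 e13 (by omega) (by omega)
  · by_cases e13 : (a1, b1) = (a3, b3)
    · rw [Prod.mk.injEq] at e13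
      obtain ⟨ea, eb⟩ := e13
      subst ea
      subst eb
      exact two a1 b1 a2 b2 G1 G2 e12 (by omega) (by omega)
    · by_cases e23 : (a2, b2) = (a3, b3)
      · rw [Prod.mk.injEq] at e23
        obtain ⟨ea, eb⟩ := e23
        subst ea
        subst eb
        exact two a2 b2 a1 b1 G2 G1 (Ne.symm e12) (by omega) (by omega)
      · have := hacc {(a1, b1), (a2, b2), (a3, b3)} (by
          intro p hp
          rw [Finset.mem_insert, Finset.mem_insert, Finset.mem_singleton] at hp
          rcases hp with h | h | h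
          · rw [h]; exact G1
          · rw [h]; exact G2
          · rw [h]; exact G3)
        rw [Finset.sum_insert (by
          rw [Finset.mem_insert, Finset.mem_singleton]
          rintro (h | h)
          · exact e12 h
          · exact e13 h), Finset.sum_pair e23, hF, hG] at this
        simp only [Finset.card_empty] at this
        have f1 : ncc a1 b1 = 2 := by omega
        have f2 : ncc a2 b2 = 2 := by omega
        have f3 : ncc a3 b3 = 2 := by omega
        by_cases k1 : ∃ i, Cri a1 b1 i
        · by_cases k2 : ∃ i, Cri a2 b2 i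
          · by_cases k3 : ∃ i, Cri a3 b3 i
            · exact h13 α r al be hr hw ρ hρ hcard hF hG a1 b1 a2 b2 a3 b3 G1 G2 G3 e12 e13 e23
                k1 k2 k3
            · push Not at k3
              exact h12 α r al be hr hw ρ hρ hcard hF hG a3 b3 G3 f3 k3
          · push Not at k2
            exact h12 α r al be hr hw ρ hρ hcard hF hG a2 b2 G2 f2 k2
        · push Not at k1
          exact h12 α r al be hr hw ρ hρ hcard hF hG a1 b1 G1 f1 k1

end Pool.Agent.QPR
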