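import Pool.Agent.QPR.StS

/-!
# The top weight in terms of the gap (module QPR1_TW)
-/

set_option autoImplicit false

open Finset

namespace Pool.Agent.QPR

theorem s1_TW (h1 : Stmt_HT) (h2 : Stmt_GAP) (h3 : Stmt_DIM) : Stmt_TW := by
  intro α _ _ _ r al be hr _ σ a b hσ hcard hab hht
  obtain ⟨_, _, _, hbt, _, _, _, _, _, hcl, _⟩ := h1 α r hr
  obtain ⟨gEx, _, _, _, _, _, gsum, _, _, gcri⟩ := h2 α r hr σ hσ
  obtain ⟨dcri, _⟩ := h3 α r hr
  have hne : σ ≠ ∅ := by
    intro h
    rw [h, card_empty] at hcard
    exact absurd hcard.symm Fintype.card_ne_zero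
  -- a critical gap is `(a, b)`
  have key : ∀ a' b' i, Gp r σ a' b' → Cri a' b' i → a' = a ∧ b' = b := by
    intro a' b' i hg hc
    by_contra hcon
    have hne' : ((a, b) : Pt α × Pt α) ≠ (a', b') := by
      intro he
      rw [Prod.mk.injEq] at he
      exact hcon ⟨he.1.symm, he.2.symm⟩
    have hs := gsum {(a, b), (a', b')} (by
      intro p hp
      rw [mem_insert, mem_singleton] at hp
      rcases hp with rfl | rfl
      · exact hab
      · exact hg)
    rw [sum_pair hne'] at hs
    have hd := (dcri a' b' i (gEx a' hg.ha) (gEx b' hg.hb) hg.lt hc).2.2.2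
    simp only at hs
    omega
  -- if `i` is never open then it is critical in `(a, b)`
  have nev : ∀ i, (∀ s ∈ σ, Nop i s) → Cri a b i := by
    intro i hi
    obtain ⟨a', b', hg, hc, _⟩ := gcri i hi
    obtain ⟨ha, hb⟩ := key a' b' i hg hc
    rw [ha, hb] at hc
    exact hc
  have hlo : ∀ i s, Cri a b i → s ≤ a → i ∉ s.F ∨ s.S = false := by
    intro i s hc hs
    by_contra hcon
    rw [not_or, not_not, Bool.not_eq_false] at hcon
    exact hc.1 ⟨hs.1 hcon.1, hs.2.2.1 hcon.2⟩
  have hhi : ∀ i s, Cri a b i → b ≤ s → i ∈ s.G ∨ s.T = true := by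
    intro i s hc hs
    rcases hc.2 with h | h
    · exact Or.inl (hs.2.1 h)
    · exact Or.inr (hs.2.2.2 h)
  have hhat : ∀ s ∈ σ, s ≤ a ∨ b ≤ s := fun s hs =>
    hab.sep s (mem_insert_of_mem (mem_insert_of_mem hs))
  have hfc : Fc r σ ↔ ∃ i, Cri a b i := by
    constructor
    · rintro ⟨_, h | ⟨i, hi⟩⟩
      · exact absurd h hne
      · exact ⟨i, nev i hi⟩
    · rintro ⟨i, hi⟩
      refine ⟨hσ, Or.inr ⟨i, fun s hs => ?_⟩⟩
      intro hF hS
      rcases hhat s hs with h | h
      · rcases hlo i s hi h with h' | h'
        · exact absurd hF h'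
        · rw [h'] at hS
          exact absurd hS (by decide)
      · exact hhi i s hi h
  refine ⟨hfc, fun hF => ?_⟩
  obtain ⟨i0, hi0⟩ := hfc.1 hF
  have hEa := gEx a hab.ha
  have hEb := gEx b hab.hb
  have hma : a.S = true → a ∈ σ := by
    intro h
    have := hab.ha
    rw [hat, mem_insert, mem_insert] at this
    rcases this with h' | h' | h'
    · rw [h'] at h
      exact absurd h (by simp [bot])
    · exfalso
      have h4 : b ≤ a := by
        rw [h']
        exact (hbt b hEb).2
      exact absurd (lt_of_lt_of_le hab.lt h4) (lt_irrefl _)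
    · exact h'
  have hmb : b.T = false → b ∈ σ := by
    intro h
    have := hab.hb
    rw [hat, mem_insert, mem_insert] at this
    rcases this with h' | h' | h'
    · exfalso
      have h4 : b ≤ a := by
        rw [h']
        exact (hbt a hEa).1
      exact absurd (lt_of_lt_of_le hab.lt h4) (lt_irrefl _)
    · rw [h'] at h
      exact absurd h (by simp [top])
    · exact h'
  have hbF : ∀ i, Cri a b i → i ∈ b.F ∧ b.S = true := fun i hi => hcl b i hEb hi.2
  have haG : ∀ i, Cri a b i → ¬ (i ∈ a.G ∨ a.T = true) := fun i hi h => hi.1 (hcl a i hEa h)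
  have hk : kop al σ = if a.S ≠ b.S then 1 else 1 - al := by
    have hiff : (σ = ∅ ∨ ∃ i, ∀ s ∈ σ, s.S = true → i ∈ s.G ∨ s.T = true) ↔ a.S ≠ b.S := by
      constructor
      · rintro (h | ⟨i, hi⟩)
        · exact absurd h hne
        · have hc := nev i (fun s hs _ hS => hi s hs hS)
          have haS : a.S = false := by
            by_contra hcon
            rw [Bool.not_eq_false] at hcon
            exact haG i hc (hi a (hma hcon) hcon)
          rw [haS, (hbF i hc).2]
          decide
      · intro hS
        refine Or.inr ⟨i0, fun s hs hsS => ?_⟩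
        rcases hhat s hs with h | h
        · exfalso
          apply hS
          rw [(hbF i0 hi0).2, h.2.2.1 hsS]
        · exact hhi i0 s hi0 h
    unfold kop
    by_cases hS : a.S ≠ b.S
    · rw [if_pos (hiff.2 hS), if_pos hS]
    · rw [if_neg (fun h => hS (hiff.1 h)), if_neg hS]
  have hl : kcl be σ = if a.T ≠ b.T then 0 else be := by
    have hiff : (σ = ∅ ∨ ∃ i, ∀ s ∈ σ, s.T = false → i ∉ s.F ∨ s.S = false) ↔ a.T ≠ b.T := by
      constructor
      · rintro (h | ⟨i, hi⟩)
        · exact absurd h hne
        · have hc := nev i (fun s hs hF hS => by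
            by_contra hcon
            rw [not_or, Bool.not_eq_true] at hcon
            rcases hi s hs hcon.2 with h | h
            · exact h hF
            · rw [h] at hS
              exact absurd hS (by decide))
          have hbT : b.T = true := by
            by_contra hcon
            rw [Bool.not_eq_true] at hcon
            rcases hi b (hmb hcon) hcon with h | h
            · exact h (hbF i hc).1
            · rw [(hbF i hc).2] at h
              exact absurd h (by decide)
          have haT : a.T = false := by
            by_contra hcon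
            rw [Bool.not_eq_false] at hcon
            exact haG i hc (Or.inr hcon)
          rw [haT, hbT]
          decide
      · intro hT
        refine Or.inr ⟨i0, fun s hs hsT => ?_⟩
        rcases hhat s hs with h | h
        · exact hlo i0 s hi0 h
        · exfalso
          have hbT : b.T = false := by
            by_contra hcon
            rw [Bool.not_eq_false] at hcon
            rw [h.2.2.2 hcon] at hsT
            exact absurd hsT (by decide)
          have haT : a.T = false := by
            by_contra hcon
            rw [Bool.not_eq_false] at hcon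
            exact haG i0 hi0 (Or.inr hcon)
          exact hT (by rw [haT, hbT])
    unfold kcl
    by_cases hT : a.T ≠ b.T
    · rw [if_pos (hiff.2 hT), if_pos hT]
    · rw [if_neg (fun h => hT (hiff.1 h)), if_neg hT]
  unfold tw
  rw [if_pos ⟨hF, hcard⟩, hk, hl, one_div]

end Pool.Agent.QPR
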