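import Pool.Agent.QPR.ExB
import Pool.Agent.QPR.Chain
import Pool.Agent.TutteEq.Arith

/-!
# Simulation of a Metropolis chain with random bits
-/

set_option autoImplicit false

namespace Pool.Agent.QPR

open Finset Pool.Agent.TutteEq

/-- the value of a string of random bits is uniform -/
theorem Ex_val (k : ℕ) (F : ℕ → ℝ) :
    Ex k (fun v => F (arithVal v)) = (1 / 2 ^ k) * ∑ i ∈ range (2 ^ k), F i := by
  induction k generalizing F with
  | zero => simp [Ex_zero, arithVal]
  | succ k ih =>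
    have h1 : Ex k (fun v => F (arithVal (true :: v))) =
        (1 / 2 ^ k) * ∑ i ∈ range (2 ^ k), F (2 ^ k + i) := by
      rw [← ih (fun i => F (2 ^ k + i))]
      apply Ex_congr
      intro r hr
      rw [arith_val_cons, hr]
      simp
    have h2 : Ex k (fun v => F (arithVal (false :: v))) =
        (1 / 2 ^ k) * ∑ i ∈ range (2 ^ k), F i := by
      rw [← ih F]
      apply Ex_congr
      intro r hr
      rw [arith_val_cons]
      simp
    rw [Ex_succ, h1, h2, pow_succ (2 : ℕ), mul_two, Finset.sum_range_add, pow_succ]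
    field_simp
    ring

/-- the coin -/
theorem coin {a a' : ℕ} (ha : 0 < a) (k : ℕ) :
    min 1 ((a' : ℝ) / a) ≤ Ex k (fun v => if arithVal v * a < 2 ^ k * a' then 1 else 0) ∧
    Ex k (fun v => if arithVal v * a < 2 ^ k * a' then 1 else 0) ≤
      min 1 ((a' : ℝ) / a) + 1 / 2 ^ k := by
  have ha' : (0 : ℝ) < a := by exact_mod_cast ha
  have h1 : Ex k (fun v => if arithVal v * a < 2 ^ k * a' then (1 : ℝ) else 0) =
      (1 / 2 ^ k) * (min (2 ^ k) ⌈(2 ^ k * a' : ℝ) / a⌉₊ : ℕ) := by
    rw [Ex_val k (fun i => if i * a < 2 ^ k * a' then (1 : ℝ) else 0), Finset.sum_boole]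
    congr 2
    have : (range (2 ^ k)).filter (fun i => i * a < 2 ^ k * a') =
        range (min (2 ^ k) ⌈(2 ^ k * a' : ℝ) / a⌉₊) := by
      ext i
      simp only [Finset.mem_filter, Finset.mem_range, lt_min_iff, and_congr_right_iff]
      intro _
      rw [Nat.lt_ceil, lt_div_iff₀ ha']
      constructor
      · intro h
        exact_mod_cast h
      · intro h
        exact_mod_cast h
    rw [this, Finset.card_range]
  rw [h1]
  have h2 : (0 : ℝ) < 2 ^ k := by positivity
  rw [Nat.cast_min]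
  push_cast
  have h3 : (1 / 2 ^ k : ℝ) * min (2 ^ k) (⌈(2 ^ k * a' : ℝ) / a⌉₊ : ℝ) =
      min 1 ((⌈(2 ^ k * a' : ℝ) / a⌉₊ : ℝ) / 2 ^ k) := by
    rw [mul_min_of_nonneg _ _ (by positivity)]
    congr 1
    · field_simp
    · ring
  rw [h3]
  have h4 : (a' : ℝ) / a ≤ (⌈(2 ^ k * a' : ℝ) / a⌉₊ : ℝ) / 2 ^ k := by
    rw [le_div_iff₀ h2]
    have := Nat.le_ceil ((2 ^ k * a' : ℝ) / a)
    refine le_trans (le_of_eq ?_) this
    ring
  have h5 : (⌈(2 ^ k * a' : ℝ) / a⌉₊ : ℝ) / 2 ^ k ≤ (a' : ℝ) / a + 1 / 2 ^ k := by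
    rw [div_le_iff₀ h2]
    have := (Nat.ceil_lt_add_one (show 0 ≤ (2 ^ k * a' : ℝ) / a by positivity)).le
    refine this.trans (le_of_eq ?_)
    field_simp
  constructor
  · exact min_le_min_left _ h4
  · rcases le_total 1 ((a' : ℝ) / a) with h | h
    · rw [min_eq_left h]
      exact (min_le_left _ _).trans (by linarith [one_div_pos.2 h2])
    · rw [min_eq_right h]
      exact (min_le_right _ _).trans h5

variable {σ G : Type} [Fintype G] [Nonempty G]

/-- one step of the simulated chain: lazy bit, `m` bits for the move, the other bits for the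
coin -/
def sim (act : G → σ → σ) (W : σ → ℕ) (dec : List Bool → G) (m k : ℕ) (s : σ) (u : List Bool) :
    σ :=
  if u.headD true then s
  else if arithVal (u.tail.drop m) * W s < 2 ^ k * W (act (dec (u.tail.take m)) s) then
    act (dec (u.tail.take m)) s
  else s

theorem sim_mem (M : MChain σ G) (W : σ → ℕ) (hW : ∀ s, M.w s = W s) (dec : List Bool → G)
    (m k : ℕ) {s : σ} (hs : s ∈ M.Ω) (hws : 0 < M.w s) (u : List Bool) :
    sim M.act W dec m k s u ∈ M.Ω ∧ 0 < M.w (sim M.act W dec m k s u) := by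
  unfold sim
  split_ifs with h1 h2
  · exact ⟨hs, hws⟩
  · refine ⟨M.act_mem _ _ hs, ?_⟩
    rw [hW]
    have : 0 < 2 ^ k * W (M.act (dec (u.tail.take m)) s) := lt_of_le_of_lt (Nat.zero_le _) h2
    exact_mod_cast Nat.pos_of_mul_pos_left this
  · exact ⟨hs, hws⟩

/-- one step -/
theorem sim_step (M : MChain σ G) (W : σ → ℕ) (hW : ∀ s, M.w s = W s) (dec : List Bool → G)
    (m k : ℕ) (hdec : ∀ F : G → ℝ, Ex m (fun u => F (dec u)) =
      (1 / (Fintype.card G : ℝ)) * ∑ g, F g)
    {f : σ → ℝ} (hf : ∀ s ∈ M.Ω, 0 ≤ f s ∧ f s ≤ 1) {s : σ} (hs : s ∈ M.Ω) (hws : 0 < M.w s) :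
    |stepOp (1 + m + k) (sim M.act W dec m k) f s - M.P f s| ≤ 1 / 2 ^ k := by
  have hG := MChain.card_pos (G := G)
  have hWs : 0 < W s := by
    rw [hW] at hws
    exact_mod_cast hws
  obtain ⟨q, hq⟩ : ∃ q : G → ℝ, ∀ g, q g = Ex k (fun v =>
      if arithVal v * W s < 2 ^ k * W (M.act g s) then 1 else 0) := ⟨_, fun _ => rfl⟩
  have hacc : ∀ g, M.acc g s = min 1 ((W (M.act g s) : ℝ) / W s) := by
    intro g
    unfold MChain.acc
    rw [hW, hW]
  have hq1 : ∀ g, M.acc g s ≤ q g ∧ q g ≤ M.acc g s + 1 / 2 ^ k := by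
    intro g
    rw [hacc, hq]
    exact coin hWs k
  have e1 : stepOp (1 + m + k) (sim M.act W dec m k) f s = f s + (1 / 2) *
      ((1 / (Fintype.card G : ℝ)) * ∑ g, q g * (f (M.act g s) - f s)) := by
    unfold stepOp
    rw [show 1 + m + k = (m + k) + 1 by ring, Ex_succ]
    have h1 : Ex (m + k) (fun r => f (sim M.act W dec m k s (true :: r))) = f s := by
      rw [Ex_congr (H := fun _ => f s) (fun r _ => by simp [sim]), Ex_const]
    have h2 : Ex (m + k) (fun r => f (sim M.act W dec m k s (false :: r))) =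
        f s + (1 / (Fintype.card G : ℝ)) * ∑ g, q g * (f (M.act g s) - f s) := by
      rw [Ex_append, ← hdec (fun g => q g * (f (M.act g s) - f s)), ← Ex_const m (f s), ← Ex_add]
      apply Ex_congr
      intro u hu
      rw [Ex_const, hq, mul_comm, ← Ex_mul, ← Ex_const k (f s), ← Ex_add]
      apply Ex_congr
      intro v _
      have h3 : sim M.act W dec m k s (false :: (u ++ v)) =
          if arithVal v * W s < 2 ^ k * W (M.act (dec u) s) then M.act (dec u) s else s := by
        unfold sim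
        simp only [List.headD_cons, List.tail_cons, Bool.false_eq_true, if_false]
        rw [List.take_left' hu, List.drop_left' hu]
      rw [h3, Ex_const]
      split_ifs with h
      · ring
      · ring
    rw [h1, h2]
    ring
  have e2 : stepOp (1 + m + k) (sim M.act W dec m k) f s - M.P f s =
      (1 / (2 * (Fintype.card G : ℝ))) * ∑ g, (q g - M.acc g s) * (f (M.act g s) - f s) := by
    rw [e1]
    unfold MChain.P
    have : ∑ g, (q g - M.acc g s) * (f (M.act g s) - f s) =
        ∑ g, q g * (f (M.act g s) - f s) - ∑ g, M.acc g s * (f (M.act g s) - f s) := by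
      rw [← Finset.sum_sub_distrib]
      apply Finset.sum_congr rfl
      intro g _
      ring
    rw [this]
    field_simp
    ring
  rw [e2, abs_mul, abs_of_pos (by positivity)]
  have h3 : |∑ g, (q g - M.acc g s) * (f (M.act g s) - f s)| ≤
      (Fintype.card G : ℝ) * (1 / 2 ^ k) := by
    refine (Finset.abs_sum_le_sum_abs _ _).trans ?_
    have : ∀ g ∈ (Finset.univ : Finset G),
        |(q g - M.acc g s) * (f (M.act g s) - f s)| ≤ 1 / 2 ^ k := by
      intro g _
      rw [abs_mul]
      have h4 := hq1 g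
      have h5 : |q g - M.acc g s| ≤ 1 / 2 ^ k := by
        rw [abs_le]
        constructor
        · have : (0 : ℝ) < 1 / 2 ^ k := by positivity
          linarith
        · linarith
      have h6 : |f (M.act g s) - f s| ≤ 1 := by
        have h7 := hf _ (M.act_mem g s hs)
        have h8 := hf _ hs
        rw [abs_le]
        constructor <;> linarith
      calc |q g - M.acc g s| * |f (M.act g s) - f s| ≤ 1 / 2 ^ k * 1 :=
            mul_le_mul h5 h6 (abs_nonneg _) (by positivity)
        _ = 1 / 2 ^ k := mul_one _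
    refine (Finset.sum_le_sum this).trans ?_
    rw [Finset.sum_const, Finset.card_univ, nsmul_eq_mul]
  calc 1 / (2 * (Fintype.card G : ℝ)) * |∑ g, (q g - M.acc g s) * (f (M.act g s) - f s)|
      ≤ 1 / (2 * (Fintype.card G : ℝ)) * ((Fintype.card G : ℝ) * (1 / 2 ^ k)) :=
        mul_le_mul_of_nonneg_left h3 (by positivity)
    _ = 1 / 2 * (1 / 2 ^ k) := by
        field_simp
    _ ≤ 1 / 2 ^ k := by
        have : (0 : ℝ) < 1 / 2 ^ k := by positivity
        linarith

/-- `t` steps -/
theorem sim_iter (M : MChain σ G) (W : σ → ℕ) (hW : ∀ s, M.w s = W s) (dec : List Bool → G)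
    (m k : ℕ) (hdec : ∀ F : G → ℝ, Ex m (fun u => F (dec u)) =
      (1 / (Fintype.card G : ℝ)) * ∑ g, F g)
    {f : σ → ℝ} (hf : ∀ s ∈ M.Ω, 0 ≤ f s ∧ f s ≤ 1) (t : ℕ) {s : σ} (hs : s ∈ M.Ω)
    (hws : 0 < M.w s) :
    |((stepOp (1 + m + k) (sim M.act W dec m k))^[t] f) s - (M.P^[t] f) s| ≤ t * (1 / 2 ^ k) := by
  induction t generalizing s with
  | zero => simp
  | succ t ih =>
    rw [Function.iterate_succ_apply', Function.iterate_succ_apply']
    have h1 : |stepOp (1 + m + k) (sim M.act W dec m k)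
        ((stepOp (1 + m + k) (sim M.act W dec m k))^[t] f) s -
        stepOp (1 + m + k) (sim M.act W dec m k) (M.P^[t] f) s| ≤ t * (1 / 2 ^ k) := by
      apply Ex_abs_sub_le
      intro u _
      obtain ⟨h2, h3⟩ := sim_mem M W hW dec m k hs hws u
      exact ih h2 h3
    have h2 := sim_step M W hW dec m k hdec (f := M.P^[t] f)
      (fun s hs => M.P_iter_mem hf t hs) hs hws
    have h3 := abs_add_le (stepOp (1 + m + k) (sim M.act W dec m k)
        ((stepOp (1 + m + k) (sim M.act W dec m k))^[t] f) s -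
        stepOp (1 + m + k) (sim M.act W dec m k) (M.P^[t] f) s)
      (stepOp (1 + m + k) (sim M.act W dec m k) (M.P^[t] f) s - M.P (M.P^[t] f) s)
    rw [sub_add_sub_cancel] at h3
    push_cast
    linarith

/-- **the simulated chain**: expectation of a function of the state after `t` steps -/
theorem sim_run (M : MChain σ G) (W : σ → ℕ) (hW : ∀ s, M.w s = W s) (dec : List Bool → G)
    (m k : ℕ) (hdec : ∀ F : G → ℝ, Ex m (fun u => F (dec u)) =
      (1 / (Fintype.card G : ℝ)) * ∑ g, F g)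
    {K : ℝ} (hK : 1 ≤ K) (hP : M.Poinc K)
    {f : σ → ℝ} (hf : ∀ s ∈ M.Ω, 0 ≤ f s ∧ f s ≤ 1) (t : ℕ) {s : σ} (hs : s ∈ M.Ω)
    (hws : 0 < M.w s) :
    |ExB (1 + m + k) t (fun l => f (l.foldl (sim M.act W dec m k) s)) -
      (∑ s ∈ M.Ω, M.w s * f s) / M.W0| ≤
      t * (1 / 2 ^ k) + Real.sqrt (M.W0 / M.w s) * Real.exp (-(t / (8 * K))) := by
  rw [ExB_foldl]
  have h1 := sim_iter M W hW dec m k hdec hf t hs hws
  have h2 := M.mixing hK hP hf hs hws t
  have h3 := abs_add_le (((stepOp (1 + m + k) (sim M.act W dec m k))^[t] f) s - (M.P^[t] f) s)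
    ((M.P^[t] f) s - (∑ s ∈ M.Ω, M.w s * f s) / M.W0)
  rw [sub_add_sub_cancel] at h3
  linarith

end Pool.Agent.QPR
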