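import Mathlib

/-!
# The Tutte polynomial of a minor, for a rank function

`TT r x y C R` is the Tutte polynomial of `(M | (C ∪ R)) / C` at `(x, y)`.
-/

set_option autoImplicit false

namespace Pool.Agent.QPR

open Finset

/-- rank functions of matroids, by local axioms -/
structure IsRank {α : Type} [DecidableEq α] (r : Finset α → ℕ) : Prop where
  empty : r ∅ = 0
  mono : ∀ A e, r A ≤ r (insert e A)
  le_succ : ∀ A e, r (insert e A) ≤ r A + 1
  closed : ∀ A e f, r (insert e A) = r A → r (insert f A) = r A →
    r (insert e (insert f A)) = r A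

/-- the Tutte polynomial of the minor `(M | (C ∪ R)) / C` -/
noncomputable def TT {α : Type} [DecidableEq α] (r : Finset α → ℕ) (x y : ℝ)
    (C R : Finset α) : ℝ :=
  ∑ A ∈ R.powerset, (x - 1) ^ (r (C ∪ R) - r (C ∪ A)) * (y - 1) ^ (A.card + r C - r (C ∪ A))

variable {α : Type} [DecidableEq α] {r : Finset α → ℕ}

namespace IsRank

theorem mono_subset (h : IsRank r) {A B : Finset α} (hAB : A ⊆ B) : r A ≤ r B := by
  have key : ∀ D : Finset α, r A ≤ r (D ∪ A) := by
    intro D
    induction D using Finset.induction_on with
    | empty => simp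
    | insert e D _ ih =>
      rw [Finset.insert_union]
      exact ih.trans (h.mono _ _)
  have := key B
  rwa [Finset.union_eq_left.2 hAB] at this

theorem closure_insert (h : IsRank r) {A : Finset α} {e : α} (he : r (insert e A) = r A) (f : α) :
    r (insert e (insert f A)) = r (insert f A) := by
  by_cases hf : r (insert f A) = r A
  · rw [h.closed A e f he hf, hf]
  · have h1 := h.mono A f
    have h2 := h.le_succ A f
    have h3 := h.mono (insert f A) e
    have h4 := h.le_succ (insert e A) f
    rw [Finset.insert_comm] at h4
    omega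

theorem closure (h : IsRank r) {A B : Finset α} {e : α} (he : r (insert e A) = r A)
    (hAB : A ⊆ B) : r (insert e B) = r B := by
  have key : ∀ D : Finset α, r (insert e (D ∪ A)) = r (D ∪ A) := by
    intro D
    induction D using Finset.induction_on with
    | empty => simpa using he
    | insert f D _ ih =>
      rw [Finset.insert_union]
      exact h.closure_insert ih f
  have := key B
  rwa [Finset.union_eq_left.2 hAB] at this

theorem coclosure (h : IsRank r) {A B : Finset α} {e : α} (he : r B < r (insert e B))
    (hAB : A ⊆ B) : r (insert e A) = r A + 1 := by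
  by_contra hne
  have h1 := h.mono A e
  have h2 := h.le_succ A e
  have h3 : r (insert e A) = r A := by omega
  have := h.closure h3 hAB
  omega

theorem card_le (h : IsRank r) (C A : Finset α) : r (C ∪ A) ≤ A.card + r C := by
  induction A using Finset.induction_on with
  | empty => simp
  | insert e A he ih =>
    rw [Finset.union_insert, Finset.card_insert_of_notMem he]
    have := h.le_succ (C ∪ A) e
    omega

end IsRank

theorem TT_empty (x y : ℝ) (C : Finset α) : TT r x y C ∅ = 1 := by
  unfold TT
  simp

/-- sum over the subsets of `insert e R` -/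
theorem TT_split (x y : ℝ) (C : Finset α) {R : Finset α} {e : α} (he : e ∉ R) :
    TT r x y C (insert e R) =
      ∑ A ∈ R.powerset, (x - 1) ^ (r (insert e (C ∪ R)) - r (C ∪ A)) *
          (y - 1) ^ (A.card + r C - r (C ∪ A)) +
      ∑ A ∈ R.powerset, (x - 1) ^ (r (insert e (C ∪ R)) - r (insert e (C ∪ A))) *
          (y - 1) ^ (A.card + 1 + r C - r (insert e (C ∪ A))) := by
  unfold TT
  rw [Finset.sum_powerset_insert he]
  congr 1
  · apply Finset.sum_congr rfl
    intro A _
    rw [Finset.union_insert]
  · apply Finset.sum_congr rfl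
    intro A hA
    have : e ∉ A := fun h => he (Finset.mem_powerset.1 hA h)
    rw [Finset.card_insert_of_notMem this, Finset.union_insert, Finset.union_insert]

theorem TT_loop (h : IsRank r) (x y : ℝ) (C : Finset α) {R : Finset α} {e : α} (he : e ∉ R)
    (hl : r (insert e C) = r C) : TT r x y C (insert e R) = y * TT r x y C R := by
  rw [TT_split x y C he]
  unfold TT
  rw [← Finset.sum_add_distrib, Finset.mul_sum]
  apply Finset.sum_congr rfl
  intro A hA
  rw [h.closure hl Finset.subset_union_left, h.closure hl Finset.subset_union_left]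
  have := h.card_le C A
  rw [show A.card + 1 + r C - r (C ∪ A) = (A.card + r C - r (C ∪ A)) + 1 by omega, pow_succ]
  ring

theorem TT_loop_contract (h : IsRank r) (x y : ℝ) (C R : Finset α) {e : α}
    (hl : r (insert e C) = r C) : TT r x y (insert e C) R = TT r x y C R := by
  unfold TT
  apply Finset.sum_congr rfl
  intro A _
  rw [Finset.insert_union, Finset.insert_union, h.closure hl Finset.subset_union_left,
    h.closure hl Finset.subset_union_left, hl]

theorem TT_contract_aux (_h : IsRank r) (x y : ℝ) (C : Finset α) {R : Finset α} {e : α}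
    (hl : r (insert e C) = r C + 1) :
    ∑ A ∈ R.powerset, (x - 1) ^ (r (insert e (C ∪ R)) - r (insert e (C ∪ A))) *
          (y - 1) ^ (A.card + 1 + r C - r (insert e (C ∪ A))) = TT r x y (insert e C) R := by
  unfold TT
  apply Finset.sum_congr rfl
  intro A _
  rw [Finset.insert_union, Finset.insert_union, hl]
  congr 2
  omega

theorem TT_coloop (h : IsRank r) (x y : ℝ) (C : Finset α) {R : Finset α} {e : α} (he : e ∉ R)
    (hc : r (C ∪ R) < r (insert e (C ∪ R))) :
    TT r x y C (insert e R) = x * TT r x y (insert e C) R := by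
  have hl : r (insert e C) = r C + 1 := h.coclosure hc Finset.subset_union_left
  rw [TT_split x y C he, TT_contract_aux h x y C hl]
  have h1 : ∑ A ∈ R.powerset, (x - 1) ^ (r (insert e (C ∪ R)) - r (C ∪ A)) *
          (y - 1) ^ (A.card + r C - r (C ∪ A)) = (x - 1) * TT r x y (insert e C) R := by
    unfold TT
    rw [Finset.mul_sum]
    apply Finset.sum_congr rfl
    intro A hA
    have hAR := Finset.mem_powerset.1 hA
    have h2 : r (insert e (C ∪ A)) = r (C ∪ A) + 1 :=
      h.coclosure hc (Finset.union_subset_union_right hAR)
    have h3 : r (insert e (C ∪ R)) = r (C ∪ R) + 1 := h.coclosure hc (Finset.Subset.refl _)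
    have h4 : r (C ∪ A) ≤ r (C ∪ R) := h.mono_subset (Finset.union_subset_union_right hAR)
    rw [Finset.insert_union, Finset.insert_union, hl, h2, h3,
      show r (C ∪ R) + 1 - r (C ∪ A) = (r (C ∪ R) + 1 - (r (C ∪ A) + 1)) + 1 by omega,
      pow_succ, show A.card + (r C + 1) - (r (C ∪ A) + 1) = A.card + r C - r (C ∪ A) by omega]
    ring
  rw [h1]
  ring

theorem TT_generic (h : IsRank r) (x y : ℝ) (C : Finset α) {R : Finset α} {e : α} (he : e ∉ R)
    (hl : r (insert e C) ≠ r C) (hc : ¬ r (C ∪ R) < r (insert e (C ∪ R))) :
    TT r x y C (insert e R) = TT r x y (insert e C) R + TT r x y C R := by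
  have h1 : r (insert e C) = r C + 1 := by
    have := h.mono C e
    have := h.le_succ C e
    omega
  have h2 : r (insert e (C ∪ R)) = r (C ∪ R) := le_antisymm (not_lt.1 hc) (h.mono _ _)
  rw [TT_split x y C he, TT_contract_aux h x y C h1, add_comm, h2]
  rfl

/-- bounds -/
theorem TT_bounds (h : IsRank r) {x y μ : ℝ} (hμ : 0 < μ) (hμ1 : μ ≤ 1) (hx : μ ≤ x) (hx1 : x ≤ 1)
    (hy : μ ≤ y) (hy1 : y ≤ 1) (R : Finset α) :
    ∀ C : Finset α, μ ^ R.card ≤ TT r x y C R ∧ TT r x y C R ≤ 2 ^ R.card := by
  induction R using Finset.induction_on with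
  | empty =>
    intro C
    rw [TT_empty]
    simp
  | insert e R he ih =>
    intro C
    rw [Finset.card_insert_of_notMem he]
    by_cases hl : r (insert e C) = r C
    · rw [TT_loop h x y C he hl]
      obtain ⟨h1, h2⟩ := ih C
      constructor
      · rw [pow_succ, mul_comm]
        exact mul_le_mul hy h1 (by positivity) (by linarith)
      · rw [pow_succ, mul_comm]
        exact mul_le_mul h2 (by linarith) (by linarith) (by positivity)
    · by_cases hc : r (C ∪ R) < r (insert e (C ∪ R))
      · rw [TT_coloop h x y C he hc]
        obtain ⟨h1, h2⟩ := ih (insert e C)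
        constructor
        · rw [pow_succ, mul_comm]
          exact mul_le_mul hx h1 (by positivity) (by linarith)
        · rw [pow_succ, mul_comm]
          exact mul_le_mul h2 (by linarith) (by linarith) (by positivity)
      · rw [TT_generic h x y C he hl hc]
        obtain ⟨h1, h2⟩ := ih C
        obtain ⟨h3, h4⟩ := ih (insert e C)
        constructor
        · have h5 : μ ^ (R.card + 1) ≤ μ ^ R.card :=
            pow_le_pow_of_le_one hμ.le hμ1 (Nat.le_succ _)
          have h6 : 0 ≤ μ ^ R.card := by positivity
          linarith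
        · rw [pow_succ]
          linarith

end Pool.Agent.QPR
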