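import Pool.Agent.QPR.HRDefs
import Pool.Agent.QPR.Tut

/-!
# The complex of states of a matroid (helper86)

MP_9c4433_lc, part (1), definitions. Everything is for an arbitrary matroid (loops and coloops
allowed), given by a rank function `r` on a finite type, and two parameters `al, be > 0` with
`al + be < 1`. With `xi = 1 - al - be`: `x = xi / (1 - al)`, `y = xi / (1 - be)`.

A point is `(F, G, S, T)`: `F` a flat, `G` a cyclic set (union of circuits), `S` (the window has
started), `T` (the window has ended). Left: `S = T = false`, middle: `S = true, T = false`, right: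
`S = T = true`.
-/

set_option autoImplicit false

open Finset

namespace Pool.Agent.QPR

/-- a point -/
structure Pt (α : Type) where
  F : Finset α
  G : Finset α
  S : Bool
  T : Bool
deriving DecidableEq

namespace Pt

variable {α : Type}

/-- as a product -/
def equiv (α : Type) : Finset α × Finset α × Bool × Bool ≃ Pt α where
  toFun p := ⟨p.1, p.2.1, p.2.2.1, p.2.2.2⟩
  invFun s := (s.F, s.G, s.S, s.T)
  left_inv _ := rfl
  right_inv _ := rfl

instance [Fintype α] [DecidableEq α] : Fintype (Pt α) := Fintype.ofEquiv _ (equiv α)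

/-- the order: more events have happened -/
instance : PartialOrder (Pt α) where
  le s t := s.F ⊆ t.F ∧ s.G ⊆ t.G ∧ (s.S = true → t.S = true) ∧ (s.T = true → t.T = true)
  le_refl s := ⟨Subset.refl _, Subset.refl _, id, id⟩
  le_trans s t u h h' := ⟨h.1.trans h'.1, h.2.1.trans h'.2.1, h'.2.2.1 ∘ h.2.2.1,
    h'.2.2.2 ∘ h.2.2.2⟩
  le_antisymm s t h h' := by
    obtain ⟨F, G, S, T⟩ := s
    obtain ⟨F', G', S', T'⟩ := t
    obtain ⟨h1, h2, h3, h4⟩ := h
    obtain ⟨h5, h6, h7, h8⟩ := h'
    simp only at h1 h2 h3 h4 h5 h6 h7 h8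
    have e1 := Subset.antisymm h1 h5
    have e2 := Subset.antisymm h2 h6
    subst e1
    subst e2
    have e3 : S = S' := by
      cases S <;> cases S' <;> simp_all
    have e4 : T = T' := by
      cases T <;> cases T' <;> simp_all
    subst e3
    subst e4
    rfl

theorem le_iff {s t : Pt α} : s ≤ t ↔ s.F ⊆ t.F ∧ s.G ⊆ t.G ∧ (s.S = true → t.S = true) ∧
    (s.T = true → t.T = true) := Iff.rfl

end Pt

variable {α : Type} [Fintype α] [DecidableEq α]

/-- `e` is a loop -/
def Loo (r : Finset α → ℕ) (e : α) : Prop := r {e} = 0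

/-- `e` is a coloop -/
def Clo (r : Finset α → ℕ) (e : α) : Prop := r (univ.erase e) ≠ r univ

open Classical in
/-- the virtual bottom (left, no cyclic set, the loops) -/
noncomputable def bot (r : Finset α → ℕ) : Pt α := ⟨univ.filter (Loo r), ∅, false, false⟩

open Classical in
/-- the virtual top (right, all non-coloops) -/
noncomputable def top (r : Finset α → ℕ) : Pt α := ⟨univ, univ.filter (fun e => ¬ Clo r e), true, true⟩

/-- extended states (including the virtual bottom and the virtual top) -/
structure Ex0 (r : Finset α → ℕ) (s : Pt α) : Prop where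
  flat : ∀ e, e ∉ s.F → r (insert e s.F) = r s.F + 1
  cyc : ∀ e ∈ s.G, r (s.G.erase e) = r s.G
  GF : s.G ⊆ s.F
  GS : s.G.Nonempty → s.S = true
  TS : s.T = true → s.S = true
  TF : s.T = true → s.F = univ

/-- states (the vertices of the complex) -/
structure Sta (r : Finset α → ℕ) (s : Pt α) : Prop where
  ex : Ex0 r s
  nb : s ≠ bot r
  nt : s ≠ top r

/-- the height: rank of the flat + nullity of the cyclic set + window start + window end;
extended states have heights `0, ..., n + 2`, states `1, ..., n + 1` -/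
def ht (r : Finset α → ℕ) (s : Pt α) : ℕ :=
  r s.F + (s.G.card - r s.G) + (if s.S = true then 1 else 0) + (if s.T = true then 1 else 0)

/-- `i` is not open at `s`: open means opened (`i ∈ F` and the window has started) and not closed
(closed: `i ∈ G` or the window has ended) -/
def Nop (i : α) (s : Pt α) : Prop := i ∈ s.F → s.S = true → i ∈ s.G ∨ s.T = true

/-- chains of states -/
def Chn (r : Finset α → ℕ) (ρ : Finset (Pt α)) : Prop :=
  (∀ s ∈ ρ, Sta r s) ∧ ∀ s ∈ ρ, ∀ t ∈ ρ, s ≤ t ∨ t ≤ s

/-- faces: chains of states such that some element is never open -/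
def Fc (r : Finset α → ℕ) (ρ : Finset (Pt α)) : Prop :=
  Chn r ρ ∧ (ρ = ∅ ∨ ∃ i, ∀ s ∈ ρ, Nop i s)

/-- parameters -/
structure Win (al be : ℝ) : Prop where
  a0 : 0 < al
  b0 : 0 < be
  ab : al + be < 1

/-- the function `v_i`: `-[i ∈ F]` on the left, `[i ∉ F] - al` in the middle, `0` on the right -/
noncomputable def vv (al : ℝ) (i : α) (s : Pt α) : ℝ :=
  (if i ∈ s.F then 0 else 1) - 1 + (if s.S = true then 1 - al else 0) +
    (if s.T = true then al else 0)

/-- the function `z_i`: `0` on the left, `[i ∈ G] - be` in the middle, `-[i ∉ G]` on the right -/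
noncomputable def zz (be : ℝ) (i : α) (s : Pt α) : ℝ :=
  (if i ∈ s.G then 1 else 0) - (if s.S = true then be else 0) - (if s.T = true then 1 - be else 0)

/-- the linear functions -/
noncomputable def Lin (r : Finset α → ℕ) (al be : ℝ) : Submodule ℝ (Pt α → ℝ) :=
  Submodule.span ℝ ({l | ∃ i, ¬ Loo r i ∧ l = vv al i} ∪ {l | ∃ i, ¬ Clo r i ∧ l = zz be i})

/-- the function `Xi`: `xi = 1 - al - be` in the middle, `0` on the left and on the right -/
noncomputable def Xi (al be : ℝ) (s : Pt α) : ℝ :=
  if s.S = true ∧ s.T = false then 1 - al - be else 0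

open Classical in
/-- `kappa` of the opener in the double step of a facet: `1` (window start) or `1 - al` (flat) -/
noncomputable def kop (al : ℝ) (ρ : Finset (Pt α)) : ℝ :=
  if ρ = ∅ ∨ ∃ i, ∀ s ∈ ρ, s.S = true → i ∈ s.G ∨ s.T = true then 1 else 1 - al

open Classical in
/-- `kappa` of the closer in the double step of a facet: `0` (window end) or `be` (cyclic set) -/
noncomputable def kcl (be : ℝ) (ρ : Finset (Pt α)) : ℝ :=
  if ρ = ∅ ∨ ∃ i, ∀ s ∈ ρ, s.T = false → i ∉ s.F ∨ s.S = false then 0 else be

open Classical in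
/-- the top weight -/
noncomputable def tw (r : Finset α → ℕ) (al be : ℝ) (ρ : Finset (Pt α)) : ℝ :=
  if Fc r ρ ∧ ρ.card = Fintype.card α then (kop al ρ - kcl be ρ)⁻¹ else 0

/-- the linear functions take arbitrary values on every face -/
def Sep (r : Finset α → ℕ) (al be : ℝ) : Prop := ∀ ρ, Fc r ρ → ∀ f : Pt α → ℝ,
  ∃ l ∈ Lin r al be, ∀ u ∈ ρ, l u = f u

/-- the complex of states -/
noncomputable def cx (r : Finset α → ℕ) (al be : ℝ) (hs : Sep r al be) : Cx (Pt α) where
  L := Lin r al be
  F := Fc r
  empty := ⟨⟨by simp, by simp⟩, Or.inl rfl⟩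
  down := by
    intro σ ρ hρ hσ
    refine ⟨⟨fun s hs => hσ.1.1 s (hρ hs), fun s hs t ht => hσ.1.2 s (hρ hs) t (hρ ht)⟩, ?_⟩
    rcases hσ.2 with h | ⟨i, hi⟩
    · left
      rw [h] at hρ
      exact Finset.subset_empty.1 hρ
    · exact Or.inr ⟨i, fun s hs => hi s (hρ hs)⟩
  sep := hs

/-! ## The statements -/

/-- (SEP) -/
def Stmt_SEP : Prop := ∀ (α : Type) [Fintype α] [DecidableEq α] (r : Finset α → ℕ) (al be : ℝ),
  IsRank r → Win al be → Sep r al be

/-- (TOP): balanced, positive, pure of dimension `n = |α|` -/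
def Stmt_TOP : Prop := ∀ (α : Type) [Fintype α] [DecidableEq α] (r : Finset α → ℕ) (al be : ℝ)
  (hs : Sep r al be), IsRank r → Win al be → Top (cx r al be hs) (Fintype.card α) (tw r al be)

/-- (CONN) -/
def Stmt_CONN : Prop := ∀ (α : Type) [Fintype α] [DecidableEq α] (r : Finset α → ℕ) (al be : ℝ)
  (hs : Sep r al be), IsRank r → Win al be → LinkConn (cx r al be hs) (Fintype.card α)

/-- (QUAD) -/
def Stmt_QUAD : Prop := ∀ (α : Type) [Fintype α] [DecidableEq α] (r : Finset α → ℕ) (al be : ℝ)
  (hs : Sep r al be), IsRank r → Win al be →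
    LinkQuad (cx r al be hs) (Fintype.card α) (tw r al be)

/-- (AMP) -/
def Stmt_AMP : Prop := ∀ (α : Type) [Fintype α] [DecidableEq α] (r : Finset α → ℕ) (al be : ℝ)
  (hs : Sep r al be), IsRank r → Win al be → ∃ a, Amp (cx r al be hs) a

/-- (NEF) -/
def Stmt_NEF : Prop := ∀ (α : Type) [Fintype α] [DecidableEq α] (r : Finset α → ℕ) (al be : ℝ)
  (hs : Sep r al be), IsRank r → Win al be → Nef (cx r al be hs) (Xi al be)

end Pool.Agent.QPR
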