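import Pool.Agent.QPR.St

/-!
# The complex of states: auxiliary definitions (helper86)
-/

set_option autoImplicit false

open Finset

namespace Pool.Agent.QPR

variable {α : Type} [Fintype α] [DecidableEq α]

/-- `F` is a flat -/
def IsFl (r : Finset α → ℕ) (F : Finset α) : Prop := ∀ e, e ∉ F → r (insert e F) = r F + 1

/-- `G` is cyclic (a union of circuits) -/
def IsCy (r : Finset α → ℕ) (G : Finset α) : Prop := ∀ e ∈ G, r (G.erase e) = r G

/-- closure -/
def clo (r : Finset α → ℕ) (A : Finset α) : Finset α := univ.filter (fun e => r (insert e A) = r A)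

/-- cyclic part -/
def cyp (r : Finset α → ℕ) (A : Finset α) : Finset α := A.filter (fun e => r (A.erase e) = r A)

/-- nullity -/
def nu (r : Finset α → ℕ) (A : Finset α) : ℕ := A.card - r A

/-- the dual rank function -/
def dual (r : Finset α → ℕ) (A : Finset α) : ℕ := A.card + r Aᶜ - r univ

/-- the dual point -/
def du (s : Pt α) : Pt α := ⟨s.Gᶜ, s.Fᶜ, !s.T, !s.S⟩

/-- `i` is critical between `a` and `b`: unopened at `a`, closed at `b` -/
def Cri (a b : Pt α) (i : α) : Prop := ¬ (i ∈ a.F ∧ a.S = true) ∧ (i ∈ b.G ∨ b.T = true)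

/-- a chain together with the virtual bottom and the virtual top -/
noncomputable def hat (r : Finset α → ℕ) (ρ : Finset (Pt α)) : Finset (Pt α) :=
  insert (bot r) (insert (top r) ρ)

/-- consecutive elements of `hat r ρ` -/
structure Gp (r : Finset α → ℕ) (ρ : Finset (Pt α)) (a b : Pt α) : Prop where
  ha : a ∈ hat r ρ
  hb : b ∈ hat r ρ
  lt : a < b
  sep : ∀ s ∈ hat r ρ, s ≤ a ∨ b ≤ s

open Classical in
/-- the extended states strictly between `a` and `b` -/
noncomputable def mid (r : Finset α → ℕ) (a b : Pt α) : Finset (Pt α) :=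
  univ.filter (fun p => Ex0 r p ∧ a < p ∧ p < b)

/-- the number of components which are different -/
def ncc (a b : Pt α) : ℕ := (if a.F = b.F then 0 else 1) + (if a.G = b.G then 0 else 1) +
  (if a.S = b.S then 0 else 1) + (if a.T = b.T then 0 else 1)

/-- `kappa` of a step (exactly one component is different) -/
noncomputable def kap (al be : ℝ) (a b : Pt α) : ℝ :=
  if a.S ≠ b.S then 1 else if a.F ≠ b.F then 1 - al else if a.G ≠ b.G then be else 0

/-- the set of the missing heights of a chain -/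
def miss (r : Finset α → ℕ) (ρ : Finset (Pt α)) : Finset ℕ :=
  (Icc 1 (Fintype.card α + 1)).filter (fun t => ∀ s ∈ ρ, ht r s ≠ t)

/-- the missing ranks -/
noncomputable def mF (r : Finset α → ℕ) (ρ : Finset (Pt α)) : Finset ℕ :=
  (Icc 1 (r univ)).filter (fun t => ∀ s ∈ hat r ρ, r s.F ≠ t)

/-- the missing nullities -/
noncomputable def mG (r : Finset α → ℕ) (ρ : Finset (Pt α)) : Finset ℕ :=
  (Icc 1 (nu r (univ : Finset α))).filter (fun t => ∀ s ∈ hat r ρ, nu r s.G ≠ t)

/-- coordinates of a linear function: `l s = Σ_{i ∈ F} φ i + Σ_{i ∈ G} γ i + σ [S] + τ [T]` -/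
structure Dec (r : Finset α → ℕ) (al be : ℝ) (l : Pt α → ℝ) (φ γ : α → ℝ) (σ τ : ℝ) : Prop where
  val : ∀ s : Pt α, l s = ∑ i ∈ s.F, φ i + ∑ i ∈ s.G, γ i + (if s.S = true then σ else 0) +
    (if s.T = true then τ else 0)
  lo : ∀ i, Loo r i → φ i = 0
  co : ∀ i, Clo r i → γ i = 0
  tot : ∑ i, φ i + ∑ i, γ i + σ + τ = 0
  pot : (1 - al) * ∑ i, φ i + be * ∑ i, γ i + σ = 0

/-- the potential: along a step `a → b` it changes by `kap a b * (l b - l a)`; it has the same value
at `bot` and at `top` -/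
noncomputable def psi (al be : ℝ) (φ γ : α → ℝ) (σ : ℝ) (s : Pt α) : ℝ :=
  (1 - al) * ∑ i ∈ s.F, φ i + be * ∑ i ∈ s.G, γ i + (if s.S = true then σ else 0)

/-- link vertices of a face -/
def Lkv (r : Finset α → ℕ) (ρ : Finset (Pt α)) (u : Pt α) : Prop := u ∉ ρ ∧ Fc r (insert u ρ)

/-- the data of the sign criterion at a face with `n - 2` elements -/
def QD (r : Finset α → ℕ) (al be : ℝ) (ρ : Finset (Pt α)) : Prop :=
  ∃ (Z : Finset (Pt α)) (h : Pt α → ℝ), (∀ u ∈ Z, Lkv r ρ u ∧ h u = 0) ∧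
    (∃ μ : Pt α → ℝ, ∀ f : Pt α → ℝ, ∑ u ∈ Z, μ u * f u = 0 →
      ∃ l ∈ Lin r al be, (∀ s ∈ ρ, l s = 0) ∧ ∀ u ∈ Z, l u = f u) ∧
    ∀ u, Lkv r ρ u → u ∉ Z → 0 < h u ∧ ∃ l ∈ Lin r al be, (∀ s ∈ ρ, l s = 0) ∧ l u = h u ∧
      ∀ v, Lkv r ρ v → v ≠ u → Fc r (insert v (insert u ρ)) → h v ≤ l v

end Pool.Agent.QPR
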