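import Mathlib

/-!
# Intervals in the poset of states, abstractly (helper20)

MP_9c4433_lc, part (1). A state is a pair `(X, Y)`: `X` in a geometric lattice (opened things), `Y`
in another geometric lattice (things not yet closed), with a compatibility relation `cp X Y`.
`(X, Y) ≤ (X', Y')` iff `X ≤ X'` and `Y' ≤ Y`. The index `i` is open at `(X, Y)` iff `op i X` and
`op' i Y`. A gap is an interval from `(X0, Y0)` to `(X1, Y1)`.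
-/

set_option autoImplicit false

namespace Pool.Agent.QPR.Lat

/-- the properties of the lattice of flats which are needed -/
structure Geo {Λ ι : Type} [PartialOrder Λ] (fl : Λ → Prop) (rk : Λ → ℕ) (op : ι → Λ → Prop) :
    Prop where
  mono : ∀ {X Y : Λ}, fl X → fl Y → X < Y → rk X < rk Y
  ato : ∀ {X L Y : Λ}, fl X → fl L → fl Y → X ≤ L → L < Y →
    ∃ C, fl C ∧ X < C ∧ C ≤ Y ∧ rk C = rk X + 1 ∧ ¬ C ≤ L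
  join : ∀ {X A B Y : Λ}, fl X → fl A → fl B → fl Y → X < A → X < B → A ≤ Y → B ≤ Y →
    rk A = rk X + 1 → rk B = rk X + 1 → A ≠ B → ∃ L, fl L ∧ L ≤ Y ∧ A ≤ L ∧ B ≤ L ∧ rk L = rk X + 2
  op_mono : ∀ {X Y : Λ} (i : ι), X ≤ Y → op i X → op i Y
  op_meet : ∀ {A L L' : Λ} (i : ι), fl A → fl L → fl L' → A ≤ L → A ≤ L' → rk L = rk A + 1 →
    rk L' = rk A + 1 → L ≠ L' → op i L → op i L' → op i A

namespace Geo

variable {Λ ι : Type} [PartialOrder Λ] {fl : Λ → Prop} {rk : Λ → ℕ} {op : ι → Λ → Prop}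

theorem mono_le (g : Geo fl rk op) {X Y : Λ} (hX : fl X) (hY : fl Y) (h : X ≤ Y) :
    rk X ≤ rk Y := by
  rcases eq_or_lt_of_le h with rfl | h
  · exact le_refl _
  · exact (g.mono hX hY h).le

theorem eq_of_rk (g : Geo fl rk op) {X Y : Λ} (hX : fl X) (hY : fl Y) (h : X ≤ Y)
    (hr : rk Y ≤ rk X) : X = Y := by
  rcases eq_or_lt_of_le h with h | h
  · exact h
  · exact absurd (g.mono hX hY h) (not_lt.2 hr)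

theorem lt_of_rk (g : Geo fl rk op) {X Y : Λ} (h : X ≤ Y) (hr : rk X < rk Y) : X < Y := by
  rcases eq_or_lt_of_le h with rfl | h
  · exact absurd hr (lt_irrefl _)
  · exact h

theorem cov (g : Geo fl rk op) {X Y : Λ} (hX : fl X) (hY : fl Y) (h : X < Y) :
    ∃ C, fl C ∧ X < C ∧ C ≤ Y ∧ rk C = rk X + 1 := by
  obtain ⟨C, h1, h2, h3, h4, -⟩ := g.ato hX hX hY le_rfl h
  exact ⟨C, h1, h2, h3, h4⟩

/-- an atom of an interval of rank at least two which does not open `i` -/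
theorem avoid (g : Geo fl rk op) {X Y : Λ} (hX : fl X) (hY : fl Y) (h : X ≤ Y)
    (hr : rk X + 2 ≤ rk Y) {i : ι} (hi : ¬ op i X) :
    ∃ A, fl A ∧ X < A ∧ A ≤ Y ∧ rk A = rk X + 1 ∧ ¬ op i A := by
  have hlt : X < Y := g.lt_of_rk h (by omega)
  obtain ⟨A, a1, a2, a3, a4⟩ := g.cov hX hY hlt
  by_cases hA : op i A
  · obtain ⟨B, b1, b2, b3, b4, b5⟩ := g.ato hX a1 hY a2.le (g.lt_of_rk a3 (by omega))
    refine ⟨B, b1, b2, b3, b4, fun hB => hi ?_⟩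
    refine g.op_meet i hX a1 b1 a2.le b2.le a4 b4 ?_ hA hB
    rintro rfl
    exact b5 le_rfl
  · exact ⟨A, a1, a2, a3, a4, hA⟩

/-- go up to rank at least two -/
theorem up2 (g : Geo fl rk op) {X0 X X1 : Λ} (h0 : fl X0) (hX : fl X) (h1 : fl X1) (h : X0 ≤ X)
    (h' : X ≤ X1) (hr : rk X0 + 2 ≤ rk X1) :
    ∃ X2, fl X2 ∧ X ≤ X2 ∧ X2 ≤ X1 ∧ rk X0 + 2 ≤ rk X2 ∧ (X2 = X ∨ rk X2 = rk X0 + 2) := by
  by_cases h2 : rk X0 + 2 ≤ rk X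
  · exact ⟨X, hX, le_rfl, h', h2, Or.inl rfl⟩
  · have h3 := g.mono_le h0 hX h
    obtain ⟨A, a1, a2, a3, a4⟩ := g.cov hX h1 (g.lt_of_rk h' (by omega))
    by_cases h5 : rk X = rk X0 + 1
    · exact ⟨A, a1, a2.le, a3, by omega, Or.inr (by omega)⟩
    · obtain ⟨B, b1, b2, b3, b4⟩ := g.cov a1 h1 (g.lt_of_rk a3 (by omega))
      exact ⟨B, b1, a2.le.trans b2.le, b3, by omega, Or.inr (by omega)⟩

end Geo

/-- the data of both lattices -/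
structure Bi {Λ Λ' ι : Type} [PartialOrder Λ] [PartialOrder Λ'] (fl : Λ → Prop) (rk : Λ → ℕ)
    (op : ι → Λ → Prop) (fl' : Λ' → Prop) (rk' : Λ' → ℕ) (op' : ι → Λ' → Prop)
    (cp : Λ → Λ' → Prop) : Prop where
  g : Geo fl rk op
  g' : Geo fl' rk' op'
  cm : ∀ {X X' : Λ} {Y Y' : Λ'}, cp X Y → X ≤ X' → Y ≤ Y' → cp X' Y'

/-- a gap -/
structure Gp {Λ Λ' : Type} [PartialOrder Λ] [PartialOrder Λ'] (fl : Λ → Prop)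
    (fl' : Λ' → Prop) (cp : Λ → Λ' → Prop) (X0 X1 : Λ) (Y0 Y1 : Λ') : Prop where
  f0 : fl X0
  f1 : fl X1
  g0 : fl' Y0
  g1 : fl' Y1
  hX : X0 ≤ X1
  hY : Y1 ≤ Y0
  c0 : cp X0 Y0
  c1 : cp X1 Y1

/-- the states in a gap -/
structure Ig {Λ Λ' : Type} [PartialOrder Λ] [PartialOrder Λ'] (fl : Λ → Prop)
    (fl' : Λ' → Prop) (cp : Λ → Λ' → Prop) (X0 X1 : Λ) (Y0 Y1 : Λ') (X : Λ) (Y : Λ') : Prop where
  f : fl X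
  f' : fl' Y
  a0 : X0 ≤ X
  a1 : X ≤ X1
  b1 : Y1 ≤ Y
  b0 : Y ≤ Y0
  c : cp X Y
  n0 : ¬ (X = X0 ∧ Y = Y0)
  n1 : ¬ (X = X1 ∧ Y = Y1)

section

variable {Λ Λ' ι : Type} [PartialOrder Λ] [PartialOrder Λ'] {fl : Λ → Prop} {rk : Λ → ℕ}
  {op : ι → Λ → Prop} {fl' : Λ' → Prop} {rk' : Λ' → ℕ} {op' : ι → Λ' → Prop}
  {cp : Λ → Λ' → Prop} {X0 X1 : Λ} {Y0 Y1 : Λ'}

theorem Bi.swap (b : Bi fl rk op fl' rk' op' cp) :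
    Bi fl' rk' op' fl rk op (fun Y X => cp X Y) :=
  ⟨b.g', b.g, fun h1 h2 h3 => b.cm h1 h3 h2⟩

theorem Gp.swap (h : Gp fl fl' cp X0 X1 Y0 Y1) :
    Gp fl' fl (fun Y X => cp X Y) Y1 Y0 X1 X0 :=
  ⟨h.g1, h.g0, h.f1, h.f0, h.hY, h.hX, h.c1, h.c0⟩

theorem Ig.swap {X : Λ} {Y : Λ'} (h : Ig fl fl' cp X0 X1 Y0 Y1 X Y) :
    Ig fl' fl (fun Y X => cp X Y) Y1 Y0 X1 X0 Y X :=
  ⟨h.f', h.f, h.b1, h.b0, h.a0, h.a1, h.c, fun e => h.n1 ⟨e.2, e.1⟩, fun e => h.n0 ⟨e.2, e.1⟩⟩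

/-- a gap with at least two steps contains a state -/
theorem gap_ex (b : Bi fl rk op fl' rk' op' cp) (h : Gp fl fl' cp X0 X1 Y0 Y1)
    (hD : rk X0 + rk' Y1 + 2 ≤ rk X1 + rk' Y0) : ∃ X Y, Ig fl fl' cp X0 X1 Y0 Y1 X Y := by
  rcases eq_or_lt_of_le h.hX with e | e
  · have h2 : rk' Y1 < rk' Y0 := by
      rw [e] at hD
      omega
    obtain ⟨B, b1, b2, b3, b4⟩ := b.g'.cov h.g1 h.g0 (b.g'.lt_of_rk h.hY h2)
    refine ⟨X1, B, h.f1, b1, h.hX, le_rfl, b2.le, b3, b.cm h.c1 le_rfl b2.le, ?_, ?_⟩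
    · rintro ⟨-, rfl⟩
      rw [e] at hD
      omega
    · rintro ⟨-, rfl⟩
      exact lt_irrefl _ b2
  · obtain ⟨A, a1, a2, a3, a4⟩ := b.g.cov h.f0 h.f1 e
    refine ⟨A, Y0, a1, h.g0, a2.le, a3, h.hY, le_rfl, b.cm h.c0 a2.le le_rfl, ?_, ?_⟩
    · rintro ⟨rfl, -⟩
      exact lt_irrefl _ a2
    · rintro ⟨rfl, rfl⟩
      omega

/-- (G2), first half: in a gap with at least two opening steps every state is connected to a state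
at which the critical index `i` is not open -/
theorem gap_no_aux (b : Bi fl rk op fl' rk' op' cp) (h : Gp fl fl' cp X0 X1 Y0 Y1)
    (hD : rk X0 + 2 ≤ rk X1) {i : ι} (hi : ¬ op i X0) (hi' : ¬ op' i Y1) {z : Λ → Λ' → ℝ}
    (hz : ∀ X Y X' Y', Ig fl fl' cp X0 X1 Y0 Y1 X Y → Ig fl fl' cp X0 X1 Y0 Y1 X' Y' → X ≤ X' →
      Y' ≤ Y → z X Y = z X' Y') {X : Λ} {Y : Λ'} (hXY : Ig fl fl' cp X0 X1 Y0 Y1 X Y) :
    ∃ X' Y', Ig fl fl' cp X0 X1 Y0 Y1 X' Y' ∧ (¬ op i X' ∨ ¬ op' i Y') ∧ z X Y = z X' Y' := by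
  by_cases hn : ¬ op i X ∨ ¬ op' i Y
  · exact ⟨X, Y, hXY, hn, rfl⟩
  · push_neg at hn
    have hY1 : Y ≠ Y1 := by
      rintro rfl
      exact hi' hn.2
    obtain ⟨X2, c1, c2, c3, c4, -⟩ := b.g.up2 h.f0 hXY.f h.f1 hXY.a0 hXY.a1 hD
    obtain ⟨A, a1, a2, a3, a4, a5⟩ := b.g.avoid h.f0 c1 (hXY.a0.trans c2) c4 hi
    have k1 : Ig fl fl' cp X0 X1 Y0 Y1 X2 Y := by
      refine ⟨c1, hXY.f', hXY.a0.trans c2, c3, hXY.b1, hXY.b0, b.cm hXY.c c2 le_rfl, ?_, ?_⟩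
      · rintro ⟨rfl, -⟩
        omega
      · rintro ⟨-, e⟩
        exact hY1 e
    have k2 : Ig fl fl' cp X0 X1 Y0 Y1 A Y0 := by
      refine ⟨a1, h.g0, a2.le, a3.trans c3, h.hY, le_rfl, b.cm h.c0 a2.le le_rfl, ?_, ?_⟩
      · rintro ⟨rfl, -⟩
        exact lt_irrefl _ a2
      · rintro ⟨-, e⟩
        exact hY1 (le_antisymm (e ▸ hXY.b0) hXY.b1)
    refine ⟨A, Y0, k2, Or.inl a5, ?_⟩
    rw [hz X Y X2 Y hXY k1 c2 le_rfl, hz A Y0 X2 Y k2 k1 a3 hXY.b0]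

/-- (G2) in a gap with at least three steps every state is connected to a state at which the
critical index `i` is not open -/
theorem gap_no (b : Bi fl rk op fl' rk' op' cp) (h : Gp fl fl' cp X0 X1 Y0 Y1)
    (hD : rk X0 + rk' Y1 + 3 ≤ rk X1 + rk' Y0) {i : ι} (hi : ¬ op i X0) (hi' : ¬ op' i Y1)
    {z : Λ → Λ' → ℝ}
    (hz : ∀ X Y X' Y', Ig fl fl' cp X0 X1 Y0 Y1 X Y → Ig fl fl' cp X0 X1 Y0 Y1 X' Y' → X ≤ X' →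
      Y' ≤ Y → z X Y = z X' Y') {X : Λ} {Y : Λ'} (hXY : Ig fl fl' cp X0 X1 Y0 Y1 X Y) :
    ∃ X' Y', Ig fl fl' cp X0 X1 Y0 Y1 X' Y' ∧ (¬ op i X' ∨ ¬ op' i Y') ∧ z X Y = z X' Y' := by
  by_cases h2 : rk X0 + 2 ≤ rk X1
  · exact gap_no_aux b h h2 hi hi' hz hXY
  · have h3 : rk' Y1 + 2 ≤ rk' Y0 := by omega
    obtain ⟨Y', X', k1, k2, k3⟩ := gap_no_aux (z := fun Y X => z X Y) b.swap h.swap h3 hi' hi
      (fun Y X Y' X' hs hs' e1 e2 => (hz X' Y' X Y hs'.swap hs.swap e2 e1).symm) hXY.swap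
    exact ⟨X', Y', k1.swap, k2.symm, k3⟩

/-- (G3), only opening steps -/
theorem gap_flat (b : Bi fl rk op fl' rk' op' cp) (h : Gp fl fl' cp X0 X1 Y0 Y1) (hY : Y0 = Y1)
    (hD : rk X0 + 3 ≤ rk X1) {z : Λ → Λ' → ℝ}
    (hz : ∀ X Y X' Y', Ig fl fl' cp X0 X1 Y0 Y1 X Y → Ig fl fl' cp X0 X1 Y0 Y1 X' Y' → X ≤ X' →
      Y' ≤ Y → z X Y = z X' Y') {X X' : Λ} {Y Y' : Λ'} (hXY : Ig fl fl' cp X0 X1 Y0 Y1 X Y)
    (hXY' : Ig fl fl' cp X0 X1 Y0 Y1 X' Y') : z X Y = z X' Y' := by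
  subst hY
  have ey : ∀ {X : Λ} {Y : Λ'}, Ig fl fl' cp X0 X1 Y0 Y0 X Y → Y = Y0 :=
    fun k => le_antisymm k.b0 k.b1
  have hI : ∀ A, fl A → X0 ≤ A → A ≤ X1 → rk X0 < rk A → rk A < rk X1 →
      Ig fl fl' cp X0 X1 Y0 Y0 A Y0 := by
    intro A h1 h2 h3 h4 h5
    refine ⟨h1, h.g0, h2, h3, le_rfl, le_rfl, b.cm h.c0 h2 le_rfl, ?_, ?_⟩
    · rintro ⟨rfl, -⟩
      exact lt_irrefl _ h4
    · rintro ⟨rfl, -⟩
      exact lt_irrefl _ h5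
  have down : ∀ {X : Λ} {Y : Λ'}, Ig fl fl' cp X0 X1 Y0 Y0 X Y → ∃ A, fl A ∧ X0 < A ∧ A ≤ X1 ∧
      rk A = rk X0 + 1 ∧ z X Y = z A Y0 := by
    intro X Y k
    have e := ey k
    subst e
    have hne : X0 < X := lt_of_le_of_ne k.a0 (fun e => k.n0 ⟨e.symm, rfl⟩)
    obtain ⟨A, a1, a2, a3, a4⟩ := b.g.cov h.f0 k.f hne
    refine ⟨A, a1, a2, a3.trans k.a1, a4, ?_⟩
    exact (hz A Y X Y (hI A a1 a2.le (a3.trans k.a1) (by omega) (by omega)) k a3 le_rfl).symm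
  obtain ⟨A, a1, a2, a3, a4, a5⟩ := down hXY
  obtain ⟨B, b1, b2, b3, b4, b5⟩ := down hXY'
  rw [a5, b5]
  by_cases hAB : A = B
  · rw [hAB]
  · obtain ⟨L, l1, l2, l3, l4, l5⟩ := b.g.join h.f0 a1 b1 h.f1 a2 b2 a3 b3 a4 b4 hAB
    have kL := hI L l1 (a2.le.trans l3) l2 (by omega) (by omega)
    rw [hz A Y0 L Y0 (hI A a1 a2.le a3 (by omega) (by omega)) kL l3 le_rfl,
      hz B Y0 L Y0 (hI B b1 b2.le b3 (by omega) (by omega)) kL l4 le_rfl]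

/-- (G3), both kinds of steps, at least two opening steps -/
theorem gap_box (b : Bi fl rk op fl' rk' op' cp) (h : Gp fl fl' cp X0 X1 Y0 Y1)
    (hbox : cp X0 Y1) (hY : Y0 ≠ Y1)
    (hD : rk X0 + 2 ≤ rk X1) {z : Λ → Λ' → ℝ}
    (hz : ∀ X Y X' Y', Ig fl fl' cp X0 X1 Y0 Y1 X Y → Ig fl fl' cp X0 X1 Y0 Y1 X' Y' → X ≤ X' →
      Y' ≤ Y → z X Y = z X' Y') {X : Λ} {Y : Λ'} (hXY : Ig fl fl' cp X0 X1 Y0 Y1 X Y) :
    z X Y = z X1 Y0 := by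
  have hX : X0 ≠ X1 := by
    rintro rfl
    omega
  have c1 : Ig fl fl' cp X0 X1 Y0 Y1 X1 Y0 :=
    ⟨h.f1, h.g0, h.hX, le_rfl, h.hY, le_rfl, b.cm h.c0 h.hX le_rfl, fun e => hX e.1.symm,
      fun e => hY e.2⟩
  have hI : ∀ X Y, fl X → fl' Y → X0 ≤ X → X ≤ X1 → Y1 ≤ Y → Y ≤ Y0 → X ≠ X0 → X ≠ X1 →
      Ig fl fl' cp X0 X1 Y0 Y1 X Y := fun X Y h1 h2 h3 h4 h5 h6 h7 h8 =>
    ⟨h1, h2, h3, h4, h5, h6, b.cm hbox h3 h5, fun e => h7 e.1, fun e => h8 e.1⟩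
  by_cases h0 : X = X0
  · subst h0
    obtain ⟨A, a1, a2, a3, a4⟩ := b.g.cov h.f0 h.f1 (lt_of_le_of_ne h.hX hX)
    have hA1 : A ≠ X1 := by
      rintro rfl
      omega
    have kA := hI A Y a1 hXY.f' a2.le a3 hXY.b1 hXY.b0 a2.ne' hA1
    have kA0 := hI A Y0 a1 h.g0 a2.le a3 h.hY le_rfl a2.ne' hA1
    rw [hz X Y A Y hXY kA a2.le le_rfl, ← hz A Y0 A Y kA0 kA le_rfl hXY.b0,
      hz A Y0 X1 Y0 kA0 c1 a3 le_rfl]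
  · have k0 : Ig fl fl' cp X0 X1 Y0 Y1 X Y0 :=
      ⟨hXY.f, h.g0, hXY.a0, hXY.a1, h.hY, le_rfl, b.cm h.c0 hXY.a0 le_rfl, fun e => h0 e.1,
        fun e => hY e.2⟩
    rw [← hz X Y0 X Y k0 hXY le_rfl hXY.b0, hz X Y0 X1 Y0 k0 c1 hXY.a1 le_rfl]

/-- (G3) a gap without critical index with at least three steps is connected -/
theorem gap_conn (b : Bi fl rk op fl' rk' op' cp) (h : Gp fl fl' cp X0 X1 Y0 Y1)
    (hbox : cp X0 Y1) (hD : rk X0 + rk' Y1 + 3 ≤ rk X1 + rk' Y0) {z : Λ → Λ' → ℝ}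
    (hz : ∀ X Y X' Y', Ig fl fl' cp X0 X1 Y0 Y1 X Y → Ig fl fl' cp X0 X1 Y0 Y1 X' Y' → X ≤ X' →
      Y' ≤ Y → z X Y = z X' Y') {X X' : Λ} {Y Y' : Λ'} (hXY : Ig fl fl' cp X0 X1 Y0 Y1 X Y)
    (hXY' : Ig fl fl' cp X0 X1 Y0 Y1 X' Y') : z X Y = z X' Y' := by
  have hz' : ∀ Y X Y' X', Ig fl' fl (fun Y X => cp X Y) Y1 Y0 X1 X0 Y X →
      Ig fl' fl (fun Y X => cp X Y) Y1 Y0 X1 X0 Y' X' → Y ≤ Y' → X' ≤ X →
      (fun Y X => z X Y) Y X = (fun Y X => z X Y) Y' X' :=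
    fun Y X Y' X' hs hs' e1 e2 => (hz X' Y' X Y hs'.swap hs.swap e2 e1).symm
  by_cases hY : Y0 = Y1
  · exact gap_flat b h hY (by rw [hY] at hD; omega) hz hXY hXY'
  · by_cases hX : X0 = X1
    · exact gap_flat (z := fun Y X => z X Y) b.swap h.swap hX.symm
        (by rw [hX] at hD; omega) hz' hXY.swap hXY'.swap
    · by_cases h2 : rk X0 + 2 ≤ rk X1
      · rw [gap_box b h hbox hY h2 hz hXY, gap_box b h hbox hY h2 hz hXY']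
      · have h3 : rk' Y1 + 2 ≤ rk' Y0 := by omega
        have k := gap_box (z := fun Y X => z X Y) b.swap h.swap hbox (Ne.symm hX) h3 hz' hXY.swap
        have k' := gap_box (z := fun Y X => z X Y) b.swap h.swap hbox (Ne.symm hX) h3 hz'
          hXY'.swap
        exact k.trans k'.symm

/-- (G4), at least three opening steps -/
theorem gap_crit_aux (b : Bi fl rk op fl' rk' op' cp) (h : Gp fl fl' cp X0 X1 Y0 Y1)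
    (hD : rk X0 + 3 ≤ rk X1) {z : Λ → Λ' → ℝ}
    (hz : ∀ X Y X' Y', Ig fl fl' cp X0 X1 Y0 Y1 X Y → Ig fl fl' cp X0 X1 Y0 Y1 X' Y' → X ≤ X' →
      Y' ≤ Y → (∃ i, (¬ op i X0 ∧ ¬ op' i Y1) ∧ (¬ op i X ∨ ¬ op' i Y) ∧
        (¬ op i X' ∨ ¬ op' i Y')) → z X Y = z X' Y')
    {X X' : Λ} {Y Y' : Λ'} (hXY : Ig fl fl' cp X0 X1 Y0 Y1 X Y)
    (hXY' : Ig fl fl' cp X0 X1 Y0 Y1 X' Y')
    (hn : ∃ i, (¬ op i X0 ∧ ¬ op' i Y1) ∧ (¬ op i X ∨ ¬ op' i Y))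
    (hn' : ∃ i, (¬ op i X0 ∧ ¬ op' i Y1) ∧ (¬ op i X' ∨ ¬ op' i Y')) : z X Y = z X' Y' := by
  have g := b.g
  have hI : ∀ A, fl A → X0 < A → A < X1 → Ig fl fl' cp X0 X1 Y0 Y1 A Y0 := by
    intro A h1 h2 h3
    refine ⟨h1, h.g0, h2.le, h3.le, h.hY, le_rfl, b.cm h.c0 h2.le le_rfl, ?_, ?_⟩
    · rintro ⟨rfl, -⟩
      exact lt_irrefl _ h2
    · rintro ⟨rfl, -⟩
      exact lt_irrefl _ h3
  -- claim 1
  have down : ∀ {X : Λ} {Y : Λ'}, Ig fl fl' cp X0 X1 Y0 Y1 X Y →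
      (∃ i, (¬ op i X0 ∧ ¬ op' i Y1) ∧ (¬ op i X ∨ ¬ op' i Y)) →
      ∃ A, fl A ∧ X0 < A ∧ A ≤ X1 ∧ rk A = rk X0 + 1 ∧
        (∃ i, (¬ op i X0 ∧ ¬ op' i Y1) ∧ ¬ op i A) ∧ z X Y = z A Y0 := by
    rintro X Y k ⟨i, ⟨hi, hi'⟩, hor⟩
    have main : ∀ X2, fl X2 → X ≤ X2 → X2 ≤ X1 → rk X0 + 2 ≤ rk X2 →
        (X2 = X ∨ rk X2 = rk X0 + 2) → ¬ op' i Y → ∃ A, fl A ∧ X0 < A ∧ A ≤ X1 ∧
        rk A = rk X0 + 1 ∧ (∃ i, (¬ op i X0 ∧ ¬ op' i Y1) ∧ ¬ op i A) ∧ z X Y = z A Y0 := by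
      intro X2 c1 c2 c3 c4 c5 hY
      obtain ⟨A, a1, a2, a3, a4, a5⟩ := g.avoid h.f0 c1 (k.a0.trans c2) c4 hi
      have kA := hI A a1 a2 (g.lt_of_rk (a3.trans c3) (by omega))
      have k2 : Ig fl fl' cp X0 X1 Y0 Y1 X2 Y := by
        refine ⟨c1, k.f', k.a0.trans c2, c3, k.b1, k.b0, b.cm k.c c2 le_rfl, ?_, ?_⟩
        · rintro ⟨rfl, -⟩
          omega
        · rintro ⟨e1, e2⟩
          rcases c5 with c5 | c5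
          · exact k.n1 ⟨c5 ▸ e1, e2⟩
          · rw [e1] at c5
            omega
      refine ⟨A, a1, a2, a3.trans c3, a4, ⟨i, ⟨hi, hi'⟩, a5⟩, ?_⟩
      rw [hz X Y X2 Y k k2 c2 le_rfl ⟨i, ⟨hi, hi'⟩, Or.inr hY, Or.inr hY⟩,
        hz A Y0 X2 Y kA k2 a3 k.b0 ⟨i, ⟨hi, hi'⟩, Or.inl a5, Or.inr hY⟩]
    by_cases hX : op i X
    · rcases hor with h1 | hY
      · exact absurd hX h1
      · obtain ⟨X2, c1, c2, c3, c4, c5⟩ := g.up2 h.f0 k.f h.f1 k.a0 k.a1 (by omega)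
        exact main X2 c1 c2 c3 c4 c5 hY
    · by_cases h0 : X = X0
      · obtain ⟨A, a1, a2, a3, a4, a5⟩ := g.avoid h.f0 h.f1 h.hX (by omega) hi
        have hA1 : A < X1 := g.lt_of_rk a3 (by omega)
        have kA := hI A a1 a2 hA1
        have k2 : Ig fl fl' cp X0 X1 Y0 Y1 A Y := by
          refine ⟨a1, k.f', a2.le, a3, k.b1, k.b0, b.cm k.c (h0 ▸ a2.le) le_rfl, ?_, ?_⟩
          · rintro ⟨rfl, -⟩
            exact lt_irrefl _ a2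
          · rintro ⟨rfl, -⟩
            exact lt_irrefl _ hA1
        refine ⟨A, a1, a2, a3, a4, ⟨i, ⟨hi, hi'⟩, a5⟩, ?_⟩
        rw [hz X Y A Y k k2 (h0 ▸ a2.le) le_rfl ⟨i, ⟨hi, hi'⟩, Or.inl hX, Or.inl a5⟩,
          hz A Y0 A Y kA k2 le_rfl k.b0 ⟨i, ⟨hi, hi'⟩, Or.inl a5, Or.inl a5⟩]
      · have h0' : X0 < X := lt_of_le_of_ne k.a0 (Ne.symm h0)
        obtain ⟨A, a1, a2, a3, a4⟩ := g.cov h.f0 k.f h0'
        have hA : ¬ op i A := fun h => hX (g.op_mono i a3 h)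
        have kA := hI A a1 a2 (g.lt_of_rk (a3.trans k.a1) (by omega))
        refine ⟨A, a1, a2, a3.trans k.a1, a4, ⟨i, ⟨hi, hi'⟩, hA⟩, ?_⟩
        rw [hz A Y0 X Y kA k a3 k.b0 ⟨i, ⟨hi, hi'⟩, Or.inl hA, Or.inl hX⟩]
  obtain ⟨A, a1, a2, a3, a4, ⟨i, hic, hiA⟩, a5⟩ := down hXY hn
  obtain ⟨B, b1, b2, b3, b4, ⟨j, hjc, hjB⟩, b5⟩ := down hXY' hn'
  rw [a5, b5]
  have kA := hI A a1 a2 (g.lt_of_rk a3 (by omega))
  have kB := hI B b1 b2 (g.lt_of_rk b3 (by omega))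
  by_cases hAB : A = B
  · rw [hAB]
  obtain ⟨L, l1, l2, l3, l4, l5⟩ := g.join h.f0 a1 b1 h.f1 a2 b2 a3 b3 a4 b4 hAB
  have hL1 : L < X1 := g.lt_of_rk l2 (by omega)
  have kL := hI L l1 (lt_of_lt_of_le a2 l3) hL1
  by_cases hLn : ∃ k, (¬ op k X0 ∧ ¬ op' k Y1) ∧ ¬ op k L
  · obtain ⟨k, hk, hkL⟩ := hLn
    have hkA : ¬ op k A := fun h => hkL (g.op_mono k l3 h)
    have hkB : ¬ op k B := fun h => hkL (g.op_mono k l4 h)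
    rw [hz A Y0 L Y0 kA kL l3 le_rfl ⟨k, hk, Or.inl hkA, Or.inl hkL⟩,
      hz B Y0 L Y0 kB kL l4 le_rfl ⟨k, hk, Or.inl hkB, Or.inl hkL⟩]
  · push_neg at hLn
    obtain ⟨C, c1, c2, c3, c4, c5⟩ := g.ato h.f0 l1 h.f1 (a2.le.trans l3) hL1
    have kC := hI C c1 c2 (g.lt_of_rk c3 (by omega))
    have side : ∀ A, fl A → X0 < A → A ≤ X1 → rk A = rk X0 + 1 → A ≤ L →
        (∃ i, (¬ op i X0 ∧ ¬ op' i Y1) ∧ ¬ op i A) → z A Y0 = z C Y0 := by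
      rintro A a1 a2 a3 a4 l3 ⟨i, hic, hiA⟩
      have kA := hI A a1 a2 (g.lt_of_rk a3 (by omega))
      have hAC : A ≠ C := by
        rintro rfl
        exact c5 l3
      obtain ⟨L1, m1, m2, m3, m4, m5⟩ := g.join h.f0 a1 c1 h.f1 a2 c2 a3 c3 a4 c4 hAC
      have kL1 := hI L1 m1 (lt_of_lt_of_le a2 m3) (g.lt_of_rk m2 (by omega))
      have hL1n : ¬ op i L1 := by
        intro hop
        refine hiA (g.op_meet i a1 l1 m1 l3 m3 (by omega) (by omega) ?_ (hLn i hic) hop)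
        rintro rfl
        exact c5 m4
      have hiC : ¬ op i C := fun h => hL1n (g.op_mono i m4 h)
      rw [hz A Y0 L1 Y0 kA kL1 m3 le_rfl ⟨i, hic, Or.inl hiA, Or.inl hL1n⟩,
        hz C Y0 L1 Y0 kC kL1 m4 le_rfl ⟨i, hic, Or.inl hiC, Or.inl hL1n⟩]
    rw [side A a1 a2 a3 a4 l3 ⟨i, hic, hiA⟩, side B b1 b2 b3 b4 l4 ⟨j, hjc, hjB⟩]

/-- (G4) a single critical gap with at least five steps -/
theorem gap_crit (b : Bi fl rk op fl' rk' op' cp) (h : Gp fl fl' cp X0 X1 Y0 Y1)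
    (hD : rk X0 + rk' Y1 + 5 ≤ rk X1 + rk' Y0) {z : Λ → Λ' → ℝ}
    (hz : ∀ X Y X' Y', Ig fl fl' cp X0 X1 Y0 Y1 X Y → Ig fl fl' cp X0 X1 Y0 Y1 X' Y' → X ≤ X' →
      Y' ≤ Y → (∃ i, (¬ op i X0 ∧ ¬ op' i Y1) ∧ (¬ op i X ∨ ¬ op' i Y) ∧
        (¬ op i X' ∨ ¬ op' i Y')) → z X Y = z X' Y')
    {X X' : Λ} {Y Y' : Λ'} (hXY : Ig fl fl' cp X0 X1 Y0 Y1 X Y)
    (hXY' : Ig fl fl' cp X0 X1 Y0 Y1 X' Y')
    (hn : ∃ i, (¬ op i X0 ∧ ¬ op' i Y1) ∧ (¬ op i X ∨ ¬ op' i Y))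
    (hn' : ∃ i, (¬ op i X0 ∧ ¬ op' i Y1) ∧ (¬ op i X' ∨ ¬ op' i Y')) : z X Y = z X' Y' := by
  by_cases h2 : rk X0 + 3 ≤ rk X1
  · exact gap_crit_aux b h h2 hz hXY hXY' hn hn'
  · have h3 : rk' Y1 + 3 ≤ rk' Y0 := by omega
    refine gap_crit_aux (z := fun Y X => z X Y) b.swap h.swap h3 ?_ hXY.swap hXY'.swap ?_ ?_
    · rintro Y X Y' X' hs hs' e1 e2 ⟨i, ⟨q1, q2⟩, q3, q4⟩
      exact (hz X' Y' X Y hs'.swap hs.swap e2 e1 ⟨i, ⟨q2, q1⟩, q4.symm, q3.symm⟩).symm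
    · obtain ⟨i, ⟨q1, q2⟩, q3⟩ := hn
      exact ⟨i, ⟨q2, q1⟩, q3.symm⟩
    · obtain ⟨i, ⟨q1, q2⟩, q3⟩ := hn'
      exact ⟨i, ⟨q2, q1⟩, q3.symm⟩

end

end Pool.Agent.QPR.Lat
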