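import Pool.Agent.QPR.St
import Pool.Agent.QPR.StGeo

/-!
# The lattice of flats with a flag; the dual rank function (helper20)

MP_9c4433_lc, part (1).
-/

set_option autoImplicit false

open Finset

namespace Pool.Agent.QPR.Lat

section flats

variable {α : Type} [DecidableEq α]

/-- flats with a flag -/
def Fl (r : Finset α → ℕ) (X : Finset α × Bool) : Prop := ∀ e, e ∉ X.1 → r (insert e X.1) = r X.1 + 1

/-- rank plus flag -/
def rkf (r : Finset α → ℕ) (X : Finset α × Bool) : ℕ := r X.1 + (if X.2 = true then 1 else 0)

/-- the element and the flag are both present -/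
def opf (i : α) (X : Finset α × Bool) : Prop := i ∈ X.1 ∧ X.2 = true

theorem le_iff' {X Y : Finset α × Bool} : X ≤ Y ↔ X.1 ⊆ Y.1 ∧ (X.2 = true → Y.2 = true) := by
  constructor
  · intro h
    refine ⟨h.1, fun h' => ?_⟩
    have := h.2
    rw [h'] at this
    exact top_le_iff.1 this
  · rintro ⟨h1, h2⟩
    refine ⟨h1, ?_⟩
    cases hX : X.2
    · exact bot_le
    · rw [h2 hX]

/-- closure -/
def clr (r : Finset α → ℕ) [Fintype α] (A : Finset α) : Finset α :=
  univ.filter (fun e => r (insert e A) = r A)

variable {r : Finset α → ℕ}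

theorem mem_clr [Fintype α] {A : Finset α} {e : α} :
    e ∈ clr r A ↔ r (insert e A) = r A := by
  simp [clr]

theorem sub_clr [Fintype α] (A : Finset α) : A ⊆ clr r A := by
  intro e he
  rw [mem_clr, Finset.insert_eq_self.2 he]

theorem r_union_clr (h : IsRank r) {A B : Finset α} (hB : ∀ e ∈ B, r (insert e A) = r A) :
    r (B ∪ A) = r A := by
  induction B using Finset.induction_on with
  | empty => simp
  | insert e B _ ih =>
    rw [Finset.insert_union]
    rw [h.closure (hB e (Finset.mem_insert_self _ _)) Finset.subset_union_right]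
    exact ih fun e' he' => hB e' (Finset.mem_insert_of_mem he')

theorem r_clr [Fintype α] (h : IsRank r) (A : Finset α) : r (clr r A) = r A := by
  have := r_union_clr h (A := A) (B := clr r A) fun e he => mem_clr.1 he
  rwa [Finset.union_eq_left.2 (sub_clr A)] at this

theorem flat_clr [Fintype α] (h : IsRank r) (A : Finset α) :
    ∀ e, e ∉ clr r A → r (insert e (clr r A)) = r (clr r A) + 1 := by
  intro e he
  rw [mem_clr] at he
  have h1 := h.mono A e
  have h2 := h.le_succ A e
  have h3 : r A < r (insert e A) := lt_of_le_of_ne h1 (Ne.symm he)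
  have h4 := h.mono_subset (Finset.insert_subset_insert e (sub_clr (r := r) A))
  have h5 := h.le_succ (clr r A) e
  rw [r_clr h] at h5 ⊢
  omega

theorem clr_sub [Fintype α] (h : IsRank r) {A F : Finset α} (hAF : A ⊆ F)
    (hF : ∀ e, e ∉ F → r (insert e F) = r F + 1) : clr r A ⊆ F := by
  intro e he
  by_contra hne
  have := h.closure (mem_clr.1 he) hAF
  have := hF e hne
  omega

/-- flats of the same rank -/
theorem flat_eq (h : IsRank r) {F F' : Finset α} (hF : ∀ e, e ∉ F → r (insert e F) = r F + 1)
    (hFF : F ⊆ F') (hr : r F' ≤ r F) : F = F' := by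
  apply Finset.Subset.antisymm hFF
  intro e he
  by_contra hne
  have h1 := hF e hne
  have h2 := h.mono_subset (Finset.insert_subset he hFF)
  omega

theorem geoF [Fintype α] (h : IsRank r) : Geo (Fl r) (rkf r) (opf (α := α)) where
  mono := by
    intro X Y hX hY hlt
    obtain ⟨h1, h2⟩ := le_iff'.1 hlt.le
    have h3 := h.mono_subset h1
    unfold rkf
    by_cases hE : X.1 = Y.1
    · have hne : X.2 ≠ Y.2 := fun e => hlt.ne (Prod.ext hE e)
      rw [hE]
      cases hX2 : X.2
      · cases hY2 : Y.2
        · rw [hX2, hY2] at hne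
          exact absurd rfl hne
        · simp
      · rw [hX2] at hne h2
        exact absurd (h2 rfl).symm hne
    · have h4 : r X.1 < r Y.1 := by
        by_contra hge
        exact hE (flat_eq h hX h1 (not_lt.1 hge))
      cases hX2 : X.2
      · simp only [Bool.false_eq_true, if_false]
        omega
      · rw [h2 hX2]
        simp only [if_true]
        omega
  ato := by
    intro X L Y hX hL hY hXL hLY
    obtain ⟨p1, p2⟩ := le_iff'.1 hXL
    obtain ⟨q1, q2⟩ := le_iff'.1 hLY.le
    by_cases hE : L.1 = Y.1
    · have hne : L.2 ≠ Y.2 := fun e => hLY.ne (Prod.ext hE e)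
      have hL2 : L.2 = false := by
        cases hL2 : L.2
        · rfl
        · rw [hL2] at hne q2
          exact absurd (q2 rfl).symm hne
      have hY2 : Y.2 = true := by
        cases hY2 : Y.2
        · rw [hL2, hY2] at hne
          exact absurd rfl hne
        · rfl
      have hX2 : X.2 = false := by
        cases hX2 : X.2
        · rfl
        · have := p2 hX2
          rw [hL2] at this
          exact absurd this (by simp)
      refine ⟨(X.1, true), hX, ?_, ?_, ?_, ?_⟩
      · refine lt_of_le_of_ne (le_iff'.2 ⟨Finset.Subset.refl _, fun _ => rfl⟩) ?_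
        intro e
        have := congrArg Prod.snd e
        rw [hX2] at this
        exact absurd this (by simp)
      · exact le_iff'.2 ⟨p1.trans q1, fun _ => hY2⟩
      · simp [rkf, hX2]
      · intro hle
        have := (le_iff'.1 hle).2 rfl
        rw [hL2] at this
        exact absurd this (by simp)
    · obtain ⟨e, heY, heL⟩ : ∃ e, e ∈ Y.1 ∧ e ∉ L.1 := by
        by_contra hcon
        push Not at hcon
        exact hE (Finset.Subset.antisymm q1 hcon)
      have heX : e ∉ X.1 := fun h => heL (p1 h)
      have hr : r (clr r (insert e X.1)) = r X.1 + 1 := by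
        rw [r_clr h, hX e heX]
      refine ⟨(clr r (insert e X.1), X.2), flat_clr h _, ?_, ?_, ?_, ?_⟩
      · refine lt_of_le_of_ne (le_iff'.2 ⟨(Finset.subset_insert _ _).trans (sub_clr _),
          fun h => h⟩) ?_
        intro e'
        have := congrArg Prod.fst e'
        simp only at this
        apply heX
        rw [this]
        exact sub_clr _ (Finset.mem_insert_self _ _)
      · exact le_iff'.2 ⟨clr_sub h (Finset.insert_subset heY (p1.trans q1)) hY,
          fun h => q2 (p2 h)⟩
      · simp only [rkf]
        rw [hr]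
        omega
      · intro hle
        exact heL ((le_iff'.1 hle).1 (sub_clr _ (Finset.mem_insert_self _ _)))
  join := by
    intro X A B Y hX hA hB hY hXA hXB hAY hBY rA rB hAB
    obtain ⟨p1, p2⟩ := le_iff'.1 hXA.le
    obtain ⟨q1, q2⟩ := le_iff'.1 hXB.le
    obtain ⟨s1, s2⟩ := le_iff'.1 hAY
    obtain ⟨t1, t2⟩ := le_iff'.1 hBY
    have a1 := h.mono_subset p1
    have b1 := h.mono_subset q1
    unfold rkf at rA rB
    -- the types of atoms
    have tyA : (A.1 = X.1 ∧ A.2 = true ∧ X.2 = false) ∨ (r A.1 = r X.1 + 1 ∧ A.2 = X.2) := by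
      cases hX2 : X.2 <;> cases hA2 : A.2
      · right
        simp only [hX2, hA2, Bool.false_eq_true, if_false] at rA
        exact ⟨by omega, rfl⟩
      · left
        simp only [hX2, hA2, Bool.false_eq_true, if_false, if_true] at rA
        exact ⟨(flat_eq h hX p1 (by omega)).symm, rfl, rfl⟩
      · rw [p2 hX2] at hA2
        exact absurd hA2 (by simp)
      · right
        simp only [hX2, hA2, if_true] at rA
        exact ⟨by omega, rfl⟩
    have tyB : (B.1 = X.1 ∧ B.2 = true ∧ X.2 = false) ∨ (r B.1 = r X.1 + 1 ∧ B.2 = X.2) := by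
      cases hX2 : X.2 <;> cases hB2 : B.2
      · right
        simp only [hX2, hB2, Bool.false_eq_true, if_false] at rB
        exact ⟨by omega, rfl⟩
      · left
        simp only [hX2, hB2, Bool.false_eq_true, if_false, if_true] at rB
        exact ⟨(flat_eq h hX q1 (by omega)).symm, rfl, rfl⟩
      · rw [q2 hX2] at hB2
        exact absurd hB2 (by simp)
      · right
        simp only [hX2, hB2, if_true] at rB
        exact ⟨by omega, rfl⟩
    rcases tyA with ⟨u1, u2, u3⟩ | ⟨u1, u2⟩
    · rcases tyB with ⟨v1, v2, v3⟩ | ⟨v1, v2⟩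
      · exact absurd (Prod.ext (u1.trans v1.symm) (u2.trans v2.symm)) hAB
      · refine ⟨(B.1, true), hB, le_iff'.2 ⟨t1, fun _ => s2 u2⟩,
          le_iff'.2 ⟨by rw [u1]; exact q1, fun _ => rfl⟩,
          le_iff'.2 ⟨Finset.Subset.refl _, fun _ => rfl⟩, ?_⟩
        simp [rkf, v1, u3]
    · rcases tyB with ⟨v1, v2, v3⟩ | ⟨v1, v2⟩
      · refine ⟨(A.1, true), hA, le_iff'.2 ⟨s1, fun _ => t2 v2⟩,
          le_iff'.2 ⟨Finset.Subset.refl _, fun _ => rfl⟩,
          le_iff'.2 ⟨by rw [v1]; exact p1, fun _ => rfl⟩, ?_⟩
        simp [rkf, u1, v3]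
      · have hne : A.1 ≠ B.1 := fun e => hAB (Prod.ext e (u2.trans v2.symm))
        obtain ⟨b, hbB, hbA⟩ : ∃ b, b ∈ B.1 ∧ b ∉ A.1 := by
          by_contra hcon
          push Not at hcon
          exact hne (flat_eq h hB hcon (by omega)).symm
        have hbX : b ∉ X.1 := fun h => hbA (p1 h)
        have hr : r (clr r (insert b A.1)) = r X.1 + 2 := by
          rw [r_clr h, hA b hbA, u1]
        have hsub : B.1 ⊆ clr r (insert b A.1) := by
          have e1 : r (insert b X.1) = r B.1 := by rw [hX b hbX, v1]
          intro e he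
          have e2 : r (insert e (insert b X.1)) = r (insert b X.1) := by
            apply le_antisymm
            · rw [e1]
              exact h.mono_subset (Finset.insert_subset he (Finset.insert_subset hbB q1))
            · exact h.mono _ _
          rw [mem_clr]
          exact h.closure e2 (Finset.insert_subset_insert b p1)
        refine ⟨(clr r (insert b A.1), X.2), flat_clr h _,
          le_iff'.2 ⟨clr_sub h (Finset.insert_subset (t1 hbB) s1) hY, fun hh => s2 (p2 hh)⟩,
          le_iff'.2 ⟨(Finset.subset_insert _ _).trans (sub_clr _), fun hh => u2 ▸ hh⟩,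
          le_iff'.2 ⟨hsub, fun hh => v2 ▸ hh⟩, ?_⟩
        simp only [rkf]
        rw [hr]
        omega
  op_mono := by
    intro X Y i hXY hi
    obtain ⟨p1, p2⟩ := le_iff'.1 hXY
    exact ⟨p1 hi.1, p2 hi.2⟩
  op_meet := by
    intro A L L' i hA hL hL' hAL hAL' rL rL' hne hi hi'
    obtain ⟨p1, p2⟩ := le_iff'.1 hAL
    obtain ⟨q1, q2⟩ := le_iff'.1 hAL'
    have a1 := h.mono_subset p1
    have b1 := h.mono_subset q1
    unfold rkf at rL rL'
    rw [hi.2] at rL
    rw [hi'.2] at rL'
    cases hA2 : A.2
    · simp only [hA2, Bool.false_eq_true, if_false, if_true] at rL rL'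
      have e1 := flat_eq h hA p1 (by omega)
      have e2 := flat_eq h hA q1 (by omega)
      exact absurd (Prod.ext (e1.symm.trans e2) (hi.2.trans hi'.2.symm)) hne
    · refine ⟨?_, hA2⟩
      by_contra hiA
      simp only [hA2, if_true] at rL rL'
      have e0 := hA i hiA
      have key : ∀ F G : Finset α, A.1 ⊆ F → A.1 ⊆ G → i ∈ F → i ∈ G → r F = r A.1 + 1 →
          (∀ e, e ∉ G → r (insert e G) = r G + 1) → F ⊆ G := by
        intro F G f1 g1 f2 g2 f3 g3 e he
        by_contra hne'
        have e2 : r (insert e (insert i A.1)) = r (insert i A.1) := by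
          apply le_antisymm
          · rw [e0, ← f3]
            exact h.mono_subset (Finset.insert_subset he (Finset.insert_subset f2 f1))
          · exact h.mono _ _
        have := h.closure e2 (Finset.insert_subset g2 g1)
        have := g3 e hne'
        omega
      have e1 := key L.1 L'.1 p1 q1 hi.1 hi'.1 (by omega) hL'
      have e2 := key L'.1 L.1 q1 p1 hi'.1 hi.1 (by omega) hL
      exact hne (Prod.ext (Finset.Subset.antisymm e1 e2) (hi.2.trans hi'.2.symm))

end flats

section dual

variable {α : Type} [Fintype α] [DecidableEq α]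

/-- the dual rank function -/
def rd (r : Finset α → ℕ) (A : Finset α) : ℕ := A.card + r Aᶜ - r univ

variable {r : Finset α → ℕ}

theorem rd_add (h : IsRank r) (A : Finset α) : rd r A + r univ = A.card + r Aᶜ := by
  have h1 := h.card_le Aᶜ A
  have h2 : Aᶜ ∪ A = univ := by
    rw [Finset.union_comm]
    exact Finset.union_compl A
  rw [h2] at h1
  unfold rd
  omega

theorem compl_insert_erase (A : Finset α) (e : α) : (insert e A)ᶜ = Aᶜ.erase e := by
  ext x
  simp [Finset.mem_erase, not_or]

theorem rd_insert (h : IsRank r) {A : Finset α} {e : α} (he : e ∉ A) :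
    rd r (insert e A) + r Aᶜ = rd r A + 1 + r (Aᶜ.erase e) := by
  have h1 := rd_add h A
  have h2 := rd_add h (insert e A)
  rw [Finset.card_insert_of_notMem he, compl_insert_erase] at h2
  omega

theorem erase_two (h : IsRank r) (B : Finset α) {e : α} (he : e ∈ B) :
    r (B.erase e) ≤ r B ∧ r B ≤ r (B.erase e) + 1 := by
  have h1 := h.mono (B.erase e) e
  have h2 := h.le_succ (B.erase e) e
  rw [Finset.insert_erase he] at h1 h2
  exact ⟨h1, h2⟩

theorem isRank_rd (h : IsRank r) : IsRank (rd r) where
  empty := by
    have := rd_add h ∅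
    simp only [Finset.card_empty, Finset.compl_empty] at this
    omega
  mono A e := by
    by_cases he : e ∈ A
    · rw [Finset.insert_eq_self.2 he]
    · have h1 := rd_insert h he
      have h2 := (erase_two h Aᶜ (Finset.mem_compl.2 he)).2
      omega
  le_succ A e := by
    by_cases he : e ∈ A
    · rw [Finset.insert_eq_self.2 he]
      omega
    · have h1 := rd_insert h he
      have h2 := (erase_two h Aᶜ (Finset.mem_compl.2 he)).1
      omega
  closed A e f he hf := by
    by_cases heA : e ∈ A
    · rw [Finset.insert_eq_self.2 (Finset.mem_insert_of_mem heA)]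
      exact hf
    by_cases hfA : f ∈ A
    · rw [Finset.insert_eq_self.2 hfA]
      exact he
    by_cases hef : e = f
    · subst hef
      rw [Finset.insert_idem]
      exact he
    have h1 := rd_insert h heA
    have h2 := rd_insert h hfA
    have heC : e ∈ Aᶜ := Finset.mem_compl.2 heA
    have hfC : f ∈ Aᶜ := Finset.mem_compl.2 hfA
    have he' : e ∉ insert f A := by
      rw [Finset.mem_insert, not_or]
      exact ⟨hef, heA⟩
    have h3 := rd_insert h he'
    rw [compl_insert_erase] at h3
    have h4 := erase_two h (Aᶜ.erase f) (Finset.mem_erase.2 ⟨hef, heC⟩)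
    have h5 := erase_two h Aᶜ heC
    have h6 := erase_two h Aᶜ hfC
    -- `r (Aᶜ - e) = r Aᶜ - 1`: `e` is a coloop of `Aᶜ`, hence of `Aᶜ - f`
    have h7 : r (Aᶜ.erase e) < r (insert e (Aᶜ.erase e)) := by
      rw [Finset.insert_erase heC]
      omega
    have h8 := h.coclosure h7 (A := (Aᶜ.erase f).erase e) (by
      intro x hx
      rw [Finset.mem_erase, Finset.mem_erase] at hx
      exact Finset.mem_erase.2 ⟨hx.1, hx.2.2⟩)
    rw [Finset.insert_erase (Finset.mem_erase.2 ⟨hef, heC⟩)] at h8
    omega

theorem rd_univ (h : IsRank r) : rd r univ + r univ = Fintype.card α := by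
  have := rd_add h univ
  rw [Finset.compl_univ, h.empty, Finset.card_univ] at this
  omega

/-- the complement of a cyclic set is a flat of the dual -/
theorem flat_rd_iff (h : IsRank r) (G : Finset α) :
    (∀ e, e ∉ Gᶜ → rd r (insert e Gᶜ) = rd r Gᶜ + 1) ↔ ∀ e ∈ G, r (G.erase e) = r G := by
  constructor
  · intro hd e he
    have he' : e ∉ Gᶜ := by simpa using he
    have h1 := hd e he'
    have h2 := rd_insert h he'
    rw [compl_compl] at h2
    have h3 := erase_two h G he
    omega
  · intro hd e he'
    have he : e ∈ G := by simpa using he'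
    have h1 := hd e he
    have h2 := rd_insert h he'
    rw [compl_compl] at h2
    omega

end dual

end Pool.Agent.QPR.Lat
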