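import Pool.Agent.QPR.St2

/-!
# The complex of states: statements with proofs (helper86)

MP_9c4433_lc, part (1), (II). Each module proves one statement, from the statements named as
hypotheses in its module line (hypothesis style). All statements hold for ALL matroids (loops and
coloops allowed); balancing, purity, CONN and QUAD were checked by machine for all matroids with at
most 5 elements. Vocabulary: `Ex0` extended state, `Sta` state; `i` is OPENED at `s` if `i ∈ s.F` and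
`s.S`; CLOSED if `i ∈ s.G` or `s.T`; for `Ex0 r s` closed implies opened; `Nop i s`: not open, i.e.
unopened or closed.
-/

set_option autoImplicit false

open Finset

namespace Pool.Agent.QPR

/-! ## Layer 0: matroids -/

/-- Flats. Submodularity from the local axioms by induction. `clo r A` is a flat: if
`r (insert f (clo r A)) = r (clo r A)` then (closure property `IsRank.closure`, `r (clo r A) = r A`)
`f` is in the closure of `A`. Exchange and the last three parts from submodularity. -/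
def Stmt_FLA : Prop := ∀ (α : Type) [Fintype α] [DecidableEq α] (r : Finset α → ℕ), IsRank r →
  (∀ A B, r (A ∪ B) + r (A ∩ B) ≤ r A + r B) ∧ (∀ A : Finset α, r A ≤ A.card) ∧
  (∀ A, A ⊆ clo r A ∧ r (clo r A) = r A ∧ IsFl r (clo r A)) ∧
  (∀ A F, IsFl r F → A ⊆ F → clo r A ⊆ F) ∧
  (∀ F F', IsFl r F → F ⊂ F' → r F < r F') ∧
  (∀ F F', IsFl r F → IsFl r F' → IsFl r (F ∩ F')) ∧
  (∀ F e f, IsFl r F → e ∉ F → f ∉ F → f ∈ clo r (insert e F) →
    clo r (insert f F) = clo r (insert e F)) ∧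
  (∀ F F' i, IsFl r F → IsFl r F' → F ⊆ F' → r F + 2 ≤ r F' → i ∉ F →
    ∃ F1, IsFl r F1 ∧ F ⊂ F1 ∧ F1 ⊂ F' ∧ i ∉ F1 ∧ r F1 = r F + 1) ∧
  (∀ F F1 F2, IsFl r F → IsFl r F1 → IsFl r F2 → F ⊆ F1 → F ⊆ F2 → r F1 = r F + 1 →
    r F2 = r F + 1 → F1 ≠ F2 → F1 ∩ F2 = F ∧ r (F1 ∪ F2) = r F + 2) ∧
  IsFl r (univ : Finset α) ∧ IsFl r (bot r).F ∧ r (bot r).F = 0 ∧
  (∀ F, IsFl r F → (bot r).F ⊆ F) ∧ (∀ e, e ∈ (bot r).F ↔ Loo r e)

/-- Duality of rank functions. `dual r A = |A| + r(Aᶜ) - r(E)` is a natural number because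
`r(E) ≤ r(Aᶜ) + |A|` (`IsRank.card_le`). `IsFl (dual r) A` says: for `e ∉ A`, i.e. `e ∈ Aᶜ`,
`|A| + 1 + r(Aᶜ - e) = |A| + r(Aᶜ) + 1`. -/
def Stmt_DU1 : Prop := ∀ (α : Type) [Fintype α] [DecidableEq α] (r : Finset α → ℕ), IsRank r →
  IsRank (dual r) ∧ dual (dual r) = r ∧
  (∀ A : Finset α, IsFl (dual r) A ↔ IsCy r Aᶜ) ∧ (∀ A : Finset α, IsCy (dual r) A ↔ IsFl r Aᶜ) ∧
  (∀ A : Finset α, dual r Aᶜ + nu r A = nu r univ) ∧
  (∀ A : Finset α, nu (dual r) Aᶜ + r A = r univ) ∧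
  dual r univ = nu r univ ∧ nu (dual r) univ = r univ ∧ nu r (univ : Finset α) + r univ = Fintype.card α ∧
  (∀ e, Loo (dual r) e ↔ Clo r e) ∧ (∀ e, Clo (dual r) e ↔ Loo r e)

/-- Cyclic sets: everything by duality from `Stmt_FLA` (complements of flats of the dual), or
directly. `cyp r A = (clo (dual r) Aᶜ)ᶜ`. -/
def Stmt_CYC : Prop := ∀ (α : Type) [Fintype α] [DecidableEq α] (r : Finset α → ℕ), IsRank r →
  (∀ A, cyp r A ⊆ A ∧ nu r (cyp r A) = nu r A ∧ IsCy r (cyp r A)) ∧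
  (∀ A G, IsCy r G → G ⊆ A → G ⊆ cyp r A) ∧
  (∀ A B : Finset α, A ⊆ B → nu r A ≤ nu r B) ∧
  (∀ G G', IsCy r G' → G ⊂ G' → nu r G < nu r G') ∧
  (∀ G G', IsCy r G → IsCy r G' → IsCy r (G ∪ G')) ∧
  (∀ G e, IsCy r G → e ∈ G → nu r (cyp r (G.erase e)) + 1 = nu r G) ∧
  (∀ G G' i, IsCy r G → IsCy r G' → G ⊆ G' → nu r G + 2 ≤ nu r G' → i ∈ G' →
    ∃ K, IsCy r K ∧ G ⊂ K ∧ K ⊂ G' ∧ i ∈ K ∧ nu r K + 1 = nu r G') ∧
  (∀ G' G1 G2, IsCy r G' → IsCy r G1 → IsCy r G2 → G1 ⊆ G' → G2 ⊆ G' → nu r G1 + 1 = nu r G' →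
    nu r G2 + 1 = nu r G' → G1 ≠ G2 → G1 ∪ G2 = G' ∧ nu r (G1 ∩ G2) + 2 = nu r G') ∧
  IsCy r (∅ : Finset α) ∧ IsCy r (top r).G ∧ nu r (top r).G = nu r univ ∧
  (∀ G, IsCy r G → G ⊆ (top r).G) ∧ (∀ e, e ∈ (top r).G ↔ ¬ Clo r e)

/-- Heights. Strict monotonicity: if `F` changes the rank changes (flats), if `G` changes the
nullity changes (cyclic sets). -/
def Stmt_HT : Prop := ∀ (α : Type) [Fintype α] [DecidableEq α] (r : Finset α → ℕ), IsRank r →
  (∀ s, Ex0 r s ↔ IsFl r s.F ∧ IsCy r s.G ∧ s.G ⊆ s.F ∧ (s.G.Nonempty → s.S = true) ∧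
    (s.T = true → s.S = true) ∧ (s.T = true → s.F = univ)) ∧
  Ex0 r (bot r) ∧ Ex0 r (top r) ∧ (∀ s, Ex0 r s → bot r ≤ s ∧ s ≤ top r) ∧
  ht r (bot r) = 0 ∧ ht r (top r) = Fintype.card α + 2 ∧
  (∀ s, ht r s = r s.F + nu r s.G + (if s.S = true then 1 else 0) + (if s.T = true then 1 else 0)) ∧
  (∀ s t, Ex0 r s → Ex0 r t → s < t → ht r s < ht r t) ∧
  (∀ s, Sta r s → 1 ≤ ht r s ∧ ht r s ≤ Fintype.card α + 1) ∧
  (∀ s i, Ex0 r s → (i ∈ s.G ∨ s.T = true) → i ∈ s.F ∧ s.S = true) ∧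
  (∀ s t, Ex0 r s → Ex0 r t → s ≤ t → ncc s t ≤ ht r t - ht r s)

/-- Duality of the complex. `l ∘ du`: span induction and `vv al i ∘ du = zz al i`. -/
def Stmt_DU2 : Prop := ∀ (α : Type) [Fintype α] [DecidableEq α] (r : Finset α → ℕ), IsRank r →
  (∀ s : Pt α, du (du s) = s) ∧ (∀ s t : Pt α, du s ≤ du t ↔ t ≤ s) ∧
  (∀ s t : Pt α, du s < du t ↔ t < s) ∧
  du (bot r) = top (dual r) ∧ du (top r) = bot (dual r) ∧
  (∀ s, Ex0 (dual r) (du s) ↔ Ex0 r s) ∧ (∀ s, Sta (dual r) (du s) ↔ Sta r s) ∧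
  (∀ s, Ex0 r s → ht (dual r) (du s) + ht r s = Fintype.card α + 2) ∧
  (∀ (i : α) (s : Pt α), Nop i (du s) ↔ Nop i s) ∧
  (∀ (a b : Pt α) (i : α), Cri (du b) (du a) i ↔ Cri a b i) ∧
  (∀ (al : ℝ) (i : α) (s : Pt α), vv al i (du s) = zz al i s) ∧
  (∀ (be : ℝ) (i : α) (s : Pt α), zz be i (du s) = vv be i s) ∧
  (∀ (al be : ℝ) (l : Pt α → ℝ), l ∈ Lin r al be → (fun s => l (du s)) ∈ Lin (dual r) be al) ∧
  (∀ ρ, Fc (dual r) (ρ.image du) ↔ Fc r ρ) ∧ (∀ ρ, Chn (dual r) (ρ.image du) ↔ Chn r ρ) ∧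
  (∀ (al be : ℝ) ρ, tw (dual r) be al (ρ.image du) = tw r al be ρ) ∧
  (∀ a b : Pt α, mid (dual r) (du b) (du a) = (mid r a b).image du) ∧
  (∀ a b : Pt α, ncc (du b) (du a) = ncc a b)

/-- Coordinates of the linear functions. (1) `→`: span induction (`vv al i`: `φ = - e_i`,
`σ = 1 - al`, `τ = al`; `zz be i`: `γ = e_i`, `σ = - be`, `τ = - (1 - be)`); `←`:
`l = Σ (-φ i) vv al i + Σ γ i zz be i` (`σ`, `τ` are determined by `tot`, `pot`).
(2) `l bot = l top = 0`, `psi bot = psi top`. (3) a step with exactly one different component. -/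
def Stmt_DEC : Prop := ∀ (α : Type) [Fintype α] [DecidableEq α] (r : Finset α → ℕ) (al be : ℝ),
  IsRank r → (∀ l, l ∈ Lin r al be ↔ ∃ φ γ σ τ, Dec r al be l φ γ σ τ) ∧
  (∀ l φ γ σ τ, Dec r al be l φ γ σ τ → l (bot r) = 0 ∧ l (top r) = 0 ∧
    psi al be φ γ σ (bot r) = psi al be φ γ σ (top r) ∧
    ∀ a b : Pt α, a ≤ b → ncc a b = 1 →
      psi al be φ γ σ b - psi al be φ γ σ a = kap al be a b * (l b - l a))

/-! ## Layer 1: chains and gaps -/

/-- Existence of states between. If `F` changes and `b.T = a.T`: `(clo (insert e a.F), ..)`, `e ∈ b.F \ a.F`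
has height `+1` (and is `≠ b` by the height). If `S` changes: `a` with `S = true`. If `F = a.F = b.F`,
`S` does not change and `G` changes: `K` with `nu K = nu a.G + 1` between (take `e ∈ b.G \ a.G` and
erase elements: repeat `cyp (erase ..)`; or dual of the flat step), `K ⊆ b.G ⊆ b.F = a.F`. If only `T`
changes the height difference is 1. If `F` and `T` change: the `F`-step (keep `T`). If `G` and `T` change
(`F` does not): the `G`-step. -/
def Stmt_BET : Prop := ∀ (α : Type) [Fintype α] [DecidableEq α] (r : Finset α → ℕ), IsRank r →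
  ∀ a b, Ex0 r a → Ex0 r b → a < b → ht r a + 2 ≤ ht r b →
    ∃ v, Ex0 r v ∧ a < v ∧ v < b ∧ ht r v = ht r a + 1

/-- Gaps of chains. (3) the heights of the elements of a chain are different. (4) the open height
intervals of different gaps are disjoint and consist of missing heights. (7) `a` = largest unopened
element of `hat`, `b` = smallest closed element. -/
def Stmt_GAP : Prop := ∀ (α : Type) [Fintype α] [DecidableEq α] (r : Finset α → ℕ), IsRank r →
  ∀ ρ, Chn r ρ →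
  (∀ s ∈ hat r ρ, Ex0 r s) ∧ (∀ s ∈ hat r ρ, ∀ t ∈ hat r ρ, s ≤ t ∨ t ≤ s) ∧
  (∀ a b v, Gp r ρ a b → v ∈ mid r a b → Sta r v ∧ v ∉ ρ ∧ Chn r (insert v ρ) ∧
    Gp r (insert v ρ) a v ∧ Gp r (insert v ρ) v b) ∧
  (∀ a b v a' b', Gp r ρ a b → v ∈ mid r a b → Gp r ρ a' b' → (a', b') ≠ (a, b) →
    Gp r (insert v ρ) a' b') ∧
  (∀ v, v ∉ ρ → Chn r (insert v ρ) → ∃ a b, Gp r ρ a b ∧ v ∈ mid r a b) ∧
  (miss r ρ).card + ρ.card = Fintype.card α + 1 ∧
  (∀ g : Finset (Pt α × Pt α), (∀ p ∈ g, Gp r ρ p.1 p.2) →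
    ∑ p ∈ g, (ht r p.2 - ht r p.1 - 1) + ρ.card ≤ Fintype.card α + 1) ∧
  (∀ a b a' b', Gp r ρ a b → Gp r ρ a' b' → (a = a' ∧ b = b') ∨ b ≤ a' ∨ b' ≤ a) ∧
  (∀ t, 1 ≤ t → t ≤ Fintype.card α + 1 → (∀ s ∈ ρ, ht r s ≠ t) →
    ∃ a b, Gp r ρ a b ∧ ht r a < t ∧ t < ht r b) ∧
  (∀ i, (∀ s ∈ ρ, Nop i s) → ∃ a b, Gp r ρ a b ∧ Cri a b i ∧
    ∀ a' b' v, Gp r ρ a' b' → (a', b') ≠ (a, b) → v ∈ mid r a' b' → Nop i v)

/-- A gap with a critical element has an opener and a closer among its different components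
(`F` or `S`, and `G` or `T`), so its height difference is at least 2; so a face has at most `n`
elements. Exact form of the gap: `ncc` counts components. -/
def Stmt_DIM : Prop := ∀ (α : Type) [Fintype α] [DecidableEq α] (r : Finset α → ℕ), IsRank r →
  (∀ a b i, Ex0 r a → Ex0 r b → a < b → Cri a b i → (a.F ≠ b.F ∨ a.S ≠ b.S) ∧
    (a.G ≠ b.G ∨ a.T ≠ b.T) ∧ 2 ≤ ncc a b ∧ ht r a + 2 ≤ ht r b) ∧
  (∀ ρ, Fc r ρ → ρ.card ≤ Fintype.card α)

/-- Insertion into a critical gap keeping `i` never open. Cases: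
`a.S = false, b.T = true` (`b.F = univ`, `a.G = ∅`): if `a.F ≠ univ`: `v = (univ, ∅, false, false)`, else
`b.G ≠ ∅` and `v = (univ, ∅, true, true)`.
`a.S = false, b.T = false` (so `i ∈ b.G`, `b.S = true`): if `a.F ≠ b.F`: `v = (b.F, ∅, false, false)`; else
`nu b.G ≥ 2` and `v = (b.F, K, true, false)` with `K` from `Stmt_CYC` (`G = ∅`, `G' = b.G`, `i ∈ K`).
`a.S = true, b.T = true`: (then `i ∉ a.F`, `a.T = false`) the dual of the previous case: if `a.G ≠ b.G`:
`v = (univ, a.G, true, true)`; else `r a.F + 2 ≤ r univ` and `v = (F1, a.G, true, false)`, `i ∉ F1` flat.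
`a.S = true, b.T = false`: `i ∈ b.G \ a.F`. If `r b.F ≥ r a.F + 2`: `v = (F1, a.G, true, false)` with
`i ∉ F1`. Otherwise `nu b.G ≥ nu a.G + 2`: `v = (b.F, K, true, false)`, `i ∈ K`, `a.G ⊂ K ⊂ b.G`. -/
def Stmt_CG : Prop := ∀ (α : Type) [Fintype α] [DecidableEq α] (r : Finset α → ℕ), IsRank r →
  ∀ a b i, Ex0 r a → Ex0 r b → a < b → Cri a b i → ht r a + 3 ≤ ht r b →
    ∃ v ∈ mid r a b, Nop i v

/-- Purity. Extend a face with less than `n` elements: let `i` be never open, `(a, b)` its critical gap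
(`Stmt_GAP`). If `ht b - ht a ≥ 3`: `Stmt_CG`. Otherwise there is another missing height
(`card miss ≥ 2`), in another gap `(a', b')`, `Stmt_BET` there; `Nop i v` by the last part of
`Stmt_GAP`. (`ρ = ∅`: any `i`; `n ≥ 1`.) Then induction on `n - ρ.card`. -/
def Stmt_PUR : Prop := ∀ (α : Type) [Fintype α] [DecidableEq α] (r : Finset α → ℕ), IsRank r →
  ∀ ρ, Fc r ρ → ∃ σ, Fc r σ ∧ ρ ⊆ σ ∧ σ.card = Fintype.card α

/-- Every missing rank and every missing nullity lies in a gap and makes its height difference larger: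
`ht b - ht a - 1 ≥ (ncc a b - 1) + #{missing ranks between} + #{missing nullities between}`.
Add the gaps of the missing levels to `g` and use `Stmt_GAP`. -/
def Stmt_ACC : Prop := ∀ (α : Type) [Fintype α] [DecidableEq α] (r : Finset α → ℕ), IsRank r →
  ∀ ρ, Chn r ρ → ∀ g : Finset (Pt α × Pt α), (∀ p ∈ g, Gp r ρ p.1 p.2) →
    ∑ p ∈ g, (ncc p.1 p.2 - 1) + (mF r ρ).card + (mG r ρ).card + ρ.card ≤ Fintype.card α + 1

/-- (SEP). If it fails for the face `ρ` there is `c ≠ 0` on `ρ` with `Σ_{s ∈ ρ} c s * l s = 0` for all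
linear `l` (`Submodule.exists_le_ker_of_lt_top` for the range of the restriction to `ρ`).
For an event `ε` (`i ∈ F`; `i ∈ G`; `S`; `T`) let `K ε = Σ c s` over the `s ∈ ρ` where `ε` has happened.
`l = vv al i`: `K(i ∈ F) = (1 - al) K(S) + al K(T)` for all nonloops `i`; `l = zz be i`:
`K(i ∈ G) = be K(S) + (1 - be) K(T)` for all noncoloops `i`. Let `i` be never open: opened at `s` iff
closed at `s`. `{s : i ∈ s.F}` and `{s : s.S}` are nested (chain), so `K(opened)` is `K(i ∈ F)` or `K(S)`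
(`K(S)` if `i` is a loop), and `K(closed)` is `K(i ∈ G)` or `K(T)` (`K(T)` if `i` is a coloop). In all four cases
`al + be < 1` gives `K(S) = K(T)`, so all `K ε` are equal to one number `k`. At the largest element of `ρ`
some event has not happened (it is not `top`): its `K` is `0`, so `k = 0`. (Events: nonloops entering `F`,
noncoloops entering `G`, `S`, `T`.) For `s ∈ ρ` let `s'` be its predecessor in `ρ` (or `bot`): some event has
happened at `s` but not at `s'`: so `Σ_{t ∈ ρ, s ≤ t} c t = 0` for all `s ∈ ρ`, so `c = 0`. -/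
def Stmt_SEP' : Prop := Stmt_SEP

/-! ## Layer 2: balancing -/

/-- Double gaps. The different components are: only `F` (rank + 2), only `G` (nullity + 2), or exactly two of
`F, G, S, T` (each once). Only `F`: `mid` = the flats between (in bijection), first case with `A = N - 1`,
`B = 1`, `N` = their number (each `i ∈ b.F \ a.F` is in exactly one; use the coordinates of `l`,
`Stmt_DEC`). Only `G`: `A = 1`, `B = N - 1`. `S, F`; `G, T`; `F, G` with `b.G ⊆ a.F`: two elements, second case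
(`cf` = `kap a p - kap p b` is `± al`, `± be`, `± (1 - al - be)`). `F, G` with `¬ b.G ⊆ a.F`; `S, G`; `F, T`; `S, T`:
only the opener (`F` or `S`) can come first: third case, `i ∈ b.G \ a.F`; `i ∈ b.G`; `i ∉ a.F`; any `i`. -/
def Stmt_DG : Prop := ∀ (α : Type) [Fintype α] [DecidableEq α] [Nonempty α] (r : Finset α → ℕ)
  (al be : ℝ), IsRank r → Win al be → ∀ a b, Ex0 r a → Ex0 r b → a < b → ht r b = ht r a + 2 →
  ((∀ i, ¬ Cri a b i) ∧ (∀ p ∈ mid r a b, kap al be a p = kap al be p b) ∧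
    (∀ p ∈ mid r a b, ∀ p' ∈ mid r a b, kap al be a p = kap al be a p') ∧
    ∃ A B : ℝ, ∀ l ∈ Lin r al be, ∑ p ∈ mid r a b, l p = A * l a + B * l b) ∨
  ((∀ i, ¬ Cri a b i) ∧ ∃ p q, p ≠ q ∧ mid r a b = {p, q} ∧
    kap al be a p - kap al be p b = - (kap al be a q - kap al be q b) ∧
    kap al be a p ≠ kap al be p b ∧ ∀ l ∈ Lin r al be, l p + l q = l a + l b) ∨
  ((∃ i, Cri a b i) ∧ ∃ p, mid r a b = {p} ∧ kap al be a p - kap al be p b =
    (if a.S ≠ b.S then 1 else 1 - al) - (if a.T ≠ b.T then 0 else be) ∧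
    0 < kap al be a p - kap al be p b)

/-- The top weight in terms of the gap. A chain `σ` with `n` elements has exactly one missing height; `(a, b)` is
the gap with height difference 2, all others have 1. If `i` is never open its critical gap has two
different components, so it is `(a, b)`. Conversely `i` critical in `(a, b)` is unopened at all elements `≤ a`
and closed at all elements `≥ b`. `kop σ = 1` iff `S` changes in `(a, b)`: `→` (if `i` is closed
at all elements with `S`, consider the gap where `S` changes: `i` is unopened below and closed above, critical);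
`←` any critical `i`. The same for `kcl`. -/
def Stmt_TW : Prop := ∀ (α : Type) [Fintype α] [DecidableEq α] [Nonempty α] (r : Finset α → ℕ)
  (al be : ℝ), IsRank r → Win al be → ∀ σ a b, Chn r σ → σ.card = Fintype.card α → Gp r σ a b →
  ht r b = ht r a + 2 → (Fc r σ ↔ ∃ i, Cri a b i) ∧ (Fc r σ → tw r al be σ =
    1 / ((if a.S ≠ b.S then 1 else 1 - al) - (if a.T ≠ b.T then 0 else be)))

/-- The relation of a chain: `psi` telescopes over all gaps from `bot` to `top`, the gaps with one different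
component contribute `kap * (l b - l a) = 0`. -/
def Stmt_REL : Prop := ∀ (α : Type) [Fintype α] [DecidableEq α] (r : Finset α → ℕ) (al be : ℝ),
  IsRank r → ∀ ρ, Chn r ρ → ∀ l φ γ σ τ, Dec r al be l φ γ σ τ → (∀ s ∈ ρ, l s = 0) →
  ∀ g : Finset (Pt α × Pt α), (∀ p ∈ g, Gp r ρ p.1 p.2) →
    (∀ a b, Gp r ρ a b → ncc a b ≠ 1 → (a, b) ∈ g) →
    ∑ p ∈ g, (psi al be φ γ σ p.2 - psi al be φ γ σ p.1) = 0

/-- Balancing. Two missing heights. (A) two gaps `(a1, b1)`, `(a2, b2)` with height difference 2: the link vertices are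
in `mid a1 b1` or `mid a2 b2`, `tw (insert v ρ) = [(a2, b2) critical] / c2` for `v ∈ mid a1 b1` and
symmetrically (`Stmt_TW`, `c` = the number there `= kap a p - kap p b`). Some gap is critical, say 2. If 1 is
critical too: `mid = {p1}`, `{p2}`, and `Stmt_REL` says `c1 l p1 + c2 l p2 = 0`. If 1 is not critical: `Σ_{mid a1 b1} l = 0` by
`Stmt_DG`. (B) one gap `(a, b)` with difference 3; `X`, `Y` = elements of `mid a b` of height `+1`, `+2`. For
`v ∈ X, p ∈ Y, v < p` let `k1 = kap a v, k2 = kap v p, k3 = kap p b`; `Stmt_REL`: `(k1 - k2) l v + (k2 - k3) l p = 0`.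
Consider `S = Σ_{v < p} (l v / (k2 - k3) + l p / (k1 - k2))` (with `1/0 = 0`). For fixed `v` the sum over `p` of
`1 / (k2 - k3)` is `0` if `(v, b)` is not critical and `tw (insert v ρ)` otherwise (`Stmt_DG`, `Stmt_TW`); the same for `p`;
so `S` is the sum in question. In `S` the terms with `k1 ≠ k2 ≠ k3` vanish (relation), and those with `k1 = k2 = k3`;
the terms with `k2 = k3 ≠ k1` have `l v = 0`, and for fixed `v` (`(v, b)` is of the first kind, all `p ∈ mid v b` have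
`k2 = k3`) their sum is `(1 / (k1 - k2)) Σ_p l p = (A l v + B l b) / (k1 - k2) = 0`; the same for `k1 = k2 ≠ k3`. -/
def Stmt_BAL : Prop := ∀ (α : Type) [Fintype α] [DecidableEq α] (r : Finset α → ℕ) (al be : ℝ),
  IsRank r → Win al be → ∀ ρ, ∀ l ∈ Lin r al be, (∀ u ∈ ρ, l u = 0) →
    ∑ v ∈ ρᶜ, tw r al be (insert v ρ) * l v = 0

/-! ## Layer 3: connectivity -/

/-- Intervals are connected. For `u ∈ [a, b]` the points `m = (b.F, a.G, b.S, a.T)`, `u ⊓ m = (u.F, a.G, u.S, a.T)`,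
`u ⊔ m = (b.F, u.G, b.S, u.T)` are extended states. If `m ≠ a, b`: `u - u ⊓ m - m` if `u ⊓ m ≠ a`, `u - u ⊔ m - m` if
`u ⊔ m ≠ b`; the only other `u` is `m' = (a.F, b.G, a.S, b.T)`; then (height difference `≥ 3`) there is `x` with
`a < x < m` or `m < x < b`: in the first case `m' - m' ⊔ x - x - m` (`m' ⊔ x = (x.F, b.G, x.S, b.T)`; note `a.T = b.T` because
`b.T` and `¬ a.T` would force `a.F = univ`, `a.S = true`, `m = a`), second case dual. If `m = b` (only `F`, `S` change): every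
`u` is `≥` an element of height `ht a + 1`, and two of these have an upper bound of height `ht a + 2 < ht b`
(`clo (F1 ∪ F2)`, `Stmt_FLA`; or `F`-step and `S`-step). If `m = a` (only `G`, `T`): dual (`Stmt_DU2`). -/
def Stmt_IC : Prop := ∀ (α : Type) [Fintype α] [DecidableEq α] (r : Finset α → ℕ), IsRank r →
  ∀ a b, Ex0 r a → Ex0 r b → a < b → ht r a + 3 ≤ ht r b → ∀ z : Pt α → ℝ,
    (∀ u ∈ mid r a b, ∀ v ∈ mid r a b, u < v → z u = z v) →
    ∀ u ∈ mid r a b, ∀ v ∈ mid r a b, z u = z v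

/-- the hypothesis of the critical connectivity statements -/
def EdC {α : Type} [Fintype α] [DecidableEq α] (r : Finset α → ℕ) (a b : Pt α) (z : Pt α → ℝ) : Prop :=
  ∀ u ∈ mid r a b, ∀ v ∈ mid r a b, u < v → (∃ i, Cri a b i ∧ Nop i u ∧ Nop i v) → z u = z v

/-- the conclusion -/
def CoC {α : Type} [Fintype α] [DecidableEq α] (r : Finset α → ℕ) (a b : Pt α) (z : Pt α → ℝ) : Prop :=
  ∀ u ∈ mid r a b, ∀ v ∈ mid r a b, (∃ i, Cri a b i ∧ Nop i u) → (∃ i, Cri a b i ∧ Nop i v) →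
    z u = z v

/-- Inner critical gap, three ranks. Here `a = (F, G, t, f)`, `b = (F', G', t, f)`, critical elements `I = G' \ F`. Let a PURE
ATOM be `(F1, G, t, f)`, `F1` a flat of rank `r F + 1` with `F ⊂ F1 ⊆ F'`, not `I ⊆ F1` (exists: `Stmt_FLA` (8)).
(1) Pure atoms `F1 ≠ F2` are connected: `J = clo (F1 ∪ F2)`, rank `r F + 2 < r F'`. If not `I ⊆ J`: via `(J, G)`. If
`I ⊆ J`: take an atom `F3` with not `F3 ⊆ J`; `F3 ∩ J = F` so `F3` is pure; `J' = clo (F1 ∪ F3)` has `J' ∩ J = F1`, so not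
`I ⊆ J'`; via `(J', G)`, and the same for `F2, F3`. (2) A vertex `u` with `i ∉ u.F`, `u.F ≠ F`: `u ≥ (F1, G)` with
`F1 ⊆ u.F` an atom, `i ∉ F1`. (3) `u = (F, K, t, f)`: `u < (F1, K, t, f)` for a pure atom `F1` (never open: `i ∈ I \ F1`), then
(2). (4) `u` with `i ∈ u.G`: if `r u.F ≥ r F + 2`: `(F1, G) < u` with an atom `F1 ⊂ u.F`, `i ∉ F1`; if `r u.F = r F + 1`: take
`F2` flat, `u.F ⊂ F2 ⊂ F'`, `u < (F2, u.G, t, f)` and the first case. -/
def Stmt_NCI : Prop := ∀ (α : Type) [Fintype α] [DecidableEq α] (r : Finset α → ℕ), IsRank r →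
  ∀ a b, Ex0 r a → Ex0 r b → a < b → a.S = true → b.T = false → r a.F + 3 ≤ r b.F →
    (∃ i, Cri a b i) → ∀ z, EdC r a b z → CoC r a b z

/-- Critical gap with the window start. `a = (F, ∅, f, f)`, `b = (F', G', t, f)`, critical elements `I = G'` (nonempty),
`f + g ≥ 4` (`f = r F' - r F`, `g = nu G'`). Left points are never open for all `i`. If `F ≠ F'` everything is connected
to `m = (F', ∅, f, f)`: left points `≤ m`; `u` in the middle with `u.F ≠ F`: `u > (u.F, ∅, f, f) ≤ m`; `u = (F, K, t, f)`: if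
`K = ∅`: `i ∈ I \ F`; `g ≥ 2`: `u < (F', K1, t, f)`, `i ∈ K1 ⊂ G'`; `g = 1`: `f ≥ 3`, `u < (F1, ∅, t, f)` with a flat
`F ⊂ F1 ⊂ F'`, `i ∉ F1`; if `K ≠ ∅, G'`: `u < (F', K, t, f)`, `i ∈ K`; if `K = G'`: `f ≥ 2`: `u < (F1, G', t, f)`; `f = 1`:
`g ≥ 3`, `u > (F, K1, t, f)` with `∅ ≠ K1 ⊂ G'`. If `F = F'`: the vertices are `(F, K, t, f)`, `∅ ≠ K ⊂ G'` (`K = ∅` is open for all
`i ∈ G' ⊆ F`); every `K` is contained in one of nullity `g - 1`; for two of these `K1 ≠ K2`, `cyp (K1 ∩ K2)` has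
nullity `g - 2 ≥ 1`, so it is not empty. -/
def Stmt_NCS : Prop := ∀ (α : Type) [Fintype α] [DecidableEq α] (r : Finset α → ℕ), IsRank r →
  ∀ a b, Ex0 r a → Ex0 r b → a < b → a.S = false → b.T = false → ht r a + 5 ≤ ht r b →
    (∃ i, Cri a b i) → ∀ z, EdC r a b z → CoC r a b z

/-- Critical gap with window start and window end. `a = (F, ∅, f, f)`, `b = (E, G', t, t)`, every `i` is critical,
`f + g ≥ 3`. Left and right points are not open for all `i`. If `F ≠ E` and `G' ≠ ∅`: `(E, ∅, f, f) < (E, ∅, t, t)`, all left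
points are below the first, all right points above the second; a middle `u` with `u.F ≠ F`: `u > (u.F, ∅, f, f)`; with
`u.G ≠ G'`: `u < (E, u.G, t, t)`; `u = (F, G', t, f)`: `u < (E, G', t, f)` with `i ∈ G'`. If `F = E` (`g ≥ 3`): middle vertices have
`u.G ≠ ∅`; right points are above `(E, ∅, t, t)`; `(E, K, t, f) < (E, K, t, t)` for `K ≠ G'`; `(E, G', t, f) > (E, K, t, f)`,
`∅ ≠ K ⊂ G'`. If `G' = ∅` (`f ≥ 3`): the dual. -/
def Stmt_NCT : Prop := ∀ (α : Type) [Fintype α] [DecidableEq α] (r : Finset α → ℕ), IsRank r →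
  ∀ a b, Ex0 r a → Ex0 r b → a < b → a.S = false → b.T = true → ht r a + 5 ≤ ht r b →
    (∃ i, Cri a b i) → ∀ z, EdC r a b z → CoC r a b z

/-- (CONN). At least four missing heights. `i` never open on `ρ` iff `i` is critical in a gap; then it is not open in
all other gaps (`Stmt_GAP`). (1) Two different critical gaps `g, h`: all elements of all `mid`s are link vertices. If there is a
third gap `k` with nonempty `mid`: each of its vertices is adjacent to all vertices outside `k` (use the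
critical elements of a critical gap which contains neither), so everything is connected. Otherwise
`(D_g - 1) + (D_h - 1) ≥ 4` (`D` = height difference; gaps with `D ≥ 2` have a nonempty `mid`). If `D_g ≥ 3`, `Stmt_CG` gives
`u0 ∈ mid g` not open for some critical `i` of `g`: it is adjacent to all of `mid h`; the same for `h` if `D_h ≥ 3`. If `D_h = 2`
then `D_g ≥ 4` and `mid g` is connected (`Stmt_IC`, all its edges are link edges because of `h`). (2) Exactly one critical gap `g`: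
link vertices = elements of `mid g` not open for some critical `i`, and all elements of the other `mid`s; vertices in
different gaps are adjacent. So only the case that all link vertices are in one gap `k` remains. `k ≠ g`: `D_g = 2` (`Stmt_CG`),
`D_k ≥ 4`, `Stmt_IC`. `k = g`: `D_g ≥ 5`: `a.S = true, b.T = false`: `Stmt_NCI` or its dual; `a.S = false, b.T = false`: `Stmt_NCS`;
`a.S = true, b.T = true`: its dual; `a.S = false, b.T = true`: `Stmt_NCT`. -/
def Stmt_CON : Prop := ∀ (α : Type) [Fintype α] [DecidableEq α] (r : Finset α → ℕ), IsRank r →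
  ∀ ρ, Fc r ρ → ρ.card + 3 ≤ Fintype.card α → ∀ z : Pt α → ℝ,
    (∀ u v, Lkv r ρ u → Lkv r ρ v → u ≠ v → Fc r (insert u (insert v ρ)) → z u = z v) →
    ∀ u v, Lkv r ρ u → Lkv r ρ v → z u = z v

/-! ## Layer 4: the sign criterion -/

/-- The sign criterion, abstract. `y` = the ample class (`it_pos` in HRDiv: `dv a (dv a w) ρ > 0`). If the inequality
fails for `x`, then `x' = x - (q(x,y)/q(y,y)) y` has `q(x',x') > 0`, `q(x',y) = 0`, so `q` is positive on the span of `x', y`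
minus `0`. Subtract linear functions so that `x' = y = 0` on `ρ`; choose `(s,t) ≠ 0` with `Σ_Z μ (s x' + t y) = 0`; subtract
`l`: `f = s x' + t y - l` is `0` on `ρ` and on `Z`, `q(f,f) > 0`. But with `H u v = w (ρ + u + v)` (`u ≠ v`), `H u u = q(e_u, e_u)` and
`H l = 0` for linear `l` vanishing on `ρ`: `H u u * h u = - Σ_{v ≠ u} H u v * l v ≤ - Σ_{v ≠ u} H u v * h v` for `u ∉ Z`, hence for `f = h φ`
on the link vertices outside `Z`: `q(f,f) ≤ - (1/2) Σ_{u ≠ v} H u v h u h v (φ u - φ v)² ≤ 0`. -/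
def Stmt_QC : Prop := ∀ (V : Type) [Fintype V] [DecidableEq V] (C : Cx V) (n : ℕ)
  (w : Finset V → ℝ) (a : V → ℝ), Top C n w → Amp C a → ∀ ρ, C.F ρ → ρ.card + 2 = n →
  ∀ (Z : Finset V) (h : V → ℝ), (∀ u ∈ Z, u ∉ ρ ∧ C.F (insert u ρ) ∧ h u = 0) →
  (∃ μ : V → ℝ, ∀ f : V → ℝ, ∑ u ∈ Z, μ u * f u = 0 →
    ∃ l ∈ C.L, (∀ s ∈ ρ, l s = 0) ∧ ∀ u ∈ Z, l u = f u) →
  (∀ u, u ∉ ρ → C.F (insert u ρ) → u ∉ Z → 0 < h u ∧ ∃ l ∈ C.L, (∀ s ∈ ρ, l s = 0) ∧ l u = h u ∧
    ∀ v, v ∉ ρ → v ≠ u → C.F (insert v (insert u ρ)) → h v ≤ l v) →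
  ∃ y, 0 < dv C y (dv C y w) ρ ∧
    ∀ x, dv C x (dv C x w) ρ * dv C y (dv C y w) ρ ≤ dv C x (dv C y w) ρ ^ 2

/-- Codimension one from a face. For `z ∈ Z \ z0` let `l_z` be linear, `0` on `ρ` and on `Z \ z0` except `l_z z = 1` (`Sep`).
`μ z = l_z z0`, `μ z0 = -1` (if `z0 ∈ Z`; otherwise `μ = 0`): for `f` with `Σ μ f = 0` take `l = Σ_{z ≠ z0} f z l_z`. -/
def Stmt_QCZ : Prop := ∀ (α : Type) [Fintype α] [DecidableEq α] (r : Finset α → ℕ) (al be : ℝ),
  Sep r al be → ∀ ρ (Z : Finset (Pt α)) z0, (∀ u ∈ Z, u ∉ ρ) → Fc r (ρ ∪ Z.erase z0) →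
  ∃ μ : Pt α → ℝ, ∀ f : Pt α → ℝ, ∑ u ∈ Z, μ u * f u = 0 →
      ∃ l ∈ Lin r al be, (∀ s ∈ ρ, l s = 0) ∧ ∀ u ∈ Z, l u = f u

/-- Ample from the facets. For a face `ρ` average the `l_σ` over all facets `σ ⊇ ρ` (purity: there is one). On `ρ` it is `a`; for `v` in
the link every term is `≤ a v`, with `<` if `v ∉ σ`. There is a facet `σ ⊇ ρ` with `v ∉ σ`: take a facet `σ' ⊇ ρ + v`, `τ = σ' - v`, `l`
linear with `l = 0` on `τ`, `l v = 1` (`sep`); balancing at `τ` (all weights of facets positive, others `0`) gives another `v'` with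
`τ + v'` a facet. (Faces have at most `n` elements: hypothesis `hd`; the weight vanishes except on `n`-sets: `hw`.) -/
def Stmt_FAM : Prop := ∀ (V : Type) [Fintype V] [DecidableEq V] (C : Cx V) (n : ℕ)
  (w : Finset V → ℝ) (a : V → ℝ), Top C n w → (∀ ρ, C.F ρ → ρ.card ≤ n) →
  (∀ ρ, ρ.card ≠ n → w ρ = 0) →
  (∀ σ, C.F σ → σ.card = n → ∃ l ∈ C.L, (∀ u ∈ σ, l u = a u) ∧
    ∀ v, v ∉ σ → C.F {v} → l v < a v) → Amp C a

/-- The ample function. `A = Xi + Σ |v_i - v_j| + Σ |z_i - z_j| + Σ max (v_i + z_j) Xi + Σ max (v_i + (al/xi) Xi) 0 +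
Σ max (z_j + (be/xi) Xi) 0` (sums over nonloops `i` for `v`, noncoloops `j` for `z`, `xi = 1 - al - be`). Let `σ` be a facet,
`i0` never open on `σ`, `l0` = `0` if no element of `σ` is in the middle; otherwise `y z_{i0}` if `i0 ∈ G` at all middle
elements of `σ`, `x v_{i0}` if `i0 ∉ F` at all middle elements, else `v_{i0} + z_{i0}` (`x = xi/(1-al)`, `y = xi/(1-be)`): `l0 = Xi` on `σ`,
`l0 ≤ Xi` on all states, and `l0 v < Xi v` if `i0` is open at `v`. (In the three cases `i0` is a noncoloop; a nonloop; both.)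
In every maximum one of the two functions (with `l0` in place of `Xi`) attains it on all of `σ` because `σ` is a chain; take it.
Strict at a state `v ∉ σ`: if `v` is comparable with all of `σ`, `i0` is open at `v` (else a face with `n + 1` elements), so
`l0 v < Xi v`. Otherwise `v` and some `s ∈ σ` are incomparable: `F`s incomparable: `|v_i - v_j|`; `G`s incomparable:
`|z_i - z_j|`; both middle, `s.F ⊂ v.F`, `v.G ⊂ s.G` (or reversed): `i ∈ v.F \ s.F`, `j ∈ s.G \ v.G`: `max (v_i + z_j) Xi`; one left,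
one middle, `F`s wrong: `i` in the difference: `max (v_i + (al/xi) Xi) 0`; one right, one middle: `max (z_j + (be/xi) Xi) 0`; left and
right are always comparable. -/
def Stmt_AMF : Prop := ∀ (α : Type) [Fintype α] [DecidableEq α] (r : Finset α → ℕ) (al be : ℝ),
  IsRank r → Win al be → ∃ A : Pt α → ℝ, ∀ σ, Fc r σ → σ.card = Fintype.card α →
    ∃ l ∈ Lin r al be, (∀ u ∈ σ, l u = A u) ∧ ∀ v, v ∉ σ → Sta r v → l v < A v

/-! ## Layer 5: the faces with `n - 2` elements -/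

/-- Components which are not at a missing level are those of the ends of the gap. -/
def Stmt_TR0 : Prop := ∀ (α : Type) [Fintype α] [DecidableEq α] (r : Finset α → ℕ), IsRank r →
  ∀ ρ a b u, Chn r ρ → Gp r ρ a b → u ∈ mid r a b →
    (r u.F ∉ mF r ρ → u.F = a.F ∨ u.F = b.F) ∧ (nu r u.G ∉ mG r ρ → u.G = a.G ∨ u.G = b.G) ∧
    (r u.F ∉ mF r ρ → nu r u.G ∉ mG r ρ → ncc a u + ncc u b = ncc a b ∧ 1 ≤ ncc a u ∧ 1 ≤ ncc u b)

/-- One surplus component: the critical gap `g` has two different components (an opener and a closer), all other gaps one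
(`Stmt_ACC`, `Stmt_DIM`). (i) A link vertex `u` in `(a, b)` with both levels not missing would split `(a, b)` (`Stmt_TR0`), so `(a, b) = g`,
and the never open `j` of `ρ + u` is critical in `g`, hence in `(a, u)` or `(u, b)`, which has only one different component.
(ii) By (i) `nu u.G` is a missing level, so `u, u'` are in the same gap `(a, b)`, `a.G ⊂ u.G ⊂ b.G`. If only `G` changes, `u = u'`.
Otherwise `(a, b) = g`, and `G` and an opener change. Opener `S`: `u.F = a.F`, `u.G ≠ ∅` so `u.S = true`. Opener `F`: the never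
open `j` of `ρ + u` is in `b.G \ a.F`; if `u.F = b.F` then `j ∈ u.G`, so not `u.G ⊆ a.F`; if `u.F = a.F` then `u.G ⊆ a.F`: so `u.F` is
determined by `u.G`. (iii) dual of (ii). -/
def Stmt_TR1 : Prop := ∀ (α : Type) [Fintype α] [DecidableEq α] (r : Finset α → ℕ), IsRank r →
  ∀ ρ, Fc r ρ → Fintype.card α ≤ ρ.card + (mF r ρ).card + (mG r ρ).card →
    (∀ u, Lkv r ρ u → r u.F ∈ mF r ρ ∨ nu r u.G ∈ mG r ρ) ∧
    (∀ u u', Lkv r ρ u → Lkv r ρ u' → r u.F ∉ mF r ρ → r u'.F ∉ mF r ρ → u.G = u'.G → u = u') ∧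
    (∀ u u', Lkv r ρ u → Lkv r ρ u' → nu r u.G ∉ mG r ρ → nu r u'.G ∉ mG r ρ → u.F = u'.F → u = u')

/-- Two surplus components: at most two link vertices with both levels not missing (TRIVIAL vertices). Let `u` be one, in the gap
`(a, b)`, `j` never open on `ρ + u`, critical in the gap `g`. If `(a, b) ≠ g`: `ncc a b = 2 = ncc g`. If `(a, b) = g`: one of
`(a, u), (u, b)` is critical for `j` (two components), so `ncc a b = 3`. Case `ncc = 3` for a gap `(a, b)`: it is the only one with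
`ncc ≥ 2`, all trivial vertices are in it; their components are those of `a` or `b`:
`S, F, G` change (`a = (F, ∅, f, f)`, `b = (F', G', t, f)`): `(F', ∅, f, f)`; `(F, ∅, t, f)` only if not `G' ⊆ F`; `(F, G', t, f)` only if
`G' ⊆ F`; `(F', ∅, t, f)` is open for all `j ∈ G'`. `F, G, T` change (`a = (F, G, t, f)`, `b = (E, G', t, t)`): `(E, G, t, t)`;
`(E, G', t, f)` only if not `G' ⊆ F`; `(F, G', t, f)` only if `G' ⊆ F`; not `(E, G, t, f)`. `S, F, T`: `(E, ∅, f, f)`, `(F, ∅, t, f)`.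
`S, G, T`: `(E, G', t, f)`, `(E, ∅, t, t)`. Case all `ncc ≤ 2`: at most two gaps `g, h` with `ncc = 2`; a trivial vertex in one needs the
other to be critical; a gap with `ncc = 2` has at most two trivial extended states between, and only one (opener first) if it
is critical. So if both contain trivial vertices there is one in each. -/
def Stmt_TR2 : Prop := ∀ (α : Type) [Fintype α] [DecidableEq α] (r : Finset α → ℕ), IsRank r →
  ∀ ρ, Fc r ρ → Fintype.card α ≤ ρ.card + (mF r ρ).card + (mG r ρ).card + 1 →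
    ∃ z1 z2, ∀ u, Lkv r ρ u → r u.F ∉ mF r ρ → nu r u.G ∉ mG r ρ → u = z1 ∨ u = z2

/-- A missing nullity gives `QD`. Let `q` be the smallest element of `mG` and `h u = [nu u.G = q]`, `Z` = the link vertices with
`nu u.G ≠ q`. For `u ∉ Z`, in the gap `(a, b)`: `a.G ⊂ u.G ⊂ b.G` (`nu a.G, nu b.G ≠ q`); `i ∈ u.G \ a.G`, `j ∈ b.G \ u.G`,
`l = zz be i - zz be j`: `l s = [i ∈ s.G] - [j ∈ s.G]` is `0` on `ρ`, `1` at `u`, `≥ 0` at all `v` comparable with `u`, `1` if `nu v.G = q`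
(then `v.G = u.G`). The condition on `μ`: by `Stmt_ACC` and the critical gap `#mF + #mG ≤ 2`. (2,0) `mG = {q < q'}`: by `Stmt_TR1`
all `u ∈ Z` have `nu u.G = q'` and different `u.G`; for `u ∈ Z` in `(a, b)`: `nu b.G = q' + 1` (levels between are missing),
`j_u ∈ b.G \ u.G` is in `u'.G` for all other `u' ∈ Z` (otherwise `u'.G ⊆ cyp (b.G.erase j_u) = u.G`). `μ = 1`; for `Σ f = 0` take
`l = - Σ_u f u * zz be j_u`. (1,1) `mG = {q}`, `mF = {p}`: by `Stmt_TR1` all `u ∈ Z` have `r u.F = p` and different `u.F`; `i_u ∈ u.F \ a.F`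
is not in `u'.F` for the others (`r a.F = p - 1`); `μ = 1`, `l = - Σ_u f u * vv al i_u`. (1,0): `Z` has at most two elements by
`Stmt_TR2`: `Stmt_QCZ`. -/
def Stmt_QLG : Prop := ∀ (α : Type) [Fintype α] [DecidableEq α] (r : Finset α → ℕ) (al be : ℝ),
  IsRank r → Win al be → ∀ ρ, Fc r ρ → ρ.card + 2 = Fintype.card α → (mG r ρ).Nonempty →
    QD r al be ρ

/-- No missing levels, and a gap `(a, b)` with `ncc = 2` which is not critical (so its height difference is 2). `Stmt_DG`: `mid a b = {p, q}`,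
`l p + l q = l a + l b`. `Z = {p, q}` (`Stmt_QCZ`), `h = 1` outside. A link vertex `u ∉ Z` is in another gap, `ρ + u + p` is a face
(`Stmt_GAP` for `ρ + u`), so there is `l` with `l = 0` on `ρ + p`, `l u = 1`; `l q = 0`. Two link vertices `u, v ∉ Z` are not adjacent:
otherwise `ρ + u + v + p` is a face with `n + 1` elements. -/
def Stmt_Q0A : Prop := ∀ (α : Type) [Fintype α] [DecidableEq α] (r : Finset α → ℕ) (al be : ℝ),
  IsRank r → Win al be → ∀ ρ, Fc r ρ → ρ.card + 2 = Fintype.card α → mF r ρ = ∅ → mG r ρ = ∅ →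
  ∀ a b, Gp r ρ a b → ncc a b = 2 → (∀ i, ¬ Cri a b i) → QD r al be ρ

/-- No missing levels, three different critical gaps. Each has height difference 2 and `mid = {p_k}` (`Stmt_DG`); the link vertices
are `p_1, p_2, p_3`; `Z = {p_1, p_2, p_3}`, `ρ + p_1 + p_2` is a face (`Stmt_QCZ`). -/
def Stmt_Q0B : Prop := ∀ (α : Type) [Fintype α] [DecidableEq α] (r : Finset α → ℕ) (al be : ℝ),
  IsRank r → Win al be → ∀ ρ, Fc r ρ → ρ.card + 2 = Fintype.card α → mF r ρ = ∅ → mG r ρ = ∅ →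
  ∀ a b a' b' a'' b'', Gp r ρ a b → Gp r ρ a' b' → Gp r ρ a'' b'' → (a, b) ≠ (a', b') →
  (a, b) ≠ (a'', b'') → (a', b') ≠ (a'', b'') → (∃ i, Cri a b i) → (∃ i, Cri a' b' i) →
  (∃ i, Cri a'' b'' i) → QD r al be ρ

/-- No missing levels, two different gaps `(a, b)` and `(a', b')`, the second critical, `ncc a b = 3`. By `Stmt_ACC` `ncc a' b' = 2`, all other gaps have
`ncc = 1`; `ht b - ht a = 3`, `ht b' - ht a' = 2`, `mid a' b' = {p'}` (`Stmt_DG`), `p'` is open for all critical `i` of `(a', b')`. `S` and `T` do not both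
change in `(a, b)` (otherwise `a', b'` are both left or both right: no critical element). So `S, F, G` or `F, G, T` change (dual, `Stmt_DU2`; or do both
by hand). Link vertices: `p'` and all elements of `mid a b`. Never open elements are critical in one of the two gaps. Let `a = (F, G, ..)`,
`b = (F', G', ..)`; for linear `l` vanishing on `ρ` the values on `mid a b` are sums of step values `δ_c`, `Σ δ_c = 0` (`l a = l b = 0`,
coordinates `Stmt_DEC`). NO = not open for some critical `i` of `(a, b)`; only NO vertices are adjacent to `p'`. Type I (not `G' ⊆ F`): `mid a b = {P, A1, A2}`,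
`A1, A2` NO, `P` not NO, `P` comparable with `A1, A2`, which are incomparable, and `l P = l A1 + l A2`: `S, F, G`: `P = (F', ∅, t, f)`,
`A = (F', ∅, f, f), (F, ∅, t, f)`; `F, G, T`: `P = (E, G, t, f)`, `A = (E, G, t, t), (E, G', t, f)`. `Z = {A1, A2, p'}` (`ρ + A2 + p'` is a face, `Stmt_QCZ`),
`h P = 1`: `l = 0` on `ρ + A2`, `l P = 1` (`Sep` on `ρ + A2 + P`), `l A1 = 1`. Type II (`G' ⊆ F`): `mid a b = {P, A, M, Q}`, `A, Q` NO, `P, M` not NO,
comparable pairs `P A`, `P M`, `M Q`; `l P = l A + l M`, `l Q = - l A`: `S, F, G`: `P = (F', ∅, t, f)`, `A = (F', ∅, f, f)`, `M = (F, ∅, t, f)`,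
`Q = (F, G', t, f)`; `F, G, T`: `P = (E, G, t, f)`, `A = (E, G, t, t)`, `M = (E, G', t, f)`, `Q = (F, G', t, f)`. `Z = {A, Q}`, `h = 1` on `P, M, p'`: for `P, M`:
`l = 0` on `ρ + A`, `l P = 1`, so `l M = 1`, `l Q = 0`; for `p'`: `l = 0` on `ρ + A`, `l p' = 1`, so `l Q = 0`. -/
def Stmt_Q0C : Prop := ∀ (α : Type) [Fintype α] [DecidableEq α] (r : Finset α → ℕ) (al be : ℝ),
  IsRank r → Win al be → ∀ ρ, Fc r ρ → ρ.card + 2 = Fintype.card α → mF r ρ = ∅ → mG r ρ = ∅ →
  ∀ a b a' b', Gp r ρ a b → Gp r ρ a' b' → (a, b) ≠ (a', b') → ncc a b = 3 → (∃ i, Cri a' b' i) →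
  QD r al be ρ

/-- No missing levels, one gap `(a, b)` with all four components different: `a = (F, ∅, f, f)`, `b = (E, G', t, t)`, height difference 4, all other gaps
have `ncc = 1`. `mid a b` = `A = (E, ∅, f, f)`, `B = (F, ∅, t, f)`, `P = (E, ∅, t, f)`, `C = (E, ∅, t, t)`, `D = (E, G', t, f)`, and `Q = (F, G', t, f)` if
`G' ⊆ F`. Link vertices: all but `P`. Link edges: `A C`, `A D`, `B C`, `B D` if not `G' ⊆ F`, `B Q`, `Q D` if `G' ⊆ F`. For linear `l` vanishing on `ρ`: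
`l A = δF`, `l B = δS`, `l C = δS + δF + δT = -δG`, `l D = -δT`, `l Q = δS + δG`, and `Stmt_REL`: `δS + (1 - al) δF + be δG = 0`. So
`be l C = l B + (1 - al) l A` and `xi l Q = (1 - al) l D + (1 - be) l B` (`xi = 1 - al - be`). `Z = {A, B, D}` (`ρ + A + D` is a face),
`h C = h Q = 1`: for `C`: `l = 0` on `ρ + A`, `l C = 1`, `l B = be ≥ 0`; for `Q`: `l = 0` on `ρ + B`, `l Q = 1`, `l D = xi / (1 - al) ≥ 0`. -/
def Stmt_Q0D : Prop := ∀ (α : Type) [Fintype α] [DecidableEq α] (r : Finset α → ℕ) (al be : ℝ),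
  IsRank r → Win al be → ∀ ρ, Fc r ρ → ρ.card + 2 = Fintype.card α → mF r ρ = ∅ → mG r ρ = ∅ →
  ∀ a b, Gp r ρ a b → ncc a b = 4 → QD r al be ρ

/-- All faces with `n - 2` elements. If `mG ≠ ∅`: `Stmt_QLG`. If `mF ≠ ∅`: `Stmt_QLG` for the dual (`QD` is transported by `du`: `mG` of the
dual face is nonempty; `Z`, `h`, `μ`, `l` composed with `du`). Otherwise every gap has `ht b - ht a = ncc a b`, and the sum of `ncc - 1` over the gaps is
`3`. If a gap with `ncc = 2` is not critical: `Stmt_Q0A`. A gap with `ncc ≥ 3` is critical (`S, F, G`: `i ∈ b.G`; `F, G, T`: `i ∉ a.F`; if `S` and `T` change: any `i`).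
So: three critical gaps (`Stmt_Q0B`), or `3 + 2` (`Stmt_Q0C`), or one with `ncc = 4` (`Stmt_Q0D`). -/
def Stmt_QDA : Prop := ∀ (α : Type) [Fintype α] [DecidableEq α] (r : Finset α → ℕ) (al be : ℝ),
  IsRank r → Win al be → ∀ ρ, Fc r ρ → ρ.card + 2 = Fintype.card α → QD r al be ρ

end Pool.Agent.QPR
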